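import Pool.Agent.TH69.MsDefs

set_option autoImplicit false

/-!
# Subnormal simple subgroups (section B of helper69's project Ns; written by helper767)
-/

namespace Pool.Agent.TH69.Ms

open scoped commutatorElement

namespace NsB

theorem cm_iff {G : Type} [Group G] (A B : Subgroup G) : Cm A B ↔ ⁅A, B⁆ = ⊥ := by
  rw [Subgroup.commutator_eq_bot_iff_le_centralizer]
  constructor
  · intro h a ha
    rw [Subgroup.mem_centralizer_iff]
    intro b hb
    exact (h a ha b hb).symm
  · intro h a ha b hb
    exact ((Subgroup.mem_centralizer_iff.1 (h ha)) b hb).symm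

/-- a nonabelian simple subgroup is perfect -/
theorem perfect {K : Type} [Group K] (T : Subgroup K) (h1 : IsSimpleGroup T)
    (h2 : ∃ a b : T, a * b ≠ b * a) : ⁅T, T⁆ = T := by
  have h3 : commutator T = ⊥ ∨ commutator T = ⊤ :=
    Subgroup.Normal.eq_bot_or_eq_top (inferInstance : (commutator T).Normal)
  rcases h3 with h3 | h3
  · exfalso
    obtain ⟨a, b, hab⟩ := h2
    apply hab
    have h4 : ⁅a, b⁆ ∈ commutator T :=
      Subgroup.commutator_mem_commutator (Subgroup.mem_top a) (Subgroup.mem_top b)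
    rw [h3, Subgroup.mem_bot] at h4
    exact commutatorElement_eq_one_iff_mul_comm.1 h4
  · have h5 := congrArg (Subgroup.map T.subtype) h3
    rw [commutator_def, Subgroup.map_commutator, ← MonoidHom.range_eq_map,
      Subgroup.range_subtype] at h5
    exact h5

/-- the main step: a normal subgroup not containing `T` commutes with `T` -/
theorem normal_case {K : Type} [Group K] (T N : Subgroup K) (hT : T.IsSubnormal)
    (h1 : IsSimpleGroup T) (h2 : ∃ a b : T, a * b ≠ b * a) (hN : N.Normal) (hTN : ¬ T ≤ N) :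
    Cm T N := by
  have hTT := perfect T h1 h2
  have main : ∀ L : Subgroup K, L.IsSubnormal → T ≤ L → Cm T (N ⊓ L) → Cm T N := by
    intro L hL
    induction hL with
    | top => intro _ h; rwa [inf_top_eq] at h
    | step L L' hle hS hn ih =>
      intro hTL hcm
      refine ih (hTL.trans hle) ?_
      have hcomm : ⁅T, N ⊓ L'⁆ ≤ N ⊓ L := by
        rw [Subgroup.commutator_le]
        intro t ht x hx
        obtain ⟨hxN, hxL⟩ := Subgroup.mem_inf.1 hx
        refine Subgroup.mem_inf.2 ⟨?_, ?_⟩
        · rw [commutatorElement_def]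
          exact N.mul_mem (hN.conj_mem x hxN t) (N.inv_mem hxN)
        · rw [commutatorElement_def]
          have h3 : x * t⁻¹ * x⁻¹ ∈ L := by
            have h4 := hn.conj_mem ⟨t⁻¹, hle (L.inv_mem (hTL ht))⟩
              (Subgroup.mem_subgroupOf.2 (L.inv_mem (hTL ht))) ⟨x, hxL⟩
            exact Subgroup.mem_subgroupOf.1 h4
          have h5 : t * x * t⁻¹ * x⁻¹ = t * (x * t⁻¹ * x⁻¹) := by group
          rw [h5]
          exact L.mul_mem (hTL ht) h3
      have h6 : ⁅⁅T, N ⊓ L'⁆, T⁆ = ⊥ := by
        rw [Subgroup.commutator_comm, ← cm_iff]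
        intro a ha b hb
        exact hcm a ha b (hcomm hb)
      have h7 : ⁅⁅N ⊓ L', T⁆, T⁆ = ⊥ := by
        rw [Subgroup.commutator_comm (N ⊓ L') T]
        exact h6
      have h8 := Subgroup.commutator_commutator_eq_bot_of_rotate h6 h7
      rw [hTT] at h8
      exact (cm_iff _ _).2 h8
  refine main T hT le_rfl ?_
  have hbot : N.subgroupOf T = ⊥ := by
    rcases Subgroup.Normal.eq_bot_or_eq_top
      (inferInstance : (N.subgroupOf T).Normal) with h | h
    · exact h
    · exact absurd (Subgroup.subgroupOf_eq_top.1 h) hTN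
  intro a ha b hb
  obtain ⟨hbN, hbT⟩ := Subgroup.mem_inf.1 hb
  have h3 : (⟨b, hbT⟩ : T) ∈ N.subgroupOf T := Subgroup.mem_subgroupOf.2 hbN
  rw [hbot, Subgroup.mem_bot] at h3
  have h4 : b = 1 := congrArg Subtype.val h3
  rw [h4, mul_one, one_mul]

/-- simplicity and non-commutativity are transported by isomorphisms -/
theorem transport {A B : Type} [Group A] [Group B] (e : A ≃* B) (h1 : IsSimpleGroup A)
    (h2 : ∃ a b : A, a * b ≠ b * a) : IsSimpleGroup B ∧ ∃ a b : B, a * b ≠ b * a := by
  constructor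
  · exact e.symm.isSimpleGroup
  · obtain ⟨a, b, hab⟩ := h2
    refine ⟨e a, e b, fun h => hab (e.injective ?_)⟩
    rw [map_mul, map_mul, h]

end NsB

theorem le_or_cm {K : Type} [Group K] (T S : Subgroup K) (hT : T.IsSubnormal)
    (hS : S.IsSubnormal) (h1 : IsSimpleGroup T) (h2 : ∃ a b : T, a * b ≠ b * a) :
    T ≤ S ∨ Cm T S := by
  induction hS with
  | top => exact Or.inl le_top
  | step L L' hle hS hn ih =>
    rcases ih with h | h
    · obtain ⟨h3, h4⟩ := NsB.transport (Subgroup.subgroupOfEquivOfLe h).symm h1 h2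
      by_cases h5 : T.subgroupOf L' ≤ L.subgroupOf L'
      · left
        intro t ht
        exact Subgroup.mem_subgroupOf.1 (h5 (Subgroup.mem_subgroupOf.2 (show
          ((⟨t, h ht⟩ : L') : K) ∈ T from ht)))
      · right
        have h6 := NsB.normal_case (T.subgroupOf L') (L.subgroupOf L') hT.subgroupOf h3 h4 hn h5
        intro a ha b hb
        have h7 := h6 ⟨a, h ha⟩ (Subgroup.mem_subgroupOf.2 ha) ⟨b, hle hb⟩
          (Subgroup.mem_subgroupOf.2 hb)
        exact congrArg Subtype.val h7
    · exact Or.inr fun a ha b hb => h a ha b (hle hb)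

theorem Cp.eq_or_cm {c : ℕ} {K : Type} [Group K] {T S : Subgroup K} (hT : Cp c T) (hS : Cp c S) :
    T = S ∨ Cm T S := by
  rcases le_or_cm T S hT.1 hS.1 hT.2.1 hT.2.2.1 with h | h
  · rcases le_or_cm S T hS.1 hT.1 hS.2.1 hS.2.2.1 with h' | h'
    · exact Or.inl (le_antisymm h h')
    · exfalso
      obtain ⟨a, b, hab⟩ := hT.2.2.1
      exact hab (Subtype.ext (h' a (h a.2) b b.2))
  · exact Or.inr h

/-- a subnormal simple subgroup centralises or is contained in; conjugates of components -/
theorem Cp.conj {c : ℕ} {K : Type} [Group K] {T : Subgroup K} (hT : Cp c T) (g : K) :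
    Cp c (T.map (MulAut.conj g).toMonoidHom) := by
  refine ⟨Subgroup.IsSubnormal.map (MulAut.conj g).surjective hT.1, ?_⟩
  let e := T.equivMapOfInjective (MulAut.conj g).toMonoidHom (MulAut.conj g).injective
  obtain ⟨h1, h2⟩ := NsB.transport e hT.2.1 hT.2.2.1
  refine ⟨h1, h2, ?_⟩
  rw [← hT.2.2.2]
  exact (Nat.card_congr e.toEquiv).symm

end Pool.Agent.TH69.Ms
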