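import Mathlib
import Pool.Agent.H32BU.Defs

set_option autoImplicit false

/-!
# Groups of exponent `n` with nonsoluble finite subgroups: definitions
-/

namespace Pool.Agent.TH69.Ms

/-- all nonabelian simple sections have order less than `c` (used for finite groups) -/
def Sm (c : ℕ) (K : Type) [Group K] : Prop :=
  ∀ (S : Type) [Group S], IsSimpleGroup S → (∃ a b : S, a * b ≠ b * a) →
    ∀ (X : Subgroup K) (f : X →* S), Function.Surjective f → Nat.card S < c

/-- nonabelian simple groups of order `c` -/
def Bg (c : ℕ) (T : Type) [Group T] : Prop :=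
  IsSimpleGroup T ∧ (∃ a b : T, a * b ≠ b * a) ∧ Nat.card T = c

/-- `e` lies in a subgroup with `Sm c` which is normal in `H` -/
def InO (c : ℕ) {G : Type} [Group G] (H : Subgroup G) (e : G) : Prop :=
  ∃ N : Subgroup G, N ≤ H ∧ (∀ h ∈ H, ∀ x ∈ N, h * x * h⁻¹ ∈ N) ∧ Sm c N ∧ e ∈ N

/-- all homomorphisms to finite groups with `Sm c` are trivial -/
def Pf (c : ℕ) (A : Type) [Group A] : Prop :=
  ∀ (Q : Type) [Group Q], Finite Q → Sm c Q → ∀ (g : A →* Q) (a : A), g a = 1

/-- components: subnormal nonabelian simple subgroups of order `c` -/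
def Cp (c : ℕ) {K : Type} [Group K] (T : Subgroup K) : Prop := T.IsSubnormal ∧ Bg c T

/-- the subgroup generated by the components -/
def EE (c : ℕ) (K : Type) [Group K] : Subgroup K := sSup {T : Subgroup K | Cp c T}

/-- elementwise commuting subgroups -/
def Cm {G : Type} [Group G] (A B : Subgroup G) : Prop := ∀ a ∈ A, ∀ b ∈ B, a * b = b * a

/-- all nonabelian simple sections are generated by two elements -/
def Tg (K : Type) [Group K] : Prop :=
  ∀ (S : Type) [Group S], IsSimpleGroup S → (∃ a b : S, a * b ≠ b * a) →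
    ∀ (X : Subgroup K) (f : X →* S), Function.Surjective f →
      ∃ a b : S, Subgroup.closure {a, b} = ⊤

theorem Tg.self {K : Type} [Group K] (h : Tg K) (T : Subgroup K) (hT : IsSimpleGroup T)
    (hne : ∃ a b : T, a * b ≠ b * a) : ∃ a b : T, Subgroup.closure {a, b} = ⊤ :=
  h T hT hne T (MonoidHom.id T) Function.surjective_id

/-- (no condition; the two-generation of the simple sections is part of `Hy`) -/
def TwoGen (_ : ℕ) : Prop := True

/-- some prime dividing `c` divides `n` exactly once -/
def OneP (c n : ℕ) : Prop := ∃ p m : ℕ, p.Prime ∧ p ∣ c ∧ n = p * m ∧ Nat.Coprime p m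

/-- the standing assumptions on a finite group -/
structure Hy (c n : ℕ) (K : Type) [Group K] : Prop where
  fin : Finite K
  exp : ∀ x : K, x ^ n = 1
  sm : Sm (c + 1) K
  tg : Tg K

end Pool.Agent.TH69.Ms
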