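import Pool.Agent.TH69.MsDefs

set_option autoImplicit false

/-!
# Elements of order `p` normalise the components
-/

namespace Pool.Agent.TH69.Ms

namespace NsE

/-- the centre of a nonabelian simple group is trivial -/
theorem centre_triv {T : Type} [Group T] (h1 : IsSimpleGroup T) (h2 : ∃ a b : T, a * b ≠ b * a)
    (z : T) (hz : ∀ t : T, z * t = t * z) : z = 1 := by
  have h3 : z ∈ Subgroup.center T := by
    rw [Subgroup.mem_center_iff]
    intro g
    exact (hz g).symm
  rcases (inferInstance : (Subgroup.center T).Normal).eq_bot_or_eq_top with h | h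
  · rw [h] at h3
    exact Subgroup.mem_bot.1 h3
  · exfalso
    obtain ⟨a, b, hab⟩ := h2
    apply hab
    have h4 : b ∈ Subgroup.center T := by
      rw [h]
      exact Subgroup.mem_top b
    exact Subgroup.mem_center_iff.1 h4 a

/-- the product `(x t x⁻¹) (x² t x⁻²) ⋯ (x^j t x^(-j))` -/
def w {K : Type} [Group K] (x t : K) : ℕ → K
  | 0 => 1
  | j + 1 => w x t j * (x ^ (j + 1) * t * (x ^ (j + 1))⁻¹)

theorem w_pow {K : Type} [Group K] (x t : K) (j : ℕ) : (x * t) ^ j = w x t j * x ^ j := by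
  induction j with
  | zero => simp [w]
  | succ j ih =>
    rw [pow_succ, ih, w]
    have : x ^ (j + 1) = x ^ j * x := pow_succ x j
    rw [this]
    group

theorem w_comm {K : Type} [Group K] (x t a : K) (p : ℕ)
    (h : ∀ i, 0 < i → i < p → a * (x ^ i * t * (x ^ i)⁻¹) = (x ^ i * t * (x ^ i)⁻¹) * a) :
    ∀ j, j < p → a * w x t j = w x t j * a := by
  intro j
  induction j with
  | zero => intro _; simp [w]
  | succ j ih =>
    intro hj
    have h1 := ih (by omega)
    have h2 := h (j + 1) (by omega) hj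
    rw [w, ← mul_assoc, h1, mul_assoc, h2, ← mul_assoc]

theorem norm_of_pow' {c n p m : ℕ} (hp : p.Prime) (hpc : p ∣ c) (hn : n = p * m)
    (hcop : Nat.Coprime p m) {K : Type} [Group K] [Finite K] (hexp : ∀ x : K, x ^ n = 1)
    {T : Subgroup K} (hT : Cp c T)
    (hTS : ∀ g : K, T = T.map (MulAut.conj g).toMonoidHom ∨ Cm T (T.map (MulAut.conj g).toMonoidHom))
    {x : K} (hx : x ^ p = 1) : ∀ t ∈ T, x * t * x⁻¹ ∈ T := by
  by_contra hcon
  have hxn : x ∉ Subgroup.normalizer (T : Set K) := by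
    intro h
    apply hcon
    intro t ht
    exact (Subgroup.mem_normalizer_iff.1 h t).1 ht
  have hcm : ∀ i, 0 < i → i < p → ∀ a ∈ T, ∀ b ∈ T,
      a * (x ^ i * b * (x ^ i)⁻¹) = (x ^ i * b * (x ^ i)⁻¹) * a := by
    intro i hi0 hip
    rcases hTS (x ^ i) with h | h
    · exfalso
      apply hxn
      have h1 : x ^ i ∈ Subgroup.normalizer (T : Set K) := by
        rw [Subgroup.mem_normalizer_iff]
        intro g
        constructor
        · intro hg
          rw [h]
          exact ⟨g, hg, rfl⟩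
        · intro hg
          rw [h] at hg
          obtain ⟨g', hg', h2⟩ := hg
          have h3 : x ^ i * g' * (x ^ i)⁻¹ = x ^ i * g * (x ^ i)⁻¹ := h2
          have h4 : g' = g := by simpa using h3
          rw [← h4]
          exact hg'
      have hic : Nat.Coprime i p := by
        rw [Nat.coprime_comm, Nat.Prime.coprime_iff_not_dvd hp]
        intro hd
        exact absurd (Nat.le_of_dvd hi0 hd) (by omega)
      obtain ⟨k, -, hk⟩ := Nat.exists_mul_mod_eq_one_of_coprime hic hp.one_lt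
      have h5 : x = (x ^ i) ^ k := by
        rw [← pow_mul]
        conv_rhs => rw [← Nat.mod_add_div (i * k) p, pow_add, pow_mul, hx, one_pow, mul_one, hk,
          pow_one]
      rw [h5]
      exact Subgroup.pow_mem _ h1 k
    · intro a ha b hb
      exact h a ha _ ⟨b, hb, rfl⟩
  -- an element of order `p`
  have : Fact p.Prime := ⟨hp⟩
  obtain ⟨hT1, hT2, hT3⟩ := hT.2
  obtain ⟨t, ht⟩ := exists_prime_orderOf_dvd_card' (G := T) p (by rw [hT3]; exact hpc)
  have hp1 : p = (p - 1) + 1 := by have := hp.pos; omega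
  have hw : (x * (t : K)) ^ p = w x t (p - 1) * t := by
    rw [w_pow, hx, mul_one]
    conv_lhs => rw [hp1]
    rw [w, ← hp1, hx]
    simp
  have hwc : ∀ a ∈ T, a * w x t (p - 1) = w x t (p - 1) * a := by
    intro a ha
    exact w_comm x t a p (fun i hi0 hip => hcm i hi0 hip a ha t t.2) (p - 1)
      (by have := hp.pos; omega)
  have h1 : (w x t (p - 1)) ^ m * (t : K) ^ m = 1 := by
    have h2 : Commute (w x t (p - 1)) (t : K) := (hwc t t.2).symm
    rw [← h2.mul_pow, ← hw, ← pow_mul, ← hn]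
    exact hexp _
  have h3 : t ^ m = 1 := by
    apply centre_triv hT1 hT2
    intro s
    apply Subtype.ext
    show ((t : K)) ^ m * (s : K) = (s : K) * (t : K) ^ m
    have h4 : (t : K) ^ m = ((w x t (p - 1)) ^ m)⁻¹ := by
      rw [eq_inv_iff_mul_eq_one, ← h1]
      have h2 : Commute (w x t (p - 1)) (t : K) := (hwc t t.2).symm
      exact (h2.pow_pow m m).symm
    rw [h4]
    have h5 : Commute (s : K) (w x t (p - 1)) := hwc s s.2
    exact ((h5.pow_right m).inv_right).symm
  have h6 : p ∣ m := by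
    rw [← ht]
    exact orderOf_dvd_of_pow_eq_one h3
  exact (Nat.Prime.coprime_iff_not_dvd hp).1 hcop h6

/-- an element whose commutators with the elements of a simple nonabelian group `T` commute with `T`
commutes with `T` -/
theorem comm_of_comm {K : Type} [Group K] {T : Subgroup K} (h1 : IsSimpleGroup T)
    (h2 : ∃ a b : T, a * b ≠ b * a) (x : K)
    (hx : ∀ s ∈ T, ∀ t ∈ T, t * (x * s * x⁻¹ * s⁻¹) = (x * s * x⁻¹ * s⁻¹) * t)
    (hx' : ∀ s ∈ T, ∀ t ∈ T, t * (x⁻¹ * s * x * s⁻¹) = (x⁻¹ * s * x * s⁻¹) * t) :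
    ∀ t ∈ T, t * x = x * t := by
  -- `s ↦ x s x⁻¹ s⁻¹` is a homomorphism
  let d : T →* K :=
    { toFun := fun s => x * (s : K) * x⁻¹ * (s : K)⁻¹
      map_one' := by simp
      map_mul' := by
        intro s t
        have h := hx t t.2 s s.2
        show x * ((s : K) * (t : K)) * x⁻¹ * ((s : K) * (t : K))⁻¹ =
          (x * (s : K) * x⁻¹ * (s : K)⁻¹) * (x * (t : K) * x⁻¹ * (t : K)⁻¹)
        have h3 : x * ((s : K) * (t : K)) * x⁻¹ * ((s : K) * (t : K))⁻¹ =
          x * (s : K) * x⁻¹ * (x * (t : K) * x⁻¹ * (t : K)⁻¹) * (s : K)⁻¹ := by group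
        have h4 : (x * (t : K) * x⁻¹ * (t : K)⁻¹) * (s : K)⁻¹ =
          (s : K)⁻¹ * (x * (t : K) * x⁻¹ * (t : K)⁻¹) := by
          rw [eq_inv_mul_iff_mul_eq, ← mul_assoc, h, mul_assoc, mul_inv_cancel, mul_one]
        rw [h3, mul_assoc, h4, ← mul_assoc] }
  have hd : ∀ s : T, d s = x * (s : K) * x⁻¹ * (s : K)⁻¹ := fun s => rfl
  have hcm : ∀ s t : T, d s * d t = d t * d s := by
    intro s t
    -- `d s` commutes with `t`
    have h3 : (t : K) * d s = d s * (t : K) := hx s s.2 t t.2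
    -- `d s` commutes with `x t x⁻¹`
    have h4 : (x * (t : K) * x⁻¹) * (d s)⁻¹ = (d s)⁻¹ * (x * (t : K) * x⁻¹) := by
      have h5 := hx' s s.2 t t.2
      have h6 : (d s)⁻¹ = x * (x⁻¹ * (s : K) * x * (s : K)⁻¹) * x⁻¹ := by
        rw [hd]
        group
      rw [h6]
      calc (x * (t : K) * x⁻¹) * (x * (x⁻¹ * (s : K) * x * (s : K)⁻¹) * x⁻¹)
          = x * ((t : K) * (x⁻¹ * (s : K) * x * (s : K)⁻¹)) * x⁻¹ := by group
        _ = x * ((x⁻¹ * (s : K) * x * (s : K)⁻¹) * (t : K)) * x⁻¹ := by rw [h5]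
        _ = _ := by group
    have h7 : Commute (x * (t : K) * x⁻¹) (d s) := by
      have : Commute (x * (t : K) * x⁻¹) (d s)⁻¹ := h4
      exact (Commute.inv_right_iff).1 this
    have h8 : Commute (t : K) (d s) := h3
    have h9 : Commute (d t) (d s) := by
      rw [hd t]
      exact h7.mul_left h8.inv_left
    exact h9.symm
  rcases (inferInstance : d.ker.Normal).eq_bot_or_eq_top with h | h
  · exfalso
    obtain ⟨a, b, hab⟩ := h2
    apply hab
    apply (MonoidHom.ker_eq_bot_iff d).1 h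
    rw [map_mul, map_mul, hcm]
  · intro t ht
    have h3 : (⟨t, ht⟩ : T) ∈ d.ker := by
      rw [h]
      exact Subgroup.mem_top _
    have h4 : x * t * x⁻¹ * t⁻¹ = 1 := h3
    rw [mul_inv_eq_one, mul_inv_eq_iff_eq_mul] at h4
    exact h4.symm

theorem step1 {K : Type} [Group K] {T N L : Subgroup K} (h1 : IsSimpleGroup T)
    (h2 : ∃ a b : T, a * b ≠ b * a) (hTL : T ≤ L) (hNL : ∀ l ∈ L, ∀ x ∈ N, l * x * l⁻¹ ∈ N)
    (hT : T.IsSubnormal) (hTN : ¬ T ≤ N) : Cm T N := by
  have key : ∀ M : Subgroup K, M.IsSubnormal → T ≤ M → Cm T (N ⊓ M) → Cm T N := by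
    intro M hM
    induction hM with
    | top =>
      intro _ h
      rwa [inf_top_eq] at h
    | step H M hle _ hN ih =>
      intro hTH hc
      apply ih (hTH.trans hle)
      have hconj : ∀ l ∈ M, ∀ x ∈ H, l * x * l⁻¹ ∈ H := by
        intro l hl x hx
        exact hN.conj_mem ⟨x, hle hx⟩ hx ⟨l, hl⟩
      have aux : ∀ x ∈ N ⊓ M, ∀ s ∈ T, ∀ t ∈ T,
          t * (x * s * x⁻¹ * s⁻¹) = (x * s * x⁻¹ * s⁻¹) * t := by
        rintro x ⟨hx1, hx2⟩ s hs t ht
        apply hc t ht
        refine ⟨?_, ?_⟩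
        · have h3 : s * x⁻¹ * s⁻¹ ∈ N := hNL s (hTL hs) _ (N.inv_mem hx1)
          have h4 : x * s * x⁻¹ * s⁻¹ = x * (s * x⁻¹ * s⁻¹) := by group
          rw [h4]
          exact N.mul_mem hx1 h3
        · exact H.mul_mem (hconj x hx2 s (hTH hs)) (H.inv_mem (hTH hs))
      intro t ht x hx
      refine comm_of_comm h1 h2 x (aux x hx) ?_ t ht
      have h5 := aux x⁻¹ (Subgroup.inv_mem _ hx)
      rw [inv_inv] at h5
      exact h5
  apply key T hT le_rfl
  have hn : (N.subgroupOf T).Normal := by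
    constructor
    intro n hn g
    exact hNL g (hTL g.2) n hn
  rcases hn.eq_bot_or_eq_top with h | h
  · intro a ha b hb
    have h3 : (⟨b, hb.2⟩ : T) ∈ N.subgroupOf T := hb.1
    rw [h] at h3
    have h4 : b = 1 := congrArg Subtype.val (Subgroup.mem_bot.1 h3)
    rw [h4, mul_one, one_mul]
  · exfalso
    apply hTN
    intro t ht
    have h3 : (⟨t, ht⟩ : T) ∈ N.subgroupOf T := by
      rw [h]
      exact Subgroup.mem_top _
    exact h3

theorem le_or_cm {K : Type} [Group K] (T S : Subgroup K) (hT : T.IsSubnormal)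
    (hS : S.IsSubnormal) (h1 : IsSimpleGroup T) (h2 : ∃ a b : T, a * b ≠ b * a) :
    T ≤ S ∨ Cm T S := by
  induction hS with
  | top => exact Or.inl le_top
  | step H M hle _ hN ih =>
    rcases ih with h | h
    · by_cases hTH : T ≤ H
      · exact Or.inl hTH
      · right
        refine step1 h1 h2 h ?_ hT hTH
        intro l hl x hx
        exact hN.conj_mem ⟨x, hle hx⟩ hx ⟨l, hl⟩
    · right
      intro a ha b hb
      exact h a ha b (hle hb)

theorem eq_or_cm {c : ℕ} {K : Type} [Group K] {T S : Subgroup K} (hT : Cp c T) (hS : Cp c S) :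
    T = S ∨ Cm T S := by
  rcases le_or_cm T S hT.1 hS.1 hT.2.1 hT.2.2.1 with h1 | h1
  · rcases le_or_cm S T hS.1 hT.1 hS.2.1 hS.2.2.1 with h2 | h2
    · exact Or.inl (le_antisymm h1 h2)
    · exfalso
      obtain ⟨a, b, hab⟩ := hT.2.2.1
      apply hab
      apply Subtype.ext
      exact h2 a (h1 a.2) b b.2
  · exact Or.inr h1

theorem conj {c : ℕ} {K : Type} [Group K] {T : Subgroup K} (hT : Cp c T) (g : K) :
    Cp c (T.map (MulAut.conj g).toMonoidHom) := by
  have hinj : Function.Injective (MulAut.conj g).toMonoidHom := (MulAut.conj g).injective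
  have e : T ≃* T.map (MulAut.conj g).toMonoidHom := T.equivMapOfInjective _ hinj
  obtain ⟨h0, h1, ⟨a, b, hab⟩, h3⟩ := hT
  refine ⟨h0.map (MulAut.conj g).surjective, ?_, ⟨e a, e b, ?_⟩, ?_⟩
  · exact (MulEquiv.isSimpleGroup_congr e).1 h1
  · intro h
    rw [← map_mul, ← map_mul] at h
    exact hab (e.injective h)
  · rw [← h3]
    exact (Nat.card_congr e.toEquiv).symm

end NsE

theorem norm_of_pow {c n p m : ℕ} (hp : p.Prime) (hpc : p ∣ c) (hn : n = p * m)
    (hcop : Nat.Coprime p m) {K : Type} [Group K] [Finite K] (hexp : ∀ x : K, x ^ n = 1)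
    {T : Subgroup K} (hT : Cp c T) {x : K} (hx : x ^ p = 1) : ∀ t ∈ T, x * t * x⁻¹ ∈ T :=
  NsE.norm_of_pow' hp hpc hn hcop hexp hT (fun g => NsE.eq_or_cm hT (NsE.conj hT g)) hx

end Pool.Agent.TH69.Ms
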