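import Mathlib
import Pool.Agent.TH69.MsC
import Pool.Agent.TH69.MsF

set_option autoImplicit false

/-!
# Groups of exponent `n` with nonsoluble finite subgroups, section G: perfect subgroups
-/

namespace Pool.Agent.TH69.Ms

theorem sm_quot {c n : ℕ} (hc : 0 < c) (hP : OneP c n) (h2 : TwoGen n) {K : Type} [Group K]
    (hK : Hy c n K) (hO : ∀ e : K, InO c ⊤ e → e = 1) :
    haveI := EE_normal c K; Sm c (K ⧸ EE c K) := by
  have := EE_normal c K
  intro S _ hS hne Y f hf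
  let X : Subgroup K := Y.comap (QuotientGroup.mk' (EE c K))
  let g : X →* S := f.comp ((QuotientGroup.mk' (EE c K)).subgroupComap Y)
  have hg : Function.Surjective g := by
    intro s
    obtain ⟨⟨y, hy⟩, rfl⟩ := hf s
    obtain ⟨x, rfl⟩ := QuotientGroup.mk_surjective y
    exact ⟨⟨x, hy⟩, rfl⟩
  have h3 : Nat.card S < c + 1 := hK.sm S hS hne X g hg
  by_contra hcon
  have h4 : Bg c S := ⟨hS, hne, by omega⟩
  have hX : EE c K ≤ X := by
    intro x hx
    change (QuotientGroup.mk' (EE c K)) x ∈ Y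
    have h5 : (QuotientGroup.mk' (EE c K)) x = 1 := (QuotientGroup.eq_one_iff x).2 hx
    rw [h5]
    exact one_mem _
  obtain ⟨x, hx, hgx⟩ := not_kill hc hP h2 hK hO X hX h4 g hg
  apply hgx
  have h5 : (QuotientGroup.mk' (EE c K)).subgroupComap Y x = 1 :=
    Subtype.ext ((QuotientGroup.eq_one_iff x.1).2 hx)
  change f ((QuotientGroup.mk' (EE c K)).subgroupComap Y x) = 1
  rw [h5, map_one]

theorem pf_le_EE {c n : ℕ} (hc : 0 < c) (hP : OneP c n) (h2 : TwoGen n) {K : Type} [Group K]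
    (hK : Hy c n K) (hO : ∀ e : K, InO c ⊤ e → e = 1) {A : Type} [Group A] (hA : Pf c A)
    (f : A →* K) (a : A) : f a ∈ EE c K := by
  have := EE_normal c K
  have := hK.fin
  have h1 := hA (K ⧸ EE c K) inferInstance (sm_quot hc hP h2 hK hO)
    ((QuotientGroup.mk' (EE c K)).comp f) a
  exact (QuotientGroup.eq_one_iff _).1 h1

/-- simple nonabelian subgroups have trivial centre -/
theorem centre_triv {G : Type} [Group G] {T : Subgroup G} (h1 : IsSimpleGroup T)
    (h2 : ∃ a b : T, a * b ≠ b * a) {z : G} (hz : z ∈ T) (h : ∀ t ∈ T, z * t = t * z) :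
    z = 1 := by
  rcases h1.eq_bot_or_eq_top_of_normal (Subgroup.center T) inferInstance with h3 | h3
  · have h4 : (⟨z, hz⟩ : T) ∈ Subgroup.center T := by
      rw [Subgroup.mem_center_iff]
      intro g
      exact Subtype.ext (h g.1 g.2).symm
    rw [h3, Subgroup.mem_bot] at h4
    exact congrArg Subtype.val h4
  · exfalso
    obtain ⟨a, b, hab⟩ := h2
    have h4 : b ∈ Subgroup.center T := h3 ▸ Subgroup.mem_top b
    exact hab (Subgroup.mem_center_iff.1 h4 a)

/-- elements of `EE` act on each component as inner automorphisms -/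
theorem EE_inner {c : ℕ} {K : Type} [Group K] {T : Subgroup K} (hT : Cp c T) {g : K}
    (hg : g ∈ EE c K) : ∃ t ∈ T, ∀ s ∈ T, g * s * g⁻¹ = t * s * t⁻¹ := by
  let W : Subgroup K :=
    { carrier := {g | ∃ t ∈ T, ∀ s ∈ T, g * s * g⁻¹ = t * s * t⁻¹}
      one_mem' := ⟨1, one_mem _, fun s _ => rfl⟩
      mul_mem' := by
        rintro a b ⟨t, ht, hta⟩ ⟨u, hu, hub⟩
        refine ⟨t * u, mul_mem ht hu, fun s hs => ?_⟩
        have h1 := hta (u * s * u⁻¹) (mul_mem (mul_mem hu hs) (inv_mem hu))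
        calc a * b * s * (a * b)⁻¹ = a * (b * s * b⁻¹) * a⁻¹ := by group
          _ = a * (u * s * u⁻¹) * a⁻¹ := by rw [hub s hs]
          _ = t * (u * s * u⁻¹) * t⁻¹ := h1
          _ = t * u * s * (t * u)⁻¹ := by group
      inv_mem' := by
        rintro a ⟨t, ht, hta⟩
        refine ⟨t⁻¹, inv_mem ht, fun s hs => ?_⟩
        have h1 := hta (t⁻¹ * s * t) (mul_mem (mul_mem (inv_mem ht) hs) ht)
        have h2 : a * (t⁻¹ * s * t) * a⁻¹ = s := by
          rw [h1]
          group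
        calc a⁻¹ * s * a⁻¹⁻¹ = a⁻¹ * (a * (t⁻¹ * s * t) * a⁻¹) * a := by rw [h2, inv_inv]
          _ = t⁻¹ * s * t⁻¹⁻¹ := by group }
  have h1 : EE c K ≤ W := by
    refine sSup_le fun S hS x hx => ?_
    rcases hS.eq_or_cm hT with h | h
    · subst h
      exact ⟨x, hx, fun s _ => rfl⟩
    · refine ⟨1, one_mem _, fun s hs => ?_⟩
      rw [h x hx s hs]
      group
  exact h1 hg

theorem EE_norm {c : ℕ} {K : Type} [Group K] {T : Subgroup K} (hT : Cp c T) {g : K}
    (hg : g ∈ EE c K) : ∀ t ∈ T, g * t * g⁻¹ ∈ T := by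
  obtain ⟨u, hu, h⟩ := EE_inner hT hg
  intro t ht
  rw [h t ht]
  exact mul_mem (mul_mem hu ht) (inv_mem hu)

theorem pf_kill {c : ℕ} (hc : 0 < c) {A I : Type} [Group A] [Group I] (hA : Pf c A)
    (hI : Bg c I) (κ : A →* I) (X : Subgroup A) [X.Normal] (hX : Sm c X) {x : A} (hx : x ∈ X) :
    κ x = 1 := by
  have hfin : Finite I := Nat.finite_of_card_ne_zero (by rw [hI.2.2]; omega)
  have h1 := hI.1
  by_cases hr : κ.range = ⊤
  · have hsurj : Function.Surjective κ := MonoidHom.range_eq_top.1 hr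
    have hn : (X.map κ).Normal := Subgroup.Normal.map inferInstance κ hsurj
    rcases h1.eq_bot_or_eq_top_of_normal _ hn with h2 | h2
    · have h3 : κ x ∈ X.map κ := ⟨x, hx, rfl⟩
      rw [h2] at h3
      exact Subgroup.mem_bot.1 h3
    · exfalso
      refine Sm.not_Bg hI (hX.of_surj (κ.comp X.subtype) ?_)
      intro y
      have h3 : y ∈ X.map κ := h2 ▸ Subgroup.mem_top y
      obtain ⟨z, hz, rfl⟩ := h3
      exact ⟨⟨z, hz⟩, rfl⟩
  · have h2 : Nat.card κ.range < c := by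
      rw [← hI.2.2]
      refine lt_of_le_of_ne (Nat.card_le_card_of_injective _ κ.range.subtype_injective) ?_
      intro h3
      exact hr (Subgroup.eq_top_of_card_eq _ h3)
    have h3 := hA κ.range inferInstance (Sm.of_card h2) κ.rangeRestrict x
    exact congrArg Subtype.val h3

/-- projection to a component -/
theorem exists_proj {c : ℕ} {K : Type} [Group K] {T : Subgroup K} (hT : Cp c T) {A : Type}
    [Group A] (f : A →* K) (hf : ∀ a, f a ∈ EE c K) :
    ∃ κ : A →* T, ∀ a, ∀ s ∈ T, f a * s * (f a)⁻¹ = (κ a : K) * s * (κ a : K)⁻¹ := by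
  have h1 : ∀ a, ∃ t : T, ∀ s ∈ T, f a * s * (f a)⁻¹ = (t : K) * s * (t : K)⁻¹ := by
    intro a
    obtain ⟨t, ht, h⟩ := EE_inner hT (hf a)
    exact ⟨⟨t, ht⟩, h⟩
  choose κ hκ using h1
  refine ⟨MonoidHom.mk' κ ?_, hκ⟩
  intro a b
  have h2 : ((κ a * κ b)⁻¹ * κ (a * b) : K) = 1 := by
    refine centre_triv hT.2.1 hT.2.2.1 (T := T)
      (mul_mem (inv_mem (mul_mem (κ a).2 (κ b).2)) (κ (a * b)).2) fun t ht => ?_
    have h3 := hκ (a * b) t ht
    have h4 := hκ b t ht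
    have h5 := hκ a (κ b * t * (κ b : K)⁻¹)
      (mul_mem (mul_mem (κ b).2 ht) (inv_mem (κ b).2))
    rw [map_mul] at h3
    have h6 : (κ (a * b) : K) * t * (κ (a * b) : K)⁻¹ =
        κ a * (κ b * t * (κ b : K)⁻¹) * (κ a : K)⁻¹ := by
      rw [← h3, ← h5, ← h4]
      group
    calc (κ a * κ b : K)⁻¹ * κ (a * b) * t
        = (κ a * κ b : K)⁻¹ * (κ (a * b) * t * (κ (a * b) : K)⁻¹) * κ (a * b) := by group
      _ = (κ a * κ b : K)⁻¹ * (κ a * (κ b * t * (κ b : K)⁻¹) * (κ a : K)⁻¹) * κ (a * b) := by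
          rw [h6]
      _ = t * ((κ a * κ b : K)⁻¹ * κ (a * b)) := by group
  apply Subtype.ext
  have h7 := inv_mul_eq_one.1 h2
  exact h7.symm

theorem pf_inO {c n : ℕ} (hc : 0 < c) (hP : OneP c n) (h2 : TwoGen n) {G : Type} [Group G]
    {A K : Subgroup G} (hAK : A ≤ K) (hK : Hy c n K) (hA : Pf c A) {e : G} (he : InO c A e) :
    InO c K e := by
  obtain ⟨N, hN1, hN2, hN3, hN4⟩ := he
  obtain ⟨Q, _, f, hf, hQ, hQO, hQe⟩ := exists_quot c n hK
  have heA : e ∈ A := hN1 hN4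
  let j : A →* K := Subgroup.inclusion hAK
  have h1 : f ⟨e, hAK heA⟩ = 1 := by
    refine cent_triv hQ hQO _ fun T hT t ht => ?_
    obtain ⟨κ, hκ⟩ := exists_proj hT (f.comp j) (pf_le_EE hc hP h2 hQ hQO hA _)
    have hN5 : (N.subgroupOf A).Normal := ⟨fun x hx g => hN2 g.1 g.2 _ hx⟩
    have hN6 : Sm c (N.subgroupOf A) := by
      refine hN3.of_inj (Subgroup.subgroupOfEquivOfLe hN1).toMonoidHom ?_
      exact (Subgroup.subgroupOfEquivOfLe hN1).injective
    have h3 := pf_kill hc hA hT.2 κ (N.subgroupOf A) hN6 (x := ⟨e, heA⟩) hN4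
    have h4 := hκ ⟨e, heA⟩ t ht
    rw [h3] at h4
    have h5 : f ⟨e, hAK heA⟩ * t * (f ⟨e, hAK heA⟩)⁻¹ = t := by
      have h6 : (f.comp j) ⟨e, heA⟩ = f ⟨e, hAK heA⟩ := rfl
      rw [h6] at h4
      rw [h4]
      simp
    exact mul_inv_eq_iff_eq_mul.1 h5
  have h3 := ((hQe _).2 h1).map K.subtype
  rw [← MonoidHom.range_eq_map, Subgroup.range_subtype] at h3
  exact h3

theorem pf_struct {c n : ℕ} (hc : 0 < c) (hP : OneP c n) (h2 : TwoGen n) {K : Type} [Group K]
    (hK : Hy c n K) (hO : ∀ e : K, InO c ⊤ e → e = 1) (hA : Pf c K) : EE c K = ⊤ := by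
  rw [eq_top_iff]
  intro x _
  exact pf_le_EE hc hP h2 hK hO hA (MonoidHom.id K) x

end Pool.Agent.TH69.Ms
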