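import Mathlib
import Pool.Agent.TH69.MsQaux

set_option autoImplicit false

/-!
# The first layer of a subgroup (section Q of helper69's project Ns; written by helper524)
-/

namespace Pool.Agent.TH69.Ms

namespace NsQ

theorem exists_mul {c : ℕ} {Q : Type} [Group Q] (g : Q)
    (hg : ∀ T : Subgroup Q, Cp c T → ActsInn T g) (F : Finset (Subgroup Q))
    (hF : ∀ S ∈ F, Cp c S) :
    ∃ h ∈ EE c Q, (∀ T ∈ F, ∀ t ∈ T, (h⁻¹ * g) * t = t * (h⁻¹ * g)) ∧
      ∀ T : Subgroup Q, Cp c T → T ∉ F → ∀ t ∈ T, h * t = t * h := by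
  classical
  induction F using Finset.induction_on with
  | empty =>
    exact ⟨1, one_mem _, fun T hT => absurd hT (Finset.notMem_empty T), fun T _ _ t _ => by simp⟩
  | insert S F hS ih =>
    obtain ⟨h, h1, h2, h3⟩ := ih fun S' hS' => hF S' (Finset.mem_insert_of_mem hS')
    have hSc : Cp c S := hF S (Finset.mem_insert_self _ _)
    obtain ⟨s, hs, hsg⟩ := hg S hSc
    have hcomm : ∀ T : Subgroup Q, Cp c T → T ≠ S → ∀ t ∈ T, s * t = t * s := by
      intro T hT hne t ht
      rcases hT.eq_or_cm hSc with h4 | h4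
      · exact absurd h4 hne
      · exact (h4 t ht s hs).symm
    have hle : S ≤ EE c Q := le_sSup (show S ∈ {T : Subgroup Q | Cp c T} from hSc)
    refine ⟨h * s, mul_mem h1 (hle hs), ?_, ?_⟩
    · intro T hT t ht
      rw [Finset.mem_insert] at hT
      by_cases hTS : T = S
      · subst hTS
        have h4 := hsg t ht
        have h5 := h3 T hSc hS (s * t * s⁻¹) (mul_mem (mul_mem hs ht) (inv_mem hs))
        calc (h * s)⁻¹ * g * t = s⁻¹ * h⁻¹ * (g * t * g⁻¹) * g := by group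
          _ = s⁻¹ * h⁻¹ * (s * t * s⁻¹ * h) * h⁻¹ * g := by rw [h4]; group
          _ = s⁻¹ * h⁻¹ * (h * (s * t * s⁻¹)) * h⁻¹ * g := by rw [h5]
          _ = t * ((h * s)⁻¹ * g) := by group
      · have hTF : T ∈ F := by
          rcases hT with h4 | h4
          · exact absurd h4 hTS
          · exact h4
        have h4 := h2 T hTF t ht
        have h5 := hcomm T (hF T (Finset.mem_insert_of_mem hTF)) hTS t ht
        calc (h * s)⁻¹ * g * t = s⁻¹ * (h⁻¹ * g * t) := by group
          _ = s⁻¹ * (t * (h⁻¹ * g)) := by rw [h4]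
          _ = s⁻¹ * (t * s) * s⁻¹ * (h⁻¹ * g) := by group
          _ = s⁻¹ * (s * t) * s⁻¹ * (h⁻¹ * g) := by rw [h5]
          _ = t * ((h * s)⁻¹ * g) := by group
    · intro T hT hTn t ht
      rw [Finset.mem_insert, not_or] at hTn
      rw [mul_assoc, hcomm T hT hTn.1 t ht, ← mul_assoc, h3 T hT hTn.2 t ht, mul_assoc]

theorem mem_EE {c n : ℕ} {Q : Type} [Group Q] (hQ : Hy c n Q)
    (hO : ∀ e : Q, InO c ⊤ e → e = 1) (g : Q)
    (hg : ∀ T : Subgroup Q, Cp c T → ActsInn T g) : g ∈ EE c Q := by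
  have := hQ.fin
  have hfin : {S : Subgroup Q | Cp c S}.Finite := Set.toFinite _
  obtain ⟨h, h1, h2, -⟩ := exists_mul g hg hfin.toFinset fun S hS => hfin.mem_toFinset.1 hS
  have h3 : h⁻¹ * g = 1 := by
    refine cent_triv hQ hO _ fun T hT t ht => h2 T (hfin.mem_toFinset.2 hT) t ht
  rw [← inv_mul_eq_one.1 h3]
  exact h1

end NsQ

theorem InF.of_inj {c n : ℕ} {A K : Type} [Group A] [Group K] (hK : Hy c n K) (f : A →* K)
    (hf : Function.Injective f) {e : A} (h : InF c (f e)) : InF c e :=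
  NsQ.of_inj_of (fun _ _ hQ hO g hg => NsQ.mem_EE hQ hO g hg) hK f hf h

end Pool.Agent.TH69.Ms
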