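import Mathlib
import Pool.Agent.H32BU.All
import Pool.Agent.TH69.MsDefs

set_option autoImplicit false

/-!
# The soluble case (section J): three-generator subgroups of bounded order without nonabelian
simple sections
-/

namespace Pool.Agent.TH69.Ms

namespace NsJ

open H32BU

theorem sm_inj {c : ℕ} {A B : Type} [Group A] [Group B] (f : A →* B)
    (hf : Function.Injective f) (h : Sm c B) : Sm c A := by
  intro S _ hS hab X g hg
  have e : X ≃* X.map f := X.equivMapOfInjective f hf
  exact h S hS hab (X.map f) (g.comp e.symm.toMonoidHom) (by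
    intro s
    obtain ⟨x, hx⟩ := hg s
    exact ⟨e x, by simp [hx]⟩)

theorem sm_surj {c : ℕ} {A B : Type} [Group A] [Group B] (f : A →* B)
    (hf : Function.Surjective f) (h : Sm c A) : Sm c B := by
  intro S _ hS hab X g hg
  exact h S hS hab (X.comap f) (g.comp (f.subgroupComap X)) (by
    rw [MonoidHom.coe_comp]
    exact hg.comp (MonoidHom.subgroupComap_surjective_of_surjective f X hf))

theorem solv : ∀ (k : ℕ) (K : Type) [Group K] [Finite K], Nat.card K = k → Sm 0 K →
    Group.IsSolvable K := by
  intro k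
  induction k using Nat.strong_induction_on with
  | _ k ih =>
    intro K _ _ hk hK
    rcases subsingleton_or_nontrivial K with hs | hn
    · exact Group.isSolvable_of_comm (fun a b => Subsingleton.elim _ _)
    · by_cases hsim : IsSimpleGroup K
      · by_cases hab : ∃ a b : K, a * b ≠ b * a
        · have := hK K hsim hab ⊤ (Subgroup.topEquiv : (⊤ : Subgroup K) ≃* K).toMonoidHom
            (Subgroup.topEquiv : (⊤ : Subgroup K) ≃* K).surjective
          omega
        · push Not at hab
          exact Group.isSolvable_of_comm hab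
      · have hN : ∃ N : Subgroup K, N.Normal ∧ N ≠ ⊥ ∧ N ≠ ⊤ := by
          by_contra hcon
          push Not at hcon
          apply hsim
          refine { exists_pair_ne := hn.exists_pair_ne, eq_bot_or_eq_top_of_normal := ?_ }
          intro H hH
          by_cases hb : H = ⊥
          · exact Or.inl hb
          · exact Or.inr (hcon H hH hb)
        obtain ⟨N, hNn, hNb, hNt⟩ := hN
        have hcard : Nat.card K = Nat.card (K ⧸ N) * Nat.card N := N.card_eq_card_quotient_mul_card_subgroup
        have h1 : 1 < Nat.card N := by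
          rw [Finite.one_lt_card_iff_nontrivial]
          exact (Subgroup.nontrivial_iff_ne_bot N).2 hNb
        have h2 : 1 < Nat.card (K ⧸ N) := by
          have : Nat.card (K ⧸ N) ≠ 1 := by
            intro h
            apply hNt
            exact Subgroup.index_eq_one.1 h
          have : 0 < Nat.card (K ⧸ N) := Nat.card_pos
          omega
        have s1 : Group.IsSolvable N := ih (Nat.card N) (by nlinarith) N rfl
          (sm_inj N.subtype N.subtype_injective hK)
        have s2 : Group.IsSolvable (K ⧸ N) := ih (Nat.card (K ⧸ N)) (by nlinarith) (K ⧸ N) rfl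
          (sm_surj (QuotientGroup.mk' N) (QuotientGroup.mk'_surjective N) hK)
        exact Group.isSolvable_of_ker_le_range N.subtype (QuotientGroup.mk' N) (by simp)

theorem DD_bot (hM : S_MON) (hS : S_SOLH) (K : Type) [Group K] [Finite K]
    (hK : Group.IsSolvable K) (N : ℕ) (hN : Nat.card K ≤ N) : DD (⊤ : Subgroup K) N = ⊥ := by
  have hdec : ∀ i, DD (⊤ : Subgroup K) (i + 1) ≤ DD (⊤ : Subgroup K) i := (hM K).2.1 ⊤
  have hanti : ∀ i k, DD (⊤ : Subgroup K) (i + k) ≤ DD (⊤ : Subgroup K) i := by
    intro i k
    induction k with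
    | zero => exact le_refl _
    | succ k ih => exact (hdec (i + k)).trans ih
  obtain ⟨m, hm⟩ := hS K inferInstance hK
  have hconst : ∀ i, DD (⊤ : Subgroup K) (i + 1) = DD (⊤ : Subgroup K) i →
      DD (⊤ : Subgroup K) i = ⊥ := by
    intro i hi
    have hc : ∀ k, DD (⊤ : Subgroup K) (i + k) = DD (⊤ : Subgroup K) i := by
      intro k
      induction k with
      | zero => rfl
      | succ k ih =>
        show NR (DD (⊤ : Subgroup K) (i + k)) = _
        rw [ih]
        exact hi
    rw [← hc m, add_comm, eq_bot_iff, ← hm]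
    exact hanti m i
  have key : ∀ i, DD (⊤ : Subgroup K) i = ⊥ ∨
      Nat.card (DD (⊤ : Subgroup K) i) + i ≤ Nat.card K := by
    intro i
    induction i with
    | zero =>
      right
      rw [add_zero]
      exact Subgroup.card_le_card_group _
    | succ i ih =>
      rcases ih with ih | ih
      · left
        rw [eq_bot_iff, ← ih]
        exact hdec i
      · by_cases hi : DD (⊤ : Subgroup K) (i + 1) = DD (⊤ : Subgroup K) i
        · left
          rw [hi]
          exact hconst i hi
        · right
          have hlt : DD (⊤ : Subgroup K) (i + 1) < DD (⊤ : Subgroup K) i := lt_of_le_of_ne (hdec i) hi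
          have : Nat.card (DD (⊤ : Subgroup K) (i + 1)) < Nat.card (DD (⊤ : Subgroup K) i) := by
            apply Set.Finite.card_lt_card (Set.toFinite _)
            exact hlt
          omega
  rcases key N with h | h
  · exact h
  · have : 0 < Nat.card (DD (⊤ : Subgroup K) N) := Nat.card_pos
    omega

theorem base' (hM : S_MON) (hS : S_SOLH) (hI : S_IND) (hmap : S_MAPI)
    {n : ℕ} (hn : 1 ≤ n) (hq : ∀ p : ℕ, p.Prime → H32BU.LocFin (H32BU.qp p n))
    (G : Type) [Group G] (hG : ∀ x : G, x ^ n = 1) (N : ℕ)
    (h : ∀ a x z : G, Finite (H32BU.c3 a x z) ∧ Nat.card (H32BU.c3 a x z) ≤ N ∧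
      Sm 0 (H32BU.c3 a x z)) : H32BU.LF G := by
  apply hI n hn hq N G hG
  intro a x z
  obtain ⟨h1, h2, h3⟩ := h a x z
  have hs := solv _ (c3 a x z) rfl h3
  refine ⟨h1, hs, ?_⟩
  have e := hmap (c3 a x z) G (c3 a x z).subtype (c3 a x z).subtype_injective ⊤ N
  rw [DD_bot hM hS (c3 a x z) hs N h2, Subgroup.map_bot, ← MonoidHom.range_eq_map,
    Subgroup.range_subtype] at e
  exact e.symm

end NsJ

theorem base {n : ℕ} (hn : 1 ≤ n) (hq : ∀ p : ℕ, p.Prime → H32BU.LocFin (H32BU.qp p n))
    (G : Type) [Group G] (hG : ∀ x : G, x ^ n = 1) (N : ℕ)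
    (h : ∀ a x z : G, Finite (H32BU.c3 a x z) ∧ Nat.card (H32BU.c3 a x z) ≤ N ∧
      Sm 0 (H32BU.c3 a x z)) : H32BU.LF G :=
  NsJ.base' H32BU.x_MON H32BU.x_SOLH H32BU.x_IND H32BU.x_MAPI hn hq G hG N h

end Pool.Agent.TH69.Ms
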