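import Mathlib
import Pool.Agent.W629.Rad
import Pool.Agent.H32BU.All

set_option autoImplicit false

/-!
# Groups of finite exponent with finite metanilpotent two-generator subgroups, part A:
# minimal invariant subgroups
-/

namespace Pool.Agent.TH69.Mtn

open Pool.Agent.H32BU Pool.Agent.W629

variable {G : Type} [Group G]

theorem qp_coprime {s t n : ℕ} (hs : s.Prime) (ht : t.Prime) (h : s ≠ t) :
    Nat.Coprime (qp s n) (qp t n) :=
  Nat.Coprime.pow _ _ ((Nat.coprime_primes hs ht).2 h)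

theorem qp_dvd (s n : ℕ) : qp s n ∣ n := Nat.ordProj_dvd n s

/-- elements of `s`-power order -/
theorem pow_qp {n : ℕ} (hn : n ≠ 0) {x : G} (hx : x ^ n = 1) {s : ℕ} (hs : s.Prime)
    (h : ∃ k : ℕ, x ^ s ^ k = 1) : x ^ qp s n = 1 := by
  obtain ⟨k, hk⟩ := h
  have h1 := orderOf_dvd_of_pow_eq_one hx
  have h2 := orderOf_dvd_of_pow_eq_one hk
  obtain ⟨j, hj, e⟩ := (Nat.dvd_prime_pow hs).1 h2
  rw [← orderOf_dvd_iff_pow_eq_one, e]
  rw [e] at h1
  exact pow_dvd_pow _ ((hs.pow_dvd_iff_le_factorization hn).1 h1)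

/-- a minimal `h`-invariant finite `s`-subgroup not centralised by `h` -/
structure Arr (n s : ℕ) (h : G) (U : Subgroup G) : Prop where
  fin : Finite U
  pow : ∀ u ∈ U, u ^ qp s n = 1
  inv : ∀ u ∈ U, h * u * h⁻¹ ∈ U
  nc : ∃ u ∈ U, h * u ≠ u * h
  min : ∀ U' : Subgroup G, U' ≤ U → (∀ u ∈ U', h * u * h⁻¹ ∈ U') → (∃ u ∈ U', h * u ≠ u * h) →
    U' = U

theorem arr_exists {n s : ℕ} {h : G} (U : Subgroup G) (hf : Finite U)
    (hp : ∀ u ∈ U, u ^ qp s n = 1) (hi : ∀ u ∈ U, h * u * h⁻¹ ∈ U)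
    (hnc : ∃ u ∈ U, h * u ≠ u * h) : ∃ U' : Subgroup G, U' ≤ U ∧ Arr n s h U' := by
  classical
  have key : ∀ k : ℕ, ∀ U : Subgroup G, Finite U → Nat.card U ≤ k →
      (∀ u ∈ U, u ^ qp s n = 1) → (∀ u ∈ U, h * u * h⁻¹ ∈ U) →
      (∃ u ∈ U, h * u ≠ u * h) → ∃ U' : Subgroup G, U' ≤ U ∧ Arr n s h U' := by
    intro k
    induction k with
    | zero =>
      intro U hf hk
      have : 0 < Nat.card U := Nat.card_pos
      omega
    | succ k ih =>
      intro U hf hk hp hi hnc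
      by_cases hmin : ∀ U' : Subgroup G, U' ≤ U → (∀ u ∈ U', h * u * h⁻¹ ∈ U') →
          (∃ u ∈ U', h * u ≠ u * h) → U' = U
      · exact ⟨U, le_refl _, hf, hp, hi, hnc, hmin⟩
      · push Not at hmin
        obtain ⟨U', h1, h2, h3, h4⟩ := hmin
        have hf' : Finite U' := Finite.of_injective (Subgroup.inclusion h1)
          (Subgroup.inclusion_injective h1)
        have hc : Nat.card U' < Nat.card U := by
          have h5 : (U' : Set G) ⊂ (U : Set G) :=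
            ⟨h1, fun h => h4 (le_antisymm h1 h)⟩
          exact Set.Finite.card_lt_card (Set.toFinite _) h5
        obtain ⟨W, hW, hA⟩ := ih U' hf' (by omega) (fun u hu => hp u (h1 hu)) h2 h3
        exact ⟨W, le_trans hW h1, hA⟩
  exact key _ U hf le_rfl hp hi hnc

namespace Arr

variable {n s : ℕ} {h : G} {U : Subgroup G}

theorem gen (A : Arr n s h U) (F : Subgroup G) (hF : h ∈ F) {u : G} (hu : u ∈ U) (huF : u ∈ F)
    (hc : h * u ≠ u * h) : U ≤ F := by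
  have h1 := A.min (U ⊓ F) inf_le_left (fun x hx => ⟨A.inv x hx.1,
    F.mul_mem (F.mul_mem hF hx.2) (F.inv_mem hF)⟩) ⟨u, ⟨hu, huF⟩, hc⟩
  rw [← h1]
  exact inf_le_right

theorem comm_nc (A : Arr n s h U) {α : ℕ} (hα : h ^ α = 1) (hco : Nat.Coprime α (qp s n))
    {u : G} (hu : u ∈ U) (hc : h * u ≠ u * h) :
    h * u * h⁻¹ * u⁻¹ ∈ U ∧ h * (h * u * h⁻¹ * u⁻¹) ≠ (h * u * h⁻¹ * u⁻¹) * h := by
  have h1 : h * u * h⁻¹ * u⁻¹ ∈ U := U.mul_mem (A.inv u hu) (U.inv_mem hu)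
  refine ⟨h1, fun h2 => hc ?_⟩
  have h3 := comm_pow (x := h) (y := u) (c := h * u * h⁻¹ * u⁻¹) rfl h2 α
  rw [hα] at h3
  have h4 : (h * u * h⁻¹ * u⁻¹) ^ α = 1 := by
    rw [← h3]; group
  have h5 := eq_one_of_coprime hco h4 (A.pow _ h1)
  rw [mul_inv_eq_one, mul_inv_eq_iff_eq_mul] at h5
  exact h5

theorem gen' (A : Arr n s h U) {α : ℕ} (hα : h ^ α = 1) (hco : Nat.Coprime α (qp s n))
    (F : Subgroup G) (hF : h ∈ F) {u : G} (hu : u ∈ U) (hc : h * u ≠ u * h)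
    (huF : h * u * h⁻¹ * u⁻¹ ∈ F) : U ≤ F := by
  obtain ⟨h1, h2⟩ := A.comm_nc hα hco hu hc
  exact A.gen F hF h1 huF h2

/-- the minimal subgroup is in the last term of the lower Fitting series -/
theorem le_NR (A : Arr n s h U) {α : ℕ} (hα : h ^ α = 1) (hco : Nat.Coprime α (qp s n))
    (F : Subgroup G) (hF : h ∈ F) (hU : U ≤ F) : U ≤ NR F := by
  obtain ⟨u, hu, hc⟩ := A.nc
  obtain ⟨h1, h2⟩ := A.comm_nc hα hco hu hc
  have hst := (x_MON G).2.2.1 F h
    (fun a ha => F.mul_mem (F.mul_mem hF ha) (F.inv_mem hF))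
    (fun a ha => F.mul_mem (F.mul_mem (F.inv_mem hF) ha) hF) 1
  have h3 : h * u * h⁻¹ * u⁻¹ ∈ NR F :=
    Subgroup.subset_closure ⟨h, hF, u, hU hu, α, qp s n, hco, hα, A.pow u hu, rfl⟩
  have h4 := A.min (U ⊓ NR F) inf_le_left (fun x hx => ⟨A.inv x hx.1, hst.1 x hx.2⟩)
    ⟨_, ⟨h1, h3⟩, h2⟩
  rw [← h4]
  exact inf_le_right

end Arr

/-- commuting elements of coprime orders are powers of their product -/
theorem mem_of_mul {x y : G} (hc : x * y = y * x) {a b : ℕ} (hx : x ^ a = 1) (hy : y ^ b = 1)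
    (hab : Nat.Coprime a b) (F : Subgroup G) (h : x * y ∈ F) : x ∈ F ∧ y ∈ F := by
  have hcm : Commute x y := hc
  have key : ∀ (x y : G), Commute x y → ∀ a b : ℕ, x ^ a = 1 → y ^ b = 1 → Nat.Coprime a b →
      x * y ∈ F → x ∈ F := by
    intro x y hc a b hx hy hab h
    obtain ⟨k, hk1, hk2⟩ := Nat.chineseRemainder hab 1 0
    have h1 : (x * y) ^ k = x := by
      rw [hc.mul_pow]
      have h2 : y ^ k = 1 := by
        obtain ⟨m, hm⟩ := (Nat.modEq_zero_iff_dvd).1 hk2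
        rw [hm, pow_mul, hy, one_pow]
      have h3 : x ^ k = x := by
        have h4 : x ^ k = x ^ 1 := by
          rw [pow_eq_pow_iff_modEq]
          exact hk1.of_dvd (orderOf_dvd_of_pow_eq_one hx)
        rw [h4, pow_one]
      rw [h2, h3, mul_one]
    rw [← h1]
    exact pow_mem h k
  exact ⟨key x y hcm a b hx hy hab h, key y x hcm.symm b a hy hx hab.symm (by rw [← hc]; exact h)⟩

end Pool.Agent.TH69.Mtn
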