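import Mathlib
import Pool.Agent.TH69.MtnA

set_option autoImplicit false

/-!
# Groups of finite exponent with finite metanilpotent two-generator subgroups, part B:
# existence of actions
-/

namespace Pool.Agent.TH69.Mtn

open Pool.Agent.H32BU Pool.Agent.W629

section

variable {K : Type} [Group K]

/-- an element commuting with the elements of prime power orders, for primes `≠ s`, commutes with
the elements of orders prime to `s` -/
theorem commute_of_primes {s : ℕ} (M : Subgroup K) (x : K)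
    (h : ∀ l : ℕ, l.Prime → l ≠ s → ∀ g ∈ M, (∃ k : ℕ, g ^ l ^ k = 1) → x * g = g * x) :
    ∀ m : ℕ, m ≠ 0 → Nat.Coprime m s → ∀ g ∈ M, g ^ m = 1 → x * g = g * x := by
  intro m
  induction m using Nat.recOnPosPrimePosCoprime with
  | prime_pow p k hp hk =>
    intro _ hc g hg hgm
    refine h p hp ?_ g hg ⟨k, hgm⟩
    rintro rfl
    have h1 : Nat.Coprime p p := Nat.Coprime.coprime_dvd_left (dvd_pow_self p hk.ne') hc
    rw [Nat.coprime_self] at h1
    exact hp.ne_one h1
  | zero => intro h0; exact absurd rfl h0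
  | one =>
    intro _ _ g _ hg
    rw [pow_one] at hg
    rw [hg, mul_one, one_mul]
  | coprime a b ha hb hab iha ihb =>
    intro _ hc g hg hgm
    have h1 : x * g ^ a = g ^ a * x := ihb (by omega)
      (Nat.Coprime.coprime_dvd_left (dvd_mul_left b a) hc) _ (pow_mem hg a)
      (by rw [← pow_mul]; exact hgm)
    have h2 : x * g ^ b = g ^ b * x := iha (by omega)
      (Nat.Coprime.coprime_dvd_left (dvd_mul_right a b) hc) _ (pow_mem hg b)
      (by rw [← pow_mul, mul_comm]; exact hgm)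
    have h3 : (1 : ℤ) = a * Nat.gcdA a b + b * Nat.gcdB a b := by
      have := Nat.gcd_eq_gcd_ab a b
      rw [hab] at this
      exact_mod_cast this
    have h4 : g = (g ^ a) ^ (Nat.gcdA a b) * (g ^ b) ^ (Nat.gcdB a b) := by
      rw [← zpow_natCast g a, ← zpow_natCast g b, ← zpow_mul, ← zpow_mul, ← zpow_add, ← h3,
        zpow_one]
    have c1 : Commute x (g ^ a) := h1
    have c2 : Commute x (g ^ b) := h2
    have c3 : Commute x g := by
      rw [h4]
      exact (c1.zpow_right _).mul_right (c2.zpow_right _)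
    exact c3

theorem coprime_part {n s : ℕ} (hn : n ≠ 0) (hs : s.Prime) :
    qp s n * (n / qp s n) = n ∧ Nat.Coprime (qp s n) (n / qp s n) :=
  ⟨Nat.mul_div_cancel' (qp_dvd s n), Nat.Coprime.pow_left _ (Nat.coprime_ordCompl hs hn)⟩

/-- in a finite metanilpotent group an `s`-element which commutes with the elements of orders prime
to `s` of `NR ⊤` is in the largest normal `s`-subgroup -/
theorem mem_rad_of {n s : ℕ} (hn : n ≠ 0) (hs : s.Prime) [Finite K] (hK : ∀ x : K, x ^ n = 1)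
    {x : K} (hx : x ^ qp s n = 1)
    (hc : ∀ m : ℕ, Nat.Coprime m s → ∀ g ∈ NR (⊤ : Subgroup K), g ^ m = 1 → x * g = g * x) :
    x ∈ Rad (qp s n) K := by
  have hM : (NR (⊤ : Subgroup K)).Normal := (x_MON K).2.2.2.1 ⊤ inferInstance 1
  let f := QuotientGroup.mk' (NR (⊤ : Subgroup K))
  have hfs : Function.Surjective f := QuotientGroup.mk'_surjective _
  have hfin : ∀ x : K, IsOfFinOrder x := fun x => isOfFinOrder_of_finite x
  have h1 : NR (⊤ : Subgroup (K ⧸ NR (⊤ : Subgroup K))) = ⊥ := by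
    have h2 := x_MAPS K (K ⧸ NR (⊤ : Subgroup K)) f hfin ⊤ 1
    rw [Subgroup.map_top_of_surjective f hfs] at h2
    change (NR ⊤).map f = NR ⊤ at h2
    rw [← h2, Subgroup.map_eq_bot_iff, QuotientGroup.ker_mk']
  obtain ⟨⟨P, hP⟩, -⟩ := x_SYL (K ⧸ NR (⊤ : Subgroup K)) ⊤ inferInstance h1 s hs
  have hPn : P.Normal := by
    refine ⟨fun y hy g => ?_⟩
    rw [hP] at hy ⊢
    obtain ⟨-, k, hk⟩ := hy
    exact ⟨Subgroup.mem_top _, k, conj_pow_one hk⟩
  let C : Subgroup K := Subgroup.normalClosure {x}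
  have hxC : x ∈ C := Subgroup.subset_normalClosure rfl
  have hCP : C ≤ P.comap f := by
    apply Subgroup.normalClosure_le_normal
    rw [Set.singleton_subset_iff, SetLike.mem_coe, Subgroup.mem_comap, hP]
    have h3 : f x ^ s ^ n.factorization s = 1 := by
      have h4 : x ^ s ^ n.factorization s = 1 := hx
      rw [← map_pow, h4, map_one]
    exact ⟨Subgroup.mem_top _, n.factorization s, h3⟩
  have hCM : ∀ g ∈ C, ∀ m : ℕ, Nat.Coprime m s → g ^ m = 1 → g ∈ NR (⊤ : Subgroup K) := by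
    intro g hg m hm hgm
    obtain ⟨-, k, hk⟩ := (hP _).1 (hCP hg)
    have h3 : f g = 1 := by
      refine eq_one_of_coprime (Nat.Coprime.pow_right k hm) ?_ hk
      rw [← map_pow, hgm, map_one]
    rwa [← MonoidHom.mem_ker, QuotientGroup.ker_mk'] at h3
  -- the normal closure centralises the elements of orders prime to `s` of `NR ⊤`
  let T : Set K := {g | g ∈ NR (⊤ : Subgroup K) ∧ ∃ m : ℕ, Nat.Coprime m s ∧ g ^ m = 1}
  let Z : Subgroup K := Subgroup.centralizer T
  have hZn : Z.Normal := by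
    refine ⟨fun y hy g => ?_⟩
    rw [Subgroup.mem_centralizer_iff] at hy ⊢
    rintro e ⟨he, m, hm, hem⟩
    have h4 : g⁻¹ * e * g ∈ T := by
      refine ⟨?_, m, hm, conj_pow_one' hem⟩
      have := hM.conj_mem e he g⁻¹
      rwa [inv_inv] at this
    have h5 := hy _ h4
    have h6 : e * (g * y * g⁻¹) = g * ((g⁻¹ * e * g) * y) * g⁻¹ := by group
    rw [h6, h5]
    group
  have hCZ : C ≤ Z := by
    apply Subgroup.normalClosure_le_normal
    rw [Set.singleton_subset_iff, SetLike.mem_coe, Subgroup.mem_centralizer_iff]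
    rintro e ⟨he, m, hm, hem⟩
    exact (hc m hm e he hem).symm
  have hNC : NR C = ⊥ := by
    rw [eq_bot_iff]
    refine (Subgroup.closure_le _).2 ?_
    rintro g ⟨x1, hx1, y1, hy1, a, b, hab, ha, hb, rfl⟩
    rw [SetLike.mem_coe, Subgroup.mem_bot]
    have key : x1 * y1 = y1 * x1 := by
      by_cases hsa : s ∣ a
      · have hsb : Nat.Coprime b s := by
          rw [Nat.coprime_comm, Nat.Prime.coprime_iff_not_dvd hs]
          intro h7
          have h8 := Nat.dvd_gcd hsa h7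
          rw [hab, Nat.dvd_one] at h8
          exact hs.ne_one h8
        have h9 := (Subgroup.mem_centralizer_iff.1 (hCZ hx1)) y1 ⟨hCM y1 hy1 b hsb hb, b, hsb, hb⟩
        exact h9.symm
      · have hsa' : Nat.Coprime a s := by
          rw [Nat.coprime_comm, Nat.Prime.coprime_iff_not_dvd hs]
          exact hsa
        exact (Subgroup.mem_centralizer_iff.1 (hCZ hy1)) x1 ⟨hCM x1 hx1 a hsa' ha, a, hsa', ha⟩
    rw [key]
    group
  obtain ⟨⟨Q, hQ⟩, -⟩ := x_SYL K C inferInstance hNC s hs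
  have hQn : Q.Normal := by
    refine ⟨fun y hy g => ?_⟩
    rw [hQ] at hy ⊢
    obtain ⟨hy1, k, hk⟩ := hy
    exact ⟨Subgroup.normalClosure_normal.conj_mem y hy1 g, k, conj_pow_one hk⟩
  obtain ⟨e1, e2⟩ := coprime_part (s := s) hn hs
  have h9 : Q ≤ Rad (qp s n) K := by
    refine le_rad e2 (fun y => by rw [e1]; exact hK y) Q fun y hy => ?_
    exact pow_qp hn (hK y) hs ((hQ y).1 hy).2
  exact h9 ((hQ x).2 ⟨hxC, n.factorization s, hx⟩)

end

variable {G : Type} [Group G]

/-- existence of actions -/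
theorem arr_of_rad {n : ℕ} (hn : n ≠ 0) (hG : ∀ x : G, x ^ n = 1)
    (h2 : ∀ x y : G, Finite (c2 x y) ∧ DD (c2 x y) 2 = ⊥) {s : ℕ} (hs : s.Prime)
    (hR : Rad (qp s n) G = ⊥) {x : G} (hx : x ^ qp s n = 1) (hx1 : x ≠ 1) :
    ∃ (l : ℕ) (U : Subgroup G), l.Prime ∧ l ≠ s ∧ Arr n l x U := by
  have hxR : x ∉ Rad (qp s n) G := by
    rw [hR, Subgroup.mem_bot]
    exact hx1
  obtain ⟨y, hy, hxy⟩ : ∃ y : G, y ^ qp s n = 1 ∧ (x * y) ^ qp s n ≠ 1 := by
    by_contra hcon
    push Not at hcon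
    exact hxR ⟨hx, hcon⟩
  obtain ⟨hf, hD⟩ := h2 x y
  have hxK : x ∈ c2 x y := Subgroup.subset_closure (by simp)
  have hyK : y ∈ c2 x y := Subgroup.subset_closure (by simp)
  let x' : c2 x y := ⟨x, hxK⟩
  let y' : c2 x y := ⟨y, hyK⟩
  have hDt : ∀ m, (DD (⊤ : Subgroup (c2 x y)) m).map (c2 x y).subtype = DD (c2 x y) m := by
    intro m
    rw [x_MAPI _ _ (c2 x y).subtype (Subgroup.subtype_injective _) ⊤ m]
    congr 1
    rw [← MonoidHom.range_eq_map, Subgroup.range_subtype]
  have hD' : DD (⊤ : Subgroup (c2 x y)) 2 = ⊥ := by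
    have h3 := hDt 2
    rw [hD] at h3
    exact (Subgroup.map_eq_bot_iff_of_injective _ (Subgroup.subtype_injective _)).1 h3
  have hM' : (NR (⊤ : Subgroup (c2 x y))).Normal := (x_MON _).2.2.2.1 ⊤ inferInstance 1
  by_contra hcon
  push Not at hcon
  have hx'R : x' ∈ Rad (qp s n) (c2 x y) := by
    refine mem_rad_of hn hs (exp_sub hG _) (Subtype.ext hx) ?_
    intro m hm g hg hgm
    have hm0 : m ≠ 0 := by
      rintro rfl
      rw [Nat.coprime_zero_left] at hm
      exact hs.ne_one hm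
    refine commute_of_primes (NR (⊤ : Subgroup (c2 x y))) x' ?_ m hm0 hm g hg hgm
    intro l hl hls g hg hgk
    by_contra hne
    obtain ⟨⟨P, hP⟩, -⟩ := x_SYL (c2 x y) (NR ⊤) inferInstance hD' l hl
    have hU : ∃ U' : Subgroup G, U' ≤ P.map (c2 x y).subtype ∧ Arr n l x U' := by
      refine arr_exists _ ?_ ?_ ?_ ?_
      · exact Finite.of_surjective _ ((c2 x y).subtype.subgroupMap_surjective P)
      · rintro _ ⟨u, hu, rfl⟩
        have h4 := ((hP u).1 hu).2
        have h5 := pow_qp hn (exp_sub hG _ u) hl h4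
        rw [← map_pow, h5, map_one]
      · rintro _ ⟨u, hu, rfl⟩
        refine ⟨x' * u * x'⁻¹, ?_, rfl⟩
        rw [SetLike.mem_coe, hP] at hu ⊢
        obtain ⟨hu1, k, hk⟩ := hu
        exact ⟨hM'.conj_mem u hu1 x', k, conj_pow_one hk⟩
      · refine ⟨(g : G), ⟨g, (hP g).2 ⟨hg, hgk⟩, rfl⟩, fun h6 => hne (Subtype.ext h6)⟩
    obtain ⟨U', -, hA⟩ := hU
    exact hcon l U' hl hls hA
  have h7 := rad_mul hx'R (z := y') (Subtype.ext hy)
  exact hxy (congrArg Subtype.val h7)

end Pool.Agent.TH69.Mtn
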