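import Mathlib
import Pool.Agent.TH69.MtnB

set_option autoImplicit false

/-!
# Groups of finite exponent with finite metanilpotent two-generator subgroups, part C:
# coprime action of two commuting elements of prime order
-/

namespace Pool.Agent.TH69.Mtn

open Pool.Agent.H32BU Pool.Agent.W629

section

variable {V : Type} [CommGroup V]

/-- the norm of an endomorphism of order dividing `s` -/
def nrm (s : ℕ) (β : Monoid.End V) (v : V) : V := ∏ i ∈ Finset.range s, (β ^ i) v

theorem nrm_fixed {s : ℕ} (hs : 0 < s) {β : Monoid.End V} (hβ : β ^ s = 1) (v : V) :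
    β (nrm s β v) = nrm s β v := by
  obtain ⟨k, rfl⟩ : ∃ k, s = k + 1 := ⟨s - 1, by omega⟩
  unfold nrm
  rw [map_prod]
  have h1 : ∀ i, β ((β ^ i) v) = (β ^ (i + 1)) v := by
    intro i
    rw [pow_succ']
    rfl
  simp only [h1]
  rw [Finset.prod_range_succ, Finset.prod_range_succ' (fun i => (β ^ i) v)]
  rw [hβ, pow_zero]

theorem fixed_pow {β : Monoid.End V} {v : V} (h : β v = v) (k : ℕ) : (β ^ k) v = v := by
  induction k with
  | zero => rfl
  | succ k ih =>
    rw [pow_succ]
    change (β ^ k) (β v) = v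
    rw [h, ih]

/-- if every fixed element of `γ α ^ i` is fixed by `α`, then `α` fixes all `s`-th powers -/
theorem norm_trick {s : ℕ} (hs : s.Prime) {α γ : Monoid.End V} (hc : Commute α γ)
    (hα : α ^ s = 1) (hγ : γ ^ s = 1)
    (h : ∀ i : ℕ, ∀ v : V, (γ * α ^ i) v = v → α v = v) (v : V) : α (v ^ s) = v ^ s := by
  have h1 : ∀ i : ℕ, α (nrm s (γ * α ^ i) v) = nrm s (γ * α ^ i) v := by
    intro i
    apply h i
    apply nrm_fixed hs.pos
    have hc' : Commute γ (α ^ i) := (hc.pow_left i).symm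
    rw [hc'.mul_pow, hγ, ← pow_mul, mul_comm i s, pow_mul, hα, one_pow, one_mul]
  -- the double product
  have h2 : ∏ i ∈ Finset.range s, nrm s (γ * α ^ i) v =
      v ^ s * ∏ j ∈ Finset.range (s - 1), nrm s (α ^ (j + 1)) ((γ ^ (j + 1)) v) := by
    unfold nrm
    rw [Finset.prod_comm]
    obtain ⟨k, rfl⟩ : ∃ k, s = k + 1 := ⟨s - 1, by have := hs.pos; omega⟩
    rw [Finset.prod_range_succ', mul_comm, Nat.add_sub_cancel]
    congr 1
    · simp
    · refine Finset.prod_congr rfl fun j _ => Finset.prod_congr rfl fun i _ => ?_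
      have hc' : Commute γ (α ^ i) := (hc.pow_left i).symm
      rw [hc'.mul_pow, ← pow_mul, ← pow_mul, mul_comm i (j + 1)]
      have hc2 : γ ^ (j + 1) * α ^ ((j + 1) * i) = α ^ ((j + 1) * i) * γ ^ (j + 1) :=
        ((hc.pow_left _).pow_right _).symm
      rw [hc2]
      rfl
  have h3 : ∀ j ∈ Finset.range (s - 1), α (nrm s (α ^ (j + 1)) ((γ ^ (j + 1)) v)) =
      nrm s (α ^ (j + 1)) ((γ ^ (j + 1)) v) := by
    intro j hj
    rw [Finset.mem_range] at hj
    have h4 : (α ^ (j + 1)) ^ s = 1 := by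
      rw [← pow_mul, mul_comm, pow_mul, hα, one_pow]
    have h5 := nrm_fixed hs.pos h4 ((γ ^ (j + 1)) v)
    have hco : Nat.Coprime (j + 1) s := by
      rw [Nat.coprime_comm, Nat.Prime.coprime_iff_not_dvd hs]
      intro hd
      have := Nat.le_of_dvd (by omega) hd
      omega
    obtain ⟨m, hm⟩ : ∃ m : ℕ, (j + 1) * m ≡ 1 [MOD s] := by
      obtain ⟨m, hm⟩ := Nat.exists_mul_mod_eq_one_of_coprime hco hs.one_lt
      refine ⟨m, ?_⟩
      have h6 : 1 % s = 1 := Nat.mod_eq_of_lt hs.one_lt
      rw [Nat.ModEq, hm.2, h6]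
    have h7 : (α ^ (j + 1)) ^ m = α := by
      rw [← pow_mul]
      have h8 : α ^ ((j + 1) * m) = α ^ 1 := by
        have h9 : ∀ a b : ℕ, a ≡ b [MOD s] → a ≤ b → α ^ a = α ^ b := by
          intro a b hab hle
          obtain ⟨c, hc⟩ := (Nat.modEq_iff_dvd' hle).1 hab
          have : b = a + s * c := by omega
          rw [this, pow_add, pow_mul, hα, one_pow, mul_one]
        rcases le_total ((j + 1) * m) 1 with hle | hle
        · exact h9 _ _ hm hle
        · exact (h9 _ _ hm.symm hle).symm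
      rw [h8, pow_one]
    have h10 := fixed_pow h5 m
    rw [h7] at h10
    exact h10
  have h11 : α (∏ i ∈ Finset.range s, nrm s (γ * α ^ i) v) =
      ∏ i ∈ Finset.range s, nrm s (γ * α ^ i) v := by
    rw [map_prod]
    exact Finset.prod_congr rfl fun i _ => h1 i
  rw [h2, map_mul, map_prod, Finset.prod_congr rfl h3] at h11
  exact mul_right_cancel h11

end

end Pool.Agent.TH69.Mtn
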