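import Mathlib
import Pool.Agent.TH69.MtnC

set_option autoImplicit false

/-!
# Groups of finite exponent with finite metanilpotent two-generator subgroups, part D:
# coprime action of two commuting elements of prime order on a finite `l`-group
-/

namespace Pool.Agent.TH69.Mtn

open Pool.Agent.H32BU Pool.Agent.W629

/-- the action on the abelianization -/
def psi {H : Type} [Group H] : MulAut H →* Monoid.End (Abelianization H) where
  toFun f := Abelianization.map f.toMonoidHom
  map_one' := by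
    refine DFunLike.ext _ _ fun x => ?_
    obtain ⟨x, rfl⟩ := QuotientGroup.mk_surjective x
    rfl
  map_mul' f g := by
    refine DFunLike.ext _ _ fun x => ?_
    obtain ⟨x, rfl⟩ := QuotientGroup.mk_surjective x
    rfl

theorem psi_of {H : Type} [Group H] (f : MulAut H) (x : H) :
    psi f (Abelianization.of x) = Abelianization.of (f x) := rfl

variable {G : Type} [Group G]

theorem inv_conj {s : ℕ} (hs : 0 < s) {P : Subgroup G} {u : G} (hus : u ^ s = 1)
    (hu : ∀ x ∈ P, u * x * u⁻¹ ∈ P) : ∀ x ∈ P, u⁻¹ * x * u ∈ P := by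
  intro x hx
  have h1 : ∀ k : ℕ, u ^ k * x * (u ^ k)⁻¹ ∈ P := by
    intro k
    induction k with
    | zero => simpa using hx
    | succ k ih =>
      have := hu _ ih
      rw [pow_succ']
      have e : u * u ^ k * x * (u * u ^ k)⁻¹ = u * (u ^ k * x * (u ^ k)⁻¹) * u⁻¹ := by group
      rw [e]
      exact this
  have h2 := h1 (s - 1)
  have h3 : u ^ (s - 1) = u⁻¹ := by
    rw [eq_inv_iff_mul_eq_one, ← pow_succ, Nat.sub_add_cancel hs, hus]
  rw [h3, inv_inv] at h2
  exact h2

theorem mem_norm {s : ℕ} (hs : 0 < s) {P : Subgroup G} {u : G} (hus : u ^ s = 1)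
    (hu : ∀ x ∈ P, u * x * u⁻¹ ∈ P) : u ∈ Subgroup.normalizer (P : Set G) := by
  rw [Subgroup.mem_normalizer_iff]
  intro x
  refine ⟨fun h => hu x h, fun h => ?_⟩
  have := inv_conj hs hus hu _ h
  have e : u⁻¹ * (u * x * u⁻¹) * u = x := by group
  rwa [e] at this

/-- the key step, for a minimal group -/
theorem coprime_act_min {n l s : ℕ} (hl : l.Prime) (hs : s.Prime) (hls : l ≠ s)
    (P : Subgroup G) (hPf : Finite P) (hP : ∀ x ∈ P, x ^ qp l n = 1) {u c : G}
    (huc : u * c = c * u) (hus : u ^ s = 1) (hcs : c ^ s = 1) (hu : ∀ x ∈ P, u * x * u⁻¹ ∈ P)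
    (hc : ∀ x ∈ P, c * x * c⁻¹ ∈ P)
    (hmin : ∀ D : Subgroup G, D ≤ P → D ≠ P → (∀ x ∈ D, u * x * u⁻¹ ∈ D) →
      (∀ x ∈ D, c * x * c⁻¹ ∈ D) → ∀ x ∈ D, u * x = x * u)
    (hfix : ∀ i : ℕ, ∀ t ∈ P, (c * u ^ i) * t = t * (c * u ^ i) → u * t = t * u) :
    ∀ x ∈ P, u * x = x * u := by
  classical
  have : Fact s.Prime := ⟨hs⟩
  have : Fact l.Prime := ⟨hl⟩
  by_cases hP1 : P = ⊥
  · intro x hx
    rw [hP1, Subgroup.mem_bot] at hx
    rw [hx, mul_one, one_mul]
  have hPgr : IsPGroup l P := fun x => ⟨n.factorization l, Subtype.ext (by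
    rw [Subgroup.coe_pow, Subgroup.coe_one]
    exact hP x x.2)⟩
  have hnil : Group.IsNilpotent P := hPgr.isNilpotent
  have hsol : Group.IsSolvable P := inferInstance
  have hnt : Nontrivial P := (Subgroup.nontrivial_iff_ne_bot P).2 hP1
  have hlt : commutator P < ⊤ := Group.IsSolvable.commutator_lt_top_of_nontrivial P
  have hDle : ⁅P, P⁆ ≤ P := by
    rw [← Subgroup.map_subtype_commutator]
    exact Subgroup.map_subtype_le _
  have hDmem : ∀ x : P, (x : G) ∈ ⁅P, P⁆ ↔ x ∈ commutator P := by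
    intro x
    rw [← Subgroup.map_subtype_commutator]
    constructor
    · rintro ⟨y, hy, e⟩
      have : y = x := Subtype.ext e
      rw [← this]; exact hy
    · intro h; exact ⟨x, h, rfl⟩
  have hDne : ⁅P, P⁆ ≠ P := by
    intro h
    apply hlt.ne
    rw [eq_top_iff]
    intro x _
    rw [← hDmem, h]
    exact x.2
  have hDinv : ∀ g : G, (∀ x ∈ P, g * x * g⁻¹ ∈ P) → ∀ x ∈ ⁅P, P⁆, g * x * g⁻¹ ∈ ⁅P, P⁆ := by
    intro g hg x hx
    have h1 : (⁅P, P⁆).map (MulAut.conj g).toMonoidHom ≤ ⁅P, P⁆ := by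
      rw [Subgroup.map_commutator]
      apply Subgroup.commutator_mono
      · rintro _ ⟨y, hy, rfl⟩; exact hg y hy
      · rintro _ ⟨y, hy, rfl⟩; exact hg y hy
    exact h1 ⟨x, hx, rfl⟩
  have hDu : ∀ x ∈ ⁅P, P⁆, u * x = x * u :=
    hmin _ hDle hDne (hDinv u hu) (hDinv c hc)
  -- the elements of the normalizer
  let u' : Subgroup.normalizer (P : Set G) := ⟨u, mem_norm hs.pos hus hu⟩
  let c' : Subgroup.normalizer (P : Set G) := ⟨c, mem_norm hs.pos hcs hc⟩
  let ψ : Subgroup.normalizer (P : Set G) →* Monoid.End (Abelianization P) :=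
    psi.comp (Subgroup.normalizerMonoidHom P)
  have hψ : ∀ (g : Subgroup.normalizer (P : Set G)) (x : P) (hx : (g : G) * x * (g : G)⁻¹ ∈ P),
      ψ g (Abelianization.of x) = Abelianization.of ⟨(g : G) * x * (g : G)⁻¹, hx⟩ := by
    intro g x hx
    rfl
  have hcom : Commute (ψ u') (ψ c') := by
    have : u' * c' = c' * u' := Subtype.ext huc
    change ψ u' * ψ c' = ψ c' * ψ u'
    rw [← map_mul, this, map_mul]
  have hα : (ψ u') ^ s = 1 := by
    have : u' ^ s = 1 := Subtype.ext hus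
    rw [← map_pow, this, map_one]
  have hγ : (ψ c') ^ s = 1 := by
    have : c' ^ s = 1 := Subtype.ext hcs
    rw [← map_pow, this, map_one]
  have hof : ∀ x y : P, Abelianization.of x = Abelianization.of y ↔ (x : G)⁻¹ * y ∈ ⁅P, P⁆ := by
    intro x y
    have h1 : Abelianization.of x = Abelianization.of y ↔ x⁻¹ * y ∈ commutator P :=
      QuotientGroup.eq
    rw [h1, ← hDmem]
    rfl
  have hall : ∀ v : Abelianization P, ψ u' (v ^ s) = v ^ s := by
    refine norm_trick hs hcom hα hγ ?_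
    intro i v hv
    obtain ⟨x, rfl⟩ : ∃ x : P, Abelianization.of x = v := QuotientGroup.mk_surjective v
    -- the element `g = c u ^ i`
    let g : Subgroup.normalizer (P : Set G) := c' * u' ^ i
    have hg : (g : G) = c * u ^ i := rfl
    have hgs : (g : G) ^ s = 1 := by
      have hcu : Commute c (u ^ i) := by
        have : Commute c u := huc.symm
        exact this.pow_right i
      rw [hg, hcu.mul_pow, hcs, ← pow_mul, mul_comm i s, pow_mul, hus, one_pow, one_mul]
    have hgP : ∀ y ∈ P, (g : G) * y * (g : G)⁻¹ ∈ P := fun y hy =>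
      ((Subgroup.mem_normalizer_iff.1 g.2) y).1 hy
    have hv' : ψ g (Abelianization.of x) = Abelianization.of x := by
      have : ψ g = ψ c' * (ψ u') ^ i := by rw [map_mul, map_pow]
      rw [this]
      exact hv
    rw [hψ g x (hgP x x.2), eq_comm, hof] at hv'
    change (x : G)⁻¹ * ((g : G) * x * (g : G)⁻¹) ∈ ⁅P, P⁆ at hv'
    have hgD := hDinv g hgP
    -- a fixed point in the coset of `x`
    let D : Subgroup G := ⁅P, P⁆
    have hDf : Finite D := Finite.of_injective (Subgroup.inclusion hDle)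
      (Subgroup.inclusion_injective hDle)
    let f : Function.End D := fun d => ⟨(x : G)⁻¹ * ((g : G) * (x * d) * (g : G)⁻¹), by
      have e : (x : G)⁻¹ * ((g : G) * (x * d) * (g : G)⁻¹) =
        ((x : G)⁻¹ * ((g : G) * x * (g : G)⁻¹)) * ((g : G) * d * (g : G)⁻¹) := by group
      rw [e]
      exact mul_mem hv' (hgD d d.2)⟩
    have hfk : ∀ (k : ℕ) (d : D), ((f ^ k) d : G) =
        (x : G)⁻¹ * ((g : G) ^ k * (x * d) * ((g : G) ^ k)⁻¹) := by
      intro k
      induction k with
      | zero =>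
        intro d
        change (d : G) = _
        rw [pow_zero]
        group
      | succ k ih =>
        intro d
        rw [pow_succ']
        change (x : G)⁻¹ * ((g : G) * (x * ((f ^ k) d : G)) * (g : G)⁻¹) = _
        rw [ih, pow_succ']
        group
    have hfs : f ^ s ^ 1 = 1 := by
      funext d
      apply Subtype.ext
      rw [pow_one, hfk, hgs]
      change (x : G)⁻¹ * (1 * (x * d) * 1⁻¹) = d
      group
    have := Fintype.ofFinite D
    have hcard := Equiv.Perm.card_fixedPoints_modEq hfs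
    have hDpg : IsPGroup l D := fun y => ⟨n.factorization l, Subtype.ext (by
      rw [Subgroup.coe_pow, Subgroup.coe_one]
      exact hP y (hDle y.2))⟩
    obtain ⟨d, hd⟩ : ∃ d : D, f d = d := by
      by_contra hcon
      push Not at hcon
      have h0 : Fintype.card (Function.fixedPoints f) = 0 := by
        rw [Fintype.card_eq_zero_iff]
        exact ⟨fun d => hcon d.1 d.2⟩
      rw [h0] at hcard
      have h1 : s ∣ Fintype.card D := (Nat.modEq_zero_iff_dvd).1 hcard
      obtain ⟨k, hk⟩ := (IsPGroup.iff_card).1 hDpg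
      rw [← Nat.card_eq_fintype_card, hk] at h1
      have h2 := hs.dvd_of_dvd_pow h1
      exact hls ((Nat.prime_dvd_prime_iff_eq hs hl).1 h2).symm
    have hd' : (x : G)⁻¹ * ((g : G) * (x * d) * (g : G)⁻¹) = d := congrArg Subtype.val hd
    have hfixed : (g : G) * (x * d) = (x * d) * g := by
      rw [inv_mul_eq_iff_eq_mul, mul_inv_eq_iff_eq_mul] at hd'
      exact hd'
    have h3 := hfix i (x * d) (mul_mem x.2 (hDle d.2)) hfixed
    have h4 := hDu d d.2
    have h5 : u * (x : G) = x * u := by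
      have e1 : u * ((x : G) * d) * (d : G)⁻¹ = u * x := by group
      have e2 : (x : G) * d * u * (d : G)⁻¹ = x * (d * u) * (d : G)⁻¹ := by group
      rw [← e1, h3, e2, ← h4]
      group
    have h6 : (u : G) * x * (u : G)⁻¹ = x := by rw [h5]; group
    rw [hψ u' x (hu x x.2)]
    congr 1
    exact Subtype.ext h6
  intro x hx
  let x' : P := ⟨x, hx⟩
  have h1 := hall (Abelianization.of x')
  rw [← map_pow, hψ u' _ (hu _ (x' ^ s).2), eq_comm, hof] at h1
  change (x ^ s)⁻¹ * (u * x ^ s * u⁻¹) ∈ ⁅P, P⁆ at h1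
  -- `u` commutes with `x ^ s`
  have h2 : u * x ^ s * u⁻¹ * (x ^ s)⁻¹ ∈ ⁅P, P⁆ := by
    have e : u * x ^ s * u⁻¹ * (x ^ s)⁻¹ =
      x ^ s * ((x ^ s)⁻¹ * (u * x ^ s * u⁻¹)) * (x ^ s)⁻¹ := by group
    rw [e]
    exact hDinv _ (fun y hy => mul_mem (mul_mem (pow_mem hx s) hy) (inv_mem (pow_mem hx s))) _ h1
  have h3 := comm_pow (x := u) (y := x ^ s) (c := u * x ^ s * u⁻¹ * (x ^ s)⁻¹) rfl
    (hDu _ h2) s
  rw [hus] at h3
  have h4 : (u * x ^ s * u⁻¹ * (x ^ s)⁻¹) ^ s = 1 := by
    rw [← h3]; group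
  have hco : Nat.Coprime s (qp l n) :=
    Nat.Coprime.pow_right _ ((Nat.coprime_primes hs hl).2 hls.symm)
  have h5 := eq_one_of_coprime hco h4 (hP _ (hDle h2))
  rw [mul_inv_eq_one, mul_inv_eq_iff_eq_mul] at h5
  -- `x` is a power of `x ^ s`
  obtain ⟨m, hm⟩ : ∃ m : ℕ, (x ^ s) ^ m = x := by
    have h6 : (orderOf x).Coprime s := by
      have h7 := orderOf_dvd_of_pow_eq_one (hP x hx)
      exact Nat.Coprime.coprime_dvd_left h7 hco.symm
    exact exists_pow_eq_self_of_coprime h6.symm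
  have h8 : Commute u (x ^ s) := h5
  have h9 := h8.pow_right m
  rw [hm] at h9
  exact h9

/-- coprime action of two commuting elements of order `s` -/
theorem coprime_act {n l s : ℕ} (hl : l.Prime) (hs : s.Prime) (hls : l ≠ s) {u c : G}
    (huc : u * c = c * u) (hus : u ^ s = 1) (hcs : c ^ s = 1) :
    ∀ P : Subgroup G, Finite P → (∀ x ∈ P, x ^ qp l n = 1) → (∀ x ∈ P, u * x * u⁻¹ ∈ P) →
      (∀ x ∈ P, c * x * c⁻¹ ∈ P) → (∃ x ∈ P, u * x ≠ x * u) →
      ∃ i : ℕ, ∃ t ∈ P, (c * u ^ i) * t = t * (c * u ^ i) ∧ u * t ≠ t * u := by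
  have key : ∀ k : ℕ, ∀ P : Subgroup G, Finite P → Nat.card P ≤ k → (∀ x ∈ P, x ^ qp l n = 1) →
      (∀ x ∈ P, u * x * u⁻¹ ∈ P) →
      (∀ x ∈ P, c * x * c⁻¹ ∈ P) → (∃ x ∈ P, u * x ≠ x * u) →
      ∃ i : ℕ, ∃ t ∈ P, (c * u ^ i) * t = t * (c * u ^ i) ∧ u * t ≠ t * u := by
    intro k
    induction k with
    | zero =>
      intro P hf hk
      have : 0 < Nat.card P := Nat.card_pos
      omega
    | succ k ih =>
      intro P hf hk hP hu hc hne
      by_contra hcon
      push Not at hcon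
      obtain ⟨x, hx, hxu⟩ := hne
      refine hxu (coprime_act_min hl hs hls P hf hP huc hus hcs hu hc ?_ hcon x hx)
      intro D hDP hDne hDu hDc y hy
      by_contra hyu
      have hf' : Finite D := Finite.of_injective (Subgroup.inclusion hDP)
          (Subgroup.inclusion_injective hDP)
      have hcard : Nat.card D < Nat.card P := by
        have h5 : (D : Set G) ⊂ (P : Set G) :=
          ⟨hDP, fun h => hDne (le_antisymm hDP h)⟩
        exact Set.Finite.card_lt_card (Set.toFinite _) h5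
      obtain ⟨i, t, ht, h1, h2⟩ := ih D hf' (by omega) (fun x hx => hP x (hDP hx)) hDu hDc
        ⟨y, hy, hyu⟩
      exact h2 (hcon i t (hDP ht) h1)
  intro P hf
  exact key _ P hf le_rfl

end Pool.Agent.TH69.Mtn
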