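import Mathlib
import Pool.Agent.TH69.MtnD

set_option autoImplicit false

/-!
# Groups of finite exponent with finite metanilpotent two-generator subgroups, part E:
# the main argument
-/

namespace Pool.Agent.TH69.Mtn

open Pool.Agent.H32BU Pool.Agent.W629

variable {G : Type} [Group G]

theorem comm_of_good {n : ℕ} (hn : 1 ≤ n) (hG : ∀ x : G, x ^ n = 1) (F : Subgroup G)
    (hF : Finite F) (hD : DD F 2 = ⊥) {s : ℕ} (hs : s.Prime) {z w : G} (hz : z ∈ NR F)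
    (hzs : z ^ qp s n = 1) (hzF : z ∈ F) (hw : w ∈ F) : (z * w * z⁻¹ * w⁻¹) ^ qp s n = 1 := by
  have h1 := x_COPC G F hF n hn (fun x _ => hG x) 1 hD s hs z hz hzs (w * z⁻¹ * w⁻¹)
    (mul_mem (mul_mem hw (inv_mem hzF)) (inv_mem hw))
    (conj_pow_one (by rw [inv_pow, hzs, inv_one])) (z * (w * z⁻¹ * w⁻¹))
    (mul_mem (Subgroup.subset_closure (by simp)) (Subgroup.subset_closure (by simp)))
  have e : z * (w * z⁻¹ * w⁻¹) = z * w * z⁻¹ * w⁻¹ := by group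
  rwa [e] at h1

section main

variable {n : ℕ} (hn : 1 ≤ n) (hG : ∀ x : G, x ^ n = 1)
  (h2 : ∀ x y : G, Finite (c2 x y) ∧ DD (c2 x y) 2 = ⊥)
  (hR : ∀ s : ℕ, s.Prime → Rad (qp s n) G = ⊥)

include hn hG h2 hR

/-- the minimal group `U` contains no nontrivial element commuting with `h` and `U` -/
theorem case_one {r s : ℕ} (hr : r.Prime) (hs : s.Prime) (hrs : r ≠ s) {h : G}
    (hh : h ^ qp r n = 1) {U : Subgroup G} (A : Arr n s h U) {z : G} (hz : z ∈ U) (hz1 : z ≠ 1)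
    (hzh : h * z = z * h) (hzU : ∀ u ∈ U, z * u = u * z) : False := by
  obtain ⟨u, hu, hc⟩ := A.nc
  obtain ⟨t, V, ht, hts, B⟩ := arr_of_rad (by omega) hG h2 hs (hR s hs) (A.pow z hz) hz1
  obtain ⟨v, hv, hvc⟩ := B.nc
  obtain ⟨hF, hD⟩ := h2 (h * z) (v * u)
  have m1 : h * z ∈ c2 (h * z) (v * u) := Subgroup.subset_closure (by simp)
  have m2 : v * u ∈ c2 (h * z) (v * u) := Subgroup.subset_closure (by simp)
  obtain ⟨m3, m4⟩ := mem_of_mul hzh hh (A.pow z hz) (qp_coprime hr hs hrs) _ m1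
  have m5 : z * v * z⁻¹ * v⁻¹ ∈ c2 (h * z) (v * u) := by
    have h3 := hzU u hu
    have h4 : u * z⁻¹ * u⁻¹ = z⁻¹ := by
      rw [mul_inv_eq_iff_eq_mul, eq_inv_mul_iff_mul_eq, ← mul_assoc, h3]
      group
    have e : z * v * z⁻¹ * v⁻¹ = z * (v * u) * z⁻¹ * (v * u)⁻¹ := by
      have e2 : z * (v * u) * z⁻¹ * (v * u)⁻¹ = z * v * (u * z⁻¹ * u⁻¹) * v⁻¹ := by group
      rw [e2, h4]
    rw [e]
    exact mul_mem (mul_mem (mul_mem m4 m2) (inv_mem m4)) (inv_mem m2)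
  have hco := qp_coprime (n := n) hs ht hts.symm
  have hVF : V ≤ c2 (h * z) (v * u) := B.gen' (A.pow z hz) hco _ m4 hv hvc m5
  have m6 : u ∈ c2 (h * z) (v * u) := by
    have e : v⁻¹ * (v * u) = u := by group
    have m7 := mul_mem (inv_mem (hVF hv)) m2
    rwa [e] at m7
  have hUF : U ≤ c2 (h * z) (v * u) := A.gen _ m3 hu m6 hc
  have hNR := A.le_NR hh (qp_coprime hr hs hrs) _ m3 hUF
  have h5 := comm_of_good hn hG _ hF hD hs (hNR hz) (A.pow z hz) m4 (hVF hv)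
  have h6 := B.pow _ (B.comm_nc (A.pow z hz) hco hv hvc).1
  have h7 := eq_one_of_coprime hco h5 h6
  rw [mul_inv_eq_one, mul_inv_eq_iff_eq_mul] at h7
  exact hvc h7

/-- the second case -/
theorem case_two {r s : ℕ} (hr : r.Prime) (hs : s.Prime) (hrs : r ≠ s) {h : G}
    (hh : h ^ qp r n = 1) {U : Subgroup G} (A : Arr n s h U)
    (hcen : ∀ a ∈ U, a ≠ 1 → h * a ≠ a * h) (hab : ∀ a ∈ U, ∀ b ∈ U, a * b = b * a)
    (hpow : ∀ a ∈ U, a ^ s = 1) {u c : G} (hu : u ∈ U) (hc : c ∈ U) (hu1 : u ≠ 1)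
    (hcu : ∀ i : ℕ, c * u ^ i ≠ 1) : False := by
  obtain ⟨l, T, hl, hls, B⟩ := arr_of_rad (by omega) hG h2 hs (hR s hs) (A.pow u hu) hu1
  obtain ⟨t, ht, htc⟩ := B.nc
  have hco := qp_coprime (n := n) hs hl hls.symm
  have hucc := hab u hu c hc
  -- the first two-generator subgroup
  obtain ⟨hF1, hD1⟩ := h2 u (t * c)
  have m1 : u ∈ c2 u (t * c) := Subgroup.subset_closure (by simp)
  have m2 : t * c ∈ c2 u (t * c) := Subgroup.subset_closure (by simp)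
  have m3 : u * t * u⁻¹ * t⁻¹ ∈ c2 u (t * c) := by
    have h4 : c * u⁻¹ * c⁻¹ = u⁻¹ := by
      rw [mul_inv_eq_iff_eq_mul, eq_inv_mul_iff_mul_eq, ← mul_assoc, hucc]
      group
    have e : u * t * u⁻¹ * t⁻¹ = u * (t * c) * u⁻¹ * (t * c)⁻¹ := by
      have e2 : u * (t * c) * u⁻¹ * (t * c)⁻¹ = u * t * (c * u⁻¹ * c⁻¹) * t⁻¹ := by group
      rw [e2, h4]
    rw [e]
    exact mul_mem (mul_mem (mul_mem m1 m2) (inv_mem m1)) (inv_mem m2)
  have hTF : T ≤ c2 u (t * c) := B.gen' (A.pow u hu) hco _ m1 ht htc m3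
  have m4 : c ∈ c2 u (t * c) := by
    have e : t⁻¹ * (t * c) = c := by group
    have m7 := mul_mem (inv_mem (hTF ht)) m2
    rwa [e] at m7
  have hTN := B.le_NR (A.pow u hu) hco _ m1 hTF
  have hNle : NR (c2 u (t * c)) ≤ c2 u (t * c) := (x_MON G).2.1 (c2 u (t * c)) 0
  have hNf : Finite (NR (c2 u (t * c))) :=
    Finite.of_injective (Subgroup.inclusion hNle) (Subgroup.inclusion_injective _)
  obtain ⟨⟨P, hP⟩, -⟩ := x_SYL G (NR (c2 u (t * c))) hNf hD1 l hl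
  have hPle : P ≤ c2 u (t * c) := fun x hx =>
    ((x_MON G).2.1 (c2 u (t * c)) 0) ((hP x).1 hx).1
  have hPf : Finite P := Finite.of_injective (Subgroup.inclusion hPle)
      (Subgroup.inclusion_injective _)
  have hPpow : ∀ x ∈ P, x ^ qp l n = 1 := fun x hx =>
    pow_qp (by omega) (hG x) hl ((hP x).1 hx).2
  have hPinv : ∀ g ∈ c2 u (t * c), ∀ x ∈ P, g * x * g⁻¹ ∈ P := by
    intro g hg x hx
    rw [hP] at hx ⊢
    obtain ⟨hx1, k, hk⟩ := hx
    have hst := (x_MON G).2.2.1 (c2 u (t * c)) g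
      (fun a ha => mul_mem (mul_mem hg ha) (inv_mem hg))
      (fun a ha => mul_mem (mul_mem (inv_mem hg) ha) hg) 1
    exact ⟨hst.1 x hx1, k, conj_pow_one hk⟩
  have hTP : T ≤ P := fun x hx => (hP x).2 ⟨hTN hx, n.factorization l, B.pow x hx⟩
  obtain ⟨i, t1, ht1, hcomm, hne⟩ := coprime_act (n := n) hl hs hls hucc (hpow u hu) (hpow c hc) P
    hPf hPpow (hPinv u m1) (hPinv c m4) ⟨t, hTP ht, htc⟩
  -- the second two-generator subgroup
  have haU : c * u ^ i ∈ U := U.mul_mem hc (U.pow_mem hu i)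
  have hapow := A.pow _ haU
  obtain ⟨hF, hD⟩ := h2 h ((c * u ^ i) * t1)
  have k1 : h ∈ c2 h ((c * u ^ i) * t1) := Subgroup.subset_closure (by simp)
  have k2 : (c * u ^ i) * t1 ∈ c2 h ((c * u ^ i) * t1) := Subgroup.subset_closure (by simp)
  obtain ⟨k3, k4⟩ := mem_of_mul hcomm hapow (hPpow t1 ht1) hco _ k2
  have hUF : U ≤ c2 h ((c * u ^ i) * t1) := A.gen _ k1 haU k3 (hcen _ haU (hcu i))
  have hNR := A.le_NR hh (qp_coprime hr hs hrs) _ k1 hUF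
  have h5 := comm_of_good hn hG _ hF hD hs (hNR hu) (A.pow u hu) (hUF hu) k4
  have h6 : (u * t1 * u⁻¹ * t1⁻¹) ^ qp l n = 1 :=
    hPpow _ (P.mul_mem (hPinv u m1 t1 ht1) (P.inv_mem ht1))
  have h7 := eq_one_of_coprime hco h5 h6
  rw [mul_inv_eq_one, mul_inv_eq_iff_eq_mul] at h7
  exact hne h7

end main

end Pool.Agent.TH69.Mtn
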