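import Mathlib
import Pool.Agent.TH69.MtnE

set_option autoImplicit false

/-!
# Groups of finite exponent with finite metanilpotent two-generator subgroups, part F:
# conclusion
-/

namespace Pool.Agent.TH69.Mtn

open Pool.Agent.H32BU Pool.Agent.W629

variable {G : Type} [Group G]

theorem trivial_of_rad {n : ℕ} (hn : 1 ≤ n) (hG : ∀ x : G, x ^ n = 1)
    (h2 : ∀ x y : G, Finite (c2 x y) ∧ DD (c2 x y) 2 = ⊥)
    (hR : ∀ s : ℕ, s.Prime → Rad (qp s n) G = ⊥) (g : G) : g = 1 := by
  classical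
  by_contra hg
  -- the largest prime with a nontrivial element
  let Q : ℕ → Prop := fun r => r.Prime ∧ ∃ h : G, h ≠ 1 ∧ h ^ qp r n = 1
  have hbound : ∀ r, Q r → r ≤ n := by
    rintro r ⟨hr, h, h1, h3⟩
    by_contra hlt
    push Not at hlt
    apply h1
    have h4 : qp r n = 1 := by
      have : n.factorization r = 0 := Nat.factorization_eq_zero_of_lt hlt
      simp [qp, this]
    rwa [h4, pow_one] at h3
  have hex : ∃ r, Q r := by
    have ho : orderOf g ≠ 1 := fun h => hg (orderOf_eq_one_iff.1 h)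
    obtain ⟨p, hp, hpd⟩ := Nat.exists_prime_and_dvd ho
    refine ⟨p, hp, g ^ (orderOf g / p), ?_, ?_⟩
    · intro h1
      have h3 := orderOf_dvd_of_pow_eq_one h1
      have h4 : 0 < orderOf g := orderOf_pos_iff.2 (isOfFinOrder_iff_pow_eq_one.2 ⟨n, by omega, hG g⟩)
      have h5 : orderOf g / p < orderOf g := Nat.div_lt_self h4 hp.one_lt
      have h6 : 0 < orderOf g / p := Nat.div_pos (Nat.le_of_dvd h4 hpd) hp.pos
      exact absurd (Nat.le_of_dvd h6 h3) (by omega)
    · refine pow_qp (by omega) (hG _) hp ⟨1, ?_⟩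
      rw [pow_one, ← pow_mul, Nat.div_mul_cancel hpd, pow_orderOf_eq_one]
  obtain ⟨r0, hr0⟩ := hex
  have hQ := Nat.findGreatest_spec (P := Q) (hbound r0 hr0) hr0
  have hmax : ∀ r, Q r → r ≤ Nat.findGreatest Q n := fun r hr =>
    Nat.le_findGreatest (hbound r hr) hr
  generalize Nat.findGreatest Q n = r at hQ hmax
  obtain ⟨hr, h, hh1, hh⟩ := hQ
  obtain ⟨s, U, hs, hsr, A⟩ := arr_of_rad (by omega) hG h2 hr (hR r hr) hh hh1
  obtain ⟨u, hu, huc⟩ := A.nc
  have hu1 : u ≠ 1 := by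
    rintro rfl
    exact huc (by rw [mul_one, one_mul])
  have hslt : s < r := by
    have := hmax s ⟨hs, u, hu1, A.pow u hu⟩
    omega
  have : Fact s.Prime := ⟨hs⟩
  have : Fact r.Prime := ⟨hr⟩
  have hUf := A.fin
  -- no central element commuting with `h`
  have hno : ∀ z ∈ U, z ≠ 1 → (∀ u ∈ U, z * u = u * z) → h * z ≠ z * h :=
    fun z hz hz1 hzU hzh => case_one hn hG h2 hR hr hs hsr.symm hh A hz hz1 hzh hzU
  -- `U` is commutative
  have hinv' : ∀ x ∈ U, h⁻¹ * x * h ∈ U := inv_conj (pow_pos hr.pos _) hh A.inv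
  let Z : Subgroup G :=
    { carrier := {z | z ∈ U ∧ ∀ u ∈ U, z * u = u * z}
      one_mem' := ⟨one_mem _, fun u _ => by rw [one_mul, mul_one]⟩
      mul_mem' := by
        rintro a b ⟨ha, ha'⟩ ⟨hb, hb'⟩
        refine ⟨mul_mem ha hb, fun u hu => ?_⟩
        rw [mul_assoc, hb' u hu, ← mul_assoc, ha' u hu, mul_assoc]
      inv_mem' := by
        rintro a ⟨ha, ha'⟩
        refine ⟨inv_mem ha, fun u hu => ?_⟩
        rw [inv_mul_eq_iff_eq_mul, ← mul_assoc, ha' u hu]
        group }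
  have hUp : IsPGroup s U := fun x => ⟨n.factorization s, Subtype.ext (by
    rw [Subgroup.coe_pow, Subgroup.coe_one]
    exact A.pow x x.2)⟩
  have hnt : Nontrivial U := ⟨⟨⟨u, hu⟩, 1, fun e => hu1 (congrArg Subtype.val e)⟩⟩
  have hcnt : Nontrivial (Subgroup.center U) := hUp.center_nontrivial
  obtain ⟨⟨z0, hz0⟩, hz0'⟩ := exists_ne (1 : Subgroup.center U)
  have hz1 : (z0 : G) ≠ 1 := by
    intro e
    apply hz0'
    exact Subtype.ext (Subtype.ext e)
  have hz0Z : (z0 : G) ∈ Z := by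
    refine ⟨z0.2, fun u hu => ?_⟩
    have := (Subgroup.mem_center_iff.1 hz0) ⟨u, hu⟩
    exact (congrArg Subtype.val this).symm
  have hZU : Z = U := by
    refine A.min Z (fun x hx => hx.1) ?_ ⟨z0, hz0Z, hno z0 hz0Z.1 hz1 hz0Z.2⟩
    rintro z ⟨hz, hz'⟩
    refine ⟨A.inv z hz, fun u hu => ?_⟩
    have h3 := hz' _ (hinv' u hu)
    have e1 : h * z * h⁻¹ * u = h * (z * (h⁻¹ * u * h)) * h⁻¹ := by group
    have e2 : u * (h * z * h⁻¹) = h * ((h⁻¹ * u * h) * z) * h⁻¹ := by group
    rw [e1, e2, h3]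
  have hab : ∀ a ∈ U, ∀ b ∈ U, a * b = b * a := by
    intro a ha b hb
    rw [← hZU] at ha
    exact ha.2 b hb
  have hcen : ∀ a ∈ U, a ≠ 1 → h * a ≠ a * h := fun a ha ha1 =>
    hno a ha ha1 (fun u hu => hab a ha u hu)
  -- `U` is elementary abelian
  let E : Subgroup G :=
    { carrier := {z | z ∈ U ∧ z ^ s = 1}
      one_mem' := ⟨one_mem _, one_pow _⟩
      mul_mem' := by
        rintro a b ⟨ha, ha'⟩ ⟨hb, hb'⟩
        have hc : Commute a b := hab a ha b hb
        exact ⟨mul_mem ha hb, by rw [hc.mul_pow, ha', hb', one_mul]⟩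
      inv_mem' := by
        rintro a ⟨ha, ha'⟩
        exact ⟨inv_mem ha, by rw [inv_pow, ha', inv_one]⟩ }
  have hEU : E = U := by
    have hou : orderOf u ∣ s ^ n.factorization s := orderOf_dvd_of_pow_eq_one (A.pow u hu)
    obtain ⟨j, hj, e⟩ := (Nat.dvd_prime_pow hs).1 hou
    have hj0 : j ≠ 0 := by
      rintro rfl
      rw [pow_zero] at e
      exact hu1 (orderOf_eq_one_iff.1 e)
    obtain ⟨i, rfl⟩ : ∃ i, j = i + 1 := ⟨j - 1, by omega⟩
    have hw1 : u ^ s ^ i ≠ 1 := by
      intro h3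
      have h4 := orderOf_dvd_of_pow_eq_one h3
      rw [e] at h4
      have := (Nat.pow_dvd_pow_iff_le_right hs.one_lt).1 h4
      omega
    have hwE : u ^ s ^ i ∈ E := by
      refine ⟨pow_mem hu _, ?_⟩
      rw [← pow_mul, ← pow_succ, ← e, pow_orderOf_eq_one]
    refine A.min E (fun x hx => hx.1) ?_ ⟨_, hwE, hcen _ hwE.1 hw1⟩
    rintro z ⟨hz, hz'⟩
    exact ⟨A.inv z hz, conj_pow_one hz'⟩
  have hpow : ∀ a ∈ U, a ^ s = 1 := by
    intro a ha
    rw [← hEU] at ha
    exact ha.2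
  -- the order of `U` is not `s`
  have hcard : Nat.card U ≠ s := by
    intro hc
    let f : Function.End U := fun x => ⟨h * x * h⁻¹, A.inv x x.2⟩
    have hfk : ∀ (k : ℕ) (d : U), ((f ^ k) d : G) = h ^ k * d * (h ^ k)⁻¹ := by
      intro k
      induction k with
      | zero =>
        intro d
        change (d : G) = _
        rw [pow_zero]
        group
      | succ k ih =>
        intro d
        rw [pow_succ']
        change h * ((f ^ k) d : G) * h⁻¹ = _
        rw [ih, pow_succ']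
        group
    have hfs : f ^ r ^ n.factorization r = 1 := by
      funext d
      apply Subtype.ext
      rw [hfk]
      have h3 : h ^ r ^ n.factorization r = 1 := hh
      rw [h3]
      change 1 * (d : G) * 1⁻¹ = d
      group
    have := Fintype.ofFinite U
    have h4 := Equiv.Perm.card_fixedPoints_modEq hfs
    have h5 : Fintype.card (Function.fixedPoints f) = 1 := by
      rw [Fintype.card_eq_one_iff]
      refine ⟨⟨1, Subtype.ext (by change h * 1 * h⁻¹ = 1; group)⟩, ?_⟩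
      rintro ⟨x, hx⟩
      apply Subtype.ext
      by_contra hne
      have hx1 : (x : G) ≠ 1 := fun e => hne (Subtype.ext e)
      have hx' : h * (x : G) * h⁻¹ = x := congrArg Subtype.val hx
      rw [mul_inv_eq_iff_eq_mul] at hx'
      exact hcen x x.2 hx1 hx'
    rw [h5, ← Nat.card_eq_fintype_card, hc] at h4
    have h6 := (Nat.modEq_iff_dvd' hs.one_lt.le).1 h4.symm
    have h7 := Nat.le_of_dvd (by have := hs.two_le; omega) h6
    omega
  -- a second element
  obtain ⟨c, hc, hcz⟩ : ∃ c ∈ U, c ∉ Subgroup.zpowers u := by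
    by_contra hcon
    push Not at hcon
    have h3 : Subgroup.zpowers u = U := le_antisymm ((Subgroup.zpowers_le).2 hu) hcon
    apply hcard
    rw [← h3, Nat.card_zpowers]
    exact orderOf_eq_prime (hpow u hu) hu1
  refine case_two hn hG h2 hR hr hs hsr.symm hh A hcen hab hpow hu hc hu1 fun i h3 => hcz ?_
  rw [mul_eq_one_iff_eq_inv] at h3
  rw [h3]
  exact inv_mem (pow_mem (Subgroup.mem_zpowers u) i)

end Pool.Agent.TH69.Mtn
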