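import Mathlib
import Pool.Agent.TH69.MtnF
import Pool.Agent.W629.TwiceLF

set_option autoImplicit false

/-!
# Groups of finite exponent with finite metanilpotent two-generator subgroups, part G:
# local finiteness
-/

namespace Pool.Agent.TH69.Mtn

open Pool.Agent.H32BU Pool.Agent.W629

/-- a finite subset contained in a locally finite subgroup generates a finite subgroup -/
theorem finite_of_le_LF {G : Type} [Group G] (N : Subgroup G) (hN : LF N) (S : Set G)
    (hS : S.Finite) (hSN : S ⊆ N) : Finite (Subgroup.closure S) := by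
  classical
  let S' : Finset N := hS.toFinset.attach.image fun x =>
    ⟨x.1, hSN ((Set.Finite.mem_toFinset hS).1 x.2)⟩
  have h1 := hN S'
  have h2 : (Subgroup.closure (S' : Set N)).map N.subtype = Subgroup.closure S := by
    rw [MonoidHom.map_closure]
    congr 1
    ext x
    constructor
    · rintro ⟨y, hy, rfl⟩
      rw [Finset.mem_coe, Finset.mem_image] at hy
      obtain ⟨z, -, rfl⟩ := hy
      exact (Set.Finite.mem_toFinset hS).1 z.2
    · intro hx
      refine ⟨⟨x, hSN hx⟩, ?_, rfl⟩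
      rw [Finset.mem_coe, Finset.mem_image]
      exact ⟨⟨x, (Set.Finite.mem_toFinset hS).2 hx⟩, Finset.mem_attach _ _, rfl⟩
  rw [← h2]
  exact Finite.of_surjective _ (N.subtype.subgroupMap_surjective _)

/-- the locally finite radical -/
theorem exists_radical (G : Type) [Group G] : ∃ M : Subgroup G, M.Normal ∧ LF M ∧
    ∀ N : Subgroup G, N.Normal → LF N → N ≤ M := by
  classical
  let M : Subgroup G :=
    { carrier := {x | ∃ N : Subgroup G, N.Normal ∧ LF N ∧ x ∈ N}
      one_mem' := ⟨⊥, inferInstance, fun S => inferInstance, one_mem _⟩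
      mul_mem' := by
        rintro a b ⟨A, hA, hA', ha⟩ ⟨B, hB, hB', hb⟩
        exact ⟨A ⊔ B, Subgroup.sup_normal _ _, x_LFS.2.2 G A B hA hB hA' hB',
          mul_mem ((le_sup_left : A ≤ A ⊔ B) ha) ((le_sup_right : B ≤ A ⊔ B) hb)⟩
      inv_mem' := by
        rintro a ⟨A, hA, hA', ha⟩
        exact ⟨A, hA, hA', inv_mem ha⟩ }
  have hmem : ∀ x, x ∈ M ↔ ∃ N : Subgroup G, N.Normal ∧ LF N ∧ x ∈ N := fun x => Iff.rfl
  have hfin : ∀ S : Finset G, (∀ x ∈ S, x ∈ M) → ∃ N : Subgroup G, N.Normal ∧ LF N ∧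
      ∀ x ∈ S, x ∈ N := by
    intro S
    induction S using Finset.induction_on with
    | empty => exact fun _ => ⟨⊥, inferInstance, fun S => inferInstance, by simp⟩
    | insert a S _ ih =>
      intro h
      obtain ⟨N, hN, hN', hNS⟩ := ih fun x hx => h x (Finset.mem_insert_of_mem hx)
      obtain ⟨A, hA, hA', ha⟩ := h a (Finset.mem_insert_self _ _)
      refine ⟨A ⊔ N, Subgroup.sup_normal _ _, x_LFS.2.2 G A N hA hN hA' hN', ?_⟩
      intro x hx
      rcases Finset.mem_insert.1 hx with rfl | hx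
      · exact (le_sup_left : A ≤ A ⊔ N) ha
      · exact (le_sup_right : N ≤ A ⊔ N) (hNS x hx)
  refine ⟨M, ⟨?_⟩, ?_, ?_⟩
  · rintro x ⟨N, hN, hN', hx⟩ g
    exact ⟨N, hN, hN', hN.conj_mem x hx g⟩
  · intro S
    obtain ⟨N, hN, hN', hNS⟩ := hfin (S.image (fun x : M => (x : G))) (by
      intro x hx
      rw [Finset.mem_image] at hx
      obtain ⟨y, -, rfl⟩ := hx
      exact y.2)
    have h1 := finite_of_le_LF N hN' ((fun x : M => (x : G)) '' (S : Set M))
      (Set.toFinite _) (by
        rintro _ ⟨y, hy, rfl⟩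
        exact hNS _ (Finset.mem_image_of_mem _ hy))
    exact finite_of_image M.subtype M.subtype_injective _ h1
  · intro N hN hN' x hx
    exact ⟨N, hN, hN', hx⟩

/-- the metanilpotent case -/
theorem lf_meta {n : ℕ} (hn : 1 ≤ n) (hL : ∀ p : ℕ, p.Prime → LocFin (qp p n)) (G : Type)
    [Group G] (hG : ∀ x : G, x ^ n = 1)
    (h2 : ∀ x y : G, Finite (c2 x y) ∧ DD (c2 x y) 2 = ⊥) : LF G := by
  obtain ⟨M, hM, hML, hMmax⟩ := exists_radical G
  refine x_SCH G M hML ?_
  have htor : ∀ x : G, IsOfFinOrder x := fun x => isOfFinOrder_iff_pow_eq_one.2 ⟨n, by omega, hG x⟩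
  have h1 : ∀ g : G ⧸ M, g = 1 := by
    refine trivial_of_rad hn (exp_quot hG M) ?_ ?_
    · intro x y
      obtain ⟨x, rfl⟩ := QuotientGroup.mk_surjective x
      obtain ⟨y, rfl⟩ := QuotientGroup.mk_surjective y
      have hmap : (c2 x y).map (QuotientGroup.mk' M) = c2 (x : G ⧸ M) (y : G ⧸ M) := map_c2 _ x y
      obtain ⟨hf, hD⟩ := h2 x y
      refine ⟨?_, ?_⟩
      · rw [← hmap]
        exact Finite.of_surjective _ ((QuotientGroup.mk' M).subgroupMap_surjective (c2 x y))
      · rw [← hmap, ← x_MAPS G (G ⧸ M) (QuotientGroup.mk' M) htor, hD, Subgroup.map_bot]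
    · intro s hs
      rw [eq_bot_iff]
      intro x hx
      have hN : ((Rad (qp s n) (G ⧸ M)).comap (QuotientGroup.mk' M)).Normal := inferInstance
      have hNL : LF ((Rad (qp s n) (G ⧸ M)).comap (QuotientGroup.mk' M)) := by
        have hML' : LF (M.subgroupOf ((Rad (qp s n) (G ⧸ M)).comap (QuotientGroup.mk' M))) := by
          refine x_LFS.2.1 _ M
            { toFun := fun x => ⟨(x : ↥((Rad (qp s n) (G ⧸ M)).comap (QuotientGroup.mk' M))), x.2⟩
              map_one' := rfl
              map_mul' := fun _ _ => rfl } ?_ hML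
          intro a b hab
          have : ((a : ↥((Rad (qp s n) (G ⧸ M)).comap (QuotientGroup.mk' M))) : G) =
              ((b : ↥((Rad (qp s n) (G ⧸ M)).comap (QuotientGroup.mk' M))) : G) :=
            congrArg (fun z : ↥M => (z : G)) hab
          exact Subtype.ext (Subtype.ext this)
        refine x_SCH _ (M.subgroupOf ((Rad (qp s n) (G ⧸ M)).comap (QuotientGroup.mk' M))) hML' ?_
        refine hL s hs _ fun q => ?_
        obtain ⟨⟨g, hg⟩, rfl⟩ := QuotientGroup.mk_surjective q
        rw [← QuotientGroup.mk_pow, QuotientGroup.eq_one_iff, Subgroup.mem_subgroupOf]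
        have h3 : ((g : G ⧸ M)) ^ qp s n = 1 := hg.1
        rw [← QuotientGroup.mk_pow, QuotientGroup.eq_one_iff] at h3
        exact h3
      obtain ⟨g, rfl⟩ := QuotientGroup.mk_surjective x
      have h4 : g ∈ (Rad (qp s n) (G ⧸ M)).comap (QuotientGroup.mk' M) := hx
      have h5 := hMmax _ hN hNL h4
      rw [Subgroup.mem_bot, QuotientGroup.eq_one_iff]
      exact h5
  intro S
  have : Subsingleton (G ⧸ M) := ⟨fun a b => by rw [h1 a, h1 b]⟩
  infer_instance

end Pool.Agent.TH69.Mtn
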