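import Mathlib
import Pool.Agent.TH69.MsZB

set_option autoImplicit false

/-!
# Bounded series of characteristic subgroups: definitions
-/

namespace Pool.Agent.TH69.Ms.X

open Pool.Agent.H32BU Pool.Agent.TH69.Mtn Pool.Agent.TH69.Ms

/-- `B` modulo `A` is of one of the two types -/
def TTq (n : ℕ) {G : Type} [Group G] (A B : Subgroup G) : Prop :=
  (∃ p a : ℕ, p.Prime ∧ p ^ a ∣ n ∧ ∀ x ∈ B, x ^ p ^ a ∈ A) ∨
    ∃ (Q : Type) (_ : Group Q) (f : G →* Q), Function.Surjective f ∧ f.ker = A ∧ LSS (B.map f)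

/-- a series of characteristic subgroups of length `l` -/
def CS (n l : ℕ) (G : Type) [Group G] : Prop :=
  ∃ M : ℕ → Subgroup G, M 0 = ⊥ ∧ M l = ⊤ ∧ (∀ i, (M i).Characteristic) ∧
    ∀ i < l, M i ≤ M (i + 1) ∧ TTq n (M i) (M (i + 1))

end Pool.Agent.TH69.Ms.X
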