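import Mathlib
import Pool.Agent.TH69.MsS0

set_option autoImplicit false

/-!
# Bounded series of characteristic subgroups: extensions of series
-/

namespace Pool.Agent.TH69.Ms.X

open Pool.Agent.H32BU Pool.Agent.TH69.Mtn Pool.Agent.TH69.Ms

theorem LSS.mapi {G H : Type} [Group G] [Group H] {M : Subgroup G} (φ : G →* H)
    (hφ : Function.Injective φ) (h : LSS M) : LSS (M.map φ) := by
  classical
  obtain ⟨c, hc, h⟩ := h
  refine ⟨c, hc, fun s hs => ?_⟩
  obtain ⟨D, h1, h2, h3, h4⟩ := h (s.preimage φ hφ.injOn) (by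
    intro x hx
    rw [Finset.mem_coe, Finset.mem_preimage] at hx
    obtain ⟨y, hy, hyx⟩ := hs hx
    rw [← hφ hyx]
    exact hy)
  refine ⟨(fun T : Subgroup G => T.map φ) '' D, h1.image _, ?_, ?_, ?_⟩
  · rintro _ ⟨T, hT, rfl⟩
    obtain ⟨h5, h6, h7, h8⟩ := h2 T hT
    have h9 : Bg c T := ⟨h7, h8, h6⟩
    have e := T.equivMapOfInjective φ hφ
    have h10 := Bg.of_equiv e h9
    exact ⟨Subgroup.map_mono h5, h10.2.2, h10.1, h10.2.1⟩
  · rintro _ ⟨A, hA, rfl⟩ _ ⟨B, hB, rfl⟩ hne _ ⟨a, ha, rfl⟩ _ ⟨b, hb, rfl⟩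
    have h5 := h3 A hA B hB (fun h => hne (by rw [h])) a ha b hb
    rw [← map_mul, ← map_mul, h5]
  · intro x hx
    obtain ⟨y, hy, rfl⟩ := hs hx
    have h5 : sSup D ≤ (sSup ((fun T : Subgroup G => T.map φ) '' D)).comap φ := by
      refine sSup_le fun T hT => ?_
      rw [← Subgroup.map_le_iff_le_comap]
      exact le_sSup ⟨T, hT, rfl⟩
    exact h5 (h4 (by rw [Finset.mem_coe, Finset.mem_preimage]; exact hx))

theorem TTq.comapi {n : ℕ} {G W : Type} [Group G] [Group W] (g : G →* W)
    (hg : Function.Surjective g) {A B : Subgroup W} (h : TTq n A B) :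
    TTq n (A.comap g) (B.comap g) := by
  rcases h with ⟨p, a, hp, ha, h⟩ | ⟨Q, _, f, hf, hk, hL⟩
  · refine Or.inl ⟨p, a, hp, ha, fun x hx => ?_⟩
    rw [Subgroup.mem_comap, map_pow]
    exact h (g x) hx
  · refine Or.inr ⟨Q, inferInstance, f.comp g, hf.comp hg, ?_, ?_⟩
    · rw [← MonoidHom.comap_ker, hk]
    · rw [← Subgroup.map_map, Subgroup.map_comap_eq_self_of_surjective hg]
      exact hL

theorem char_comap {G W : Type} [Group G] [Group W] (g : G →* W) (hg : Function.Surjective g)
    (hR : g.ker.Characteristic) {A : Subgroup W} (hA : A.Characteristic) :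
    (A.comap g).Characteristic := by
  rw [Subgroup.characteristic_iff_le_comap]
  intro φ x hx
  have hK : ∀ (ψ : G ≃* G) (x y : G), g x = g y → g (ψ x) = g (ψ y) := by
    intro ψ x y hxy
    have h1 : x⁻¹ * y ∈ g.ker := by
      rw [MonoidHom.mem_ker, map_mul, map_inv, hxy, inv_mul_cancel]
    have h2 := Subgroup.characteristic_iff_le_comap.1 hR ψ h1
    rw [Subgroup.mem_comap, MonoidHom.mem_ker, MulEquiv.coe_toMonoidHom, map_mul, map_inv,
      map_mul, map_inv, inv_mul_eq_one] at h2
    exact h2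
  let s : W → G := Function.surjInv hg
  have hs : ∀ w, g (s w) = w := Function.surjInv_eq hg
  have hinv : ∀ (ψ : G ≃* G) (w : W), g (ψ.symm (s (g (ψ (s w))))) = w := by
    intro ψ w
    have h1 := hK ψ.symm (s (g (ψ (s w)))) (ψ (s w)) (hs _)
    rw [MulEquiv.symm_apply_apply, hs] at h1
    exact h1
  let θ : W ≃* W :=
    { toFun := fun w => g (φ (s w))
      invFun := fun w => g (φ.symm (s w))
      left_inv := fun w => hinv φ w
      right_inv := fun w => hinv φ.symm w
      map_mul' := fun v w => by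
        rw [← map_mul, ← map_mul]
        exact hK φ _ _ (by rw [hs, map_mul, hs, hs]) }
  have h3 := Subgroup.characteristic_iff_le_comap.1 hA θ hx
  rw [Subgroup.mem_comap] at h3 ⊢
  have h4 : θ (g x) = g (φ x) := hK φ _ _ (hs _)
  rw [MulEquiv.coe_toMonoidHom, h4] at h3
  exact h3

theorem char_map {G : Type} [Group G] (R : Subgroup G) (hR : R.Characteristic) {M : Subgroup R}
    (hM : M.Characteristic) : (M.map R.subtype).Characteristic := by
  rw [Subgroup.characteristic_iff_map_le]
  rintro φ _ ⟨_, ⟨x, hx, rfl⟩, rfl⟩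
  have h1 : R.map φ.toMonoidHom = R := Subgroup.characteristic_iff_map_eq.1 hR φ
  let ψ : R ≃* R := (φ.subgroupMap R).trans (MulEquiv.subgroupCongr h1)
  have h2 := Subgroup.characteristic_iff_map_le.1 hM ψ (Subgroup.mem_map_of_mem _ hx)
  exact ⟨ψ x, h2, rfl⟩

theorem TTq.mapi {n : ℕ} {G : Type} [Group G] (R : Subgroup G) {A B : Subgroup R}
    (hA : (A.map R.subtype).Normal) (h : TTq n A B) :
    TTq n (A.map R.subtype) (B.map R.subtype) := by
  rcases h with ⟨p, a, hp, ha, h⟩ | ⟨Q, _, f, hf, hk, hL⟩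
  · refine Or.inl ⟨p, a, hp, ha, ?_⟩
    rintro _ ⟨x, hx, rfl⟩
    exact ⟨x ^ p ^ a, h x hx, by rw [map_pow]⟩
  · refine Or.inr ⟨G ⧸ A.map R.subtype, inferInstance, QuotientGroup.mk' _,
      QuotientGroup.mk'_surjective _, QuotientGroup.ker_mk' _, ?_⟩
    have hker : ∀ x : R, f x = 1 ↔ x ∈ A := fun x => by rw [← hk, MonoidHom.mem_ker]
    let j : R →* G ⧸ A.map R.subtype := (QuotientGroup.mk' (A.map R.subtype)).comp R.subtype
    have hj : ∀ x : R, j x = 1 ↔ x ∈ A := by
      intro x
      rw [MonoidHom.comp_apply, QuotientGroup.mk'_apply, QuotientGroup.eq_one_iff]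
      constructor
      · rintro ⟨y, hy, hyx⟩
        rw [← R.subtype_injective hyx]
        exact hy
      · intro hx
        exact ⟨x, hx, rfl⟩
    have hle : f.ker ≤ j.ker := by
      intro x hx
      rw [MonoidHom.mem_ker, hj, ← hker]
      exact hx
    let i : Q →* G ⧸ A.map R.subtype := f.liftOfSurjective hf ⟨j, hle⟩
    have hi : ∀ x : R, i (f x) = j x := fun x => f.liftOfRightInverse_comp_apply _ _ ⟨j, hle⟩ x
    have hinj : Function.Injective i := by
      rw [injective_iff_map_eq_one]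
      intro q hq
      obtain ⟨x, rfl⟩ := hf q
      rw [hi, hj] at hq
      exact (hker x).2 hq
    have h1 := LSS.mapi i hinj hL
    have h2 : (B.map f).map i = (B.map R.subtype).map (QuotientGroup.mk' (A.map R.subtype)) := by
      rw [Subgroup.map_map, Subgroup.map_map]
      congr 1
      ext x
      exact hi x
    rw [← h2]
    exact h1

theorem CS.mono {n l l' : ℕ} (h : l ≤ l') {G : Type} [Group G] (hG : CS n l G) : CS n l' G := by
  obtain ⟨M, h0, hl, hc, hM⟩ := hG
  refine ⟨fun i => M (min i l), by simpa using h0, by simpa [Nat.min_eq_right h] using hl,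
    fun i => hc _, fun i _ => ?_⟩
  rcases lt_or_ge i l with hi | hi
  · simp only [Nat.min_eq_left hi.le, Nat.min_eq_left (Nat.succ_le_of_lt hi)]
    exact hM i hi
  · simp only [Nat.min_eq_right hi, Nat.min_eq_right (hi.trans (Nat.le_succ i)), hl]
    exact ⟨le_rfl, Or.inl ⟨2, 0, Nat.prime_two, by simp, fun x _ => Subgroup.mem_top _⟩⟩

theorem CS.comp {n a b : ℕ} {G W : Type} [Group G] [Group W] (R : Subgroup G)
    (hR : R.Characteristic) (hRS : CS n a R) (g : G →* W) (hg : Function.Surjective g)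
    (hk : g.ker = R) (hW : CS n b W) : CS n (a + b) G := by
  obtain ⟨M1, h10, h1a, h1c, h1⟩ := hRS
  obtain ⟨M2, h20, h2b, h2c, h2⟩ := hW
  have htop : (M1 a).map R.subtype = R := by
    rw [h1a, ← MonoidHom.range_eq_map, Subgroup.range_subtype]
  have hbot : (M2 0).comap g = R := by
    rw [h20, MonoidHom.comap_bot, hk]
  have hkc : g.ker.Characteristic := by
    rw [hk]
    exact hR
  refine ⟨fun i => if i ≤ a then (M1 i).map R.subtype else (M2 (i - a)).comap g, ?_, ?_, ?_, ?_⟩
  · simp only [Nat.zero_le, if_true, h10, Subgroup.map_bot]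
  · rcases Nat.eq_zero_or_pos b with hb | hb
    · subst hb
      simp only [Nat.add_zero, le_refl, if_true]
      rw [htop, ← hbot, h2b, Subgroup.comap_top]
    · simp only
      rw [if_neg (by omega), Nat.add_sub_cancel_left, h2b, Subgroup.comap_top]
  · intro i
    simp only
    split_ifs
    · exact char_map R hR (h1c i)
    · exact char_comap g hg hkc (h2c _)
  · intro i hi
    simp only
    rcases lt_trichotomy i a with h | h | h
    · rw [if_pos h.le, if_pos (Nat.succ_le_of_lt h)]
      have h3 := char_map R hR (h1c i)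
      exact ⟨Subgroup.map_mono (h1 i h).1, TTq.mapi R inferInstance (h1 i h).2⟩
    · subst h
      rw [if_pos le_rfl, if_neg (by omega), htop, ← hbot, Nat.add_sub_cancel_left]
      have h3 := h2 0 (by omega)
      exact ⟨Subgroup.comap_mono h3.1, TTq.comapi g hg h3.2⟩
    · rw [if_neg (by omega), if_neg (by omega), show i + 1 - a = i - a + 1 by omega]
      have h3 := h2 (i - a) (by omega)
      exact ⟨Subgroup.comap_mono h3.1, TTq.comapi g hg h3.2⟩

theorem CS.cons {n b : ℕ} {G W : Type} [Group G] [Group W] (M : Subgroup G)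
    (hM : M.Characteristic) (hT : TT n M) (g : G →* W) (hg : Function.Surjective g)
    (hk : g.ker = M) (hW : CS n b W) : CS n (b + 1) G := by
  obtain ⟨M2, h20, h2b, h2c, h2⟩ := hW
  have hbot : (M2 0).comap g = M := by
    rw [h20, MonoidHom.comap_bot, hk]
  have hkc : g.ker.Characteristic := by
    rw [hk]
    exact hM
  refine ⟨fun i => if i = 0 then ⊥ else (M2 (i - 1)).comap g, by simp, ?_, ?_, ?_⟩
  · simp only
    rw [if_neg (Nat.succ_ne_zero b), Nat.add_sub_cancel, h2b, Subgroup.comap_top]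
  · intro i
    simp only
    split_ifs
    · infer_instance
    · exact char_comap g hg hkc (h2c _)
  · intro i hi
    simp only
    rw [if_neg (Nat.succ_ne_zero i), Nat.add_sub_cancel]
    rcases Nat.eq_zero_or_pos i with h | h
    · subst h
      rw [if_pos rfl, hbot]
      refine ⟨bot_le, ?_⟩
      rcases hT with ⟨p, a, hp, ha, h⟩ | h
      · exact Or.inl ⟨p, a, hp, ha, fun x hx => Subgroup.mem_bot.2 (h x hx)⟩
      · refine Or.inr ⟨G, inferInstance, MonoidHom.id G, Function.surjective_id, ?_, ?_⟩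
        · exact (MonoidHom.ker_eq_bot_iff _).2 Function.injective_id
        · rw [Subgroup.map_id]
          exact h
    · rw [if_neg (by omega)]
      have h3 := h2 (i - 1) (by omega)
      rw [show i - 1 + 1 = i by omega] at h3
      exact ⟨Subgroup.comap_mono h3.1, TTq.comapi g hg h3.2⟩

end Pool.Agent.TH69.Ms.X
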