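import Mathlib
import Pool.Agent.TH69.MsS1

set_option autoImplicit false

/-!
# Bounded series of characteristic subgroups: the soluble case
-/

namespace Pool.Agent.TH69.Ms.X

open Pool.Agent.H32BU Pool.Agent.TH69.Mtn Pool.Agent.TH69.Ms

theorem base_CS {n : ℕ} (hn : 1 ≤ n) (m : ℕ) : ∀ (G : Type) [Group G], (∀ x : G, x ^ n = 1) →
    (∀ a x z : G, Finite (c3 a x z) ∧ Group.IsSolvable (c3 a x z) ∧ DD (c3 a x z) m = ⊥) →
    CS n (m * (n + 1)) G := by
  induction m with
  | zero =>
    intro G _ hG h
    have h1 : ∀ g : G, g = 1 := by
      intro a
      have h4 : c3 a a a = ⊥ := (h a a a).2.2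
      have h5 : a ∈ c3 a a a := Subgroup.subset_closure (by simp)
      rw [h4] at h5
      exact Subgroup.mem_bot.1 h5
    rw [zero_mul]
    refine ⟨fun _ => ⊥, rfl, ?_, fun _ => inferInstance, fun i hi => absurd hi (Nat.not_lt_zero i)⟩
    rw [eq_comm, eq_bot_iff]
    intro x _
    exact Subgroup.mem_bot.2 (h1 x)
  | succ m ih =>
    have key : ∀ t : ℕ, ∀ (G : Type) [Group G], (∀ x : G, x ^ n = 1) →
        (∀ a x z : G, Finite (c3 a x z) ∧ Group.IsSolvable (c3 a x z) ∧
          DD (c3 a x z) (m + 1) = ⊥) →
        (∀ a x : G, ∀ e ∈ DD (c2 a x) m, ∀ p : ℕ, p.Prime → t ≤ p → e ^ (n / qp p n) = 1) →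
        CS n (t + m * (n + 1)) G := by
      intro t
      induction t with
      | zero =>
        intro G _ hG h h0
        rw [zero_add]
        have htwo : ∀ a x : G, DD (c2 a x) m = ⊥ := by
          intro a x
          rw [eq_bot_iff]
          intro e he
          apply mem_of_parts ⊥ n hn e
          intro p hp
          rw [Subgroup.mem_bot]
          exact h0 a x e he p hp (Nat.zero_le _)
        refine ih G hG fun a x z => ⟨(h a x z).1, (h a x z).2.1, ?_⟩
        have hf := (h a x z).1
        have hs := (h a x z).2.1
        have h7 : DD (⊤ : Subgroup (c3 a x z)) m = ⊥ := by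
          apply x_TWO (c3 a x z) hf hs m
          intro b y
          have h8 := x_MAPI (c3 a x z) G (c3 a x z).subtype (c3 a x z).subtype_injective (c2 b y) m
          rw [map_c2, htwo] at h8
          exact (Subgroup.map_eq_bot_iff_of_injective _ (c3 a x z).subtype_injective).1 h8
        have h11 := x_MAPI (c3 a x z) G (c3 a x z).subtype (c3 a x z).subtype_injective ⊤ m
        rw [h7, Subgroup.map_bot, ← MonoidHom.range_eq_map, Subgroup.range_subtype] at h11
        exact h11.symm
      | succ t iht =>
        intro G _ hG h h0
        by_cases ht : t.Prime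
        · have hchar := Nset_char (qp t n) G
          obtain ⟨M, hM⟩ : ∃ M : Subgroup G, M = Subgroup.closure (Nset (qp t n) : Set G) := ⟨_, rfl⟩
          rw [← hM] at hchar
          have hnor : M.Normal := inferInstance
          have htor : ∀ x : G, IsOfFinOrder x :=
            fun x => isOfFinOrder_iff_pow_eq_one.2 ⟨n, by omega, hG x⟩
          have hW : CS n (t + m * (n + 1)) (G ⧸ M) := by
            refine iht _ ?_ ?_ ?_
            · intro x
              obtain ⟨x, rfl⟩ := QuotientGroup.mk_surjective x
              rw [← QuotientGroup.mk_pow, hG]
              rfl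
            · intro a x z
              obtain ⟨a, rfl⟩ := QuotientGroup.mk'_surjective M a
              obtain ⟨x, rfl⟩ := QuotientGroup.mk'_surjective M x
              obtain ⟨z, rfl⟩ := QuotientGroup.mk'_surjective M z
              have e3 : c3 ((QuotientGroup.mk' M) a) ((QuotientGroup.mk' M) x)
                  ((QuotientGroup.mk' M) z) = (c3 a x z).map (QuotientGroup.mk' M) := by
                unfold c3
                rw [closure_triple]
              rw [e3]
              obtain ⟨hf, hs, hd⟩ := h a x z
              have hsurj := (QuotientGroup.mk' M).subgroupMap_surjective (c3 a x z)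
              refine ⟨Finite.of_surjective _ hsurj, solvable_of_surjective hsurj, ?_⟩
              rw [← x_MAPS G (G ⧸ M) (QuotientGroup.mk' M) htor, hd, Subgroup.map_bot]
            · intro a x e he p hp htp
              obtain ⟨a, rfl⟩ := QuotientGroup.mk'_surjective M a
              obtain ⟨x, rfl⟩ := QuotientGroup.mk'_surjective M x
              rw [← map_c2, ← x_MAPS G (G ⧸ M) (QuotientGroup.mk' M) htor] at he
              obtain ⟨e, he, rfl⟩ := he
              rw [← map_pow]
              by_cases hpt : p = t
              · subst hpt
                refine (QuotientGroup.eq_one_iff _).2 ?_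
                rw [hM]
                apply Subgroup.subset_closure
                have hpe : (e ^ (n / qp p n)) ^ qp p n = 1 := by
                  rw [← pow_mul, show n / qp p n * qp p n = n from
                    Nat.div_mul_cancel (Nat.ordProj_dvd n p), hG]
                refine ⟨hpe, ?_⟩
                intro y hy
                obtain ⟨hf, hs, hd⟩ := h a x y
                have hle : c2 a x ≤ c3 a x y := by
                  unfold c2 c3
                  apply Subgroup.closure_mono
                  intro t ht
                  simp only [Set.mem_insert_iff, Set.mem_singleton_iff] at ht ⊢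
                  tauto
                have hyin : y ∈ c3 a x y := Subgroup.subset_closure (by simp)
                exact x_COPC G (c3 a x y) hf n hn (fun t _ => hG t) m hd p hp _
                  (Subgroup.pow_mem _ ((x_MON G).1 _ _ hle m he) _) hpe y hyin hy
              · rw [h0 a x e he p hp (by omega), map_one]
          have h9 := CS.cons M hchar (Or.inl ⟨t, n.factorization t, ht, Nat.ordProj_dvd n t, by
            rw [hM]
            exact (x_NS G (qp t n)).1⟩) (QuotientGroup.mk' M) (QuotientGroup.mk'_surjective M)
            (QuotientGroup.ker_mk' M) hW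
          have e9 : t + 1 + m * (n + 1) = t + m * (n + 1) + 1 := by ring
          rw [e9]
          exact h9
        · refine CS.mono (by omega) (iht G hG h fun a x e he p hp htp => h0 a x e he p hp ?_)
          have : p ≠ t := fun h => ht (h ▸ hp)
          omega
    intro G _ hG h
    have h9 := key (n + 1) G hG h (fun a x e he p hp hpn => by
      have h10 : ¬ p ∣ n := fun h => by
        have := Nat.le_of_dvd (by omega) h
        omega
      have h11 : qp p n = 1 := by
        unfold qp
        rw [Nat.factorization_eq_zero_of_not_dvd h10, pow_zero]
      rw [h11, Nat.div_one, hG])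
    have e9 : (m + 1) * (n + 1) = n + 1 + m * (n + 1) := by ring
    rw [e9]
    exact h9

end Pool.Agent.TH69.Ms.X
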