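import Mathlib
import Pool.Agent.TH69.MsS0

set_option autoImplicit false

/-!
# Bounded series of characteristic subgroups, piece P3: the quotient by the radical
-/

namespace Pool.Agent.TH69.Ms.X

open Pool.Agent.H32BU Pool.Agent.TH69.Mtn Pool.Agent.TH69.Ms

variable {c n N k : ℕ} {G : Type} [Group G]

theorem RR_quot (hk : 6 ≤ k) (h : HK (c + 1) n N k G) (h2 : TwoGen n) [(RSub hk h h2).Normal] :
    ∀ e ∈ RR c (G ⧸ RSub hk h h2), e = 1 := by
  classical
  intro q hq
  obtain ⟨e, rfl⟩ := QuotientGroup.mk_surjective q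
  obtain ⟨π, hπ⟩ : ∃ π : G →* G ⧸ RSub hk h h2, π = QuotientGroup.mk' (RSub hk h h2) := ⟨_, rfl⟩
  have hker : ∀ x : G, π x = 1 ↔ x ∈ RSub hk h h2 := by
    intro x
    rw [hπ]
    exact QuotientGroup.eq_one_iff x
  have hmem : e ∈ RSub hk h h2 := by
    rw [mem_RSub]
    intro y z
    have h1 : InO c ((Subgroup.closure {e, y, z}).map π) (π e) := by
      rw [closure_triple, hπ]
      exact hq _ _
    obtain ⟨W, hW1, hW2, hW3, hW4⟩ := h1
    have hK : Hy c n (Subgroup.closure {e, y, z}) :=
      h.hy' _ {e, y, z} (by simp) (Finset.card_le_three.trans (by omega))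
    have hKfin := hK.fin
    obtain ⟨M, hM1, hM2, hM3, hM4⟩ := InO.exists_max c (Subgroup.closure {e, y, z})
    refine ⟨Subgroup.closure {e, y, z} ⊓ W.comap π, inf_le_left, ?_, ?_, mem_three _ _ _, hW4⟩
    · intro g hg x hx
      rw [Subgroup.mem_inf, Subgroup.mem_comap] at hx ⊢
      refine ⟨mul_mem (mul_mem hg hx.1) (inv_mem hg), ?_⟩
      rw [map_mul, map_mul, map_inv]
      exact hW2 (π g) (Subgroup.mem_map_of_mem π hg) (π x) hx.2
    · obtain ⟨P, hP⟩ : ∃ P : Subgroup G, P = Subgroup.closure {e, y, z} ⊓ W.comap π := ⟨_, rfl⟩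
      rw [← hP]
      have hPW : ∀ x : P, (π.comp P.subtype) x ∈ W := fun x => (hP.le x.2).2
      have hPK : ∀ x : P, (x : G) ∈ Subgroup.closure {e, y, z} := fun x => (hP.le x.2).1
      let g : P →* W := (π.comp P.subtype).codRestrict W hPW
      have hg : ∀ x : g.ker, ((x : P) : G) ∈ M := by
        intro x
        rw [← hM4]
        refine RR.inO h2 hK (hPK x.1) ?_
        rw [← mem_RSub hk h h2, ← hker]
        have h3 : g x.1 = 1 := x.2
        exact congrArg Subtype.val h3
      let f : g.ker →* M := (P.subtype.comp g.ker.subtype).codRestrict M hg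
      have hf : Function.Injective f := by
        intro a b hab
        have h5 : ((f a : M) : G) = ((f b : M) : G) := congrArg Subtype.val hab
        exact Subtype.ext (Subtype.ext h5)
      refine Sm.ext g.ker (hM3.of_inj f hf) ?_
      exact hW3.of_inj (QuotientGroup.kerLift g) (QuotientGroup.kerLift_injective g)
  exact (QuotientGroup.eq_one_iff e).2 hmem

end Pool.Agent.TH69.Ms.X
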