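import Mathlib
import Pool.Agent.TH69.MsS0

set_option autoImplicit false

/-!
# Bounded series of characteristic subgroups: modulo the large simple subgroups
-/

namespace Pool.Agent.TH69.Ms.X

open Pool.Agent.H32BU Pool.Agent.TH69.Mtn Pool.Agent.TH69.Ms

variable {c n N k : ℕ} {G : Type} [Group G]

theorem HK_quot_VV (hc : 0 < c) (hk : 6 ≤ k) (h2 : TwoGen n) (h : HK (c + 1) n N k G)
    (hL : ∀ s : Finset G, s.card ≤ k → L1 c (Subgroup.closure (s : Set G)))
    (hR : ∀ e ∈ RR c G, e = 1) [(sSup (VV c G) : Subgroup G).Normal] :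
    HK c n N k (G ⧸ (sSup (VV c G) : Subgroup G)) := by
  classical
  have hq := h.quot (sSup (VV c G) : Subgroup G)
  refine ⟨hq.exp, fun s hs => ⟨(hq.gen s hs).1, (hq.gen s hs).2.1, ?_⟩, hq.tg⟩
  obtain ⟨t, ht⟩ : ∃ t : Finset G,
    t = s.image (fun q : G ⧸ (sSup (VV c G) : Subgroup G) => (Quotient.out q : G)) := ⟨_, rfl⟩
  have hcard : t.card ≤ k := by
    rw [ht]
    exact Finset.card_image_le.trans hs
  have e : (Subgroup.closure (t : Set G)).map (QuotientGroup.mk' (sSup (VV c G) : Subgroup G)) =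
      Subgroup.closure (s : Set (G ⧸ (sSup (VV c G) : Subgroup G))) := by
    rw [MonoidHom.map_closure]
    congr 1
    ext q
    rw [ht]
    simp only [Finset.coe_image, Set.mem_image, Finset.mem_coe]
    constructor
    · rintro ⟨_, ⟨q', hq', rfl⟩, rfl⟩
      have h3 : (QuotientGroup.mk' (sSup (VV c G) : Subgroup G)) (Quotient.out q') = q' :=
        QuotientGroup.out_eq' q'
      rwa [h3]
    · intro hq
      exact ⟨_, ⟨q, hq, rfl⟩, QuotientGroup.out_eq' q⟩
  rw [← e]
  have hK := h.hy t hcard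
  obtain ⟨K, hKdef⟩ : ∃ K : Subgroup G, K = Subgroup.closure (t : Set G) := ⟨_, rfl⟩
  rw [← hKdef] at hK ⊢
  obtain ⟨π, hπ⟩ : ∃ π : G →* G ⧸ (sSup (VV c G) : Subgroup G),
    π = QuotientGroup.mk' (sSup (VV c G) : Subgroup G) := ⟨_, rfl⟩
  rw [← hπ]
  by_contra hns
  have hKfin := hK.fin
  obtain ⟨𝒮, h𝒮⟩ : ∃ 𝒮 : Set (Subgroup G), 𝒮 = {A | A ≤ K ∧ ¬ Sm c (A.map π)} := ⟨_, rfl⟩
  have hfin : 𝒮.Finite := by
    have h1 : (Set.range fun A : Subgroup K => A.map K.subtype).Finite := Set.finite_range _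
    refine h1.subset ?_
    intro A hA
    rw [h𝒮] at hA
    refine ⟨A.subgroupOf K, ?_⟩
    simp only [Subgroup.subgroupOf_map_subtype]
    exact inf_eq_left.2 hA.1
  obtain ⟨A, hA, hmin⟩ := hfin.exists_minimal ⟨K, by rw [h𝒮]; exact ⟨le_rfl, hns⟩⟩
  rw [h𝒮] at hA
  obtain ⟨hAK, hAns⟩ := hA
  have hAmin : ∀ B : Subgroup G, B ≤ A → ¬ Sm c (B.map π) → A ≤ B := by
    intro B hB hBns
    exact hmin (by rw [h𝒮]; exact ⟨hB.trans hAK, hBns⟩) hB
  have hAfin : Finite A := Finite.of_injective _ (Subgroup.inclusion_injective hAK)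
  have hAhy : Hy c n A := hK.of_inj (Subgroup.inclusion hAK) (Subgroup.inclusion_injective hAK)
  let ψ : A →* A.map π := π.subgroupMap A
  have hψ : Function.Surjective ψ := π.subgroupMap_surjective A
  -- `A` is perfect
  have hpf : Pf c A := by
    intro Q _ hQfin hQ g a
    by_contra hga
    have h3 : Sm c ((g.ker.map A.subtype).map π) := by
      by_contra h4
      have h6 := hAmin _ (Subgroup.map_subtype_le g.ker) h4
      obtain ⟨y, hy, hya⟩ := h6 a.2
      have : y = a := Subtype.ext hya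
      rw [← this] at hga
      exact hga hy
    have hnor : (g.ker.map ψ).Normal := Subgroup.Normal.map inferInstance ψ hψ
    have h4 : Sm c (g.ker.map ψ) := by
      have h5 : ∀ x ∈ g.ker.map ψ, (x : G ⧸ (sSup (VV c G) : Subgroup G)) ∈
          (g.ker.map A.subtype).map π := by
        rintro _ ⟨y, hy, rfl⟩
        exact ⟨y.1, ⟨y, hy, rfl⟩, rfl⟩
      refine h3.of_inj (((A.map π).subtype.comp (g.ker.map ψ).subtype).codRestrict _
        fun x => h5 x.1 x.2) ?_
      intro x y hxy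
      have h9 := congrArg (fun w : ((g.ker.map A.subtype).map π : Subgroup _) =>
        (w : G ⧸ (sSup (VV c G) : Subgroup G))) hxy
      exact Subtype.ext (Subtype.ext h9)
    refine hAns (Sm.ext (g.ker.map ψ) h4 ?_)
    have h5 : Sm c g.range := hQ.of_inj g.range.subtype g.range.subtype_injective
    have h6 : g.ker ≤ ((QuotientGroup.mk' (g.ker.map ψ)).comp ψ).ker := by
      intro x hx
      exact (QuotientGroup.eq_one_iff _).2 ⟨x, hx, rfl⟩
    have h7 : Function.Surjective (QuotientGroup.lift g.ker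
        ((QuotientGroup.mk' (g.ker.map ψ)).comp ψ) h6) := by
      intro y
      obtain ⟨y, rfl⟩ := QuotientGroup.mk_surjective y
      obtain ⟨x, rfl⟩ := hψ y
      exact ⟨(x : A ⧸ g.ker), rfl⟩
    refine Sm.of_surj _ h7 ?_
    exact hQ.of_inj (QuotientGroup.kerLift g) (QuotientGroup.kerLift_injective g)
  -- a section
  have hsec := hAns
  unfold Sm at hsec
  push Not at hsec
  obtain ⟨S, hS, hS1, hS2, X, f, hf, hcard'⟩ := hsec
  let X' : Subgroup A := X.comap ψ
  let f' : X' →* S := f.comp (ψ.subgroupComap X)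
  have hf' : Function.Surjective f' := by
    intro s
    obtain ⟨x, rfl⟩ := hf s
    obtain ⟨y, hy⟩ := hψ x.1
    have hyX : y ∈ X' := by
      change ψ y ∈ X
      rw [hy]
      exact x.2
    refine ⟨⟨y, hyX⟩, ?_⟩
    change f _ = f x
    congr 1
    exact Subtype.ext hy
  obtain ⟨s1, s2, hs12⟩ := hAhy.tg S hS1 hS2 X' f' hf'
  obtain ⟨x1, hx1⟩ := hf' s1
  obtain ⟨x2, hx2⟩ := hf' s2
  have hYX : Subgroup.closure {x1.1, x2.1} ≤ X' := by
    rw [Subgroup.closure_le]
    rintro _ (rfl | rfl)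
    · exact x1.2
    · exact x2.2
  have hYns : ¬ Sm c (((Subgroup.closure {x1.1, x2.1}).map A.subtype).map π) := by
    intro h3
    -- the section of the image
    have h4 : Sm c ((Subgroup.closure {x1.1, x2.1}).map ψ) := by
      have h5 : ∀ x ∈ (Subgroup.closure {x1.1, x2.1}).map ψ,
          (x : G ⧸ (sSup (VV c G) : Subgroup G)) ∈
          ((Subgroup.closure {x1.1, x2.1}).map A.subtype).map π := by
        rintro _ ⟨y, hy, rfl⟩
        exact ⟨y.1, ⟨y, hy, rfl⟩, rfl⟩
      refine h3.of_inj (((A.map π).subtype.comp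
        ((Subgroup.closure {x1.1, x2.1}).map ψ).subtype).codRestrict _ fun x => h5 x.1 x.2) ?_
      intro x y hxy
      have h9 := congrArg (fun w : (((Subgroup.closure {x1.1, x2.1}).map A.subtype).map π :
        Subgroup _) => (w : G ⧸ (sSup (VV c G) : Subgroup G))) hxy
      exact Subtype.ext (Subtype.ext h9)
    have h5 : (Subgroup.closure {x1.1, x2.1}).map ψ ≤ X := by
      rintro _ ⟨y, hy, rfl⟩
      exact hYX hy
    have h6 : Function.Surjective (f.comp (Subgroup.inclusion h5)) := by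
      rw [← MonoidHom.range_eq_top, eq_top_iff, ← hs12, Subgroup.closure_le]
      rintro _ (rfl | rfl)
      · refine ⟨⟨ψ x1.1, ⟨x1.1, Subgroup.subset_closure (by simp), rfl⟩⟩, ?_⟩
        rw [← hx1]
        rfl
      · refine ⟨⟨ψ x2.1, ⟨x2.1, Subgroup.subset_closure (by simp), rfl⟩⟩, ?_⟩
        rw [← hx2]
        rfl
    have h7 := (h4.of_surj _ h6) S hS1 hS2 ⊤ (Subgroup.topEquiv (G := S)).toMonoidHom
      (Subgroup.topEquiv (G := S)).surjective
    omega
  have hAle := hAmin _ (Subgroup.map_subtype_le _) hYns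
  have hAgen : A = Subgroup.closure {x1.1.1, x2.1.1, x1.1.1, x2.1.1} := by
    apply le_antisymm
    · intro a ha
      have h4 : a ∈ (Subgroup.closure {x1.1, x2.1}).map A.subtype := hAle ha
      rw [MonoidHom.map_closure, Set.image_pair] at h4
      refine Subgroup.closure_mono ?_ h4
      intro z hz
      simp only [Set.mem_insert_iff, Set.mem_singleton_iff] at hz ⊢
      tauto
    · rw [Subgroup.closure_le]
      rintro _ (rfl | rfl | rfl | rfl)
      · exact x1.1.2
      · exact x2.1.2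
      · exact x1.1.2
      · exact x2.1.2
  obtain ⟨u1, u2, hu⟩ : ∃ u1 u2 : G, A = Subgroup.closure {u1, u2, u1, u2} := ⟨_, _, hAgen⟩
  have hO' : ∀ e : G, InO c A e → e = 1 := by
    rw [hu] at hpf ⊢
    exact fun e he => four_triv hc hk h hL hR hpf he
  have hO : ∀ e : A, InO c ⊤ e → e = 1 := fun e he => Subtype.ext (hO' e.1 (inO_top e.2 he))
  have hLA : L1 c A := by
    rw [hu]
    exact l1_four hk hL u1 u2 u1 u2
  have hE := pf_struct' hAhy hLA hO hpf
  have hAV : A ≤ sSup (VV c G) := by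
    have h3 : EE c A ≤ (sSup (VV c G)).comap A.subtype := by
      refine sSup_le fun T hT => ?_
      rw [← Subgroup.map_le_iff_le_comap]
      refine le_sSup ⟨Bg.of_equiv (T.equivMapOfInjective A.subtype A.subtype_injective) hT.2,
        gen_map A.subtype (hAhy.tg.self T hT.2.1 hT.2.2.1)⟩
    intro z hz
    exact h3 (show (⟨z, hz⟩ : A) ∈ EE c A by rw [hE]; exact Subgroup.mem_top _)
  apply hAns
  have hsub : Subsingleton (A.map π) := by
    refine ⟨?_⟩
    rintro ⟨_, x, hx, rfl⟩ ⟨_, y, hy, rfl⟩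
    apply Subtype.ext
    change π x = π y
    have h3 : ∀ z ∈ A, π z = 1 := by
      intro z hz
      rw [hπ]
      exact (QuotientGroup.eq_one_iff z).2 (hAV hz)
    rw [h3 x hx, h3 y hy]
  exact w_sm_sub c

end Pool.Agent.TH69.Ms.X
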