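import Mathlib
import Pool.Agent.TH69.MsS0

set_option autoImplicit false

/-!
# Bounded series of characteristic subgroups: modulo the first layer
-/

namespace Pool.Agent.TH69.Ms.X

open Pool.Agent.H32BU Pool.Agent.TH69.Mtn Pool.Agent.TH69.Ms

variable {c n N k : ℕ} {G : Type} [Group G]

theorem down_quot (hk : 6 ≤ k) (h2 : TwoGen n) (h : HK (c + 1) n N k G) (j : ℕ)
    (hj : 2 * (j + 1) + 2 ≤ k)
    (hT : ∀ s : Finset G, s.card ≤ k → TL c (j + 1) (Subgroup.closure (s : Set G)))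
    [(R1Sub hk h h2).Normal] :
    ∀ s : Finset (G ⧸ R1Sub hk h h2), s.card ≤ k →
      TL c j (Subgroup.closure (s : Set (G ⧸ R1Sub hk h h2))) := by
  classical
  intro s hs
  by_contra hns
  obtain ⟨π, hπ⟩ : ∃ π : G →* G ⧸ R1Sub hk h h2, π = QuotientGroup.mk' (R1Sub hk h h2) := ⟨_, rfl⟩
  have hπk : ∀ e : G, e ∈ R1 c G → π e = 1 := by
    intro e he
    rw [hπ]
    exact (QuotientGroup.eq_one_iff e).2 he
  have hπs : Function.Surjective π := by
    rw [hπ]
    exact QuotientGroup.mk'_surjective _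
  obtain ⟨s', hs', hns'⟩ := TL_gen h2 j _ ((h.quot (R1Sub hk h h2)).hy s hs) hns
  obtain ⟨σ, hσ⟩ : ∃ σ : G ⧸ R1Sub hk h h2 → G, ∀ x, π (σ x) = x :=
    ⟨Function.surjInv hπs, Function.surjInv_eq hπs⟩
  obtain ⟨t, ht⟩ : ∃ t : Finset G,
    t = s'.image (fun x : Subgroup.closure (s : Set (G ⧸ R1Sub hk h h2)) => σ x.1) := ⟨_, rfl⟩
  have htc : t.card ≤ 2 * (j + 1) := by
    rw [ht]
    exact Finset.card_image_le.trans hs'
  have hA := h.hy t (by omega)
  obtain ⟨A, hAdef⟩ : ∃ A : Subgroup G, A = Subgroup.closure (t : Set G) := ⟨_, rfl⟩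
  rw [← hAdef] at hA
  have hle : ∀ z ∈ Subgroup.closure (s' : Set (Subgroup.closure (s : Set (G ⧸ R1Sub hk h h2)))),
      (z : G ⧸ R1Sub hk h h2) ∈ A.map π := by
    intro z hz
    have e : (Subgroup.closure (s' : Set (Subgroup.closure (s : Set (G ⧸ R1Sub hk h h2))))).map
        (Subgroup.closure (s : Set (G ⧸ R1Sub hk h h2))).subtype ≤ A.map π := by
      rw [MonoidHom.map_closure, Subgroup.closure_le]
      rintro _ ⟨y, hy, rfl⟩
      refine ⟨σ y.1, ?_, hσ _⟩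
      rw [hAdef]
      apply Subgroup.subset_closure
      rw [ht, Finset.coe_image]
      exact ⟨y, hy, rfl⟩
    exact e ⟨z, hz, rfl⟩
  have hAy : Hy c n (A.map π) := hA.of_surj (π.subgroupMap A) (π.subgroupMap_surjective A)
  have hAns : ¬ TL c j (A.map π) := by
    intro hA'
    apply hns'
    let φ : Subgroup.closure (s' : Set (Subgroup.closure (s : Set (G ⧸ R1Sub hk h h2)))) →*
        A.map π :=
      ((Subgroup.closure (s : Set (G ⧸ R1Sub hk h h2))).subtype.comp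
        (Subgroup.subtype _)).codRestrict _ fun x => hle x.1 x.2
    have hφ : Function.Injective φ := by
      intro a b hab
      have h4 := congrArg (fun w : A.map π => (w : G ⧸ R1Sub hk h h2)) hab
      exact Subtype.ext (Subtype.ext h4)
    exact TL.of_inj hAy φ hφ hA'
  have hAfin := hA.fin
  -- the least normal subgroup with a quotient with at most `j` layers
  obtain ⟨𝒟, h𝒟⟩ : ∃ 𝒟 : Set (Subgroup A), 𝒟 = {D | ∃ (W : Type) (_ : Group W) (f : A →* W),
    Function.Surjective f ∧ f.ker = D ∧ TL c j W} := ⟨_, rfl⟩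
  have hinf : ∀ D₁ ∈ 𝒟, ∀ D₂ ∈ 𝒟, D₁ ⊓ D₂ ∈ 𝒟 := by
    intro D₁ hD₁ D₂ hD₂
    rw [h𝒟] at hD₁ hD₂ ⊢
    obtain ⟨W₁, _, f₁, hf₁, rfl, hW₁⟩ := hD₁
    obtain ⟨W₂, _, f₂, hf₂, rfl, hW₂⟩ := hD₂
    refine ⟨A ⧸ (f₁.ker ⊓ f₂.ker), inferInstance, QuotientGroup.mk' _,
      QuotientGroup.mk'_surjective _, QuotientGroup.ker_mk' _, ?_⟩
    let g₁ : A ⧸ (f₁.ker ⊓ f₂.ker) →* W₁ := QuotientGroup.lift _ f₁ inf_le_left
    let g₂ : A ⧸ (f₁.ker ⊓ f₂.ker) →* W₂ := QuotientGroup.lift _ f₂ inf_le_right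
    refine TL.form (hA.of_surj (QuotientGroup.mk' (f₁.ker ⊓ f₂.ker))
      (QuotientGroup.mk'_surjective _)) g₁ g₂ ?_ ?_ ?_ hW₁ hW₂
    · intro w
      obtain ⟨x, rfl⟩ := hf₁ w
      exact ⟨(x : A ⧸ (f₁.ker ⊓ f₂.ker)), rfl⟩
    · intro w
      obtain ⟨x, rfl⟩ := hf₂ w
      exact ⟨(x : A ⧸ (f₁.ker ⊓ f₂.ker)), rfl⟩
    · intro x h3 h4
      obtain ⟨x, rfl⟩ := QuotientGroup.mk_surjective x
      rw [QuotientGroup.eq_one_iff]
      exact ⟨h3, h4⟩
  -- members from larger subgroups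
  have hmem : ∀ y z : G, ∃ (K : Subgroup G) (hAK : A ≤ K), y ∈ K ∧ z ∈ K ∧ Hy c n K ∧
      ∃ D ∈ 𝒟, ∀ e : A, e ∈ D → InF c (Subgroup.inclusion hAK e) := by
    intro y z
    obtain ⟨t', ht'⟩ : ∃ t' : Finset G, t' = insert y (insert z t) := ⟨_, rfl⟩
    have htc' : t'.card ≤ k := by
      rw [ht']
      have h3 := Finset.card_insert_le y (insert z t)
      have h4 := Finset.card_insert_le z t
      omega
    have hAK : A ≤ Subgroup.closure (t' : Set G) := by
      rw [hAdef]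
      apply Subgroup.closure_mono
      intro x hx
      rw [ht', Finset.mem_coe]
      exact Finset.mem_insert_of_mem (Finset.mem_insert_of_mem hx)
    have hK := h.hy t' htc'
    obtain ⟨W, _, f, hf, hfk, hW⟩ := hT t' htc'
    refine ⟨Subgroup.closure (t' : Set G), hAK, Subgroup.subset_closure ?_,
      Subgroup.subset_closure ?_, hK, (f.comp (Subgroup.inclusion hAK)).ker, ?_, ?_⟩
    · rw [ht', Finset.mem_coe]
      exact Finset.mem_insert_self _ _
    · rw [ht', Finset.mem_coe]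
      exact Finset.mem_insert_of_mem (Finset.mem_insert_self _ _)
    · rw [h𝒟]
      refine ⟨(f.comp (Subgroup.inclusion hAK)).range, inferInstance,
        (f.comp (Subgroup.inclusion hAK)).rangeRestrict,
        (f.comp (Subgroup.inclusion hAK)).rangeRestrict_surjective, MonoidHom.ker_rangeRestrict _, ?_⟩
      exact TL.of_inj (hK.of_surj f hf) (f.comp (Subgroup.inclusion hAK)).range.subtype
        (Subgroup.subtype_injective _) hW
    · intro e he
      exact (hfk _).2 he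
  obtain ⟨K0, hAK0, -, -, hK0, D1, hD1, -⟩ := hmem 1 1
  obtain ⟨D₀, hD₀, hmin⟩ := (Set.toFinite 𝒟).exists_minimal ⟨D1, hD1⟩
  have hD₀le : ∀ D ∈ 𝒟, D₀ ≤ D := fun D hD =>
    (hmin (hinf D₀ hD₀ D hD) inf_le_left).trans inf_le_right
  have hD₀R : ∀ e : A, e ∈ D₀ → π e.1 = 1 := by
    intro e he
    apply hπk
    intro y z hez
    obtain ⟨K, hAK, hy, hz, hK, D, hD, hDF⟩ := hmem y z
    have h3 := hDF e (hD₀le D hD he)
    exact inF_mono hK (closure_three_le (hAK e.2) hy hz) hez h3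
  apply hAns
  rw [h𝒟] at hD₀
  obtain ⟨W, _, f, hf, hfk, hW⟩ := hD₀
  let ρ : A →* A.map π := π.subgroupMap A
  have hρ : Function.Surjective ρ := π.subgroupMap_surjective A
  have hle2 : f.ker ≤ ρ.ker := by
    intro x hx
    rw [hfk] at hx
    exact Subtype.ext (hD₀R x hx)
  let τ : W →* A.map π := f.liftOfSurjective hf ⟨ρ, hle2⟩
  have hτ : Function.Surjective τ := by
    intro y
    obtain ⟨x, rfl⟩ := hρ y
    exact ⟨f x, MonoidHom.liftOfRightInverse_comp_apply _ _ _ ⟨ρ, hle2⟩ x⟩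
  exact TL.of_surj (hA.of_surj f hf) τ hτ hW

end Pool.Agent.TH69.Ms.X
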