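import Mathlib
import Pool.Agent.TH69.MsS1
import Pool.Agent.TH69.MsS2m
import Pool.Agent.TH69.MsS3
import Pool.Agent.TH69.MsS4
import Pool.Agent.TH69.MsS5

set_option autoImplicit false

/-!
# Bounded series of characteristic subgroups: the main induction
-/

namespace Pool.Agent.TH69.Ms.X

open Pool.Agent.H32BU Pool.Agent.TH69.Mtn Pool.Agent.TH69.Ms

variable {c n N k : ℕ} {G : Type} [Group G]

/-- the large simple subgroups generate a locally semisimple group -/
theorem VV_LSS (hc : 0 < c) (hk : 6 ≤ k) (h2 : TwoGen n) (h : HK (c + 1) n N k G)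
    (hL : ∀ s : Finset G, s.card ≤ k → L1 c (Subgroup.closure (s : Set G)))
    (hR : ∀ e ∈ RR c G, e = 1) : LSS (sSup (VV c G) : Subgroup G) := by
  classical
  refine ⟨c, hc, fun s hs => ?_⟩
  have h3 : ∀ s : Finset G, (s : Set G) ⊆ (sSup (VV c G) : Subgroup G) →
      ∃ S : Set (Subgroup G), S.Finite ∧ S ⊆ VV c G ∧
        (s : Set G) ⊆ (sSup S : Subgroup G) := by
    intro s
    induction s using Finset.induction_on with
    | empty => exact fun _ => ⟨∅, Set.finite_empty, Set.empty_subset _, by simp⟩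
    | insert a s _ ih =>
      intro hs
      obtain ⟨S, hS1, hS2, hS3⟩ := ih fun x hx => hs (Finset.mem_insert_of_mem hx)
      obtain ⟨D, hD1, hD2, hD3⟩ := NsI.mem_fin (VV c G) (hs (Finset.mem_insert_self a s))
      refine ⟨S ∪ D, hS1.union hD1, Set.union_subset hS2 hD2, ?_⟩
      intro x hx
      rcases Finset.mem_insert.1 hx with rfl | hx
      · exact (sSup_le_sSup Set.subset_union_right : sSup D ≤ sSup (S ∪ D)) hD3
      · exact (sSup_le_sSup Set.subset_union_left : sSup S ≤ sSup (S ∪ D)) (hS3 hx)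
  obtain ⟨S, hS1, hS2, hS3⟩ := h3 s hs
  obtain ⟨D, hD1, hD2, hD3, hD4⟩ := NsI.cover hc (VV c G) (fun T hT => hT.1)
    (two_comp hc hk h2 h hL hR) (star hc hk h2 h hL hR) hS1 hS2
  refine ⟨D, hD1, fun T hT => ⟨le_sSup (hD2 hT), (hD2 hT).1.2.2, (hD2 hT).1.1,
    (hD2 hT).1.2.1⟩, fun A hA B hB hne => ?_, hS3.trans hD4⟩
  rcases hD3 A hA B hB with h5 | h5
  · exact absurd h5 hne
  · exact h5

/-- layers of the small subgroups of quotients -/
theorem TL_quot {j : ℕ} (h : HK (c + 1) n N k G) (M : Subgroup G) [M.Normal]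
    (hT : ∀ s : Finset G, s.card ≤ k → TL c j (Subgroup.closure (s : Set G)))
    (s : Finset (G ⧸ M)) (hs : s.card ≤ k) : TL c j (Subgroup.closure (s : Set (G ⧸ M))) := by
  classical
  obtain ⟨t, ht⟩ : ∃ t : Finset G, t = s.image (fun q : G ⧸ M => (Quotient.out q : G)) :=
    ⟨_, rfl⟩
  have hcard : t.card ≤ k := by
    rw [ht]
    exact Finset.card_image_le.trans hs
  have e : (Subgroup.closure (t : Set G)).map (QuotientGroup.mk' M) =
      Subgroup.closure (s : Set (G ⧸ M)) := by
    rw [MonoidHom.map_closure]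
    congr 1
    ext q
    rw [ht]
    simp only [Finset.coe_image, Set.mem_image, Finset.mem_coe]
    constructor
    · rintro ⟨_, ⟨q', hq', rfl⟩, rfl⟩
      have h3 : (QuotientGroup.mk' M) (Quotient.out q') = q' := QuotientGroup.out_eq' q'
      rwa [h3]
    · intro hq
      exact ⟨_, ⟨q, hq, rfl⟩, QuotientGroup.out_eq' q⟩
  rw [← e]
  exact TL.of_surj (h.hy t hcard) ((QuotientGroup.mk' M).subgroupMap (Subgroup.closure (t : Set G)))
    ((QuotientGroup.mk' M).subgroupMap_surjective (Subgroup.closure (t : Set G))) (hT t hcard)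

/-- the small subgroups of `R1Sub` have one layer -/
theorem R1Sub_TL (hk : 6 ≤ k) (h : HK (c + 1) n N k G) (h2 : TwoGen n)
    (s : Finset (R1Sub hk h h2)) (hs : s.card ≤ k) :
    TL c 1 (Subgroup.closure (s : Set (R1Sub hk h h2))) := by
  classical
  have hK : Hy c n (Subgroup.closure (s : Set (R1Sub hk h h2))) :=
    (h.subgroup (R1Sub hk h h2)).hy s hs
  have hall : ∀ x : Subgroup.closure (s : Set (R1Sub hk h h2)), InF c x := by
    intro x
    obtain ⟨t, ht⟩ : ∃ t : Finset G, t = s.image (fun x : R1Sub hk h h2 => (x : G)) := ⟨_, rfl⟩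
    have hcard : t.card ≤ k := by
      rw [ht]
      exact Finset.card_image_le.trans hs
    have e : (Subgroup.closure (s : Set (R1Sub hk h h2))).map (R1Sub hk h h2).subtype =
        Subgroup.closure (t : Set G) := by
      rw [MonoidHom.map_closure, ht, Finset.coe_image]
      rfl
    have hKt := h.hy t hcard
    have hle : ∀ z ∈ Subgroup.closure (s : Set (R1Sub hk h h2)),
        (z : G) ∈ Subgroup.closure (t : Set G) := by
      intro z hz
      rw [← e]
      exact ⟨z, hz, rfl⟩
    let φ : Subgroup.closure (s : Set (R1Sub hk h h2)) →* Subgroup.closure (t : Set G) :=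
      ((R1Sub hk h h2).subtype.comp (Subgroup.subtype _)).codRestrict _ fun x => hle x.1 x.2
    have hφ : Function.Injective φ := by
      intro a b hab
      have h4 := congrArg (fun w : Subgroup.closure (t : Set G) => (w : G)) hab
      exact Subtype.ext (Subtype.ext h4)
    refine InF.of_inj hKt φ hφ ?_
    exact R1.inF h2 hKt (hle x.1 x.2) x.1.2
  obtain ⟨W, iW, π, hπ, -, hker⟩ := exists_W hK
  have hsub : Subsingleton W := by
    refine ⟨fun a b => ?_⟩
    obtain ⟨x, rfl⟩ := hπ a
    obtain ⟨y, rfl⟩ := hπ b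
    rw [(hker x).1 (hall x), (hker y).1 (hall y)]
  exact ⟨W, iW, π, hπ, hker, w_sm_sub c⟩

/-- groups whose small subgroups have one layer -/
theorem cs_L1 (hc : 0 < c) (hk : 6 ≤ k) (h2 : TwoGen n) {L : ℕ}
    (IH : ∀ (G : Type) [Group G], HK c n N k G → CS n L G)
    {G : Type} [Group G] (h : HK (c + 1) n N k G)
    (hT : ∀ s : Finset G, s.card ≤ k → TL c 1 (Subgroup.closure (s : Set G))) :
    CS n (2 * L + 1) G := by
  have hRn := RSub_normal hk h h2
  have hW : HK (c + 1) n N k (G ⧸ RSub hk h h2) := h.quot _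
  have hWL : ∀ s : Finset (G ⧸ RSub hk h h2), s.card ≤ k →
      L1 c (Subgroup.closure (s : Set (G ⧸ RSub hk h h2))) :=
    fun s hs => TL.l1 (hW.hy s hs) (TL_quot h _ hT s hs)
  have hWR := RR_quot hk h h2
  have hVn := VV_normal c (G ⧸ RSub hk h h2)
  have h6 : CS n (L + 1) (G ⧸ RSub hk h h2) :=
    CS.cons (sSup (VV c (G ⧸ RSub hk h h2))) (VV_char c _)
      (Or.inr (VV_LSS hc hk h2 hW hWL hWR))
      (QuotientGroup.mk' _) (QuotientGroup.mk'_surjective _) (QuotientGroup.ker_mk' _)
      (IH _ (HK_quot_VV hc hk h2 hW hWL hWR))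
  have h8 := CS.comp (RSub hk h h2) (RSub_char hk h h2) (IH _ (h.sub hk h2))
    (QuotientGroup.mk' _) (QuotientGroup.mk'_surjective _) (QuotientGroup.ker_mk' _) h6
  have e : 2 * L + 1 = L + (L + 1) := by ring
  rw [e]
  exact h8

/-- groups whose small subgroups have at most `j + 1` layers -/
theorem cs_layers (hc : 0 < c) (hk : 6 ≤ k) (h2 : TwoGen n) {L : ℕ}
    (IH : ∀ (G : Type) [Group G], HK c n N k G → CS n L G) (j : ℕ) :
    2 * (j + 1) + 2 ≤ k → ∀ (G : Type) [Group G], HK (c + 1) n N k G →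
    (∀ s : Finset G, s.card ≤ k → TL c (j + 1) (Subgroup.closure (s : Set G))) →
    CS n ((j + 1) * (2 * L + 1)) G := by
  induction j with
  | zero =>
    intro _ G _ h hT
    rw [zero_add, one_mul]
    exact cs_L1 hc hk h2 IH h hT
  | succ j ih =>
    intro hj G _ h hT
    have hRn := R1Sub_normal hk h h2
    have h3 : CS n (2 * L + 1) (R1Sub hk h h2) :=
      cs_L1 hc hk h2 IH (h.subgroup _) (R1Sub_TL hk h h2)
    have h4 : CS n ((j + 1) * (2 * L + 1)) (G ⧸ R1Sub hk h h2) :=
      ih (by omega) _ (h.quot _) (down_quot hk h2 h (j + 1) (by omega) hT)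
    have h5 := CS.comp (R1Sub hk h h2) (R1Sub_char hk h h2) h3
      (QuotientGroup.mk' _) (QuotientGroup.mk'_surjective _) (QuotientGroup.ker_mk' _) h4
    have e : (j + 1 + 1) * (2 * L + 1) = (2 * L + 1) + (j + 1) * (2 * L + 1) := by ring
    rw [e]
    exact h5

/-- the length of the series -/
def len (n v N c : ℕ) : ℕ := (3 * v) ^ c * (N * (n + 1) + 1)

theorem len_step {n v N c : ℕ} (hv : 1 ≤ v) :
    v * (2 * len n v N c + 1) ≤ len n v N (c + 1) := by
  have h1 : 1 ≤ len n v N c := by
    unfold len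
    exact Nat.mul_pos (Nat.pow_pos (by omega)) (Nat.succ_pos _)
  have h2 : len n v N (c + 1) = v * (3 * len n v N c) := by
    unfold len
    rw [pow_succ]
    ring
  rw [h2]
  exact Nat.mul_le_mul_left v (by omega)

theorem len_mono {n v N c : ℕ} (hv : 1 ≤ v) : len n v N c ≤ len n v N (c + 1) := by
  refine le_trans ?_ (len_step hv)
  nlinarith [Nat.zero_le (len n v N c)]

/-- bounded series of characteristic subgroups -/
theorem cs_HK {n N k v : ℕ} (hn : 1 ≤ n) (hv : 1 ≤ v) (hk : 6 ≤ k) (hkv : 2 * v + 2 ≤ k)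
    (hsq : ∃ p q : ℕ, ∀ r : ℕ, r.Prime → r ^ (v + 1) ∣ n → r = p ∨ r = q) (h2 : TwoGen n) :
    ∀ (c : ℕ) (G : Type) [Group G], HK c n N k G → CS n (len n v N c) G := by
  classical
  intro c
  induction c with
  | zero =>
    intro G _ h
    have h3 : CS n (N * (n + 1)) G := by
      refine base_CS hn N G h.exp fun a x z => ?_
      have h1 := h.gen {a, x, z} (Finset.card_le_three.trans (by omega))
      have e : (({a, x, z} : Finset G) : Set G) = {a, x, z} := by simp
      rw [e] at h1
      have h5 : Finite (c3 a x z) ∧ Nat.card (c3 a x z) ≤ N ∧ Sm 0 (c3 a x z) := h1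
      obtain ⟨h5, h3, h4⟩ := h5
      have hs := NsJ.solv _ (c3 a x z) rfl h4
      refine ⟨h5, hs, ?_⟩
      have e := x_MAPI (c3 a x z) G (c3 a x z).subtype (c3 a x z).subtype_injective ⊤ N
      rw [NsJ.DD_bot x_MON x_SOLH (c3 a x z) hs N h3, Subgroup.map_bot, ← MonoidHom.range_eq_map,
        Subgroup.range_subtype] at e
      exact e.symm
    refine CS.mono ?_ h3
    unfold len
    rw [pow_zero, one_mul]
    exact Nat.le_succ _
  | succ c ih =>
    intro G _ h
    by_cases hT : 0 < c ∧ ∃ (T : Type) (_ : Group T), Bg c T ∧ Finite T ∧ ∀ x : T, x ^ n = 1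
    · obtain ⟨hc, T, _, hT1, hT2, hT3⟩ := hT
      obtain ⟨p, hp, hpc, hpn, hpv⟩ := prime_of hsq hT1 hT3
      obtain ⟨b, hb⟩ : ∃ b : ℕ, n.factorization p = b + 1 := by
        have h3 : 0 < n.factorization p := hp.factorization_pos_of_dvd (by omega) hpn
        exact ⟨n.factorization p - 1, by omega⟩
      have hbv : b + 1 ≤ v := by
        by_contra hcon
        apply hpv
        rw [hp.pow_dvd_iff_le_factorization (by omega)]
        omega
      have hnm : n = p ^ (b + 1) * (n / p ^ n.factorization p) := by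
        rw [← hb]
        exact (Nat.ordProj_mul_ordCompl_eq_self n p).symm
      have hcop : Nat.Coprime p (n / p ^ n.factorization p) := Nat.coprime_ordCompl hp (by omega)
      have hTL : ∀ s : Finset G, s.card ≤ k → TL c (b + 1) (Subgroup.closure (s : Set G)) := by
        intro s hs
        refine TL_of_exp hc hp hpc hcop h2 (b + 1) _ (h.hy s hs) fun x => ?_
        rw [← hnm]
        exact (h.hy s hs).exp x
      refine CS.mono ?_ (cs_layers hc hk h2 ih b (by omega) G h hTL)
      exact (Nat.mul_le_mul_right _ hbv).trans (len_step hv)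
    · refine CS.mono (len_mono hv) (ih G ⟨h.exp, fun s hs => ⟨(h.gen s hs).1, (h.gen s hs).2.1, ?_⟩,
        h.tg⟩)
      intro S _ hS1 hS2 X f hf
      have h3 := (h.gen s hs).2.2 S hS1 hS2 X f hf
      by_contra hcon
      have h4 : Nat.card S = c := by omega
      have hfin := (h.gen s hs).1
      have hSfin : Finite S := Finite.of_surjective f hf
      have hpos : 0 < Nat.card S := Nat.card_pos
      refine hT ⟨by omega, S, inferInstance, ⟨hS1, hS2, h4⟩, hSfin, fun x => ?_⟩
      obtain ⟨y, rfl⟩ := hf x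
      rw [← map_pow]
      have : y ^ n = 1 := Subtype.ext (Subtype.ext (h.exp _))
      rw [this, map_one]

end Pool.Agent.TH69.Ms.X
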