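import Mathlib

set_option autoImplicit false

/-!
# The theorem of Hall and Higman for groups of exponent `p q`, part A

`U` is a group with an automorphism `σ` of prime order `p` acting on a vector space in
characteristic `p`, `γ` the operator of `σ`.
-/

namespace Pool.Agent.TH69.HH

/-- irreducible action of a minimal group `U` with an automorphism `σ` of order `p` whose
operator `γ` has norm `0` -/
structure Dat (k : Type) {M U : Type} [Field k] [AddCommGroup M] [Module k M] [Group U] (p : ℕ)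
    (ρ : U →* Module.End k M) (γ : Module.End k M) (σ : MulAut U) : Prop where
  rel : ∀ u, γ * ρ u = ρ (σ u) * γ
  nrm : ∑ i ∈ Finset.range p, γ ^ i = 0
  ord : σ ^ p = 1
  irr : ∀ W : Submodule k M, (∀ u, ∀ m ∈ W, ρ u m ∈ W) → (∀ m ∈ W, γ m ∈ W) → W = ⊥ ∨ W = ⊤
  ntr : ∃ u, γ * ρ u ≠ ρ u * γ
  min : ∀ U' : Subgroup U, (∀ u ∈ U', σ u ∈ U') → U' ≠ ⊤ → ∀ u ∈ U', σ u = u

variable {k M U : Type} [Field k] [AddCommGroup M] [Module k M] [Group U]
variable {p : ℕ} {ρ : U →* Module.End k M} {γ : Module.End k M} {σ : MulAut U}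

theorem sub_pow_eq_sum [hp : Fact p.Prime] [CharP k p] :
    (γ - 1) ^ (p - 1) = ∑ i ∈ Finset.range p, γ ^ i := by
  have h1 : (Polynomial.X - 1 : Polynomial k) ^ (p - 1) =
      ∑ i ∈ Finset.range p, (Polynomial.X : Polynomial k) ^ i := by
    have h2 : (Polynomial.X - 1 : Polynomial k) ≠ 0 := by
      have := Polynomial.X_sub_C_ne_zero (1 : k)
      rwa [Polynomial.C_1] at this
    apply mul_right_cancel₀ h2
    rw [geom_sum_mul, ← pow_succ, Nat.sub_add_cancel hp.out.one_lt.le, sub_pow_char, one_pow]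
  have h3 := congrArg (Polynomial.aeval γ) h1
  simpa using h3

namespace Dat

variable (D : Dat k p ρ γ σ)
include D

theorem gpow : γ ^ p = 1 := by
  have h := geom_sum_mul γ p
  rw [D.nrm, zero_mul] at h
  exact (sub_eq_zero.1 h.symm)

/-- the inverse of `γ` -/
theorem exists_inv (hp : 0 < p) : ∃ γ' : Module.End k M, γ' * γ = 1 ∧ γ * γ' = 1 ∧
    γ' = γ ^ (p - 1) := by
  refine ⟨γ ^ (p - 1), ?_, ?_, rfl⟩
  · rw [← pow_succ, Nat.sub_add_cancel hp, D.gpow]
  · rw [← pow_succ', Nat.sub_add_cancel hp, D.gpow]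

theorem rel_pow (i : ℕ) (u : U) : γ ^ i * ρ u = ρ ((σ ^ i) u) * γ ^ i := by
  induction i with
  | zero => simp
  | succ i ih =>
    rw [pow_succ', mul_assoc, ih, ← mul_assoc, D.rel, mul_assoc]
    have h : (σ ^ (i + 1)) u = σ ((σ ^ i) u) := by
      rw [pow_succ']
      rfl
    rw [h]

theorem schur [IsAlgClosed k] [FiniteDimensional k M] [Nontrivial M] (X : Module.End k M)
    (h1 : ∀ u, X * ρ u = ρ u * X) (h2 : X * γ = γ * X) : ∃ c : k, X = c • 1 := by
  obtain ⟨c, hc⟩ := Module.End.exists_eigenvalue X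
  obtain ⟨v, hv⟩ := hc.exists_hasEigenvector
  refine ⟨c, ?_⟩
  have h3 : Module.End.eigenspace X c = ⊤ := by
    refine (D.irr _ ?_ ?_).resolve_left ?_
    · intro u m hm
      rw [Module.End.mem_eigenspace_iff] at hm ⊢
      change (X * ρ u) m = _
      rw [h1]
      change ρ u (X m) = _
      rw [hm, map_smul]
    · intro m hm
      rw [Module.End.mem_eigenspace_iff] at hm ⊢
      change (X * γ) m = _
      rw [h2]
      change γ (X m) = _
      rw [hm, map_smul]
    · intro h
      have h4 : v ∈ Module.End.eigenspace X c := hv.1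
      rw [h, Submodule.mem_bot] at h4
      exact hv.2 h4
  ext m
  have h4 : m ∈ Module.End.eigenspace X c := by rw [h3]; exact Submodule.mem_top
  rw [Module.End.mem_eigenspace_iff] at h4
  simpa using h4

end Dat

end Pool.Agent.TH69.HH
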