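import Mathlib
import Pool.Agent.TH69.HHA

set_option autoImplicit false

/-!
# The theorem of Hall and Higman for groups of exponent `p q`, part B: the commutative case
-/

namespace Pool.Agent.TH69.HH

variable {k M U : Type} [Field k] [AddCommGroup M] [Module k M] [Group U]
variable {p : ℕ} {ρ : U →* Module.End k M} {γ : Module.End k M} {σ : MulAut U}

/-- elements acting as elements of the centralizer of the image -/
def Uc (ρ : U →* Module.End k M) : Subgroup U where
  carrier := {u | ∀ w, ρ u * ρ w = ρ w * ρ u}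
  one_mem' := fun w => by rw [map_one, one_mul, mul_one]
  mul_mem' := by
    intro a b ha hb w
    rw [map_mul, mul_assoc, hb w, ← mul_assoc, ha w, mul_assoc]
  inv_mem' := by
    intro a ha w
    have h1 : ρ a⁻¹ * ρ a = 1 := by rw [← map_mul, inv_mul_cancel, map_one]
    have h2 : ρ a * ρ a⁻¹ = 1 := by rw [← map_mul, mul_inv_cancel, map_one]
    calc ρ a⁻¹ * ρ w = ρ a⁻¹ * ρ w * (ρ a * ρ a⁻¹) := by rw [h2, mul_one]
      _ = ρ a⁻¹ * (ρ w * ρ a) * ρ a⁻¹ := by simp only [mul_assoc]
      _ = ρ a⁻¹ * (ρ a * ρ w) * ρ a⁻¹ := by rw [ha w]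
      _ = (ρ a⁻¹ * ρ a) * ρ w * ρ a⁻¹ := by simp only [mul_assoc]
      _ = ρ w * ρ a⁻¹ := by rw [h1, one_mul]

theorem mem_Uc {u : U} : u ∈ Uc ρ ↔ ∀ w, ρ u * ρ w = ρ w * ρ u := Iff.rfl

/-- a common eigenvector of a commuting family -/
theorem exists_common [IsAlgClosed k] [FiniteDimensional k M] [Nontrivial M]
    (hc : ∀ u w, ρ u * ρ w = ρ w * ρ u) : ∃ v : M, v ≠ 0 ∧ ∃ χ : U →* k, ∀ u, ρ u v = χ u • v := by
  classical
  let P : ℕ → Prop := fun d => ∃ W : Submodule k M, W ≠ ⊥ ∧ (∀ u, ∀ m ∈ W, ρ u m ∈ W) ∧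
    Module.finrank k W = d
  have hex : ∃ d, P d := ⟨_, ⊤, top_ne_bot, fun _ _ _ => Submodule.mem_top, rfl⟩
  obtain ⟨W, hW0, hWinv, hWd⟩ := Nat.find_spec hex
  have hmin : ∀ W' : Submodule k M, W' ≤ W → W' ≠ ⊥ → (∀ u, ∀ m ∈ W', ρ u m ∈ W') → W' = W := by
    intro W' hle h0 hinv
    by_contra hne
    have h1 : Module.finrank k W' < Module.finrank k W :=
      Submodule.finrank_lt_finrank_of_lt (lt_of_le_of_ne hle hne)
    rw [hWd] at h1
    exact Nat.find_min hex h1 ⟨W', h0, hinv, rfl⟩
  have hWn : Nontrivial W := (Submodule.nontrivial_iff_ne_bot).2 hW0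
  have hsc : ∀ u, ∃ c : k, ∀ m ∈ W, ρ u m = c • m := by
    intro u
    let f : Module.End k W := (ρ u).restrict (hWinv u)
    obtain ⟨c, hcv⟩ := Module.End.exists_eigenvalue f
    obtain ⟨v, hv⟩ := hcv.exists_hasEigenvector
    refine ⟨c, ?_⟩
    have h2 : W ⊓ Module.End.eigenspace (ρ u) c = W := by
      refine hmin _ inf_le_left ?_ ?_
      · intro h
        have h3 : (v : M) ∈ W ⊓ Module.End.eigenspace (ρ u) c := by
          refine ⟨v.2, ?_⟩
          rw [SetLike.mem_coe, Module.End.mem_eigenspace_iff]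
          have h4 : v ∈ Module.End.eigenspace f c := hv.1
          rw [Module.End.mem_eigenspace_iff] at h4
          exact congrArg Subtype.val h4
        rw [h, Submodule.mem_bot] at h3
        exact hv.2 (Subtype.ext h3)
      · rintro w m ⟨hm1, hm2⟩
        refine ⟨hWinv w m hm1, ?_⟩
        rw [SetLike.mem_coe, Module.End.mem_eigenspace_iff] at hm2 ⊢
        change (ρ u * ρ w) m = _
        rw [hc]
        change ρ w (ρ u m) = _
        rw [hm2, map_smul]
    intro m hm
    rw [← h2] at hm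
    exact Module.End.mem_eigenspace_iff.1 hm.2
  choose c hcc using hsc
  obtain ⟨v, hv, hv0⟩ := (Submodule.ne_bot_iff W).1 hW0
  refine ⟨v, hv0, ⟨⟨c, ?_⟩, ?_⟩, fun u => hcc u v hv⟩
  · have h := hcc 1 v hv
    rw [map_one, Module.End.one_apply] at h
    have h2 : (c 1 - 1) • v = 0 := by rw [sub_smul, one_smul, ← h, sub_self]
    exact sub_eq_zero.1 ((smul_eq_zero.1 h2).resolve_right hv0)
  · intro a b
    have h := hcc (a * b) v hv
    rw [map_mul] at h
    change ρ a (ρ b v) = _ at h
    rw [hcc b v hv, map_smul, hcc a v hv, smul_smul] at h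
    have h2 : (c (a * b) - c a * c b) • v = 0 := by
      rw [sub_smul, ← h, mul_comm, sub_self]
    exact sub_eq_zero.1 ((smul_eq_zero.1 h2).resolve_right hv0)

namespace Dat

variable (D : Dat k p ρ γ σ)
include D

theorem cancel (hp : 0 < p) {X Y : Module.End k M} (h : X * γ = Y * γ) : X = Y := by
  obtain ⟨γ', h1, h2, -⟩ := D.exists_inv hp
  have h3 := congrArg (fun Z => Z * γ') h
  simpa [mul_assoc, h2] using h3

theorem Uc_sigma (hp : 0 < p) {u : U} (hu : u ∈ Uc ρ) : σ u ∈ Uc ρ := by
  intro w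
  obtain ⟨w, rfl⟩ := σ.surjective w
  apply D.cancel hp
  rw [mul_assoc, ← D.rel, ← mul_assoc, ← D.rel, mul_assoc, hu w, ← mul_assoc, D.rel, mul_assoc,
    D.rel, mul_assoc]

/-- `σ` is a power of `σ ^ m`, `0 < m < p` -/
theorem sigma_of_pow (hp : p.Prime) {m : ℕ} (hm0 : 0 < m) (hmp : m < p) :
    ∃ m' : ℕ, (σ ^ m) ^ m' = σ := by
  have hco : Nat.Coprime m p := by
    rw [Nat.coprime_comm, Nat.Prime.coprime_iff_not_dvd hp]
    intro h
    have := Nat.le_of_dvd hm0 h
    omega
  have h1 : (orderOf σ).Coprime m :=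
    Nat.Coprime.coprime_dvd_left (orderOf_dvd_of_pow_eq_one D.ord) hco.symm
  exact exists_pow_eq_self_of_coprime h1.symm

/-- the commutative case is impossible -/
theorem not_comm [IsAlgClosed k] [FiniteDimensional k M] [Nontrivial M] (hp : p.Prime)
    (hc : ∀ u w, ρ u * ρ w = ρ w * ρ u) : False := by
  classical
  obtain ⟨v, hv0, χ, hχ⟩ := exists_common hc
  -- the conjugate characters
  let X : Fin p → (U →* k) := fun i => χ.comp ((σ ^ (i : ℕ))⁻¹).toMonoidHom
  have hX : ∀ (i : Fin p) (u : U), ρ u ((γ ^ (i : ℕ)) v) = X i u • (γ ^ (i : ℕ)) v := by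
    intro i u
    have h1 := D.rel_pow i ((σ ^ (i : ℕ))⁻¹ u)
    have h2 : (σ ^ (i : ℕ)) ((σ ^ (i : ℕ))⁻¹ u) = u := by
      rw [← MulAut.mul_apply, mul_inv_cancel, MulAut.one_apply]
    rw [h2] at h1
    have h3 := congrArg (fun Z : Module.End k M => Z v) h1
    change (γ ^ (i : ℕ)) (ρ _ v) = ρ u ((γ ^ (i : ℕ)) v) at h3
    rw [← h3, hχ, map_smul]
    rfl
  by_cases hinj : Function.Injective X
  · have hli := (linearIndependent_monoidHom U k).comp X hinj
    rw [Fintype.linearIndependent_iff] at hli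
    apply hv0
    rw [← Module.forall_dual_apply_eq_zero_iff k]
    intro l
    have hz : ∑ i : Fin p, l ((γ ^ (i : ℕ)) v) • (fun f : U →* k => ⇑f) (X i) = 0 := by
      funext u
      rw [Finset.sum_apply]
      simp only [Pi.smul_apply, smul_eq_mul, Pi.zero_apply]
      have h4 : ρ u (∑ i : Fin p, (γ ^ (i : ℕ)) v) = 0 := by
        have h5 : ∑ i : Fin p, (γ ^ (i : ℕ)) v = (∑ i ∈ Finset.range p, γ ^ i) v := by
          rw [LinearMap.sum_apply, Finset.sum_range]
        rw [h5, D.nrm]
        simp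
      rw [map_sum] at h4
      have h6 := congrArg l h4
      rw [map_sum, map_zero] at h6
      rw [← h6]
      refine Finset.sum_congr rfl fun i _ => ?_
      rw [hX, map_smul, smul_eq_mul, mul_comm]
    have := hli _ hz ⟨0, hp.pos⟩
    simpa using this
  · -- `χ` is invariant
    have hinv : ∀ u, χ (σ u) = χ u := by
      unfold Function.Injective at hinj
      push Not at hinj
      obtain ⟨i, j, hij, hne⟩ := hinj
      have key : ∀ i j : Fin p, (i : ℕ) < j → X i = X j → ∀ u, χ (σ u) = χ u := by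
        intro i j hlt hij
        have h1 : ∀ u, χ ((σ ^ ((j : ℕ) - i)) u) = χ u := by
          intro u
          have h2 := DFunLike.congr_fun hij ((σ ^ (j : ℕ)) u)
          have h3 : X j ((σ ^ (j : ℕ)) u) = χ u := by
            change χ (((σ ^ (j : ℕ))⁻¹ * σ ^ (j : ℕ)) u) = χ u
            rw [inv_mul_cancel, MulAut.one_apply]
          have h4 : X i ((σ ^ (j : ℕ)) u) = χ ((σ ^ ((j : ℕ) - i)) u) := by
            change χ (((σ ^ (i : ℕ))⁻¹ * σ ^ (j : ℕ)) u) = _
            congr 2
            rw [inv_mul_eq_iff_eq_mul, ← pow_add]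
            congr 1
            omega
          rw [← h4, h2, h3]
        obtain ⟨m', hm'⟩ := D.sigma_of_pow hp (m := (j : ℕ) - i) (by omega) (by omega)
        intro u
        have h5 : ∀ n : ℕ, ∀ u, χ (((σ ^ ((j : ℕ) - i)) ^ n) u) = χ u := by
          intro n
          induction n with
          | zero => intro u; rfl
          | succ n ih =>
            intro u
            rw [pow_succ, MulAut.mul_apply, ih, h1]
        have h6 := h5 m' u
        rwa [hm'] at h6
      rcases lt_trichotomy (i : ℕ) j with h | h | h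
      · exact key i j h hij
      · exact absurd (Fin.ext h) hne
      · exact key j i h hij.symm
    let W : Submodule k M :=
      { carrier := {m | ∀ u, ρ u m = χ u • m}
        add_mem' := by
          intro a b ha hb u
          rw [map_add, ha u, hb u, smul_add]
        zero_mem' := by
          intro u
          rw [map_zero, smul_zero]
        smul_mem' := by
          intro c a ha u
          rw [map_smul, ha u, smul_comm] }
    have hW : W = ⊤ := by
      refine (D.irr W ?_ ?_).resolve_left ?_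
      · intro u m hm w
        change (ρ w * ρ u) m = _
        rw [hc]
        change ρ u (ρ w m) = _
        rw [hm w, map_smul]
      · intro m hm u
        obtain ⟨u, rfl⟩ := σ.surjective u
        change (ρ (σ u) * γ) m = _
        rw [← D.rel]
        change γ (ρ u m) = _
        rw [hm u, map_smul, hinv]
      · intro h
        have h1 : v ∈ W := hχ
        rw [h, Submodule.mem_bot] at h1
        exact hv0 h1
    obtain ⟨u, hu⟩ := D.ntr
    apply hu
    ext m
    have h1 : m ∈ W := by rw [hW]; exact Submodule.mem_top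
    have h2 : γ m ∈ W := by rw [hW]; exact Submodule.mem_top
    change γ (ρ u m) = ρ u (γ m)
    rw [h1 u, h2 u, map_smul]

end Dat

end Pool.Agent.TH69.HH
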