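import Mathlib
import Pool.Agent.TH69.HHB

set_option autoImplicit false

/-!
# The theorem of Hall and Higman for groups of exponent `p q`, part C: structure of `U`
-/

namespace Pool.Agent.TH69.HH

variable {k M U : Type} [Field k] [AddCommGroup M] [Module k M] [Group U]
variable {p : ℕ} {ρ : U →* Module.End k M} {γ : Module.End k M} {σ : MulAut U}

theorem eq_one_of_coprime {G : Type} [Group G] {a b : ℕ} (hab : Nat.Coprime a b) {x : G}
    (h1 : x ^ a = 1) (h2 : x ^ b = 1) : x = 1 := by
  have h3 := orderOf_dvd_of_pow_eq_one h1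
  have h4 := orderOf_dvd_of_pow_eq_one h2
  have h5 := Nat.dvd_gcd h3 h4
  rw [hab, Nat.dvd_one] at h5
  exact orderOf_eq_one_iff.1 h5

/-- the operator sum of conjugates -/
noncomputable def PP [Fintype U] (ρ : U →* Module.End k M) (Y : Module.End k M) :
    Module.End k M := ∑ w : U, ρ w * Y * ρ w⁻¹

theorem rho_inv (u : U) : ρ u * ρ u⁻¹ = 1 := by rw [← map_mul, mul_inv_cancel, map_one]

theorem rho_inv' (u : U) : ρ u⁻¹ * ρ u = 1 := by rw [← map_mul, inv_mul_cancel, map_one]

theorem PP_comm [Fintype U] (Y : Module.End k M) (u : U) : PP ρ Y * ρ u = ρ u * PP ρ Y := by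
  have h1 : ρ u * PP ρ Y * ρ u⁻¹ = PP ρ Y := by
    unfold PP
    rw [Finset.mul_sum, Finset.sum_mul]
    refine Fintype.sum_equiv (Equiv.mulLeft u) _ _ fun w => ?_
    change _ = ρ (u * w) * Y * ρ (u * w)⁻¹
    rw [mul_inv_rev, map_mul, map_mul]
    simp only [mul_assoc]
  calc PP ρ Y * ρ u = ρ u * PP ρ Y * ρ u⁻¹ * ρ u := by rw [h1]
    _ = ρ u * PP ρ Y := by rw [mul_assoc, rho_inv', mul_one]

theorem PP_sum [Fintype U] {ι : Type} (s : Finset ι) (f : ι → Module.End k M) :
    PP ρ (∑ i ∈ s, f i) = ∑ i ∈ s, PP ρ (f i) := by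
  unfold PP
  simp only [Finset.mul_sum, Finset.sum_mul]
  rw [Finset.sum_comm]

theorem PP_smul [Fintype U] (c : k) (Y : Module.End k M) : PP ρ (c • Y) = c • PP ρ Y := by
  unfold PP
  rw [Finset.smul_sum]
  refine Finset.sum_congr rfl fun w _ => ?_
  rw [mul_smul_comm, smul_mul_assoc]

theorem PP_of_mem [Fintype U] {y : U} (hy : y ∈ Uc ρ) : PP ρ (ρ y) = (Fintype.card U : k) • ρ y := by
  unfold PP
  have h : ∀ w : U, ρ w * ρ y * ρ w⁻¹ = ρ y := by
    intro w
    rw [← hy w, mul_assoc, rho_inv, mul_one]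
  simp only [h]
  rw [Finset.sum_const, Finset.card_univ, Nat.cast_smul_eq_nsmul]

namespace Dat

variable (D : Dat k p ρ γ σ)
include D

/-- a `σ`-invariant subgroup containing all `w⁻¹ σ w` is the whole group -/
theorem eq_top_of (hne : σ ≠ 1) {q j : ℕ} (hpq : Nat.Coprime p (q ^ j))
    (hU : ∀ u : U, u ^ q ^ j = 1) (C : Subgroup U) (h1 : ∀ u ∈ C, σ u ∈ C)
    (h2 : ∀ w, w⁻¹ * σ w ∈ C) : C = ⊤ := by
  by_contra hC
  have h3 := D.min C h1 hC
  apply hne
  ext u
  have h4 := h3 _ (h2 u)
  have h5 : ∀ n : ℕ, (σ ^ n) u = u * (u⁻¹ * σ u) ^ n := by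
    intro n
    induction n with
    | zero => simp
    | succ n ih =>
      rw [pow_succ', MulAut.mul_apply, ih, map_mul, map_pow, h4, pow_succ', ← mul_assoc,
        mul_inv_cancel_left]
  have h6 := h5 p
  rw [D.ord, MulAut.one_apply] at h6
  have h7 : (u⁻¹ * σ u) ^ p = 1 := by
    have : u * 1 = u * (u⁻¹ * σ u) ^ p := by rw [mul_one]; exact h6
    exact (mul_left_cancel this).symm
  have h8 := eq_one_of_coprime hpq h7 (hU _)
  rw [inv_mul_eq_one] at h8
  rw [MulAut.one_apply]
  exact h8.symm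

theorem sigma_ne_one : σ ≠ 1 := by
  rintro rfl
  obtain ⟨u, hu⟩ := D.ntr
  exact hu (D.rel u)

/-- the commutator subgroup is fixed by `σ` -/
theorem fix_comm [Finite U] {q j : ℕ} (hq : q.Prime) (hU : ∀ u : U, u ^ q ^ j = 1) :
    ∀ c ∈ commutator U, σ c = c := by
  have : Fact q.Prime := ⟨hq⟩
  have hne := D.sigma_ne_one
  have hnt : Nontrivial U := by
    by_contra hcon
    rw [not_nontrivial_iff_subsingleton] at hcon
    apply hne
    ext x
    exact Subsingleton.elim _ _
  have hpg : IsPGroup q U := fun x => ⟨j, hU x⟩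
  have hnil : Group.IsNilpotent U := hpg.isNilpotent
  have hsol : Group.IsSolvable U := inferInstance
  have hlt : commutator U < ⊤ := Group.IsSolvable.commutator_lt_top_of_nontrivial U
  have hchar : ∀ x ∈ commutator U, σ x ∈ commutator U := by
    intro x hx
    have h1 : (commutator U).map σ.toMonoidHom ≤ commutator U := by
      unfold commutator
      rw [Subgroup.map_commutator]
      exact Subgroup.commutator_mono le_top le_top
    exact h1 ⟨x, hx, rfl⟩
  exact D.min (commutator U) hchar hlt.ne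

/-- elements fixed by `σ` are central -/
theorem central_of_fixed [Finite U] {q j : ℕ} (hq : q.Prime) (hpq : Nat.Coprime p (q ^ j))
    (hU : ∀ u : U, u ^ q ^ j = 1) {u : U} (hu : σ u = u) (w : U) : u * w = w * u := by
  have hne := D.sigma_ne_one
  have hfix := D.fix_comm hq hU
  have hfixc : ∀ a b : U, σ (a * b * a⁻¹ * b⁻¹) = a * b * a⁻¹ * b⁻¹ := fun a b =>
    hfix _ (Subgroup.commutator_mem_commutator (Subgroup.mem_top a) (Subgroup.mem_top b))
  -- the commutator subgroup is central
  have hcen : ∀ c ∈ commutator U, ∀ w : U, c * w = w * c := by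
    have h1 : Subgroup.centralizer (commutator U : Set U) = ⊤ := by
      refine D.eq_top_of hne hpq hU _ ?_ ?_
      · intro y hy
        rw [Subgroup.mem_centralizer_iff] at hy ⊢
        intro c hc
        have h2 := congrArg σ (hy c hc)
        rw [map_mul, map_mul, hfix c hc] at h2
        exact h2
      · intro w
        rw [Subgroup.mem_centralizer_iff]
        intro c hc
        have h2 := hfixc w c
        rw [map_mul, map_mul, map_mul, map_inv, map_inv, hfix c hc] at h2
        -- `σ w c (σ w)⁻¹ = w c w⁻¹`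
        have h3 : σ w * c * (σ w)⁻¹ = w * c * w⁻¹ := mul_right_cancel h2
        have h4 : w⁻¹ * σ w * c = w⁻¹ * (σ w * c * (σ w)⁻¹) * σ w := by group
        rw [h4, h3]
        group
    intro c hc w
    have h2 : w ∈ Subgroup.centralizer (commutator U : Set U) := by
      rw [h1]; exact Subgroup.mem_top _
    exact (Subgroup.mem_centralizer_iff.1 h2) c hc
  -- the centralizer of `u`
  have h5 : Subgroup.centralizer ({u} : Set U) = ⊤ := by
    refine D.eq_top_of hne hpq hU _ ?_ ?_
    · intro y hy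
      rw [Subgroup.mem_centralizer_iff] at hy ⊢
      rintro _ rfl
      have h2 := congrArg σ (hy _ rfl)
      rw [map_mul, map_mul, hu] at h2
      exact h2
    · intro w
      rw [Subgroup.mem_centralizer_iff]
      intro u' hu'
      rw [Set.mem_singleton_iff] at hu'
      rw [hu']
      have h2 := hfixc w u
      rw [map_mul, map_mul, map_mul, map_inv, map_inv, hu] at h2
      have h3 : σ w * u * (σ w)⁻¹ = w * u * w⁻¹ := mul_right_cancel h2
      have h4 : w⁻¹ * σ w * u = w⁻¹ * (σ w * u * (σ w)⁻¹) * σ w := by group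
      rw [h4, h3]
      group
  have h6 : w ∈ Subgroup.centralizer ({u} : Set U) := by rw [h5]; exact Subgroup.mem_top _
  exact (Subgroup.mem_centralizer_iff.1 h6) u rfl

end Dat

end Pool.Agent.TH69.HH
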