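import Mathlib
import Pool.Agent.TH69.HHC

set_option autoImplicit false

/-!
# The theorem of Hall and Higman for groups of exponent `p q`, part D: the noncommutative case
-/

namespace Pool.Agent.TH69.HH

variable {k M U : Type} [Field k] [AddCommGroup M] [Module k M] [Group U]
variable {p : ℕ} {ρ : U →* Module.End k M} {γ : Module.End k M} {σ : MulAut U}

/-- hypotheses of the noncommutative case -/
structure NC (k : Type) {M U : Type} [Field k] [AddCommGroup M] [Module k M] [Group U] [Fintype U]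
    (p : ℕ) (ρ : U →* Module.End k M) (γ : Module.End k M) (σ : MulAut U) (q j : ℕ) : Prop
    extends Dat k p ρ γ σ where
  hp : p.Prime
  hq : q.Prime
  hpq : p ≠ q
  card : Fintype.card U = q ^ j
  ne : Uc ρ ≠ ⊤

namespace NC

variable [Fintype U] {q j : ℕ} (D : NC k p ρ γ σ q j)
include D

theorem cop : Nat.Coprime p (q ^ j) :=
  Nat.Coprime.pow_right _ ((Nat.coprime_primes D.hp D.hq).2 D.hpq)

theorem exp (u : U) : u ^ q ^ j = 1 := by
  rw [← D.card]
  exact pow_card_eq_one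

theorem fix_Uc {u : U} (hu : u ∈ Uc ρ) : σ u = u :=
  D.toDat.min (Uc ρ) (fun _ h => D.toDat.Uc_sigma D.hp.pos h) D.ne u hu

theorem mem_of_fixed {u : U} (hu : σ u = u) : u ∈ Uc ρ := by
  intro w
  rw [← map_mul, D.toDat.central_of_fixed D.hq D.cop D.exp hu w, map_mul]

theorem comm_mem (a b : U) : a * b * a⁻¹ * b⁻¹ ∈ Uc ρ :=
  D.mem_of_fixed (D.toDat.fix_comm D.hq D.exp _
    (Subgroup.commutator_mem_commutator (Subgroup.mem_top a) (Subgroup.mem_top b)))

theorem card_ne [CharP k p] : (Fintype.card U : k) ≠ 0 := by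
  rw [Ne, CharP.cast_eq_zero_iff k p, D.card]
  intro h
  have h1 := Nat.Coprime.eq_one_of_dvd D.cop h
  exact D.hp.ne_one h1

theorem card_Uc_ne [CharP k p] : (Nat.card (Uc ρ) : k) ≠ 0 := by
  rw [Ne, CharP.cast_eq_zero_iff k p]
  intro h
  have h1 : Nat.card (Uc ρ) ∣ Nat.card U := Subgroup.card_subgroup_dvd_card _
  rw [Nat.card_eq_fintype_card (α := U), D.card] at h1
  have h2 := Nat.Coprime.eq_one_of_dvd D.cop (h.trans h1)
  exact D.hp.ne_one h2

variable [IsAlgClosed k] [FiniteDimensional k M] [Nontrivial M]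

theorem scal {u : U} (hu : u ∈ Uc ρ) : ∃ c : k, ρ u = c • 1 := by
  refine D.toDat.schur (ρ u) hu ?_
  rw [D.rel, D.fix_Uc hu]

theorem noncentral {y : U} (hy : y ∉ Uc ρ) : ∃ (w : U) (ε : k), ε ≠ 1 ∧
    ρ (w * y * w⁻¹) = ε • ρ y := by
  rw [mem_Uc] at hy
  push Not at hy
  obtain ⟨w, hw⟩ := hy
  obtain ⟨ε, hε⟩ := D.scal (D.comm_mem w y)
  have h1 : ρ (w * y * w⁻¹) = ε • ρ y := by
    have e : w * y * w⁻¹ = (w * y * w⁻¹ * y⁻¹) * y := by group
    rw [e, map_mul, hε, smul_mul_assoc, one_mul]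
  refine ⟨w, ε, ?_, h1⟩
  rintro rfl
  rw [one_smul, map_mul, map_mul] at h1
  apply hw
  calc ρ y * ρ w = ρ w * ρ y * ρ w⁻¹ * ρ w := by rw [h1]
    _ = ρ w * ρ y := by rw [mul_assoc, rho_inv', mul_one]

theorem PP_zero {y : U} (hy : y ∉ Uc ρ) : PP ρ (ρ y) = 0 := by
  obtain ⟨w0, ε, hε, h1⟩ := D.noncentral hy
  have h2 : PP ρ (ρ y) = ε • PP ρ (ρ y) := by
    have h3 : PP ρ (ρ y) = PP ρ (ρ (w0 * y * w0⁻¹)) := by
      unfold PP
      refine (Fintype.sum_equiv (Equiv.mulRight w0) _ _ fun w => ?_).symm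
      change _ = ρ (w * w0) * ρ y * ρ (w * w0)⁻¹
      rw [mul_inv_rev, map_mul, map_mul, map_mul, map_mul]
      simp only [mul_assoc]
    calc PP ρ (ρ y) = PP ρ (ρ (w0 * y * w0⁻¹)) := h3
      _ = ε • PP ρ (ρ y) := by rw [h1, PP_smul]
  have h4 : (ε - 1) • PP ρ (ρ y) = 0 := by
    rw [sub_smul, one_smul, ← h2, sub_self]
  exact (smul_eq_zero.1 h4).resolve_left (sub_ne_zero.2 hε)

end NC

end Pool.Agent.TH69.HH
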