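import Mathlib
import Pool.Agent.TH69.HHD

set_option autoImplicit false

/-!
# The theorem of Hall and Higman for groups of exponent `p q`, part E
-/

namespace Pool.Agent.TH69.HH

variable {k M U : Type} [Field k] [AddCommGroup M] [Module k M] [Group U]
variable {p : ℕ} {ρ : U →* Module.End k M} {γ : Module.End k M} {σ : MulAut U}

/-- the enveloping algebra -/
def AA (ρ : U →* Module.End k M) : Subalgebra k (Module.End k M) :=
  Algebra.adjoin k (Set.range ρ)

theorem rho_mem (u : U) : ρ u ∈ AA ρ := Algebra.subset_adjoin ⟨u, rfl⟩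

theorem mem_AA [Fintype U] {X : Module.End k M} (hX : X ∈ AA ρ) :
    ∃ a : U → k, X = ∑ u, a u • ρ u := by
  have h1 : X ∈ Subalgebra.toSubmodule (AA ρ) := hX
  unfold AA at h1
  rw [Algebra.adjoin_eq_span] at h1
  have h2 : (Submonoid.closure (Set.range ρ) : Set (Module.End k M)) = Set.range ρ := by
    rw [← MonoidHom.coe_mrange, Submonoid.closure_eq]
  rw [h2, Submodule.mem_span_range_iff_exists_fun] at h1
  obtain ⟨a, ha⟩ := h1
  exact ⟨a, ha.symm⟩

/-- sums over free orbits vanish -/
theorem orbit_sum {Ω : Type} [Fintype Ω] {p : ℕ} (hp : p.Prime) (s : Equiv.Perm Ω)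
    (hs : s ^ p = 1) (hfree : ∀ x, s x ≠ x) (γ : Module.End k M)
    (hγ : ∑ i ∈ Finset.range p, γ ^ i = 0) (m : Ω → M) (hm : ∀ x, γ (m x) = m (s x)) :
    ∑ x, m x = 0 := by
  classical
  refine Finset.sum_cancels_of_partition_cancels (Equiv.Perm.SameCycle.setoid s) ?_
  intro x _
  have hmi : ∀ i : ℕ, (γ ^ i) (m x) = m ((s ^ i) x) := by
    intro i
    induction i with
    | zero => rfl
    | succ i ih =>
      rw [pow_succ', pow_succ']
      change γ ((γ ^ i) (m x)) = m (s ((s ^ i) x))
      rw [ih, hm]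
  have hinj : Set.InjOn (fun i => (s ^ i) x) (Finset.range p : Set ℕ) := by
    have key : ∀ i j : ℕ, i < j → j < p → (s ^ i) x ≠ (s ^ j) x := by
      intro i j hij hj h
      have h1 : (s ^ (j - i)) x = x := by
        have h2 : (s ^ i) ((s ^ (j - i)) x) = (s ^ i) x := by
          rw [← Equiv.Perm.mul_apply, ← pow_add, show i + (j - i) = j from by omega]
          exact h.symm
        exact (s ^ i).injective h2
      have hco : Nat.Coprime (j - i) p := by
        rw [Nat.coprime_comm, Nat.Prime.coprime_iff_not_dvd hp]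
        intro h3
        have := Nat.le_of_dvd (by omega) h3
        omega
      have h4 : (orderOf s).Coprime (j - i) :=
        Nat.Coprime.coprime_dvd_left (orderOf_dvd_of_pow_eq_one hs) hco.symm
      obtain ⟨m', hm'⟩ := exists_pow_eq_self_of_coprime h4.symm
      have h5 : ∀ n : ℕ, ((s ^ (j - i)) ^ n) x = x := by
        intro n
        induction n with
        | zero => rfl
        | succ n ih => rw [pow_succ, Equiv.Perm.mul_apply, h1, ih]
      have h6 := h5 m'
      rw [hm'] at h6
      exact hfree x h6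
    intro i hi j hj h
    rw [Finset.mem_coe, Finset.mem_range] at hi hj
    rcases lt_trichotomy i j with h1 | h1 | h1
    · exact absurd h (key i j h1 hj)
    · exact h1
    · exact absurd h.symm (key j i h1 hi)
  have hset : (Finset.univ.filter fun a => (Equiv.Perm.SameCycle.setoid s) a x) =
      (Finset.range p).image fun i => (s ^ i) x := by
    ext a
    rw [Finset.mem_filter, Finset.mem_image]
    constructor
    · rintro ⟨-, h⟩
      have h1 : s.SameCycle a x := h
      obtain ⟨i, hi⟩ := h1.symm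
      refine ⟨(i % p).toNat, ?_, ?_⟩
      · rw [Finset.mem_range]
        have h2 := Int.emod_lt_of_pos i (by exact_mod_cast hp.pos : (0 : ℤ) < p)
        have h3 := Int.emod_nonneg i (by exact_mod_cast hp.ne_zero : (p : ℤ) ≠ 0)
        omega
      · have h3 := Int.emod_nonneg i (by exact_mod_cast hp.ne_zero : (p : ℤ) ≠ 0)
        have h4 : s ^ (i % p).toNat = s ^ i := by
          rw [← zpow_natCast, Int.toNat_of_nonneg h3]
          conv_rhs => rw [← Int.emod_add_mul_ediv i p, zpow_add, zpow_mul, zpow_natCast, hs, one_zpow,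
            mul_one]
        change (s ^ (i % p).toNat) x = a
        rw [h4, hi]
    · rintro ⟨i, -, rfl⟩
      refine ⟨Finset.mem_univ _, ?_⟩
      change s.SameCycle ((s ^ i) x) x
      exact ⟨-i, by
        rw [zpow_neg, zpow_natCast, ← Equiv.Perm.mul_apply, inv_mul_cancel, Equiv.Perm.one_apply]⟩
  rw [hset, Finset.sum_image hinj]
  have h7 := congrArg (fun Z : Module.End k M => Z (m x)) hγ
  simp only [LinearMap.sum_apply, LinearMap.zero_apply, hmi] at h7
  exact h7

namespace NC

variable [Fintype U] {q j : ℕ} (D : NC k p ρ γ σ q j)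
include D

theorem conj_PP {γ' : Module.End k M} (h1 : γ' * γ = 1) (h2 : γ * γ' = 1) (Y : Module.End k M) :
    γ * PP ρ Y * γ' = PP ρ (γ * Y * γ') := by
  unfold PP
  rw [Finset.mul_sum, Finset.sum_mul]
  refine Fintype.sum_equiv σ.toEquiv _ _ fun w => ?_
  change _ = ρ (σ w) * (γ * Y * γ') * ρ (σ w)⁻¹
  have h3 : ρ w⁻¹ * γ' = γ' * ρ (σ w)⁻¹ := by
    have h4 := D.rel w⁻¹
    have h5 : σ w⁻¹ = (σ w)⁻¹ := map_inv σ w
    rw [h5] at h4
    calc ρ w⁻¹ * γ' = γ' * (γ * ρ w⁻¹) * γ' := by rw [← mul_assoc γ', h1, one_mul]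
      _ = γ' * ρ (σ w)⁻¹ * (γ * γ') := by rw [h4]; simp only [mul_assoc]
      _ = γ' * ρ (σ w)⁻¹ := by rw [h2, mul_one]
  calc γ * (ρ w * Y * ρ w⁻¹) * γ' = (γ * ρ w) * Y * (ρ w⁻¹ * γ') := by simp only [mul_assoc]
    _ = (ρ (σ w) * γ) * Y * (γ' * ρ (σ w)⁻¹) := by rw [D.rel, h3]
    _ = ρ (σ w) * (γ * Y * γ') * ρ (σ w)⁻¹ := by simp only [mul_assoc]

variable [IsAlgClosed k] [FiniteDimensional k M] [Nontrivial M] [CharP k p]

/-- `γ` lies in the enveloping algebra -/
theorem gamma_mem : γ ∈ AA ρ := by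
  classical
  obtain ⟨γ', h1, h2, h3⟩ := D.toDat.exists_inv D.hp.pos
  obtain ⟨τ, hτ⟩ := D.toDat.schur (PP ρ γ) (PP_comm γ) (by
    have h4 := D.conj_PP h1 h2 γ
    rw [mul_assoc γ γ γ', h2, mul_one] at h4
    calc PP ρ γ * γ = γ * PP ρ γ * γ' * γ := by rw [h4]
      _ = γ * PP ρ γ := by rw [mul_assoc, h1, mul_one])
  let S : Module.End k M := ∑ u : U, ρ (u * (σ u)⁻¹)
  have hS : PP ρ γ = S * γ := by
    unfold PP
    rw [Finset.sum_mul]
    refine Finset.sum_congr rfl fun u _ => ?_
    rw [mul_assoc, D.rel, ← mul_assoc, map_mul, map_inv]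
  have hSA : S ∈ AA ρ := Subalgebra.sum_mem _ fun u _ => rho_mem _
  have hτ0 : τ ≠ 0 := by
    rintro rfl
    rw [zero_smul, hS] at hτ
    have h4 : S = 0 := by
      apply D.toDat.cancel D.hp.pos
      rw [hτ, zero_mul]
    have h5 : PP ρ S = 0 := by
      rw [h4]
      unfold PP
      simp
    have h6 : PP ρ S = ((Fintype.card U : k) * (Nat.card (Uc ρ) : k)) • (1 : Module.End k M) := by
      have h7 : ∀ u : U, PP ρ (ρ (u * (σ u)⁻¹)) =
          if u ∈ Uc ρ then (Fintype.card U : k) • (1 : Module.End k M) else 0 := by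
        intro u
        split_ifs with hu
        · rw [D.fix_Uc hu, mul_inv_cancel, PP_of_mem (one_mem _), map_one]
        · apply D.PP_zero
          intro h8
          apply hu
          -- `σ u = z⁻¹ u`, `z` central and fixed
          have hz := D.fix_Uc h8
          have h9 : ∀ n : ℕ, (σ ^ n) u = ((u * (σ u)⁻¹)⁻¹) ^ n * u := by
            intro n
            induction n with
            | zero => simp
            | succ n ih =>
              rw [pow_succ', MulAut.mul_apply, ih, map_mul, map_pow, map_inv, hz, pow_succ]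
              have : σ u = (u * (σ u)⁻¹)⁻¹ * u := by group
              rw [mul_assoc]
              congr 1
          have h10 := h9 p
          rw [D.ord, MulAut.one_apply] at h10
          have h11 : ((u * (σ u)⁻¹)⁻¹) ^ p = 1 := by
            have : 1 * u = ((u * (σ u)⁻¹)⁻¹) ^ p * u := by rw [one_mul]; exact h10
            exact (mul_right_cancel this).symm
          have h12 := eq_one_of_coprime D.cop h11 (D.exp _)
          rw [inv_eq_one, mul_inv_eq_one] at h12
          exact D.mem_of_fixed h12.symm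
      change PP ρ (∑ u : U, ρ (u * (σ u)⁻¹)) = _
      rw [PP_sum]
      simp only [h7]
      rw [← Finset.sum_filter, Finset.sum_const, ← Nat.cast_smul_eq_nsmul k, smul_smul, mul_comm]
      congr 2
      rw [Nat.card_eq_fintype_card, Fintype.card_subtype]
    rw [h6] at h5
    have h7 := (smul_eq_zero.1 h5).resolve_right one_ne_zero
    rcases mul_eq_zero.1 h7 with h8 | h8
    · exact D.card_ne h8
    · exact D.card_Uc_ne h8
  have h4 : γ' = τ⁻¹ • S := by
    have h5 : S * γ = τ • 1 := by rw [← hS, hτ]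
    calc γ' = τ⁻¹ • (τ • 1 * γ') := by
          rw [smul_mul_assoc, one_mul, smul_smul, inv_mul_cancel₀ hτ0, one_smul]
      _ = τ⁻¹ • (S * γ * γ') := by rw [h5]
      _ = τ⁻¹ • S := by rw [mul_assoc, h2, mul_one]
  have h5 : γ' ∈ AA ρ := by
    rw [h4]
    exact Subalgebra.smul_mem _ hSA _
  have h6 : γ = γ' ^ (p - 1) := by
    have h7 : γ' ^ p = 1 := by
      rw [h3, ← pow_mul, mul_comm, pow_mul, D.toDat.gpow, one_pow]
    calc γ = γ * γ' ^ p := by rw [h7, mul_one]
      _ = γ * (γ' * γ' ^ (p - 1)) := by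
          rw [← pow_succ', Nat.sub_add_cancel D.hp.one_lt.le]
      _ = γ' ^ (p - 1) := by rw [← mul_assoc, h2, one_mul]
  rw [h6]
  exact Subalgebra.pow_mem _ h5 _

end NC

end Pool.Agent.TH69.HH
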