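import Mathlib
import Pool.Agent.TH69.HHE

set_option autoImplicit false

/-!
# The theorem of Hall and Higman for groups of exponent `p q`, part F
-/

namespace Pool.Agent.TH69.HH

variable {k M U : Type} [Field k] [AddCommGroup M] [Module k M] [Group U]
variable {p : ℕ} {ρ : U →* Module.End k M} {γ : Module.End k M} {σ : MulAut U}

theorem PP_mul_of_mem [Fintype U] (X : Module.End k M) {y : U} (hy : y ∈ Uc ρ) :
    PP ρ (X * ρ y) = PP ρ X * ρ y := by
  unfold PP
  rw [Finset.sum_mul]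
  refine Finset.sum_congr rfl fun w _ => ?_
  rw [← mul_assoc, mul_assoc _ (ρ y), hy, ← mul_assoc]

/-- the component of `X` at `y` -/
noncomputable def pi [Fintype U] (ρ : U →* Module.End k M) (X : Module.End k M) (y : U) :
    Module.End k M := (Fintype.card U : k)⁻¹ • (PP ρ (X * ρ y⁻¹) * ρ y)

namespace NC

variable [Fintype U] {q j : ℕ} (D : NC k p ρ γ σ q j)
include D

theorem gamma_pi {γ' : Module.End k M} (h1 : γ' * γ = 1) (h2 : γ * γ' = 1) (X : Module.End k M)
    (hX : X * γ = γ * X) (y : U) : γ * pi ρ X y * γ' = pi ρ X (σ y) := by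
  have e1 : γ * ρ y * γ' = ρ (σ y) := by rw [D.rel, mul_assoc, h2, mul_one]
  have e2 : γ * ρ y⁻¹ * γ' = ρ (σ y)⁻¹ := by
    rw [D.rel, mul_assoc, h2, mul_one]
    congr 1
    exact map_inv σ y
  unfold pi
  rw [mul_smul_comm, smul_mul_assoc]
  congr 1
  calc γ * (PP ρ (X * ρ y⁻¹) * ρ y) * γ' =
        γ * PP ρ (X * ρ y⁻¹) * (γ' * γ) * ρ y * γ' := by rw [h1]; simp only [mul_assoc, one_mul]
    _ = (γ * PP ρ (X * ρ y⁻¹) * γ') * (γ * ρ y * γ') := by simp only [mul_assoc]
    _ = PP ρ (X * ρ (σ y)⁻¹) * ρ (σ y) := by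
        rw [D.conj_PP h1 h2, e1]
        congr 2
        calc γ * (X * ρ y⁻¹) * γ' = (γ * X) * ρ y⁻¹ * γ' := by simp only [mul_assoc]
          _ = X * (γ * ρ y⁻¹ * γ') := by rw [← hX]; simp only [mul_assoc]
          _ = X * ρ (σ y)⁻¹ := by rw [e2]

variable [IsAlgClosed k] [FiniteDimensional k M] [Nontrivial M] [CharP k p]

theorem sum_pi {X : Module.End k M} (hX : X ∈ AA ρ) :
    ∑ y, pi ρ X y = (Nat.card (Uc ρ) : k) • X := by
  classical
  obtain ⟨a, rfl⟩ := mem_AA hX
  have h1 : ∀ u : U, ∑ y, (Fintype.card U : k)⁻¹ • (PP ρ (ρ u * ρ y⁻¹) * ρ y) =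
      (Nat.card (Uc ρ) : k) • ρ u := by
    intro u
    have h2 : ∑ y, (Fintype.card U : k)⁻¹ • (PP ρ (ρ u * ρ y⁻¹) * ρ y) =
        ∑ z, (Fintype.card U : k)⁻¹ • (PP ρ (ρ z) * ρ z⁻¹ * ρ u) := by
      refine Fintype.sum_equiv (Equiv.divLeft u) _ _ fun y => ?_
      change _ = (Fintype.card U : k)⁻¹ • (PP ρ (ρ (u / y)) * ρ (u / y)⁻¹ * ρ u)
      rw [div_eq_mul_inv, map_mul, mul_inv_rev, inv_inv, mul_assoc, ← map_mul ρ (y * u⁻¹),
        inv_mul_cancel_right]
    rw [h2]
    have h3 : ∀ z : U, (Fintype.card U : k)⁻¹ • (PP ρ (ρ z) * ρ z⁻¹ * ρ u) =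
        if z ∈ Uc ρ then ρ u else 0 := by
      intro z
      split_ifs with hz
      · rw [PP_of_mem hz, smul_mul_assoc, rho_inv, smul_mul_assoc, one_mul, smul_smul,
          inv_mul_cancel₀ D.card_ne, one_smul]
      · rw [D.PP_zero hz, zero_mul, zero_mul, smul_zero]
    simp only [h3]
    rw [← Finset.sum_filter, Finset.sum_const, ← Nat.cast_smul_eq_nsmul k]
    congr 2
    rw [Nat.card_eq_fintype_card, Fintype.card_subtype]
  have h4 : ∀ y, pi ρ (∑ u, a u • ρ u) y =
      ∑ u, a u • ((Fintype.card U : k)⁻¹ • (PP ρ (ρ u * ρ y⁻¹) * ρ y)) := by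
    intro y
    unfold pi
    rw [Finset.sum_mul, PP_sum, Finset.sum_mul, Finset.smul_sum]
    refine Finset.sum_congr rfl fun u _ => ?_
    rw [smul_mul_assoc, PP_smul, smul_mul_assoc, smul_comm]
  simp only [h4]
  rw [Finset.sum_comm, Finset.smul_sum]
  refine Finset.sum_congr rfl fun u _ => ?_
  rw [← Finset.smul_sum, h1, smul_comm]

/-- elements of the enveloping algebra commuting with `γ` act as scalars on the fixed vectors -/
theorem scalar_on_fixed {X : Module.End k M} (hX : X ∈ AA ρ) (hXγ : X * γ = γ * X) :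
    ∃ s : k, ∀ w : M, γ w = w → X w = s • w := by
  classical
  obtain ⟨γ', h1, h2, h3⟩ := D.toDat.exists_inv D.hp.pos
  obtain ⟨s0, hs0⟩ := D.toDat.schur (PP ρ X) (PP_comm X) (by
    have h4 := D.conj_PP h1 h2 X
    have h5 : γ * X * γ' = X := by rw [← hXγ, mul_assoc, h2, mul_one]
    rw [h5] at h4
    calc PP ρ X * γ = γ * PP ρ X * γ' * γ := by rw [h4]
      _ = γ * PP ρ X := by rw [mul_assoc, h1, mul_one])
  refine ⟨(Fintype.card U : k)⁻¹ * s0, fun w hw => ?_⟩
  have hw' : γ' w = w := by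
    have := congrArg (fun Z : Module.End k M => Z w) h1
    change γ' (γ w) = w at this
    rwa [hw] at this
  have h4 : (Nat.card (Uc ρ) : k) • X w = ∑ y, pi ρ X y w := by
    rw [← LinearMap.sum_apply, D.sum_pi hX]
    rfl
  -- the free part
  have h5 : ∑ y : {y : U // y ∉ Uc ρ}, pi ρ X y w = 0 := by
    have hiff : ∀ x : U, σ.toEquiv x ∉ Uc ρ ↔ x ∉ Uc ρ := by
      intro x
      rw [not_iff_not]
      constructor
      · intro h
        change σ x ∈ Uc ρ at h
        have h6 := D.fix_Uc h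
        have h7 : σ x = x := σ.injective h6
        rwa [h7] at h
      · intro h
        exact D.toDat.Uc_sigma D.hp.pos h
    let s : Equiv.Perm {y : U // y ∉ Uc ρ} := Equiv.Perm.subtypePerm σ.toEquiv hiff
    refine orbit_sum D.hp s ?_ ?_ γ D.nrm (fun y => pi ρ X y w) ?_
    · have hsk : ∀ (n : ℕ) (y : {y : U // y ∉ Uc ρ}), (((s ^ n) y : {y : U // y ∉ Uc ρ}) : U) =
          (σ ^ n) y := by
        intro n
        induction n with
        | zero => intro y; rfl
        | succ n ih =>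
          intro y
          rw [pow_succ', Equiv.Perm.mul_apply, pow_succ', MulAut.mul_apply, ← ih]
          rfl
      ext y
      rw [hsk, D.ord]
      rfl
    · intro y hy
      apply y.2
      apply D.mem_of_fixed
      exact congrArg Subtype.val hy
    · intro y
      have h6 := D.gamma_pi h1 h2 X hXγ y
      have h7 := congrArg (fun Z : Module.End k M => Z w) h6
      change γ (pi ρ X y (γ' w)) = pi ρ X (σ y) w at h7
      rw [hw'] at h7
      exact h7
  have h6 : ∀ y ∈ Uc ρ, pi ρ X y w = ((Fintype.card U : k)⁻¹ * s0) • w := by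
    intro y hy
    have h7 : pi ρ X y = (Fintype.card U : k)⁻¹ • PP ρ X := by
      unfold pi
      rw [PP_mul_of_mem X (inv_mem hy), mul_assoc, rho_inv', mul_one]
    rw [h7, hs0, smul_smul]
    rfl
  have h7 : ∑ y, pi ρ X y w = (Nat.card (Uc ρ) : k) • (((Fintype.card U : k)⁻¹ * s0) • w) := by
    have h8 := Fintype.sum_subtype_add_sum_subtype (fun y : U => y ∈ Uc ρ)
      (fun y => pi ρ X y w)
    rw [← h8]
    have h9 : ∑ y : {y : U // ¬ y ∈ Uc ρ}, pi ρ X y w = 0 := h5
    rw [h9, add_zero]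
    rw [Finset.sum_congr rfl (fun (y : {y : U // y ∈ Uc ρ}) _ => h6 y y.2), Finset.sum_const,
      Finset.card_univ, ← Nat.cast_smul_eq_nsmul k, Nat.card_eq_fintype_card]
  rw [h7] at h4
  exact smul_right_injective M D.card_Uc_ne h4

end NC

end Pool.Agent.TH69.HH
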