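import Mathlib
import Pool.Agent.TH69.HHF

set_option autoImplicit false

/-!
# The theorem of Hall and Higman for groups of exponent `p q`, part G
-/

namespace Pool.Agent.TH69.HH

variable {k M U : Type} [Field k] [AddCommGroup M] [Module k M] [Group U]
variable {p : ℕ} {ρ : U →* Module.End k M} {γ : Module.End k M} {σ : MulAut U}

/-- a nilpotent operator with one-dimensional kernel -/
theorem nil_dim [FiniteDimensional k M] (T : Module.End k M) (w0 : M)
    (h : ∀ w, T w = 0 → ∃ c : k, w = c • w0) : ∀ j : ℕ,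
    Module.finrank k (LinearMap.ker (T ^ j)) ≤ j := by
  intro j
  induction j with
  | zero =>
    rw [pow_zero]
    have : LinearMap.ker (1 : Module.End k M) = ⊥ := by
      rw [LinearMap.ker_eq_bot']
      intro m hm
      exact hm
    rw [this, finrank_bot]
  | succ j ih =>
    have hmap : ∀ x ∈ LinearMap.ker (T ^ (j + 1)), T x ∈ LinearMap.ker (T ^ j) := by
      intro x hx
      rw [LinearMap.mem_ker] at hx ⊢
      rw [pow_succ] at hx
      exact hx
    let f : LinearMap.ker (T ^ (j + 1)) →ₗ[k] LinearMap.ker (T ^ j) := T.restrict hmap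
    have h1 := LinearMap.finrank_range_add_finrank_ker f
    have h2 : Module.finrank k (LinearMap.range f) ≤ j :=
      le_trans (Submodule.finrank_le _) ih
    have h3 : Module.finrank k (LinearMap.ker f) ≤ 1 := by
      by_cases h0 : LinearMap.ker f = ⊥
      · rw [h0, finrank_bot]; exact Nat.zero_le _
      · obtain ⟨v, hv, hv0⟩ := (Submodule.ne_bot_iff _).1 h0
        have hTv : T (v : M) = 0 := congrArg Subtype.val (LinearMap.mem_ker.1 hv)
        obtain ⟨c, hc⟩ := h _ hTv
        have hc0 : c ≠ 0 := by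
          rintro rfl
          rw [zero_smul] at hc
          exact hv0 (Subtype.ext hc)
        refine finrank_le_one (⟨v, hv⟩ : LinearMap.ker f) ?_
        rintro ⟨w, hw⟩
        have hTw : T (w : M) = 0 := congrArg Subtype.val (LinearMap.mem_ker.1 hw)
        obtain ⟨d, hd⟩ := h _ hTw
        refine ⟨d * c⁻¹, Subtype.ext (Subtype.ext ?_)⟩
        change (d * c⁻¹) • (v : M) = w
        rw [hc, hd, smul_smul, mul_assoc, inv_mul_cancel₀ hc0, mul_one]
    omega

namespace NC

variable [Fintype U] {q j : ℕ} (D : NC k p ρ γ σ q j)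
variable [IsAlgClosed k] [FiniteDimensional k M] [Nontrivial M] [CharP k p]
include D

/-- the dimension is smaller than `p` -/
theorem dim_lt : Module.finrank k M < p := by
  classical
  have hp1 : Fact p.Prime := ⟨D.hp⟩
  let T : Module.End k M := γ - 1
  have hTA : T ∈ AA ρ := Subalgebra.sub_mem _ D.gamma_mem (Subalgebra.one_mem _)
  have hex : ∃ e, T ^ e = 0 := ⟨p - 1, by
    change (γ - 1) ^ (p - 1) = 0
    rw [sub_pow_eq_sum, D.nrm]⟩
  let e := Nat.find hex
  have he : T ^ e = 0 := Nat.find_spec hex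
  have hep : e ≤ p - 1 := Nat.find_min' hex (by
    change (γ - 1) ^ (p - 1) = 0
    rw [sub_pow_eq_sum, D.nrm])
  have he0 : e ≠ 0 := by
    intro h0
    rw [h0, pow_zero] at he
    exact one_ne_zero he
  obtain ⟨n, hn⟩ : ∃ n, e = n + 1 := ⟨e - 1, by omega⟩
  have hTn : T ^ n ≠ 0 := Nat.find_min hex (by omega)
  rw [hn] at he
  obtain ⟨m0, hm0⟩ : ∃ m0, (T ^ n) m0 ≠ 0 := by
    by_contra hcon
    push Not at hcon
    exact hTn (LinearMap.ext hcon)
  let w0 := (T ^ n) m0
  have hfix : ∀ w : M, T w = 0 ↔ γ w = w := by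
    intro w
    change γ w - w = 0 ↔ _
    exact sub_eq_zero
  have hTw0 : T w0 = 0 := by
    change (T * T ^ n) m0 = 0
    rw [← pow_succ', he]
    rfl
  have hw0 : γ w0 = w0 := (hfix _).1 hTw0
  -- the orbit of `w0`
  let W : Submodule k M := (Subalgebra.toSubmodule (AA ρ)).map (LinearMap.applyₗ w0)
  have hWmem : ∀ m, m ∈ W ↔ ∃ X ∈ AA ρ, X w0 = m := by
    intro m
    constructor
    · rintro ⟨X, hX, rfl⟩; exact ⟨X, hX, rfl⟩
    · rintro ⟨X, hX, rfl⟩; exact ⟨X, hX, rfl⟩
  have hW : W = ⊤ := by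
    refine (D.irr W ?_ ?_).resolve_left ?_
    · intro u m hm
      rw [hWmem] at hm ⊢
      obtain ⟨X, hX, rfl⟩ := hm
      exact ⟨ρ u * X, Subalgebra.mul_mem _ (rho_mem u) hX, rfl⟩
    · intro m hm
      rw [hWmem] at hm ⊢
      obtain ⟨X, hX, rfl⟩ := hm
      exact ⟨γ * X, Subalgebra.mul_mem _ D.gamma_mem hX, rfl⟩
    · intro h
      have h1 : w0 ∈ W := (hWmem _).2 ⟨1, Subalgebra.one_mem _, rfl⟩
      rw [h, Submodule.mem_bot] at h1
      exact hm0 h1
  have hall : ∀ m, ∃ X ∈ AA ρ, X w0 = m := fun m => (hWmem m).1 (by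
    rw [hW]; exact Submodule.mem_top)
  -- the commuting elements
  have hs : ∀ Y ∈ AA ρ, ∃ s : k, ∀ w : M, γ w = w → (T ^ n) (Y w) = s • w := by
    intro Y hY
    let X : Module.End k M := ∑ i ∈ Finset.range (n + 1), T ^ i * Y * T ^ (n - i)
    have hXA : X ∈ AA ρ := Subalgebra.sum_mem _ fun i _ =>
      Subalgebra.mul_mem _ (Subalgebra.mul_mem _ (Subalgebra.pow_mem _ hTA _) hY)
        (Subalgebra.pow_mem _ hTA _)
    have hXT : X * T = T * X := by
      have e1 : T * X = ∑ i ∈ Finset.range n, T ^ (i + 1) * Y * T ^ (n - i) := by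
        change T * ∑ i ∈ Finset.range (n + 1), T ^ i * Y * T ^ (n - i) = _
        rw [Finset.mul_sum, Finset.sum_range_succ]
        have e2 : T * (T ^ n * Y * T ^ (n - n)) = 0 := by
          rw [← mul_assoc, ← mul_assoc, ← pow_succ', he, zero_mul, zero_mul]
        rw [e2, add_zero]
        refine Finset.sum_congr rfl fun i _ => ?_
        rw [← mul_assoc, ← mul_assoc, ← pow_succ']
      have e3 : X * T = ∑ i ∈ Finset.range n, T ^ (i + 1) * Y * T ^ (n - i) := by
        change (∑ i ∈ Finset.range (n + 1), T ^ i * Y * T ^ (n - i)) * T = _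
        rw [Finset.sum_mul, Finset.sum_range_succ']
        have e4 : T ^ 0 * Y * T ^ (n - 0) * T = 0 := by
          rw [mul_assoc, ← pow_succ, Nat.sub_zero, he, mul_zero]
        rw [e4, add_zero]
        refine Finset.sum_congr rfl fun i hi => ?_
        rw [Finset.mem_range] at hi
        rw [mul_assoc, ← pow_succ]
        congr 2
        omega
      rw [e1, e3]
    have hXγ : X * γ = γ * X := by
      have e5 : γ = T + 1 := by simp [T]
      rw [e5, mul_add, add_mul, hXT, mul_one, one_mul]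
    obtain ⟨s, hs⟩ := D.scalar_on_fixed hXA hXγ
    refine ⟨s, fun w hw => ?_⟩
    have hTw : T w = 0 := (hfix w).2 hw
    rw [← hs w hw]
    change _ = (∑ i ∈ Finset.range (n + 1), T ^ i * Y * T ^ (n - i)) w
    rw [LinearMap.sum_apply, Finset.sum_eq_single n]
    · rw [Nat.sub_self, pow_zero, mul_one]
      rfl
    · intro i hi hin
      rw [Finset.mem_range] at hi
      obtain ⟨c, hc⟩ : ∃ c, n - i = c + 1 := ⟨n - i - 1, by omega⟩
      rw [hc, pow_succ]
      change (T ^ i * Y) ((T ^ c) (T w)) = 0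
      rw [hTw, map_zero, map_zero]
    · intro h
      exact absurd (Finset.mem_range.2 (Nat.lt_succ_self n)) h
  -- the kernel is one-dimensional
  have hker : ∀ w, T w = 0 → ∃ c : k, w = c • w0 := by
    intro w hw
    obtain ⟨Y, hY, hYw⟩ := hall m0
    obtain ⟨s, hs1⟩ := hs Y hY
    have hs0 : s ≠ 0 := by
      rintro rfl
      have h1 := hs1 w0 hw0
      rw [zero_smul, hYw] at h1
      exact hm0 h1
    obtain ⟨X, hX, hXw⟩ := hall w
    obtain ⟨t, ht⟩ := hs (Y * X) (Subalgebra.mul_mem _ hY hX)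
    refine ⟨s⁻¹ * t, ?_⟩
    have h2 := hs1 w ((hfix w).1 hw)
    have h3 := ht w0 hw0
    change (T ^ n) (Y (X w0)) = _ at h3
    rw [hXw, h2] at h3
    rw [mul_smul, ← h3, smul_smul, inv_mul_cancel₀ hs0, one_smul]
  have h1 := nil_dim T w0 hker (n + 1)
  rw [he] at h1
  have h2 : LinearMap.ker (0 : Module.End k M) = ⊤ := LinearMap.ker_zero
  rw [h2, finrank_top] at h1
  have := D.hp.one_lt
  omega

/-- the enveloping algebra is everything -/
theorem AA_top : AA ρ = ⊤ := by
  classical
  have hN0 : (Module.finrank k M : k) ≠ 0 := by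
    rw [Ne, CharP.cast_eq_zero_iff k p]
    intro h
    have h1 : 0 < Module.finrank k M := Module.finrank_pos
    exact absurd (Nat.le_of_dvd h1 h) (not_le.2 D.dim_lt)
  -- sums of conjugates are scalars
  have hPP : ∀ R : Module.End k M, ∃ s : k, PP ρ R = s • 1 ∧
      (Module.finrank k M : k) * s = (Fintype.card U : k) * LinearMap.trace k M R := by
    intro R
    have hcomm : ∀ Y ∈ AA ρ, PP ρ R * Y = Y * PP ρ R := by
      intro Y hY
      obtain ⟨a, rfl⟩ := mem_AA hY
      rw [Finset.mul_sum, Finset.sum_mul]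
      refine Finset.sum_congr rfl fun u _ => ?_
      rw [mul_smul_comm, smul_mul_assoc, PP_comm]
    obtain ⟨s, hs⟩ := D.toDat.schur (PP ρ R) (PP_comm R) (hcomm γ D.gamma_mem)
    refine ⟨s, hs, ?_⟩
    have h1 : LinearMap.trace k M (PP ρ R) = (Fintype.card U : k) * LinearMap.trace k M R := by
      unfold PP
      rw [map_sum]
      have h2 : ∀ w : U, LinearMap.trace k M (ρ w * R * ρ w⁻¹) = LinearMap.trace k M R := by
        intro w
        rw [LinearMap.trace_mul_comm, ← mul_assoc, rho_inv', one_mul]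
      simp only [h2]
      rw [Finset.sum_const, Finset.card_univ, nsmul_eq_mul]
    rw [← h1, hs, map_smul, LinearMap.trace_one, smul_eq_mul, mul_comm]
  have hrank : ∀ (l : M →ₗ[k] k) (m : M), l.smulRight m ∈ AA ρ := by
    intro l m
    have h3 : l.smulRight m = ((Module.finrank k M : k) * (Fintype.card U : k)⁻¹) •
        ∑ u : U, l (ρ u⁻¹ m) • ρ u := by
      ext m'
      obtain ⟨s, hs1, hs2⟩ := hPP (l.smulRight m')
      have h4 : (∑ u : U, l (ρ u⁻¹ m) • ρ u) m' = PP ρ (l.smulRight m') m := by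
        unfold PP
        rw [LinearMap.sum_apply, LinearMap.sum_apply]
        refine Finset.sum_congr rfl fun u _ => ?_
        change l (ρ u⁻¹ m) • ρ u m' = ρ u (l (ρ u⁻¹ m) • m')
        rw [map_smul]
      rw [LinearMap.smul_apply, h4, hs1]
      change l m' • m = _ • (s • m)
      rw [smul_smul]
      congr 1
      rw [LinearMap.trace_smulRight] at hs2
      have h5 := D.card_ne
      calc l m' = (Fintype.card U : k)⁻¹ * ((Fintype.card U : k) * l m') := by
            rw [← mul_assoc, inv_mul_cancel₀ h5, one_mul]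
        _ = (Fintype.card U : k)⁻¹ * ((Module.finrank k M : k) * s) := by rw [hs2]
        _ = _ := by ring
    rw [h3]
    exact Subalgebra.smul_mem _ (Subalgebra.sum_mem _ fun u _ =>
      Subalgebra.smul_mem _ (rho_mem u) _) _
  rw [eq_top_iff]
  intro f _
  let b := Module.finBasis k M
  have h6 : f = ∑ i, (b.coord i).smulRight (f (b i)) := by
    ext m
    rw [LinearMap.sum_apply]
    conv_lhs => rw [← b.sum_repr m, map_sum]
    refine Finset.sum_congr rfl fun i _ => ?_
    rw [map_smul]
    rfl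
  rw [h6]
  exact Subalgebra.sum_mem _ fun i _ => hrank _ _

end NC

end Pool.Agent.TH69.HH
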