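import Mathlib
import Pool.Agent.TH69.HHG

set_option autoImplicit false

/-!
# The theorem of Hall and Higman for groups of exponent `p q`, part H: counting
-/

namespace Pool.Agent.TH69.HH

variable {k M U : Type} [Field k] [AddCommGroup M] [Module k M] [Group U]
variable {p : ℕ} {ρ : U →* Module.End k M} {γ : Module.End k M} {σ : MulAut U}

namespace NC

variable [Fintype U] {q j : ℕ} (D : NC k p ρ γ σ q j)
variable [IsAlgClosed k] [FiniteDimensional k M] [Nontrivial M] [CharP k p]
include D

theorem index_eq : Nat.card (U ⧸ Uc ρ) = Module.finrank k M * Module.finrank k M := by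
  classical
  have := Fintype.ofFinite (U ⧸ Uc ρ)
  let r : U ⧸ Uc ρ → U := Quotient.out
  have hr : ∀ x : U ⧸ Uc ρ, (QuotientGroup.mk (r x) : U ⧸ Uc ρ) = x := fun x => Quotient.out_eq x
  have hli : LinearIndependent k (fun x : U ⧸ Uc ρ => ρ (r x)) := by
    rw [Fintype.linearIndependent_iff]
    intro a ha x0
    have h1 : ∑ x, a x • PP ρ (ρ ((r x0)⁻¹ * r x)) = 0 := by
      have h2 : PP ρ (ρ (r x0)⁻¹ * ∑ x, a x • ρ (r x)) = 0 := by
        rw [ha, mul_zero]
        unfold PP
        simp
      rw [Finset.mul_sum, PP_sum] at h2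
      rw [← h2]
      refine Finset.sum_congr rfl fun x _ => ?_
      rw [mul_smul_comm, PP_smul, map_mul]
    rw [Finset.sum_eq_single x0] at h1
    · rw [inv_mul_cancel, PP_of_mem (one_mem _), map_one, smul_smul] at h1
      have h3 := (smul_eq_zero.1 h1).resolve_right one_ne_zero
      exact (mul_eq_zero.1 h3).resolve_right D.card_ne
    · intro x _ hx
      rw [D.PP_zero, smul_zero]
      intro h
      apply hx
      rw [← QuotientGroup.eq, hr, hr] at h
      exact h.symm
    · intro h
      exact absurd (Finset.mem_univ x0) h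
  have hspan : Submodule.span k (Set.range fun x : U ⧸ Uc ρ => ρ (r x)) = ⊤ := by
    rw [eq_top_iff]
    intro X _
    have hX : X ∈ AA ρ := by rw [D.AA_top]; exact Algebra.mem_top
    obtain ⟨a, rfl⟩ := mem_AA hX
    refine Submodule.sum_mem _ fun u _ => Submodule.smul_mem _ _ ?_
    have h1 : (r (QuotientGroup.mk u))⁻¹ * u ∈ Uc ρ := by
      rw [← QuotientGroup.eq, hr]
    obtain ⟨c, hc⟩ := D.scal h1
    have h2 : ρ u = c • ρ (r (QuotientGroup.mk u)) := by
      have e : u = r (QuotientGroup.mk u) * ((r (QuotientGroup.mk u))⁻¹ * u) := by group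
      calc ρ u = ρ (r (QuotientGroup.mk u) * ((r (QuotientGroup.mk u))⁻¹ * u)) := by rw [← e]
        _ = c • ρ (r (QuotientGroup.mk u)) := by
            rw [map_mul, hc, mul_smul_comm, mul_one]
    rw [h2]
    exact Submodule.smul_mem _ _ (Submodule.subset_span ⟨_, rfl⟩)
  have h3 := finrank_span_eq_card hli
  rw [hspan, finrank_top] at h3
  rw [Nat.card_eq_fintype_card, ← h3]
  exact Module.finrank_linearMap k k M M

theorem count (hq2 : q ≠ 2) : False := by
  classical
  have hp1 : Fact p.Prime := ⟨D.hp⟩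
  have h1 := D.index_eq
  have h2 := D.dim_lt
  have h0 : 0 < Module.finrank k M := Module.finrank_pos
  have h3 : Nat.card U = Nat.card (U ⧸ Uc ρ) * Nat.card (Uc ρ) :=
    Subgroup.card_eq_card_quotient_mul_card_subgroup _
  -- fixed points
  let f : Function.End U := fun u => σ u
  have hfk : ∀ (n : ℕ) (u : U), (f ^ n) u = (σ ^ n) u := by
    intro n
    induction n with
    | zero => intro u; rfl
    | succ n ih =>
      intro u
      rw [pow_succ', pow_succ', MulAut.mul_apply, ← ih]
      rfl
  have hfp : f ^ p ^ 1 = 1 := by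
    funext u
    rw [pow_one, hfk, D.ord]
    rfl
  have h4 := Equiv.Perm.card_fixedPoints_modEq hfp
  have h5 : Fintype.card (Function.fixedPoints f) = Nat.card (Uc ρ) := by
    rw [Nat.card_eq_fintype_card]
    refine Fintype.card_congr (Equiv.subtypeEquivRight fun u => ?_)
    constructor
    · intro h
      exact D.mem_of_fixed h
    · intro h
      exact D.fix_Uc h
  rw [h5, ← Nat.card_eq_fintype_card, h3, h1] at h4
  set N := Module.finrank k M with hN
  have h6 : N * N ≡ 1 [MOD p] := by
    have hco : Nat.Coprime p (Nat.card (Uc ρ)) := by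
      have hd : Nat.card (Uc ρ) ∣ Nat.card U := Subgroup.card_subgroup_dvd_card _
      rw [Nat.card_eq_fintype_card (α := U), D.card] at hd
      exact Nat.Coprime.coprime_dvd_right hd D.cop
    have h7 : N * N * Nat.card (Uc ρ) ≡ 1 * Nat.card (Uc ρ) [MOD p] := by rwa [one_mul]
    exact Nat.ModEq.cancel_right_of_coprime hco h7
  have h7 : p ∣ (N - 1) * (N + 1) := by
    have h8 : 1 ≤ N * N := Nat.mul_pos h0 h0
    have h9 := (Nat.modEq_iff_dvd' h8).1 h6.symm
    have h10 : (N - 1) * (N + 1) = N * N - 1 := by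
      obtain ⟨m, hm⟩ : ∃ m, N = m + 1 := ⟨N - 1, by omega⟩
      rw [hm]
      have : (m + 1) * (m + 1) = m * (m + 1 + 1) + 1 := by ring
      rw [this, Nat.add_sub_cancel, Nat.add_sub_cancel]
    rwa [h10]
  -- `Uc` is proper
  have h8 : N ≠ 1 := by
    intro hN1
    rw [hN1] at h1
    apply D.ne
    rw [one_mul] at h1
    exact Subgroup.index_eq_one.1 h1
  rcases (Nat.Prime.dvd_mul D.hp).1 h7 with h9 | h9
  · have := Nat.le_of_dvd (by omega) h9
    omega
  · have h10 := Nat.le_of_dvd (by omega) h9
    have h11 : N + 1 = p := by omega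
    -- parity
    rcases D.hp.eq_two_or_odd' with h12 | h12
    · omega
    · have h13 : 2 ∣ N := by
        obtain ⟨m, hm⟩ := h12
        exact ⟨m, by omega⟩
      have h14 : 2 ∣ Nat.card U := by
        rw [h3, h1]
        exact Dvd.dvd.mul_right (Dvd.dvd.mul_right h13 _) _
      rw [Nat.card_eq_fintype_card, D.card] at h14
      have h15 := Nat.prime_two.dvd_of_dvd_pow h14
      exact hq2 ((Nat.prime_dvd_prime_iff_eq Nat.prime_two D.hq).1 h15).symm

end NC

/-- the irreducible case of the theorem -/
theorem Dat.false (D : Dat k p ρ γ σ) [Fintype U] [IsAlgClosed k] [FiniteDimensional k M]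
    [Nontrivial M] [CharP k p] (hp : p.Prime) {q j : ℕ} (hq : q.Prime) (hpq : p ≠ q)
    (hcard : Fintype.card U = q ^ j) (h2 : q = 2 → ∀ u w : U, u * w = w * u) : False := by
  by_cases hUc : Uc ρ = ⊤
  · refine D.not_comm hp fun u w => ?_
    have h : u ∈ Uc ρ := by rw [hUc]; exact Subgroup.mem_top u
    exact h w
  · by_cases hq2 : q = 2
    · refine D.not_comm hp fun u w => ?_
      rw [← map_mul, h2 hq2 u w, map_mul]
    · exact (NC.mk D hp hq hpq hcard hUc : NC k p ρ γ σ q j).count hq2

end Pool.Agent.TH69.HH
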