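import Mathlib
import Pool.Agent.TH69.HHH

set_option autoImplicit false

/-!
# The theorem of Hall and Higman for groups of exponent `p q`, part I: reduction to the
# irreducible case
-/

namespace Pool.Agent.TH69.HH

variable {k M U : Type} [Field k] [AddCommGroup M] [Module k M] [Group U]
variable {p : ℕ}

theorem eq_top_of' {σ : MulAut U}
    (min : ∀ U' : Subgroup U, (∀ u ∈ U', σ u ∈ U') → U' ≠ ⊤ → ∀ u ∈ U', σ u = u)
    (ord : σ ^ p = 1) (hne : σ ≠ 1) {q j : ℕ} (hpq : Nat.Coprime p (q ^ j))
    (hU : ∀ u : U, u ^ q ^ j = 1) (C : Subgroup U) (h1 : ∀ u ∈ C, σ u ∈ C)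
    (h2 : ∀ w, w⁻¹ * σ w ∈ C) : C = ⊤ := by
  by_contra hC
  have h3 := min C h1 hC
  apply hne
  ext u
  have h4 := h3 _ (h2 u)
  have h5 : ∀ n : ℕ, (σ ^ n) u = u * (u⁻¹ * σ u) ^ n := by
    intro n
    induction n with
    | zero => simp
    | succ n ih =>
      rw [pow_succ', MulAut.mul_apply, ih, map_mul, map_pow, h4, pow_succ', ← mul_assoc,
        mul_inv_cancel_left]
  have h6 := h5 p
  rw [ord, MulAut.one_apply] at h6
  have h7 : (u⁻¹ * σ u) ^ p = 1 := by
    have : u * 1 = u * (u⁻¹ * σ u) ^ p := by rw [mul_one]; exact h6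
    exact (mul_left_cancel this).symm
  have h8 := eq_one_of_coprime hpq h7 (hU _)
  rw [inv_mul_eq_one] at h8
  rw [MulAut.one_apply]
  exact h8.symm

/-- the general case -/
theorem no_action [Fintype U] [IsAlgClosed k] [FiniteDimensional k M] [CharP k p] (hp : p.Prime)
    {q j : ℕ} (hq : q.Prime) (hpq : p ≠ q) (hcard : Fintype.card U = q ^ j)
    (h2 : q = 2 → ∀ u w : U, u * w = w * u) (ρ : U →* Module.End k M) (γ : Module.End k M)
    (σ : MulAut U) (rel : ∀ u, γ * ρ u = ρ (σ u) * γ) (nrm : ∑ i ∈ Finset.range p, γ ^ i = 0)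
    (ord : σ ^ p = 1)
    (min : ∀ U' : Subgroup U, (∀ u ∈ U', σ u ∈ U') → U' ≠ ⊤ → ∀ u ∈ U', σ u = u)
    (ntr : ∃ u, γ * ρ u ≠ ρ u * γ) : False := by
  classical
  have cop : Nat.Coprime p (q ^ j) :=
    Nat.Coprime.pow_right _ ((Nat.coprime_primes hp hq).2 hpq)
  have hexp : ∀ u : U, u ^ q ^ j = 1 := fun u => by rw [← hcard]; exact pow_card_eq_one
  have hcne : (Fintype.card U : k) ≠ 0 := by
    rw [Ne, CharP.cast_eq_zero_iff k p, hcard]
    intro h
    exact hp.ne_one (Nat.Coprime.eq_one_of_dvd cop h)
  have hσ : σ ≠ 1 := by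
    rintro rfl
    obtain ⟨u, hu⟩ := ntr
    exact hu (rel u)
  have hγp : γ ^ p = 1 := by
    have h := geom_sum_mul γ p
    rw [nrm, zero_mul] at h
    exact (sub_eq_zero.1 h.symm)
  have hγinv : ∀ m, γ ((γ ^ (p - 1)) m) = m := by
    intro m
    change (γ * γ ^ (p - 1)) m = m
    rw [← pow_succ', Nat.sub_add_cancel hp.one_lt.le, hγp]
    rfl
  let P : Submodule k M → Prop := fun W => (∀ u, ∀ m ∈ W, ρ u m ∈ W) ∧ (∀ m ∈ W, γ m ∈ W) ∧
    ∃ u, ∃ m ∈ W, γ (ρ u m) ≠ ρ u (γ m)
  have hPtop : P ⊤ := by
    refine ⟨fun _ _ _ => Submodule.mem_top, fun _ _ => Submodule.mem_top, ?_⟩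
    obtain ⟨u, hu⟩ := ntr
    by_contra hcon
    push Not at hcon
    exact hu (LinearMap.ext fun m => hcon u m Submodule.mem_top)
  have hex : ∃ d, ∃ W, P W ∧ Module.finrank k W = d := ⟨_, ⊤, hPtop, rfl⟩
  obtain ⟨W, hPW, hWd⟩ := Nat.find_spec hex
  have hmin : ∀ W' : Submodule k M, W' ≤ W → P W' → W' = W := by
    intro W' hle hP'
    by_contra hne
    have h1 : Module.finrank k W' < Module.finrank k W :=
      Submodule.finrank_lt_finrank_of_lt (lt_of_le_of_ne hle hne)
    rw [hWd] at h1
    exact Nat.find_min hex h1 ⟨W', hP', rfl⟩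
  obtain ⟨hW1, hW2, u0, m0, hm0, hne0⟩ := hPW
  -- the restricted data
  let ρ' : U →* Module.End k W :=
    { toFun := fun u => (ρ u).restrict (hW1 u)
      map_one' := by
        ext m
        change (ρ 1) (m : M) = m
        rw [map_one]
        rfl
      map_mul' := by
        intro a b
        ext m
        change (ρ (a * b)) (m : M) = ρ a (ρ b m)
        rw [map_mul]
        rfl }
  let γ' : Module.End k W := γ.restrict hW2
  have hWn : Nontrivial W := by
    rw [Submodule.nontrivial_iff_ne_bot]
    rintro rfl
    rw [Submodule.mem_bot] at hm0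
    rw [hm0] at hne0
    simp at hne0
  have D : Dat k p ρ' γ' σ := by
    refine ⟨?_, ?_, ord, ?_, ?_, min⟩
    · intro u
      ext m
      exact congrArg (fun Z : Module.End k M => Z (m : M)) (rel u)
    · have hk : ∀ (i : ℕ) (m : W), (((γ' ^ i) m : W) : M) = (γ ^ i) m := by
        intro i
        induction i with
        | zero => intro m; rfl
        | succ i ih =>
          intro m
          rw [pow_succ', pow_succ']
          change γ (((γ' ^ i) m : W) : M) = γ ((γ ^ i) m)
          rw [ih]
      ext m
      rw [LinearMap.sum_apply, Submodule.coe_sum]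
      simp only [hk]
      have h3 := congrArg (fun Z : Module.End k M => Z (m : M)) nrm
      rw [LinearMap.sum_apply] at h3
      exact h3
    · intro W' hW'1 hW'2
      let W1 : Submodule k M := W'.map W.subtype
      have hW1le : W1 ≤ W := Submodule.map_subtype_le _ _
      have hW1mem : ∀ m : W, (m : M) ∈ W1 ↔ m ∈ W' := by
        intro m
        constructor
        · rintro ⟨m', hm', e⟩
          have : m' = m := Subtype.ext e
          rw [← this]; exact hm'
        · intro h
          exact ⟨m, h, rfl⟩
      have hW1ρ : ∀ u, ∀ m ∈ W1, ρ u m ∈ W1 := by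
        rintro u _ ⟨m, hm, rfl⟩
        exact ⟨ρ' u m, hW'1 u m hm, rfl⟩
      have hW1γ : ∀ m ∈ W1, γ m ∈ W1 := by
        rintro _ ⟨m, hm, rfl⟩
        exact ⟨γ' m, hW'2 m hm, rfl⟩
      by_cases hP1 : ∃ u, ∃ m ∈ W1, γ (ρ u m) ≠ ρ u (γ m)
      · right
        have h3 := hmin W1 hW1le ⟨hW1ρ, hW1γ, hP1⟩
        rw [eq_top_iff]
        intro m _
        rw [← hW1mem, h3]
        exact m.2
      · left
        push Not at hP1
        have hγk : ∀ i : ℕ, ∀ m ∈ W1, (γ ^ i) m ∈ W1 := by
          intro i
          induction i with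
          | zero => intro m hm; exact hm
          | succ i ih =>
            intro m hm
            rw [pow_succ']
            exact hW1γ _ (ih m hm)
        -- `U` acts trivially on `W1`
        let K : Subgroup U :=
          { carrier := {u | ∀ m ∈ W1, ρ u m = m}
            one_mem' := fun m _ => by rw [map_one]; rfl
            mul_mem' := by
              intro a b ha hb m hm
              rw [map_mul]
              change ρ a (ρ b m) = m
              rw [hb m hm, ha m hm]
            inv_mem' := by
              intro a ha m hm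
              have h4 : ρ a⁻¹ (ρ a m) = m := by
                change (ρ a⁻¹ * ρ a) m = m
                rw [rho_inv']
                rfl
              rw [ha m hm] at h4
              exact h4 }
        have hK : K = ⊤ := by
          refine eq_top_of' min ord hσ cop hexp K ?_ ?_
          · intro u hu m hm
            have h4 := congrArg (fun Z : Module.End k M => Z ((γ ^ (p - 1)) m)) (rel u)
            change γ (ρ u ((γ ^ (p - 1)) m)) = ρ (σ u) (γ ((γ ^ (p - 1)) m)) at h4
            rw [hγinv, hu _ (hγk _ m hm), hγinv] at h4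
            exact h4.symm
          · intro w m hm
            have h4 := congrArg (fun Z : Module.End k M => Z ((γ ^ (p - 1)) m)) (rel w)
            change γ (ρ w ((γ ^ (p - 1)) m)) = ρ (σ w) (γ ((γ ^ (p - 1)) m)) at h4
            rw [hP1 w _ (hγk _ m hm), hγinv] at h4
            rw [map_mul]
            change ρ w⁻¹ (ρ (σ w) m) = m
            rw [← h4]
            change (ρ w⁻¹ * ρ w) m = m
            rw [rho_inv']
            rfl
        -- the complement
        let E : Module.End k M := ∑ u : U, ρ u
        have hEρ : ∀ u, ρ u * E = E := by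
          intro u
          change ρ u * ∑ w : U, ρ w = ∑ w : U, ρ w
          rw [Finset.mul_sum]
          refine Fintype.sum_equiv (Equiv.mulLeft u) _ _ fun w => ?_
          rw [← map_mul]
          rfl
        have hρE : ∀ u, E * ρ u = E := by
          intro u
          change (∑ w : U, ρ w) * ρ u = ∑ w : U, ρ w
          rw [Finset.sum_mul]
          refine Fintype.sum_equiv (Equiv.mulRight u) _ _ fun w => ?_
          rw [← map_mul]
          rfl
        have hγE : γ * E = E * γ := by
          change γ * ∑ w : U, ρ w = (∑ w : U, ρ w) * γ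
          rw [Finset.mul_sum, Finset.sum_mul]
          refine Fintype.sum_equiv σ.toEquiv _ _ fun w => ?_
          exact rel w
        let W2 : Submodule k M := W ⊓ LinearMap.ker E
        have hEW : ∀ m ∈ W, E m ∈ W := by
          intro m hm
          change (∑ u : U, ρ u) m ∈ W
          rw [LinearMap.sum_apply]
          exact Submodule.sum_mem _ fun u _ => hW1 u m hm
        have hP2 : P W2 := by
          refine ⟨?_, ?_, u0, m0 - (Fintype.card U : k)⁻¹ • E m0, ?_, ?_⟩
          · rintro u m ⟨hm1, hm2⟩
            refine ⟨hW1 u m hm1, ?_⟩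
            change (E * ρ u) m = 0
            rw [hρE]
            exact hm2
          · rintro m ⟨hm1, hm2⟩
            refine ⟨hW2 m hm1, ?_⟩
            change (E * γ) m = 0
            rw [← hγE]
            change γ (E m) = 0
            have hm2' : E m = 0 := hm2
            rw [hm2', map_zero]
          · refine ⟨Submodule.sub_mem _ hm0 (Submodule.smul_mem _ _ (hEW m0 hm0)), ?_⟩
            have hEE : E * E = (Fintype.card U : k) • E := by
              change (∑ w : U, ρ w) * E = _
              rw [Finset.sum_mul]
              simp only [hEρ]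
              rw [Finset.sum_const, Finset.card_univ, Nat.cast_smul_eq_nsmul]
            have hEE' : E (E m0) = (Fintype.card U : k) • E m0 :=
              congrArg (fun Z : Module.End k M => Z m0) hEE
            change E (m0 - (Fintype.card U : k)⁻¹ • E m0) = 0
            rw [map_sub, map_smul, hEE', smul_smul, inv_mul_cancel₀ hcne, one_smul, sub_self]
          · intro h
            apply hne0
            have h5 : γ (ρ u0 (E m0)) = ρ u0 (γ (E m0)) := by
              have h6 : ρ u0 (E m0) = E m0 :=
                congrArg (fun Z : Module.End k M => Z m0) (hEρ u0)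
              have h7 : γ (E m0) = E (γ m0) := congrArg (fun Z : Module.End k M => Z m0) hγE
              have h8 : ρ u0 (E (γ m0)) = E (γ m0) :=
                congrArg (fun Z : Module.End k M => Z (γ m0)) (hEρ u0)
              rw [h6, h7, h8]
            rw [map_sub, map_sub, map_sub, map_sub, map_smul, map_smul, map_smul, map_smul, h5]
              at h
            exact sub_left_injective h
        have h3 := hmin W2 inf_le_left hP2
        rw [eq_bot_iff]
        intro m hm
        have hm1 : (m : M) ∈ W1 := (hW1mem m).2 hm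
        have hm2 : (m : M) ∈ W2 := by rw [h3]; exact m.2
        have hm3 : E (m : M) = 0 := hm2.2
        have hm4 : E (m : M) = (Fintype.card U : k) • (m : M) := by
          change (∑ u : U, ρ u) (m : M) = _
          rw [LinearMap.sum_apply]
          have h6 : ∀ u : U, ρ u (m : M) = m := by
            intro u
            have : u ∈ K := by rw [hK]; exact Subgroup.mem_top u
            exact this _ hm1
          simp only [h6]
          rw [Finset.sum_const, Finset.card_univ, Nat.cast_smul_eq_nsmul]
        rw [hm4] at hm3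
        rw [Submodule.mem_bot]
        exact Subtype.ext ((smul_eq_zero.1 hm3).resolve_left hcne)
    · refine ⟨u0, fun h => hne0 ?_⟩
      have := congrArg (fun Z : Module.End k W => ((Z ⟨m0, hm0⟩ : W) : M)) h
      exact this
  exact D.false hp hq hpq hcard h2

end Pool.Agent.TH69.HH
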