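import Mathlib
import Pool.Agent.TH69.HHI
import Pool.Agent.TH69.MtnD

set_option autoImplicit false

/-!
# The theorem of Hall and Higman for groups of exponent `p q`, part J: groups
-/

namespace Pool.Agent.TH69.HH

open Pool.Agent.H32BU Pool.Agent.W629 Pool.Agent.TH69.Mtn

section

variable {F : Type} [Group F] (V : Subgroup F) [hV : V.Normal] (k : Type) [Field k]

/-- the action on the dual of a normal subgroup -/
noncomputable def dact : F →* Module.End k (Additive V →+ k) where
  toFun f :=
    { toFun := fun φ => φ.comp (MonoidHom.toAdditive (MulAut.conjNormal f⁻¹ : MulAut V).toMonoidHom)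
      map_add' := fun φ ψ => rfl
      map_smul' := fun c φ => rfl }
  map_one' := by
    ext φ v
    change φ _ = φ v
    congr 1
    apply Additive.toMul.injective
    apply Subtype.ext
    change (1 : F)⁻¹ * ((Additive.toMul v : V) : F) * ((1 : F)⁻¹)⁻¹ = _
    group
  map_mul' f g := by
    ext φ v
    change φ _ = φ _
    congr 1
    apply Additive.toMul.injective
    apply Subtype.ext
    change (f * g)⁻¹ * ((Additive.toMul v : V) : F) * ((f * g)⁻¹)⁻¹ =
      g⁻¹ * (f⁻¹ * ((Additive.toMul v : V) : F) * (f⁻¹)⁻¹) * (g⁻¹)⁻¹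
    group

theorem dact_apply (f : F) (φ : Additive V →+ k) (v : V) :
    dact V k f φ (Additive.ofMul v) = φ (Additive.ofMul (MulAut.conjNormal f⁻¹ v)) := rfl

/-- separation of points in vector spaces over the prime field -/
theorem separate_mod {k : Type} [Field k] {p : ℕ} [Fact p.Prime] {A : Type}
    [AddCommGroup A] [Module (ZMod p) A] [Algebra (ZMod p) k] (x : A)
    (hx : ∀ φ : A →+ k, φ x = 0) : x = 0 := by
  have h1 : ∀ l : A →ₗ[ZMod p] ZMod p, l x = 0 := by
    intro l
    have h2 := hx ((algebraMap (ZMod p) k).toAddMonoidHom.comp l.toAddMonoidHom)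
    have h3 : algebraMap (ZMod p) k (l x) = 0 := h2
    exact (map_eq_zero_iff _ (algebraMap (ZMod p) k).injective).1 h3
  exact (Module.forall_dual_apply_eq_zero_iff (ZMod p) x).1 h1

/-- separation of points in groups of exponent `p` -/
theorem separate_aux {k : Type} [Field k] {p : ℕ} (hp : p.Prime) [CharP k p] {A : Type}
    [AddCommGroup A] (hA : ∀ x : A, p • x = 0) (x : A) (hx : ∀ φ : A →+ k, φ x = 0) : x = 0 := by
  have : Fact p.Prime := ⟨hp⟩
  let _ : Module (ZMod p) A := AddCommGroup.zmodModule hA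
  let _ : Algebra (ZMod p) k := ZMod.algebra k p
  exact separate_mod (p := p) x hx

omit hV in
/-- separation of points -/
theorem separate {p : ℕ} (hp : p.Prime) [CharP k p] (hab : ∀ v ∈ V, ∀ w ∈ V, v * w = w * v)
    (hpow : ∀ v ∈ V, v ^ p = 1) (x : V) (hx : ∀ φ : Additive V →+ k, φ (Additive.ofMul x) = 0) :
    x = 1 := by
  let inst : CommGroup V :=
    { (inferInstance : Group V) with
      mul_comm := fun a b => Subtype.ext (hab a a.2 b b.2) }
  have h1 := separate_aux (k := k) hp (A := Additive V) (by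
    intro y
    apply Additive.toMul.injective
    apply Subtype.ext
    change (((Additive.toMul y : V) ^ p : V) : F) = 1
    rw [Subgroup.coe_pow]
    exact hpow _ (Additive.toMul y : V).2) (Additive.ofMul x) hx
  exact h1

end

/-- the configuration of the theorem does not occur -/
theorem no_config {F : Type} [Group F] [Finite F] {p q n : ℕ} (hp : p.Prime) (hq : q.Prime)
    (hpq : p ≠ q) (hn : n = p * q) (hF : ∀ x : F, x ^ n = 1) (V : Subgroup F) (hV : V.Normal)
    (hab : ∀ v ∈ V, ∀ w ∈ V, v * w = w * v) (hpow : ∀ v ∈ V, v ^ p = 1) {g : F} (hg : g ^ p = 1)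
    {U : Subgroup F} (A : Arr n q g U) (hfaith : ∀ u ∈ U, (∀ v ∈ V, u * v = v * u) → u = 1) :
    False := by
  classical
  have : Fact p.Prime := ⟨hp⟩
  have : Fact q.Prime := ⟨hq⟩
  have hUf := A.fin
  have := Fintype.ofFinite U
  let k := AlgebraicClosure (ZMod p)
  have hcop : Nat.Coprime p q := (Nat.coprime_primes hp hq).2 hpq
  have hU' : ∀ x ∈ U, g⁻¹ * x * g ∈ U := inv_conj hp.pos hg A.inv
  have hqp : qp q n = q := by
    unfold qp
    have : n.factorization q = 1 := by
      rw [hn, Nat.factorization_mul hp.ne_zero hq.ne_zero, Finsupp.add_apply,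
        hq.factorization_self, hp.factorization]
      simp [hpq]
    rw [this, pow_one]
  have hUq : ∀ u ∈ U, u ^ q = 1 := by
    intro u hu
    have := A.pow u hu
    rwa [hqp] at this
  -- the automorphism
  let σ : MulAut U :=
    { toFun := fun u => ⟨g * u * g⁻¹, A.inv u u.2⟩
      invFun := fun u => ⟨g⁻¹ * u * g, hU' u u.2⟩
      left_inv := by
        intro u
        apply Subtype.ext
        change g⁻¹ * (g * u * g⁻¹) * g = u
        group
      right_inv := by
        intro u
        apply Subtype.ext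
        change g * (g⁻¹ * u * g) * g⁻¹ = u
        group
      map_mul' := by
        intro a b
        apply Subtype.ext
        change g * (a * b) * g⁻¹ = g * a * g⁻¹ * (g * b * g⁻¹)
        group }
  have hσ : ∀ u : U, ((σ u : U) : F) = g * u * g⁻¹ := fun u => rfl
  have hσk : ∀ (i : ℕ) (u : U), (((σ ^ i) u : U) : F) = g ^ i * u * (g ^ i)⁻¹ := by
    intro i
    induction i with
    | zero => intro u; simp
    | succ i ih =>
      intro u
      rw [pow_succ', MulAut.mul_apply, hσ, ih, pow_succ']
      group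
  have ord : σ ^ p = 1 := by
    ext u
    rw [hσk, hg]
    simp
  obtain ⟨j, hj⟩ : ∃ j, Fintype.card U = q ^ j := by
    have hpg : IsPGroup q U := fun x => ⟨1, Subtype.ext (by
      rw [pow_one, Subgroup.coe_pow]
      exact hUq x x.2)⟩
    obtain ⟨j, hj⟩ := (IsPGroup.iff_card).1 hpg
    exact ⟨j, by rw [← Nat.card_eq_fintype_card]; exact hj⟩
  let M := Additive V →+ k
  have hfd : FiniteDimensional k M := by
    let f : M →ₗ[k] (Additive V → k) :=
      { toFun := fun φ => φ
        map_add' := fun _ _ => rfl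
        map_smul' := fun _ _ => rfl }
    have : Finite (Additive V) := (inferInstance : Finite V)
    exact Module.Finite.of_injective f DFunLike.coe_injective
  let ρ0 : F →* Module.End k M := dact V k
  let ρ : U →* Module.End k M := ρ0.comp U.subtype
  -- the norm
  have nrm : ∑ i ∈ Finset.range p, (ρ0 g) ^ i = 0 := by
    refine LinearMap.ext fun φ => AddMonoidHom.ext fun v => ?_
    obtain ⟨v, rfl⟩ := Additive.ofMul.surjective v
    rw [LinearMap.sum_apply, AddMonoidHom.finsetSum_apply]
    simp only [← map_pow]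
    -- partial sums
    have key : ∀ i : ℕ, ∃ w : V, (w : F) = ((v : F) * g⁻¹) ^ i * g ^ i ∧
        ∑ j ∈ Finset.range i, (ρ0 (g ^ j) φ) (Additive.ofMul v) = φ (Additive.ofMul w) := by
      intro i
      induction i with
      | zero =>
        refine ⟨1, by simp, ?_⟩
        rw [Finset.sum_range_zero, ofMul_one, map_zero]
      | succ i ih =>
        obtain ⟨w, hw, hs⟩ := ih
        refine ⟨w * MulAut.conjNormal (g ^ i)⁻¹ v, ?_, ?_⟩
        · rw [Subgroup.coe_mul, hw, MulAut.conjNormal_apply, pow_succ, pow_succ' g i]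
          group
        · rw [Finset.sum_range_succ, hs, ofMul_mul, map_add]
          rfl
    obtain ⟨w, hw, hs⟩ := key p
    rw [hs]
    have h1 : ((v : F) * g⁻¹) ^ p = 1 := by
      have h2 : ((v : F) * g⁻¹) ^ p ∈ V := by
        have h3 : ((v : F) * g⁻¹) ^ p * g ^ p ∈ V := by rw [← hw]; exact w.2
        rwa [hg, mul_one] at h3
      have h4 : (((v : F) * g⁻¹) ^ p) ^ p = 1 := hpow _ h2
      have h5 : (((v : F) * g⁻¹) ^ p) ^ q = 1 := by rw [← pow_mul, ← hn, hF]
      exact HH.eq_one_of_coprime hcop h4 h5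
    rw [h1, hg, mul_one] at hw
    have hw1 : w = 1 := Subtype.ext hw
    rw [hw1, ofMul_one, map_zero]
    rfl
  refine no_action (k := k) (M := M) (U := U) hp hq hpq hj ?_ ρ (ρ0 g) σ ?_ nrm ord ?_ ?_
  · rintro rfl u w
    have h1 : ∀ x : U, x * x = 1 := by
      intro x
      apply Subtype.ext
      rw [← pow_two, Subgroup.coe_pow]
      exact hUq x x.2
    calc u * w = u * w * ((w * u) * (w * u)) := by rw [h1, mul_one]
      _ = u * (w * w) * u * (w * u) := by group
      _ = w * u := by rw [h1, mul_one, h1, one_mul]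
  · intro u
    change ρ0 g * ρ0 u = ρ0 (σ u : U) * ρ0 g
    rw [← map_mul, ← map_mul, hσ]
    congr 1
    group
  · intro U' hU'1 hne u hu
    by_contra hcon
    apply hne
    have h1 := A.min (U'.map U.subtype) (Subgroup.map_subtype_le _) ?_ ?_
    · rw [eq_top_iff]
      intro x _
      have hx : (x : F) ∈ U'.map U.subtype := by rw [h1]; exact x.2
      obtain ⟨y, hy, e⟩ := hx
      have : y = x := Subtype.ext e
      rw [← this]
      exact hy
    · rintro _ ⟨y, hy, rfl⟩
      exact ⟨σ y, hU'1 y hy, rfl⟩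
    · refine ⟨u, ⟨u, hu, rfl⟩, fun h => hcon ?_⟩
      apply Subtype.ext
      rw [hσ, h]
      group
  · obtain ⟨u, hu, hc⟩ := A.nc
    refine ⟨⟨u, hu⟩, fun h => hc ?_⟩
    change ρ0 g * ρ0 u = ρ0 u * ρ0 g at h
    rw [← map_mul, ← map_mul] at h
    -- the commutator acts trivially
    have h1 : ρ0 ((u * g)⁻¹ * (g * u)) = 1 := by
      rw [map_mul, h, ← map_mul, inv_mul_cancel, map_one]
    have hcU : (u * g)⁻¹ * (g * u) ∈ U := by
      have e : (u * g)⁻¹ * (g * u) = (g⁻¹ * u⁻¹ * g) * u := by group
      rw [e]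
      exact mul_mem (hU' _ (inv_mem hu)) hu
    have h2 : (u * g)⁻¹ * (g * u) = 1 := by
      refine hfaith _ hcU fun v hv => ?_
      generalize (u * g)⁻¹ * (g * u) = c at h1 hcU
      have h3 : ∀ φ : Additive V →+ k, φ (Additive.ofMul
          ((MulAut.conjNormal c⁻¹ (⟨v, hv⟩ : V)) * (⟨v, hv⟩ : V)⁻¹)) = 0 := by
        intro φ
        have h4 := congrArg (fun Z : Module.End k M => (Z φ) (Additive.ofMul (⟨v, hv⟩ : V))) h1
        change φ (Additive.ofMul (MulAut.conjNormal c⁻¹ (⟨v, hv⟩ : V))) =
          φ (Additive.ofMul (⟨v, hv⟩ : V)) at h4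
        rw [ofMul_mul, map_add, h4, ofMul_inv, map_neg, add_neg_cancel]
      have h5 := separate V k hp hab hpow _ h3
      rw [mul_inv_eq_one] at h5
      have h6 := congrArg Subtype.val h5
      rw [MulAut.conjNormal_apply] at h6
      change c⁻¹ * v * (c⁻¹)⁻¹ = v at h6
      rw [inv_inv] at h6
      rw [mul_assoc, inv_mul_eq_iff_eq_mul] at h6
      exact h6.symm
    rw [inv_mul_eq_one] at h2
    exact h2.symm

end Pool.Agent.TH69.HH
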