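import Mathlib
import Pool.Agent.TH69.HHG

set_option autoImplicit false

/-!
# The theorem of Hall and Higman, part A

`U` is a group with an automorphism `σ` of order dividing `p ^ m` acting on a vector space in
characteristic `p`, `γ` the operator of `σ`.
-/

namespace Pool.Agent.TH69.Od

open Pool.Agent.TH69.HH

/-- `g ^ (p ^ (m - 1))` is a power of `g ^ d`, `0 < d < p ^ m` -/
theorem pow_of_lt {G : Type} [Group G] {p : ℕ} (hp : p.Prime) {m d : ℕ} {g : G}
    (hg : g ^ p ^ m = 1) (hd0 : 0 < d) (hd : d < p ^ m) :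
    ∃ t : ℕ, (g ^ d) ^ t = g ^ p ^ (m - 1) := by
  obtain ⟨v, d', hd', e⟩ := Nat.exists_eq_pow_mul_and_not_dvd hd0.ne' p hp.ne_one
  have hv : v < m := by
    have h1 : p ^ v ≤ d := by
      rw [e]
      exact Nat.le_mul_of_pos_right _ (Nat.pos_of_ne_zero fun h => hd' (h ▸ dvd_zero p))
    exact (Nat.pow_lt_pow_iff_right hp.one_lt).1 (lt_of_le_of_lt h1 hd)
  have h2 : (g ^ p ^ v) ^ p ^ (m - v) = 1 := by
    rw [← pow_mul, ← pow_add, show v + (m - v) = m from by omega, hg]
  have hco : (orderOf (g ^ p ^ v)).Coprime d' := by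
    refine Nat.Coprime.coprime_dvd_left (orderOf_dvd_of_pow_eq_one h2) ?_
    exact Nat.Coprime.pow_left _ ((Nat.Prime.coprime_iff_not_dvd hp).2 hd')
  obtain ⟨s, hs⟩ := exists_pow_eq_self_of_coprime hco.symm
  refine ⟨s * p ^ (m - 1 - v), ?_⟩
  rw [e, pow_mul g (p ^ v) d', pow_mul, hs, ← pow_mul, ← pow_add]
  congr 2
  omega

theorem sub_pow_eq_sum' {k M : Type} [Field k] [AddCommGroup M] [Module k M]
    {γ : Module.End k M} {p m : ℕ} [hp : Fact p.Prime] [CharP k p] :
    (γ - 1) ^ (p ^ m - 1) = ∑ i ∈ Finset.range (p ^ m), γ ^ i := by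
  have h1 : (Polynomial.X - 1 : Polynomial k) ^ (p ^ m - 1) =
      ∑ i ∈ Finset.range (p ^ m), (Polynomial.X : Polynomial k) ^ i := by
    have h2 : (Polynomial.X - 1 : Polynomial k) ≠ 0 := by
      have := Polynomial.X_sub_C_ne_zero (1 : k)
      rwa [Polynomial.C_1] at this
    apply mul_right_cancel₀ h2
    rw [geom_sum_mul, ← pow_succ, Nat.sub_add_cancel (Nat.one_le_pow _ _ hp.out.pos),
      sub_pow_char_pow, one_pow]
  have h3 := congrArg (Polynomial.aeval γ) h1
  simpa using h3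

/-- irreducible action of a minimal group `U` with an automorphism `σ` of order `p ^ m` whose
operator `γ` has norm `0` -/
structure Dt (k : Type) {M U : Type} [Field k] [AddCommGroup M] [Module k M] [Group U] (p m : ℕ)
    (ρ : U →* Module.End k M) (γ : Module.End k M) (σ : MulAut U) : Prop where
  rel : ∀ u, γ * ρ u = ρ (σ u) * γ
  nrm : ∑ i ∈ Finset.range (p ^ m), γ ^ i = 0
  ord : σ ^ p ^ m = 1
  irr : ∀ W : Submodule k M, (∀ u, ∀ m ∈ W, ρ u m ∈ W) → (∀ m ∈ W, γ m ∈ W) → W = ⊥ ∨ W = ⊤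
  ntr : ∃ u, γ ^ p ^ (m - 1) * ρ u ≠ ρ u * γ ^ p ^ (m - 1)
  min : ∀ U' : Subgroup U, (∀ u ∈ U', σ u ∈ U') → U' ≠ ⊤ → ∀ u ∈ U', (σ ^ p ^ (m - 1)) u = u

variable {k M U : Type} [Field k] [AddCommGroup M] [Module k M] [Group U]
variable {p m : ℕ} {ρ : U →* Module.End k M} {γ : Module.End k M} {σ : MulAut U}

theorem rel_pow (rel : ∀ u, γ * ρ u = ρ (σ u) * γ) (i : ℕ) (u : U) :
    γ ^ i * ρ u = ρ ((σ ^ i) u) * γ ^ i := by
  induction i with
  | zero => simp
  | succ i ih =>
    rw [pow_succ', mul_assoc, ih, ← mul_assoc, rel, mul_assoc]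
    have h : (σ ^ (i + 1)) u = σ ((σ ^ i) u) := by
      rw [pow_succ']
      rfl
    rw [h]

/-- the vectors on which `γ ^ e` commutes with `ρ` -/
def WW (ρ : U →* Module.End k M) (δ : Module.End k M) : Submodule k M where
  carrier := {m | ∀ u, δ (ρ u m) = ρ u (δ m)}
  add_mem' := by
    intro a b ha hb u
    rw [map_add, map_add, map_add, map_add, ha, hb]
  zero_mem' := by
    intro u
    simp
  smul_mem' := by
    intro c a ha u
    rw [map_smul, map_smul, map_smul, map_smul, ha]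

theorem WW_rho {δ : Module.End k M} {v : M} (hv : v ∈ WW ρ δ) (w : U) : ρ w v ∈ WW ρ δ := by
  intro u
  have h1 := hv (u * w)
  have h2 := hv w
  rw [map_mul] at h1
  change δ (ρ u (ρ w v)) = ρ u (ρ w (δ v)) at h1
  rw [h1, h2]

theorem WW_gamma (rel : ∀ u, γ * ρ u = ρ (σ u) * γ) {e : ℕ} {v : M} (hv : v ∈ WW ρ (γ ^ e)) :
    γ v ∈ WW ρ (γ ^ e) := by
  intro u
  obtain ⟨w, rfl⟩ := σ.surjective u
  have h1 : ρ (σ w) (γ v) = γ (ρ w v) := by
    have := congrArg (fun Z : Module.End k M => Z v) (rel w)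
    exact this.symm
  have h2 : (γ ^ e) (γ v) = γ ((γ ^ e) v) := by
    change (γ ^ e * γ) v = (γ * γ ^ e) v
    rw [← pow_succ, ← pow_succ']
  have h3 : (γ ^ e) (γ (ρ w v)) = γ ((γ ^ e) (ρ w v)) := by
    change (γ ^ e * γ) _ = (γ * γ ^ e) _
    rw [← pow_succ, ← pow_succ']
  have h4 : ρ (σ w) (γ ((γ ^ e) v)) = γ (ρ w ((γ ^ e) v)) := by
    have := congrArg (fun Z : Module.End k M => Z ((γ ^ e) v)) (rel w)
    exact this.symm
  rw [h1, h3, hv w, h2, h4]

theorem WW_top {δ : Module.End k M} (h : WW ρ δ = ⊤) (u : U) : δ * ρ u = ρ u * δ := by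
  ext v
  have : v ∈ WW ρ δ := by rw [h]; exact Submodule.mem_top
  exact this u

namespace Dt

variable (D : Dt k p m ρ γ σ)
include D

theorem gpow : γ ^ p ^ m = 1 := by
  have h := geom_sum_mul γ (p ^ m)
  rw [D.nrm, zero_mul] at h
  exact (sub_eq_zero.1 h.symm)

/-- the inverse of `γ` -/
theorem exists_inv (hp : 0 < p) : ∃ γ' : Module.End k M, γ' * γ = 1 ∧ γ * γ' = 1 ∧
    γ' = γ ^ (p ^ m - 1) := by
  refine ⟨γ ^ (p ^ m - 1), ?_, ?_, rfl⟩
  · rw [← pow_succ, Nat.sub_add_cancel (Nat.one_le_pow _ _ hp), D.gpow]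
  · rw [← pow_succ', Nat.sub_add_cancel (Nat.one_le_pow _ _ hp), D.gpow]

theorem schur [IsAlgClosed k] [FiniteDimensional k M] [Nontrivial M] (X : Module.End k M)
    (h1 : ∀ u, X * ρ u = ρ u * X) (h2 : X * γ = γ * X) : ∃ c : k, X = c • 1 := by
  obtain ⟨c, hc⟩ := Module.End.exists_eigenvalue X
  obtain ⟨v, hv⟩ := hc.exists_hasEigenvector
  refine ⟨c, ?_⟩
  have h3 : Module.End.eigenspace X c = ⊤ := by
    refine (D.irr _ ?_ ?_).resolve_left ?_
    · intro u m hm
      rw [Module.End.mem_eigenspace_iff] at hm ⊢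
      change (X * ρ u) m = _
      rw [h1]
      change ρ u (X m) = _
      rw [hm, map_smul]
    · intro m hm
      rw [Module.End.mem_eigenspace_iff] at hm ⊢
      change (X * γ) m = _
      rw [h2]
      change γ (X m) = _
      rw [hm, map_smul]
    · intro h
      have h4 : v ∈ Module.End.eigenspace X c := hv.1
      rw [h, Submodule.mem_bot] at h4
      exact hv.2 h4
  ext m
  have h4 : m ∈ Module.End.eigenspace X c := by rw [h3]; exact Submodule.mem_top
  rw [Module.End.mem_eigenspace_iff] at h4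
  simpa using h4

theorem cancel (hp : 0 < p) {X Y : Module.End k M} (h : X * γ = Y * γ) : X = Y := by
  obtain ⟨γ', h1, h2, -⟩ := D.exists_inv hp
  have h3 := congrArg (fun Z => Z * γ') h
  simpa [mul_assoc, h2] using h3

theorem Uc_sigma (hp : 0 < p) {u : U} (hu : u ∈ Uc ρ) : σ u ∈ Uc ρ := by
  intro w
  obtain ⟨w, rfl⟩ := σ.surjective w
  apply D.cancel hp
  rw [mul_assoc, ← D.rel, ← mul_assoc, ← D.rel, mul_assoc, hu w, ← mul_assoc, D.rel, mul_assoc,
    D.rel, mul_assoc]

/-- no nonzero vector lies in `WW` -/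
theorem WW_bot {v : M} (hv : v ∈ WW ρ (γ ^ p ^ (m - 1))) : v = 0 := by
  by_contra hv0
  rcases D.irr (WW ρ (γ ^ p ^ (m - 1))) (fun u x hx => WW_rho hx u)
    (fun x hx => WW_gamma D.rel hx) with h | h
  · rw [h, Submodule.mem_bot] at hv
    exact hv0 hv
  · obtain ⟨u, hu⟩ := D.ntr
    exact hu (WW_top h u)

theorem sigma_ne_one : σ ^ p ^ (m - 1) ≠ 1 := by
  intro h
  obtain ⟨u, hu⟩ := D.ntr
  apply hu
  rw [rel_pow D.rel, h]
  rfl

/-- the commutative case is impossible -/
theorem not_comm [IsAlgClosed k] [FiniteDimensional k M] [Nontrivial M] (hp : p.Prime)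
    (hc : ∀ u w, ρ u * ρ w = ρ w * ρ u) : False := by
  classical
  obtain ⟨v, hv0, χ, hχ⟩ := exists_common hc
  -- the conjugate characters
  let X : Fin (p ^ m) → (U →* k) := fun i => χ.comp ((σ ^ (i : ℕ))⁻¹).toMonoidHom
  have hX : ∀ (i : Fin (p ^ m)) (u : U), ρ u ((γ ^ (i : ℕ)) v) = X i u • (γ ^ (i : ℕ)) v := by
    intro i u
    have h1 := rel_pow D.rel i ((σ ^ (i : ℕ))⁻¹ u)
    have h2 : (σ ^ (i : ℕ)) ((σ ^ (i : ℕ))⁻¹ u) = u := by
      rw [← MulAut.mul_apply, mul_inv_cancel, MulAut.one_apply]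
    rw [h2] at h1
    have h3 := congrArg (fun Z : Module.End k M => Z v) h1
    change (γ ^ (i : ℕ)) (ρ _ v) = ρ u ((γ ^ (i : ℕ)) v) at h3
    rw [← h3, hχ, map_smul]
    rfl
  by_cases hinj : Function.Injective X
  · have hli := (linearIndependent_monoidHom U k).comp X hinj
    rw [Fintype.linearIndependent_iff] at hli
    apply hv0
    rw [← Module.forall_dual_apply_eq_zero_iff k]
    intro l
    have hz : ∑ i : Fin (p ^ m), l ((γ ^ (i : ℕ)) v) • (fun f : U →* k => ⇑f) (X i) = 0 := by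
      funext u
      rw [Finset.sum_apply]
      simp only [Pi.smul_apply, smul_eq_mul, Pi.zero_apply]
      have h4 : ρ u (∑ i : Fin (p ^ m), (γ ^ (i : ℕ)) v) = 0 := by
        have h5 : ∑ i : Fin (p ^ m), (γ ^ (i : ℕ)) v = (∑ i ∈ Finset.range (p ^ m), γ ^ i) v := by
          rw [LinearMap.sum_apply, Finset.sum_range]
        rw [h5, D.nrm]
        simp
      rw [map_sum] at h4
      have h6 := congrArg l h4
      rw [map_sum, map_zero] at h6
      rw [← h6]
      refine Finset.sum_congr rfl fun i _ => ?_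
      rw [hX, map_smul, smul_eq_mul, mul_comm]
    have := hli _ hz ⟨0, Nat.pow_pos hp.pos⟩
    simpa using this
  · -- `χ` is invariant under the power of `σ`
    have hinv : ∀ u, χ ((σ ^ p ^ (m - 1)) u) = χ u := by
      unfold Function.Injective at hinj
      push Not at hinj
      obtain ⟨i, j, hij, hne⟩ := hinj
      have key : ∀ i j : Fin (p ^ m), (i : ℕ) < j → X i = X j →
          ∀ u, χ ((σ ^ p ^ (m - 1)) u) = χ u := by
        intro i j hlt hij
        have h1 : ∀ u, χ ((σ ^ ((j : ℕ) - i)) u) = χ u := by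
          intro u
          have h2 := DFunLike.congr_fun hij ((σ ^ (j : ℕ)) u)
          have h3 : X j ((σ ^ (j : ℕ)) u) = χ u := by
            change χ (((σ ^ (j : ℕ))⁻¹ * σ ^ (j : ℕ)) u) = χ u
            rw [inv_mul_cancel, MulAut.one_apply]
          have h4 : X i ((σ ^ (j : ℕ)) u) = χ ((σ ^ ((j : ℕ) - i)) u) := by
            change χ (((σ ^ (i : ℕ))⁻¹ * σ ^ (j : ℕ)) u) = _
            congr 2
            rw [inv_mul_eq_iff_eq_mul, ← pow_add]
            congr 1
            omega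
          rw [← h4, h2, h3]
        obtain ⟨m', hm'⟩ := pow_of_lt hp D.ord (d := (j : ℕ) - i) (by omega) (by omega)
        intro u
        have h5 : ∀ n : ℕ, ∀ u, χ (((σ ^ ((j : ℕ) - i)) ^ n) u) = χ u := by
          intro n
          induction n with
          | zero => intro u; rfl
          | succ n ih =>
            intro u
            rw [pow_succ, MulAut.mul_apply, ih, h1]
        have h6 := h5 m' u
        rwa [hm'] at h6
      rcases lt_trichotomy (i : ℕ) j with h | h | h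
      · exact key i j h hij
      · exact absurd (Fin.ext h) hne
      · exact key j i h hij.symm
    apply hv0
    apply D.WW_bot
    intro u
    rw [hχ, map_smul]
    obtain ⟨u, rfl⟩ := (σ ^ p ^ (m - 1)).surjective u
    have h1 := congrArg (fun Z : Module.End k M => Z v) (rel_pow D.rel (p ^ (m - 1)) u)
    change (γ ^ p ^ (m - 1)) (ρ u v) = ρ ((σ ^ p ^ (m - 1)) u) ((γ ^ p ^ (m - 1)) v) at h1
    rw [← h1, hχ, map_smul, hinv]

/-- a `σ`-invariant subgroup containing all `w⁻¹ ζ w` is the whole group -/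
theorem eq_top_of {r : ℕ} (hpq : Nat.Coprime (p ^ m) r) (hm : 1 ≤ m)
    (hU : ∀ u : U, u ^ r = 1) (C : Subgroup U) (h1 : ∀ u ∈ C, σ u ∈ C)
    (h2 : ∀ w, w⁻¹ * (σ ^ p ^ (m - 1)) w ∈ C) : C = ⊤ := by
  by_contra hC
  have h3 := D.min C h1 hC
  apply D.sigma_ne_one
  obtain ⟨ζ, hζ⟩ : ∃ ζ, ζ = σ ^ p ^ (m - 1) := ⟨_, rfl⟩
  rw [← hζ] at h3 h2 ⊢
  have hζp : ζ ^ p = 1 := by
    rw [hζ, ← pow_mul, ← pow_succ, Nat.sub_add_cancel hm, D.ord]
  ext u
  have h4 := h3 _ (h2 u)
  have h5 : ∀ n : ℕ, (ζ ^ n) u = u * (u⁻¹ * ζ u) ^ n := by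
    intro n
    induction n with
    | zero => simp
    | succ n ih =>
      rw [pow_succ', MulAut.mul_apply, ih, map_mul, map_pow, h4, pow_succ', ← mul_assoc,
        mul_inv_cancel_left]
  have h6 := h5 p
  rw [hζp, MulAut.one_apply] at h6
  have h7 : (u⁻¹ * ζ u) ^ p = 1 := by
    have : u * 1 = u * (u⁻¹ * ζ u) ^ p := by rw [mul_one]; exact h6
    exact (mul_left_cancel this).symm
  have h8 := HH.eq_one_of_coprime (Nat.Coprime.coprime_dvd_left (dvd_pow_self p (by omega)) hpq)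
    h7 (hU _)
  rw [inv_mul_eq_one] at h8
  rw [MulAut.one_apply]
  exact h8.symm

/-- the commutator subgroup is fixed -/
theorem fix_comm [Finite U] {q j : ℕ} (hq : q.Prime) (hU : ∀ u : U, u ^ q ^ j = 1) :
    ∀ c ∈ commutator U, (σ ^ p ^ (m - 1)) c = c := by
  have : Fact q.Prime := ⟨hq⟩
  have hne := D.sigma_ne_one
  have hnt : Nontrivial U := by
    by_contra hcon
    rw [not_nontrivial_iff_subsingleton] at hcon
    apply hne
    ext x
    exact Subsingleton.elim _ _
  have hpg : IsPGroup q U := fun x => ⟨j, hU x⟩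
  have hnil : Group.IsNilpotent U := hpg.isNilpotent
  have hsol : Group.IsSolvable U := inferInstance
  have hlt : commutator U < ⊤ := Group.IsSolvable.commutator_lt_top_of_nontrivial U
  have hchar : ∀ x ∈ commutator U, σ x ∈ commutator U := by
    intro x hx
    have h1 : (commutator U).map σ.toMonoidHom ≤ commutator U := by
      unfold commutator
      rw [Subgroup.map_commutator]
      exact Subgroup.commutator_mono le_top le_top
    exact h1 ⟨x, hx, rfl⟩
  exact D.min (commutator U) hchar hlt.ne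

/-- elements fixed by `ζ` are central -/
theorem central_of_fixed [Finite U] {q j : ℕ} (hq : q.Prime) (hm : 1 ≤ m)
    (hpq : Nat.Coprime (p ^ m) (q ^ j)) (hU : ∀ u : U, u ^ q ^ j = 1) {u : U}
    (hu : (σ ^ p ^ (m - 1)) u = u) (w : U) : u * w = w * u := by
  have hfix := D.fix_comm hq hU
  obtain ⟨ζ, hζ⟩ : ∃ ζ, ζ = σ ^ p ^ (m - 1) := ⟨_, rfl⟩
  have hζσ : ∀ x, ζ (σ x) = σ (ζ x) := by
    intro x
    change (ζ * σ) x = (σ * ζ) x
    rw [hζ, ← pow_succ, ← pow_succ']
  have htop := D.eq_top_of hpq hm hU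
  rw [← hζ] at hfix hu htop
  have hfixc : ∀ a b : U, ζ (a * b * a⁻¹ * b⁻¹) = a * b * a⁻¹ * b⁻¹ := fun a b =>
    hfix _ (Subgroup.commutator_mem_commutator (Subgroup.mem_top a) (Subgroup.mem_top b))
  -- the subgroup of fixed elements
  let F : Subgroup U :=
    { carrier := {x | ζ x = x}
      one_mem' := map_one ζ
      mul_mem' := by
        intro a b ha hb
        change ζ (a * b) = a * b
        rw [map_mul, ha, hb]
      inv_mem' := by
        intro a ha
        change ζ a⁻¹ = a⁻¹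
        rw [map_inv, ha] }
  have h5 : Subgroup.centralizer (F : Set U) = ⊤ := by
    refine htop _ ?_ ?_
    · intro y hy
      rw [Subgroup.mem_centralizer_iff] at hy ⊢
      intro f hf
      obtain ⟨f', rfl⟩ := σ.surjective f
      have hf' : f' ∈ F := by
        change ζ f' = f'
        apply σ.injective
        rw [← hζσ]
        exact hf
      have h2 := congrArg σ (hy f' hf')
      rw [map_mul, map_mul] at h2
      exact h2
    · intro w
      rw [Subgroup.mem_centralizer_iff]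
      intro c hc
      have hc' : ζ c = c := hc
      have h2 := hfixc w c
      rw [map_mul, map_mul, map_mul, map_inv, map_inv, hc'] at h2
      have h3 : ζ w * c * (ζ w)⁻¹ = w * c * w⁻¹ := mul_right_cancel h2
      have h4 : w⁻¹ * ζ w * c = w⁻¹ * (ζ w * c * (ζ w)⁻¹) * ζ w := by group
      rw [h4, h3]
      group
  have h6 : w ∈ Subgroup.centralizer (F : Set U) := by rw [h5]; exact Subgroup.mem_top _
  exact (Subgroup.mem_centralizer_iff.1 h6) u hu

end Dt

end Pool.Agent.TH69.Od
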