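import Mathlib
import Pool.Agent.TH69.OdA

set_option autoImplicit false

/-!
# The theorem of Hall and Higman, part B: the noncommutative case
-/

namespace Pool.Agent.TH69.Od

open Pool.Agent.TH69.HH

variable {k M U : Type} [Field k] [AddCommGroup M] [Module k M] [Group U]
variable {p m : ℕ} {ρ : U →* Module.End k M} {γ : Module.End k M} {σ : MulAut U}

/-- sums over free orbits vanish -/
theorem orbit_sum' {Ω : Type} [Fintype Ω] {p m : ℕ} (hp : p.Prime) (s : Equiv.Perm Ω)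
    (hs : s ^ p ^ m = 1) (hfree : ∀ x, (s ^ p ^ (m - 1)) x ≠ x) (γ : Module.End k M)
    (hγ : ∑ i ∈ Finset.range (p ^ m), γ ^ i = 0) (f : Ω → M) (hf : ∀ x, γ (f x) = f (s x)) :
    ∑ x, f x = 0 := by
  classical
  refine Finset.sum_cancels_of_partition_cancels (Equiv.Perm.SameCycle.setoid s) ?_
  intro x _
  have hmi : ∀ i : ℕ, (γ ^ i) (f x) = f ((s ^ i) x) := by
    intro i
    induction i with
    | zero => rfl
    | succ i ih =>
      rw [pow_succ', pow_succ']
      change γ ((γ ^ i) (f x)) = f (s ((s ^ i) x))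
      rw [ih, hf]
  have hinj : Set.InjOn (fun i => (s ^ i) x) (Finset.range (p ^ m) : Set ℕ) := by
    have key : ∀ i j : ℕ, i < j → j < p ^ m → (s ^ i) x ≠ (s ^ j) x := by
      intro i j hij hj h
      have h1 : (s ^ (j - i)) x = x := by
        have h2 : (s ^ i) ((s ^ (j - i)) x) = (s ^ i) x := by
          rw [← Equiv.Perm.mul_apply, ← pow_add, show i + (j - i) = j from by omega]
          exact h.symm
        exact (s ^ i).injective h2
      obtain ⟨m', hm'⟩ := pow_of_lt hp hs (d := j - i) (by omega) (by omega)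
      have h5 : ∀ n : ℕ, ((s ^ (j - i)) ^ n) x = x := by
        intro n
        induction n with
        | zero => rfl
        | succ n ih => rw [pow_succ, Equiv.Perm.mul_apply, h1, ih]
      have h6 := h5 m'
      rw [hm'] at h6
      exact hfree x h6
    intro i hi j hj h
    rw [Finset.mem_coe, Finset.mem_range] at hi hj
    rcases lt_trichotomy i j with h1 | h1 | h1
    · exact absurd h (key i j h1 hj)
    · exact h1
    · exact absurd h.symm (key j i h1 hi)
  have hset : (Finset.univ.filter fun a => (Equiv.Perm.SameCycle.setoid s) a x) =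
      (Finset.range (p ^ m)).image fun i => (s ^ i) x := by
    ext a
    rw [Finset.mem_filter, Finset.mem_image]
    constructor
    · rintro ⟨-, h⟩
      have h1 : s.SameCycle a x := h
      obtain ⟨i, hi⟩ := h1.symm
      have hpm : 0 < p ^ m := Nat.pow_pos hp.pos
      have h3 := Int.emod_nonneg i (by exact_mod_cast hpm.ne' : ((p ^ m : ℕ) : ℤ) ≠ 0)
      refine ⟨(i % ((p ^ m : ℕ) : ℤ)).toNat, ?_, ?_⟩
      · rw [Finset.mem_range]
        have h2 := Int.emod_lt_of_pos i (by exact_mod_cast hpm : (0 : ℤ) < ((p ^ m : ℕ) : ℤ))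
        omega
      · have h4 : s ^ (i % ((p ^ m : ℕ) : ℤ)).toNat = s ^ i := by
          rw [← zpow_natCast, Int.toNat_of_nonneg h3]
          conv_rhs => rw [← Int.emod_add_mul_ediv i ((p ^ m : ℕ) : ℤ), zpow_add, zpow_mul,
            zpow_natCast, hs, one_zpow, mul_one]
        change (s ^ (i % ((p ^ m : ℕ) : ℤ)).toNat) x = a
        rw [h4, hi]
    · rintro ⟨i, -, rfl⟩
      refine ⟨Finset.mem_univ _, ?_⟩
      change s.SameCycle ((s ^ i) x) x
      exact ⟨-i, by
        rw [zpow_neg, zpow_natCast, ← Equiv.Perm.mul_apply, inv_mul_cancel, Equiv.Perm.one_apply]⟩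
  rw [hset, Finset.sum_image hinj]
  have h7 := congrArg (fun Z : Module.End k M => Z (f x)) hγ
  simp only [LinearMap.sum_apply, LinearMap.zero_apply, hmi] at h7
  exact h7

/-- hypotheses of the noncommutative case -/
structure NT (k : Type) {M U : Type} [Field k] [AddCommGroup M] [Module k M] [Group U] [Fintype U]
    (p m : ℕ) (ρ : U →* Module.End k M) (γ : Module.End k M) (σ : MulAut U) (q j : ℕ) : Prop
    extends Dt k p m ρ γ σ where
  hm : 1 ≤ m
  hp : p.Prime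
  hq : q.Prime
  hpq : p ≠ q
  card : Fintype.card U = q ^ j
  ne : Uc ρ ≠ ⊤
  scl : ∀ u ∈ Uc ρ, ∃ c : k, ρ u = c • 1

namespace NT

variable [Fintype U] {q j : ℕ} (D : NT k p m ρ γ σ q j)
include D

theorem cop : Nat.Coprime (p ^ m) (q ^ j) :=
  Nat.Coprime.pow _ _ ((Nat.coprime_primes D.hp D.hq).2 D.hpq)

theorem exp (u : U) : u ^ q ^ j = 1 := by
  rw [← D.card]
  exact pow_card_eq_one

theorem fix_Uc {u : U} (hu : u ∈ Uc ρ) : (σ ^ p ^ (m - 1)) u = u :=
  D.toDt.min (Uc ρ) (fun _ h => D.toDt.Uc_sigma D.hp.pos h) D.ne u hu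

theorem mem_of_fixed {u : U} (hu : (σ ^ p ^ (m - 1)) u = u) : u ∈ Uc ρ := by
  intro w
  rw [← map_mul, D.toDt.central_of_fixed D.hq D.hm D.cop D.exp hu w, map_mul]

theorem comm_mem (a b : U) : a * b * a⁻¹ * b⁻¹ ∈ Uc ρ :=
  D.mem_of_fixed (D.toDt.fix_comm D.hq D.exp _
    (Subgroup.commutator_mem_commutator (Subgroup.mem_top a) (Subgroup.mem_top b)))

theorem cop1 : Nat.Coprime p (q ^ j) :=
  Nat.Coprime.pow_right _ ((Nat.coprime_primes D.hp D.hq).2 D.hpq)

theorem card_ne [CharP k p] : (Fintype.card U : k) ≠ 0 := by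
  rw [Ne, CharP.cast_eq_zero_iff k p, D.card]
  intro h
  have h1 := Nat.Coprime.eq_one_of_dvd D.cop1 h
  exact D.hp.ne_one h1

theorem card_Uc_ne [CharP k p] : (Nat.card (Uc ρ) : k) ≠ 0 := by
  rw [Ne, CharP.cast_eq_zero_iff k p]
  intro h
  have h1 : Nat.card (Uc ρ) ∣ Nat.card U := Subgroup.card_subgroup_dvd_card _
  rw [Nat.card_eq_fintype_card (α := U), D.card] at h1
  have h2 := Nat.Coprime.eq_one_of_dvd D.cop1 (h.trans h1)
  exact D.hp.ne_one h2

theorem conj_PP {γ' : Module.End k M} (h1 : γ' * γ = 1) (h2 : γ * γ' = 1) (Y : Module.End k M) :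
    γ * PP ρ Y * γ' = PP ρ (γ * Y * γ') := by
  unfold PP
  rw [Finset.mul_sum, Finset.sum_mul]
  refine Fintype.sum_equiv σ.toEquiv _ _ fun w => ?_
  change _ = ρ (σ w) * (γ * Y * γ') * ρ (σ w)⁻¹
  have h3 : ρ w⁻¹ * γ' = γ' * ρ (σ w)⁻¹ := by
    have h4 := D.rel w⁻¹
    have h5 : σ w⁻¹ = (σ w)⁻¹ := map_inv σ w
    rw [h5] at h4
    calc ρ w⁻¹ * γ' = γ' * (γ * ρ w⁻¹) * γ' := by rw [← mul_assoc γ', h1, one_mul]
      _ = γ' * ρ (σ w)⁻¹ * (γ * γ') := by rw [h4]; simp only [mul_assoc]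
      _ = γ' * ρ (σ w)⁻¹ := by rw [h2, mul_one]
  calc γ * (ρ w * Y * ρ w⁻¹) * γ' = (γ * ρ w) * Y * (ρ w⁻¹ * γ') := by simp only [mul_assoc]
    _ = (ρ (σ w) * γ) * Y * (γ' * ρ (σ w)⁻¹) := by rw [D.rel, h3]
    _ = ρ (σ w) * (γ * Y * γ') * ρ (σ w)⁻¹ := by simp only [mul_assoc]

theorem gamma_pi {γ' : Module.End k M} (h1 : γ' * γ = 1) (h2 : γ * γ' = 1) (X : Module.End k M)
    (hX : X * γ = γ * X) (y : U) : γ * pi ρ X y * γ' = pi ρ X (σ y) := by
  have e1 : γ * ρ y * γ' = ρ (σ y) := by rw [D.rel, mul_assoc, h2, mul_one]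
  have e2 : γ * ρ y⁻¹ * γ' = ρ (σ y)⁻¹ := by
    rw [D.rel, mul_assoc, h2, mul_one]
    congr 1
    exact map_inv σ y
  unfold pi
  rw [mul_smul_comm, smul_mul_assoc]
  congr 1
  calc γ * (PP ρ (X * ρ y⁻¹) * ρ y) * γ' =
        γ * PP ρ (X * ρ y⁻¹) * (γ' * γ) * ρ y * γ' := by rw [h1]; simp only [mul_assoc, one_mul]
    _ = (γ * PP ρ (X * ρ y⁻¹) * γ') * (γ * ρ y * γ') := by simp only [mul_assoc]
    _ = PP ρ (X * ρ (σ y)⁻¹) * ρ (σ y) := by
        rw [D.conj_PP h1 h2, e1]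
        congr 2
        calc γ * (X * ρ y⁻¹) * γ' = (γ * X) * ρ y⁻¹ * γ' := by simp only [mul_assoc]
          _ = X * (γ * ρ y⁻¹ * γ') := by rw [← hX]; simp only [mul_assoc]
          _ = X * ρ (σ y)⁻¹ := by rw [e2]

theorem noncentral {y : U} (hy : y ∉ Uc ρ) : ∃ (w : U) (ε : k), ε ≠ 1 ∧
    ρ (w * y * w⁻¹) = ε • ρ y := by
  rw [mem_Uc] at hy
  push Not at hy
  obtain ⟨w, hw⟩ := hy
  obtain ⟨ε, hε⟩ := D.scl _ (D.comm_mem w y)
  have h1 : ρ (w * y * w⁻¹) = ε • ρ y := by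
    have e : w * y * w⁻¹ = (w * y * w⁻¹ * y⁻¹) * y := by group
    rw [e, map_mul, hε, smul_mul_assoc, one_mul]
  refine ⟨w, ε, ?_, h1⟩
  rintro rfl
  rw [one_smul, map_mul, map_mul] at h1
  apply hw
  calc ρ y * ρ w = ρ w * ρ y * ρ w⁻¹ * ρ w := by rw [h1]
    _ = ρ w * ρ y := by rw [mul_assoc, rho_inv', mul_one]

theorem PP_zero {y : U} (hy : y ∉ Uc ρ) : PP ρ (ρ y) = 0 := by
  obtain ⟨w0, ε, hε, h1⟩ := D.noncentral hy
  have h2 : PP ρ (ρ y) = ε • PP ρ (ρ y) := by
    have h3 : PP ρ (ρ y) = PP ρ (ρ (w0 * y * w0⁻¹)) := by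
      unfold PP
      refine (Fintype.sum_equiv (Equiv.mulRight w0) _ _ fun w => ?_).symm
      change _ = ρ (w * w0) * ρ y * ρ (w * w0)⁻¹
      rw [mul_inv_rev, map_mul, map_mul, map_mul, map_mul]
      simp only [mul_assoc]
    calc PP ρ (ρ y) = PP ρ (ρ (w0 * y * w0⁻¹)) := h3
      _ = ε • PP ρ (ρ y) := by rw [h1, PP_smul]
  have h4 : (ε - 1) • PP ρ (ρ y) = 0 := by
    rw [sub_smul, one_smul, ← h2, sub_self]
  exact (smul_eq_zero.1 h4).resolve_left (sub_ne_zero.2 hε)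

/-- on scalars `σ` is trivial -/
theorem rho_sigma {u : U} (hu : u ∈ Uc ρ) : ρ (σ u) = ρ u := by
  obtain ⟨c, hc⟩ := D.scl u hu
  apply D.toDt.cancel D.hp.pos
  rw [← D.rel, hc, mul_smul_comm, smul_mul_assoc, mul_one, one_mul]

/-- elements fixed by `σ` modulo scalars are scalars -/
theorem mem_of_mod [Nontrivial M] [CharP k p] {u : U} (hu : u * (σ u)⁻¹ ∈ Uc ρ) : u ∈ Uc ρ := by
  have : Fact p.Prime := ⟨D.hp⟩
  obtain ⟨c, hc⟩ := D.scl _ hu
  have h0 : ρ u = c • ρ (σ u) := by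
    have e : u = u * (σ u)⁻¹ * σ u := by group
    calc ρ u = ρ (u * (σ u)⁻¹ * σ u) := by rw [← e]
      _ = c • ρ (σ u) := by rw [map_mul, hc, smul_mul_assoc, one_mul]
  have hk : ∀ i : ℕ, γ ^ i * ρ (σ u) = ρ (σ ((σ ^ i) u)) * γ ^ i := by
    intro i
    rw [rel_pow D.rel]
    congr 2
    change (σ ^ i * σ) u = (σ * σ ^ i) u
    rw [← pow_succ, ← pow_succ']
  have hinv : ∀ i : ℕ, ∀ X Y : Module.End k M, X * γ ^ i = Y * γ ^ i → X = Y := by
    intro i X Y h
    obtain ⟨γ', h1, h2, -⟩ := D.toDt.exists_inv D.hp.pos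
    have hcm : Commute γ γ' := by
      change γ * γ' = γ' * γ
      rw [h1, h2]
    have h3 := congrArg (fun Z => Z * γ' ^ i) h
    simp only [mul_assoc, ← hcm.mul_pow, h2, one_pow, mul_one] at h3
    exact h3
  have h1 : ∀ i : ℕ, ρ ((σ ^ i) u) = c • ρ (σ ((σ ^ i) u)) := by
    intro i
    apply hinv i
    rw [← rel_pow D.rel, h0, mul_smul_comm, hk, smul_mul_assoc]
  have h2 : ∀ i : ℕ, ρ u = c ^ i • ρ ((σ ^ i) u) := by
    intro i
    induction i with
    | zero => simp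
    | succ i ih =>
      rw [ih, h1 i, smul_smul, ← pow_succ]
      congr 2
      rw [pow_succ']
      rfl
  have h3 := h2 (p ^ m)
  rw [D.ord, MulAut.one_apply] at h3
  have h4 : c ^ p ^ m = 1 := by
    have h5 : (c ^ p ^ m - 1) • ρ u = 0 := by rw [sub_smul, one_smul, ← h3, sub_self]
    have h6 : ρ u ≠ 0 := by
      intro h
      have h7 := rho_inv (ρ := ρ) u
      rw [h, zero_mul] at h7
      exact zero_ne_one h7
    exact sub_eq_zero.1 ((smul_eq_zero.1 h5).resolve_right h6)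
  have h5 : c = 1 := by
    have h6 : (c - 1) ^ p ^ m = 0 := by rw [sub_pow_char_pow, h4, one_pow, sub_self]
    exact sub_eq_zero.1 (pow_eq_zero_iff (pow_ne_zero _ D.hp.ne_zero) |>.1 h6)
  rw [h5, one_smul] at h0
  -- the subgroup of such elements
  let F : Subgroup U :=
    { carrier := {x | ρ (σ x) = ρ x}
      one_mem' := by
        change ρ (σ 1) = ρ 1
        rw [map_one]
      mul_mem' := by
        intro a b ha hb
        change ρ (σ (a * b)) = ρ (a * b)
        rw [map_mul, map_mul, map_mul, ha, hb]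
      inv_mem' := by
        intro a ha
        change ρ (σ a⁻¹) = ρ a⁻¹
        have ha' : ρ (σ a) = ρ a := ha
        have e1 : ρ (σ a⁻¹) * ρ a = 1 := by
          rw [← ha', ← map_mul, ← map_mul, inv_mul_cancel, map_one, map_one]
        calc ρ (σ a⁻¹) = ρ (σ a⁻¹) * (ρ a * ρ a⁻¹) := by rw [rho_inv, mul_one]
          _ = ρ a⁻¹ := by rw [← mul_assoc, e1, one_mul] }
  have hF : F ≠ ⊤ := by
    intro h
    obtain ⟨w, hw⟩ := D.ntr
    apply hw
    have hγ : ∀ w, γ * ρ w = ρ w * γ := by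
      intro w
      have : w ∈ F := by rw [h]; exact Subgroup.mem_top w
      rw [D.rel]
      congr 1
    have : Commute γ (ρ w) := hγ w
    exact (this.pow_left _)
  refine D.mem_of_fixed (D.toDt.min F ?_ hF u h0.symm)
  intro x hx
  change ρ (σ (σ x)) = ρ (σ x)
  apply D.toDt.cancel D.hp.pos
  rw [← D.rel, ← D.rel]
  congr 1

variable [IsAlgClosed k] [FiniteDimensional k M] [Nontrivial M] [CharP k p]

/-- `γ` lies in the enveloping algebra -/
theorem gamma_mem : γ ∈ AA ρ := by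
  classical
  obtain ⟨γ', h1, h2, h3⟩ := D.toDt.exists_inv D.hp.pos
  obtain ⟨τ, hτ⟩ := D.toDt.schur (PP ρ γ) (PP_comm γ) (by
    have h4 := D.conj_PP h1 h2 γ
    rw [mul_assoc γ γ γ', h2, mul_one] at h4
    calc PP ρ γ * γ = γ * PP ρ γ * γ' * γ := by rw [h4]
      _ = γ * PP ρ γ := by rw [mul_assoc, h1, mul_one])
  let S : Module.End k M := ∑ u : U, ρ (u * (σ u)⁻¹)
  have hS : PP ρ γ = S * γ := by
    unfold PP
    rw [Finset.sum_mul]
    refine Finset.sum_congr rfl fun u _ => ?_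
    rw [mul_assoc, D.rel, ← mul_assoc, map_mul, map_inv]
  have hSA : S ∈ AA ρ := Subalgebra.sum_mem _ fun u _ => rho_mem _
  have hτ0 : τ ≠ 0 := by
    rintro rfl
    rw [zero_smul, hS] at hτ
    have h4 : S = 0 := by
      apply D.toDt.cancel D.hp.pos
      rw [hτ, zero_mul]
    have h5 : PP ρ S = 0 := by
      rw [h4]
      unfold PP
      simp
    have h6 : PP ρ S = ((Fintype.card U : k) * (Nat.card (Uc ρ) : k)) • (1 : Module.End k M) := by
      have h7 : ∀ u : U, PP ρ (ρ (u * (σ u)⁻¹)) =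
          if u ∈ Uc ρ then (Fintype.card U : k) • (1 : Module.End k M) else 0 := by
        intro u
        split_ifs with hu
        · have h8 : ρ (u * (σ u)⁻¹) = ρ 1 := by
            rw [map_mul, ← D.rho_sigma hu, rho_inv, map_one]
          rw [h8, PP_of_mem (one_mem _), map_one]
        · apply D.PP_zero
          intro h8
          exact hu (D.mem_of_mod h8)
      change PP ρ (∑ u : U, ρ (u * (σ u)⁻¹)) = _
      rw [PP_sum]
      simp only [h7]
      rw [← Finset.sum_filter, Finset.sum_const, ← Nat.cast_smul_eq_nsmul k, smul_smul, mul_comm]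
      congr 2
      rw [Nat.card_eq_fintype_card, Fintype.card_subtype]
    rw [h6] at h5
    have h7 := (smul_eq_zero.1 h5).resolve_right one_ne_zero
    rcases mul_eq_zero.1 h7 with h8 | h8
    · exact D.card_ne h8
    · exact D.card_Uc_ne h8
  have h4 : γ' = τ⁻¹ • S := by
    have h5 : S * γ = τ • 1 := by rw [← hS, hτ]
    calc γ' = τ⁻¹ • (τ • 1 * γ') := by
          rw [smul_mul_assoc, one_mul, smul_smul, inv_mul_cancel₀ hτ0, one_smul]
      _ = τ⁻¹ • (S * γ * γ') := by rw [h5]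
      _ = τ⁻¹ • S := by rw [mul_assoc, h2, mul_one]
  have h5 : γ' ∈ AA ρ := by
    rw [h4]
    exact Subalgebra.smul_mem _ hSA _
  have h6 : γ = γ' ^ (p ^ m - 1) := by
    have h7 : γ' ^ p ^ m = 1 := by
      rw [h3, ← pow_mul, mul_comm, pow_mul, D.toDt.gpow, one_pow]
    calc γ = γ * γ' ^ p ^ m := by rw [h7, mul_one]
      _ = γ * (γ' * γ' ^ (p ^ m - 1)) := by
          rw [← pow_succ', Nat.sub_add_cancel (Nat.one_le_pow _ _ D.hp.pos)]
      _ = γ' ^ (p ^ m - 1) := by rw [← mul_assoc, h2, one_mul]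
  rw [h6]
  exact Subalgebra.pow_mem _ h5 _

theorem sum_pi {X : Module.End k M} (hX : X ∈ AA ρ) :
    ∑ y, pi ρ X y = (Nat.card (Uc ρ) : k) • X := by
  classical
  obtain ⟨a, rfl⟩ := mem_AA hX
  have h1 : ∀ u : U, ∑ y, (Fintype.card U : k)⁻¹ • (PP ρ (ρ u * ρ y⁻¹) * ρ y) =
      (Nat.card (Uc ρ) : k) • ρ u := by
    intro u
    have h2 : ∑ y, (Fintype.card U : k)⁻¹ • (PP ρ (ρ u * ρ y⁻¹) * ρ y) =
        ∑ z, (Fintype.card U : k)⁻¹ • (PP ρ (ρ z) * ρ z⁻¹ * ρ u) := by
      refine Fintype.sum_equiv (Equiv.divLeft u) _ _ fun y => ?_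
      change _ = (Fintype.card U : k)⁻¹ • (PP ρ (ρ (u / y)) * ρ (u / y)⁻¹ * ρ u)
      rw [div_eq_mul_inv, map_mul, mul_inv_rev, inv_inv, mul_assoc, ← map_mul ρ (y * u⁻¹),
        inv_mul_cancel_right]
    rw [h2]
    have h3 : ∀ z : U, (Fintype.card U : k)⁻¹ • (PP ρ (ρ z) * ρ z⁻¹ * ρ u) =
        if z ∈ Uc ρ then ρ u else 0 := by
      intro z
      split_ifs with hz
      · rw [PP_of_mem hz, smul_mul_assoc, rho_inv, smul_mul_assoc, one_mul, smul_smul,
          inv_mul_cancel₀ D.card_ne, one_smul]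
      · rw [D.PP_zero hz, zero_mul, zero_mul, smul_zero]
    simp only [h3]
    rw [← Finset.sum_filter, Finset.sum_const, ← Nat.cast_smul_eq_nsmul k]
    congr 2
    rw [Nat.card_eq_fintype_card, Fintype.card_subtype]
  have h4 : ∀ y, pi ρ (∑ u, a u • ρ u) y =
      ∑ u, a u • ((Fintype.card U : k)⁻¹ • (PP ρ (ρ u * ρ y⁻¹) * ρ y)) := by
    intro y
    unfold pi
    rw [Finset.sum_mul, PP_sum, Finset.sum_mul, Finset.smul_sum]
    refine Finset.sum_congr rfl fun u _ => ?_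
    rw [smul_mul_assoc, PP_smul, smul_mul_assoc, smul_comm]
  simp only [h4]
  rw [Finset.sum_comm, Finset.smul_sum]
  refine Finset.sum_congr rfl fun u _ => ?_
  rw [← Finset.smul_sum, h1, smul_comm]

/-- elements of the enveloping algebra commuting with `γ` act as scalars on the fixed vectors -/
theorem scalar_on_fixed {X : Module.End k M} (hX : X ∈ AA ρ) (hXγ : X * γ = γ * X) :
    ∃ s : k, ∀ w : M, γ w = w → X w = s • w := by
  classical
  obtain ⟨γ', h1, h2, h3⟩ := D.toDt.exists_inv D.hp.pos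
  obtain ⟨s0, hs0⟩ := D.toDt.schur (PP ρ X) (PP_comm X) (by
    have h4 := D.conj_PP h1 h2 X
    have h5 : γ * X * γ' = X := by rw [← hXγ, mul_assoc, h2, mul_one]
    rw [h5] at h4
    calc PP ρ X * γ = γ * PP ρ X * γ' * γ := by rw [h4]
      _ = γ * PP ρ X := by rw [mul_assoc, h1, mul_one])
  refine ⟨(Fintype.card U : k)⁻¹ * s0, fun w hw => ?_⟩
  have hw' : γ' w = w := by
    have := congrArg (fun Z : Module.End k M => Z w) h1
    change γ' (γ w) = w at this
    rwa [hw] at this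
  have h4 : (Nat.card (Uc ρ) : k) • X w = ∑ y, pi ρ X y w := by
    rw [← LinearMap.sum_apply, D.sum_pi hX]
    rfl
  -- the free part
  have h5 : ∑ y : {y : U // y ∉ Uc ρ}, pi ρ X y w = 0 := by
    have hiff : ∀ x : U, σ.toEquiv x ∉ Uc ρ ↔ x ∉ Uc ρ := by
      intro x
      rw [not_iff_not]
      constructor
      · intro h
        change σ x ∈ Uc ρ at h
        have h6 := D.fix_Uc h
        apply D.mem_of_fixed
        apply σ.injective
        rw [← h6]
        change (σ * σ ^ p ^ (m - 1)) x = (σ ^ p ^ (m - 1)) (σ x)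
        rw [← pow_succ', pow_succ]
        rfl
      · intro h
        exact D.toDt.Uc_sigma D.hp.pos h
    let s : Equiv.Perm {y : U // y ∉ Uc ρ} := Equiv.Perm.subtypePerm σ.toEquiv hiff
    have hsk : ∀ (n : ℕ) (y : {y : U // y ∉ Uc ρ}), (((s ^ n) y : {y : U // y ∉ Uc ρ}) : U) =
        (σ ^ n) y := by
      intro n
      induction n with
      | zero => intro y; rfl
      | succ n ih =>
        intro y
        rw [pow_succ', Equiv.Perm.mul_apply, pow_succ', MulAut.mul_apply, ← ih]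
        rfl
    refine orbit_sum' D.hp s ?_ ?_ γ D.nrm (fun y => pi ρ X y w) ?_
    · ext y
      rw [hsk, D.ord]
      rfl
    · intro y hy
      apply y.2
      apply D.mem_of_fixed
      have := congrArg Subtype.val hy
      rwa [hsk] at this
    · intro y
      have h6 := D.gamma_pi h1 h2 X hXγ y
      have h7 := congrArg (fun Z : Module.End k M => Z w) h6
      change γ (pi ρ X y (γ' w)) = pi ρ X (σ y) w at h7
      rw [hw'] at h7
      exact h7
  have h6 : ∀ y ∈ Uc ρ, pi ρ X y w = ((Fintype.card U : k)⁻¹ * s0) • w := by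
    intro y hy
    have h7 : pi ρ X y = (Fintype.card U : k)⁻¹ • PP ρ X := by
      unfold pi
      rw [PP_mul_of_mem X (inv_mem hy), mul_assoc, rho_inv', mul_one]
    rw [h7, hs0, smul_smul]
    rfl
  have h7 : ∑ y, pi ρ X y w = (Nat.card (Uc ρ) : k) • (((Fintype.card U : k)⁻¹ * s0) • w) := by
    have h8 := Fintype.sum_subtype_add_sum_subtype (fun y : U => y ∈ Uc ρ)
      (fun y => pi ρ X y w)
    rw [← h8]
    have h9 : ∑ y : {y : U // ¬ y ∈ Uc ρ}, pi ρ X y w = 0 := h5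
    rw [h9, add_zero]
    rw [Finset.sum_congr rfl (fun (y : {y : U // y ∈ Uc ρ}) _ => h6 y y.2), Finset.sum_const,
      Finset.card_univ, ← Nat.cast_smul_eq_nsmul k, Nat.card_eq_fintype_card]
  rw [h7] at h4
  exact smul_right_injective M D.card_Uc_ne h4

end NT

end Pool.Agent.TH69.Od
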