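import Mathlib
import Pool.Agent.TH69.OdB

set_option autoImplicit false

/-!
# The theorem of Hall and Higman, part C: the dimension
-/

namespace Pool.Agent.TH69.Od

open Pool.Agent.TH69.HH

variable {k M U : Type} [Field k] [AddCommGroup M] [Module k M] [Group U]
variable {p m : ℕ} {ρ : U →* Module.End k M} {γ : Module.End k M} {σ : MulAut U}

namespace NT

variable [Fintype U] {q j : ℕ} (D : NT k p m ρ γ σ q j)
variable [IsAlgClosed k] [FiniteDimensional k M] [Nontrivial M] [CharP k p]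
include D

/-- the fixed vectors of `γ` form a line -/
theorem ker_line : ∃ (e : ℕ) (w0 : M), e + 1 ≤ p ^ m - 1 ∧ (γ - 1) ^ (e + 1) = 0 ∧
    ∀ w, (γ - 1) w = 0 → ∃ c : k, w = c • w0 := by
  classical
  have hp1 : Fact p.Prime := ⟨D.hp⟩
  let T : Module.End k M := γ - 1
  have hTA : T ∈ AA ρ := Subalgebra.sub_mem _ D.gamma_mem (Subalgebra.one_mem _)
  have hex : ∃ e, T ^ e = 0 := ⟨p ^ m - 1, by
    change (γ - 1) ^ (p ^ m - 1) = 0
    rw [sub_pow_eq_sum', D.nrm]⟩
  let e := Nat.find hex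
  have he : T ^ e = 0 := Nat.find_spec hex
  have hep : e ≤ p ^ m - 1 := Nat.find_min' hex (by
    change (γ - 1) ^ (p ^ m - 1) = 0
    rw [sub_pow_eq_sum', D.nrm])
  have he0 : e ≠ 0 := by
    intro h0
    rw [h0, pow_zero] at he
    exact one_ne_zero he
  obtain ⟨n, hn⟩ : ∃ n, e = n + 1 := ⟨e - 1, by omega⟩
  have hTn : T ^ n ≠ 0 := Nat.find_min hex (by omega)
  rw [hn] at he hep
  obtain ⟨m0, hm0⟩ : ∃ m0, (T ^ n) m0 ≠ 0 := by
    by_contra hcon
    push Not at hcon
    exact hTn (LinearMap.ext hcon)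
  let w0 := (T ^ n) m0
  have hfix : ∀ w : M, T w = 0 ↔ γ w = w := by
    intro w
    change γ w - w = 0 ↔ _
    exact sub_eq_zero
  have hTw0 : T w0 = 0 := by
    change (T * T ^ n) m0 = 0
    rw [← pow_succ', he]
    rfl
  have hw0 : γ w0 = w0 := (hfix _).1 hTw0
  -- the orbit of `w0`
  let W : Submodule k M := (Subalgebra.toSubmodule (AA ρ)).map (LinearMap.applyₗ w0)
  have hWmem : ∀ m, m ∈ W ↔ ∃ X ∈ AA ρ, X w0 = m := by
    intro m
    constructor
    · rintro ⟨X, hX, rfl⟩; exact ⟨X, hX, rfl⟩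
    · rintro ⟨X, hX, rfl⟩; exact ⟨X, hX, rfl⟩
  have hW : W = ⊤ := by
    refine (D.irr W ?_ ?_).resolve_left ?_
    · intro u m hm
      rw [hWmem] at hm ⊢
      obtain ⟨X, hX, rfl⟩ := hm
      exact ⟨ρ u * X, Subalgebra.mul_mem _ (rho_mem u) hX, rfl⟩
    · intro m hm
      rw [hWmem] at hm ⊢
      obtain ⟨X, hX, rfl⟩ := hm
      exact ⟨γ * X, Subalgebra.mul_mem _ D.gamma_mem hX, rfl⟩
    · intro h
      have h1 : w0 ∈ W := (hWmem _).2 ⟨1, Subalgebra.one_mem _, rfl⟩
      rw [h, Submodule.mem_bot] at h1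
      exact hm0 h1
  have hall : ∀ m, ∃ X ∈ AA ρ, X w0 = m := fun m => (hWmem m).1 (by
    rw [hW]; exact Submodule.mem_top)
  -- the commuting elements
  have hs : ∀ Y ∈ AA ρ, ∃ s : k, ∀ w : M, γ w = w → (T ^ n) (Y w) = s • w := by
    intro Y hY
    let X : Module.End k M := ∑ i ∈ Finset.range (n + 1), T ^ i * Y * T ^ (n - i)
    have hXA : X ∈ AA ρ := Subalgebra.sum_mem _ fun i _ =>
      Subalgebra.mul_mem _ (Subalgebra.mul_mem _ (Subalgebra.pow_mem _ hTA _) hY)
        (Subalgebra.pow_mem _ hTA _)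
    have hXT : X * T = T * X := by
      have e1 : T * X = ∑ i ∈ Finset.range n, T ^ (i + 1) * Y * T ^ (n - i) := by
        change T * ∑ i ∈ Finset.range (n + 1), T ^ i * Y * T ^ (n - i) = _
        rw [Finset.mul_sum, Finset.sum_range_succ]
        have e2 : T * (T ^ n * Y * T ^ (n - n)) = 0 := by
          rw [← mul_assoc, ← mul_assoc, ← pow_succ', he, zero_mul, zero_mul]
        rw [e2, add_zero]
        refine Finset.sum_congr rfl fun i _ => ?_
        rw [← mul_assoc, ← mul_assoc, ← pow_succ']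
      have e3 : X * T = ∑ i ∈ Finset.range n, T ^ (i + 1) * Y * T ^ (n - i) := by
        change (∑ i ∈ Finset.range (n + 1), T ^ i * Y * T ^ (n - i)) * T = _
        rw [Finset.sum_mul, Finset.sum_range_succ']
        have e4 : T ^ 0 * Y * T ^ (n - 0) * T = 0 := by
          rw [mul_assoc, ← pow_succ, Nat.sub_zero, he, mul_zero]
        rw [e4, add_zero]
        refine Finset.sum_congr rfl fun i hi => ?_
        rw [Finset.mem_range] at hi
        rw [mul_assoc, ← pow_succ]
        congr 2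
        omega
      rw [e1, e3]
    have hXγ : X * γ = γ * X := by
      have e5 : γ = T + 1 := by simp [T]
      rw [e5, mul_add, add_mul, hXT, mul_one, one_mul]
    obtain ⟨s, hs⟩ := D.scalar_on_fixed hXA hXγ
    refine ⟨s, fun w hw => ?_⟩
    have hTw : T w = 0 := (hfix w).2 hw
    rw [← hs w hw]
    change _ = (∑ i ∈ Finset.range (n + 1), T ^ i * Y * T ^ (n - i)) w
    rw [LinearMap.sum_apply, Finset.sum_eq_single n]
    · rw [Nat.sub_self, pow_zero, mul_one]
      rfl
    · intro i hi hin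
      rw [Finset.mem_range] at hi
      obtain ⟨c, hc⟩ : ∃ c, n - i = c + 1 := ⟨n - i - 1, by omega⟩
      rw [hc, pow_succ]
      change (T ^ i * Y) ((T ^ c) (T w)) = 0
      rw [hTw, map_zero, map_zero]
    · intro h
      exact absurd (Finset.mem_range.2 (Nat.lt_succ_self n)) h
  -- the kernel is one-dimensional
  refine ⟨n, w0, hep, he, ?_⟩
  intro w hw
  obtain ⟨Y, hY, hYw⟩ := hall m0
  obtain ⟨s, hs1⟩ := hs Y hY
  have hs0 : s ≠ 0 := by
    rintro rfl
    have h1 := hs1 w0 hw0
    rw [zero_smul, hYw] at h1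
    exact hm0 h1
  obtain ⟨X, hX, hXw⟩ := hall w
  obtain ⟨t, ht⟩ := hs (Y * X) (Subalgebra.mul_mem _ hY hX)
  refine ⟨s⁻¹ * t, ?_⟩
  have h2 := hs1 w ((hfix w).1 hw)
  have h3 := ht w0 hw0
  change (T ^ n) (Y (X w0)) = _ at h3
  rw [hXw, h2] at h3
  rw [mul_smul, ← h3, smul_smul, inv_mul_cancel₀ hs0, one_smul]

/-- the dimension is smaller than `p ^ m`, and `γ - 1` is nilpotent of maximal index -/
theorem dim_lt : Module.finrank k M < p ^ m ∧ (γ - 1) ^ (Module.finrank k M - 1) ≠ 0 := by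
  obtain ⟨n, w0, h1, h2, h3⟩ := D.ker_line
  have key : ∀ i : ℕ, (γ - 1) ^ i = 0 → Module.finrank k M ≤ i := by
    intro i hi
    have h4 := nil_dim (γ - 1) w0 h3 i
    rw [hi] at h4
    have h5 : LinearMap.ker (0 : Module.End k M) = ⊤ := LinearMap.ker_zero
    rwa [h5, finrank_top] at h4
  have h4 := key _ h2
  have h0 : 0 < Module.finrank k M := Module.finrank_pos
  refine ⟨by omega, fun h => ?_⟩
  have := key _ h
  omega

/-- the enveloping algebra is everything -/
theorem AA_top : AA ρ = ⊤ := by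
  classical
  have hsmul : ∀ (a : AA ρ) (v : M), a • v = (a : Module.End k M) v := fun a v => rfl
  have hsimple : IsSimpleModule (AA ρ) M := by
    refine { exists_pair_ne := ⟨⊥, ⊤, bot_ne_top⟩, eq_bot_or_eq_top := ?_ }
    intro N
    let W : Submodule k M := N.restrictScalars k
    have hW : ∀ v, v ∈ W ↔ v ∈ N := fun v => Iff.rfl
    have hu : ∀ u, ∀ v ∈ W, ρ u v ∈ W := fun u v hv => N.smul_mem (⟨ρ u, rho_mem u⟩ : AA ρ) hv
    have hg : ∀ v ∈ W, γ v ∈ W := fun v hv => N.smul_mem (⟨γ, D.gamma_mem⟩ : AA ρ) hv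
    rcases D.irr W hu hg with h | h
    · left
      rw [eq_bot_iff]
      intro v hv
      rw [← hW, h, Submodule.mem_bot] at hv
      rw [hv]
      exact zero_mem _
    · right
      rw [eq_top_iff]
      intro v _
      have h1 : v ∈ W := by rw [h]; exact Submodule.mem_top
      exact h1
  -- endomorphisms are scalars
  have hend : ∀ φ : Module.End (AA ρ) M, ∃ c : k, ∀ v, φ v = c • v := by
    intro φ
    let X : Module.End k M :=
      { toFun := φ
        map_add' := φ.map_add
        map_smul' := by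
          intro c v
          have h1 := φ.map_smul (algebraMap k (AA ρ) c) v
          rw [algebraMap_smul, algebraMap_smul] at h1
          exact h1 }
    obtain ⟨c, hc⟩ := D.toDt.schur X (by
      intro u
      ext v
      exact φ.map_smul (⟨ρ u, rho_mem u⟩ : AA ρ) v) (by
      ext v
      exact φ.map_smul (⟨γ, D.gamma_mem⟩ : AA ρ) v)
    refine ⟨c, fun v => ?_⟩
    have h2 := congrArg (fun Z : Module.End k M => Z v) hc
    exact h2
  rw [eq_top_iff]
  intro X _
  let f : Module.End (Module.End (AA ρ) M) M :=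
    { toFun := X
      map_add' := X.map_add
      map_smul' := by
        intro φ v
        obtain ⟨c, hc⟩ := hend φ
        change X (φ v) = φ (X v)
        rw [hc, hc, map_smul] }
  let b := Module.finBasis k M
  obtain ⟨r, hr⟩ := jacobson_density f (Finset.univ.image b)
  have h1 : X = (r : Module.End k M) := by
    refine b.ext fun i => ?_
    exact hr (b i) (Finset.mem_image_of_mem _ (Finset.mem_univ i))
  rw [h1]
  exact r.2

/-- the values of `ρ` at representatives modulo `Uc` -/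
theorem basis_rep : LinearIndependent k (fun x : U ⧸ Uc ρ => ρ (Quotient.out x)) ∧
    Submodule.span k (Set.range fun x : U ⧸ Uc ρ => ρ (Quotient.out x)) = ⊤ := by
  classical
  have := Fintype.ofFinite (U ⧸ Uc ρ)
  let r : U ⧸ Uc ρ → U := Quotient.out
  have hr : ∀ x : U ⧸ Uc ρ, (QuotientGroup.mk (r x) : U ⧸ Uc ρ) = x := fun x => Quotient.out_eq x
  have hli : LinearIndependent k (fun x : U ⧸ Uc ρ => ρ (r x)) := by
    rw [Fintype.linearIndependent_iff]
    intro a ha x0
    have h1 : ∑ x, a x • PP ρ (ρ ((r x0)⁻¹ * r x)) = 0 := by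
      have h2 : PP ρ (ρ (r x0)⁻¹ * ∑ x, a x • ρ (r x)) = 0 := by
        rw [ha, mul_zero]
        unfold PP
        simp
      rw [Finset.mul_sum, PP_sum] at h2
      rw [← h2]
      refine Finset.sum_congr rfl fun x _ => ?_
      rw [mul_smul_comm, PP_smul, map_mul]
    rw [Finset.sum_eq_single x0] at h1
    · rw [inv_mul_cancel, PP_of_mem (one_mem _), map_one, smul_smul] at h1
      have h3 := (smul_eq_zero.1 h1).resolve_right one_ne_zero
      exact (mul_eq_zero.1 h3).resolve_right D.card_ne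
    · intro x _ hx
      rw [D.PP_zero, smul_zero]
      intro h
      apply hx
      rw [← QuotientGroup.eq, hr, hr] at h
      exact h.symm
    · intro h
      exact absurd (Finset.mem_univ x0) h
  refine ⟨hli, ?_⟩
  rw [eq_top_iff]
  intro X _
  have hX : X ∈ AA ρ := by rw [D.AA_top]; exact Algebra.mem_top
  obtain ⟨a, rfl⟩ := mem_AA hX
  refine Submodule.sum_mem _ fun u _ => Submodule.smul_mem _ _ ?_
  have h1 : (r (QuotientGroup.mk u))⁻¹ * u ∈ Uc ρ := by
    rw [← QuotientGroup.eq, hr]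
  obtain ⟨c, hc⟩ := D.scl _ h1
  have h2 : ρ u = c • ρ (r (QuotientGroup.mk u)) := by
    have e : u = r (QuotientGroup.mk u) * ((r (QuotientGroup.mk u))⁻¹ * u) := by group
    calc ρ u = ρ (r (QuotientGroup.mk u) * ((r (QuotientGroup.mk u))⁻¹ * u)) := by rw [← e]
      _ = c • ρ (r (QuotientGroup.mk u)) := by
          rw [map_mul, hc, mul_smul_comm, mul_one]
  rw [h2]
  exact Submodule.smul_mem _ _ (Submodule.subset_span ⟨_, rfl⟩)

theorem index_eq : Nat.card (U ⧸ Uc ρ) = Module.finrank k M * Module.finrank k M := by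
  classical
  have := Fintype.ofFinite (U ⧸ Uc ρ)
  obtain ⟨hli, hspan⟩ := D.basis_rep
  have h3 := finrank_span_eq_card hli
  rw [hspan, finrank_top] at h3
  rw [Nat.card_eq_fintype_card, ← h3]
  exact Module.finrank_linearMap k k M M

end NT

end Pool.Agent.TH69.Od
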