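import Mathlib
import Pool.Agent.TH69.OdC

set_option autoImplicit false

/-!
# The theorem of Hall and Higman, part D: counting
-/

namespace Pool.Agent.TH69.Od

open Pool.Agent.TH69.HH

variable {k M U : Type} [Field k] [AddCommGroup M] [Module k M] [Group U]
variable {p m : ℕ} {ρ : U →* Module.End k M} {γ : Module.End k M} {σ : MulAut U}

theorem orbit_inj {Ω : Type} {p m : ℕ} (hp : p.Prime) (s : Equiv.Perm Ω)
    (hs : s ^ p ^ m = 1) {x : Ω} (hx : (s ^ p ^ (m - 1)) x ≠ x) :
    Set.InjOn (fun i => (s ^ i) x) (Finset.range (p ^ m) : Set ℕ) := by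
  have key : ∀ i j : ℕ, i < j → j < p ^ m → (s ^ i) x ≠ (s ^ j) x := by
    intro i j hij hj h
    have h1 : (s ^ (j - i)) x = x := by
      have h2 : (s ^ i) ((s ^ (j - i)) x) = (s ^ i) x := by
        rw [← Equiv.Perm.mul_apply, ← pow_add, show i + (j - i) = j from by omega]
        exact h.symm
      exact (s ^ i).injective h2
    obtain ⟨m', hm'⟩ := pow_of_lt hp hs (d := j - i) (by omega) (by omega)
    have h5 : ∀ n : ℕ, ((s ^ (j - i)) ^ n) x = x := by
      intro n
      induction n with
      | zero => rfl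
      | succ n ih => rw [pow_succ, Equiv.Perm.mul_apply, h1, ih]
    have h6 := h5 m'
    rw [hm'] at h6
    exact hx h6
  intro i hi j hj h
  rw [Finset.mem_coe, Finset.mem_range] at hi hj
  rcases lt_trichotomy i j with h1 | h1 | h1
  · exact absurd h (key i j h1 hj)
  · exact h1
  · exact absurd h.symm (key j i h1 hi)

/-- the number of orbits -/
theorem orbit_count {Ω : Type} [Fintype Ω] [DecidableEq Ω] {p m : ℕ} (hp : p.Prime)
    (s : Equiv.Perm Ω) (hs : s ^ p ^ m = 1) (x0 : Ω)
    (hfree : ∀ x, x ≠ x0 → (s ^ p ^ (m - 1)) x ≠ x) [Fintype (Quotient (Equiv.Perm.SameCycle.setoid s))] :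
    (Fintype.card (Quotient (Equiv.Perm.SameCycle.setoid s)) - 1) * p ^ m + 1 ≤
      Fintype.card Ω := by
  classical
  let O := Quotient (Equiv.Perm.SameCycle.setoid s)
  let π : Ω → O := Quotient.mk _
  have h1 : Fintype.card Ω = ∑ o : O, (Finset.univ.filter fun x => π x = o).card := by
    rw [← Finset.card_univ]
    exact Finset.card_eq_sum_card_fiberwise fun _ _ => Finset.mem_univ _
  have h2 : ∀ o : O, o ≠ π x0 → p ^ m ≤ (Finset.univ.filter fun x => π x = o).card := by
    intro o ho
    obtain ⟨x, rfl⟩ := Quotient.exists_rep o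
    have hx : x ≠ x0 := by
      rintro rfl
      exact ho rfl
    have hinj := orbit_inj hp s hs (hfree x hx)
    have h3 : ((Finset.range (p ^ m)).image fun i => (s ^ i) x) ⊆
        Finset.univ.filter fun y => π y = π x := by
      intro y hy
      obtain ⟨i, -, rfl⟩ := Finset.mem_image.1 hy
      rw [Finset.mem_filter]
      refine ⟨Finset.mem_univ _, Quotient.sound ?_⟩
      change s.SameCycle ((s ^ i) x) x
      exact ⟨-i, by
        rw [zpow_neg, zpow_natCast, ← Equiv.Perm.mul_apply, inv_mul_cancel, Equiv.Perm.one_apply]⟩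
    have h4 := Finset.card_le_card h3
    rw [Finset.card_image_of_injOn hinj, Finset.card_range] at h4
    exact h4
  have h5 : 1 ≤ (Finset.univ.filter fun x => π x = π x0).card :=
    Finset.card_pos.2 ⟨x0, by simp⟩
  rw [h1, ← Finset.add_sum_erase _ _ (Finset.mem_univ (π x0))]
  have h6 : (Fintype.card O - 1) * p ^ m ≤
      ∑ o ∈ Finset.univ.erase (π x0), (Finset.univ.filter fun x => π x = o).card := by
    have h7 : ∑ o ∈ Finset.univ.erase (π x0), p ^ m ≤
        ∑ o ∈ Finset.univ.erase (π x0), (Finset.univ.filter fun x => π x = o).card := by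
      refine Finset.sum_le_sum fun o ho => h2 o (Finset.ne_of_mem_erase ho)
    rw [Finset.sum_const, Finset.card_erase_of_mem (Finset.mem_univ _), Finset.card_univ,
      smul_eq_mul] at h7
    exact h7
  change (Fintype.card O - 1) * p ^ m + 1 ≤ _
  omega

namespace NT

variable [Fintype U] {q j : ℕ} (D : NT k p m ρ γ σ q j)
include D

theorem sigma_mem {u : U} (h : σ u ∈ Uc ρ) : u ∈ Uc ρ := by
  have h6 := D.fix_Uc h
  apply D.mem_of_fixed
  apply σ.injective
  rw [← h6]
  change (σ * σ ^ p ^ (m - 1)) u = (σ ^ p ^ (m - 1)) (σ u)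
  rw [← pow_succ', pow_succ]
  rfl

theorem zeta_mod {u : U} (h : u⁻¹ * (σ ^ p ^ (m - 1)) u ∈ Uc ρ) : u ∈ Uc ρ := by
  have h1 := D.fix_Uc h
  apply D.mem_of_fixed
  obtain ⟨ζ, hζ⟩ : ∃ ζ, ζ = σ ^ p ^ (m - 1) := ⟨_, rfl⟩
  rw [← hζ] at h1 ⊢
  have hζp : ζ ^ p = 1 := by
    rw [hζ, ← pow_mul, ← pow_succ, Nat.sub_add_cancel D.hm, D.ord]
  have h5 : ∀ n : ℕ, (ζ ^ n) u = u * (u⁻¹ * ζ u) ^ n := by
    intro n
    induction n with
    | zero => simp
    | succ n ih =>
      rw [pow_succ', MulAut.mul_apply, ih, map_mul, map_pow, h1, pow_succ', ← mul_assoc,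
        mul_inv_cancel_left]
  have h6 := h5 p
  rw [hζp, MulAut.one_apply] at h6
  have h7 : (u⁻¹ * ζ u) ^ p = 1 := by
    have : u * 1 = u * (u⁻¹ * ζ u) ^ p := by rw [mul_one]; exact h6
    exact (mul_left_cancel this).symm
  have h8 := HH.eq_one_of_coprime D.cop1 h7 (D.exp _)
  rw [inv_mul_eq_one] at h8
  exact h8.symm

/-- the permutation of the cosets -/
theorem exists_perm : ∃ s : Equiv.Perm (U ⧸ Uc ρ), ∀ (n : ℕ) (u : U),
    (s ^ n) (QuotientGroup.mk u) = QuotientGroup.mk ((σ ^ n) u) := by
  let f : U ⧸ Uc ρ → U ⧸ Uc ρ := Quotient.map' σ (by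
    intro a b h
    rw [QuotientGroup.leftRel_apply] at h ⊢
    rw [← map_inv, ← map_mul]
    exact D.toDt.Uc_sigma D.hp.pos h)
  have hf : ∀ u : U, f (QuotientGroup.mk u) = QuotientGroup.mk (σ u) := fun u => rfl
  have hinj : Function.Injective f := by
    intro x y hxy
    obtain ⟨x, rfl⟩ := QuotientGroup.mk_surjective x
    obtain ⟨y, rfl⟩ := QuotientGroup.mk_surjective y
    rw [hf, hf, QuotientGroup.eq, ← map_inv, ← map_mul] at hxy
    rw [QuotientGroup.eq]
    exact D.sigma_mem hxy
  refine ⟨Equiv.ofBijective f ((Finite.injective_iff_bijective).1 hinj), ?_⟩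
  intro n
  induction n with
  | zero => intro u; rfl
  | succ n ih =>
    intro u
    rw [pow_succ', Equiv.Perm.mul_apply, ih, Equiv.ofBijective_apply, hf, pow_succ']
    rfl

variable [IsAlgClosed k] [FiniteDimensional k M] [Nontrivial M] [CharP k p]

/-- the dimension is at most the number of orbits -/
theorem le_orbits (s : Equiv.Perm (U ⧸ Uc ρ)) (hs : ∀ (n : ℕ) (u : U),
    (s ^ n) (QuotientGroup.mk u) = QuotientGroup.mk ((σ ^ n) u))
    [Fintype (Quotient (Equiv.Perm.SameCycle.setoid s))] :
    Module.finrank k M ≤ Fintype.card (Quotient (Equiv.Perm.SameCycle.setoid s)) := by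
  classical
  have hp1 : Fact p.Prime := ⟨D.hp⟩
  have := Fintype.ofFinite (U ⧸ Uc ρ)
  obtain ⟨hli, hspan⟩ := D.basis_rep
  let b := Module.Basis.mk hli hspan.ge
  have hb : ∀ i, b i = ρ (Quotient.out i) := fun i => Module.Basis.mk_apply hli hspan.ge i
  obtain ⟨γ', h1, h2, -⟩ := D.toDt.exists_inv D.hp.pos
  -- the action on the basis
  have hc : ∀ i, ∃ c : k, c ≠ 0 ∧ γ * b i * γ' = c • b (s i) := by
    intro i
    have e1 : γ * ρ (Quotient.out i) * γ' = ρ (σ (Quotient.out i)) := by
      rw [D.rel, mul_assoc, h2, mul_one]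
    have hmem : (Quotient.out (s i))⁻¹ * σ (Quotient.out i) ∈ Uc ρ := by
      rw [← QuotientGroup.eq]
      have h3 := hs 1 (Quotient.out i)
      rw [pow_one, pow_one] at h3
      rw [← h3]
      have h4 : (QuotientGroup.mk (Quotient.out i) : U ⧸ Uc ρ) = i := Quotient.out_eq i
      have h5 : (QuotientGroup.mk (Quotient.out (s i)) : U ⧸ Uc ρ) = s i := Quotient.out_eq _
      rw [h4, h5]
    obtain ⟨c, hc⟩ := D.scl _ hmem
    refine ⟨c, ?_, ?_⟩
    · rintro rfl
      have h7 := rho_inv (ρ := ρ) ((Quotient.out (s i))⁻¹ * σ (Quotient.out i))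
      rw [hc, zero_smul, zero_mul] at h7
      exact zero_ne_one h7
    · rw [hb, hb, e1]
      have e : σ (Quotient.out i) = Quotient.out (s i) *
          ((Quotient.out (s i))⁻¹ * σ (Quotient.out i)) := by group
      rw [e, map_mul, hc, mul_smul_comm, mul_one]
  choose c hc0 hcb using hc
  -- the centralizer
  let C : Submodule k (Module.End k M) :=
    { carrier := {X | X * γ = γ * X}
      add_mem' := by
        intro X Y hX hY
        change (X + Y) * γ = γ * (X + Y)
        have hX' : X * γ = γ * X := hX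
        have hY' : Y * γ = γ * Y := hY
        rw [add_mul, mul_add, hX', hY']
      zero_mem' := by
        change (0 : Module.End k M) * γ = γ * 0
        rw [zero_mul, mul_zero]
      smul_mem' := by
        intro a X hX
        change (a • X) * γ = γ * (a • X)
        have hX' : X * γ = γ * X := hX
        rw [smul_mul_assoc, mul_smul_comm, hX'] }
  have hCs : ∀ X ∈ C, ∀ i, b.repr X (s i) = c i * b.repr X i := by
    intro X hX i
    have hX' : X * γ = γ * X := hX
    have h3 : γ * X * γ' = X := by rw [← hX', mul_assoc, h2, mul_one]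
    have h4 : X = ∑ i, (b.repr X i * c i) • b (s i) := by
      conv_lhs => rw [← h3, ← b.sum_repr X]
      rw [Finset.mul_sum, Finset.sum_mul]
      refine Finset.sum_congr rfl fun i _ => ?_
      rw [mul_smul_comm, smul_mul_assoc, hcb, smul_smul]
    have h5 : X = ∑ i, (b.repr X (s.symm i) * c (s.symm i)) • b i := by
      conv_lhs => rw [h4]
      refine Fintype.sum_equiv s _ _ fun i => ?_
      rw [Equiv.symm_apply_apply]
    have h6 := congrArg (fun Y => b.repr Y (s i)) h5
    simp only [map_sum, map_smul, Module.Basis.repr_self] at h6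
    rw [Finsupp.finsetSum_apply] at h6
    rw [h6, Finset.sum_eq_single (s i)]
    · rw [Equiv.symm_apply_apply, Finsupp.smul_apply, Finsupp.single_eq_same, smul_eq_mul, mul_one,
        mul_comm]
    · intro i' _ hne
      rw [Finsupp.smul_apply, Finsupp.single_eq_of_ne hne.symm, smul_zero]
    · intro h
      exact absurd (Finset.mem_univ _) h
  let Φ : C →ₗ[k] (Quotient (Equiv.Perm.SameCycle.setoid s) → k) :=
    { toFun := fun X o => b.repr (X : Module.End k M) (Quotient.out o)
      map_add' := by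
        intro X Y
        funext o
        change b.repr ((X : Module.End k M) + Y) _ = _
        rw [map_add]
        rfl
      map_smul' := by
        intro a X
        funext o
        change b.repr (a • (X : Module.End k M)) _ = _
        rw [map_smul]
        rfl }
  have hΦ : Function.Injective Φ := by
    rw [← LinearMap.ker_eq_bot, LinearMap.ker_eq_bot']
    intro X hX
    apply Subtype.ext
    apply b.repr.injective
    rw [Submodule.coe_zero, map_zero]
    ext i
    rw [Finsupp.zero_apply]
    have h3 : b.repr (X : Module.End k M) (Quotient.out (Quotient.mk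
        (Equiv.Perm.SameCycle.setoid s) i)) = 0 := congrFun hX _
    have h4 : s.SameCycle (Quotient.out (Quotient.mk (Equiv.Perm.SameCycle.setoid s) i)) i :=
      Quotient.exact (Quotient.out_eq (Quotient.mk (Equiv.Perm.SameCycle.setoid s) i))
    obtain ⟨n, hn⟩ := h4.exists_nat_pow_eq
    have h5 : ∀ n : ℕ, ∀ i0, b.repr (X : Module.End k M) i0 = 0 →
        b.repr (X : Module.End k M) ((s ^ n) i0) = 0 := by
      intro n
      induction n with
      | zero => intro i0 h; exact h
      | succ n ih =>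
        intro i0 h
        rw [pow_succ', Equiv.Perm.mul_apply, hCs _ X.2, ih i0 h, mul_zero]
    rw [← hn]
    exact h5 n _ h3
  -- powers of `γ - 1`
  obtain ⟨e, w0, he1, he2, he3⟩ := D.ker_line
  obtain ⟨d, -, hd⟩ := (dvd_prime_pow Polynomial.prime_X (e + 1)).1
    (minpoly.dvd k (γ - 1) (p := Polynomial.X ^ (e + 1)) (by simpa using he2))
  have hint : IsIntegral k (γ - 1) := Algebra.IsIntegral.isIntegral _
  have hd' : minpoly k (γ - 1) = Polynomial.X ^ d :=
    Polynomial.eq_of_monic_of_associated (minpoly.monic hint) (Polynomial.monic_X_pow d) hd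
  have hTd : (γ - 1) ^ d = 0 := by
    have := minpoly.aeval k (γ - 1)
    rw [hd'] at this
    simpa using this
  have hNd : Module.finrank k M ≤ d := by
    have h4 := nil_dim (γ - 1) w0 he3 d
    rw [hTd] at h4
    have h5 : LinearMap.ker (0 : Module.End k M) = ⊤ := LinearMap.ker_zero
    rwa [h5, finrank_top] at h4
  have hdeg : (minpoly k (γ - 1)).natDegree = d := by rw [hd', Polynomial.natDegree_X_pow]
  have hlp := linearIndependent_pow (K := k) (γ - 1)
  have hcm : ∀ i : ℕ, (γ - 1) ^ i ∈ C := by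
    intro i
    change (γ - 1) ^ i * γ = γ * (γ - 1) ^ i
    have h6 : Commute (γ - 1) γ := by
      change (γ - 1) * γ = γ * (γ - 1)
      rw [sub_mul, mul_sub, one_mul, mul_one]
    exact (h6.pow_left i)
  have hlC : LinearIndependent k (fun i : Fin (minpoly k (γ - 1)).natDegree =>
      (⟨(γ - 1) ^ (i : ℕ), hcm i⟩ : C)) :=
    LinearIndependent.of_comp C.subtype hlp
  have h7 := hlC.fintype_card_le_finrank
  rw [Fintype.card_fin, hdeg] at h7
  have h8 := LinearMap.finrank_le_finrank_of_injective hΦ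
  rw [Module.finrank_fintype_fun_eq_card] at h8
  omega

theorem count : ∃ r, 1 ≤ r ∧ q ^ r = p ^ m - 1 := by
  classical
  have := Fintype.ofFinite (U ⧸ Uc ρ)
  obtain ⟨s, hs⟩ := D.exists_perm
  have := Fintype.ofFinite (Quotient (Equiv.Perm.SameCycle.setoid s))
  have h1 := D.le_orbits s hs
  have h2 := orbit_count D.hp s (m := m) (by
    ext x
    obtain ⟨x, rfl⟩ := QuotientGroup.mk_surjective x
    rw [hs, D.ord]
    rfl) (QuotientGroup.mk 1) (by
    intro x hx h
    obtain ⟨x, rfl⟩ := QuotientGroup.mk_surjective x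
    rw [hs] at h
    apply hx
    have h3 := D.zeta_mod (QuotientGroup.eq.1 h.symm)
    rw [QuotientGroup.eq, mul_one]
    exact inv_mem h3)
  have h3 := D.index_eq
  rw [Nat.card_eq_fintype_card] at h3
  obtain ⟨h4, -⟩ := D.dim_lt
  have h0 : 0 < Module.finrank k M := Module.finrank_pos
  rw [h3] at h2
  have h8 : Module.finrank k M ≠ 1 := by
    intro hN1
    rw [hN1, one_mul] at h3
    apply D.ne
    rw [← Nat.card_eq_fintype_card] at h3
    exact Subgroup.index_eq_one.1 h3
  have h9 : Module.finrank k M = p ^ m - 1 := by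
    generalize Module.finrank k M = N at *
    generalize Fintype.card (Quotient (Equiv.Perm.SameCycle.setoid s)) = o at *
    generalize p ^ m = P at *
    have h10 : (N - 1) * P + 1 ≤ N * N := by
      have : (N - 1) * P ≤ (o - 1) * P := Nat.mul_le_mul_right _ (by omega)
      omega
    by_contra hne
    have h11 : N + 2 ≤ P := by omega
    have h12 : (N - 1) * (N + 2) ≤ (N - 1) * P := Nat.mul_le_mul_left _ h11
    obtain ⟨a, rfl⟩ : ∃ a, N = a + 2 := ⟨N - 2, by omega⟩
    have h13 : a + 2 - 1 = a + 1 := by omega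
    rw [h13] at h10 h12
    nlinarith
  have h10 : Module.finrank k M ∣ q ^ j := by
    have h11 : Nat.card (U ⧸ Uc ρ) ∣ Nat.card U := Subgroup.card_quotient_dvd_card _
    rw [Nat.card_eq_fintype_card, h3, Nat.card_eq_fintype_card, D.card] at h11
    exact (Dvd.intro _ rfl).trans h11
  obtain ⟨r, -, hr⟩ := (Nat.dvd_prime_pow D.hq).1 h10
  refine ⟨r, ?_, by rw [← hr, h9]⟩
  rcases Nat.eq_zero_or_pos r with h | h
  · rw [h, pow_zero] at hr
    exact absurd hr h8
  · exact h

end NT

end Pool.Agent.TH69.Od
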