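import Mathlib
import Pool.Agent.TH69.OdD

set_option autoImplicit false

/-!
# The theorem of Hall and Higman, part E: reductions
-/

namespace Pool.Agent.TH69.Od

open Pool.Agent.TH69.HH

/-- the conclusion of the theorem -/
def HHP (k : Type) [Field k] (p q m : ℕ) : Prop :=
  ∀ (U : Type) [Group U] [Finite U] (M : Type) [AddCommGroup M] [Module k M]
    [FiniteDimensional k M] (ρ : U →* Module.End k M) (γ : Module.End k M) (σ : MulAut U),
    (∃ j, Nat.card U = q ^ j) → (∀ u, γ * ρ u = ρ (σ u) * γ) →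
    (∑ i ∈ Finset.range (p ^ m), γ ^ i = 0) → σ ^ p ^ m = 1 →
    ∀ u, γ ^ p ^ (m - 1) * ρ u = ρ u * γ ^ p ^ (m - 1)

theorem pow_of_lt2 {G : Type} [Group G] {p : ℕ} (hp : p.Prime) {m d : ℕ} {g : G}
    (hg : g ^ p ^ m = 1) (hd0 : 0 < d) :
    ∃ v t : ℕ, p ^ v ≤ d ∧ (g ^ d) ^ t = g ^ p ^ v := by
  obtain ⟨v, d', hd', e⟩ := Nat.exists_eq_pow_mul_and_not_dvd hd0.ne' p hp.ne_one
  have h1 : p ^ v ≤ d := by
    rw [e]
    exact Nat.le_mul_of_pos_right _ (Nat.pos_of_ne_zero fun h => hd' (h ▸ dvd_zero p))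
  have h2 : (g ^ p ^ v) ^ p ^ m = 1 := by
    rw [← pow_mul, mul_comm, pow_mul, hg, one_pow]
  have hco : (orderOf (g ^ p ^ v)).Coprime d' := by
    refine Nat.Coprime.coprime_dvd_left (orderOf_dvd_of_pow_eq_one h2) ?_
    exact Nat.Coprime.pow_left _ ((Nat.Prime.coprime_iff_not_dvd hp).2 hd')
  obtain ⟨s, hs⟩ := exists_pow_eq_self_of_coprime hco.symm
  refine ⟨v, s, h1, ?_⟩
  rw [e, pow_mul g (p ^ v) d', hs]

section

variable {k : Type} [Field k] {M U : Type} [AddCommGroup M] [Module k M] [Group U]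
variable {p m : ℕ} {ρ : U →* Module.End k M} {γ : Module.End k M} {σ : MulAut U}

/-- geometric sums in blocks -/
theorem sum_blocks (γ : Module.End k M) (a b : ℕ) :
    ∑ i ∈ Finset.range (a * b), γ ^ i =
      (∑ i ∈ Finset.range a, γ ^ i) * ∑ l ∈ Finset.range b, (γ ^ a) ^ l := by
  induction b with
  | zero => simp
  | succ b ih =>
    rw [Nat.mul_succ, Finset.sum_range_add, ih, Finset.sum_range_succ (fun l => (γ ^ a) ^ l),
      mul_add, Finset.sum_mul _ _ ((γ ^ a) ^ b)]
    congr 1
    refine Finset.sum_congr rfl fun i _ => ?_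
    rw [← pow_mul, ← pow_add, add_comm]

theorem rho_inv_eq (u : U) (v : M) : ρ u⁻¹ (ρ u v) = v := by
  have := congrArg (fun Z : Module.End k M => Z v) (rho_inv' (ρ := ρ) u)
  exact this

/-- vectors belonging to distinct characters are independent -/
theorem char_sum_zero {C : Type} [Group C] {n : ℕ} (τ : C →* Module.End k M)
    (X : Fin n → (C →* k)) (hX : Function.Injective X) (x : Fin n → M)
    (h : ∀ i u, τ u (x i) = X i u • x i) (h0 : ∑ i, x i = 0) (i : Fin n) : x i = 0 := by
  have hli := (linearIndependent_monoidHom C k).comp X hX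
  rw [Fintype.linearIndependent_iff] at hli
  rw [← Module.forall_dual_apply_eq_zero_iff k]
  intro l
  have hz : ∑ i : Fin n, l (x i) • (fun f : C →* k => ⇑f) (X i) = 0 := by
    funext u
    rw [Finset.sum_apply]
    simp only [Pi.smul_apply, smul_eq_mul, Pi.zero_apply]
    have h4 : τ u (∑ i, x i) = 0 := by rw [h0, map_zero]
    rw [map_sum] at h4
    have h6 := congrArg l h4
    rw [map_sum, map_zero] at h6
    rw [← h6]
    refine Finset.sum_congr rfl fun i _ => ?_
    rw [h, map_smul, smul_eq_mul, mul_comm]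
  exact hli _ hz i

/-- restriction of a representation to an invariant subspace -/
def resW (ρ : U →* Module.End k M) (W : Submodule k M) (h : ∀ u, ∀ v ∈ W, ρ u v ∈ W) :
    U →* Module.End k W where
  toFun u := (ρ u).restrict (h u)
  map_one' := by
    ext v
    change (ρ 1) (v : M) = v
    rw [map_one]
    rfl
  map_mul' a b := by
    ext v
    change (ρ (a * b)) (v : M) = ρ a (ρ b v)
    rw [map_mul]
    rfl

theorem resW_apply (W : Submodule k M) (h : ∀ u, ∀ v ∈ W, ρ u v ∈ W) (u : U) (v : W) :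
    ((resW ρ W h u v : W) : M) = ρ u v := rfl

theorem restrict_pow (W : Submodule k M) (h : ∀ v ∈ W, γ v ∈ W) (i : ℕ) (v : W) :
    ((((γ.restrict h) ^ i) v : W) : M) = (γ ^ i) v := by
  induction i with
  | zero => rfl
  | succ i ih =>
    rw [pow_succ', pow_succ']
    change γ ((((γ.restrict h) ^ i) v : W) : M) = γ ((γ ^ i) v)
    rw [ih]

end

section

variable {k : Type} [Field k] [IsAlgClosed k] {M U : Type} [AddCommGroup M] [Module k M]
  [Group U] [FiniteDimensional k M]
variable {p q m : ℕ} [CharP k p] {ρ : U →* Module.End k M} {γ : Module.End k M} {σ : MulAut U}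

/-- the irreducible case -/
theorem Dt.false [Fintype U] [Nontrivial M] (D : Dt k p m ρ γ σ) (hp : p.Prime) (hq : q.Prime)
    (hpq : p ≠ q) (hm : 1 ≤ m) {j : ℕ} (hcard : Fintype.card U = q ^ j)
    (hex : ∀ r, 1 ≤ r → q ^ r ≠ p ^ m - 1)
    (IH : ∀ m', m' < m → 1 ≤ m' → HHP k p q m') : False := by
  classical
  by_cases hUc : Uc ρ = ⊤
  · refine D.not_comm hp fun u w => ?_
    have h : u ∈ Uc ρ := by rw [hUc]; exact Subgroup.mem_top u
    exact h w
  have hfix : ∀ u ∈ Uc ρ, (σ ^ p ^ (m - 1)) u = u :=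
    D.min (Uc ρ) (fun _ h => D.Uc_sigma hp.pos h) hUc
  have hsig : ∀ i : ℕ, ∀ u ∈ Uc ρ, (σ ^ i) u ∈ Uc ρ := by
    intro i
    induction i with
    | zero => intro u hu; exact hu
    | succ i ih =>
      intro u hu
      rw [pow_succ', MulAut.mul_apply]
      exact D.Uc_sigma hp.pos (ih u hu)
  let τ : Uc ρ →* Module.End k M := ρ.comp (Uc ρ).subtype
  obtain ⟨v, hv0, χ, hχ⟩ := exists_common (ρ := τ) fun u w => u.2 (w : U)
  -- the eigenspace
  let W : Submodule k M :=
    { carrier := {x | ∀ u : Uc ρ, ρ (u : U) x = χ u • x}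
      add_mem' := by
        intro a b ha hb u
        rw [map_add, ha u, hb u, smul_add]
      zero_mem' := by
        intro u
        rw [map_zero, smul_zero]
      smul_mem' := by
        intro c a ha u
        rw [map_smul, ha u, smul_comm] }
  have hvW : v ∈ W := hχ
  have hWρ : ∀ u, ∀ x ∈ W, ρ u x ∈ W := by
    intro u x hx w
    change (ρ (w : U) * ρ u) x = _
    rw [w.2 u]
    change ρ u (ρ (w : U) x) = _
    rw [hx w, map_smul]
  -- invariance exponents
  let P : ℕ → Prop := fun n => ∀ u : Uc ρ, χ ⟨(σ ^ n) (u : U), hsig n u u.2⟩ = χ u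
  have hPW : ∀ n, P n → ∀ x ∈ W, (γ ^ n) x ∈ W := by
    intro n hn x hx u
    obtain ⟨w, hw⟩ := (σ ^ n).surjective (u : U)
    have hwU : w ∈ Uc ρ := by
      have h1 : w = (σ ^ (p ^ m * n - n)) (u : U) := by
        rw [← hw, ← MulAut.mul_apply, ← pow_add, Nat.sub_add_cancel, pow_mul, D.ord, one_pow,
          MulAut.one_apply]
        exact Nat.le_mul_of_pos_left _ (Nat.pow_pos hp.pos)
      rw [h1]
      exact hsig _ _ u.2
    have h1 := congrArg (fun Z : Module.End k M => Z x) (rel_pow D.rel n w)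
    change (γ ^ n) (ρ w x) = ρ ((σ ^ n) w) ((γ ^ n) x) at h1
    have h2 := hx ⟨w, hwU⟩
    change ρ w x = _ at h2
    rw [hw, h2, map_smul] at h1
    rw [← h1]
    have h3 := hn ⟨w, hwU⟩
    have h4 : (⟨(σ ^ n) w, hsig n w hwU⟩ : Uc ρ) = u := Subtype.ext hw
    change χ ⟨(σ ^ n) w, hsig n w hwU⟩ = _ at h3
    rw [h4] at h3
    rw [h3]
  by_cases hP0 : P 1
  · -- `Uc` acts by scalars
    have hW : W = ⊤ := by
      refine (D.irr W hWρ ?_).resolve_left ?_
      · intro x hx
        have := hPW 1 hP0 x hx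
        rwa [pow_one] at this
      · intro h
        rw [h, Submodule.mem_bot] at hvW
        exact hv0 hvW
    have hscl : ∀ u ∈ Uc ρ, ∃ c : k, ρ u = c • 1 := by
      intro u hu
      refine ⟨χ ⟨u, hu⟩, ?_⟩
      ext x
      have hx : x ∈ W := by rw [hW]; exact Submodule.mem_top
      exact hx ⟨u, hu⟩
    obtain ⟨r, hr, h1⟩ := (NT.mk D hm hp hq hpq hcard hUc hscl : NT k p m ρ γ σ q j).count
    exact hex r hr h1
  · have hPe : ∃ i, P (p ^ i) := ⟨m - 1, fun u => by
      congr 1
      exact Subtype.ext (hfix u u.2)⟩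
    let i0 := Nat.find hPe
    have hi0 : P (p ^ i0) := Nat.find_spec hPe
    have hi0m : i0 ≤ m - 1 := Nat.find_min' hPe (fun u => by
      congr 1
      exact Subtype.ext (hfix u u.2))
    have hi0' : ∀ i, i < i0 → ¬ P (p ^ i) := fun i hi => Nat.find_min hPe hi
    have hi1 : 1 ≤ i0 := by
      rcases Nat.eq_zero_or_pos i0 with h | h
      · rw [h, pow_zero] at hi0
        exact absurd hi0 hP0
      · exact h
    -- the conjugate characters
    have hsinv : ∀ (i : ℕ) (u : Uc ρ), ((σ ^ i)⁻¹ : MulAut U) (u : U) ∈ Uc ρ := by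
      intro i u
      have h1 : ((σ ^ i)⁻¹ : MulAut U) = σ ^ (p ^ m * i - i) := by
        rw [inv_eq_iff_mul_eq_one, ← pow_add, Nat.add_sub_cancel', pow_mul, D.ord, one_pow]
        exact Nat.le_mul_of_pos_left _ (Nat.pow_pos hp.pos)
      rw [h1]
      exact hsig _ _ u.2
    let X : Fin (p ^ i0) → (Uc ρ →* k) := fun i =>
      { toFun := fun u => χ ⟨((σ ^ (i : ℕ))⁻¹ : MulAut U) (u : U), hsinv i u⟩
        map_one' := by
          have : (⟨((σ ^ (i : ℕ))⁻¹ : MulAut U) ((1 : Uc ρ) : U), hsinv i 1⟩ : Uc ρ) = 1 :=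
            Subtype.ext (map_one _)
          rw [this, map_one]
        map_mul' := by
          intro a b
          rw [← map_mul]
          congr 1
          exact Subtype.ext (map_mul _ _ _) }
    have hXinj : Function.Injective X := by
      have key : ∀ i j : Fin (p ^ i0), (i : ℕ) < j → X i ≠ X j := by
        intro i j hlt hij
        have h1 : P ((j : ℕ) - i) := by
          intro u
          have h2 := DFunLike.congr_fun hij ⟨(σ ^ (j : ℕ)) (u : U), hsig j u u.2⟩
          have h3 : X j ⟨(σ ^ (j : ℕ)) (u : U), hsig j u u.2⟩ = χ u := by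
            change χ _ = χ u
            congr 1
            apply Subtype.ext
            change ((σ ^ (j : ℕ))⁻¹ * σ ^ (j : ℕ)) (u : U) = u
            rw [inv_mul_cancel, MulAut.one_apply]
          rw [← h3, ← h2]
          change χ _ = χ _
          congr 1
          apply Subtype.ext
          change (σ ^ ((j : ℕ) - i)) (u : U) = ((σ ^ (i : ℕ))⁻¹ * σ ^ (j : ℕ)) (u : U)
          congr 1
          rw [eq_inv_mul_iff_mul_eq, ← pow_add]
          congr 1
          omega
        obtain ⟨w, t, hw, ht⟩ := pow_of_lt2 hp D.ord (d := (j : ℕ) - i) (by omega)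
        have h5 : ∀ n : ℕ, P (((j : ℕ) - i) * n) := by
          intro n
          induction n with
          | zero =>
            intro u
            congr 1
          | succ n ih =>
            intro u
            rw [← ih u, ← h1 ⟨(σ ^ (((j : ℕ) - i) * n)) (u : U), hsig _ u u.2⟩]
            congr 1
            apply Subtype.ext
            change (σ ^ (((j : ℕ) - i) * (n + 1))) (u : U) =
              (σ ^ ((j : ℕ) - i) * σ ^ (((j : ℕ) - i) * n)) (u : U)
            rw [← pow_add]
            congr 2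
            ring
        have h6 : P (p ^ w) := by
          intro u
          rw [← h5 t u]
          congr 1
          apply Subtype.ext
          change (σ ^ p ^ w) (u : U) = (σ ^ (((j : ℕ) - i) * t)) (u : U)
          rw [pow_mul, ht]
        have h7 : w < i0 := by
          have h8 : p ^ w < p ^ i0 := lt_of_le_of_lt hw (by omega)
          exact (Nat.pow_lt_pow_iff_right hp.one_lt).1 h8
        exact hi0' w h7 h6
      intro i j hij
      rcases lt_trichotomy (i : ℕ) j with h | h | h
      · exact absurd hij (key i j h)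
      · exact Fin.ext h
      · exact absurd hij.symm (key j i h)
    -- the norm on the eigenspace
    have hmi : p ^ i0 * p ^ (m - i0) = p ^ m := by
      rw [← pow_add]
      congr 1
      omega
    have hγW : ∀ x ∈ W, (γ ^ p ^ i0) x ∈ W := hPW _ hi0
    have hγWl : ∀ l : ℕ, ∀ x ∈ W, ((γ ^ p ^ i0) ^ l) x ∈ W := by
      intro l
      induction l with
      | zero => intro x hx; exact hx
      | succ l ih =>
        intro x hx
        rw [pow_succ']
        exact hγW _ (ih x hx)
    have hnorm : ∀ x ∈ W, (∑ l ∈ Finset.range (p ^ (m - i0)), (γ ^ p ^ i0) ^ l) x = 0 := by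
      intro x hx
      obtain ⟨y, hy⟩ : ∃ y, y = (∑ l ∈ Finset.range (p ^ (m - i0)), (γ ^ p ^ i0) ^ l) x :=
        ⟨_, rfl⟩
      have hyW : y ∈ W := by
        rw [hy, LinearMap.sum_apply]
        exact Submodule.sum_mem _ fun l _ => hγWl l x hx
      have h1 : ∑ i : Fin (p ^ i0), (γ ^ (i : ℕ)) y = 0 := by
        rw [Fin.sum_univ_eq_sum_range (fun i => (γ ^ i) y)]
        have h2 := congrArg (fun Z : Module.End k M => Z x) (sum_blocks γ (p ^ i0) (p ^ (m - i0)))
        rw [hmi] at h2
        simp only [D.nrm] at h2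
        change (0 : M) = (∑ i ∈ Finset.range (p ^ i0), γ ^ i)
          ((∑ l ∈ Finset.range (p ^ (m - i0)), (γ ^ p ^ i0) ^ l) x) at h2
        rw [← hy, LinearMap.sum_apply] at h2
        exact h2.symm
      have h3 := char_sum_zero τ X hXinj (fun i => (γ ^ (i : ℕ)) y) ?_ h1
        ⟨0, Nat.pow_pos hp.pos⟩
      · rw [← hy]
        exact h3
      · intro i u
        have h4 := rel_pow D.rel i (((σ ^ (i : ℕ))⁻¹ : MulAut U) (u : U))
        have h5 : (σ ^ (i : ℕ)) (((σ ^ (i : ℕ))⁻¹ : MulAut U) (u : U)) = u := by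
          rw [← MulAut.mul_apply, mul_inv_cancel, MulAut.one_apply]
        rw [h5] at h4
        have h6 := congrArg (fun Z : Module.End k M => Z y) h4
        change (γ ^ (i : ℕ)) (ρ _ y) = ρ (u : U) ((γ ^ (i : ℕ)) y) at h6
        change ρ (u : U) ((γ ^ (i : ℕ)) y) = _
        rw [← h6, hyW ⟨_, hsinv i u⟩, map_smul]
        rfl
    -- induction
    have h1 := IH (m - i0) (by omega) (by omega) U W (resW ρ W hWρ)
      ((γ ^ p ^ i0).restrict hγW) (σ ^ p ^ i0) ⟨j, by rw [Nat.card_eq_fintype_card, hcard]⟩ ?_ ?_ ?_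
    · apply hv0
      apply D.WW_bot
      intro u
      have h2 := congrArg (fun Z : Module.End k W => ((Z ⟨v, hvW⟩ : W) : M)) (h1 u)
      change ((((γ ^ p ^ i0).restrict hγW) ^ p ^ (m - i0 - 1)) ⟨ρ u v, hWρ u v hvW⟩ : M) =
        ρ u ((((γ ^ p ^ i0).restrict hγW) ^ p ^ (m - i0 - 1)) ⟨v, hvW⟩ : M) at h2
      rw [restrict_pow, restrict_pow, ← pow_mul, ← pow_add,
        show i0 + (m - i0 - 1) = m - 1 from by omega] at h2
      exact h2
    · intro u
      ext x
      have h2 := congrArg (fun Z : Module.End k M => Z (x : M)) (rel_pow D.rel (p ^ i0) u)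
      exact h2
    · ext x
      rw [LinearMap.sum_apply, Submodule.coe_sum]
      simp only [restrict_pow]
      rw [← LinearMap.sum_apply]
      exact hnorm x x.2
    · rw [← pow_mul, hmi, D.ord]

end

end Pool.Agent.TH69.Od
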