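import Mathlib
import Pool.Agent.W629.Tw.Basic
import Pool.Agent.W629.TwiceLF
import Pool.Agent.TH69.OdF
import Pool.Agent.TH69.MtnD

set_option autoImplicit false

/-!
# Groups of exponent `p ^ a * q ^ b`, part G: elements of `O_{q,p}` of finite groups
-/

namespace Pool.Agent.TH69.Od

open Pool.Agent.H32BU Pool.Agent.W629 Pool.Agent.TH69.Mtn

/-- `z` lies in a subgroup `B` normalised by `E` such that the `P`-th powers of the elements of `B`
lie in a subgroup `A` of exponent dividing `Q` normalised by `E` -/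
def TT {F : Type} [Group F] (P Q : ℕ) (E : Subgroup F) (z : F) : Prop :=
  ∃ A B : Subgroup F, (∀ g ∈ E, ∀ x ∈ A, g * x * g⁻¹ ∈ A) ∧ (∀ g ∈ E, ∀ x ∈ B, g * x * g⁻¹ ∈ B) ∧
    (∀ x ∈ A, x ^ Q = 1) ∧ (∀ x ∈ B, x ^ P ∈ A) ∧ z ∈ B

variable {F : Type} [Group F] {P Q : ℕ}

theorem TT.mono {E E' : Subgroup F} {z : F} (h : TT P Q E z) (hE : E' ≤ E) : TT P Q E' z := by
  obtain ⟨A, B, h1, h2, h3, h4, h5⟩ := h
  exact ⟨A, B, fun g hg => h1 g (hE hg), fun g hg => h2 g (hE hg), h3, h4, h5⟩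

theorem TT.map {H : Type} [Group H] (f : F →* H) {E : Subgroup F} {z : F} (h : TT P Q E z) :
    TT P Q (E.map f) (f z) := by
  obtain ⟨A, B, h1, h2, h3, h4, h5⟩ := h
  refine ⟨A.map f, B.map f, ?_, ?_, ?_, ?_, ⟨z, h5, rfl⟩⟩
  · rintro _ ⟨g, hg, rfl⟩ _ ⟨x, hx, rfl⟩
    exact ⟨g * x * g⁻¹, h1 g hg x hx, by simp⟩
  · rintro _ ⟨g, hg, rfl⟩ _ ⟨x, hx, rfl⟩
    exact ⟨g * x * g⁻¹, h2 g hg x hx, by simp⟩
  · rintro _ ⟨x, hx, rfl⟩
    rw [← map_pow, h3 x hx, map_one]
  · rintro _ ⟨x, hx, rfl⟩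
    exact ⟨x ^ P, h4 x hx, map_pow f x P⟩

/-- the Chinese remainder theorem -/
theorem crt (hab : Nat.Coprime P Q) : ∃ a b : ℕ, P ∣ a ∧ Q ∣ b ∧
    (∀ {H : Type} [Group H] (x : H), x ^ Q = 1 → x ^ a = x) ∧
    (∀ {H : Type} [Group H] (x : H), x ^ P = 1 → x ^ b = x) ∧
    (∀ {H : Type} [Group H] (x : H), x ^ (P * Q) = 1 → x ^ a * x ^ b = x) := by
  obtain ⟨a, ha1, ha2⟩ := Nat.chineseRemainder hab 0 1
  obtain ⟨b, hb1, hb2⟩ := Nat.chineseRemainder hab 1 0
  refine ⟨a, b, (Nat.modEq_zero_iff_dvd).1 ha1, (Nat.modEq_zero_iff_dvd).1 hb2, ?_, ?_, ?_⟩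
  · intro H _ x hx
    have h4 : x ^ a = x ^ 1 := by
      rw [pow_eq_pow_iff_modEq]
      exact ha2.of_dvd (orderOf_dvd_of_pow_eq_one hx)
    rw [h4, pow_one]
  · intro H _ x hx
    have h4 : x ^ b = x ^ 1 := by
      rw [pow_eq_pow_iff_modEq]
      exact hb1.of_dvd (orderOf_dvd_of_pow_eq_one hx)
    rw [h4, pow_one]
  · intro H _ x hx
    have h4 : x ^ (a + b) = x ^ 1 := by
      rw [pow_eq_pow_iff_modEq]
      have h5 : a + b ≡ 1 [MOD P * Q] := by
        rw [← Nat.modEq_and_modEq_iff_modEq_mul hab]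
        exact ⟨by simpa using ha1.add hb1, by simpa using ha2.add hb2⟩
      exact h5.of_dvd (orderOf_dvd_of_pow_eq_one hx)
    rw [← pow_add, h4, pow_one]

/-- if `x ^ P = 1` and `x ^ Q` lies in a subgroup, then `x` does -/
theorem mem_of_pow (hab : Nat.Coprime P Q) {V : Subgroup F} {x : F} (h1 : x ^ P = 1)
    (h2 : x ^ Q ∈ V) : x ∈ V := by
  obtain ⟨a, b, -, ⟨c, hc⟩, -, hb, -⟩ := crt hab
  have h3 := hb x h1
  rw [← h3, hc, pow_mul]
  exact pow_mem h2 c

theorem TT.comm_mem (hab : Nat.Coprime P Q) {E : Subgroup F} {z : F} (h : TT P Q E z) :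
    ∃ A : Subgroup F, (∀ g ∈ E, ∀ x ∈ A, g * x * g⁻¹ ∈ A) ∧ (∀ x ∈ A, x ^ Q = 1) ∧
      (∀ v ∈ E, (z * v * z⁻¹ * v⁻¹) ^ Q = 1 → z * v * z⁻¹ * v⁻¹ ∈ A) := by
  obtain ⟨A, B, h1, h2, h3, h4, h5⟩ := h
  refine ⟨A, h1, h3, fun v hv hQ => ?_⟩
  have h6 : z * v * z⁻¹ * v⁻¹ ∈ B := by
    have h7 := mul_mem h5 (h2 v hv _ (inv_mem h5))
    have e : z * (v * z⁻¹ * v⁻¹) = z * v * z⁻¹ * v⁻¹ := by group
    rwa [e] at h7
  exact mem_of_pow hab.symm hQ (h4 _ h6)

/-- elements of prime power order in a group of exponent `P * Q` -/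
theorem pp_pow {p : ℕ} (hpQ : Nat.Coprime p Q) {x : F} (hx : x ^ (P * Q) = 1)
    {k : ℕ} (h : x ^ p ^ k = 1) : x ^ P = 1 := by
  refine W629.eq_one_of_coprime (Nat.Coprime.pow_left k hpQ) (a := p ^ k) (b := Q) ?_ ?_
  · rw [← pow_mul, mul_comm, pow_mul, h, one_pow]
  · rw [← pow_mul, hx]

/-- a normal subgroup in which elements of coprime orders commute -/
theorem nilp {p q α β : ℕ} (hp : p.Prime) (hq : q.Prime) (hpq : p ≠ q) [Finite F]
    (hF : ∀ x : F, x ^ (p ^ α * q ^ β) = 1) (N : Subgroup F) (hN : N.Normal)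
    (h : ∀ x ∈ N, ∀ y ∈ N, x ^ p ^ α = 1 → y ^ q ^ β = 1 → x * y = y * x) {x : F} (hx : x ∈ N)
    (hxp : x ^ p ^ α = 1) : x ∈ Rad (p ^ α) F := by
  have hco : Nat.Coprime p q := (Nat.coprime_primes hp hq).2 hpq
  have hab : Nat.Coprime (p ^ α) (q ^ β) := Nat.Coprime.pow _ _ hco
  -- an element of order prime to `q` is a `p`-element
  have key1 : ∀ {x : F} {a : ℕ}, x ^ a = 1 → ¬ q ∣ a → x ^ p ^ α = 1 := by
    intro x a hxa hqa
    refine W629.eq_one_of_coprime (a := a) (b := q ^ β) ?_ ?_ ?_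
    · exact (Nat.Coprime.pow_left _ ((Nat.Prime.coprime_iff_not_dvd hq).2 hqa)).symm
    · rw [← pow_mul, mul_comm, pow_mul, hxa, one_pow]
    · rw [← pow_mul, hF]
  have key2 : ∀ {x : F} {a : ℕ}, x ^ a = 1 → ¬ p ∣ a → x ^ q ^ β = 1 := by
    intro x a hxa hpa
    refine W629.eq_one_of_coprime (a := a) (b := p ^ α) ?_ ?_ ?_
    · exact (Nat.Coprime.pow_left _ ((Nat.Prime.coprime_iff_not_dvd hp).2 hpa)).symm
    · rw [← pow_mul, mul_comm, pow_mul, hxa, one_pow]
    · rw [← pow_mul, mul_comm, hF]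
  have hcomm : ∀ x ∈ N, ∀ y ∈ N, ∀ a b : ℕ, Nat.Coprime a b → x ^ a = 1 → y ^ b = 1 →
      x * y = y * x := by
    intro x hx y hy a b hco2 hxa hyb
    by_cases hqa : q ∣ a
    · have hqb : ¬ q ∣ b := by
        intro h5
        have h6 := Nat.dvd_gcd hqa h5
        rw [hco2, Nat.dvd_one] at h6
        exact hq.ne_one h6
      have hy2 := key1 hyb hqb
      by_cases hpa : p ∣ a
      · have hpb : ¬ p ∣ b := by
          intro h5
          have h6 := Nat.dvd_gcd hpa h5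
          rw [hco2, Nat.dvd_one] at h6
          exact hp.ne_one h6
        have hy3 : y = 1 := W629.eq_one_of_coprime hab hy2 (key2 hyb hpb)
        rw [hy3, mul_one, one_mul]
      · exact (h y hy x hx hy2 (key2 hxa hpa)).symm
    · have hx2 := key1 hxa hqa
      by_cases hpb : p ∣ b
      · have hpa : ¬ p ∣ a := by
          intro h5
          have h6 := Nat.dvd_gcd h5 hpb
          rw [hco2, Nat.dvd_one] at h6
          exact hp.ne_one h6
        have hx3 : x = 1 := W629.eq_one_of_coprime hab hx2 (key2 hxa hpa)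
        rw [hx3, mul_one, one_mul]
      · exact h x hx y hy hx2 (key2 hyb hpb)
  have hNR : NR N = ⊥ := by
    unfold NR
    rw [Subgroup.closure_eq_bot_iff]
    rintro _ ⟨x, hx, y, hy, a, b, hco2, hxa, hyb, rfl⟩
    rw [Set.mem_singleton_iff, hcomm x hx y hy a b hco2 hxa hyb]
    group
  obtain ⟨⟨S, hS⟩, -⟩ := x_SYL F N inferInstance hNR p hp
  have hSn : S.Normal := by
    refine ⟨fun y hy g => ?_⟩
    rw [hS] at hy ⊢
    obtain ⟨hy1, k, hk⟩ := hy
    exact ⟨hN.conj_mem y hy1 g, k, conj_pow_one hk⟩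
  refine le_rad hab hF S ?_ ((hS x).2 ⟨hx, α, hxp⟩)
  intro y hy
  obtain ⟨-, k, hk⟩ := (hS y).1 hy
  exact pp_pow (Nat.Coprime.pow_right _ hco) (hF y) hk

theorem solv {p q α β : ℕ} (hp : p.Prime) (hq : q.Prime) [Finite F]
    (hF : ∀ x : F, x ^ (p ^ α * q ^ β) = 1) : Group.IsSolvable F :=
  solv_of_exp p q α β hp hq hF

/-- a nontrivial finite `p`-group contains a nontrivial characteristic elementary abelian
subgroup -/
theorem exists_omega {p α : ℕ} (hp : p.Prime) [Finite F] (R : Subgroup F) (hR : R.Normal)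
    (hR1 : R ≠ ⊥) (hRp : ∀ x ∈ R, x ^ p ^ α = 1) : ∃ V : Subgroup F, V.Normal ∧ V ≠ ⊥ ∧ V ≤ R ∧
      (∀ v ∈ V, ∀ r ∈ R, v * r = r * v) ∧ ∀ v ∈ V, v ^ p = 1 := by
  classical
  have : Fact p.Prime := ⟨hp⟩
  let V : Subgroup F :=
    { carrier := {v | v ∈ R ∧ (∀ r ∈ R, v * r = r * v) ∧ v ^ p = 1}
      one_mem' := ⟨one_mem _, fun r _ => by rw [mul_one, one_mul], one_pow _⟩
      mul_mem' := by
        rintro a b ⟨ha, ha2, ha3⟩ ⟨hb, hb2, hb3⟩
        refine ⟨mul_mem ha hb, fun r hr => ?_, ?_⟩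
        · rw [mul_assoc, hb2 r hr, ← mul_assoc, ha2 r hr, mul_assoc]
        · have : Commute a b := ha2 b hb
          rw [this.mul_pow, ha3, hb3, one_mul]
      inv_mem' := by
        rintro a ⟨ha, ha2, ha3⟩
        refine ⟨inv_mem ha, fun r hr => ?_, by rw [inv_pow, ha3, inv_one]⟩
        have h1 := ha2 r hr
        rw [inv_mul_eq_iff_eq_mul, ← mul_assoc, h1]
        group }
  refine ⟨V, ⟨?_⟩, ?_, fun v hv => hv.1, fun v hv => hv.2.1, fun v hv => hv.2.2⟩
  · rintro v ⟨h1, h2, h3⟩ g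
    refine ⟨hR.conj_mem v h1 g, fun r hr => ?_, conj_pow_one h3⟩
    have h4 : g⁻¹ * r * g ∈ R := by
      have := hR.conj_mem r hr g⁻¹
      rwa [inv_inv] at this
    have h5 := h2 _ h4
    calc g * v * g⁻¹ * r = g * (v * (g⁻¹ * r * g)) * g⁻¹ := by group
      _ = g * ((g⁻¹ * r * g) * v) * g⁻¹ := by rw [h5]
      _ = r * (g * v * g⁻¹) := by group
  · have hnt : Nontrivial R := (Subgroup.nontrivial_iff_ne_bot R).2 hR1
    have hPgr : IsPGroup p R := fun x => ⟨α, Subtype.ext (by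
      rw [Subgroup.coe_pow, Subgroup.coe_one]
      exact hRp x x.2)⟩
    have hc := hPgr.center_nontrivial
    obtain ⟨c, hc1⟩ := exists_ne (1 : Subgroup.center R)
    have hcc : ∀ r ∈ R, ((c : R) : F) * r = r * ((c : R) : F) := by
      intro r hr
      have := (Subgroup.mem_center_iff.1 c.2) ⟨r, hr⟩
      exact (congrArg Subtype.val this).symm
    have hcp : ((c : R) : F) ^ p ^ α = 1 := hRp _ (c : R).2
    have hc0 : ((c : R) : F) ≠ 1 := fun h => hc1 (Subtype.ext (Subtype.ext h))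
    obtain ⟨i, hi1, hi2⟩ : ∃ i, ((c : R) : F) ^ p ^ i ≠ 1 ∧ ((c : R) : F) ^ p ^ (i + 1) = 1 := by
      have hex : ∃ i, ((c : R) : F) ^ p ^ i = 1 := ⟨α, hcp⟩
      have h1 := Nat.find_spec hex
      have h2 : Nat.find hex ≠ 0 := by
        intro h
        rw [h, pow_zero, pow_one] at h1
        exact hc0 h1
      obtain ⟨i, hi⟩ := Nat.exists_eq_succ_of_ne_zero h2
      refine ⟨i, Nat.find_min hex (by omega), ?_⟩
      rw [hi] at h1
      exact h1
    intro hV
    apply hi1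
    have h3 : ((c : R) : F) ^ p ^ i ∈ V := by
      refine ⟨pow_mem (c : R).2 _, fun r hr => ?_, ?_⟩
      · have : Commute ((c : R) : F) r := hcc r hr
        exact this.pow_left _
      · rw [← pow_mul, ← pow_succ]
        exact hi2
    rw [hV] at h3
    exact h3

/-- induction principle for the property `TT` -/
theorem ind_TT {p q α β : ℕ} (hp : p.Prime) (hq : q.Prime) (hpq : p ≠ q)
    (R : (F : Type) → [Group F] → F → Prop)
    (hR : ∀ (F : Type) [Group F] (N : Subgroup F) [N.Normal] (z : F), R F z → R (F ⧸ N) (z : F ⧸ N))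
    (hbad : ∀ (F : Type) [Group F] [Finite F], (∀ x : F, x ^ (p ^ α * q ^ β) = 1) → ∀ z : F,
      z ^ p ^ α = 1 → R F z → ∀ V L : Subgroup F, V.Normal → L.Normal → V ≤ L →
      (∀ v ∈ V, ∀ w ∈ V, v * w = w * v) → (∀ v ∈ V, v ^ p = 1) → (∀ x ∈ L, x ^ q ^ β ∈ V) →
      (∀ x ∈ L, (∀ v ∈ V, x * v = v * x) → x ∈ V) →
      ∀ s ∈ L, s ^ q ^ β = 1 → z * s * z⁻¹ * s⁻¹ ∈ V) :
    ∀ d : ℕ, ∀ (F : Type) [Group F] [Finite F], Nat.card F ≤ d →
      (∀ x : F, x ^ (p ^ α * q ^ β) = 1) → ∀ z : F, z ^ p ^ α = 1 → R F z →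
      TT (p ^ α) (q ^ β) ⊤ z := by
  have hco : Nat.Coprime p q := (Nat.coprime_primes hp hq).2 hpq
  have hab : Nat.Coprime (p ^ α) (q ^ β) := Nat.Coprime.pow _ _ hco
  have hcardq : ∀ (F : Type) [Group F] [Finite F] (N : Subgroup F), N ≠ ⊥ →
      Nat.card (F ⧸ N) < Nat.card F := by
    intro F _ _ N hN
    have h1 := Subgroup.card_eq_card_quotient_mul_card_subgroup N
    have h2 : 1 < Nat.card N := by
      have : Nontrivial N := (Subgroup.nontrivial_iff_ne_bot N).2 hN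
      exact Finite.one_lt_card
    have h3 : 0 < Nat.card (F ⧸ N) := Nat.card_pos
    rw [h1]
    exact lt_mul_of_one_lt_right h3 h2
  intro d
  induction d with
  | zero =>
    intro F _ _ hd
    have : 0 < Nat.card F := Nat.card_pos
    omega
  | succ d ih =>
    intro F _ _ hd hF z hz hRz
    by_cases hRq : Rad (q ^ β) F = ⊥
    swap
    · -- pass to the quotient
      have h1 := ih (F ⧸ Rad (q ^ β) F) (by have := hcardq F _ hRq; omega) (exp_quot hF _) z
        (by rw [← QuotientGroup.mk_pow, hz]; rfl) (hR F _ z hRz)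
      obtain ⟨A, B, h2, h3, h4, h5, h6⟩ := h1
      refine ⟨A.comap (QuotientGroup.mk' _), B.comap (QuotientGroup.mk' _), ?_, ?_, ?_, ?_, h6⟩
      · intro g _ x hx
        exact h2 (g : F ⧸ Rad (q ^ β) F) (Subgroup.mem_top _) _ hx
      · intro g _ x hx
        exact h3 (g : F ⧸ Rad (q ^ β) F) (Subgroup.mem_top _) _ hx
      · intro x hx
        exact pow_of_mk hab.symm (fun x => by rw [mul_comm]; exact hF x) _
          (fun x hx => rad_pow hx) (h4 _ hx)
      · intro x hx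
        exact h5 _ hx
    by_cases hzR : z ∈ Rad (p ^ α) F
    · refine ⟨⊥, Rad (p ^ α) F, ?_, ?_, ?_, ?_, hzR⟩
      · intro g _ x hx
        rw [Subgroup.mem_bot] at hx ⊢
        rw [hx, mul_one, mul_inv_cancel]
      · intro g _ x hx
        exact (rad_normal _).conj_mem x hx g
      · intro x hx
        rw [Subgroup.mem_bot] at hx
        rw [hx, one_pow]
      · intro x hx
        rw [rad_pow hx]
        exact one_mem _
    exfalso
    have hsol : Group.IsSolvable F := solv hp hq hF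
    have hRp : Rad (p ^ α) F ≠ ⊥ := by
      intro h
      have h1 := hall_higman hab hF hsol h (x := z) (by
        intro e he
        rw [hRq, Subgroup.mem_bot] at he
        rw [he, mul_one, one_mul])
      rw [hRq, Subgroup.mem_bot] at h1
      apply hzR
      rw [h1]
      exact one_mem _
    obtain ⟨V, hV, hV1, hVR, hVc, hVp⟩ := exists_omega hp (Rad (p ^ α) F) inferInstance hRp
      fun x hx => rad_pow hx
    have hVab : ∀ v ∈ V, ∀ w ∈ V, v * w = w * v := fun v hv w hw => hVc v hv w (hVR hw)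
    have hVP : ∀ v ∈ V, v ^ p ^ α = 1 := fun v hv => rad_pow (hVR hv)
    have h1 := ih (F ⧸ V) (by have := hcardq F _ hV1; omega) (exp_quot hF _) z
      (by rw [← QuotientGroup.mk_pow, hz]; rfl) (hR F _ z hRz)
    obtain ⟨A, B, h2, h3, h4, h5, h6⟩ := h1
    have hAn : A.Normal := ⟨fun x hx g => h2 g (Subgroup.mem_top _) x hx⟩
    have hBn : B.Normal := ⟨fun x hx g => h3 g (Subgroup.mem_top _) x hx⟩
    let L : Subgroup F := A.comap (QuotientGroup.mk' V)
    have hLn : L.Normal := inferInstance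
    have hVL : V ≤ L := by
      intro v hv
      change ((v : F) : F ⧸ V) ∈ A
      rw [(QuotientGroup.eq_one_iff v).2 hv]
      exact one_mem _
    have hLQ : ∀ x ∈ L, x ^ q ^ β ∈ V := by
      intro x hx
      have h7 := h4 _ hx
      rw [← QuotientGroup.eq_one_iff, QuotientGroup.mk_pow]
      exact h7
    obtain ⟨a, b, ha, hb, ca, cb, cab⟩ := crt hab
    -- the centralizer of `V` in `L`
    have hCV : ∀ x ∈ L, (∀ v ∈ V, x * v = v * x) → x ∈ V := by
      let C : Subgroup F :=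
        { carrier := {x | x ∈ L ∧ ∀ v ∈ V, x * v = v * x}
          one_mem' := ⟨one_mem _, fun v _ => by rw [mul_one, one_mul]⟩
          mul_mem' := by
            rintro x y ⟨hx, hx2⟩ ⟨hy, hy2⟩
            refine ⟨mul_mem hx hy, fun v hv => ?_⟩
            rw [mul_assoc, hy2 v hv, ← mul_assoc, hx2 v hv, mul_assoc]
          inv_mem' := by
            rintro x ⟨hx, hx2⟩
            refine ⟨inv_mem hx, fun v hv => ?_⟩
            have h1 := hx2 v hv
            rw [inv_mul_eq_iff_eq_mul, ← mul_assoc, h1]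
            group }
      have hCn : C.Normal := by
        refine ⟨?_⟩
        rintro x ⟨hx, hx2⟩ g
        refine ⟨hLn.conj_mem x hx g, fun v hv => ?_⟩
        have h7 : g⁻¹ * v * g ∈ V := by
          have := hV.conj_mem v hv g⁻¹
          rwa [inv_inv] at this
        have h8 := hx2 _ h7
        calc g * x * g⁻¹ * v = g * (x * (g⁻¹ * v * g)) * g⁻¹ := by group
          _ = g * ((g⁻¹ * v * g) * x) * g⁻¹ := by rw [h8]
          _ = v * (g * x * g⁻¹) := by group
      have hq1 : ∀ y ∈ C, y ^ q ^ β = 1 → y = 1 := by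
        intro y hy hyq
        have h9 := nilp hq hp hpq.symm (α := β) (β := α) (fun x => by rw [mul_comm]; exact hF x)
          C hCn (by
            intro x hx y hy hxq hyp
            have h10 : y ∈ V := mem_of_pow hab hyp (hLQ y hy.1)
            exact hx.2 y h10) hy hyq
        rw [hRq] at h9
        exact h9
      intro x hx hx2
      have hxC : x ∈ C := ⟨hx, hx2⟩
      obtain ⟨a', rfl⟩ := ha
      obtain ⟨b', rfl⟩ := hb
      have h10 := cab x (hF x)
      have h11 : x ^ (p ^ α * a') = 1 := by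
        apply hq1 _ (pow_mem hxC _)
        rw [← pow_mul, show p ^ α * a' * q ^ β = (p ^ α * q ^ β) * a' from by ring, pow_mul, hF,
          one_pow]
      rw [h11, one_mul] at h10
      rw [← h10, pow_mul]
      exact pow_mem (hLQ x hx) _
    have h7 := hbad F hF z hz hRz V L hV hLn hVL hVab hVp hLQ hCV
    -- `z` centralises `A`
    have h8 : ∀ x ∈ A, (z : F ⧸ V) * x = x * z := by
      intro x hx
      obtain ⟨l, rfl⟩ := QuotientGroup.mk_surjective x
      have h9 : (l : F ⧸ V) ^ a = l := ca _ (h4 _ hx)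
      have h10 : (l ^ a) ^ q ^ β = 1 := by
        obtain ⟨a', rfl⟩ := ha
        rw [← pow_mul, show p ^ α * a' * q ^ β = (p ^ α * q ^ β) * a' from by ring, pow_mul, hF,
          one_pow]
      have h11 := h7 (l ^ a) (pow_mem (show l ∈ L from hx) a) h10
      rw [← QuotientGroup.eq_one_iff] at h11
      have h12 : (z : F ⧸ V) * (l : F ⧸ V) ^ a * (z : F ⧸ V)⁻¹ * ((l : F ⧸ V) ^ a)⁻¹ = 1 := h11
      rw [h9, mul_inv_eq_one, mul_inv_eq_iff_eq_mul] at h12
      exact h12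
    let D : Subgroup (F ⧸ V) :=
      { carrier := {x | x ∈ B ∧ ∀ v ∈ A, x * v = v * x}
        one_mem' := ⟨one_mem _, fun v _ => by rw [mul_one, one_mul]⟩
        mul_mem' := by
          rintro x y ⟨hx, hx2⟩ ⟨hy, hy2⟩
          refine ⟨mul_mem hx hy, fun v hv => ?_⟩
          rw [mul_assoc, hy2 v hv, ← mul_assoc, hx2 v hv, mul_assoc]
        inv_mem' := by
          rintro x ⟨hx, hx2⟩
          refine ⟨inv_mem hx, fun v hv => ?_⟩
          have h1 := hx2 v hv
          rw [inv_mul_eq_iff_eq_mul, ← mul_assoc, h1]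
          group }
    have hDn : D.Normal := by
      refine ⟨?_⟩
      rintro x ⟨hx, hx2⟩ g
      refine ⟨hBn.conj_mem x hx g, fun v hv => ?_⟩
      have h7 : g⁻¹ * v * g ∈ A := by
        have := hAn.conj_mem v hv g⁻¹
        rwa [inv_inv] at this
      have h8 := hx2 _ h7
      calc g * x * g⁻¹ * v = g * (x * (g⁻¹ * v * g)) * g⁻¹ := by group
        _ = g * ((g⁻¹ * v * g) * x) * g⁻¹ := by rw [h8]
        _ = v * (g * x * g⁻¹) := by group
    have hzD : (z : F ⧸ V) ∈ D := ⟨h6, h8⟩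
    have h9 := nilp hp hq hpq (exp_quot hF V) D hDn (by
      intro x hx y hy hxp hyq
      have h10 : y ∈ A := mem_of_pow hab.symm hyq (h5 y hy.1)
      exact hx.2 y h10) hzD (by rw [← QuotientGroup.mk_pow, hz]; rfl)
    apply hzR
    have h10 : (Rad (p ^ α) (F ⧸ V)).comap (QuotientGroup.mk' V) ≤ Rad (p ^ α) F := by
      refine le_rad hab hF _ fun x hx => ?_
      exact pow_of_mk hab hF V hVP (rad_pow (show (x : F ⧸ V) ∈ Rad (p ^ α) (F ⧸ V) from hx))
    exact h10 h9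

end Pool.Agent.TH69.Od
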