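import Mathlib
import Pool.Agent.TH69.OdG
import Pool.Agent.TH69.HHJ

set_option autoImplicit false

/-!
# Groups of exponent `p ^ a * q ^ b`, part H: the theorem of Hall and Higman for groups
-/

namespace Pool.Agent.TH69.Od

open Pool.Agent.H32BU Pool.Agent.W629 Pool.Agent.TH69.Mtn Pool.Agent.TH69.HH

/-- the configuration of the theorem does not occur -/
theorem no_conf {p q α β : ℕ} (hp : p.Prime) (hq : q.Prime) (hpq : p ≠ q) (hα : 1 ≤ α)
    (hex : ∀ μ, 1 ≤ μ → μ ≤ α → ∀ r, 1 ≤ r → q ^ r ≠ p ^ μ - 1)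
    {F : Type} [Group F] [Finite F] (hF : ∀ x : F, x ^ (p ^ α * q ^ β) = 1) {x : F}
    (hx : x ^ p ^ α = 1) (V L : Subgroup F) (hV : V.Normal) (hL : L.Normal) (_hVL : V ≤ L)
    (hab : ∀ v ∈ V, ∀ w ∈ V, v * w = w * v) (hpow : ∀ v ∈ V, v ^ p = 1)
    (hLQ : ∀ x ∈ L, x ^ q ^ β ∈ V) (hC : ∀ x ∈ L, (∀ v ∈ V, x * v = v * x) → x ∈ V)
    {s : F} (hs : s ∈ L) : x ^ p ^ (α - 1) * s * (x ^ p ^ (α - 1))⁻¹ * s⁻¹ ∈ V := by
  classical
  have : Fact p.Prime := ⟨hp⟩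
  have : Fact q.Prime := ⟨hq⟩
  let k := AlgebraicClosure (ZMod p)
  have hcop : Nat.Coprime p q := (Nat.coprime_primes hp hq).2 hpq
  let M := Additive V →+ k
  have hfd : FiniteDimensional k M := by
    let f : M →ₗ[k] (Additive V → k) :=
      { toFun := fun φ => φ
        map_add' := fun _ _ => rfl
        map_smul' := fun _ _ => rfl }
    have : Finite (Additive V) := (inferInstance : Finite V)
    exact Module.Finite.of_injective f DFunLike.coe_injective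
  let ρ0 : F →* Module.End k M := dact V k
  have hker : ∀ v ∈ V, ρ0 v = 1 := by
    intro v hv
    refine LinearMap.ext fun φ => AddMonoidHom.ext fun w => ?_
    obtain ⟨w, rfl⟩ := Additive.ofMul.surjective w
    change φ _ = φ _
    congr 1
    apply Additive.toMul.injective
    apply Subtype.ext
    change v⁻¹ * (w : F) * (v⁻¹)⁻¹ = w
    rw [inv_inv, mul_assoc, ← hab v hv w w.2]
    group
  let ρ1 : F ⧸ V →* Module.End k M := QuotientGroup.lift V ρ0 hker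
  have hρ1 : ∀ g : F, ρ1 (g : F ⧸ V) = ρ0 g := fun g => rfl
  let U : Subgroup (F ⧸ V) := L.map (QuotientGroup.mk' V)
  have hUn : U.Normal := Subgroup.Normal.map hL _ (QuotientGroup.mk'_surjective V)
  have hUq : ∀ u ∈ U, u ^ q ^ β = 1 := by
    rintro _ ⟨l, hl, rfl⟩
    have := hLQ l hl
    rw [← QuotientGroup.eq_one_iff, QuotientGroup.mk_pow] at this
    exact this
  let σ : MulAut U := MulAut.conjNormal (x : F ⧸ V)
  have hσk : ∀ (i : ℕ) (u : U), (((σ ^ i) u : U) : F ⧸ V) =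
      (x : F ⧸ V) ^ i * u * ((x : F ⧸ V) ^ i)⁻¹ := by
    intro i u
    have : σ ^ i = MulAut.conjNormal ((x : F ⧸ V) ^ i) := (map_pow _ _ _).symm
    rw [this, MulAut.conjNormal_apply]
  have ord : σ ^ p ^ α = 1 := by
    ext u
    rw [hσk, ← QuotientGroup.mk_pow, hx]
    simp
  obtain ⟨j, hj⟩ : ∃ j, Nat.card U = q ^ j := by
    have hpg : IsPGroup q U := fun x => ⟨β, Subtype.ext (by
      rw [Subgroup.coe_pow]
      exact hUq x x.2)⟩
    exact (IsPGroup.iff_card).1 hpg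
  -- the norm
  have nrm : ∑ i ∈ Finset.range (p ^ α), (ρ0 x) ^ i = 0 := by
    refine LinearMap.ext fun φ => AddMonoidHom.ext fun v => ?_
    obtain ⟨v, rfl⟩ := Additive.ofMul.surjective v
    rw [LinearMap.sum_apply, AddMonoidHom.finsetSum_apply]
    simp only [← map_pow]
    -- partial sums
    have key : ∀ i : ℕ, ∃ w : V, (w : F) = ((v : F) * x⁻¹) ^ i * x ^ i ∧
        ∑ j ∈ Finset.range i, (ρ0 (x ^ j) φ) (Additive.ofMul v) = φ (Additive.ofMul w) := by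
      intro i
      induction i with
      | zero =>
        refine ⟨1, by simp, ?_⟩
        rw [Finset.sum_range_zero, ofMul_one, map_zero]
      | succ i ih =>
        obtain ⟨w, hw, hs⟩ := ih
        refine ⟨w * MulAut.conjNormal (x ^ i)⁻¹ v, ?_, ?_⟩
        · rw [Subgroup.coe_mul, hw, MulAut.conjNormal_apply, pow_succ, pow_succ' x i]
          group
        · rw [Finset.sum_range_succ, hs, ofMul_mul, map_add]
          rfl
    obtain ⟨w, hw, hs⟩ := key (p ^ α)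
    rw [hs]
    have h1 : ((v : F) * x⁻¹) ^ p ^ α = 1 := by
      have h2 : ((v : F) * x⁻¹) ^ p ^ α ∈ V := by
        have h3 : ((v : F) * x⁻¹) ^ p ^ α * x ^ p ^ α ∈ V := by rw [← hw]; exact w.2
        rwa [hx, mul_one] at h3
      have h4 : (((v : F) * x⁻¹) ^ p ^ α) ^ p = 1 := hpow _ h2
      have h5 : (((v : F) * x⁻¹) ^ p ^ α) ^ q ^ β = 1 := by rw [← pow_mul, hF]
      exact W629.eq_one_of_coprime (Nat.Coprime.pow_right _ hcop) h4 h5
    rw [h1, hx, mul_one] at hw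
    have hw1 : w = 1 := Subtype.ext hw
    rw [hw1, ofMul_one, map_zero]
    rfl
  have main := hhp k hp hq hpq α hα hex U M (ρ1.comp U.subtype) (ρ0 x) σ ⟨j, hj⟩ (by
    intro u
    change ρ1 (x : F ⧸ V) * ρ1 (u : F ⧸ V) = ρ1 ((σ u : U) : F ⧸ V) * ρ1 (x : F ⧸ V)
    have h1 := hσk 1 u
    rw [pow_one, pow_one] at h1
    rw [h1, ← map_mul, ← map_mul]
    congr 1
    group) nrm ord ⟨(s : F ⧸ V), ⟨s, hs, rfl⟩⟩
  change ρ0 x ^ p ^ (α - 1) * ρ0 s = ρ0 s * ρ0 x ^ p ^ (α - 1) at main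
  obtain ⟨z, hz⟩ : ∃ z, z = x ^ p ^ (α - 1) := ⟨_, rfl⟩
  rw [← map_pow, ← hz, ← map_mul, ← map_mul] at main
  rw [← hz]
  -- the commutator acts trivially
  have h1 : ρ0 ((s * z)⁻¹ * (z * s)) = 1 := by
    rw [map_mul, main, ← map_mul, inv_mul_cancel, map_one]
  have hcL : (s * z)⁻¹ * (z * s) ∈ L := by
    have e : (s * z)⁻¹ * (z * s) = (z⁻¹ * s⁻¹ * z) * s := by group
    rw [e]
    refine mul_mem ?_ hs
    have := hL.conj_mem s⁻¹ (inv_mem hs) z⁻¹
    rwa [inv_inv] at this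
  have h2 : (s * z)⁻¹ * (z * s) ∈ V := by
    refine hC _ hcL fun v hv => ?_
    generalize (s * z)⁻¹ * (z * s) = c at h1 hcL
    have h3 : ∀ φ : Additive V →+ k, φ (Additive.ofMul
        ((MulAut.conjNormal c⁻¹ (⟨v, hv⟩ : V)) * (⟨v, hv⟩ : V)⁻¹)) = 0 := by
      intro φ
      have h4 := congrArg (fun Z : Module.End k M => (Z φ) (Additive.ofMul (⟨v, hv⟩ : V))) h1
      change φ (Additive.ofMul (MulAut.conjNormal c⁻¹ (⟨v, hv⟩ : V))) =
        φ (Additive.ofMul (⟨v, hv⟩ : V)) at h4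
      rw [ofMul_mul, map_add, h4, ofMul_inv, map_neg, add_neg_cancel]
    have h5 := separate V k hp hab hpow _ h3
    rw [mul_inv_eq_one] at h5
    have h6 := congrArg Subtype.val h5
    rw [MulAut.conjNormal_apply] at h6
    change c⁻¹ * v * (c⁻¹)⁻¹ = v at h6
    rw [inv_inv] at h6
    rw [mul_assoc, inv_mul_eq_iff_eq_mul] at h6
    exact h6.symm
  have h3 := hV.conj_mem _ h2 (s * z)
  have e : s * z * ((s * z)⁻¹ * (z * s)) * (s * z)⁻¹ = z * s * z⁻¹ * s⁻¹ := by group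
  rwa [e] at h3

/-- the theorem of Hall and Higman: powers of elements of maximal order -/
theorem hhB {p q α β : ℕ} (hp : p.Prime) (hq : q.Prime) (hpq : p ≠ q) (hα : 1 ≤ α)
    (hex : ∀ μ, 1 ≤ μ → μ ≤ α → ∀ r, 1 ≤ r → q ^ r ≠ p ^ μ - 1)
    {F : Type} [Group F] [Finite F] (hF : ∀ x : F, x ^ (p ^ α * q ^ β) = 1) {x : F}
    (hx : x ^ p ^ α = 1) : TT (p ^ α) (q ^ β) ⊤ (x ^ p ^ (α - 1)) := by
  refine ind_TT hp hq hpq (fun F _ z => ∃ x : F, x ^ p ^ α = 1 ∧ z = x ^ p ^ (α - 1)) ?_ ?_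
    (Nat.card F) F le_rfl hF _ ?_ ⟨x, hx, rfl⟩
  · rintro F _ N _ _ ⟨x, hx, rfl⟩
    exact ⟨x, by rw [← QuotientGroup.mk_pow, hx]; rfl, by rw [QuotientGroup.mk_pow]⟩
  · rintro F _ _ hF _ - ⟨x, hx, rfl⟩ V L hV hL hVL hVab hVp hLQ hC s hs _
    exact no_conf hp hq hpq hα hex hF hx V L hV hL hVL hVab hVp hLQ hC hs
  · rw [← pow_mul, mul_comm, pow_mul, hx, one_pow]

end Pool.Agent.TH69.Od
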