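import Mathlib
import Pool.Agent.TH69.OdG

set_option autoImplicit false

/-!
# Groups of exponent `p ^ a * q ^ b`, part I: elements of `O_{q,p}` are detected on two-generator
# subgroups
-/

namespace Pool.Agent.TH69.Od

open Pool.Agent.H32BU Pool.Agent.W629 Pool.Agent.TH69.Mtn

variable {F : Type} [Group F]

/-- counting argument -/
theorem half' (V : Subgroup F) (p : ℕ) (a x : F) [hfin : Finite F]
    (hp : p.Prime) (hV : V.Normal) (hcomm : ∀ v ∈ V, ∀ w ∈ V, v * w = w * v)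
    (hexp : ∀ v ∈ V, v ^ p = 1) (B : Subgroup F)
    (hB : ∀ b ∈ B, ∃ k : ℕ, Nat.Coprime k p ∧ b ^ k = 1)
    (hBa : ∀ b ∈ B, a * b * a⁻¹ ∈ B) (hBa' : ∀ b ∈ B, a⁻¹ * b * a ∈ B)
    (hBx : ∀ b ∈ B, x * b * x⁻¹ ∈ B) (hBx' : ∀ b ∈ B, x⁻¹ * b * x ∈ B)
    (hall : ∀ v ∈ V, ∃ B' : Subgroup F, (∀ b ∈ B', ∃ k : ℕ, Nat.Coprime k p ∧ b ^ k = 1) ∧
      (∀ b ∈ B', a * b * a⁻¹ ∈ B') ∧ (∀ b ∈ B', (x * v) * b * (x * v)⁻¹ ∈ B') ∧
      (∀ b ∈ B, ∃ v ∈ V, b * v ∈ B') ∧ (∀ b ∈ B', ∃ v ∈ V, b * v ∈ B)) (u : F) (hu : u ∈ V) :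
    a⁻¹ * u * a * u⁻¹ ∈ V ⊓ Subgroup.centralizer (B : Set F) := by
  have hCinv : ∀ h : F, (∀ b ∈ B, h * b * h⁻¹ ∈ B) → ∀ c ∈ V ⊓ Subgroup.centralizer (B : Set F),
      h⁻¹ * c * h ∈ V ⊓ Subgroup.centralizer (B : Set F) := by
    intro h hh c hc
    rw [Subgroup.mem_inf, Subgroup.mem_centralizer_iff] at hc ⊢
    refine ⟨?_, fun b hb => ?_⟩
    · have := hV.conj_mem c hc.1 h⁻¹
      rwa [inv_inv] at this
    · have hb' := hh b hb
      have := hc.2 _ (SetLike.mem_coe.2 hb')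
      calc b * (h⁻¹ * c * h) = h⁻¹ * ((h * b * h⁻¹) * c) * h := by group
        _ = h⁻¹ * (c * (h * b * h⁻¹)) * h := by rw [this]
        _ = (h⁻¹ * c * h) * b := by group
  refine x_CNT F V (V ⊓ Subgroup.centralizer (B : Set F)) a x hfin hV hcomm inf_le_left
    (fun c hc => hCinv a hBa c hc) (fun c hc => hCinv x hBx c hc) ?_ u hu
  clear u hu
  intro v hv
  obtain ⟨B', hB', hB'a, hB'x, hc1, hc2⟩ := hall v hv
  obtain ⟨u, hu, hug⟩ := x_SZ F V B B' p hfin hp hV hcomm hexp hB hB' hc1 hc2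
  have key : ∀ y : F, (∀ b ∈ B, y⁻¹ * b * y ∈ B) → ∀ v' ∈ V,
      (∀ g ∈ B', (y * v') * g * (y * v')⁻¹ ∈ B') →
      y⁻¹ * u * y * v' * u⁻¹ ∈ V ⊓ Subgroup.centralizer (B : Set F) := by
    intro y hy v' hv' hyv
    have hwV : y⁻¹ * u * y * v' * u⁻¹ ∈ V := by
      refine V.mul_mem (V.mul_mem ?_ hv') (V.inv_mem hu)
      have := hV.conj_mem u hu y⁻¹
      rwa [inv_inv] at this
    set w := y⁻¹ * u * y * v' * u⁻¹ with hw
    rw [Subgroup.mem_inf, Subgroup.mem_centralizer_iff]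
    refine ⟨hwV, fun b hb => ?_⟩
    rw [SetLike.mem_coe] at hb
    have s1 : u⁻¹ * b * u ∈ B' := by
      rw [hug]
      have : u * (u⁻¹ * b * u) * u⁻¹ = b := by group
      rw [this]; exact hb
    have s2 := hyv _ s1
    have s3 := (hug _).1 s2
    have s4 := hy _ s3
    have s5 : y⁻¹ * (u * (y * v' * (u⁻¹ * b * u) * (y * v')⁻¹) * u⁻¹) * y = w * b * w⁻¹ := by
      rw [hw]; group
    rw [s5] at s4
    have s6 : w * b * w⁻¹ * b⁻¹ ∈ B := B.mul_mem s4 (B.inv_mem hb)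
    have s7 : w * b * w⁻¹ * b⁻¹ ∈ V := by
      have := V.mul_mem hwV (hV.conj_mem _ (V.inv_mem hwV) b)
      have e : w * (b * w⁻¹ * b⁻¹) = w * b * w⁻¹ * b⁻¹ := by group
      rwa [e] at this
    obtain ⟨k, hk, hk1⟩ := hB _ s6
    have s8 := W629.eq_one_of_coprime hk hk1 (hexp _ s7)
    have s9 : w * b = b * w := by
      rw [mul_inv_eq_one, mul_inv_eq_iff_eq_mul] at s8
      exact s8
    exact s9.symm
  refine ⟨u, hu, ?_, key x hBx' v hv hB'x⟩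
  have := key a hBa' 1 V.one_mem (by
    intro g hg
    rw [mul_one]
    exact hB'a g hg)
  rwa [mul_one] at this

/-- elements of `O_{q,p}` are detected on two-generator subgroups -/
theorem bs {p q α β : ℕ} (hp : p.Prime) (hq : q.Prime) (hpq : p ≠ q) (hα : 1 ≤ α) [Finite F]
    (hF : ∀ x : F, x ^ (p ^ α * q ^ β) = 1) {z : F} (hz : z ^ p ^ α = 1)
    (h : ∀ f : F, TT (p ^ α) (q ^ β) (c2 z f) z) : TT (p ^ α) (q ^ β) ⊤ z := by
  have hco : Nat.Coprime p q := (Nat.coprime_primes hp hq).2 hpq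
  have hab : Nat.Coprime (p ^ α) (q ^ β) := Nat.Coprime.pow _ _ hco
  refine ind_TT hp hq hpq (fun F _ z => ∀ f : F, TT (p ^ α) (q ^ β) (c2 z f) z) ?_ ?_
    (Nat.card F) F le_rfl hF _ hz h
  · intro F _ N _ z h f
    obtain ⟨f, rfl⟩ := QuotientGroup.mk_surjective f
    have h1 := (h f).map (QuotientGroup.mk' N)
    have h2 : (c2 z f).map (QuotientGroup.mk' N) = c2 (z : F ⧸ N) (f : F ⧸ N) := by
      unfold c2
      rw [MonoidHom.map_closure, Set.image_pair]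
      rfl
    rw [h2] at h1
    exact h1
  clear hF hz h z
  intro F _ _ hF z hz h V L hV hL hVL hVab hVp hLQ hC s hs hsQ
  -- the subgroup of the quotient
  obtain ⟨E, hE⟩ : ∃ E, E = c2 (z : F ⧸ V) (s : F ⧸ V) := ⟨_, rfl⟩
  have hzE : (z : F ⧸ V) ∈ E := by
    rw [hE]
    exact Subgroup.subset_closure (by simp)
  have hsE : (s : F ⧸ V) ∈ E := by
    rw [hE]
    exact Subgroup.subset_closure (by simp)
  obtain ⟨c, hc⟩ : ∃ c : F ⧸ V, c = z * s * (z : F ⧸ V)⁻¹ * (s : F ⧸ V)⁻¹ := ⟨_, rfl⟩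
  have hLn := hL
  obtain ⟨L', hL'⟩ : ∃ L', L' = L.map (QuotientGroup.mk' V) := ⟨_, rfl⟩
  have hL'n : L'.Normal := by
    rw [hL']
    exact Subgroup.Normal.map hL _ (QuotientGroup.mk'_surjective V)
  have hL'Q : ∀ x ∈ L', x ^ q ^ β = 1 := by
    intro x hx
    rw [hL'] at hx
    obtain ⟨l, hl, rfl⟩ := hx
    have := hLQ l hl
    rw [← QuotientGroup.eq_one_iff, QuotientGroup.mk_pow] at this
    exact this
  have hL'L : ∀ x : F, (x : F ⧸ V) ∈ L' → x ∈ L := by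
    intro x hx
    rw [hL'] at hx
    obtain ⟨l, hl, e⟩ := hx
    have h1 : l⁻¹ * x ∈ V := QuotientGroup.eq.1 e
    have h2 := mul_mem hl (hVL h1)
    rwa [mul_inv_cancel_left] at h2
  have hsL' : (s : F ⧸ V) ∈ L' := by
    rw [hL']
    exact ⟨s, hs, rfl⟩
  have hcL' : c ∈ L' := by
    rw [hc]
    exact mul_mem (hL'n.conj_mem _ hsL' _) (inv_mem hsL')
  let N : Subgroup (F ⧸ V) := Subgroup.closure {x | ∃ g ∈ E, x = g * c * g⁻¹}
  have hNE : ∀ g ∈ E, ∀ x ∈ N, g * x * g⁻¹ ∈ N := by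
    intro g hg x hx
    induction hx using Subgroup.closure_induction with
    | mem x hx =>
      obtain ⟨g', hg', rfl⟩ := hx
      refine Subgroup.subset_closure ⟨g * g', mul_mem hg hg', ?_⟩
      group
    | one => rw [mul_one, mul_inv_cancel]; exact one_mem _
    | mul x y _ _ hx hy =>
      have e : g * (x * y) * g⁻¹ = (g * x * g⁻¹) * (g * y * g⁻¹) := by group
      rw [e]
      exact mul_mem hx hy
    | inv x _ hx =>
      have e : g * x⁻¹ * g⁻¹ = (g * x * g⁻¹)⁻¹ := by group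
      rw [e]
      exact inv_mem hx
  have hNle : ∀ A : Subgroup (F ⧸ V), (∀ g ∈ E, ∀ x ∈ A, g * x * g⁻¹ ∈ A) → c ∈ A → N ≤ A := by
    intro A hA hcA
    rw [Subgroup.closure_le]
    rintro _ ⟨g, hg, rfl⟩
    exact hA g hg c hcA
  have hcN : c ∈ N := Subgroup.subset_closure ⟨1, one_mem _, by group⟩
  have hNL' : N ≤ L' := hNle L' (fun g _ x hx => hL'n.conj_mem x hx g) hcL'
  -- the subgroups `B'`
  have hBv : ∀ v ∈ V, ∃ B' : Subgroup F, (∀ b ∈ B', b ^ q ^ β = 1) ∧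
      (∀ g : F, g = z ∨ g = z⁻¹ ∨ g = s * v ∨ g = (s * v)⁻¹ → ∀ b ∈ B', g * b * g⁻¹ ∈ B') ∧
      (∀ b ∈ B', (b : F ⧸ V) ∈ N) ∧ (∀ b : F, (b : F ⧸ V) ∈ N → ∃ w ∈ V, b * w ∈ B') := by
    intro v hv
    obtain ⟨A, B, h1, h2, h3, h4, h5⟩ := h (s * v)
    have hz1 : z ∈ c2 z (s * v) := Subgroup.subset_closure (by simp)
    have hs1 : s * v ∈ c2 z (s * v) := Subgroup.subset_closure (by simp)
    have hv1 : ((s * v : F) : F ⧸ V) = s := by
      rw [QuotientGroup.mk_mul, (QuotientGroup.eq_one_iff v).2 hv, mul_one]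
    have hmapE : (c2 z (s * v)).map (QuotientGroup.mk' V) = E := by
      rw [hE]
      unfold c2
      rw [MonoidHom.map_closure, Set.image_pair]
      change Subgroup.closure {(z : F ⧸ V), ((s * v : F) : F ⧸ V)} = _
      rw [hv1]
    have hNA : N ≤ A.map (QuotientGroup.mk' V) := by
      apply hNle
      · intro g hg x hx
        rw [← hmapE] at hg
        obtain ⟨g, hg, rfl⟩ := hg
        obtain ⟨x, hx, rfl⟩ := hx
        exact ⟨g * x * g⁻¹, h1 g hg x hx, by simp⟩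
      · have h6 : z * (s * v) * z⁻¹ * (s * v)⁻¹ ∈ B := by
          have h7 := mul_mem h5 (h2 (s * v) hs1 _ (inv_mem h5))
          have e : z * ((s * v) * z⁻¹ * (s * v)⁻¹) = z * (s * v) * z⁻¹ * (s * v)⁻¹ := by group
          rwa [e] at h7
        have h7 : ((z * (s * v) * z⁻¹ * (s * v)⁻¹ : F) : F ⧸ V) = c := by
          rw [hc, QuotientGroup.mk_mul, QuotientGroup.mk_mul, QuotientGroup.mk_mul,
            QuotientGroup.mk_inv, QuotientGroup.mk_inv, hv1]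
        refine mem_of_pow hab.symm (hL'Q c hcL') ?_
        exact ⟨_, h4 _ h6, by rw [map_pow]; exact congrArg (· ^ p ^ α) h7⟩
    refine ⟨A ⊓ N.comap (QuotientGroup.mk' V), fun b hb => h3 b hb.1, ?_, fun b hb => hb.2, ?_⟩
    · have key : ∀ g ∈ c2 z (s * v), ∀ b ∈ A ⊓ N.comap (QuotientGroup.mk' V),
          g * b * g⁻¹ ∈ A ⊓ N.comap (QuotientGroup.mk' V) := by
        intro g hg b hb
        refine ⟨h1 g hg b hb.1, ?_⟩
        have h8 : (g : F ⧸ V) ∈ E := by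
          rw [← hmapE]
          exact ⟨g, hg, rfl⟩
        exact hNE _ h8 _ hb.2
      rintro g (rfl | rfl | rfl | rfl)
      · exact key _ hz1
      · exact key _ (inv_mem hz1)
      · exact key _ hs1
      · exact key _ (inv_mem hs1)
    · intro b hb
      obtain ⟨a, ha, e⟩ := hNA hb
      have e' : (a : F ⧸ V) = b := e
      refine ⟨b⁻¹ * a, QuotientGroup.eq.1 e'.symm, ?_⟩
      rw [mul_inv_cancel_left]
      refine ⟨ha, ?_⟩
      change (a : F ⧸ V) ∈ N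
      rw [e']
      exact hb
  obtain ⟨B, hB1, hB2, hB3, hB4⟩ := hBv 1 (one_mem _)
  rw [mul_one] at hB2
  have hcopr : Nat.Coprime (q ^ β) p := Nat.Coprime.pow_left _ hco.symm
  have hBz : ∀ b ∈ B, z * b * z⁻¹ ∈ B := hB2 z (Or.inl rfl)
  have hBz' : ∀ b ∈ B, z⁻¹ * b * z ∈ B := by
    intro b hb
    have := hB2 z⁻¹ (Or.inr (Or.inl rfl)) b hb
    rwa [inv_inv] at this
  have hhalf := half' V p z s hp hV hVab hVp B (fun b hb => ⟨q ^ β, hcopr, hB1 b hb⟩) hBz hBz'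
    (hB2 s (Or.inr (Or.inr (Or.inl rfl)))) (by
      intro b hb
      have := hB2 s⁻¹ (Or.inr (Or.inr (Or.inr rfl))) b hb
      rwa [inv_inv] at this) (by
      intro v hv
      obtain ⟨B', h1, h2, h3, h4⟩ := hBv v hv
      exact ⟨B', fun b hb => ⟨q ^ β, hcopr, h1 b hb⟩, h2 z (Or.inl rfl),
        h2 (s * v) (Or.inr (Or.inr (Or.inl rfl))), fun b hb => h4 b (hB3 b hb),
        fun b hb => hB4 b (h3 b hb)⟩)
  -- `z` centralises `B`
  have hBc : ∀ b ∈ B, b * z = z * b := by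
    intro b hb
    obtain ⟨g, hg⟩ : ∃ g, g = b * z * b⁻¹ * z⁻¹ := ⟨_, rfl⟩
    have hgB : g ∈ B := by
      have h1 := mul_mem hb (hBz _ (inv_mem hb))
      have e : b * (z * b⁻¹ * z⁻¹) = b * z * b⁻¹ * z⁻¹ := by group
      rwa [e, ← hg] at h1
    have hgL : g ∈ L := hL'L g (hNL' (hB3 g hgB))
    have hC0 : ∀ x ∈ V ⊓ Subgroup.centralizer (B : Set F), x ∈ V ∧ ∀ b ∈ B, b * x = x * b := by
      intro x hx
      exact ⟨hx.1, fun b hb => (Subgroup.mem_centralizer_iff.1 hx.2) b hb⟩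
    have hC0z : ∀ x ∈ V ⊓ Subgroup.centralizer (B : Set F),
        z * x * z⁻¹ ∈ V ⊓ Subgroup.centralizer (B : Set F) := by
      intro x hx
      refine ⟨hV.conj_mem x hx.1 z, Subgroup.mem_centralizer_iff.2 fun b hb => ?_⟩
      have h1 := (hC0 x hx).2 _ (hBz' b hb)
      calc b * (z * x * z⁻¹) = z * ((z⁻¹ * b * z) * x) * z⁻¹ := by group
        _ = z * (x * (z⁻¹ * b * z)) * z⁻¹ := by rw [h1]
        _ = z * x * z⁻¹ * b := by group
    have hz2 : ∀ u ∈ V, z * u * z⁻¹ * u⁻¹ ∈ V ⊓ Subgroup.centralizer (B : Set F) := by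
      intro u hu
      have h1 := hhalf (z * u * z⁻¹) (hV.conj_mem u hu z)
      have e : z⁻¹ * (z * u * z⁻¹) * z * (z * u * z⁻¹)⁻¹ = (z * u * z⁻¹ * u⁻¹)⁻¹ := by group
      rw [e] at h1
      have := inv_mem h1
      rwa [inv_inv] at this
    have hgV : ∀ u ∈ V, g * u = u * g := by
      intro u hu
      obtain ⟨κ, hκ⟩ : ∃ κ, κ = g * u * g⁻¹ * u⁻¹ := ⟨_, rfl⟩
      have hκC : κ ∈ V ⊓ Subgroup.centralizer (B : Set F) := by
        -- `c1 = z⁻¹ u z u⁻¹`, `u2 = b⁻¹ u b`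
        have h1 := hhalf u hu
        obtain ⟨c1, hc1⟩ : ∃ c1, c1 = z⁻¹ * u * z * u⁻¹ := ⟨_, rfl⟩
        rw [← hc1] at h1
        have hu2 : b⁻¹ * u * b ∈ V := by
          have := hV.conj_mem u hu b⁻¹
          rwa [inv_inv] at this
        have h2 := hz2 _ hu2
        obtain ⟨c2', hc2'⟩ : ∃ c2', c2' = z * (b⁻¹ * u * b) * z⁻¹ * (b⁻¹ * u * b)⁻¹ := ⟨_, rfl⟩
        rw [← hc2'] at h2
        have h3 := hC0z c1 h1
        have h4 := mul_mem h3 h2
        have e1 : b⁻¹ * c1 * b = c1 := by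
          have := (hC0 c1 h1).2 b hb
          rw [mul_assoc, ← this]
          group
        have e2 : b * (z * c1 * z⁻¹ * c2') * b⁻¹ = z * c1 * z⁻¹ * c2' := by
          have := (hC0 _ h4).2 b hb
          rw [this]
          group
        have e3 : κ = z * c1 * z⁻¹ * c2' := by
          rw [← e2, hκ, hg, hc2']
          have e4 : z⁻¹ * u * z = c1 * u := by rw [hc1]; group
          calc b * z * b⁻¹ * z⁻¹ * u * (b * z * b⁻¹ * z⁻¹)⁻¹ * u⁻¹ =
                b * z * b⁻¹ * (z⁻¹ * u * z) * b * z⁻¹ * b⁻¹ * u⁻¹ := by group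
            _ = b * z * b⁻¹ * (c1 * u) * b * z⁻¹ * b⁻¹ * u⁻¹ := by rw [e4]
            _ = b * z * (b⁻¹ * c1 * b) * (b⁻¹ * u * b) * z⁻¹ * b⁻¹ * u⁻¹ := by group
            _ = b * z * c1 * (b⁻¹ * u * b) * z⁻¹ * b⁻¹ * u⁻¹ := by rw [e1]
            _ = b * (z * c1 * z⁻¹ * (z * (b⁻¹ * u * b) * z⁻¹ * (b⁻¹ * u * b)⁻¹)) * b⁻¹ := by
                group
        rw [e3]
        exact h4
      have hcm : Commute g κ := ((hC0 κ hκC).2 g hgB)
      have h5 := comm_pow (x := g) (y := u) (c := κ) hκ.symm hcm (q ^ β)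
      rw [hB1 g hgB] at h5
      have h6 : κ ^ q ^ β = 1 := by rw [← h5]; group
      have h7 := W629.eq_one_of_coprime hcopr h6 (hVp κ (hC0 κ hκC).1)
      rw [h7, eq_comm, mul_inv_eq_one, mul_inv_eq_iff_eq_mul] at hκ
      exact hκ
    have h8 := hC g hgL hgV
    have h9 := W629.eq_one_of_coprime hcopr (hB1 g hgB) (hVp g h8)
    rw [h9, eq_comm, mul_inv_eq_one, mul_inv_eq_iff_eq_mul] at hg
    exact hg
  -- conclusion
  obtain ⟨c0, hc0⟩ := QuotientGroup.mk_surjective c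
  obtain ⟨w, hw, hcw⟩ := hB4 c0 (by rw [hc0]; exact hcN)
  have h1 := hBc _ hcw
  have h2 : ((c0 * w : F) : F ⧸ V) = c := by
    rw [QuotientGroup.mk_mul, (QuotientGroup.eq_one_iff w).2 hw, mul_one, hc0]
  have h3 : c * (z : F ⧸ V) = z * c := by
    rw [← h2, ← QuotientGroup.mk_mul, h1, QuotientGroup.mk_mul]
  have h4 := comm_pow (x := (z : F ⧸ V)) (y := (s : F ⧸ V)) (c := c) hc.symm
    (show Commute (z : F ⧸ V) c from h3.symm) (p ^ α)
  have h5 : (z : F ⧸ V) ^ p ^ α = 1 := by rw [← QuotientGroup.mk_pow, hz]; rfl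
  rw [h5] at h4
  have h6 : c ^ p ^ α = 1 := by rw [← h4]; group
  have h7 := W629.eq_one_of_coprime hab h6 (hL'Q c hcL')
  rw [← QuotientGroup.eq_one_iff]
  change (z : F ⧸ V) * s * (z : F ⧸ V)⁻¹ * (s : F ⧸ V)⁻¹ = 1
  rw [← hc, h7]

end Pool.Agent.TH69.Od
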