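import Mathlib
import Pool.Agent.TH69.MtnG

set_option autoImplicit false

/-!
# Groups of finite exponent with finite metanilpotent two-generator subgroups, part H:
# metanilpotent groups in the usual sense, and transfer to all universes
-/

namespace Pool.Agent.TH69.Mtn

open Pool.Agent.H32BU Pool.Agent.W629

universe u v

/-- a normal nilpotent subgroup with nilpotent quotient -/
def MN (K : Type u) [Group K] : Prop :=
  ∃ N : Subgroup K, ∃ _ : N.Normal, Group.IsNilpotent N ∧ Group.IsNilpotent (K ⧸ N)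

theorem MN.of_injective {A : Type u} {B : Type v} [Group A] [Group B] (f : A →* B)
    (hf : Function.Injective f) (h : MN B) : MN A := by
  obtain ⟨N, hN, h1, h2⟩ := h
  refine ⟨N.comap f, inferInstance, ?_, ?_⟩
  · let g : N.comap f →* N := (f.comp (N.comap f).subtype).codRestrict N fun x => x.2
    refine Subgroup.isNilpotent_of_ker_le_center g ?_
    have hg : Function.Injective g := by
      intro x y hxy
      exact Subtype.ext (hf (congrArg Subtype.val hxy))
    rw [(MonoidHom.ker_eq_bot_iff g).2 hg]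
    exact bot_le
  · let g : A ⧸ N.comap f →* B ⧸ N := QuotientGroup.map _ _ f le_rfl
    refine Subgroup.isNilpotent_of_ker_le_center g ?_
    have hg : g.ker = ⊥ := by
      rw [Subgroup.eq_bot_iff_forall]
      intro x hx
      obtain ⟨x, rfl⟩ := QuotientGroup.mk_surjective x
      have h3 : ((f x : B) : B ⧸ N) = 1 := hx
      rw [QuotientGroup.eq_one_iff] at h3 ⊢
      exact h3
    rw [hg]
    exact bot_le

/-- elements of coprime orders of a nilpotent group commute -/
theorem nilp_comm (K : Type u) [Group K] (hK : Group.IsNilpotent K) :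
    ∀ (x y : K) (a b : ℕ), Nat.Coprime a b → x ^ a = 1 → y ^ b = 1 → x * y = y * x := by
  refine Group.nilpotent_center_quotient_ind (P := fun K _ _ => ∀ (x y : K) (a b : ℕ),
    Nat.Coprime a b → x ^ a = 1 → y ^ b = 1 → x * y = y * x) K ?_ ?_
  · intro K _ _ x y a b _ _ _
    exact Subsingleton.elim _ _
  · intro K _ _ ih x y a b hab hx hy
    have h1 := ih (x : K ⧸ Subgroup.center K) y a b hab
      (by rw [← QuotientGroup.mk_pow, hx]; rfl) (by rw [← QuotientGroup.mk_pow, hy]; rfl)
    have h2 : x * y * x⁻¹ * y⁻¹ ∈ Subgroup.center K := by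
      rw [← QuotientGroup.eq_one_iff]
      change (x : K ⧸ Subgroup.center K) * y * (x : K ⧸ Subgroup.center K)⁻¹ *
        (y : K ⧸ Subgroup.center K)⁻¹ = 1
      rw [h1]
      group
    rw [Subgroup.mem_center_iff] at h2
    have key : ∀ (x y c : K), x * y = c * (y * x) → (∀ g, g * c = c * g) → ∀ k : ℕ,
        x ^ k * y = c ^ k * (y * x ^ k) := by
      intro x y c hc hz k
      induction k with
      | zero => simp
      | succ k ih =>
        have e1 : x ^ (k + 1) * y = x ^ k * (x * y) := by rw [pow_succ]; group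
        rw [e1, hc, ← mul_assoc, hz, mul_assoc, ← mul_assoc (x ^ k), ih, pow_succ' c, pow_succ x]
        group
    have h3 : x * y = (x * y * x⁻¹ * y⁻¹) * (y * x) := by group
    have h4 := key x y _ h3 h2 a
    rw [hx] at h4
    have h5 : (x * y * x⁻¹ * y⁻¹) ^ a = 1 := by simpa using h4.symm
    have h6 : y * x = (x * y * x⁻¹ * y⁻¹)⁻¹ * (x * y) := by group
    have h7 := key y x _ h6 (fun g => by
      have := h2 g
      rw [eq_inv_mul_iff_mul_eq, ← mul_assoc, ← this]
      group) b
    rw [hy] at h7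
    have h8 : ((x * y * x⁻¹ * y⁻¹)⁻¹) ^ b = 1 := by simpa using h7.symm
    rw [inv_pow, inv_eq_one] at h8
    have h9 := eq_one_of_coprime hab h5 h8
    rw [mul_inv_eq_one, mul_inv_eq_iff_eq_mul] at h9
    exact h9

theorem MN.dd {K : Type} [Group K] (h : MN K) : DD (⊤ : Subgroup K) 2 = ⊥ := by
  obtain ⟨N, hN, h1, h2⟩ := h
  have h3 : NR (⊤ : Subgroup K) ≤ N := by
    unfold NR
    rw [Subgroup.closure_le]
    rintro _ ⟨x, -, y, -, a, b, hab, hx, hy, rfl⟩
    rw [SetLike.mem_coe, ← QuotientGroup.eq_one_iff]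
    have h4 := nilp_comm _ h2 (x : K ⧸ N) y a b hab
      (by rw [← QuotientGroup.mk_pow, hx]; rfl) (by rw [← QuotientGroup.mk_pow, hy]; rfl)
    change (x : K ⧸ N) * y * (x : K ⧸ N)⁻¹ * (y : K ⧸ N)⁻¹ = 1
    rw [h4]
    group
  have h5 : NR N = ⊥ := by
    unfold NR
    rw [Subgroup.closure_eq_bot_iff]
    rintro _ ⟨x, hxN, y, hyN, a, b, hab, hx, hy, rfl⟩
    rw [Set.mem_singleton_iff]
    have h4 := nilp_comm _ h1 (⟨x, hxN⟩ : N) ⟨y, hyN⟩ a b hab
      (Subtype.ext (by rw [Subgroup.coe_pow]; exact hx))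
      (Subtype.ext (by rw [Subgroup.coe_pow]; exact hy))
    have h6 : x * y = y * x := congrArg Subtype.val h4
    rw [h6]
    group
  have h6 := (x_MON K).1 (NR ⊤) N h3 1
  have h7 : DD N 1 = ⊥ := h5
  rw [h7, le_bot_iff] at h6
  exact h6

/-- the condition on two-generator subgroups, transferred -/
theorem two_transfer {Q : Type} {G : Type u} [Group Q] [Group G] (f : Q →* G)
    (hf : Function.Injective f)
    (h2 : ∀ x y : G, Finite (Subgroup.closure {x, y}) ∧ MN (Subgroup.closure {x, y})) (x y : Q) :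
    Finite (c2 x y) ∧ DD (c2 x y) 2 = ⊥ := by
  obtain ⟨h3, h4⟩ := h2 (f x) (f y)
  have e : (c2 x y).map f = Subgroup.closure {f x, f y} := by
    unfold c2
    rw [MonoidHom.map_closure, Set.image_pair]
  rw [← e] at h3 h4
  have eq := (c2 x y).equivMapOfInjective f hf
  refine ⟨Finite.of_equiv _ eq.symm.toEquiv, ?_⟩
  have h5 : MN (c2 x y) := MN.of_injective eq.toMonoidHom eq.injective h4
  have h6 := x_MAPI (c2 x y) Q (c2 x y).subtype (Subgroup.subtype_injective _) ⊤ 2
  rw [← MonoidHom.range_eq_map, Subgroup.range_subtype, h5.dd, Subgroup.map_bot] at h6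
  exact h6.symm

theorem lf_meta_u {n : ℕ} (hn : 1 ≤ n) (hL : ∀ p : ℕ, p.Prime → LocFin (qp p n)) (G : Type u)
    [Group G] (hG : ∀ x : G, x ^ n = 1)
    (h2 : ∀ x y : G, Finite (Subgroup.closure {x, y}) ∧ MN (Subgroup.closure {x, y}))
    (S : Set G) (hS : S.Finite) : Finite (Subgroup.closure S) :=
  finite_closure_u S hS fun Q _ f hf => lf_meta hn hL Q
    (fun x => hf (by rw [map_pow, map_one]; exact hG _)) (two_transfer f hf h2)

theorem countable_closure {G : Type u} [Group G] (S : Set G) (hS : S.Countable) :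
    Countable (Subgroup.closure S) := by
  have := hS.to_subtype
  have e : (FreeGroup.lift (fun x : S => (x : G))).range = Subgroup.closure S := by
    rw [FreeGroup.range_lift_eq_closure, Subtype.range_coe]
  rw [← e]
  exact (MonoidHom.rangeRestrict_surjective _).countable

/-- countable subgroups closed under countably many unary operations -/
theorem exists_closed {G : Type u} [Group G] (f : ℕ → G → G) (g : G) :
    ∃ C : Subgroup G, Countable C ∧ g ∈ C ∧ ∀ s, ∀ x ∈ C, f s x ∈ C := by
  obtain ⟨C, hC0, hCs⟩ : ∃ C : ℕ → Subgroup G, C 0 = Subgroup.closure {g} ∧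
      ∀ i, C (i + 1) = Subgroup.closure ((C i : Set G) ∪ ⋃ s, f s '' (C i : Set G)) :=
    ⟨fun i => Nat.rec (Subgroup.closure {g})
      (fun _ H => Subgroup.closure ((H : Set G) ∪ ⋃ s, f s '' (H : Set G))) i,
      rfl, fun _ => rfl⟩
  have hC : ∀ i, C i ≤ C (i + 1) := fun i x hx => by
    rw [hCs]
    exact Subgroup.subset_closure (Or.inl hx)
  have hmono : Monotone C := monotone_nat_of_le_succ hC
  have hcount : ∀ i, (C i : Set G).Countable := by
    intro i
    induction i with
    | zero =>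
      rw [hC0]
      exact Set.countable_coe_iff.1 (countable_closure _ (Set.countable_singleton g))
    | succ i ih =>
      rw [hCs]
      exact Set.countable_coe_iff.1 (countable_closure _
        (ih.union (Set.countable_iUnion fun s => ih.image _)))
  have hmem : ∀ x, x ∈ (⨆ i, C i) ↔ ∃ i, x ∈ C i := fun x =>
    Subgroup.mem_iSup_of_directed hmono.directed_le
  refine ⟨⨆ i, C i, ?_, ?_, ?_⟩
  · have h : ((⨆ i, C i : Subgroup G) : Set G) = ⋃ i, (C i : Set G) := by
      ext x
      rw [SetLike.mem_coe, hmem, Set.mem_iUnion]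
      rfl
    have h2 : ((⨆ i, C i : Subgroup G) : Set G).Countable := by
      rw [h]
      exact Set.countable_iUnion hcount
    exact Set.countable_coe_iff.2 h2
  · rw [hmem]
    exact ⟨0, by rw [hC0]; exact Subgroup.subset_closure rfl⟩
  · intro s x hx
    rw [hmem] at hx ⊢
    obtain ⟨i, hi⟩ := hx
    exact ⟨i + 1, by
      rw [hCs]
      exact Subgroup.subset_closure (Or.inr (Set.mem_iUnion.2 ⟨s, x, hi, rfl⟩))⟩

/-- triviality of groups with trivial radicals, all universes -/
theorem trivial_of_rad_u {n : ℕ} (hn : 1 ≤ n) (G : Type u) [Group G] (hG : ∀ x : G, x ^ n = 1)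
    (h2 : ∀ x y : G, Finite (Subgroup.closure {x, y}) ∧ MN (Subgroup.closure {x, y}))
    (hR : ∀ s : ℕ, s.Prime → Rad (qp s n) G = ⊥) (g : G) : g = 1 := by
  classical
  have hex : ∀ (s : ℕ) (e : G), ∃ z : G, s.Prime → e ≠ 1 → e ^ qp s n = 1 →
      z ^ qp s n = 1 ∧ (e * z) ^ qp s n ≠ 1 := by
    intro s e
    by_contra hcon
    push Not at hcon
    obtain ⟨hs, he1, he, -⟩ := hcon 1
    apply he1
    have h3 : e ∈ Rad (qp s n) G := ⟨he, fun z hz => (hcon z).2.2.2 hz⟩
    rw [hR s hs] at h3
    exact h3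
  choose f hf using hex
  obtain ⟨C, hC, hgC, hfC⟩ := exists_closed f g
  have hsm : Small.{0} C := inferInstance
  let e : Shrink.{0} C ≃* C := Shrink.mulEquiv
  let φ : Shrink.{0} C →* G := C.subtype.comp e.toMonoidHom
  have hφ : Function.Injective φ := fun x y hxy => e.injective (Subtype.ext hxy)
  have hmem : ∀ x, φ x ∈ C := fun x => (e x).2
  have h3 := trivial_of_rad hn (G := Shrink.{0} C)
    (fun x => hφ (by rw [map_pow, map_one]; exact hG _)) (two_transfer φ hφ h2) (by
      intro s hs
      rw [Subgroup.eq_bot_iff_forall]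
      rintro x ⟨hx, hx'⟩
      by_contra hne
      obtain ⟨h4, h5⟩ := hf s (φ x) hs (fun h => hne (hφ (by rw [h, map_one])))
        (by rw [← map_pow, hx, map_one])
      obtain ⟨z, hz⟩ : ∃ z, φ z = f s (φ x) := by
        refine ⟨e.symm ⟨f s (φ x), hfC s _ (hmem x)⟩, ?_⟩
        change ((e (e.symm _) : C) : G) = _
        rw [MulEquiv.apply_symm_apply]
      have h6 := hx' z (hφ (by rw [map_pow, hz, h4, map_one]))
      apply h5
      rw [← hz, ← map_mul, ← map_pow, h6, map_one]) (e.symm ⟨g, hgC⟩)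
  have h4 := congrArg φ h3
  rw [map_one] at h4
  have h5 : φ (e.symm ⟨g, hgC⟩) = g := by
    change ((e (e.symm _) : C) : G) = _
    rw [MulEquiv.apply_symm_apply]
  rw [← h5, h4]

end Pool.Agent.TH69.Mtn
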