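import Mathlib
import Pool.Agent.W629.Tw.Basic
import Pool.Agent.TH69.MtnE
import Pool.Agent.W629.TwiceLF

set_option autoImplicit false

/-!
# Two-generator subgroups of Fitting height three, part A: the `A × B` lemma and centralisers
-/

namespace Pool.Agent.TH69.Pq

open Pool.Agent.H32BU Pool.Agent.W629 Pool.Agent.TH69.Mtn
open scoped commutatorElement

variable {G : Type} [Group G]

/-- Thompson's `A × B` lemma -/
theorem axb [Finite G] {s β a : ℕ} (hs : s.Prime) (hco : Nat.Coprime a (s ^ β)) (P : Subgroup G)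
    [hPn : P.Normal] (hP : ∀ x ∈ P, x ^ s ^ β = 1) {g e : G} (hg : g ^ s ^ β = 1) (he : e ^ a = 1)
    (hge : g * e = e * g) (h : ∀ u ∈ P, u * g = g * u → u * e = e * u) :
    ∀ u ∈ P, u * e = e * u := by
  have : Fact s.Prime := ⟨hs⟩
  have hPp : IsPGroup s P := fun x => ⟨β, Subtype.ext (by
    rw [Subgroup.coe_pow, Subgroup.coe_one]
    exact hP x x.2)⟩
  have hgp : IsPGroup s (Subgroup.zpowers g) := by
    rintro ⟨x, hx⟩
    obtain ⟨k, rfl⟩ := Subgroup.mem_zpowers_iff.1 hx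
    refine ⟨β, Subtype.ext ?_⟩
    rw [Subgroup.coe_pow, Subgroup.coe_one, ← zpow_natCast, ← zpow_mul, mul_comm, zpow_mul,
      zpow_natCast, hg, one_zpow]
  have hQp : IsPGroup s (Subgroup.zpowers g ⊔ P : Subgroup G) := hgp.to_sup_of_normal_right hPp
  obtain ⟨Q, hQ⟩ : ∃ Q : Subgroup G, Q = Subgroup.zpowers g ⊔ P := ⟨_, rfl⟩
  rw [← hQ] at hQp
  have hPQ : P ≤ Q := by rw [hQ]; exact le_sup_right
  have hgQ : g ∈ Q := by
    rw [hQ]
    exact (le_sup_left : Subgroup.zpowers g ≤ _) (Subgroup.mem_zpowers g)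
  have hnil : Group.IsNilpotent Q := hQp.isNilpotent
  obtain ⟨N, hN⟩ := (Subgroup.isNilpotent_iff_lowerCentralSeries Q).1 hnil
  have key : ∀ k i : ℕ, i + k = N → ∀ u ∈ P, u ∈ Q.lowerCentralSeries i → u * e = e * u := by
    intro k
    induction k with
    | zero =>
      intro i hi u _ hu2
      rw [add_zero] at hi
      rw [hi, hN, Subgroup.mem_bot] at hu2
      rw [hu2, one_mul, mul_one]
    | succ k ih =>
      intro i hi u hu hu2
      have ih' := ih (i + 1) (by omega)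
      obtain ⟨κ, hκ⟩ : ∃ κ, κ = g * u * g⁻¹ * u⁻¹ := ⟨_, rfl⟩
      have hκP : κ ∈ P := by
        rw [hκ]
        exact mul_mem (hPn.conj_mem u hu g) (inv_mem hu)
      have hκL : κ ∈ Q.lowerCentralSeries (i + 1) := by
        have h1 : ⁅u, g⁆ ∈ Q.lowerCentralSeries (i + 1) := by
          rw [Subgroup.lowerCentralSeries_succ]
          exact Subgroup.commutator_mem_commutator hu2 hgQ
        have h2 : κ = ⁅u, g⁆⁻¹ := by
          rw [hκ, commutatorElement_def]
          group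
        rw [h2]
        exact inv_mem h1
      have hκe := ih' κ hκP hκL
      have hκ' : u⁻¹ * κ * u ∈ P := by
        have := hPn.conj_mem κ hκP u⁻¹
        rwa [inv_inv] at this
      have hκL' : u⁻¹ * κ * u ∈ Q.lowerCentralSeries (i + 1) := by
        have h1 := Subgroup.self_le_normalizer_lowerCentralSeries Q (i + 1)
          (inv_mem (hPQ hu))
        have h2 := (Subgroup.mem_normalizer_iff.1 h1 κ).1 hκL
        rwa [inv_inv] at h2
      have hκe' := ih' _ hκ' hκL'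
      obtain ⟨c, hc⟩ : ∃ c, c = e * u * e⁻¹ * u⁻¹ := ⟨_, rfl⟩
      have hcP : c ∈ P := by
        rw [hc]
        exact mul_mem (hPn.conj_mem u hu e) (inv_mem hu)
      have e1 : e * u = c * u * e := by rw [hc]; group
      have hck : c * κ = κ * c := by
        -- `e (u⁻¹ κ u) = (u⁻¹ κ u) e`
        have e2 : κ * u = g * u * g⁻¹ := by rw [hκ]; group
        have h3 : (c * u)⁻¹ * κ * (c * u) = u⁻¹ * κ * u := by
          have e3 : c * u = e * u * e⁻¹ := by rw [hc]; group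
          rw [e3]
          calc (e * u * e⁻¹)⁻¹ * κ * (e * u * e⁻¹) = e * u⁻¹ * (e⁻¹ * (κ * e)) * u * e⁻¹ := by
                group
            _ = e * u⁻¹ * (e⁻¹ * (e * κ)) * u * e⁻¹ := by rw [hκe]
            _ = e * (u⁻¹ * κ * u) * e⁻¹ := by group
            _ = (u⁻¹ * κ * u) * e * e⁻¹ := by rw [← hκe']
            _ = u⁻¹ * κ * u := by group
        calc c * κ = c * u * (u⁻¹ * κ * u) * u⁻¹ := by group
          _ = c * u * ((c * u)⁻¹ * κ * (c * u)) * u⁻¹ := by rw [h3]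
          _ = κ * c := by group
      have hcg : c * g = g * c := by
        have h4 : g * c * g⁻¹ = κ * c * κ⁻¹ := by
          have e4 : g * u * g⁻¹ = κ * u := by rw [hκ]; group
          calc g * c * g⁻¹ = (g * e) * u * e⁻¹ * u⁻¹ * g⁻¹ := by rw [hc]; group
            _ = (e * g) * u * e⁻¹ * u⁻¹ * g⁻¹ := by rw [hge]
            _ = e * (g * u * g⁻¹) * (g * e⁻¹ * g⁻¹) * (g * u * g⁻¹)⁻¹ := by group
            _ = e * (g * u * g⁻¹) * ((g * e * g⁻¹)⁻¹) * (g * u * g⁻¹)⁻¹ := by group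
            _ = e * (g * u * g⁻¹) * ((e * g * g⁻¹)⁻¹) * (g * u * g⁻¹)⁻¹ := by rw [hge]
            _ = (e * (κ * u)) * e⁻¹ * (κ * u)⁻¹ := by rw [e4]; group
            _ = (e * κ) * u * e⁻¹ * u⁻¹ * κ⁻¹ := by group
            _ = (κ * e) * u * e⁻¹ * u⁻¹ * κ⁻¹ := by rw [hκe]
            _ = κ * (e * u * e⁻¹ * u⁻¹) * κ⁻¹ := by group
            _ = κ * c * κ⁻¹ := by rw [hc]
        have h5 : κ * c * κ⁻¹ = c := by rw [← hck]; group
        rw [h5, mul_inv_eq_iff_eq_mul] at h4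
        exact h4.symm
      have hce := h c hcP hcg
      have h6 := comm_pow (x := e) (y := u) (c := c) hc.symm hce.symm a
      rw [he] at h6
      have h7 : c ^ a = 1 := by rw [← h6]; group
      have h8 := W629.eq_one_of_coprime hco h7 (hP c hcP)
      rw [h8, one_mul] at e1
      exact e1.symm
  intro u hu
  exact key N 0 (zero_add N) u hu (hPQ hu)

/-- in finite groups, `O_r(C(g)) ≤ O_r` for `s`-elements `g` -/
theorem fin_cent [Finite G] {n r s : ℕ} (hr : r.Prime) (hs : s.Prime) (hrs : r ≠ s)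
    (hn : qp r n * qp s n = n) (hG : ∀ x : G, x ^ n = 1) (hsol : Group.IsSolvable G) {g e : G}
    (hg : g ^ qp s n = 1) (he : e ^ qp r n = 1) (hge : g * e = e * g)
    (h : ∀ z : G, z * g = g * z → z ^ qp r n = 1 → (e * z) ^ qp r n = 1) :
    e ∈ Rad (qp r n) G := by
  have hco := qp_coprime (n := n) hr hs hrs
  have hG' : ∀ x : G, x ^ (qp r n * qp s n) = 1 := fun x => by rw [hn]; exact hG x
  refine Tw.mem_rad_of hco hG' hsol he ?_
  have hGq := exp_quot hG' (Rad (qp r n) G)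
  have hmk : ∀ {x : G} {k : ℕ}, x ^ k = 1 → (x : G ⧸ Rad (qp r n) G) ^ k = 1 := by
    intro x k hx
    rw [← QuotientGroup.mk_pow, hx]
    rfl
  intro u hu
  have hN : ¬ s ∣ Nat.card (Rad (qp r n) G) :=
    Tw.not_dvd_card hs (Nat.Coprime.pow_right _ ((Nat.coprime_primes hs hr).2 hrs.symm)) _
      fun x hx => rad_pow hx
  refine (axb hs hco (Rad (qp s n) (G ⧸ Rad (qp r n) G)) (fun x hx => rad_pow hx) (hmk hg)
    (hmk he) (by rw [← QuotientGroup.mk_mul, hge, QuotientGroup.mk_mul]) ?_ u hu).symm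
  intro w hw hwg
  obtain ⟨w, hwg', rfl⟩ := Tw.lift_comm hs (Rad (qp r n) G) hN
    (show g ^ s ^ n.factorization s = 1 from hg) hwg
  have hwg2 : w * g = g * w := hwg'
  -- the commutator of `e` and `w`
  have h1 : (e * (w * e⁻¹ * w⁻¹)) ^ qp r n = 1 := by
    apply h
    · have e1 : w * e⁻¹ * w⁻¹ * g = w * e⁻¹ * (w⁻¹ * g) := by group
      have e2 : w⁻¹ * g = g * w⁻¹ := by
        rw [inv_mul_eq_iff_eq_mul, ← mul_assoc, hwg2]
        group
      have e3 : e⁻¹ * g = g * e⁻¹ := by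
        rw [inv_mul_eq_iff_eq_mul, ← mul_assoc, ← hge]
        group
      rw [e1, e2]
      have e4 : w * e⁻¹ * (g * w⁻¹) = w * (e⁻¹ * g) * w⁻¹ := by group
      rw [e4, e3]
      have e5 : w * (g * e⁻¹) * w⁻¹ = (w * g) * e⁻¹ * w⁻¹ := by group
      rw [e5, hwg2]
      group
    · exact conj_pow_one (by rw [inv_pow, he, inv_one])
  have h2 := hmk h1
  have h3 : ((e * (w * e⁻¹ * w⁻¹) : G) : G ⧸ Rad (qp r n) G) ^ qp s n = 1 := by
    apply rad_pow
    have e1 : ((e * (w * e⁻¹ * w⁻¹) : G) : G ⧸ Rad (qp r n) G) =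
        (e * (w : G ⧸ Rad (qp r n) G) * (e : G ⧸ Rad (qp r n) G)⁻¹) *
          (w : G ⧸ Rad (qp r n) G)⁻¹ := by
      rw [← QuotientGroup.mk_inv, ← QuotientGroup.mk_inv, ← QuotientGroup.mk_mul,
        ← QuotientGroup.mk_mul, ← QuotientGroup.mk_mul]
      congr 1
      group
    rw [e1]
    exact mul_mem ((rad_normal (qp s n)).conj_mem _ hw _) (inv_mem hw)
  have h4 := W629.eq_one_of_coprime hco h2 h3
  rw [QuotientGroup.eq_one_iff] at h4
  rw [← QuotientGroup.mk_mul, ← QuotientGroup.mk_mul, QuotientGroup.eq]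
  have h5 : (w * e)⁻¹ * (e * w) = (w * e)⁻¹ * (e * (w * e⁻¹ * w⁻¹)) * ((w * e)⁻¹)⁻¹ := by group
  rw [h5]
  exact (rad_normal (qp r n)).conj_mem _ h4 _

/-- `O_r(C(g)) ≤ O_r` for `s`-elements `g` -/
theorem cent_rad {n r s : ℕ} (hr : r.Prime) (hs : s.Prime) (hrs : r ≠ s)
    (hn : qp r n * qp s n = n) (hG : ∀ x : G, x ^ n = 1) (h2 : ∀ x y : G, Finite (c2 x y))
    {g e : G} (hg : g ^ qp s n = 1) (he : e ^ qp r n = 1) (hge : g * e = e * g)
    (h : ∀ z : G, z * g = g * z → z ^ qp r n = 1 → (e * z) ^ qp r n = 1) :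
    e ∈ Rad (qp r n) G := by
  refine ⟨he, fun z hz => ?_⟩
  have hf := h2 (e * g) z
  have m1 : e * g ∈ c2 (e * g) z := Subgroup.subset_closure (by simp)
  have m2 : z ∈ c2 (e * g) z := Subgroup.subset_closure (by simp)
  obtain ⟨m3, m4⟩ := mem_of_mul hge.symm he hg (qp_coprime hr hs hrs) _ m1
  have hL := exp_sub hG (c2 (e * g) z)
  have hsol : Group.IsSolvable (c2 (e * g) z) := by
    refine solv_of_exp r s (n.factorization r) (n.factorization s) hr hs fun x => ?_
    have : r ^ n.factorization r * s ^ n.factorization s = n := hn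
    rw [this]
    exact hL x
  have h3 := fin_cent (G := c2 (e * g) z) hr hs hrs hn hL hsol (g := ⟨g, m4⟩) (e := ⟨e, m3⟩)
    (Subtype.ext hg) (Subtype.ext he) (Subtype.ext hge) (fun w hw hw2 => Subtype.ext
      (h w (congrArg Subtype.val hw) (congrArg Subtype.val hw2)))
  have h4 := h3.2 ⟨z, m2⟩ (Subtype.ext hz)
  exact congrArg Subtype.val h4

end Pool.Agent.TH69.Pq
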