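import Mathlib
import Pool.Agent.TH69.PqA

set_option autoImplicit false

/-!
# Two-generator subgroups of Fitting height three, part B: changing one generator by an element
# of a normal subgroup
-/

namespace Pool.Agent.TH69.Pq

open Pool.Agent.H32BU Pool.Agent.W629 Pool.Agent.TH69.Mtn

variable {F : Type} [Group F]

/-- version of `TPAIR.half` for the pairs `a`, `x v` -/
theorem half
    (V : Subgroup F) (p m : ℕ) (a x : F) [hfin : Finite F]
    (hp : p.Prime) (hV : V.Normal) (hcomm : ∀ v ∈ V, ∀ w ∈ V, v * w = w * v)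
    (hexp : ∀ v ∈ V, v ^ p = 1)
    (hB : ∀ b ∈ DD (c2 a x) m, ∃ k : ℕ, Nat.Coprime k p ∧ b ^ k = 1)
    (hall : ∀ v ∈ V, DD (c2 a (x * v)) (m + 1) = ⊥) (u : F) (hu : u ∈ V) :
    a⁻¹ * u * a * u⁻¹ ∈ V ⊓ Subgroup.centralizer (DD (c2 a x) m : Set F) := by
  have haH : a ∈ c2 a x := Subgroup.subset_closure (by simp)
  have hxH : x ∈ c2 a x := Subgroup.subset_closure (by simp)
  set B := DD (c2 a x) m with hBdef
  have hCinv : ∀ h ∈ c2 a x, ∀ c ∈ V ⊓ Subgroup.centralizer (B : Set F),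
      h⁻¹ * c * h ∈ V ⊓ Subgroup.centralizer (B : Set F) := by
    intro h hh c hc
    rw [Subgroup.mem_inf, Subgroup.mem_centralizer_iff] at hc ⊢
    refine ⟨?_, fun b hb => ?_⟩
    · have := hV.conj_mem c hc.1 h⁻¹
      rwa [inv_inv] at this
    · have hb' := (TPAIR.conj_mem x_MON (c2 a x) m hh (SetLike.mem_coe.1 hb)).1
      have := hc.2 _ (SetLike.mem_coe.2 hb')
      -- (h b h⁻¹) c = c (h b h⁻¹)
      calc b * (h⁻¹ * c * h) = h⁻¹ * ((h * b * h⁻¹) * c) * h := by group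
        _ = h⁻¹ * (c * (h * b * h⁻¹)) * h := by rw [this]
        _ = (h⁻¹ * c * h) * b := by group
  refine x_CNT F V (V ⊓ Subgroup.centralizer (B : Set F)) a x hfin hV hcomm inf_le_left
    (fun c hc => hCinv a haH c hc) (fun c hc => hCinv x hxH c hc) ?_ u hu
  clear u hu
  intro v hv
  -- the group `H_v`
  set Hv := c2 a (x * v) with hHv
  have haHv : a ∈ Hv := Subgroup.subset_closure (by simp)
  have hxHv : x * v ∈ Hv := Subgroup.subset_closure (by simp)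
  set Bv := DD Hv m with hBv
  have hNR : NR Bv = ⊥ := hall v hv
  have hBvfin : Finite Bv := inferInstance
  obtain ⟨_, ⟨B', hB'⟩⟩ := x_SYL F Bv hBvfin hNR p hp
  -- images in `F ⧸ V`
  haveI := hV
  set f := QuotientGroup.mk' V with hf
  have hfv : ∀ v ∈ V, f v = 1 := fun v hv => (QuotientGroup.eq_one_iff v).2 hv
  have hmapH : Hv.map f = (c2 a x).map f := by
    rw [hHv]
    unfold c2
    rw [MonoidHom.map_closure, MonoidHom.map_closure, Set.image_pair, Set.image_pair, map_mul,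
      hfv v hv, mul_one]
  have hmapB : Bv.map f = B.map f := by
    rw [hBv, hBdef, x_MAPS F (F ⧸ V) f (fun x => isOfFinOrder_of_finite x) Hv m,
      x_MAPS F (F ⧸ V) f (fun x => isOfFinOrder_of_finite x) (c2 a x) m, hmapH]
  have hdiff : ∀ g h : F, f g = f h → h⁻¹ * g ∈ V := by
    intro g h hgh
    exact QuotientGroup.eq.1 hgh.symm
  -- first condition
  have hc1 : ∀ b ∈ B, ∃ v ∈ V, b * v ∈ B' := by
    intro b hb
    obtain ⟨k, hk, hbk⟩ := hB b hb
    have hfb : f b ∈ Bv.map f := by rw [hmapB]; exact Subgroup.mem_map_of_mem f hb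
    obtain ⟨g, hg, hgb⟩ := Subgroup.mem_map.1 hfb
    have hgk : g ^ k ∈ V := by
      have : f (g ^ k) = 1 := by rw [map_pow, hgb, ← map_pow, hbk, map_one]
      exact (QuotientGroup.eq_one_iff _).1 this
    have hgkp := hexp _ hgk
    obtain ⟨t, ht1, ht2⟩ := Nat.chineseRemainder hk 1 0
    have hpt : p ∣ t := (Nat.modEq_zero_iff_dvd).1 ht2
    have hbt : b ^ t = b := by
      have := pow_eq_pow_iff_modEq (x := b) (n := t) (m := 1)
      have h' : t ≡ 1 [MOD orderOf b] := ht1.of_dvd (orderOf_dvd_of_pow_eq_one hbk)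
      have h'' := this.2 h'
      rwa [pow_one] at h''
    have hgt : g ^ t ∈ B' := by
      rw [hB']
      refine ⟨Bv.pow_mem hg t, k, hk, ?_⟩
      obtain ⟨s, hs⟩ := hpt
      rw [← pow_mul, hs]
      have : p * s * k = (k * p) * s := by ring
      rw [this, pow_mul, pow_mul, hgkp, one_pow]
    refine ⟨b⁻¹ * g ^ t, hdiff _ _ ?_, ?_⟩
    · rw [map_pow, hgb, ← map_pow, hbt]
    · rw [mul_inv_cancel_left]; exact hgt
  have hc2 : ∀ b ∈ B', ∃ v ∈ V, b * v ∈ B := by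
    intro b hb
    have hb' := ((hB' b).1 hb).1
    have hfb : f b ∈ B.map f := by rw [← hmapB]; exact Subgroup.mem_map_of_mem f hb'
    obtain ⟨g, hg, hgb⟩ := Subgroup.mem_map.1 hfb
    exact ⟨b⁻¹ * g, hdiff _ _ hgb, by rw [mul_inv_cancel_left]; exact hg⟩
  obtain ⟨u, hu, hug⟩ := x_SZ F V B B' p hfin hp hV hcomm hexp hB
    (fun b hb => ((hB' b).1 hb).2) hc1 hc2
  -- `H_v` normalises `B'`
  have hnorm : ∀ h ∈ Hv, ∀ g ∈ B', h * g * h⁻¹ ∈ B' := by
    intro h hh g hg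
    rw [hB'] at hg ⊢
    obtain ⟨hg1, k, hk, hgk⟩ := hg
    refine ⟨(TPAIR.conj_mem x_MON Hv m hh hg1).1, k, hk, ?_⟩
    rw [conj_pow, hgk, mul_one, mul_inv_cancel]
  have key : ∀ y ∈ c2 a x, ∀ v' ∈ V, y * v' ∈ Hv →
      y⁻¹ * u * y * v' * u⁻¹ ∈ V ⊓ Subgroup.centralizer (B : Set F) := by
    intro y hy v' hv' hyv
    have hwV : y⁻¹ * u * y * v' * u⁻¹ ∈ V := by
      refine V.mul_mem (V.mul_mem ?_ hv') (V.inv_mem hu)
      have := hV.conj_mem u hu y⁻¹
      rwa [inv_inv] at this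
    set w := y⁻¹ * u * y * v' * u⁻¹ with hw
    rw [Subgroup.mem_inf, Subgroup.mem_centralizer_iff]
    refine ⟨hwV, fun b hb => ?_⟩
    rw [SetLike.mem_coe] at hb
    have s1 : u⁻¹ * b * u ∈ B' := by
      rw [hug]
      have : u * (u⁻¹ * b * u) * u⁻¹ = b := by group
      rw [this]; exact hb
    have s2 := hnorm _ hyv _ s1
    have s3 := (hug _).1 s2
    have s4 := (TPAIR.conj_mem x_MON (c2 a x) m hy s3).2
    have s5 : y⁻¹ * (u * (y * v' * (u⁻¹ * b * u) * (y * v')⁻¹) * u⁻¹) * y = w * b * w⁻¹ := by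
      rw [hw]; group
    rw [s5] at s4
    have s6 : w * b * w⁻¹ * b⁻¹ ∈ B := B.mul_mem s4 (B.inv_mem hb)
    have s7 : w * b * w⁻¹ * b⁻¹ ∈ V := by
      have := V.mul_mem hwV (hV.conj_mem _ (V.inv_mem hwV) b)
      have e : w * (b * w⁻¹ * b⁻¹) = w * b * w⁻¹ * b⁻¹ := by group
      rwa [e] at this
    obtain ⟨k, hk, hk1⟩ := hB _ s6
    have s8 := TPAIR.eq_one_of_coprime hk hk1 (hexp _ s7)
    have s9 : w * b = b * w := by
      rw [mul_inv_eq_one, mul_inv_eq_iff_eq_mul] at s8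
      exact s8
    exact s9.symm
  refine ⟨u, hu, ?_, key x hxH v hv hxHv⟩
  have := key a haH 1 V.one_mem (by rw [mul_one]; exact haHv)
  rwa [mul_one] at this


/-- a generator can be changed by an element of `V` such that the height grows -/
theorem pair_grow (V : Subgroup F) (p : ℕ) (a x : F) [hfin : Finite F]
    (hp : p.Prime) (hV : V.Normal) (hcomm : ∀ v ∈ V, ∀ w ∈ V, v * w = w * v)
    (hexp : ∀ v ∈ V, v ^ p = 1)
    (hB : ∀ b ∈ DD (c2 a x) 1, ∃ k : ℕ, Nat.Coprime k p ∧ b ^ k = 1)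
    (ha : a ∈ DD (c2 a x) 1) {k : ℕ} (hk : Nat.Coprime k p) (hak : a ^ k = 1)
    (hne : ∃ u ∈ V, a * u ≠ u * a) : ∃ v ∈ V, DD (c2 a (x * v)) 2 ≠ ⊥ := by
  by_contra hcon
  push Not at hcon
  obtain ⟨u, hu, hua⟩ := hne
  have h1 := half V p 1 a x hp hV hcomm hexp hB hcon u hu
  rw [Subgroup.mem_inf, Subgroup.mem_centralizer_iff] at h1
  obtain ⟨h1, h2⟩ := h1
  have h3 : a⁻¹ * u * a * u⁻¹ * a = a * (a⁻¹ * u * a * u⁻¹) := (h2 a ha).symm
  -- the commutator of `a⁻¹` and `u`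
  have h4 : Commute (a⁻¹) (a⁻¹ * u * a * u⁻¹) := by
    have : Commute a (a⁻¹ * u * a * u⁻¹) := h3.symm
    exact this.inv_left
  have h5 := comm_pow (x := a⁻¹) (y := u) (c := a⁻¹ * u * a * u⁻¹) (by group) h4 k
  rw [inv_pow, hak] at h5
  have h6 : (a⁻¹ * u * a * u⁻¹) ^ k = 1 := by rw [← h5]; group
  have h7 := W629.eq_one_of_coprime hk h6 (hexp _ h1)
  apply hua
  rw [mul_inv_eq_one] at h7
  rw [mul_assoc, inv_mul_eq_iff_eq_mul] at h7
  exact h7.symm

end Pool.Agent.TH69.Pq
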