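import Mathlib
import Pool.Agent.TH69.PqB

set_option autoImplicit false

/-!
# Two-generator subgroups of Fitting height three, part C: minimal finite groups
-/

namespace Pool.Agent.TH69.Pq

open Pool.Agent.H32BU Pool.Agent.W629 Pool.Agent.TH69.Mtn

variable {F : Type} [Group F]

/-- a non-trivial residual gives an `r`-element and an `s`-element which do not commute -/
theorem exists_pair {n r s : ℕ} (hr : r.Prime) (hs : s.Prime) (hrs : r ≠ s)
    (hn : qp r n * qp s n = n) (hF : ∀ x : F, x ^ n = 1) (S : Subgroup F) (hne : NR S ≠ ⊥) :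
    ∃ g ∈ S, ∃ y ∈ S, g ^ qp r n = 1 ∧ y ^ qp s n = 1 ∧ g * y ≠ y * g := by
  by_contra hcon
  push Not at hcon
  apply hne
  unfold NR
  rw [Subgroup.closure_eq_bot_iff]
  rintro _ ⟨x, hx, y, hy, a, b, hab, hxa, hyb, rfl⟩
  rw [Set.mem_singleton_iff]
  -- dichotomy
  have key : ∀ (r s : ℕ), r.Prime → s.Prime → qp r n * qp s n = n →
      x ^ qp s n = 1 ∨ y ^ qp s n = 1 := by
    intro r s hr hs hn
    have hx' : orderOf x ∣ qp r n * qp s n := by
      rw [hn]
      exact orderOf_dvd_of_pow_eq_one (hF x)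
    have hy' : orderOf y ∣ qp r n * qp s n := by
      rw [hn]
      exact orderOf_dvd_of_pow_eq_one (hF y)
    have hco : Nat.Coprime (orderOf x) (orderOf y) :=
      Nat.Coprime.coprime_dvd_left (orderOf_dvd_of_pow_eq_one hxa)
        (Nat.Coprime.coprime_dvd_right (orderOf_dvd_of_pow_eq_one hyb) hab)
    by_cases h : r ∣ orderOf x
    · right
      have h1 : ¬ r ∣ orderOf y := by
        intro h2
        have h3 := Nat.dvd_gcd h h2
        rw [hco] at h3
        exact hr.one_lt.ne' (Nat.dvd_one.1 h3)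
      have h2 : Nat.Coprime (orderOf y) (qp r n) :=
        Nat.Coprime.pow_right _ ((Nat.Prime.coprime_iff_not_dvd hr).2 h1).symm
      exact orderOf_dvd_iff_pow_eq_one.1 (h2.dvd_of_dvd_mul_left hy')
    · left
      have h2 : Nat.Coprime (orderOf x) (qp r n) :=
        Nat.Coprime.pow_right _ ((Nat.Prime.coprime_iff_not_dvd hr).2 h).symm
      exact orderOf_dvd_iff_pow_eq_one.1 (h2.dvd_of_dvd_mul_left hx')
  have hcop := qp_coprime (n := n) hr hs hrs
  have h1 := key r s hr hs hn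
  have h2 := key s r hs hr (by rw [mul_comm]; exact hn)
  rcases h1 with h1 | h1
  · rcases h2 with h2 | h2
    · have : x = 1 := W629.eq_one_of_coprime hcop h2 h1
      rw [this]; group
    · have := hcon y hy x hx h2 h1
      rw [← this]; group
  · rcases h2 with h2 | h2
    · have := hcon x hx y hy h2 h1
      rw [this]; group
    · have : y = 1 := W629.eq_one_of_coprime hcop h2 h1
      rw [this]; group

/-- the action of an `r`-element on the residual -/
theorem exists_arr [Finite F] {n r s : ℕ} (hr : r.Prime) (hs : s.Prime) (hrs : r ≠ s)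
    (hn : qp r n * qp s n = n) (hF : ∀ x : F, x ^ n = 1) (A : Subgroup F) (hne : NR A ≠ ⊥)
    (hco : ∀ b ∈ NR A, ∃ k : ℕ, Nat.Coprime k r ∧ b ^ k = 1) :
    ∃ g ∈ A, g ^ qp r n = 1 ∧ ∃ T : Subgroup F, T ≤ NR A ∧ Arr n s g T := by
  have hcop := qp_coprime (n := n) hr hs hrs
  obtain ⟨g, hg, y, hy, hgp, hyq, hc⟩ := exists_pair hr hs hrs hn hF A hne
  have hb : ∀ b ∈ NR A, b ^ qp s n = 1 := by
    intro b hb
    obtain ⟨k, hk, h1⟩ := hco b hb
    have h2 : (b ^ qp s n) ^ qp r n = 1 := by rw [← pow_mul, mul_comm, hn, hF]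
    have h3 : (b ^ qp s n) ^ k = 1 := by rw [← pow_mul, mul_comm, pow_mul, h1, one_pow]
    exact W629.eq_one_of_coprime (Nat.Coprime.pow_left _ hk.symm) h2 h3
  have hcm : g * y * g⁻¹ * y⁻¹ ∈ NR A :=
    Subgroup.subset_closure ⟨g, hg, y, hy, _, _, hcop, hgp, hyq, rfl⟩
  have hnc : g * (g * y * g⁻¹ * y⁻¹) ≠ (g * y * g⁻¹ * y⁻¹) * g := by
    intro h2
    apply hc
    have h3 := comm_pow (x := g) (y := y) (c := g * y * g⁻¹ * y⁻¹) rfl h2 (qp r n)
    rw [hgp] at h3
    have h4 : (g * y * g⁻¹ * y⁻¹) ^ qp r n = 1 := by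
      rw [← h3]; group
    have h5 := W629.eq_one_of_coprime hcop h4 (hb _ hcm)
    rw [mul_inv_eq_one, mul_inv_eq_iff_eq_mul] at h5
    exact h5
  have hst := (x_MON F).2.2.1 A g
    (fun a ha => A.mul_mem (A.mul_mem hg ha) (A.inv_mem hg))
    (fun a ha => A.mul_mem (A.mul_mem (A.inv_mem hg) ha) hg) 1
  obtain ⟨U, hU, A'⟩ := arr_exists (n := n) (s := s) (h := g) (NR A) inferInstance
    hb hst.1 ⟨_, hcm, hnc⟩
  exact ⟨g, hg, hgp, U, hU, A'⟩

/-- a minimal configuration -/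
structure Cfg (n r s : ℕ) (V : Subgroup F) (g : F) (T : Subgroup F) : Prop where
  nor : V.Normal
  ab : ∀ v ∈ V, ∀ w ∈ V, v * w = w * v
  pow : ∀ v ∈ V, v ^ r = 1
  hg : g ^ qp r n = 1
  arr : Arr n s g T
  fai : ∀ t ∈ T, (∀ v ∈ V, t * v = v * t) → t = 1
  gen : ∀ t ∈ T, g * t ≠ t * g → ∃ v ∈ V, c2 t (g * v) = ⊤

theorem exists_cfg [Finite F] {n p q : ℕ} (hp : p.Prime) (hq : q.Prime) (hpq : p ≠ q)
    (hn : qp p n * qp q n = n) (hF : ∀ x : F, x ^ n = 1) (hne : DD (⊤ : Subgroup F) 2 ≠ ⊥)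
    (hmin : ∀ K : Subgroup F, K.Normal → K ≠ ⊥ → DD (⊤ : Subgroup F) 2 ≤ K)
    (hsub : ∀ A : Subgroup F, A ≠ ⊤ → DD A 2 = ⊥) :
    ∃ r s : ℕ, ((r = p ∧ s = q) ∨ (r = q ∧ s = p)) ∧
      ∃ (g : F) (T : Subgroup F), Cfg n r s (DD (⊤ : Subgroup F) 2) g T := by
  have hsol : Group.IsSolvable F := by
    refine solv_of_exp p q (n.factorization p) (n.factorization q) hp hq fun x => ?_
    have : p ^ n.factorization p * q ^ n.factorization q = n := hn
    rw [this]
    exact hF x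
  obtain ⟨r, S, hr, hab, hpow, hS, hsup, hC⟩ := x_TWOA F inferInstance hsol 1 hne hmin
  obtain ⟨h1, h2⟩ := x_TWOB F 1 r S inferInstance hr hne hmin hab hpow hsup hC (hsub S hS)
  have hV : (DD (⊤ : Subgroup F) 2).Normal := (x_MON F).2.2.2.1 ⊤ inferInstance 2
  obtain ⟨v, hv, hv1⟩ : ∃ v ∈ DD (⊤ : Subgroup F) 2, v ≠ 1 := by
    by_contra h
    push Not at h
    exact hne ((Subgroup.eq_bot_iff_forall _).2 h)
  have hrd : r ∣ n := by
    have h3 : orderOf v = r := by
      have := Fact.mk hr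
      exact orderOf_eq_prime (hpow v hv) hv1
    rw [← h3]
    exact orderOf_dvd_of_pow_eq_one (hF v)
  have hr' : r = p ∨ r = q := by
    rw [← hn] at hrd
    rcases (Nat.Prime.dvd_mul hr).1 hrd with h | h
    · exact Or.inl ((Nat.prime_dvd_prime_iff_eq hr hp).1 (hr.dvd_of_dvd_pow h))
    · exact Or.inr ((Nat.prime_dvd_prime_iff_eq hr hq).1 (hr.dvd_of_dvd_pow h))
  obtain ⟨s, hrs', hs, hrs, hn'⟩ : ∃ s : ℕ, ((r = p ∧ s = q) ∨ (r = q ∧ s = p)) ∧ s.Prime ∧
      r ≠ s ∧ qp r n * qp s n = n := by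
    rcases hr' with rfl | rfl
    · exact ⟨q, Or.inl ⟨rfl, rfl⟩, hq, hpq, hn⟩
    · exact ⟨p, Or.inr ⟨rfl, rfl⟩, hp, hpq.symm, by rw [mul_comm]; exact hn⟩
  refine ⟨r, s, hrs', ?_⟩
  have hcop := qp_coprime (n := n) hr hs hrs
  obtain ⟨g, hgS, hg, T, hT, A⟩ := exists_arr hr hs hrs hn' hF S h1 h2
  have hTS : T ≤ S := le_trans hT ((x_MON F).2.1 S 0)
  have hfai : ∀ t ∈ T, (∀ v ∈ DD (⊤ : Subgroup F) 2, t * v = v * t) → t = 1 :=
    fun t ht h => hC t (hTS ht) h
  refine ⟨g, T, hV, hab, hpow, hg, A, hfai, ?_⟩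
  intro t ht hgt
  have hle : c2 t g ≤ S := by
    unfold c2
    rw [Subgroup.closure_le]
    rintro x (rfl | hx)
    · exact hTS ht
    · rw [Set.mem_singleton_iff.1 hx]
      exact hgS
  have m1 : t ∈ c2 t g := Subgroup.subset_closure (by simp)
  have m2 : g ∈ c2 t g := Subgroup.subset_closure (by simp)
  have hTc : T ≤ c2 t g := A.gen _ m2 ht m1 hgt
  obtain ⟨v, hv, hv2⟩ := pair_grow (DD (⊤ : Subgroup F) 2) r t g hr hV hab hpow
    (fun b hb => h2 b ((x_MON F).1 _ _ hle 1 hb)) (A.le_NR hg hcop _ m2 hTc ht)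
    (k := qp s n) (Nat.Coprime.pow_left _ ((Nat.coprime_primes hs hr).2 hrs.symm)) (A.pow t ht)
    (by
      by_contra hcon
      push Not at hcon
      have := hfai t ht hcon
      apply hgt
      rw [this, mul_one, one_mul])
  refine ⟨v, hv, ?_⟩
  by_contra hcon
  exact hv2 (hsub _ hcon)

/-- if the elements of `T` not commuting with `g` have no fixed points, then `r` divides
`s - 1` -/
theorem Cfg.dvd [Finite F] {n r s : ℕ} (hr : r.Prime) (hs : s.Prime) (hrs : r ≠ s)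
    (hn : qp r n * qp s n = n) (hF : ∀ x : F, x ^ n = 1) {V T : Subgroup F} {g : F}
    (C : Cfg n r s V g T) (hexp : ∀ t ∈ T, t ^ s = 1)
    (hfix : ∀ t ∈ T, g * t ≠ t * g → ∀ w ∈ V, t * w = w * t → w = 1) : r ∣ s - 1 := by
  classical
  have hV := C.nor
  have A := C.arr
  have : Fact s.Prime := ⟨hs⟩
  have : Fact r.Prime := ⟨hr⟩
  have hVpow : ∀ v ∈ V, v ^ qp r n = 1 := by
    intro v hv
    have h1 : (v ^ qp r n) ^ qp s n = 1 := by rw [← pow_mul, hn, hF]
    have h2 : (v ^ qp r n) ^ r = 1 := by rw [← pow_mul, mul_comm, pow_mul, C.pow v hv, one_pow]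
    exact W629.eq_one_of_coprime (Nat.Coprime.pow_left _ ((Nat.coprime_primes hs hr).2 hrs.symm))
      h1 h2
  -- commuting pairs
  have key : ∀ u ∈ T, ∀ c ∈ T, u * c = c * u → u ≠ 1 →
      (∀ i : ℕ, g * (c * u ^ i) ≠ (c * u ^ i) * g) → False := by
    intro u hu c hc huc hu1 hi
    obtain ⟨i, w, hw, hw1, hw2⟩ := coprime_act (n := n) hr hs hrs huc (hexp u hu) (hexp c hc) V
      inferInstance hVpow (fun x hx => hV.conj_mem x hx u) (fun x hx => hV.conj_mem x hx c) (by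
        by_contra hcon
        push Not at hcon
        exact hu1 (C.fai u hu hcon))
    have := hfix _ (mul_mem hc (pow_mem hu i)) (hi i) w hw hw1
    rw [this, mul_one, one_mul] at hw2
    exact hw2 rfl
  obtain ⟨t0, ht0, ht0g⟩ := A.nc
  have ht01 : t0 ≠ 1 := by
    rintro rfl
    exact ht0g (by rw [mul_one, one_mul])
  have hTf := A.fin
  have hinv' : ∀ x ∈ T, g⁻¹ * x * g ∈ T := inv_conj (pow_pos hr.pos _) C.hg A.inv
  let Z : Subgroup F :=
    { carrier := {z | z ∈ T ∧ ∀ u ∈ T, z * u = u * z}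
      one_mem' := ⟨one_mem _, fun u _ => by rw [one_mul, mul_one]⟩
      mul_mem' := by
        rintro a b ⟨ha, ha'⟩ ⟨hb, hb'⟩
        refine ⟨mul_mem ha hb, fun u hu => ?_⟩
        rw [mul_assoc, hb' u hu, ← mul_assoc, ha' u hu, mul_assoc]
      inv_mem' := by
        rintro a ⟨ha, ha'⟩
        refine ⟨inv_mem ha, fun u hu => ?_⟩
        rw [inv_mul_eq_iff_eq_mul, ← mul_assoc, ha' u hu]
        group }
  -- central elements do not commute with `g`
  have hcen : ∀ z ∈ Z, z ≠ 1 → g * z ≠ z * g := by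
    intro z hz hz1 hzg
    refine key z hz.1 t0 ht0 (hz.2 t0 ht0) hz1 fun i h => ht0g ?_
    have hc : Commute g (z ^ i) := by
      have : Commute g z := hzg
      exact this.pow_right i
    have h1 : g * t0 * z ^ i = t0 * g * z ^ i := by
      rw [mul_assoc, h, mul_assoc, ← hc.eq, ← mul_assoc]
    exact mul_right_cancel h1
  have hUp : IsPGroup s T := fun x => ⟨n.factorization s, Subtype.ext (by
    rw [Subgroup.coe_pow, Subgroup.coe_one]
    exact A.pow x x.2)⟩
  have hnt : Nontrivial T := ⟨⟨⟨t0, ht0⟩, 1, fun e => ht01 (congrArg Subtype.val e)⟩⟩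
  have hcnt : Nontrivial (Subgroup.center T) := hUp.center_nontrivial
  obtain ⟨⟨z0, hz0⟩, hz0'⟩ := exists_ne (1 : Subgroup.center T)
  have hz1 : (z0 : F) ≠ 1 := by
    intro e
    apply hz0'
    exact Subtype.ext (Subtype.ext e)
  have hz0Z : (z0 : F) ∈ Z := by
    refine ⟨z0.2, fun u hu => ?_⟩
    have := (Subgroup.mem_center_iff.1 hz0) ⟨u, hu⟩
    exact (congrArg Subtype.val this).symm
  have hZT : Z = T := by
    refine A.min Z (fun x hx => hx.1) ?_ ⟨z0, hz0Z, hcen z0 hz0Z hz1⟩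
    rintro z ⟨hz, hz'⟩
    refine ⟨A.inv z hz, fun u hu => ?_⟩
    have h3 := hz' _ (hinv' u hu)
    have e1 : g * z * g⁻¹ * u = g * (z * (g⁻¹ * u * g)) * g⁻¹ := by group
    have e2 : u * (g * z * g⁻¹) = g * ((g⁻¹ * u * g) * z) * g⁻¹ := by group
    rw [e1, e2, h3]
  have hab : ∀ a ∈ T, ∀ b ∈ T, a * b = b * a := by
    intro a ha b hb
    rw [← hZT] at ha
    exact ha.2 b hb
  have hcen' : ∀ a ∈ T, a ≠ 1 → g * a ≠ a * g := fun a ha ha1 => hcen a (by rw [hZT]; exact ha) ha1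
  -- the order of `T`
  have hcard : Nat.card T = s := by
    by_contra hc
    obtain ⟨c, hc, hcz⟩ : ∃ c ∈ T, c ∉ Subgroup.zpowers t0 := by
      by_contra hcon
      push Not at hcon
      have h3 : Subgroup.zpowers t0 = T := le_antisymm ((Subgroup.zpowers_le).2 ht0) hcon
      apply hc
      rw [← h3, Nat.card_zpowers]
      exact orderOf_eq_prime (hexp t0 ht0) ht01
    refine key t0 ht0 c hc (hab t0 ht0 c hc) ht01 fun i => hcen' _ (mul_mem hc (pow_mem ht0 i)) ?_
    intro h3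
    apply hcz
    rw [mul_eq_one_iff_eq_inv] at h3
    rw [h3]
    exact inv_mem (pow_mem (Subgroup.mem_zpowers t0) i)
  let f : Function.End T := fun x => ⟨g * x * g⁻¹, A.inv x x.2⟩
  have hfk : ∀ (k : ℕ) (d : T), ((f ^ k) d : F) = g ^ k * d * (g ^ k)⁻¹ := by
    intro k
    induction k with
    | zero =>
      intro d
      change (d : F) = _
      rw [pow_zero]
      group
    | succ k ih =>
      intro d
      rw [pow_succ']
      change g * ((f ^ k) d : F) * g⁻¹ = _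
      rw [ih, pow_succ']
      group
  have hfs : f ^ r ^ n.factorization r = 1 := by
    funext d
    apply Subtype.ext
    rw [hfk]
    have h3 : g ^ r ^ n.factorization r = 1 := C.hg
    rw [h3]
    change 1 * (d : F) * 1⁻¹ = d
    group
  have := Fintype.ofFinite T
  have h4 := Equiv.Perm.card_fixedPoints_modEq hfs
  have h5 : Fintype.card (Function.fixedPoints f) = 1 := by
    rw [Fintype.card_eq_one_iff]
    refine ⟨⟨1, Subtype.ext (by change g * 1 * g⁻¹ = 1; group)⟩, ?_⟩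
    rintro ⟨x, hx⟩
    apply Subtype.ext
    by_contra hne
    have hx1 : (x : F) ≠ 1 := fun e => hne (Subtype.ext e)
    have hx' : g * (x : F) * g⁻¹ = x := congrArg Subtype.val hx
    rw [mul_inv_eq_iff_eq_mul] at hx'
    exact hcen' x x.2 hx1 hx'
  rw [h5, ← Nat.card_eq_fintype_card, hcard] at h4
  exact (Nat.modEq_iff_dvd' hs.one_lt.le).1 h4.symm

end Pool.Agent.TH69.Pq
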