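import Mathlib
import Pool.Agent.TH69.PqC

set_option autoImplicit false

/-!
# Two-generator subgroups of Fitting height three, part D: minimal subgroups of height three
-/

namespace Pool.Agent.TH69.Pq

open Pool.Agent.H32BU Pool.Agent.W629 Pool.Agent.TH69.Mtn

/-- lifting of `a`-elements -/
theorem lift_elt {H : Type} [Group H] {a b : ℕ} (hab : Nat.Coprime a b)
    (hH : ∀ x : H, x ^ (a * b) = 1) (N : Subgroup H) [N.Normal] (A : Subgroup H) {u : H ⧸ N}
    (hu : u ^ a = 1) (x : H) (hx : x ∈ A) (hxu : (x : H ⧸ N) = u) :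
    ∃ y ∈ A, y ^ a = 1 ∧ (y : H ⧸ N) = u := by
  obtain ⟨m, hm1, hm2⟩ := Nat.chineseRemainder hab 1 0
  refine ⟨x ^ m, pow_mem hx m, ?_, ?_⟩
  · obtain ⟨j, hj⟩ := (Nat.modEq_zero_iff_dvd).1 hm2
    rw [hj, ← pow_mul, show b * j * a = a * b * j by ring, pow_mul, hH, one_pow]
  · rw [QuotientGroup.mk_pow, hxu]
    have h1 : u ^ m = u ^ 1 := by
      rw [pow_eq_pow_iff_modEq]
      exact hm1.of_dvd (orderOf_dvd_of_pow_eq_one hu)
    rw [h1, pow_one]

/-- no finite group of exponent dividing `n` has a nontrivial second term of the lower Fitting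
series of exponent `r` -/
def Ex (r n : ℕ) : Prop := ∀ (F : Type) [Group F] [Finite F], (∀ x : F, x ^ n = 1) →
  (∀ e ∈ DD (⊤ : Subgroup F) 2, e ^ r = 1) → DD (⊤ : Subgroup F) 2 = ⊥

/-- the pair of primes does not give minimal configurations -/
def Good (r s n : ℕ) : Prop := Ex r n ∨ (¬ r ∣ s - 1 ∧ ∀ (F : Type) [Group F] (g : F)
  (T : Subgroup F), g ^ qp r n = 1 → Arr n s g T → ∀ t ∈ T, t ^ s = 1)

section

variable {G : Type} [Group G]

/-- the two-generator subgroups are metanilpotent -/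
theorem height_two {n p q : ℕ} (hp : p.Prime) (hq : q.Prime) (hpq : p ≠ q)
    (hn : qp p n * qp q n = n) (hG : ∀ x : G, x ^ n = 1)
    (h3 : ∀ x y : G, Finite (c2 x y) ∧ DD (c2 x y) 3 = ⊥) (hR1 : Rad (qp p n) G = ⊥)
    (hR2 : Rad (qp q n) G = ⊥) (h12 : Good p q n) (h21 : Good q p n) (x y : G) :
    DD (c2 x y) 2 = ⊥ := by
  classical
  by_contra hxy
  have hn1 : 1 ≤ n := by
    rw [← hn]
    exact Nat.mul_pos (pow_pos hp.pos _) (pow_pos hq.pos _)
  -- a minimal subgroup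
  have hex : ∃ m : ℕ, ∃ K : Subgroup G, Finite K ∧ DD K 2 ≠ ⊥ ∧ Nat.card K = m :=
    ⟨_, c2 x y, (h3 x y).1, hxy, rfl⟩
  obtain ⟨K, hKf, hK2, hKm⟩ := Nat.find_spec hex
  have hKmin : ∀ K' : Subgroup G, K' ≤ K → K' ≠ K → DD K' 2 = ⊥ := by
    intro K' hle hne
    by_contra hcon
    have hf' : Finite K' := Finite.of_injective (Subgroup.inclusion hle)
      (Subgroup.inclusion_injective hle)
    have hlt : Nat.card K' < Nat.card K := by
      have h5 : (K' : Set G) ⊂ (K : Set G) := ⟨hle, fun h => hne (le_antisymm hle h)⟩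
      exact Set.Finite.card_lt_card (Set.toFinite _) h5
    rw [hKm] at hlt
    exact Nat.find_min hex hlt ⟨K', hf', hcon, rfl⟩
  have hKE := exp_sub hG K
  have htor : ∀ x : K, IsOfFinOrder x := fun x => isOfFinOrder_of_finite x
  have hmapI : ∀ (A : Subgroup K) (m : ℕ), (DD A m).map K.subtype = DD (A.map K.subtype) m :=
    fun A m => x_MAPI K G K.subtype K.subtype_injective A m
  have hsubK : ∀ A : Subgroup K, A ≠ ⊤ → DD A 2 = ⊥ := by
    intro A hA
    have h1 := hKmin (A.map K.subtype) (Subgroup.map_subtype_le _) (by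
      intro h
      apply hA
      rw [eq_top_iff]
      intro z _
      have hz : (z : G) ∈ A.map K.subtype := by rw [h]; exact z.2
      obtain ⟨z', hz', e⟩ := hz
      have : z' = z := Subtype.ext e
      rw [← this]
      exact hz')
    rw [← hmapI] at h1
    rw [← Subgroup.map_eq_bot_iff_of_injective _ K.subtype_injective]
    exact h1
  have htopK : (⊤ : Subgroup K).map K.subtype = K := by
    rw [← MonoidHom.range_eq_map, Subgroup.range_subtype]
  have hW2 : DD (⊤ : Subgroup K) 2 ≠ ⊥ := by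
    intro h
    apply hK2
    have := hmapI ⊤ 2
    rw [htopK, h, Subgroup.map_bot] at this
    exact this.symm
  -- a maximal normal subgroup
  obtain ⟨N, ⟨hN, hN2⟩, hNmax⟩ := WellFounded.has_min
    (wellFounded_gt : WellFounded ((· > ·) : Subgroup K → Subgroup K → Prop))
    {N : Subgroup K | N.Normal ∧ ¬ DD (⊤ : Subgroup K) 2 ≤ N}
    ⟨⊥, inferInstance, fun h => hW2 (le_bot_iff.1 h)⟩
  have hmks : Function.Surjective (QuotientGroup.mk' N) := QuotientGroup.mk'_surjective N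
  have hmapS : ∀ (A : Subgroup K) (m : ℕ),
      (DD A m).map (QuotientGroup.mk' N) = DD (A.map (QuotientGroup.mk' N)) m :=
    fun A m => x_MAPS K (K ⧸ N) (QuotientGroup.mk' N) htor A m
  have hW := hmapS ⊤ 2
  rw [Subgroup.map_top_of_surjective _ hmks] at hW
  have hFne : DD (⊤ : Subgroup (K ⧸ N)) 2 ≠ ⊥ := by
    intro h
    rw [h, Subgroup.map_eq_bot_iff, QuotientGroup.ker_mk'] at hW
    exact hN2 hW
  have hFmin : ∀ M : Subgroup (K ⧸ N), M.Normal → M ≠ ⊥ → DD (⊤ : Subgroup (K ⧸ N)) 2 ≤ M := by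
    intro M hM hMne
    by_contra hcon
    refine hNmax (M.comap (QuotientGroup.mk' N)) ⟨inferInstance, fun h => hcon ?_⟩ ?_
    · rw [← hW]
      exact Subgroup.map_le_iff_le_comap.2 h
    · refine lt_of_le_of_ne ?_ ?_
      · intro z hz
        rw [Subgroup.mem_comap, QuotientGroup.mk'_apply, (QuotientGroup.eq_one_iff z).2 hz]
        exact one_mem M
      · intro h
        apply hMne
        rw [eq_bot_iff]
        intro m hm
        obtain ⟨z, rfl⟩ := hmks m
        have hz : z ∈ N := by rw [h]; exact hm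
        rw [Subgroup.mem_bot]
        exact (QuotientGroup.eq_one_iff z).2 hz
  have hFsub : ∀ A : Subgroup (K ⧸ N), A ≠ ⊤ → DD A 2 = ⊥ := by
    intro A hA
    have h1 := hsubK (A.comap (QuotientGroup.mk' N)) (by
      intro h
      apply hA
      rw [← Subgroup.map_comap_eq_self_of_surjective hmks A, h,
        Subgroup.map_top_of_surjective _ hmks])
    have h2 := hmapS (A.comap (QuotientGroup.mk' N)) 2
    rw [h1, Subgroup.map_bot, Subgroup.map_comap_eq_self_of_surjective hmks] at h2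
    exact h2.symm
  have hFE := exp_quot hKE N
  obtain ⟨r, s, hrs', g, T, C⟩ := exists_cfg hp hq hpq hn hFE hFne hFmin hFsub
  obtain ⟨hr, hs, hrs, hn', hR, hgood⟩ : r.Prime ∧ s.Prime ∧ r ≠ s ∧ qp r n * qp s n = n ∧
      Rad (qp r n) G = ⊥ ∧ Good r s n := by
    rcases hrs' with ⟨rfl, rfl⟩ | ⟨rfl, rfl⟩
    · exact ⟨hp, hq, hpq, hn, hR1, h12⟩
    · exact ⟨hq, hp, hpq.symm, by rw [mul_comm]; exact hn, hR2, h21⟩
  rcases hgood with hgood | ⟨hgood1, hgood2⟩
  · exact hFne (hgood _ hFE C.pow)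
  refine hgood1 (C.dvd hr hs hrs hn' hFE (hgood2 _ g T C.hg C.arr) ?_)
  intro t ht hgt w hw htw
  have hco := qp_coprime (n := n) hr hs hrs
  have hKE' : ∀ x : K, x ^ (qp r n * qp s n) = 1 := fun x => by rw [hn']; exact hKE x
  have hKE'' : ∀ x : K, x ^ (qp s n * qp r n) = 1 := fun x => by rw [mul_comm]; exact hKE' x
  obtain ⟨v, hv, hgen⟩ := C.gen t ht hgt
  obtain ⟨k0, hk0⟩ := hmks t
  obtain ⟨k2, -, hk2, hk2t⟩ := lift_elt hco.symm hKE'' N ⊤ (C.arr.pow t ht) k0
    (Subgroup.mem_top _) hk0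
  obtain ⟨k1, hk1⟩ := hmks (g * v)
  have hgenK : c2 k2 k1 = ⊤ := by
    by_contra hcon
    have h1 := hsubK _ hcon
    have h2 := hmapS (c2 k2 k1) 2
    have h4 : (c2 k2 k1).map (QuotientGroup.mk' N) = ⊤ := by
      rw [← hgen]
      unfold c2
      rw [MonoidHom.map_closure, Set.image_pair, hk1]
      congr 2
    rw [h1, Subgroup.map_bot, h4] at h2
    exact hFne h2.symm
  have hgenG : c2 (k2 : G) (k1 : G) = K := by
    have h1 : (c2 k2 k1).map K.subtype = c2 (k2 : G) (k1 : G) := by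
      unfold c2
      rw [MonoidHom.map_closure, Set.image_pair]
      rfl
    rw [← h1, hgenK]
    exact htopK
  have hK3 : DD K 3 = ⊥ := by
    have := (h3 (k2 : G) (k1 : G)).2
    rwa [hgenG] at this
  have hW3 : NR (DD (⊤ : Subgroup K) 2) = ⊥ := by
    have h1 := hmapI ⊤ 3
    rw [htopK, hK3, Subgroup.map_eq_bot_iff_of_injective _ K.subtype_injective] at h1
    exact h1
  have hWn : (DD (⊤ : Subgroup K) 2).Normal := (x_MON K).2.2.2.1 ⊤ inferInstance 2
  obtain ⟨⟨P, hP⟩, -⟩ := x_SYL K (DD (⊤ : Subgroup K) 2) inferInstance hW3 r hr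
  have hPn : ∀ z ∈ P, ∀ k : K, k * z * k⁻¹ ∈ P := by
    intro z hz k
    rw [hP] at hz ⊢
    obtain ⟨hz1, j, hj⟩ := hz
    exact ⟨hWn.conj_mem z hz1 k, j, conj_pow_one hj⟩
  have hPpow : ∀ z ∈ P, z ^ qp r n = 1 := fun z hz =>
    pow_qp (by omega) (hKE z) hr ((hP z).1 hz).2
  -- a lift of `w`
  have hwpow : w ^ qp r n = 1 := by
    have h1 : (w ^ qp r n) ^ qp s n = 1 := by rw [← pow_mul, hn', hFE]
    have h2 : (w ^ qp r n) ^ r = 1 := by rw [← pow_mul, mul_comm, pow_mul, C.pow w hw, one_pow]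
    exact W629.eq_one_of_coprime (Nat.Coprime.pow_left _ ((Nat.coprime_primes hs hr).2 hrs.symm))
      h1 h2
  have hw' : w ∈ (DD (⊤ : Subgroup K) 2).map (QuotientGroup.mk' N) := by rw [hW]; exact hw
  obtain ⟨d, hd, hdw⟩ := hw'
  obtain ⟨f0, hf0, hf0p, hf0w⟩ := lift_elt hco hKE' N (DD (⊤ : Subgroup K) 2) hwpow d hd hdw
  have hf0P : f0 ∈ P := (hP f0).2 ⟨hf0, n.factorization r, hf0p⟩
  obtain ⟨ν, hν, hν2⟩ := Tw.conj_lift (p := s) (k := n.factorization s) hs (N ⊓ P)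
    (Tw.not_dvd_card hs (Nat.Coprime.pow_right _ ((Nat.coprime_primes hs hr).2 hrs.symm)) _
      (r := qp r n) fun z hz => hPpow z hz.2)
    (s := k2) (s' := f0 * k2 * f0⁻¹) hk2 (conj_pow_one hk2)
    (fun z hz => ⟨hN.conj_mem z hz.1 k2, hPn z hz.2 k2⟩)
    (by
      refine ⟨?_, ?_⟩
      · change f0 * k2 * f0⁻¹ * k2⁻¹ ∈ N
        rw [← QuotientGroup.eq_one_iff]
        rw [QuotientGroup.mk_mul, QuotientGroup.mk_mul, QuotientGroup.mk_mul,
          QuotientGroup.mk_inv, QuotientGroup.mk_inv, hf0w, hk2t, ← htw]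
        group
      · have e : f0 * k2 * f0⁻¹ * k2⁻¹ = f0 * (k2 * f0⁻¹ * k2⁻¹) := by group
        change f0 * k2 * f0⁻¹ * k2⁻¹ ∈ P
        rw [e]
        exact mul_mem hf0P (hPn _ (inv_mem hf0P) k2))
  obtain ⟨f, hf⟩ : ∃ f, f = ν⁻¹ * f0 := ⟨_, rfl⟩
  have hfP : f ∈ P := by rw [hf]; exact mul_mem (inv_mem hν.2) hf0P
  have hfk : k2 * f = f * k2 := by
    rw [hf]
    calc k2 * (ν⁻¹ * f0) = ν⁻¹ * (ν * k2 * ν⁻¹) * f0 := by group
      _ = ν⁻¹ * (f0 * k2 * f0⁻¹) * f0 := by rw [← hν2]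
      _ = ν⁻¹ * f0 * k2 := by group
  have hfw : (f : K ⧸ N) = w := by
    rw [hf, QuotientGroup.mk_mul, QuotientGroup.mk_inv, (QuotientGroup.eq_one_iff ν).2 hν.1, hf0w,
      inv_one, one_mul]
  have hfG : (f : G) ∈ Rad (qp r n) G := by
    refine cent_rad hr hs hrs hn' hG (fun x y => (h3 x y).1) (g := (k2 : G)) (e := (f : G))
      (by rw [← Subgroup.coe_pow, hk2]; rfl) (by rw [← Subgroup.coe_pow, hPpow f hfP]; rfl)
      (congrArg Subtype.val hfk) ?_
    intro z hz hzp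
    obtain ⟨hLf, hL3⟩ := h3 ((k2 : G) * z) (k1 : G)
    have m1 : (k2 : G) * z ∈ c2 ((k2 : G) * z) (k1 : G) := Subgroup.subset_closure (by simp)
    have m2 : (k1 : G) ∈ c2 ((k2 : G) * z) (k1 : G) := Subgroup.subset_closure (by simp)
    obtain ⟨m3, m4⟩ := mem_of_mul hz.symm (show (k2 : G) ^ qp s n = 1 by
      rw [← Subgroup.coe_pow, hk2]; rfl) hzp hco.symm _ m1
    have hKL : K ≤ c2 ((k2 : G) * z) (k1 : G) := by
      refine le_trans (le_of_eq hgenG.symm) ?_
      conv_lhs => unfold c2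
      rw [Subgroup.closure_le]
      rintro u (rfl | hu)
      · exact m3
      · rw [Set.mem_singleton_iff.1 hu]
        exact m2
    have hfK : (f : G) ∈ DD K 2 := by
      have h1 := hmapI ⊤ 2
      rw [htopK] at h1
      rw [← h1]
      exact ⟨f, ((hP f).1 hfP).1, rfl⟩
    exact x_COPC G _ hLf n hn1 (fun u _ => hG u) 2 hL3 r hr (f : G)
      ((x_MON G).1 _ _ hKL 2 hfK) (by rw [← Subgroup.coe_pow, hPpow f hfP]; rfl) z m4 hzp
      ((f : G) * z) (mul_mem (Subgroup.subset_closure (by simp))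
        (Subgroup.subset_closure (by simp)))
  rw [hR, Subgroup.mem_bot] at hfG
  have hf1 : f = 1 := Subtype.ext hfG
  rw [← hfw, hf1]
  rfl

end

end Pool.Agent.TH69.Pq
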