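import Mathlib
import Pool.Agent.TH69.MtnE

set_option autoImplicit false

/-!
# Two-generator subgroups of Fitting height three, part F: the exponent of minimal invariant
# subgroups
-/

namespace Pool.Agent.TH69.Pq

open Pool.Agent.H32BU Pool.Agent.W629 Pool.Agent.TH69.Mtn
open scoped commutatorElement

variable {G : Type} [Group G]

/-- powers in groups of class two -/
theorem class_two {x y c : G} (h : y * x = c * (x * y)) (hx : c * x = x * c) (hy : c * y = y * c)
    (k : ℕ) : (x * y) ^ k = c ^ (k.choose 2) * (x ^ k * y ^ k) := by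
  have cx : Commute c x := hx
  have cy : Commute c y := hy
  have h1 : ∀ k : ℕ, y ^ k * x = c ^ k * (x * y ^ k) := by
    intro k
    induction k with
    | zero => simp
    | succ k ih =>
      have e : y * (c ^ k * x) = c ^ k * (y * x) := by
        rw [← mul_assoc, ← (cy.pow_left k).eq, mul_assoc]
      calc y ^ (k + 1) * x = y * (y ^ k * x) := by rw [pow_succ']; group
        _ = y * (c ^ k * x) * y ^ k := by rw [ih]; group
        _ = c ^ k * (y * x) * y ^ k := by rw [e]
        _ = c ^ k * (c * (x * y)) * y ^ k := by rw [h]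
        _ = c ^ (k + 1) * (x * y ^ (k + 1)) := by rw [pow_succ, pow_succ' y]; group
  induction k with
  | zero => simp
  | succ k ih =>
    have e2 : Nat.choose (k + 1) 2 = k.choose 2 + k := by
      rw [show (2 : ℕ) = 1 + 1 from rfl, Nat.choose_succ_succ' k 1, Nat.choose_one_right]
      omega
    calc (x * y) ^ (k + 1) = (x * y) ^ k * (x * y) := pow_succ _ _
      _ = c ^ (k.choose 2) * x ^ k * (y ^ k * x) * y := by rw [ih]; group
      _ = c ^ (k.choose 2) * x ^ k * (c ^ k * (x * y ^ k)) * y := by rw [h1]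
      _ = c ^ (k.choose 2) * (x ^ k * c ^ k) * x * (y ^ k * y) := by group
      _ = c ^ (k.choose 2) * (c ^ k * x ^ k) * x * (y ^ k * y) := by
          rw [((cx.pow_left k).pow_right k).eq]
      _ = c ^ ((k + 1).choose 2) * (x ^ (k + 1) * y ^ (k + 1)) := by
          rw [e2, pow_add, pow_succ x, pow_succ y]; group

section

variable {n r s : ℕ} (hr : r.Prime) (hs : s.Prime) (hrs : r ≠ s) {h : G} {U : Subgroup G}
  (hh : h ^ qp r n = 1) (A : Arr n s h U)

include hr hs hrs hh A

/-- an invariant subgroup containing all commutators with `h` is `U` -/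
theorem eq_of_comm (X : Subgroup G) (hX : X ≤ U) (hinv : ∀ x ∈ X, h * x * h⁻¹ ∈ X)
    (hc : ∀ x ∈ U, h * x * h⁻¹ * x⁻¹ ∈ X) : X = U := by
  by_contra hne
  have h1 : ∀ x ∈ X, h * x = x * h := by
    by_contra hcon
    push Not at hcon
    exact hne (A.min X hX hinv hcon)
  obtain ⟨u, hu, hun⟩ := A.nc
  exact (A.comm_nc hh (qp_coprime hr hs hrs) hu hun).2 (h1 _ (hc u hu))

omit hr hs hrs hh in
/-- proper invariant subgroups are centralised -/
theorem cent_of_ne (X : Subgroup G) (hX : X ≤ U) (hinv : ∀ x ∈ X, h * x * h⁻¹ ∈ X)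
    (hne : X ≠ U) : ∀ x ∈ X, h * x = x * h := by
  by_contra hcon
  push Not at hcon
  exact hne (A.min X hX hinv hcon)

theorem arr_exp (hs2 : s ≠ 2) : ∀ t ∈ U, t ^ s = 1 := by
  classical
  have : Fact s.Prime := ⟨hs⟩
  have hUf := A.fin
  obtain ⟨u0, hu0, hun0⟩ := A.nc
  have hu01 : u0 ≠ 1 := by
    rintro rfl
    exact hun0 (by rw [mul_one, one_mul])
  have hUp : IsPGroup s U := fun x => ⟨n.factorization s, Subtype.ext (by
    rw [Subgroup.coe_pow, Subgroup.coe_one]
    exact A.pow x x.2)⟩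
  have hnt : Nontrivial U := ⟨⟨⟨u0, hu0⟩, 1, fun e => hu01 (congrArg Subtype.val e)⟩⟩
  have hnil : Group.IsNilpotent U := hUp.isNilpotent
  have hsol : Group.IsSolvable U := inferInstance
  have hlt : commutator U < ⊤ := Group.IsSolvable.commutator_lt_top_of_nontrivial U
  -- conjugation by `h`
  have hinv' : ∀ x ∈ U, h⁻¹ * x * h ∈ U := inv_conj (pow_pos hr.pos _) hh A.inv
  let φ : U →* U :=
    { toFun := fun u => ⟨h * u * h⁻¹, A.inv u u.2⟩
      map_one' := Subtype.ext (by change h * 1 * h⁻¹ = 1; group)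
      map_mul' := fun a b => Subtype.ext (by
        change h * (a * b) * h⁻¹ = h * a * h⁻¹ * (h * b * h⁻¹)
        group) }
  have hφ : ∀ u : U, ((φ u : U) : G) = h * u * h⁻¹ := fun u => rfl
  -- the derived subgroup `D`
  obtain ⟨D, hD⟩ : ∃ D : Subgroup G, D = (commutator U).map U.subtype := ⟨_, rfl⟩
  have hDmem : ∀ x : U, (x : G) ∈ D ↔ x ∈ commutator U := by
    intro x
    rw [hD]
    constructor
    · rintro ⟨y, hy, e⟩
      have : y = x := Subtype.ext e
      rw [← this]; exact hy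
    · intro h; exact ⟨x, h, rfl⟩
  have hDle : D ≤ U := by rw [hD]; exact Subgroup.map_subtype_le _
  have hDne : D ≠ U := by
    intro h
    apply hlt.ne
    rw [eq_top_iff]
    intro x _
    rw [← hDmem, h]
    exact x.2
  have hDc : ∀ x ∈ U, ∀ y ∈ U, x * y * x⁻¹ * y⁻¹ ∈ D := by
    intro x hx y hy
    have h1 : ((⁅(⟨x, hx⟩ : U), (⟨y, hy⟩ : U)⁆ : U) : G) = x * y * x⁻¹ * y⁻¹ := by
      rw [commutatorElement_def]
      rfl
    rw [← h1, hDmem]
    exact Subgroup.commutator_mem_commutator (Subgroup.mem_top _) (Subgroup.mem_top _)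
  have hDinv : ∀ x ∈ D, h * x * h⁻¹ ∈ D := by
    intro x hx
    have hxU := hDle hx
    have h1 : (⟨x, hxU⟩ : U) ∈ commutator U := (hDmem ⟨x, hxU⟩).1 hx
    have h2 : (commutator U).map φ ≤ commutator U := by
      rw [commutator_def, Subgroup.map_commutator]
      exact Subgroup.commutator_mono le_top le_top
    have h3 := h2 ⟨_, h1, rfl⟩
    exact (hDmem (φ ⟨x, hxU⟩)).2 h3
  have hDn : ∀ x ∈ D, ∀ u ∈ U, u * x * u⁻¹ ∈ D := by
    intro x hx u hu
    have h1 : (⟨x, hDle hx⟩ : U) ∈ commutator U := (hDmem ⟨x, hDle hx⟩).1 hx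
    have h2 := (inferInstance : (commutator U).Normal).conj_mem _ h1 ⟨u, hu⟩
    exact (hDmem _).2 h2
  have hDh := cent_of_ne A D hDle hDinv hDne
  -- `D` is central
  have hDz : ∀ c ∈ D, ∀ u ∈ U, c * u = u * c := by
    let X : Subgroup G :=
      { carrier := {u | u ∈ U ∧ ∀ c ∈ D, c * u = u * c}
        one_mem' := ⟨one_mem _, fun c _ => by rw [one_mul, mul_one]⟩
        mul_mem' := by
          rintro a b ⟨ha, ha'⟩ ⟨hb, hb'⟩
          refine ⟨mul_mem ha hb, fun c hc => ?_⟩
          rw [← mul_assoc, ha' c hc, mul_assoc, hb' c hc, mul_assoc]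
        inv_mem' := by
          rintro a ⟨ha, ha'⟩
          refine ⟨inv_mem ha, fun c hc => ?_⟩
          rw [eq_inv_mul_iff_mul_eq, ← mul_assoc, ← ha' c hc]
          group }
    have hX := eq_of_comm hr hs hrs hh A X (fun x hx => hx.1) ?_ ?_
    · intro c hc u hu
      rw [← hX] at hu
      exact hu.2 c hc
    · rintro x ⟨hx, hx'⟩
      refine ⟨A.inv x hx, fun c hc => ?_⟩
      have h1 := hDh c hc
      have h2 : h⁻¹ * c * h = c := by rw [mul_assoc, ← h1]; group
      calc c * (h * x * h⁻¹) = h * ((h⁻¹ * c * h) * x) * h⁻¹ := by group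
        _ = h * (x * (h⁻¹ * c * h)) * h⁻¹ := by rw [h2, hx' c hc]
        _ = h * x * h⁻¹ * c := by group
    · intro u hu
      refine ⟨mul_mem (A.inv u hu) (inv_mem hu), fun c hc => ?_⟩
      have h1 := hDh c hc
      have h2 : u⁻¹ * c * u ∈ D := by
        have := hDn c hc u⁻¹ (inv_mem hu)
        rwa [inv_inv] at this
      have h3 := hDh _ h2
      -- `(h u h⁻¹)⁻¹ c (h u h⁻¹) = u⁻¹ c u`
      have h4 : (h * u * h⁻¹)⁻¹ * c * (h * u * h⁻¹) = u⁻¹ * c * u := by
        have e1 : h⁻¹ * c * h = c := by rw [mul_assoc, ← h1]; group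
        calc (h * u * h⁻¹)⁻¹ * c * (h * u * h⁻¹) = h * (u⁻¹ * (h⁻¹ * c * h) * u) * h⁻¹ := by group
          _ = h * (u⁻¹ * c * u) * h⁻¹ := by rw [e1]
          _ = u⁻¹ * c * u := by rw [h3]; group
      calc c * (h * u * h⁻¹ * u⁻¹)
          = (h * u * h⁻¹) * ((h * u * h⁻¹)⁻¹ * c * (h * u * h⁻¹)) * u⁻¹ := by group
        _ = (h * u * h⁻¹) * (u⁻¹ * c * u) * u⁻¹ := by rw [h4]
        _ = h * u * h⁻¹ * u⁻¹ * c := by group
  -- the subgroup `E` generated by `D` and the `s`-th powers
  let E : Subgroup G := ((powMonoidHom s : Abelianization U →* Abelianization U).range.comap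
    Abelianization.of).map U.subtype
  have hEmem : ∀ x : U, (x : G) ∈ E ↔ ∃ a : Abelianization U, a ^ s = Abelianization.of x := by
    intro x
    constructor
    · rintro ⟨y, ⟨a, ha⟩, e⟩
      have : y = x := Subtype.ext e
      rw [← this]
      exact ⟨a, ha⟩
    · rintro ⟨a, ha⟩
      exact ⟨x, ⟨a, ha⟩, rfl⟩
  have hEle : E ≤ U := Subgroup.map_subtype_le _
  have hEne : E ≠ U := by
    intro hE
    have hsurj : Function.Surjective (fun a : Abelianization U => a ^ s) := by
      intro a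
      obtain ⟨x, rfl⟩ : ∃ x : U, Abelianization.of x = a := QuotientGroup.mk_surjective a
      exact (hEmem x).1 (by rw [hE]; exact x.2)
    have hfin : Finite (Abelianization U) := Finite.of_surjective (Abelianization.of (G := U))
      QuotientGroup.mk_surjective
    have hinj : Function.Injective (fun a : Abelianization U => a ^ s) :=
      Finite.injective_iff_surjective.2 hsurj
    have hall : ∀ (k : ℕ) (a : Abelianization U), a ^ s ^ k = 1 → a = 1 := by
      intro k
      induction k with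
      | zero => intro a ha; rwa [pow_zero, pow_one] at ha
      | succ k ih =>
        intro a ha
        apply ih
        apply hinj
        change (a ^ s ^ k) ^ s = 1 ^ s
        rw [← pow_mul, ← pow_succ, ha, one_pow]
    apply hlt.ne
    rw [eq_top_iff]
    intro x _
    have h1 : Abelianization.of x = 1 := by
      apply hall (n.factorization s)
      rw [← map_pow]
      have : x ^ s ^ n.factorization s = 1 := Subtype.ext (A.pow x x.2)
      rw [this, map_one]
    exact (QuotientGroup.eq_one_iff x).1 h1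
  have hEinv : ∀ x ∈ E, h * x * h⁻¹ ∈ E := by
    intro x hx
    obtain ⟨a, ha⟩ := (hEmem ⟨x, hEle hx⟩).1 hx
    refine (hEmem (φ ⟨x, hEle hx⟩)).2 ⟨Abelianization.map φ a, ?_⟩
    rw [← map_pow, ha, Abelianization.map_of]
  have hEh := cent_of_ne A E hEle hEinv hEne
  have hpow : ∀ x ∈ U, h * x ^ s = x ^ s * h := by
    intro x hx
    exact hEh _ ((hEmem (⟨x, hx⟩ ^ s)).2 ⟨Abelianization.of ⟨x, hx⟩, by rw [← map_pow]⟩)
  -- all `s`-th powers are in `D`
  have hofD : ∀ x : U, Abelianization.of x = 1 ↔ (x : G) ∈ D := by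
    intro x
    rw [hDmem]
    exact QuotientGroup.eq_one_iff x
  have hYD : ∀ x ∈ U, x ^ s ∈ D := by
    let Y : Subgroup G := ((powMonoidHom s : Abelianization U →* Abelianization U).ker.comap
      Abelianization.of).map U.subtype
    have hYmem : ∀ x : U, (x : G) ∈ Y ↔ (x : G) ^ s ∈ D := by
      intro x
      have h1 : (x : G) ^ s ∈ D ↔ (Abelianization.of x) ^ s = 1 := by
        rw [← map_pow, hofD]
        rfl
      rw [h1]
      constructor
      · rintro ⟨y, hy, e⟩
        have : y = x := Subtype.ext e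
        rw [← this]
        exact hy
      · intro hy
        exact ⟨x, hy, rfl⟩
    have hYle : Y ≤ U := Subgroup.map_subtype_le _
    have hY := eq_of_comm hr hs hrs hh A Y hYle ?_ ?_
    · intro x hx
      exact (hYmem ⟨x, hx⟩).1 (by rw [hY]; exact hx)
    · intro x hx
      have h1 := (hYmem ⟨x, hYle hx⟩).1 hx
      refine (hYmem (φ ⟨x, hYle hx⟩)).2 ?_
      rw [hφ, conj_pow']
      exact hDinv _ h1
    · intro x hx
      refine (hYmem (φ ⟨x, hx⟩ * ⟨x, hx⟩⁻¹)).2 ?_
      have h2 : Abelianization.of ((φ ⟨x, hx⟩ * ⟨x, hx⟩⁻¹ : U) ^ s) = 1 := by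
        have h3 : (φ ⟨x, hx⟩) ^ s = (⟨x, hx⟩ : U) ^ s := by
          apply Subtype.ext
          rw [Subgroup.coe_pow, hφ, conj_pow']
          change h * x ^ s * h⁻¹ = x ^ s
          rw [hpow x hx]
          group
        have h4 : Abelianization.of ((φ ⟨x, hx⟩ * ⟨x, hx⟩⁻¹ : U) ^ s) =
            Abelianization.of ((φ ⟨x, hx⟩) ^ s) * (Abelianization.of ((⟨x, hx⟩ : U) ^ s))⁻¹ := by
          simp only [map_pow, map_mul, map_inv, mul_pow, inv_pow]
        rw [h4, h3, mul_inv_cancel]
      exact (hofD _).1 h2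
  have hdvd : s ∣ s.choose 2 := by
    refine hs.dvd_choose_self (by norm_num) ?_
    have := hs.two_le
    omega
  have hchoose : ∀ c : G, c ^ s = 1 → c ^ (s.choose 2) = 1 := by
    intro c hc
    obtain ⟨m, hm⟩ := hdvd
    rw [hm, pow_mul, hc, one_pow]
  -- products
  have hprod : ∀ x ∈ U, ∀ y ∈ U, (y ^ s) * x = x * y ^ s → (x * y) ^ s = x ^ s * y ^ s := by
    intro x hx y hy hyx
    have hcD : y * x * y⁻¹ * x⁻¹ ∈ D := hDc y hy x hx
    have h1 : y * x = (y * x * y⁻¹ * x⁻¹) * (x * y) := by group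
    have h2 := class_two h1 (hDz _ hcD x hx) (hDz _ hcD y hy) s
    have h3 := comm_pow (x := y) (y := x) (c := y * x * y⁻¹ * x⁻¹) rfl
      (hDz _ hcD y hy).symm s
    have h4 : (y * x * y⁻¹ * x⁻¹) ^ s = 1 := by
      rw [← h3, hyx]
      group
    rw [h2, hchoose _ h4, one_mul]
  let Z : Subgroup G :=
    { carrier := {x | x ∈ U ∧ x ^ s = 1}
      one_mem' := ⟨one_mem _, one_pow _⟩
      mul_mem' := by
        rintro x y ⟨hx, hx'⟩ ⟨hy, hy'⟩
        refine ⟨mul_mem hx hy, ?_⟩
        rw [hprod x hx y hy (by rw [hy', one_mul, mul_one]), hx', hy', one_mul]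
      inv_mem' := by
        rintro x ⟨hx, hx'⟩
        exact ⟨inv_mem hx, by rw [inv_pow, hx', inv_one]⟩ }
  have hZ := eq_of_comm hr hs hrs hh A Z (fun x hx => hx.1)
    (fun x hx => ⟨A.inv x hx.1, conj_pow_one hx.2⟩) ?_
  · intro x hx
    rw [← hZ] at hx
    exact hx.2
  · intro x hx
    refine ⟨mul_mem (A.inv x hx) (inv_mem hx), ?_⟩
    rw [hprod _ (A.inv x hx) _ (inv_mem hx)]
    · rw [conj_pow', hpow x hx, inv_pow]
      group
    · rw [inv_pow]
      have h1 := hDz _ (hYD x hx) _ (A.inv x hx)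
      rw [inv_mul_eq_iff_eq_mul, ← mul_assoc, h1]
      group

end

end Pool.Agent.TH69.Pq
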