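import Mathlib
import Pool.Agent.TH69.MtnH
import Pool.Agent.TH69.PqE
import Pool.Agent.TH69.PqF

set_option autoImplicit false

/-!
# Two-generator subgroups of Fitting height three, part G: conclusion
-/

namespace Pool.Agent.TH69.Pq

open Pool.Agent.H32BU Pool.Agent.W629 Pool.Agent.TH69.Mtn

universe u v

/-- the hypotheses on the exponent -/
structure Adm (p q n : ℕ) : Prop where
  hp : p.Prime
  hq : q.Prime
  hpq : p ≠ q
  hn : qp p n * qp q n = n
  g1 : Good p q n
  g2 : Good q p n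

theorem Adm.pos {p q n : ℕ} (A : Adm p q n) : 1 ≤ n := by
  rw [← A.hn]
  exact Nat.mul_pos (pow_pos A.hp.pos _) (pow_pos A.hq.pos _)

theorem Adm.qp_other {p q n : ℕ} (A : Adm p q n) {s : ℕ} (hs : s.Prime) (h1 : s ≠ p)
    (h2 : s ≠ q) : qp s n = 1 := by
  have h3 : ¬ s ∣ n := by
    intro h
    rw [← A.hn] at h
    rcases (Nat.Prime.dvd_mul hs).1 h with h | h
    · exact h1 ((Nat.prime_dvd_prime_iff_eq hs A.hp).1 (hs.dvd_of_dvd_pow h))
    · exact h2 ((Nat.prime_dvd_prime_iff_eq hs A.hq).1 (hs.dvd_of_dvd_pow h))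
  unfold qp
  rw [Nat.factorization_eq_zero_of_not_dvd h3, pow_zero]

theorem rad_one (G : Type) [Group G] : Rad 1 G = ⊥ := by
  rw [Subgroup.eq_bot_iff_forall]
  intro x hx
  have := hx.1
  rwa [pow_one] at this

theorem trivial_pq {p q n : ℕ} (A : Adm p q n) (G : Type) [Group G] (hG : ∀ x : G, x ^ n = 1)
    (h3 : ∀ x y : G, Finite (c2 x y) ∧ DD (c2 x y) 3 = ⊥)
    (hR : ∀ s : ℕ, s.Prime → Rad (qp s n) G = ⊥) (g : G) : g = 1 :=
  trivial_of_rad A.pos hG (fun x y => ⟨(h3 x y).1, height_two A.hp A.hq A.hpq A.hn hG h3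
    (hR p A.hp) (hR q A.hq) A.g1 A.g2 x y⟩) hR g

theorem lf_pq {p q n : ℕ} (A : Adm p q n) (hL : ∀ p : ℕ, p.Prime → LocFin (qp p n)) (G : Type)
    [Group G] (hG : ∀ x : G, x ^ n = 1)
    (h2 : ∀ x y : G, Finite (c2 x y) ∧ DD (c2 x y) 3 = ⊥) : LF G := by
  have hn := A.pos
  obtain ⟨M, hM, hML, hMmax⟩ := exists_radical G
  refine x_SCH G M hML ?_
  have htor : ∀ x : G, IsOfFinOrder x := fun x => isOfFinOrder_iff_pow_eq_one.2 ⟨n, by omega, hG x⟩
  have h1 : ∀ g : G ⧸ M, g = 1 := by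
    refine trivial_pq A _ (exp_quot hG M) ?_ ?_
    · intro x y
      obtain ⟨x, rfl⟩ := QuotientGroup.mk_surjective x
      obtain ⟨y, rfl⟩ := QuotientGroup.mk_surjective y
      have hmap : (c2 x y).map (QuotientGroup.mk' M) = c2 (x : G ⧸ M) (y : G ⧸ M) := map_c2 _ x y
      obtain ⟨hf, hD⟩ := h2 x y
      refine ⟨?_, ?_⟩
      · rw [← hmap]
        exact Finite.of_surjective _ ((QuotientGroup.mk' M).subgroupMap_surjective (c2 x y))
      · rw [← hmap, ← x_MAPS G (G ⧸ M) (QuotientGroup.mk' M) htor, hD, Subgroup.map_bot]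
    · intro s hs
      rw [eq_bot_iff]
      intro x hx
      have hN : ((Rad (qp s n) (G ⧸ M)).comap (QuotientGroup.mk' M)).Normal := inferInstance
      have hNL : LF ((Rad (qp s n) (G ⧸ M)).comap (QuotientGroup.mk' M)) := by
        have hML' : LF (M.subgroupOf ((Rad (qp s n) (G ⧸ M)).comap (QuotientGroup.mk' M))) := by
          refine x_LFS.2.1 _ M
            { toFun := fun x => ⟨(x : ↥((Rad (qp s n) (G ⧸ M)).comap (QuotientGroup.mk' M))), x.2⟩
              map_one' := rfl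
              map_mul' := fun _ _ => rfl } ?_ hML
          intro a b hab
          have : ((a : ↥((Rad (qp s n) (G ⧸ M)).comap (QuotientGroup.mk' M))) : G) =
              ((b : ↥((Rad (qp s n) (G ⧸ M)).comap (QuotientGroup.mk' M))) : G) :=
            congrArg (fun z : ↥M => (z : G)) hab
          exact Subtype.ext (Subtype.ext this)
        refine x_SCH _ (M.subgroupOf ((Rad (qp s n) (G ⧸ M)).comap (QuotientGroup.mk' M))) hML' ?_
        refine hL s hs _ fun q => ?_
        obtain ⟨⟨g, hg⟩, rfl⟩ := QuotientGroup.mk_surjective q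
        rw [← QuotientGroup.mk_pow, QuotientGroup.eq_one_iff, Subgroup.mem_subgroupOf]
        have h3 : ((g : G ⧸ M)) ^ qp s n = 1 := hg.1
        rw [← QuotientGroup.mk_pow, QuotientGroup.eq_one_iff] at h3
        exact h3
      obtain ⟨g, rfl⟩ := QuotientGroup.mk_surjective x
      have h4 : g ∈ (Rad (qp s n) (G ⧸ M)).comap (QuotientGroup.mk' M) := hx
      have h5 := hMmax _ hN hNL h4
      rw [Subgroup.mem_bot, QuotientGroup.eq_one_iff]
      exact h5
  intro S
  have : Subsingleton (G ⧸ M) := ⟨fun a b => by rw [h1 a, h1 b]⟩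
  infer_instance

/-- a normal nilpotent subgroup with metanilpotent quotient -/
def MN3 (K : Type u) [Group K] : Prop :=
  ∃ N : Subgroup K, ∃ _ : N.Normal, Group.IsNilpotent N ∧ MN (K ⧸ N)

theorem MN3.of_injective {A : Type u} {B : Type v} [Group A] [Group B] (f : A →* B)
    (hf : Function.Injective f) (h : MN3 B) : MN3 A := by
  obtain ⟨N, hN, h1, h2⟩ := h
  refine ⟨N.comap f, inferInstance, ?_, ?_⟩
  · let g : N.comap f →* N := (f.comp (N.comap f).subtype).codRestrict N fun x => x.2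
    refine Subgroup.isNilpotent_of_ker_le_center g ?_
    have hg : Function.Injective g := by
      intro x y hxy
      exact Subtype.ext (hf (congrArg Subtype.val hxy))
    rw [(MonoidHom.ker_eq_bot_iff g).2 hg]
    exact bot_le
  · let g : A ⧸ N.comap f →* B ⧸ N := QuotientGroup.map _ _ f le_rfl
    refine MN.of_injective g ?_ h2
    rw [← MonoidHom.ker_eq_bot_iff, Subgroup.eq_bot_iff_forall]
    intro x hx
    obtain ⟨x, rfl⟩ := QuotientGroup.mk_surjective x
    have h3 : ((f x : B) : B ⧸ N) = 1 := hx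
    rw [QuotientGroup.eq_one_iff] at h3 ⊢
    exact h3

theorem MN3.dd {K : Type} [Group K] [Finite K] (h : MN3 K) : DD (⊤ : Subgroup K) 3 = ⊥ := by
  obtain ⟨N, hN, h1, h2⟩ := h
  have htor : ∀ x : K, IsOfFinOrder x := fun x => isOfFinOrder_of_finite x
  have h3 : DD (⊤ : Subgroup K) 2 ≤ N := by
    have h4 := x_MAPS K (K ⧸ N) (QuotientGroup.mk' N) htor ⊤ 2
    rw [Subgroup.map_top_of_surjective _ (QuotientGroup.mk'_surjective N), h2.dd,
      Subgroup.map_eq_bot_iff, QuotientGroup.ker_mk'] at h4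
    exact h4
  have h5 : NR N = ⊥ := by
    unfold NR
    rw [Subgroup.closure_eq_bot_iff]
    rintro _ ⟨x, hxN, y, hyN, a, b, hab, hx, hy, rfl⟩
    rw [Set.mem_singleton_iff]
    have h4 := nilp_comm _ h1 (⟨x, hxN⟩ : N) ⟨y, hyN⟩ a b hab
      (Subtype.ext (by rw [Subgroup.coe_pow]; exact hx))
      (Subtype.ext (by rw [Subgroup.coe_pow]; exact hy))
    have h6 : x * y = y * x := congrArg Subtype.val h4
    rw [h6]
    group
  have h6 := (x_MON K).1 (DD (⊤ : Subgroup K) 2) N h3 1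
  have h7 : DD N 1 = ⊥ := h5
  rw [h7, le_bot_iff] at h6
  exact h6

/-- the condition on two-generator subgroups, transferred -/
theorem three_transfer {Q : Type} {G : Type u} [Group Q] [Group G] (f : Q →* G)
    (hf : Function.Injective f)
    (h2 : ∀ x y : G, Finite (Subgroup.closure {x, y}) ∧ ∀ (K : Type) [Group K] [Finite K]
      (g : K →* Subgroup.closure {x, y}), Function.Injective g → DD (⊤ : Subgroup K) 3 = ⊥)
    (x y : Q) : Finite (c2 x y) ∧ DD (c2 x y) 3 = ⊥ := by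
  obtain ⟨h3, h4⟩ := h2 (f x) (f y)
  have e : (c2 x y).map f = Subgroup.closure {f x, f y} := by
    unfold c2
    rw [MonoidHom.map_closure, Set.image_pair]
  rw [← e] at h3 h4
  have eq := (c2 x y).equivMapOfInjective f hf
  have hfin : Finite (c2 x y) := Finite.of_equiv _ eq.symm.toEquiv
  refine ⟨hfin, ?_⟩
  have h5 := h4 (c2 x y) eq.toMonoidHom eq.injective
  have h6 := x_MAPI (c2 x y) Q (c2 x y).subtype (Subgroup.subtype_injective _) ⊤ 3
  rw [← MonoidHom.range_eq_map, Subgroup.range_subtype, h5, Subgroup.map_bot] at h6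
  exact h6.symm

theorem lf_pq_u {p q n : ℕ} (A : Adm p q n) (hL : ∀ p : ℕ, p.Prime → LocFin (qp p n))
    (G : Type u) [Group G] (hG : ∀ x : G, x ^ n = 1)
    (h2 : ∀ x y : G, Finite (Subgroup.closure {x, y}) ∧ ∀ (K : Type) [Group K] [Finite K]
      (g : K →* Subgroup.closure {x, y}), Function.Injective g → DD (⊤ : Subgroup K) 3 = ⊥)
    (S : Set G) (hS : S.Finite) : Finite (Subgroup.closure S) :=
  finite_closure_u S hS fun Q _ f hf => lf_pq A hL Q
    (fun x => hf (by rw [map_pow, map_one]; exact hG _)) (three_transfer f hf h2)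

/-- triviality of groups with trivial radicals, all universes -/
theorem trivial_pq_u {p q n : ℕ} (A : Adm p q n) (G : Type u) [Group G] (hG : ∀ x : G, x ^ n = 1)
    (h2 : ∀ x y : G, Finite (Subgroup.closure {x, y}) ∧ ∀ (K : Type) [Group K] [Finite K]
      (g : K →* Subgroup.closure {x, y}), Function.Injective g → DD (⊤ : Subgroup K) 3 = ⊥)
    (hR : ∀ s : ℕ, s.Prime → Rad (qp s n) G = ⊥) (g : G) : g = 1 := by
  classical
  have hex : ∀ (s : ℕ) (e : G), ∃ z : G, s.Prime → e ≠ 1 → e ^ qp s n = 1 →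
      z ^ qp s n = 1 ∧ (e * z) ^ qp s n ≠ 1 := by
    intro s e
    by_contra hcon
    push Not at hcon
    obtain ⟨hs, he1, he, -⟩ := hcon 1
    apply he1
    have h3 : e ∈ Rad (qp s n) G := ⟨he, fun z hz => (hcon z).2.2.2 hz⟩
    rw [hR s hs] at h3
    exact h3
  choose f hf using hex
  obtain ⟨C, hC, hgC, hfC⟩ := exists_closed f g
  have hsm : Small.{0} C := inferInstance
  let e : Shrink.{0} C ≃* C := Shrink.mulEquiv
  let φ : Shrink.{0} C →* G := C.subtype.comp e.toMonoidHom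
  have hφ : Function.Injective φ := fun x y hxy => e.injective (Subtype.ext hxy)
  have hmem : ∀ x, φ x ∈ C := fun x => (e x).2
  have h3 := trivial_pq A (Shrink.{0} C)
    (fun x => hφ (by rw [map_pow, map_one]; exact hG _)) (three_transfer φ hφ h2) (by
      intro s hs
      rw [Subgroup.eq_bot_iff_forall]
      rintro x ⟨hx, hx'⟩
      by_contra hne
      obtain ⟨h4, h5⟩ := hf s (φ x) hs (fun h => hne (hφ (by rw [h, map_one])))
        (by rw [← map_pow, hx, map_one])
      obtain ⟨z, hz⟩ : ∃ z, φ z = f s (φ x) := by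
        refine ⟨e.symm ⟨f s (φ x), hfC s _ (hmem x)⟩, ?_⟩
        change ((e (e.symm _) : C) : G) = _
        rw [MulEquiv.apply_symm_apply]
      have h6 := hx' z (hφ (by rw [map_pow, hz, h4, map_one]))
      apply h5
      rw [← hz, ← map_mul, ← map_pow, h6, map_one]) (e.symm ⟨g, hgC⟩)
  have h4 := congrArg φ h3
  rw [map_one] at h4
  have h5 : φ (e.symm ⟨g, hgC⟩) = g := by
    change ((e (e.symm _) : C) : G) = _
    rw [MulEquiv.apply_symm_apply]
  rw [← h5, h4]

/-! ### Admissible exponents -/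

theorem fact_pq {p q : ℕ} (hp : p.Prime) (hq : q.Prime) (hpq : p ≠ q) (a b : ℕ) :
    qp p (p ^ a * q ^ b) = p ^ a ∧ qp q (p ^ a * q ^ b) = q ^ b := by
  have h1 : (p ^ a * q ^ b).factorization = Finsupp.single p a + Finsupp.single q b := by
    rw [Nat.factorization_mul (pow_ne_zero _ hp.ne_zero) (pow_ne_zero _ hq.ne_zero),
      hp.factorization_pow, hq.factorization_pow]
  unfold qp
  rw [h1]
  constructor
  · rw [Finsupp.add_apply, Finsupp.single_eq_same, Finsupp.single_eq_of_ne hpq, add_zero]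
  · rw [Finsupp.add_apply, Finsupp.single_eq_same, Finsupp.single_eq_of_ne hpq.symm, zero_add]

theorem odd_of {p q : ℕ} (hq : q.Prime) (hpq : p ≠ q) (h : ¬ p ∣ q - 1) : p ≠ 2 := by
  rintro rfl
  rcases hq.eq_two_or_odd with h1 | h1
  · exact hpq h1.symm
  · apply h
    have := hq.two_le
    omega

theorem adm_one {p q : ℕ} (hp : p.Prime) (hq : q.Prime) (hpq : p ≠ q) (h : ¬ p ∣ q - 1) (a : ℕ) :
    Adm p q (p ^ a * q) := by
  obtain ⟨h1, h2⟩ := fact_pq hp hq hpq a 1
  rw [pow_one] at h1 h2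
  refine ⟨hp, hq, hpq, by rw [h1, h2], Or.inr ⟨h, ?_⟩, Or.inl (ex hq hp hpq.symm h2
    (by rw [h1, h2, mul_comm]) (odd_of hq hpq h))⟩
  intro F _ g T _ A t ht
  have := A.pow t ht
  rwa [h2] at this

theorem adm_two {p q : ℕ} (hp : p.Prime) (hq : q.Prime) (hpq : p ≠ q) (h : ¬ p ∣ q - 1)
    (h' : ¬ q ∣ p - 1) (a b : ℕ) : Adm p q (p ^ a * q ^ b) := by
  obtain ⟨h1, h2⟩ := fact_pq hp hq hpq a b
  refine ⟨hp, hq, hpq, by rw [h1, h2], Or.inr ⟨h, ?_⟩, Or.inr ⟨h', ?_⟩⟩
  · intro F _ g T hg A t ht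
    exact arr_exp hp hq hpq hg A (odd_of hp hpq.symm h') t ht
  · intro F _ g T hg A t ht
    exact arr_exp hq hp hpq.symm hg A (odd_of hq hpq h) t ht

end Pool.Agent.TH69.Pq
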