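import Mathlib
import Pool.Agent.TH69.OdH
import Pool.Agent.TH69.OdI
import Pool.Agent.TH69.PqG

set_option autoImplicit false

/-!
# Groups of exponent `p ^ a * q ^ b`, part J: basic lemmas on the infinite group
-/

namespace Pool.Agent.TH69.Od

open Pool.Agent.H32BU Pool.Agent.W629 Pool.Agent.TH69.Mtn Pool.Agent.TH69.Pq

theorem TT.comap {F H : Type} [Group F] [Group H] {P Q : ℕ} (f : H →* F)
    (hf : Function.Injective f) {E : Subgroup H} {z : H} (h : TT P Q (E.map f) (f z)) :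
    TT P Q E z := by
  obtain ⟨A, B, h1, h2, h3, h4, h5⟩ := h
  refine ⟨A.comap f, B.comap f, ?_, ?_, ?_, ?_, h5⟩
  · intro g hg x hx
    have := h1 (f g) ⟨g, hg, rfl⟩ (f x) hx
    rw [← map_inv, ← map_mul, ← map_mul] at this
    exact this
  · intro g hg x hx
    have := h2 (f g) ⟨g, hg, rfl⟩ (f x) hx
    rw [← map_inv, ← map_mul, ← map_mul] at this
    exact this
  · intro x hx
    apply hf
    rw [map_pow, map_one]
    exact h3 _ hx
  · intro x hx
    have := h4 _ hx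
    rw [← map_pow] at this
    exact this

/-- the hypotheses on the group -/
structure St (p q α β : ℕ) (G : Type) [Group G] : Prop where
  hp : p.Prime
  hq : q.Prime
  hpq : p ≠ q
  exp : ∀ x : G, x ^ (p ^ α * q ^ β) = 1
  fin : ∀ x y : G, Finite (c2 x y)
  rp : Rad (p ^ α) G = ⊥
  rq : Rad (q ^ β) G = ⊥

theorem St.symm {p q α β : ℕ} {G : Type} [Group G] (S : St p q α β G) : St q p β α G :=
  ⟨S.hq, S.hp, S.hpq.symm, fun x => by rw [mul_comm]; exact S.exp x, S.fin, S.rq, S.rp⟩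

theorem St.cop {p q α β : ℕ} {G : Type} [Group G] (S : St p q α β G) : Nat.Coprime p q :=
  (Nat.coprime_primes S.hp S.hq).2 S.hpq

theorem St.hab {p q α β : ℕ} {G : Type} [Group G] (S : St p q α β G) :
    Nat.Coprime (p ^ α) (q ^ β) := Nat.Coprime.pow _ _ S.cop

theorem St.qpp {p q α β : ℕ} {G : Type} [Group G] (S : St p q α β G) :
    qp p (p ^ α * q ^ β) = p ^ α := (fact_pq S.hp S.hq S.hpq α β).1

theorem St.qpq {p q α β : ℕ} {G : Type} [Group G] (S : St p q α β G) :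
    qp q (p ^ α * q ^ β) = q ^ β := (fact_pq S.hp S.hq S.hpq α β).2

/-- `p`-elements which lie in `O_{q,p}` of all finite subgroups containing them -/
def SS {G : Type} [Group G] (p q α β : ℕ) (z : G) : Prop :=
  z ^ p ^ α = 1 ∧ ∀ E : Subgroup G, Finite E → z ∈ E → TT (p ^ α) (q ^ β) E z

variable {G : Type} [Group G] {p q α β : ℕ}

/-- powers of elements of maximal order -/
theorem ss_of_max (S : St p q α β G) (hα : 1 ≤ α)
    (hex : ∀ μ, 1 ≤ μ → μ ≤ α → ∀ r, 1 ≤ r → q ^ r ≠ p ^ μ - 1) {x : G} (hx : x ^ p ^ α = 1) :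
    SS p q α β (x ^ p ^ (α - 1)) := by
  have hz : (x ^ p ^ (α - 1)) ^ p ^ α = 1 := by rw [← pow_mul, mul_comm, pow_mul, hx, one_pow]
  refine ⟨hz, fun E hE hzE => ?_⟩
  obtain ⟨z, hzx⟩ : ∃ z, z = x ^ p ^ (α - 1) := ⟨_, rfl⟩
  rw [← hzx] at hz hzE ⊢
  have key : ∀ f : G, TT (p ^ α) (q ^ β) (c2 z f) z := by
    intro f
    have hfin := S.fin x f
    have hxm : x ∈ c2 x f := Subgroup.subset_closure (by simp)
    have hfm : f ∈ c2 x f := Subgroup.subset_closure (by simp)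
    have h1 := hhB S.hp S.hq S.hpq hα hex (exp_sub S.exp (c2 x f)) (x := ⟨x, hxm⟩)
      (Subtype.ext hx)
    have h2 := h1.map (c2 x f).subtype
    rw [← MonoidHom.range_eq_map, Subgroup.range_subtype] at h2
    have h3 : (c2 x f).subtype ((⟨x, hxm⟩ : c2 x f) ^ p ^ (α - 1)) = z := by
      rw [hzx]
      rfl
    rw [h3] at h2
    refine h2.mono ?_
    unfold c2
    rw [Subgroup.closure_le]
    rintro y (rfl | hy)
    · rw [hzx]
      exact pow_mem hxm _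
    · rw [Set.mem_singleton_iff.1 hy]
      exact hfm
  have h4 := bs S.hp S.hq S.hpq hα (exp_sub S.exp E) (z := ⟨z, hzE⟩) (Subtype.ext hz) (by
    intro f
    refine TT.comap E.subtype E.subtype_injective ?_
    have h5 : (c2 (⟨z, hzE⟩ : E) f).map E.subtype = c2 z (f : G) := by
      unfold c2
      rw [MonoidHom.map_closure, Set.image_pair]
      rfl
    rw [h5]
    exact key f)
  have h5 := h4.map E.subtype
  rw [← MonoidHom.range_eq_map, Subgroup.range_subtype] at h5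
  exact h5

/-- the theorem of Baer and Suzuki for finite groups of exponent `p ^ a q ^ b` -/
theorem bsf {F : Type} [Group F] [Finite F] (hp : p.Prime) (hq : q.Prime) (hpq : p ≠ q)
    (hF : ∀ x : F, x ^ (p ^ α * q ^ β) = 1) {e : F} (he : e ^ p ^ α = 1)
    (h : ∀ k : F, ∀ x ∈ c2 e (k * e * k⁻¹), x ^ p ^ α = 1) : e ∈ Rad (p ^ α) F := by
  have hab : Nat.Coprime (p ^ α) (q ^ β) :=
    Nat.Coprime.pow _ _ ((Nat.coprime_primes hp hq).2 hpq)
  refine Tw.mem_rad_of hab hF (solv hp hq hF) he ?_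
  intro u hu
  obtain ⟨w, rfl⟩ := QuotientGroup.mk_surjective u
  have h1 : e * (w * e⁻¹ * w⁻¹) ∈ c2 e (w * e * w⁻¹) := by
    have e1 : w * e⁻¹ * w⁻¹ = (w * e * w⁻¹)⁻¹ := by group
    rw [e1]
    exact mul_mem (Subgroup.subset_closure (by simp)) (inv_mem (Subgroup.subset_closure (by simp)))
  have h2 := h w _ h1
  have h3 : ((e * (w * e⁻¹ * w⁻¹) : F) : F ⧸ Rad (p ^ α) F) = 1 := by
    refine W629.eq_one_of_coprime hab (by rw [← QuotientGroup.mk_pow, h2]; rfl) ?_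
    apply rad_pow (G := F ⧸ Rad (p ^ α) F)
    have e1 : ((e * (w * e⁻¹ * w⁻¹) : F) : F ⧸ Rad (p ^ α) F) =
        (e * (w : F ⧸ Rad (p ^ α) F) * (e : F ⧸ Rad (p ^ α) F)⁻¹) *
          (w : F ⧸ Rad (p ^ α) F)⁻¹ := by
      simp only [QuotientGroup.mk_mul, QuotientGroup.mk_inv]
      group
    rw [e1]
    exact mul_mem ((rad_normal (q ^ β)).conj_mem _ hu _) (inv_mem hu)
  have e1 : ((e * (w * e⁻¹ * w⁻¹) : F) : F ⧸ Rad (p ^ α) F) =
      e * (w : F ⧸ Rad (p ^ α) F) * (e : F ⧸ Rad (p ^ α) F)⁻¹ * (w : F ⧸ Rad (p ^ α) F)⁻¹ := by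
    simp only [QuotientGroup.mk_mul, QuotientGroup.mk_inv]
    group
  rw [e1, mul_inv_eq_one, mul_inv_eq_iff_eq_mul] at h3
  exact h3

/-- nice elements for `e` -/
def Nice (P : ℕ) (e g : G) : Prop :=
  g ∈ c2 e (g * e * g⁻¹) ∧ ¬ ∀ x ∈ c2 e (g * e * g⁻¹), x ^ P = 1

theorem c2_le {x y : G} {E : Subgroup G} (hx : x ∈ E) (hy : y ∈ E) : c2 x y ≤ E := by
  unfold c2
  rw [Subgroup.closure_le]
  rintro a (rfl | ha)
  · exact hx
  · rw [Set.mem_singleton_iff.1 ha]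
    exact hy

theorem nice_exists (S : St p q α β G) {e : G} (he : e ^ p ^ α = 1) (he1 : e ≠ 1) :
    ∃ g, Nice (p ^ α) e g := by
  classical
  -- subgroups with `e` outside the radical
  have step : ∀ K : Subgroup G, Finite K → e ∈ K → (∃ t ∈ K, t ^ p ^ α = 1 ∧ (e * t) ^ p ^ α ≠ 1) →
      ∃ k ∈ K, ¬ ∀ x ∈ c2 e (k * e * k⁻¹), x ^ p ^ α = 1 := by
    rintro K hK heK ⟨t, htK, ht, het⟩
    by_contra hcon
    push Not at hcon
    have h1 := bsf S.hp S.hq S.hpq (exp_sub S.exp K) (e := ⟨e, heK⟩) (Subtype.ext he) (by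
      intro k x hx
      apply Subtype.ext
      rw [Subgroup.coe_pow, Subgroup.coe_one]
      refine hcon k k.2 x ?_
      have h2 : (c2 (⟨e, heK⟩ : K) (k * ⟨e, heK⟩ * k⁻¹)).map K.subtype =
          c2 e ((k : G) * e * (k : G)⁻¹) := by
        unfold c2
        rw [MonoidHom.map_closure, Set.image_pair]
        rfl
      rw [← h2]
      exact ⟨x, hx, rfl⟩)
    have h2 := rad_mul h1 (z := ⟨t, htK⟩) (Subtype.ext ht)
    exact het (congrArg Subtype.val h2)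
  obtain ⟨t, ht, het⟩ : ∃ t : G, t ^ p ^ α = 1 ∧ (e * t) ^ p ^ α ≠ 1 := by
    by_contra hcon
    push Not at hcon
    have h1 : e ∈ Rad (p ^ α) G := ⟨he, hcon⟩
    rw [S.rp] at h1
    exact he1 h1
  have hex : ∃ d, ∃ g : G, (¬ ∀ x ∈ c2 e (g * e * g⁻¹), x ^ p ^ α = 1) ∧
      Nat.card (c2 e (g * e * g⁻¹)) = d := by
    obtain ⟨k, -, hk⟩ := step (c2 e t) (S.fin e t) (Subgroup.subset_closure (by simp))
      ⟨t, Subgroup.subset_closure (by simp), ht, het⟩
    exact ⟨_, k, hk, rfl⟩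
  obtain ⟨g, hg, hgd⟩ := Nat.find_spec hex
  have hmin := fun d (hd : d < Nat.find hex) => Nat.find_min hex hd
  have hfin := S.fin e (g * e * g⁻¹)
  have heK : e ∈ c2 e (g * e * g⁻¹) := Subgroup.subset_closure (by simp)
  have hgK : g * e * g⁻¹ ∈ c2 e (g * e * g⁻¹) := Subgroup.subset_closure (by simp)
  have h1 : ∃ t ∈ c2 e (g * e * g⁻¹), t ^ p ^ α = 1 ∧ (e * t) ^ p ^ α ≠ 1 := by
    by_contra hcon
    push Not at hcon
    -- `e` is in the radical of `K`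
    let e' : c2 e (g * e * g⁻¹) := ⟨e, heK⟩
    let y' : c2 e (g * e * g⁻¹) := ⟨g * e * g⁻¹, hgK⟩
    have h2 : e' ∈ Rad (p ^ α) (c2 e (g * e * g⁻¹)) :=
      ⟨Subtype.ext he, fun z hz => Subtype.ext (hcon z z.2 (congrArg Subtype.val hz))⟩
    apply hg
    intro x hx
    have h3 : (⊤ : Subgroup (c2 e (g * e * g⁻¹))) ≤
        (Subgroup.zpowers ((y' : c2 e (g * e * g⁻¹)) : c2 e (g * e * g⁻¹) ⧸
          Rad (p ^ α) (c2 e (g * e * g⁻¹)))).comap (QuotientGroup.mk' _) := by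
      have h4 : (⊤ : Subgroup (c2 e (g * e * g⁻¹))) = Subgroup.closure {e', y'} := by
        apply Subgroup.map_injective (c2 e (g * e * g⁻¹)).subtype_injective
        rw [← MonoidHom.range_eq_map, Subgroup.range_subtype, MonoidHom.map_closure,
          Set.image_pair]
        rfl
      rw [h4, Subgroup.closure_le]
      rintro a (rfl | ha)
      · rw [SetLike.mem_coe, Subgroup.mem_comap, QuotientGroup.mk'_apply,
          (QuotientGroup.eq_one_iff e').2 h2]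
        exact one_mem _
      · rw [Set.mem_singleton_iff.1 ha]
        exact Subgroup.mem_zpowers _
    have h5 := h3 (Subgroup.mem_top (⟨x, hx⟩ : c2 e (g * e * g⁻¹)))
    obtain ⟨i, hi⟩ := Subgroup.mem_zpowers_iff.1 h5
    have hy : y' ^ p ^ α = 1 := Subtype.ext (conj_pow_one he)
    have h6 : (((⟨x, hx⟩ : c2 e (g * e * g⁻¹)) : c2 e (g * e * g⁻¹) ⧸
        Rad (p ^ α) (c2 e (g * e * g⁻¹)))) ^ p ^ α = 1 := by
      change (QuotientGroup.mk' _ _) ^ p ^ α = 1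
      rw [← hi, ← zpow_natCast, ← zpow_mul, mul_comm, zpow_mul, zpow_natCast,
        ← QuotientGroup.mk_pow, hy]
      exact one_zpow i
    have h7 := pow_of_mk S.hab (exp_sub S.exp _) _ (fun x hx => rad_pow hx) h6
    exact congrArg Subtype.val h7
  obtain ⟨k, hkK, hk⟩ := step _ hfin heK h1
  have hle : c2 e (k * e * k⁻¹) ≤ c2 e (g * e * g⁻¹) :=
    c2_le heK (mul_mem (mul_mem hkK heK) (inv_mem hkK))
  have heq : c2 e (k * e * k⁻¹) = c2 e (g * e * g⁻¹) := by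
    refine Subgroup.eq_of_le_of_card_ge hle ?_
    by_contra hlt
    push Not at hlt
    rw [hgd] at hlt
    exact hmin _ hlt ⟨k, hk, rfl⟩
  exact ⟨k, by rw [heq]; exact hkK, hk⟩

/-- two generators for `x`, `k`, `c` and a subgroup `⟨x, g x g⁻¹⟩` containing `g` -/
theorem gens {P Q : ℕ} (hab : Nat.Coprime P Q) {x k g c : G} (hx : x ^ P = 1) (hk : k ^ Q = 1)
    (hxk : x * k = k * x) (hc : ∃ m : ℕ, (c * x * c⁻¹) ^ m = x) (hg : g ∈ c2 x (g * x * g⁻¹)) :
    x ∈ c2 (x * k) (g * c) ∧ k ∈ c2 (x * k) (g * c) ∧ g ∈ c2 (x * k) (g * c) ∧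
      c ∈ c2 (x * k) (g * c) ∧ c2 x (g * x * g⁻¹) ≤ c2 (x * k) (g * c) := by
  have m1 : x * k ∈ c2 (x * k) (g * c) := Subgroup.subset_closure (by simp)
  have m2 : g * c ∈ c2 (x * k) (g * c) := Subgroup.subset_closure (by simp)
  obtain ⟨m3, m4⟩ := mem_of_mul hxk hx hk hab _ m1
  obtain ⟨m, hm⟩ := hc
  have m5 : g * x * g⁻¹ ∈ c2 (x * k) (g * c) := by
    have h1 := mul_mem (mul_mem m2 m3) (inv_mem m2)
    have e : g * c * x * (g * c)⁻¹ = g * (c * x * c⁻¹) * g⁻¹ := by group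
    rw [e] at h1
    have h2 := pow_mem h1 m
    rw [conj_pow, hm] at h2
    exact h2
  have m6 := c2_le m3 m5
  refine ⟨m3, m4, m6 hg, ?_, m6⟩
  have h1 := mul_mem (inv_mem (m6 hg)) m2
  rwa [inv_mul_cancel_left] at h1

/-- a nice element excludes `e` from the subgroups of exponent `P` normalised by `g` -/
theorem nice_false {P : ℕ} {e g : G} (hg : Nice P e g) {A : Subgroup G}
    (hA : ∀ x ∈ A, x ^ P = 1) (hgA : ∀ x ∈ A, g * x * g⁻¹ ∈ A) (he : e ∈ A) : False :=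
  hg.2 fun x hx => hA x (c2_le he (hgA e he) hx)

/-- the minimal subgroup lies in `O_p` -/
theorem in_A (S : St p q α β G) {w : G} (hw : SS q p β α w) {U : Subgroup G}
    (A : Arr (p ^ α * q ^ β) p w U) {E : Subgroup G} (hE : Finite E) (hwE : w ∈ E) (hU : U ≤ E) :
    ∃ B : Subgroup G, (∀ g ∈ E, ∀ x ∈ B, g * x * g⁻¹ ∈ B) ∧ (∀ x ∈ B, x ^ p ^ α = 1) ∧ U ≤ B := by
  obtain ⟨B, h1, h2, h3⟩ := (hw.2 E hE hwE).comm_mem S.hab.symm
  refine ⟨B, h1, h2, ?_⟩
  obtain ⟨u, hu, huw⟩ := A.nc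
  have hco : Nat.Coprime (q ^ β) (qp p (p ^ α * q ^ β)) := by rw [S.qpp]; exact S.hab.symm
  obtain ⟨h4, h5⟩ := A.comm_nc hw.1 hco hu huw
  have h6 : w * u * w⁻¹ * u⁻¹ ∈ B := by
    apply h3 u (hU hu)
    have := A.pow _ h4
    rwa [S.qpp] at this
  have h7 := A.min (U ⊓ B) inf_le_left (fun x hx => ⟨A.inv x hx.1, h1 w hwE x hx.2⟩)
    ⟨_, ⟨h4, h6⟩, h5⟩
  rw [← h7]
  exact inf_le_right

/-- no nontrivial element of a minimal subgroup commutes with it and with `w` -/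
theorem c1 (S : St p q α β G) {w : G} (hw : SS q p β α w) {U : Subgroup G}
    (A : Arr (p ^ α * q ^ β) p w U) {e : G} (he : e ∈ U) (he1 : e ≠ 1) (hew : e * w = w * e)
    (heU : ∀ u ∈ U, e * u = u * e) : False := by
  have heP : e ^ p ^ α = 1 := by
    have := A.pow e he
    rwa [S.qpp] at this
  obtain ⟨g, hg⟩ := nice_exists S heP he1
  obtain ⟨u, hu, huw⟩ := A.nc
  obtain ⟨m1, m2, m3, m4, m5⟩ := gens S.hab (x := e) (k := w) (g := g) (c := u) heP hw.1 hew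
    ⟨1, by rw [pow_one, ← heU u hu]; group⟩ hg.1
  have hUE := A.gen _ m2 hu m4 huw
  obtain ⟨B, h1, h2, h3⟩ := in_A S hw A (S.fin _ _) m2 hUE
  exact nice_false hg h2 (h1 g m3) (h3 he)

/-- structure of the minimal subgroups -/
theorem arr_struct (S : St p q α β G) {w : G} (hw : SS q p β α w) {U : Subgroup G}
    (A : Arr (p ^ α * q ^ β) p w U) : (∀ u ∈ U, ∀ v ∈ U, u * v = v * u) ∧ (∀ u ∈ U, u ^ p = 1) ∧
      (∀ u ∈ U, u ≠ 1 → w * u ≠ u * w) ∧
      (∀ V : Subgroup G, V ≤ U → (∀ u ∈ V, w * u * w⁻¹ ∈ V) → V ≠ ⊥ → V = U) := by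
  have hUfin := A.fin
  have hUP : ∀ u ∈ U, u ^ p ^ α = 1 := fun u hu => by
    have := A.pow u hu
    rwa [S.qpp] at this
  have hUne : (⊤ : Subgroup U) ≠ ⊥ := by
    intro h
    obtain ⟨u, hu, huw⟩ := A.nc
    have h1 : (⟨u, hu⟩ : U) ∈ (⊤ : Subgroup U) := Subgroup.mem_top _
    rw [h, Subgroup.mem_bot] at h1
    have h2 : u = 1 := congrArg Subtype.val h1
    rw [h2, mul_one, one_mul] at huw
    exact huw rfl
  -- the subgroup `Ω_1(Z(U))`
  let V : Subgroup G :=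
    { carrier := {v | v ∈ U ∧ (∀ r ∈ U, v * r = r * v) ∧ v ^ p = 1}
      one_mem' := ⟨one_mem _, fun r _ => by rw [mul_one, one_mul], one_pow _⟩
      mul_mem' := by
        rintro a b ⟨ha, ha2, ha3⟩ ⟨hb, hb2, hb3⟩
        refine ⟨mul_mem ha hb, fun r hr => ?_, ?_⟩
        · rw [mul_assoc, hb2 r hr, ← mul_assoc, ha2 r hr, mul_assoc]
        · have : Commute a b := ha2 b hb
          rw [this.mul_pow, ha3, hb3, one_mul]
      inv_mem' := by
        rintro a ⟨ha, ha2, ha3⟩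
        refine ⟨inv_mem ha, fun r hr => ?_, by rw [inv_pow, ha3, inv_one]⟩
        have h1 := ha2 r hr
        rw [inv_mul_eq_iff_eq_mul, ← mul_assoc, h1]
        group }
  have hwinv := inv_conj (Nat.pow_pos S.hq.pos) hw.1 A.inv
  have hVinv : ∀ v ∈ V, w * v * w⁻¹ ∈ V := by
    rintro v ⟨h1, h2, h3⟩
    refine ⟨A.inv v h1, fun r hr => ?_, conj_pow_one h3⟩
    have h5 := h2 _ (hwinv r hr)
    calc w * v * w⁻¹ * r = w * (v * (w⁻¹ * r * w)) * w⁻¹ := by group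
      _ = w * ((w⁻¹ * r * w) * v) * w⁻¹ := by rw [h5]
      _ = r * (w * v * w⁻¹) := by group
  obtain ⟨V', -, hV'1, -, hV'2, hV'3⟩ := exists_omega S.hp (⊤ : Subgroup U) inferInstance hUne
    fun x _ => Subtype.ext (hUP x x.2)
  have hVne : ∃ e ∈ V, e ≠ 1 := by
    obtain ⟨e, he1⟩ := (Subgroup.ne_bot_iff_exists_ne_one).1 hV'1
    refine ⟨((e : U) : G), ⟨(e : U).2, fun r hr => ?_, ?_⟩, fun h => he1 ?_⟩
    · exact congrArg Subtype.val (hV'2 e e.2 ⟨r, hr⟩ (Subgroup.mem_top _))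
    · exact congrArg Subtype.val (hV'3 e e.2)
    · exact Subtype.ext (Subtype.ext h)
  have hVU : V = U := by
    apply A.min V (fun v hv => hv.1) hVinv
    by_contra hcon
    push Not at hcon
    obtain ⟨e, he, he1⟩ := hVne
    exact c1 S hw A he.1 he1 (hcon e he).symm he.2.1
  have hab : ∀ u ∈ U, ∀ v ∈ U, u * v = v * u := by
    intro u hu v hv
    have : u ∈ V := by rw [hVU]; exact hu
    exact this.2.1 v hv
  have hpow : ∀ u ∈ U, u ^ p = 1 := by
    intro u hu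
    have : u ∈ V := by rw [hVU]; exact hu
    exact this.2.2
  have hfpf : ∀ u ∈ U, u ≠ 1 → w * u ≠ u * w := by
    intro u hu hu1 h
    exact c1 S hw A hu hu1 h.symm (hab u hu)
  refine ⟨hab, hpow, hfpf, fun W hW hWinv hW1 => ?_⟩
  apply A.min W hW hWinv
  obtain ⟨e, he⟩ := (Subgroup.ne_bot_iff_exists_ne_one).1 hW1
  exact ⟨e, e.2, hfpf e (hW e.2) fun h => he (Subtype.ext h)⟩

end Pool.Agent.TH69.Od
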