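import Mathlib
import Pool.Agent.TH69.OdJ

set_option autoImplicit false

/-!
# Groups of exponent `p ^ a * q ^ b`, part K: the case `q ∣ p - 1`
-/

namespace Pool.Agent.TH69.Od

open Pool.Agent.H32BU Pool.Agent.W629 Pool.Agent.TH69.Mtn Pool.Agent.TH69.Pq

/-- an operator with `T ^ p = T` over the prime field has an eigenvector -/
theorem eig_lin {p : ℕ} [Fact p.Prime] {V : Type} [AddCommGroup V] [Module (ZMod p) V]
    [FiniteDimensional (ZMod p) V] [Nontrivial V] (T : Module.End (ZMod p) V) (hT : T ^ p = T) :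
    ∃ (μ : ZMod p) (v : V), v ≠ 0 ∧ T v = μ • v := by
  have hs : ((Polynomial.X ^ p - Polynomial.X : Polynomial (ZMod p))).Splits := by
    have := FiniteField.splits_X_pow_card_sub_X (p := p) (K := ZMod p)
    simpa [ZMod.card] using this
  have hd : minpoly (ZMod p) T ∣ Polynomial.X ^ p - Polynomial.X := by
    apply minpoly.dvd
    simp [hT]
  have hne : (Polynomial.X ^ p - Polynomial.X : Polynomial (ZMod p)) ≠ 0 :=
    FiniteField.X_pow_card_sub_X_ne_zero _ (Fact.out : p.Prime).one_lt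
  have hs2 := hs.of_dvd hne hd
  have hint : IsIntegral (ZMod p) T := Algebra.IsIntegral.isIntegral _
  obtain ⟨μ, hμ⟩ := hs2.exists_eval_eq_zero (minpoly.degree_pos hint).ne'
  have h1 := Module.End.hasEigenvalue_of_isRoot (f := T) (μ := μ) hμ
  obtain ⟨v, hv⟩ := h1.exists_hasEigenvector
  exact ⟨μ, v, hv.2, Module.End.mem_eigenspace_iff.1 hv.1⟩

theorem eig_lin2 {p : ℕ} [Fact p.Prime] {V : Type} [AddCommGroup V] [Module (ZMod p) V] [Finite V]
    [Nontrivial V] (f : V →+ V) (hf : ∀ v, f^[p] v = f v) : ∃ v : V, v ≠ 0 ∧ ∃ l : ℕ, f v = l • v := by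
  have : FiniteDimensional (ZMod p) V := Module.Finite.of_finite
  obtain ⟨μ, v, hv0, hv⟩ := eig_lin (f.toZModLinearMap p) (by
    ext v
    rw [Module.End.pow_apply]
    exact hf v)
  refine ⟨v, hv0, μ.val, ?_⟩
  have h4 : μ • v = μ.val • v := by
    conv_lhs => rw [← ZMod.natCast_zmod_val μ]
    rw [Nat.cast_smul_eq_nsmul]
  rw [h4] at hv
  exact hv

theorem eig_add {p : ℕ} [Fact p.Prime] {V : Type} [AddCommGroup V] [Finite V] [Nontrivial V]
    (hV : ∀ v : V, p • v = 0) (f : V →+ V) (hf : ∀ v, f^[p] v = f v) :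
    ∃ v : V, v ≠ 0 ∧ ∃ l : ℕ, f v = l • v := by
  let _ : Module (ZMod p) V := AddCommGroup.zmodModule hV
  exact eig_lin2 (p := p) f hf

variable {G : Type} [Group G] {p q α β : ℕ}

/-- eigenvectors in elementary abelian groups -/
theorem eig (hp : p.Prime) (hqp : q ∣ p - 1) (U : Subgroup G) [hf : Finite U]
    (hab : ∀ u ∈ U, ∀ v ∈ U, u * v = v * u) (hpow : ∀ u ∈ U, u ^ p = 1) {w : G}
    (hw : w ^ q = 1) (hinv : ∀ u ∈ U, w * u * w⁻¹ ∈ U) (hU : ∃ u ∈ U, u ≠ 1) :
    ∃ v ∈ U, v ≠ 1 ∧ ∃ l : ℕ, w * v * w⁻¹ = v ^ l := by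
  have : Fact p.Prime := ⟨hp⟩
  let f0 : U → U := fun u => ⟨w * u * w⁻¹, hinv u u.2⟩
  have hf0 : ∀ (i : ℕ) (u : U), ((f0^[i] u : U) : G) = w ^ i * u * (w ^ i)⁻¹ := by
    intro i
    induction i with
    | zero => intro u; simp
    | succ i ih =>
      intro u
      rw [Function.iterate_succ_apply']
      change w * ((f0^[i] u : U) : G) * w⁻¹ = _
      rw [ih, pow_succ']
      group
  let inst : CommGroup U :=
    { (inferInstance : Group U) with
      mul_comm := fun a b => Subtype.ext (hab a a.2 b b.2) }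
  have hnt : Nontrivial (Additive U) := by
    obtain ⟨u, hu, hu1⟩ := hU
    exact ⟨⟨Additive.ofMul ⟨u, hu⟩, 0, fun h => hu1 (congrArg Subtype.val h)⟩⟩
  have hfin : Finite (Additive U) := hf
  let f : Additive U →+ Additive U :=
    { toFun := fun u => Additive.ofMul (f0 (Additive.toMul u))
      map_zero' := by
        apply Additive.toMul.injective
        apply Subtype.ext
        change w * 1 * w⁻¹ = 1
        group
      map_add' := by
        intro a b
        apply Additive.toMul.injective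
        apply Subtype.ext
        change w * ((Additive.toMul a : U) * (Additive.toMul b : U)) * w⁻¹ =
          (w * (Additive.toMul a : U) * w⁻¹) * (w * (Additive.toMul b : U) * w⁻¹)
        group }
  have hfk : ∀ (i : ℕ) (u : Additive U), f^[i] u = Additive.ofMul (f0^[i] (Additive.toMul u)) := by
    intro i
    induction i with
    | zero => intro u; rfl
    | succ i ih =>
      intro u
      rw [Function.iterate_succ_apply', Function.iterate_succ_apply', ih]
      rfl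
  have hwp : w ^ p = w := by
    obtain ⟨c, hc⟩ := hqp
    have h2 : p = q * c + 1 := by
      have := hp.pos
      omega
    rw [h2, pow_succ, pow_mul, hw, one_pow, one_mul]
  obtain ⟨v, hv0, l, hl⟩ := eig_add (p := p) (V := Additive U) (by
    intro y
    apply Additive.toMul.injective
    apply Subtype.ext
    change (((Additive.toMul y : U) ^ p : U) : G) = 1
    rw [Subgroup.coe_pow]
    exact hpow _ (Additive.toMul y : U).2) f (by
    intro v
    rw [hfk]
    apply Additive.toMul.injective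
    apply Subtype.ext
    change ((f0^[p] (Additive.toMul v) : U) : G) = w * (Additive.toMul v : U) * w⁻¹
    rw [hf0, hwp])
  refine ⟨(Additive.toMul v : U), (Additive.toMul v : U).2, fun h => hv0 ?_, l, ?_⟩
  · apply Additive.toMul.injective
    exact Subtype.ext h
  · exact congrArg (fun y : Additive U => ((Additive.toMul y : U) : G)) hl

/-- an element of prime order generates -/
theorem pow_gen (hp : p.Prime) {v : G} (hv : v ^ p = 1) {k : ℕ} (hk : v ^ k ≠ 1) :
    ∃ m : ℕ, (v ^ k) ^ m = v := by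
  have hco : Nat.Coprime k p := by
    rw [Nat.coprime_comm, Nat.Prime.coprime_iff_not_dvd hp]
    rintro ⟨c, rfl⟩
    apply hk
    rw [pow_mul, hv, one_pow]
  exact exists_pow_eq_self_of_coprime
    (Nat.Coprime.coprime_dvd_right (orderOf_dvd_of_pow_eq_one hv) hco)

/-- no minimal subgroups if `q ∣ p - 1` -/
theorem no_arr (S : St p q α β G) (hqp : q ∣ p - 1) {w : G} (hw : SS q p β α w)
    (hwq : w ^ q = 1) {U : Subgroup G} (A : Arr (p ^ α * q ^ β) p w U) : False := by
  have := A.fin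
  obtain ⟨h1, h2, h3, h4⟩ := arr_struct S hw A
  have hU : ∃ u ∈ U, u ≠ 1 := by
    obtain ⟨u, hu, huw⟩ := A.nc
    refine ⟨u, hu, ?_⟩
    rintro rfl
    rw [mul_one, one_mul] at huw
    exact huw rfl
  obtain ⟨v, hv, hv1, l, hl⟩ := eig S.hp hqp U h1 h2 hwq A.inv hU
  have hvp := h2 v hv
  have hvP : v ^ p ^ α = 1 := by
    have := A.pow v hv
    rwa [S.qpp] at this
  obtain ⟨g, hg⟩ := nice_exists S hvP hv1
  obtain ⟨m, hm⟩ : ∃ m : ℕ, (w * v * w⁻¹) ^ m = v := by
    rw [hl]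
    apply pow_gen S.hp hvp
    intro h
    rw [h, mul_inv_eq_one] at hl
    apply hv1
    exact (left_eq_mul.1 hl.symm)
  obtain ⟨m1, m2, m3, m4, m5⟩ := gens S.hab (x := v) (k := 1) (g := g) (c := w) hvP (one_pow _)
    (by rw [mul_one, one_mul]) ⟨m, hm⟩ hg.1
  obtain ⟨B, h5, h6, h7⟩ := (hw.2 _ (S.fin _ _) m4).comm_mem S.hab.symm
  have h8 : w * v * w⁻¹ * v⁻¹ ∈ B := by
    apply h7 v m1
    have h9 := A.pow _ (U.mul_mem (A.inv v hv) (U.inv_mem hv))
    rwa [S.qpp] at h9
  have h9 : w * v * w⁻¹ * v⁻¹ = v ^ (l + (p - 1)) := by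
    rw [hl, pow_add]
    congr 1
    rw [inv_eq_iff_mul_eq_one, ← pow_succ', Nat.sub_add_cancel S.hp.one_lt.le, hvp]
  have h10 : v ^ (l + (p - 1)) ≠ 1 := by
    rw [← h9]
    intro h
    rw [mul_inv_eq_one, mul_inv_eq_iff_eq_mul] at h
    exact h3 v hv hv1 h
  obtain ⟨m', hm'⟩ := pow_gen S.hp hvp h10
  have h11 : v ∈ B := by
    rw [← hm', ← h9]
    exact pow_mem h8 m'
  exact nice_false hg h6 (h5 g m3) h11

/-- if `w` acts trivially on the finite `p`-subgroups, then `w` is in the radical -/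
theorem rad_of_no_arr (S : St p q α β G) {w : G} (hw : SS q p β α w)
    (hno : ∀ U : Subgroup G, ¬ Arr (p ^ α * q ^ β) p w U) : w = 1 := by
  by_contra hw1
  obtain ⟨t, ht, hwt⟩ : ∃ t : G, t ^ q ^ β = 1 ∧ (w * t) ^ q ^ β ≠ 1 := by
    by_contra hcon
    push Not at hcon
    have h1 : w ∈ Rad (q ^ β) G := ⟨hw.1, hcon⟩
    rw [S.rq] at h1
    exact hw1 h1
  have hwE : w ∈ c2 w t := Subgroup.subset_closure (by simp)
  have htE : t ∈ c2 w t := Subgroup.subset_closure (by simp)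
  obtain ⟨E, hE⟩ : ∃ E, E = c2 w t := ⟨_, rfl⟩
  have hfin : Finite E := by rw [hE]; exact S.fin w t
  rw [← hE] at hwE htE
  obtain ⟨A, B, h1, h2, h3, h4, h5⟩ := hw.2 E hfin hwE
  have hcA : ∀ a ∈ A, a ∈ E → w * a = a * w := by
    intro a ha haE
    by_contra hcon
    have hf' : Finite (A ⊓ E : Subgroup G) :=
      Finite.of_injective (Subgroup.inclusion inf_le_right) (Subgroup.inclusion_injective _)
    obtain ⟨U, -, hU⟩ := arr_exists (n := p ^ α * q ^ β) (s := p) (h := w) (A ⊓ E) hf'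
      (fun u hu => by rw [S.qpp]; exact h3 u hu.1)
      (fun u hu => ⟨h1 w hwE u hu.1, E.mul_mem (E.mul_mem hwE hu.2) (E.inv_mem hwE)⟩)
      ⟨a, ⟨ha, haE⟩, hcon⟩
    exact hno U hU
  let C : Subgroup E :=
    { carrier := {x | (x : G) ∈ B ∧ ∀ a ∈ A, a ∈ E → (x : G) * a = a * x}
      one_mem' := ⟨one_mem _, fun v _ _ => by rw [Subgroup.coe_one, mul_one, one_mul]⟩
      mul_mem' := by
        rintro x y ⟨hx, hx2⟩ ⟨hy, hy2⟩
        refine ⟨mul_mem hx hy, fun v hv hvE => ?_⟩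
        rw [Subgroup.coe_mul, mul_assoc, hy2 v hv hvE, ← mul_assoc, hx2 v hv hvE, mul_assoc]
      inv_mem' := by
        rintro x ⟨hx, hx2⟩
        refine ⟨inv_mem hx, fun v hv hvE => ?_⟩
        have h1 := hx2 v hv hvE
        rw [Subgroup.coe_inv, inv_mul_eq_iff_eq_mul, ← mul_assoc, h1]
        group }
  have hCn : C.Normal := by
    refine ⟨?_⟩
    rintro x ⟨hx, hx2⟩ g
    refine ⟨h2 g g.2 x hx, fun v hv hvE => ?_⟩
    have h7 : (g : G)⁻¹ * v * g ∈ A := by
      have := h1 (g : G)⁻¹ (inv_mem g.2) v hv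
      rwa [inv_inv] at this
    have h9 : (g : G)⁻¹ * v * g ∈ E := E.mul_mem (E.mul_mem (E.inv_mem g.2) hvE) g.2
    have h8 := hx2 _ h7 h9
    change (g : G) * x * (g : G)⁻¹ * v = v * ((g : G) * x * (g : G)⁻¹)
    calc (g : G) * x * (g : G)⁻¹ * v = g * (x * ((g : G)⁻¹ * v * g)) * (g : G)⁻¹ := by group
      _ = g * (((g : G)⁻¹ * v * g) * x) * (g : G)⁻¹ := by rw [h8]
      _ = v * (g * x * (g : G)⁻¹) := by group
  have h6 := nilp S.hq S.hp S.hpq.symm (exp_sub S.symm.exp E) C hCn (by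
    intro x hx y hy _ hyp
    have h10 : (y : G) ∈ A := mem_of_pow S.hab (congrArg Subtype.val hyp) (h4 y hy.1)
    exact Subtype.ext (hx.2 y h10 y.2)) (x := ⟨w, hwE⟩) ⟨h5, hcA⟩ (Subtype.ext hw.1)
  have h7 := rad_mul h6 (z := ⟨t, htE⟩) (Subtype.ext ht)
  exact hwt (congrArg Subtype.val h7)

end Pool.Agent.TH69.Od
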