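import Mathlib
import Pool.Agent.TH69.OdK

set_option autoImplicit false

/-!
# Groups of exponent `p ^ a * q ^ b`, part L: the case `p ∣ q - 1`
-/

namespace Pool.Agent.TH69.Od

open Pool.Agent.H32BU Pool.Agent.W629 Pool.Agent.TH69.Mtn Pool.Agent.TH69.Pq

variable {G : Type} [Group G] {p q α β : ℕ}

/-- `p`-groups -/
theorem St.zero (S : St p q 0 β G) (x : G) : x = 1 := by
  have h : ∀ y : G, y ^ q ^ β = 1 := by
    intro y
    have := S.exp y
    rwa [pow_zero, one_mul] at this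
  have h1 : x ∈ Rad (q ^ β) G := ⟨h x, fun z _ => h _⟩
  rw [S.rq] at h1
  exact h1

/-- lowering the exponent -/
theorem St.drop (S : St p q (α + 1) β G) (h : ∀ x : G, x ^ p ^ (α + 1) = 1 → x ^ p ^ α = 1) :
    St p q α β G := by
  refine ⟨S.hp, S.hq, S.hpq, ?_, S.fin, ?_, S.rq⟩
  · intro x
    have h1 : (x ^ q ^ β) ^ p ^ (α + 1) = 1 := by
      rw [← pow_mul, mul_comm, S.exp]
    have h2 := h _ h1
    rwa [← pow_mul, mul_comm] at h2
  · rw [eq_bot_iff, ← S.rp]
    rintro x ⟨h1, h2⟩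
    refine ⟨by rw [pow_succ, pow_mul, h1, one_pow], fun z hz => ?_⟩
    rw [pow_succ, pow_mul, h2 z (h z hz), one_pow]

/-- if there are no nontrivial elements of order `p` in `SS`, the exponent can be lowered -/
theorem St.drop' (S : St p q (α + 1) β G)
    (hex : ∀ μ, 1 ≤ μ → μ ≤ α + 1 → ∀ r, 1 ≤ r → q ^ r ≠ p ^ μ - 1)
    (h : ∀ z : G, SS p q (α + 1) β z → z ^ p = 1 → z = 1) : St p q α β G := by
  refine S.drop fun x hx => ?_
  have h1 := ss_of_max S (Nat.le_add_left 1 α) hex hx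
  rw [Nat.add_sub_cancel] at h1
  refine h _ h1 ?_
  rw [← pow_mul, ← pow_succ, hx]

/-- the case `p ∣ q - 1` -/
theorem triv_R (hpq1 : p ∣ q - 1) : ∀ α : ℕ,
    (∀ μ, 1 ≤ μ → μ ≤ α → ∀ r, 1 ≤ r → q ^ r ≠ p ^ μ - 1) → ∀ {G : Type} [Group G],
    St p q α β G → ∀ x : G, x = 1 := by
  intro α
  induction α with
  | zero => intro _ G _ S; exact S.zero
  | succ α ih =>
    intro hex G _ S
    refine ih (fun μ h1 h2 => hex μ h1 (by omega)) (S.drop' hex ?_)
    intro z hz hzp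
    exact rad_of_no_arr S.symm hz fun U A => no_arr S.symm hpq1 hz hzp A

end Pool.Agent.TH69.Od
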