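import Mathlib
import Pool.Agent.TH69.OdL

set_option autoImplicit false

/-!
# Groups of exponent `p ^ a * q ^ b`, part M: two-generator subgroups meeting a minimal subgroup
-/

namespace Pool.Agent.TH69.Od

open Pool.Agent.H32BU Pool.Agent.W629 Pool.Agent.TH69.Mtn Pool.Agent.TH69.Pq

variable {G : Type} [Group G]

/-- functions of the form `y ↦ κ y * g` -/
structure KK (w : G) (U : Subgroup G) (φ : G → G) (g : G) (κ : G → G) : Prop where
  eq : ∀ y ∈ U, φ y = κ y * g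
  mem : ∀ y ∈ U, κ y ∈ U
  mul : ∀ y ∈ U, ∀ y' ∈ U, κ (y * y') = κ y * κ y'
  conj : ∀ y ∈ U, κ (w * y * w⁻¹) = w * κ y * w⁻¹
  act : ∃ i : ℤ, ∀ u ∈ U, g * u * g⁻¹ = w ^ i * u * (w ^ i)⁻¹

theorem KK.one' {w : G} {U : Subgroup G} {φ : G → G} {g : G} {κ : G → G} (h : KK w U φ g κ) :
    κ 1 = 1 := by
  have h1 := h.mul 1 (one_mem _) 1 (one_mem _)
  rw [mul_one] at h1
  exact (left_eq_mul.1 h1)

theorem bad_aux {w h : G} {U : Subgroup G} (hhU : ∀ u ∈ U, h * u = u * h)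
    (hwU : ∀ u ∈ U, w * u * w⁻¹ ∈ U) (hwU' : ∀ u ∈ U, w⁻¹ * u * w ∈ U)
    (hab : ∀ u ∈ U, ∀ v ∈ U, u * v = v * u) {φ : G → G}
    (hφ : φ ∈ Subgroup.closure {(fun _ : G => w), (fun y : G => h * y)}) :
    ∃ g κ, KK w U φ g κ := by
  have hn : w ∈ Subgroup.normalizer (U : Set G) := by
    rw [Subgroup.mem_normalizer_iff]
    intro x
    refine ⟨fun h => hwU x h, fun h => ?_⟩
    have := hwU' _ h
    have e : w⁻¹ * (w * x * w⁻¹) * w = x := by group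
    rwa [e] at this
  have hz : ∀ (i : ℤ), ∀ u ∈ U, w ^ i * u * (w ^ i)⁻¹ ∈ U := fun i u hu =>
    ((Subgroup.mem_normalizer_iff.1 (zpow_mem hn i)) u).1 hu
  induction hφ using Subgroup.closure_induction with
  | mem φ hφ =>
    rcases hφ with rfl | hφ
    · refine ⟨w, fun _ => 1, fun y _ => (one_mul _).symm, fun y _ => one_mem _,
        fun y _ y' _ => (one_mul _).symm, fun y _ => ?_, 1, fun u _ => ?_⟩
      · group
      · rw [zpow_one]
    · rw [Set.mem_singleton_iff.1 hφ]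
      refine ⟨h, fun y => y, fun y hy => hhU y hy, fun y hy => hy, fun y _ y' _ => rfl,
        fun y _ => rfl, 0, fun u hu => ?_⟩
      rw [hhU u hu, zpow_zero]
      group
  | one =>
    refine ⟨1, fun _ => 1, fun y _ => (one_mul _).symm, fun y _ => one_mem _,
        fun y _ y' _ => (one_mul _).symm, fun y _ => ?_, 0, fun u _ => ?_⟩
    · group
    · rw [zpow_zero]
  | mul φ ψ _ _ ih1 ih2 =>
    obtain ⟨g1, k1, h1⟩ := ih1
    obtain ⟨g2, k2, h2⟩ := ih2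
    obtain ⟨i, hi⟩ := h1.act
    obtain ⟨j, hj⟩ := h2.act
    refine ⟨g1 * g2, fun y => k1 y * (w ^ i * k2 y * (w ^ i)⁻¹), ?_, ?_, ?_, ?_, i + j, ?_⟩
    · intro y hy
      change φ y * ψ y = _
      rw [h1.eq y hy, h2.eq y hy]
      have h3 := hi _ (h2.mem y hy)
      calc k1 y * g1 * (k2 y * g2) = k1 y * (g1 * k2 y * g1⁻¹) * (g1 * g2) := by group
        _ = k1 y * (w ^ i * k2 y * (w ^ i)⁻¹) * (g1 * g2) := by rw [h3]
    · intro y hy
      exact mul_mem (h1.mem y hy) (hz i _ (h2.mem y hy))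
    · intro y hy y' hy'
      rw [h1.mul y hy y' hy', h2.mul y hy y' hy']
      have h3 := hab _ (hz i _ (h2.mem y hy)) _ (h1.mem y' hy')
      calc k1 y * k1 y' * (w ^ i * (k2 y * k2 y') * (w ^ i)⁻¹) =
            k1 y * (k1 y' * (w ^ i * k2 y * (w ^ i)⁻¹)) * (w ^ i * k2 y' * (w ^ i)⁻¹) := by group
        _ = k1 y * ((w ^ i * k2 y * (w ^ i)⁻¹) * k1 y') * (w ^ i * k2 y' * (w ^ i)⁻¹) := by
            rw [← h3]
        _ = _ := by group
    · intro y hy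
      rw [h1.conj y hy, h2.conj y hy]
      have e : w ^ i * (w * k2 y * w⁻¹) * (w ^ i)⁻¹ = w * (w ^ i * k2 y * (w ^ i)⁻¹) * w⁻¹ := by
        group
      rw [e]
      group
    · intro u hu
      have e : g1 * g2 * u * (g1 * g2)⁻¹ = g1 * (g2 * u * g2⁻¹) * g1⁻¹ := by group
      rw [e, hj u hu, hi _ (hz j u hu)]
      group
  | inv φ _ ih =>
    obtain ⟨g1, k1, h1⟩ := ih
    obtain ⟨i, hi⟩ := h1.act
    have hi' : ∀ u ∈ U, g1⁻¹ * u * g1 = w ^ (-i) * u * (w ^ (-i))⁻¹ := by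
      intro u hu
      have h3 := hi _ (hz (-i) u hu)
      have h4 : w ^ i * (w ^ (-i) * u * (w ^ (-i))⁻¹) * (w ^ i)⁻¹ = u := by group
      rw [h4] at h3
      calc g1⁻¹ * u * g1 = g1⁻¹ * (g1 * (w ^ (-i) * u * (w ^ (-i))⁻¹) * g1⁻¹) * g1 := by rw [h3]
        _ = _ := by group
    refine ⟨g1⁻¹, fun y => w ^ (-i) * (k1 y)⁻¹ * (w ^ (-i))⁻¹, ?_, ?_, ?_, ?_, -i, ?_⟩
    · intro y hy
      change (φ y)⁻¹ = _
      rw [h1.eq y hy]
      have h3 := hi' _ (inv_mem (h1.mem y hy))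
      calc (k1 y * g1)⁻¹ = g1⁻¹ * (k1 y)⁻¹ * g1 * g1⁻¹ := by group
        _ = _ := by rw [h3]
    · intro y hy
      exact hz _ _ (inv_mem (h1.mem y hy))
    · intro y hy y' hy'
      rw [h1.mul y hy y' hy', hab _ (h1.mem y hy) _ (h1.mem y' hy')]
      group
    · intro y hy
      rw [h1.conj y hy]
      group
    · intro u hu
      rw [inv_inv]
      exact hi' u hu

/-- all but one of the subgroups `⟨w, z x⟩` contain `U` -/
theorem bad {z w : G} {U : Subgroup G} (hzU : ∀ u ∈ U, z * u = u * z)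
    (hwU : ∀ u ∈ U, w * u * w⁻¹ ∈ U) (hwU' : ∀ u ∈ U, w⁻¹ * u * w ∈ U)
    (hab : ∀ u ∈ U, ∀ v ∈ U, u * v = v * u)
    (hirr : ∀ V : Subgroup G, V ≤ U → (∀ u ∈ V, w * u * w⁻¹ ∈ V) → V ≠ ⊥ → V = U)
    (hUF : U ≤ c2 w z) : ∃ x0 ∈ U, ∀ x ∈ U, (x ≠ x0 ∨ x = 1) → U ≤ c2 w (z * x) := by
  classical
  by_cases hall : ∀ x ∈ U, U ≤ c2 w (z * x)
  · exact ⟨1, one_mem _, fun x hx _ => hall x hx⟩
  push Not at hall
  obtain ⟨x0, hx0, hx0'⟩ := hall
  refine ⟨x0, hx0, fun x hx hxx => ?_⟩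
  rcases hxx with hxx | rfl
  swap
  · rwa [mul_one]
  by_contra hxU
  have hmeet : ∀ x ∈ U, ¬ U ≤ c2 w (z * x) → U ⊓ c2 w (z * x) = ⊥ := by
    intro x hx h
    by_contra hne
    have h1 := hirr (U ⊓ c2 w (z * x)) inf_le_left (by
      intro u hu
      have hw : w ∈ c2 w (z * x) := Subgroup.subset_closure (by simp)
      exact ⟨hwU u hu.1, (c2 w (z * x)).mul_mem ((c2 w (z * x)).mul_mem hw hu.2)
        ((c2 w (z * x)).inv_mem hw)⟩) hne
    apply h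
    rw [← h1]
    exact inf_le_right
  obtain ⟨h, hh⟩ : ∃ h, h = z * x0 := ⟨_, rfl⟩
  have hhU : ∀ u ∈ U, h * u = u * h := by
    intro u hu
    rw [hh, mul_assoc, hab x0 hx0 u hu, ← mul_assoc, hzU u hu, mul_assoc]
  have hm0 := hmeet x0 hx0 hx0'
  rw [← hh] at hm0
  obtain ⟨Γ, hΓ⟩ : ∃ Γ : Subgroup (G → G),
    Γ = Subgroup.closure {(fun _ : G => w), (fun y : G => h * y)} := ⟨_, rfl⟩
  have hev : ∀ y : G, Γ.map (Pi.evalMonoidHom (fun _ : G => G) y) = c2 w (h * y) := by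
    intro y
    rw [hΓ, MonoidHom.map_closure, Set.image_pair]
    rfl
  have haux : ∀ φ ∈ Γ, ∃ g κ, KK w U φ g κ := by
    intro φ hφ
    rw [hΓ] at hφ
    exact bad_aux hhU hwU hwU' hab hφ
  have hev1 : ∀ φ ∈ Γ, ∀ y : G, φ y ∈ c2 w (h * y) := by
    intro φ hφ y
    rw [← hev y]
    exact ⟨φ, hφ, rfl⟩
  let Y : Subgroup G :=
    { carrier := {y | y ∈ U ∧ ∀ φ ∈ Γ, φ 1 = 1 → φ y = 1}
      one_mem' := ⟨one_mem _, fun φ _ h => h⟩
      mul_mem' := by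
        rintro y y' ⟨hy, hy2⟩ ⟨hy', hy2'⟩
        refine ⟨mul_mem hy hy', fun φ hφ h1 => ?_⟩
        obtain ⟨g, κ, hk⟩ := haux φ hφ
        have h2 := hk.eq 1 (one_mem _)
        rw [h1, hk.one', one_mul] at h2
        have h3 := hk.eq y hy
        have h4 := hk.eq y' hy'
        rw [hy2 φ hφ h1, ← h2, mul_one] at h3
        rw [hy2' φ hφ h1, ← h2, mul_one] at h4
        rw [hk.eq _ (mul_mem hy hy'), ← h2, mul_one, hk.mul y hy y' hy', ← h3, ← h4, mul_one]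
      inv_mem' := by
        rintro y ⟨hy, hy2⟩
        refine ⟨inv_mem hy, fun φ hφ h1 => ?_⟩
        obtain ⟨g, κ, hk⟩ := haux φ hφ
        have h2 := hk.eq 1 (one_mem _)
        rw [h1, hk.one', one_mul] at h2
        have h3 := hk.eq y hy
        rw [hy2 φ hφ h1, ← h2, mul_one] at h3
        have h4 := hk.mul y hy y⁻¹ (inv_mem hy)
        rw [mul_inv_cancel, hk.one', ← h3, one_mul] at h4
        rw [hk.eq _ (inv_mem hy), ← h2, mul_one, ← h4] }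
  have hYconj : ∀ y ∈ Y, w * y * w⁻¹ ∈ Y := by
    rintro y ⟨hy, hy2⟩
    refine ⟨hwU y hy, fun φ hφ h1 => ?_⟩
    obtain ⟨g, κ, hk⟩ := haux φ hφ
    have h2 := hk.eq 1 (one_mem _)
    rw [h1, hk.one', one_mul] at h2
    have h3 := hk.eq y hy
    rw [hy2 φ hφ h1, ← h2, mul_one] at h3
    rw [hk.eq _ (hwU y hy), ← h2, mul_one, hk.conj y hy, ← h3]
    group
  -- characterisation of `Y`
  have hY1 : ∀ y ∈ U, U ⊓ c2 w (h * y) = ⊥ → y ∈ Y := by
    intro y hy hm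
    refine ⟨hy, fun φ hφ h1 => ?_⟩
    obtain ⟨g, κ, hk⟩ := haux φ hφ
    have h2 := hk.eq 1 (one_mem _)
    rw [h1, hk.one', one_mul] at h2
    have h3 : φ y ∈ U ⊓ c2 w (h * y) := by
      refine ⟨?_, hev1 φ hφ y⟩
      rw [hk.eq y hy, ← h2, mul_one]
      exact hk.mem y hy
    rw [hm, Subgroup.mem_bot] at h3
    exact h3
  have hY2 : ∀ y ∈ Y, U ⊓ c2 w (h * y) = ⊥ := by
    rintro y ⟨hy, hy2⟩
    rw [eq_bot_iff]
    rintro x ⟨hx1, hx2⟩
    rw [SetLike.mem_coe, ← hev y] at hx2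
    obtain ⟨φ, hφ, rfl⟩ := hx2
    change φ y ∈ U at hx1
    change φ y = 1
    obtain ⟨g, κ, hk⟩ := haux φ hφ
    have h2 := hk.eq 1 (one_mem _)
    rw [hk.one', one_mul] at h2
    have h3 : g ∈ U := by
      rw [hk.eq y hy] at hx1
      have := mul_mem (inv_mem (hk.mem y hy)) hx1
      rwa [inv_mul_cancel_left] at this
    have h4 : g ∈ U ⊓ c2 w h := by
      refine ⟨h3, ?_⟩
      have := hev1 φ hφ 1
      rw [mul_one, h2] at this
      exact this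
    rw [hm0, Subgroup.mem_bot] at h4
    apply hy2 φ hφ
    rw [h2, h4]
  by_cases hYb : Y = ⊥
  · have h1 : x0⁻¹ * x ∈ Y := by
      apply hY1 _ (mul_mem (inv_mem hx0) hx)
      rw [hh, mul_assoc, mul_inv_cancel_left]
      exact hmeet x hx hxU
    rw [hYb, Subgroup.mem_bot, inv_mul_eq_one] at h1
    exact hxx h1.symm
  · have h1 := hirr Y (fun y hy => hy.1) hYconj hYb
    have h2 : x0⁻¹ ∈ Y := by
      rw [h1]
      exact inv_mem hx0
    have h3 := hY2 _ h2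
    rw [hh, mul_assoc, mul_inv_cancel, mul_one, inf_eq_left.2 hUF] at h3
    apply hx0'
    rw [h3]
    exact bot_le

end Pool.Agent.TH69.Od
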