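import Mathlib
import Pool.Agent.TH69.OdM

set_option autoImplicit false

/-!
# Groups of exponent `p ^ a * q ^ b`, part N: coprime action and the subgroups `[Q, z]`
-/

namespace Pool.Agent.TH69.Od

open Pool.Agent.H32BU Pool.Agent.W629 Pool.Agent.TH69.Mtn Pool.Agent.TH69.Pq

variable {G : Type} [Group G] {p q α β : ℕ}

/-- fixed points in cosets -/
theorem fixpt {l s k m : ℕ} (hl : l.Prime) (hs : s.Prime) (hls : l ≠ s) {g x : G}
    (hgs : g ^ s ^ k = 1) (D : Subgroup G) (hDf : Finite D) (hD : ∀ d ∈ D, d ^ l ^ m = 1)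
    (hgD : ∀ d ∈ D, g * d * g⁻¹ ∈ D) (hx : x⁻¹ * (g * x * g⁻¹) ∈ D) :
    ∃ d ∈ D, g * (x * d) = (x * d) * g := by
  classical
  have : Fact s.Prime := ⟨hs⟩
  have : Fact l.Prime := ⟨hl⟩
  let f : Function.End D := fun d => ⟨x⁻¹ * (g * (x * d) * g⁻¹), by
    have e : x⁻¹ * (g * (x * d) * g⁻¹) = (x⁻¹ * (g * x * g⁻¹)) * (g * d * g⁻¹) := by group
    rw [e]
    exact mul_mem hx (hgD d d.2)⟩
  have hfk : ∀ (j : ℕ) (d : D), ((f ^ j) d : G) = x⁻¹ * (g ^ j * (x * d) * (g ^ j)⁻¹) := by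
    intro j
    induction j with
    | zero =>
      intro d
      change (d : G) = _
      rw [pow_zero]
      group
    | succ j ih =>
      intro d
      rw [pow_succ']
      change x⁻¹ * (g * (x * ((f ^ j) d : G)) * g⁻¹) = _
      rw [ih, pow_succ']
      group
  have hfs : f ^ s ^ k = 1 := by
    funext d
    apply Subtype.ext
    rw [hfk, hgs]
    change x⁻¹ * (1 * (x * d) * 1⁻¹) = d
    group
  have := Fintype.ofFinite D
  have hcard := Equiv.Perm.card_fixedPoints_modEq hfs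
  have hDpg : IsPGroup l D := fun y => ⟨m, Subtype.ext (by
    rw [Subgroup.coe_pow, Subgroup.coe_one]
    exact hD y y.2)⟩
  obtain ⟨d, hd⟩ : ∃ d : D, f d = d := by
    by_contra hcon
    push Not at hcon
    have h0 : Fintype.card (Function.fixedPoints f) = 0 := by
      rw [Fintype.card_eq_zero_iff]
      exact ⟨fun d => hcon d.1 d.2⟩
    rw [h0] at hcard
    have h1 : s ∣ Fintype.card D := (Nat.modEq_zero_iff_dvd).1 hcard
    obtain ⟨k, hk⟩ := (IsPGroup.iff_card).1 hDpg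
    rw [← Nat.card_eq_fintype_card, hk] at h1
    have h2 := hs.dvd_of_dvd_pow h1
    exact hls ((Nat.prime_dvd_prime_iff_eq hs hl).1 h2).symm
  have hd' : x⁻¹ * (g * (x * d) * g⁻¹) = d := congrArg Subtype.val hd
  refine ⟨d, d.2, ?_⟩
  rw [inv_mul_eq_iff_eq_mul, mul_inv_eq_iff_eq_mul] at hd'
  exact hd'

/-- the subgroup generated by the commutators `[z, x]` -/
def CZ (z : G) (D : Subgroup G) : Subgroup G :=
  Subgroup.closure {c | ∃ x ∈ D, c = z * x * z⁻¹ * x⁻¹}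

theorem cz_mem {z : G} {D : Subgroup G} {x : G} (hx : x ∈ D) : z * x * z⁻¹ * x⁻¹ ∈ CZ z D :=
  Subgroup.subset_closure ⟨x, hx, rfl⟩

theorem cz_le {z : G} {D : Subgroup G} (hzD : ∀ d ∈ D, z * d * z⁻¹ ∈ D) : CZ z D ≤ D := by
  unfold CZ
  rw [Subgroup.closure_le]
  rintro _ ⟨x, hx, rfl⟩
  exact D.mul_mem (hzD x hx) (D.inv_mem hx)

theorem closure_conj {s : Set G} {g : G} (h : ∀ x ∈ s, g * x * g⁻¹ ∈ Subgroup.closure s) :
    ∀ x ∈ Subgroup.closure s, g * x * g⁻¹ ∈ Subgroup.closure s := by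
  intro x hx
  induction hx using Subgroup.closure_induction with
  | mem x hx => exact h x hx
  | one => rw [mul_one, mul_inv_cancel]; exact one_mem _
  | mul x y _ _ hx hy =>
    have e : g * (x * y) * g⁻¹ = (g * x * g⁻¹) * (g * y * g⁻¹) := by group
    rw [e]
    exact mul_mem hx hy
  | inv x _ hx =>
    have e : g * x⁻¹ * g⁻¹ = (g * x * g⁻¹)⁻¹ := by group
    rw [e]
    exact inv_mem hx

theorem cz_z {z : G} {D : Subgroup G} (hzD : ∀ d ∈ D, z * d * z⁻¹ ∈ D) :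
    ∀ x ∈ CZ z D, z * x * z⁻¹ ∈ CZ z D := by
  apply closure_conj
  rintro _ ⟨x, hx, rfl⟩
  have e : z * (z * x * z⁻¹ * x⁻¹) * z⁻¹ = z * (z * x * z⁻¹) * z⁻¹ * (z * x * z⁻¹)⁻¹ := by group
  rw [e]
  exact cz_mem (hzD x hx)

theorem cz_normal {z : G} {D : Subgroup G} {y : G} (hy : y ∈ D) :
    ∀ x ∈ CZ z D, y * x * y⁻¹ ∈ CZ z D := by
  apply closure_conj
  rintro _ ⟨x, hx, rfl⟩
  have e : y * (z * x * z⁻¹ * x⁻¹) * y⁻¹ =
      (z * y * z⁻¹ * y⁻¹)⁻¹ * (z * (y * x) * z⁻¹ * (y * x)⁻¹) := by group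
  rw [e]
  exact mul_mem (inv_mem (cz_mem hy)) (cz_mem (mul_mem hy hx))

/-- commutators with `z` are commutators with elements of `[D, z]` -/
theorem cc {l s k m : ℕ} (hl : l.Prime) (hs : s.Prime) (hls : l ≠ s) {z : G}
    (hz : z ^ s ^ k = 1) (D : Subgroup G) (hDf : Finite D) (hD : ∀ d ∈ D, d ^ l ^ m = 1)
    (hzD : ∀ d ∈ D, z * d * z⁻¹ ∈ D) {x : G} (hx : x ∈ D) :
    ∃ y ∈ CZ z D, z * x * z⁻¹ * x⁻¹ = z * y * z⁻¹ * y⁻¹ := by
  have hle := cz_le hzD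
  have hf : Finite (CZ z D) := Finite.of_injective (Subgroup.inclusion hle)
    (Subgroup.inclusion_injective _)
  obtain ⟨d, hd, hdz⟩ := fixpt hl hs hls hz (CZ z D) hf (fun d hd => hD d (hle hd)) (cz_z hzD)
    (x := x) (by
      have h1 := cz_normal (z := z) (inv_mem hx) _ (cz_mem (z := z) hx)
      have e : x⁻¹ * (z * x * z⁻¹ * x⁻¹) * x⁻¹⁻¹ = x⁻¹ * (z * x * z⁻¹) := by group
      rwa [e] at h1)
  refine ⟨(x * d) * d⁻¹ * (x * d)⁻¹, cz_normal (mul_mem hx (hle hd)) _ (inv_mem hd), ?_⟩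
  obtain ⟨f, hf⟩ : ∃ f, f = x * d := ⟨_, rfl⟩
  have hx' : x = f * d⁻¹ := by rw [hf]; group
  rw [← hf] at hdz ⊢
  rw [hx']
  have h2 : f⁻¹ * z⁻¹ = z⁻¹ * f⁻¹ := by
    rw [← mul_inv_rev, hdz, mul_inv_rev]
  calc z * (f * d⁻¹) * z⁻¹ * (f * d⁻¹)⁻¹ = (z * f) * d⁻¹ * z⁻¹ * d * f⁻¹ := by group
    _ = (z * f) * d⁻¹ * (z⁻¹ * f⁻¹) * f * d * f⁻¹ := by group
    _ = (z * f) * d⁻¹ * (f⁻¹ * z⁻¹) * f * d * f⁻¹ := by rw [h2]
    _ = z * (f * d⁻¹ * f⁻¹) * z⁻¹ * (f * d⁻¹ * f⁻¹)⁻¹ := by group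

/-- coprime action modulo a subgroup -/
theorem comm_mod {P Q : ℕ} (hab : Nat.Coprime P Q) {M : Subgroup G} {z x : G}
    (hz : z ∈ Subgroup.normalizer (M : Set G)) (hx : x ∈ Subgroup.normalizer (M : Set G))
    (hzP : z ^ P = 1) (hc : (z * x * z⁻¹ * x⁻¹) ^ Q = 1)
    (h : z * (z * x * z⁻¹ * x⁻¹) * z⁻¹ * (z * x * z⁻¹ * x⁻¹)⁻¹ ∈ M) :
    z * x * z⁻¹ * x⁻¹ ∈ M := by
  let N := Subgroup.normalizer (M : Set G)
  let M' : Subgroup N := M.subgroupOf N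
  have hMn : M'.Normal := by
    refine ⟨fun y hy g => ?_⟩
    exact ((Subgroup.mem_normalizer_iff.1 g.2) y).1 hy
  let z' : N ⧸ M' := ((⟨z, hz⟩ : N) : N ⧸ M')
  let x' : N ⧸ M' := ((⟨x, hx⟩ : N) : N ⧸ M')
  let c : N := ⟨z, hz⟩ * ⟨x, hx⟩ * ⟨z, hz⟩⁻¹ * ⟨x, hx⟩⁻¹
  have hc' : ((c : N) : N ⧸ M') = z' * x' * z'⁻¹ * x'⁻¹ := rfl
  have h1 : z' * (c : N ⧸ M') * z'⁻¹ * (c : N ⧸ M')⁻¹ = 1 := by
    have : (((⟨z, hz⟩ : N) * c * (⟨z, hz⟩ : N)⁻¹ * c⁻¹ : N) : N ⧸ M') = 1 := by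
      rw [QuotientGroup.eq_one_iff]
      exact h
    exact this
  have h2 : Commute z' (c : N ⧸ M') := by
    rw [mul_inv_eq_one, mul_inv_eq_iff_eq_mul] at h1
    exact h1
  have h3 := comm_pow hc'.symm h2 P
  have h4 : z' ^ P = 1 := by
    have : (⟨z, hz⟩ : N) ^ P = 1 := Subtype.ext hzP
    change (((⟨z, hz⟩ : N) ^ P : N) : N ⧸ M') = 1
    rw [this]
    rfl
  rw [h4] at h3
  have h5 : (c : N ⧸ M') ^ P = 1 := by rw [← h3]; group
  have h6 : (c : N ⧸ M') ^ Q = 1 := by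
    have : c ^ Q = 1 := Subtype.ext hc
    rw [← QuotientGroup.mk_pow, this]
    rfl
  have h7 := W629.eq_one_of_coprime hab h5 h6
  rw [QuotientGroup.eq_one_iff] at h7
  exact h7

/-- proper subgroups of finite `l`-groups are contained in proper normal subgroups -/
theorem nc_ne {l m : ℕ} (hl : l.Prime) (D : Subgroup G) (hDf : Finite D)
    (hD : ∀ d ∈ D, d ^ l ^ m = 1) {C : Subgroup G} (hCD : C ≤ D) (hC : C ≠ D) :
    ∃ K ≤ D, K ≠ D ∧ C ≤ K ∧ ∀ x ∈ D, ∀ y ∈ K, x * y * x⁻¹ ∈ K := by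
  have : Fact l.Prime := ⟨hl⟩
  have hDpg : IsPGroup l D := fun y => ⟨m, Subtype.ext (by
    rw [Subgroup.coe_pow, Subgroup.coe_one]
    exact hD y y.2)⟩
  have hnil : Group.IsNilpotent D := hDpg.isNilpotent
  have hC' : C.subgroupOf D ≠ ⊤ := by
    intro h
    apply hC
    apply le_antisymm hCD
    intro x hx
    have : (⟨x, hx⟩ : D) ∈ C.subgroupOf D := by rw [h]; exact Subgroup.mem_top _
    exact this
  obtain ⟨K, hK, hCK⟩ := (eq_top_or_exists_le_coatom (C.subgroupOf D)).resolve_left hC'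
  have hKn : K.Normal := Subgroup.NormalizerCondition.normal_of_coatom K
    Group.normalizerCondition_of_isNilpotent hK
  refine ⟨K.map D.subtype, Subgroup.map_subtype_le K, ?_, ?_, ?_⟩
  · intro h
    apply hK.1
    rw [eq_top_iff]
    intro x _
    have h1 : (x : G) ∈ K.map D.subtype := by rw [h]; exact x.2
    obtain ⟨y, hy, e⟩ := h1
    have : y = x := Subtype.ext e
    rw [← this]
    exact hy
  · intro x hx
    exact ⟨⟨x, hCD hx⟩, hCK (show (⟨x, hCD hx⟩ : D) ∈ C.subgroupOf D from hx), rfl⟩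
  · rintro x hx _ ⟨y, hy, rfl⟩
    exact ⟨⟨x, hx⟩ * y * ⟨x, hx⟩⁻¹, hKn.conj_mem y hy _, rfl⟩

/-- the subgroup generated by the `z`-conjugates of `[z, x]` -/
def DZ (z x : G) : Subgroup G :=
  Subgroup.closure {y | ∃ i : ℕ, y = z ^ i * (z * x * z⁻¹ * x⁻¹) * (z ^ i)⁻¹}

theorem dz_mem (z x : G) : z * x * z⁻¹ * x⁻¹ ∈ DZ z x :=
  Subgroup.subset_closure ⟨0, by group⟩

theorem dz_z (z x : G) : ∀ y ∈ DZ z x, z * y * z⁻¹ ∈ DZ z x := by
  apply closure_conj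
  rintro _ ⟨i, rfl⟩
  refine Subgroup.subset_closure ⟨i + 1, ?_⟩
  rw [pow_succ']
  group

theorem dz_le {z x : G} {A : Subgroup G} (hA : ∀ a ∈ A, z * a * z⁻¹ ∈ A)
    (hc : z * x * z⁻¹ * x⁻¹ ∈ A) : DZ z x ≤ A := by
  unfold DZ
  rw [Subgroup.closure_le]
  rintro _ ⟨i, rfl⟩
  induction i with
  | zero => rw [pow_zero, one_mul, inv_one, mul_one]; exact hc
  | succ i ih =>
    have := hA _ ih
    have e : z * (z ^ i * (z * x * z⁻¹ * x⁻¹) * (z ^ i)⁻¹) * z⁻¹ =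
        z ^ (i + 1) * (z * x * z⁻¹ * x⁻¹) * (z ^ (i + 1))⁻¹ := by
      rw [pow_succ']
      group
    rwa [e] at this

/-- generation of `[D, z]` -/
theorem cgen {l s k m : ℕ} (hl : l.Prime) (hs : s.Prime) (hls : l ≠ s) {z : G}
    (hz : z ^ s ^ k = 1) : ∀ n : ℕ, ∀ D : Subgroup G, Finite D → Nat.card D ≤ n →
    (∀ d ∈ D, d ^ l ^ m = 1) → (∀ d ∈ D, z * d * z⁻¹ ∈ D) → ∀ C : Subgroup G, C ≤ D →
    (∀ c ∈ C, z * c * z⁻¹ ∈ C) → (∀ x ∈ D, x ∈ DZ z x → x ∈ C) →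
    ∀ x ∈ D, z * x * z⁻¹ * x⁻¹ ∈ C := by
  have hab : Nat.Coprime (s ^ k) (l ^ m) :=
    Nat.Coprime.pow _ _ ((Nat.coprime_primes hs hl).2 hls.symm)
  intro n
  induction n with
  | zero =>
    intro D hDf hn
    have : 0 < Nat.card D := Nat.card_pos
    omega
  | succ n ih =>
    intro D hDf hn hD hzD C hCD hzC hC
    -- proper subgroups
    have ih' : ∀ D' : Subgroup G, D' ≤ D → D' ≠ D → (∀ d ∈ D', z * d * z⁻¹ ∈ D') →
        ∀ x ∈ D', z * x * z⁻¹ * x⁻¹ ∈ C := by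
      intro D' hD' hne hzD' x hx
      have hf' : Finite D' := Finite.of_injective (Subgroup.inclusion hD')
          (Subgroup.inclusion_injective hD')
      have hcard : Nat.card D' < Nat.card D := by
        have h5 : (D' : Set G) ⊂ (D : Set G) :=
          ⟨hD', fun h => hne (le_antisymm hD' h)⟩
        exact Set.Finite.card_lt_card (Set.toFinite _) h5
      exact (ih D' hf' (by omega) (fun d hd => hD d (hD' hd)) hzD' (C ⊓ D') inf_le_right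
        (fun c hc => ⟨hzC c hc.1, hzD' c hc.2⟩) (fun x hx hx2 => ⟨hC x (hD' hx) hx2, hx⟩) x hx).1
    by_cases h2 : CZ z D = D
    swap
    · intro x hx
      obtain ⟨y, hy, e⟩ := cc hl hs hls hz D hDf hD hzD hx
      rw [e]
      exact ih' _ (cz_le hzD) h2 (cz_z hzD) y hy
    by_cases hCD' : C = D
    · intro x hx
      rw [hCD']
      exact D.mul_mem (hzD x hx) (D.inv_mem hx)
    exfalso
    obtain ⟨K, hKD, hK, hCK, hKn⟩ := nc_ne hl D hDf hD hCD hCD'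
    let M : Subgroup G := Subgroup.closure {y | ∃ x ∈ D, ∃ c ∈ C, y = x * c * x⁻¹}
    have hMK : M ≤ K := by
      rw [Subgroup.closure_le]
      rintro _ ⟨x, hx, c, hc, rfl⟩
      exact hKn x hx c (hCK hc)
    have hCM : C ≤ M := fun c hc => Subgroup.subset_closure ⟨1, one_mem _, c, hc, by group⟩
    have hMD : ∀ x ∈ D, ∀ y ∈ M, x * y * x⁻¹ ∈ M := by
      intro x hx
      apply closure_conj
      rintro _ ⟨x', hx', c, hc, rfl⟩
      refine Subgroup.subset_closure ⟨x * x', mul_mem hx hx', c, hc, ?_⟩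
      group
    have hMz : ∀ y ∈ M, z * y * z⁻¹ ∈ M := by
      apply closure_conj
      rintro _ ⟨x', hx', c, hc, rfl⟩
      refine Subgroup.subset_closure ⟨z * x' * z⁻¹, hzD _ hx', z * c * z⁻¹, hzC c hc, ?_⟩
      group
    have hzN : z ∈ Subgroup.normalizer (M : Set G) := mem_norm (Nat.pow_pos hs.pos) hz hMz
    have hDN : ∀ x ∈ D, x ∈ Subgroup.normalizer (M : Set G) := fun x hx =>
      mem_norm (Nat.pow_pos hl.pos) (hD x hx) (hMD x hx)
    have h3 : ∀ x ∈ D, z * x * z⁻¹ * x⁻¹ ∈ M := by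
      intro x hx
      have hcD : z * x * z⁻¹ * x⁻¹ ∈ D := D.mul_mem (hzD x hx) (D.inv_mem hx)
      refine comm_mod hab hzN (hDN x hx) hz (hD _ hcD) ?_
      by_cases hxM : x ∈ M
      · have h4 : z * x * z⁻¹ * x⁻¹ ∈ M := M.mul_mem (hMz x hxM) (M.inv_mem hxM)
        exact M.mul_mem (hMz _ h4) (M.inv_mem h4)
      · apply hCM
        have hDle : DZ z x ≤ D := dz_le hzD hcD
        refine ih' (DZ z x) hDle ?_ (dz_z z x) _ (dz_mem z x)
        intro h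
        apply hxM
        apply hCM
        apply hC x hx
        rw [h]
        exact hx
    apply hK
    apply le_antisymm hKD
    rw [← h2]
    unfold CZ
    rw [Subgroup.closure_le]
    rintro _ ⟨x, hx, rfl⟩
    exact hMK (h3 x hx)

end Pool.Agent.TH69.Od
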