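import Mathlib
import Pool.Agent.TH69.OdN

set_option autoImplicit false

/-!
# Groups of exponent `p ^ a * q ^ b`, part O: good elements of the minimal subgroup
-/

namespace Pool.Agent.TH69.Od

open Pool.Agent.H32BU Pool.Agent.W629 Pool.Agent.TH69.Mtn Pool.Agent.TH69.Pq

variable {G : Type} [Group G] {p q α β : ℕ}

/-- the configuration -/
structure Cf (p q α β : ℕ) {G : Type} [Group G] (z w : G) (U : Subgroup G) : Prop where
  S : St p q α β G
  hz : SS p q α β z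
  hzp : z ^ p = 1
  hw : SS q p β α w
  A : Arr (p ^ α * q ^ β) p w U
  hzU : ∀ u ∈ U, z * u = u * z

/-- good elements -/
def Good (z w : G) (U : Subgroup G) (u : G) : Prop :=
  u ∈ U ∧ ∀ i : ℕ, U ≤ c2 w (z * u ^ i)

variable {z w : G} {U : Subgroup G}

theorem Cf.up (C : Cf p q α β z w U) {u : G} (hu : u ∈ U) : u ^ p = 1 :=
  (arr_struct C.S C.hw C.A).2.1 u hu

theorem Cf.uP (C : Cf p q α β z w U) {u : G} (hu : u ∈ U) : u ^ p ^ α = 1 := by
  have := C.A.pow u hu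
  rwa [C.S.qpp] at this

/-- good elements centralise the finite `q`-subgroups normalised by `z` and `u` -/
theorem A1 (C : Cf p q α β z w U) {u : G} (hu : Good z w U u) (T : Subgroup G) (hT : Finite T)
    (hTQ : ∀ t ∈ T, t ^ q ^ β = 1) (huT : ∀ t ∈ T, u * t * u⁻¹ ∈ T)
    (hzT : ∀ t ∈ T, z * t * z⁻¹ ∈ T) : ∀ t ∈ T, u * t = t * u := by
  by_contra hcon
  push Not at hcon
  have hzu := C.hzU u hu.1
  obtain ⟨i, t, ht, h1, h2⟩ := coprime_act (n := p ^ α * q ^ β) C.S.hq C.S.hp C.S.hpq.symm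
    (u := u) (c := z) hzu.symm (C.up hu.1) C.hzp T hT
    (fun x hx => by rw [C.S.qpq]; exact hTQ x hx) huT hzT hcon
  have hcm : Commute z (u ^ i) := by
    have : Commute z u := hzu
    exact this.pow_right i
  have h3 : (z * u ^ i) ^ p = 1 := by
    rw [hcm.mul_pow, C.hzp, ← pow_mul, mul_comm i p, pow_mul, C.up hu.1, one_pow, one_mul]
  have hwH : w ∈ c2 w ((z * u ^ i) * t) := Subgroup.subset_closure (by simp)
  obtain ⟨h4, h5⟩ := mem_of_mul h1 h3 (hTQ t ht) (Nat.Coprime.pow_right _ C.S.cop)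
    (c2 w ((z * u ^ i) * t)) (Subgroup.subset_closure (by simp))
  have hUH : U ≤ c2 w ((z * u ^ i) * t) := (hu.2 i).trans (c2_le hwH h4)
  obtain ⟨B, h6, h7, h8⟩ := in_A C.S C.hw C.A (C.S.fin _ _) hwH hUH
  apply h2
  have h9 : u * t * u⁻¹ * t⁻¹ ∈ B := by
    have h10 := mul_mem (h8 hu.1) (h6 t h5 _ (inv_mem (h8 hu.1)))
    have e : u * (t * u⁻¹ * t⁻¹) = u * t * u⁻¹ * t⁻¹ := by group
    rwa [e] at h10
  have h10 : u * t * u⁻¹ * t⁻¹ ∈ T := mul_mem (huT t ht) (inv_mem ht)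
  have h11 := W629.eq_one_of_coprime C.S.hab (h7 _ h9) (hTQ _ h10)
  rw [mul_inv_eq_one, mul_inv_eq_iff_eq_mul] at h11
  exact h11

/-- finite `q`-subgroups normalised by `z` -/
structure ZQ (q β : ℕ) (z : G) (D : Subgroup G) : Prop where
  fin : Finite D
  pow : ∀ d ∈ D, d ^ q ^ β = 1
  inv : ∀ d ∈ D, z * d * z⁻¹ ∈ D

/-- good elements commute with `[z, x]` -/
theorem A2 (C : Cf p q α β z w U) {u : G} (hu : Good z w U u) {D : Subgroup G}
    (hD : ZQ q β z D) : ∀ x ∈ D, u * (z * x * z⁻¹ * x⁻¹) = (z * x * z⁻¹ * x⁻¹) * u := by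
  have hzu := C.hzU u hu.1
  have hzu' : z⁻¹ * u = u * z⁻¹ := by
    rw [inv_mul_eq_iff_eq_mul, ← mul_assoc, hzu]
    group
  let Cu : Subgroup G :=
    { carrier := {x | x ∈ D ∧ u * x = x * u}
      one_mem' := ⟨one_mem _, by rw [mul_one, one_mul]⟩
      mul_mem' := by
        rintro x y ⟨hx, hx2⟩ ⟨hy, hy2⟩
        refine ⟨mul_mem hx hy, ?_⟩
        rw [← mul_assoc, hx2, mul_assoc, hy2, mul_assoc]
      inv_mem' := by
        rintro x ⟨hx, hx2⟩
        refine ⟨inv_mem hx, ?_⟩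
        rw [eq_inv_mul_iff_mul_eq, ← mul_assoc, ← hx2]
        group }
  have key := cgen C.S.hq C.S.hp C.S.hpq.symm (z := z) C.hz.1 (Nat.card D) D hD.fin le_rfl
    (m := β) hD.pow hD.inv Cu (fun x hx => hx.1) (by
      rintro x ⟨hx, hx2⟩
      refine ⟨hD.inv x hx, ?_⟩
      calc u * (z * x * z⁻¹) = (u * z) * x * z⁻¹ := by group
        _ = (z * u) * x * z⁻¹ := by rw [hzu]
        _ = z * (u * x) * z⁻¹ := by group
        _ = z * (x * u) * z⁻¹ := by rw [hx2]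
        _ = z * x * (u * z⁻¹) := by group
        _ = z * x * (z⁻¹ * u) := by rw [hzu']
        _ = z * x * z⁻¹ * u := by group) (by
      intro x hx hx2
      refine ⟨hx, ?_⟩
      have hzE : z ∈ c2 z (x * u) := Subgroup.subset_closure (by simp)
      have hxE : x * u ∈ c2 z (x * u) := Subgroup.subset_closure (by simp)
      have hfin := C.S.fin z (x * u)
      obtain ⟨E, hE⟩ : ∃ E, E = c2 z (x * u) := ⟨_, rfl⟩
      rw [← hE] at hzE hxE hfin
      obtain ⟨A, h1, h2, h3⟩ := (C.hz.2 E hfin hzE).comm_mem C.S.hab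
      have e : z * (x * u) * z⁻¹ * (x * u)⁻¹ = z * x * z⁻¹ * x⁻¹ := by
        calc z * (x * u) * z⁻¹ * (x * u)⁻¹ = z * x * (u * z⁻¹) * u⁻¹ * x⁻¹ := by group
          _ = z * x * (z⁻¹ * u) * u⁻¹ * x⁻¹ := by rw [hzu']
          _ = z * x * z⁻¹ * x⁻¹ := by group
      have h4 := h3 _ hxE (by
        rw [e]
        exact hD.pow _ (D.mul_mem (hD.inv x hx) (D.inv_mem hx)))
      rw [e] at h4
      have h5 : z * x * z⁻¹ * x⁻¹ ∈ E := by
        rw [← e]
        exact E.mul_mem (E.mul_mem (E.mul_mem hzE hxE) (E.inv_mem hzE)) (E.inv_mem hxE)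
      have hzAE : ∀ a ∈ A ⊓ E, z * a * z⁻¹ ∈ A ⊓ E := fun a ha =>
        ⟨h1 z hzE a ha.1, E.mul_mem (E.mul_mem hzE ha.2) (E.inv_mem hzE)⟩
      have h6 : x ∈ A ⊓ E := dz_le hzAE ⟨h4, h5⟩ hx2
      have h7 : u ∈ E := by
        have := E.mul_mem (E.inv_mem h6.2) hxE
        rwa [inv_mul_cancel_left] at this
      have hf' : Finite (A ⊓ E : Subgroup G) :=
        Finite.of_injective (Subgroup.inclusion inf_le_right) (Subgroup.inclusion_injective _)
      exact A1 C hu (A ⊓ E) hf' (fun t ht => h2 t ht.1) (fun a ha =>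
        ⟨h1 u h7 a ha.1, E.mul_mem (E.mul_mem h7 ha.2) (E.inv_mem h7)⟩) hzAE x h6)
  intro x hx
  exact (key x hx).2

/-- the subgroups `⟨u, g u g⁻¹⟩` centralise `[z, x]` -/
theorem A3 (C : Cf p q α β z w U) {u : G} (hu : Good z w U u) {D : Subgroup G}
    (hD : ZQ q β z D) {x : G} (hx : x ∈ D) {g : G} (hg : Nice (p ^ α) u g) :
    ∀ y ∈ c2 u (g * u * g⁻¹), y * (z * x * z⁻¹ * x⁻¹) = (z * x * z⁻¹ * x⁻¹) * y := by
  have hzu := C.hzU u hu.1
  obtain ⟨y, hy, e⟩ := cc C.S.hq C.S.hp C.S.hpq.symm (z := z) C.hz.1 D hD.fin (m := β) hD.pow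
    hD.inv hx
  have hyD := cz_le hD.inv hy
  have huy : u * y = y * u := by
    have h0 : CZ z D ≤ Subgroup.centralizer {u} := by
      unfold CZ
      rw [Subgroup.closure_le]
      rintro _ ⟨x', hx', rfl⟩
      rw [SetLike.mem_coe, Subgroup.mem_centralizer_singleton_iff]
      exact (A2 C hu hD x' hx').symm
    have h1 := h0 hy
    rw [Subgroup.mem_centralizer_singleton_iff] at h1
    exact h1.symm
  obtain ⟨m1, m2, m3, m4, m5⟩ := gens C.S.hab (x := u) (k := y) (g := g) (c := z) (C.uP hu.1)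
    (hD.pow y hyD) huy ⟨1, by rw [pow_one, hzu]; group⟩ hg.1
  have hfin := C.S.fin (u * y) (g * z)
  obtain ⟨E, hE⟩ : ∃ E, E = c2 (u * y) (g * z) := ⟨_, rfl⟩
  rw [← hE] at m1 m2 m3 m4 hfin
  obtain ⟨A, h1, h2, h3⟩ := (C.hz.2 E hfin m4).comm_mem C.S.hab
  have hyc : z * y * z⁻¹ * y⁻¹ ∈ D := D.mul_mem (hD.inv y hyD) (D.inv_mem hyD)
  have h4 : z * y * z⁻¹ * y⁻¹ ∈ A ⊓ E := ⟨h3 y m2 (hD.pow _ hyc),
    E.mul_mem (E.mul_mem (E.mul_mem m4 m2) (E.inv_mem m4)) (E.inv_mem m2)⟩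
  have hAE : ∀ g ∈ E, ∀ a ∈ A ⊓ E, g * a * g⁻¹ ∈ A ⊓ E := fun g hg a ha =>
    ⟨h1 g hg a ha.1, E.mul_mem (E.mul_mem hg ha.2) (E.inv_mem hg)⟩
  have hf' : Finite (A ⊓ E : Subgroup G) :=
    Finite.of_injective (Subgroup.inclusion inf_le_right) (Subgroup.inclusion_injective _)
  have h5 := A1 C hu (A ⊓ E) hf' (fun t ht => h2 t ht.1) (hAE u m1) (hAE z m4)
  rw [e]
  obtain ⟨c, hc⟩ : ∃ c, c = z * y * z⁻¹ * y⁻¹ := ⟨_, rfl⟩
  rw [← hc] at h4 ⊢
  have h6 : c2 u (g * u * g⁻¹) ≤ Subgroup.centralizer {c} := by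
    apply c2_le
    · rw [Subgroup.mem_centralizer_singleton_iff]
      exact h5 c h4
    · rw [Subgroup.mem_centralizer_singleton_iff, eq_comm]
      have h7 := h5 _ (hAE g⁻¹ (inv_mem m3) c h4)
      rw [inv_inv] at h7
      calc c * (g * u * g⁻¹) = g * ((g⁻¹ * c * g) * u) * g⁻¹ := by group
        _ = g * (u * (g⁻¹ * c * g)) * g⁻¹ := by rw [h7]
        _ = g * u * g⁻¹ * c := by group
  intro x hx
  have := h6 hx
  rw [Subgroup.mem_centralizer_singleton_iff] at this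
  exact this

end Pool.Agent.TH69.Od
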