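import Mathlib
import Pool.Agent.TH69.OdO

set_option autoImplicit false

/-!
# Groups of exponent `p ^ a * q ^ b`, part P: counting
-/

namespace Pool.Agent.TH69.Od

open Pool.Agent.H32BU Pool.Agent.W629 Pool.Agent.TH69.Mtn Pool.Agent.TH69.Pq

variable {G : Type} [Group G] {p q α β : ℕ}

theorem arith (hp : p.Prime) (hq : q.Prime) {d N : ℕ} (hd : 1 ≤ d) (hN : N = p ^ d)
    (h1 : N ≤ 1 + q * (p - 1)) (h2 : q ∣ N - 1) (h3 : ¬ p ∣ q - 1) (h4 : ¬ q ∣ p - 1) : False := by
  have h5 : p - 1 ∣ N - 1 := by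
    have := Nat.sub_dvd_pow_sub_pow p 1 d
    rwa [one_pow, ← hN] at this
  have hco : Nat.Coprime q (p - 1) := (Nat.Prime.coprime_iff_not_dvd hq).2 h4
  have h6 := Nat.Coprime.mul_dvd_of_dvd_of_dvd hco h2 h5
  have h7 : 1 < N := by
    rw [hN]
    exact Nat.one_lt_pow (by omega) hp.one_lt
  have h8 := Nat.le_of_dvd (by omega) h6
  have h9 : N = q * (p - 1) + 1 := by omega
  have h10 : p ∣ N := by
    rw [hN]
    exact dvd_pow_self p (by omega)
  have h11 : q * p = N + (q - 1) := by
    rw [h9]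
    have h12 := hp.pos
    have h13 := hq.pos
    obtain ⟨p', rfl⟩ := Nat.exists_eq_succ_of_ne_zero h12.ne'
    obtain ⟨q', rfl⟩ := Nat.exists_eq_succ_of_ne_zero h13.ne'
    simp only [Nat.succ_eq_add_one, Nat.add_sub_cancel]
    ring
  apply h3
  rw [← Nat.dvd_add_right h10, ← h11]
  exact dvd_mul_left p q

/-- an element not conjugate to a power of `x0` -/
theorem A4 (hp : p.Prime) (hq : q.Prime) (h3 : ¬ p ∣ q - 1) (h4 : ¬ q ∣ p - 1)
    (U : Subgroup G) (hf : Finite U) (hpow : ∀ u ∈ U, u ^ p = 1) {w : G} (hw : w ^ q = 1)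
    (hinv : ∀ u ∈ U, w * u * w⁻¹ ∈ U) (hfpf : ∀ u ∈ U, u ≠ 1 → w * u ≠ u * w)
    (hU : ∃ u ∈ U, u ≠ 1) {x0 : G} (hx0 : x0 ∈ U) : ∃ u0 ∈ U, u0 ≠ 1 ∧
      ∀ i j : ℕ, (w ^ i * u0 * (w ^ i)⁻¹) ^ j ≠ x0 ∨ (w ^ i * u0 * (w ^ i)⁻¹) ^ j = 1 := by
  classical
  by_contra hcon
  push Not at hcon
  have : Fact p.Prime := ⟨hp⟩
  have : Fact q.Prime := ⟨hq⟩
  have hwi : ∀ (i : ℕ), ∀ u ∈ U, w ^ i * u * (w ^ i)⁻¹ ∈ U := by
    intro i
    induction i with
    | zero => intro u hu; simpa using hu
    | succ i ih =>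
      intro u hu
      have := hinv _ (ih u hu)
      have e : w ^ (i + 1) * u * (w ^ (i + 1))⁻¹ = w * (w ^ i * u * (w ^ i)⁻¹) * w⁻¹ := by
        rw [pow_succ']
        group
      rw [e]
      exact this
  -- the order of `U`
  have hPg : IsPGroup p U := fun x => ⟨1, Subtype.ext (by
    rw [Subgroup.coe_pow, Subgroup.coe_one, pow_one]
    exact hpow x x.2)⟩
  obtain ⟨d, hd⟩ := (IsPGroup.iff_card).1 hPg
  have hd1 : 1 ≤ d := by
    rcases Nat.eq_zero_or_pos d with rfl | h
    · exfalso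
      rw [pow_zero] at hd
      obtain ⟨u, hu, hu1⟩ := hU
      have h1 := (Nat.card_eq_one_iff_unique.1 hd).1
      exact hu1 (congrArg Subtype.val (h1.elim ⟨u, hu⟩ 1))
    · exact h
  -- the fixed points of `w`
  have hmod : q ∣ Nat.card U - 1 := by
    let f : Function.End U := fun u => ⟨w * u * w⁻¹, hinv u u.2⟩
    have hfk : ∀ (j : ℕ) (d : U), ((f ^ j) d : G) = w ^ j * d * (w ^ j)⁻¹ := by
      intro j
      induction j with
      | zero =>
        intro d
        change (d : G) = _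
        rw [pow_zero]
        group
      | succ j ih =>
        intro d
        rw [pow_succ']
        change w * ((f ^ j) d : G) * w⁻¹ = _
        rw [ih, pow_succ']
        group
    have hfs : f ^ q ^ 1 = 1 := by
      funext d
      apply Subtype.ext
      rw [pow_one, hfk, hw]
      change 1 * (d : G) * 1⁻¹ = d
      group
    have := Fintype.ofFinite U
    have hcard := Equiv.Perm.card_fixedPoints_modEq hfs
    have h1 : Fintype.card (Function.fixedPoints f) = 1 := by
      rw [Fintype.card_eq_one_iff]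
      refine ⟨⟨1, ?_⟩, ?_⟩
      · change f 1 = 1
        apply Subtype.ext
        change w * 1 * w⁻¹ = 1
        group
      · rintro ⟨y, hy⟩
        have hy' : f y = y := hy
        have hy2 : w * (y : G) * w⁻¹ = y := congrArg Subtype.val hy'
        apply Subtype.ext
        change y = 1
        by_contra hy1
        apply hfpf y y.2 (fun h => hy1 (Subtype.ext h))
        rwa [mul_inv_eq_iff_eq_mul] at hy2
    rw [h1, ← Nat.card_eq_fintype_card] at hcard
    exact (Nat.modEq_iff_dvd' Nat.card_pos).1 hcard.symm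
  -- the bound
  have hle : Nat.card U ≤ 1 + q * (p - 1) := by
    let f : Option (Fin q × Fin (p - 1)) → U := fun o => match o with
      | none => 1
      | some (i, j) => ⟨w ^ (i : ℕ) * x0 ^ ((j : ℕ) + 1) * (w ^ (i : ℕ))⁻¹,
          hwi _ _ (pow_mem hx0 _)⟩
    have hsurj : Function.Surjective f := by
      rintro ⟨u, hu⟩
      by_cases hu1 : u = 1
      · exact ⟨none, Subtype.ext hu1.symm⟩
      obtain ⟨i, j, hij, hij1⟩ := hcon u hu hu1
      obtain ⟨m, hm⟩ := pow_gen hp (hpow _ (hwi i u hu)) hij1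
      rw [hij] at hm
      -- `u = w ^ (-i) x0 ^ m w ^ i`
      have h5 : (w ^ i)⁻¹ = w ^ (i * (q - 1) % q) := by
        rw [← pow_eq_pow_mod _ hw, inv_eq_iff_mul_eq_one, ← pow_add]
        have : i + i * (q - 1) = q * i := by
          have := hq.pos
          obtain ⟨q', rfl⟩ := Nat.exists_eq_succ_of_ne_zero this.ne'
          simp only [Nat.succ_eq_add_one, Nat.add_sub_cancel]
          ring
        rw [this, pow_mul, hw, one_pow]
      have h6 : x0 ^ (m % p) = x0 ^ m := (pow_eq_pow_mod _ (hpow x0 hx0)).symm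
      have h7 : u = (w ^ i)⁻¹ * x0 ^ m * w ^ i := by
        rw [hm]
        group
      have h8 : m % p ≠ 0 := by
        intro h
        rw [h, pow_zero] at h6
        apply hu1
        rw [h7, ← h6]
        group
      have h9 : m % p < p := Nat.mod_lt _ hp.pos
      refine ⟨some (⟨i * (q - 1) % q, Nat.mod_lt _ hq.pos⟩, ⟨m % p - 1, by omega⟩), ?_⟩
      apply Subtype.ext
      change w ^ (i * (q - 1) % q) * x0 ^ (m % p - 1 + 1) * (w ^ (i * (q - 1) % q))⁻¹ = u
      rw [← h5, Nat.sub_add_cancel (by omega), h6, inv_inv]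
      exact h7.symm
    have h1 := Nat.card_le_card_of_surjective f hsurj
    rw [Nat.card_eq_fintype_card (α := Option (Fin q × Fin (p - 1))), Fintype.card_option,
      Fintype.card_prod, Fintype.card_fin, Fintype.card_fin] at h1
    omega
  exact arith hp hq hd1 hd hle hmod h3 h4

end Pool.Agent.TH69.Od
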