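import Mathlib
import Pool.Agent.TH69.OdP

set_option autoImplicit false

/-!
# Groups of exponent `p ^ a * q ^ b`, part Q: the centraliser of the commutators `[z, x]`
-/

namespace Pool.Agent.TH69.Od

open Pool.Agent.H32BU Pool.Agent.W629 Pool.Agent.TH69.Mtn Pool.Agent.TH69.Pq

variable {G : Type} [Group G] {p q α β : ℕ}

theorem conj_c2 (f a b : G) : (c2 a b).map (MulAut.conj f).toMonoidHom =
    c2 (f * a * f⁻¹) (f * b * f⁻¹) := by
  unfold c2
  rw [MonoidHom.map_closure, Set.image_pair]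
  rfl

theorem conj_mem_c2 {f a b x : G} (hx : x ∈ c2 a b) :
    f * x * f⁻¹ ∈ c2 (f * a * f⁻¹) (f * b * f⁻¹) := by
  rw [← conj_c2]
  exact ⟨x, hx, rfl⟩

theorem nice_conj {P : ℕ} {e g : G} (f : G) (h : Nice P e g) :
    Nice P (f * e * f⁻¹) (f * g * f⁻¹) := by
  have e1 : (f * g * f⁻¹) * (f * e * f⁻¹) * (f * g * f⁻¹)⁻¹ = f * (g * e * g⁻¹) * f⁻¹ := by group
  unfold Nice
  rw [e1]
  refine ⟨conj_mem_c2 h.1, fun h1 => h.2 fun x hx => ?_⟩
  have h2 := h1 _ (conj_mem_c2 (f := f) hx)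
  rw [conj_pow, conj_eq_one_iff] at h2
  exact h2

/-- finite version of the main lemma -/
theorem S0 {F : Type} [Group F] [Finite F] (hp : p.Prime) (hq : q.Prime) (hpq : p ≠ q)
    (hF : ∀ x : F, x ^ (p ^ α * q ^ β) = 1) (A B : Subgroup F)
    (hA : ∀ g : F, ∀ x ∈ A, g * x * g⁻¹ ∈ A) (hB : ∀ g : F, ∀ x ∈ B, g * x * g⁻¹ ∈ B)
    (hBA : ∀ x ∈ B, x ^ p ^ α ∈ A) {z : F} (hz : z ∈ B) (hzP : z ^ p ^ α = 1)
    (N : Subgroup F) [N.Normal] (h : ∀ a ∈ A, z * a * z⁻¹ * a⁻¹ ∈ N) {t : F}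
    (ht : t ^ p ^ α ∈ N) : (z * t) ^ p ^ α ∈ N := by
  have hab : Nat.Coprime (p ^ α) (q ^ β) :=
    Nat.Coprime.pow _ _ ((Nat.coprime_primes hp hq).2 hpq)
  have hAn : A.Normal := ⟨fun x hx g => hA g x hx⟩
  have hBn : B.Normal := ⟨fun x hx g => hB g x hx⟩
  obtain ⟨A', hA'⟩ : ∃ A', A' = A.map (QuotientGroup.mk' N) := ⟨_, rfl⟩
  obtain ⟨B', hB'⟩ : ∃ B', B' = B.map (QuotientGroup.mk' N) := ⟨_, rfl⟩
  have hA'n : A'.Normal := by
    rw [hA']
    exact hAn.map _ (QuotientGroup.mk'_surjective N)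
  have hB'n : B'.Normal := by
    rw [hB']
    exact hBn.map _ (QuotientGroup.mk'_surjective N)
  have hBA' : ∀ x ∈ B', x ^ p ^ α ∈ A' := by
    intro x hx
    rw [hB'] at hx
    rw [hA']
    obtain ⟨b, hb, rfl⟩ := hx
    exact ⟨b ^ p ^ α, hBA b hb, map_pow _ _ _⟩
  have hzA' : ∀ x ∈ A', (z : F ⧸ N) * x = x * z := by
    intro x hx
    rw [hA'] at hx
    obtain ⟨a, ha, rfl⟩ := hx
    have h1 : ((z * a * z⁻¹ * a⁻¹ : F) : F ⧸ N) = 1 := (QuotientGroup.eq_one_iff _).2 (h a ha)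
    have h2 : (z : F ⧸ N) * a * (z : F ⧸ N)⁻¹ * (a : F ⧸ N)⁻¹ = 1 := h1
    rw [mul_inv_eq_one, mul_inv_eq_iff_eq_mul] at h2
    exact h2
  let D : Subgroup (F ⧸ N) :=
    { carrier := {x | x ∈ B' ∧ ∀ v ∈ A', x * v = v * x}
      one_mem' := ⟨one_mem _, fun v _ => by rw [mul_one, one_mul]⟩
      mul_mem' := by
        rintro x y ⟨hx, hx2⟩ ⟨hy, hy2⟩
        refine ⟨mul_mem hx hy, fun v hv => ?_⟩
        rw [mul_assoc, hy2 v hv, ← mul_assoc, hx2 v hv, mul_assoc]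
      inv_mem' := by
        rintro x ⟨hx, hx2⟩
        refine ⟨inv_mem hx, fun v hv => ?_⟩
        have h1 := hx2 v hv
        rw [inv_mul_eq_iff_eq_mul, ← mul_assoc, h1]
        group }
  have hDn : D.Normal := by
    refine ⟨?_⟩
    rintro x ⟨hx, hx2⟩ g
    refine ⟨hB'n.conj_mem x hx g, fun v hv => ?_⟩
    have h7 : g⁻¹ * v * g ∈ A' := by
      have := hA'n.conj_mem v hv g⁻¹
      rwa [inv_inv] at this
    have h8 := hx2 _ h7
    calc g * x * g⁻¹ * v = g * (x * (g⁻¹ * v * g)) * g⁻¹ := by group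
      _ = g * ((g⁻¹ * v * g) * x) * g⁻¹ := by rw [h8]
      _ = v * (g * x * g⁻¹) := by group
  have hzD : (z : F ⧸ N) ∈ D := ⟨by rw [hB']; exact ⟨z, hz, rfl⟩, hzA'⟩
  have h9 := nilp hp hq hpq (exp_quot hF N) D hDn (by
    intro x hx y hy hxp hyq
    have h10 : y ∈ A' := mem_of_pow hab.symm hyq (hBA' y hy.1)
    exact hx.2 y h10) hzD (by rw [← QuotientGroup.mk_pow, hzP]; rfl)
  have h10 := rad_mul h9 (z := (t : F ⧸ N))
    (by rw [← QuotientGroup.mk_pow, QuotientGroup.eq_one_iff]; exact ht)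
  rw [← QuotientGroup.mk_mul, ← QuotientGroup.mk_pow, QuotientGroup.eq_one_iff] at h10
  exact h10

/-- powers of elements of `X ⟨z⟩` -/
theorem xz_pow {P : ℕ} {X : Subgroup G} {z k : G} (hzX : z ∈ Subgroup.normalizer (X : Set G))
    (hzP : z ^ P = 1) {j : ℤ} (hk : k * z ^ j ∈ X) : k ^ P ∈ X := by
  have hkX : k ∈ Subgroup.normalizer (X : Set G) := by
    have h1 := mul_mem (Subgroup.le_normalizer hk) (inv_mem (zpow_mem hzX j))
    have e : k * z ^ j * (z ^ j)⁻¹ = k := by group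
    rwa [e] at h1
  have key : ∀ m : ℕ, k ^ m * z ^ (m * j) ∈ X := by
    intro m
    induction m with
    | zero => simp
    | succ m ih =>
      have h1 := ((Subgroup.mem_normalizer_iff.1 hkX) _).1 ih
      have h2 := mul_mem h1 hk
      have e : k * (k ^ m * z ^ (m * j)) * k⁻¹ * (k * z ^ j) =
          k ^ (m + 1) * z ^ (((m + 1 : ℕ) : ℤ) * j) := by
        have e2 : z ^ (((m + 1 : ℕ) : ℤ) * j) = z ^ (m * j) * z ^ j := by
          rw [← zpow_add]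
          congr 1
          push_cast
          ring
        rw [e2, pow_succ']
        group
      rwa [e] at h2
  have h1 := key P
  have e : z ^ ((P : ℤ) * j) = 1 := by
    rw [zpow_mul, zpow_natCast, hzP, one_zpow]
  rwa [e, mul_one] at h1

end Pool.Agent.TH69.Od
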