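import Mathlib
import Pool.Agent.TH69.OdQ

set_option autoImplicit false

/-!
# Groups of exponent `p ^ a * q ^ b`, part R: the centraliser of the commutators `[z, x]`
-/

namespace Pool.Agent.TH69.Od

open Pool.Agent.H32BU Pool.Agent.W629 Pool.Agent.TH69.Mtn Pool.Agent.TH69.Pq

variable {G : Type} [Group G] {p q α β : ℕ}

/-- the conjugates of the commutators `[z, x]` -/
def YY (q β : ℕ) (z : G) (F : Subgroup G) : Set G :=
  {y | ∃ f ∈ F, ∃ D, ZQ q β z D ∧ ∃ k ∈ D, y = f * (z * k * z⁻¹ * k⁻¹) * f⁻¹}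

/-- their centraliser -/
def XX (q β : ℕ) (z : G) (F : Subgroup G) : Subgroup G := Subgroup.centralizer (YY q β z F)

/-- the centre of the centraliser -/
def ZZ (q β : ℕ) (z : G) (F : Subgroup G) : Subgroup G :=
  XX q β z F ⊓ Subgroup.centralizer (XX q β z F : Set G)

variable {z : G} {F : Subgroup G}

theorem yy_conj {f y : G} (hf : f ∈ F) (hy : y ∈ YY q β z F) : f * y * f⁻¹ ∈ YY q β z F := by
  obtain ⟨f', hf', D, hD, k, hk, rfl⟩ := hy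
  refine ⟨f * f', mul_mem hf hf', D, hD, k, hk, ?_⟩
  group

theorem mem_xx {x : G} : x ∈ XX q β z F ↔ ∀ y ∈ YY q β z F, y * x = x * y :=
  Subgroup.mem_centralizer_iff

theorem mem_zz {x : G} : x ∈ ZZ q β z F ↔ x ∈ XX q β z F ∧ ∀ y ∈ XX q β z F, y * x = x * y := by
  unfold ZZ
  rw [Subgroup.mem_inf, Subgroup.mem_centralizer_iff]
  rfl

theorem xx_conj {f x : G} (hf : f ∈ F) (hx : x ∈ XX q β z F) : f * x * f⁻¹ ∈ XX q β z F := by
  rw [mem_xx] at hx ⊢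
  intro y hy
  have h1 := hx _ (yy_conj (inv_mem hf) hy)
  rw [inv_inv] at h1
  calc y * (f * x * f⁻¹) = f * ((f⁻¹ * y * f) * x) * f⁻¹ := by group
    _ = f * (x * (f⁻¹ * y * f)) * f⁻¹ := by rw [h1]
    _ = f * x * f⁻¹ * y := by group

theorem xx_norm {f : G} (hf : f ∈ F) : f ∈ Subgroup.normalizer (XX q β z F : Set G) := by
  rw [Subgroup.mem_normalizer_iff]
  intro x
  refine ⟨fun h => xx_conj hf h, fun h => ?_⟩
  have := xx_conj (inv_mem hf) h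
  have e : f⁻¹ * (f * x * f⁻¹) * f⁻¹⁻¹ = x := by group
  rwa [e] at this

theorem zz_conj {f x : G} (hf : f ∈ F) (hx : x ∈ ZZ q β z F) : f * x * f⁻¹ ∈ ZZ q β z F := by
  rw [mem_zz] at hx ⊢
  refine ⟨xx_conj hf hx.1, fun y hy => ?_⟩
  have h1 := hx.2 _ (xx_conj (inv_mem hf) hy)
  rw [inv_inv] at h1
  calc y * (f * x * f⁻¹) = f * ((f⁻¹ * y * f) * x) * f⁻¹ := by group
    _ = f * (x * (f⁻¹ * y * f)) * f⁻¹ := by rw [h1]
    _ = f * x * f⁻¹ * y := by group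

theorem zz_norm {f : G} (hf : f ∈ F) : f ∈ Subgroup.normalizer (ZZ q β z F : Set G) := by
  rw [Subgroup.mem_normalizer_iff]
  intro x
  refine ⟨fun h => zz_conj hf h, fun h => ?_⟩
  have := zz_conj (inv_mem hf) h
  have e : f⁻¹ * (f * x * f⁻¹) * f⁻¹⁻¹ = x := by group
  rwa [e] at this

theorem zz_conj' {g x : G} (hg : g ∈ XX q β z F) (hx : x ∈ ZZ q β z F) :
    g * x * g⁻¹ ∈ ZZ q β z F := by
  rw [(mem_zz.1 hx).2 g hg, mul_inv_cancel_right]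
  exact hx

theorem zz_norm' {g : G} (hg : g ∈ XX q β z F) :
    g ∈ Subgroup.normalizer (ZZ q β z F : Set G) := by
  rw [Subgroup.mem_normalizer_iff]
  intro x
  refine ⟨fun h => zz_conj' hg h, fun h => ?_⟩
  have := zz_conj' (inv_mem hg) h
  have e : g⁻¹ * (g * x * g⁻¹) * g⁻¹⁻¹ = x := by group
  rwa [e] at this

/-- the main step -/
theorem S1 (S : St p q α β G) (hz : SS p q α β z) (hzF : z ∈ F) {t : G} {j : ℤ}
    (ht : t * z ^ j ∈ XX q β z F) (htP : t ^ p ^ α ∈ ZZ q β z F) :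
    (z * t) ^ p ^ α ∈ ZZ q β z F := by
  obtain ⟨X, hX⟩ : ∃ X, X = XX q β z F := ⟨_, rfl⟩
  have hzX : z ∈ Subgroup.normalizer (X : Set G) := by rw [hX]; exact xx_norm hzF
  have hzj : ∀ (i : ℤ), ∀ x ∈ X, z ^ i * x * (z ^ i)⁻¹ ∈ X := fun i x hx =>
    ((Subgroup.mem_normalizer_iff.1 (zpow_mem hzX i)) x).1 hx
  let XZ : Subgroup G :=
    { carrier := {g | ∃ j : ℤ, g * z ^ j ∈ X}
      one_mem' := ⟨0, by rw [zpow_zero, mul_one]; exact one_mem _⟩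
      mul_mem' := by
        rintro a b ⟨i, hi⟩ ⟨j, hj⟩
        refine ⟨i + j, ?_⟩
        have h1 := mul_mem hi (hzj (-i) _ hj)
        have e : a * z ^ i * (z ^ (-i) * (b * z ^ j) * (z ^ (-i))⁻¹) = a * b * z ^ (i + j) := by
          rw [add_comm, zpow_add]
          group
        rwa [e] at h1
      inv_mem' := by
        rintro a ⟨i, hi⟩
        refine ⟨-i, ?_⟩
        have h1 := hzj i _ (inv_mem hi)
        have e : z ^ i * (a * z ^ i)⁻¹ * (z ^ i)⁻¹ = a⁻¹ * z ^ (-i) := by group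
        rwa [e] at h1 }
  have hzE : z ∈ c2 z t := Subgroup.subset_closure (by simp)
  have htE : t ∈ c2 z t := Subgroup.subset_closure (by simp)
  have hfin := S.fin z t
  have hEX : c2 z t ≤ XZ := c2_le ⟨-1, by
    rw [zpow_neg_one, mul_inv_cancel]
    exact one_mem X⟩ ⟨j, by rw [hX]; exact ht⟩
  have hEN : c2 z t ≤ Subgroup.normalizer (ZZ q β z F : Set G) := by
    apply c2_le (zz_norm hzF)
    have h1 := mul_mem (zz_norm' ht) (inv_mem (zpow_mem (zz_norm (q := q) (β := β) hzF) j))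
    have e : t * z ^ j * (z ^ j)⁻¹ = t := by group
    rwa [e] at h1
  obtain ⟨E, hE⟩ : ∃ E, E = c2 z t := ⟨_, rfl⟩
  rw [← hE] at hzE htE hfin hEX hEN
  obtain ⟨A, B, h1, h2, h3, h4, h5⟩ := hz.2 E hfin hzE
  have hD : ZQ q β z (A ⊓ E) := by
    refine ⟨Finite.of_injective (Subgroup.inclusion inf_le_right)
      (Subgroup.inclusion_injective _), fun d hd => h3 d hd.1, fun d hd => ?_⟩
    exact ⟨h1 z hzE d hd.1, E.mul_mem (E.mul_mem hzE hd.2) (E.inv_mem hzE)⟩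
  have hcomm : ∀ a ∈ A, a ∈ E → z * a * z⁻¹ * a⁻¹ ∈ ZZ q β z F := by
    intro a ha haE
    obtain ⟨i, hi⟩ := hEX haE
    have h6 : a ∈ X := mem_of_pow S.hab.symm (h3 a ha) (xz_pow hzX hz.1 hi)
    have h7 : z * a * z⁻¹ * a⁻¹ ∈ X :=
      mul_mem (((Subgroup.mem_normalizer_iff.1 hzX) a).1 h6) (inv_mem h6)
    rw [mem_zz, ← hX]
    refine ⟨h7, fun y hy => ?_⟩
    rw [hX, mem_xx] at hy
    refine (hy _ ⟨1, one_mem _, A ⊓ E, hD, a, ⟨ha, haE⟩, ?_⟩).symm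
    group
  have hNn : ((ZZ q β z F).subgroupOf E).Normal := by
    refine ⟨fun y hy g => ?_⟩
    exact ((Subgroup.mem_normalizer_iff.1 (hEN g.2)) y).1 hy
  have h8 := S0 S.hp S.hq S.hpq (exp_sub S.exp E) (A.subgroupOf E) (B.subgroupOf E)
    (fun g x hx => h1 g g.2 x hx) (fun g x hx => h2 g g.2 x hx) (fun x hx => h4 x hx)
    (z := ⟨z, hzE⟩) h5 (Subtype.ext hz.1) ((ZZ q β z F).subgroupOf E)
    (fun a ha => hcomm a ha a.2) (t := ⟨t, htE⟩) htP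
  exact h8

theorem S1f (S : St p q α β G) (hz : SS p q α β z) (hzF : z ∈ F) {f : G} (hf : f ∈ F) {t : G}
    {j : ℤ} (ht : t * (f * z * f⁻¹) ^ j ∈ XX q β z F) (htP : t ^ p ^ α ∈ ZZ q β z F) :
    ((f * z * f⁻¹) * t) ^ p ^ α ∈ ZZ q β z F := by
  have h1 := xx_conj (inv_mem hf) ht
  have e1 : f⁻¹ * (t * (f * z * f⁻¹) ^ j) * f⁻¹⁻¹ = (f⁻¹ * t * f) * z ^ j := by
    rw [conj_zpow]
    group
  rw [e1] at h1
  have h2 := zz_conj (inv_mem hf) htP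
  have e2 : f⁻¹ * t ^ p ^ α * f⁻¹⁻¹ = (f⁻¹ * t * f) ^ p ^ α := by
    rw [← conj_pow, inv_inv]
  rw [e2] at h2
  have h3 := zz_conj hf (S1 S hz hzF h1 h2)
  have e3 : f * (z * (f⁻¹ * t * f)) ^ p ^ α * f⁻¹ = ((f * z * f⁻¹) * t) ^ p ^ α := by
    rw [← conj_pow]
    congr 1
    group
  rwa [e3] at h3

theorem S2 (S : St p q α β G) (hz : SS p q α β z) (hzF : z ∈ F) {f : G} (hf : f ∈ F) {x y : G}
    (hx : x ∈ XX q β z F) (hy : y ∈ XX q β z F) (hyP : y ^ p ^ α ∈ ZZ q β z F) :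
    ((f * z * f⁻¹) * x * (f * z * f⁻¹)⁻¹ * x⁻¹ * y) ^ p ^ α ∈ ZZ q β z F := by
  have hS := fun {t : G} {j : ℤ} => S1f S hz hzF hf (t := t) (j := j)
  have hvF : f * z * f⁻¹ ∈ F := mul_mem (mul_mem hf hzF) (inv_mem hf)
  have hvP : (f * z * f⁻¹) ^ p ^ α = 1 := conj_pow_one hz.1
  obtain ⟨v, hv⟩ : ∃ v, v = f * z * f⁻¹ := ⟨_, rfl⟩
  rw [← hv] at hS hvF hvP ⊢
  have key : ∀ y' ∈ XX q β z F, y' ^ p ^ α ∈ ZZ q β z F →
      ∀ k : ℕ, (v ^ k * y') ^ p ^ α ∈ ZZ q β z F := by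
    intro y' hy' hyP' k
    induction k with
    | zero => rw [pow_zero, one_mul]; exact hyP'
    | succ k ih =>
      have h1 := hS (t := v ^ k * y') (j := -(k : ℤ)) (by
        have := xx_conj (pow_mem hvF k) hy'
        rw [zpow_neg, zpow_natCast]
        exact this) ih
      rw [pow_succ', mul_assoc]
      exact h1
  have hvi : v⁻¹ = v ^ (p ^ α - 1) := by
    rw [inv_eq_iff_mul_eq_one, ← pow_succ', Nat.sub_add_cancel (Nat.pow_pos S.hp.pos), hvP]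
  have h1 : x⁻¹ * y * x ∈ XX q β z F := mul_mem (mul_mem (inv_mem hx) hy) hx
  have h2 : (x⁻¹ * y * x) ^ p ^ α ∈ ZZ q β z F := by
    have h3 := zz_conj' (inv_mem hx) hyP
    rwa [← conj_pow, inv_inv] at h3
  have h3 := key _ h1 h2 (p ^ α - 1)
  rw [← hvi] at h3
  have h4 := zz_conj' hx h3
  rw [← conj_pow] at h4
  have e1 : x * (v⁻¹ * (x⁻¹ * y * x)) * x⁻¹ = x * v⁻¹ * x⁻¹ * y := by group
  rw [e1] at h4
  have h5 := hS (t := x * v⁻¹ * x⁻¹ * y) (j := 1) (by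
    have h6 := xx_conj (inv_mem hvF) (mul_mem (inv_mem hx) hy)
    have h7 := mul_mem hx h6
    have e2 : x * (v⁻¹ * (x⁻¹ * y) * v⁻¹⁻¹) = x * v⁻¹ * x⁻¹ * y * v ^ (1 : ℤ) := by group
    rwa [e2] at h7) h4
  have e3 : v * (x * v⁻¹ * x⁻¹ * y) = v * x * v⁻¹ * x⁻¹ * y := by group
  rwa [e3] at h5

end Pool.Agent.TH69.Od
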