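import Mathlib
import Pool.Agent.TH69.OdR

set_option autoImplicit false

/-!
# Groups of exponent `p ^ a * q ^ b`, part S: good elements do not exist
-/

namespace Pool.Agent.TH69.Od

open Pool.Agent.H32BU Pool.Agent.W629 Pool.Agent.TH69.Mtn Pool.Agent.TH69.Pq

variable {G : Type} [Group G] {p q α β : ℕ}

/-- the subgroup `X ⟨z⟩` -/
def XZs (X : Subgroup G) (z : G) (hzX : z ∈ Subgroup.normalizer (X : Set G)) : Subgroup G :=
  { carrier := {g | ∃ j : ℤ, g * z ^ j ∈ X}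
    one_mem' := ⟨0, by rw [zpow_zero, mul_one]; exact one_mem _⟩
    mul_mem' := by
      rintro a b ⟨i, hi⟩ ⟨j, hj⟩
      refine ⟨i + j, ?_⟩
      have h1 := mul_mem hi (((Subgroup.mem_normalizer_iff.1 (zpow_mem hzX (-i))) _).1 hj)
      have e : a * z ^ i * (z ^ (-i) * (b * z ^ j) * (z ^ (-i))⁻¹) = a * b * z ^ (i + j) := by
        rw [add_comm, zpow_add]
        group
      rwa [e] at h1
    inv_mem' := by
      rintro a ⟨i, hi⟩
      refine ⟨-i, ?_⟩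
      have h1 := (((Subgroup.mem_normalizer_iff.1 (zpow_mem hzX i)) _).1 (inv_mem hi))
      have e : z ^ i * (a * z ^ i)⁻¹ * (z ^ i)⁻¹ = a⁻¹ * z ^ (-i) := by group
      rwa [e] at h1 }

variable {z w : G} {U : Subgroup G}

/-- conjugation by elements of `⟨w, z⟩` on `U` -/
theorem conj_w (hzU : ∀ u ∈ U, z * u = u * z)
    (hwn : w ∈ Subgroup.normalizer (U : Set G)) {f : G} (hf : f ∈ c2 w z) :
    ∃ i : ℤ, ∀ u ∈ U, f * u * f⁻¹ = w ^ i * u * (w ^ i)⁻¹ := by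
  have hz : ∀ (i : ℤ), ∀ u ∈ U, w ^ i * u * (w ^ i)⁻¹ ∈ U := fun i u hu =>
    ((Subgroup.mem_normalizer_iff.1 (zpow_mem hwn i)) u).1 hu
  let H : Subgroup G :=
    { carrier := {f | ∃ i : ℤ, ∀ u ∈ U, f * u * f⁻¹ = w ^ i * u * (w ^ i)⁻¹}
      one_mem' := ⟨0, fun u _ => by rw [zpow_zero]⟩
      mul_mem' := by
        rintro a b ⟨i, hi⟩ ⟨j, hj⟩
        refine ⟨i + j, fun u hu => ?_⟩
        have e : a * b * u * (a * b)⁻¹ = a * (b * u * b⁻¹) * a⁻¹ := by group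
        rw [e, hj u hu, hi _ (hz j u hu), zpow_add]
        group
      inv_mem' := by
        rintro a ⟨i, hi⟩
        refine ⟨-i, fun u hu => ?_⟩
        have h3 := hi _ (hz (-i) u hu)
        have h4 : w ^ i * (w ^ (-i) * u * (w ^ (-i))⁻¹) * (w ^ i)⁻¹ = u := by group
        rw [h4] at h3
        calc a⁻¹ * u * a⁻¹⁻¹ = a⁻¹ * (a * (w ^ (-i) * u * (w ^ (-i))⁻¹) * a⁻¹) * a⁻¹⁻¹ := by
              rw [h3]
          _ = _ := by group }
  have h1 : c2 w z ≤ H := c2_le ⟨1, fun u _ => by rw [zpow_one]⟩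
    ⟨0, fun u hu => by rw [hzU u hu, zpow_zero]; group⟩
  exact h1 hf

/-- there are no elements all of whose conjugates are good -/
theorem A5 (C : Cf p q α β z w U) (hUF : U ≤ c2 w z) {u0 : G} (hu0 : u0 ∈ U) (hu1 : u0 ≠ 1)
    (hgood : ∀ i : ℕ, Good z w U (w ^ i * u0 * (w ^ i)⁻¹)) : False := by
  have S := C.S
  obtain ⟨F, hF⟩ : ∃ F, F = c2 w z := ⟨_, rfl⟩
  have hwF : w ∈ F := by rw [hF]; exact Subgroup.subset_closure (by simp)
  have hzF : z ∈ F := by rw [hF]; exact Subgroup.subset_closure (by simp)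
  have hwn : w ∈ Subgroup.normalizer (U : Set G) :=
    mem_norm (Nat.pow_pos S.hq.pos) C.hw.1 C.A.inv
  have hPpos : 0 < p ^ α := Nat.pow_pos S.hp.pos
  have hQpos : 0 < q ^ β := Nat.pow_pos S.hq.pos
  obtain ⟨n, hn⟩ : ∃ n, n = p ^ α * q ^ β := ⟨_, rfl⟩
  have hnpos : 0 < n := by rw [hn]; exact Nat.mul_pos hPpos hQpos
  have hGn : ∀ x : G, x ^ n = 1 := by rw [hn]; exact S.exp
  -- the subgroup `RX`
  let R : Subgroup G :=
    { carrier := {x | x ∈ XX q β z F ∧ ∀ y ∈ XX q β z F, y ^ p ^ α ∈ ZZ q β z F →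
        (x * y) ^ p ^ α ∈ ZZ q β z F}
      one_mem' := ⟨one_mem _, fun y _ h => by rwa [one_mul]⟩
      mul_mem' := by
        rintro a b ⟨ha, ha2⟩ ⟨hb, hb2⟩
        refine ⟨mul_mem ha hb, fun y hy hyP => ?_⟩
        rw [mul_assoc]
        exact ha2 _ (mul_mem hb hy) (hb2 y hy hyP)
      inv_mem' := by
        rintro a ⟨ha, ha2⟩
        refine ⟨inv_mem ha, fun y hy hyP => ?_⟩
        have h1 : ∀ k : ℕ, (a ^ k * y) ^ p ^ α ∈ ZZ q β z F := by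
          intro k
          induction k with
          | zero => rw [pow_zero, one_mul]; exact hyP
          | succ k ih =>
            rw [pow_succ', mul_assoc]
            exact ha2 _ (mul_mem (pow_mem ha k) hy) ih
        have h2 : a⁻¹ = a ^ (n - 1) := by
          rw [inv_eq_iff_mul_eq_one, ← pow_succ', Nat.sub_add_cancel hnpos, hGn]
        rw [h2]
        exact h1 _ }
  have hRF : ∀ f ∈ F, ∀ x ∈ R, f * x * f⁻¹ ∈ R := by
    rintro f hf x ⟨hx, hx2⟩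
    refine ⟨xx_conj hf hx, fun y hy hyP => ?_⟩
    have h1 := xx_conj (inv_mem hf) hy
    have h2 := zz_conj (inv_mem hf) hyP
    rw [← conj_pow] at h2
    have h3 := zz_conj hf (hx2 _ h1 h2)
    rw [← conj_pow] at h3
    have e : f * (x * (f⁻¹ * y * f⁻¹⁻¹)) * f⁻¹ = f * x * f⁻¹ * y := by group
    rwa [e] at h3
  have hRX : ∀ g ∈ XX q β z F, ∀ x ∈ R, g * x * g⁻¹ ∈ R := by
    rintro f hf x ⟨hx, hx2⟩
    refine ⟨mul_mem (mul_mem hf hx) (inv_mem hf), fun y hy hyP => ?_⟩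
    have h1 : f⁻¹ * y * f⁻¹⁻¹ ∈ XX q β z F := by
      rw [inv_inv]
      exact mul_mem (mul_mem (inv_mem hf) hy) hf
    have h2 := zz_conj' (inv_mem hf) hyP
    rw [← conj_pow] at h2
    have h3 := zz_conj' hf (hx2 _ h1 h2)
    rw [← conj_pow] at h3
    have e : f * (x * (f⁻¹ * y * f⁻¹⁻¹)) * f⁻¹ = f * x * f⁻¹ * y := by group
    rwa [e] at h3
  -- the normal closure of `z`
  obtain ⟨Z, hZ⟩ : ∃ Z : Subgroup G, Z = Subgroup.closure {v | ∃ f ∈ F, v = f * z * f⁻¹} :=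
    ⟨_, rfl⟩
  have hZc : ∀ v ∈ Z, v ∈ F ∧ ∀ x ∈ XX q β z F, v * x * v⁻¹ * x⁻¹ ∈ R := by
    intro v hv
    rw [hZ] at hv
    induction hv using Subgroup.closure_induction with
    | mem v hv =>
      obtain ⟨f, hf, rfl⟩ := hv
      have hvF : f * z * f⁻¹ ∈ F := mul_mem (mul_mem hf hzF) (inv_mem hf)
      refine ⟨hvF, fun x hx => ⟨mul_mem (xx_conj hvF hx) (inv_mem hx), fun y hy hyP => ?_⟩⟩
      exact S2 S C.hz hzF hf hx hy hyP
    | one =>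
      refine ⟨one_mem _, fun x _ => ?_⟩
      have e : (1 : G) * x * 1⁻¹ * x⁻¹ = 1 := by group
      rw [e]
      exact one_mem _
    | mul a b _ _ ha hb =>
      refine ⟨mul_mem ha.1 hb.1, fun x hx => ?_⟩
      have h1 := R.mul_mem (hRF a ha.1 _ (hb.2 x hx)) (ha.2 x hx)
      have e : a * (b * x * b⁻¹ * x⁻¹) * a⁻¹ * (a * x * a⁻¹ * x⁻¹) =
          a * b * x * (a * b)⁻¹ * x⁻¹ := by group
      rwa [e] at h1
    | inv a _ ha =>
      refine ⟨inv_mem ha.1, fun x hx => ?_⟩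
      have h1 := hRF a⁻¹ (inv_mem ha.1) _ (R.inv_mem (ha.2 x hx))
      have e : a⁻¹ * (a * x * a⁻¹ * x⁻¹)⁻¹ * a⁻¹⁻¹ = a⁻¹ * x * a⁻¹⁻¹ * x⁻¹ := by group
      rwa [e] at h1
  have hZF : ∀ f ∈ F, ∀ v ∈ Z, f * v * f⁻¹ ∈ Z := by
    intro f hf
    rw [hZ]
    apply closure_conj
    rintro _ ⟨f', hf', rfl⟩
    refine Subgroup.subset_closure ⟨f * f', mul_mem hf hf', ?_⟩
    group
  have hwZ : w ∈ Subgroup.normalizer (Z : Set G) :=
    mem_norm (Nat.pow_pos S.hq.pos) C.hw.1 (hZF w hwF)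
  have hu0P := C.uP hu0
  have hu0Z : u0 ∈ Z := by
    have h1 : F ≤ XZs Z w hwZ := by
      rw [hF]
      apply c2_le
      · refine ⟨-1, ?_⟩
        rw [zpow_neg_one, mul_inv_cancel]
        exact one_mem _
      · refine ⟨0, ?_⟩
        rw [zpow_zero, mul_one, hZ]
        exact Subgroup.subset_closure ⟨1, one_mem _, by group⟩
    have h2 : u0 ∈ F := by rw [hF]; exact hUF hu0
    obtain ⟨j, hj⟩ := h1 h2
    exact mem_of_pow S.hab hu0P (xz_pow hwZ C.hw.1 hj)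
  -- conjugates of `u0`
  have hconj : ∀ f ∈ F, ∃ i : ℕ, f * u0 * f⁻¹ = w ^ i * u0 * (w ^ i)⁻¹ := by
    intro f hf
    rw [hF] at hf
    obtain ⟨i, hi⟩ := conj_w C.hzU hwn hf
    have hfo : IsOfFinOrder w := isOfFinOrder_iff_pow_eq_one.2 ⟨q ^ β, hQpos, C.hw.1⟩
    obtain ⟨m, hm⟩ := (hfo.mem_powers_iff_mem_zpowers).2 (⟨i, rfl⟩ : w ^ i ∈ Subgroup.zpowers w)
    refine ⟨m, ?_⟩
    have hm' : w ^ m = w ^ i := hm
    rw [hm']
    exact hi u0 hu0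
  -- the subgroup `K`
  obtain ⟨g, hg⟩ := nice_exists S hu0P hu1
  have hKX : c2 u0 (g * u0 * g⁻¹) ≤ XX q β z F := by
    intro x hx
    rw [mem_xx]
    rintro _ ⟨f, hf, D, hD, k, hk, rfl⟩
    obtain ⟨i, hi⟩ := hconj f⁻¹ (inv_mem hf)
    have hg1 : Good z w U (f⁻¹ * u0 * f⁻¹⁻¹) := by
      rw [hi]
      exact hgood i
    have hg2 := nice_conj f⁻¹ hg
    have h1 := conj_mem_c2 (f := f⁻¹) hx
    have e1 : f⁻¹ * (g * u0 * g⁻¹) * f⁻¹⁻¹ =
      (f⁻¹ * g * f⁻¹⁻¹) * (f⁻¹ * u0 * f⁻¹⁻¹) * (f⁻¹ * g * f⁻¹⁻¹)⁻¹ := by group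
    rw [e1] at h1
    have h2 := A3 C hg1 hD hk hg2 _ h1
    calc f * (z * k * z⁻¹ * k⁻¹) * f⁻¹ * x =
          f * ((z * k * z⁻¹ * k⁻¹) * (f⁻¹ * x * f⁻¹⁻¹)) * f⁻¹ := by group
      _ = f * ((f⁻¹ * x * f⁻¹⁻¹) * (z * k * z⁻¹ * k⁻¹)) * f⁻¹ := by rw [h2]
      _ = x * (f * (z * k * z⁻¹ * k⁻¹) * f⁻¹) := by group
  have hu0K : u0 ∈ c2 u0 (g * u0 * g⁻¹) := Subgroup.subset_closure (by simp)
  have hgK : g * u0 * g⁻¹ ∈ c2 u0 (g * u0 * g⁻¹) := Subgroup.subset_closure (by simp)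
  have hu0X := hKX hu0K
  have hRn : u0 ∈ Subgroup.normalizer (R : Set G) :=
    mem_norm hPpos hu0P (hRX u0 hu0X)
  have hKR : c2 u0 (g * u0 * g⁻¹) ≤ XZs R u0 hRn := by
    apply c2_le
    · refine ⟨-1, ?_⟩
      rw [zpow_neg_one, mul_inv_cancel]
      exact one_mem _
    · refine ⟨-1, ?_⟩
      have h1 := R.inv_mem ((hZc u0 hu0Z).2 g (hKX hg.1))
      have e : (u0 * g * u0⁻¹ * g⁻¹)⁻¹ = g * u0 * g⁻¹ * u0 ^ (-1 : ℤ) := by group
      rwa [e] at h1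
  have hKP : ∀ k ∈ c2 u0 (g * u0 * g⁻¹), k ^ p ^ α ∈ ZZ q β z F := by
    intro k hk
    obtain ⟨j, hj⟩ := hKR hk
    have h1 := hj.2 ((u0 ^ j)⁻¹) (inv_mem (zpow_mem hu0X j)) (by
      have : ((u0 ^ j)⁻¹) ^ p ^ α = 1 := by
        rw [← zpow_neg, ← zpow_natCast, ← zpow_mul, mul_comm, zpow_mul, zpow_natCast, hu0P,
          one_zpow]
      rw [this]
      exact one_mem _)
    rwa [mul_inv_cancel_right] at h1
  -- conclusion
  have hfin := S.fin u0 (g * u0 * g⁻¹)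
  have hnil : ∀ x : c2 u0 (g * u0 * g⁻¹), x ^ p ^ α = 1 → x ∈ Rad (p ^ α) (c2 u0 (g * u0 * g⁻¹)) := by
    intro x hx
    refine nilp S.hp S.hq S.hpq (exp_sub S.exp _) ⊤ inferInstance ?_ (Subgroup.mem_top x) hx
    intro x _ y _ _ hy
    have h1 : (y : G) ∈ ZZ q β z F :=
      mem_of_pow S.hab.symm (congrArg Subtype.val hy) (hKP y y.2)
    exact Subtype.ext ((mem_zz.1 h1).2 x (hKX x.2))
  apply hg.2
  have h1 : c2 u0 (g * u0 * g⁻¹) ≤
      (Rad (p ^ α) (c2 u0 (g * u0 * g⁻¹))).map (c2 u0 (g * u0 * g⁻¹)).subtype := by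
    have h2 := hnil ⟨u0, hu0K⟩ (Subtype.ext hu0P)
    have h3 := hnil ⟨g * u0 * g⁻¹, hgK⟩ (Subtype.ext (conj_pow_one hu0P))
    exact c2_le ⟨_, h2, rfl⟩ ⟨_, h3, rfl⟩
  intro x hx
  obtain ⟨y, hy, rfl⟩ := h1 hx
  exact congrArg Subtype.val (rad_pow hy)

end Pool.Agent.TH69.Od
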