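import Mathlib
import Pool.Agent.TH69.OdS

set_option autoImplicit false

/-!
# Groups of exponent `p ^ a * q ^ b`, part T: the elements of `SS p q` and `SS q p` commute
-/

namespace Pool.Agent.TH69.Od

open Pool.Agent.H32BU Pool.Agent.W629 Pool.Agent.TH69.Mtn Pool.Agent.TH69.Pq

variable {G : Type} [Group G] {p q α β : ℕ}

/-- fixed points of `p`-groups -/
theorem fix_pt (hp : p.Prime) {R N : Subgroup G} {z : G}
    (hzR : z ∈ Subgroup.normalizer (R : Set G)) (hzP : z ^ p ^ α = 1)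
    (hR : ∀ r ∈ R, r ^ p ^ α = 1) (hNf : Finite N) (hNR : N ≤ R)
    (hNz : ∀ x ∈ N, z * x * z⁻¹ ∈ N) (hRN : ∀ r ∈ R, ∀ x ∈ N, r * x * r⁻¹ ∈ N) (hN : N ≠ ⊥) :
    ∃ e ∈ N, e ≠ 1 ∧ e ^ p = 1 ∧ (∀ r ∈ R, e * r = r * e) ∧ e * z = z * e := by
  classical
  have : Fact p.Prime := ⟨hp⟩
  have hzN : z ∈ Subgroup.normalizer (N : Set G) := mem_norm (Nat.pow_pos hp.pos) hzP hNz
  have hRN' : R ≤ Subgroup.normalizer (N : Set G) := fun r hr =>
    mem_norm (Nat.pow_pos hp.pos) (hR r hr) (hRN r hr)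
  let H : Subgroup G := XZs R z hzR
  have hHN : ∀ h ∈ H, ∀ x ∈ N, h * x * h⁻¹ ∈ N := by
    rintro h ⟨j, hj⟩ x hx
    have h1 := mul_mem (hRN' hj) (inv_mem (zpow_mem hzN j))
    rw [mul_inv_cancel_right] at h1
    exact ((Subgroup.mem_normalizer_iff.1 h1) x).1 hx
  have hHp : IsPGroup p H := by
    rintro ⟨h, j, hj⟩
    refine ⟨α + α, Subtype.ext ?_⟩
    rw [Subgroup.coe_pow, Subgroup.coe_one]
    change h ^ p ^ (α + α) = 1
    rw [pow_add, pow_mul, hR _ (xz_pow hzR hzP hj)]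
  let act : MulAction H N :=
    { smul := fun h x => ⟨(h : G) * x * (h : G)⁻¹, hHN h h.2 x x.2⟩
      one_smul := fun x => Subtype.ext (by
        change ((1 : H) : G) * x * ((1 : H) : G)⁻¹ = x
        rw [Subgroup.coe_one]
        group)
      mul_smul := fun a b x => Subtype.ext (by
        change ((a * b : H) : G) * x * ((a * b : H) : G)⁻¹ =
          (a : G) * ((b : G) * x * (b : G)⁻¹) * (a : G)⁻¹
        rw [Subgroup.coe_mul]
        group) }
  have hNp : IsPGroup p N := fun x => ⟨α, Subtype.ext (by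
    rw [Subgroup.coe_pow, Subgroup.coe_one]
    exact hR x (hNR x.2))⟩
  have hNnt : Nontrivial N := (Subgroup.nontrivial_iff_ne_bot N).2 hN
  have hdvd : p ∣ Nat.card N := by
    obtain ⟨n, hn0, hn⟩ := hNp.nontrivial_iff_card.1 inferInstance
    rw [hn]
    exact dvd_pow_self _ hn0.ne'
  obtain ⟨b, hb, hb1⟩ := hHp.exists_fixed_point_of_prime_dvd_card_of_fixed_point N hdvd
    (a := (1 : N)) (by
      intro h
      apply Subtype.ext
      change (h : G) * ((1 : N) : G) * (h : G)⁻¹ = ((1 : N) : G)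
      rw [Subgroup.coe_one]
      group)
  have hbH : ∀ h ∈ H, h * (b : G) = b * h := by
    intro h hh
    have h1 := congrArg Subtype.val (hb ⟨h, hh⟩)
    change h * (b : G) * h⁻¹ = b at h1
    rwa [mul_inv_eq_iff_eq_mul] at h1
  have hbz : (b : G) * z = z * b := by
    refine (hbH z ⟨-1, ?_⟩).symm
    rw [zpow_neg_one, mul_inv_cancel]
    exact one_mem _
  have hbR : ∀ r ∈ R, (b : G) * r = r * b := by
    intro r hr
    refine (hbH r ⟨0, ?_⟩).symm
    rwa [zpow_zero, mul_one]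
  have hb0 : (b : G) ≠ 1 := fun h => hb1 (Subtype.ext h.symm)
  obtain ⟨i, hi1, hi2⟩ : ∃ i, (b : G) ^ p ^ i ≠ 1 ∧ (b : G) ^ p ^ (i + 1) = 1 := by
    have hex : ∃ i, (b : G) ^ p ^ i = 1 := ⟨α, hR _ (hNR b.2)⟩
    have h1 := Nat.find_spec hex
    have h2 : Nat.find hex ≠ 0 := by
      intro h
      rw [h, pow_zero, pow_one] at h1
      exact hb0 h1
    obtain ⟨i, hi⟩ := Nat.exists_eq_succ_of_ne_zero h2
    refine ⟨i, Nat.find_min hex (by omega), ?_⟩
    rw [hi] at h1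
    exact h1
  refine ⟨(b : G) ^ p ^ i, pow_mem b.2 _, hi1, ?_, fun r hr => ?_, ?_⟩
  · rw [← pow_mul, ← pow_succ]
    exact hi2
  · have : Commute (b : G) r := hbR r hr
    exact this.pow_left _
  · have : Commute (b : G) z := hbz
    exact this.pow_left _

variable {z w : G} {U : Subgroup G}

/-- the case of a minimal subgroup centralised by `z` -/
theorem caseA (C : Cf p q α β z w U) (hwq : w ^ q = 1) (h3 : ¬ p ∣ q - 1) (h4 : ¬ q ∣ p - 1)
    (hUF : U ≤ c2 w z) : False := by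
  obtain ⟨hab, hpow, hfpf, hirr⟩ := arr_struct C.S C.hw C.A
  have hUf := C.A.fin
  have hU : ∃ u ∈ U, u ≠ 1 := by
    obtain ⟨u, hu, huw⟩ := C.A.nc
    refine ⟨u, hu, ?_⟩
    rintro rfl
    rw [mul_one, one_mul] at huw
    exact huw rfl
  obtain ⟨x0, hx0, hbad⟩ := bad C.hzU C.A.inv
    (inv_conj (Nat.pow_pos C.S.hq.pos) C.hw.1 C.A.inv) hab hirr hUF
  obtain ⟨u0, hu0, hu1, hu2⟩ := A4 C.S.hp C.S.hq h3 h4 U hUf hpow hwq C.A.inv hfpf hU hx0
  refine A5 C hUF hu0 hu1 fun i => ?_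
  have h5 : w ^ i * u0 * (w ^ i)⁻¹ ∈ U := by
    have hwn : w ∈ Subgroup.normalizer (U : Set G) :=
      mem_norm (Nat.pow_pos C.S.hq.pos) C.hw.1 C.A.inv
    exact ((Subgroup.mem_normalizer_iff.1 (pow_mem hwn i)) u0).1 hu0
  exact ⟨h5, fun j => hbad _ (pow_mem h5 j) (hu2 i j)⟩

end Pool.Agent.TH69.Od
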