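import Mathlib
import Pool.Agent.TH69.OdU

set_option autoImplicit false

/-!
# Groups of exponent `p ^ a * q ^ b`, part V: the final induction
-/

namespace Pool.Agent.TH69.Od

open Pool.Agent.H32BU Pool.Agent.W629 Pool.Agent.TH69.Mtn Pool.Agent.TH69.Pq

variable {G : Type} [Group G] {p q α β : ℕ}

theorem ss_conj {z : G} (hz : SS p q α β z) (g : G) : SS p q α β (g * z * g⁻¹) := by
  refine ⟨conj_pow_one hz.1, fun E hE hzE => ?_⟩
  obtain ⟨E', hE'⟩ : ∃ E', E' = E.map (MulAut.conj g⁻¹).toMonoidHom := ⟨_, rfl⟩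
  have hfin : Finite E' := by
    rw [hE']
    exact Finite.of_surjective _ ((MulAut.conj g⁻¹).toMonoidHom.subgroupMap_surjective E)
  have hz' : z ∈ E' := by
    rw [hE']
    refine ⟨_, hzE, ?_⟩
    change g⁻¹ * (g * z * g⁻¹) * g⁻¹⁻¹ = z
    group
  have h1 := (hz.2 E' hfin hz').map (MulAut.conj g).toMonoidHom
  refine h1.mono ?_
  intro h hh
  refine ⟨g⁻¹ * h * g⁻¹⁻¹, ?_, ?_⟩
  · rw [hE']
    exact ⟨h, hh, rfl⟩
  · change g * (g⁻¹ * h * g⁻¹⁻¹) * g⁻¹ = h
    group

theorem rad_sub_bot {a : ℕ} (A : Subgroup G) (hA : A.Normal)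
    (h : ∀ N : Subgroup G, N.Normal → (∀ x ∈ N, x ^ a = 1) → N = ⊥) : Rad a A = ⊥ := by
  have h1 := h ((Rad a A).map A.subtype) (by
    refine ⟨?_⟩
    rintro _ ⟨x, hx, rfl⟩ g
    refine ⟨⟨g * x * g⁻¹, hA.conj_mem x x.2 g⟩, ⟨?_, ?_⟩, rfl⟩
    · apply Subtype.ext
      have h2 : (x : G) ^ a = 1 := congrArg Subtype.val hx.1
      rw [Subgroup.coe_pow, Subgroup.coe_one]
      exact conj_pow_one h2
    · intro y hy
      have hy' : (y : G) ^ a = 1 := congrArg Subtype.val hy
      have h3 : g⁻¹ * (y : G) * g ∈ A := by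
        have := hA.conj_mem y y.2 g⁻¹
        rwa [inv_inv] at this
      have h4 := hx.2 ⟨g⁻¹ * (y : G) * g, h3⟩ (Subtype.ext (conj_pow_one' hy'))
      have h5 : ((x : G) * (g⁻¹ * (y : G) * g)) ^ a = 1 := congrArg Subtype.val h4
      have h6 := conj_pow_one (g := g) h5
      have e : g * ((x : G) * (g⁻¹ * (y : G) * g)) * g⁻¹ = g * x * g⁻¹ * y := by group
      rw [e] at h6
      exact Subtype.ext h6) (by
    rintro _ ⟨x, hx, rfl⟩
    exact congrArg Subtype.val hx.1)
  rw [eq_bot_iff]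
  intro x hx
  have h2 : (x : G) ∈ (Rad a A).map A.subtype := ⟨x, hx, rfl⟩
  rw [h1, Subgroup.mem_bot] at h2
  exact Subtype.ext h2

/-- the final induction -/
theorem triv_N (h3 : ¬ p ∣ q - 1) (h4 : ¬ q ∣ p - 1) : ∀ N α β : ℕ, α + β ≤ N →
    (∀ μ, 1 ≤ μ → μ ≤ α → ∀ r, 1 ≤ r → q ^ r ≠ p ^ μ - 1) →
    (∀ μ, 1 ≤ μ → μ ≤ β → ∀ r, 1 ≤ r → p ^ r ≠ q ^ μ - 1) →
    ∀ {G : Type} [Group G], St p q α β G → ∀ x : G, x = 1 := by
  intro N
  induction N with
  | zero =>
    intro α β hab _ _ G _ S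
    have h1 : α = 0 := by omega
    subst h1
    exact S.zero
  | succ N ih =>
    intro α β hN hex1 hex2 G _ S
    rcases α with _ | α
    · exact S.zero
    rcases β with _ | β
    · exact S.symm.zero
    by_cases hz : ∀ z : G, SS p q (α + 1) (β + 1) z → z ^ p = 1 → z = 1
    · exact ih α (β + 1) (by omega) (fun μ h1 h2 => hex1 μ h1 (by omega)) hex2 (S.drop' hex1 hz)
    exfalso
    push Not at hz
    obtain ⟨z0, hz0, hz0p, hz01⟩ := hz
    obtain ⟨A, hA⟩ : ∃ A : Subgroup G,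
      A = Subgroup.closure {z | SS p q (α + 1) (β + 1) z ∧ z ^ p = 1} := ⟨_, rfl⟩
    obtain ⟨B, hB⟩ : ∃ B : Subgroup G,
      B = Subgroup.closure {w | SS q p (β + 1) (α + 1) w ∧ w ^ q = 1} := ⟨_, rfl⟩
    have hAn : A.Normal := by
      refine ⟨fun x hx g => ?_⟩
      rw [hA] at hx ⊢
      refine closure_conj ?_ x hx
      rintro z ⟨h1, h2⟩
      exact Subgroup.subset_closure ⟨ss_conj h1 g, conj_pow_one h2⟩
    have hBn : B.Normal := by
      refine ⟨fun x hx g => ?_⟩
      rw [hB] at hx ⊢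
      refine closure_conj ?_ x hx
      rintro z ⟨h1, h2⟩
      exact Subgroup.subset_closure ⟨ss_conj h1 g, conj_pow_one h2⟩
    have hAB : ∀ a ∈ A, ∀ b ∈ B, a * b = b * a := by
      have h5 : A ≤ Subgroup.centralizer {w | SS q p (β + 1) (α + 1) w ∧ w ^ q = 1} := by
        rw [hA, Subgroup.closure_le]
        rintro z ⟨h1, h2⟩
        rw [SetLike.mem_coe, Subgroup.mem_centralizer_iff]
        rintro w ⟨h3', h4'⟩
        exact (comm_all S h3 h4 h1 h2 h3' h4').symm
      have h6 : B ≤ Subgroup.centralizer (A : Set G) := by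
        rw [hB, Subgroup.closure_le]
        rintro w hw
        rw [SetLike.mem_coe, Subgroup.mem_centralizer_iff]
        intro a ha
        exact ((Subgroup.mem_centralizer_iff.1 (h5 ha)) w hw).symm
      intro a ha b hb
      exact (Subgroup.mem_centralizer_iff.1 (h6 hb)) a ha
    -- the exponent of `A`
    have hexpA : ∀ x ∈ A, x ^ (p ^ (α + 1) * q ^ β) = 1 := by
      intro x hx
      have h5 : (x ^ p ^ (α + 1)) ^ q ^ (β + 1) = 1 := by rw [← pow_mul, S.exp]
      have h6 := ss_of_max S.symm (Nat.le_add_left 1 β) hex2 h5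
      rw [Nat.add_sub_cancel] at h6
      have h7 : ((x ^ p ^ (α + 1)) ^ q ^ β) ^ q = 1 := by
        rw [← pow_mul, ← pow_succ]
        exact h5
      have h8 : (x ^ p ^ (α + 1)) ^ q ^ β ∈ A := pow_mem (pow_mem hx _) _
      have h9 : (x ^ p ^ (α + 1)) ^ q ^ β ∈ B := by
        rw [hB]
        exact Subgroup.subset_closure ⟨h6, h7⟩
      rw [pow_mul]
      generalize (x ^ p ^ (α + 1)) ^ q ^ β = w at h6 h7 h8 h9
      let D : Subgroup G :=
        { carrier := {d | d ∈ A ∧ d ∈ B ∧ d ^ q ^ (β + 1) = 1}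
          one_mem' := ⟨one_mem _, one_mem _, one_pow _⟩
          mul_mem' := by
            rintro a b ⟨ha, ha2, ha3⟩ ⟨hb, hb2, hb3⟩
            refine ⟨mul_mem ha hb, mul_mem ha2 hb2, ?_⟩
            have : Commute a b := hAB a ha b hb2
            rw [this.mul_pow, ha3, hb3, one_mul]
          inv_mem' := by
            rintro a ⟨ha, ha2, ha3⟩
            exact ⟨inv_mem ha, inv_mem ha2, by rw [inv_pow, ha3, inv_one]⟩ }
      have hDn : D.Normal := by
        refine ⟨?_⟩
        rintro d ⟨h10, h11, h12⟩ g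
        exact ⟨hAn.conj_mem d h10 g, hBn.conj_mem d h11 g, conj_pow_one h12⟩
      have h10 := le_rad S.symm.hab S.symm.exp D (fun d hd => hd.2.2)
      rw [S.rq] at h10
      exact h10 ⟨h8, h9, h6.1⟩
    -- the subgroup `A` satisfies the hypotheses
    have SA : St p q (α + 1) β A := by
      refine ⟨S.hp, S.hq, S.hpq, ?_, ?_, ?_, ?_⟩
      · intro x
        apply Subtype.ext
        rw [Subgroup.coe_pow, Subgroup.coe_one]
        exact hexpA x x.2
      · intro x y
        have h5 := S.fin (x : G) (y : G)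
        have h6 : (c2 x y).map A.subtype = c2 (x : G) (y : G) := by
          unfold c2
          rw [MonoidHom.map_closure, Set.image_pair]
          rfl
        rw [← h6] at h5
        exact Finite.of_injective _
          ((c2 x y).equivMapOfInjective A.subtype A.subtype_injective).injective
      · refine rad_sub_bot A hAn fun N hN hNP => ?_
        have h5 := le_rad S.hab S.exp N hNP
        rw [S.rp] at h5
        exact le_bot_iff.1 h5
      · refine rad_sub_bot A hAn fun N hN hNP => ?_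
        have h5 := le_rad S.symm.hab S.symm.exp N (fun x hx => by
          rw [pow_succ, pow_mul, hNP x hx, one_pow])
        rw [S.rq] at h5
        exact le_bot_iff.1 h5
    have hz0A : z0 ∈ A := by
      rw [hA]
      exact Subgroup.subset_closure ⟨hz0, hz0p⟩
    have h5 := ih (α + 1) β (by omega) hex1 (fun μ h1 h2 => hex2 μ h1 (by omega)) SA ⟨z0, hz0A⟩
    exact hz01 (congrArg Subtype.val h5)

/-- the main theorem for groups without normal subgroups of prime power exponent -/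
theorem triv {G : Type} [Group G] (S : St p q α β G)
    (hex1 : ∀ μ, 1 ≤ μ → μ ≤ α → ∀ r, 1 ≤ r → q ^ r ≠ p ^ μ - 1)
    (hex2 : ∀ μ, 1 ≤ μ → μ ≤ β → ∀ r, 1 ≤ r → p ^ r ≠ q ^ μ - 1) : ∀ x : G, x = 1 := by
  by_cases h3 : p ∣ q - 1
  · exact triv_R h3 α hex1 S
  by_cases h4 : q ∣ p - 1
  · exact triv_R h4 β hex2 S.symm
  exact triv_N h3 h4 (α + β) α β le_rfl hex1 hex2 S

end Pool.Agent.TH69.Od
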