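import Mathlib
import Pool.Agent.TH69.OdV

set_option autoImplicit false

/-!
# Groups of exponent `p ^ a * q ^ b`, part W: number theory and transfer to all universes
-/

namespace Pool.Agent.TH69.Od

open Pool.Agent.H32BU Pool.Agent.W629 Pool.Agent.TH69.Mtn Pool.Agent.TH69.Pq

universe u

/-- prime powers of the form `2 ^ m - 1` are primes -/
theorem mersenne {q r m : ℕ} (hq : q.Prime) (hr : 1 ≤ r) (h : q ^ r = 2 ^ m - 1) :
    q = 2 ^ m - 1 ∧ 2 ≤ m := by
  have hq2 := hq.two_le
  have hqr : 2 ≤ q ^ r := le_trans hq2 (Nat.le_self_pow (by omega) q)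
  have hm : 2 ≤ m := by
    rcases Nat.lt_or_ge m 2 with h1 | h1
    · exfalso
      interval_cases m
      · simp at h; omega
      · simp at h; omega
    · exact h1
  have hqr1 : q ^ r + 1 = 2 ^ m := by omega
  have h4 : 4 ∣ 2 ^ m := by
    have := pow_dvd_pow 2 hm
    simpa using this
  have hodd : ¬ 2 ∣ q := by
    intro h2
    have h3 : 2 ∣ q ^ r := dvd_pow h2 (by omega)
    have h5 : 2 ∣ q ^ r + 1 := by
      rw [hqr1]
      exact dvd_pow_self 2 (by omega)
    omega
  have hrodd : Odd r := by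
    rw [← Nat.not_even_iff_odd]
    rintro ⟨k, hk⟩
    have h5 : q ^ r % 4 = 1 := by
      have h6 : q * q % 4 = 1 := by
        have h7 : q % 4 = 1 ∨ q % 4 = 3 := by omega
        rcases h7 with h7 | h7 <;> simp [Nat.mul_mod, h7]
      have h8 : q ^ r = (q * q) ^ k := by
        rw [hk, ← pow_two, ← pow_mul]
        congr 1
        omega
      rw [h8, Nat.pow_mod, h6]
      simp
    omega
  refine ⟨?_, hm⟩
  -- the quotient
  have h5 : (∑ i ∈ Finset.range r, (-(q : ℤ)) ^ i) * ((q : ℤ) + 1) = 2 ^ m := by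
    have h6 := geom_sum_mul (-(q : ℤ)) r
    rw [hrodd.neg_pow] at h6
    have h7 : (q : ℤ) ^ r + 1 = 2 ^ m := by exact_mod_cast hqr1
    linear_combination (-1 : ℤ) * h6 + h7
  obtain ⟨s, hs⟩ : ∃ s, s = ∑ i ∈ Finset.range r, (-(q : ℤ)) ^ i := ⟨_, rfl⟩
  rw [← hs] at h5
  have hs2 : ¬ (2 : ℤ) ∣ s := by
    intro h6
    have h7 : ((s : ℤ) : ZMod 2) = 0 := (ZMod.intCast_zmod_eq_zero_iff_dvd s 2).2 h6
    rw [hs] at h7
    push_cast at h7
    have h8 : (-(q : ZMod 2)) = 1 := by
      have h9 : (q : ZMod 2) = 1 := by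
        have h10 : q % 2 = 1 := by omega
        have h11 : ((q % 2 : ℕ) : ZMod 2) = (q : ZMod 2) := ZMod.natCast_mod q 2
        rw [← h11, h10, Nat.cast_one]
      rw [h9]
      decide
    rw [h8] at h7
    simp only [one_pow, Finset.sum_const, Finset.card_range, nsmul_eq_mul, mul_one] at h7
    rw [ZMod.natCast_eq_zero_iff] at h7
    rcases hrodd with ⟨k, hk⟩
    omega
  have hco : IsCoprime s ((2 : ℤ) ^ m) := by
    apply IsCoprime.pow_right
    rw [Int.isCoprime_iff_gcd_eq_one, Int.gcd_comm]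
    have := (Nat.Prime.coprime_iff_not_dvd Nat.prime_two (n := s.natAbs)).2 (by
      intro h6
      apply hs2
      exact Int.natCast_dvd.2 h6)
    exact this
  have hunit : IsUnit s := hco.isUnit_of_dvd' dvd_rfl ⟨(q : ℤ) + 1, h5.symm⟩
  have hq0 : (0 : ℤ) < (q : ℤ) + 1 := by positivity
  rcases Int.isUnit_iff.1 hunit with h6 | h6
  · rw [h6, one_mul] at h5
    have h7 : q + 1 = 2 ^ m := by exact_mod_cast h5
    omega
  · rw [h6] at h5
    have h7 : (0 : ℤ) < 2 ^ m := by positivity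
    linarith

/-- groups without normal subgroups of prime power exponent -/
theorem triv' {p q a b : ℕ} {G : Type} [Group G] (S : St p q a b G)
    (h : ∀ m, 2 ≤ m → ¬ 2 ^ m * (2 ^ m - 1) ∣ p ^ a * q ^ b) : ∀ x : G, x = 1 := by
  -- the even case
  have even : ∀ q a b : ℕ, ∀ {G : Type} [Group G], St 2 q a b G →
      (∀ m, 2 ≤ m → ¬ 2 ^ m * (2 ^ m - 1) ∣ 2 ^ a * q ^ b) → ∀ x : G, x = 1 := by
    intro q a b G _ S h
    rcases b with _ | b
    · exact S.symm.zero
    have hq2 : 2 ∣ q - 1 := by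
      rcases S.hq.eq_two_or_odd with h1 | h1
      · exact absurd h1.symm S.hpq
      · have := S.hq.two_le
        omega
    refine triv_R hq2 a (fun μ h1 h2 r hr hqr => ?_) S
    obtain ⟨h3, h4⟩ := mersenne S.hq hr hqr
    apply h μ h4
    rw [← h3]
    exact Nat.mul_dvd_mul (pow_dvd_pow 2 h2) (dvd_pow_self q (by omega))
  by_cases hp2 : p = 2
  · subst hp2
    exact even q a b S h
  by_cases hq2 : q = 2
  · subst hq2
    refine even p b a S.symm fun m hm => ?_
    rw [mul_comm (2 ^ b)]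
    exact h m hm
  have podd : Odd p := S.hp.odd_of_ne_two hp2
  have qodd : Odd q := S.hq.odd_of_ne_two hq2
  have key : ∀ p q : ℕ, Odd p → Odd q → ∀ μ r : ℕ, q ^ r ≠ p ^ μ - 1 := by
    intro p q hp hq μ r h1
    have h2 := hp.pow (n := μ)
    have h3 := hq.pow (n := r)
    have h4 : 0 < p ^ μ := h2.pos
    obtain ⟨c, hc⟩ := h2
    obtain ⟨d, hd⟩ := h3
    omega
  exact triv S (fun μ _ _ r _ => key p q podd qodd μ r) (fun μ _ _ r _ => key q p qodd podd μ r)

/-- the property of exponents which is proved -/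
def Tr (n : ℕ) : Prop := ∀ (G : Type) [Group G], (∀ x : G, x ^ n = 1) →
  (∀ x y : G, Finite (c2 x y)) → (∀ s : ℕ, s.Prime → Rad (qp s n) G = ⊥) → ∀ g : G, g = 1

theorem tr_pq {p q a b : ℕ} (hp : p.Prime) (hq : q.Prime) (hpq : p ≠ q)
    (h : ∀ m, 2 ≤ m → ¬ 2 ^ m * (2 ^ m - 1) ∣ p ^ a * q ^ b) : Tr (p ^ a * q ^ b) := by
  intro G _ hG h2 hR
  obtain ⟨e1, e2⟩ := fact_pq hp hq hpq a b
  refine triv' (p := p) (q := q) (a := a) (b := b) ⟨hp, hq, hpq, hG, h2, ?_, ?_⟩ h
  · rw [← e1]
    exact hR p hp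
  · rw [← e2]
    exact hR q hq

theorem lf_tr {n : ℕ} (T : Tr n) (hL : ∀ p : ℕ, p.Prime → LocFin (qp p n)) (G : Type)
    [Group G] (hG : ∀ x : G, x ^ n = 1) (h2 : ∀ x y : G, Finite (c2 x y)) : LF G := by
  obtain ⟨M, hM, hML, hMmax⟩ := exists_radical G
  refine x_SCH G M hML ?_
  have h1 : ∀ g : G ⧸ M, g = 1 := by
    refine T _ (exp_quot hG M) ?_ ?_
    · intro x y
      obtain ⟨x, rfl⟩ := QuotientGroup.mk_surjective x
      obtain ⟨y, rfl⟩ := QuotientGroup.mk_surjective y
      have hmap : (c2 x y).map (QuotientGroup.mk' M) = c2 (x : G ⧸ M) (y : G ⧸ M) := map_c2 _ x y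
      have hf := h2 x y
      rw [← hmap]
      exact Finite.of_surjective _ ((QuotientGroup.mk' M).subgroupMap_surjective (c2 x y))
    · intro s hs
      rw [eq_bot_iff]
      intro x hx
      have hN : ((Rad (qp s n) (G ⧸ M)).comap (QuotientGroup.mk' M)).Normal := inferInstance
      have hNL : LF ((Rad (qp s n) (G ⧸ M)).comap (QuotientGroup.mk' M)) := by
        have hML' : LF (M.subgroupOf ((Rad (qp s n) (G ⧸ M)).comap (QuotientGroup.mk' M))) := by
          refine x_LFS.2.1 _ M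
            { toFun := fun x => ⟨(x : ↥((Rad (qp s n) (G ⧸ M)).comap (QuotientGroup.mk' M))), x.2⟩
              map_one' := rfl
              map_mul' := fun _ _ => rfl } ?_ hML
          intro a b hab
          have : ((a : ↥((Rad (qp s n) (G ⧸ M)).comap (QuotientGroup.mk' M))) : G) =
              ((b : ↥((Rad (qp s n) (G ⧸ M)).comap (QuotientGroup.mk' M))) : G) :=
            congrArg (fun z : ↥M => (z : G)) hab
          exact Subtype.ext (Subtype.ext this)
        refine x_SCH _ (M.subgroupOf ((Rad (qp s n) (G ⧸ M)).comap (QuotientGroup.mk' M))) hML' ?_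
        refine hL s hs _ fun q => ?_
        obtain ⟨⟨g, hg⟩, rfl⟩ := QuotientGroup.mk_surjective q
        rw [← QuotientGroup.mk_pow, QuotientGroup.eq_one_iff, Subgroup.mem_subgroupOf]
        have h3 : ((g : G ⧸ M)) ^ qp s n = 1 := hg.1
        rw [← QuotientGroup.mk_pow, QuotientGroup.eq_one_iff] at h3
        exact h3
      obtain ⟨g, rfl⟩ := QuotientGroup.mk_surjective x
      have h4 : g ∈ (Rad (qp s n) (G ⧸ M)).comap (QuotientGroup.mk' M) := hx
      have h5 := hMmax _ hN hNL h4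
      rw [Subgroup.mem_bot, QuotientGroup.eq_one_iff]
      exact h5
  intro S
  have : Subsingleton (G ⧸ M) := ⟨fun a b => by rw [h1 a, h1 b]⟩
  infer_instance

/-- the condition on two-generator subgroups, transferred -/
theorem fin_transfer {Q : Type} {G : Type u} [Group Q] [Group G] (f : Q →* G)
    (hf : Function.Injective f) (h2 : ∀ x y : G, Finite (Subgroup.closure {x, y})) (x y : Q) :
    Finite (c2 x y) := by
  have h3 := h2 (f x) (f y)
  have e : (c2 x y).map f = Subgroup.closure {f x, f y} := by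
    unfold c2
    rw [MonoidHom.map_closure, Set.image_pair]
  rw [← e] at h3
  have eq := (c2 x y).equivMapOfInjective f hf
  exact Finite.of_equiv _ eq.symm.toEquiv

theorem lf_tr_u {n : ℕ} (T : Tr n) (hL : ∀ p : ℕ, p.Prime → LocFin (qp p n))
    (G : Type u) [Group G] (hG : ∀ x : G, x ^ n = 1)
    (h2 : ∀ x y : G, Finite (Subgroup.closure {x, y}))
    (S : Set G) (hS : S.Finite) : Finite (Subgroup.closure S) :=
  finite_closure_u S hS fun Q _ f hf => lf_tr T hL Q
    (fun x => hf (by rw [map_pow, map_one]; exact hG _)) (fin_transfer f hf h2)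

/-- triviality of groups with trivial radicals, all universes -/
theorem tr_u {n : ℕ} (T : Tr n) (G : Type u) [Group G] (hG : ∀ x : G, x ^ n = 1)
    (h2 : ∀ x y : G, Finite (Subgroup.closure {x, y}))
    (hR : ∀ s : ℕ, s.Prime → Rad (qp s n) G = ⊥) (g : G) : g = 1 := by
  classical
  have hex : ∀ (s : ℕ) (e : G), ∃ z : G, s.Prime → e ≠ 1 → e ^ qp s n = 1 →
      z ^ qp s n = 1 ∧ (e * z) ^ qp s n ≠ 1 := by
    intro s e
    by_contra hcon
    push Not at hcon
    obtain ⟨hs, he1, he, -⟩ := hcon 1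
    apply he1
    have h3 : e ∈ Rad (qp s n) G := ⟨he, fun z hz => (hcon z).2.2.2 hz⟩
    rw [hR s hs] at h3
    exact h3
  choose f hf using hex
  obtain ⟨C, hC, hgC, hfC⟩ := exists_closed f g
  have hsm : Small.{0} C := inferInstance
  let e : Shrink.{0} C ≃* C := Shrink.mulEquiv
  let φ : Shrink.{0} C →* G := C.subtype.comp e.toMonoidHom
  have hφ : Function.Injective φ := fun x y hxy => e.injective (Subtype.ext hxy)
  have hmem : ∀ x, φ x ∈ C := fun x => (e x).2
  have h3 := T (Shrink.{0} C)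
    (fun x => hφ (by rw [map_pow, map_one]; exact hG _)) (fin_transfer φ hφ h2) (by
      intro s hs
      rw [Subgroup.eq_bot_iff_forall]
      rintro x ⟨hx, hx'⟩
      by_contra hne
      obtain ⟨h4, h5⟩ := hf s (φ x) hs (fun h => hne (hφ (by rw [h, map_one])))
        (by rw [← map_pow, hx, map_one])
      obtain ⟨z, hz⟩ : ∃ z, φ z = f s (φ x) := by
        refine ⟨e.symm ⟨f s (φ x), hfC s _ (hmem x)⟩, ?_⟩
        change ((e (e.symm _) : C) : G) = _
        rw [MulEquiv.apply_symm_apply]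
      have h6 := hx' z (hφ (by rw [map_pow, hz, h4, map_one]))
      apply h5
      rw [← hz, ← map_mul, ← map_pow, h6, map_one]) (e.symm ⟨g, hgC⟩)
  have h4 := congrArg φ h3
  rw [map_one] at h4
  have h5 : φ (e.symm ⟨g, hgC⟩) = g := by
    change ((e (e.symm _) : C) : G) = _
    rw [MulEquiv.apply_symm_apply]
  rw [← h5, h4]

theorem locfin_pow {p q : ℕ} (hp : p.Prime) (hq : q.Prime) (hpq : p ≠ q) (a b : ℕ)
    (h1 : LocFin (p ^ a)) (h2 : LocFin (q ^ b)) (s : ℕ) :
    LocFin (qp s (p ^ a * q ^ b)) := by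
  obtain ⟨e1, e2⟩ := fact_pq hp hq hpq a b
  by_cases hsp : s = p
  · subst hsp
    rwa [e1]
  · by_cases hsq : s = q
    · subst hsq
      rwa [e2]
    · have h3 : qp s (p ^ a * q ^ b) = 1 := by
        unfold qp
        have h4 : (p ^ a * q ^ b).factorization s = 0 := by
          rw [Nat.factorization_mul (pow_ne_zero _ hp.ne_zero) (pow_ne_zero _ hq.ne_zero),
            Finsupp.add_apply, hp.factorization_pow, hq.factorization_pow,
            Finsupp.single_eq_of_ne hsp, Finsupp.single_eq_of_ne hsq, add_zero]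
        rw [h4, pow_zero]
      rw [h3]
      exact x_LFD.2.2.1

/-- normal subgroups of prime power exponent -/
theorem exists_normal {p q a b : ℕ} (hp : p.Prime) (hq : q.Prime) (hpq : p ≠ q)
    (T : Tr (p ^ a * q ^ b)) (G : Type u) [Group G] (hG : ∀ x : G, x ^ (p ^ a * q ^ b) = 1)
    (h2 : ∀ x y : G, Finite (Subgroup.closure {x, y})) (hnt : Nontrivial G) :
    ∃ N : Subgroup G, N.Normal ∧ N ≠ ⊥ ∧
      ((∀ x ∈ N, x ^ p ^ a = 1) ∨ (∀ x ∈ N, x ^ q ^ b = 1)) := by
  by_contra hcon
  push Not at hcon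
  obtain ⟨e1, e2⟩ := fact_pq hp hq hpq a b
  obtain ⟨g, hg⟩ := exists_ne (1 : G)
  apply hg
  refine tr_u T G hG h2 (fun s hs => ?_) g
  by_contra hne
  obtain ⟨⟨x, hx, hx'⟩, y, hy, hy'⟩ := hcon (Rad (qp s (p ^ a * q ^ b)) G) inferInstance hne
  by_cases hsp : s = p
  · subst hsp
    rw [e1] at hx
    exact hx' hx.1
  · by_cases hsq : s = q
    · subst hsq
      rw [e2] at hy
      exact hy' hy.1
    · have h3 : qp s (p ^ a * q ^ b) = 1 := by
        unfold qp
        have h4 : (p ^ a * q ^ b).factorization s = 0 := by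
          rw [Nat.factorization_mul (pow_ne_zero _ hp.ne_zero) (pow_ne_zero _ hq.ne_zero),
            Finsupp.add_apply, hp.factorization_pow, hq.factorization_pow,
            Finsupp.single_eq_of_ne hsp, Finsupp.single_eq_of_ne hsq, add_zero]
        rw [h4, pow_zero]
      rw [h3] at hx
      have h7 := hx.1
      rw [pow_one] at h7
      rw [h7, one_pow] at hx'
      exact hx' rfl

/-- exponents with finite two-generator group -/
theorem locfin_tr {p q a b : ℕ} (hp : p.Prime) (hq : q.Prime) (hpq : p ≠ q)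
    (T : Tr (p ^ a * q ^ b)) (h1 : LocFin (p ^ a)) (h2 : LocFin (q ^ b))
    (hf : Finite (Bu 2 (p ^ a * q ^ b))) : LocFin (p ^ a * q ^ b) := by
  intro G _ hG
  refine lf_tr T
    (fun s _ => locfin_pow hp hq hpq a b h1 h2 s) G hG fun x y => ?_
  obtain ⟨f, hfr⟩ := bu2 hG x y
  unfold c2
  rw [← hfr]
  exact Finite.of_surjective f.rangeRestrict f.rangeRestrict_surjective

end Pool.Agent.TH69.Od
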