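import Mathlib
import Pool.Agent.TH69.OdV

set_option autoImplicit false

/-!
# Groups of exponent `n` with finite soluble two-generator subgroups, part A: tools
-/

namespace Pool.Agent.TH69.Og

open Pool.Agent.H32BU Pool.Agent.W629 Pool.Agent.TH69.Mtn Pool.Agent.TH69.Od

/-- a normal subgroup whose elements of order prime to `p` are central -/
theorem nilpG {F : Type} [Group F] {p α m : ℕ} (hp : p.Prime) (hpm : Nat.Coprime (p ^ α) m)
    (hpm' : Nat.Coprime p m) [Finite F]
    (hF : ∀ x : F, x ^ (p ^ α * m) = 1) (N : Subgroup F) (hN : N.Normal)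
    (h : ∀ x ∈ N, ∀ y ∈ N, y ^ m = 1 → x * y = y * x) {x : F} (hx : x ∈ N)
    (hxp : x ^ p ^ α = 1) : x ∈ Rad (p ^ α) F := by
  have key : ∀ {y : F} {b : ℕ}, y ^ b = 1 → ¬ p ∣ b → y ^ m = 1 := by
    intro y b hyb hpb
    refine W629.eq_one_of_coprime (a := b) (b := p ^ α) ?_ ?_ ?_
    · exact (Nat.Coprime.pow_left _ ((Nat.Prime.coprime_iff_not_dvd hp).2 hpb)).symm
    · rw [← pow_mul, mul_comm, pow_mul, hyb, one_pow]
    · rw [← pow_mul, mul_comm, hF]
  have hNR : NR N = ⊥ := by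
    unfold NR
    rw [Subgroup.closure_eq_bot_iff]
    rintro _ ⟨x, hx, y, hy, a, b, hco2, hxa, hyb, rfl⟩
    have hxy : x * y = y * x := by
      by_cases hpa : p ∣ a
      · have hpb : ¬ p ∣ b := by
          intro h5
          have h6 := Nat.dvd_gcd hpa h5
          rw [hco2, Nat.dvd_one] at h6
          exact hp.ne_one h6
        exact h x hx y hy (key hyb hpb)
      · exact (h y hy x hx (key hxa hpa)).symm
    rw [Set.mem_singleton_iff, hxy]
    group
  obtain ⟨⟨S, hS⟩, -⟩ := x_SYL F N inferInstance hNR p hp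
  have hSn : S.Normal := by
    refine ⟨fun y hy g => ?_⟩
    rw [hS] at hy ⊢
    obtain ⟨hy1, k, hk⟩ := hy
    exact ⟨hN.conj_mem y hy1 g, k, conj_pow_one hk⟩
  refine le_rad hpm hF S ?_ ((hS x).2 ⟨hx, α, hxp⟩)
  intro y hy
  obtain ⟨-, k, hk⟩ := (hS y).1 hy
  exact pp_pow hpm' (hF y) hk

variable {G : Type} [Group G]

/-- invariant Sylow subgroups -/
theorem inv_sylow {p q k : ℕ} (hp : p.Prime) (hq : q.Prime) {L : Subgroup G} (hLf : Finite L)
    {g : G} (hg : g ^ p ^ k = 1) (hL : ¬ p ∣ Nat.card L) (hgL : ∀ x ∈ L, g * x * g⁻¹ ∈ L) :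
    ∃ S : Subgroup G, S ≤ L ∧ (∀ x ∈ S, ∃ j : ℕ, x ^ q ^ j = 1) ∧ (∀ x ∈ S, g * x * g⁻¹ ∈ S) ∧
      ¬ q ∣ S.relIndex L := by
  classical
  have : Fact p.Prime := ⟨hp⟩
  have : Fact q.Prime := ⟨hq⟩
  have hgL' := inv_conj (Nat.pow_pos hp.pos) hg hgL
  let σ : MulAut L :=
    { toFun := fun u => ⟨g * u * g⁻¹, hgL u u.2⟩
      invFun := fun u => ⟨g⁻¹ * u * g, hgL' u u.2⟩
      left_inv := by
        intro u
        apply Subtype.ext
        change g⁻¹ * (g * u * g⁻¹) * g = u
        group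
      right_inv := by
        intro u
        apply Subtype.ext
        change g * (g⁻¹ * u * g) * g⁻¹ = u
        group
      map_mul' := by
        intro a b
        apply Subtype.ext
        change g * (a * b) * g⁻¹ = g * a * g⁻¹ * (g * b * g⁻¹)
        group }
  have hσk : ∀ (i : ℕ) (u : L), (((σ ^ i) u : L) : G) = g ^ i * u * (g ^ i)⁻¹ := by
    intro i
    induction i with
    | zero => intro u; simp
    | succ i ih =>
      intro u
      rw [pow_succ', MulAut.mul_apply]
      change g * (((σ ^ i) u : L) : G) * g⁻¹ = _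
      rw [ih, pow_succ']
      group
  have hσ1 : σ ^ p ^ k = 1 := by
    ext u
    rw [hσk, hg]
    simp
  let f : Function.End (Sylow q L) := fun P => σ • P
  have hfk : ∀ (i : ℕ) (P : Sylow q L), (f ^ i) P = σ ^ i • P := by
    intro i
    induction i with
    | zero => intro P; rw [pow_zero, pow_zero, one_smul]; rfl
    | succ i ih =>
      intro P
      rw [pow_succ', pow_succ', mul_smul, ← ih]
      rfl
  have hfs : f ^ p ^ k = 1 := by
    funext P
    rw [hfk, hσ1, one_smul]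
    rfl
  have := Fintype.ofFinite (Sylow q L)
  have hcard := Equiv.Perm.card_fixedPoints_modEq hfs
  obtain ⟨P, hP⟩ : ∃ P : Sylow q L, f P = P := by
    by_contra hcon
    push Not at hcon
    have h0 : Fintype.card (Function.fixedPoints f) = 0 := by
      rw [Fintype.card_eq_zero_iff]
      exact ⟨fun d => hcon d.1 d.2⟩
    rw [h0] at hcard
    have h1 : p ∣ Fintype.card (Sylow q L) := (Nat.modEq_zero_iff_dvd).1 hcard
    rw [← Nat.card_eq_fintype_card] at h1
    obtain ⟨P⟩ : Nonempty (Sylow q L) := inferInstance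
    exact hL (h1.trans ((Sylow.card_dvd_index P).trans (Subgroup.index_dvd_card _)))
  refine ⟨(P : Subgroup L).map L.subtype, Subgroup.map_subtype_le _, ?_, ?_, ?_⟩
  · rintro _ ⟨x, hx, rfl⟩
    obtain ⟨j, hj⟩ := P.isPGroup' ⟨x, hx⟩
    exact ⟨j, congrArg (fun y : P => ((y : L) : G)) hj⟩
  · rintro _ ⟨x, hx, rfl⟩
    have h1 : σ x ∈ (P : Subgroup L) := by
      have h2 : (σ • P : Sylow q L) = P := hP
      have h3 : σ x ∈ (σ • P : Sylow q L) := by
        change σ x ∈ ((σ • P : Sylow q L) : Subgroup L)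
        rw [Sylow.pointwise_smul_def]
        exact Subgroup.smul_mem_pointwise_smul x σ _ hx
      rw [h2] at h3
      exact h3
    exact ⟨σ x, h1, rfl⟩
  · have h1 : ((P : Subgroup L).map L.subtype).relIndex L = (P : Subgroup L).index := by
      unfold Subgroup.relIndex
      congr 1
      ext x
      rw [Subgroup.mem_subgroupOf, Subgroup.mem_map]
      constructor
      · rintro ⟨y, hy, e⟩
        rw [← Subtype.ext e]
        exact hy
      · intro h
        exact ⟨x, h, rfl⟩
    rw [h1]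
    exact P.not_dvd_index

/-- an element centralising all invariant subgroups of prime power order -/
theorem cov {p k : ℕ} (hp : p.Prime) {L : Subgroup G} (hLf : Finite L)
    {g z : G} (hg : g ^ p ^ k = 1) (hL : ¬ p ∣ Nat.card L) (hgL : ∀ x ∈ L, g * x * g⁻¹ ∈ L)
    (h : ∀ q : ℕ, q.Prime → q ≠ p → ∀ S : Subgroup G, S ≤ L → (∀ x ∈ S, ∃ j : ℕ, x ^ q ^ j = 1) →
      (∀ x ∈ S, g * x * g⁻¹ ∈ S) → ∀ x ∈ S, z * x = x * z) : ∀ x ∈ L, z * x = x * z := by
  have h1 : (L ⊓ Subgroup.centralizer {z}).relIndex L = 1 := by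
    by_contra hne
    obtain ⟨q, hq, hqd⟩ := Nat.exists_prime_and_dvd hne
    have hqp : q ≠ p := by
      rintro rfl
      exact hL (hqd.trans (Subgroup.relIndex_dvd_card _ _))
    obtain ⟨S, hSL, hS1, hS2, hS3⟩ := inv_sylow hp hq hLf hg hL hgL
    have h2 := h q hq hqp S hSL hS1 hS2
    have h3 : S ≤ L ⊓ Subgroup.centralizer {z} := by
      intro x hx
      exact ⟨hSL hx, Subgroup.mem_centralizer_singleton_iff.2 (h2 x hx).symm⟩
    apply hS3
    rw [← Subgroup.relIndex_mul_relIndex _ _ _ h3 inf_le_left]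
    exact hqd.trans (dvd_mul_left _ _)
  rw [Subgroup.relIndex_eq_one] at h1
  intro x hx
  exact (Subgroup.mem_centralizer_singleton_iff.1 (h1 hx).2).symm

end Pool.Agent.TH69.Og
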