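import Mathlib
import Pool.Agent.TH69.OgA

set_option autoImplicit false

/-!
# Groups of exponent `n` with finite soluble two-generator subgroups, part B: the theorem of Hall
# and Higman
-/

namespace Pool.Agent.TH69.Og

open Pool.Agent.H32BU Pool.Agent.W629 Pool.Agent.TH69.Mtn Pool.Agent.TH69.Od

/-- the configuration of the theorem does not occur -/
theorem no_confG {p α m : ℕ} (hp : p.Prime) (hpm : ¬ p ∣ m) (hm : m ≠ 0) (hα : 1 ≤ α)
    (hex : ∀ q : ℕ, q.Prime → q ∣ m → ∀ μ, 1 ≤ μ → μ ≤ α → ∀ r, 1 ≤ r → q ^ r ≠ p ^ μ - 1)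
    {F : Type} [Group F] [Finite F] (hF : ∀ x : F, x ^ (p ^ α * m) = 1) {x : F}
    (hx : x ^ p ^ α = 1) (V L : Subgroup F) (hV : V.Normal) (hL : L.Normal) (hVL : V ≤ L)
    (hab : ∀ v ∈ V, ∀ w ∈ V, v * w = w * v) (hpow : ∀ v ∈ V, v ^ p = 1)
    (hLQ : ∀ x ∈ L, x ^ m ∈ V) (hC : ∀ x ∈ L, (∀ v ∈ V, x * v = v * x) → x ∈ V)
    {s : F} (hs : s ∈ L) : x ^ p ^ (α - 1) * s * (x ^ p ^ (α - 1))⁻¹ * s⁻¹ ∈ V := by
  classical
  have hcpm : Nat.Coprime p m := (Nat.Prime.coprime_iff_not_dvd hp).2 hpm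
  obtain ⟨z, hz⟩ : ∃ z, z = x ^ p ^ (α - 1) := ⟨_, rfl⟩
  rw [← hz]
  obtain ⟨L', hL'⟩ : ∃ L', L' = L.map (QuotientGroup.mk' V) := ⟨_, rfl⟩
  have hL'n : L'.Normal := by
    rw [hL']
    exact Subgroup.Normal.map hL _ (QuotientGroup.mk'_surjective V)
  have hL'm : ∀ y ∈ L', y ^ m = 1 := by
    intro y hy
    rw [hL'] at hy
    obtain ⟨l, hl, rfl⟩ := hy
    have := hLQ l hl
    rw [← QuotientGroup.eq_one_iff, QuotientGroup.mk_pow] at this
    exact this
  have hL'L : ∀ y : F, (y : F ⧸ V) ∈ L' → y ∈ L := by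
    intro y hy
    rw [hL'] at hy
    obtain ⟨l, hl, e⟩ := hy
    have h1 : l⁻¹ * y ∈ V := QuotientGroup.eq.1 e
    have h2 := mul_mem hl (hVL h1)
    rwa [mul_inv_cancel_left] at h2
  have hpL' : ¬ p ∣ Nat.card L' := by
    intro h
    have : Fact p.Prime := ⟨hp⟩
    obtain ⟨y, hy⟩ := exists_prime_orderOf_dvd_card' p h
    have h1 : orderOf y ∣ m := orderOf_dvd_of_pow_eq_one (Subtype.ext (hL'm y y.2))
    rw [hy] at h1
    exact hpm h1
  have key := cov (g := (x : F ⧸ V)) (z := (z : F ⧸ V)) (k := α) hp (L := L') inferInstance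
    (by rw [← QuotientGroup.mk_pow, hx]; rfl) hpL' (fun y hy => hL'n.conj_mem y hy _) (by
    intro q hq hqp S hSL hSq hSx
    by_cases hqm : q ∣ m
    swap
    · -- `S` is trivial
      intro y hy
      obtain ⟨j, hj⟩ := hSq y hy
      have h1 : y = 1 := W629.eq_one_of_coprime
        (Nat.Coprime.pow_left j ((Nat.Prime.coprime_iff_not_dvd hq).2 hqm)) hj
        (hL'm y (hSL hy))
      rw [h1, mul_one, one_mul]
    -- the preimage
    obtain ⟨Lq, hLq⟩ : ∃ Lq, Lq = S.comap (QuotientGroup.mk' V) := ⟨_, rfl⟩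
    have hLqm : ∀ y : F, y ∈ Lq ↔ (y : F ⧸ V) ∈ S := by
      intro y
      rw [hLq]
      rfl
    have hVq : V ≤ Lq := by
      intro v hv
      rw [hLqm, (QuotientGroup.eq_one_iff v).2 hv]
      exact one_mem _
    have hLqL : Lq ≤ L := fun y hy => hL'L y (hSL ((hLqm y).1 hy))
    have hxq : ∀ y ∈ Lq, x * y * x⁻¹ ∈ Lq := by
      intro y hy
      rw [hLqm] at hy ⊢
      exact hSx _ hy
    have hxn : x ∈ Subgroup.normalizer (Lq : Set F) := mem_norm (Nat.pow_pos hp.pos) hx hxq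
    obtain ⟨F', hF'⟩ : ∃ F', F' = XZs Lq x hxn := ⟨_, rfl⟩
    have hxF' : x ∈ F' := by
      rw [hF']
      refine ⟨-1, ?_⟩
      rw [zpow_neg_one, mul_inv_cancel]
      exact one_mem _
    have hLF' : Lq ≤ F' := by
      intro y hy
      rw [hF']
      refine ⟨0, ?_⟩
      rwa [zpow_zero, mul_one]
    have hF'n : F' ≤ Subgroup.normalizer (Lq : Set F) := by
      intro y hy
      rw [hF'] at hy
      obtain ⟨j, hj⟩ := hy
      have h1 := mul_mem (Subgroup.le_normalizer hj) (inv_mem (zpow_mem hxn j))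
      rwa [mul_inv_cancel_right] at h1
    obtain ⟨β, m', hm', hmm⟩ := Nat.exists_eq_pow_mul_and_not_dvd hm q hq.ne_one
    have hqp' : Nat.Coprime p q := (Nat.coprime_primes hp hq).2 hqp.symm
    have hpm'' : Nat.Coprime p m' := by
      rw [hmm] at hcpm
      exact Nat.Coprime.coprime_mul_left_right hcpm
    have hexp : ∀ y : F', y ^ (p ^ α * q ^ β) = 1 := by
      rintro ⟨y, hy⟩
      apply Subtype.ext
      change y ^ (p ^ α * q ^ β) = 1
      have hy' := hy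
      rw [hF'] at hy'
      obtain ⟨j, hj⟩ := hy'
      have h1 := xz_pow hxn hx hj
      rw [hLqm] at h1
      obtain ⟨i, hi⟩ := hSq _ h1
      rw [← QuotientGroup.mk_pow, QuotientGroup.eq_one_iff] at hi
      have h2 := hpow _ hi
      have h3 : y ^ (p ^ (α + 1) * q ^ i) = 1 := by
        rw [← h2, ← pow_mul, ← pow_mul]
        congr 1
        ring
      have h4 := orderOf_dvd_of_pow_eq_one h3
      have h5 := orderOf_dvd_of_pow_eq_one (hF y)
      rw [hmm, ← mul_assoc] at h5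
      apply orderOf_dvd_iff_pow_eq_one.1
      refine Nat.Coprime.dvd_of_dvd_mul_right ?_ h5
      refine Nat.Coprime.coprime_dvd_left h4 (Nat.Coprime.mul_left ?_ ?_)
      · exact Nat.Coprime.pow_left _ hpm''
      · exact Nat.Coprime.pow_left _ ((Nat.Prime.coprime_iff_not_dvd hq).2 hm')
    intro y hy
    obtain ⟨l, rfl⟩ := QuotientGroup.mk_surjective y
    have hl : l ∈ Lq := (hLqm l).2 hy
    have h6 := no_conf (p := p) (q := q) (β := β) hp hq hqp.symm hα (hex q hq hqm) (F := F')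
      hexp (x := ⟨x, hxF'⟩) (Subtype.ext hx) (V.subgroupOf F') (Lq.subgroupOf F')
      ⟨fun v hv g => hV.conj_mem v hv g⟩
      ⟨fun v hv g => ((Subgroup.mem_normalizer_iff.1 (hF'n g.2)) v).1 hv⟩
      (fun v hv => hVq hv) (fun v hv w hw => Subtype.ext (hab v hv w hw))
      (fun v hv => Subtype.ext (hpow v hv)) (by
        rintro ⟨y, hy⟩ hyL
        change y ^ q ^ β ∈ V
        have h7 : (y : F ⧸ V) ∈ S := (hLqm y).1 hyL
        obtain ⟨i, hi⟩ := hSq _ h7
        have h8 := hL'm _ (hSL h7)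
        rw [← QuotientGroup.eq_one_iff, QuotientGroup.mk_pow]
        apply orderOf_dvd_iff_pow_eq_one.1
        have h9 := orderOf_dvd_of_pow_eq_one hi
        have h10 := orderOf_dvd_of_pow_eq_one h8
        rw [hmm] at h10
        refine Nat.Coprime.dvd_of_dvd_mul_right ?_ h10
        refine Nat.Coprime.coprime_dvd_left h9 ?_
        exact Nat.Coprime.pow_left _ ((Nat.Prime.coprime_iff_not_dvd hq).2 hm'))
      (fun y hy hyv => hC y (hLqL hy) fun v hv =>
        congrArg Subtype.val (hyv ⟨v, hLF' (hVq hv)⟩ hv))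
      (s := ⟨l, hLF' hl⟩) hl
    have h7 : z * l * z⁻¹ * l⁻¹ ∈ V := by
      rw [hz]
      exact h6
    rw [← QuotientGroup.eq_one_iff] at h7
    have h8 : (z : F ⧸ V) * l * (z : F ⧸ V)⁻¹ * (l : F ⧸ V)⁻¹ = 1 := h7
    rw [mul_inv_eq_one, mul_inv_eq_iff_eq_mul] at h8
    exact h8)
  have h1 := key (s : F ⧸ V) (by rw [hL']; exact ⟨s, hs, rfl⟩)
  rw [← QuotientGroup.eq_one_iff]
  change (z : F ⧸ V) * s * (z : F ⧸ V)⁻¹ * (s : F ⧸ V)⁻¹ = 1
  rw [mul_inv_eq_one, mul_inv_eq_iff_eq_mul]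
  exact h1

end Pool.Agent.TH69.Og
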