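import Mathlib
import Pool.Agent.TH69.OgB

set_option autoImplicit false

/-!
# Groups of exponent `n` with finite soluble two-generator subgroups, part C: elements of `O_{p',p}`
-/

namespace Pool.Agent.TH69.Og

open Pool.Agent.H32BU Pool.Agent.W629 Pool.Agent.TH69.Mtn Pool.Agent.TH69.Od

/-- induction principle for the property `TT` -/
theorem ind_TTG {p α m : ℕ} (hp : p.Prime) (hpm' : Nat.Coprime p m)
    (R : (F : Type) → [Group F] → F → Prop)
    (hR : ∀ (F : Type) [Group F] (N : Subgroup F) [N.Normal] (z : F), R F z → R (F ⧸ N) (z : F ⧸ N))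
    (hbad : ∀ (F : Type) [Group F] [Finite F], (∀ x : F, x ^ (p ^ α * m) = 1) → ∀ z : F,
      z ^ p ^ α = 1 → R F z → ∀ V L : Subgroup F, V.Normal → L.Normal → V ≤ L →
      (∀ v ∈ V, ∀ w ∈ V, v * w = w * v) → (∀ v ∈ V, v ^ p = 1) → (∀ x ∈ L, x ^ m ∈ V) →
      (∀ x ∈ L, (∀ v ∈ V, x * v = v * x) → x ∈ V) →
      ∀ s ∈ L, s ^ m = 1 → z * s * z⁻¹ * s⁻¹ ∈ V) :
    ∀ d : ℕ, ∀ (F : Type) [Group F] [Finite F], Nat.card F ≤ d →
      (∀ x : F, x ^ (p ^ α * m) = 1) → Group.IsSolvable F → ∀ z : F, z ^ p ^ α = 1 → R F z →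
      TT (p ^ α) m ⊤ z := by
  have hab : Nat.Coprime (p ^ α) m := Nat.Coprime.pow_left _ hpm'
  have hcardq : ∀ (F : Type) [Group F] [Finite F] (N : Subgroup F), N ≠ ⊥ →
      Nat.card (F ⧸ N) < Nat.card F := by
    intro F _ _ N hN
    have h1 := Subgroup.card_eq_card_quotient_mul_card_subgroup N
    have h2 : 1 < Nat.card N := by
      have : Nontrivial N := (Subgroup.nontrivial_iff_ne_bot N).2 hN
      exact Finite.one_lt_card
    have h3 : 0 < Nat.card (F ⧸ N) := Nat.card_pos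
    rw [h1]
    exact lt_mul_of_one_lt_right h3 h2
  intro d
  induction d with
  | zero =>
    intro F _ _ hd
    have : 0 < Nat.card F := Nat.card_pos
    omega
  | succ d ih =>
    intro F _ _ hd hF hsol z hz hRz
    by_cases hRq : Rad m F = ⊥
    swap
    · -- pass to the quotient
      have h1 := ih (F ⧸ Rad m F) (by have := hcardq F _ hRq; omega) (exp_quot hF _)
        (Group.isSolvable_of_surjective (QuotientGroup.mk'_surjective _)) z
        (by rw [← QuotientGroup.mk_pow, hz]; rfl) (hR F _ z hRz)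
      obtain ⟨A, B, h2, h3, h4, h5, h6⟩ := h1
      refine ⟨A.comap (QuotientGroup.mk' _), B.comap (QuotientGroup.mk' _), ?_, ?_, ?_, ?_, h6⟩
      · intro g _ x hx
        exact h2 (g : F ⧸ Rad m F) (Subgroup.mem_top _) _ hx
      · intro g _ x hx
        exact h3 (g : F ⧸ Rad m F) (Subgroup.mem_top _) _ hx
      · intro x hx
        exact pow_of_mk hab.symm (fun x => by rw [mul_comm]; exact hF x) _
          (fun x hx => rad_pow hx) (h4 _ hx)
      · intro x hx
        exact h5 _ hx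
    by_cases hzR : z ∈ Rad (p ^ α) F
    · refine ⟨⊥, Rad (p ^ α) F, ?_, ?_, ?_, ?_, hzR⟩
      · intro g _ x hx
        rw [Subgroup.mem_bot] at hx ⊢
        rw [hx, mul_one, mul_inv_cancel]
      · intro g _ x hx
        exact (rad_normal _).conj_mem x hx g
      · intro x hx
        rw [Subgroup.mem_bot] at hx
        rw [hx, one_pow]
      · intro x hx
        rw [rad_pow hx]
        exact one_mem _
    exfalso
    have hRp : Rad (p ^ α) F ≠ ⊥ := by
      intro h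
      have h1 := hall_higman hab hF hsol h (x := z) (by
        intro e he
        rw [hRq, Subgroup.mem_bot] at he
        rw [he, mul_one, one_mul])
      rw [hRq, Subgroup.mem_bot] at h1
      apply hzR
      rw [h1]
      exact one_mem _
    obtain ⟨V, hV, hV1, hVR, hVc, hVp⟩ := exists_omega hp (Rad (p ^ α) F) inferInstance hRp
      fun x hx => rad_pow hx
    have hVab : ∀ v ∈ V, ∀ w ∈ V, v * w = w * v := fun v hv w hw => hVc v hv w (hVR hw)
    have hVP : ∀ v ∈ V, v ^ p ^ α = 1 := fun v hv => rad_pow (hVR hv)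
    have h1 := ih (F ⧸ V) (by have := hcardq F _ hV1; omega) (exp_quot hF _)
      (Group.isSolvable_of_surjective (QuotientGroup.mk'_surjective _)) z
      (by rw [← QuotientGroup.mk_pow, hz]; rfl) (hR F _ z hRz)
    obtain ⟨A, B, h2, h3, h4, h5, h6⟩ := h1
    have hAn : A.Normal := ⟨fun x hx g => h2 g (Subgroup.mem_top _) x hx⟩
    have hBn : B.Normal := ⟨fun x hx g => h3 g (Subgroup.mem_top _) x hx⟩
    let L : Subgroup F := A.comap (QuotientGroup.mk' V)
    have hLn : L.Normal := inferInstance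
    have hVL : V ≤ L := by
      intro v hv
      change ((v : F) : F ⧸ V) ∈ A
      rw [(QuotientGroup.eq_one_iff v).2 hv]
      exact one_mem _
    have hLQ : ∀ x ∈ L, x ^ m ∈ V := by
      intro x hx
      have h7 := h4 _ hx
      rw [← QuotientGroup.eq_one_iff, QuotientGroup.mk_pow]
      exact h7
    obtain ⟨a, b, ha, hb, ca, cb, cab⟩ := crt hab
    -- the centralizer of `V` in `L`
    have hCV : ∀ x ∈ L, (∀ v ∈ V, x * v = v * x) → x ∈ V := by
      let C : Subgroup F :=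
        { carrier := {x | x ∈ L ∧ ∀ v ∈ V, x * v = v * x}
          one_mem' := ⟨one_mem _, fun v _ => by rw [mul_one, one_mul]⟩
          mul_mem' := by
            rintro x y ⟨hx, hx2⟩ ⟨hy, hy2⟩
            refine ⟨mul_mem hx hy, fun v hv => ?_⟩
            rw [mul_assoc, hy2 v hv, ← mul_assoc, hx2 v hv, mul_assoc]
          inv_mem' := by
            rintro x ⟨hx, hx2⟩
            refine ⟨inv_mem hx, fun v hv => ?_⟩
            have h1 := hx2 v hv
            rw [inv_mul_eq_iff_eq_mul, ← mul_assoc, h1]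
            group }
      have hCn : C.Normal := by
        refine ⟨?_⟩
        rintro x ⟨hx, hx2⟩ g
        refine ⟨hLn.conj_mem x hx g, fun v hv => ?_⟩
        have h7 : g⁻¹ * v * g ∈ V := by
          have := hV.conj_mem v hv g⁻¹
          rwa [inv_inv] at this
        have h8 := hx2 _ h7
        calc g * x * g⁻¹ * v = g * (x * (g⁻¹ * v * g)) * g⁻¹ := by group
          _ = g * ((g⁻¹ * v * g) * x) * g⁻¹ := by rw [h8]
          _ = v * (g * x * g⁻¹) := by group
      have hR0 : Rad m C = ⊥ := by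
        refine rad_sub_bot C hCn fun N hN hNm => ?_
        have h9 := le_rad hab.symm (fun x => by rw [mul_comm]; exact hF x) N hNm
        rw [hRq] at h9
        exact le_bot_iff.1 h9
      intro x hx hx2
      have hxC : x ∈ C := ⟨hx, hx2⟩
      have hRV : ∀ e ∈ Rad (p ^ α) C, (e : F) ∈ V := by
        intro e he
        exact mem_of_pow hab (x := (e : F)) (congrArg Subtype.val (rad_pow he)) (hLQ e e.2.1)
      have h10 := hall_higman (G := C) (a := m) (b := p ^ α) hab.symm (fun x => Subtype.ext (by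
        rw [Subgroup.coe_pow, mul_comm]
        exact hF x)) inferInstance hR0 (x := ⟨x, hxC⟩) (by
        intro e he
        apply Subtype.ext
        exact hx2 e (hRV e he))
      exact hRV _ h10
    have h7 := hbad F hF z hz hRz V L hV hLn hVL hVab hVp hLQ hCV
    -- `z` centralises `A`
    have h8 : ∀ x ∈ A, (z : F ⧸ V) * x = x * z := by
      intro x hx
      obtain ⟨l, rfl⟩ := QuotientGroup.mk_surjective x
      have h9 : (l : F ⧸ V) ^ a = l := ca _ (h4 _ hx)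
      have h10 : (l ^ a) ^ m = 1 := by
        obtain ⟨a', rfl⟩ := ha
        rw [← pow_mul, show p ^ α * a' * m = (p ^ α * m) * a' from by ring, pow_mul, hF,
          one_pow]
      have h11 := h7 (l ^ a) (pow_mem (show l ∈ L from hx) a) h10
      rw [← QuotientGroup.eq_one_iff] at h11
      have h12 : (z : F ⧸ V) * (l : F ⧸ V) ^ a * (z : F ⧸ V)⁻¹ * ((l : F ⧸ V) ^ a)⁻¹ = 1 := h11
      rw [h9, mul_inv_eq_one, mul_inv_eq_iff_eq_mul] at h12
      exact h12
    let D : Subgroup (F ⧸ V) :=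
      { carrier := {x | x ∈ B ∧ ∀ v ∈ A, x * v = v * x}
        one_mem' := ⟨one_mem _, fun v _ => by rw [mul_one, one_mul]⟩
        mul_mem' := by
          rintro x y ⟨hx, hx2⟩ ⟨hy, hy2⟩
          refine ⟨mul_mem hx hy, fun v hv => ?_⟩
          rw [mul_assoc, hy2 v hv, ← mul_assoc, hx2 v hv, mul_assoc]
        inv_mem' := by
          rintro x ⟨hx, hx2⟩
          refine ⟨inv_mem hx, fun v hv => ?_⟩
          have h1 := hx2 v hv
          rw [inv_mul_eq_iff_eq_mul, ← mul_assoc, h1]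
          group }
    have hDn : D.Normal := by
      refine ⟨?_⟩
      rintro x ⟨hx, hx2⟩ g
      refine ⟨hBn.conj_mem x hx g, fun v hv => ?_⟩
      have h7 : g⁻¹ * v * g ∈ A := by
        have := hAn.conj_mem v hv g⁻¹
        rwa [inv_inv] at this
      have h8 := hx2 _ h7
      calc g * x * g⁻¹ * v = g * (x * (g⁻¹ * v * g)) * g⁻¹ := by group
        _ = g * ((g⁻¹ * v * g) * x) * g⁻¹ := by rw [h8]
        _ = v * (g * x * g⁻¹) := by group
    have hzD : (z : F ⧸ V) ∈ D := ⟨h6, h8⟩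
    have h9 := nilpG hp hab hpm' (exp_quot hF V) D hDn (by
      intro x hx y hy hyq
      have h10 : y ∈ A := mem_of_pow hab.symm hyq (h5 y hy.1)
      exact hx.2 y h10) hzD (by rw [← QuotientGroup.mk_pow, hz]; rfl)
    apply hzR
    have h10 : (Rad (p ^ α) (F ⧸ V)).comap (QuotientGroup.mk' V) ≤ Rad (p ^ α) F := by
      refine le_rad hab hF _ fun x hx => ?_
      exact pow_of_mk hab hF V hVP (rad_pow (show (x : F ⧸ V) ∈ Rad (p ^ α) (F ⧸ V) from hx))
    exact h10 h9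


/-- the theorem of Hall and Higman: powers of elements of maximal order -/
theorem hhBG {p α m : ℕ} (hp : p.Prime) (hpm : ¬ p ∣ m) (hm : m ≠ 0) (hα : 1 ≤ α)
    (hex : ∀ q : ℕ, q.Prime → q ∣ m → ∀ μ, 1 ≤ μ → μ ≤ α → ∀ r, 1 ≤ r → q ^ r ≠ p ^ μ - 1)
    {F : Type} [Group F] [Finite F] (hF : ∀ x : F, x ^ (p ^ α * m) = 1)
    (hsol : Group.IsSolvable F) {x : F}
    (hx : x ^ p ^ α = 1) : TT (p ^ α) m ⊤ (x ^ p ^ (α - 1)) := by
  have hcpm : Nat.Coprime p m := (Nat.Prime.coprime_iff_not_dvd hp).2 hpm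
  refine ind_TTG hp hcpm (fun F _ z => ∃ x : F, x ^ p ^ α = 1 ∧ z = x ^ p ^ (α - 1)) ?_ ?_
    (Nat.card F) F le_rfl hF hsol _ ?_ ⟨x, hx, rfl⟩
  · rintro F _ N _ _ ⟨x, hx, rfl⟩
    exact ⟨x, by rw [← QuotientGroup.mk_pow, hx]; rfl, by rw [QuotientGroup.mk_pow]⟩
  · rintro F _ _ hF _ - ⟨x, hx, rfl⟩ V L hV hL hVL hVab hVp hLQ hC s hs _
    exact no_confG hp hpm hm hα hex hF hx V L hV hL hVL hVab hVp hLQ hC hs
  · rw [← pow_mul, mul_comm, pow_mul, hx, one_pow]

variable {F : Type} [Group F]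

/-- elements of `O_{p',p}` are detected on two-generator subgroups -/
theorem bsG {p α m : ℕ} (hp : p.Prime) (hpm' : Nat.Coprime p m) [Finite F]
    (hF : ∀ x : F, x ^ (p ^ α * m) = 1) (hsol : Group.IsSolvable F) {z : F} (hz : z ^ p ^ α = 1)
    (h : ∀ f : F, TT (p ^ α) m (c2 z f) z) : TT (p ^ α) m ⊤ z := by
  have hab : Nat.Coprime (p ^ α) m := Nat.Coprime.pow_left _ hpm'
  refine ind_TTG hp hpm' (fun F _ z => ∀ f : F, TT (p ^ α) m (c2 z f) z) ?_ ?_
    (Nat.card F) F le_rfl hF hsol _ hz h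
  · intro F _ N _ z h f
    obtain ⟨f, rfl⟩ := QuotientGroup.mk_surjective f
    have h1 := (h f).map (QuotientGroup.mk' N)
    have h2 : (c2 z f).map (QuotientGroup.mk' N) = c2 (z : F ⧸ N) (f : F ⧸ N) := by
      unfold c2
      rw [MonoidHom.map_closure, Set.image_pair]
      rfl
    rw [h2] at h1
    exact h1
  clear hF hz h z hsol
  intro F _ _ hF z hz h V L hV hL hVL hVab hVp hLQ hC s hs hsQ
  -- the subgroup of the quotient
  obtain ⟨E, hE⟩ : ∃ E, E = c2 (z : F ⧸ V) (s : F ⧸ V) := ⟨_, rfl⟩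
  have hzE : (z : F ⧸ V) ∈ E := by
    rw [hE]
    exact Subgroup.subset_closure (by simp)
  have hsE : (s : F ⧸ V) ∈ E := by
    rw [hE]
    exact Subgroup.subset_closure (by simp)
  obtain ⟨c, hc⟩ : ∃ c : F ⧸ V, c = z * s * (z : F ⧸ V)⁻¹ * (s : F ⧸ V)⁻¹ := ⟨_, rfl⟩
  have hLn := hL
  obtain ⟨L', hL'⟩ : ∃ L', L' = L.map (QuotientGroup.mk' V) := ⟨_, rfl⟩
  have hL'n : L'.Normal := by
    rw [hL']
    exact Subgroup.Normal.map hL _ (QuotientGroup.mk'_surjective V)
  have hL'Q : ∀ x ∈ L', x ^ m = 1 := by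
    intro x hx
    rw [hL'] at hx
    obtain ⟨l, hl, rfl⟩ := hx
    have := hLQ l hl
    rw [← QuotientGroup.eq_one_iff, QuotientGroup.mk_pow] at this
    exact this
  have hL'L : ∀ x : F, (x : F ⧸ V) ∈ L' → x ∈ L := by
    intro x hx
    rw [hL'] at hx
    obtain ⟨l, hl, e⟩ := hx
    have h1 : l⁻¹ * x ∈ V := QuotientGroup.eq.1 e
    have h2 := mul_mem hl (hVL h1)
    rwa [mul_inv_cancel_left] at h2
  have hsL' : (s : F ⧸ V) ∈ L' := by
    rw [hL']
    exact ⟨s, hs, rfl⟩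
  have hcL' : c ∈ L' := by
    rw [hc]
    exact mul_mem (hL'n.conj_mem _ hsL' _) (inv_mem hsL')
  let N : Subgroup (F ⧸ V) := Subgroup.closure {x | ∃ g ∈ E, x = g * c * g⁻¹}
  have hNE : ∀ g ∈ E, ∀ x ∈ N, g * x * g⁻¹ ∈ N := by
    intro g hg x hx
    induction hx using Subgroup.closure_induction with
    | mem x hx =>
      obtain ⟨g', hg', rfl⟩ := hx
      refine Subgroup.subset_closure ⟨g * g', mul_mem hg hg', ?_⟩
      group
    | one => rw [mul_one, mul_inv_cancel]; exact one_mem _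
    | mul x y _ _ hx hy =>
      have e : g * (x * y) * g⁻¹ = (g * x * g⁻¹) * (g * y * g⁻¹) := by group
      rw [e]
      exact mul_mem hx hy
    | inv x _ hx =>
      have e : g * x⁻¹ * g⁻¹ = (g * x * g⁻¹)⁻¹ := by group
      rw [e]
      exact inv_mem hx
  have hNle : ∀ A : Subgroup (F ⧸ V), (∀ g ∈ E, ∀ x ∈ A, g * x * g⁻¹ ∈ A) → c ∈ A → N ≤ A := by
    intro A hA hcA
    rw [Subgroup.closure_le]
    rintro _ ⟨g, hg, rfl⟩
    exact hA g hg c hcA
  have hcN : c ∈ N := Subgroup.subset_closure ⟨1, one_mem _, by group⟩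
  have hNL' : N ≤ L' := hNle L' (fun g _ x hx => hL'n.conj_mem x hx g) hcL'
  -- the subgroups `B'`
  have hBv : ∀ v ∈ V, ∃ B' : Subgroup F, (∀ b ∈ B', b ^ m = 1) ∧
      (∀ g : F, g = z ∨ g = z⁻¹ ∨ g = s * v ∨ g = (s * v)⁻¹ → ∀ b ∈ B', g * b * g⁻¹ ∈ B') ∧
      (∀ b ∈ B', (b : F ⧸ V) ∈ N) ∧ (∀ b : F, (b : F ⧸ V) ∈ N → ∃ w ∈ V, b * w ∈ B') := by
    intro v hv
    obtain ⟨A, B, h1, h2, h3, h4, h5⟩ := h (s * v)
    have hz1 : z ∈ c2 z (s * v) := Subgroup.subset_closure (by simp)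
    have hs1 : s * v ∈ c2 z (s * v) := Subgroup.subset_closure (by simp)
    have hv1 : ((s * v : F) : F ⧸ V) = s := by
      rw [QuotientGroup.mk_mul, (QuotientGroup.eq_one_iff v).2 hv, mul_one]
    have hmapE : (c2 z (s * v)).map (QuotientGroup.mk' V) = E := by
      rw [hE]
      unfold c2
      rw [MonoidHom.map_closure, Set.image_pair]
      change Subgroup.closure {(z : F ⧸ V), ((s * v : F) : F ⧸ V)} = _
      rw [hv1]
    have hNA : N ≤ A.map (QuotientGroup.mk' V) := by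
      apply hNle
      · intro g hg x hx
        rw [← hmapE] at hg
        obtain ⟨g, hg, rfl⟩ := hg
        obtain ⟨x, hx, rfl⟩ := hx
        exact ⟨g * x * g⁻¹, h1 g hg x hx, by simp⟩
      · have h6 : z * (s * v) * z⁻¹ * (s * v)⁻¹ ∈ B := by
          have h7 := mul_mem h5 (h2 (s * v) hs1 _ (inv_mem h5))
          have e : z * ((s * v) * z⁻¹ * (s * v)⁻¹) = z * (s * v) * z⁻¹ * (s * v)⁻¹ := by group
          rwa [e] at h7
        have h7 : ((z * (s * v) * z⁻¹ * (s * v)⁻¹ : F) : F ⧸ V) = c := by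
          rw [hc, QuotientGroup.mk_mul, QuotientGroup.mk_mul, QuotientGroup.mk_mul,
            QuotientGroup.mk_inv, QuotientGroup.mk_inv, hv1]
        refine mem_of_pow hab.symm (hL'Q c hcL') ?_
        exact ⟨_, h4 _ h6, by rw [map_pow]; exact congrArg (· ^ p ^ α) h7⟩
    refine ⟨A ⊓ N.comap (QuotientGroup.mk' V), fun b hb => h3 b hb.1, ?_, fun b hb => hb.2, ?_⟩
    · have key : ∀ g ∈ c2 z (s * v), ∀ b ∈ A ⊓ N.comap (QuotientGroup.mk' V),
          g * b * g⁻¹ ∈ A ⊓ N.comap (QuotientGroup.mk' V) := by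
        intro g hg b hb
        refine ⟨h1 g hg b hb.1, ?_⟩
        have h8 : (g : F ⧸ V) ∈ E := by
          rw [← hmapE]
          exact ⟨g, hg, rfl⟩
        exact hNE _ h8 _ hb.2
      rintro g (rfl | rfl | rfl | rfl)
      · exact key _ hz1
      · exact key _ (inv_mem hz1)
      · exact key _ hs1
      · exact key _ (inv_mem hs1)
    · intro b hb
      obtain ⟨a, ha, e⟩ := hNA hb
      have e' : (a : F ⧸ V) = b := e
      refine ⟨b⁻¹ * a, QuotientGroup.eq.1 e'.symm, ?_⟩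
      rw [mul_inv_cancel_left]
      refine ⟨ha, ?_⟩
      change (a : F ⧸ V) ∈ N
      rw [e']
      exact hb
  obtain ⟨B, hB1, hB2, hB3, hB4⟩ := hBv 1 (one_mem _)
  rw [mul_one] at hB2
  have hcopr : Nat.Coprime m p := hpm'.symm
  have hBz : ∀ b ∈ B, z * b * z⁻¹ ∈ B := hB2 z (Or.inl rfl)
  have hBz' : ∀ b ∈ B, z⁻¹ * b * z ∈ B := by
    intro b hb
    have := hB2 z⁻¹ (Or.inr (Or.inl rfl)) b hb
    rwa [inv_inv] at this
  have hhalf := half' V p z s hp hV hVab hVp B (fun b hb => ⟨m, hcopr, hB1 b hb⟩) hBz hBz'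
    (hB2 s (Or.inr (Or.inr (Or.inl rfl)))) (by
      intro b hb
      have := hB2 s⁻¹ (Or.inr (Or.inr (Or.inr rfl))) b hb
      rwa [inv_inv] at this) (by
      intro v hv
      obtain ⟨B', h1, h2, h3, h4⟩ := hBv v hv
      exact ⟨B', fun b hb => ⟨m, hcopr, h1 b hb⟩, h2 z (Or.inl rfl),
        h2 (s * v) (Or.inr (Or.inr (Or.inl rfl))), fun b hb => h4 b (hB3 b hb),
        fun b hb => hB4 b (h3 b hb)⟩)
  -- `z` centralises `B`
  have hBc : ∀ b ∈ B, b * z = z * b := by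
    intro b hb
    obtain ⟨g, hg⟩ : ∃ g, g = b * z * b⁻¹ * z⁻¹ := ⟨_, rfl⟩
    have hgB : g ∈ B := by
      have h1 := mul_mem hb (hBz _ (inv_mem hb))
      have e : b * (z * b⁻¹ * z⁻¹) = b * z * b⁻¹ * z⁻¹ := by group
      rwa [e, ← hg] at h1
    have hgL : g ∈ L := hL'L g (hNL' (hB3 g hgB))
    have hC0 : ∀ x ∈ V ⊓ Subgroup.centralizer (B : Set F), x ∈ V ∧ ∀ b ∈ B, b * x = x * b := by
      intro x hx
      exact ⟨hx.1, fun b hb => (Subgroup.mem_centralizer_iff.1 hx.2) b hb⟩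
    have hC0z : ∀ x ∈ V ⊓ Subgroup.centralizer (B : Set F),
        z * x * z⁻¹ ∈ V ⊓ Subgroup.centralizer (B : Set F) := by
      intro x hx
      refine ⟨hV.conj_mem x hx.1 z, Subgroup.mem_centralizer_iff.2 fun b hb => ?_⟩
      have h1 := (hC0 x hx).2 _ (hBz' b hb)
      calc b * (z * x * z⁻¹) = z * ((z⁻¹ * b * z) * x) * z⁻¹ := by group
        _ = z * (x * (z⁻¹ * b * z)) * z⁻¹ := by rw [h1]
        _ = z * x * z⁻¹ * b := by group
    have hz2 : ∀ u ∈ V, z * u * z⁻¹ * u⁻¹ ∈ V ⊓ Subgroup.centralizer (B : Set F) := by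
      intro u hu
      have h1 := hhalf (z * u * z⁻¹) (hV.conj_mem u hu z)
      have e : z⁻¹ * (z * u * z⁻¹) * z * (z * u * z⁻¹)⁻¹ = (z * u * z⁻¹ * u⁻¹)⁻¹ := by group
      rw [e] at h1
      have := inv_mem h1
      rwa [inv_inv] at this
    have hgV : ∀ u ∈ V, g * u = u * g := by
      intro u hu
      obtain ⟨κ, hκ⟩ : ∃ κ, κ = g * u * g⁻¹ * u⁻¹ := ⟨_, rfl⟩
      have hκC : κ ∈ V ⊓ Subgroup.centralizer (B : Set F) := by
        -- `c1 = z⁻¹ u z u⁻¹`, `u2 = b⁻¹ u b`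
        have h1 := hhalf u hu
        obtain ⟨c1, hc1⟩ : ∃ c1, c1 = z⁻¹ * u * z * u⁻¹ := ⟨_, rfl⟩
        rw [← hc1] at h1
        have hu2 : b⁻¹ * u * b ∈ V := by
          have := hV.conj_mem u hu b⁻¹
          rwa [inv_inv] at this
        have h2 := hz2 _ hu2
        obtain ⟨c2', hc2'⟩ : ∃ c2', c2' = z * (b⁻¹ * u * b) * z⁻¹ * (b⁻¹ * u * b)⁻¹ := ⟨_, rfl⟩
        rw [← hc2'] at h2
        have h3 := hC0z c1 h1
        have h4 := mul_mem h3 h2
        have e1 : b⁻¹ * c1 * b = c1 := by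
          have := (hC0 c1 h1).2 b hb
          rw [mul_assoc, ← this]
          group
        have e2 : b * (z * c1 * z⁻¹ * c2') * b⁻¹ = z * c1 * z⁻¹ * c2' := by
          have := (hC0 _ h4).2 b hb
          rw [this]
          group
        have e3 : κ = z * c1 * z⁻¹ * c2' := by
          rw [← e2, hκ, hg, hc2']
          have e4 : z⁻¹ * u * z = c1 * u := by rw [hc1]; group
          calc b * z * b⁻¹ * z⁻¹ * u * (b * z * b⁻¹ * z⁻¹)⁻¹ * u⁻¹ =
                b * z * b⁻¹ * (z⁻¹ * u * z) * b * z⁻¹ * b⁻¹ * u⁻¹ := by group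
            _ = b * z * b⁻¹ * (c1 * u) * b * z⁻¹ * b⁻¹ * u⁻¹ := by rw [e4]
            _ = b * z * (b⁻¹ * c1 * b) * (b⁻¹ * u * b) * z⁻¹ * b⁻¹ * u⁻¹ := by group
            _ = b * z * c1 * (b⁻¹ * u * b) * z⁻¹ * b⁻¹ * u⁻¹ := by rw [e1]
            _ = b * (z * c1 * z⁻¹ * (z * (b⁻¹ * u * b) * z⁻¹ * (b⁻¹ * u * b)⁻¹)) * b⁻¹ := by
                group
        rw [e3]
        exact h4
      have hcm : Commute g κ := ((hC0 κ hκC).2 g hgB)
      have h5 := comm_pow (x := g) (y := u) (c := κ) hκ.symm hcm m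
      rw [hB1 g hgB] at h5
      have h6 : κ ^ m = 1 := by rw [← h5]; group
      have h7 := W629.eq_one_of_coprime hcopr h6 (hVp κ (hC0 κ hκC).1)
      rw [h7, eq_comm, mul_inv_eq_one, mul_inv_eq_iff_eq_mul] at hκ
      exact hκ
    have h8 := hC g hgL hgV
    have h9 := W629.eq_one_of_coprime hcopr (hB1 g hgB) (hVp g h8)
    rw [h9, eq_comm, mul_inv_eq_one, mul_inv_eq_iff_eq_mul] at hg
    exact hg
  -- conclusion
  obtain ⟨c0, hc0⟩ := QuotientGroup.mk_surjective c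
  obtain ⟨w, hw, hcw⟩ := hB4 c0 (by rw [hc0]; exact hcN)
  have h1 := hBc _ hcw
  have h2 : ((c0 * w : F) : F ⧸ V) = c := by
    rw [QuotientGroup.mk_mul, (QuotientGroup.eq_one_iff w).2 hw, mul_one, hc0]
  have h3 : c * (z : F ⧸ V) = z * c := by
    rw [← h2, ← QuotientGroup.mk_mul, h1, QuotientGroup.mk_mul]
  have h4 := comm_pow (x := (z : F ⧸ V)) (y := (s : F ⧸ V)) (c := c) hc.symm
    (show Commute (z : F ⧸ V) c from h3.symm) (p ^ α)
  have h5 : (z : F ⧸ V) ^ p ^ α = 1 := by rw [← QuotientGroup.mk_pow, hz]; rfl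
  rw [h5] at h4
  have h6 : c ^ p ^ α = 1 := by rw [← h4]; group
  have h7 := W629.eq_one_of_coprime hab h6 (hL'Q c hcL')
  rw [← QuotientGroup.eq_one_iff]
  change (z : F ⧸ V) * s * (z : F ⧸ V)⁻¹ * (s : F ⧸ V)⁻¹ = 1
  rw [← hc, h7]


end Pool.Agent.TH69.Og
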