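import Mathlib
import Pool.Agent.TH69.OgD

set_option autoImplicit false

/-!
# Groups of exponent `n` with finite soluble two-generator subgroups, part E: elements acting
# nontrivially on few `s`-subgroups
-/

namespace Pool.Agent.TH69.Og

open Pool.Agent.H32BU Pool.Agent.W629 Pool.Agent.TH69.Mtn Pool.Agent.TH69.Od

variable {G : Type} [Group G]

theorem not_dvd_card {q M : ℕ} (hq : q.Prime) (hqM : Nat.Coprime q M) {L : Subgroup G}
    (hL : Finite L) (h : ∀ x ∈ L, x ^ M = 1) : ¬ q ∣ Nat.card L := by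
  intro hd
  have : Fact q.Prime := ⟨hq⟩
  obtain ⟨y, hy⟩ := exists_prime_orderOf_dvd_card' q hd
  have h1 : orderOf y ∣ M := orderOf_dvd_of_pow_eq_one (Subtype.ext (h y y.2))
  rw [hy] at h1
  exact (Nat.Prime.coprime_iff_not_dvd hq).1 hqM h1

/-- a subgroup containing all invariant subgroups of prime power order -/
theorem cov' {p k : ℕ} (hp : p.Prime) {L : Subgroup G} (hLf : Finite L)
    {g : G} (hg : g ^ p ^ k = 1) (hL : ¬ p ∣ Nat.card L) (hgL : ∀ x ∈ L, g * x * g⁻¹ ∈ L)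
    (C : Subgroup G)
    (h : ∀ q : ℕ, q.Prime → q ≠ p → ∀ S : Subgroup G, S ≤ L → (∀ x ∈ S, ∃ j : ℕ, x ^ q ^ j = 1) →
      (∀ x ∈ S, g * x * g⁻¹ ∈ S) → S ≤ C) : L ≤ C := by
  have h1 : (L ⊓ C).relIndex L = 1 := by
    by_contra hne
    obtain ⟨q, hq, hqd⟩ := Nat.exists_prime_and_dvd hne
    have hqp : q ≠ p := by
      rintro rfl
      exact hL (hqd.trans (Subgroup.relIndex_dvd_card _ _))
    obtain ⟨S, hSL, hS1, hS2, hS3⟩ := inv_sylow hp hq hLf hg hL hgL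
    have h2 := h q hq hqp S hSL hS1 hS2
    have h3 : S ≤ L ⊓ C := le_inf hSL h2
    apply hS3
    rw [← Subgroup.relIndex_mul_relIndex _ _ _ h3 inf_le_left]
    exact hqd.trans (dvd_mul_left _ _)
  rw [Subgroup.relIndex_eq_one] at h1
  exact fun x hx => (h1 hx).2

/-- invariant `s`-subgroups are centralised if there are no minimal ones -/
theorem cent_of_no_arr {n s : ℕ} (hn : n ≠ 0) (hG : ∀ x : G, x ^ n = 1) (hs : s.Prime) {w : G}
    (hno : ∀ U : Subgroup G, ¬ Arr n s w U) {S : Subgroup G} (hSf : Finite S)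
    (hS : ∀ x ∈ S, ∃ j : ℕ, x ^ s ^ j = 1) (hwS : ∀ x ∈ S, w * x * w⁻¹ ∈ S) :
    ∀ x ∈ S, w * x = x * w := by
  by_contra hcon
  push Not at hcon
  obtain ⟨U, -, hU⟩ := arr_exists (n := n) (s := s) (h := w) S hSf
    (fun u hu => pow_qp hn (hG u) hs (hS u hu)) hwS hcon
  exact hno U hU

/-- if `w` acts trivially on the finite `s`-subgroups, then `w` is in the radical -/
theorem rad_of_no_arrG {n q β M : ℕ} (S : Sg n G) (hq : q.Prime) (hqM : Nat.Coprime q M)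
    (hn : q ^ β * M = n) (rq : Rad (q ^ β) G = ⊥) {w : G} (hw : SG (q ^ β) M w)
    (hno : ∀ s : ℕ, s.Prime → s ≠ q → ∀ U : Subgroup G, ¬ Arr n s w U) : w = 1 := by
  by_contra hw1
  have hexp : ∀ x : G, x ^ (q ^ β * M) = 1 := by rw [hn]; exact S.exp
  have hab : Nat.Coprime (q ^ β) M := Nat.Coprime.pow_left _ hqM
  obtain ⟨t, ht, hwt⟩ : ∃ t : G, t ^ q ^ β = 1 ∧ (w * t) ^ q ^ β ≠ 1 := by
    by_contra hcon
    push Not at hcon
    have h1 : w ∈ Rad (q ^ β) G := ⟨hw.1, hcon⟩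
    rw [rq] at h1
    exact hw1 h1
  have hwE : w ∈ c2 w t := Subgroup.subset_closure (by simp)
  have htE : t ∈ c2 w t := Subgroup.subset_closure (by simp)
  obtain ⟨E, hE⟩ : ∃ E, E = c2 w t := ⟨_, rfl⟩
  have hfin : Finite E := by rw [hE]; exact S.fin w t
  have hsol : Group.IsSolvable E := by rw [hE]; exact S.sol w t
  rw [← hE] at hwE htE
  obtain ⟨A, B, h1, h2, h3, h4, h5⟩ := hw.2 E hfin hsol hwE
  have hf' : Finite (A ⊓ E : Subgroup G) :=
    Finite.of_injective (Subgroup.inclusion inf_le_right) (Subgroup.inclusion_injective _)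
  have hcA : ∀ a ∈ A, a ∈ E → w * a = a * w := by
    intro a ha haE
    refine cov (g := w) (k := β) hq (L := A ⊓ E) hf' hw.1
      (not_dvd_card hq hqM hf' fun x hx => h3 x hx.1)
      (fun u hu => ⟨h1 w hwE u hu.1, E.mul_mem (E.mul_mem hwE hu.2) (E.inv_mem hwE)⟩) ?_ a
      ⟨ha, haE⟩
    intro s hs hsq T hT hTs hwT
    have hTf : Finite T := Finite.of_injective (Subgroup.inclusion hT)
      (Subgroup.inclusion_injective _)
    exact cent_of_no_arr S.hn S.exp hs (hno s hs hsq) hTf hTs hwT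
  let C : Subgroup E :=
    { carrier := {x | (x : G) ∈ B ∧ ∀ a ∈ A, a ∈ E → (x : G) * a = a * x}
      one_mem' := ⟨one_mem _, fun v _ _ => by rw [Subgroup.coe_one, mul_one, one_mul]⟩
      mul_mem' := by
        rintro x y ⟨hx, hx2⟩ ⟨hy, hy2⟩
        refine ⟨mul_mem hx hy, fun v hv hvE => ?_⟩
        rw [Subgroup.coe_mul, mul_assoc, hy2 v hv hvE, ← mul_assoc, hx2 v hv hvE, mul_assoc]
      inv_mem' := by
        rintro x ⟨hx, hx2⟩
        refine ⟨inv_mem hx, fun v hv hvE => ?_⟩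
        have h1 := hx2 v hv hvE
        rw [Subgroup.coe_inv, inv_mul_eq_iff_eq_mul, ← mul_assoc, h1]
        group }
  have hCn : C.Normal := by
    refine ⟨?_⟩
    rintro x ⟨hx, hx2⟩ g
    refine ⟨h2 g g.2 x hx, fun v hv hvE => ?_⟩
    have h7 : (g : G)⁻¹ * v * g ∈ A := by
      have := h1 (g : G)⁻¹ (inv_mem g.2) v hv
      rwa [inv_inv] at this
    have h9 : (g : G)⁻¹ * v * g ∈ E := E.mul_mem (E.mul_mem (E.inv_mem g.2) hvE) g.2
    have h8 := hx2 _ h7 h9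
    change (g : G) * x * (g : G)⁻¹ * v = v * ((g : G) * x * (g : G)⁻¹)
    calc (g : G) * x * (g : G)⁻¹ * v = g * (x * ((g : G)⁻¹ * v * g)) * (g : G)⁻¹ := by group
      _ = g * (((g : G)⁻¹ * v * g) * x) * (g : G)⁻¹ := by rw [h8]
      _ = v * (g * x * (g : G)⁻¹) := by group
  have h6 := nilpG hq hab hqM (exp_sub hexp E) C hCn (by
    intro x hx y hy hyp
    have h10 : (y : G) ∈ A := mem_of_pow hab.symm (congrArg Subtype.val hyp) (h4 y hy.1)
    exact Subtype.ext (hx.2 y h10 y.2)) (x := ⟨w, hwE⟩) ⟨h5, hcA⟩ (Subtype.ext hw.1)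
  have h7 := rad_mul h6 (z := ⟨t, htE⟩) (Subtype.ext ht)
  exact hwt (congrArg Subtype.val h7)

/-- a quotient of a normal subgroup -/
theorem map_normal {F : Type} [Group F] (R : Subgroup F) [R.Normal] {A : Subgroup F}
    (hA : A.Normal) : (A.map (QuotientGroup.mk' R)).Normal :=
  hA.map _ (QuotientGroup.mk'_surjective R)

/-- elements acting nontrivially only on `p`-subgroups, in a quotient -/
theorem cent_quot {F : Type} [Group F] [Finite F] {p q β M n P : ℕ} (_hp : p.Prime) (hq : q.Prime)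
    (hn0 : n ≠ 0) (hqM : Nat.Coprime q M) (hF : ∀ x : F, x ^ n = 1)
    (hsol : Group.IsSolvable F) {w : F} (hw : w ^ q ^ β = 1) {M2 : ℕ} (hPM : P * M2 = M)
    (hP : Nat.Coprime P M2) (hpM2 : Nat.Coprime p M2) {P' : ℕ} (hP' : Nat.Coprime P P')
    (hPn : P * P' = n)
    (hno : ∀ s : ℕ, s.Prime → s ≠ q → s ≠ p → ∀ U : Subgroup F, ¬ Arr n s w U)
    (A : Subgroup F) (hA : A.Normal) (hAM : ∀ x ∈ A, x ^ M = 1) {a : F} (ha : a ∈ A) :
    w * a * w⁻¹ * a⁻¹ ∈ Rad P F := by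
  obtain ⟨R, hR⟩ : ∃ R, R = Rad P F := ⟨_, rfl⟩
  rw [← hR]
  have hRn : R.Normal := by rw [hR]; exact rad_normal P
  have hRP : ∀ x ∈ R, x ^ P = 1 := by
    intro x hx
    rw [hR] at hx
    exact rad_pow hx
  have hexp : ∀ x : F, x ^ (P * P') = 1 := by rw [hPn]; exact hF
  obtain ⟨A1, hA1⟩ : ∃ A1, A1 = A.map (QuotientGroup.mk' R) := ⟨_, rfl⟩
  have hA1n : A1.Normal := by rw [hA1]; exact map_normal R hA
  have hA1M : ∀ x ∈ A1, x ^ M = 1 := by
    intro x hx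
    rw [hA1] at hx
    obtain ⟨y, hy, rfl⟩ := hx
    rw [← map_pow, hAM y hy, map_one]
  -- the radical of `A1`
  obtain ⟨A2, hA2⟩ : ∃ A2, A2 = (Rad M2 A1).map A1.subtype := ⟨_, rfl⟩
  have hA2n : A2.Normal := by
    refine ⟨?_⟩
    intro y hy g
    rw [hA2] at hy ⊢
    obtain ⟨x, hx, rfl⟩ := hy
    refine ⟨⟨g * x * g⁻¹, hA1n.conj_mem x x.2 g⟩, ⟨?_, ?_⟩, rfl⟩
    · apply Subtype.ext
      have h2 : (x : F ⧸ R) ^ M2 = 1 := congrArg Subtype.val hx.1
      rw [Subgroup.coe_pow, Subgroup.coe_one]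
      exact conj_pow_one h2
    · intro y hy
      have hy' : (y : F ⧸ R) ^ M2 = 1 := congrArg Subtype.val hy
      have h3 : g⁻¹ * (y : F ⧸ R) * g ∈ A1 := by
        have := hA1n.conj_mem y y.2 g⁻¹
        rwa [inv_inv] at this
      have h4 := hx.2 ⟨g⁻¹ * (y : F ⧸ R) * g, h3⟩ (Subtype.ext (conj_pow_one' hy'))
      have h5 : ((x : F ⧸ R) * (g⁻¹ * (y : F ⧸ R) * g)) ^ M2 = 1 := congrArg Subtype.val h4
      have h6 := conj_pow_one (g := g) h5
      have e : g * ((x : F ⧸ R) * (g⁻¹ * (y : F ⧸ R) * g)) * g⁻¹ = g * x * g⁻¹ * y := by group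
      rw [e] at h6
      exact Subtype.ext h6
  have hA2A1 : A2 ≤ A1 := by rw [hA2]; exact Subgroup.map_subtype_le _
  have hA2M : ∀ x ∈ A2, x ^ M2 = 1 := by
    intro x hx
    rw [hA2] at hx
    obtain ⟨y, hy, rfl⟩ := hx
    exact congrArg Subtype.val (rad_pow hy)
  -- `w` centralises `A2`
  obtain ⟨L, hL⟩ : ∃ L, L = A ⊓ A2.comap (QuotientGroup.mk' R) := ⟨_, rfl⟩
  have hLA : L ≤ A := by rw [hL]; exact inf_le_left
  have hLn : ∀ x ∈ L, w * x * w⁻¹ ∈ L := by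
    intro x hx
    rw [hL] at hx ⊢
    refine ⟨hA.conj_mem x hx.1 w, ?_⟩
    have := hA2n.conj_mem _ hx.2 (w : F ⧸ R)
    exact this
  have hLC : L ≤ (Subgroup.centralizer {(w : F ⧸ R)}).comap (QuotientGroup.mk' R) := by
    refine cov' (g := w) (k := β) hq (L := L) inferInstance hw
      (not_dvd_card hq hqM inferInstance fun x hx => hAM x (hLA hx)) hLn _ ?_
    intro s hs hsq T hT hTs hwT x hx
    rw [Subgroup.mem_comap, QuotientGroup.mk'_apply]
    by_cases hsp : s = p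
    · -- the image is trivial
      obtain ⟨j, hj⟩ := hTs x hx
      have h1 : (x : F ⧸ R) ^ M2 = 1 := by
        have h2 := hT hx
        rw [hL] at h2
        exact hA2M _ h2.2
      have h3 : (x : F ⧸ R) = 1 := by
        refine W629.eq_one_of_coprime (a := s ^ j) (b := M2) ?_ ?_ h1
        · rw [hsp]
          exact Nat.Coprime.pow_left _ hpM2
        · rw [← QuotientGroup.mk_pow, hj]
          rfl
      rw [h3]
      exact one_mem _
    · have h1 := cent_of_no_arr hn0 hF hs (hno s hs hsq hsp) (S := T) inferInstance hTs hwT x hx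
      rw [Subgroup.mem_centralizer_singleton_iff, ← QuotientGroup.mk_mul, ← h1,
        QuotientGroup.mk_mul]
  have hwA2 : ∀ x ∈ A2, (w : F ⧸ R) * x = x * w := by
    intro x hx
    have hx1 := hA2A1 hx
    rw [hA1] at hx1
    obtain ⟨y, hy, rfl⟩ := hx1
    have h1 : y ∈ L := by
      rw [hL]
      exact ⟨hy, hx⟩
    have h2 := hLC h1
    rw [Subgroup.mem_comap, Subgroup.mem_centralizer_singleton_iff] at h2
    exact h2.symm
  -- the commutator
  obtain ⟨b, hb⟩ : ∃ b : F ⧸ R, b = (a : F ⧸ R) := ⟨_, rfl⟩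
  have hb1 : b ∈ A1 := by
    rw [hA1, hb]
    exact ⟨a, ha, rfl⟩
  obtain ⟨v, hv⟩ : ∃ v : F ⧸ R, v = (w : F ⧸ R) := ⟨_, rfl⟩
  rw [← hv] at hwA2
  have hvQ : v ^ q ^ β = 1 := by
    rw [hv, ← QuotientGroup.mk_pow, hw]
    rfl
  obtain ⟨x, hx⟩ : ∃ x, x = v * b * v⁻¹ * b⁻¹ := ⟨_, rfl⟩
  have hxA1 : x ∈ A1 := by
    rw [hx]
    exact mul_mem (hA1n.conj_mem b hb1 v) (inv_mem hb1)
  have hvA2' : ∀ y ∈ A2, v * y * v⁻¹ = y := by
    intro y hy
    rw [hwA2 y hy]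
    group
  have hxA2 : ∀ y ∈ A2, x * y = y * x := by
    intro y hy
    have h1 : b⁻¹ * y * b ∈ A2 := by
      have := hA2n.conj_mem y hy b⁻¹
      rwa [inv_inv] at this
    have h2 : v⁻¹ * (b⁻¹ * y * b) * v = b⁻¹ * y * b := by
      conv_lhs => rw [← hvA2' _ h1]
      group
    have h3 : x * y * x⁻¹ = y := by
      have e : x * y * x⁻¹ = v * (b * (v⁻¹ * (b⁻¹ * y * b) * v) * b⁻¹) * v⁻¹ := by
        rw [hx]
        group
      have e2 : b * (b⁻¹ * y * b) * b⁻¹ = y := by group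
      rw [e, h2, e2]
      exact hvA2' y hy
    rwa [mul_inv_eq_iff_eq_mul] at h3
  have hR0 : Rad P A1 = ⊥ := by
    refine rad_sub_bot A1 hA1n fun N hN hNm => ?_
    have h9 := le_rad hP' (exp_quot hexp R) N hNm
    have h10 : Rad P (F ⧸ R) = ⊥ := by
      subst hR
      exact rad_quot hP' hexp
    rw [h10] at h9
    exact le_bot_iff.1 h9
  have hsolQ : Group.IsSolvable (F ⧸ R) :=
    Group.isSolvable_of_surjective (QuotientGroup.mk'_surjective R)
  have h10 := hall_higman (G := A1) (a := P) (b := M2) hP (fun x => Subtype.ext (by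
    rw [Subgroup.coe_pow, hPM]
    exact hA1M x x.2)) inferInstance hR0 (x := ⟨x, hxA1⟩) (by
    intro e he
    apply Subtype.ext
    exact hxA2 e (by rw [hA2]; exact ⟨e, he, rfl⟩))
  have h11 : x ∈ A2 := by
    rw [hA2]
    exact ⟨_, h10, rfl⟩
  have h12 : Commute v x := hwA2 x h11
  have h13 := comm_pow hx.symm h12 (q ^ β)
  rw [hvQ] at h13
  have h14 : x ^ q ^ β = 1 := by rw [← h13]; group
  have h15 : x = 1 := W629.eq_one_of_coprime (Nat.Coprime.pow_left _ hqM) h14 (hA1M x hxA1)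
  rw [← QuotientGroup.eq_one_iff]
  rw [hx, hv, hb] at h15
  exact h15

/-- minimal subgroups of subgroups -/
theorem arr_sub {n s : ℕ} {E : Subgroup G} {w : G} (hwE : w ∈ E) {U : Subgroup E}
    (A : Arr n s (⟨w, hwE⟩ : E) U) : ∃ U' : Subgroup G, Arr n s w U' := by
  have hf := A.fin
  obtain ⟨u, hu, huw⟩ := A.nc
  have hf' : Finite (U.map E.subtype) :=
    Finite.of_surjective _ (E.subtype.subgroupMap_surjective U)
  obtain ⟨U', -, h⟩ := arr_exists (n := n) (s := s) (h := w) (U.map E.subtype) hf'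
    (by
      rintro _ ⟨x, hx, rfl⟩
      exact congrArg Subtype.val (A.pow x hx))
    (by
      rintro _ ⟨x, hx, rfl⟩
      exact ⟨_, A.inv x hx, rfl⟩)
    ⟨u, ⟨u, hu, rfl⟩, fun h => huw (Subtype.ext h)⟩
  exact ⟨U', h⟩

/-- elements acting nontrivially only on `p`-subgroups -/
theorem ss_pair {n p q β M : ℕ} (S : Sg n G) (hp : p.Prime) (hq : q.Prime) (hpq : p ≠ q)
    (hqM : Nat.Coprime q M) (hn : q ^ β * M = n) {w : G} (hw : SG (q ^ β) M w)
    (hno : ∀ s : ℕ, s.Prime → s ≠ q → s ≠ p → ∀ U : Subgroup G, ¬ Arr n s w U) :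
    SG (q ^ β) (qp p n) w := by
  obtain ⟨P, hP⟩ : ∃ P, P = qp p n := ⟨_, rfl⟩
  rw [← hP]
  have hn0 := S.hn
  have hPd : P ∣ M := by
    have h1 : P ∣ q ^ β * M := by rw [hP, hn]; exact qp_dvd p n
    refine Nat.Coprime.dvd_of_dvd_mul_left ?_ h1
    rw [hP]
    exact Nat.Coprime.pow _ _ ((Nat.coprime_primes hp hq).2 hpq)
  obtain ⟨M2, hM2⟩ := hPd
  have hpM2 : Nat.Coprime p M2 := by
    rw [Nat.Prime.coprime_iff_not_dvd hp]
    rintro ⟨c, rfl⟩
    have h0 : P = p ^ n.factorization p := hP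
    have h1 : p ^ (n.factorization p + 1) ∣ n := by
      refine ⟨q ^ β * c, ?_⟩
      calc n = q ^ β * M := hn.symm
        _ = q ^ β * (p ^ n.factorization p * (p * c)) := by rw [hM2, ← h0]
        _ = _ := by rw [pow_succ]; ring
    have h2 := (hp.pow_dvd_iff_le_factorization hn0).1 h1
    omega
  have hPM2 : Nat.Coprime P M2 := by
    rw [hP]
    exact Nat.Coprime.pow_left _ hpM2
  have hPQ : Nat.Coprime P (q ^ β * M2) := by
    refine Nat.Coprime.mul_right ?_ hPM2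
    rw [hP]
    exact Nat.Coprime.pow _ _ ((Nat.coprime_primes hp hq).2 hpq)
  have hPn : P * (q ^ β * M2) = n := by rw [← hn, hM2]; ring
  have hexp : ∀ x : G, x ^ (q ^ β * M) = 1 := by rw [hn]; exact S.exp
  have hab : Nat.Coprime (q ^ β) M := Nat.Coprime.pow_left _ hqM
  refine ⟨hw.1, fun E hE hEs hwE => ?_⟩
  obtain ⟨A, B, h1, h2, h3, h4, h5⟩ := hw.2 E hE hEs hwE
  obtain ⟨R, hR⟩ : ∃ R, R = Rad P E := ⟨_, rfl⟩
  have hRn : R.Normal := by rw [hR]; exact rad_normal P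
  have hcent : ∀ a ∈ A.subgroupOf E, (⟨w, hwE⟩ : E) * a * (⟨w, hwE⟩ : E)⁻¹ * a⁻¹ ∈ R := by
    intro a ha
    rw [hR]
    refine cent_quot (β := β) hp hq hn0 hqM (exp_sub S.exp E) hEs (w := ⟨w, hwE⟩)
      (Subtype.ext hw.1) hM2.symm hPM2 hpM2 hPQ hPn ?_ (A.subgroupOf E)
      ⟨fun x hx g => h1 g g.2 x hx⟩ (fun x hx => Subtype.ext (h3 x hx)) ha
    intro s hs hsq hsp U AU
    obtain ⟨U', hU'⟩ := arr_sub hwE AU
    exact hno s hs hsq hsp U' hU'
  obtain ⟨A1, hA1⟩ : ∃ A1, A1 = (A.subgroupOf E).map (QuotientGroup.mk' R) := ⟨_, rfl⟩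
  obtain ⟨B1, hB1⟩ : ∃ B1, B1 = (B.subgroupOf E).map (QuotientGroup.mk' R) := ⟨_, rfl⟩
  have hA1n : A1.Normal := by
    rw [hA1]
    exact map_normal R ⟨fun x hx g => h1 g g.2 x hx⟩
  have hB1n : B1.Normal := by
    rw [hB1]
    exact map_normal R ⟨fun x hx g => h2 g g.2 x hx⟩
  have hBA : ∀ x ∈ B1, x ^ q ^ β ∈ A1 := by
    intro x hx
    rw [hB1] at hx
    rw [hA1]
    obtain ⟨b, hb, rfl⟩ := hx
    exact ⟨b ^ q ^ β, h4 b hb, map_pow _ _ _⟩
  obtain ⟨v, hv⟩ : ∃ v : E ⧸ R, v = ((⟨w, hwE⟩ : E) : E ⧸ R) := ⟨_, rfl⟩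
  have hvA : ∀ x ∈ A1, v * x = x * v := by
    intro x hx
    rw [hA1] at hx
    obtain ⟨a, ha, rfl⟩ := hx
    have h6 := (QuotientGroup.eq_one_iff _).2 (hcent a ha)
    have h7 : v * (a : E ⧸ R) * v⁻¹ * (a : E ⧸ R)⁻¹ = 1 := by
      rw [hv]
      exact h6
    rw [mul_inv_eq_one, mul_inv_eq_iff_eq_mul] at h7
    exact h7
  let D : Subgroup (E ⧸ R) :=
    { carrier := {x | x ∈ B1 ∧ ∀ v ∈ A1, x * v = v * x}
      one_mem' := ⟨one_mem _, fun v _ => by rw [mul_one, one_mul]⟩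
      mul_mem' := by
        rintro x y ⟨hx, hx2⟩ ⟨hy, hy2⟩
        refine ⟨mul_mem hx hy, fun v hv => ?_⟩
        rw [mul_assoc, hy2 v hv, ← mul_assoc, hx2 v hv, mul_assoc]
      inv_mem' := by
        rintro x ⟨hx, hx2⟩
        refine ⟨inv_mem hx, fun v hv => ?_⟩
        have h1 := hx2 v hv
        rw [inv_mul_eq_iff_eq_mul, ← mul_assoc, h1]
        group }
  have hDn : D.Normal := by
    refine ⟨?_⟩
    rintro x ⟨hx, hx2⟩ g
    refine ⟨hB1n.conj_mem x hx g, fun v hv => ?_⟩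
    have h7 : g⁻¹ * v * g ∈ A1 := by
      have := hA1n.conj_mem v hv g⁻¹
      rwa [inv_inv] at this
    have h8 := hx2 _ h7
    calc g * x * g⁻¹ * v = g * (x * (g⁻¹ * v * g)) * g⁻¹ := by group
      _ = g * ((g⁻¹ * v * g) * x) * g⁻¹ := by rw [h8]
      _ = v * (g * x * g⁻¹) := by group
  have hvD : v ∈ D := by
    refine ⟨?_, hvA⟩
    rw [hB1, hv]
    exact ⟨⟨w, hwE⟩, h5, rfl⟩
  have h9 := nilpG hq hab hqM (exp_quot (exp_sub hexp E) R) D hDn (by
    intro x hx y hy hyp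
    have h10 : y ∈ A1 := mem_of_pow hab.symm hyp (hBA y hy.1)
    exact hx.2 y h10) hvD (by
      rw [hv, ← QuotientGroup.mk_pow]
      have : (⟨w, hwE⟩ : E) ^ q ^ β = 1 := Subtype.ext hw.1
      rw [this]
      rfl)
  refine ⟨R.map E.subtype, ((Rad (q ^ β) (E ⧸ R)).comap (QuotientGroup.mk' R)).map E.subtype,
    ?_, ?_, ?_, ?_, ?_⟩
  · rintro g hg _ ⟨x, hx, rfl⟩
    exact ⟨⟨g, hg⟩ * x * ⟨g, hg⟩⁻¹, hRn.conj_mem x hx _, rfl⟩
  · rintro g hg _ ⟨x, hx, rfl⟩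
    have hn' : ((Rad (q ^ β) (E ⧸ R)).comap (QuotientGroup.mk' R)).Normal := inferInstance
    exact ⟨⟨g, hg⟩ * x * ⟨g, hg⟩⁻¹, hn'.conj_mem x hx _, rfl⟩
  · rintro _ ⟨x, hx, rfl⟩
    rw [hR] at hx
    exact congrArg Subtype.val (rad_pow hx)
  · rintro _ ⟨x, hx, rfl⟩
    refine ⟨x ^ q ^ β, ?_, map_pow _ _ _⟩
    have h10 : (x : E ⧸ R) ^ q ^ β = 1 := rad_pow (Subgroup.mem_comap.1 hx)
    rw [← QuotientGroup.mk_pow, QuotientGroup.eq_one_iff] at h10
    exact h10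
  · refine ⟨⟨w, hwE⟩, ?_, rfl⟩
    rw [SetLike.mem_coe, Subgroup.mem_comap, QuotientGroup.mk'_apply, ← hv]
    exact h9

end Pool.Agent.TH69.Og
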