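import Mathlib
import Pool.Agent.TH69.OgE

set_option autoImplicit false

/-!
# Groups of exponent `n` with finite soluble two-generator subgroups, part F: primes whose square
# does not divide `n`
-/

namespace Pool.Agent.TH69.Og

open Pool.Agent.H32BU Pool.Agent.W629 Pool.Agent.TH69.Mtn Pool.Agent.TH69.Od

variable {G : Type} [Group G]

/-- fixed points in cosets -/
theorem fixpt' {s k : ℕ} (hs : s.Prime) {g x : G}
    (hgs : g ^ s ^ k = 1) (D : Subgroup G) (hDf : Finite D) (hD : ¬ s ∣ Nat.card D)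
    (hgD : ∀ d ∈ D, g * d * g⁻¹ ∈ D) (hx : x⁻¹ * (g * x * g⁻¹) ∈ D) :
    ∃ d ∈ D, g * (x * d) = (x * d) * g := by
  classical
  have : Fact s.Prime := ⟨hs⟩
  let f : Function.End D := fun d => ⟨x⁻¹ * (g * (x * d) * g⁻¹), by
    have e : x⁻¹ * (g * (x * d) * g⁻¹) = (x⁻¹ * (g * x * g⁻¹)) * (g * d * g⁻¹) := by group
    rw [e]
    exact mul_mem hx (hgD d d.2)⟩
  have hfk : ∀ (j : ℕ) (d : D), ((f ^ j) d : G) = x⁻¹ * (g ^ j * (x * d) * (g ^ j)⁻¹) := by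
    intro j
    induction j with
    | zero =>
      intro d
      change (d : G) = _
      rw [pow_zero]
      group
    | succ j ih =>
      intro d
      rw [pow_succ']
      change x⁻¹ * (g * (x * ((f ^ j) d : G)) * g⁻¹) = _
      rw [ih, pow_succ']
      group
  have hfs : f ^ s ^ k = 1 := by
    funext d
    apply Subtype.ext
    rw [hfk, hgs]
    change x⁻¹ * (1 * (x * d) * 1⁻¹) = d
    group
  have := Fintype.ofFinite D
  have hcard := Equiv.Perm.card_fixedPoints_modEq hfs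
  obtain ⟨d, hd⟩ : ∃ d : D, f d = d := by
    by_contra hcon
    push Not at hcon
    have h0 : Fintype.card (Function.fixedPoints f) = 0 := by
      rw [Fintype.card_eq_zero_iff]
      exact ⟨fun d => hcon d.1 d.2⟩
    rw [h0] at hcard
    have h1 : s ∣ Fintype.card D := (Nat.modEq_zero_iff_dvd).1 hcard
    rw [← Nat.card_eq_fintype_card] at h1
    exact hD h1
  have hd' : x⁻¹ * (g * (x * d) * g⁻¹) = d := congrArg Subtype.val hd
  refine ⟨d, d.2, ?_⟩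
  rw [inv_mul_eq_iff_eq_mul, mul_inv_eq_iff_eq_mul] at hd'
  exact hd'

theorem qp_dvd_M {n q β M s : ℕ} (hq : q.Prime) (hs : s.Prime) (hsq : s ≠ q)
    (hn : q ^ β * M = n) : qp s n ∣ M := by
  have h1 : qp s n ∣ q ^ β * M := by rw [hn]; exact qp_dvd s n
  refine Nat.Coprime.dvd_of_dvd_mul_left ?_ h1
  exact Nat.Coprime.pow _ _ ((Nat.coprime_primes hs hq).2 hsq)

/-- no minimal `r`-subgroups if `r ^ 2` does not divide `n` -/
theorem no_arr_small {n q β M r m : ℕ} (S : Pr n (q ^ β) M G) (hq : q.Prime)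
    (_hqM : Nat.Coprime q M) (hn : q ^ β * M = n) (hr : r.Prime) (hrq : r ≠ q)
    (hrm : Nat.Coprime r m) (hss : ∀ x : G, x ^ r = 1 → SG r m x) {w : G}
    (hw : SG (q ^ β) M w) {U : Subgroup G} (A : Arr n r w U) : False := by
  have hQ : 0 < q ^ β := Nat.pow_pos hq.pos
  have hs := qp_dvd_M hq hr hrq hn
  obtain ⟨hUab, hUpow, hfpf, -⟩ := arr_structG S hQ hr hs hw A
  have hrQ : Nat.Coprime r (q ^ β) :=
    Nat.Coprime.pow_right _ ((Nat.coprime_primes hr hq).2 hrq)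
  obtain ⟨u, hu, hu1⟩ : ∃ u ∈ U, u ≠ 1 := by
    obtain ⟨u, hu, huw⟩ := A.nc
    refine ⟨u, hu, ?_⟩
    rintro rfl
    rw [mul_one, one_mul] at huw
    exact huw rfl
  obtain ⟨u', hu'⟩ : ∃ u', u' = w * u * w⁻¹ := ⟨_, rfl⟩
  have hu'U : u' ∈ U := by rw [hu']; exact A.inv u hu
  have hur := hUpow u hu
  have hu'r := hUpow u' hu'U
  have hv1 : ∀ i : ℕ, u' * u ^ i ≠ 1 := by
    intro i h
    refine no_eigG S hQ hr hs hw A hu hu1 (l := i * (r - 1)) ?_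
    rw [← hu', mul_eq_one_iff_eq_inv.1 h, inv_eq_iff_mul_eq_one, ← pow_add]
    have e : i + i * (r - 1) = r * i := by
      have := hr.pos
      obtain ⟨r', rfl⟩ := Nat.exists_eq_succ_of_ne_zero this.ne'
      simp only [Nat.succ_eq_add_one, Nat.add_sub_cancel]
      ring
    rw [e, pow_mul, hur, one_pow]
  have huM := arr_powM hs A hu
  obtain ⟨g, hg⟩ := S.nice huM hu1
  have hcuu : u * u' = u' * u := hUab u hu u' hu'U
  obtain ⟨m1, -, m3, m4, -⟩ := gens S.cop.symm (x := u) (k := 1) (g := g) (c := u') huM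
    (one_pow _) (by rw [mul_one, one_mul]) ⟨1, by rw [pow_one, ← hcuu]; group⟩ hg.1
  have hfin := S.S.fin (u * 1) (g * u')
  have hsol := S.S.sol (u * 1) (g * u')
  obtain ⟨E, hE⟩ : ∃ E, E = c2 (u * 1) (g * u') := ⟨_, rfl⟩
  rw [← hE] at m1 m3 m4 hfin hsol
  obtain ⟨A', B', h1, h2, h3, h4, h5⟩ := (hss u hur).2 E hfin hsol m1
  have hexp : ∀ x : E, x ^ (M * q ^ β) = 1 := by
    intro x
    rw [mul_comm, hn]
    exact Subtype.ext (S.S.exp x)
  obtain ⟨R, hR⟩ : ∃ R, R = Rad M E := ⟨_, rfl⟩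
  have hRn : R.Normal := by rw [hR]; exact rad_normal M
  let u0 : E := ⟨u, m1⟩
  let u0' : E := ⟨u', m4⟩
  have hA0n : (A'.subgroupOf E).Normal := ⟨fun x hx g => h1 g g.2 x hx⟩
  obtain ⟨A1, hA1⟩ : ∃ A1, A1 = (A'.subgroupOf E).map (QuotientGroup.mk' R) := ⟨_, rfl⟩
  have hA1n : A1.Normal := by rw [hA1]; exact map_normal R hA0n
  obtain ⟨V, hV⟩ : ∃ V, V = Rad (q ^ β) (E ⧸ R) ⊓ A1 := ⟨_, rfl⟩
  have hVn : V.Normal := by
    rw [hV]
    refine ⟨fun x hx g => ?_⟩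
    exact ⟨(rad_normal (q ^ β)).conj_mem x hx.1 g, hA1n.conj_mem x hx.2 g⟩
  have hVQ : ∀ x ∈ V, x ^ q ^ β = 1 := by
    intro x hx
    rw [hV] at hx
    exact rad_pow hx.1
  have hu0r : (u0 : E ⧸ R) ^ r = 1 := by
    rw [← QuotientGroup.mk_pow]
    have : u0 ^ r = 1 := Subtype.ext hur
    rw [this]
    rfl
  have hu0r' : (u0' : E ⧸ R) ^ r = 1 := by
    rw [← QuotientGroup.mk_pow]
    have : u0' ^ r = 1 := Subtype.ext hu'r
    rw [this]
    rfl
  have hcuu0 : (u0 : E ⧸ R) * u0' = u0' * u0 := by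
    rw [← QuotientGroup.mk_mul, ← QuotientGroup.mk_mul]
    congr 1
    exact Subtype.ext hcuu
  -- commutators with `u` lie in `V`
  have hcV : ∀ y ∈ Rad (q ^ β) (E ⧸ R), (u0 : E ⧸ R) * y * (u0 : E ⧸ R)⁻¹ * y⁻¹ ∈ V := by
    intro y hy
    have h6 : (u0 : E ⧸ R) * y * (u0 : E ⧸ R)⁻¹ * y⁻¹ ∈ Rad (q ^ β) (E ⧸ R) :=
      mul_mem ((rad_normal (q ^ β)).conj_mem y hy _) (inv_mem hy)
    rw [hV]
    refine ⟨h6, ?_⟩
    refine mem_of_pow hrQ.symm (rad_pow h6) ?_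
    obtain ⟨y, rfl⟩ := QuotientGroup.mk_surjective y
    rw [hA1]
    refine ⟨(u0 * y * u0⁻¹ * y⁻¹) ^ r, ?_, rfl⟩
    have h7 : u * (y : G) * u⁻¹ * (y : G)⁻¹ ∈ B' := by
      have h8 := mul_mem h5 (h2 y y.2 _ (inv_mem h5))
      have e : u * ((y : G) * u⁻¹ * (y : G)⁻¹) = u * (y : G) * u⁻¹ * (y : G)⁻¹ := by group
      rwa [e] at h8
    exact h4 _ h7
  -- `u` centralises `V`
  have huV : ∀ t ∈ V, (u0 : E ⧸ R) * t = t * u0 := by
    by_contra hcon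
    push Not at hcon
    obtain ⟨i, t, ht, hct, hnct⟩ := coprime_act (n := n) hq hr hrq.symm (u := (u0 : E ⧸ R))
      (c := (u0' : E ⧸ R)) hcuu0 hu0r hu0r' V inferInstance
      (fun x hx => pow_qp S.S.hn (exp_quot (exp_sub S.S.exp E) R x) hq ⟨β, hVQ x hx⟩)
      (fun x hx => hVn.conj_mem x hx _) (fun x hx => hVn.conj_mem x hx _) hcon
    have htA1 : t ∈ A1 := by
      rw [hV] at ht
      exact ht.2
    rw [hA1] at htA1
    obtain ⟨t0, ht0, ht0t⟩ := htA1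
    have ht0t' : (t0 : E ⧸ R) = t := ht0t
    obtain ⟨v0, hv0⟩ : ∃ v0, v0 = u0' * u0 ^ i := ⟨_, rfl⟩
    have hvU : u' * u ^ i ∈ U := mul_mem hu'U (pow_mem hu i)
    have hv0G : (v0 : G) = u' * u ^ i := by rw [hv0]; rfl
    have hv0r : v0 ^ r ^ 1 = 1 := by
      apply Subtype.ext
      rw [pow_one, Subgroup.coe_pow, hv0G, hUpow _ hvU, Subgroup.coe_one]
    have hv0R : (v0 : E ⧸ R) = u0' * u0 ^ i := by rw [hv0]; rfl
    rw [← hv0R] at hct
    obtain ⟨D, hD⟩ : ∃ D, D = (A'.subgroupOf E) ⊓ R := ⟨_, rfl⟩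
    have hDm : ∀ x ∈ D, x ^ m = 1 := by
      intro x hx
      rw [hD] at hx
      exact Subtype.ext (h3 x hx.1)
    have hDn : ∀ d ∈ D, v0 * d * v0⁻¹ ∈ D := by
      intro d hd
      rw [hD] at hd ⊢
      exact ⟨hA0n.conj_mem d hd.1 v0, hRn.conj_mem d hd.2 v0⟩
    obtain ⟨d, hd, hvd⟩ := fixpt' (k := 1) hr (g := v0) (x := t0) hv0r D inferInstance
      (not_dvd_card hr hrm inferInstance hDm) hDn (by
      rw [hD]
      refine ⟨(A'.subgroupOf E).mul_mem ((A'.subgroupOf E).inv_mem ht0)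
        (hA0n.conj_mem t0 ht0 v0), ?_⟩
      change t0⁻¹ * (v0 * t0 * v0⁻¹) ∈ R
      rw [← QuotientGroup.eq_one_iff]
      change (t0 : E ⧸ R)⁻¹ * ((v0 : E ⧸ R) * t0 * (v0 : E ⧸ R)⁻¹) = 1
      rw [ht0t', hct]
      group)
    have hdR : (d : E ⧸ R) = 1 := by
      rw [QuotientGroup.eq_one_iff]
      rw [hD] at hd
      exact hd.2
    obtain ⟨a, -, ⟨a', ha'⟩, -, ha, -, -⟩ := crt S.cop.symm
    obtain ⟨T, hT⟩ : ∃ T, T = (t0 * d) ^ a := ⟨_, rfl⟩
    have hTt : (T : E ⧸ R) = t := by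
      rw [hT, QuotientGroup.mk_pow, QuotientGroup.mk_mul, hdR, mul_one, ht0t']
      exact ha t (hVQ t ht)
    have hTQ : T ^ q ^ β = 1 := by
      rw [hT, ha', ← pow_mul, show M * a' * q ^ β = (M * q ^ β) * a' from by ring, pow_mul, hexp,
        one_pow]
    have hTv : v0 * T = T * v0 := by
      have h6 : Commute v0 (t0 * d) := hvd
      rw [hT]
      exact (h6.pow_right a).eq
    have hTvG : (u' * u ^ i) * (T : G) = T * (u' * u ^ i) := by
      rw [← hv0G]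
      exact congrArg Subtype.val hTv
    have hTQG : (T : G) ^ q ^ β = 1 := congrArg Subtype.val hTQ
    have hwH : w ∈ c2 w ((u' * u ^ i) * T) := Subgroup.subset_closure (by simp)
    obtain ⟨h6, h7⟩ := mem_of_mul hTvG (arr_powM hs A hvU) hTQG S.cop.symm
      (c2 w ((u' * u ^ i) * T)) (Subgroup.subset_closure (by simp))
    have hUH := A.gen _ hwH hvU h6 (hfpf _ hvU (hv1 i))
    obtain ⟨B2, h8, h9, h10⟩ := in_AG S.cop hs hw A (S.S.fin _ _) (S.S.sol _ _) hwH hUH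
    have h11 : u * (T : G) * u⁻¹ * (T : G)⁻¹ ∈ B2 := by
      have h12 := mul_mem (h10 hu) (h8 _ h7 _ (inv_mem (h10 hu)))
      have e : u * ((T : G) * u⁻¹ * (T : G)⁻¹) = u * (T : G) * u⁻¹ * (T : G)⁻¹ := by group
      rwa [e] at h12
    have h12 : (u0 * T * u0⁻¹ * T⁻¹) ^ M = 1 := Subtype.ext (h9 _ h11)
    have h13 : ((u0 : E ⧸ R) * t * (u0 : E ⧸ R)⁻¹ * t⁻¹) ^ M = 1 := by
      have h14 : (((u0 * T * u0⁻¹ * T⁻¹) ^ M : E) : E ⧸ R) = 1 := by
        rw [h12]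
        rfl
      rw [← hTt]
      exact h14
    have h14 : (u0 : E ⧸ R) * t * (u0 : E ⧸ R)⁻¹ * t⁻¹ ∈ V :=
      mul_mem (hVn.conj_mem t ht _) (inv_mem ht)
    have h15 := W629.eq_one_of_coprime S.cop.symm h13 (hVQ _ h14)
    rw [mul_inv_eq_one, mul_inv_eq_iff_eq_mul] at h15
    exact hnct h15
  -- `u` lies in the radical
  have hu0R : u0 ∈ Rad M E := by
    subst hR
    refine Tw.mem_rad_of S.cop.symm hexp hsol (Subtype.ext huM) ?_
    intro y hy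
    have h6 := hcV y hy
    obtain ⟨c, hc⟩ : ∃ c, c = (u0 : E ⧸ Rad M E) * y * (u0 : E ⧸ Rad M E)⁻¹ * y⁻¹ := ⟨_, rfl⟩
    rw [← hc] at h6
    have h7 : Commute (u0 : E ⧸ Rad M E) c := huV c h6
    have h8 := comm_pow hc.symm h7 r
    rw [hu0r] at h8
    have h9 : c ^ r = 1 := by rw [← h8]; group
    have h10 := W629.eq_one_of_coprime hrQ h9 (hVQ c h6)
    rw [h10, eq_comm, mul_inv_eq_one, mul_inv_eq_iff_eq_mul] at hc
    exact hc
  refine nice_false hg (A := (Rad M E).map E.subtype) ?_ ?_ ⟨u0, hu0R, rfl⟩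
  · rintro _ ⟨x, hx, rfl⟩
    exact congrArg Subtype.val (rad_pow hx)
  · rintro _ ⟨x, hx, rfl⟩
    exact ⟨⟨g, m3⟩ * x * ⟨g, m3⟩⁻¹, (rad_normal M).conj_mem x hx _, rfl⟩

end Pool.Agent.TH69.Og
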