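import Mathlib
import Pool.Agent.TH69.OgI

set_option autoImplicit false

/-!
# Groups of exponent `n` with finite soluble two-generator subgroups, part J: the elements of
# `SS p q` and `SS q p` commute
-/

namespace Pool.Agent.TH69.Og

open Pool.Agent.H32BU Pool.Agent.W629 Pool.Agent.TH69.Mtn Pool.Agent.TH69.Od

variable {G : Type} [Group G] {n p q α β : ℕ}

/-- main lemma -/
theorem comm_half (S : St n p q α β G) (h3 : ¬ p ∣ q - 1) (h4 : ¬ q ∣ p - 1) {z w : G}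
    (hz : SS p q α β z) (hzp : z ^ p = 1) (hw : SS q p β α w) (hwq : w ^ q = 1) :
    (z * w * z⁻¹ * w⁻¹) ^ q ^ β = 1 := by
  by_contra hcQ
  obtain ⟨F, hF⟩ : ∃ F, F = c2 w z := ⟨_, rfl⟩
  have hFfin : Finite F := by rw [hF]; exact S.S.fin _ _
  have hFsol : Group.IsSolvable F := by rw [hF]; exact S.S.sol _ _
  have hwF : w ∈ F := by rw [hF]; exact Subgroup.subset_closure (by simp)
  have hzF : z ∈ F := by rw [hF]; exact Subgroup.subset_closure (by simp)
  obtain ⟨Az, Bz, z1, z2, z3, z4, z5⟩ := hz.2 F hFfin hFsol hzF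
  obtain ⟨Aw, Bw, w1, w2, w3, w4, w5⟩ := hw.2 F hFfin hFsol hwF
  have hPpos : 0 < p ^ α := Nat.pow_pos S.hp.pos
  have hQpos : 0 < q ^ β := Nat.pow_pos S.hq.pos
  -- the subgroups `R` and `T`
  obtain ⟨R, hR⟩ : ∃ R, R = Aw ⊓ F := ⟨_, rfl⟩
  obtain ⟨T, hT⟩ : ∃ T, T = Az ⊓ F := ⟨_, rfl⟩
  have hRF : R ≤ F := by rw [hR]; exact inf_le_right
  have hTF : T ≤ F := by rw [hT]; exact inf_le_right
  have hRP : ∀ r ∈ R, r ^ p ^ α = 1 := by
    intro r hr
    rw [hR] at hr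
    exact w3 r hr.1
  have hTQ : ∀ r ∈ T, r ^ q ^ β = 1 := by
    intro r hr
    rw [hT] at hr
    exact z3 r hr.1
  have hRn : ∀ f ∈ F, ∀ r ∈ R, f * r * f⁻¹ ∈ R := by
    intro f hf r hr
    rw [hR] at hr ⊢
    exact ⟨w1 f hf r hr.1, F.mul_mem (F.mul_mem hf hr.2) (F.inv_mem hf)⟩
  have hTn : ∀ f ∈ F, ∀ r ∈ T, f * r * f⁻¹ ∈ T := by
    intro f hf r hr
    rw [hT] at hr ⊢
    exact ⟨z1 f hf r hr.1, F.mul_mem (F.mul_mem hf hr.2) (F.inv_mem hf)⟩
  have hRfin : Finite R := Finite.of_injective (Subgroup.inclusion hRF)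
    (Subgroup.inclusion_injective _)
  have hRT : ∀ r ∈ R, ∀ t ∈ T, r * t = t * r := by
    intro r hr t ht
    have h1 : r * t * r⁻¹ * t⁻¹ ∈ T := mul_mem (hTn r (hRF hr) t ht) (inv_mem ht)
    have h2 : r * t * r⁻¹ * t⁻¹ ∈ R := by
      have := mul_mem hr (hRn t (hTF ht) _ (inv_mem hr))
      have e : r * (t * r⁻¹ * t⁻¹) = r * t * r⁻¹ * t⁻¹ := by group
      rwa [e] at this
    have h5 := W629.eq_one_of_coprime S.hab (hRP _ h2) (hTQ _ h1)
    rw [mul_inv_eq_one, mul_inv_eq_iff_eq_mul] at h5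
    exact h5
  -- the commutator
  obtain ⟨c, hc⟩ : ∃ c, c = z * w * z⁻¹ * w⁻¹ := ⟨_, rfl⟩
  rw [← hc] at hcQ
  have hcF : c ∈ F := by
    rw [hc]
    exact F.mul_mem (F.mul_mem (F.mul_mem hzF hwF) (F.inv_mem hzF)) (F.inv_mem hwF)
  have hcBz : c ∈ Bz := by
    have := mul_mem z5 (z2 w hwF _ (inv_mem z5))
    have e : z * (w * z⁻¹ * w⁻¹) = z * w * z⁻¹ * w⁻¹ := by group
    rwa [e, ← hc] at this
  have hcBw : c ∈ Bw := by
    rw [hc]
    exact mul_mem (w2 z hzF w w5) (inv_mem w5)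
  obtain ⟨a, b, ⟨a', ha⟩, ⟨b', hb⟩, -, -, cab⟩ := crt S.hab
  have hca : c ^ a ∈ T := by
    rw [hT]
    refine ⟨?_, pow_mem hcF a⟩
    rw [ha, pow_mul]
    exact pow_mem (z4 c hcBz) _
  have hcb : c ^ b ∈ R := by
    rw [hR]
    refine ⟨?_, pow_mem hcF b⟩
    rw [hb, pow_mul]
    exact pow_mem (w4 c hcBw) _
  have hcab : c ^ a * c ^ b = c := cab c (by rw [pow_mul]; exact z3 _ (z4 c hcBz))
  obtain ⟨t, ht⟩ : ∃ t, t = c ^ a := ⟨_, rfl⟩
  obtain ⟨r, hr⟩ : ∃ r, r = c ^ b := ⟨_, rfl⟩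
  rw [← ht] at hca hcab
  rw [← hr] at hcb hcab
  have hzw : z * w = t * r * w * z := by
    rw [hcab, hc]
    group
  -- `w` acts nontrivially on `R`
  have hwR : ∃ r ∈ R, w * r ≠ r * w := by
    by_contra hcon
    push Not at hcon
    apply hcQ
    have hTw : w ∈ Subgroup.normalizer (T : Set G) := mem_norm hQpos hw.1 (hTn w hwF)
    have h1 : (t * w) ^ q ^ β ∈ T := xz_pow hTw hw.1 (k := t * w) (j := -1) (by
      rw [zpow_neg_one, mul_inv_cancel_right]
      exact hca)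
    have h2 : (t * w) ^ q ^ β = 1 := by
      obtain ⟨m, hqm, hm⟩ := S.symm.fac
      refine pp_pow hqm (k := β + β) (by rw [hm]; exact S.S.exp _) ?_
      rw [pow_add, pow_mul]
      exact hTQ _ h1
    have h3 : (z * w * z⁻¹) ^ q ^ β = 1 := conj_pow_one hw.1
    have h4 : z * w * z⁻¹ = r * (t * w) := by
      rw [hzw, hRT r hcb t hca |>.symm]
      group
    have hcm : Commute r (t * w) := by
      have c1 : Commute r t := hRT r hcb t hca
      have c2 : Commute r w := (hcon r hcb).symm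
      exact c1.mul_right c2
    rw [h4, hcm.mul_pow, h2, mul_one] at h3
    have h5 : r = 1 := W629.eq_one_of_coprime S.hab (hRP r hcb) h3
    rw [h5, mul_one] at hcab
    rw [← hcab]
    exact hTQ t hca
  have hzR : z ∈ Subgroup.normalizer (R : Set G) := mem_norm hPpos hz.1 (hRn z hzF)
  -- the subgroup `Ω_1(Z(R))`
  let Z1 : Subgroup G :=
    { carrier := {v | v ∈ R ∧ (∀ r ∈ R, v * r = r * v) ∧ v ^ p = 1}
      one_mem' := ⟨one_mem _, fun r _ => by rw [mul_one, one_mul], one_pow _⟩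
      mul_mem' := by
        rintro a b ⟨ha, ha2, ha3⟩ ⟨hb, hb2, hb3⟩
        refine ⟨mul_mem ha hb, fun r hr => ?_, ?_⟩
        · rw [mul_assoc, hb2 r hr, ← mul_assoc, ha2 r hr, mul_assoc]
        · have : Commute a b := ha2 b hb
          rw [this.mul_pow, ha3, hb3, one_mul]
      inv_mem' := by
        rintro a ⟨ha, ha2, ha3⟩
        refine ⟨inv_mem ha, fun r hr => ?_, by rw [inv_pow, ha3, inv_one]⟩
        have h1 := ha2 r hr
        rw [inv_mul_eq_iff_eq_mul, ← mul_assoc, h1]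
        group }
  have hZ1n : ∀ f ∈ F, ∀ v ∈ Z1, f * v * f⁻¹ ∈ Z1 := by
    rintro f hf v ⟨h1, h2, h3⟩
    refine ⟨hRn f hf v h1, fun r hr => ?_, conj_pow_one h3⟩
    have h4 : f⁻¹ * r * f ∈ R := by
      have := hRn f⁻¹ (inv_mem hf) r hr
      rwa [inv_inv] at this
    have h5 := h2 _ h4
    calc f * v * f⁻¹ * r = f * (v * (f⁻¹ * r * f)) * f⁻¹ := by group
      _ = f * ((f⁻¹ * r * f) * v) * f⁻¹ := by rw [h5]
      _ = r * (f * v * f⁻¹) := by group
  by_cases hB : ∀ v ∈ Z1, w * v = v * w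
  · -- case B
    let N : Subgroup G :=
      Subgroup.closure {y | ∃ f ∈ F, ∃ r ∈ R, y = f * (w * r * w⁻¹ * r⁻¹) * f⁻¹}
    have hNR : N ≤ R := by
      rw [Subgroup.closure_le]
      rintro _ ⟨f, hf, r, hr, rfl⟩
      exact hRn f hf _ (R.mul_mem (hRn w hwF r hr) (R.inv_mem hr))
    have hNn : ∀ f ∈ F, ∀ x ∈ N, f * x * f⁻¹ ∈ N := by
      intro f hf
      apply closure_conj
      rintro _ ⟨f', hf', r, hr, rfl⟩
      refine Subgroup.subset_closure ⟨f * f', mul_mem hf hf', r, hr, ?_⟩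
      group
    have hN1 : N ≠ ⊥ := by
      intro h
      obtain ⟨r, hr, hwr⟩ := hwR
      have h1 : w * r * w⁻¹ * r⁻¹ ∈ N := Subgroup.subset_closure ⟨1, one_mem _, r, hr, by group⟩
      rw [h, Subgroup.mem_bot, mul_inv_eq_one, mul_inv_eq_iff_eq_mul] at h1
      exact hwr h1
    have hNfin : Finite N := Finite.of_injective (Subgroup.inclusion hNR)
      (Subgroup.inclusion_injective _)
    obtain ⟨e, he, he1, hep, heR, hez⟩ := fix_pt S.hp hzR hz.1 hRP hNfin hNR (hNn z hzF)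
      (fun r hr => hNn r (hRF hr)) hN1
    have hew : w * e = e * w := hB e ⟨hNR he, heR, hep⟩
    have heP := hRP e (hNR he)
    obtain ⟨g, hg⟩ := nice_exists S heP he1
    obtain ⟨m1, m2, m3, m4, m5⟩ := gens S.hab (x := e) (k := w) (g := g) (c := z) heP hw.1
      hew.symm ⟨1, by rw [pow_one, ← hez]; group⟩ hg.1
    have hfin := S.S.fin (e * w) (g * z)
    have hsol := S.S.sol (e * w) (g * z)
    obtain ⟨E, hE⟩ : ∃ E, E = c2 (e * w) (g * z) := ⟨_, rfl⟩
    rw [← hE] at m1 m2 m3 m4 hfin hsol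
    have hFE : F ≤ E := by rw [hF]; exact c2_le m2 m4
    obtain ⟨A, h5, h6, h7⟩ := (hw.2 E hfin hsol m2).comm_mem S.hab.symm
    have hNA : N ≤ A := by
      rw [Subgroup.closure_le]
      rintro _ ⟨f, hf, r, hr, rfl⟩
      exact h5 f (hFE hf) _ (h7 r (hFE (hRF hr))
        (hRP _ (R.mul_mem (hRn w hwF r hr) (R.inv_mem hr))))
    exact nice_false hg h6 (h5 g m3) (hNA he)
  · -- case A
    push Not at hB
    obtain ⟨v0, hv0, hv0w⟩ := hB
    -- the commutator acts trivially on `Z1`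
    have hcZ : ∀ v ∈ Z1, (t * r) * v = v * (t * r) := by
      rintro v ⟨hv, hv2, hv3⟩
      calc t * r * v = t * (r * v) := by group
        _ = t * (v * r) := by rw [hv2 r hcb]
        _ = (t * v) * r := by group
        _ = (v * t) * r := by rw [hRT v hv t hca]
        _ = v * (t * r) := by group
    have hzwv : ∀ v ∈ Z1, z * (w * v * w⁻¹) * z⁻¹ = w * (z * v * z⁻¹) * w⁻¹ := by
      intro v hv
      have h5 := hZ1n w hwF _ (hZ1n z hzF v hv)
      have h6 := hcZ _ h5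
      calc z * (w * v * w⁻¹) * z⁻¹ = (z * w) * v * (z * w)⁻¹ := by group
        _ = (t * r * w * z) * v * (t * r * w * z)⁻¹ := by rw [hzw]
        _ = (t * r) * (w * (z * v * z⁻¹) * w⁻¹) * (t * r)⁻¹ := by group
        _ = (w * (z * v * z⁻¹) * w⁻¹) * (t * r) * (t * r)⁻¹ := by rw [h6]
        _ = w * (z * v * z⁻¹) * w⁻¹ := by group
    have hZab : ∀ u ∈ Z1, ∀ v ∈ Z1, u * v = v * u := fun u hu v hv => hu.2.1 v hv.1
    -- the centraliser of `z`
    let Z2 : Subgroup G :=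
      { carrier := {v | v ∈ Z1 ∧ z * v = v * z}
        one_mem' := ⟨one_mem _, by rw [mul_one, one_mul]⟩
        mul_mem' := by
          rintro x y ⟨hx, hx2⟩ ⟨hy, hy2⟩
          refine ⟨mul_mem hx hy, ?_⟩
          rw [← mul_assoc, hx2, mul_assoc, hy2, mul_assoc]
        inv_mem' := by
          rintro x ⟨hx, hx2⟩
          refine ⟨inv_mem hx, ?_⟩
          rw [eq_inv_mul_iff_mul_eq, ← mul_assoc, ← hx2]
          group }
    have hZ2w : ∀ v ∈ Z2, w * v * w⁻¹ ∈ Z2 := by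
      rintro v ⟨hv, hv2⟩
      refine ⟨hZ1n w hwF v hv, ?_⟩
      have h5 := hzwv v hv
      have h6 : z * v * z⁻¹ = v := by rw [hv2]; group
      rw [h6, mul_inv_eq_iff_eq_mul] at h5
      exact h5
    have hZ2R : Z2 ≤ R := fun v hv => hv.1.1
    have hZ2fin : Finite Z2 := Finite.of_injective (Subgroup.inclusion hZ2R)
      (Subgroup.inclusion_injective _)
    have hZ2nc : ∃ v ∈ Z2, w * v ≠ v * w := by
      by_contra hcon
      push Not at hcon
      -- the subgroup `[w, Z1]`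
      let W : Subgroup G :=
        { carrier := {x | ∃ v ∈ Z1, x = w * v * w⁻¹ * v⁻¹}
          one_mem' := ⟨1, one_mem _, by group⟩
          mul_mem' := by
            rintro _ _ ⟨x, hx, rfl⟩ ⟨y, hy, rfl⟩
            refine ⟨x * y, mul_mem hx hy, ?_⟩
            have h5 := hZab _ (inv_mem hx) _
              (Z1.mul_mem (hZ1n w hwF y hy) (Z1.inv_mem hy))
            calc w * x * w⁻¹ * x⁻¹ * (w * y * w⁻¹ * y⁻¹) =
                  w * x * w⁻¹ * (x⁻¹ * (w * y * w⁻¹ * y⁻¹)) := by group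
              _ = w * x * w⁻¹ * ((w * y * w⁻¹ * y⁻¹) * x⁻¹) := by rw [h5]
              _ = w * (x * y) * w⁻¹ * (x * y)⁻¹ := by group
          inv_mem' := by
            rintro _ ⟨x, hx, rfl⟩
            refine ⟨x⁻¹, inv_mem hx, ?_⟩
            have h5 := hZab _ (hZ1n w hwF _ (inv_mem hx)) _ hx
            calc (w * x * w⁻¹ * x⁻¹)⁻¹ = x * (w * x⁻¹ * w⁻¹) := by group
              _ = (w * x⁻¹ * w⁻¹) * x := by rw [h5]
              _ = w * x⁻¹ * w⁻¹ * x⁻¹⁻¹ := by group }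
      have hWZ : W ≤ Z1 := by
        rintro _ ⟨x, hx, rfl⟩
        exact Z1.mul_mem (hZ1n w hwF x hx) (Z1.inv_mem hx)
      have hWR : W ≤ R := fun x hx => (hWZ hx).1
      have hWfin : Finite W := Finite.of_injective (Subgroup.inclusion hWR)
        (Subgroup.inclusion_injective _)
      have hWz : ∀ x ∈ W, z * x * z⁻¹ ∈ W := by
        rintro _ ⟨x, hx, rfl⟩
        refine ⟨z * x * z⁻¹, hZ1n z hzF x hx, ?_⟩
        rw [← hzwv x hx]
        group
      have hW1 : W ≠ ⊥ := by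
        intro h
        have h1 : w * v0 * w⁻¹ * v0⁻¹ ∈ W := ⟨v0, hv0, rfl⟩
        rw [h, Subgroup.mem_bot, mul_inv_eq_one, mul_inv_eq_iff_eq_mul] at h1
        exact hv0w h1
      obtain ⟨e, he, he1, -, -, hez⟩ := fix_pt S.hp hzR hz.1 hRP hWfin hWR hWz
        (fun r hr x hx => by
          rw [← (hWZ hx).2.1 r hr, mul_inv_cancel_right]
          exact hx) hW1
      have hew := hcon e ⟨hWZ he, hez.symm⟩
      obtain ⟨v, hv, hev⟩ := he
      have h5 := comm_pow (x := w) (y := v) (c := e) hev.symm hew (q ^ β)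
      rw [hw.1] at h5
      have h6 : e ^ q ^ β = 1 := by rw [← h5]; group
      have h7 : e ^ p ^ α = 1 := hRP e (hWR ⟨v, hv, hev⟩)
      exact he1 (W629.eq_one_of_coprime S.hab h7 h6)
    obtain ⟨U, hUZ, A⟩ := arr_exists (n := n) (s := p) (h := w) Z2 hZ2fin
      (fun u hu => by rw [S.qpp]; exact hRP u (hZ2R hu)) hZ2w hZ2nc
    refine caseA (z := z) (w := w) (U := U) ⟨S, hz, hzp, hw, A, fun u hu => (hUZ hu).2⟩ hwq h3 h4 ?_
    rw [← hF]
    exact fun u hu => hRF (hZ2R (hUZ hu))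

/-- the elements of `SS p q` and `SS q p` of prime order commute -/
theorem comm_all (S : St n p q α β G) (h3 : ¬ p ∣ q - 1) (h4 : ¬ q ∣ p - 1) {z w : G}
    (hz : SS p q α β z) (hzp : z ^ p = 1) (hw : SS q p β α w) (hwq : w ^ q = 1) :
    z * w = w * z := by
  have h1 := comm_half S h3 h4 hz hzp hw hwq
  have h2 := comm_half S.symm h4 h3 hw hwq hz hzp
  have h5 : (z * w * z⁻¹ * w⁻¹) ^ p ^ α = 1 := by
    have e : z * w * z⁻¹ * w⁻¹ = (w * z * w⁻¹ * z⁻¹)⁻¹ := by group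
    rw [e, inv_pow, h2, inv_one]
  have h6 := W629.eq_one_of_coprime S.hab h5 h1
  rw [mul_inv_eq_one, mul_inv_eq_iff_eq_mul] at h6
  exact h6

end Pool.Agent.TH69.Og
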