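import Mathlib
import Pool.Agent.TH69.OgJ
import Pool.Agent.TH69.OdW

set_option autoImplicit false

/-!
# Groups of exponent `n` with finite soluble two-generator subgroups, part K: the induction
-/

namespace Pool.Agent.TH69.Og

open Pool.Agent.H32BU Pool.Agent.W629 Pool.Agent.TH69.Mtn Pool.Agent.TH69.Od

/-- the conditions on the exponent -/
structure Cd (n : ℕ) : Prop where
  two : ∀ m, 2 ≤ m → ¬ 2 ^ m * (2 ^ m - 1) ∣ n
  sq : ∃ p q : ℕ, ∀ r : ℕ, r.Prime → r ≠ 2 → r ^ 2 ∣ n → r = p ∨ r = q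

theorem Cd.of_dvd {n m : ℕ} (C : Cd n) (h : m ∣ n) : Cd m := by
  obtain ⟨p, q, hpq⟩ := C.sq
  exact ⟨fun k hk h1 => C.two k hk (h1.trans h),
    p, q, fun r hr hr2 h1 => hpq r hr hr2 (h1.trans h)⟩

variable {G : Type} [Group G]

theorem map_sub_c2 (A : Subgroup G) (x y : A) :
    (c2 x y).map A.subtype = c2 (x : G) (y : G) := by
  unfold c2
  rw [MonoidHom.map_closure, Set.image_pair]
  rfl

/-- normal subgroups of smaller exponent -/
theorem step {n m : ℕ} (hmn : m ∣ n) (S : Sg n G)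
    (hR : ∀ p : ℕ, p.Prime → Rad (qp p n) G = ⊥) (A : Subgroup G) (hA : A.Normal)
    (hexp : ∀ x ∈ A, x ^ m = 1) : Sg m A ∧ ∀ p : ℕ, p.Prime → Rad (qp p m) A = ⊥ := by
  have hm : m ≠ 0 := by
    rintro rfl
    exact S.hn (zero_dvd_iff.1 hmn)
  refine ⟨⟨hm, fun x => Subtype.ext (hexp x x.2), fun x y => ?_, fun x y => ?_⟩, fun p hp => ?_⟩
  · have h5 := S.fin (x : G) (y : G)
    rw [← map_sub_c2] at h5
    exact Finite.of_injective _
      ((c2 x y).equivMapOfInjective A.subtype A.subtype_injective).injective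
  · have h5 := S.sol (x : G) (y : G)
    rw [← map_sub_c2] at h5
    exact Group.isSolvable_of_isSolvable_injective (f := (((c2 x y).equivMapOfInjective A.subtype
      A.subtype_injective) : c2 x y →* (c2 x y).map A.subtype))
      ((c2 x y).equivMapOfInjective A.subtype A.subtype_injective).injective
  · refine rad_sub_bot A hA fun N hN hNP => ?_
    obtain ⟨k, hk1, hk2⟩ := qp_fac S.hn hp
    have h1 : qp p m ∣ qp p n := Nat.ordProj_dvd_ordProj_of_dvd S.hn hmn p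
    have h2 := le_rad (G := G) (a := qp p n) (b := k) (Nat.Coprime.pow_left _ hk1)
      (by rw [hk2]; exact S.exp) N (fun x hx => by
        obtain ⟨c, hc⟩ := h1
        rw [hc, pow_mul, hNP x hx, one_pow])
    rw [hR p hp] at h2
    exact le_bot_iff.1 h2

/-- the condition of the theorem of Hall and Higman -/
theorem hexG {n q M α : ℕ} (_hn : n ≠ 0) (C : Cd n) (hq : q.Prime) (hqM : Nat.Coprime q M)
    (hM : q ^ α * M = n) (h2 : q = 2 ∨ ¬ 2 ∣ n) : ∀ s : ℕ, s.Prime → s ∣ M → ∀ μ, 1 ≤ μ → μ ≤ α →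
      ∀ r, 1 ≤ r → s ^ r ≠ q ^ μ - 1 := by
  intro s hs hsM μ hμ1 hμ2 r hr h
  rcases h2 with rfl | h2
  · obtain ⟨h3, h4⟩ := mersenne hs hr h
    apply C.two μ h4
    rw [← h3, ← hM]
    exact Nat.mul_dvd_mul (pow_dvd_pow 2 hμ2) hsM
  · have hs2 : s ≠ 2 := by
      rintro rfl
      exact h2 (hsM.trans (Dvd.intro_left _ hM))
    have hq2 : q ≠ 2 := by
      rintro rfl
      apply h2
      rw [← hM]
      exact (dvd_pow_self 2 (by omega)).trans (dvd_mul_right _ _)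
    have h3 := (hq.odd_of_ne_two hq2).pow (n := μ)
    have h4 := (hs.odd_of_ne_two hs2).pow (n := r)
    have h5 : 0 < q ^ μ := h3.pos
    obtain ⟨c, hc⟩ := h3
    obtain ⟨d, hd⟩ := h4
    omega

theorem sg_conj {P M : ℕ} {z : G} (hz : SG P M z) (g : G) : SG P M (g * z * g⁻¹) := by
  refine ⟨conj_pow_one hz.1, fun E hE hEs hzE => ?_⟩
  obtain ⟨E', hE'⟩ : ∃ E', E' = E.map (MulAut.conj g⁻¹).toMonoidHom := ⟨_, rfl⟩
  have hfin : Finite E' := by
    rw [hE']
    exact Finite.of_surjective _ ((MulAut.conj g⁻¹).toMonoidHom.subgroupMap_surjective E)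
  have hsol : Group.IsSolvable E' := by
    rw [hE']
    exact Group.isSolvable_of_surjective ((MulAut.conj g⁻¹).toMonoidHom.subgroupMap_surjective E)
  have hz' : z ∈ E' := by
    rw [hE']
    refine ⟨_, hzE, ?_⟩
    change g⁻¹ * (g * z * g⁻¹) * g⁻¹⁻¹ = z
    group
  have h1 := (hz.2 E' hfin hsol hz').map (MulAut.conj g).toMonoidHom
  refine h1.mono ?_
  intro h hh
  refine ⟨g⁻¹ * h * g⁻¹⁻¹, ?_, ?_⟩
  · rw [hE']
    exact ⟨h, hh, rfl⟩
  · change g * (g⁻¹ * h * g⁻¹⁻¹) * g⁻¹ = h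
    group

/-- the main theorem for groups without normal subgroups of prime power exponent -/
theorem trivG : ∀ n : ℕ, Cd n → ∀ {G : Type} [Group G], Sg n G →
    (∀ p : ℕ, p.Prime → Rad (qp p n) G = ⊥) → ∀ x : G, x = 1 := by
  intro n
  induction n using Nat.strong_induction_on with
  | _ n ih =>
  intro C G _ S hR
  -- dropping the exponent
  have drop : ∀ m : ℕ, m ∣ n → m < n → (∀ x : G, x ^ m = 1) → ∀ x : G, x = 1 := by
    intro m hmn hm hexp x
    obtain ⟨h1, h2⟩ := step hmn S hR ⊤ inferInstance fun x _ => hexp x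
    have h3 := ih m hm (C.of_dvd hmn) h1 h2 ⟨x, Subgroup.mem_top x⟩
    exact congrArg Subtype.val h3
  -- the hypotheses for a prime
  have hpr : ∀ q : ℕ, q.Prime → q ∣ n → ∃ α M, 1 ≤ α ∧ Nat.Coprime q M ∧ q ^ α * M = n ∧
      qp q n = q ^ α ∧ Pr n (q ^ α) M G := by
    intro q hq hqn
    obtain ⟨M, h1, h2⟩ := qp_fac S.hn hq
    have hα : 1 ≤ n.factorization q := (hq.dvd_iff_one_le_factorization S.hn).1 hqn
    have hMn : M ∣ n := Dvd.intro_left _ h2
    have hM0 : 0 < M := Nat.pos_of_ne_zero fun h => S.hn (by rw [← h2, h, mul_zero])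
    have hlt : M < n := by
      rw [← h2]
      exact lt_mul_of_one_lt_left hM0 (Nat.one_lt_pow (by omega) hq.one_lt)
    refine ⟨n.factorization q, M, hα, h1, h2, rfl, S, Nat.Coprime.pow_left _ h1,
      ⟨qp q n, (Nat.Coprime.pow_left _ h1).symm, by rw [mul_comm]; exact h2⟩, ?_⟩
    obtain ⟨h3, h4⟩ := step hMn S hR (Rad M G) (rad_normal M) fun x hx => rad_pow hx
    have h5 := ih M hlt (C.of_dvd hMn) h3 h4
    rw [eq_bot_iff]
    intro x hx
    exact congrArg Subtype.val (h5 ⟨x, hx⟩)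
  -- there are elements of order `q` in `SG`
  have hdrop : ∀ q : ℕ, q.Prime → (q = 2 ∨ ¬ 2 ∣ n) → ∀ α M, 1 ≤ α → Nat.Coprime q M →
      q ^ α * M = n → (∀ z : G, SG (q ^ α) M z → z ^ q = 1 → z = 1) → ∀ x : G, x = 1 := by
    intro q hq h2 α M hα hqM hM hz
    have hM0 : 0 < M := Nat.pos_of_ne_zero fun h => S.hn (by rw [← hM, h, mul_zero])
    refine drop (q ^ (α - 1) * M) ?_ ?_ fun x => ?_
    · rw [← hM]
      exact Nat.mul_dvd_mul (pow_dvd_pow q (by omega)) dvd_rfl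
    · rw [← hM]
      exact Nat.mul_lt_mul_of_pos_right (Nat.pow_lt_pow_right hq.one_lt (by omega)) hM0
    · have h3 : (x ^ M) ^ q ^ α = 1 := by rw [← pow_mul, mul_comm, hM, S.exp]
      have h4 := ss_of_maxG S hq ((Nat.Prime.coprime_iff_not_dvd hq).1 hqM) hM hα
        (hexG S.hn C hq hqM hM h2) h3
      have h5 := hz _ h4 (by
        rw [← pow_mul, ← pow_succ, Nat.sub_add_cancel hα, h3])
      rw [mul_comm, pow_mul]
      exact h5
  by_cases h2n : 2 ∣ n
  · -- the even case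
    obtain ⟨α, M, hα, hqM, hM, hqp, hP⟩ := hpr 2 Nat.prime_two h2n
    refine hdrop 2 Nat.prime_two (Or.inl rfl) α M hα hqM hM fun z hz hz2 => ?_
    refine rad_of_no_arrG S Nat.prime_two hqM hM (by rw [← hqp]; exact hR 2 Nat.prime_two) hz
      fun s hs hs2 U A => ?_
    refine no_arrG hP (Nat.pow_pos (by norm_num)) hs (qp_dvd_M Nat.prime_two hs hs2 hM) ?_ hz hz2 A
    have h3 := hs.eq_two_or_odd.resolve_left hs2
    have h4 := hs.two_le
    omega
  -- the odd case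
  by_contra hcon
  -- every prime divisor has an element with a minimal subgroup
  have key : ∀ q : ℕ, q.Prime → q ∣ n → ∃ α M, 1 ≤ α ∧ Nat.Coprime q M ∧ q ^ α * M = n ∧
      qp q n = q ^ α ∧ Pr n (q ^ α) M G ∧ ∃ w : G, SG (q ^ α) M w ∧ w ^ q = 1 ∧ w ≠ 1 ∧
      ∃ s : ℕ, s.Prime ∧ s ≠ q ∧ ∃ U : Subgroup G, Arr n s w U := by
    intro q hq hqn
    obtain ⟨α, M, hα, hqM, hM, hqp, hP⟩ := hpr q hq hqn
    refine ⟨α, M, hα, hqM, hM, hqp, hP, ?_⟩
    have h1 : ∃ w : G, SG (q ^ α) M w ∧ w ^ q = 1 ∧ w ≠ 1 := by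
      by_contra h
      push Not at h
      exact hcon (hdrop q hq (Or.inr h2n) α M hα hqM hM h)
    obtain ⟨w, h3, h4, h5⟩ := h1
    refine ⟨w, h3, h4, h5, ?_⟩
    by_contra h
    push Not at h
    exact h5 (rad_of_no_arrG S hq hqM hM (by rw [← hqp]; exact hR q hq) h3
      fun s hs hsq U A => h s hs hsq U A)
  -- minimal subgroups are `s`-groups with `s ^ 2 ∣ n`
  have hsq : ∀ q α M : ℕ, q.Prime → Nat.Coprime q M → q ^ α * M = n → Pr n (q ^ α) M G →
      ∀ w : G, SG (q ^ α) M w → ∀ s : ℕ, s.Prime → s ≠ q → ∀ U : Subgroup G, Arr n s w U →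
      s ^ 2 ∣ n := by
    intro q α M hq hqM hM hP w hw s hs hsq U A
    by_contra hs2
    have hsn : s ∣ n := by
      by_contra hsn
      obtain ⟨u, hu, huw⟩ := A.nc
      have h1 : qp s n = 1 := by
        unfold qp
        rw [Nat.factorization_eq_zero_of_not_dvd hsn, pow_zero]
      have h3 := A.pow u hu
      rw [h1, pow_one] at h3
      rw [h3, mul_one, one_mul] at huw
      exact huw rfl
    obtain ⟨γ, m, hγ, hsm, hm, hqps, -⟩ := hpr s hs hsn
    have hγ1 : γ = 1 := by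
      by_contra h
      apply hs2
      rw [← hm]
      exact (pow_dvd_pow s (by omega)).trans (dvd_mul_right _ _)
    subst hγ1
    refine no_arr_small hP hq hqM hM hs hsq hsm (fun x hx => ?_) hw A
    have h1 := ss_of_maxG (x := x) S hs ((Nat.Prime.coprime_iff_not_dvd hs).1 hsm) hm le_rfl
      (hexG S.hn C hs hsm hm (Or.inr h2n)) (by rw [pow_one]; exact hx)
    rw [Nat.sub_self, pow_zero, pow_one, pow_one] at h1
    exact h1
  have hn1 : n ≠ 1 := by
    rintro rfl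
    exact hcon fun x => by rw [← S.exp x, pow_one]
  obtain ⟨q0, hq0, hq0n⟩ := Nat.exists_prime_and_dvd hn1
  obtain ⟨α0, M0, -, hqM0, hM0, -, hP0, w0, hw0, -, -, p, hp, hpq0, U0, A0⟩ := key q0 hq0 hq0n
  have hp2 := hsq q0 α0 M0 hq0 hqM0 hM0 hP0 w0 hw0 p hp hpq0 U0 A0
  have hpn : p ∣ n := (dvd_pow_self p two_ne_zero).trans hp2
  obtain ⟨α, Mp, hα, hpMp, hMp, hqpp, hPp, z0, hz0, hz0p, hz01, q, hq, hqp, U1, A1⟩ := key p hp hpn
  have hq2 := hsq p α Mp hp hpMp hMp hPp z0 hz0 q hq hqp U1 A1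
  have hqn : q ∣ n := (dvd_pow_self q two_ne_zero).trans hq2
  obtain ⟨β, Mq, hβ, hqMq, hMq, hqpq, hPq, w1, hw1, hw1q, hw11, p', hp', hpq', U2, A2⟩ :=
    key q hq hqn
  have hp'2 := hsq q β Mq hq hqMq hMq hPq w1 hw1 p' hp' hpq' U2 A2
  -- only two primes
  have hodd : ∀ s : ℕ, s.Prime → s ^ 2 ∣ n → s ≠ 2 := by
    rintro s hs h rfl
    exact h2n ((dvd_pow_self 2 two_ne_zero).trans h)
  have htwo : ∀ s : ℕ, s.Prime → s ^ 2 ∣ n → s = p ∨ s = q := by
    intro s hs h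
    obtain ⟨a, b, hab⟩ := C.sq
    have h3 := hab p hp (hodd p hp hp2) hp2
    have h4 := hab q hq (hodd q hq hq2) hq2
    have h5 := hab s hs (hodd s hs h) h
    rcases h3 with h3 | h3 <;> rcases h4 with h4 | h4 <;> rcases h5 with h5 | h5 <;>
      first
      | exact absurd (h4.trans h3.symm) hqp
      | exact Or.inl (h5.trans h3.symm)
      | exact Or.inr (h5.trans h4.symm)
  have hSS1 : ∀ z : G, SG (p ^ α) Mp z → SG (p ^ α) (q ^ β) z := by
    intro z hz
    rw [← hqpq]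
    refine ss_pair S hq hp hqp hpMp hMp hz fun s hs hsp hsq' U A => ?_
    rcases htwo s hs (hsq p α Mp hp hpMp hMp hPp z hz s hs hsp U A) with h | h
    · exact hsp h
    · exact hsq' h
  have hSS2 : ∀ w : G, SG (q ^ β) Mq w → SG (q ^ β) (p ^ α) w := by
    intro w hw
    rw [← hqpp]
    refine ss_pair S hp hq hqp.symm hqMq hMq hw fun s hs hsq' hsp U A => ?_
    rcases htwo s hs (hsq q β Mq hq hqMq hMq hPq w hw s hs hsq' U A) with h | h
    · exact hsp h
    · exact hsq' h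
  have hpp' : p' = p := (htwo p' hp' hp'2).resolve_right hpq'
  subst hpp'
  have h3 : ¬ p' ∣ q - 1 := fun h =>
    no_arrG hPp (Nat.pow_pos hp.pos) hq (qp_dvd_M hp hq hqp hMp) h hz0 hz0p A1
  have h4 : ¬ q ∣ p' - 1 := fun h =>
    no_arrG hPq (Nat.pow_pos hq.pos) hp (qp_dvd_M hq hp hqp.symm hMq) h hw1 hw1q A2
  have SS' : St n p' q α β G := ⟨S, hp, hq, hqp.symm, hqpp, hqpq, by rw [← hqpp]; exact hR p' hp,
    by rw [← hqpq]; exact hR q hq⟩
  obtain ⟨A, hA⟩ : ∃ A : Subgroup G,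
    A = Subgroup.closure {z | SG (p' ^ α) Mp z ∧ z ^ p' = 1} := ⟨_, rfl⟩
  obtain ⟨B, hB⟩ : ∃ B : Subgroup G,
    B = Subgroup.closure {w | SG (q ^ β) Mq w ∧ w ^ q = 1} := ⟨_, rfl⟩
  have hAn : A.Normal := by
    refine ⟨fun x hx g => ?_⟩
    rw [hA] at hx ⊢
    refine closure_conj ?_ x hx
    rintro z ⟨h1, h2⟩
    exact Subgroup.subset_closure ⟨sg_conj h1 g, conj_pow_one h2⟩
  have hBn : B.Normal := by
    refine ⟨fun x hx g => ?_⟩
    rw [hB] at hx ⊢
    refine closure_conj ?_ x hx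
    rintro z ⟨h1, h2⟩
    exact Subgroup.subset_closure ⟨sg_conj h1 g, conj_pow_one h2⟩
  have hAB : ∀ a ∈ A, ∀ b ∈ B, a * b = b * a := by
    have h5 : A ≤ Subgroup.centralizer {w | SG (q ^ β) Mq w ∧ w ^ q = 1} := by
      rw [hA, Subgroup.closure_le]
      rintro z ⟨h1, h2⟩
      rw [SetLike.mem_coe, Subgroup.mem_centralizer_iff]
      rintro w ⟨h3', h4'⟩
      exact (comm_all SS' h3 h4 (hSS1 z h1) h2 (hSS2 w h3') h4').symm
    have h6 : B ≤ Subgroup.centralizer (A : Set G) := by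
      rw [hB, Subgroup.closure_le]
      rintro w hw
      rw [SetLike.mem_coe, Subgroup.mem_centralizer_iff]
      intro a ha
      exact ((Subgroup.mem_centralizer_iff.1 (h5 ha)) w hw).symm
    intro a ha b hb
    exact (Subgroup.mem_centralizer_iff.1 (h6 hb)) a ha
  have hexpq : ∀ x : G, x ^ (q ^ β * Mq) = 1 := by rw [hMq]; exact S.exp
  have habq : Nat.Coprime (q ^ β) Mq := Nat.Coprime.pow_left _ hqMq
  -- the exponent of `A`
  have hexpA : ∀ x ∈ A, x ^ (q ^ (β - 1) * Mq) = 1 := by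
    intro x hx
    have h5 : (x ^ Mq) ^ q ^ β = 1 := by rw [← pow_mul, mul_comm, hMq, S.exp]
    have h6 := ss_of_maxG S hq ((Nat.Prime.coprime_iff_not_dvd hq).1 hqMq) hMq hβ
      (hexG S.hn C hq hqMq hMq (Or.inr h2n)) h5
    have h7 : ((x ^ Mq) ^ q ^ (β - 1)) ^ q = 1 := by
      rw [← pow_mul, ← pow_succ, Nat.sub_add_cancel hβ]
      exact h5
    have h8 : (x ^ Mq) ^ q ^ (β - 1) ∈ A := pow_mem (pow_mem hx _) _
    have h9 : (x ^ Mq) ^ q ^ (β - 1) ∈ B := by
      rw [hB]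
      exact Subgroup.subset_closure ⟨h6, h7⟩
    rw [mul_comm, pow_mul]
    generalize (x ^ Mq) ^ q ^ (β - 1) = w at h6 h7 h8 h9
    let D : Subgroup G :=
      { carrier := {d | d ∈ A ∧ d ∈ B ∧ d ^ q ^ β = 1}
        one_mem' := ⟨one_mem _, one_mem _, one_pow _⟩
        mul_mem' := by
          rintro a b ⟨ha, ha2, ha3⟩ ⟨hb, hb2, hb3⟩
          refine ⟨mul_mem ha hb, mul_mem ha2 hb2, ?_⟩
          have : Commute a b := hAB a ha b hb2
          rw [this.mul_pow, ha3, hb3, one_mul]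
        inv_mem' := by
          rintro a ⟨ha, ha2, ha3⟩
          exact ⟨inv_mem ha, inv_mem ha2, by rw [inv_pow, ha3, inv_one]⟩ }
    have hDn : D.Normal := by
      refine ⟨?_⟩
      rintro d ⟨h10, h11, h12⟩ g
      exact ⟨hAn.conj_mem d h10 g, hBn.conj_mem d h11 g, conj_pow_one h12⟩
    have h10 := le_rad habq hexpq D (fun d hd => hd.2.2)
    rw [SS'.rq] at h10
    exact h10 ⟨h8, h9, h6.1⟩
  have hMq0 : 0 < Mq := Nat.pos_of_ne_zero fun h => S.hn (by rw [← hMq, h, mul_zero])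
  have hdvd : q ^ (β - 1) * Mq ∣ n := by
    rw [← hMq]
    exact Nat.mul_dvd_mul (pow_dvd_pow q (by omega)) dvd_rfl
  have hlt : q ^ (β - 1) * Mq < n := by
    rw [← hMq]
    exact Nat.mul_lt_mul_of_pos_right (Nat.pow_lt_pow_right hq.one_lt (by omega)) hMq0
  obtain ⟨h5, h6⟩ := step hdvd S hR A hAn hexpA
  have hz0A : z0 ∈ A := by
    rw [hA]
    exact Subgroup.subset_closure ⟨hz0, hz0p⟩
  have h7 := ih _ hlt (C.of_dvd hdvd) h5 h6 ⟨z0, hz0A⟩
  exact hz01 (congrArg Subtype.val h7)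

end Pool.Agent.TH69.Og
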