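import Mathlib
import Pool.Agent.TH69.OgK

set_option autoImplicit false

/-!
# Groups of exponent `n` with finite soluble two-generator subgroups, part L: local finiteness and
# transfer to all universes
-/

namespace Pool.Agent.TH69.Og

open Pool.Agent.H32BU Pool.Agent.W629 Pool.Agent.TH69.Mtn Pool.Agent.TH69.Od Pool.Agent.TH69.Pq

universe u

/-- the property of exponents which is proved -/
def TrS (n : ℕ) : Prop := ∀ (G : Type) [Group G], (∀ x : G, x ^ n = 1) →
  (∀ x y : G, Finite (c2 x y)) → (n.primeFactors.card ≤ 2 ∨ ∀ x y : G, Group.IsSolvable (c2 x y)) →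
  (∀ s : ℕ, s.Prime → Rad (qp s n) G = ⊥) → ∀ g : G, g = 1

theorem trS {n : ℕ} (hn : n ≠ 0) (C : Cd n) : TrS n := by
  intro G _ hG h2 hs hR
  refine trivG n C ⟨hn, hG, h2, ?_⟩ hR
  rcases hs with hs | hs
  · obtain ⟨p, q, a, b, hp, hq, e⟩ := two_primes n (Nat.pos_of_ne_zero hn) hs
    intro x y
    have := h2 x y
    refine solv_of_exp p q a b hp hq fun z => ?_
    rw [← e]
    exact exp_sub hG _ z
  · exact hs

theorem lf_trS {n : ℕ} (T : TrS n) (hL : ∀ p : ℕ, p.Prime → LocFin (qp p n)) (G : Type)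
    [Group G] (hG : ∀ x : G, x ^ n = 1) (h2 : ∀ x y : G, Finite (c2 x y))
    (hs : n.primeFactors.card ≤ 2 ∨ ∀ x y : G, Group.IsSolvable (c2 x y)) : LF G := by
  obtain ⟨M, hM, hML, hMmax⟩ := exists_radical G
  refine x_SCH G M hML ?_
  have h1 : ∀ g : G ⧸ M, g = 1 := by
    refine T _ (exp_quot hG M) ?_ ?_ ?_
    · intro x y
      obtain ⟨x, rfl⟩ := QuotientGroup.mk_surjective x
      obtain ⟨y, rfl⟩ := QuotientGroup.mk_surjective y
      have hmap : (c2 x y).map (QuotientGroup.mk' M) = c2 (x : G ⧸ M) (y : G ⧸ M) := map_c2 _ x y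
      have hf := h2 x y
      rw [← hmap]
      exact Finite.of_surjective _ ((QuotientGroup.mk' M).subgroupMap_surjective (c2 x y))
    · rcases hs with hs | hs
      · exact Or.inl hs
      · right
        intro x y
        obtain ⟨x, rfl⟩ := QuotientGroup.mk_surjective x
        obtain ⟨y, rfl⟩ := QuotientGroup.mk_surjective y
        have hmap : (c2 x y).map (QuotientGroup.mk' M) = c2 (x : G ⧸ M) (y : G ⧸ M) :=
          map_c2 _ x y
        have hf := hs x y
        rw [← hmap]
        exact Group.isSolvable_of_surjective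
          ((QuotientGroup.mk' M).subgroupMap_surjective (c2 x y))
    · intro s hs
      rw [eq_bot_iff]
      intro x hx
      have hN : ((Rad (qp s n) (G ⧸ M)).comap (QuotientGroup.mk' M)).Normal := inferInstance
      have hNL : LF ((Rad (qp s n) (G ⧸ M)).comap (QuotientGroup.mk' M)) := by
        have hML' : LF (M.subgroupOf ((Rad (qp s n) (G ⧸ M)).comap (QuotientGroup.mk' M))) := by
          refine x_LFS.2.1 _ M
            { toFun := fun x => ⟨(x : ↥((Rad (qp s n) (G ⧸ M)).comap (QuotientGroup.mk' M))), x.2⟩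
              map_one' := rfl
              map_mul' := fun _ _ => rfl } ?_ hML
          intro a b hab
          have : ((a : ↥((Rad (qp s n) (G ⧸ M)).comap (QuotientGroup.mk' M))) : G) =
              ((b : ↥((Rad (qp s n) (G ⧸ M)).comap (QuotientGroup.mk' M))) : G) :=
            congrArg (fun z : ↥M => (z : G)) hab
          exact Subtype.ext (Subtype.ext this)
        refine x_SCH _ (M.subgroupOf ((Rad (qp s n) (G ⧸ M)).comap (QuotientGroup.mk' M))) hML' ?_
        refine hL s hs _ fun q => ?_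
        obtain ⟨⟨g, hg⟩, rfl⟩ := QuotientGroup.mk_surjective q
        rw [← QuotientGroup.mk_pow, QuotientGroup.eq_one_iff, Subgroup.mem_subgroupOf]
        have h3 : ((g : G ⧸ M)) ^ qp s n = 1 := hg.1
        rw [← QuotientGroup.mk_pow, QuotientGroup.eq_one_iff] at h3
        exact h3
      obtain ⟨g, rfl⟩ := QuotientGroup.mk_surjective x
      have h4 : g ∈ (Rad (qp s n) (G ⧸ M)).comap (QuotientGroup.mk' M) := hx
      have h5 := hMmax _ hN hNL h4
      rw [Subgroup.mem_bot, QuotientGroup.eq_one_iff]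
      exact h5
  intro S
  have : Subsingleton (G ⧸ M) := ⟨fun a b => by rw [h1 a, h1 b]⟩
  infer_instance

/-- the condition on two-generator subgroups, transferred -/
theorem sol_transfer {Q : Type} {G : Type u} [Group Q] [Group G] (f : Q →* G)
    (hf : Function.Injective f) (h2 : ∀ x y : G, Group.IsSolvable (Subgroup.closure {x, y}))
    (x y : Q) : Group.IsSolvable (c2 x y) := by
  have h3 := h2 (f x) (f y)
  have e : (c2 x y).map f = Subgroup.closure {f x, f y} := by
    unfold c2
    rw [MonoidHom.map_closure, Set.image_pair]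
  rw [← e] at h3
  have eq := (c2 x y).equivMapOfInjective f hf
  exact Group.isSolvable_of_isSolvable_injective (f := (eq : c2 x y →* (c2 x y).map f)) eq.injective

theorem lf_trS_u {n : ℕ} (T : TrS n) (hL : ∀ p : ℕ, p.Prime → LocFin (qp p n))
    (G : Type u) [Group G] (hG : ∀ x : G, x ^ n = 1)
    (h2 : ∀ x y : G, Finite (Subgroup.closure {x, y}))
    (hs : n.primeFactors.card ≤ 2 ∨ ∀ x y : G, Group.IsSolvable (Subgroup.closure {x, y}))
    (S : Set G) (hS : S.Finite) : Finite (Subgroup.closure S) :=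
  finite_closure_u S hS fun Q _ f hf => lf_trS T hL Q
    (fun x => hf (by rw [map_pow, map_one]; exact hG _)) (fin_transfer f hf h2)
    (hs.imp id fun h => sol_transfer f hf h)

/-- triviality of groups with trivial radicals, all universes -/
theorem trS_u {n : ℕ} (T : TrS n) (G : Type u) [Group G] (hG : ∀ x : G, x ^ n = 1)
    (h2 : ∀ x y : G, Finite (Subgroup.closure {x, y}))
    (hs : n.primeFactors.card ≤ 2 ∨ ∀ x y : G, Group.IsSolvable (Subgroup.closure {x, y}))
    (hR : ∀ s : ℕ, s.Prime → Rad (qp s n) G = ⊥) (g : G) : g = 1 := by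
  classical
  have hex : ∀ (s : ℕ) (e : G), ∃ z : G, s.Prime → e ≠ 1 → e ^ qp s n = 1 →
      z ^ qp s n = 1 ∧ (e * z) ^ qp s n ≠ 1 := by
    intro s e
    by_contra hcon
    push Not at hcon
    obtain ⟨hs, he1, he, -⟩ := hcon 1
    apply he1
    have h3 : e ∈ Rad (qp s n) G := ⟨he, fun z hz => (hcon z).2.2.2 hz⟩
    rw [hR s hs] at h3
    exact h3
  choose f hf using hex
  obtain ⟨C, hC, hgC, hfC⟩ := exists_closed f g
  have hsm : Small.{0} C := inferInstance
  let e : Shrink.{0} C ≃* C := Shrink.mulEquiv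
  let φ : Shrink.{0} C →* G := C.subtype.comp e.toMonoidHom
  have hφ : Function.Injective φ := fun x y hxy => e.injective (Subtype.ext hxy)
  have hmem : ∀ x, φ x ∈ C := fun x => (e x).2
  have h3 := T (Shrink.{0} C)
    (fun x => hφ (by rw [map_pow, map_one]; exact hG _)) (fin_transfer φ hφ h2)
    (hs.imp id fun h => sol_transfer φ hφ h) (by
      intro s hs
      rw [Subgroup.eq_bot_iff_forall]
      rintro x ⟨hx, hx'⟩
      by_contra hne
      obtain ⟨h4, h5⟩ := hf s (φ x) hs (fun h => hne (hφ (by rw [h, map_one])))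
        (by rw [← map_pow, hx, map_one])
      obtain ⟨z, hz⟩ : ∃ z, φ z = f s (φ x) := by
        refine ⟨e.symm ⟨f s (φ x), hfC s _ (hmem x)⟩, ?_⟩
        change ((e (e.symm _) : C) : G) = _
        rw [MulEquiv.apply_symm_apply]
      have h6 := hx' z (hφ (by rw [map_pow, hz, h4, map_one]))
      apply h5
      rw [← hz, ← map_mul, ← map_pow, h6, map_one]) (e.symm ⟨g, hgC⟩)
  have h4 := congrArg φ h3
  rw [map_one] at h4
  have h5 : φ (e.symm ⟨g, hgC⟩) = g := by
    change ((e (e.symm _) : C) : G) = _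
    rw [MulEquiv.apply_symm_apply]
  rw [← h5, h4]

/-- normal subgroups of prime power exponent -/
theorem exists_normalS {n : ℕ} (T : TrS n) (G : Type u) [Group G] (hG : ∀ x : G, x ^ n = 1)
    (h2 : ∀ x y : G, Finite (Subgroup.closure {x, y}))
    (hs : n.primeFactors.card ≤ 2 ∨ ∀ x y : G, Group.IsSolvable (Subgroup.closure {x, y}))
    (hnt : Nontrivial G) :
    ∃ p k : ℕ, p.Prime ∧ p ^ k ∣ n ∧ ∃ N : Subgroup G, N.Normal ∧ N ≠ ⊥ ∧ ∀ x ∈ N, x ^ p ^ k = 1 := by
  by_contra hcon
  push Not at hcon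
  obtain ⟨g, hg⟩ := exists_ne (1 : G)
  apply hg
  refine trS_u T G hG h2 hs (fun s hs => ?_) g
  by_contra hne
  obtain ⟨x, hx, hx'⟩ := hcon s (n.factorization s) hs (Nat.ordProj_dvd n s)
    (Rad (qp s n) G) inferInstance hne
  exact hx' hx.1

/-- prime powers at most `4` are admissible -/
theorem locfin_qp {n : ℕ} (hq : ∀ p k : ℕ, p.Prime → p ^ k ∣ n → 4 < p ^ k → InL.{u} (p ^ k))
    (p : ℕ) (hp : p.Prime) : LocFin (qp p n) := by
  unfold qp
  by_cases h4 : 4 < p ^ n.factorization p
  · exact (inL_iff x_LFD _).1 (hq p _ hp (Nat.ordProj_dvd n p) h4)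
  · exact small_pp x_LFD x_L34 p _ hp h4

/-- exponents with finite two-generator group -/
theorem locfin_trS {n : ℕ} (T : TrS n) (hL : ∀ p : ℕ, p.Prime → LocFin (qp p n))
    (hs : n.primeFactors.card ≤ 2 ∨ Group.IsSolvable (Bu 2 n))
    (hf : Finite (Bu 2 n)) : LocFin n := by
  intro G _ hG
  refine lf_trS T hL G hG (fun x y => ?_) (hs.imp id fun h x y => (two_of_bu hf h hG x y).2)
  obtain ⟨f, hfr⟩ := bu2 hG x y
  unfold c2
  rw [← hfr]
  exact Finite.of_surjective f.rangeRestrict f.rangeRestrict_surjective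

/-- numbers not divisible by `4` with small odd part -/
theorem cd_small {m : ℕ} (hm : Odd m) (hm2 : m < 11025) : Cd (2 * m) := by
  refine ⟨fun k hk h => ?_, ?_⟩
  · have h1 : 4 ∣ 2 ^ k := by
      have := pow_dvd_pow 2 hk
      simpa using this
    have h2 : 4 ∣ 2 * m := h1.trans ((dvd_mul_right _ _).trans h)
    obtain ⟨c, hc⟩ := hm
    omega
  · -- at most two primes
    have hdvd : ∀ r : ℕ, r.Prime → r ≠ 2 → r ^ 2 ∣ 2 * m → r ^ 2 ∣ m := by
      intro r hr hr2 h
      exact Nat.Coprime.dvd_of_dvd_mul_left (Nat.Coprime.pow_left 2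
        ((Nat.coprime_primes hr Nat.prime_two).2 hr2)) h
    by_contra hcon
    push Not at hcon
    obtain ⟨p, hp, hp2, hpn, -, -⟩ := hcon 0 0
    obtain ⟨q, hq, hq2, hqn, hqp, -⟩ := hcon p p
    obtain ⟨r, hr, hr2, hrn, hrp, hrq⟩ := hcon p q
    have h1 : (p * q * r) ^ 2 ∣ m := by
      rw [mul_pow, mul_pow]
      refine Nat.Coprime.mul_dvd_of_dvd_of_dvd ?_ (Nat.Coprime.mul_dvd_of_dvd_of_dvd ?_
        (hdvd p hp hp2 hpn) (hdvd q hq hq2 hqn)) (hdvd r hr hr2 hrn)
      · exact Nat.Coprime.mul_left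
          (Nat.Coprime.pow 2 2 ((Nat.coprime_primes hp hr).2 hrp.symm))
          (Nat.Coprime.pow 2 2 ((Nat.coprime_primes hq hr).2 hrq.symm))
      · exact Nat.Coprime.pow 2 2 ((Nat.coprime_primes hp hq).2 hqp.symm)
    have h2 := Nat.le_of_dvd hm.pos h1
    have h3 : p * q * r < 105 := by
      by_contra h
      push Not at h
      have := Nat.pow_le_pow_left h 2
      omega
    -- three distinct odd primes have product at least `105`
    have odd3 : ∀ s : ℕ, s.Prime → s ≠ 2 → 3 ≤ s ∧ s % 2 = 1 := by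
      intro s hs hs2
      have h4 := hs.eq_two_or_odd.resolve_left hs2
      have h5 := hs.two_le
      omega
    obtain ⟨hp3, hpo⟩ := odd3 p hp hp2
    obtain ⟨hq3, hqo⟩ := odd3 q hq hq2
    obtain ⟨hr3, hro⟩ := odd3 r hr hr2
    have key : ∀ a b c : ℕ, 3 ≤ a → a % 2 = 1 → b % 2 = 1 → c % 2 = 1 → a < b → b < c →
        105 ≤ a * b * c := by
      intro a b c h1 h2 h3 h4 h5 h6
      have h7 : 5 ≤ b := by omega
      have h8 : 7 ≤ c := by omega
      calc 105 = 3 * 5 * 7 := by norm_num
        _ ≤ a * b * c := Nat.mul_le_mul (Nat.mul_le_mul h1 h7) h8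
    rcases lt_or_gt_of_ne hqp with h4 | h4 <;> rcases lt_or_gt_of_ne hrp with h5 | h5 <;>
      rcases lt_or_gt_of_ne hrq with h6 | h6
    · have := key r q p hr3 hro hqo hpo h6 h4
      nlinarith
    · have := key q r p hq3 hqo hro hpo h6 h5
      nlinarith
    · omega
    · have := key q p r hq3 hqo hpo hro h4 h5
      nlinarith
    · have := key r p q hr3 hro hpo hqo h5 h4
      nlinarith
    · omega
    · have := key p r q hp3 hpo hro hqo h5 h6
      nlinarith
    · have := key p q r hp3 hpo hqo hro h4 h6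
      nlinarith

end Pool.Agent.TH69.Og
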