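import Mathlib
import Pool.Agent.TH69.OdF

set_option autoImplicit false

/-!
# The theorem of Hall and Higman for commutative groups (the proof of part F with the commutative
# case of part A)
-/

namespace Pool.Agent.TH69.Oh

open Pool.Agent.TH69.HH Pool.Agent.TH69.Od

section

variable (k : Type) [Field k] [IsAlgClosed k] {p q m : ℕ} [CharP k p]

/-- the case of a minimal group -/
theorem min_caseC (hp : p.Prime) (hq : q.Prime) (hpq : p ≠ q) (hm : 1 ≤ m)
    (U : Type) [Group U] [Finite U] (hU : ∀ u w : U, u * w = w * u) {j : ℕ} (hcard : Nat.card U = q ^ j) (σ : MulAut U)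
    (ord : σ ^ p ^ m = 1)
    (min : ∀ U' : Subgroup U, (∀ u ∈ U', σ u ∈ U') → U' ≠ ⊤ →
      ∀ u ∈ U', (σ ^ p ^ (m - 1)) u = u) :
    ∀ d : ℕ, ∀ (M : Type) [AddCommGroup M] [Module k M] [FiniteDimensional k M]
      (ρ : U →* Module.End k M) (γ : Module.End k M), Module.finrank k M ≤ d →
      (∀ u, γ * ρ u = ρ (σ u) * γ) → (∑ i ∈ Finset.range (p ^ m), γ ^ i = 0) →
      ∀ u, γ ^ p ^ (m - 1) * ρ u = ρ u * γ ^ p ^ (m - 1) := by
  have := Fintype.ofFinite U
  intro d
  induction d with
  | zero =>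
    intro M _ _ _ ρ γ hd _ _ u
    have h1 : Module.finrank k M = 0 := by omega
    have : Subsingleton M := Module.finrank_zero_iff.1 h1
    exact Subsingleton.elim _ _
  | succ d ih =>
    intro M _ _ _ ρ γ hd rel nrm
    by_cases hnt : ∃ u, γ ^ p ^ (m - 1) * ρ u ≠ ρ u * γ ^ p ^ (m - 1)
    swap
    · push Not at hnt
      exact hnt
    exfalso
    have hM : Nontrivial M := by
      by_contra h
      rw [not_nontrivial_iff_subsingleton] at h
      obtain ⟨u, hu⟩ := hnt
      exact hu (Subsingleton.elim _ _)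
    by_cases hirr : ∀ W : Submodule k M, (∀ u, ∀ m ∈ W, ρ u m ∈ W) → (∀ m ∈ W, γ m ∈ W) →
        W = ⊥ ∨ W = ⊤
    · refine Dt.not_comm (⟨rel, nrm, ord, hirr, hnt, min⟩ : Dt k p m ρ γ σ) hp fun u w => ?_
      rw [← map_mul, hU, map_mul]
    · push Not at hirr
      obtain ⟨W, hW1, hW2, hW3, hW4⟩ := hirr
      have hWlt : Module.finrank k W < Module.finrank k M :=
        Submodule.finrank_lt (lt_top_iff_ne_top.2 hW4).ne
      have hWpos : 0 < Module.finrank k W := by
        have : Nontrivial W := (Submodule.nontrivial_iff_ne_bot).2 hW3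
        exact Module.finrank_pos
      have hQ := Submodule.finrank_quotient_add_finrank W
      -- the subspace
      have h1 := ih W (resW ρ W hW1) (γ.restrict hW2) (by omega) (by
        intro u
        ext x
        exact congrArg (fun Z : Module.End k M => Z (x : M)) (rel u)) (by
        ext x
        rw [LinearMap.sum_apply, Submodule.coe_sum]
        simp only [restrict_pow]
        rw [← LinearMap.sum_apply, nrm]
        rfl)
      have h2 := ih (M ⧸ W) (quoW ρ W hW1) (W.mapQ W γ hW2) (by omega) (by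
        intro u
        ext x
        exact congrArg (fun Z : Module.End k M => (Submodule.Quotient.mk (Z x) : M ⧸ W))
          (rel u)) (by
        ext x
        rw [LinearMap.comp_apply, LinearMap.sum_apply]
        simp only [Submodule.mkQ_apply, mapQ_pow]
        have h3 := congrArg (fun Z : Module.End k M => (Submodule.Quotient.mk (Z x) : M ⧸ W)) nrm
        simp only [LinearMap.sum_apply] at h3
        rw [← Submodule.mkQ_apply, map_sum] at h3
        exact h3)
      obtain ⟨δ, hδ⟩ : ∃ δ, δ = γ ^ p ^ (m - 1) := ⟨_, rfl⟩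
      obtain ⟨ζ, hζ⟩ : ∃ ζ, ζ = σ ^ p ^ (m - 1) := ⟨_, rfl⟩
      have hrel : ∀ u, δ * ρ u = ρ (ζ u) * δ := by
        intro u
        rw [hδ, hζ, rel_pow rel]
      have hδinv : ∃ δ', δ * δ' = 1 ∧ ∀ x ∈ W, δ' x ∈ W := by
        have hg : γ ^ p ^ m = 1 := by
          have h := geom_sum_mul γ (p ^ m)
          rw [nrm, zero_mul] at h
          exact (sub_eq_zero.1 h.symm)
        have hgW : ∀ i : ℕ, ∀ x ∈ W, (γ ^ i) x ∈ W := by
          intro i
          induction i with
          | zero => intro x hx; exact hx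
          | succ i ih =>
            intro x hx
            rw [pow_succ']
            exact hW2 _ (ih x hx)
        refine ⟨γ ^ (p ^ m - p ^ (m - 1)), ?_, hgW _⟩
        rw [hδ, ← pow_add, Nat.add_sub_cancel', hg]
        exact Nat.pow_le_pow_right hp.pos (by omega)
      obtain ⟨δ', hδ1, hδ2⟩ := hδinv
      obtain ⟨u, hu⟩ := hnt
      apply hu
      rw [← hδ]
      -- the commutator
      have hcW : ∀ x ∈ W, ρ (u⁻¹ * ζ u) x = x := by
        intro x hx
        have e1 := congrArg (fun Z : Module.End k W => ((Z ⟨δ' x, hδ2 x hx⟩ : W) : M)) (h1 u)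
        change ((((γ.restrict hW2) ^ p ^ (m - 1)) ⟨ρ u (δ' x), hW1 u _ (hδ2 x hx)⟩ : W) : M) =
          ρ u ((((γ.restrict hW2) ^ p ^ (m - 1)) ⟨δ' x, hδ2 x hx⟩ : W) : M) at e1
        rw [restrict_pow, restrict_pow, ← hδ] at e1
        change δ (ρ u (δ' x)) = ρ u (δ (δ' x)) at e1
        have e2 := congrArg (fun Z : Module.End k M => Z (δ' x)) (hrel u)
        change δ (ρ u (δ' x)) = ρ (ζ u) (δ (δ' x)) at e2
        have e3 : δ (δ' x) = x := congrArg (fun Z : Module.End k M => Z x) hδ1
        rw [e2, e3] at e1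
        rw [map_mul]
        change ρ u⁻¹ (ρ (ζ u) x) = x
        rw [e1, rho_inv_eq]
      have hcQ : ∀ x : M, ρ (u⁻¹ * ζ u) x - x ∈ W := by
        intro x
        have e1 := congrArg (fun Z : Module.End k (M ⧸ W) => Z (Submodule.Quotient.mk (δ' x)))
          (h2 u)
        change ((W.mapQ W γ hW2) ^ p ^ (m - 1)) (Submodule.Quotient.mk (ρ u (δ' x))) =
          quoW ρ W hW1 u (((W.mapQ W γ hW2) ^ p ^ (m - 1)) (Submodule.Quotient.mk (δ' x))) at e1
        rw [mapQ_pow, mapQ_pow, ← hδ] at e1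
        change (Submodule.Quotient.mk (δ (ρ u (δ' x))) : M ⧸ W) =
          Submodule.Quotient.mk (ρ u (δ (δ' x))) at e1
        have e2 := congrArg (fun Z : Module.End k M => Z (δ' x)) (hrel u)
        change δ (ρ u (δ' x)) = ρ (ζ u) (δ (δ' x)) at e2
        have e3 : δ (δ' x) = x := congrArg (fun Z : Module.End k M => Z x) hδ1
        rw [e2, e3, Submodule.Quotient.eq] at e1
        have e4 := hW1 u⁻¹ _ e1
        rw [map_sub, rho_inv_eq] at e4
        rw [map_mul]
        exact e4
      have hν : (ρ (u⁻¹ * ζ u) - 1) * (ρ (u⁻¹ * ζ u) - 1) = 0 := by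
        ext x
        change ρ (u⁻¹ * ζ u) (ρ (u⁻¹ * ζ u) x - x) - (ρ (u⁻¹ * ζ u) x - x) = 0
        rw [hcW _ (hcQ x), sub_self]
      have h3 := one_add_pow_of_sq hν (q ^ j)
      rw [add_sub_cancel, ← map_pow] at h3
      have h4 : (u⁻¹ * ζ u) ^ q ^ j = 1 := by
        rw [← hcard]
        exact pow_card_eq_one'
      rw [h4, map_one, left_eq_add] at h3
      have h5 : ((q ^ j : ℕ) : k) ≠ 0 := by
        rw [Ne, CharP.cast_eq_zero_iff k p]
        intro h
        have h6 := Nat.Coprime.eq_one_of_dvd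
          (Nat.Coprime.pow_right j ((Nat.coprime_primes hp hq).2 hpq)) h
        exact hp.ne_one h6
      have h6 := (smul_eq_zero.1 h3).resolve_left h5
      have h7 : ρ (u⁻¹ * ζ u) = 1 := sub_eq_zero.1 h6
      have h8 : ρ (ζ u) = ρ u := by
        calc ρ (ζ u) = ρ (u * (u⁻¹ * ζ u)) := by congr 1; group
          _ = ρ u := by rw [map_mul, h7, mul_one]
      rw [hrel, h8]

/-- the case of a faithful action -/
theorem faithful_caseC (hp : p.Prime) (hq : q.Prime) (hpq : p ≠ q) (hm : 1 ≤ m) :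
    ∀ d : ℕ, ∀ (U : Type) [Group U] [Finite U], (∀ u w : U, u * w = w * u) → ∀ (M : Type) [AddCommGroup M] [Module k M]
      [FiniteDimensional k M] (ρ : U →* Module.End k M) (γ : Module.End k M) (σ : MulAut U),
      Nat.card U ≤ d → (∃ j, Nat.card U = q ^ j) → (∀ u, γ * ρ u = ρ (σ u) * γ) →
      (∑ i ∈ Finset.range (p ^ m), γ ^ i = 0) → σ ^ p ^ m = 1 → Function.Injective ρ →
      ∀ u, γ ^ p ^ (m - 1) * ρ u = ρ u * γ ^ p ^ (m - 1) := by
  intro d
  induction d with
  | zero =>
    intro U _ _ _ M _ _ _ ρ γ σ hd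
    have : 0 < Nat.card U := Nat.card_pos
    omega
  | succ d ih =>
    intro U _ _ hU M _ _ _ ρ γ σ hd hj rel nrm ord hinj
    obtain ⟨j, hj⟩ := hj
    refine min_caseC k hp hq hpq hm U hU hj σ ord ?_ _ M ρ γ le_rfl rel nrm
    intro U' hU' hne u hu
    obtain ⟨σ', hσ'⟩ := exists_res σ U' hU'
    have hcard : Nat.card U' < Nat.card U := by
      have h5 : (U' : Set U) ⊂ (⊤ : Subgroup U) :=
        ⟨fun x _ => Subgroup.mem_top x, fun h => hne (eq_top_iff.2 h)⟩
      have h6 := Set.Finite.card_lt_card (Set.toFinite _) h5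
      have h7 : Nat.card (⊤ : Subgroup U) = Nat.card U := Subgroup.card_top
      rw [← h7]
      exact h6
    have h1 := ih U' (fun a b => Subtype.ext (hU a b)) M (ρ.comp U'.subtype) γ σ' (by omega) (by
        have h8 : Nat.card U' ∣ q ^ j := by
          rw [← hj]
          exact Subgroup.card_subgroup_dvd_card U'
        obtain ⟨i, -, hi⟩ := (Nat.dvd_prime_pow hq).1 h8
        exact ⟨i, hi⟩) (by
        intro w
        have h9 := hσ' 1 w
        rw [pow_one, pow_one] at h9
        change γ * ρ (w : U) = ρ ((σ' w : U') : U) * γ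
        rw [h9, rel]) nrm (by
        ext w
        rw [hσ', ord]
        rfl) (by
        intro a b hab
        exact Subtype.ext (hinj hab)) ⟨u, hu⟩
    change γ ^ p ^ (m - 1) * ρ u = ρ u * γ ^ p ^ (m - 1) at h1
    apply hinj
    have hg : γ ^ p ^ m = 1 := by
      have h := geom_sum_mul γ (p ^ m)
      rw [nrm, zero_mul] at h
      exact (sub_eq_zero.1 h.symm)
    have h2 : ρ ((σ ^ p ^ (m - 1)) u) * γ ^ p ^ (m - 1) = ρ u * γ ^ p ^ (m - 1) := by
      rw [← rel_pow rel, h1]
    have h3 := congrArg (fun Z => Z * γ ^ (p ^ m - p ^ (m - 1))) h2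
    have h4 : γ ^ p ^ (m - 1) * γ ^ (p ^ m - p ^ (m - 1)) = 1 := by
      rw [← pow_add, Nat.add_sub_cancel', hg]
      exact Nat.pow_le_pow_right hp.pos (by omega)
    simpa only [mul_assoc, h4, mul_one] using h3

/-- the theorem of Hall and Higman for modules and commutative groups -/
theorem hhpC (hp : p.Prime) (hq : q.Prime) (hpq : p ≠ q) (hm : 1 ≤ m)
    (U : Type) [Group U] [Finite U] (hU : ∀ u w : U, u * w = w * u) (M : Type) [AddCommGroup M]
    [Module k M] [FiniteDimensional k M] (ρ : U →* Module.End k M) (γ : Module.End k M)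
    (σ : MulAut U) (hj : ∃ j, Nat.card U = q ^ j) (rel : ∀ u, γ * ρ u = ρ (σ u) * γ)
    (nrm : ∑ i ∈ Finset.range (p ^ m), γ ^ i = 0) (ord : σ ^ p ^ m = 1) (u : U) :
    γ ^ p ^ (m - 1) * ρ u = ρ u * γ ^ p ^ (m - 1) := by
    classical
    have hker : ρ.ker.map σ.toMonoidHom = ρ.ker := by
      have hle : ρ.ker.map σ.toMonoidHom ≤ ρ.ker := by
        rintro _ ⟨w, hw, rfl⟩
        have hw' : ρ w = 1 := hw
        change ρ (σ w) = 1
        have hg : γ ^ p ^ m = 1 := by
          have h := geom_sum_mul γ (p ^ m)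
          rw [nrm, zero_mul] at h
          exact (sub_eq_zero.1 h.symm)
        have h1 := rel w
        rw [hw', mul_one] at h1
        have h2 := congrArg (fun Z => Z * γ ^ (p ^ m - 1)) h1
        have h3 : γ * γ ^ (p ^ m - 1) = 1 := by
          rw [← pow_succ', Nat.sub_add_cancel (Nat.one_le_pow _ _ hp.pos), hg]
        simp only [mul_assoc, h3, mul_one] at h2
        exact h2.symm
      exact Subgroup.eq_of_le_of_card_ge hle
        (Subgroup.card_map_of_injective (K := ρ.ker) (f := σ.toMonoidHom) σ.injective).ge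
    let σ' : MulAut (U ⧸ ρ.ker) := QuotientGroup.congr ρ.ker ρ.ker σ hker
    have hσ' : ∀ (i : ℕ) (w : U), (σ' ^ i) (w : U ⧸ ρ.ker) = ((σ ^ i) w : U) := by
      intro i
      induction i with
      | zero => intro w; rfl
      | succ i ih =>
        intro w
        rw [pow_succ', pow_succ', MulAut.mul_apply, MulAut.mul_apply, ih]
        rfl
    let ρ' : U ⧸ ρ.ker →* Module.End k M := QuotientGroup.lift ρ.ker ρ fun x hx => hx
    have hρ' : ∀ w : U, ρ' (w : U ⧸ ρ.ker) = ρ w := fun w => rfl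
    have hinj : Function.Injective ρ' := by
      intro a b hab
      obtain ⟨a, rfl⟩ := QuotientGroup.mk_surjective a
      obtain ⟨b, rfl⟩ := QuotientGroup.mk_surjective b
      rw [hρ', hρ'] at hab
      rw [QuotientGroup.eq]
      change ρ (a⁻¹ * b) = 1
      rw [map_mul, ← hab, rho_inv']
    have h1 := faithful_caseC k hp hq hpq hm (Nat.card (U ⧸ ρ.ker))
      (U ⧸ ρ.ker) (fun a b => by
        obtain ⟨a, rfl⟩ := QuotientGroup.mk_surjective a
        obtain ⟨b, rfl⟩ := QuotientGroup.mk_surjective b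
        rw [← QuotientGroup.mk_mul, hU, QuotientGroup.mk_mul]) M ρ' γ σ' le_rfl (by
        obtain ⟨j, hj⟩ := hj
        have h8 : Nat.card (U ⧸ ρ.ker) ∣ q ^ j := by
          rw [← hj]
          exact Subgroup.card_quotient_dvd_card _
        obtain ⟨i, -, hi⟩ := (Nat.dvd_prime_pow hq).1 h8
        exact ⟨i, hi⟩) (by
        intro w
        obtain ⟨w, rfl⟩ := QuotientGroup.mk_surjective w
        exact rel w) nrm (by
        ext w
        obtain ⟨w, rfl⟩ := QuotientGroup.mk_surjective w
        rw [hσ', ord]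
        rfl) hinj (u : U ⧸ ρ.ker)
    exact h1

end

end Pool.Agent.TH69.Oh
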