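import Mathlib
import Pool.Agent.TH69.OgD
import Pool.Agent.W629.Tw.Twelve

set_option autoImplicit false

/-!
# Centralisers of elements of order three, part A
-/

namespace Pool.Agent.TH69.Oh

open Pool.Agent.H32BU Pool.Agent.W629 Pool.Agent.TH69.Mtn Pool.Agent.TH69.Od Pool.Agent.TH69.Og

variable {G : Type} [Group G]

/-- `A × B` lemma, exponent three -/
theorem ab3' {M : ℕ} (hM : Nat.Coprime M 3) {g e : G} (hg : g ^ 3 = 1) (he : e ^ M = 1)
    (hge : Commute g e)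
    (h : ∀ u ∈ Rad 3 G, Commute u g → Commute u e) : ∀ u ∈ Rad 3 G, Commute u e := by
  intro u hu
  have h1 : Commute g (u⁻¹ * g * u) := Tw.comm_conj_rad hg hg (Commute.refl g) hu
  have hw : g⁻¹ * (u⁻¹ * g * u) ∈ Rad 3 G := by
    have : g⁻¹ * (u⁻¹ * g * u) = (g⁻¹ * u⁻¹ * g) * u := by group
    rw [this]
    exact mul_mem (Tw.conj_mem_rad' (inv_mem hu) g) hu
  have h2 : Commute (g⁻¹ * (u⁻¹ * g * u)) e := by
    apply h _ hw
    exact ((Commute.refl g).inv_right.mul_right h1).symm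
  have h3 : Commute (u⁻¹ * g * u) e := by
    have := hge.mul_left h2
    rwa [mul_inv_cancel_left] at this
  have h4 : Commute g (u * e * u⁻¹) := by
    change g * (u * e * u⁻¹) = u * e * u⁻¹ * g
    have := h3.eq
    calc g * (u * e * u⁻¹) = u * ((u⁻¹ * g * u) * e) * u⁻¹ := by group
      _ = u * (e * (u⁻¹ * g * u)) * u⁻¹ := by rw [this]
      _ = u * e * u⁻¹ * g := by group
  have hv : u * e * u⁻¹ * e⁻¹ ∈ Rad 3 G := by
    have : u * e * u⁻¹ * e⁻¹ = u * (e * u⁻¹ * e⁻¹) := by group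
    rw [this]
    exact mul_mem hu (Tw.conj_mem_rad (inv_mem hu) e)
  have h5 : Commute (u * e * u⁻¹ * e⁻¹) e := by
    apply h _ hv
    exact (h4.mul_right hge.inv_right).symm
  have h6 : (u * e * u⁻¹ * e⁻¹) ^ M = 1 := by
    have h7 : (u * e * u⁻¹ * e⁻¹ * e) ^ M = 1 := by
      rw [inv_mul_cancel_right]
      exact conj_pow_one he
    rw [h5.mul_pow, he, mul_one] at h7
    exact h7
  have h8 : u * e * u⁻¹ * e⁻¹ = 1 := W629.eq_one_of_coprime hM h6 hv.1
  rw [mul_inv_eq_one, mul_inv_eq_iff_eq_mul] at h8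
  exact h8

/-- the finite form of the theorem on centralisers -/
theorem t3_fin [Finite G] {M : ℕ} (hM : Nat.Coprime M 3) (hG : ∀ x : G, x ^ (M * 3) = 1)
    (hsol : Group.IsSolvable G) {g e : G} (hg : g ^ 3 = 1) (he : e ^ M = 1)
    (hge : Commute g e) (hc : ∀ x : G, Commute x g → (e⁻¹ * (x⁻¹ * e * x)) ^ M = 1) :
    e ∈ Rad M G := by
  refine Tw.mem_rad_of hM hG hsol he fun u hu => ?_
  refine (ab3' hM (Tw.mk_pow_one hg) (Tw.mk_pow_one he) (Tw.mk_comm hge)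
    (fun u hu hug => ?_) u hu).symm
  obtain ⟨w, hw, rfl⟩ := Tw.lift_comm (k := 1) Nat.prime_three (Rad M G)
    (Tw.not_dvd_card Nat.prime_three hM.symm _ fun x hx => rad_pow hx) (by simpa using hg) hug
  refine Tw.comm_of_pow (r := 3) (t := M) hM.symm hu ?_
  have := Tw.mk_pow_one (N := Rad M G) (hc w hw)
  simpa only [QuotientGroup.mk_mul, QuotientGroup.mk_inv] using this

/-- `O_{3'}` of the centraliser of an element of order three -/
theorem t3 {n M : ℕ} (S : Sg n G) (hM : Nat.Coprime M 3) (hn : M * 3 = n) {g e : G}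
    (hg : g ^ 3 = 1) (he : e ∈ Tw.RK M (Subgroup.centralizer {g})) : e ∈ Rad M G := by
  have heM := Tw.RK_pow he
  have hge : Commute g e := (Tw.mem_cent.1 (Tw.RK_le he)).symm
  refine ⟨heM, fun z hz => ?_⟩
  have hK := S.fin (g * e) z
  have hs := S.sol (g * e) z
  obtain ⟨K, hKd⟩ : ∃ K, K = c2 (g * e) z := ⟨_, rfl⟩
  have h1 : g * e ∈ K := by rw [hKd]; exact Subgroup.subset_closure (by simp)
  have hzK : z ∈ K := by rw [hKd]; exact Subgroup.subset_closure (by simp)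
  rw [← hKd] at hK hs
  obtain ⟨hgK, heK⟩ := mem_of_mul hge.eq hg heM hM.symm K h1
  have h2 : (⟨e, heK⟩ : K) ∈ Rad M K := by
    refine t3_fin hM (by rw [hn]; exact exp_sub S.exp K) hs (g := ⟨g, hgK⟩)
      (Subtype.ext (by simpa using hg)) (Subtype.ext (by simpa using heM)) (Subtype.ext hge.eq) ?_
    rintro ⟨x, hx⟩ hxg
    have hxg' : Commute x g := congrArg Subtype.val hxg
    exact Subtype.ext (by simpa using Tw.cent_comm he hxg')
  exact Tw.RK_mul (Tw.mem_RK.2 ⟨heK, h2⟩) hzK hz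

/-- a `3'`-element commuting with `s` which lies in `O_{3'}` of all finite subgroups containing
`s` and `y` -/
theorem t4 {n M : ℕ} (S : Sg n G) (hM : Nat.Coprime M 3) (hn : M * 3 = n) {s y τ : G}
    (hs : s ^ 3 = 1) (hτ : Commute τ s)
    (hall : ∀ K : Subgroup G, Finite K → Group.IsSolvable K → s ∈ K → y ∈ K → τ ∈ Tw.RK M K) :
    τ ∈ Rad M G := by
  apply t3 S hM hn hs
  refine Tw.mem_RK.2 ⟨Tw.mem_cent.2 hτ, ?_, ?_⟩
  · have := Tw.RK_pow (hall (c2 s y) (S.fin _ _) (S.sol _ _) (Subgroup.subset_closure (by simp))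
      (Subgroup.subset_closure (by simp)))
    exact Subtype.ext (by simpa using this)
  · rintro ⟨z, hz⟩ hzM
    have hzM' : z ^ M = 1 := by simpa using congrArg Subtype.val hzM
    have hzs : Commute s z := (Tw.mem_cent.1 hz).symm
    have h1 : s * z ∈ c2 (s * z) y := Subgroup.subset_closure (by simp)
    have hyK : y ∈ c2 (s * z) y := Subgroup.subset_closure (by simp)
    obtain ⟨hsK, hzK⟩ := mem_of_mul hzs.eq hs hzM' hM.symm _ h1
    have := Tw.RK_mul (hall _ (S.fin _ _) (S.sol _ _) hsK hyK) hzK hzM'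
    exact Subtype.ext (by simpa using this)

/-- the commutator of `t` and `c`, where `t` commutes with `s` and `c` is a commutator -/
theorem pt_core [Finite G] {M : ℕ} (hM : Nat.Coprime M 3) (hG : ∀ x : G, x ^ (M * 3) = 1)
    (hsol : Group.IsSolvable G) {s s2 c t τ : G} (hs : s ^ 3 = 1) (hs2 : s2 ^ 3 = 1)
    (hss : (s * s2) ^ 3 = 1) (hc : s2⁻¹ * s * s2 = s * c) (hcs : Commute c s)
    (hts : Commute t s) {k : ℕ} (hτ : τ = (t * c * t⁻¹ * c⁻¹) ^ k) (h4 : τ ^ M = 1) :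
    τ ∈ Rad M G := by
  refine Tw.mem_rad_of hM hG hsol h4 fun u hu => ?_
  have hτs0 : Commute s (t * c * t⁻¹ * c⁻¹) :=
    ((hts.symm.mul_right hcs.symm).mul_right hts.symm.inv_right).mul_right hcs.symm.inv_right
  have hτs : Commute s τ := by
    rw [hτ]
    exact hτs0.pow_right k
  have hs2N : (s2 : G ⧸ Rad M G) ^ 3 = 1 := Tw.mk_pow_one hs2
  have hssN : ((s : G ⧸ Rad M G) * s2) ^ 3 = 1 := by
    rw [← QuotientGroup.mk_mul]; exact Tw.mk_pow_one hss
  have hcN : (s2 : G ⧸ Rad M G)⁻¹ * s * s2 = s * c := by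
    rw [← QuotientGroup.mk_inv, ← QuotientGroup.mk_mul, ← QuotientGroup.mk_mul, hc,
      QuotientGroup.mk_mul]
  have key : ∀ v ∈ Rad 3 (G ⧸ Rad M G), Commute v (s : G ⧸ Rad M G) →
      Commute v (c : G ⧸ Rad M G) := by
    intro v hv hvs
    have h1 := Tw.comm_conj (a := v) (b := (s : G ⧸ Rad M G)) (c := (s2 : G ⧸ Rad M G)) hs2N hssN
      (rad_mul hv hs2N) (by rw [mul_assoc]; exact rad_mul hv hssN) hvs
    rw [hcN] at h1
    have h2 := hvs.inv_right.mul_right h1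
    rwa [inv_mul_cancel_left] at h2
  refine (ab3' hM (Tw.mk_pow_one hs) (Tw.mk_pow_one h4) (Tw.mk_comm hτs)
    (fun v hv hvs => ?_) u hu).symm
  have htN : Commute (t : G ⧸ Rad M G) (s : G ⧸ Rad M G) := Tw.mk_comm hts
  have h3 : Commute v (c : G ⧸ Rad M G) := key v hv hvs
  have h5 : Commute ((t : G ⧸ Rad M G)⁻¹ * v * (t : G ⧸ Rad M G)) (c : G ⧸ Rad M G) :=
    key _ (Tw.conj_mem_rad' hv _) ((htN.inv_left.mul_left hvs).mul_left htN)
  rw [hτ, QuotientGroup.mk_pow]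
  apply Commute.pow_right
  simp only [QuotientGroup.mk_mul, QuotientGroup.mk_inv]
  have h6 : Commute v ((t : G ⧸ Rad M G) * (c : G ⧸ Rad M G) * (t : G ⧸ Rad M G)⁻¹) := by
    have h7 := h5.eq
    generalize (t : G ⧸ Rad M G) = T at h7 ⊢
    generalize (c : G ⧸ Rad M G) = C at h7 ⊢
    change v * (T * C * T⁻¹) = T * C * T⁻¹ * v
    calc v * (T * C * T⁻¹) = T * ((T⁻¹ * v * T) * C) * T⁻¹ := by group
      _ = T * (C * (T⁻¹ * v * T)) * T⁻¹ := by rw [h7]
      _ = T * C * T⁻¹ * v := by group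
  exact h6.mul_right h3.inv_right

/-- commutators centralise the elements commuting with `s`, up to `3`-elements -/
theorem pt {n M : ℕ} (S : Sg n G) (hM : Nat.Coprime M 3) (hn : M * 3 = n) (rM : Rad M G = ⊥)
    {s s2 y c t : G} (hs : s ^ 3 = 1) (hs2 : s2 ^ 3 = 1)
    (hss : (s * s2) ^ 3 = 1) (hc : s2⁻¹ * s * s2 = s * c) (hcs : Commute c s)
    (hts : Commute t s) (hs2y : s2 ∈ c2 s y) (hty : t ∈ c2 s y) :
    (t * c * t⁻¹ * c⁻¹) ^ 3 = 1 := by
  have hexp : ∀ x : G, x ^ (M * 3) = 1 := by rw [hn]; exact S.exp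
  obtain ⟨a, b, ⟨a', ha'⟩, ⟨b', hb'⟩, ha, hb, hab⟩ := crt hM
  obtain ⟨x, hx⟩ : ∃ x, x = t * c * t⁻¹ * c⁻¹ := ⟨_, rfl⟩
  obtain ⟨τ, hτ⟩ : ∃ τ, τ = x ^ b := ⟨_, rfl⟩
  have hτM : τ ^ M = 1 := by
    rw [hτ, hb', ← pow_mul, show 3 * b' * M = (M * 3) * b' from by ring, pow_mul, hexp, one_pow]
  have hτs0 : Commute s (t * c * t⁻¹ * c⁻¹) :=
    ((hts.symm.mul_right hcs.symm).mul_right hts.symm.inv_right).mul_right hcs.symm.inv_right
  have hτs : Commute τ s := by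
    rw [hτ, hx]
    exact (hτs0.pow_right b).symm
  have h1 : τ ∈ Rad M G := by
    refine t4 S hM hn (y := y) hs hτs fun K hK hKs hsK hyK => ?_
    have hle : c2 s y ≤ K := c2_le hsK hyK
    have hs2K := hle hs2y
    have htK := hle hty
    have hcK : c ∈ K := by
      have e : c = s⁻¹ * (s2⁻¹ * s * s2) := by rw [hc]; group
      rw [e]
      exact mul_mem (inv_mem hsK) (mul_mem (mul_mem (inv_mem hs2K) hsK) hs2K)
    have hxK : x ∈ K := by
      rw [hx]
      exact mul_mem (mul_mem (mul_mem htK hcK) (inv_mem htK)) (inv_mem hcK)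
    have hτK : τ ∈ K := by
      rw [hτ]
      exact pow_mem hxK b
    refine Tw.mem_RK.2 ⟨hτK, ?_⟩
    refine pt_core hM (by rw [hn]; exact exp_sub S.exp K) hKs (s := ⟨s, hsK⟩) (s2 := ⟨s2, hs2K⟩)
      (c := ⟨c, hcK⟩) (t := ⟨t, htK⟩) (k := b) (Subtype.ext hs) (Subtype.ext hs2) (Subtype.ext hss)
      (Subtype.ext hc) (Subtype.ext hcs) (Subtype.ext hts) ?_ (Subtype.ext hτM)
    apply Subtype.ext
    change τ = (t * c * t⁻¹ * c⁻¹) ^ b
    rw [hτ, hx]
  rw [rM, Subgroup.mem_bot] at h1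
  rw [← hx]
  have h2 := hab x (hexp x)
  rw [← hτ, h1, mul_one] at h2
  rw [← h2, ← pow_mul, ha', show M * a' * 3 = (M * 3) * a' from by ring, pow_mul, hexp, one_pow]

end Pool.Agent.TH69.Oh
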