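import Mathlib
import Pool.Agent.TH69.OhA

set_option autoImplicit false

/-!
# Centralisers of elements of order three, part B: images of finite subgroups
-/

namespace Pool.Agent.TH69.Oh

open Pool.Agent.H32BU Pool.Agent.W629 Pool.Agent.TH69.Mtn Pool.Agent.TH69.Od Pool.Agent.TH69.Og

/-- `F` is a homomorphic image of a finite soluble subgroup of `G` -/
def Im (G : Type) [Group G] (F : Type) [Group F] : Prop :=
  ∃ K : Subgroup G, Finite K ∧ Group.IsSolvable K ∧ ∃ π : K →* F, Function.Surjective π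

theorem Im.quot {G : Type} [Group G] {F : Type} [Group F] (h : Im G F) (N : Subgroup F)
    [N.Normal] : Im G (F ⧸ N) := by
  obtain ⟨K, h1, h2, π, h3⟩ := h
  exact ⟨K, h1, h2, (QuotientGroup.mk' N).comp π, (QuotientGroup.mk'_surjective N).comp h3⟩

theorem Im.self {G : Type} [Group G] (K : Subgroup G) (h1 : Finite K) (h2 : Group.IsSolvable K) :
    Im G K := ⟨K, h1, h2, MonoidHom.id K, Function.surjective_id⟩

theorem map_c2' {K F : Type} [Group K] [Group F] (f : K →* F) (x y : K) :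
    (c2 x y).map f = c2 (f x) (f y) := by
  unfold c2
  rw [MonoidHom.map_closure, Set.image_pair]

/-- lifting into a `3`-subgroup -/
theorem lift_three {K F : Type} [Group K] [Finite K] [Group F] (π : K →* F) {M : ℕ}
    (hM : Nat.Coprime M 3) (hK : ∀ x : K, x ^ (M * 3) = 1) (H : Subgroup K) {s : K} (hs : s ^ 3 = 1)
    (hsH : s ∈ H) (D : Subgroup F) (hD : ∀ d ∈ D, d ^ 3 = 1) (hsD : π s ∈ D) {s2 : F}
    (hs2D : s2 ∈ D) (hs2H : s2 ∈ H.map π) :
    ∃ Q : Subgroup K, s ∈ Q ∧ (∀ x ∈ Q, x ^ 3 = 1) ∧ ∃ s2' ∈ Q, s2' ∈ H ∧ π s2' = s2 := by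
  have : Fact (Nat.Prime 3) := ⟨Nat.prime_three⟩
  obtain ⟨P, hP⟩ : ∃ P, P = (D.comap π) ⊓ H := ⟨_, rfl⟩
  have hsP : s ∈ P := by
    rw [hP]
    exact ⟨hsD, hsH⟩
  have hpg : IsPGroup 3 (Subgroup.zpowers (⟨s, hsP⟩ : P)) := by
    intro x
    refine ⟨1, ?_⟩
    obtain ⟨y, hy⟩ := x
    obtain ⟨i, hi⟩ := Subgroup.mem_zpowers_iff.1 hy
    apply Subtype.ext
    change y ^ 3 ^ 1 = 1
    rw [pow_one, ← hi, ← zpow_natCast, ← zpow_mul, mul_comm, zpow_mul, zpow_natCast]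
    have : (⟨s, hsP⟩ : P) ^ 3 = 1 := Subtype.ext hs
    rw [this, one_zpow]
  obtain ⟨Q, hQ⟩ := hpg.exists_le_sylow
  have hQ3 : ∀ x ∈ (Q : Subgroup P), x ^ 3 = 1 := by
    intro x hx
    obtain ⟨j, hj⟩ := Q.isPGroup' ⟨x, hx⟩
    have h1 : x ^ 3 ^ j = 1 := congrArg Subtype.val hj
    have h2 : x ^ (3 ^ 1 * M) = 1 := by
      apply Subtype.ext
      rw [pow_one, mul_comm]
      exact hK x
    have h3 := pp_pow hM.symm h2 h1
    rwa [pow_one] at h3
  have hsurj : Function.Surjective (π.subgroupMap P) := π.subgroupMap_surjective P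
  have hDP : IsPGroup 3 (⊤ : Subgroup (P.map π)) := by
    rintro ⟨⟨x, y, hy, rfl⟩, -⟩
    refine ⟨1, ?_⟩
    apply Subtype.ext
    apply Subtype.ext
    change (π y) ^ 3 ^ 1 = 1
    rw [pow_one]
    rw [hP] at hy
    exact hD _ hy.1
  have h1 := (Q.mapSurjective hsurj).is_maximal' hDP le_top
  have hs2P : s2 ∈ P.map π := by
    obtain ⟨y, hy, rfl⟩ := hs2H
    rw [hP]
    exact ⟨y, ⟨hs2D, hy⟩, rfl⟩
  have h2 : (⟨s2, hs2P⟩ : P.map π) ∈ ((Q.mapSurjective hsurj : Sylow 3 (P.map π)) :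
      Subgroup (P.map π)) := by
    rw [← h1]
    exact Subgroup.mem_top _
  rw [Sylow.coe_mapSurjective] at h2
  obtain ⟨y, hy, hy2⟩ := h2
  refine ⟨(Q : Subgroup P).map P.subtype, ⟨⟨s, hsP⟩, hQ (Subgroup.mem_zpowers _), rfl⟩, ?_,
    y, ⟨y, hy, rfl⟩, ?_, congrArg Subtype.val hy2⟩
  · rintro _ ⟨x, hx, rfl⟩
    exact congrArg Subtype.val (hQ3 x hx)
  · have hle : P ≤ H := by
      rw [hP]
      exact inf_le_right
    exact hle y.2

/-- commutators centralise the elements commuting with `s`, up to `3`-elements, in images -/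
theorem ptf {G : Type} [Group G] {n M : ℕ} (S : Sg n G) (hM : Nat.Coprime M 3) (hn : M * 3 = n)
    (rM : Rad M G = ⊥) {F : Type} [Group F] (hI : Im G F) {s h s2 t c : F} (hs : s ^ 3 = 1)
    (D : Subgroup F) (hD : ∀ d ∈ D, d ^ 3 = 1) (hsD : s ∈ D) (hs2D : s2 ∈ D) (hs2 : s2 ∈ c2 s h)
    (ht : t ∈ c2 s h) (htM : t ^ M = 1) (hts : Commute t s) (hc : c = s⁻¹ * (s2⁻¹ * s * s2)) :
    (t * c * t⁻¹ * c⁻¹) ^ 3 = 1 := by
  classical
  obtain ⟨K, hK, hKs, π, hπ⟩ := hI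
  obtain ⟨a, b, ⟨a', ha'⟩, ⟨b', hb'⟩, ha, hb, hab⟩ := crt hM
  have hexp : ∀ x : K, x ^ (M * 3) = 1 := by rw [hn]; exact exp_sub S.exp K
  obtain ⟨y, hy⟩ := hπ h
  have hex : ∃ d, ∃ s1 : K, s1 ^ 3 = 1 ∧ π s1 = s ∧ Nat.card (c2 s1 y) = d := by
    obtain ⟨s0, hs0⟩ := hπ s
    refine ⟨_, s0 ^ a, ?_, ?_, rfl⟩
    · rw [← pow_mul, ha', show M * a' * 3 = (M * 3) * a' from by ring, pow_mul, hexp, one_pow]
    · rw [map_pow, hs0, ha s hs]
  obtain ⟨s1, hs1, hs1s, hd⟩ := Nat.find_spec hex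
  have hmin := fun d (hd : d < Nat.find hex) => Nat.find_min hex hd
  have hmap : (c2 s1 y).map π = c2 s h := by rw [map_c2', hs1s, hy]
  have hst : s * t ∈ (c2 s1 y).map π := by
    rw [hmap]
    exact mul_mem (Subgroup.subset_closure (by simp)) ht
  obtain ⟨g, hg, hgst⟩ := hst
  -- the lifts
  obtain ⟨s', hs'⟩ : ∃ s', s' = g ^ a := ⟨_, rfl⟩
  obtain ⟨t', ht'⟩ : ∃ t', t' = g ^ b := ⟨_, rfl⟩
  have hs'3 : s' ^ 3 = 1 := by
    rw [hs', ← pow_mul, ha', show M * a' * 3 = (M * 3) * a' from by ring, pow_mul, hexp, one_pow]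
  have hπs' : π s' = s := by
    rw [hs', map_pow, hgst, hts.symm.mul_pow, ha s hs, ha', pow_mul, htM, one_pow, mul_one]
  have hπt' : π t' = t := by
    rw [ht', map_pow, hgst, hts.symm.mul_pow, hb t htM, hb', pow_mul, hs, one_pow, one_mul]
  have hts' : Commute t' s' := by
    rw [hs', ht']
    exact (Commute.refl g).pow_pow b a
  have hs'H : s' ∈ c2 s1 y := by
    rw [hs']
    exact pow_mem hg a
  have ht'H : t' ∈ c2 s1 y := by
    rw [ht']
    exact pow_mem hg b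
  have hle : c2 s' y ≤ c2 s1 y := c2_le hs'H (Subgroup.subset_closure (by simp))
  have heq : c2 s' y = c2 s1 y := by
    refine Subgroup.eq_of_le_of_card_ge hle ?_
    by_contra hlt
    push Not at hlt
    rw [hd] at hlt
    exact hmin _ hlt ⟨s', hs'3, hπs', rfl⟩
  obtain ⟨Q, hQ1, hQ2, s2', hQ3, hs2'H, hπs2'⟩ := lift_three π hM hexp (c2 s' y) (s := s') hs'3
    (Subgroup.subset_closure (by simp)) D hD (by rw [hπs']; exact hsD) hs2D (by
      rw [heq, hmap]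
      exact hs2)
  rw [← heq] at ht'H
  obtain ⟨c', hc'⟩ : ∃ c', c' = s'⁻¹ * (s2'⁻¹ * s' * s2') := ⟨_, rfl⟩
  have hπc' : π c' = c := by
    rw [hc', hc, map_mul, map_mul, map_mul, map_inv, map_inv, hπs', hπs2']
  have hcs : Commute c' s' := by
    have h1 := Tw.comm_conj (a := s') (b := s') (c := s2') (hQ2 _ hQ3) (hQ2 _ (mul_mem hQ1 hQ3))
      (hQ2 _ (mul_mem hQ1 hQ3)) (hQ2 _ (mul_mem (mul_mem hQ1 hQ1) hQ3)) (Commute.refl _)
    rw [hc']
    exact ((Commute.refl s').inv_right.mul_right h1).symm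
  have hmapG : ∀ x ∈ c2 s' y, (x : G) ∈ c2 (s' : G) (y : G) := by
    intro x hx
    have h1 := map_c2' K.subtype s' y
    change (x : G) ∈ c2 (K.subtype s') (K.subtype y)
    rw [← h1]
    exact ⟨x, hx, rfl⟩
  have h1 := pt S hM hn rM (s := (s' : G)) (s2 := (s2' : G)) (y := (y : G)) (c := (c' : G))
    (t := (t' : G)) (congrArg Subtype.val hs'3) (congrArg Subtype.val (hQ2 _ hQ3))
    (congrArg Subtype.val (hQ2 _ (mul_mem hQ1 hQ3))) (by
      rw [hc']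
      change _ = (s' : G) * ((s' : G)⁻¹ * ((s2' : G)⁻¹ * s' * s2'))
      group) (congrArg Subtype.val hcs) (congrArg Subtype.val hts') (hmapG _ hs2'H)
    (hmapG _ ht'H)
  have h2 : (t' * c' * t'⁻¹ * c'⁻¹) ^ 3 = 1 := Subtype.ext h1
  have h3 := congrArg π h2
  rw [map_one, map_pow, map_mul, map_mul, map_mul, map_inv, map_inv, hπt', hπc'] at h3
  exact h3

end Pool.Agent.TH69.Oh
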