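import Mathlib
import Pool.Agent.TH69.OhB

set_option autoImplicit false

/-!
# Centralisers of elements of order three, part E: fixed points
-/

namespace Pool.Agent.TH69.Oh

open Pool.Agent.H32BU Pool.Agent.W629 Pool.Agent.TH69.Mtn Pool.Agent.TH69.Od Pool.Agent.TH69.Og

/-- the additive version -/
theorem fix3_add {A : Type} [AddCommGroup A] (σ γ : A →+ A) (hc : ∀ a, σ (γ a) = γ (σ a))
    (hs : ∀ a, σ (σ (σ a)) = a) (hg : ∀ a, γ (γ (γ a)) = a)
    (h0 : ∀ a, σ a = a → γ a = a) (h1 : ∀ a, σ (γ a) = a → γ a = a)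
    (h2 : ∀ a, σ (γ (γ a)) = a → γ a = a) {a : A} (ha : a + a = 0) : γ a = a := by
  have e0 := h0 (a + σ a + σ (σ a)) (by
    rw [map_add, map_add, hs]
    abel)
  have e1 := h1 (a + σ (γ a) + σ (σ (γ (γ a)))) (by
    simp only [map_add, ← hc, hg, hs]
    abel)
  have e2 := h2 (a + σ (γ (γ a)) + σ (σ (γ a))) (by
    simp only [map_add, ← hc, hg, hs]
    abel)
  simp only [map_add, ← hc, hg] at e0 e1 e2
  have h3 : γ a + γ a + γ a = a + a + a := by
    have h4 : (γ a + σ (γ a) + σ (σ (γ a))) + (γ a + σ (γ (γ a)) + σ (σ a)) +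
        (γ a + σ a + σ (σ (γ (γ a)))) = (a + σ a + σ (σ a)) + (a + σ (γ a) + σ (σ (γ (γ a)))) +
        (a + σ (γ (γ a)) + σ (σ (γ a))) := by rw [e0, e1, e2]
    have h5 : (γ a + γ a + γ a) + (σ (γ a) + σ (σ (γ a)) + σ (γ (γ a)) + σ (σ a) + σ a +
        σ (σ (γ (γ a)))) = (a + a + a) + (σ (γ a) + σ (σ (γ a)) + σ (γ (γ a)) + σ (σ a) + σ a +
        σ (σ (γ (γ a)))) := by
      rw [← sub_eq_zero] at h4 ⊢
      rw [← h4]
      abel
    exact add_right_cancel h5
  have h4 : γ a + γ a = 0 := by rw [← map_add, ha, map_zero]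
  rw [h4, ha, zero_add, zero_add] at h3
  exact h3

/-- elements commuting with `c` -/
theorem fix3 {F : Type} [Group F] (V : Subgroup F) [V.Normal]
    (hab : ∀ v ∈ V, ∀ w ∈ V, v * w = w * v) {s c : F} (hs : s ^ 3 = 1) (hc : c ^ 3 = 1)
    (hcs : Commute c s) (h0 : ∀ t ∈ V, Commute t s → Commute t c)
    (h1 : ∀ t ∈ V, Commute t (s * c) → Commute t c)
    (h2 : ∀ t ∈ V, Commute t (s * c * c) → Commute t c) {u : F} (hu : u ∈ V) (hu2 : u ^ 2 = 1) :
    Commute u c := by
  let _ : CommGroup V := { (inferInstance : Group V) with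
    mul_comm := fun a b => Subtype.ext (hab a a.2 b b.2) }
  let ρ : F → (Additive V →+ Additive V) := fun g =>
    MonoidHom.toAdditive (MulAut.conjNormal g : MulAut V).toMonoidHom
  have hρ : ∀ (g : F) (a : Additive V), ((Additive.toMul (ρ g a) : V) : F) =
      g * (Additive.toMul a : V) * g⁻¹ := fun g a => rfl
  have hext : ∀ a b : Additive V, ((Additive.toMul a : V) : F) = (Additive.toMul b : V) → a = b :=
    fun a b h => Additive.toMul.injective (Subtype.ext h)
  have hmul : ∀ (g h : F) (a : Additive V), ρ g (ρ h a) = ρ (g * h) a := by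
    intro g h a
    apply hext
    rw [hρ, hρ, hρ]
    group
  have hfix : ∀ (g : F) (a : Additive V), ρ g a = a ↔ Commute ((Additive.toMul a : V) : F) g := by
    intro g a
    constructor
    · intro h
      have h3 : ((Additive.toMul (ρ g a) : V) : F) = (Additive.toMul a : V) := by rw [h]
      rw [hρ, mul_inv_eq_iff_eq_mul] at h3
      exact h3.symm
    · intro h
      apply hext
      rw [hρ, ← h.eq, mul_inv_cancel_right]
  have hone : ∀ a : Additive V, ρ 1 a = a := by
    intro a
    rw [hfix]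
    exact Commute.one_right _
  have key := fix3_add (ρ s) (ρ c) (fun a => by rw [hmul, hmul, hcs.eq])
    (fun a => by
      rw [hmul, hmul]
      have : s * s * s = 1 := by rw [← hs, pow_succ, pow_two]
      rw [this, hone])
    (fun a => by
      rw [hmul, hmul]
      have : c * c * c = 1 := by rw [← hc, pow_succ, pow_two]
      rw [this, hone])
    (fun a ha => by
      rw [hfix] at ha ⊢
      exact h0 _ (Additive.toMul a).2 ha)
    (fun a ha => by
      rw [hmul] at ha
      rw [hfix] at ha ⊢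
      exact h1 _ (Additive.toMul a).2 ha)
    (fun a ha => by
      rw [hmul, hmul] at ha
      rw [hfix] at ha ⊢
      exact h2 _ (Additive.toMul a).2 ha)
    (a := Additive.ofMul (⟨u, hu⟩ : V)) (by
      apply hext
      change u * u = 1
      rw [← pow_two, hu2])
  rw [hfix] at key
  exact key

end Pool.Agent.TH69.Oh
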