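import Mathlib
import Pool.Agent.TH69.OhE

set_option autoImplicit false

/-!
# Centralisers of elements of order three, part F: commutators centralise the normal `2`-subgroup
-/

namespace Pool.Agent.TH69.Oh

open Pool.Agent.H32BU Pool.Agent.W629 Pool.Agent.TH69.Mtn Pool.Agent.TH69.Od Pool.Agent.TH69.Og

theorem cent_c {G : Type} [Group G] {n M : ℕ} (S : Sg n G) (hM : Nat.Coprime M 3)
    (hn : M * 3 = n) (h2M : 2 ∣ M) (rM : Rad M G = ⊥) {F : Type} [Group F] [Finite F]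
    (hI : Im G F) (hF : ∀ x : F, x ^ (M * 3) = 1) (V : Subgroup F) [hVn : V.Normal]
    (hab : ∀ v ∈ V, ∀ w ∈ V, v * w = w * v) (hpow : ∀ v ∈ V, v ^ 2 = 1)
    {s h : F} (hs : s ^ 3 = 1) (D : Subgroup (F ⧸ V)) (hD : ∀ d ∈ D, d ^ 3 = 1)
    (hsD : (s : F ⧸ V) ∈ D) {s2 : F ⧸ V} (hs2D : s2 ∈ D)
    (hs2 : s2 ∈ (c2 s h).map (QuotientGroup.mk' V)) :
    ∃ c r : F, c ∈ c2 s h ∧ r ∈ c2 s h ∧ c ^ 3 = 1 ∧ (r : F ⧸ V) = s2 ∧
      c = s⁻¹ * (r⁻¹ * s * r) ∧ ∀ t ∈ V, t ∈ c2 s h → t * c = c * t := by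
  have hsH : s ∈ c2 s h := Subgroup.subset_closure (by simp)
  obtain ⟨Q, hsQ, hQ, r, hrQ, hrH, hrs2⟩ := lift_three (QuotientGroup.mk' V) hM hF (c2 s h) hs hsH
    D hD hsD hs2D hs2
  have h1 := Tw.comm_conj (a := s) (b := s) (c := r) (hQ _ hrQ) (hQ _ (mul_mem hsQ hrQ))
    (hQ _ (mul_mem hsQ hrQ)) (hQ _ (mul_mem (mul_mem hsQ hsQ) hrQ)) (Commute.refl _)
  have h2 := Tw.comm_conj (a := r) (b := r) (c := s) (hQ _ hsQ) (hQ _ (mul_mem hrQ hsQ))
    (hQ _ (mul_mem hrQ hsQ)) (hQ _ (mul_mem (mul_mem hrQ hrQ) hsQ)) (Commute.refl _)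
  obtain ⟨c, hc⟩ : ∃ c, c = s⁻¹ * (r⁻¹ * s * r) := ⟨_, rfl⟩
  have hcQ : c ∈ Q := by
    rw [hc]
    exact mul_mem (inv_mem hsQ) (mul_mem (mul_mem (inv_mem hrQ) hsQ) hrQ)
  have hcH : c ∈ c2 s h := by
    rw [hc]
    exact mul_mem (inv_mem hsH) (mul_mem (mul_mem (inv_mem hrH) hsH) hrH)
  have hcs : Commute c s := by
    rw [hc]
    exact ((Commute.refl s).inv_right.mul_right h1).symm
  have hcr : Commute c r := by
    have e : c = (s⁻¹ * r * s)⁻¹ * r := by rw [hc]; group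
    rw [e]
    exact (h2.symm.inv_left).mul_left (Commute.refl r)
  refine ⟨c, r, hcH, hrH, hQ c hcQ, hrs2, hc, fun t ht htH => ?_⟩
  -- elements commuting with `s`
  have key : ∀ t ∈ V, t ∈ c2 s h → Commute t s → Commute t c := by
    intro t ht htH hts
    have htM : t ^ M = 1 := by
      obtain ⟨k, rfl⟩ := h2M
      rw [pow_mul, hpow t ht, one_pow]
    have h3 := ptf S hM hn rM hI hs Q hQ hsQ hrQ hrH htH htM hts hc
    have h4 : t * c * t⁻¹ * c⁻¹ ∈ V := by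
      have := mul_mem ht (hVn.conj_mem _ (inv_mem ht) c)
      have e : t * (c * t⁻¹ * c⁻¹) = t * c * t⁻¹ * c⁻¹ := by group
      rwa [e] at this
    have h5 := W629.eq_one_of_coprime (by norm_num) (hpow _ h4) h3
    rw [mul_inv_eq_one, mul_inv_eq_iff_eq_mul] at h5
    exact h5
  have conj : ∀ g : F, ∀ t ∈ V, t ∈ c2 s h → Commute t (r⁻¹ * g * r) →
      (∀ t ∈ V, t ∈ c2 s h → Commute t g → Commute t c) → Commute t c := by
    intro g t ht htH htg hg
    have h3 := hg (r * t * r⁻¹) (hVn.conj_mem t ht r) (mul_mem (mul_mem hrH htH) (inv_mem hrH)) (by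
      have h4 := htg.eq
      change r * t * r⁻¹ * g = g * (r * t * r⁻¹)
      calc r * t * r⁻¹ * g = r * (t * (r⁻¹ * g * r)) * r⁻¹ := by group
        _ = r * (r⁻¹ * g * r * t) * r⁻¹ := by rw [h4]
        _ = g * (r * t * r⁻¹) := by group)
    have h4 := h3.eq
    have h5 : r⁻¹ * c * r = c := by
      rw [mul_assoc, hcr.eq]
      group
    change t * c = c * t
    calc t * c = r⁻¹ * (r * t * r⁻¹ * (r * c * r⁻¹)) * r := by group
      _ = r⁻¹ * (r * t * r⁻¹ * c) * r := by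
          have h6 : r * c * r⁻¹ = c := by rw [← hcr.eq]; group
          rw [h6]
      _ = r⁻¹ * (c * (r * t * r⁻¹)) * r := by rw [h4]
      _ = (r⁻¹ * c * r) * t := by group
      _ = c * t := by rw [h5]
  have e1 : s * c = r⁻¹ * s * r := by rw [hc]; group
  have e2 : s * c * c = r⁻¹ * (s * c) * r := by
    have h3 : r⁻¹ * (s * c) * r = (r⁻¹ * s * r) * (r⁻¹ * c * r) := by group
    have h5 : r⁻¹ * c * r = c := by
      rw [mul_assoc, hcr.eq]
      group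
    rw [h3, h5, ← e1]
  have key1 : ∀ t ∈ V, t ∈ c2 s h → Commute t (s * c) → Commute t c := by
    intro t ht htH h3
    rw [e1] at h3
    exact conj s t ht htH h3 key
  have key2 : ∀ t ∈ V, t ∈ c2 s h → Commute t (s * c * c) → Commute t c := by
    intro t ht htH h3
    rw [e2] at h3
    exact conj (s * c) t ht htH h3 key1
  have h6 := fix3 (F := c2 s h) (V.subgroupOf (c2 s h)) (s := ⟨s, hsH⟩) (c := ⟨c, hcH⟩)
    (fun v hv w hw => Subtype.ext (hab v hv w hw)) (Subtype.ext hs) (Subtype.ext (hQ c hcQ))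
    (Subtype.ext hcs.eq)
    (fun t ht hts => Subtype.ext (key t ht t.2 (congrArg Subtype.val hts.eq)).eq)
    (fun t ht hts => Subtype.ext (key1 t ht t.2 (congrArg Subtype.val hts.eq)).eq)
    (fun t ht hts => Subtype.ext (key2 t ht t.2 (congrArg Subtype.val hts.eq)).eq)
    (u := ⟨t, htH⟩) ht (Subtype.ext (hpow t ht))
  exact congrArg Subtype.val h6.eq

end Pool.Agent.TH69.Oh
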