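import Mathlib
import Pool.Agent.TH69.OhF

set_option autoImplicit false

/-!
# Centralisers of elements of order three, part G: commuting elements of order three
-/

namespace Pool.Agent.TH69.Oh

open Pool.Agent.H32BU Pool.Agent.W629 Pool.Agent.TH69.Mtn Pool.Agent.TH69.Od Pool.Agent.TH69.Og

theorem comm_mod {G : Type} [Group G] {n M : ℕ} (S : Sg n G) (hM : Nat.Coprime M 3)
    (hn : M * 3 = n) (h2M : 2 ∣ M) (rM : Rad M G = ⊥) {F : Type} [Group F] [Finite F]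
    (hI : Im G F) (hF : ∀ x : F, x ^ (M * 3) = 1) (V : Subgroup F) [hVn : V.Normal]
    (hab : ∀ v ∈ V, ∀ w ∈ V, v * w = w * v) (hpow : ∀ v ∈ V, v ^ 2 = 1)
    (L : Subgroup F) (hVL : V ≤ L) (hL3 : ∀ y ∈ L, y ^ 3 ∈ V)
    (hC : ∀ y ∈ L, (∀ v ∈ V, y * v = v * y) → y ∈ V) {x s : F} (hs : s ^ 3 = 1) (hsL : s ∈ L)
    (hxL : ∀ y ∈ L, x * y * x⁻¹ ∈ L) {s2 : F ⧸ V} (hs2L : s2 ∈ L.map (QuotientGroup.mk' V))
    (hs2 : s2 ∈ (c2 s x).map (QuotientGroup.mk' V)) :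
    (s : F ⧸ V)⁻¹ * (s2⁻¹ * s * s2) = 1 := by
  have hMpos : 0 < M * 3 := Nat.pos_of_ne_zero fun h => S.hn (by rw [← hn, h])
  obtain ⟨L', hL'⟩ : ∃ L', L' = L.map (QuotientGroup.mk' V) := ⟨_, rfl⟩
  rw [← hL'] at hs2L
  have hL'3 : ∀ y ∈ L', y ^ 3 = 1 := by
    intro y hy
    rw [hL'] at hy
    obtain ⟨l, hl, rfl⟩ := hy
    have := hL3 l hl
    rw [← QuotientGroup.eq_one_iff, QuotientGroup.mk_pow] at this
    exact this
  have hL'L : ∀ y : F, (y : F ⧸ V) ∈ L' → y ∈ L := by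
    intro y hy
    rw [hL'] at hy
    obtain ⟨l, hl, e⟩ := hy
    have h1 : l⁻¹ * y ∈ V := QuotientGroup.eq.1 e
    have h2 := mul_mem hl (hVL h1)
    rwa [mul_inv_cancel_left] at h2
  have hsL' : (s : F ⧸ V) ∈ L' := by
    rw [hL']
    exact ⟨s, hsL, rfl⟩
  -- the subgroup of the quotient
  obtain ⟨E, hE⟩ : ∃ E, E = c2 (s : F ⧸ V) (x : F ⧸ V) := ⟨_, rfl⟩
  have hmapE : ∀ v ∈ V, (c2 s (x * v)).map (QuotientGroup.mk' V) = E := by
    intro v hv
    rw [hE, map_c2']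
    change c2 (s : F ⧸ V) ((x * v : F) : F ⧸ V) = _
    rw [QuotientGroup.mk_mul, (QuotientGroup.eq_one_iff v).2 hv, mul_one]
  have hEL : ∀ g ∈ E, ∀ y ∈ L', g * y * g⁻¹ ∈ L' := by
    have h1 : E ≤ Subgroup.normalizer (L' : Set (F ⧸ V)) := by
      rw [hE]
      refine c2_le (Subgroup.le_normalizer hsL') ?_
      refine mem_norm hMpos (by rw [← QuotientGroup.mk_pow, hF]; rfl) ?_
      intro y hy
      rw [hL'] at hy ⊢
      obtain ⟨l, hl, rfl⟩ := hy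
      exact ⟨x * l * x⁻¹, hxL l hl, rfl⟩
    intro g hg y hy
    exact ((Subgroup.mem_normalizer_iff.1 (h1 hg)) y).1 hy
  obtain ⟨c, hc⟩ : ∃ c : F ⧸ V, c = (s : F ⧸ V)⁻¹ * (s2⁻¹ * s * s2) := ⟨_, rfl⟩
  rw [← hc]
  have hcL' : c ∈ L' := by
    rw [hc]
    exact mul_mem (inv_mem hsL') (mul_mem (mul_mem (inv_mem hs2L) hsL') hs2L)
  let N : Subgroup (F ⧸ V) := Subgroup.closure {x | ∃ g ∈ E, x = g * c * g⁻¹}
  have hNE : ∀ g ∈ E, ∀ x ∈ N, g * x * g⁻¹ ∈ N := by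
    intro g hg x hx
    induction hx using Subgroup.closure_induction with
    | mem x hx =>
      obtain ⟨g', hg', rfl⟩ := hx
      refine Subgroup.subset_closure ⟨g * g', mul_mem hg hg', ?_⟩
      group
    | one => rw [mul_one, mul_inv_cancel]; exact one_mem _
    | mul x y _ _ hx hy =>
      have e : g * (x * y) * g⁻¹ = (g * x * g⁻¹) * (g * y * g⁻¹) := by group
      rw [e]
      exact mul_mem hx hy
    | inv x _ hx =>
      have e : g * x⁻¹ * g⁻¹ = (g * x * g⁻¹)⁻¹ := by group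
      rw [e]
      exact inv_mem hx
  have hNle : ∀ A : Subgroup (F ⧸ V), (∀ g ∈ E, ∀ x ∈ A, g * x * g⁻¹ ∈ A) → c ∈ A → N ≤ A := by
    intro A hA hcA
    rw [Subgroup.closure_le]
    rintro _ ⟨g, hg, rfl⟩
    exact hA g hg c hcA
  have hcN : c ∈ N := Subgroup.subset_closure ⟨1, one_mem _, by group⟩
  have hNL' : N ≤ L' := hNle L' hEL hcL'
  obtain ⟨a, b, ⟨a', ha'⟩, -, ha, -, -⟩ := crt hM
  -- the subgroups `B'`
  have hBv : ∀ v ∈ V, ∃ B' : Subgroup F, (∀ b ∈ B', b ^ 3 = 1) ∧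
      (∀ g ∈ c2 s (x * v), ∀ b ∈ B', g * b * g⁻¹ ∈ B') ∧
      (∀ b ∈ B', (b : F ⧸ V) ∈ N) ∧ (∀ b : F, (b : F ⧸ V) ∈ N → ∃ w ∈ V, b * w ∈ B') ∧
      (∀ b ∈ c2 s (x * v), (b : F ⧸ V) ∈ N → b ^ 3 = 1 → b ∈ B') := by
    intro v hv
    obtain ⟨H, hH⟩ : ∃ H, H = c2 s (x * v) := ⟨_, rfl⟩
    obtain ⟨cv, r, h1, h2, h3, h4, h5, h6⟩ := cent_c S hM hn h2M rM hI hF V hab hpow hs
      (h := x * v) L' hL'3 hsL' hs2L (by
        rw [hmapE v hv]
        have := hmapE 1 (one_mem _)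
        rw [mul_one] at this
        rwa [← this])
    rw [← hH] at h1 h2 h6 ⊢
    have hcv : (cv : F ⧸ V) = c := by
      rw [h5, hc, ← h4]
      rfl
    have hHE : H.map (QuotientGroup.mk' V) = E := by
      rw [hH]
      exact hmapE v hv
    let A : Subgroup F :=
      { carrier := {g | g ∈ H ∧ ∀ t ∈ V, t ∈ H → t * g = g * t}
        one_mem' := ⟨one_mem _, fun t _ _ => by rw [mul_one, one_mul]⟩
        mul_mem' := by
          rintro g g' ⟨hg, hg2⟩ ⟨hg', hg2'⟩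
          refine ⟨mul_mem hg hg', fun t ht htH => ?_⟩
          rw [← mul_assoc, hg2 t ht htH, mul_assoc, hg2' t ht htH, mul_assoc]
        inv_mem' := by
          rintro g ⟨hg, hg2⟩
          refine ⟨inv_mem hg, fun t ht htH => ?_⟩
          rw [eq_inv_mul_iff_mul_eq, ← mul_assoc, ← hg2 t ht htH, mul_inv_cancel_right] }
    have hNA : N ≤ A.map (QuotientGroup.mk' V) := by
      apply hNle
      · rintro g hg _ ⟨y, ⟨hy, hy2⟩, rfl⟩
        rw [← hHE] at hg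
        obtain ⟨g, hg, rfl⟩ := hg
        refine ⟨g * y * g⁻¹, ⟨mul_mem (mul_mem hg hy) (inv_mem hg), fun t ht htH => ?_⟩, rfl⟩
        have h7 := hy2 (g⁻¹ * t * g) (by
          have := hVn.conj_mem t ht g⁻¹
          rwa [inv_inv] at this) (mul_mem (mul_mem (inv_mem hg) htH) hg)
        calc t * (g * y * g⁻¹) = g * ((g⁻¹ * t * g) * y) * g⁻¹ := by group
          _ = g * (y * (g⁻¹ * t * g)) * g⁻¹ := by rw [h7]
          _ = g * y * g⁻¹ * t := by group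
      · exact ⟨cv, ⟨h1, h6⟩, hcv⟩
    -- elements of `H` with image in `N`
    obtain ⟨E1, hE1⟩ : ∃ E1, E1 = H ⊓ N.comap (QuotientGroup.mk' V) := ⟨_, rfl⟩
    have hE1m : ∀ y : F, y ∈ E1 ↔ y ∈ H ∧ (y : F ⧸ V) ∈ N := by
      intro y
      rw [hE1]
      exact Iff.rfl
    have hcen : ∀ y ∈ E1, ∀ t ∈ V, t ∈ H → t * y = y * t := by
      intro y hy t ht htH
      rw [hE1m] at hy
      obtain ⟨g, ⟨hg, hg2⟩, hgy⟩ := hNA hy.2
      have h7 : g⁻¹ * y ∈ V := QuotientGroup.eq.1 hgy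
      have h8 := hab _ ht _ h7
      calc t * y = t * g * (g⁻¹ * y) := by group
        _ = g * t * (g⁻¹ * y) := by rw [hg2 t ht htH]
        _ = g * (t * (g⁻¹ * y)) := by group
        _ = g * (g⁻¹ * y * t) := by rw [h8]
        _ = y * t := by group
    have hrad : ∀ y : E1, y ^ 3 = 1 → y ∈ Rad (3 ^ 1) E1 := by
      intro y hy
      refine nilpG Nat.prime_three (by rw [pow_one]; exact hM.symm) hM.symm (m := M) (fun y => ?_)
        ⊤ inferInstance ?_ (Subgroup.mem_top y) (by rw [pow_one]; exact hy)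
      · apply Subtype.ext
        rw [pow_one, mul_comm]
        exact hF y
      · rintro ⟨y, hy⟩ - ⟨z, hz⟩ - hzM
        apply Subtype.ext
        have h7 : (z : F ⧸ V) = 1 := by
          refine W629.eq_one_of_coprime hM ?_ (hL'3 _ (hNL' ((hE1m z).1 hz).2))
          rw [← QuotientGroup.mk_pow]
          have : z ^ M = 1 := congrArg Subtype.val hzM
          rw [this]
          rfl
        exact (hcen y hy z ((QuotientGroup.eq_one_iff z).1 h7) ((hE1m z).1 hz).1).symm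
    refine ⟨{ carrier := {b | b ∈ E1 ∧ b ^ 3 = 1}
              one_mem' := ⟨one_mem _, one_pow _⟩
              mul_mem' := ?_
              inv_mem' := ?_ }, fun b hb => hb.2, ?_, fun b hb => ((hE1m b).1 hb.1).2, ?_, ?_⟩
    · rintro y z ⟨hy, hy2⟩ ⟨hz, hz2⟩
      refine ⟨mul_mem hy hz, ?_⟩
      have h7 := rad_mul (hrad ⟨y, hy⟩ (Subtype.ext hy2)) (z := ⟨z, hz⟩) (Subtype.ext (by
        rw [Subgroup.coe_pow, pow_one]; exact hz2))
      rw [pow_one] at h7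
      exact congrArg Subtype.val h7
    · rintro y ⟨hy, hy2⟩
      exact ⟨inv_mem hy, by rw [inv_pow, hy2, inv_one]⟩
    · rintro g hg y ⟨hy, hy2⟩
      refine ⟨?_, conj_pow_one hy2⟩
      rw [hE1m] at hy ⊢
      refine ⟨mul_mem (mul_mem hg hy.1) (inv_mem hg), hNE (g : F ⧸ V) ?_ _ hy.2⟩
      rw [← hHE]
      exact ⟨g, hg, rfl⟩
    · intro y hy
      obtain ⟨g, ⟨hg, -⟩, hgy⟩ := hNA hy
      have hgy' : (g : F ⧸ V) = y := hgy
      have h7 : ((g ^ a : F) : F ⧸ V) = y := by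
        rw [QuotientGroup.mk_pow, hgy']
        exact ha _ (hL'3 _ (hNL' hy))
      refine ⟨y⁻¹ * g ^ a, QuotientGroup.eq.1 h7.symm, ?_, ?_⟩
      · rw [mul_inv_cancel_left, hE1m, h7]
        exact ⟨pow_mem hg a, hy⟩
      · rw [mul_inv_cancel_left, ← pow_mul, ha', show M * a' * 3 = (M * 3) * a' from by ring,
          pow_mul, hF, one_pow]
    · intro y hy hyN hy3
      exact ⟨(hE1m y).2 ⟨hy, hyN⟩, hy3⟩
  obtain ⟨B, hB1, hB2, hB3, hB4, hB5⟩ := hBv 1 (one_mem _)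
  rw [mul_one] at hB2 hB5
  have hsE : s ∈ c2 s x := Subgroup.subset_closure (by simp)
  have hxE : x ∈ c2 s x := Subgroup.subset_closure (by simp)
  have hinvc : ∀ g ∈ c2 s x, ∀ b ∈ B, g⁻¹ * b * g ∈ B := by
    intro g hg b hb
    have := hB2 g⁻¹ (inv_mem hg) b hb
    rwa [inv_inv] at this
  have hhalf := half' V 2 s x Nat.prime_two inferInstance hab hpow B
    (fun b hb => ⟨3, by norm_num, hB1 b hb⟩) (hB2 s hsE) (hinvc s hsE) (hB2 x hxE)
    (hinvc x hxE) (by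
      intro v hv
      obtain ⟨B', h1, h2, h3, h4, -⟩ := hBv v hv
      exact ⟨B', fun b hb => ⟨3, by norm_num, h1 b hb⟩,
        h2 s (Subgroup.subset_closure (by simp)), h2 (x * v) (Subgroup.subset_closure (by simp)),
        fun b hb => h4 b (hB3 b hb), fun b hb => hB4 b (h3 b hb)⟩)
  -- the commutator
  obtain ⟨cv, r, h1, h2, h3, h4, h5, -⟩ := cent_c S hM hn h2M rM hI hF V hab hpow hs
    (h := x) L' hL'3 hsL' hs2L hs2
  have hcv : (cv : F ⧸ V) = c := by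
    rw [h5, hc, ← h4]
    rfl
  have hcvB : cv ∈ B := hB5 cv h1 (by rw [hcv]; exact hcN) h3
  have hC0 : ∀ g ∈ c2 s x, ∀ k ∈ V ⊓ Subgroup.centralizer (B : Set F),
      g⁻¹ * k * g ∈ V ⊓ Subgroup.centralizer (B : Set F) := by
    intro g hg k hk
    refine ⟨?_, Subgroup.mem_centralizer_iff.2 fun b hb => ?_⟩
    · have := hVn.conj_mem k hk.1 g⁻¹
      rwa [inv_inv] at this
    · have h6 := (Subgroup.mem_centralizer_iff.1 hk.2) _ (hB2 g hg b hb)
      calc b * (g⁻¹ * k * g) = g⁻¹ * ((g * b * g⁻¹) * k) * g := by group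
        _ = g⁻¹ * (k * (g * b * g⁻¹)) * g := by rw [h6]
        _ = g⁻¹ * k * g * b := by group
  have hcomm : ∀ u ∈ V, cv * u = u * cv := by
    intro u hu
    obtain ⟨κ, hκ⟩ : ∃ κ, κ = cv⁻¹ * u * cv * u⁻¹ := ⟨_, rfl⟩
    have hκC : κ ∈ V ⊓ Subgroup.centralizer (B : Set F) := by
      obtain ⟨u', hu'⟩ : ∃ u', u' = s * u * s⁻¹ := ⟨_, rfl⟩
      have hu'V : u' ∈ V := by rw [hu']; exact hVn.conj_mem u hu s
      have h6 := hhalf u' hu'V
      have h7 := hhalf (r * u' * r⁻¹) (hVn.conj_mem u' hu'V r)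
      have h8 := hC0 r h2 _ h7
      have h9 := mul_mem h8 (inv_mem h6)
      have e : κ = r⁻¹ * (s⁻¹ * (r * u' * r⁻¹) * s * (r * u' * r⁻¹)⁻¹) * r *
          (s⁻¹ * u' * s * u'⁻¹)⁻¹ := by
        rw [hκ, h5, hu']
        group
      rw [e]
      exact h9
    have hcm : Commute cv κ := (Subgroup.mem_centralizer_iff.1 hκC.2) cv hcvB
    have h6 := comm_pow (x := cv⁻¹) (y := u) (c := κ) (by rw [hκ, inv_inv]) hcm.inv_left 3
    have h7 : κ ^ 3 = 1 := by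
      rw [← h6, inv_pow, h3]
      group
    have h8 := W629.eq_one_of_coprime (a := 3) (b := 2) (by norm_num) h7 (hpow κ hκC.1)
    rw [h8, eq_comm, mul_inv_eq_one, mul_assoc, inv_mul_eq_iff_eq_mul] at hκ
    exact hκ.symm
  have h6 := hC cv (hL'L cv (by rw [hcv]; exact hcL')) hcomm
  rw [← hcv]
  exact (QuotientGroup.eq_one_iff cv).2 h6

end Pool.Agent.TH69.Oh
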