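import Mathlib
import Pool.Agent.TH69.OhG
import Pool.Agent.TH69.OhD

set_option autoImplicit false

/-!
# Centralisers of elements of order three, part H: the exceptional case of the theorem of Hall and
# Higman
-/

namespace Pool.Agent.TH69.Oh

open Pool.Agent.H32BU Pool.Agent.W629 Pool.Agent.TH69.Mtn Pool.Agent.TH69.Od Pool.Agent.TH69.Og

/-- the configuration of the theorem does not occur -/
theorem no_conf3' {G : Type} [Group G] {n M α m : ℕ} (S : Sg n G) (hM : Nat.Coprime M 3)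
    (hn : M * 3 = n) (rM : Rad M G = ⊥) (hα : 1 ≤ α) (h2m : ¬ 2 ∣ m) (hm : 2 ^ α * m = n)
    {F : Type} [Group F] [Finite F]
    (hI : Im G F) (hF : ∀ x : F, x ^ (2 ^ α * m) = 1) {x : F} (hx : x ^ 2 ^ α = 1)
    (V L : Subgroup F) [hV : V.Normal] (hVL : V ≤ L)
    (hab : ∀ v ∈ V, ∀ w ∈ V, v * w = w * v) (hpow : ∀ v ∈ V, v ^ 2 = 1)
    (hL3 : ∀ y ∈ L, y ^ 3 ∈ V) (hxL : ∀ y ∈ L, x * y * x⁻¹ ∈ L)
    (hC : ∀ y ∈ L, (∀ v ∈ V, y * v = v * y) → y ∈ V) {s : F} (hs : s ∈ L) (hs3 : s ^ 3 = 1) :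
    x ^ 2 ^ (α - 1) * s * (x ^ 2 ^ (α - 1))⁻¹ * s⁻¹ ∈ V := by
  classical
  have h2M : 2 ∣ M := by
    have h1 : 2 ∣ M * 3 := by
      rw [hn, ← hm]
      exact (dvd_pow_self 2 (by omega)).trans (dvd_mul_right _ _)
    exact (Nat.Coprime.dvd_of_dvd_mul_right (by norm_num) h1)
  have hFM : ∀ x : F, x ^ (M * 3) = 1 := by
    rw [hn, ← hm]
    exact hF
  have hxn : x ∈ Subgroup.normalizer (L : Set F) := mem_norm (Nat.pow_pos (by norm_num)) hx hxL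
  have hxzL : ∀ (i : ℤ), ∀ y ∈ L, x ^ i * y * (x ^ i)⁻¹ ∈ L := fun i y hy =>
    ((Subgroup.mem_normalizer_iff.1 (zpow_mem hxn i)) y).1 hy
  -- the conjugates of `s`
  obtain ⟨X, hX⟩ : ∃ X : Set (F ⧸ V),
    X = {y | ∃ i : ℤ, y = (x : F ⧸ V) ^ i * s * ((x : F ⧸ V) ^ i)⁻¹} := ⟨_, rfl⟩
  have hXs : (s : F ⧸ V) ∈ X := by
    rw [hX]
    exact ⟨0, by simp⟩
  have hcomm0 : ∀ i : ℤ, (s : F ⧸ V) * ((x : F ⧸ V) ^ i * s * ((x : F ⧸ V) ^ i)⁻¹) =
      ((x : F ⧸ V) ^ i * s * ((x : F ⧸ V) ^ i)⁻¹) * s := by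
    intro i
    have h1 := comm_mod S hM hn h2M rM hI hFM V hab hpow L hVL hL3 hC (x := x) (s := s) hs3 hs hxL
      (s2 := (x : F ⧸ V) ^ i * s * ((x : F ⧸ V) ^ i)⁻¹)
      ⟨x ^ i * s * (x ^ i)⁻¹, hxzL i s hs, rfl⟩ (by
        refine ⟨x ^ i * s * (x ^ i)⁻¹, ?_, rfl⟩
        have h2 : x ∈ c2 s x := Subgroup.subset_closure (by simp)
        have h3 : s ∈ c2 s x := Subgroup.subset_closure (by simp)
        exact mul_mem (mul_mem (zpow_mem h2 i) h3) (inv_mem (zpow_mem h2 i)))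
    generalize (x : F ⧸ V) ^ i * s * ((x : F ⧸ V) ^ i)⁻¹ = y at h1 ⊢
    rw [inv_mul_eq_one, mul_assoc, eq_inv_mul_iff_mul_eq] at h1
    exact h1.symm
  have hXc : ∀ a ∈ X, ∀ b ∈ X, a * b = b * a := by
    intro a ha b hb
    rw [hX] at ha hb
    obtain ⟨i, rfl⟩ := ha
    obtain ⟨j, rfl⟩ := hb
    have h1 := hcomm0 (j - i)
    rw [sub_eq_neg_add, zpow_add, zpow_neg] at h1
    generalize (x : F ⧸ V) ^ i = u at h1 ⊢
    generalize (x : F ⧸ V) ^ j = v at h1 ⊢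
    generalize (s : F ⧸ V) = t at h1 ⊢
    calc u * t * u⁻¹ * (v * t * v⁻¹) = u * (t * (u⁻¹ * v * t * (u⁻¹ * v)⁻¹)) * u⁻¹ := by group
      _ = u * ((u⁻¹ * v * t * (u⁻¹ * v)⁻¹) * t) * u⁻¹ := by rw [h1]
      _ = v * t * v⁻¹ * (u * t * u⁻¹) := by group
  obtain ⟨T, hT⟩ : ∃ T, T = Subgroup.closure X := ⟨_, rfl⟩
  have hTc : ∀ a ∈ T, ∀ b ∈ T, a * b = b * a := by
    have h1 : T ≤ Subgroup.centralizer X := by
      rw [hT, Subgroup.closure_le]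
      intro a ha
      rw [SetLike.mem_coe, Subgroup.mem_centralizer_iff]
      intro b hb
      exact hXc b hb a ha
    have h2 : T ≤ Subgroup.centralizer (T : Set (F ⧸ V)) := by
      conv_lhs => rw [hT]
      rw [Subgroup.closure_le]
      intro a ha
      rw [SetLike.mem_coe, Subgroup.mem_centralizer_iff]
      intro b hb
      exact ((Subgroup.mem_centralizer_iff.1 (h1 hb)) a ha).symm
    intro a ha b hb
    exact (Subgroup.mem_centralizer_iff.1 (h2 hb)) a ha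
  have hTx : ∀ y ∈ T, (x : F ⧸ V) * y * (x : F ⧸ V)⁻¹ ∈ T := by
    intro y hy
    rw [hT] at hy ⊢
    refine closure_conj ?_ y hy
    intro y hy
    rw [hX] at hy ⊢
    obtain ⟨i, rfl⟩ := hy
    refine Subgroup.subset_closure ⟨i + 1, ?_⟩
    rw [add_comm, zpow_add, zpow_one]
    group
  -- the preimage
  obtain ⟨Lq, hLq⟩ : ∃ Lq, Lq = T.comap (QuotientGroup.mk' V) := ⟨_, rfl⟩
  have hLqm : ∀ y : F, y ∈ Lq ↔ (y : F ⧸ V) ∈ T := by
    intro y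
    rw [hLq]
    rfl
  have hVq : V ≤ Lq := by
    intro v hv
    rw [hLqm, (QuotientGroup.eq_one_iff v).2 hv]
    exact one_mem _
  have hLqL : Lq ≤ L := by
    have h1 : T ≤ L.map (QuotientGroup.mk' V) := by
      rw [hT, Subgroup.closure_le, hX]
      rintro _ ⟨i, rfl⟩
      exact ⟨x ^ i * s * (x ^ i)⁻¹, hxzL i s hs, rfl⟩
    intro y hy
    rw [hLqm] at hy
    obtain ⟨l, hl, e⟩ := h1 hy
    have h2 : l⁻¹ * y ∈ V := QuotientGroup.eq.1 e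
    have h3 := mul_mem hl (hVL h2)
    rwa [mul_inv_cancel_left] at h3
  have hxq : ∀ y ∈ Lq, x * y * x⁻¹ ∈ Lq := by
    intro y hy
    rw [hLqm] at hy ⊢
    exact hTx _ hy
  have hxn : x ∈ Subgroup.normalizer (Lq : Set F) := mem_norm (Nat.pow_pos (by norm_num)) hx hxq
  obtain ⟨F', hF'⟩ : ∃ F', F' = XZs Lq x hxn := ⟨_, rfl⟩
  have hxF' : x ∈ F' := by
    rw [hF']
    refine ⟨-1, ?_⟩
    rw [zpow_neg_one, mul_inv_cancel]
    exact one_mem _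
  have hLF' : Lq ≤ F' := by
    intro y hy
    rw [hF']
    refine ⟨0, ?_⟩
    rwa [zpow_zero, mul_one]
  have hF'n : F' ≤ Subgroup.normalizer (Lq : Set F) := by
    intro y hy
    rw [hF'] at hy
    obtain ⟨j, hj⟩ := hy
    have h1 := mul_mem (Subgroup.le_normalizer hj) (inv_mem (zpow_mem hxn j))
    rwa [mul_inv_cancel_right] at h1
  -- the exponent
  obtain ⟨m', hm'⟩ : 3 ∣ m := by
    have h1 : 3 ∣ 2 ^ α * m := by
      rw [hm, ← hn]
      exact dvd_mul_left _ _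
    exact Nat.Coprime.dvd_of_dvd_mul_left (Nat.Coprime.pow_right _ (by norm_num)) h1
  have h3m' : Nat.Coprime 3 m' := by
    have h1 : M = 2 ^ α * m' := by
      have h2 : M * 3 = (2 ^ α * m') * 3 := by
        rw [hn, ← hm, hm']
        ring
      exact Nat.eq_of_mul_eq_mul_right (by norm_num) h2
    rw [h1] at hM
    exact (Nat.Coprime.coprime_mul_left hM).symm
  have h2m' : Nat.Coprime 2 m' := by
    rw [Nat.Prime.coprime_iff_not_dvd Nat.prime_two]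
    intro h
    apply h2m
    rw [hm']
    exact h.trans (dvd_mul_left _ _)
  have hexp : ∀ y : F', y ^ (2 ^ α * 3 ^ 1) = 1 := by
    rintro ⟨y, hy⟩
    apply Subtype.ext
    change y ^ (2 ^ α * 3 ^ 1) = 1
    have hy' := hy
    rw [hF'] at hy'
    obtain ⟨j, hj⟩ := hy'
    have h1 := xz_pow hxn hx hj
    have h2 := hpow _ (hL3 _ (hLqL h1))
    have h3 : y ^ (2 ^ (α + 1) * 3) = 1 := by
      rw [← h2, ← pow_mul, ← pow_mul]
      congr 1
      ring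
    have h4 := orderOf_dvd_of_pow_eq_one h3
    have h5 := orderOf_dvd_of_pow_eq_one (hF y)
    rw [hm', ← mul_assoc] at h5
    apply orderOf_dvd_iff_pow_eq_one.1
    rw [pow_one]
    refine Nat.Coprime.dvd_of_dvd_mul_right ?_ h5
    refine Nat.Coprime.coprime_dvd_left h4 (Nat.Coprime.mul_left ?_ h3m')
    exact Nat.Coprime.pow_left _ h2m'
  have hsq : s ∈ Lq := by
    rw [hLqm, hT]
    exact Subgroup.subset_closure hXs
  have h6 := no_confC (p := 2) (q := 3) (β := 1) Nat.prime_two Nat.prime_three (by norm_num) hα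
    (F := F') hexp (x := ⟨x, hxF'⟩) (Subtype.ext hx) (V.subgroupOf F') (Lq.subgroupOf F')
    ⟨fun v hv g => hV.conj_mem v hv g⟩
    ⟨fun v hv g => ((Subgroup.mem_normalizer_iff.1 (hF'n g.2)) v).1 hv⟩
    (fun v hv => hVq hv) (fun v hv w hw => Subtype.ext (hab v hv w hw))
    (fun v hv => Subtype.ext (hpow v hv))
    (fun y hy => by
      change (y : F) ^ 3 ^ 1 ∈ V
      rw [pow_one]
      exact hL3 y (hLqL hy))
    (fun a ha b hb => by
      change (a : F) * b * (a : F)⁻¹ * (b : F)⁻¹ ∈ V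
      have h7 := hTc _ ((hLqm a).1 ha) _ ((hLqm b).1 hb)
      rw [← QuotientGroup.eq_one_iff]
      change ((a : F) : F ⧸ V) * ((b : F) : F ⧸ V) * ((a : F) : F ⧸ V)⁻¹ *
        ((b : F) : F ⧸ V)⁻¹ = 1
      rw [h7]
      group)
    (fun y hy hyv => hC y (hLqL hy) fun v hv =>
      congrArg Subtype.val (hyv ⟨v, hLF' (hVq hv)⟩ hv))
    (s := ⟨s, hLF' hsq⟩) hsq
  exact h6

/-- the configuration of the theorem does not occur -/
theorem no_conf3 {G : Type} [Group G] {n M α m : ℕ} (S : Sg n G) (hM : Nat.Coprime M 3)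
    (hn : M * 3 = n) (rM : Rad M G = ⊥) (hα : 1 ≤ α) (h2m : ¬ 2 ∣ m) (hm : 2 ^ α * m = n)
    {F : Type} [Group F] [Finite F]
    (hI : Im G F) (hF : ∀ x : F, x ^ (2 ^ α * m) = 1) {x : F} (hx : x ^ 2 ^ α = 1)
    (V L : Subgroup F) [hV : V.Normal] (hVL : V ≤ L)
    (hab : ∀ v ∈ V, ∀ w ∈ V, v * w = w * v) (hpow : ∀ v ∈ V, v ^ 2 = 1)
    (hL3 : ∀ y ∈ L, y ^ 3 ∈ V) (hxL : ∀ y ∈ L, x * y * x⁻¹ ∈ L)
    (hC : ∀ y ∈ L, (∀ v ∈ V, y * v = v * y) → y ∈ V) {s : F} (hs : s ∈ L) :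
    x ^ 2 ^ (α - 1) * s * (x ^ 2 ^ (α - 1))⁻¹ * s⁻¹ ∈ V := by
  have hFM : ∀ x : F, x ^ (M * 3) = 1 := by
    rw [hn, ← hm]
    exact hF
  obtain ⟨a, b, ⟨a', ha'⟩, -, ha, -, -⟩ := crt hM
  have h1 : (s ^ a) ^ 3 = 1 := by
    rw [← pow_mul, ha', show M * a' * 3 = (M * 3) * a' from by ring, pow_mul, hFM, one_pow]
  have h2 := no_conf3' S hM hn rM hα h2m hm hI hF hx V L hVL hab hpow hL3 hxL hC
    (s := s ^ a) (pow_mem hs a) h1
  have h3 : (s : F ⧸ V) ^ a = s := by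
    apply ha
    rw [← QuotientGroup.mk_pow, QuotientGroup.eq_one_iff]
    exact hL3 s hs
  generalize x ^ 2 ^ (α - 1) = z at h2 ⊢
  rw [← QuotientGroup.eq_one_iff] at h2 ⊢
  have h4 : (z : F ⧸ V) * (s : F ⧸ V) ^ a * (z : F ⧸ V)⁻¹ * ((s : F ⧸ V) ^ a)⁻¹ = 1 := h2
  rw [h3] at h4
  exact h4

end Pool.Agent.TH69.Oh
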