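import Mathlib
import Pool.Agent.TH69.PqA
import Pool.Agent.TH69.PqD
import Pool.Agent.W629.Tw.Twelve
import Pool.Agent.W629.Tw.Mod

set_option autoImplicit false

/-!
# Groups of exponent `2 ^ a * q ^ b`, part A: involutions acting on normal `q`-subgroups
-/

namespace Pool.Agent.TH69.Ev

open Pool.Agent.H32BU Pool.Agent.W629 Pool.Agent.TH69.Mtn Pool.Agent.TH69.Pq
open scoped commutatorElement

/-- the exponent has only the prime divisors `2` and `q` -/
structure Ex2 (q n : ℕ) : Prop where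
  hq : q.Prime
  hq2 : q ≠ 2
  hn : qp 2 n * qp q n = n

namespace Ex2

variable {q n : ℕ} (E : Ex2 q n)

include E

theorem cop : Nat.Coprime (qp 2 n) (qp q n) := qp_coprime Nat.prime_two E.hq E.hq2.symm

theorem pos : 0 < n := by
  rw [← E.hn]
  exact Nat.mul_pos (pow_pos (by norm_num) _) (pow_pos E.hq.pos _)

theorem odd : ∃ m, qp q n = 2 * m + 1 :=
  (E.hq.odd_of_ne_two E.hq2).pow

theorem exp {G : Type} [Group G] (hG : ∀ x : G, x ^ n = 1) (x : G) :
    x ^ (qp 2 n * qp q n) = 1 := by rw [E.hn]; exact hG x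

/-- a square root inside the powers of a square -/
theorem half {G : Type} [Group G] {x : G} (hx : x ^ qp q n = 1) : ∃ m : ℕ, (x ^ 2) ^ m = x := by
  obtain ⟨m, hm⟩ := E.odd
  refine ⟨m + 1, ?_⟩
  rw [← pow_mul, show 2 * (m + 1) = qp q n + 1 by rw [hm]; ring, pow_succ, hx, one_mul]

theorem comm_of_sq {G : Type} [Group G] {x y : G} (hx : x ^ qp q n = 1)
    (h : x ^ 2 * y = y * x ^ 2) : x * y = y * x := by
  obtain ⟨m, hm⟩ := E.half hx
  have h1 : Commute (x ^ 2) y := h
  have h2 : Commute ((x ^ 2) ^ m) y := h1.pow_left m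
  rw [hm] at h2
  exact h2

theorem eq_of_sq {G : Type} [Group G] {x y : G} (hx : x ^ qp q n = 1) (hy : y ^ qp q n = 1)
    (h : x ^ 2 = y ^ 2) : x = y := by
  obtain ⟨m, hm⟩ := E.odd
  have e1 : (x ^ 2) ^ (m + 1) = x := by
    rw [← pow_mul, show 2 * (m + 1) = qp q n + 1 by rw [hm]; ring, pow_succ, hx, one_mul]
  have e2 : (y ^ 2) ^ (m + 1) = y := by
    rw [← pow_mul, show 2 * (m + 1) = qp q n + 1 by rw [hm]; ring, pow_succ, hy, one_mul]
  rw [← e1, ← e2, h]

theorem one_of_sq {G : Type} [Group G] {x : G} (hx : x ^ qp q n = 1) (h : x ^ 2 = 1) : x = 1 :=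
  E.eq_of_sq hx (one_pow _) (by rw [h, one_pow])

theorem two_pow {G : Type} [Group G] (hG : ∀ x : G, x ^ n = 1) {x : G} {j : ℕ}
    (h : x ^ 2 ^ j = 1) : x ^ qp 2 n = 1 :=
  pow_qp E.pos.ne' (hG x) Nat.prime_two ⟨j, h⟩

theorem two_sq {G : Type} [Group G] (hG : ∀ x : G, x ^ n = 1) {x : G} (h : x ^ 2 = 1) :
    x ^ qp 2 n = 1 := E.two_pow hG (j := 1) (by rwa [pow_one])

/-- an element of a subgroup detected by coprime powers -/
theorem mem_of_pow {G : Type} [Group G] (H : Subgroup G) {x : G} (h1 : x ^ qp 2 n ∈ H)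
    (h2 : x ^ qp q n ∈ H) : x ∈ H := by
  have h3 : (x ^ ((qp 2 n : ℤ) * Nat.gcdA (qp 2 n) (qp q n) +
      (qp q n : ℤ) * Nat.gcdB (qp 2 n) (qp q n))) = x := by
    rw [← Nat.gcd_eq_gcd_ab, E.cop]
    simp
  rw [← h3, zpow_add, zpow_mul, zpow_mul, zpow_natCast, zpow_natCast]
  exact mul_mem (zpow_mem h1 _) (zpow_mem h2 _)

end Ex2

section Ev

variable {Q : Type} [Group Q] {q n : ℕ} (E : Ex2 q n)

include E

/-- elements inverted by an involution commute with normal subgroups centralised by it -/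
theorem comm_fixed {e w g : Q} (he : e ^ 2 = 1) (hw : w ^ qp q n = 1) (hew : e * w * e = w⁻¹)
    (A : Subgroup Q) [hA : A.Normal] (hAe : ∀ x ∈ A, e * x = x * e) (hg : g ∈ A) :
    w * g = g * w := by
  have hee : e * e = 1 := by rw [← pow_two, he]
  have h1 : w⁻¹ * g * w ∈ A := by
    have := hA.conj_mem g hg w⁻¹
    rwa [inv_inv] at this
  have h2 := hAe _ h1
  have h3 := hAe _ hg
  have hew' : e * w⁻¹ * e = w := by
    rw [← hew]
    calc e * (e * w * e) * e = (e * e) * w * (e * e) := by group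
      _ = w := by rw [hee]; group
  have h4 : w * g * w⁻¹ = w⁻¹ * g * w := by
    calc w * g * w⁻¹ = (e * w⁻¹ * e) * g * (e * w * e) := by rw [hew, hew']
      _ = e * w⁻¹ * (e * g) * (e * w * e) := by group
      _ = e * w⁻¹ * (g * e) * (e * w * e) := by rw [h3]
      _ = e * w⁻¹ * g * (e * e) * w * e := by group
      _ = e * (w⁻¹ * g * w) * e := by rw [hee]; group
      _ = (w⁻¹ * g * w) * e * e := by rw [h2]
      _ = w⁻¹ * g * w * (e * e) := by group
      _ = w⁻¹ * g * w := by rw [hee, mul_one]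
  apply E.comm_of_sq hw
  calc w ^ 2 * g = w * (w * g * w⁻¹) * w := by rw [pow_two]; group
    _ = w * (w⁻¹ * g * w) * w := by rw [h4]
    _ = g * w ^ 2 := by rw [pow_two]; group

/-- the subgroup of `q`-elements -/
def Sq (β : ℕ) (hS : ∀ u v : Q, u ^ β = 1 → v ^ β = 1 → (u * v) ^ β = 1) : Subgroup Q where
  carrier := {u | u ^ β = 1}
  one_mem' := one_pow _
  mul_mem' := fun {u v} hu hv => hS u v hu hv
  inv_mem' := fun {u} hu => by
    change u⁻¹ ^ β = 1
    rw [inv_pow, hu, inv_one]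

omit E in
theorem Sq_normal (β : ℕ) (hS : ∀ u v : Q, u ^ β = 1 → v ^ β = 1 → (u * v) ^ β = 1) :
    (Sq β hS).Normal := ⟨fun _ hu _ => conj_pow_one hu⟩

/-- choice of an eigenvector -/
theorem ev (hS : ∀ u v : Q, u ^ qp q n = 1 → v ^ qp q n = 1 → (u * v) ^ qp q n = 1)
    (hsol : Group.IsSolvable Q) {e f : Q} (he : e ^ 2 = 1) (hf : f ^ 2 = 1) (hef : e * f = f * e)
    (hne : ∃ u : Q, u ^ qp q n = 1 ∧ e * u ≠ u * e) :
    ∃ r : Q, r ^ qp q n = 1 ∧ r ≠ 1 ∧ e * r * e = r⁻¹ ∧ (f * r = r * f ∨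
      (e * f) * r = r * (e * f)) := by
  classical
  have hee : e * e = 1 := by rw [← pow_two, he]
  have hff : f * f = 1 := by rw [← pow_two, hf]
  obtain ⟨S, hSd⟩ : ∃ S, S = Sq (qp q n) hS := ⟨_, rfl⟩
  have hSm : ∀ u, u ∈ S ↔ u ^ qp q n = 1 := fun u => by rw [hSd]; rfl
  have hSn : S.Normal := by rw [hSd]; exact Sq_normal _ hS
  -- the term of the series
  have hex : ∃ j, ∀ x ∈ dser S j, e * x = x * e := by
    obtain ⟨N, hN⟩ := hsol.solvable
    refine ⟨N, fun x hx => ?_⟩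
    have h1 := dser_le S N hx
    rw [hN, Subgroup.mem_bot] at h1
    rw [h1, mul_one, one_mul]
  have hspec := Nat.find_spec hex
  have hmin := fun j (hj : j < Nat.find hex) => Nat.find_min hex hj
  have hpos : Nat.find hex ≠ 0 := by
    intro h0
    rw [h0] at hspec
    obtain ⟨u, hu, hu'⟩ := hne
    exact hu' (hspec u ((hSm u).2 hu))
  obtain ⟨k, hk⟩ := Nat.exists_eq_succ_of_ne_zero hpos
  rw [hk] at hspec
  have hk' := hmin k (by rw [hk]; exact Nat.lt_succ_self k)
  push Not at hk'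
  obtain ⟨x, hx, hxe⟩ := hk'
  have hAn : (dser S k).Normal := dser_normal S k
  have hA'n : (dser S (k + 1)).Normal := dser_normal S (k + 1)
  have hAS : ∀ y ∈ dser S k, y ^ qp q n = 1 := fun y hy => (hSm y).1 (dser_le_self S k hy)
  have hconj : ∀ g : Q, g * g = 1 → ∀ y ∈ dser S k, g * y * g ∈ dser S k := by
    intro g hg y hy
    have h1 := hAn.conj_mem y hy g
    rwa [show g⁻¹ = g from (eq_inv_of_mul_eq_one_left hg).symm] at h1
  -- the element `v`
  obtain ⟨v, hv⟩ : ∃ v, v = x⁻¹ * (e * x * e) := ⟨_, rfl⟩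
  have hvA : v ∈ dser S k := by rw [hv]; exact mul_mem (inv_mem hx) (hconj e hee x hx)
  have hv1 : v ≠ 1 := by
    intro h
    apply hxe
    rw [hv, inv_mul_eq_one] at h
    calc e * x = e * x * (e * e) := by rw [hee, mul_one]
      _ = (e * x * e) * e := by group
      _ = x * e := by rw [← h]
  have hve : e * v * e = v⁻¹ := by
    rw [hv]
    calc e * (x⁻¹ * (e * x * e)) * e = e * x⁻¹ * e * x * (e * e) := by group
      _ = e * x⁻¹ * e * x := by rw [hee, mul_one]
      _ = (x⁻¹ * (e⁻¹ * x * e⁻¹))⁻¹ := by group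
      _ = (x⁻¹ * (e * x * e))⁻¹ := by
        rw [show e⁻¹ = e from (eq_inv_of_mul_eq_one_left hee).symm]
  obtain ⟨w, hw⟩ : ∃ w, w = f * v * f := ⟨_, rfl⟩
  have hwA : w ∈ dser S k := by rw [hw]; exact hconj f hff v hvA
  have hwe : e * w * e = w⁻¹ := by
    rw [hw]
    calc e * (f * v * f) * e = (e * f) * v * (f * e) := by group
      _ = (f * e) * v * (e * f) := by rw [hef]
      _ = f * (e * v * e) * f := by group
      _ = f * v⁻¹ * f := by rw [hve]
      _ = (f⁻¹ * v * f⁻¹)⁻¹ := by group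
      _ = (f * v * f)⁻¹ := by
        rw [show f⁻¹ = f from (eq_inv_of_mul_eq_one_left hff).symm]
  have hfw : f * w * f = v := by
    rw [hw]
    calc f * (f * v * f) * f = (f * f) * v * (f * f) := by group
      _ = v := by rw [hff]; group
  obtain ⟨c, hc⟩ : ∃ c, c = v⁻¹ * w⁻¹ * v * w := ⟨_, rfl⟩
  have hcA : c ∈ dser S (k + 1) := by
    have h1 : ⁅v⁻¹, w⁻¹⁆ ∈ dser S (k + 1) :=
      Subgroup.commutator_mem_commutator (inv_mem hvA) (inv_mem hwA)
    rw [commutatorElement_def, inv_inv, inv_inv] at h1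
    rw [hc]
    exact h1
  have hvc : v * c = c * v := comm_fixed E he (hAS v hvA) hve (dser S (k + 1)) hspec hcA
  have hwc : w * c = c * w := comm_fixed E he (hAS w hwA) hwe (dser S (k + 1)) hspec hcA
  have hec := hspec c hcA
  have hcS : c ^ qp q n = 1 := (hSm c).1 (dser_le_self S (k + 1) hcA)
  have hfc : f * c * f = c⁻¹ := by
    calc f * c * f = f * v⁻¹ * w⁻¹ * v * w * f := by rw [hc]; group
      _ = (f * v⁻¹ * f⁻¹) * (f * w⁻¹ * f⁻¹) * (f * v * f⁻¹) * (f * w * f) := by group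
      _ = (f⁻¹ * v⁻¹ * f⁻¹) * (f⁻¹ * w⁻¹ * f⁻¹) * (f * v * f) * (f * w * f) := by
        rw [show f⁻¹ = f from (eq_inv_of_mul_eq_one_left hff).symm]
      _ = (f * v * f)⁻¹ * (f * w * f)⁻¹ * (f * v * f) * (f * w * f) := by group
      _ = w⁻¹ * v⁻¹ * w * v := by rw [hfw, ← hw]
      _ = c⁻¹ := by rw [hc]; group
  have hvw : v * w = w * v * c := by rw [hc]; group
  obtain ⟨m, hm⟩ := E.odd
  have hcm : c ^ m * c ^ (m + 1) = 1 := by
    rw [← pow_add, show m + (m + 1) = 2 * m + 1 by ring, ← hm, hcS]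
  have hCv : Commute v c := hvc
  have hCw : Commute w c := hwc
  have hCe : Commute e c := hec
  by_cases hr : v * w * c ^ m = 1
  · refine ⟨v, hAS v hvA, hv1, hve, Or.inr ?_⟩
    have h1 : w = v⁻¹ * (c ^ m)⁻¹ := by
      calc w = v⁻¹ * (v * w * c ^ m) * (c ^ m)⁻¹ := by group
        _ = v⁻¹ * (c ^ m)⁻¹ := by rw [hr, mul_one]
    have h2 : Commute v w := by
      rw [h1]
      exact (Commute.refl v).inv_right.mul_right (hCv.pow_right m).inv_right
    have h3 : c = 1 := by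
      rw [hc]
      have h4 : v * w = w * v := h2
      calc v⁻¹ * w⁻¹ * v * w = v⁻¹ * w⁻¹ * (v * w) := by group
        _ = v⁻¹ * w⁻¹ * (w * v) := by rw [h4]
        _ = 1 := by group
    rw [h3, one_pow, inv_one, mul_one] at h1
    -- `f v f = v⁻¹`
    rw [hw] at h1
    have h5 : (e * f) * v * (e * f)⁻¹ = v := by
      have hff' : f⁻¹ = f := (eq_inv_of_mul_eq_one_left hff).symm
      have hee' : e⁻¹ = e := (eq_inv_of_mul_eq_one_left hee).symm
      calc (e * f) * v * (e * f)⁻¹ = e * (f * v * f⁻¹) * e⁻¹ := by group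
        _ = e * (f * v * f) * e := by rw [hff', hee']
        _ = e * v⁻¹ * e := by rw [h1]
        _ = (e⁻¹ * v * e⁻¹)⁻¹ := by group
        _ = (e * v * e)⁻¹ := by rw [hee']
        _ = v := by rw [hve, inv_inv]
    rw [mul_inv_eq_iff_eq_mul] at h5
    exact h5
  · refine ⟨v * w * c ^ m, ?_, hr, ?_, Or.inl ?_⟩
    · exact hAS _ (mul_mem (mul_mem hvA hwA) (pow_mem
        ((Subgroup.commutator_le_left (dser S k) (dser S k)) hcA) m))
    · have h1 : e * (c ^ m) * e = c ^ m := by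
        rw [(hCe.pow_right m).eq, mul_assoc, hee, mul_one]
      calc e * (v * w * c ^ m) * e = e * v * (e * e) * w * (e * e) * c ^ m * e := by
            rw [hee]; group
        _ = (e * v * e) * (e * w * e) * (e * c ^ m * e) := by group
        _ = v⁻¹ * w⁻¹ * c ^ m := by rw [hve, hwe, h1]
        _ = (w * v)⁻¹ * c ^ m := by group
        _ = (v * w * c⁻¹)⁻¹ * c ^ m := by rw [hvw]; group
        _ = c * (v * w)⁻¹ * c ^ m := by group
        _ = (v * w)⁻¹ * c * c ^ m := by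
          rw [((hCv.mul_left hCw).inv_left).eq]
        _ = (v * w)⁻¹ * c ^ (m + 1) := by rw [pow_succ']; group
        _ = (v * w)⁻¹ * (c ^ m)⁻¹ := by
          rw [show c ^ (m + 1) = (c ^ m)⁻¹ from eq_inv_of_mul_eq_one_right hcm]
        _ = (c ^ m)⁻¹ * (v * w)⁻¹ := by
          rw [(((hCv.mul_left hCw).pow_right m).inv_left.inv_right).eq]
        _ = (v * w * c ^ m)⁻¹ := by group
    · have h1 : f * (c ^ m) * f = (c ^ m)⁻¹ := by
        have hff' : f⁻¹ = f := (eq_inv_of_mul_eq_one_left hff).symm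
        calc f * c ^ m * f = f * c ^ m * f⁻¹ := by rw [hff']
          _ = (f * c * f⁻¹) ^ m := conj_pow.symm
          _ = (f * c * f) ^ m := by rw [hff']
          _ = (c ^ m)⁻¹ := by rw [hfc, inv_pow]
      have h2 : f * (v * w * c ^ m) * f = v * w * c ^ m := by
        calc f * (v * w * c ^ m) * f = f * v * (f * f) * w * (f * f) * c ^ m * f := by
              rw [hff]; group
          _ = (f * v * f) * (f * w * f) * (f * c ^ m * f) := by group
          _ = w * v * (c ^ m)⁻¹ := by rw [← hw, hfw, h1]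
          _ = w * v * c ^ (m + 1) := by
            rw [show c ^ (m + 1) = (c ^ m)⁻¹ from eq_inv_of_mul_eq_one_right hcm]
          _ = w * v * c * c ^ m := by rw [pow_succ']; group
          _ = v * w * c ^ m := by rw [← hvw]
      calc f * (v * w * c ^ m) = f * (v * w * c ^ m) * (f * f) := by rw [hff, mul_one]
        _ = (f * (v * w * c ^ m) * f) * f := by group
        _ = v * w * c ^ m * f := by rw [h2]

end Ev

end Pool.Agent.TH69.Ev
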