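import Mathlib
import Pool.Agent.TH69.EvA

set_option autoImplicit false

/-!
# Groups of exponent `2 ^ a * q ^ b`, part B: the quotient by the largest normal `2`-subgroup
-/

namespace Pool.Agent.TH69.Ev

open Pool.Agent.H32BU Pool.Agent.W629 Pool.Agent.TH69.Mtn Pool.Agent.TH69.Pq
open scoped commutatorElement

/-- products of `q`-elements are `q`-elements modulo `O_2` -/
def QL (q n : ℕ) (F : Type) [Group F] : Prop :=
  ∀ x y : F, x ^ qp q n = 1 → y ^ qp q n = 1 → (x * y) ^ qp q n ∈ Rad (qp 2 n) F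

theorem exists_order_q {F : Type} [Group F] {q n : ℕ} (E : Ex2 q n) {r : F}
    (hr : r ^ qp q n = 1) (h1 : r ≠ 1) : ∃ j : ℕ, (r ^ j) ^ q = 1 ∧ r ^ j ≠ 1 := by
  have h2 : orderOf r ∣ q ^ n.factorization q := orderOf_dvd_of_pow_eq_one hr
  obtain ⟨i, hi, e⟩ := (Nat.dvd_prime_pow E.hq).1 h2
  have hi0 : i ≠ 0 := by
    rintro rfl
    rw [pow_zero] at e
    exact h1 (orderOf_eq_one_iff.1 e)
  obtain ⟨j, rfl⟩ := Nat.exists_eq_succ_of_ne_zero hi0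
  refine ⟨q ^ j, ?_, ?_⟩
  · rw [← pow_mul, ← pow_succ, ← e, pow_orderOf_eq_one]
  · intro h3
    have h4 := orderOf_dvd_of_pow_eq_one h3
    rw [e] at h4
    have := (Nat.pow_dvd_pow_iff_le_right E.hq.one_lt).1 h4
    omega

section

variable {F : Type} [Group F] {q n : ℕ} (E : Ex2 q n) (hF : ∀ x : F, x ^ n = 1)

theorem mk_pow {x : F} {k : ℕ} (h : x ^ k = 1) : (x : F ⧸ Rad (qp 2 n) F) ^ k = 1 := by
  rw [← QuotientGroup.mk_pow, h]
  rfl

theorem mk_comm {x y : F} (h : x * y = y * x) :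
    (x : F ⧸ Rad (qp 2 n) F) * y = y * x := by
  rw [← QuotientGroup.mk_mul, h, QuotientGroup.mk_mul]

include E in
theorem mk_eq_one_of {x : F} (h1 : x ^ qp 2 n = 1)
    (h2 : (x : F ⧸ Rad (qp 2 n) F) ^ qp q n = 1) : x ∈ Rad (qp 2 n) F := by
  rw [← QuotientGroup.eq_one_iff]
  exact W629.eq_one_of_coprime E.cop (mk_pow h1) h2

include E hF

theorem solvF [Finite F] : Group.IsSolvable F := by
  refine solv_of_exp 2 q (n.factorization 2) (n.factorization q) Nat.prime_two E.hq fun x => ?_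
  have h : 2 ^ n.factorization 2 * q ^ n.factorization q = n := E.hn
  rw [h]
  exact hF x

theorem lift_q (u : F ⧸ Rad (qp 2 n) F) (hu : u ^ qp q n = 1) :
    ∃ x : F, x ^ qp q n = 1 ∧ (x : F ⧸ Rad (qp 2 n) F) = u := by
  obtain ⟨w, rfl⟩ := QuotientGroup.mk_surjective u
  obtain ⟨y, -, h1, h2⟩ := lift_elt E.cop.symm
    (fun x => by rw [mul_comm, E.hn]; exact hF x : ∀ x : F, x ^ (qp q n * qp 2 n) = 1)
    (Rad (qp 2 n) F) ⊤ hu w (Subgroup.mem_top _) rfl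
  exact ⟨y, h1, h2⟩

theorem qmul (ql : QL q n F) (u v : F ⧸ Rad (qp 2 n) F) (hu : u ^ qp q n = 1)
    (hv : v ^ qp q n = 1) : (u * v) ^ qp q n = 1 := by
  obtain ⟨x, hx, rfl⟩ := lift_q E hF u hu
  obtain ⟨y, hy, rfl⟩ := lift_q E hF v hv
  rw [← QuotientGroup.mk_mul, ← QuotientGroup.mk_pow, QuotientGroup.eq_one_iff]
  exact ql x y hx hy

theorem mem_R [Finite F] {x : F} (hx : x ^ qp 2 n = 1)
    (h : ∀ u : F ⧸ Rad (qp 2 n) F, u ^ qp q n = 1 → (x : F ⧸ Rad (qp 2 n) F) * u = u * x) :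
    x ∈ Rad (qp 2 n) F :=
  Tw.mem_rad_of E.cop (E.exp hF) (solvF E hF) hx fun u hu => h u (rad_pow hu)

/-- exact lifts of elements inverted by an involution -/
theorem li {c : F} (hc : c ^ 2 = 1) {r : F ⧸ Rad (qp 2 n) F} (hr : r ^ qp q n = 1)
    (hcr : (c : F ⧸ Rad (qp 2 n) F) * r * c = r⁻¹) :
    ∃ x : F, x ^ qp q n = 1 ∧ c * x * c = x⁻¹ ∧ (x : F ⧸ Rad (qp 2 n) F) = r := by
  have hcc : c * c = 1 := by rw [← pow_two, hc]
  have hc' : c⁻¹ = c := (eq_inv_of_mul_eq_one_left hcc).symm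
  obtain ⟨w, rfl⟩ := QuotientGroup.mk_surjective r
  obtain ⟨m0, hm0⟩ := E.odd
  obtain ⟨m, hm1, hm2⟩ := Nat.chineseRemainder E.cop 0 m0
  obtain ⟨v, hv⟩ : ∃ v, v = w⁻¹ * (c * w * c) := ⟨_, rfl⟩
  have hvc : c * v * c = v⁻¹ := by
    rw [hv]
    calc c * (w⁻¹ * (c * w * c)) * c = c * w⁻¹ * c * w * (c * c) := by group
      _ = c * w⁻¹ * c * w := by rw [hcc, mul_one]
      _ = (w⁻¹ * (c⁻¹ * w * c⁻¹))⁻¹ := by group
      _ = (w⁻¹ * (c * w * c))⁻¹ := by rw [hc']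
  refine ⟨v ^ m, ?_, ?_, ?_⟩
  · obtain ⟨j, hj⟩ := (Nat.modEq_zero_iff_dvd).1 hm1
    rw [← pow_mul, hj, show qp 2 n * j * qp q n = (qp 2 n * qp q n) * j by ring, E.hn, pow_mul,
      hF, one_pow]
  · calc c * v ^ m * c = c * v ^ m * c⁻¹ := by rw [hc']
      _ = (c * v * c⁻¹) ^ m := conj_pow.symm
      _ = (c * v * c) ^ m := by rw [hc']
      _ = (v ^ m)⁻¹ := by rw [hvc, inv_pow]
  · have h1 : (v : F ⧸ Rad (qp 2 n) F) = ((w : F ⧸ Rad (qp 2 n) F)⁻¹) ^ 2 := by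
      rw [hv, QuotientGroup.mk_mul, QuotientGroup.mk_mul, QuotientGroup.mk_mul,
        QuotientGroup.mk_inv, hcr, pow_two]
    rw [QuotientGroup.mk_pow, h1, ← pow_mul]
    have h2 : ((w : F ⧸ Rad (qp 2 n) F)⁻¹) ^ (2 * m) = ((w : F ⧸ Rad (qp 2 n) F)⁻¹) ^ (2 * m0) := by
      rw [pow_eq_pow_iff_modEq]
      refine (hm2.mul_left 2).of_dvd (orderOf_dvd_of_pow_eq_one ?_)
      rw [inv_pow, hr, inv_one]
    rw [h2]
    have h3 : ((w : F ⧸ Rad (qp 2 n) F)⁻¹) ^ (2 * m0 + 1) = 1 := by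
      rw [← hm0, inv_pow, hr, inv_one]
    rw [pow_succ, mul_inv_eq_one] at h3
    exact h3

theorem mk_of_closure (ql : QL q n F) {x : F} (hx : x ∈ Subgroup.closure {y : F | y ^ qp q n = 1}) :
    (x : F ⧸ Rad (qp 2 n) F) ^ qp q n = 1 := by
  have h1 : Subgroup.closure {y : F | y ^ qp q n = 1} ≤
      (Sq (qp q n) (qmul E hF ql)).comap (QuotientGroup.mk' (Rad (qp 2 n) F)) := by
    rw [Subgroup.closure_le]
    intro y hy
    exact mk_pow hy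
  exact h1 hx

theorem two_of_closure (ql : QL q n F) {x : F}
    (hx : x ∈ Subgroup.closure {y : F | y ^ qp q n = 1}) (h2 : x ^ qp 2 n = 1) :
    x ∈ Rad (qp 2 n) F := mk_eq_one_of E h2 (mk_of_closure E hF ql hx)

end

end Pool.Agent.TH69.Ev
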