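import Mathlib
import Pool.Agent.TH69.EvB

set_option autoImplicit false

/-!
# Groups of exponent `2 ^ a * q ^ b`, part C: operators
-/

namespace Pool.Agent.TH69.Ev

open Pool.Agent.H32BU Pool.Agent.W629 Pool.Agent.TH69.Mtn Pool.Agent.TH69.Pq
open scoped commutatorElement

section Ring

variable {A : Type} [Ring A]

/-- the commutator with an operator of prime order without fixed points is trivial -/
theorem ring_center {q : ℕ} (hq : q.Prime) {S Z : A} {H : Aˣ}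
    (hS : ∑ i ∈ Finset.range q, S ^ i = 0)
    (hZ : Z ^ q = 1) (hSZ : Commute S Z) (hHZ : Commute (H : A) Z)
    (hrel : (↑H⁻¹ : A) * S * H = S * Z) : (q : A) * (Z - 1) = 0 := by
  have hj : ∀ j : ℕ, (↑(H ^ j)⁻¹ : A) * S * ↑(H ^ j) = S * Z ^ j := by
    intro j
    induction j with
    | zero => simp
    | succ j ih =>
      have e0 : (H ^ (j + 1) : Aˣ) = H ^ j * H := pow_succ H j
      have e1 : (↑(H ^ (j + 1))⁻¹ : A) * S * ↑(H ^ (j + 1)) =
          ↑H⁻¹ * ((↑(H ^ j)⁻¹ : A) * S * ↑(H ^ j)) * H := by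
        rw [e0, mul_inv_rev, Units.val_mul, Units.val_mul]
        noncomm_ring
      have e2 : (↑H⁻¹ : A) * (S * Z ^ j) * H = (↑H⁻¹ * S * H) * Z ^ j := by
        rw [mul_assoc, mul_assoc, ← (hHZ.pow_right j).eq]
        noncomm_ring
      rw [e1, ih, e2, hrel, mul_assoc, ← pow_succ']
  have hsum : ∀ j : ℕ, ∑ i ∈ Finset.range q, S ^ i * (Z ^ i) ^ j = 0 := by
    intro j
    have h1 : ∑ i ∈ Finset.range q, S ^ i * (Z ^ i) ^ j =
        (↑(H ^ j)⁻¹ : A) * (∑ i ∈ Finset.range q, S ^ i) * ↑(H ^ j) := by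
      rw [Finset.mul_sum, Finset.sum_mul]
      refine Finset.sum_congr rfl fun i _ => ?_
      rw [← Units.conj_pow', hj, (hSZ.pow_right j).mul_pow, ← pow_mul, ← pow_mul, mul_comm i j]
    rw [h1, hS, mul_zero, zero_mul]
  have hdouble : ∑ i ∈ Finset.range q, S ^ i * ∑ j ∈ Finset.range q, (Z ^ i) ^ j = 0 := by
    have h1 : ∑ j ∈ Finset.range q, ∑ i ∈ Finset.range q, S ^ i * (Z ^ i) ^ j = 0 :=
      Finset.sum_eq_zero fun j _ => hsum j
    rw [Finset.sum_comm] at h1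
    rw [← h1]
    exact Finset.sum_congr rfl fun i _ => Finset.mul_sum _ _ _
  have hν : ∀ i ∈ Finset.range q, i ≠ 0 →
      (∑ j ∈ Finset.range q, (Z ^ i) ^ j) * (Z - 1) = 0 := by
    intro i hi hi0
    have hiq := Finset.mem_range.1 hi
    have h1 : (∑ j ∈ Finset.range q, (Z ^ i) ^ j) * (Z ^ i - 1) = 0 := by
      rw [geom_sum_mul, ← pow_mul, mul_comm, pow_mul, hZ, one_pow, sub_self]
    have hco : Nat.Coprime i q := by
      rw [Nat.coprime_comm, Nat.Prime.coprime_iff_not_dvd hq]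
      intro h
      have := Nat.le_of_dvd (by omega) h
      omega
    obtain ⟨i', hi'⟩ := Nat.exists_mul_mod_eq_one_of_coprime hco hq.one_lt
    have h2 : (Z ^ i) ^ i' = Z := by
      rw [← pow_mul, ← Nat.div_add_mod (i * i') q, hi'.2, pow_add, pow_mul, hZ, one_pow, one_mul,
        pow_one]
    have h3 : ∀ l : ℕ, (∑ j ∈ Finset.range q, (Z ^ i) ^ j) * (Z ^ i) ^ l =
        ∑ j ∈ Finset.range q, (Z ^ i) ^ j := by
      intro l
      induction l with
      | zero => simp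
      | succ l ih =>
        rw [pow_succ, ← mul_assoc, ih]
        rw [mul_sub, mul_one, sub_eq_zero] at h1
        exact h1
    rw [mul_sub, mul_one, sub_eq_zero]
    have h4 := h3 i'
    rwa [h2] at h4
  have h5 : (∑ i ∈ Finset.range q, S ^ i * ∑ j ∈ Finset.range q, (Z ^ i) ^ j) * (Z - 1) =
      (q : A) * (Z - 1) := by
    rw [Finset.sum_mul, Finset.sum_eq_single_of_mem 0 (Finset.mem_range.2 hq.pos)]
    · simp
    · intro i hi hi0
      rw [mul_assoc, hν i hi hi0, mul_zero]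
  rw [← h5, hdouble, zero_mul]

/-- the operator `1 - κ` vanishes -/
theorem ring_norm {q N : ℕ} (hN : 0 < N) {S θ : Aˣ} {κ : A}
    (hκ : Commute κ (S : A)) (hc : ∀ j < N, Commute S (θ ^ j * S * (θ ^ j)⁻¹))
    (hE : ∀ j < N, 0 < j →
      ∑ i ∈ Finset.range q, ((S⁻¹ * (θ ^ j * S * (θ ^ j)⁻¹) : Aˣ) : A) ^ i = 0)
    (h : (∑ j ∈ Finset.range N, (θ : A) ^ j) * (1 - κ) = 0) : (q : A) * (1 - κ) = 0 := by
  have h1 : ∀ i : ℕ, ∑ j ∈ Finset.range N,
      ((S⁻¹ * (θ ^ j * S * (θ ^ j)⁻¹) : Aˣ) : A) ^ i * (θ : A) ^ j * (1 - κ) = 0 := by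
    intro i
    have e1 : ∀ j ∈ Finset.range N,
        ((S⁻¹ * (θ ^ j * S * (θ ^ j)⁻¹) : Aˣ) : A) ^ i * (θ : A) ^ j * (1 - κ) =
        (↑(S ^ i)⁻¹ : A) * ((θ : A) ^ j * (1 - κ)) * ↑(S ^ i) := by
      intro j hj
      have hcj := hc j (Finset.mem_range.1 hj)
      have e2 : ((S⁻¹ * (θ ^ j * S * (θ ^ j)⁻¹) : Aˣ)) ^ i * θ ^ j = (S ^ i)⁻¹ * θ ^ j * S ^ i := by
        rw [hcj.inv_left.mul_pow, conj_pow, inv_pow]
        group
      have e3 : ((S⁻¹ * (θ ^ j * S * (θ ^ j)⁻¹) : Aˣ) : A) ^ i * (θ : A) ^ j =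
          (↑(S ^ i)⁻¹ : A) * (θ : A) ^ j * ↑(S ^ i) := by
        have := congrArg Units.val e2
        simpa only [Units.val_mul, Units.val_pow_eq_pow_val] using this
      have e4 : Commute (1 - κ) (↑(S ^ i) : A) := by
        rw [Units.val_pow_eq_pow_val]
        exact ((Commute.one_left _).sub_left hκ).pow_right i
      rw [e3, mul_assoc, ← e4.eq]
      noncomm_ring
    rw [Finset.sum_congr rfl e1, ← Finset.sum_mul, ← Finset.mul_sum, ← Finset.sum_mul, h]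
    simp
  have h2 : ∑ j ∈ Finset.range N, (∑ i ∈ Finset.range q,
      ((S⁻¹ * (θ ^ j * S * (θ ^ j)⁻¹) : Aˣ) : A) ^ i) * (θ : A) ^ j * (1 - κ) = 0 := by
    have h3 : ∑ i ∈ Finset.range q, ∑ j ∈ Finset.range N,
        ((S⁻¹ * (θ ^ j * S * (θ ^ j)⁻¹) : Aˣ) : A) ^ i * (θ : A) ^ j * (1 - κ) = 0 :=
      Finset.sum_eq_zero fun i _ => h1 i
    rw [Finset.sum_comm] at h3
    rw [← h3]
    refine Finset.sum_congr rfl fun j _ => ?_
    rw [Finset.sum_mul, Finset.sum_mul]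
  rw [Finset.sum_eq_single_of_mem 0 (Finset.mem_range.2 hN)] at h2
  · simpa using h2
  · intro j hj hj0
    rw [hE j (Finset.mem_range.1 hj) (Nat.pos_of_ne_zero hj0), zero_mul, zero_mul]

end Ring

/-- an abelian quotient of a normal subgroup as a module -/
structure Md {F : Type} [Group F] (R : Subgroup F) (M : Type) [AddCommGroup M]
    (A : F →* AddMonoid.End M) (π : R → M) : Prop where
  sur : Function.Surjective π
  add : ∀ x y : R, π (x * y) = π x + π y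
  act : ∀ (f : F) (n n' : R), (n' : F) = f * n * f⁻¹ → π n' = A f (π n)
  ker : ∀ n : R, π n = 0 ↔ (n : F) ∈ ⁅R, R⁆

theorem exists_md {F : Type} [Group F] (R : Subgroup F) [R.Normal] :
    ∃ (M : Type) (_ : AddCommGroup M) (A : F →* AddMonoid.End M) (π : R → M), Md R M A π := by
  have : (⁅R, R⁆ : Subgroup F).Normal := Subgroup.commutator_normal R R
  obtain ⟨M, i, A, π, h1, h2, h3, h4⟩ := Tw.exists_module R ⁅R, R⁆ le_rfl
  exact ⟨M, i, A, π, h1, h2, h3, h4⟩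

namespace Md

variable {F : Type} [Group F] {R : Subgroup F} [hR : R.Normal] {M : Type} [AddCommGroup M]
  {A : F →* AddMonoid.End M} {π : R → M} (D : Md R M A π)

include D

omit hR in
theorem map_one : π 1 = 0 := by
  rw [D.ker]
  exact one_mem _

omit hR in
theorem map_inv (x : R) : π x⁻¹ = -π x := by
  have h := D.add x x⁻¹
  rw [mul_inv_cancel, D.map_one] at h
  exact (neg_eq_of_add_eq_zero_right h.symm).symm

omit hR in
theorem map_pow (x : R) (k : ℕ) : π (x ^ k) = k • π x := by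
  induction k with
  | zero => rw [pow_zero, D.map_one, zero_smul]
  | succ k ih => rw [pow_succ, D.add, ih, add_smul, one_smul]

theorem triv {x : F} (hx : x ∈ R) : A x = 1 := by
  ext m
  obtain ⟨y, rfl⟩ := D.sur m
  have h1 := D.act x y ⟨x * y * x⁻¹, hR.conj_mem y y.2 x⟩ rfl
  have h2 : (⟨x * y * x⁻¹, hR.conj_mem y y.2 x⟩ : R) = ⟨x, hx⟩ * y * (⟨x, hx⟩ : R)⁻¹ := rfl
  rw [← h1, h2, D.add, D.add, D.map_inv]
  simp

theorem eq_of_mk {x y : F} (h : (x : F ⧸ R) = y) : A x = A y := by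
  rw [QuotientGroup.eq] at h
  have h1 := D.triv h
  have h2 : y = x * (x⁻¹ * y) := by group
  rw [h2, _root_.map_mul, h1, mul_one]

theorem fpf [Finite R] {s : F} (hs : ∀ τ ∈ R, τ * s = s * τ → τ = 1) :
    Function.Injective (A s - 1 : AddMonoid.End M) := by
  have : Finite M := Finite.of_surjective π D.sur
  rw [Finite.injective_iff_surjective]
  let φ : R → R := fun x => x⁻¹ * ⟨s * x * s⁻¹, hR.conj_mem x x.2 s⟩
  have hφ : Function.Injective φ := by
    intro x y hxy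
    have h1 : (x : F)⁻¹ * (s * x * s⁻¹) = (y : F)⁻¹ * (s * y * s⁻¹) := congrArg Subtype.val hxy
    have h2 : ((y : F) * (x : F)⁻¹) * s = s * ((y : F) * (x : F)⁻¹) := by
      calc ((y : F) * (x : F)⁻¹) * s = y * ((x : F)⁻¹ * (s * x * s⁻¹)) * s * (x : F)⁻¹ := by group
        _ = y * ((y : F)⁻¹ * (s * y * s⁻¹)) * s * (x : F)⁻¹ := by rw [h1]
        _ = s * ((y : F) * (x : F)⁻¹) := by group
    have h3 := hs _ (mul_mem y.2 (inv_mem x.2)) h2
    rw [mul_inv_eq_one] at h3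
    exact Subtype.ext h3.symm
  have hφs : Function.Surjective φ := Finite.injective_iff_surjective.1 hφ
  intro m
  obtain ⟨y, rfl⟩ := D.sur m
  obtain ⟨x, rfl⟩ := hφs y
  refine ⟨π x, ?_⟩
  change A s (π x) - π x = π (x⁻¹ * _)
  rw [D.add, D.map_inv, D.act s x ⟨s * x * s⁻¹, hR.conj_mem x x.2 s⟩ rfl]
  abel

theorem norm [Finite R] {s : F} (hs : ∀ τ ∈ R, τ * s = s * τ → τ = 1) {k : ℕ}
    (hk : (A s) ^ k = 1) : ∑ i ∈ Finset.range k, (A s) ^ i = 0 := by
  have h1 : (A s - 1) * ∑ i ∈ Finset.range k, (A s) ^ i = 0 := by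
    rw [mul_geom_sum, hk, sub_self]
  ext m
  apply D.fpf hs
  have h2 := congrArg (fun Z : AddMonoid.End M => Z m) h1
  change (A s - 1) ((∑ i ∈ Finset.range k, (A s) ^ i) m) = 0 at h2
  rw [h2]
  change (0 : M) = A s 0 - 0
  rw [_root_.map_zero, sub_zero]

omit hR in
theorem tors {α k : ℕ} (hα : ∀ x ∈ R, x ^ α = 1) (hk : Nat.Coprime α k) {m : M}
    (h : k • m = 0) : m = 0 := by
  have h1 : α • m = 0 := by
    obtain ⟨y, rfl⟩ := D.sur m
    rw [← D.map_pow]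
    have : y ^ α = 1 := Subtype.ext (hα y y.2)
    rw [this, D.map_one]
  have h2 := addOrderOf_dvd_of_nsmul_eq_zero h
  have h3 := addOrderOf_dvd_of_nsmul_eq_zero h1
  have h4 := Nat.dvd_gcd h3 h2
  rw [hk, Nat.dvd_one] at h4
  exact AddMonoid.addOrderOf_eq_one_iff.1 h4

omit hR in
theorem op_tors {α k : ℕ} (hα : ∀ x ∈ R, x ^ α = 1) (hk : Nat.Coprime α k)
    {X : AddMonoid.End M} (h : (k : AddMonoid.End M) * X = 0) : X = 0 := by
  ext m
  apply D.tors hα hk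
  have h1 := congrArg (fun Z : AddMonoid.End M => Z m) h
  change (k : AddMonoid.End M) (X m) = 0 at h1
  rw [AddMonoid.End.natCast_apply] at h1
  exact h1

omit hR in
/-- the powers of a product -/
theorem prod (g μ : F) (hμ : μ ∈ R) (hg : ∀ x ∈ R, g * x * g⁻¹ ∈ R) : ∀ j : ℕ, ∃ ν : R,
    (μ * g) ^ j = ν * g ^ j ∧ π ν = (∑ i ∈ Finset.range j, (A g) ^ i) (π ⟨μ, hμ⟩) := by
  intro j
  induction j with
  | zero =>
    refine ⟨1, by simp, ?_⟩
    rw [Finset.sum_range_zero, D.map_one]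
    rfl
  | succ j ih =>
    obtain ⟨ν, h1, h2⟩ := ih
    refine ⟨⟨μ, hμ⟩ * ⟨g * ν * g⁻¹, hg ν ν.2⟩, ?_, ?_⟩
    · rw [pow_succ', h1, pow_succ' g]
      change _ = μ * (g * (ν : F) * g⁻¹) * (g * g ^ j)
      group
    · rw [D.add, D.act g ν ⟨g * ν * g⁻¹, hg ν ν.2⟩ rfl, h2, Finset.sum_range_succ', pow_zero]
      rw [add_comm]
      congr 1
      have h3 : A g * ∑ i ∈ Finset.range j, (A g) ^ i = ∑ i ∈ Finset.range j, (A g) ^ (i + 1) := by
        rw [Finset.mul_sum]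
        exact Finset.sum_congr rfl fun i _ => (pow_succ' _ _).symm
      rw [← h3]
      rfl

end Md

end Pool.Agent.TH69.Ev
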