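import Mathlib
import Pool.Agent.TH69.OhB
import Pool.Agent.TH69.PqA
import Pool.Agent.TH69.EvC

set_option autoImplicit false

/-!
# Centralisers of `q`-elements, part A
-/

namespace Pool.Agent.TH69.Ok

open Pool.Agent.H32BU Pool.Agent.W629 Pool.Agent.TH69.Mtn Pool.Agent.TH69.Od Pool.Agent.TH69.Og
open Pool.Agent.TH69.Oh

section Ncl

variable {G : Type} [Group G]

/-- the normal closure of `s` in `⟨s, y⟩` -/
def Ncl (s y : G) : Subgroup G := Subgroup.closure {a | ∃ g ∈ c2 s y, a = g * s * g⁻¹}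

theorem self_mem_Ncl (s y : G) : s ∈ Ncl s y := Subgroup.subset_closure ⟨1, one_mem _, by group⟩

theorem Ncl_conj {s y g x : G} (hg : g ∈ c2 s y) (hx : x ∈ Ncl s y) : g * x * g⁻¹ ∈ Ncl s y := by
  refine closure_conj ?_ x hx
  rintro _ ⟨g', hg', rfl⟩
  refine Subgroup.subset_closure ⟨g * g', mul_mem hg hg', ?_⟩
  group

theorem Ncl_le {s y : G} {B : Subgroup G} (hB : ∀ g ∈ c2 s y, ∀ x ∈ B, g * x * g⁻¹ ∈ B)
    (hs : s ∈ B) : Ncl s y ≤ B := by
  unfold Ncl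
  rw [Subgroup.closure_le]
  rintro _ ⟨g, hg, rfl⟩
  exact hB g hg s hs

theorem Ncl_le_c2 (s y : G) : Ncl s y ≤ c2 s y :=
  Ncl_le (fun _ hg _ hx => mul_mem (mul_mem hg hx) (inv_mem hg)) (Subgroup.subset_closure (by simp))

theorem map_Ncl {F : Type} [Group F] (f : G →* F) (s y : G) :
    (Ncl s y).map f = Ncl (f s) (f y) := by
  unfold Ncl
  rw [MonoidHom.map_closure]
  congr 1
  ext a
  constructor
  · rintro ⟨_, ⟨g, hg, rfl⟩, rfl⟩
    refine ⟨f g, ?_, by simp⟩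
    rw [← map_c2']
    exact ⟨g, hg, rfl⟩
  · rintro ⟨g, hg, rfl⟩
    rw [← map_c2'] at hg
    obtain ⟨g, hg, rfl⟩ := hg
    exact ⟨g * s * g⁻¹, ⟨g, hg, rfl⟩, by simp⟩

/-- smaller normal closures -/
theorem Ncl_mono {s s' y : G} (h : s' ∈ Ncl s y) : Ncl s' y ≤ Ncl s y := by
  have hle : c2 s' y ≤ c2 s y := c2_le (Ncl_le_c2 s y h) (Subgroup.subset_closure (by simp))
  exact Ncl_le (fun g hg x hx => Ncl_conj (hle hg) hx) h

end Ncl

variable {G : Type} [Group G]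

/-- the finite form of the theorem on centralisers -/
theorem t3q_fin [Finite G] {M q β : ℕ} (hq : q.Prime) (hM : Nat.Coprime M q)
    (hG : ∀ x : G, x ^ (M * q ^ β) = 1)
    (hsol : Group.IsSolvable G) {g e : G} (hg : g ^ q ^ β = 1) (he : e ^ M = 1)
    (hge : Commute g e) (hc : ∀ x : G, Commute x g → (e⁻¹ * (x⁻¹ * e * x)) ^ M = 1) :
    e ∈ Rad M G := by
  have hMQ : Nat.Coprime M (q ^ β) := Nat.Coprime.pow_right _ hM
  refine Tw.mem_rad_of hMQ hG hsol he fun u hu => ?_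
  refine (Pq.axb hq hMQ (Rad (q ^ β) (G ⧸ Rad M G)) (fun x hx => rad_pow hx) (Tw.mk_pow_one hg)
    (Tw.mk_pow_one he) (Tw.mk_comm hge).eq (fun u hu hug => ?_) u hu).symm
  obtain ⟨w, hw, rfl⟩ := Tw.lift_comm (k := β) hq (Rad M G)
    (Tw.not_dvd_card hq hM.symm _ fun x hx => rad_pow hx) hg hug
  refine Tw.comm_of_pow (r := q ^ β) (t := M) hMQ.symm hu ?_
  have := Tw.mk_pow_one (N := Rad M G) (hc w hw)
  simpa only [QuotientGroup.mk_mul, QuotientGroup.mk_inv] using this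

/-- `O_{q'}` of the centraliser of a `q`-element -/
theorem t3q {n M q β : ℕ} (S : Sg n G) (hq : q.Prime) (hM : Nat.Coprime M q)
    (hn : M * q ^ β = n) {g e : G}
    (hg : g ^ q ^ β = 1) (he : e ∈ Tw.RK M (Subgroup.centralizer {g})) : e ∈ Rad M G := by
  have hMQ : Nat.Coprime M (q ^ β) := Nat.Coprime.pow_right _ hM
  have heM := Tw.RK_pow he
  have hge : Commute g e := (Tw.mem_cent.1 (Tw.RK_le he)).symm
  refine ⟨heM, fun z hz => ?_⟩
  have hK := S.fin (g * e) z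
  have hs := S.sol (g * e) z
  obtain ⟨K, hKd⟩ : ∃ K, K = c2 (g * e) z := ⟨_, rfl⟩
  have h1 : g * e ∈ K := by rw [hKd]; exact Subgroup.subset_closure (by simp)
  have hzK : z ∈ K := by rw [hKd]; exact Subgroup.subset_closure (by simp)
  rw [← hKd] at hK hs
  obtain ⟨hgK, heK⟩ := mem_of_mul hge.eq hg heM hMQ.symm K h1
  have h2 : (⟨e, heK⟩ : K) ∈ Rad M K := by
    refine t3q_fin hq hM (by rw [hn]; exact exp_sub S.exp K) hs (g := ⟨g, hgK⟩)
      (Subtype.ext hg) (Subtype.ext (by simpa using heM)) (Subtype.ext hge.eq) ?_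
    rintro ⟨x, hx⟩ hxg
    have hxg' : Commute x g := congrArg Subtype.val hxg
    exact Subtype.ext (by simpa using Tw.cent_comm he hxg')
  exact Tw.RK_mul (Tw.mem_RK.2 ⟨heK, h2⟩) hzK hz

/-- a `q'`-element commuting with `s` which lies in `O_{q'}` of all finite subgroups containing
`s` and `y` -/
theorem t4q {n M q β : ℕ} (S : Sg n G) (hq : q.Prime) (hM : Nat.Coprime M q)
    (hn : M * q ^ β = n) {s y τ : G}
    (hs : s ^ q ^ β = 1) (hτ : Commute τ s)
    (hall : ∀ K : Subgroup G, Finite K → Group.IsSolvable K → s ∈ K → y ∈ K → τ ∈ Tw.RK M K) :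
    τ ∈ Rad M G := by
  have hMQ : Nat.Coprime M (q ^ β) := Nat.Coprime.pow_right _ hM
  apply t3q S hq hM hn hs
  refine Tw.mem_RK.2 ⟨Tw.mem_cent.2 hτ, ?_, ?_⟩
  · have := Tw.RK_pow (hall (c2 s y) (S.fin _ _) (S.sol _ _) (Subgroup.subset_closure (by simp))
      (Subgroup.subset_closure (by simp)))
    exact Subtype.ext (by simpa using this)
  · rintro ⟨z, hz⟩ hzM
    have hzM' : z ^ M = 1 := by simpa using congrArg Subtype.val hzM
    have hzs : Commute s z := (Tw.mem_cent.1 hz).symm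
    have h1 : s * z ∈ c2 (s * z) y := Subgroup.subset_closure (by simp)
    have hyK : y ∈ c2 (s * z) y := Subgroup.subset_closure (by simp)
    obtain ⟨hsK, hzK⟩ := mem_of_mul hzs.eq hs hzM' hMQ.symm _ h1
    have := Tw.RK_mul (hall _ (S.fin _ _) (S.sol _ _) hsK hyK) hzK hzM'
    exact Subtype.ext (by simpa using this)

/-- the centraliser lemma -/
theorem cq {n M q β : ℕ} (S : Sg n G) (hq : q.Prime) (hM : Nat.Coprime M q)
    (hn : M * q ^ β = n) (rM : Rad M G = ⊥) {s y τ : G} (hs : SG (q ^ β) M s)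
    (hτN : τ ∈ Ncl s y) (hτs : Commute τ s) (hτ : τ ^ M = 1) : τ = 1 := by
  have hMQ : Nat.Coprime M (q ^ β) := Nat.Coprime.pow_right _ hM
  have h1 : τ ∈ Rad M G := by
    refine t4q S hq hM hn (y := y) hs.1 hτs fun K hK hKs hsK hyK => ?_
    have hle : c2 s y ≤ K := c2_le hsK hyK
    obtain ⟨A, B, h2, h3, h4, h5, h6⟩ := hs.2 K hK hKs hsK
    have hτB : τ ∈ B := Ncl_le (fun g hg x hx => h3 g (hle hg) x hx) h6 hτN
    have hτA : τ ∈ A := mem_of_pow hMQ hτ (h5 τ hτB)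
    have hτK : τ ∈ K := hle (Ncl_le_c2 s y hτN)
    have hn1 : (A.subgroupOf K).Normal := ⟨fun x hx g => h2 g g.2 x hx⟩
    have h7 := le_rad (G := K) hMQ (by rw [hn]; exact exp_sub S.exp K) (A.subgroupOf K)
      (fun x hx => Subtype.ext (h4 x hx))
    exact Tw.mem_RK.2 ⟨hτK, h7 hτA⟩
  rwa [rM, Subgroup.mem_bot] at h1

/-- the centraliser lemma in images of finite subgroups -/
theorem cqf {n M q β : ℕ} (S : Sg n G) (hq : q.Prime) (hM : Nat.Coprime M q)
    (hn : M * q ^ β = n) (rM : Rad M G = ⊥) (hS : ∀ s : G, s ^ q ^ β = 1 → SG (q ^ β) M s)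
    {F : Type} [Group F] (hI : Im G F) {s h τ : F} (hs : s ^ q ^ β = 1)
    (hτN : τ ∈ Ncl s h) (hτs : Commute τ s) (hτ : τ ^ M = 1) : τ = 1 := by
  classical
  have hMQ : Nat.Coprime M (q ^ β) := Nat.Coprime.pow_right _ hM
  obtain ⟨K, hK, hKs, π, hπ⟩ := hI
  obtain ⟨a, b, ⟨a', ha'⟩, ⟨b', hb'⟩, ha, hb, hab⟩ := crt hMQ
  have hexp : ∀ x : K, x ^ (M * q ^ β) = 1 := by rw [hn]; exact exp_sub S.exp K
  have hpa : ∀ x : K, (x ^ a) ^ q ^ β = 1 := by
    intro x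
    rw [← pow_mul, ha', show M * a' * q ^ β = (M * q ^ β) * a' from by ring, pow_mul, hexp,
      one_pow]
  obtain ⟨y, hy⟩ := hπ h
  have hex : ∃ d, ∃ s1 : K, s1 ^ q ^ β = 1 ∧ π s1 = s ∧ Nat.card (Ncl s1 y) = d := by
    obtain ⟨s0, hs0⟩ := hπ s
    refine ⟨_, s0 ^ a, hpa s0, ?_, rfl⟩
    rw [map_pow, hs0, ha s hs]
  obtain ⟨s1, hs1, hs1s, hd⟩ := Nat.find_spec hex
  have hmin := fun d (hd : d < Nat.find hex) => Nat.find_min hex hd
  have hmap : (Ncl s1 y).map π = Ncl s h := by rw [map_Ncl, hs1s, hy]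
  have hst : s * τ ∈ (Ncl s1 y).map π := by
    rw [hmap]
    exact mul_mem (self_mem_Ncl s h) hτN
  obtain ⟨g, hg, hgst⟩ := hst
  -- the lifts
  obtain ⟨s', hs'⟩ : ∃ s', s' = g ^ a := ⟨_, rfl⟩
  obtain ⟨t', ht'⟩ : ∃ t', t' = g ^ b := ⟨_, rfl⟩
  have hs'3 : s' ^ q ^ β = 1 := by
    rw [hs']
    exact hpa g
  have ht'M : t' ^ M = 1 := by
    rw [ht', hb', ← pow_mul, show q ^ β * b' * M = (M * q ^ β) * b' from by ring, pow_mul, hexp,
      one_pow]
  have hπs' : π s' = s := by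
    rw [hs', map_pow, hgst, hτs.symm.mul_pow, ha s hs, ha', pow_mul, hτ, one_pow, mul_one]
  have hπt' : π t' = τ := by
    rw [ht', map_pow, hgst, hτs.symm.mul_pow, hb τ hτ, hb', pow_mul, hs, one_pow, one_mul]
  have hts' : Commute t' s' := by
    rw [hs', ht']
    exact (Commute.refl g).pow_pow b a
  have hs'N : s' ∈ Ncl s1 y := by
    rw [hs']
    exact pow_mem hg a
  have ht'N : t' ∈ Ncl s1 y := by
    rw [ht']
    exact pow_mem hg b
  have hle : Ncl s' y ≤ Ncl s1 y := Ncl_mono hs'N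
  have heq : Ncl s' y = Ncl s1 y := by
    refine Subgroup.eq_of_le_of_card_ge hle ?_
    by_contra hlt
    push Not at hlt
    rw [hd] at hlt
    exact hmin _ hlt ⟨s', hs'3, hπs', rfl⟩
  rw [← heq] at ht'N
  have h1 : ((t' : K) : G) ∈ Ncl ((s' : K) : G) (y : G) := by
    have h2 := map_Ncl K.subtype s' y
    change K.subtype t' ∈ Ncl (K.subtype s') (K.subtype y)
    rw [← h2]
    exact ⟨t', ht'N, rfl⟩
  have h2 := cq S hq hM hn rM (hS s' (congrArg Subtype.val hs'3)) h1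
    (congrArg Subtype.val hts'.eq) (congrArg Subtype.val ht'M)
  have h3 : t' = 1 := Subtype.ext h2
  rw [← hπt', h3, map_one]

end Pool.Agent.TH69.Ok
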