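import Mathlib
import Pool.Agent.TH69.OkA

set_option autoImplicit false

/-!
# Centralisers of `q`-elements, part B: commutators centralise the normal `2`-subgroup
-/

namespace Pool.Agent.TH69.Ok

open Pool.Agent.H32BU Pool.Agent.W629 Pool.Agent.TH69.Mtn Pool.Agent.TH69.Od Pool.Agent.TH69.Og
open Pool.Agent.TH69.Oh

/-- elements of the second centre and an element without fixed points -/
theorem cent_cq {q : ℕ} (hq : q.Prime) (hq2 : q ≠ 2) {H : Type} [Group H] [Finite H]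
    (V N : Subgroup H) [hV : V.Normal] [hN : N.Normal] (hab : ∀ v ∈ V, ∀ w ∈ V, v * w = w * v)
    (hpow : ∀ v ∈ V, v ^ 2 = 1) {s y c : H} (hs : s ^ q = 1)
    (hfpf : ∀ τ ∈ V, τ ∈ N → τ * s = s * τ → τ = 1) (hcN : c ∈ N) (hc : y⁻¹ * s * y = s * c)
    (hcq : c ^ q ∈ V) (hcs : s * c * s⁻¹ * c⁻¹ ∈ V) (hcy : y * c * y⁻¹ * c⁻¹ ∈ V) :
    ∀ t ∈ V, t * c = c * t := by
  have h2q : Nat.Coprime 2 q := (Nat.coprime_primes Nat.prime_two hq).2 hq2.symm
  obtain ⟨R, hR⟩ : ∃ R, R = V ⊓ N := ⟨_, rfl⟩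
  have hRn : R.Normal := by rw [hR]; exact Subgroup.normal_inf_normal V N
  have hRV : ∀ x ∈ R, x ∈ V := fun x hx => by rw [hR] at hx; exact hx.1
  have hmem : ∀ x : H, x ∈ V → x ∈ N → x ∈ R := fun x h1 h2 => by rw [hR]; exact ⟨h1, h2⟩
  obtain ⟨Mod, _, A, π, D⟩ := Ev.exists_md R
  have hcomm : ∀ a b : H, a * b * a⁻¹ * b⁻¹ ∈ R → A a * A b = A b * A a := by
    intro a b h
    have h1 := D.triv h
    have e : a * b = (a * b * a⁻¹ * b⁻¹) * (b * a) := by group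
    rw [← map_mul, e, map_mul, h1, one_mul, map_mul]
  have hcNn : ∀ g : H, g * c * g⁻¹ * c⁻¹ ∈ N := fun g =>
    mul_mem (hN.conj_mem c hcN g) (inv_mem hcN)
  have h1 := Ev.ring_center hq (S := A s) (Z := A c) (H := A.toHomUnits y)
    (D.norm (fun τ hτ => hfpf τ (hRV τ hτ) (by rw [hR] at hτ; exact hτ.2))
      (by rw [← map_pow, hs, map_one]))
    (by rw [← map_pow]; exact D.triv (hmem _ hcq (pow_mem hcN q)))
    (hcomm s c (hmem _ hcs (hcNn s)))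
    (by
      change A y * A c = A c * A y
      exact hcomm y c (hmem _ hcy (hcNn y)))
    (by
      rw [← map_inv]
      change A y⁻¹ * A s * A y = A s * A c
      rw [← map_mul, ← map_mul, hc, map_mul])
  have h2 := D.op_tors (fun x hx => hpow x (hRV x hx)) h2q h1
  rw [sub_eq_zero] at h2
  have hRR : ∀ x ∈ ⁅R, R⁆, x = 1 := by
    intro x hx
    have h3 : ⁅R, R⁆ = ⊥ := by
      rw [Subgroup.commutator_eq_bot_iff_le_centralizer]
      intro a ha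
      rw [Subgroup.mem_centralizer_iff]
      intro b hb
      exact hab b (hRV b hb) a (hRV a ha)
    rw [h3, Subgroup.mem_bot] at hx
    exact hx
  have key : ∀ t ∈ R, c * t * c⁻¹ = t := by
    intro t ht
    have h3 := D.act c ⟨t, ht⟩ ⟨c * t * c⁻¹, hRn.conj_mem t ht c⟩ rfl
    rw [h2] at h3
    have h4 : π (⟨c * t * c⁻¹, hRn.conj_mem t ht c⟩ * (⟨t, ht⟩ : R)⁻¹) = 0 := by
      rw [D.add, D.map_inv, h3]
      change π ⟨t, ht⟩ + - π ⟨t, ht⟩ = 0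
      rw [add_neg_cancel]
    rw [D.ker] at h4
    have h5 : c * t * c⁻¹ * t⁻¹ = 1 := hRR _ h4
    rwa [mul_inv_eq_one] at h5
  intro t ht
  obtain ⟨κ, hκ⟩ : ∃ κ, κ = c * t * c⁻¹ * t⁻¹ := ⟨_, rfl⟩
  have hκV : κ ∈ V := by
    rw [hκ]
    exact mul_mem (hV.conj_mem t ht c) (inv_mem ht)
  have hκN : κ ∈ N := by
    have h3 := mul_mem hcN (hN.conj_mem _ (inv_mem hcN) t)
    have e : c * (t * c⁻¹ * t⁻¹) = c * t * c⁻¹ * t⁻¹ := by group
    rw [e, ← hκ] at h3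
    exact h3
  have hcκ : Commute c κ := by
    have h3 := key κ (hmem κ hκV hκN)
    rw [mul_inv_eq_iff_eq_mul] at h3
    exact h3
  have h4 := comm_pow (x := c) (y := t) (c := κ) hκ.symm hcκ q
  have h5 : κ ^ q = 1 := by
    rw [← h4, hab _ hcq t ht]
    group
  have h6 := W629.eq_one_of_coprime h2q (hpow κ hκV) h5
  rw [h6, eq_comm, mul_inv_eq_one, mul_inv_eq_iff_eq_mul] at hκ
  exact hκ.symm

/-- `q`-elements of images of finite subgroups have few fixed points -/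
def FixQ (G : Type) [Group G] (q M : ℕ) : Prop := ∀ (F : Type) [Group F], Im G F →
  ∀ s h τ : F, s ^ q = 1 → τ ∈ Ncl s h → Commute τ s → τ ^ M = 1 → τ = 1

theorem comm_mod_q {G : Type} [Group G] {M q : ℕ} (hq : q.Prime) (hq2 : q ≠ 2)
    (hM : Nat.Coprime M q) (h2M : 2 ∣ M) (hfix : FixQ G q M) {F : Type} [Group F] [Finite F]
    (hI : Im G F) (hF : ∀ x : F, x ^ (M * q) = 1) (hMq : 0 < M * q) (V : Subgroup F)
    [hVn : V.Normal]
    (hab : ∀ v ∈ V, ∀ w ∈ V, v * w = w * v) (hpow : ∀ v ∈ V, v ^ 2 = 1)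
    (L : Subgroup F) (hVL : V ≤ L) (hLq : ∀ y ∈ L, y ^ q ∈ V)
    (hC : ∀ y ∈ L, (∀ v ∈ V, y * v = v * y) → y ∈ V) {x s : F} (hs : s ^ q = 1) (hsL : s ∈ L)
    (hxL : ∀ y ∈ L, x * y * x⁻¹ ∈ L) {y2 c : F ⧸ V}
    (hy2 : y2 ∈ Ncl (s : F ⧸ V) (x : F ⧸ V)) (hc : c = (s : F ⧸ V)⁻¹ * (y2⁻¹ * s * y2))
    (hcz : ∀ g ∈ Ncl (s : F ⧸ V) (x : F ⧸ V), g * c * g⁻¹ * c⁻¹ = 1) : c = 1 := by
  have h2q : Nat.Coprime q 2 := (Nat.coprime_primes hq Nat.prime_two).2 hq2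
  obtain ⟨L', hL'⟩ : ∃ L', L' = L.map (QuotientGroup.mk' V) := ⟨_, rfl⟩
  have hL'q : ∀ y ∈ L', y ^ q = 1 := by
    intro y hy
    rw [hL'] at hy
    obtain ⟨l, hl, rfl⟩ := hy
    have := hLq l hl
    rw [← QuotientGroup.eq_one_iff, QuotientGroup.mk_pow] at this
    exact this
  have hL'L : ∀ y : F, (y : F ⧸ V) ∈ L' → y ∈ L := by
    intro y hy
    rw [hL'] at hy
    obtain ⟨l, hl, e⟩ := hy
    have h1 : l⁻¹ * y ∈ V := QuotientGroup.eq.1 e
    have h2 := mul_mem hl (hVL h1)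
    rwa [mul_inv_cancel_left] at h2
  have hsL' : (s : F ⧸ V) ∈ L' := by
    rw [hL']
    exact ⟨s, hsL, rfl⟩
  -- the subgroup of the quotient
  obtain ⟨E, hE⟩ : ∃ E, E = c2 (s : F ⧸ V) (x : F ⧸ V) := ⟨_, rfl⟩
  obtain ⟨T, hT⟩ : ∃ T, T = Ncl (s : F ⧸ V) (x : F ⧸ V) := ⟨_, rfl⟩
  have hxv : ∀ v ∈ V, ((x * v : F) : F ⧸ V) = x := by
    intro v hv
    rw [QuotientGroup.mk_mul, (QuotientGroup.eq_one_iff v).2 hv, mul_one]
  have hmapE : ∀ v ∈ V, (c2 s (x * v)).map (QuotientGroup.mk' V) = E := by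
    intro v hv
    rw [hE, map_c2']
    change c2 (s : F ⧸ V) ((x * v : F) : F ⧸ V) = _
    rw [hxv v hv]
  have hmapT : ∀ v ∈ V, (Ncl s (x * v)).map (QuotientGroup.mk' V) = T := by
    intro v hv
    rw [hT, map_Ncl]
    change Ncl (s : F ⧸ V) ((x * v : F) : F ⧸ V) = _
    rw [hxv v hv]
  have hEL : ∀ g ∈ E, ∀ y ∈ L', g * y * g⁻¹ ∈ L' := by
    have h1 : E ≤ Subgroup.normalizer (L' : Set (F ⧸ V)) := by
      rw [hE]
      refine c2_le (Subgroup.le_normalizer hsL') ?_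
      refine mem_norm hMq (by rw [← QuotientGroup.mk_pow, hF]; rfl) ?_
      intro y hy
      rw [hL'] at hy ⊢
      obtain ⟨l, hl, rfl⟩ := hy
      exact ⟨x * l * x⁻¹, hxL l hl, rfl⟩
    intro g hg y hy
    exact ((Subgroup.mem_normalizer_iff.1 (h1 hg)) y).1 hy
  have hTL : T ≤ L' := by
    rw [hT]
    refine Ncl_le ?_ hsL'
    rw [← hE]
    exact hEL
  rw [← hT] at hy2 hcz
  have hsT : (s : F ⧸ V) ∈ T := by
    rw [hT]
    exact self_mem_Ncl _ _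
  have hcT : c ∈ T := by
    rw [hc]
    exact mul_mem (inv_mem hsT) (mul_mem (mul_mem (inv_mem hy2) hsT) hy2)
  have hcL' : c ∈ L' := hTL hcT
  let N : Subgroup (F ⧸ V) := Subgroup.closure {x | ∃ g ∈ E, x = g * c * g⁻¹}
  have hNE : ∀ g ∈ E, ∀ x ∈ N, g * x * g⁻¹ ∈ N := by
    intro g hg x hx
    refine closure_conj ?_ x hx
    rintro _ ⟨g', hg', rfl⟩
    refine Subgroup.subset_closure ⟨g * g', mul_mem hg hg', ?_⟩
    group
  have hNle : ∀ A : Subgroup (F ⧸ V), (∀ g ∈ E, ∀ x ∈ A, g * x * g⁻¹ ∈ A) → c ∈ A → N ≤ A := by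
    intro A hA hcA
    rw [Subgroup.closure_le]
    rintro _ ⟨g, hg, rfl⟩
    exact hA g hg c hcA
  have hcN : c ∈ N := Subgroup.subset_closure ⟨1, one_mem _, by group⟩
  have hNL' : N ≤ L' := hNle L' hEL hcL'
  obtain ⟨a, b, ⟨a', ha'⟩, -, ha, -, -⟩ := crt hM
  -- lifts of the commutator
  have hlift : ∀ v ∈ V, ∃ cv r : F, cv ∈ c2 s (x * v) ∧ r ∈ c2 s (x * v) ∧ (cv : F ⧸ V) = c ∧
      cv = s⁻¹ * (r⁻¹ * s * r) ∧ ∀ t ∈ V, t ∈ c2 s (x * v) → t * cv = cv * t := by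
    intro v hv
    have h1 : y2 ∈ (Ncl s (x * v)).map (QuotientGroup.mk' V) := by rw [hmapT v hv]; exact hy2
    obtain ⟨r, hr, hry⟩ := h1
    have hry' : (r : F ⧸ V) = y2 := hry
    have hrH := Ncl_le_c2 s (x * v) hr
    have hsN := self_mem_Ncl s (x * v)
    have hsH := Ncl_le_c2 s (x * v) hsN
    obtain ⟨cv, hcv⟩ : ∃ cv, cv = s⁻¹ * (r⁻¹ * s * r) := ⟨_, rfl⟩
    have hcvN : cv ∈ Ncl s (x * v) := by
      rw [hcv]
      exact mul_mem (inv_mem hsN) (mul_mem (mul_mem (inv_mem hr) hsN) hr)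
    have hcvH := Ncl_le_c2 s (x * v) hcvN
    have hcvc : (cv : F ⧸ V) = c := by
      rw [hcv, hc, ← hry']
      rfl
    have hz : ∀ g : F, (g : F ⧸ V) ∈ T → g * cv * g⁻¹ * cv⁻¹ ∈ V := by
      intro g hg
      rw [← QuotientGroup.eq_one_iff]
      change (g : F ⧸ V) * (cv : F ⧸ V) * (g : F ⧸ V)⁻¹ * (cv : F ⧸ V)⁻¹ = 1
      rw [hcvc]
      exact hcz _ hg
    refine ⟨cv, r, hcvH, hrH, hcvc, hcv, ?_⟩
    obtain ⟨H, hH⟩ : ∃ H, H = c2 s (x * v) := ⟨_, rfl⟩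
    rw [← hH] at hrH hsH hcvH ⊢
    have hNn : ((Ncl s (x * v)).subgroupOf H).Normal := by
      refine ⟨fun a ha g => ?_⟩
      have hg : (g : F) ∈ c2 s (x * v) := by
        rw [← hH]
        exact g.2
      exact Ncl_conj (s := s) (y := x * v) hg ha
    have h2 := cent_cq hq hq2 (H := H) (V.subgroupOf H) ((Ncl s (x * v)).subgroupOf H)
      (fun v hv w hw => Subtype.ext (hab v hv w hw)) (fun v hv => Subtype.ext (hpow v hv))
      (s := ⟨s, hsH⟩) (y := ⟨r, hrH⟩) (c := ⟨cv, hcvH⟩) (Subtype.ext hs)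
      (fun τ hτ hτN hτs => Subtype.ext (hfix F hI s (x * v) τ hs hτN
        (congrArg Subtype.val hτs) (by
          obtain ⟨k, hk⟩ := h2M
          have h9 : ((τ : H) : F) ^ 2 = 1 := hpow _ hτ
          rw [hk, pow_mul, h9, one_pow])))
      hcvN (Subtype.ext (by
        change r⁻¹ * s * r = s * cv
        rw [hcv]
        group)) (hLq cv (hL'L cv (by rw [hcvc]; exact hcL'))) (hz s hsT)
      (hz r (by rw [hry']; exact hy2))
    intro t ht htH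
    exact congrArg Subtype.val (h2 ⟨t, htH⟩ ht)
  -- the subgroups `B'`
  have hBv : ∀ v ∈ V, ∃ B' : Subgroup F, (∀ b ∈ B', b ^ q = 1) ∧
      (∀ g ∈ c2 s (x * v), ∀ b ∈ B', g * b * g⁻¹ ∈ B') ∧
      (∀ b ∈ B', (b : F ⧸ V) ∈ N) ∧ (∀ b : F, (b : F ⧸ V) ∈ N → ∃ w ∈ V, b * w ∈ B') ∧
      (∀ b ∈ c2 s (x * v), (b : F ⧸ V) ∈ N → b ^ q = 1 → b ∈ B') := by
    intro v hv
    obtain ⟨cv, r, h1, h2, hcv, -, h6⟩ := hlift v hv
    obtain ⟨H, hH⟩ : ∃ H, H = c2 s (x * v) := ⟨_, rfl⟩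
    rw [← hH] at h1 h2 h6 ⊢
    have hHE : H.map (QuotientGroup.mk' V) = E := by
      rw [hH]
      exact hmapE v hv
    let A : Subgroup F :=
      { carrier := {g | g ∈ H ∧ ∀ t ∈ V, t ∈ H → t * g = g * t}
        one_mem' := ⟨one_mem _, fun t _ _ => by rw [mul_one, one_mul]⟩
        mul_mem' := by
          rintro g g' ⟨hg, hg2⟩ ⟨hg', hg2'⟩
          refine ⟨mul_mem hg hg', fun t ht htH => ?_⟩
          rw [← mul_assoc, hg2 t ht htH, mul_assoc, hg2' t ht htH, mul_assoc]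
        inv_mem' := by
          rintro g ⟨hg, hg2⟩
          refine ⟨inv_mem hg, fun t ht htH => ?_⟩
          rw [eq_inv_mul_iff_mul_eq, ← mul_assoc, ← hg2 t ht htH, mul_inv_cancel_right] }
    have hNA : N ≤ A.map (QuotientGroup.mk' V) := by
      apply hNle
      · rintro g hg _ ⟨y, ⟨hy, hy2⟩, rfl⟩
        rw [← hHE] at hg
        obtain ⟨g, hg, rfl⟩ := hg
        refine ⟨g * y * g⁻¹, ⟨mul_mem (mul_mem hg hy) (inv_mem hg), fun t ht htH => ?_⟩, rfl⟩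
        have h7 := hy2 (g⁻¹ * t * g) (by
          have := hVn.conj_mem t ht g⁻¹
          rwa [inv_inv] at this) (mul_mem (mul_mem (inv_mem hg) htH) hg)
        calc t * (g * y * g⁻¹) = g * ((g⁻¹ * t * g) * y) * g⁻¹ := by group
          _ = g * (y * (g⁻¹ * t * g)) * g⁻¹ := by rw [h7]
          _ = g * y * g⁻¹ * t := by group
      · exact ⟨cv, ⟨h1, h6⟩, hcv⟩
    -- elements of `H` with image in `N`
    obtain ⟨E1, hE1⟩ : ∃ E1, E1 = H ⊓ N.comap (QuotientGroup.mk' V) := ⟨_, rfl⟩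
    have hE1m : ∀ y : F, y ∈ E1 ↔ y ∈ H ∧ (y : F ⧸ V) ∈ N := by
      intro y
      rw [hE1]
      exact Iff.rfl
    have hcen : ∀ y ∈ E1, ∀ t ∈ V, t ∈ H → t * y = y * t := by
      intro y hy t ht htH
      rw [hE1m] at hy
      obtain ⟨g, ⟨hg, hg2⟩, hgy⟩ := hNA hy.2
      have h7 : g⁻¹ * y ∈ V := QuotientGroup.eq.1 hgy
      have h8 := hab _ ht _ h7
      calc t * y = t * g * (g⁻¹ * y) := by group
        _ = g * t * (g⁻¹ * y) := by rw [hg2 t ht htH]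
        _ = g * (t * (g⁻¹ * y)) := by group
        _ = g * (g⁻¹ * y * t) := by rw [h8]
        _ = y * t := by group
    have hrad : ∀ y : E1, y ^ q = 1 → y ∈ Rad (q ^ 1) E1 := by
      intro y hy
      refine nilpG hq (by rw [pow_one]; exact hM.symm) hM.symm (m := M) (fun y => ?_)
        ⊤ inferInstance ?_ (Subgroup.mem_top y) (by rw [pow_one]; exact hy)
      · apply Subtype.ext
        rw [pow_one, mul_comm]
        exact hF y
      · rintro ⟨y, hy⟩ - ⟨z, hz⟩ - hzM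
        apply Subtype.ext
        have h7 : (z : F ⧸ V) = 1 := by
          refine W629.eq_one_of_coprime hM ?_ (hL'q _ (hNL' ((hE1m z).1 hz).2))
          rw [← QuotientGroup.mk_pow]
          have : z ^ M = 1 := congrArg Subtype.val hzM
          rw [this]
          rfl
        exact (hcen y hy z ((QuotientGroup.eq_one_iff z).1 h7) ((hE1m z).1 hz).1).symm
    refine ⟨{ carrier := {b | b ∈ E1 ∧ b ^ q = 1}
              one_mem' := ⟨one_mem _, one_pow _⟩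
              mul_mem' := ?_
              inv_mem' := ?_ }, fun b hb => hb.2, ?_, fun b hb => ((hE1m b).1 hb.1).2, ?_, ?_⟩
    · rintro y z ⟨hy, hy2⟩ ⟨hz, hz2⟩
      refine ⟨mul_mem hy hz, ?_⟩
      have h7 := rad_mul (hrad ⟨y, hy⟩ (Subtype.ext hy2)) (z := ⟨z, hz⟩) (Subtype.ext (by
        rw [Subgroup.coe_pow, pow_one]; exact hz2))
      rw [pow_one] at h7
      exact congrArg Subtype.val h7
    · rintro y ⟨hy, hy2⟩
      exact ⟨inv_mem hy, by rw [inv_pow, hy2, inv_one]⟩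
    · rintro g hg y ⟨hy, hy2⟩
      refine ⟨?_, conj_pow_one hy2⟩
      rw [hE1m] at hy ⊢
      refine ⟨mul_mem (mul_mem hg hy.1) (inv_mem hg), hNE (g : F ⧸ V) ?_ _ hy.2⟩
      rw [← hHE]
      exact ⟨g, hg, rfl⟩
    · intro y hy
      obtain ⟨g, ⟨hg, -⟩, hgy⟩ := hNA hy
      have hgy' : (g : F ⧸ V) = y := hgy
      have h7 : ((g ^ a : F) : F ⧸ V) = y := by
        rw [QuotientGroup.mk_pow, hgy']
        exact ha _ (hL'q _ (hNL' hy))
      refine ⟨y⁻¹ * g ^ a, QuotientGroup.eq.1 h7.symm, ?_, ?_⟩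
      · rw [mul_inv_cancel_left, hE1m, h7]
        exact ⟨pow_mem hg a, hy⟩
      · rw [mul_inv_cancel_left, ← pow_mul, ha', show M * a' * q = (M * q) * a' from by ring,
          pow_mul, hF, one_pow]
    · intro y hy hyN hy3
      exact ⟨(hE1m y).2 ⟨hy, hyN⟩, hy3⟩
  obtain ⟨B, hB1, hB2, hB3, hB4, hB5⟩ := hBv 1 (one_mem _)
  rw [mul_one] at hB2 hB5
  have hsE : s ∈ c2 s x := Subgroup.subset_closure (by simp)
  have hxE : x ∈ c2 s x := Subgroup.subset_closure (by simp)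
  have hinvc : ∀ g ∈ c2 s x, ∀ b ∈ B, g⁻¹ * b * g ∈ B := by
    intro g hg b hb
    have := hB2 g⁻¹ (inv_mem hg) b hb
    rwa [inv_inv] at this
  have hhalf := half' V 2 s x Nat.prime_two inferInstance hab hpow B
    (fun b hb => ⟨q, h2q, hB1 b hb⟩) (hB2 s hsE) (hinvc s hsE) (hB2 x hxE)
    (hinvc x hxE) (by
      intro v hv
      obtain ⟨B', h1, h2, h3, h4, -⟩ := hBv v hv
      exact ⟨B', fun b hb => ⟨q, h2q, h1 b hb⟩,
        h2 s (Subgroup.subset_closure (by simp)), h2 (x * v) (Subgroup.subset_closure (by simp)),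
        fun b hb => h4 b (hB3 b hb), fun b hb => hB4 b (h3 b hb)⟩)
  -- the commutator
  obtain ⟨cv, r, h1, h2, hcv, h5, -⟩ := hlift 1 (one_mem _)
  rw [mul_one] at h1 h2
  have hC0 : ∀ g ∈ c2 s x, ∀ k ∈ V ⊓ Subgroup.centralizer (B : Set F),
      g⁻¹ * k * g ∈ V ⊓ Subgroup.centralizer (B : Set F) := by
    intro g hg k hk
    refine ⟨?_, Subgroup.mem_centralizer_iff.2 fun b hb => ?_⟩
    · have := hVn.conj_mem k hk.1 g⁻¹
      rwa [inv_inv] at this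
    · have h6 := (Subgroup.mem_centralizer_iff.1 hk.2) _ (hB2 g hg b hb)
      calc b * (g⁻¹ * k * g) = g⁻¹ * ((g * b * g⁻¹) * k) * g := by group
        _ = g⁻¹ * (k * (g * b * g⁻¹)) * g := by rw [h6]
        _ = g⁻¹ * k * g * b := by group
  have hbase : ∀ u ∈ V, cv⁻¹ * u * cv * u⁻¹ ∈ V ⊓ Subgroup.centralizer (B : Set F) := by
    intro u hu
    obtain ⟨u', hu'⟩ : ∃ u', u' = s * u * s⁻¹ := ⟨_, rfl⟩
    have hu'V : u' ∈ V := by rw [hu']; exact hVn.conj_mem u hu s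
    have h6 := hhalf u' hu'V
    have h7 := hhalf (r * u' * r⁻¹) (hVn.conj_mem u' hu'V r)
    have h8 := hC0 r h2 _ h7
    have h9 := mul_mem h8 (inv_mem h6)
    have e : cv⁻¹ * u * cv * u⁻¹ = r⁻¹ * (s⁻¹ * (r * u' * r⁻¹) * s * (r * u' * r⁻¹)⁻¹) * r *
        (s⁻¹ * u' * s * u'⁻¹)⁻¹ := by
      rw [h5, hu']
      group
    rw [e]
    exact h9
  have hpows : ∀ k : ℕ, ∀ u ∈ V,
      (cv ^ k)⁻¹ * u * cv ^ k * u⁻¹ ∈ V ⊓ Subgroup.centralizer (B : Set F) := by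
    intro k
    induction k with
    | zero =>
      intro u hu
      have e : (cv ^ 0)⁻¹ * u * cv ^ 0 * u⁻¹ = 1 := by group
      rw [e]
      exact one_mem _
    | succ k ih =>
      intro u hu
      have h6 := mul_mem (hC0 cv h1 _ (ih u hu)) (hbase u hu)
      have e : cv⁻¹ * ((cv ^ k)⁻¹ * u * cv ^ k * u⁻¹) * cv * (cv⁻¹ * u * cv * u⁻¹) =
          (cv ^ (k + 1))⁻¹ * u * cv ^ (k + 1) * u⁻¹ := by
        rw [pow_succ]
        group
      rwa [e] at h6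
  obtain ⟨c', hc'⟩ : ∃ c', c' = cv ^ a := ⟨_, rfl⟩
  have hc'q : c' ^ q = 1 := by
    rw [hc', ← pow_mul, ha', show M * a' * q = (M * q) * a' from by ring, pow_mul, hF, one_pow]
  have hc'c : (c' : F ⧸ V) = c := by
    rw [hc', QuotientGroup.mk_pow, hcv]
    exact ha _ (hL'q c hcL')
  have hc'B : c' ∈ B := hB5 c' (by rw [hc']; exact pow_mem h1 a) (by rw [hc'c]; exact hcN) hc'q
  have hcomm : ∀ u ∈ V, c' * u = u * c' := by
    intro u hu
    obtain ⟨κ, hκ⟩ : ∃ κ, κ = c'⁻¹ * u * c' * u⁻¹ := ⟨_, rfl⟩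
    have hκC : κ ∈ V ⊓ Subgroup.centralizer (B : Set F) := by
      rw [hκ, hc']
      exact hpows a u hu
    have hcm : Commute c' κ := (Subgroup.mem_centralizer_iff.1 hκC.2) c' hc'B
    have h6 := comm_pow (x := c'⁻¹) (y := u) (c := κ) (by rw [hκ, inv_inv]) hcm.inv_left q
    have h7 : κ ^ q = 1 := by
      rw [← h6, inv_pow, hc'q]
      group
    have h8 := W629.eq_one_of_coprime h2q h7 (hpow κ hκC.1)
    rw [h8, eq_comm, mul_inv_eq_one, mul_assoc, inv_mul_eq_iff_eq_mul] at hκ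
    exact hκ.symm
  have h6 := hC c' (hL'L c' (by rw [hc'c]; exact hcL')) hcomm
  rw [← hc'c]
  exact (QuotientGroup.eq_one_iff c').2 h6

end Pool.Agent.TH69.Ok
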