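import Mathlib
import Pool.Agent.TH69.OkB
import Pool.Agent.TH69.OhD

set_option autoImplicit false

/-!
# Centralisers of `q`-elements, part C: the exceptional case of the theorem of Hall and Higman
-/

namespace Pool.Agent.TH69.Ok

open Pool.Agent.H32BU Pool.Agent.W629 Pool.Agent.TH69.Mtn Pool.Agent.TH69.Od Pool.Agent.TH69.Og
open Pool.Agent.TH69.Oh

/-- a finite `q`-group in which elements of the second centre commute with `s` -/
theorem ncl_comm {Q : Type} [Group Q] {q : ℕ} (hq : q.Prime) {s x : Q} [Finite (Ncl s x)]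
    (hT : ∀ y ∈ Ncl s x, y ^ q = 1)
    (h : ∀ y ∈ Ncl s x, (∀ t ∈ Ncl s x, ∀ t' ∈ Ncl s x,
      (t * y * t⁻¹ * y⁻¹) * t' = t' * (t * y * t⁻¹ * y⁻¹)) → y * s = s * y) :
    ∀ a ∈ Ncl s x, ∀ b ∈ Ncl s x, a * b = b * a := by
  have : Fact q.Prime := ⟨hq⟩
  by_contra hcon
  push Not at hcon
  obtain ⟨a, ha, b, hb, hab⟩ := hcon
  have hTq : IsPGroup q (Ncl s x) := fun y => ⟨1, Subtype.ext (by
    rw [pow_one]
    exact hT y y.2)⟩
  obtain ⟨Z, hZ⟩ : ∃ Z, Z = Subgroup.center (Ncl s x) := ⟨_, rfl⟩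
  have hZn : Z.Normal := by rw [hZ]; infer_instance
  have hZm : ∀ w, w ∈ Z ↔ ∀ g : Ncl s x, g * w = w * g := by
    intro w
    rw [hZ]
    exact Subgroup.mem_center_iff
  have hQq : IsPGroup q (Ncl s x ⧸ Z) := hTq.to_quotient Z
  have hnt : Nontrivial (Ncl s x ⧸ Z) := by
    by_contra hc
    rw [not_nontrivial_iff_subsingleton] at hc
    have h1 : (⟨b, hb⟩ : Ncl s x) ∈ Z := by
      rw [← QuotientGroup.eq_one_iff]
      exact Subsingleton.elim _ _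
    have h2 := (hZm _).1 h1 ⟨a, ha⟩
    exact hab (congrArg Subtype.val h2)
  have hcn := hQq.center_nontrivial
  obtain ⟨⟨w0, hw0⟩, hw01⟩ := exists_ne (1 : Subgroup.center (Ncl s x ⧸ Z))
  obtain ⟨w, rfl⟩ := QuotientGroup.mk_surjective w0
  have hwZ : w ∉ Z := by
    intro h1
    apply hw01
    apply Subtype.ext
    exact (QuotientGroup.eq_one_iff w).2 h1
  have hwc : ∀ t : Ncl s x, t * w * t⁻¹ * w⁻¹ ∈ Z := by
    intro t
    have h1 := (Subgroup.mem_center_iff.1 hw0) (t : Ncl s x ⧸ Z)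
    rw [← QuotientGroup.eq_one_iff]
    change (t : Ncl s x ⧸ Z) * (w : Ncl s x ⧸ Z) * (t : Ncl s x ⧸ Z)⁻¹ *
      (w : Ncl s x ⧸ Z)⁻¹ = 1
    rw [h1]
    group
  have hwc' : ∀ t ∈ Ncl s x, ∀ t' ∈ Ncl s x,
      (t * w * t⁻¹ * (w : Q)⁻¹) * t' = t' * (t * w * t⁻¹ * (w : Q)⁻¹) := by
    intro t ht t' ht'
    have h1 := (hZm _).1 (hwc ⟨t, ht⟩) ⟨t', ht'⟩
    exact (congrArg Subtype.val h1).symm
  -- `w` commutes with the generators
  apply hwZ
  rw [hZm]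
  have hle : Ncl s x ≤ Subgroup.centralizer {(w : Q)} := by
    unfold Ncl
    rw [Subgroup.closure_le]
    rintro _ ⟨g, hg, rfl⟩
    rw [SetLike.mem_coe, Subgroup.mem_centralizer_singleton_iff]
    have hgi := inv_mem hg
    have hinv : ∀ t ∈ Ncl s x, g * t * g⁻¹ ∈ Ncl s x := fun t ht => Ncl_conj hg ht
    have h1 := h (g⁻¹ * w * g) (by
      have := Ncl_conj hgi w.2
      rwa [inv_inv] at this) (by
      intro t ht t' ht'
      have h2 := hwc' _ (hinv t ht) _ (hinv t' ht')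
      have e1 : t * (g⁻¹ * w * g) * t⁻¹ * (g⁻¹ * w * g)⁻¹ =
          g⁻¹ * ((g * t * g⁻¹) * w * (g * t * g⁻¹)⁻¹ * (w : Q)⁻¹) * g := by group
      rw [e1]
      calc g⁻¹ * ((g * t * g⁻¹) * w * (g * t * g⁻¹)⁻¹ * (w : Q)⁻¹) * g * t' =
          g⁻¹ * (((g * t * g⁻¹) * w * (g * t * g⁻¹)⁻¹ * (w : Q)⁻¹) * (g * t' * g⁻¹)) * g := by
            group
        _ = g⁻¹ * ((g * t' * g⁻¹) * ((g * t * g⁻¹) * w * (g * t * g⁻¹)⁻¹ * (w : Q)⁻¹)) * g := by
            rw [h2]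
        _ = t' * (g⁻¹ * ((g * t * g⁻¹) * w * (g * t * g⁻¹)⁻¹ * (w : Q)⁻¹) * g) := by group)
    calc g * s * g⁻¹ * w = g * (s * (g⁻¹ * w * g)) * g⁻¹ := by group
      _ = g * ((g⁻¹ * w * g) * s) * g⁻¹ := by rw [h1]
      _ = w * (g * s * g⁻¹) := by group
  intro g
  apply Subtype.ext
  exact Subgroup.mem_centralizer_singleton_iff.1 (hle g.2)

/-- the configuration of the theorem does not occur -/
theorem no_confQ' {G : Type} [Group G] {M q α m : ℕ} (hq : q.Prime) (hq2 : q ≠ 2)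
    (hM : Nat.Coprime M q) (h2M : 2 ∣ M) (hfix : FixQ G q M) (hMm : M * q = 2 ^ α * m)
    (hα : 1 ≤ α) (h2m : ¬ 2 ∣ m)
    {F : Type} [Group F] [Finite F]
    (hI : Im G F) (hF : ∀ x : F, x ^ (2 ^ α * m) = 1) {x : F} (hx : x ^ 2 ^ α = 1)
    (V L : Subgroup F) [hV : V.Normal] (hVL : V ≤ L)
    (hab : ∀ v ∈ V, ∀ w ∈ V, v * w = w * v) (hpow : ∀ v ∈ V, v ^ 2 = 1)
    (hLq : ∀ y ∈ L, y ^ q ∈ V) (hxL : ∀ y ∈ L, x * y * x⁻¹ ∈ L)
    (hC : ∀ y ∈ L, (∀ v ∈ V, y * v = v * y) → y ∈ V) {s : F} (hs : s ∈ L) (hsq : s ^ q = 1) :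
    x ^ 2 ^ (α - 1) * s * (x ^ 2 ^ (α - 1))⁻¹ * s⁻¹ ∈ V := by
  classical
  have hFM : ∀ x : F, x ^ (M * q) = 1 := by
    rw [hMm]
    exact hF
  have hMpos : 0 < M * q := by
    rw [hMm]
    have : m ≠ 0 := by
      rintro rfl
      exact h2m (dvd_zero _)
    positivity
  obtain ⟨L', hL'⟩ : ∃ L', L' = L.map (QuotientGroup.mk' V) := ⟨_, rfl⟩
  have hL'q : ∀ y ∈ L', y ^ q = 1 := by
    intro y hy
    rw [hL'] at hy
    obtain ⟨l, hl, rfl⟩ := hy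
    have := hLq l hl
    rw [← QuotientGroup.eq_one_iff, QuotientGroup.mk_pow] at this
    exact this
  have hL'L : ∀ y : F, (y : F ⧸ V) ∈ L' → y ∈ L := by
    intro y hy
    rw [hL'] at hy
    obtain ⟨l, hl, e⟩ := hy
    have h1 : l⁻¹ * y ∈ V := QuotientGroup.eq.1 e
    have h2 := mul_mem hl (hVL h1)
    rwa [mul_inv_cancel_left] at h2
  have hsL' : (s : F ⧸ V) ∈ L' := by
    rw [hL']
    exact ⟨s, hs, rfl⟩
  obtain ⟨T, hT⟩ : ∃ T, T = Ncl (s : F ⧸ V) (x : F ⧸ V) := ⟨_, rfl⟩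
  have hTL : T ≤ L' := by
    rw [hT]
    refine Ncl_le ?_ hsL'
    have h1 : c2 (s : F ⧸ V) (x : F ⧸ V) ≤ Subgroup.normalizer (L' : Set (F ⧸ V)) := by
      refine c2_le (Subgroup.le_normalizer hsL') ?_
      refine mem_norm hMpos (by rw [← QuotientGroup.mk_pow, hFM]; rfl) ?_
      intro y hy
      rw [hL'] at hy ⊢
      obtain ⟨l, hl, rfl⟩ := hy
      exact ⟨x * l * x⁻¹, hxL l hl, rfl⟩
    intro g hg y hy
    exact ((Subgroup.mem_normalizer_iff.1 (h1 hg)) y).1 hy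
  have hTc : ∀ a ∈ T, ∀ b ∈ T, a * b = b * a := by
    rw [hT]
    refine ncl_comm hq (by rw [← hT]; exact fun y hy => hL'q y (hTL hy)) fun y hy hyz => ?_
    obtain ⟨c, hc⟩ : ∃ c : F ⧸ V, c = (s : F ⧸ V)⁻¹ * (y⁻¹ * s * y) := ⟨_, rfl⟩
    have hsT := self_mem_Ncl (s : F ⧸ V) (x : F ⧸ V)
    have h1 := comm_mod_q hq hq2 hM h2M hfix hI hFM hMpos V hab hpow L hVL hLq hC (x := x) (s := s)
      hsq hs hxL hy hc (by
        intro g hg
        -- the commutator is central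
        have h2 := hyz (s : F ⧸ V)⁻¹ (inv_mem hsT)
        -- `c = y⁻¹ * (y * s⁻¹ * y⁻¹ * s) ...`
        have h3 : c = y⁻¹ * ((s : F ⧸ V)⁻¹ * y * (s : F ⧸ V)⁻¹⁻¹ * y⁻¹)⁻¹ * y := by
          rw [hc]
          group
        obtain ⟨k, hk⟩ : ∃ k, k = (s : F ⧸ V)⁻¹ * y * (s : F ⧸ V)⁻¹⁻¹ * y⁻¹ := ⟨_, rfl⟩
        rw [← hk] at h3
        have h4 : ∀ t' ∈ Ncl (s : F ⧸ V) (x : F ⧸ V), k * t' = t' * k := by
          rw [hk]
          exact h2
        have h5 : c = k⁻¹ := by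
          have h6 := h4 y hy
          rw [h3]
          calc y⁻¹ * k⁻¹ * y = (y⁻¹ * (k * y))⁻¹ * (y⁻¹ * (k * y)) * (y⁻¹ * k⁻¹ * y) := by group
            _ = (y⁻¹ * (y * k))⁻¹ * (y⁻¹ * (k * y)) * (y⁻¹ * k⁻¹ * y) := by rw [h6]
            _ = k⁻¹ := by group
        rw [h5]
        have h7 := h4 g hg
        calc g * k⁻¹ * g⁻¹ * k⁻¹⁻¹ = g * k⁻¹ * g⁻¹ * k := by group
          _ = g * k⁻¹ * g⁻¹ * (k * g) * g⁻¹ := by group
          _ = g * k⁻¹ * g⁻¹ * (g * k) * g⁻¹ := by rw [h7]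
          _ = 1 := by group)
    rw [h1] at hc
    have h2 : y * (s : F ⧸ V) = y * (s * ((s : F ⧸ V)⁻¹ * (y⁻¹ * s * y))) := by
      rw [← hc, mul_one]
    rw [h2]
    group
  have hTx : ∀ y ∈ T, (x : F ⧸ V) * y * (x : F ⧸ V)⁻¹ ∈ T := by
    intro y hy
    rw [hT] at hy ⊢
    exact Ncl_conj (Subgroup.subset_closure (by simp)) hy
  -- the preimage
  obtain ⟨Lq, hLq'⟩ : ∃ Lq, Lq = T.comap (QuotientGroup.mk' V) := ⟨_, rfl⟩
  have hLqm : ∀ y : F, y ∈ Lq ↔ (y : F ⧸ V) ∈ T := by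
    intro y
    rw [hLq']
    rfl
  have hVq : V ≤ Lq := by
    intro v hv
    rw [hLqm, (QuotientGroup.eq_one_iff v).2 hv]
    exact one_mem _
  have hLqL : Lq ≤ L := by
    intro y hy
    rw [hLqm] at hy
    exact hL'L y (hTL hy)
  have hxq : ∀ y ∈ Lq, x * y * x⁻¹ ∈ Lq := by
    intro y hy
    rw [hLqm] at hy ⊢
    exact hTx _ hy
  have hxn : x ∈ Subgroup.normalizer (Lq : Set F) := mem_norm (Nat.pow_pos (by norm_num)) hx hxq
  obtain ⟨F', hF'⟩ : ∃ F', F' = XZs Lq x hxn := ⟨_, rfl⟩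
  have hxF' : x ∈ F' := by
    rw [hF']
    refine ⟨-1, ?_⟩
    rw [zpow_neg_one, mul_inv_cancel]
    exact one_mem _
  have hLF' : Lq ≤ F' := by
    intro y hy
    rw [hF']
    refine ⟨0, ?_⟩
    rwa [zpow_zero, mul_one]
  have hF'n : F' ≤ Subgroup.normalizer (Lq : Set F) := by
    intro y hy
    rw [hF'] at hy
    obtain ⟨j, hj⟩ := hy
    have h1 := mul_mem (Subgroup.le_normalizer hj) (inv_mem (zpow_mem hxn j))
    rwa [mul_inv_cancel_right] at h1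
  -- the exponent
  have h2q : Nat.Coprime 2 q := (Nat.coprime_primes Nat.prime_two hq).2 hq2.symm
  obtain ⟨m', hm'⟩ : q ∣ m := by
    have h1 : q ∣ 2 ^ α * m := by
      rw [← hMm]
      exact dvd_mul_left _ _
    exact Nat.Coprime.dvd_of_dvd_mul_left (Nat.Coprime.pow_right _ h2q.symm) h1
  have hqm' : Nat.Coprime q m' := by
    have h1 : M = 2 ^ α * m' := by
      have h2 : M * q = (2 ^ α * m') * q := by
        rw [hMm, hm']
        ring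
      exact Nat.eq_of_mul_eq_mul_right hq.pos h2
    rw [h1] at hM
    exact (Nat.Coprime.coprime_mul_left hM).symm
  have h2m' : Nat.Coprime 2 m' := by
    rw [Nat.Prime.coprime_iff_not_dvd Nat.prime_two]
    intro h
    apply h2m
    rw [hm']
    exact h.trans (dvd_mul_left _ _)
  have hexp : ∀ y : F', y ^ (2 ^ α * q ^ 1) = 1 := by
    rintro ⟨y, hy⟩
    apply Subtype.ext
    change y ^ (2 ^ α * q ^ 1) = 1
    have hy' := hy
    rw [hF'] at hy'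
    obtain ⟨j, hj⟩ := hy'
    have h1 := xz_pow hxn hx hj
    have h2 := hpow _ (hLq _ (hLqL h1))
    have h3 : y ^ (2 ^ (α + 1) * q) = 1 := by
      rw [← h2, ← pow_mul, ← pow_mul]
      congr 1
      ring
    have h4 := orderOf_dvd_of_pow_eq_one h3
    have h5 := orderOf_dvd_of_pow_eq_one (hF y)
    rw [hm', ← mul_assoc] at h5
    apply orderOf_dvd_iff_pow_eq_one.1
    rw [pow_one]
    refine Nat.Coprime.dvd_of_dvd_mul_right ?_ h5
    refine Nat.Coprime.coprime_dvd_left h4 (Nat.Coprime.mul_left ?_ hqm')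
    exact Nat.Coprime.pow_left _ h2m'
  have hsq' : s ∈ Lq := by
    rw [hLqm, hT]
    exact self_mem_Ncl _ _
  have h6 := no_confC (p := 2) (q := q) (β := 1) Nat.prime_two hq hq2.symm hα
    (F := F') hexp (x := ⟨x, hxF'⟩) (Subtype.ext hx) (V.subgroupOf F') (Lq.subgroupOf F')
    ⟨fun v hv g => hV.conj_mem v hv g⟩
    ⟨fun v hv g => ((Subgroup.mem_normalizer_iff.1 (hF'n g.2)) v).1 hv⟩
    (fun v hv => hVq hv) (fun v hv w hw => Subtype.ext (hab v hv w hw))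
    (fun v hv => Subtype.ext (hpow v hv))
    (fun y hy => by
      change (y : F) ^ q ^ 1 ∈ V
      rw [pow_one]
      exact hLq y (hLqL hy))
    (fun a ha b hb => by
      change (a : F) * b * (a : F)⁻¹ * (b : F)⁻¹ ∈ V
      have h7 := hTc _ ((hLqm a).1 ha) _ ((hLqm b).1 hb)
      rw [← QuotientGroup.eq_one_iff]
      change ((a : F) : F ⧸ V) * ((b : F) : F ⧸ V) * ((a : F) : F ⧸ V)⁻¹ *
        ((b : F) : F ⧸ V)⁻¹ = 1
      rw [h7]
      group)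
    (fun y hy hyv => hC y (hLqL hy) fun v hv =>
      congrArg Subtype.val (hyv ⟨v, hLF' (hVq hv)⟩ hv))
    (s := ⟨s, hLF' hsq'⟩) hsq'
  exact h6

/-- the configuration of the theorem does not occur -/
theorem no_confQ {G : Type} [Group G] {M q α m : ℕ} (hq : q.Prime) (hq2 : q ≠ 2)
    (hM : Nat.Coprime M q) (h2M : 2 ∣ M) (hfix : FixQ G q M) (hMm : M * q = 2 ^ α * m)
    (hα : 1 ≤ α) (h2m : ¬ 2 ∣ m)
    {F : Type} [Group F] [Finite F]
    (hI : Im G F) (hF : ∀ x : F, x ^ (2 ^ α * m) = 1) {x : F} (hx : x ^ 2 ^ α = 1)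
    (V L : Subgroup F) [hV : V.Normal] (hVL : V ≤ L)
    (hab : ∀ v ∈ V, ∀ w ∈ V, v * w = w * v) (hpow : ∀ v ∈ V, v ^ 2 = 1)
    (hLq : ∀ y ∈ L, y ^ q ∈ V) (hxL : ∀ y ∈ L, x * y * x⁻¹ ∈ L)
    (hC : ∀ y ∈ L, (∀ v ∈ V, y * v = v * y) → y ∈ V) {s : F} (hs : s ∈ L) :
    x ^ 2 ^ (α - 1) * s * (x ^ 2 ^ (α - 1))⁻¹ * s⁻¹ ∈ V := by
  have hFM : ∀ x : F, x ^ (M * q) = 1 := by
    rw [hMm]
    exact hF
  obtain ⟨a, b, ⟨a', ha'⟩, -, ha, -, -⟩ := crt hM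
  have h1 : (s ^ a) ^ q = 1 := by
    rw [← pow_mul, ha', show M * a' * q = (M * q) * a' from by ring, pow_mul, hFM, one_pow]
  have h2 := no_confQ' hq hq2 hM h2M hfix hMm hα h2m hI hF hx V L hVL hab hpow hLq hxL hC
    (s := s ^ a) (pow_mem hs a) h1
  have h3 : (s : F ⧸ V) ^ a = s := by
    apply ha
    rw [← QuotientGroup.mk_pow, QuotientGroup.eq_one_iff]
    exact hLq s hs
  generalize x ^ 2 ^ (α - 1) = z at h2 ⊢
  rw [← QuotientGroup.eq_one_iff] at h2 ⊢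
  have h4 : (z : F ⧸ V) * (s : F ⧸ V) ^ a * (z : F ⧸ V)⁻¹ * ((s : F ⧸ V) ^ a)⁻¹ = 1 := h2
  rw [h3] at h4
  exact h4

/-- the centraliser lemma for primes dividing the exponent exactly once -/
theorem fixQ {G : Type} [Group G] {n M q : ℕ} (S : Sg n G) (hq : q.Prime) (hM : Nat.Coprime M q)
    (hn : M * q = n) (rM : Rad M G = ⊥) (hex : ∀ s : ℕ, s.Prime → s ∣ M → ∀ r, 1 ≤ r →
      s ^ r ≠ q - 1) : FixQ G q M := by
  intro F _ hI s h τ hs hτN hτs hτ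
  refine cqf (β := 1) S hq hM (by rw [pow_one]; exact hn) rM (fun s hs => ?_) hI
    (by rw [pow_one]; exact hs) hτN hτs hτ
  have h1 := ss_of_maxG S hq ((Nat.Prime.coprime_iff_not_dvd hq).1 hM.symm)
    (by rw [pow_one, mul_comm]; exact hn) le_rfl (x := s) (by
      intro r hr hrM μ hμ1 hμ2 k hk
      have h2 : μ = 1 := le_antisymm hμ2 hμ1
      rw [h2, pow_one]
      exact hex r hr hrM k hk) hs
  rw [Nat.sub_self, pow_zero, pow_one s] at h1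
  exact h1

end Pool.Agent.TH69.Ok
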