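import Mathlib
import Pool.Agent.TH69.OhH
import Pool.Agent.TH69.OkC

set_option autoImplicit false

/-!
# Centralisers of `q`-elements, part D: the theorem of Hall and Higman for the prime two
-/

namespace Pool.Agent.TH69.Ok

open Pool.Agent.H32BU Pool.Agent.W629 Pool.Agent.TH69.Mtn Pool.Agent.TH69.Od Pool.Agent.TH69.Og
open Pool.Agent.TH69.Oh

/-- the configuration of the theorem of Hall and Higman does not occur for the prime `q` in images
of finite soluble subgroups of `G` -/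
def NoC (G : Type) [Group G] (α m q : ℕ) : Prop :=
  ∀ (F : Type) [Group F] [Finite F], Im G F → (∀ x : F, x ^ (2 ^ α * m) = 1) → ∀ x : F,
    x ^ 2 ^ α = 1 → ∀ (V L : Subgroup F) [V.Normal], V ≤ L → (∀ v ∈ V, ∀ w ∈ V, v * w = w * v) →
    (∀ v ∈ V, v ^ 2 = 1) → (∀ y ∈ L, ∃ j : ℕ, y ^ q ^ j ∈ V) → (∀ y ∈ L, x * y * x⁻¹ ∈ L) →
    (∀ y ∈ L, (∀ v ∈ V, y * v = v * y) → y ∈ V) → ∀ s ∈ L,
    x ^ 2 ^ (α - 1) * s * (x ^ 2 ^ (α - 1))⁻¹ * s⁻¹ ∈ V

/-- bounding the exponent -/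
theorem pow_mem_of {F : Type} [Group F] {V : Subgroup F} [V.Normal] {a q β m' : ℕ} (hq : q.Prime)
    (ha : Nat.Coprime q a) (hm' : Nat.Coprime q m') {y : F} (hy : y ^ (a * (q ^ β * m')) = 1)
    {j : ℕ} (hj : y ^ q ^ j ∈ V) : y ^ q ^ β ∈ V := by
  rw [← QuotientGroup.eq_one_iff, QuotientGroup.mk_pow]
  have h1 : (y : F ⧸ V) ^ q ^ j = 1 := by
    rw [← QuotientGroup.mk_pow, QuotientGroup.eq_one_iff]
    exact hj
  have h2 : (y : F ⧸ V) ^ (a * (q ^ β * m')) = 1 := by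
    rw [← QuotientGroup.mk_pow, hy]
    rfl
  apply orderOf_dvd_iff_pow_eq_one.1
  have h3 := orderOf_dvd_of_pow_eq_one h1
  have h4 := orderOf_dvd_of_pow_eq_one h2
  have h5 : Nat.Coprime (orderOf (y : F ⧸ V)) a :=
    Nat.Coprime.coprime_dvd_left h3 (Nat.Coprime.pow_left _ ha)
  have h6 : Nat.Coprime (orderOf (y : F ⧸ V)) m' :=
    Nat.Coprime.coprime_dvd_left h3 (Nat.Coprime.pow_left _ hm')
  exact h6.dvd_of_dvd_mul_right (h5.dvd_of_dvd_mul_left h4)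

/-- the nonexceptional case -/
theorem noC_of_hex {G : Type} [Group G] {α m q : ℕ} (hq : q.Prime) (hq2 : q ≠ 2) (hα : 1 ≤ α)
    (hpm : ¬ 2 ∣ m) (hex : ∀ μ, 1 ≤ μ → μ ≤ α → ∀ r, 1 ≤ r → q ^ r ≠ 2 ^ μ - 1) :
    NoC G α m q := by
  intro F _ _ hI hF x hx V L hV hVL hab hpow hLq hxL hC s hs
  have hm : m ≠ 0 := by
    rintro rfl
    exact hpm (dvd_zero _)
  have h2q : Nat.Coprime 2 q := (Nat.coprime_primes Nat.prime_two hq).2 hq2.symm
  obtain ⟨β, m', hm', hmm⟩ := Nat.exists_eq_pow_mul_and_not_dvd hm q hq.ne_one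
  have hqm' : Nat.Coprime q m' := (Nat.Prime.coprime_iff_not_dvd hq).2 hm'
  have hLQ' : ∀ y ∈ L, y ^ q ^ β ∈ V := by
    intro y hy
    obtain ⟨j, hj⟩ := hLq y hy
    refine pow_mem_of (a := 2 ^ α) hq (Nat.Coprime.pow_right _ h2q.symm) hqm' ?_ hj
    rw [← hmm]
    exact hF y
  have hxn : x ∈ Subgroup.normalizer (L : Set F) := mem_norm (Nat.pow_pos (by norm_num)) hx hxL
  obtain ⟨F', hF'⟩ : ∃ F', F' = XZs L x hxn := ⟨_, rfl⟩
  have hxF' : x ∈ F' := by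
    rw [hF']
    refine ⟨-1, ?_⟩
    rw [zpow_neg_one, mul_inv_cancel]
    exact one_mem _
  have hLF' : L ≤ F' := by
    intro y hy
    rw [hF']
    refine ⟨0, ?_⟩
    rwa [zpow_zero, mul_one]
  have hF'n : F' ≤ Subgroup.normalizer (L : Set F) := by
    intro y hy
    rw [hF'] at hy
    obtain ⟨j, hj⟩ := hy
    have h1 := mul_mem (Subgroup.le_normalizer hj) (inv_mem (zpow_mem hxn j))
    rwa [mul_inv_cancel_right] at h1
  have hpm'' : Nat.Coprime 2 m' := by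
    have hcpm : Nat.Coprime 2 m := (Nat.Prime.coprime_iff_not_dvd Nat.prime_two).2 hpm
    rw [hmm] at hcpm
    exact Nat.Coprime.coprime_mul_left_right hcpm
  have hexp : ∀ y : F', y ^ (2 ^ α * q ^ β) = 1 := by
    rintro ⟨y, hy⟩
    apply Subtype.ext
    change y ^ (2 ^ α * q ^ β) = 1
    have hy' := hy
    rw [hF'] at hy'
    obtain ⟨j, hj⟩ := hy'
    have h1 := xz_pow hxn hx hj
    have h2 := hpow _ (hLQ' _ h1)
    have h3 : y ^ (2 ^ (α + 1) * q ^ β) = 1 := by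
      rw [← h2, ← pow_mul, ← pow_mul]
      congr 1
      ring
    have h4 := orderOf_dvd_of_pow_eq_one h3
    have h5 := orderOf_dvd_of_pow_eq_one (hF y)
    rw [hmm, ← mul_assoc] at h5
    apply orderOf_dvd_iff_pow_eq_one.1
    refine Nat.Coprime.dvd_of_dvd_mul_right ?_ h5
    refine Nat.Coprime.coprime_dvd_left h4 (Nat.Coprime.mul_left ?_ ?_)
    · exact Nat.Coprime.pow_left _ hpm''
    · exact Nat.Coprime.pow_left _ hqm'
  exact no_conf (p := 2) (q := q) (β := β) Nat.prime_two hq hq2.symm hα hex (F := F')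
    hexp (x := ⟨x, hxF'⟩) (Subtype.ext hx) (V.subgroupOf F') (L.subgroupOf F')
    ⟨fun v hv g => hV.conj_mem v hv g⟩
    ⟨fun v hv g => ((Subgroup.mem_normalizer_iff.1 (hF'n g.2)) v).1 hv⟩
    (fun v hv => hVL hv) (fun v hv w hw => Subtype.ext (hab v hv w hw))
    (fun v hv => Subtype.ext (hpow v hv)) (fun y hy => hLQ' y hy)
    (fun y hy hyv => hC y hy fun v hv =>
      congrArg Subtype.val (hyv ⟨v, hLF' (hVL hv)⟩ hv))
    (s := ⟨s, hLF' hs⟩) hs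

/-- decomposition of the exponent -/
theorem fac_once {M q α m : ℕ} (hq : q.Prime) (hq2 : q ≠ 2) (hM : Nat.Coprime M q)
    (hMm : M * q = 2 ^ α * m) : ∃ m', m = q ^ 1 * m' ∧ Nat.Coprime q m' := by
  have h2q : Nat.Coprime 2 q := (Nat.coprime_primes Nat.prime_two hq).2 hq2.symm
  obtain ⟨m', hm'⟩ : q ∣ m := by
    have h1 : q ∣ 2 ^ α * m := by
      rw [← hMm]
      exact dvd_mul_left _ _
    exact Nat.Coprime.dvd_of_dvd_mul_left (Nat.Coprime.pow_right _ h2q.symm) h1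
  refine ⟨m', by rw [pow_one]; exact hm', ?_⟩
  have h1 : M = 2 ^ α * m' := by
    have h2 : M * q = (2 ^ α * m') * q := by
      rw [hMm, hm']
      ring
    exact Nat.eq_of_mul_eq_mul_right hq.pos h2
  rw [h1] at hM
  exact (Nat.Coprime.coprime_mul_left hM).symm

/-- the prime three, dividing the exponent once -/
theorem noC_three {G : Type} [Group G] {n M α m : ℕ} (S : Sg n G) (hM : Nat.Coprime M 3)
    (hn : M * 3 = n) (rM : Rad M G = ⊥) (hα : 1 ≤ α) (h2m : ¬ 2 ∣ m) (hm : 2 ^ α * m = n) :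
    NoC G α m 3 := by
  intro F _ _ hI hF x hx V L hV hVL hab hpow hLq hxL hC s hs
  obtain ⟨m', hm', hqm'⟩ := fac_once Nat.prime_three (by norm_num) hM (hn.trans hm.symm)
  refine no_conf3 S hM hn rM hα h2m hm hI hF hx V L hVL hab hpow (fun y hy => ?_) hxL hC hs
  obtain ⟨j, hj⟩ := hLq y hy
  have h1 := pow_mem_of (a := 2 ^ α) Nat.prime_three (Nat.Coprime.pow_right _ (by norm_num)) hqm'
    (by rw [← hm']; exact hF y) hj
  rwa [pow_one] at h1

/-- primes dividing the exponent once -/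
theorem noC_once {G : Type} [Group G] {n M q α m : ℕ} (S : Sg n G) (hq : q.Prime) (hq2 : q ≠ 2)
    (hM : Nat.Coprime M q) (hn : M * q = n) (rM : Rad M G = ⊥)
    (hex : ∀ s : ℕ, s.Prime → s ∣ M → ∀ r, 1 ≤ r → s ^ r ≠ q - 1) (hα : 1 ≤ α) (h2m : ¬ 2 ∣ m)
    (hm : 2 ^ α * m = n) : NoC G α m q := by
  intro F _ _ hI hF x hx V L hV hVL hab hpow hLq hxL hC s hs
  obtain ⟨m', hm', hqm'⟩ := fac_once hq hq2 hM (hn.trans hm.symm)
  have h2q : Nat.Coprime 2 q := (Nat.coprime_primes Nat.prime_two hq).2 hq2.symm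
  have h2M : 2 ∣ M := by
    have h1 : 2 ∣ M * q := by
      rw [hn, ← hm]
      exact (dvd_pow_self 2 (by omega)).trans (dvd_mul_right _ _)
    exact h2q.dvd_of_dvd_mul_right h1
  refine no_confQ hq hq2 hM h2M (fixQ S hq hM hn rM hex) (hn.trans hm.symm) hα h2m hI hF hx V L hVL
    hab hpow (fun y hy => ?_) hxL hC hs
  obtain ⟨j, hj⟩ := hLq y hy
  have h1 := pow_mem_of (a := 2 ^ α) hq (Nat.Coprime.pow_right _ h2q.symm) hqm'
    (by rw [← hm']; exact hF y) hj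
  rwa [pow_one] at h1

/-- the configuration of the theorem does not occur -/
theorem no_confH {G : Type} [Group G] {α m : ℕ} (hpm : ¬ 2 ∣ m)
    (hNC : ∀ q : ℕ, q.Prime → q ∣ m → NoC G α m q)
    {F : Type} [Group F] [Finite F] (hI : Im G F) (hF : ∀ x : F, x ^ (2 ^ α * m) = 1) {x : F}
    (hx : x ^ 2 ^ α = 1) (V L : Subgroup F) (hV : V.Normal) (hL : L.Normal) (hVL : V ≤ L)
    (hab : ∀ v ∈ V, ∀ w ∈ V, v * w = w * v) (hpow : ∀ v ∈ V, v ^ 2 = 1)
    (hLQ : ∀ x ∈ L, x ^ m ∈ V) (hC : ∀ x ∈ L, (∀ v ∈ V, x * v = v * x) → x ∈ V)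
    {s : F} (hs : s ∈ L) : x ^ 2 ^ (α - 1) * s * (x ^ 2 ^ (α - 1))⁻¹ * s⁻¹ ∈ V := by
  classical
  have hp := Nat.prime_two
  obtain ⟨z, hz⟩ : ∃ z, z = x ^ 2 ^ (α - 1) := ⟨_, rfl⟩
  rw [← hz]
  obtain ⟨L', hL'⟩ : ∃ L', L' = L.map (QuotientGroup.mk' V) := ⟨_, rfl⟩
  have hL'n : L'.Normal := by
    rw [hL']
    exact Subgroup.Normal.map hL _ (QuotientGroup.mk'_surjective V)
  have hL'm : ∀ y ∈ L', y ^ m = 1 := by
    intro y hy
    rw [hL'] at hy
    obtain ⟨l, hl, rfl⟩ := hy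
    have := hLQ l hl
    rw [← QuotientGroup.eq_one_iff, QuotientGroup.mk_pow] at this
    exact this
  have hL'L : ∀ y : F, (y : F ⧸ V) ∈ L' → y ∈ L := by
    intro y hy
    rw [hL'] at hy
    obtain ⟨l, hl, e⟩ := hy
    have h1 : l⁻¹ * y ∈ V := QuotientGroup.eq.1 e
    have h2 := mul_mem hl (hVL h1)
    rwa [mul_inv_cancel_left] at h2
  have hpL' : ¬ 2 ∣ Nat.card L' := by
    intro h
    obtain ⟨y, hy⟩ := exists_prime_orderOf_dvd_card' 2 h
    have h1 : orderOf y ∣ m := orderOf_dvd_of_pow_eq_one (Subtype.ext (hL'm y y.2))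
    rw [hy] at h1
    exact hpm h1
  have key := cov (g := (x : F ⧸ V)) (z := (z : F ⧸ V)) (k := α) hp (L := L') inferInstance
    (by rw [← QuotientGroup.mk_pow, hx]; rfl) hpL' (fun y hy => hL'n.conj_mem y hy _) (by
    intro q hq hqp S' hSL hSq hSx
    by_cases hqm : q ∣ m
    swap
    · -- `S` is trivial
      intro y hy
      obtain ⟨j, hj⟩ := hSq y hy
      have h1 : y = 1 := W629.eq_one_of_coprime
        (Nat.Coprime.pow_left j ((Nat.Prime.coprime_iff_not_dvd hq).2 hqm)) hj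
        (hL'm y (hSL hy))
      rw [h1, mul_one, one_mul]
    -- the preimage
    obtain ⟨Lq, hLq⟩ : ∃ Lq, Lq = S'.comap (QuotientGroup.mk' V) := ⟨_, rfl⟩
    have hLqm : ∀ y : F, y ∈ Lq ↔ (y : F ⧸ V) ∈ S' := by
      intro y
      rw [hLq]
      rfl
    have hVq : V ≤ Lq := by
      intro v hv
      rw [hLqm, (QuotientGroup.eq_one_iff v).2 hv]
      exact one_mem _
    have hLqL : Lq ≤ L := fun y hy => hL'L y (hSL ((hLqm y).1 hy))
    have hxq : ∀ y ∈ Lq, x * y * x⁻¹ ∈ Lq := by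
      intro y hy
      rw [hLqm] at hy ⊢
      exact hSx _ hy
    intro y hy
    obtain ⟨l, rfl⟩ := QuotientGroup.mk_surjective y
    have hl : l ∈ Lq := (hLqm l).2 hy
    have h7 := hNC q hq hqm F hI hF x hx V Lq hVq hab hpow (fun y hy => by
      obtain ⟨j, hj⟩ := hSq _ ((hLqm y).1 hy)
      refine ⟨j, ?_⟩
      rw [← QuotientGroup.eq_one_iff, QuotientGroup.mk_pow]
      exact hj) hxq (fun y hy => hC y (hLqL hy)) l hl
    rw [← hz, ← QuotientGroup.eq_one_iff] at h7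
    have h8 : (z : F ⧸ V) * l * (z : F ⧸ V)⁻¹ * (l : F ⧸ V)⁻¹ = 1 := h7
    rw [mul_inv_eq_one, mul_inv_eq_iff_eq_mul] at h8
    exact h8)
  have h1 := key (s : F ⧸ V) (by rw [hL']; exact ⟨s, hs, rfl⟩)
  rw [← QuotientGroup.eq_one_iff]
  change (z : F ⧸ V) * s * (z : F ⧸ V)⁻¹ * (s : F ⧸ V)⁻¹ = 1
  rw [mul_inv_eq_one, mul_inv_eq_iff_eq_mul]
  exact h1

/-- powers of elements of maximal order -/
theorem ss_of_max2 {G : Type} [Group G] {n α m : ℕ} (S : Sg n G) (hα : 1 ≤ α) (hpm : ¬ 2 ∣ m)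
    (hmn : 2 ^ α * m = n) (hNC : ∀ q : ℕ, q.Prime → q ∣ m → NoC G α m q)
    {x : G} (hx : x ^ 2 ^ α = 1) : SG (2 ^ α) m (x ^ 2 ^ (α - 1)) := by
  have hp := Nat.prime_two
  have hpm' : Nat.Coprime 2 m := (Nat.Prime.coprime_iff_not_dvd hp).2 hpm
  have hexp : ∀ x : G, x ^ (2 ^ α * m) = 1 := by rw [hmn]; exact S.exp
  have hz : (x ^ 2 ^ (α - 1)) ^ 2 ^ α = 1 := by rw [← pow_mul, mul_comm, pow_mul, hx, one_pow]
  refine ⟨hz, fun E hE hEs hzE => ?_⟩
  obtain ⟨z, hzx⟩ : ∃ z, z = x ^ 2 ^ (α - 1) := ⟨_, rfl⟩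
  rw [← hzx] at hz hzE ⊢
  have hh : ∀ (K : Subgroup G), Finite K → Group.IsSolvable K → ∀ x : K, x ^ 2 ^ α = 1 →
      TT (2 ^ α) m ⊤ (x ^ 2 ^ (α - 1)) := by
    intro K hK hKs x hx
    refine ind_TTG hp hpm' (fun F _ z => (∃ x : F, x ^ 2 ^ α = 1 ∧ z = x ^ 2 ^ (α - 1)) ∧ Im G F)
      ?_ ?_ (Nat.card K) K le_rfl (exp_sub hexp K) hKs _ ?_ ⟨⟨x, hx, rfl⟩, Im.self K hK hKs⟩
    · rintro F _ N _ _ ⟨⟨x, hx, rfl⟩, hI⟩
      exact ⟨⟨x, by rw [← QuotientGroup.mk_pow, hx]; rfl, by rw [QuotientGroup.mk_pow]⟩,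
        hI.quot N⟩
    · rintro F _ _ hF _ - ⟨⟨x, hx, rfl⟩, hI⟩ V L hV hL hVL hVab hVp hLQ hC s hs _
      exact no_confH hpm hNC hI hF hx V L hV hL hVL hVab hVp hLQ hC hs
    · rw [← pow_mul, mul_comm, pow_mul, hx, one_pow]
  have key : ∀ f : G, TT (2 ^ α) m (c2 z f) z := by
    intro f
    have hfin := S.fin x f
    have hxm : x ∈ c2 x f := Subgroup.subset_closure (by simp)
    have hfm : f ∈ c2 x f := Subgroup.subset_closure (by simp)
    have h1 := hh (c2 x f) (S.fin x f) (S.sol x f) (⟨x, hxm⟩) (Subtype.ext hx)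
    have h2 := h1.map (c2 x f).subtype
    rw [← MonoidHom.range_eq_map, Subgroup.range_subtype] at h2
    have h3 : (c2 x f).subtype ((⟨x, hxm⟩ : c2 x f) ^ 2 ^ (α - 1)) = z := by
      rw [hzx]
      rfl
    rw [h3] at h2
    refine h2.mono ?_
    unfold c2
    rw [Subgroup.closure_le]
    rintro y (rfl | hy)
    · rw [hzx]
      exact pow_mem hxm _
    · rw [Set.mem_singleton_iff.1 hy]
      exact hfm
  have h4 := bsG hp hpm' (exp_sub hexp E) hEs (z := ⟨z, hzE⟩) (Subtype.ext hz) (by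
    intro f
    refine TT.comap E.subtype E.subtype_injective ?_
    have h5 : (c2 (⟨z, hzE⟩ : E) f).map E.subtype = c2 z (f : G) := by
      unfold c2
      rw [MonoidHom.map_closure, Set.image_pair]
      rfl
    rw [h5]
    exact key f)
  have h5 := h4.map E.subtype
  rw [← MonoidHom.range_eq_map, Subgroup.range_subtype] at h5
  exact h5

end Pool.Agent.TH69.Ok
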