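import Mathlib
import Pool.Agent.TH69.OgL
import Pool.Agent.TH69.OkE

set_option autoImplicit false

/-!
# Centralisers of `q`-elements, part F: admissible exponents
-/

namespace Pool.Agent.TH69.Ok

open Pool.Agent.H32BU Pool.Agent.W629 Pool.Agent.TH69.Mtn Pool.Agent.TH69.Od Pool.Agent.TH69.Og
open Pool.Agent.TH69.Pq

theorem trS' {n : ℕ} (hn : n ≠ 0) (C : Ce n) : TrS n := by
  intro G _ hG h2 hs hR
  refine trivK n C ⟨hn, hG, h2, ?_⟩ hR
  rcases hs with hs | hs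
  · obtain ⟨p, q, a, b, hp, hq, e⟩ := two_primes n (Nat.pos_of_ne_zero hn) hs
    intro x y
    have := h2 x y
    refine solv_of_exp p q a b hp hq fun z => ?_
    rw [← e]
    exact exp_sub hG _ z
  · exact hs

/-- numbers with small odd part -/
theorem ce_small {m : ℕ} (hm : Odd m) (hm2 : m < 11025) {a : ℕ}
    (h : a ≤ 1 ∨ (¬ 9 ∣ m ∧ ¬ 49 ∣ m ∧ ¬ 961 ∣ m)) : Ce (2 ^ a * m) := by
  have hodd : ∀ k, 2 ≤ k → Odd ((2 ^ k - 1) ^ 2) := by
    intro k hk
    apply Odd.pow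
    have h1 : 2 ^ k = 2 * 2 ^ (k - 1) := by
      rw [← pow_succ']
      congr 1
      omega
    have h2 : 0 < 2 ^ (k - 1) := Nat.pow_pos (by norm_num)
    exact ⟨2 ^ (k - 1) - 1, by omega⟩
  constructor
  · intro k hk hd
    rcases h with h | ⟨h9, h49, h961⟩
    · have h1 : 2 ^ 2 ∣ 2 ^ a * m := (pow_dvd_pow 2 hk).trans ((dvd_mul_right _ _).trans hd)
      have h2 : Nat.Coprime (2 ^ 2) m := Nat.Coprime.pow_left 2 (Nat.coprime_two_left.2 hm)
      have h3 : 2 ^ 2 ∣ 2 ^ a := h2.dvd_of_dvd_mul_right h1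
      have h4 := (Nat.pow_dvd_pow_iff_le_right (by norm_num : 1 < 2)).1 h3
      omega
    · have h1 : (2 ^ k - 1) ^ 2 ∣ 2 ^ a * m := (dvd_mul_left _ _).trans hd
      have h2 : Nat.Coprime ((2 ^ k - 1) ^ 2) (2 ^ a) :=
        Nat.Coprime.pow_right _ (Nat.coprime_two_right.2 (hodd k hk))
      have h3 : (2 ^ k - 1) ^ 2 ∣ m := h2.dvd_of_dvd_mul_left h1
      have h4 := Nat.le_of_dvd hm.pos h3
      have h5 : k < 7 := by
        by_contra h5
        have h6 : 2 ^ 7 ≤ 2 ^ k := Nat.pow_le_pow_right (by norm_num) (by omega)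
        have h7 : (2 ^ 7 - 1) ^ 2 ≤ (2 ^ k - 1) ^ 2 := Nat.pow_le_pow_left (by omega) 2
        norm_num at h7
        omega
      have h9' : ∀ c, 9 ∣ c → c ∣ m → False := fun c h1 h2 => h9 (h1.trans h2)
      interval_cases k
      · exact h9 (by simpa using h3)
      · exact h49 (by simpa using h3)
      · exact h9' _ (by norm_num) h3
      · exact h961 (by simpa using h3)
      · exact h9' _ (by norm_num) h3
  · obtain ⟨p, q, hpq⟩ := (cd_small hm hm2).sq
    refine ⟨p, q, fun r hr hr2 h1 => hpq r hr hr2 ?_⟩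
    have h2 : Nat.Coprime (r ^ 2) (2 ^ a) := Nat.Coprime.pow _ _
      ((Nat.coprime_primes hr Nat.prime_two).2 hr2)
    exact (h2.dvd_of_dvd_mul_left h1).trans (dvd_mul_left _ _)

end Pool.Agent.TH69.Ok
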