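import Mathlib
import Pool.Agent.W629.Rad
import Pool.Agent.H32BU.Defs

set_option autoImplicit false

/-!
# Bounded normal series, part A: the radical series and a reduced product argument
-/

namespace Pool.Agent.TH69.Om

open Pool.Agent.H32BU Pool.Agent.W629 Filter

universe u

/-- the number used in the `i`-th step -/
def idx (i : ℕ) : ℕ := (Nat.unpair i).1

/-- the radical series: the `(i+1)`-st term modulo the `i`-th one is the radical for the number
`idx i` -/
noncomputable def RS (n : ℕ) (G : Type u) [Group G] : ℕ → {N : Subgroup G // N.Normal}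
  | 0 => ⟨⊥, inferInstance⟩
  | i + 1 =>
    have : (RS n G i).1.Normal := (RS n G i).2
    ⟨(Rad (qp (idx i) n) (G ⧸ (RS n G i).1)).comap (QuotientGroup.mk' (RS n G i).1), inferInstance⟩

variable {G : Type u} [Group G] {n : ℕ}

theorem RS_zero : (RS n G 0).1 = ⊥ := rfl

theorem RS_succ (i : ℕ) : haveI : (RS n G i).1.Normal := (RS n G i).2
    (RS n G (i + 1)).1 =
      (Rad (qp (idx i) n) (G ⧸ (RS n G i).1)).comap (QuotientGroup.mk' (RS n G i).1) := rfl

theorem RS_le_succ (i : ℕ) : (RS n G i).1 ≤ (RS n G (i + 1)).1 := by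
  have : (RS n G i).1.Normal := (RS n G i).2
  rw [RS_succ]
  intro x hx
  rw [Subgroup.mem_comap]
  have h1 : QuotientGroup.mk' (RS n G i).1 x = 1 := (QuotientGroup.eq_one_iff x).2 hx
  rw [h1]
  exact one_mem _

theorem RS_mono {i j : ℕ} (h : i ≤ j) : (RS n G i).1 ≤ (RS n G j).1 := by
  induction h with
  | refl => exact le_rfl
  | step _ ih => exact ih.trans (RS_le_succ _)

theorem RS_pow (i : ℕ) {x : G} (hx : x ∈ (RS n G (i + 1)).1) : x ^ qp (idx i) n ∈ (RS n G i).1 := by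
  have : (RS n G i).1.Normal := (RS n G i).2
  rw [RS_succ] at hx
  have h1 : (x : G ⧸ (RS n G i).1) ^ qp (idx i) n = 1 := rad_pow hx
  rw [← QuotientGroup.mk_pow, QuotientGroup.eq_one_iff] at h1
  exact h1

/-- the Chinese remainder theorem -/
theorem crt' {P M : ℕ} (h : Nat.Coprime P M) : ∃ b : ℕ, M ∣ b ∧ ∀ {H : Type u} [Group H] (x : H),
    x ^ P = 1 → x ^ b = x := by
  obtain ⟨b, hb1, hb2⟩ := Nat.chineseRemainder h 1 0
  refine ⟨b, (Nat.modEq_zero_iff_dvd).1 hb2, ?_⟩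
  intro H _ x hx
  have h4 : x ^ b = x ^ 1 := by
    rw [pow_eq_pow_iff_modEq]
    exact hb1.of_dvd (orderOf_dvd_of_pow_eq_one hx)
  rw [h4, pow_one]

/-- witnesses for elements outside the series -/
theorem RS_witness (hn : n ≠ 0) (hG : ∀ x : G, x ^ n = 1) {i : ℕ} (hp : (idx i).Prime) {x : G}
    (hx : x ∉ (RS n G (i + 1)).1) (hxP : x ^ qp (idx i) n ∈ (RS n G i).1) :
    ∃ z : G, z ^ qp (idx i) n = 1 ∧ (x * z) ^ qp (idx i) n ∉ (RS n G i).1 := by
  have : (RS n G i).1.Normal := (RS n G i).2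
  obtain ⟨M, hcop, hM⟩ : ∃ M, Nat.Coprime (qp (idx i) n) M ∧ qp (idx i) n * M = n :=
    ⟨n / idx i ^ n.factorization (idx i), Nat.Coprime.pow_left _ (Nat.coprime_ordCompl hp hn),
      Nat.ordProj_mul_ordCompl_eq_self n (idx i)⟩
  obtain ⟨b, ⟨c, hc⟩, hb⟩ := crt'.{u} hcop
  rw [RS_succ, Subgroup.mem_comap, mem_rad] at hx
  have h1 : (QuotientGroup.mk' (RS n G i).1 x) ^ qp (idx i) n = 1 := by
    rw [← map_pow]
    exact (QuotientGroup.eq_one_iff _).2 hxP
  by_contra hcon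
  push Not at hcon
  apply hx
  refine ⟨h1, fun z hz => ?_⟩
  obtain ⟨z, rfl⟩ := QuotientGroup.mk_surjective z
  have h2 : ((z ^ b : G) : G ⧸ (RS n G i).1) = z := by
    rw [QuotientGroup.mk_pow]
    exact hb _ hz
  have h3 := hcon (z ^ b) (by
    rw [← pow_mul, hc]
    have e : M * c * qp (idx i) n = n * c := by
      calc M * c * qp (idx i) n = qp (idx i) n * M * c := by ring
        _ = n * c := by rw [hM]
    rw [e, pow_mul, hG, one_pow])
  rw [← h2]
  have h4 : ((x * z ^ b : G) : G ⧸ (RS n G i).1) ^ qp (idx i) n = 1 := by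
    rw [← QuotientGroup.mk_pow]
    exact (QuotientGroup.eq_one_iff _).2 h3
  exact h4

/-- the elements of the product which lie in a fixed term of the series almost everywhere -/
def lim (n : ℕ) (G : ℕ → Type u) [∀ m, Group (G m)] : Subgroup (∀ m, G m) where
  carrier := {f | ∃ i, ∀ᶠ m in atTop, f m ∈ (RS n (G m) i).1}
  one_mem' := ⟨0, Eventually.of_forall fun _ => one_mem _⟩
  mul_mem' := by
    rintro f g ⟨i, hi⟩ ⟨j, hj⟩
    refine ⟨max i j, ?_⟩
    filter_upwards [hi, hj] with m h1 h2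
    exact mul_mem (RS_mono (le_max_left i j) h1) (RS_mono (le_max_right i j) h2)
  inv_mem' := by
    rintro f ⟨i, hi⟩
    refine ⟨i, ?_⟩
    filter_upwards [hi] with m h1
    exact inv_mem h1

theorem mem_lim {G : ℕ → Type u} [∀ m, Group (G m)] {f : ∀ m, G m} :
    f ∈ lim n G ↔ ∃ i, ∀ᶠ m in atTop, f m ∈ (RS n (G m) i).1 := Iff.rfl

instance lim_normal (n : ℕ) (G : ℕ → Type u) [∀ m, Group (G m)] : (lim n G).Normal := by
  refine ⟨?_⟩
  rintro f ⟨i, hi⟩ g
  refine ⟨i, ?_⟩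
  filter_upwards [hi] with m h1
  exact (RS n (G m) i).2.conj_mem _ h1 _

/-- the radicals of the reduced product are trivial -/
theorem rad_lim (hn : n ≠ 0) (G : ℕ → Type u) [∀ m, Group (G m)] (hG : ∀ m, ∀ x : G m, x ^ n = 1)
    {s : ℕ} (hs : s.Prime) : Rad (qp s n) ((∀ m, G m) ⧸ lim n G) = ⊥ := by
  rw [eq_bot_iff]
  intro x hx
  obtain ⟨x, rfl⟩ := QuotientGroup.mk_surjective x
  rw [Subgroup.mem_bot, QuotientGroup.eq_one_iff]
  by_contra hcon
  have h1 : x ^ qp s n ∈ lim n G := by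
    rw [← QuotientGroup.eq_one_iff, QuotientGroup.mk_pow]
    exact rad_pow hx
  obtain ⟨i0, hi0⟩ := h1
  rw [eventually_atTop] at hi0
  obtain ⟨M0, hM0⟩ := hi0
  have hidx : ∀ k, idx (Nat.pair s (k + i0)) = s := fun k => by
    unfold idx
    rw [Nat.unpair_pair]
  have hge : ∀ k, k + i0 ≤ Nat.pair s (k + i0) := fun k => Nat.right_le_pair _ _
  have h2 : ∀ k : ℕ, ∃ᶠ m in atTop, M0 ≤ m ∧
      x m ∉ (RS n (G m) (Nat.pair s (k + i0) + 1)).1 := by
    intro k
    have h3 : ∃ᶠ m in atTop, x m ∉ (RS n (G m) (Nat.pair s (k + i0) + 1)).1 := by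
      intro h
      apply hcon
      refine ⟨Nat.pair s (k + i0) + 1, ?_⟩
      filter_upwards [h] with m hm
      exact not_not.1 hm
    exact (h3.and_eventually (eventually_ge_atTop M0)).mono fun m hm => ⟨hm.2, hm.1⟩
  obtain ⟨φ, hφ, hφ2⟩ := extraction_forall_of_frequently h2
  have h4 : ∀ k, ∃ z : G (φ k), z ^ qp s n = 1 ∧
      (x (φ k) * z) ^ qp s n ∉ (RS n (G (φ k)) (Nat.pair s (k + i0))).1 := by
    intro k
    obtain ⟨h5, h6⟩ := hφ2 k
    have h7 := RS_witness hn (hG (φ k)) (i := Nat.pair s (k + i0)) (by rw [hidx]; exact hs) h6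
    rw [hidx] at h7
    refine h7 (RS_mono ?_ (hM0 _ h5))
    exact (Nat.le_add_left _ _).trans (hge k)
  have h5 : ∀ m, ∃ z : G m, z ^ qp s n = 1 ∧ ∀ k, φ k = m →
      (x m * z) ^ qp s n ∉ (RS n (G m) (Nat.pair s (k + i0))).1 := by
    intro m
    by_cases hm : ∃ k, φ k = m
    · obtain ⟨k, rfl⟩ := hm
      obtain ⟨z, hz1, hz2⟩ := h4 k
      refine ⟨z, hz1, fun k' hk' => ?_⟩
      rw [hφ.injective hk']
      exact hz2
    · exact ⟨1, one_pow _, fun k hk => absurd ⟨k, hk⟩ hm⟩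
  choose z hz1 hz2 using h5
  have h6 : ((z : ∀ m, G m) : (∀ m, G m) ⧸ lim n G) ^ qp s n = 1 := by
    rw [← QuotientGroup.mk_pow]
    have e : (z : ∀ m, G m) ^ qp s n = 1 := funext fun m => hz1 m
    rw [e]
    rfl
  have h7 := rad_mul hx h6
  rw [← QuotientGroup.mk_mul, ← QuotientGroup.mk_pow, QuotientGroup.eq_one_iff] at h7
  obtain ⟨i, hi⟩ := h7
  rw [eventually_atTop] at hi
  obtain ⟨M1, hM1⟩ := hi
  have h8 := hM1 (φ (max i M1)) ((le_max_right _ _).trans hφ.le_apply)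
  refine hz2 _ (max i M1) rfl (RS_mono ?_ h8)
  exact ((le_max_left i M1).trans (Nat.le_add_right _ _)).trans (hge _)

/-- the radical series has bounded length -/
theorem bounded (hn : n ≠ 0) (V : (G : Type u) → [Group G] → Prop)
    (hexp : ∀ (G : Type u) [Group G], V G → ∀ x : G, x ^ n = 1)
    (hprod : ∀ (G : ℕ → Type u) [∀ i, Group (G i)], (∀ i, V (G i)) → V (∀ i, G i))
    (hquot : ∀ (G : Type u) [Group G] (N : Subgroup G) [N.Normal], V G → V (G ⧸ N))
    (hT : ∀ (G : Type u) [Group G], V G → (∀ s : ℕ, s.Prime → Rad (qp s n) G = ⊥) →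
      ∀ g : G, g = 1) :
    ∃ l : ℕ, ∀ (G : Type u) [Group G], V G → (RS n G l).1 = ⊤ := by
  by_contra hcon
  push Not at hcon
  choose G hG hV hne using hcon
  have h1 : ∀ m, ∃ f : G m, f ∉ (RS n (G m) m).1 := by
    intro m
    by_contra h
    push Not at h
    exact hne m ((Subgroup.eq_top_iff' _).2 h)
  choose f hf using h1
  have h2 := hT _ (hquot _ (lim n G) (hprod G hV))
    (fun s hs => rad_lim hn G (fun m => hexp _ (hV m)) hs) (f : (∀ m, G m) ⧸ lim n G)
  rw [QuotientGroup.eq_one_iff] at h2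
  obtain ⟨i, hi⟩ := h2
  rw [eventually_atTop] at hi
  obtain ⟨M, hM⟩ := hi
  exact hf (max i M) (RS_mono (le_max_left _ _) (hM _ (le_max_right _ _)))

end Pool.Agent.TH69.Om
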