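import Mathlib
import Pool.Agent.TH69.OmA
import Pool.Agent.TH69.OkF

set_option autoImplicit false

/-!
# Bounded normal series, part B: groups with two-generator subgroups of bounded order
-/

namespace Pool.Agent.TH69.Om

open Pool.Agent.H32BU Pool.Agent.W629 Pool.Agent.TH69.Og

universe u

abbrev F2 : Type := FreeGroup (Fin 2)

theorem range_pair {G : Type u} [Group G] (x y : G) :
    (FreeGroup.lift ![x, y]).range = Subgroup.closure {x, y} := by
  rw [FreeGroup.range_lift_eq_closure]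
  congr 1
  ext z
  simp only [Set.mem_range, Fin.exists_fin_two, Matrix.cons_val_zero, Matrix.cons_val_one,
    Set.mem_insert_iff, Set.mem_singleton_iff, eq_comm]

/-- the class of groups attached to a normal subgroup of the free group of rank two -/
def VK (n : ℕ) (K : Subgroup F2) (G : Type u) [Group G] : Prop :=
  (∀ x : G, x ^ n = 1) ∧ ∀ a : Fin 2 → G, K ≤ (FreeGroup.lift a).ker

theorem VK.prod {n : ℕ} {K : Subgroup F2} (G : ℕ → Type u) [∀ i, Group (G i)]
    (h : ∀ i, VK n K (G i)) : VK n K (∀ i, G i) := by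
  refine ⟨fun x => funext fun i => (h i).1 (x i), fun a w hw => ?_⟩
  rw [MonoidHom.mem_ker]
  funext i
  have e : (Pi.evalMonoidHom G i).comp (FreeGroup.lift a) = FreeGroup.lift fun j => a j i := by
    ext j
    simp
  have h1 := (h i).2 (fun j => a j i) hw
  rw [MonoidHom.mem_ker, ← e] at h1
  exact h1

theorem VK.quot {n : ℕ} {K : Subgroup F2} (G : Type u) [Group G] (N : Subgroup G) [N.Normal]
    (h : VK n K G) : VK n K (G ⧸ N) := by
  refine ⟨exp_quot h.1 N, fun a w hw => ?_⟩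
  have h1 : ∀ j, ∃ g : G, (g : G ⧸ N) = a j := fun j => QuotientGroup.mk_surjective (a j)
  choose b hb using h1
  have e : (QuotientGroup.mk' N).comp (FreeGroup.lift b) = FreeGroup.lift a := by
    ext j
    simp [hb]
  have h2 := h.2 b hw
  rw [MonoidHom.mem_ker] at h2 ⊢
  rw [← e, MonoidHom.comp_apply, h2, map_one]

theorem VK.fin {n : ℕ} {K : Subgroup F2} [K.Normal] [Finite (F2 ⧸ K)] {G : Type u} [Group G]
    (h : VK n K G) (x y : G) : Finite (Subgroup.closure {x, y}) := by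
  rw [← range_pair]
  have h1 := h.2 ![x, y]
  have e : (QuotientGroup.lift K (FreeGroup.lift ![x, y]) h1).range =
      (FreeGroup.lift ![x, y]).range := by
    ext z
    constructor
    · rintro ⟨w, rfl⟩
      obtain ⟨w, rfl⟩ := QuotientGroup.mk_surjective w
      exact ⟨w, rfl⟩
    · rintro ⟨w, rfl⟩
      exact ⟨(w : F2 ⧸ K), rfl⟩
  rw [← e]
  exact Finite.of_surjective _ (MonoidHom.rangeRestrict_surjective _)

theorem VK.sol {n : ℕ} {K : Subgroup F2} {d : ℕ} (hd : derivedSeries F2 d ≤ K) {G : Type u}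
    [Group G] (h : VK n K G) (x y : G) : Group.IsSolvable (Subgroup.closure {x, y}) := by
  rw [← range_pair]
  refine ⟨⟨d, ?_⟩⟩
  rw [← map_derivedSeries_eq (MonoidHom.rangeRestrict_surjective (FreeGroup.lift ![x, y])),
    eq_bot_iff]
  rintro _ ⟨w, hw, rfl⟩
  rw [Subgroup.mem_bot]
  exact Subtype.ext (h.2 ![x, y] (hd hw))

theorem bounded_VK {n : ℕ} (hn : n ≠ 0) (T : TrS n) (K : Subgroup F2) [K.Normal]
    [Finite (F2 ⧸ K)] (hs : n.primeFactors.card ≤ 2 ∨ ∃ d, derivedSeries F2 d ≤ K) :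
    ∃ l : ℕ, ∀ (G : Type u) [Group G], VK n K G → (RS n G l).1 = ⊤ := by
  refine bounded hn (fun G _ => VK n K G) (fun G _ h => h.1) (fun G _ h => VK.prod G h)
    (fun G _ N hN h => VK.quot G N h) (fun G _ h hR g => trS_u T G h.1 h.fin ?_ hR g)
  rcases hs with hs | ⟨d, hd⟩
  · exact Or.inl hs
  · exact Or.inr (h.sol hd)

/-- groups whose order is at most `c` embed into the symmetric group of degree `c` -/
theorem exists_perm {H : Type u} [Group H] [Finite H] {c : ℕ} (hc : Nat.card H ≤ c) :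
    ∃ f : H →* Equiv.Perm (Fin c), Function.Injective f := by
  classical
  obtain ⟨e⟩ : Nonempty (H ≃ Fin (Nat.card H)) := ⟨Finite.equivFin H⟩
  let i : H ↪ Fin c := e.toEmbedding.trans (Fin.castLEEmb hc)
  refine ⟨(Equiv.Perm.viaEmbeddingHom i).comp (MulAction.toPermHom H H), ?_⟩
  exact (Equiv.Perm.viaEmbeddingHom_injective i).comp MulAction.toPerm_injective

theorem exists_K (c : ℕ) (sol : Prop) : ∃ K : Subgroup F2, K.Normal ∧ Finite (F2 ⧸ K) ∧
    (sol → ∃ d, derivedSeries F2 d ≤ K) ∧ ∀ (G : Type u) [Group G] (x y : G),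
      Finite (Subgroup.closure {x, y}) → Nat.card (Subgroup.closure {x, y}) ≤ c →
      (sol → Group.IsSolvable (Subgroup.closure {x, y})) → K ≤ (FreeGroup.lift ![x, y]).ker := by
  classical
  have hfin : Finite (F2 →* Equiv.Perm (Fin c)) := Finite.of_equiv _ FreeGroup.lift
  obtain ⟨S, hS⟩ : ∃ S : Set (F2 →* Equiv.Perm (Fin c)),
    S = {f | sol → Group.IsSolvable f.range} := ⟨_, rfl⟩
  let Φ : F2 →* (S → Equiv.Perm (Fin c)) := MonoidHom.pi fun f => f.1
  refine ⟨Φ.ker, inferInstance, ?_, ?_, ?_⟩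
  · exact Finite.of_injective _ (QuotientGroup.kerLift_injective Φ)
  · intro h
    have h1 : ∀ f : S, ∃ d, derivedSeries F2 d ≤ f.1.ker := by
      rintro ⟨f, hf⟩
      rw [hS] at hf
      obtain ⟨⟨d, hd⟩⟩ := hf h
      refine ⟨d, fun w hw => ?_⟩
      have h2 : f.rangeRestrict w ∈ derivedSeries f.range d :=
        map_derivedSeries_le_derivedSeries f.rangeRestrict d (Subgroup.mem_map_of_mem _ hw)
      rw [hd, Subgroup.mem_bot] at h2
      exact congrArg Subtype.val h2
    choose d hd using h1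
    have : Fintype S := Fintype.ofFinite S
    refine ⟨Finset.univ.sup d, fun w hw => ?_⟩
    rw [MonoidHom.mem_ker]
    funext f
    exact hd f (derivedSeries_antitone F2 (Finset.le_sup (Finset.mem_univ f)) hw)
  · intro G _ x y hf hc hs w hw
    obtain ⟨j, hj⟩ := exists_perm hc
    let ψ : F2 →* Subgroup.closure {x, y} := FreeGroup.lift
      ![⟨x, Subgroup.subset_closure (by simp)⟩, ⟨y, Subgroup.subset_closure (by simp)⟩]
    have e : (Subgroup.closure {x, y}).subtype.comp ψ = FreeGroup.lift ![x, y] := by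
      ext k
      fin_cases k <;> simp [ψ]
    have hmem : j.comp ψ ∈ S := by
      rw [hS]
      intro h
      have := hs h
      have h3 : Group.IsSolvable j.range :=
        Group.isSolvable_of_surjective j.rangeRestrict_surjective
      have h4 : (j.comp ψ).range ≤ j.range := by
        rintro _ ⟨w, rfl⟩
        exact ⟨ψ w, rfl⟩
      exact Group.isSolvable_of_isSolvable_injective (Subgroup.inclusion_injective h4)
    have h5 : j (ψ w) = 1 := congrFun ((MonoidHom.mem_ker).1 hw) ⟨_, hmem⟩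
    have h6 : ψ w = 1 := hj (by rw [h5, map_one])
    rw [MonoidHom.mem_ker, ← e, MonoidHom.comp_apply, h6, map_one]

/-- groups with two-generator subgroups of order at most `c` -/
theorem bounded_card {n : ℕ} (hn : n ≠ 0) (T : TrS n) (c : ℕ) :
    ∃ l : ℕ, ∀ (G : Type u) [Group G], (∀ x : G, x ^ n = 1) →
      (∀ x y : G, Finite (Subgroup.closure {x, y}) ∧ Nat.card (Subgroup.closure {x, y}) ≤ c) →
      (n.primeFactors.card ≤ 2 ∨ ∀ x y : G, Group.IsSolvable (Subgroup.closure {x, y})) →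
      (RS n G l).1 = ⊤ := by
  obtain ⟨K, hK1, hK2, hK3, hK4⟩ := exists_K.{u} c (¬ n.primeFactors.card ≤ 2)
  obtain ⟨l, hl⟩ := bounded_VK.{u} hn T K (by
    by_cases h : n.primeFactors.card ≤ 2
    · exact Or.inl h
    · exact Or.inr (hK3 h))
  refine ⟨l, fun G _ hG h2 hs => hl G ⟨hG, fun a => ?_⟩⟩
  have e : a = ![a 0, a 1] := by
    funext k
    fin_cases k <;> rfl
  rw [e]
  exact hK4 G _ _ (h2 _ _).1 (h2 _ _).2 fun h => (hs.resolve_left h) _ _

/-- groups of exponent `n` if `B_{2,n}` is finite -/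
theorem bounded_B {n : ℕ} (hn : n ≠ 0) (T : TrS n)
    (hf : Finite (F2 ⧸ Subgroup.normalClosure (Set.range fun w : F2 => w ^ n)))
    (hs : n.primeFactors.card ≤ 2 ∨
      Group.IsSolvable (F2 ⧸ Subgroup.normalClosure (Set.range fun w : F2 => w ^ n))) :
    ∃ l : ℕ, ∀ (G : Type u) [Group G], (∀ x : G, x ^ n = 1) → (RS n G l).1 = ⊤ := by
  obtain ⟨l, hl⟩ := bounded_VK.{u} hn T
    (Subgroup.normalClosure (Set.range fun w : F2 => w ^ n)) (by
      rcases hs with hs | hs
      · exact Or.inl hs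
      · obtain ⟨⟨d, hd⟩⟩ := hs
        refine Or.inr ⟨d, fun w hw => ?_⟩
        have h2 := map_derivedSeries_le_derivedSeries (QuotientGroup.mk'
          (Subgroup.normalClosure (Set.range fun w : F2 => w ^ n))) d
          (Subgroup.mem_map_of_mem _ hw)
        rw [hd, Subgroup.mem_bot] at h2
        exact (QuotientGroup.eq_one_iff w).1 h2)
  refine ⟨l, fun G _ hG => hl G ⟨hG, fun a => ?_⟩⟩
  refine Subgroup.normalClosure_le_normal ?_
  rintro _ ⟨w, rfl⟩
  rw [SetLike.mem_coe, MonoidHom.mem_ker, map_pow, hG]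

/-- the series -/
theorem series {n l : ℕ} {G : Type u} [Group G] (h : (RS n G l).1 = ⊤) :
    ∃ N : ℕ → Subgroup G, N 0 = ⊥ ∧ N l = ⊤ ∧ ∀ i, (N i).Normal ∧ N i ≤ N (i + 1) ∧
      ∃ p k : ℕ, p.Prime ∧ p ^ k ∣ n ∧ ∀ x ∈ N (i + 1), x ^ p ^ k ∈ N i := by
  refine ⟨fun i => (RS n G i).1, rfl, h, fun i => ⟨(RS n G i).2, RS_le_succ i, ?_⟩⟩
  by_cases hp : (idx i).Prime
  · exact ⟨idx i, n.factorization (idx i), hp, Nat.ordProj_dvd n _, fun x hx => RS_pow i hx⟩
  · refine ⟨2, 0, Nat.prime_two, by simp, fun x hx => ?_⟩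
    have h1 := RS_pow i hx
    unfold qp at h1
    rw [Nat.factorization_eq_zero_of_not_prime _ hp] at h1
    simpa using h1

/-- the general principle -/
theorem principle {n : ℕ} (hn : n ≠ 0) (V : (G : Type u) → [Group G] → Prop)
    (hexp : ∀ (G : Type u) [Group G], V G → ∀ x : G, x ^ n = 1)
    (hprod : ∀ (G : ℕ → Type u) [∀ i, Group (G i)], (∀ i, V (G i)) → V (∀ i, G i))
    (hquot : ∀ (G : Type u) [Group G] (N : Subgroup G) [N.Normal], V G → V (G ⧸ N))
    (hT : ∀ (G : Type u) [Group G], V G → Nontrivial G → ∃ p k : ℕ, p.Prime ∧ p ^ k ∣ n ∧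
      ∃ N : Subgroup G, N.Normal ∧ N ≠ ⊥ ∧ ∀ x ∈ N, x ^ p ^ k = 1) :
    ∃ l : ℕ, ∀ (G : Type u) [Group G], V G → (RS n G l).1 = ⊤ := by
  refine bounded hn V hexp hprod hquot fun G _ hG hR g => ?_
  by_contra hg
  obtain ⟨p, k, hp, hk, N, hN, hN1, hN2⟩ := hT G hG ⟨g, 1, hg⟩
  apply hN1
  rw [eq_bot_iff, ← hR p hp]
  refine le_rad (a := qp p n) (b := n / p ^ n.factorization p)
    (Nat.Coprime.pow_left _ (Nat.coprime_ordCompl hp hn)) (fun x => ?_) N fun x hx => ?_
  · rw [show qp p n * (n / p ^ n.factorization p) = n from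
      Nat.ordProj_mul_ordCompl_eq_self n p]
    exact hexp G hG x
  · obtain ⟨c, hc⟩ : p ^ k ∣ qp p n :=
      pow_dvd_pow p ((hp.pow_dvd_iff_le_factorization hn).1 hk)
    rw [hc, pow_mul, hN2 x hx, one_pow]

end Pool.Agent.TH69.Om
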