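import Mathlib
import Pool.Agent.TH69.EvC

set_option autoImplicit false

/-!
# Groups of exponent `2 ^ a * q ^ b`, part D: minimal subgroups over a dihedral group
-/

namespace Pool.Agent.TH69.Ev

open Pool.Agent.H32BU Pool.Agent.W629 Pool.Agent.TH69.Mtn Pool.Agent.TH69.Pq
open scoped commutatorElement

/-- powers of a generator of a cyclic `2`-group -/
theorem pow_inv {G : Type} [Group G] {σ z : G} {m : ℕ} (h : σ ^ 2 ^ (m + 1) = z) (hz : z ^ 2 = 1)
    {j : ℕ} (hj : ¬ 2 ^ (m + 2) ∣ j) : ∃ l : ℕ, (σ ^ j) ^ l = z := by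
  have hj0 : j ≠ 0 := by
    rintro rfl
    exact hj (dvd_zero _)
  obtain ⟨v, o, ho, rfl⟩ := Nat.exists_eq_two_pow_mul_odd hj0
  have hv : v ≤ m + 1 := by
    by_contra hcon
    apply hj
    exact Dvd.dvd.mul_right (pow_dvd_pow 2 (by omega)) o
  refine ⟨2 ^ (m + 1 - v), ?_⟩
  rw [← pow_mul, show 2 ^ v * o * 2 ^ (m + 1 - v) = 2 ^ (m + 1) * o by
    calc 2 ^ v * o * 2 ^ (m + 1 - v) = 2 ^ v * 2 ^ (m + 1 - v) * o := by ring
      _ = 2 ^ (m + 1) * o := by rw [← pow_add, Nat.add_sub_cancel' hv], pow_mul, h]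
  obtain ⟨t, rfl⟩ := ho
  rw [pow_succ, pow_mul, hz, one_pow, one_mul]

/-- the hypotheses of the step -/
structure Stp (q n m : ℕ) {F : Type} [Group F] (a b ρ z : F) : Prop where
  hF : ∀ x : F, x ^ n = 1
  ql : QL q n F
  ha : a ^ 2 = 1
  hb : b ^ 2 = 1
  hρ : ρ = a * b
  hz : z = ρ ^ 2 ^ (m + 1)
  ord : ρ ^ 2 ^ (m + 2) = 1
  z1 : z ≠ 1
  zR : z ∉ Rad (qp 2 n) F
  min : ∀ H : Subgroup F, a ∈ H → b ∈ H → H ≠ ⊤ → z ∈ Tw.RK (qp 2 n) H
  hP : ∀ s : F, s ^ qp q n = 1 → z * s * z = s⁻¹ → s * b = b * s → s = 1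
  t4 : ∀ s y τ : F, s ^ qp q n = 1 → τ ^ qp 2 n = 1 →
    τ ∈ Subgroup.closure {x : F | x ∈ Subgroup.closure {s, y} ∧ x ^ qp q n = 1} →
    τ * s = s * τ → τ = 1

namespace Stp

variable {q n m : ℕ} {F : Type} [Group F] {a b ρ z : F} (D : Stp q n m a b ρ z)

include D

theorem haa : a * a = 1 := by rw [← pow_two, D.ha]
theorem hbb : b * b = 1 := by rw [← pow_two, D.hb]
theorem inv_a : a⁻¹ = a := (eq_inv_of_mul_eq_one_left D.haa).symm
theorem inv_b : b⁻¹ = b := (eq_inv_of_mul_eq_one_left D.hbb).symm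

theorem a_eq : a = ρ * b := by
  rw [D.hρ, mul_assoc, D.hbb, mul_one]

theorem bρb : b * ρ * b = ρ⁻¹ := by
  rw [D.hρ, mul_inv_rev, D.inv_a, D.inv_b]
  calc b * (a * b) * b = b * a * (b * b) := by group
    _ = b * a := by rw [D.hbb, mul_one]

theorem b_rot (i : ℤ) : b * ρ ^ i = ρ ^ (-i) * b := by
  have h1 : b * ρ ^ i * b⁻¹ = (b * ρ * b⁻¹) ^ i := conj_zpow.symm
  rw [D.inv_b, D.bρb, inv_zpow, ← zpow_neg] at h1
  calc b * ρ ^ i = b * ρ ^ i * (b * b) := by rw [D.hbb, mul_one]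
    _ = (b * ρ ^ i * b) * b := by group
    _ = ρ ^ (-i) * b := by rw [h1]

theorem z_sq : z ^ 2 = 1 := by
  rw [D.hz, ← pow_mul, ← pow_succ, D.ord]

theorem zz : z * z = 1 := by rw [← pow_two, D.z_sq]

theorem inv_z : z⁻¹ = z := (eq_inv_of_mul_eq_one_left D.zz).symm

theorem z_zpow : z = ρ ^ ((2 ^ (m + 1) : ℕ) : ℤ) := by rw [D.hz, zpow_natCast]

theorem zρ : Commute z ρ := by
  rw [D.hz]
  exact (Commute.refl ρ).pow_left _

theorem zb : z * b = b * z := by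
  have h := D.b_rot ((2 ^ (m + 1) : ℕ) : ℤ)
  rw [← D.z_zpow, zpow_neg, ← D.z_zpow, D.inv_z] at h
  exact h.symm

theorem za : z * a = a * z := by
  have h1 : Commute z b := D.zb
  rw [D.a_eq]
  exact (D.zρ.mul_right h1).eq

theorem rot_ne {i : ℤ} (h : ρ ^ i ≠ 1) : ∃ l : ℕ, (ρ ^ i) ^ l = z := by
  have h1 : ρ ^ ((2 ^ (m + 2) : ℕ) : ℤ) = 1 := by rw [zpow_natCast, D.ord]
  have h2 := zpow_eq_zpow_emod i h1
  have h3 : 0 ≤ i % ((2 ^ (m + 2) : ℕ) : ℤ) := Int.emod_nonneg _ (by positivity)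
  obtain ⟨j, hj⟩ := Int.eq_ofNat_of_zero_le h3
  rw [hj, zpow_natCast] at h2
  rw [h2]
  refine pow_inv D.hz.symm D.z_sq fun h4 => h ?_
  obtain ⟨t, rfl⟩ := h4
  rw [h2, pow_mul, D.ord, one_pow]

variable (E : Ex2 q n)

include E

theorem two_rot (i : ℤ) : (ρ ^ i) ^ qp 2 n = 1 := by
  refine E.two_pow D.hF (j := m + 2) ?_
  rw [← zpow_natCast, ← zpow_mul, mul_comm, zpow_mul, zpow_natCast, D.ord, one_zpow]

omit E in
theorem ref_sq (i : ℤ) : (ρ ^ i * b) * (ρ ^ i * b) = 1 := by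
  calc (ρ ^ i * b) * (ρ ^ i * b) = ρ ^ i * (b * ρ ^ i) * b := by group
    _ = ρ ^ i * (ρ ^ (-i) * b) * b := by rw [D.b_rot]
    _ = (ρ ^ i * ρ ^ (-i)) * (b * b) := by group
    _ = 1 := by rw [D.hbb, mul_one, ← zpow_add, add_neg_cancel, zpow_zero]

theorem two_ref (i : ℤ) : (ρ ^ i * b) ^ qp 2 n = 1 :=
  E.two_sq D.hF (by rw [pow_two, D.ref_sq])

omit E in
/-- the dihedral group meets `O_2` trivially -/
theorem disj {d : F} (hd : ∃ i : ℤ, d = ρ ^ i ∨ d = ρ ^ i * b) (hR : d ∈ Rad (qp 2 n) F) :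
    d = 1 := by
  have key : ∀ i : ℤ, ρ ^ i ∈ Rad (qp 2 n) F → ρ ^ i = 1 := by
    intro i hi
    by_contra hne
    obtain ⟨l, hl⟩ := D.rot_ne hne
    exact D.zR (by rw [← hl]; exact pow_mem hi l)
  obtain ⟨i, rfl | rfl⟩ := hd
  · exact key i hR
  · exfalso
    have h1 : (ρ ^ i * b) * (ρ * (ρ ^ i * b) * ρ⁻¹) ∈ Rad (qp 2 n) F :=
      mul_mem hR ((rad_normal (qp 2 n)).conj_mem _ hR ρ)
    have h2 : (ρ ^ i * b) * (ρ * (ρ ^ i * b) * ρ⁻¹) = ρ ^ (-2 : ℤ) := by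
      have e1 : ρ * ρ ^ i = ρ ^ (1 + i) := by rw [zpow_add, zpow_one]
      calc (ρ ^ i * b) * (ρ * (ρ ^ i * b) * ρ⁻¹) = ρ ^ i * (b * (ρ * ρ ^ i)) * b * ρ⁻¹ := by group
        _ = ρ ^ i * (ρ ^ (-(1 + i)) * b) * b * ρ⁻¹ := by rw [e1, D.b_rot]
        _ = ρ ^ i * ρ ^ (-(1 + i)) * (b * b) * ρ⁻¹ := by group
        _ = ρ ^ (-2 : ℤ) := by
          rw [D.hbb, mul_one, ← zpow_add, ← zpow_neg_one ρ, ← zpow_add]
          congr 1
          ring
    rw [h2] at h1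
    have h3 := key _ h1
    apply D.z1
    have h4 : ρ ^ 2 = 1 := by
      rw [zpow_neg, inv_eq_one] at h3
      exact_mod_cast h3
    rw [D.hz, pow_succ', pow_mul, h4, one_pow]

/-- generation -/
theorem gen {s : F} (hs : s ^ qp q n = 1)
    (hc : (z : F ⧸ Rad (qp 2 n) F) * s ≠ s * z) : Subgroup.closure {a, b, s} = ⊤ := by
  by_contra hcon
  have h1 := D.min (Subgroup.closure {a, b, s}) (Subgroup.subset_closure (by simp))
    (Subgroup.subset_closure (by simp)) hcon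
  have hsH : s ∈ Subgroup.closure {a, b, s} := Subgroup.subset_closure (by simp)
  have h2 : z⁻¹ * (s * z * s⁻¹) ∈ Tw.RK (qp 2 n) (Subgroup.closure {a, b, s}) :=
    mul_mem (inv_mem h1) (Tw.RK_conj h1 hsH)
  have h3 := mk_pow (F := F) (n := n) (Tw.RK_pow h2)
  have h4 : ((z⁻¹ * (s * z * s⁻¹) : F) : F ⧸ Rad (qp 2 n) F) ^ qp q n = 1 := by
    have e1 : z⁻¹ * (s * z * s⁻¹) = (z⁻¹ * s * z⁻¹⁻¹) * s⁻¹ := by group
    rw [e1, QuotientGroup.mk_mul]
    refine qmul E D.hF D.ql _ _ ?_ ?_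
    · exact mk_pow (conj_pow_one hs)
    · exact mk_pow (by rw [inv_pow, hs, inv_one])
  have h5 := W629.eq_one_of_coprime E.cop h3 h4
  apply hc
  rw [QuotientGroup.mk_mul, QuotientGroup.mk_mul, QuotientGroup.mk_mul, QuotientGroup.mk_inv,
    QuotientGroup.mk_inv, inv_mul_eq_one, eq_mul_inv_iff_mul_eq] at h5
  exact h5

omit E in
theorem rep {s : F} (hs : Subgroup.closure {a, b, s} = ⊤) (N : Subgroup F) [hN : N.Normal]
    (hsN : s ∈ N) (g : F) : ∃ e ∈ N, ∃ d, (∃ i : ℤ, d = ρ ^ i ∨ d = ρ ^ i * b) ∧ g = e * d := by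
  have key : ∀ g ∈ Subgroup.closure {a, b, s},
      ∃ e ∈ N, ∃ d, (∃ i : ℤ, d = ρ ^ i ∨ d = ρ ^ i * b) ∧ g = e * d := by
    intro g hg
    have hbt : ∀ g : F, (∃ e ∈ N, ∃ d, (∃ i : ℤ, d = ρ ^ i ∨ d = ρ ^ i * b) ∧ g = e * d) →
        (∃ e ∈ N, ∃ d, (∃ i : ℤ, d = ρ ^ i ∨ d = ρ ^ i * b) ∧ b * g = e * d) := by
      rintro g ⟨e, he, d, ⟨i, hd⟩, rfl⟩
      refine ⟨b * e * b⁻¹, hN.conj_mem e he b, b * d, ⟨-i, ?_⟩, by group⟩
      rcases hd with rfl | rfl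
      · right; exact D.b_rot i
      · left
        rw [← mul_assoc, D.b_rot, mul_assoc, D.hbb, mul_one]
    have hρt : ∀ g : F, (∃ e ∈ N, ∃ d, (∃ i : ℤ, d = ρ ^ i ∨ d = ρ ^ i * b) ∧ g = e * d) →
        (∃ e ∈ N, ∃ d, (∃ i : ℤ, d = ρ ^ i ∨ d = ρ ^ i * b) ∧ ρ * g = e * d) := by
      rintro g ⟨e, he, d, ⟨i, hd⟩, rfl⟩
      refine ⟨ρ * e * ρ⁻¹, hN.conj_mem e he ρ, ρ * d, ⟨1 + i, ?_⟩, by group⟩
      rcases hd with rfl | rfl
      · left; rw [zpow_add, zpow_one]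
      · right; rw [zpow_add, zpow_one, mul_assoc]
    have hat : ∀ g : F, (∃ e ∈ N, ∃ d, (∃ i : ℤ, d = ρ ^ i ∨ d = ρ ^ i * b) ∧ g = e * d) →
        (∃ e ∈ N, ∃ d, (∃ i : ℤ, d = ρ ^ i ∨ d = ρ ^ i * b) ∧ a * g = e * d) := by
      intro g hg
      have e1 : a * g = ρ * (b * g) := by rw [← mul_assoc, ← D.a_eq]
      rw [e1]
      exact hρt _ (hbt _ hg)
    have hst : ∀ t ∈ N, ∀ g : F,
        (∃ e ∈ N, ∃ d, (∃ i : ℤ, d = ρ ^ i ∨ d = ρ ^ i * b) ∧ g = e * d) →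
        (∃ e ∈ N, ∃ d, (∃ i : ℤ, d = ρ ^ i ∨ d = ρ ^ i * b) ∧ t * g = e * d) := by
      rintro t ht g ⟨e, he, d, hd, rfl⟩
      exact ⟨t * e, mul_mem ht he, d, hd, by group⟩
    induction hg using Subgroup.closure_induction_left with
    | one => exact ⟨1, one_mem _, 1, ⟨0, Or.inl (zpow_zero _).symm⟩, by group⟩
    | mul_left x hx y hy ih =>
      rcases hx with rfl | rfl | rfl
      · exact hat _ ih
      · exact hbt _ ih
      · exact hst _ hsN _ ih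
    | inv_mul_cancel x hx y hy ih =>
      rcases hx with rfl | rfl | rfl
      · rw [D.inv_a]; exact hat _ ih
      · rw [D.inv_b]; exact hbt _ ih
      · exact hst _ (inv_mem hsN) _ ih
  exact key g (by rw [hs]; exact Subgroup.mem_top g)

theorem two_d {d : F} (hd : ∃ i : ℤ, d = ρ ^ i ∨ d = ρ ^ i * b) : d ^ qp 2 n = 1 := by
  obtain ⟨i, rfl | rfl⟩ := hd
  · exact D.two_rot E i
  · exact D.two_ref E i

omit D E in
theorem closure_q_normal : (Subgroup.closure {x : F | x ^ qp q n = 1}).Normal := by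
  refine ⟨fun x hx g => ?_⟩
  have h1 : Subgroup.closure {x : F | x ^ qp q n = 1} ≤
      (Subgroup.closure {x : F | x ^ qp q n = 1}).comap (MulAut.conj g).toMonoidHom := by
    rw [Subgroup.closure_le]
    intro y hy
    rw [SetLike.mem_coe, Subgroup.mem_comap]
    exact Subgroup.subset_closure (conj_pow_one hy)
  exact h1 hx

/-- `O_2` is contained in the subgroup generated by the `q`-elements -/
theorem R_le {s : F} (hs : s ^ qp q n = 1) (hgen : Subgroup.closure {a, b, s} = ⊤) :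
    Rad (qp 2 n) F ≤ Subgroup.closure {x : F | x ^ qp q n = 1} := by
  intro τ hτ
  have hN := closure_q_normal (F := F) (q := q) (n := n)
  obtain ⟨e, he, d, hd, h1⟩ := D.rep hgen (Subgroup.closure {x : F | x ^ qp q n = 1})
    (Subgroup.subset_closure hs) τ
  have h2 : (d : F ⧸ Rad (qp 2 n) F) = ((e : F) : F ⧸ Rad (qp 2 n) F)⁻¹ := by
    have h3 : ((e * d : F) : F ⧸ Rad (qp 2 n) F) = 1 := by
      rw [← h1, QuotientGroup.eq_one_iff]
      exact hτ
    rw [QuotientGroup.mk_mul] at h3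
    exact eq_inv_of_mul_eq_one_right h3
  have h4 : (d : F ⧸ Rad (qp 2 n) F) ^ qp q n = 1 := by
    rw [h2, inv_pow, mk_of_closure E D.hF D.ql he, inv_one]
  have h5 := D.disj hd (mk_eq_one_of E (D.two_d E hd) h4)
  rw [h1, h5, mul_one]
  exact he

/-- the `q`-elements inverted by a reflection act without fixed points on `O_2` -/
theorem fpf {s : F} (hs : s ^ qp q n = 1) (hc : (z : F ⧸ Rad (qp 2 n) F) * s ≠ s * z)
    {c : F} (hcd : ∃ i : ℤ, c = ρ ^ i * b) (hcs : c * s * c = s⁻¹) :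
    ∀ τ ∈ Rad (qp 2 n) F, τ * s = s * τ → τ = 1 := by
  have hgen := D.gen E hs hc
  obtain ⟨i, hi⟩ := hcd
  have hcc : c * c = 1 := by rw [hi]; exact D.ref_sq i
  have hcρ : c * ρ * c = ρ⁻¹ := by
    rw [hi]
    calc ρ ^ i * b * ρ * (ρ ^ i * b) = ρ ^ i * (b * (ρ * ρ ^ i)) * b := by group
      _ = ρ ^ i * (b * ρ ^ (1 + i)) * b := by rw [zpow_add, zpow_one]
      _ = ρ ^ i * (ρ ^ (-(1 + i)) * b) * b := by rw [D.b_rot]
      _ = ρ ^ i * ρ ^ (-(1 + i)) * (b * b) := by group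
      _ = ρ⁻¹ := by
        rw [D.hbb, mul_one, ← zpow_add, ← zpow_neg_one ρ]
        congr 1
        ring
  have hbc : b = ρ ^ (-i) * c := by
    rw [hi, ← mul_assoc, ← zpow_add, neg_add_cancel, zpow_zero, one_mul]
  obtain ⟨X, hX⟩ : ∃ X : Subgroup F, X = Subgroup.closure {s, ρ} := ⟨_, rfl⟩
  have hsX : s ∈ X := by rw [hX]; exact Subgroup.subset_closure (by simp)
  have hρX : ρ ∈ X := by rw [hX]; exact Subgroup.subset_closure (by simp)
  -- `c` normalises `X`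
  have hcX : ∀ x ∈ X, c * x * c ∈ X := by
    have h1 : X ≤ X.comap (MulAut.conj c).toMonoidHom := by
      conv_lhs => rw [hX]
      rw [Subgroup.closure_le]
      have hc' : c⁻¹ = c := (eq_inv_of_mul_eq_one_left hcc).symm
      rintro y (rfl | hy)
      · rw [SetLike.mem_coe, Subgroup.mem_comap]
        change c * y * c⁻¹ ∈ X
        rw [hc', hcs]
        exact inv_mem hsX
      · rw [Set.mem_singleton_iff.1 hy, SetLike.mem_coe, Subgroup.mem_comap]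
        change c * ρ * c⁻¹ ∈ X
        rw [hc', hcρ]
        exact inv_mem hρX
    intro x hx
    have h2 : c * x * c⁻¹ ∈ X := h1 hx
    rwa [(eq_inv_of_mul_eq_one_left hcc).symm] at h2
  -- `F` is the union of `X` and `X c`
  have hU : ∀ g : F, g ∈ X ∨ g * c ∈ X := by
    have hct : ∀ g : F, (g ∈ X ∨ g * c ∈ X) → (c * g ∈ X ∨ c * g * c ∈ X) := by
      rintro g (h | h)
      · exact Or.inr (hcX g h)
      · left
        have := hcX _ h
        have e : c * (g * c) * c = c * g * (c * c) := by group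
        rwa [e, hcc, mul_one] at this
    have hxt : ∀ x ∈ X, ∀ g : F, (g ∈ X ∨ g * c ∈ X) → (x * g ∈ X ∨ x * g * c ∈ X) := by
      rintro x hx g (h | h)
      · exact Or.inl (mul_mem hx h)
      · right
        rw [mul_assoc]
        exact mul_mem hx h
    have hbt : ∀ g : F, (g ∈ X ∨ g * c ∈ X) → (b * g ∈ X ∨ b * g * c ∈ X) := by
      intro g h
      have h1 := hxt _ (zpow_mem hρX (-i)) _ (hct _ h)
      rw [← mul_assoc, ← hbc] at h1
      exact h1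
    have hat : ∀ g : F, (g ∈ X ∨ g * c ∈ X) → (a * g ∈ X ∨ a * g * c ∈ X) := by
      intro g h
      have h1 := hxt _ hρX _ (hbt _ h)
      rw [← mul_assoc, ← D.a_eq] at h1
      exact h1
    intro g
    have hg : g ∈ Subgroup.closure {a, b, s} := by rw [hgen]; exact Subgroup.mem_top g
    induction hg using Subgroup.closure_induction_left with
    | one => exact Or.inl (one_mem _)
    | mul_left x hx y hy ih =>
      rcases hx with rfl | rfl | rfl
      · exact hat _ ih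
      · exact hbt _ ih
      · exact hxt _ hsX _ ih
    | inv_mul_cancel x hx y hy ih =>
      rcases hx with rfl | rfl | rfl
      · rw [D.inv_a]; exact hat _ ih
      · rw [D.inv_b]; exact hbt _ ih
      · exact hxt _ (inv_mem hsX) _ ih
  have hqX : ∀ x : F, x ^ qp q n = 1 → x ∈ X := by
    intro x hx
    rcases hU x with h | h
    · exact h
    · have h1 : x ^ 2 ∈ X := by
        have h2 := mul_mem h (hcX _ h)
        have e : x * c * (c * (x * c) * c) = x * (c * c) * x * (c * c) := by group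
        rw [e, hcc, mul_one, mul_one, ← pow_two] at h2
        exact h2
      obtain ⟨l, hl⟩ := E.half hx
      rw [← hl]
      exact pow_mem h1 l
  intro τ hτ hτs
  refine D.t4 s ρ τ hs (rad_pow hτ) ?_ hτs
  refine Subgroup.closure_mono ?_ (D.R_le E hs hgen hτ)
  intro x hx
  exact ⟨by rw [← hX]; exact hqX x hx, hx⟩

/-- normal subgroups of the quotient containing a `q`-element not centralised by `z` -/
theorem genQ (N : Subgroup (F ⧸ Rad (qp 2 n) F)) [hN : N.Normal] {x : F ⧸ Rad (qp 2 n) F}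
    (hx : x ^ qp q n = 1) (hxN : x ∈ N) (hc : (z : F ⧸ Rad (qp 2 n) F) * x ≠ x * z) :
    ∀ h : F ⧸ Rad (qp 2 n) F, h ^ qp q n = 1 → h ∈ N := by
  obtain ⟨s, hs, rfl⟩ := lift_q E D.hF x hx
  have hgen := D.gen E hs hc
  intro h hh
  obtain ⟨g, rfl⟩ := QuotientGroup.mk_surjective h
  obtain ⟨e, he, d, hd, h1⟩ := D.rep hgen (N.comap (QuotientGroup.mk' (Rad (qp 2 n) F))) hxN g
  have heN : (e : F ⧸ Rad (qp 2 n) F) ∈ N := he
  have hdN : (d : F ⧸ Rad (qp 2 n) F) ∈ N := by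
    apply E.mem_of_pow
    · rw [mk_pow (D.two_d E hd)]
      exact one_mem _
    · have h2 : (d : F ⧸ Rad (qp 2 n) F) = (e : F ⧸ Rad (qp 2 n) F)⁻¹ * g := by
        rw [h1, QuotientGroup.mk_mul]
        group
      rw [h2]
      rw [← QuotientGroup.eq_one_iff, QuotientGroup.mk_pow, QuotientGroup.mk_mul,
        QuotientGroup.mk_inv, (QuotientGroup.eq_one_iff (e : F ⧸ Rad (qp 2 n) F)).2 heN, inv_one,
        one_mul, ← QuotientGroup.mk_pow, hh]
      rfl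
  rw [h1, QuotientGroup.mk_mul]
  exact mul_mem heN hdN

end Stp

end Pool.Agent.TH69.Ev
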