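import Mathlib
import Pool.Agent.TH69.EvD

set_option autoImplicit false

/-!
# Groups of exponent `2 ^ a * q ^ b`, part E: the step, finite form
-/

namespace Pool.Agent.TH69.Ev

open Pool.Agent.H32BU Pool.Agent.W629 Pool.Agent.TH69.Mtn Pool.Agent.TH69.Pq
open scoped commutatorElement

theorem perfect_bot {G : Type} [Group G] (hG : Group.IsSolvable G) (N : Subgroup G)
    (h : N ≤ ⁅N, N⁆) : N = ⊥ := by
  have h1 : ∀ k, N ≤ derivedSeries G k := by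
    intro k
    induction k with
    | zero => exact le_top
    | succ k ih =>
      rw [derivedSeries_succ]
      exact le_trans h (Subgroup.commutator_mono ih ih)
  obtain ⟨k, hk⟩ := hG.solvable
  rw [eq_bot_iff, ← hk]
  exact h1 k

/-- the chosen reflection and `q`-element -/
structure Ch (q n m : ℕ) {F : Type} [Group F] (a b ρ z c s : F) : Prop
    extends Stp q n m a b ρ z where
  hc : c = b ∨ c = z * b
  hs : s ^ qp q n = 1
  sq : s ^ q = 1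
  s1 : (s : F ⧸ Rad (qp 2 n) F) ≠ 1
  zs : (z : F ⧸ Rad (qp 2 n) F) * s * z = (s : F ⧸ Rad (qp 2 n) F)⁻¹
  cs : (c : F ⧸ Rad (qp 2 n) F) * s = s * c
  fp : ∀ τ ∈ Rad (qp 2 n) F, τ * s = s * τ → τ = 1

variable {q n m : ℕ} {F : Type} [Group F]

theorem Stp.exists_ch [Finite F] {a b ρ z : F} (D : Stp q n m a b ρ z) (E : Ex2 q n) :
    ∃ c s : F, Ch q n m a b ρ z c s := by
  have hne : ∃ u : F ⧸ Rad (qp 2 n) F, u ^ qp q n = 1 ∧ (z : F ⧸ Rad (qp 2 n) F) * u ≠ u * z := by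
    by_contra hcon
    push Not at hcon
    exact D.zR (mem_R E D.hF (E.two_sq D.hF D.z_sq) hcon)
  have hsol : Group.IsSolvable (F ⧸ Rad (qp 2 n) F) := by
    have := solvF E D.hF
    exact Group.isSolvable_of_surjective (QuotientGroup.mk'_surjective (Rad (qp 2 n) F))
  obtain ⟨r0, h1, h2, h3, h4⟩ := ev E (qmul E D.hF D.ql) hsol (mk_pow D.z_sq) (mk_pow D.hb)
    (mk_comm D.zb) hne
  obtain ⟨j, h5, h6⟩ := exists_order_q E h1 h2
  obtain ⟨r, hr⟩ : ∃ r, r = r0 ^ j := ⟨_, rfl⟩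
  rw [← hr] at h5 h6
  have hrβ : r ^ qp q n = 1 := by rw [hr, ← pow_mul, mul_comm, pow_mul, h1, one_pow]
  have hz' : ((z : F) : F ⧸ Rad (qp 2 n) F)⁻¹ = z := by
    rw [← QuotientGroup.mk_inv, D.inv_z]
  have hzr : (z : F ⧸ Rad (qp 2 n) F) * r * z = r⁻¹ := by
    have e1 : (z : F ⧸ Rad (qp 2 n) F) * r0 ^ j * (z : F ⧸ Rad (qp 2 n) F)⁻¹ =
        ((z : F ⧸ Rad (qp 2 n) F) * r0 * (z : F ⧸ Rad (qp 2 n) F)⁻¹) ^ j := conj_pow.symm
    rw [hz', h3] at e1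
    rw [hr, e1, inv_pow]
  have hcr : ∃ c : F, (c = b ∨ c = z * b) ∧ (c : F ⧸ Rad (qp 2 n) F) * r = r * c := by
    rcases h4 with h4 | h4
    · exact ⟨b, Or.inl rfl, by
        have h7 : Commute (b : F ⧸ Rad (qp 2 n) F) r0 := h4
        rw [hr]
        exact (h7.pow_right j).eq⟩
    · refine ⟨z * b, Or.inr rfl, ?_⟩
      rw [QuotientGroup.mk_mul]
      have h7 : Commute ((z : F ⧸ Rad (qp 2 n) F) * b) r0 := h4
      rw [hr]
      exact (h7.pow_right j).eq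
  obtain ⟨c, hc, hcr⟩ := hcr
  -- the reflections
  have hci : ∃ i : ℤ, c = ρ ^ i * b := by
    rcases hc with rfl | rfl
    · exact ⟨0, by rw [zpow_zero, one_mul]⟩
    · exact ⟨_, by rw [← D.z_zpow]⟩
  obtain ⟨i, hi⟩ := hci
  have hcc : c * c = 1 := by rw [hi]; exact D.ref_sq i
  have hzc : z * c = c * z := by
    have h8 : Commute z b := D.zb
    rcases hc with rfl | rfl
    · exact D.zb
    · exact ((Commute.refl z).mul_right h8).eq
  have hc1 : ∃ i : ℤ, z * c = ρ ^ i * b :=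
    ⟨((2 ^ (m + 1) : ℕ) : ℤ) + i, by rw [zpow_add, ← D.z_zpow, hi]; group⟩
  have hc1sq : (z * c) ^ 2 = 1 := by
    obtain ⟨i1, hi1⟩ := hc1
    rw [hi1, pow_two, D.ref_sq]
  have hcc' : (c : F ⧸ Rad (qp 2 n) F) * c = 1 := by
    rw [← QuotientGroup.mk_mul, hcc]
    rfl
  have hc1r : ((z * c : F) : F ⧸ Rad (qp 2 n) F) * r * ((z * c : F) : F ⧸ Rad (qp 2 n) F) =
      r⁻¹ := by
    rw [← hzr]
    nth_rw 2 [hzc]
    rw [QuotientGroup.mk_mul, QuotientGroup.mk_mul]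
    calc (z : F ⧸ Rad (qp 2 n) F) * c * r * (c * z) = z * (c * r) * c * z := by group
      _ = z * (r * c) * c * z := by rw [hcr]
      _ = z * r * (c * c) * z := by group
      _ = z * r * z := by rw [hcc', mul_one]
  obtain ⟨s, hs, hcs, hsr⟩ := li E D.hF hc1sq hrβ hc1r
  have hzs : (z : F ⧸ Rad (qp 2 n) F) * s ≠ s * z := by
    rw [hsr]
    intro h
    apply h6
    have h7 : r⁻¹ = r := by
      rw [← hzr, h, mul_assoc, ← QuotientGroup.mk_mul, D.zz, QuotientGroup.mk_one, mul_one]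
    apply E.one_of_sq hrβ
    rw [pow_two]
    nth_rw 1 [← h7]
    exact inv_mul_cancel r
  refine ⟨c, s, D, hc, hs, ?_, by rw [hsr]; exact h6, by rw [hsr]; exact hzr, by rw [hsr]; exact hcr,
    D.fpf E hs hzs hc1 hcs⟩
  have h8 : s ^ q ∈ Rad (qp 2 n) F := by
    rw [← QuotientGroup.eq_one_iff, QuotientGroup.mk_pow, hsr, h5]
  refine W629.eq_one_of_coprime E.cop (rad_pow h8) ?_
  rw [← pow_mul, mul_comm, pow_mul, hs, one_pow]

namespace Ch

variable {a b ρ z c s : F} (D : Ch q n m a b ρ z c s) (E : Ex2 q n)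

include D

theorem exists_i : ∃ i : ℤ, c = ρ ^ i * b := by
  rcases D.hc with h | h
  · exact ⟨0, by rw [zpow_zero, one_mul]; exact h⟩
  · exact ⟨_, by rw [← D.z_zpow]; exact h⟩

theorem cc : c * c = 1 := by
  obtain ⟨i, hi⟩ := D.exists_i
  rw [hi]
  exact D.ref_sq i

theorem c_inv : c⁻¹ = c := (eq_inv_of_mul_eq_one_left D.cc).symm

/-- `z b` is conjugate to `b` -/
theorem conj_zb : ρ ^ 2 ^ m * b * (ρ ^ 2 ^ m)⁻¹ = z * b := by
  have h1 := D.b_rot (-((2 ^ m : ℕ) : ℤ))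
  rw [neg_neg] at h1
  have h2 : (ρ ^ 2 ^ m)⁻¹ = ρ ^ (-((2 ^ m : ℕ) : ℤ)) := by rw [zpow_neg, zpow_natCast]
  rw [h2, mul_assoc, h1, ← mul_assoc]
  congr 1
  rw [D.hz, zpow_natCast, ← pow_add, ← two_mul, ← pow_succ']

/-- the product of the reflections -/
theorem σ_pow : (c * a) ^ 2 ^ (m + 1) = z := by
  have h1 : b * a = ρ⁻¹ := by rw [D.hρ, mul_inv_rev, D.inv_a, D.inv_b]
  have h2 : (ρ⁻¹) ^ 2 ^ (m + 1) = z := by rw [inv_pow, ← D.hz, D.inv_z]
  rcases D.hc with h | h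
  · rw [h, h1, h2]
  · have h3 : Commute z ρ⁻¹ := D.zρ.inv_right
    rw [h, mul_assoc, h1, h3.mul_pow, h2, pow_succ', pow_mul, D.z_sq, one_pow, one_mul]

theorem σ_rot : ∃ i : ℤ, c * a = ρ ^ i := by
  have h1 : b * a = ρ⁻¹ := by rw [D.hρ, mul_inv_rev, D.inv_a, D.inv_b]
  rcases D.hc with h | h
  · exact ⟨-1, by rw [h, h1, zpow_neg_one]⟩
  · refine ⟨((2 ^ (m + 1) : ℕ) : ℤ) + (-1), ?_⟩
    rw [zpow_add, ← D.z_zpow, zpow_neg_one, h, mul_assoc, h1]

theorem σ_ord : (c * a) ^ 2 ^ (m + 2) = 1 := by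
  rw [pow_succ, pow_mul, D.σ_pow, D.z_sq]

/-- `O_2` is nontrivial -/
theorem R_ne : Rad (qp 2 n) F ≠ ⊥ := by
  intro hR
  have hinj : ∀ x y : F, (x : F ⧸ Rad (qp 2 n) F) = y → x = y := by
    intro x y h
    rw [QuotientGroup.eq, hR, Subgroup.mem_bot, inv_mul_eq_one] at h
    exact h
  have h1 : z * s * z = s⁻¹ := hinj _ _ D.zs
  have h2 : c * s = s * c := hinj _ _ D.cs
  have h3 : s ≠ 1 := fun h => D.s1 (by rw [h]; rfl)
  rcases D.hc with h | h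
  · rw [h] at h2
    exact h3 (D.hP s D.hs h1 h2.symm)
  · obtain ⟨g, hg⟩ : ∃ g, g = ρ ^ 2 ^ m := ⟨_, rfl⟩
    have hgb : g * b * g⁻¹ = c := by rw [hg, D.conj_zb, h]
    have hzg : z * g = g * z := by
      rw [hg]
      exact (D.zρ.pow_right _).eq
    have h4 : g⁻¹ * s * g = 1 := by
      refine D.hP (g⁻¹ * s * g) (conj_pow_one' D.hs) ?_ ?_
      · have hzg' : z * g⁻¹ = g⁻¹ * z := by
          rw [eq_inv_mul_iff_mul_eq, ← mul_assoc, ← hzg, mul_assoc, mul_inv_cancel, mul_one]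
        calc z * (g⁻¹ * s * g) * z = (z * g⁻¹) * s * (g * z) := by group
          _ = (g⁻¹ * z) * s * (z * g) := by rw [hzg', hzg]
          _ = g⁻¹ * (z * s * z) * g := by group
          _ = (g⁻¹ * s * g)⁻¹ := by rw [h1]; group
      · calc g⁻¹ * s * g * b = g⁻¹ * (s * (g * b * g⁻¹)) * g := by group
          _ = g⁻¹ * ((g * b * g⁻¹) * s) * g := by rw [hgb, h2]
          _ = b * (g⁻¹ * s * g) := by group
    apply h3
    calc s = g * (g⁻¹ * s * g) * g⁻¹ := by group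
      _ = 1 := by rw [h4]; group

include E

/-- elements of the commutator subgroup of the `q`-part are central in it -/
theorem class_two [Finite F] (h : F ⧸ Rad (qp 2 n) F) (hh : h ^ qp q n = 1) :
    (s : F ⧸ Rad (qp 2 n) F)⁻¹ * h⁻¹ * s * h * s = s * ((s : F ⧸ Rad (qp 2 n) F)⁻¹ * h⁻¹ * s * h) ∧
    (s : F ⧸ Rad (qp 2 n) F)⁻¹ * h⁻¹ * s * h * h = h * ((s : F ⧸ Rad (qp 2 n) F)⁻¹ * h⁻¹ * s * h) := by
  have hsol : Group.IsSolvable (F ⧸ Rad (qp 2 n) F) := by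
    have := solvF E D.hF
    exact Group.isSolvable_of_surjective (QuotientGroup.mk'_surjective (Rad (qp 2 n) F))
  obtain ⟨S, hS⟩ : ∃ S, S = Sq (qp q n) (qmul E D.hF D.ql) := ⟨_, rfl⟩
  have hSm : ∀ u, u ∈ S ↔ u ^ qp q n = 1 := fun u => by rw [hS]; rfl
  have hSn : S.Normal := by rw [hS]; exact Sq_normal _ _
  have hCn : ⁅S, S⁆.Normal := Subgroup.commutator_normal S S
  have hCS : ⁅S, S⁆ ≤ S := Subgroup.commutator_le_left S S
  have hsβ : (s : F ⧸ Rad (qp 2 n) F) ^ qp q n = 1 := mk_pow D.hs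
  have hzC : ∀ x ∈ ⁅S, S⁆, (z : F ⧸ Rad (qp 2 n) F) * x = x * z := by
    intro x hx
    by_contra hne
    have h1 := D.genQ E ⁅S, S⁆ ((hSm x).1 (hCS hx)) hx hne
    have h2 := perfect_bot hsol S fun y hy => h1 y ((hSm y).1 hy)
    apply D.s1
    have h3 : (s : F ⧸ Rad (qp 2 n) F) ∈ S := (hSm _).2 hsβ
    rw [h2] at h3
    exact h3
  have hsC : ∀ x ∈ ⁅S, S⁆, (s : F ⧸ Rad (qp 2 n) F) * x = x * s := fun x hx =>
    comm_fixed E (mk_pow D.z_sq) hsβ D.zs ⁅S, S⁆ hzC hx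
  have hne : (z : F ⧸ Rad (qp 2 n) F) * s ≠ s * z := by
    intro h1
    apply D.s1
    have h2 := D.zs
    rw [h1, mul_assoc, ← QuotientGroup.mk_mul, D.zz, QuotientGroup.mk_one, mul_one] at h2
    apply E.one_of_sq hsβ
    rw [pow_two]
    nth_rw 1 [h2]
    exact inv_mul_cancel _
  have hcent : (Subgroup.centralizer ((⁅S, S⁆ : Subgroup (F ⧸ Rad (qp 2 n) F)) : Set (F ⧸ Rad (qp 2 n) F))).Normal := by
    refine ⟨fun x hx g => ?_⟩
    rw [Subgroup.mem_centralizer_iff] at hx ⊢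
    intro y hy
    have h1 : g⁻¹ * y * g ∈ ⁅S, S⁆ := by
      have := hCn.conj_mem y hy g⁻¹
      rwa [inv_inv] at this
    have h2 := hx _ h1
    calc y * (g * x * g⁻¹) = g * ((g⁻¹ * y * g) * x) * g⁻¹ := by group
      _ = g * (x * (g⁻¹ * y * g)) * g⁻¹ := by rw [h2]
      _ = g * x * g⁻¹ * y := by group
  have hall := D.genQ E (Subgroup.centralizer ((⁅S, S⁆ : Subgroup (F ⧸ Rad (qp 2 n) F)) : Set (F ⧸ Rad (qp 2 n) F))) hsβ
    (by
      rw [Subgroup.mem_centralizer_iff]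
      intro y hy
      exact (hsC y hy).symm) hne
  have hζ : (s : F ⧸ Rad (qp 2 n) F)⁻¹ * h⁻¹ * s * h ∈ ⁅S, S⁆ := by
    have h1 : ⁅(s : F ⧸ Rad (qp 2 n) F)⁻¹, h⁻¹⁆ ∈ ⁅S, S⁆ :=
      Subgroup.commutator_mem_commutator (inv_mem ((hSm _).2 hsβ)) (inv_mem ((hSm _).2 hh))
    rw [commutatorElement_def, inv_inv, inv_inv] at h1
    exact h1
  refine ⟨(hsC _ hζ).symm, ?_⟩
  exact (Subgroup.mem_centralizer_iff.1 (hall h hh)) _ hζ

variable {M : Type} [AddCommGroup M] {A : F →* AddMonoid.End M} {π : Rad (qp 2 n) F → M}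
  (K : Md (Rad (qp 2 n) F) M A π)

include K

omit D in
theorem cop_q (X : AddMonoid.End M) (h : (q : AddMonoid.End M) * X = 0) : X = 0 :=
  K.op_tors (fun _ hx => rad_pow hx)
    (Nat.Coprime.pow_left _ ((Nat.coprime_primes Nat.prime_two E.hq).2 E.hq2.symm)) h

omit E in
theorem norm_s [Finite F] : ∑ i ∈ Finset.range q, (A s) ^ i = 0 :=
  K.norm D.fp (by rw [← map_pow, D.sq, map_one])

/-- the operators of `q`-elements commute with the operator of `s` -/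
theorem op_comm [Finite F] (h : F) (hh : (h : F ⧸ Rad (qp 2 n) F) ^ qp q n = 1) :
    A s * A h = A h * A s := by
  obtain ⟨h1, h2⟩ := D.class_two E (h : F ⧸ Rad (qp 2 n) F) hh
  obtain ⟨ζ, hζ⟩ : ∃ ζ, ζ = s⁻¹ * h⁻¹ * s * h := ⟨_, rfl⟩
  have hζq : (ζ : F ⧸ Rad (qp 2 n) F) =
      (s : F ⧸ Rad (qp 2 n) F)⁻¹ * (h : F ⧸ Rad (qp 2 n) F)⁻¹ * s * h := by
    rw [hζ]
    rfl
  rw [← hζq] at h1 h2
  have c1 : Commute (A s) (A ζ) := by
    change A s * A ζ = A ζ * A s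
    rw [← map_mul, ← map_mul]
    exact (K.eq_of_mk h1).symm
  have c2 : Commute (A h) (A ζ) := by
    change A h * A ζ = A ζ * A h
    rw [← map_mul, ← map_mul]
    exact (K.eq_of_mk h2).symm
  have hrel0 : h⁻¹ * s * h = s * ζ := by rw [hζ]; group
  have hZ : (A ζ) ^ q = 1 := by
    have h3 : (s * ζ) ^ q = 1 := by rw [← hrel0]; exact conj_pow_one' D.sq
    have h4 := congrArg A h3
    rw [map_pow, map_mul, c1.mul_pow, ← map_pow, D.sq, map_one, one_mul] at h4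
    exact h4
  have hrel : (↑(A.toHomUnits h)⁻¹ : AddMonoid.End M) * A s * ↑(A.toHomUnits h) = A s * A ζ := by
    rw [← map_inv, MonoidHom.coe_toHomUnits, MonoidHom.coe_toHomUnits, ← map_mul, ← map_mul,
      ← map_mul, hrel0]
  have h5 := ring_center E.hq (H := A.toHomUnits h) (D.norm_s K) hZ c1 c2 hrel
  have h6 := cop_q E K _ h5
  rw [sub_eq_zero] at h6
  have h7 : s * h = h * (s * ζ) := by rw [hζ]; group
  rw [← map_mul, h7, map_mul, map_mul, h6, mul_one]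

end Ch

end Pool.Agent.TH69.Ev
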