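import Mathlib
import Pool.Agent.TH69.EvE

set_option autoImplicit false

/-!
# Groups of exponent `2 ^ a * q ^ b`, part F: the step, end of the finite form
-/

namespace Pool.Agent.TH69.Ev

open Pool.Agent.H32BU Pool.Agent.W629 Pool.Agent.TH69.Mtn Pool.Agent.TH69.Pq
open scoped commutatorElement

variable {q n m : ℕ} {F : Type} [Group F]

namespace Ch

variable {a b ρ z c s : F} (D : Ch q n m a b ρ z c s) (E : Ex2 q n)

include D E

theorem exists_a1 [Finite F] : ∃ a1 : F, a1 * s = s * a1 ∧ a1 ^ 2 = 1 ∧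
    (a1 : F ⧸ Rad (qp 2 n) F) = c := by
  have hRn : (Rad (qp 2 n) F).Normal := rad_normal (qp 2 n)
  obtain ⟨ν, hν, h1⟩ := Tw.conj_lift (p := q) (k := n.factorization q) E.hq (Rad (qp 2 n) F)
    (Tw.not_dvd_card E.hq
      (Nat.Coprime.pow_right _ ((Nat.coprime_primes E.hq Nat.prime_two).2 E.hq2)) _
      (r := qp 2 n) fun z hz => rad_pow hz)
    (s := s) (s' := c * s * c⁻¹) D.hs (conj_pow_one D.hs)
    (fun x hx => hRn.conj_mem x hx s)
    (by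
      rw [← QuotientGroup.eq_one_iff]
      rw [QuotientGroup.mk_mul, QuotientGroup.mk_mul, QuotientGroup.mk_mul,
        QuotientGroup.mk_inv, QuotientGroup.mk_inv, D.cs]
      group)
  have h2 : (ν⁻¹ * c) * s = s * (ν⁻¹ * c) := by
    calc (ν⁻¹ * c) * s = ν⁻¹ * (c * s * c⁻¹) * c := by group
      _ = ν⁻¹ * (ν * s * ν⁻¹) * c := by rw [h1]
      _ = s * (ν⁻¹ * c) := by group
  refine ⟨ν⁻¹ * c, h2, ?_, ?_⟩
  · apply D.fp
    · have e1 : (ν⁻¹ * c) ^ 2 = ν⁻¹ * (c * ν⁻¹ * c⁻¹) * (c * c) := by rw [pow_two]; group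
      rw [e1, D.cc, mul_one]
      exact mul_mem (inv_mem hν) (hRn.conj_mem _ (inv_mem hν) c)
    · have h3 : Commute (ν⁻¹ * c) s := h2
      exact (h3.pow_left 2).eq
  · rw [QuotientGroup.mk_mul, QuotientGroup.mk_inv, (QuotientGroup.eq_one_iff ν).2 hν, inv_one,
      one_mul]

variable {M : Type} [AddCommGroup M] {A : F →* AddMonoid.End M} {π : Rad (qp 2 n) F → M}
  (K : Md (Rad (qp 2 n) F) M A π)

include K

theorem norm_e [Finite F] (j : ℕ) (hj : ¬ 2 ^ (m + 2) ∣ j) :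
    ∑ i ∈ Finset.range q, (A (s⁻¹ * ((c * a) ^ j * s * ((c * a) ^ j)⁻¹))) ^ i = 0 := by
  obtain ⟨σ, hσ⟩ : ∃ σ, σ = c * a := ⟨_, rfl⟩
  have hσp := D.σ_pow
  have hσo := D.σ_ord
  rw [← hσ] at hσp hσo ⊢
  have hinj : ∀ x y : F, x = y → (x : F ⧸ Rad (qp 2 n) F) = y := fun x y h => by rw [h]
  have hcc := hinj _ _ D.cc
  rw [QuotientGroup.mk_mul, QuotientGroup.mk_one] at hcc
  -- `c σ^j c = σ^-j`
  have hcσ : c * σ ^ j * c = (σ ^ j)⁻¹ := by
    have e1 : c * σ * c⁻¹ = σ⁻¹ := by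
      rw [hσ, mul_inv_rev, D.inv_a, D.c_inv]
      calc c * (c * a) * c = (c * c) * a * c := by group
        _ = a * c := by rw [D.cc, one_mul]
    have e2 : c * σ ^ j * c⁻¹ = (c * σ * c⁻¹) ^ j := conj_pow.symm
    rw [e1, inv_pow, D.c_inv] at e2
    exact e2
  obtain ⟨c', hc'⟩ : ∃ c', c' = σ ^ j * c := ⟨_, rfl⟩
  have hc'2 : c' ^ 2 = 1 := by
    rw [hc', pow_two]
    calc σ ^ j * c * (σ ^ j * c) = σ ^ j * (c * σ ^ j * c) := by group
      _ = 1 := by rw [hcσ, mul_inv_cancel]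
  have hc'i : ∃ i : ℤ, c' = ρ ^ i * b := by
    obtain ⟨i1, h1⟩ := D.exists_i
    obtain ⟨i2, h2⟩ := D.σ_rot
    refine ⟨i2 * j + i1, ?_⟩
    rw [hc', hσ, h2, h1, zpow_add, zpow_mul, zpow_natCast]
    group
  obtain ⟨sj, hsj⟩ : ∃ sj, sj = σ ^ j * s * (σ ^ j)⁻¹ := ⟨_, rfl⟩
  rw [← hsj]
  have hsjβ : sj ^ qp q n = 1 := by rw [hsj]; exact conj_pow_one D.hs
  have hsjq : sj ^ q = 1 := by rw [hsj]; exact conj_pow_one D.sq
  obtain ⟨e, he⟩ : ∃ e, e = s⁻¹ * sj := ⟨_, rfl⟩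
  rw [← he]
  have heβ : (e : F ⧸ Rad (qp 2 n) F) ^ qp q n = 1 := by
    rw [he, QuotientGroup.mk_mul]
    exact qmul E D.hF D.ql _ _ (mk_pow (by rw [inv_pow, D.hs, inv_one])) (mk_pow hsjβ)
  -- the reflection swaps `s` and `sj` modulo `R`
  have hsw1 : ((c' * s * c' : F) : F ⧸ Rad (qp 2 n) F) = sj := by
    have e1 : c' * s * c' = σ ^ j * (c * s * c) * (σ ^ j)⁻¹ := by
      have h1 : c' = c * (σ ^ j)⁻¹ := by
        rw [hc', ← hcσ]
        calc σ ^ j * c = (c * c) * σ ^ j * c := by rw [D.cc, one_mul]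
          _ = c * (c * σ ^ j * c) := by group
      nth_rw 2 [h1]
      rw [hc']
      group
    have e2 : ((c * s * c : F) : F ⧸ Rad (qp 2 n) F) = s := by
      rw [QuotientGroup.mk_mul, QuotientGroup.mk_mul, D.cs, mul_assoc, hcc, mul_one]
    rw [e1, hsj]
    rw [QuotientGroup.mk_mul, QuotientGroup.mk_mul, e2, ← QuotientGroup.mk_mul,
      ← QuotientGroup.mk_mul]
  have hc'c' : c' * c' = 1 := by rw [← pow_two, hc'2]
  have hc'c'q := hinj _ _ hc'c'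
  rw [QuotientGroup.mk_mul, QuotientGroup.mk_one] at hc'c'q
  have hsw2 : ((c' * sj * c' : F) : F ⧸ Rad (qp 2 n) F) = s := by
    rw [QuotientGroup.mk_mul, QuotientGroup.mk_mul, ← hsw1, QuotientGroup.mk_mul,
      QuotientGroup.mk_mul]
    calc (c' : F ⧸ Rad (qp 2 n) F) * (c' * s * c') * c' = (c' * c') * s * (c' * c') := by group
      _ = s := by rw [hc'c'q]; group
  have hc'e : (c' : F ⧸ Rad (qp 2 n) F) * e * c' = (e : F ⧸ Rad (qp 2 n) F)⁻¹ := by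
    have e1 : c' * e * c' = (c' * s * c')⁻¹ * (c' * sj * c') := by
      have h1 : c'⁻¹ = c' := (eq_inv_of_mul_eq_one_left hc'c').symm
      rw [he, mul_inv_rev, mul_inv_rev, h1]
      calc c' * (s⁻¹ * sj) * c' = c' * s⁻¹ * (c' * c') * sj * c' := by rw [hc'c']; group
        _ = c' * (s⁻¹ * c') * (c' * sj * c') := by group
    rw [← QuotientGroup.mk_mul, ← QuotientGroup.mk_mul, e1, QuotientGroup.mk_mul,
      QuotientGroup.mk_inv, hsw1, hsw2, he, QuotientGroup.mk_mul, QuotientGroup.mk_inv]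
    group
  -- `z` does not commute with `e`
  have hzσ : z * σ ^ j = σ ^ j * z := by
    have h1 : Commute z σ := by
      obtain ⟨i2, h2⟩ := D.σ_rot
      rw [hσ, h2]
      exact D.zρ.zpow_right i2
    exact (h1.pow_right j).eq
  have hzzq := hinj _ _ D.zz
  rw [QuotientGroup.mk_mul, QuotientGroup.mk_one] at hzzq
  have hzsj : (z : F ⧸ Rad (qp 2 n) F) * sj * z = (sj : F ⧸ Rad (qp 2 n) F)⁻¹ := by
    have h1 : z * (σ ^ j)⁻¹ = (σ ^ j)⁻¹ * z := by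
      rw [eq_inv_mul_iff_mul_eq, ← mul_assoc, ← hzσ, mul_assoc, mul_inv_cancel, mul_one]
    have e1 : z * sj * z = σ ^ j * (z * s * z) * (σ ^ j)⁻¹ := by
      rw [hsj]
      calc z * (σ ^ j * s * (σ ^ j)⁻¹) * z = (z * σ ^ j) * s * ((σ ^ j)⁻¹ * z) := by group
        _ = (σ ^ j * z) * s * (z * (σ ^ j)⁻¹) := by rw [hzσ, h1]
        _ = σ ^ j * (z * s * z) * (σ ^ j)⁻¹ := by group
    have e2 : ((z * s * z : F) : F ⧸ Rad (qp 2 n) F) = (s : F ⧸ Rad (qp 2 n) F)⁻¹ := by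
      rw [QuotientGroup.mk_mul, QuotientGroup.mk_mul, D.zs]
    rw [← QuotientGroup.mk_mul, ← QuotientGroup.mk_mul, e1, QuotientGroup.mk_mul,
      QuotientGroup.mk_mul, e2, hsj, QuotientGroup.mk_mul, QuotientGroup.mk_mul,
      QuotientGroup.mk_inv]
    group
  have hze : (z : F ⧸ Rad (qp 2 n) F) * e ≠ e * z := by
    intro h
    have h1 : (z : F ⧸ Rad (qp 2 n) F) * e * z = e := by rw [h, mul_assoc, hzzq, mul_one]
    have h2 : (z : F ⧸ Rad (qp 2 n) F) * e * z = s * (sj : F ⧸ Rad (qp 2 n) F)⁻¹ := by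
      have e1 : z⁻¹ = z := D.inv_z
      have e2 : (z : F ⧸ Rad (qp 2 n) F)⁻¹ = z := by rw [← QuotientGroup.mk_inv, e1]
      rw [he, QuotientGroup.mk_mul, QuotientGroup.mk_inv]
      calc (z : F ⧸ Rad (qp 2 n) F) * ((s : F ⧸ Rad (qp 2 n) F)⁻¹ * sj) * z
          = (z : F ⧸ Rad (qp 2 n) F) * (s : F ⧸ Rad (qp 2 n) F)⁻¹ * (z * z) * sj * z := by
            rw [hzzq]; group
        _ = ((z : F ⧸ Rad (qp 2 n) F)⁻¹ * s * (z : F ⧸ Rad (qp 2 n) F)⁻¹)⁻¹ * (z * sj * z) := by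
            group
        _ = ((z : F ⧸ Rad (qp 2 n) F) * s * z)⁻¹ * (z * sj * z) := by rw [e2]
        _ = s * (sj : F ⧸ Rad (qp 2 n) F)⁻¹ := by rw [D.zs, hzsj, inv_inv]
    rw [h1, he, QuotientGroup.mk_mul, QuotientGroup.mk_inv] at h2
    have h3 : (sj : F ⧸ Rad (qp 2 n) F) ^ 2 = (s : F ⧸ Rad (qp 2 n) F) ^ 2 := by
      calc (sj : F ⧸ Rad (qp 2 n) F) ^ 2 = s * ((s : F ⧸ Rad (qp 2 n) F)⁻¹ * sj) * sj := by
            rw [pow_two]; group
        _ = s * (s * (sj : F ⧸ Rad (qp 2 n) F)⁻¹) * sj := by rw [h2]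
        _ = (s : F ⧸ Rad (qp 2 n) F) ^ 2 := by rw [pow_two]; group
    have h4 := E.eq_of_sq (mk_pow hsjβ) (mk_pow D.hs) h3
    have h5 : Commute ((σ ^ j : F) : F ⧸ Rad (qp 2 n) F) s := by
      change ((σ ^ j : F) : F ⧸ Rad (qp 2 n) F) * s = s * ((σ ^ j : F) : F ⧸ Rad (qp 2 n) F)
      rw [hsj, QuotientGroup.mk_mul, QuotientGroup.mk_mul, QuotientGroup.mk_inv,
        mul_inv_eq_iff_eq_mul] at h4
      exact h4
    obtain ⟨l, hl⟩ := pow_inv hσp D.z_sq hj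
    have h6 : (z : F ⧸ Rad (qp 2 n) F) * s = s * z := by
      have h7 := h5.pow_left l
      rw [← QuotientGroup.mk_pow, hl] at h7
      exact h7
    apply D.s1
    have h8 := D.zs
    rw [h6, mul_assoc, hzzq, mul_one] at h8
    apply E.one_of_sq (mk_pow D.hs)
    rw [pow_two]
    nth_rw 1 [h8]
    exact inv_mul_cancel _
  obtain ⟨e', h1, h2, h3⟩ := li E D.hF hc'2 heβ hc'e
  have h4 : A e = A e' := K.eq_of_mk h3.symm
  rw [h4]
  refine K.norm (D.fpf E h1 (by rw [h3]; exact hze) hc'i h2) ?_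
  rw [← h4, he, map_mul]
  have h5 : Commute (A s) (A sj) := D.op_comm E K sj (mk_pow hsjβ)
  have h6 : Commute (A s⁻¹) (A sj) := by
    have h7 : A s⁻¹ = ↑(A.toHomUnits s)⁻¹ := by
      rw [← map_inv, MonoidHom.coe_toHomUnits]
    rw [h7]
    exact Commute.units_inv_left (by rw [MonoidHom.coe_toHomUnits]; exact h5)
  rw [h6.mul_pow, ← map_pow, ← map_pow, hsjq, inv_pow, D.sq, inv_one, map_one, one_mul]

/-- the operator of `c` is not trivial -/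
theorem κ_ne [Finite F] (hA : A c = 1) : False := by
  have h1 : A b = 1 ∧ A (z * b) = 1 := by
    have hz := D.conj_zb
    have e1 : A (z * b) = A (ρ ^ 2 ^ m) * A b * A (ρ ^ 2 ^ m)⁻¹ := by
      rw [← map_mul, ← map_mul, hz]
    have e2 : A b = A (ρ ^ 2 ^ m)⁻¹ * A (z * b) * A (ρ ^ 2 ^ m) := by
      rw [← map_mul, ← map_mul]
      congr 1
      rw [← hz]
      group
    have e3 : A (ρ ^ 2 ^ m) * A (ρ ^ 2 ^ m)⁻¹ = 1 := by rw [← map_mul, mul_inv_cancel, map_one]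
    have e4 : A (ρ ^ 2 ^ m)⁻¹ * A (ρ ^ 2 ^ m) = 1 := by rw [← map_mul, inv_mul_cancel, map_one]
    rcases D.hc with h | h
    · rw [h] at hA
      refine ⟨hA, ?_⟩
      rw [e1, hA, mul_one, e3]
    · rw [h] at hA
      refine ⟨?_, hA⟩
      rw [e2, hA, mul_one, e4]
  have h2 : A z = 1 := by
    have := h1.2
    rw [map_mul, h1.1, mul_one] at this
    exact this
  have h3 : A s = A s⁻¹ := by
    have e1 : ((z * s * z : F) : F ⧸ Rad (qp 2 n) F) = (s⁻¹ : F) := by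
      rw [QuotientGroup.mk_mul, QuotientGroup.mk_mul, D.zs, QuotientGroup.mk_inv]
    have e2 := K.eq_of_mk e1
    rw [map_mul, map_mul, h2, one_mul, mul_one] at e2
    exact e2
  have h4 : (A s) ^ 2 = 1 := by
    rw [pow_two]
    nth_rw 2 [h3]
    rw [← map_mul, mul_inv_cancel, map_one]
  have h5 : A s = 1 := by
    obtain ⟨l, hl⟩ := E.half D.hs
    rw [← hl, map_pow, map_pow, h4, one_pow]
  have h6 := K.fpf D.fp
  have h7 : ∀ m1 : M, m1 = 0 := by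
    intro m1
    apply h6
    rw [h5, sub_self]
    rfl
  have h8 : Rad (qp 2 n) F ≤ ⁅Rad (qp 2 n) F, Rad (qp 2 n) F⁆ := by
    intro x hx
    exact (K.ker ⟨x, hx⟩).1 (h7 _)
  exact D.R_ne (perfect_bot (solvF E D.hF) _ h8)

theorem exists_y [Finite F] {a1 : F} (h1 : (a1 : F ⧸ Rad (qp 2 n) F) = c) :
    ∃ y : F, (a1 * (y⁻¹ * a * y)) ^ 2 ^ (m + 2) ≠ 1 ∧ y ∈ Rad (qp 2 n) F := by
  by_contra hcon
  push Not at hcon
  have hRn : (Rad (qp 2 n) F).Normal := rad_normal (qp 2 n)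
  have hy : ∀ y ∈ Rad (qp 2 n) F, (a1 * (y⁻¹ * a * y)) ^ 2 ^ (m + 2) = 1 := by
    intro y hy
    by_contra h
    exact hcon y h hy
  have hg : (a1 * a) ^ 2 ^ (m + 2) = 1 := by
    have := hy 1 (one_mem _)
    rwa [inv_one, one_mul, mul_one] at this
  have hκ : A a1 = A c := K.eq_of_mk h1
  have hθ : A (a1 * a) = A (c * a) := by rw [map_mul, map_mul, hκ]
  have hsum : (∑ i ∈ Finset.range (2 ^ (m + 2)), (A (c * a)) ^ i) * (A c * (A a - 1)) = 0 := by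
    ext m1
    obtain ⟨⟨y, hyR⟩, rfl⟩ := K.sur m1
    obtain ⟨μ, hμ⟩ : ∃ μ : F, μ = a1 * (y⁻¹ * (a * y * a⁻¹)) * a1⁻¹ := ⟨_, rfl⟩
    have hayR : a * y * a⁻¹ ∈ Rad (qp 2 n) F := hRn.conj_mem y hyR a
    have hyyR : y⁻¹ * (a * y * a⁻¹) ∈ Rad (qp 2 n) F := mul_mem (inv_mem hyR) hayR
    have hμR : μ ∈ Rad (qp 2 n) F := by rw [hμ]; exact hRn.conj_mem _ hyyR a1
    obtain ⟨ν, h2, h3⟩ := K.prod (a1 * a) μ hμR (fun x hx => hRn.conj_mem x hx _) (2 ^ (m + 2))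
    have h4 : μ * (a1 * a) = a1 * (y⁻¹ * a * y) := by
      rw [hμ]
      have e1 : a⁻¹ = a := D.inv_a
      calc a1 * (y⁻¹ * (a * y * a⁻¹)) * a1⁻¹ * (a1 * a) = a1 * (y⁻¹ * (a * y * (a⁻¹ * a))) := by
            group
        _ = a1 * (y⁻¹ * a * y) := by group
    rw [h4, hy y hyR, hg, mul_one] at h2
    have h5 : ν = 1 := Subtype.ext h2.symm
    rw [h5, K.map_one, hθ] at h3
    have h6 : π ⟨μ, hμR⟩ = (A c * (A a - 1)) (π ⟨y, hyR⟩) := by
      rw [K.act a1 ⟨y⁻¹ * (a * y * a⁻¹), hyyR⟩ ⟨μ, hμR⟩ hμ]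
      have e1 : (⟨y⁻¹ * (a * y * a⁻¹), hyyR⟩ : Rad (qp 2 n) F) =
        (⟨y, hyR⟩ : Rad (qp 2 n) F)⁻¹ * ⟨a * y * a⁻¹, hayR⟩ := rfl
      rw [e1, K.add, K.map_inv, K.act a ⟨y, hyR⟩ ⟨a * y * a⁻¹, hayR⟩ rfl, hκ]
      change A c _ = A c (A a _ - π _)
      congr 1
      abel
    rw [h6] at h3
    exact h3.symm
  have hθN : (A (c * a)) ^ 2 ^ (m + 2) = 1 := by rw [← map_pow, D.σ_ord, map_one]
  have hsum2 : (∑ i ∈ Finset.range (2 ^ (m + 2)), (A (c * a)) ^ i) * (1 - A c) = 0 := by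
    have e1 : (1 - A c) = A c * (A a - 1) - (A (c * a) - 1) := by
      rw [map_mul]
      noncomm_ring
    have e2 : (∑ i ∈ Finset.range (2 ^ (m + 2)), (A (c * a)) ^ i) * (A (c * a) - 1) = 0 := by
      rw [geom_sum_mul, hθN, sub_self]
    rw [e1, mul_sub, hsum, e2, sub_zero]
  have hfin := ring_norm (q := q) (N := 2 ^ (m + 2)) (by positivity) (S := A.toHomUnits s)
    (θ := A.toHomUnits (c * a)) (κ := A c) ?_ ?_ ?_ ?_
  · have h7 := cop_q E K _ hfin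
    rw [sub_eq_zero] at h7
    exact D.κ_ne E K h7.symm
  · rw [MonoidHom.coe_toHomUnits]
    change A c * A s = A s * A c
    rw [← map_mul, ← map_mul]
    exact K.eq_of_mk (by rw [QuotientGroup.mk_mul, QuotientGroup.mk_mul, D.cs])
  · intro j _
    have h7 := D.op_comm E K ((c * a) ^ j * s * ((c * a) ^ j)⁻¹) (mk_pow (conj_pow_one D.hs))
    refine Units.ext ?_
    rw [← map_pow, ← map_inv, ← map_mul, ← map_mul, ← map_mul, ← map_mul,
      MonoidHom.coe_toHomUnits, MonoidHom.coe_toHomUnits, map_mul]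
    rw [h7, ← map_mul]
  · intro j hj hj0
    have h7 := D.norm_e E K j (fun h => by
      have := Nat.le_of_dvd hj0 h
      omega)
    rw [← map_pow, ← map_inv, ← map_inv, ← map_mul, ← map_mul, ← map_mul,
      MonoidHom.coe_toHomUnits]
    exact h7
  · rw [MonoidHom.coe_toHomUnits]
    exact hsum2

end Ch

/-- the step, finite form -/
theorem Stp.step [Finite F] {a b ρ z : F} (D : Stp q n m a b ρ z) (E : Ex2 q n) :
    ∃ a1 b1 s : F, a1 ^ 2 = 1 ∧ b1 ^ 2 = 1 ∧ s ^ qp q n = 1 ∧ a1 * s = s * a1 ∧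
      (a1 * b1) ^ qp 2 n = 1 ∧ (a1 * b1) ^ 2 ^ (m + 2) ∈ Rad (qp 2 n) F ∧
      (a1 * b1) ^ 2 ^ (m + 2) ≠ 1 ∧ ∀ τ ∈ Rad (qp 2 n) F, τ * s = s * τ → τ = 1 := by
  obtain ⟨c, s, C⟩ := D.exists_ch E
  obtain ⟨a1, h1, h2, h3⟩ := C.exists_a1 E
  obtain ⟨M, _, A, π, K⟩ := exists_md (Rad (qp 2 n) F)
  obtain ⟨y, h4, h5⟩ := C.exists_y E K h3
  have h6 : (a1 * (y⁻¹ * a * y)) ^ 2 ^ (m + 2) ∈ Rad (qp 2 n) F := by
    rw [← QuotientGroup.eq_one_iff, QuotientGroup.mk_pow, QuotientGroup.mk_mul,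
      QuotientGroup.mk_mul, QuotientGroup.mk_mul, QuotientGroup.mk_inv,
      (QuotientGroup.eq_one_iff y).2 h5, h3, inv_one, one_mul, mul_one, ← QuotientGroup.mk_mul,
      ← QuotientGroup.mk_pow, C.σ_ord]
    rfl
  refine ⟨a1, y⁻¹ * a * y, s, h2, conj_pow_one' D.ha, C.hs, h1, ?_, h6, h4, C.fp⟩
  have h7 := rad_pow h6
  refine pow_qp E.pos.ne' (D.hF _) Nat.prime_two ⟨(m + 2) + n.factorization 2, ?_⟩
  rw [pow_add, pow_mul]
  exact h7

end Pool.Agent.TH69.Ev
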