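import Mathlib
import Pool.Agent.TH69.EvF

set_option autoImplicit false

/-!
# Groups of exponent `2 ^ a * q ^ b`, part G: tools for infinite groups
-/

namespace Pool.Agent.TH69.Ev

open Pool.Agent.H32BU Pool.Agent.W629 Pool.Agent.TH69.Mtn Pool.Agent.TH69.Pq
open scoped commutatorElement

variable {G : Type} [Group G] {q n : ℕ}

/-- products of `q`-elements of a subgroup are `q`-elements modulo its `O_2` -/
def QLs (q n : ℕ) (K : Subgroup G) : Prop :=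
  ∀ x ∈ K, ∀ y ∈ K, ∀ w ∈ K, x ^ qp q n = 1 → y ^ qp q n = 1 → w ^ qp 2 n = 1 →
    ((x * y) ^ qp q n * w) ^ qp 2 n = 1

theorem QLs.mono {K L : Subgroup G} (h : QLs q n L) (hKL : K ≤ L) : QLs q n K :=
  fun x hx y hy w hw => h x (hKL hx) y (hKL hy) w (hKL hw)

theorem QLs.ql {K : Subgroup G} (h : QLs q n K) : QL q n K := by
  intro x y hx hy
  have hx' : (x : G) ^ qp q n = 1 := congrArg Subtype.val hx
  have hy' : (y : G) ^ qp q n = 1 := congrArg Subtype.val hy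
  refine ⟨Subtype.ext ?_, fun w hw => Subtype.ext ?_⟩
  · have h1 := h x x.2 y y.2 1 (one_mem _) hx' hy' (one_pow _)
    rw [mul_one] at h1
    exact h1
  · exact h x x.2 y y.2 w w.2 hx' hy' (congrArg Subtype.val hw)

theorem mem_RK' {r : ℕ} {K : Subgroup G} {x : G} :
    x ∈ Tw.RK r K ↔ x ∈ K ∧ x ^ r = 1 ∧ ∀ w ∈ K, w ^ r = 1 → (x * w) ^ r = 1 := by
  constructor
  · intro h
    exact ⟨Tw.RK_le h, Tw.RK_pow h, fun w hw hw' => Tw.RK_mul h hw hw'⟩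
  · rintro ⟨h1, h2, h3⟩
    exact Tw.mem_RK.2 ⟨h1, Subtype.ext h2, fun w hw => Subtype.ext
      (h3 w w.2 (congrArg Subtype.val hw))⟩

theorem closure_sub (K : Subgroup G) {τ : G}
    (hτ : τ ∈ Subgroup.closure {x : G | x ∈ K ∧ x ^ qp q n = 1}) :
    ∃ h : τ ∈ K, (⟨τ, h⟩ : K) ∈ Subgroup.closure {y : K | y ^ qp q n = 1} := by
  have h1 : Subgroup.closure {x : G | x ∈ K ∧ x ^ qp q n = 1} ≤
      (Subgroup.closure {y : K | y ^ qp q n = 1}).map K.subtype := by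
    rw [Subgroup.closure_le]
    rintro x ⟨hx, hx'⟩
    exact ⟨⟨x, hx⟩, Subgroup.subset_closure (Subtype.ext hx'), rfl⟩
  obtain ⟨y, hy, rfl⟩ := h1 hτ
  exact ⟨y.2, hy⟩

/-- the hypotheses on the group -/
structure Hg (q n : ℕ) (G : Type) [Group G] : Prop where
  hG : ∀ x : G, x ^ n = 1
  h2 : ∀ x y : G, Finite (c2 x y)
  h3 : ∀ x y : G, QLs q n (c2 x y)
  hR : Rad (qp 2 n) G = ⊥

theorem one_of_inv_inv {z : G} (hz : z ^ 2 = 1) : z⁻¹ = z := by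
  rw [pow_two] at hz
  exact (eq_inv_of_mul_eq_one_left hz).symm

section

variable (E : Ex2 q n)

include E

/-- `2`-elements of a finite subgroup generated by `q`-elements -/
theorem mem_RK_of {K : Subgroup G} (hG : ∀ x : G, x ^ n = 1) (hK : QLs q n K) {τ : G}
    (hτ : τ ^ qp 2 n = 1) (h : τ ∈ Subgroup.closure {x : G | x ∈ K ∧ x ^ qp q n = 1}) :
    τ ∈ Tw.RK (qp 2 n) K := by
  obtain ⟨h1, h2⟩ := closure_sub K h
  exact Tw.mem_RK.2 ⟨h1, two_of_closure E (exp_sub hG K) hK.ql h2 (Subtype.ext hτ)⟩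

/-- an involution of `O_2` does not invert `q`-elements -/
theorem inv_one_of {K : Subgroup G} {z s : G} (hz : z ^ 2 = 1) (hzK : z ∈ Tw.RK (qp 2 n) K)
    (hs : s ∈ K) (hsβ : s ^ qp q n = 1) (hzs : z * s * z = s⁻¹) : s = 1 := by
  have hz' := one_of_inv_inv hz
  have h1 : z⁻¹ * (s * z * s⁻¹) ∈ Tw.RK (qp 2 n) K := mul_mem (inv_mem hzK) (Tw.RK_conj hzK hs)
  have h2 : z⁻¹ * (s * z * s⁻¹) = (s⁻¹) ^ 2 := by
    rw [hz']
    calc z * (s * z * s⁻¹) = (z * s * z) * s⁻¹ := by group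
      _ = (s⁻¹) ^ 2 := by rw [hzs, pow_two]
  rw [h2] at h1
  have h3 := Tw.RK_pow h1
  have h4 : ((s⁻¹) ^ 2) ^ qp q n = 1 := by
    rw [← pow_mul, mul_comm, pow_mul, inv_pow, hsβ, inv_one, one_pow]
  have h5 := W629.eq_one_of_coprime E.cop h3 h4
  have h6 := E.one_of_sq (x := s⁻¹) (by rw [inv_pow, hsβ, inv_one]) h5
  rwa [inv_eq_one] at h6

/-- subgroups on which a `q`-element acts without fixed points -/
theorem fm {K Y : Subgroup G} (hG : ∀ x : G, x ^ n = 1) (hK : QLs q n K) [Finite Y] {s : G}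
    (hs : s ∈ K) (hsβ : s ^ qp q n = 1) (hY : ∀ y ∈ Y, y ^ qp 2 n = 1)
    (hsY : ∀ y ∈ Y, s * y * s⁻¹ ∈ Y) (hC : ∀ y ∈ Y, y * s = s * y → y = 1) (hYK : Y ≤ K) :
    ∀ y ∈ Y, y ∈ Tw.RK (qp 2 n) K := by
  let φ : Y → Y := fun y => ⟨(y : G)⁻¹ * (s * y * s⁻¹), mul_mem (inv_mem y.2) (hsY y y.2)⟩
  have hφ : Function.Injective φ := by
    intro x y hxy
    have h1 : (x : G)⁻¹ * (s * x * s⁻¹) = (y : G)⁻¹ * (s * y * s⁻¹) := congrArg Subtype.val hxy
    have h2 : ((y : G) * (x : G)⁻¹) * s = s * ((y : G) * (x : G)⁻¹) := by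
      calc ((y : G) * (x : G)⁻¹) * s = y * ((x : G)⁻¹ * (s * x * s⁻¹)) * s * (x : G)⁻¹ := by group
        _ = y * ((y : G)⁻¹ * (s * y * s⁻¹)) * s * (x : G)⁻¹ := by rw [h1]
        _ = s * ((y : G) * (x : G)⁻¹) := by group
    have h3 := hC _ (mul_mem y.2 (inv_mem x.2)) h2
    rw [mul_inv_eq_one] at h3
    exact Subtype.ext h3.symm
  have hφs : Function.Surjective φ := Finite.injective_iff_surjective.1 hφ
  intro y hy
  obtain ⟨x, hx⟩ := hφs ⟨y, hy⟩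
  have h1 : (x : G)⁻¹ * (s * x * s⁻¹) = y := congrArg Subtype.val hx
  refine mem_RK_of E hG hK (hY y hy) ?_
  have h2 : y = ((x : G)⁻¹ * s * x) * s⁻¹ := by rw [← h1]; group
  rw [h2]
  refine mul_mem (Subgroup.subset_closure ⟨?_, conj_pow_one' hsβ⟩)
    (inv_mem (Subgroup.subset_closure ⟨hs, hsβ⟩))
  exact mul_mem (mul_mem (inv_mem (hYK x.2)) hs) (hYK x.2)

/-- an involution outside `O_2` inverts a `q`-element -/
theorem exists_inv_fin {F : Type} [Group F] [Finite F] (hF : ∀ x : F, x ^ n = 1) (ql : QL q n F)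
    {z : F} (hz : z ^ 2 = 1) (hzR : z ∉ Rad (qp 2 n) F) :
    ∃ u : F, u ^ qp q n = 1 ∧ u ≠ 1 ∧ z * u * z = u⁻¹ := by
  have hne : ∃ u : F ⧸ Rad (qp 2 n) F, u ^ qp q n = 1 ∧ (z : F ⧸ Rad (qp 2 n) F) * u ≠ u * z := by
    by_contra hcon
    push Not at hcon
    exact hzR (mem_R E hF (E.two_sq hF hz) hcon)
  have hsol : Group.IsSolvable (F ⧸ Rad (qp 2 n) F) := by
    have := solvF E hF
    exact Group.isSolvable_of_surjective (QuotientGroup.mk'_surjective (Rad (qp 2 n) F))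
  obtain ⟨r, h1, h2, h3, -⟩ := ev E (qmul E hF ql) hsol (mk_pow hz) (one_pow 2)
    (by rw [mul_one, one_mul]) hne
  obtain ⟨u, h4, h5, h6⟩ := li E hF hz h1 h3
  refine ⟨u, h4, ?_, h5⟩
  rintro rfl
  exact h2 h6.symm

variable (H : Hg q n G)

include H

/-- `T4` -/
theorem T4 {s y τ : G} (hs : s ^ qp q n = 1) (hτ : τ ^ qp 2 n = 1)
    (hτc : τ ∈ Subgroup.closure {x : G | x ∈ c2 s y ∧ x ^ qp q n = 1}) (hτs : τ * s = s * τ) :
    τ = 1 := by
  have h0 : τ ∈ Rad (qp 2 n) G := by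
    refine cent_rad Nat.prime_two E.hq E.hq2.symm E.hn H.hG H.h2 (g := s) (e := τ) hs hτ
      hτs.symm fun w hw hwp => ?_
    have hf := H.h2 (s * w) y
    have m1 : s * w ∈ c2 (s * w) y := Subgroup.subset_closure (by simp)
    have m2 : y ∈ c2 (s * w) y := Subgroup.subset_closure (by simp)
    obtain ⟨m3, m4⟩ := mem_of_mul hw.symm hs hwp E.cop.symm _ m1
    have hle : c2 s y ≤ c2 (s * w) y := by
      conv_lhs => unfold c2
      rw [Subgroup.closure_le]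
      rintro u (rfl | hu)
      · exact m3
      · rw [Set.mem_singleton_iff.1 hu]
        exact m2
    have h1 : τ ∈ Tw.RK (qp 2 n) (c2 (s * w) y) := by
      refine mem_RK_of E H.hG (H.h3 _ _) hτ ?_
      have hm : {x : G | x ∈ c2 s y ∧ x ^ qp q n = 1} ⊆
          {x : G | x ∈ c2 (s * w) y ∧ x ^ qp q n = 1} := fun x hx => ⟨hle hx.1, hx.2⟩
      exact Subgroup.closure_mono hm hτc
    exact Tw.RK_mul h1 m4 hwp
  rw [H.hR, Subgroup.mem_bot] at h0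
  exact h0

/-- involutions invert `q`-elements -/
theorem exists_inv {z : G} (hz : z ^ 2 = 1) (hz1 : z ≠ 1) :
    ∃ u : G, u ^ qp q n = 1 ∧ u ≠ 1 ∧ z * u * z = u⁻¹ := by
  have h0 : z ∉ Rad (qp 2 n) G := by
    rw [H.hR, Subgroup.mem_bot]
    exact hz1
  have h1 : ∃ w : G, w ^ qp 2 n = 1 ∧ (z * w) ^ qp 2 n ≠ 1 := by
    by_contra hcon
    push Not at hcon
    exact h0 ⟨E.two_sq H.hG hz, hcon⟩
  obtain ⟨w, hw, hzw⟩ := h1
  have hf := H.h2 z w
  have m1 : z ∈ c2 z w := Subgroup.subset_closure (by simp)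
  have m2 : w ∈ c2 z w := Subgroup.subset_closure (by simp)
  have h5 : (⟨z, m1⟩ : c2 z w) ∉ Rad (qp 2 n) (c2 z w) := fun h =>
    hzw (congrArg Subtype.val (h.2 ⟨w, m2⟩ (Subtype.ext hw)))
  obtain ⟨u, h2, h3, h4⟩ := exists_inv_fin E (exp_sub H.hG (c2 z w)) (H.h3 z w).ql
    (z := ⟨z, m1⟩) (Subtype.ext hz) h5
  exact ⟨u, congrArg Subtype.val h2, fun h => h3 (Subtype.ext h), congrArg Subtype.val h4⟩

end

end Pool.Agent.TH69.Ev
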