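import Mathlib
import Pool.Agent.TH69.EvG

set_option autoImplicit false

/-!
# Groups of exponent `2 ^ a * q ^ b`, part H: growing dihedral subgroups
-/

namespace Pool.Agent.TH69.Ev

open Pool.Agent.H32BU Pool.Agent.W629 Pool.Agent.TH69.Mtn Pool.Agent.TH69.Pq
open scoped commutatorElement

variable {G : Type} [Group G] {q n : ℕ}

theorem exists_min (P : Subgroup G → Prop) (K : Subgroup G) (hf : Finite K) (hP : P K) :
    ∃ L ≤ K, P L ∧ ∀ L' ≤ L, P L' → L' = L := by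
  classical
  have hex : ∃ k : ℕ, ∃ L : Subgroup G, L ≤ K ∧ P L ∧ Nat.card L = k := ⟨_, K, le_rfl, hP, rfl⟩
  obtain ⟨L, h1, h2, h3⟩ := Nat.find_spec hex
  refine ⟨L, h1, h2, fun L' h4 h5 => ?_⟩
  by_contra hne
  have hfL : Finite L := Finite.of_injective (Subgroup.inclusion h1)
    (Subgroup.inclusion_injective h1)
  have hlt : Nat.card L' < Nat.card L := by
    have h6 : (L' : Set G) ⊂ (L : Set G) := ⟨h4, fun h => hne (le_antisymm h4 h)⟩
    exact Set.Finite.card_lt_card (Set.toFinite _) h6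
  rw [h3] at hlt
  exact Nat.find_min hex hlt ⟨L', le_trans h4 h1, h5, rfl⟩

theorem finite_of_le {K L : Subgroup G} (hf : Finite K) (h : L ≤ K) : Finite L :=
  Finite.of_injective (Subgroup.inclusion h) (Subgroup.inclusion_injective h)

/-- two commuting involutions and a `q`-element inverted by one of them -/
theorem mem_three (E : Ex2 q n) {z b u : G} (hz : z ^ 2 = 1) (hzb : z * b = b * z)
    (hu : u ^ qp q n = 1) (hzu : z * u * z = u⁻¹) {K : Subgroup G} (h1 : z ∈ K)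
    (h2 : b * u ∈ K) : b ∈ K ∧ u ∈ K := by
  have hzz : z * z = 1 := by rw [← pow_two, hz]
  have h3 : (z * (b * u) * z)⁻¹ * (b * u) ∈ K :=
    mul_mem (inv_mem (mul_mem (mul_mem h1 h2) h1)) h2
  have h4 : z * (b * u) * z = b * u⁻¹ := by
    calc z * (b * u) * z = (z * b) * u * z := by group
      _ = b * (z * u * z) := by rw [hzb]; group
      _ = b * u⁻¹ := by rw [hzu]
  have h5 : (b * u⁻¹)⁻¹ * (b * u) = u ^ 2 := by rw [pow_two]; group
  rw [h4, h5] at h3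
  obtain ⟨l, hl⟩ := E.half hu
  have h6 : u ∈ K := by
    rw [← hl]
    exact pow_mem h3 l
  refine ⟨?_, h6⟩
  have h7 := mul_mem h2 (inv_mem h6)
  rwa [mul_inv_cancel_right] at h7

/-- the configuration -/
structure Cfg (q n m : ℕ) (a b : G) : Prop where
  ha : a ^ 2 = 1
  hb : b ^ 2 = 1
  ord : (a * b) ^ 2 ^ (m + 2) = 1
  z1 : (a * b) ^ 2 ^ (m + 1) ≠ 1
  hP : ∀ s : G, s ^ qp q n = 1 → (a * b) ^ 2 ^ (m + 1) * s * (a * b) ^ 2 ^ (m + 1) = s⁻¹ →
    s * b = b * s → s = 1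

theorem dih_comm {a b : G} (ha : a ^ 2 = 1) (hb : b ^ 2 = 1) {k : ℕ}
    (hz : ((a * b) ^ k) ^ 2 = 1) : (a * b) ^ k * b = b * (a * b) ^ k := by
  have ha' := one_of_inv_inv ha
  have hb' := one_of_inv_inv hb
  have hbb : b * b = 1 := by rw [← pow_two, hb]
  have h1 : b * (a * b) * b⁻¹ = (a * b)⁻¹ := by
    rw [mul_inv_rev, ha', hb']
    calc b * (a * b) * b = b * a * (b * b) := by group
      _ = b * a := by rw [hbb, mul_one]
  have h2 : b * (a * b) ^ k * b⁻¹ = (b * (a * b) * b⁻¹) ^ k := conj_pow.symm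
  rw [h1, inv_pow, one_of_inv_inv hz, mul_inv_eq_iff_eq_mul] at h2
  exact h2.symm

theorem Cfg.grow (E : Ex2 q n) (H : Hg q n G) {m : ℕ} {a b : G} (C : Cfg q n m a b) :
    ∃ m' a' b', m < m' ∧ Cfg (G := G) q n m' a' b' := by
  obtain ⟨ρ, hρ⟩ : ∃ ρ, ρ = a * b := ⟨_, rfl⟩
  obtain ⟨z, hz⟩ : ∃ z, z = ρ ^ 2 ^ (m + 1) := ⟨_, rfl⟩
  have hord := C.ord
  have hz1 := C.z1
  have hP := C.hP
  rw [← hρ] at hord hz1 hP
  rw [← hz] at hz1 hP
  have hz2 : z ^ 2 = 1 := by rw [hz, ← pow_mul, ← pow_succ, hord]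
  have hzb : z * b = b * z := by
    rw [hz, hρ]
    refine dih_comm C.ha C.hb ?_
    rw [← hρ, ← hz, hz2]
  obtain ⟨u, hu, hu1, hzu⟩ := exists_inv E H hz2 hz1
  -- the two-generator group
  obtain ⟨K0, hK0⟩ : ∃ K0, K0 = c2 ρ (b * u) := ⟨_, rfl⟩
  have hf0 : Finite K0 := by rw [hK0]; exact H.h2 _ _
  have hql0 : QLs q n K0 := by rw [hK0]; exact H.h3 _ _
  have m1 : ρ ∈ K0 := by rw [hK0]; exact Subgroup.subset_closure (by simp)
  have m2 : b * u ∈ K0 := by rw [hK0]; exact Subgroup.subset_closure (by simp)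
  have m3 : z ∈ K0 := by rw [hz]; exact pow_mem m1 _
  obtain ⟨m4, m5⟩ := mem_three E hz2 hzb hu hzu m3 m2
  have hbb : b * b = 1 := by rw [← pow_two, C.hb]
  have m6 : a ∈ K0 := by
    have h1 : a = ρ * b := by rw [hρ, mul_assoc, hbb, mul_one]
    rw [h1]
    exact mul_mem m1 m4
  obtain ⟨L, hLK, ⟨hLa, hLb, hLz⟩, hLmin⟩ := exists_min
    (fun L => a ∈ L ∧ b ∈ L ∧ z ∉ Tw.RK (qp 2 n) L) K0 hf0
    ⟨m6, m4, fun h => hu1 (inv_one_of E hz2 h m5 hu hzu)⟩
  have hfL := finite_of_le hf0 hLK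
  have hqlL := hql0.mono hLK
  have hLρ : ρ ∈ L := by rw [hρ]; exact mul_mem hLa hLb
  have hLz' : z ∈ L := by rw [hz]; exact pow_mem hLρ _
  have hS : Stp q n m (⟨a, hLa⟩ : L) ⟨b, hLb⟩ ⟨ρ, hLρ⟩ ⟨z, hLz'⟩ := by
    refine ⟨exp_sub H.hG L, hqlL.ql, Subtype.ext C.ha, Subtype.ext C.hb, Subtype.ext hρ,
      Subtype.ext hz, Subtype.ext hord, fun h => hz1 (congrArg Subtype.val h), fun h =>
        hLz (Tw.mem_RK.2 ⟨hLz', h⟩), ?_, ?_, ?_⟩
    · intro M hMa hMb hMt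
      by_contra hcon
      apply hMt
      have h1 : z ∉ Tw.RK (qp 2 n) (M.map L.subtype) := by
        intro h2
        apply hcon
        obtain ⟨h3, h4, h5⟩ := mem_RK'.1 h2
        refine mem_RK'.2 ⟨?_, Subtype.ext h4, fun w hw hw' => Subtype.ext
          (h5 w ⟨w, hw, rfl⟩ (congrArg Subtype.val hw'))⟩
        obtain ⟨y, hy, e⟩ := h3
        have e' : y = ⟨z, hLz'⟩ := Subtype.ext e
        rw [← e']
        exact hy
      have h6 := hLmin (M.map L.subtype) (Subgroup.map_subtype_le _)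
        ⟨⟨_, hMa, rfl⟩, ⟨_, hMb, rfl⟩, h1⟩
      rw [eq_top_iff]
      intro x _
      have hx : (x : G) ∈ M.map L.subtype := by rw [h6]; exact x.2
      obtain ⟨y, hy, e⟩ := hx
      rw [← Subtype.ext e]
      exact hy
    · intro s hs hzs hsb
      exact Subtype.ext (hP s (congrArg Subtype.val hs) (congrArg Subtype.val hzs)
        (congrArg Subtype.val hsb))
    · intro s y τ hs hτ hτc hτs
      refine Subtype.ext (T4 E H (s := s) (y := y) (congrArg Subtype.val hs)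
        (congrArg Subtype.val hτ) ?_ (congrArg Subtype.val hτs))
      have h1 : Subgroup.closure {x : L | x ∈ Subgroup.closure {s, y} ∧ x ^ qp q n = 1} ≤
          (Subgroup.closure {x : G | x ∈ c2 (s : G) (y : G) ∧ x ^ qp q n = 1}).comap
            L.subtype := by
        rw [Subgroup.closure_le]
        rintro x ⟨hx1, hx2⟩
        refine Subgroup.subset_closure ⟨?_, congrArg Subtype.val hx2⟩
        have h2 : (Subgroup.closure {s, y}).map L.subtype = c2 (s : G) (y : G) := by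
          unfold c2
          rw [MonoidHom.map_closure, Set.image_pair]
          rfl
        rw [← h2]
        exact ⟨x, hx1, rfl⟩
      exact h1 hτc
  obtain ⟨a1, b1, s, h1, h2, h3, h4, h5, h6, h7, h8⟩ := hS.step E
  -- the order of the product
  have hod : orderOf (a1 * b1) ∣ 2 ^ n.factorization 2 := orderOf_dvd_of_pow_eq_one h5
  obtain ⟨k, -, hk⟩ := (Nat.dvd_prime_pow Nat.prime_two).1 hod
  have hkm : m + 3 ≤ k := by
    by_contra hcon
    apply h7
    rw [← orderOf_dvd_iff_pow_eq_one, hk]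
    exact pow_dvd_pow 2 (by omega)
  obtain ⟨m', rfl⟩ : ∃ m', k = m' + 2 := ⟨k - 2, by omega⟩
  have hz1' : (a1 * b1) ^ 2 ^ (m' + 1) ≠ 1 := by
    intro h
    rw [← orderOf_dvd_iff_pow_eq_one, hk] at h
    have := (Nat.pow_dvd_pow_iff_le_right Nat.one_lt_two).1 h
    omega
  have hord' : (a1 * b1) ^ 2 ^ (m' + 2) = 1 := by rw [← hk, pow_orderOf_eq_one]
  have hzR : (a1 * b1) ^ 2 ^ (m' + 1) ∈ Rad (qp 2 n) L := by
    have e1 : 2 ^ (m' + 1) = 2 ^ (m + 2) * 2 ^ (m' - m - 1) := by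
      rw [← pow_add]
      congr 1
      omega
    rw [e1, pow_mul]
    exact pow_mem h6 _
  refine ⟨m', (a1 : G), (b1 : G), by omega, ⟨congrArg Subtype.val h1, congrArg Subtype.val h2,
    congrArg Subtype.val hord', fun h => hz1' (Subtype.ext h), ?_⟩⟩
  intro v hv hzv hvb
  obtain ⟨z', hz'⟩ : ∃ z' : G, z' = ((a1 : G) * b1) ^ 2 ^ (m' + 1) := ⟨_, rfl⟩
  rw [← hz'] at hzv
  have h1G : (a1 : G) ^ 2 = 1 := congrArg Subtype.val h1
  have h2G : (b1 : G) ^ 2 = 1 := congrArg Subtype.val h2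
  have h3G : (s : G) ^ qp q n = 1 := congrArg Subtype.val h3
  have h4G : (a1 : G) * s = s * a1 := congrArg Subtype.val h4
  have hz'2 : z' ^ 2 = 1 := by
    rw [hz', ← pow_mul, ← pow_succ]
    exact congrArg Subtype.val hord'
  obtain ⟨K, hK⟩ : ∃ K, K = c2 ((b1 : G) * v) ((a1 : G) * s) := ⟨_, rfl⟩
  have hfK : Finite K := by rw [hK]; exact H.h2 _ _
  have hqlK : QLs q n K := by rw [hK]; exact H.h3 _ _
  have n1 : (b1 : G) * v ∈ K := by rw [hK]; exact Subgroup.subset_closure (by simp)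
  have n2 : (a1 : G) * s ∈ K := by rw [hK]; exact Subgroup.subset_closure (by simp)
  obtain ⟨n3, n4⟩ := mem_of_mul hvb.symm (E.two_sq H.hG h2G) hv E.cop _ n1
  obtain ⟨n5, n6⟩ := mem_of_mul h4G (E.two_sq H.hG h1G) h3G E.cop _ n2
  obtain ⟨Y, hY⟩ : ∃ Y, Y = Tw.RK (qp 2 n) L ⊓ K := ⟨_, rfl⟩
  have hYK : Y ≤ K := by rw [hY]; exact inf_le_right
  have hYf := finite_of_le hfK hYK
  have hzY : z' ∈ Y := by
    rw [hY]
    refine ⟨Tw.mem_RK.2 ⟨?_, ?_⟩, ?_⟩
    · rw [hz']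
      exact pow_mem (mul_mem a1.2 b1.2) _
    · have e1 : (⟨z', by rw [hz']; exact pow_mem (mul_mem a1.2 b1.2) _⟩ : L) =
          (a1 * b1) ^ 2 ^ (m' + 1) := Subtype.ext hz'
      rw [e1]
      exact hzR
    · rw [hz']
      exact pow_mem (mul_mem n5 n3) _
  have hfm := fm E H.hG hqlK (Y := Y) n6 h3G (fun y hy => by
      rw [hY] at hy
      exact Tw.RK_pow hy.1) (fun y hy => by
      rw [hY, Subgroup.mem_inf] at hy ⊢
      exact ⟨Tw.RK_conj hy.1 s.2, mul_mem (mul_mem n6 hy.2) (inv_mem n6)⟩) (fun y hy hys => by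
      rw [hY] at hy
      obtain ⟨h9, h10⟩ := Tw.mem_RK.1 hy.1
      exact congrArg Subtype.val (h8 ⟨y, h9⟩ h10 (Subtype.ext hys))) hYK z' hzY
  exact inv_one_of E hz'2 hfm n4 hv hzv

theorem no_cfg (E : Ex2 q n) (H : Hg q n G) : ∀ (k m : ℕ) (a b : G),
    n.factorization 2 ≤ m + 1 + k → Cfg q n m a b → False := by
  intro k
  induction k with
  | zero =>
    intro m a b hk C
    apply C.z1
    have h1 := E.two_pow H.hG C.ord
    obtain ⟨j, hj⟩ := Nat.exists_eq_add_of_le hk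
    have e1 : 2 ^ (m + 1) = qp 2 n * 2 ^ j := by
      unfold qp
      rw [← pow_add, ← hj, add_zero]
    rw [e1, pow_mul, h1, one_pow]
  | succ k ih =>
    intro m a b hk C
    obtain ⟨m', a', b', h1, C'⟩ := C.grow E H
    exact ih m' a' b' (by omega) C'

end Pool.Agent.TH69.Ev
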