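import Mathlib
import Pool.Agent.TH69.EvH

set_option autoImplicit false

/-!
# Groups of exponent `2 ^ a * q ^ b`, part I: `q`-elements centralise the finite `2`-subgroups they
normalise
-/

namespace Pool.Agent.TH69.Ev

open Pool.Agent.H32BU Pool.Agent.W629 Pool.Agent.TH69.Mtn Pool.Agent.TH69.Pq
open scoped commutatorElement

variable {G : Type} [Group G] {q n : ℕ}

/-- minimal invariant `2`-subgroups are elementary abelian -/
theorem elem_of_min {S : Set G} {V : Subgroup G} (hf : Finite V) {k : ℕ}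
    (hp : ∀ v ∈ V, v ^ 2 ^ k = 1) (hne : V ≠ ⊥) (hinv : ∀ g ∈ S, ∀ v ∈ V, g * v * g⁻¹ ∈ V)
    (hmin : ∀ V' ≤ V, V' ≠ ⊥ → (∀ g ∈ S, ∀ v ∈ V', g * v * g⁻¹ ∈ V') → V' = V) :
    (∀ v ∈ V, ∀ w ∈ V, v * w = w * v) ∧ ∀ v ∈ V, v ^ 2 = 1 := by
  classical
  have : Fact (Nat.Prime 2) := ⟨Nat.prime_two⟩
  have hV : IsPGroup 2 V := fun x => ⟨k, Subtype.ext (hp x x.2)⟩
  have hnt : Nontrivial V := (Subgroup.nontrivial_iff_ne_bot V).2 hne
  have hcen : Nontrivial (Subgroup.center V) := hV.center_nontrivial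
  have hcne : (Subgroup.center V).map V.subtype ≠ ⊥ := by
    intro h
    rw [Subgroup.map_eq_bot_iff_of_injective _ V.subtype_injective] at h
    exact (Subgroup.nontrivial_iff_ne_bot _).1 hcen h
  have hc := hmin ((Subgroup.center V).map V.subtype) (Subgroup.map_subtype_le _) hcne (by
    rintro g hg v ⟨c, hc, rfl⟩
    refine ⟨⟨g * c * g⁻¹, hinv g hg c c.2⟩, ?_, rfl⟩
    rw [SetLike.mem_coe, Subgroup.mem_center_iff]
    intro w
    have hsur : Function.Surjective (fun v : V => (⟨g * v * g⁻¹, hinv g hg v v.2⟩ : V)) := by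
      apply Finite.surjective_of_injective
      intro x y hxy
      have h1 : g * (x : G) * g⁻¹ = g * (y : G) * g⁻¹ := congrArg Subtype.val hxy
      exact Subtype.ext (by simpa using h1)
    obtain ⟨w', hw'⟩ := hsur w
    have h1 : g * (w' : G) * g⁻¹ = w := congrArg Subtype.val hw'
    have h2 : (w' : G) * c = c * w' := congrArg Subtype.val ((Subgroup.mem_center_iff.1 hc) w')
    refine Subtype.ext ?_
    change (w : G) * (g * c * g⁻¹) = (g * c * g⁻¹) * w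
    rw [← h1]
    calc g * (w' : G) * g⁻¹ * (g * c * g⁻¹) = g * (w' * c) * g⁻¹ := by group
      _ = g * (c * w') * g⁻¹ := by rw [h2]
      _ = g * c * g⁻¹ * (g * w' * g⁻¹) := by group)
  have hcomm : ∀ v ∈ V, ∀ w ∈ V, v * w = w * v := by
    intro v hv w hw
    rw [← hc] at hv
    obtain ⟨c, hc, rfl⟩ := hv
    exact (congrArg Subtype.val ((Subgroup.mem_center_iff.1 hc) ⟨w, hw⟩)).symm
  refine ⟨hcomm, ?_⟩
  obtain ⟨V2, hV2⟩ : ∃ V2 : Subgroup G, ∀ v, v ∈ V2 ↔ v ∈ V ∧ v ^ 2 = 1 :=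
    ⟨{ carrier := {v | v ∈ V ∧ v ^ 2 = 1}
       one_mem' := ⟨one_mem _, one_pow _⟩
       mul_mem' := fun {x y} hx hy => ⟨mul_mem hx.1 hy.1, by
        have h1 : Commute x y := hcomm x hx.1 y hy.1
        rw [h1.mul_pow, hx.2, hy.2, one_mul]⟩
       inv_mem' := fun {x} hx => ⟨inv_mem hx.1, by rw [inv_pow, hx.2, inv_one]⟩ },
      fun v => Iff.rfl⟩
  have h2 := hmin V2 (fun v hv => ((hV2 v).1 hv).1) (by
    intro h
    obtain ⟨v, hv, hv1⟩ := (Subgroup.ne_bot_iff_exists_ne_one).1 hne |>.elim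
      fun x hx => (⟨(x : G), x.2, fun h => hx (Subtype.ext h)⟩ : ∃ v ∈ V, v ≠ 1)
    have hex : ∃ i : ℕ, v ^ 2 ^ i = 1 := ⟨k, hp v hv⟩
    have h3 := Nat.find_spec hex
    have h4 : Nat.find hex ≠ 0 := by
      intro h0
      rw [h0, pow_zero, pow_one] at h3
      exact hv1 h3
    obtain ⟨i, hi⟩ := Nat.exists_eq_succ_of_ne_zero h4
    have h5 := Nat.find_min hex (m := i) (by omega)
    rw [hi, Nat.succ_eq_add_one, pow_succ, pow_mul] at h3
    have h6 : v ^ 2 ^ i ∈ V2 := (hV2 _).2 ⟨pow_mem hv _, h3⟩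
    rw [h, Subgroup.mem_bot] at h6
    exact h5 h6) (by
    intro g hg v hv
    rw [hV2] at hv ⊢
    exact ⟨hinv g hg v hv.1, conj_pow_one hv.2⟩)
  intro v hv
  rw [← h2] at hv
  exact ((hV2 v).1 hv).2

theorem no_act (E : Ex2 q n) (H : Hg q n G) {t : G} (ht : t ^ qp q n = 1) (V0 : Subgroup G)
    (hf0 : Finite V0) (hV0 : ∀ v ∈ V0, v ^ qp 2 n = 1) (hinv0 : ∀ v ∈ V0, t * v * t⁻¹ ∈ V0) :
    ∀ v ∈ V0, t * v = v * t := by
  by_contra hcon
  push Not at hcon
  obtain ⟨V, hVle, A⟩ := arr_exists (n := n) (s := 2) V0 hf0 hV0 hinv0 hcon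
  have hfV := A.fin
  -- step 1
  obtain ⟨y, hy, hty⟩ := A.nc
  have hCt : ∀ v ∈ V, v * t = t * v → v = 1 := by
    obtain ⟨C, hC⟩ : ∃ C, C = Subgroup.closure {x : G | x ∈ c2 t y ∧ x ^ qp q n = 1} := ⟨_, rfl⟩
    have hyK : y ∈ c2 t y := Subgroup.subset_closure (by simp)
    have htK : t ∈ c2 t y := Subgroup.subset_closure (by simp)
    have htC : t ∈ C := by rw [hC]; exact Subgroup.subset_closure ⟨htK, ht⟩
    have hmin := A.min (V ⊓ C) inf_le_left (fun u hu => by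
        rw [Subgroup.mem_inf] at hu ⊢
        exact ⟨A.inv u hu.1, mul_mem (mul_mem htC hu.2) (inv_mem htC)⟩) (by
        by_contra hcon2
        push Not at hcon2
        obtain ⟨c, hc⟩ : ∃ c, c = y⁻¹ * (t * y * t⁻¹) := ⟨_, rfl⟩
        have hcV : c ∈ V := by rw [hc]; exact mul_mem (inv_mem hy) (A.inv y hy)
        have hcC : c ∈ C := by
          have e : c = (y⁻¹ * t * y) * t⁻¹ := by rw [hc]; group
          rw [e]
          refine mul_mem ?_ (inv_mem htC)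
          rw [hC]
          exact Subgroup.subset_closure ⟨mul_mem (mul_mem (inv_mem hyK) htK) hyK,
            conj_pow_one' ht⟩
        have h1 := hcon2 c ⟨hcV, hcC⟩
        have h2 : Commute t c⁻¹ := by
          have : Commute t c := h1
          exact this.inv_right
        have h3 := comm_pow (x := t) (y := y⁻¹) (c := c⁻¹) (by rw [hc]; group) h2 (qp q n)
        rw [ht] at h3
        have h4 : (c⁻¹) ^ qp q n = 1 := by rw [← h3]; group
        have h5 := W629.eq_one_of_coprime E.cop (x := c⁻¹) (by rw [inv_pow, A.pow c hcV, inv_one])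
          h4
        apply hty
        rw [inv_eq_one, hc, inv_mul_eq_one, eq_mul_inv_iff_mul_eq] at h5
        exact h5.symm)
    intro v hv hvt
    refine T4 E H (s := t) (y := y) ht (A.pow v hv) ?_ hvt
    rw [← hmin, Subgroup.mem_inf, hC] at hv
    exact hv.2
  -- step 2
  have hirr : ∀ V' ≤ V, V' ≠ ⊥ → (∀ v ∈ V', t * v * t⁻¹ ∈ V') → V' = V := by
    intro V' h1 h2 h3
    refine A.min V' h1 h3 ?_
    by_contra hcon2
    push Not at hcon2
    apply h2
    rw [eq_bot_iff]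
    intro v hv
    rw [Subgroup.mem_bot]
    exact hCt v (h1 hv) (hcon2 v hv).symm
  have hy1 : y ≠ 1 := by
    rintro rfl
    exact hty (by rw [mul_one, one_mul])
  have hVne : V ≠ ⊥ := by
    intro h
    rw [h, Subgroup.mem_bot] at hy
    exact hy1 hy
  obtain ⟨hVc, hV2⟩ := elem_of_min (S := {t}) hfV (k := n.factorization 2) A.pow hVne
    (by rintro g rfl; exact A.inv) (fun V' h1 h2 h3 => hirr V' h1 h2 (h3 t rfl))
  -- step 5
  have hP : ∀ v ∈ V, v ≠ 1 → ∀ s : G, s ^ qp q n = 1 → y * s * y = s⁻¹ → s * v = v * s →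
      s = 1 := by
    intro v hv hv1 s hs hys hsv
    obtain ⟨K, hK⟩ : ∃ K, K = c2 (v * s) t := ⟨_, rfl⟩
    have hfK : Finite K := by rw [hK]; exact H.h2 _ _
    have hqlK : QLs q n K := by rw [hK]; exact H.h3 _ _
    have n1 : v * s ∈ K := by rw [hK]; exact Subgroup.subset_closure (by simp)
    have n2 : t ∈ K := by rw [hK]; exact Subgroup.subset_closure (by simp)
    obtain ⟨n3, n4⟩ := mem_of_mul hsv.symm (A.pow v hv) hs E.cop _ n1
    have h1 := hirr (V ⊓ K) inf_le_left (by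
      intro h
      have : v ∈ V ⊓ K := ⟨hv, n3⟩
      rw [h, Subgroup.mem_bot] at this
      exact hv1 this) (fun u hu => by
        rw [Subgroup.mem_inf] at hu ⊢
        exact ⟨A.inv u hu.1, mul_mem (mul_mem n2 hu.2) (inv_mem n2)⟩)
    have hVK : V ≤ K := by rw [← h1]; exact inf_le_right
    have h2 := fm E H.hG hqlK (Y := V) n2 ht A.pow A.inv hCt hVK y hy
    exact inv_one_of E (hV2 y hy) h2 n4 hs hys
  -- the four-group
  obtain ⟨b, hb⟩ : ∃ b, b = t * y * t⁻¹ := ⟨_, rfl⟩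
  have hbV : b ∈ V := by rw [hb]; exact A.inv y hy
  have hyb := hVc y hy b hbV
  have hb1 : b ≠ 1 := by
    intro h
    rw [hb] at h
    apply hy1
    calc y = t⁻¹ * (t * y * t⁻¹) * t := by group
      _ = 1 := by rw [h]; group
  have hyb1 : y * b ≠ 1 := by
    intro h
    apply hty
    have h1 : b = y⁻¹ := eq_inv_of_mul_eq_one_right h
    rw [one_of_inv_inv (hV2 y hy), hb, mul_inv_eq_iff_eq_mul] at h1
    exact h1
  -- step 6
  obtain ⟨u, hu, hu1, hyu⟩ := exists_inv E H (hV2 y hy) hy1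
  obtain ⟨K0, hK0⟩ : ∃ K0, K0 = c2 y (b * u) := ⟨_, rfl⟩
  have hfK0 : Finite K0 := by rw [hK0]; exact H.h2 _ _
  have hql0 : QLs q n K0 := by rw [hK0]; exact H.h3 _ _
  have m1 : y ∈ K0 := by rw [hK0]; exact Subgroup.subset_closure (by simp)
  have m2 : b * u ∈ K0 := by rw [hK0]; exact Subgroup.subset_closure (by simp)
  obtain ⟨m4, m5⟩ := mem_three E (hV2 y hy) hyb hu hyu m1 m2
  obtain ⟨L, hLK, ⟨hLy, hLb, hLn⟩, hLmin⟩ := exists_min
    (fun L => y ∈ L ∧ b ∈ L ∧ y ∉ Tw.RK (qp 2 n) L) K0 hfK0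
    ⟨m1, m4, fun h => hu1 (inv_one_of E (hV2 y hy) h m5 hu hyu)⟩
  have hfL := finite_of_le hfK0 hLK
  have hqlL := hql0.mono hLK
  have hLE := exp_sub H.hG L
  have hyR : (⟨y, hLy⟩ : L) ∉ Rad (qp 2 n) L := fun h => hLn (Tw.mem_RK.2 ⟨hLy, h⟩)
  have hyy : (⟨y, hLy⟩ : L) ^ 2 = 1 := Subtype.ext (hV2 y hy)
  have hbb : (⟨b, hLb⟩ : L) ^ 2 = 1 := Subtype.ext (hV2 b hbV)
  have hybL : (⟨y, hLy⟩ : L) * ⟨b, hLb⟩ = ⟨b, hLb⟩ * ⟨y, hLy⟩ := Subtype.ext hyb
  have hne : ∃ u : L ⧸ Rad (qp 2 n) L, u ^ qp q n = 1 ∧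
      ((⟨y, hLy⟩ : L) : L ⧸ Rad (qp 2 n) L) * u ≠ u * ((⟨y, hLy⟩ : L) : L ⧸ Rad (qp 2 n) L) := by
    by_contra hcon2
    push Not at hcon2
    exact hyR (mem_R E hLE (E.two_sq hLE hyy) hcon2)
  have hsol : Group.IsSolvable (L ⧸ Rad (qp 2 n) L) := by
    have := solvF E hLE
    exact Group.isSolvable_of_surjective (QuotientGroup.mk'_surjective (Rad (qp 2 n) L))
  obtain ⟨r0, h1, h2, h3, h4⟩ := ev E (qmul E hLE hqlL.ql) hsol (mk_pow hyy) (mk_pow hbb)
    (mk_comm hybL) hne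
  obtain ⟨⟨r, hLr⟩, h5, h6, h7⟩ := li E hLE hyy h1 h3
  have hr : r ^ qp q n = 1 := congrArg Subtype.val h5
  have hyr : y * r * y = r⁻¹ := congrArg Subtype.val h6
  have hr1 : r ≠ 1 := by
    rintro rfl
    exact h2 h7.symm
  obtain ⟨f, hfV', hf1, hLf, hfr⟩ : ∃ f ∈ V, f ≠ 1 ∧ ∃ hLf : f ∈ L,
      ((⟨f, hLf⟩ : L) : L ⧸ Rad (qp 2 n) L) * r0 = r0 * ((⟨f, hLf⟩ : L) : L ⧸ Rad (qp 2 n) L) := by
    rcases h4 with h4 | h4
    · exact ⟨b, hbV, hb1, hLb, h4⟩
    · exact ⟨y * b, mul_mem hy hbV, hyb1, mul_mem hLy hLb, h4⟩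
  have hyf : y * f = f * y := hVc y hy f hfV'
  have hbf : b * f = f * b := hVc b hbV f hfV'
  have hfR : (⟨f, hLf⟩ : L) ∈ Rad (qp 2 n) L := by
    refine mem_R E hLE (Subtype.ext (A.pow f hfV')) ?_
    obtain ⟨C, hC⟩ : ∃ C : Subgroup L, C = (Subgroup.centralizer
      {((⟨f, hLf⟩ : L) : L ⧸ Rad (qp 2 n) L)}).comap (QuotientGroup.mk' (Rad (qp 2 n) L)) :=
      ⟨_, rfl⟩
    have hCm : ∀ x : L, x ∈ C ↔ (x : L ⧸ Rad (qp 2 n) L) * ((⟨f, hLf⟩ : L) : L ⧸ Rad (qp 2 n) L) =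
        ((⟨f, hLf⟩ : L) : L ⧸ Rad (qp 2 n) L) * x := by
      intro x
      rw [hC, Subgroup.mem_comap, Subgroup.mem_centralizer_singleton_iff]
      rfl
    have c1 : (⟨y, hLy⟩ : L) ∈ C := (hCm _).2 (mk_comm (Subtype.ext hyf))
    have c2' : (⟨b, hLb⟩ : L) ∈ C := (hCm _).2 (mk_comm (Subtype.ext hbf))
    have c3 : (⟨r, hLr⟩ : L) ∈ C := by
      rw [hCm, h7]
      exact hfr.symm
    have h8 := hLmin (C.map L.subtype) (Subgroup.map_subtype_le _) ⟨⟨_, c1, rfl⟩, ⟨_, c2', rfl⟩,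
      fun h => hr1 (inv_one_of E (hV2 y hy) h ⟨_, c3, rfl⟩ hr hyr)⟩
    intro u _
    obtain ⟨g, rfl⟩ := QuotientGroup.mk_surjective u
    have hg : (g : G) ∈ C.map L.subtype := by rw [h8]; exact g.2
    obtain ⟨g', hg', e⟩ := hg
    have e' : g' = g := Subtype.ext e
    rw [e'] at hg'
    exact ((hCm g).1 hg').symm
  have hfRK : f ∈ Tw.RK (qp 2 n) L := Tw.mem_RK.2 ⟨hLf, hfR⟩
  -- step 7
  obtain ⟨B, hB⟩ : ∃ B, B = Subgroup.closure {x : G | x ∈ c2 r f ∧ x ^ qp q n = 1} := ⟨_, rfl⟩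
  have hfK : f ∈ c2 r f := Subgroup.subset_closure (by simp)
  have hrK : r ∈ c2 r f := Subgroup.subset_closure (by simp)
  have hrB : r ∈ B := by rw [hB]; exact Subgroup.subset_closure ⟨hrK, hr⟩
  have hy' := one_of_inv_inv (hV2 y hy)
  have hyc : ∀ x ∈ c2 r f, y * x * y⁻¹ ∈ c2 r f := by
    have h1 : c2 r f ≤ (c2 r f).comap (MulAut.conj y).toMonoidHom := by
      conv_lhs => unfold c2
      rw [Subgroup.closure_le]
      rintro x (rfl | hx)
      · rw [SetLike.mem_coe, Subgroup.mem_comap]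
        change y * x * y⁻¹ ∈ c2 x f
        rw [hy', hyr]
        exact inv_mem hrK
      · rw [Set.mem_singleton_iff.1 hx, SetLike.mem_coe, Subgroup.mem_comap]
        change y * f * y⁻¹ ∈ c2 r f
        rw [hyf, mul_inv_cancel_right]
        exact hfK
    intro x hx
    exact h1 hx
  have hyB : ∀ x ∈ B, y * x * y⁻¹ ∈ B := by
    have h1 : B ≤ B.comap (MulAut.conj y).toMonoidHom := by
      conv_lhs => rw [hB]
      rw [Subgroup.closure_le]
      rintro x ⟨hx1, hx2⟩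
      rw [SetLike.mem_coe, Subgroup.mem_comap]
      change y * x * y⁻¹ ∈ B
      rw [hB]
      exact Subgroup.subset_closure ⟨hyc x hx1, conj_pow_one hx2⟩
    intro x hx
    exact h1 hx
  obtain ⟨c0, hc0⟩ : ∃ c0, c0 = r * f * r⁻¹ * f⁻¹ := ⟨_, rfl⟩
  have hc0B : c0 ∈ B := by
    have e : c0 = r * (f * r⁻¹ * f⁻¹) := by rw [hc0]; group
    rw [e]
    refine mul_mem hrB ?_
    rw [hB]
    refine Subgroup.subset_closure ⟨mul_mem (mul_mem hfK (inv_mem hrK)) (inv_mem hfK), ?_⟩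
    exact conj_pow_one (by rw [inv_pow, hr, inv_one])
  have hc0R : c0 ∈ Tw.RK (qp 2 n) L := by
    rw [hc0]
    exact mul_mem (Tw.RK_conj hfRK hLr) (inv_mem hfRK)
  have hc01 : c0 ≠ 1 := by
    intro h
    rw [hc0, mul_inv_eq_one, mul_inv_eq_iff_eq_mul] at h
    exact hr1 (hP f hfV' hf1 r hr hyr h)
  obtain ⟨W, hWle, ⟨hWne, hWr, hWy⟩, hWmin⟩ := exists_min
    (fun W => W ≠ ⊥ ∧ (∀ v ∈ W, r * v * r⁻¹ ∈ W) ∧ (∀ v ∈ W, y * v * y⁻¹ ∈ W))
    (Tw.RK (qp 2 n) L ⊓ B) (finite_of_le hfL (le_trans inf_le_left Tw.RK_le))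
    ⟨fun h => by
      have : c0 ∈ Tw.RK (qp 2 n) L ⊓ B := ⟨hc0R, hc0B⟩
      rw [h, Subgroup.mem_bot] at this
      exact hc01 this, fun v hv => by
      rw [Subgroup.mem_inf] at hv ⊢
      exact ⟨Tw.RK_conj hv.1 hLr, mul_mem (mul_mem hrB hv.2) (inv_mem hrB)⟩, fun v hv => by
      rw [Subgroup.mem_inf] at hv ⊢
      exact ⟨Tw.RK_conj hv.1 hLy, hyB v hv.2⟩⟩
  have hfW : Finite W := finite_of_le hfL (le_trans hWle (le_trans inf_le_left Tw.RK_le))
  have hWp : ∀ v ∈ W, v ^ qp 2 n = 1 := fun v hv => Tw.RK_pow (hWle hv).1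
  have hWC : ∀ v ∈ W, v * r = r * v → v = 1 := by
    intro v hv hvr
    refine T4 E H (s := r) (y := f) hr (hWp v hv) ?_ hvr
    rw [← hB]
    exact (hWle hv).2
  obtain ⟨hWc, hW2⟩ := elem_of_min (S := {r, y}) hfW (k := n.factorization 2) hWp hWne
    (by
      rintro g (rfl | hg)
      · exact hWr
      · rw [Set.mem_singleton_iff.1 hg]
        exact hWy) (fun W' h1 h2 h3 => hWmin W' h1 ⟨h2, h3 r (by simp), h3 y (by simp)⟩)
  -- step 8
  obtain ⟨x, hx, hxy⟩ : ∃ x ∈ W, y * x ≠ x * y := by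
    by_contra hcon2
    push Not at hcon2
    apply hWne
    rw [eq_bot_iff]
    intro v hv
    rw [Subgroup.mem_bot]
    refine hWC v hv (E.comm_of_sq hr ?_).symm
    have e1 := hcon2 v hv
    have e2 := hcon2 _ (hWr v hv)
    -- `y` commutes with `r v r⁻¹`
    have e3 : r⁻¹ * y * r = (r⁻¹) ^ 2 * y := by
      calc r⁻¹ * y * r = r⁻¹ * (y * r * y) * y⁻¹ := by group
        _ = (r⁻¹) ^ 2 * y := by rw [hyr, hy', pow_two]
    have e4 : ((r⁻¹) ^ 2 * y) * v = v * ((r⁻¹) ^ 2 * y) := by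
      rw [← e3]
      calc r⁻¹ * y * r * v = r⁻¹ * (y * (r * v * r⁻¹)) * r := by group
        _ = r⁻¹ * ((r * v * r⁻¹) * y) * r := by rw [e2]
        _ = v * (r⁻¹ * y * r) := by group
    have e5 : (r⁻¹) ^ 2 * v = v * (r⁻¹) ^ 2 := by
      have e6 : ((r⁻¹) ^ 2 * v) * y = (v * (r⁻¹) ^ 2) * y := by
        rw [mul_assoc, ← e1, ← mul_assoc, e4, mul_assoc]
      exact mul_right_cancel e6
    have e7 : Commute ((r⁻¹) ^ 2) v := e5
    rw [inv_pow] at e7
    exact (Commute.inv_left_iff.1 e7).eq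
  -- step 9
  obtain ⟨w, hw⟩ : ∃ w, w = y * x * y := ⟨_, rfl⟩
  have hwW : w ∈ W := by
    have := hWy x hx
    rw [hy'] at this
    rw [hw]
    exact this
  have hxw := hWc x hx w hwW
  obtain ⟨z, hz⟩ : ∃ z, z = x * w := ⟨_, rfl⟩
  have hzW : z ∈ W := by rw [hz]; exact mul_mem hx hwW
  have hyy2 : y * y = 1 := by rw [← pow_two, hV2 y hy]
  have hxy2 : (x * y) ^ 2 ^ (0 + 1) = z := by
    rw [zero_add, pow_one, pow_two, hz, hw]
    group
  have hz1 : z ≠ 1 := by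
    intro h
    apply hxy
    have e1 : x = w := by
      have := eq_inv_of_mul_eq_one_left (hz.symm.trans h)
      rw [this, one_of_inv_inv (hW2 w hwW)]
    calc y * x = y * x * (y * y) := by rw [hyy2, mul_one]
      _ = (y * x * y) * y := by group
      _ = x * y := by rw [← hw, ← e1]
  have hx' := one_of_inv_inv (hW2 x hx)
  have hw' := one_of_inv_inv (hW2 w hwW)
  have hCf : Cfg q n 0 x y := by
    refine ⟨hW2 x hx, hV2 y hy, ?_, ?_, ?_⟩
    · have e : 2 ^ (0 + 2) = 2 ^ (0 + 1) * 2 := by norm_num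
      rw [e, pow_mul, hxy2, hW2 z hzW]
    · rw [hxy2]
      exact hz1
    · intro s hs hzs hsy
      rw [hxy2] at hzs
      obtain ⟨p, hp⟩ : ∃ p, p = x⁻¹ * r⁻¹ * x := ⟨_, rfl⟩
      obtain ⟨K, hK⟩ : ∃ K, K = c2 (s * y) p := ⟨_, rfl⟩
      have hfK : Finite K := by rw [hK]; exact H.h2 _ _
      have hqlK : QLs q n K := by rw [hK]; exact H.h3 _ _
      have n1 : s * y ∈ K := by rw [hK]; exact Subgroup.subset_closure (by simp)
      have n2 : p ∈ K := by rw [hK]; exact Subgroup.subset_closure (by simp)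
      obtain ⟨n3, n4⟩ := mem_of_mul hsy hs (A.pow y hy) E.cop.symm _ n1
      have hpβ : p ^ qp q n = 1 := by
        rw [hp]
        exact conj_pow_one' (by rw [inv_pow, hr, inv_one])
      -- the action of `p⁻¹`
      have hact : ∀ v ∈ W, p⁻¹ * v * p = r * v * r⁻¹ := by
        intro v hv
        have e1 := hWc x hx v hv
        have e2 := hWc x hx _ (hWr v hv)
        calc p⁻¹ * v * p = x⁻¹ * r * (x * v) * x⁻¹ * r⁻¹ * x := by rw [hp]; group
          _ = x⁻¹ * r * (v * x) * x⁻¹ * r⁻¹ * x := by rw [e1]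
          _ = x⁻¹ * ((r * v * r⁻¹) * x) := by group
          _ = x⁻¹ * (x * (r * v * r⁻¹)) := by rw [e2]
          _ = r * v * r⁻¹ := by group
      obtain ⟨Y, hY⟩ : ∃ Y, Y = W ⊓ K := ⟨_, rfl⟩
      have hYm : ∀ v, v ∈ Y ↔ v ∈ W ∧ v ∈ K := fun v => by rw [hY, Subgroup.mem_inf]
      have hYf : Finite Y := finite_of_le hfW (by rw [hY]; exact inf_le_left)
      have hYr : ∀ v ∈ Y, p⁻¹ * v * p⁻¹⁻¹ ∈ Y := by
        intro v hv
        rw [hYm] at hv ⊢
        refine ⟨?_, mul_mem (mul_mem (inv_mem n2) hv.2) (inv_mem (inv_mem n2))⟩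
        rw [inv_inv, hact v hv.1]
        exact hWr v hv.1
      have hinj : ∀ v1 ∈ W, ∀ v2 ∈ W, v1 * (r * v1 * r⁻¹) = v2 * (r * v2 * r⁻¹) → v1 = v2 := by
        intro v1 h1 v2 h2 h12
        have e1 : v1⁻¹ * v2 ∈ W := mul_mem (inv_mem h1) h2
        have e2 : (v1⁻¹ * v2) * r = r * (v1⁻¹ * v2) := by
          have e3 : v2⁻¹ * v1 = (r * v2 * r⁻¹) * (r * v1 * r⁻¹)⁻¹ := by
            calc v2⁻¹ * v1 = v2⁻¹ * (v1 * (r * v1 * r⁻¹)) * (r * v1 * r⁻¹)⁻¹ := by group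
              _ = v2⁻¹ * (v2 * (r * v2 * r⁻¹)) * (r * v1 * r⁻¹)⁻¹ := by rw [h12]
              _ = (r * v2 * r⁻¹) * (r * v1 * r⁻¹)⁻¹ := by group
          have e4 : v2⁻¹ * v1 = v1⁻¹ * v2 := by
            rw [one_of_inv_inv (hW2 v1 h1), one_of_inv_inv (hW2 v2 h2), hWc v1 h1 v2 h2]
          have e5 : (r * v2 * r⁻¹) * (r * v1 * r⁻¹)⁻¹ = r * (v1⁻¹ * v2) * r⁻¹ := by
            rw [← hWc v2 h2 v1⁻¹ (inv_mem h1)]
            group
          rw [e4, e5, eq_mul_inv_iff_mul_eq] at e3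
          exact e3
        have e6 := hWC _ e1 e2
        rw [inv_mul_eq_one] at e6
        exact e6
      have hzK : z ∈ Y := by
        let φ : Y → Y := fun v => ⟨(v : G) * (p⁻¹ * v * p⁻¹⁻¹), mul_mem v.2 (hYr v v.2)⟩
        have hφv : ∀ v : Y, ((φ v : Y) : G) = v * (r * v * r⁻¹) := by
          intro v
          change (v : G) * (p⁻¹ * v * p⁻¹⁻¹) = _
          rw [inv_inv, hact v ((hYm v).1 v.2).1]
        have hφ : Function.Injective φ := by
          intro v1 v2 h12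
          have := congrArg Subtype.val h12
          rw [hφv, hφv] at this
          exact Subtype.ext (hinj v1 ((hYm v1).1 v1.2).1 v2 ((hYm v2).1 v2.2).1 this)
        have hφs : Function.Surjective φ := Finite.injective_iff_surjective.1 hφ
        have hy1Y : z * (r * z * r⁻¹) ∈ Y := by
          rw [hYm]
          refine ⟨mul_mem hzW (hWr z hzW), ?_⟩
          have e1 : z * (r * z * r⁻¹) = (y * p * y) * p := by
            have hy4 : y⁻¹ = y := hy'
            have e2 : y * p * y = w⁻¹ * r * w := by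
              rw [hp, hw]
              have e3 : y * r⁻¹ * y = r := by
                rw [← hyr]
                calc y * (y * r * y) * y = (y * y) * r * (y * y) := by group
                  _ = r := by rw [hyy2]; group
              calc y * (x⁻¹ * r⁻¹ * x) * y = y * x⁻¹ * (y * y) * r⁻¹ * (y * y) * x * y := by
                    rw [hyy2]; group
                _ = (y * x⁻¹ * y) * (y * r⁻¹ * y) * (y * x * y) := by group
                _ = (y * x⁻¹ * y) * r * (y * x * y) := by rw [e3]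
                _ = (y⁻¹ * x⁻¹ * y⁻¹) * r * (y * x * y) := by rw [hy4]
                _ = (y * x * y)⁻¹ * r * (y * x * y) := by group
            have e4 : w * x⁻¹ = z := by rw [hx', ← hxw, hz]
            have e5 : w⁻¹ * (r * z * r⁻¹) * x = z * (r * z * r⁻¹) := by
              have e6 := hWc _ (hWr z hzW) x hx
              rw [mul_assoc, e6, ← mul_assoc, hw', ← hxw, ← hz]
            rw [← e5, e2, hp, ← e4]
            group
          rw [e1]
          exact mul_mem (mul_mem (mul_mem n4 n2) n4) n2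
        obtain ⟨v, hv⟩ := hφs ⟨_, hy1Y⟩
        have h8 := congrArg Subtype.val hv
        rw [hφv] at h8
        have h9 := hinj v ((hYm v).1 v.2).1 z hzW h8
        rw [← h9]
        exact v.2
      have h10 := fm E H.hG hqlK (Y := Y) (s := p⁻¹) (inv_mem n2) (by rw [inv_pow, hpβ, inv_one])
        (fun v hv => hWp v ((hYm v).1 hv).1) hYr (fun v hv hvp => by
          have hvW := ((hYm v).1 hv).1
          apply hWC v hvW
          have e1 := hact v hvW
          have e2 : p⁻¹ * v * p = v := by rw [← hvp]; group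
          rw [e2, eq_mul_inv_iff_mul_eq] at e1
          exact e1) (fun v hv => ((hYm v).1 hv).2) z hzK
      exact inv_one_of E (hW2 z hzW) h10 n3 hs hzs
  exact no_cfg E H (n.factorization 2) 0 x y (by omega) hCf

end Pool.Agent.TH69.Ev
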