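import Mathlib
import Pool.Agent.TH69.EvI
import Pool.Agent.TH69.PqG

set_option autoImplicit false

/-!
# Groups of exponent `2 ^ a * q ^ b`, part J: conclusion
-/

namespace Pool.Agent.TH69.Ev

open Pool.Agent.H32BU Pool.Agent.W629 Pool.Agent.TH69.Mtn Pool.Agent.TH69.Pq

universe u v

theorem trivial_of {G : Type} [Group G] {q n : ℕ} (E : Ex2 q n) (H : Hg q n G)
    (hRq : Rad (qp q n) G = ⊥) (g : G) : g = 1 := by
  have hmul : ∀ x y : G, x ^ qp q n = 1 → y ^ qp q n = 1 → (x * y) ^ qp q n = 1 := by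
    intro x y hx hy
    have hf := H.h2 x y
    have mx : x ∈ c2 x y := Subgroup.subset_closure (by simp)
    have my : y ∈ c2 x y := Subgroup.subset_closure (by simp)
    obtain ⟨c, hc⟩ : ∃ c, c = (x * y) ^ qp q n := ⟨_, rfl⟩
    have hcK : c ∈ c2 x y := by rw [hc]; exact pow_mem (mul_mem mx my) _
    have hcα : c ^ qp 2 n = 1 := by
      rw [hc, ← pow_mul, mul_comm, E.hn, H.hG]
    have hcR : c ∈ Tw.RK (qp 2 n) (c2 x y) := by
      refine mem_RK'.2 ⟨hcK, hcα, fun w hw hw' => ?_⟩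
      rw [hc]
      exact H.h3 x y x mx y my w hw hx hy hw'
    have h1 := no_act E H hx (Tw.RK (qp 2 n) (c2 x y)) (finite_of_le hf Tw.RK_le)
      (fun v hv => Tw.RK_pow hv) (fun v hv => Tw.RK_conj hv mx) c hcR
    rw [← hc]
    refine T4 E H (s := x) (y := y) hx hcα ?_ h1.symm
    rw [hc]
    have mx' : x ∈ {z : G | z ∈ c2 x y ∧ z ^ qp q n = 1} := ⟨mx, hx⟩
    have my' : y ∈ {z : G | z ∈ c2 x y ∧ z ^ qp q n = 1} := ⟨my, hy⟩
    exact pow_mem (mul_mem (Subgroup.subset_closure mx') (Subgroup.subset_closure my')) _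
  have hq1 : ∀ x : G, x ^ qp q n = 1 → x = 1 := by
    intro x hx
    have h1 : x ∈ Rad (qp q n) G := ⟨hx, fun z hz => hmul x z hx hz⟩
    rwa [hRq, Subgroup.mem_bot] at h1
  have h2 : ∀ x : G, x ^ qp 2 n = 1 := by
    intro x
    apply hq1
    rw [← pow_mul, E.hn, H.hG]
  have h3 : g ∈ Rad (qp 2 n) G := ⟨h2 g, fun z _ => h2 _⟩
  rwa [H.hR, Subgroup.mem_bot] at h3

theorem Ex2.qp_other {q n : ℕ} (E : Ex2 q n) {s : ℕ} (hs : s.Prime) (h1 : s ≠ 2)
    (h2 : s ≠ q) : qp s n = 1 := by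
  have h3 : ¬ s ∣ n := by
    intro h
    rw [← E.hn] at h
    rcases (Nat.Prime.dvd_mul hs).1 h with h | h
    · exact h1 ((Nat.prime_dvd_prime_iff_eq hs Nat.prime_two).1 (hs.dvd_of_dvd_pow h))
    · exact h2 ((Nat.prime_dvd_prime_iff_eq hs E.hq).1 (hs.dvd_of_dvd_pow h))
  unfold qp
  rw [Nat.factorization_eq_zero_of_not_dvd h3, pow_zero]

theorem QLs.quot {G : Type} [Group G] {q n : ℕ} (E : Ex2 q n) (hG : ∀ x : G, x ^ n = 1)
    (M : Subgroup G) [M.Normal] {K : Subgroup G} (h : QLs q n K) :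
    QLs q n (K.map (QuotientGroup.mk' M)) := by
  have hG1 : ∀ x : G, x ^ (qp 2 n * qp q n) = 1 := fun x => by rw [E.hn]; exact hG x
  have hG2 : ∀ x : G, x ^ (qp q n * qp 2 n) = 1 := fun x => by rw [mul_comm]; exact hG1 x
  rintro _ ⟨x, hx, rfl⟩ _ ⟨y, hy, rfl⟩ _ ⟨w, hw, rfl⟩ h1 h2 h3
  obtain ⟨x', hx', h4, h5⟩ := lift_elt E.cop.symm hG2 M K h1 x hx rfl
  obtain ⟨y', hy', h6, h7⟩ := lift_elt E.cop.symm hG2 M K h2 y hy rfl
  obtain ⟨w', hw', h8, h9⟩ := lift_elt E.cop hG1 M K h3 w hw rfl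
  have h10 := h x' hx' y' hy' w' hw' h4 h6 h8
  rw [← h5, ← h7, ← h9, ← QuotientGroup.mk_mul, ← QuotientGroup.mk_pow, ← QuotientGroup.mk_mul,
    ← QuotientGroup.mk_pow, h10]
  rfl

theorem lf_ev {q n : ℕ} (E : Ex2 q n) (hL : ∀ p : ℕ, p.Prime → LocFin (qp p n)) (G : Type)
    [Group G] (hG : ∀ x : G, x ^ n = 1)
    (h2 : ∀ x y : G, Finite (c2 x y) ∧ QLs q n (c2 x y)) : LF G := by
  obtain ⟨M, hM, hML, hMmax⟩ := exists_radical G
  refine x_SCH G M hML ?_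
  have hrad : ∀ s : ℕ, s.Prime → Rad (qp s n) (G ⧸ M) = ⊥ := by
    intro s hs
    rw [eq_bot_iff]
    intro x hx
    have hN : ((Rad (qp s n) (G ⧸ M)).comap (QuotientGroup.mk' M)).Normal := inferInstance
    have hNL : LF ((Rad (qp s n) (G ⧸ M)).comap (QuotientGroup.mk' M)) := by
      have hML' : LF (M.subgroupOf ((Rad (qp s n) (G ⧸ M)).comap (QuotientGroup.mk' M))) := by
        refine x_LFS.2.1 _ M
          { toFun := fun x => ⟨(x : ↥((Rad (qp s n) (G ⧸ M)).comap (QuotientGroup.mk' M))), x.2⟩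
            map_one' := rfl
            map_mul' := fun _ _ => rfl } ?_ hML
        intro a b hab
        have : ((a : ↥((Rad (qp s n) (G ⧸ M)).comap (QuotientGroup.mk' M))) : G) =
            ((b : ↥((Rad (qp s n) (G ⧸ M)).comap (QuotientGroup.mk' M))) : G) :=
          congrArg (fun z : ↥M => (z : G)) hab
        exact Subtype.ext (Subtype.ext this)
      refine x_SCH _ (M.subgroupOf ((Rad (qp s n) (G ⧸ M)).comap (QuotientGroup.mk' M))) hML' ?_
      refine hL s hs _ fun q => ?_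
      obtain ⟨⟨g, hg⟩, rfl⟩ := QuotientGroup.mk_surjective q
      rw [← QuotientGroup.mk_pow, QuotientGroup.eq_one_iff, Subgroup.mem_subgroupOf]
      have h3 : ((g : G ⧸ M)) ^ qp s n = 1 := hg.1
      rw [← QuotientGroup.mk_pow, QuotientGroup.eq_one_iff] at h3
      exact h3
    obtain ⟨g, rfl⟩ := QuotientGroup.mk_surjective x
    have h4 : g ∈ (Rad (qp s n) (G ⧸ M)).comap (QuotientGroup.mk' M) := hx
    have h5 := hMmax _ hN hNL h4
    rw [Subgroup.mem_bot, QuotientGroup.eq_one_iff]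
    exact h5
  have hH : Hg q n (G ⧸ M) := by
    have hmap : ∀ x y : G, (c2 x y).map (QuotientGroup.mk' M) = c2 (x : G ⧸ M) (y : G ⧸ M) :=
      fun x y => map_c2 _ x y
    refine ⟨exp_quot hG M, ?_, ?_, hrad 2 Nat.prime_two⟩
    · intro x y
      obtain ⟨x, rfl⟩ := QuotientGroup.mk_surjective x
      obtain ⟨y, rfl⟩ := QuotientGroup.mk_surjective y
      have hf := (h2 x y).1
      rw [← hmap]
      exact Finite.of_surjective _ ((QuotientGroup.mk' M).subgroupMap_surjective (c2 x y))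
    · intro x y
      obtain ⟨x, rfl⟩ := QuotientGroup.mk_surjective x
      obtain ⟨y, rfl⟩ := QuotientGroup.mk_surjective y
      rw [← hmap]
      exact (h2 x y).2.quot E hG M
  have h1 : ∀ g : G ⧸ M, g = 1 := fun g => trivial_of E hH (hrad q E.hq) g
  intro S
  have : Subsingleton (G ⧸ M) := ⟨fun a b => by rw [h1 a, h1 b]⟩
  infer_instance

/-- the condition in all universes -/
def QLv {G : Type u} [Group G] (q n : ℕ) (K : Subgroup G) : Prop :=
  ∀ x ∈ K, ∀ y ∈ K, ∀ w ∈ K, x ^ qp q n = 1 → y ^ qp q n = 1 → w ^ qp 2 n = 1 →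
    ((x * y) ^ qp q n * w) ^ qp 2 n = 1

theorem ev_transfer {Q : Type} {G : Type u} [Group Q] [Group G] {q n : ℕ} (f : Q →* G)
    (hf : Function.Injective f)
    (h2 : ∀ x y : G, Finite (Subgroup.closure {x, y}) ∧ QLv q n (Subgroup.closure {x, y}))
    (x y : Q) : Finite (c2 x y) ∧ QLs q n (c2 x y) := by
  obtain ⟨h3, h4⟩ := h2 (f x) (f y)
  have e : (c2 x y).map f = Subgroup.closure {f x, f y} := by
    unfold c2
    rw [MonoidHom.map_closure, Set.image_pair]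
  rw [← e] at h3 h4
  have eq := (c2 x y).equivMapOfInjective f hf
  refine ⟨Finite.of_equiv _ eq.symm.toEquiv, ?_⟩
  intro x' hx y' hy w' hw h5 h6 h7
  apply hf
  rw [map_one, map_pow, map_mul, map_pow, map_mul]
  exact h4 _ ⟨x', hx, rfl⟩ _ ⟨y', hy, rfl⟩ _ ⟨w', hw, rfl⟩ (by rw [← map_pow, h5, map_one])
    (by rw [← map_pow, h6, map_one]) (by rw [← map_pow, h7, map_one])

theorem lf_ev_u {q n : ℕ} (E : Ex2 q n) (hL : ∀ p : ℕ, p.Prime → LocFin (qp p n))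
    (G : Type u) [Group G] (hG : ∀ x : G, x ^ n = 1)
    (h2 : ∀ x y : G, Finite (Subgroup.closure {x, y}) ∧ QLv q n (Subgroup.closure {x, y}))
    (S : Set G) (hS : S.Finite) : Finite (Subgroup.closure S) :=
  finite_closure_u S hS fun Q _ f hf => lf_ev E hL Q
    (fun x => hf (by rw [map_pow, map_one]; exact hG _)) (ev_transfer f hf h2)

/-- triviality of groups with trivial radicals, all universes -/
theorem trivial_ev_u {q n : ℕ} (E : Ex2 q n) (G : Type u) [Group G] (hG : ∀ x : G, x ^ n = 1)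
    (h2 : ∀ x y : G, Finite (Subgroup.closure {x, y}) ∧ QLv q n (Subgroup.closure {x, y}))
    (hR : ∀ s : ℕ, s.Prime → Rad (qp s n) G = ⊥) (g : G) : g = 1 := by
  classical
  have hex : ∀ (s : ℕ) (e : G), ∃ z : G, s.Prime → e ≠ 1 → e ^ qp s n = 1 →
      z ^ qp s n = 1 ∧ (e * z) ^ qp s n ≠ 1 := by
    intro s e
    by_contra hcon
    push Not at hcon
    obtain ⟨hs, he1, he, -⟩ := hcon 1
    apply he1
    have h3 : e ∈ Rad (qp s n) G := ⟨he, fun z hz => (hcon z).2.2.2 hz⟩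
    rw [hR s hs] at h3
    exact h3
  choose f hf using hex
  obtain ⟨C, hC, hgC, hfC⟩ := exists_closed f g
  have hsm : Small.{0} C := inferInstance
  let e : Shrink.{0} C ≃* C := Shrink.mulEquiv
  let φ : Shrink.{0} C →* G := C.subtype.comp e.toMonoidHom
  have hφ : Function.Injective φ := fun x y hxy => e.injective (Subtype.ext hxy)
  have hmem : ∀ x, φ x ∈ C := fun x => (e x).2
  have hrad : ∀ s : ℕ, s.Prime → Rad (qp s n) (Shrink.{0} C) = ⊥ := by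
    intro s hs
    rw [Subgroup.eq_bot_iff_forall]
    rintro x ⟨hx, hx'⟩
    by_contra hne
    obtain ⟨h4, h5⟩ := hf s (φ x) hs (fun h => hne (hφ (by rw [h, map_one])))
      (by rw [← map_pow, hx, map_one])
    obtain ⟨z, hz⟩ : ∃ z, φ z = f s (φ x) := by
      refine ⟨e.symm ⟨f s (φ x), hfC s _ (hmem x)⟩, ?_⟩
      change ((e (e.symm _) : C) : G) = _
      rw [MulEquiv.apply_symm_apply]
    have h6 := hx' z (hφ (by rw [map_pow, hz, h4, map_one]))
    apply h5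
    rw [← hz, ← map_mul, ← map_pow, h6, map_one]
  have hH : Hg q n (Shrink.{0} C) := ⟨fun x => hφ (by rw [map_pow, map_one]; exact hG _),
    fun x y => (ev_transfer φ hφ h2 x y).1, fun x y => (ev_transfer φ hφ h2 x y).2,
    hrad 2 Nat.prime_two⟩
  have h3 := trivial_of E hH (hrad q E.hq) (e.symm ⟨g, hgC⟩)
  have h4 := congrArg φ h3
  rw [map_one] at h4
  have h5 : φ (e.symm ⟨g, hgC⟩) = g := by
    change ((e (e.symm _) : C) : G) = _
    rw [MulEquiv.apply_symm_apply]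
  rw [← h5, h4]

/-- groups of type `(2, q, 2)` satisfy the condition -/
theorem qlv_of {G : Type u} [Group G] {q n : ℕ} (E : Ex2 q n) (hG : ∀ x : G, x ^ n = 1)
    (K : Subgroup G) (P N : Subgroup K) (hP : P.Normal)
    (h1 : ∀ x ∈ P, ∃ k : ℕ, x ^ 2 ^ k = 1) (h2 : ∀ x ∈ N, ∃ k : ℕ, x ^ q ^ k ∈ P)
    (h3 : ∀ x : K, ∃ k : ℕ, x ^ 2 ^ k ∈ N) : QLv q n K := by
  have hK : ∀ x : K, x ^ n = 1 := fun x => Subtype.ext (hG x)
  have hgen : ∀ (H : Subgroup K) (x : K) (i j : ℕ), x ^ i ∈ H → x ^ j ∈ H → x ^ Nat.gcd i j ∈ H := by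
    intro H x i j hi hj
    have e1 : x ^ Nat.gcd i j = (x ^ i) ^ Nat.gcdA i j * (x ^ j) ^ Nat.gcdB i j := by
      rw [← zpow_natCast x (Nat.gcd i j), Nat.gcd_eq_gcd_ab, zpow_add, zpow_mul, zpow_mul,
        zpow_natCast, zpow_natCast]
    rw [e1]
    exact mul_mem (zpow_mem hi _) (zpow_mem hj _)
  have hN : ∀ x : K, x ^ qp q n = 1 → x ∈ N := by
    intro x hx
    obtain ⟨k, hk⟩ := h3 x
    have h4 := hgen N x (2 ^ k) (qp q n) hk (by rw [hx]; exact one_mem _)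
    have h5 : Nat.gcd (2 ^ k) (qp q n) = 1 :=
      Nat.Coprime.pow _ _ ((Nat.coprime_primes Nat.prime_two E.hq).2 E.hq2.symm)
    rwa [h5, pow_one] at h4
  intro x hx y hy w hw h4 h5 h6
  have h7 : (⟨x, hx⟩ : K) * ⟨y, hy⟩ ∈ N :=
    mul_mem (hN _ (Subtype.ext h4)) (hN _ (Subtype.ext h5))
  obtain ⟨k, hk⟩ := h2 _ h7
  have h8 := hgen P _ (q ^ k) n hk (by rw [hK]; exact one_mem _)
  have h9 : Nat.gcd (q ^ k) n ∣ qp q n := by
    have h10 : Nat.Coprime (Nat.gcd (q ^ k) n) (qp 2 n) :=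
      Nat.Coprime.coprime_dvd_left (Nat.gcd_dvd_left _ _)
        (Nat.Coprime.pow _ _ ((Nat.coprime_primes E.hq Nat.prime_two).2 E.hq2))
    have h11 : Nat.gcd (q ^ k) n ∣ qp 2 n * qp q n := by
      rw [E.hn]
      exact Nat.gcd_dvd_right _ _
    exact h10.dvd_of_dvd_mul_left h11
  obtain ⟨j, hj⟩ := h9
  have h12 : ((⟨x, hx⟩ : K) * ⟨y, hy⟩) ^ qp q n ∈ P := by
    rw [hj, pow_mul]
    exact pow_mem h8 j
  have h13 : (((⟨x, hx⟩ : K) * ⟨y, hy⟩) ^ qp q n * ⟨w, hw⟩) ^ qp 2 n ∈ P := by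
    rw [← QuotientGroup.eq_one_iff, QuotientGroup.mk_pow, QuotientGroup.mk_mul,
      (QuotientGroup.eq_one_iff _).2 h12, one_mul, ← QuotientGroup.mk_pow]
    have h14 : (⟨w, hw⟩ : K) ^ qp 2 n = 1 := Subtype.ext h6
    rw [h14]
    rfl
  obtain ⟨l, hl⟩ := h1 _ h13
  have h15 : (((⟨x, hx⟩ : K) * ⟨y, hy⟩) ^ qp q n * ⟨w, hw⟩) ^ 2 ^ (n.factorization 2 + l) = 1 := by
    rw [pow_add, pow_mul]
    exact hl
  have h16 : orderOf (((⟨x, hx⟩ : K) * ⟨y, hy⟩) ^ qp q n * ⟨w, hw⟩) ∣ n :=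
    orderOf_dvd_of_pow_eq_one (hK _)
  have h17 := orderOf_dvd_of_pow_eq_one h15
  have h18 : orderOf (((⟨x, hx⟩ : K) * ⟨y, hy⟩) ^ qp q n * ⟨w, hw⟩) ∣ qp 2 n := by
    have h19 : Nat.Coprime (orderOf (((⟨x, hx⟩ : K) * ⟨y, hy⟩) ^ qp q n * ⟨w, hw⟩)) (qp q n) :=
      Nat.Coprime.coprime_dvd_left h17
        (Nat.Coprime.pow _ _ ((Nat.coprime_primes Nat.prime_two E.hq).2 E.hq2.symm))
    exact h19.dvd_of_dvd_mul_right (h16.trans (dvd_of_eq E.hn.symm))
  have h20 := orderOf_dvd_iff_pow_eq_one.1 h18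
  exact congrArg Subtype.val h20

end Pool.Agent.TH69.Ev
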