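import Mathlib
import Pool.Agent.TH69.OmB
import Pool.Agent.TH69.EvJ

set_option autoImplicit false

/-!
# Bounded normal series, part C: metanilpotent two-generator subgroups and type `(2, q, 2)`
-/

namespace Pool.Agent.TH69.Om

open Pool.Agent.H32BU Pool.Agent.W629 Pool.Agent.TH69.Og Pool.Agent.TH69.Mtn Pool.Agent.TH69.Ev
open Pool.Agent.TH69.Pq

universe u v w

theorem MN_of_surjective {A : Type u} {B : Type v} [Group A] [Group B] (f : A →* B)
    (hf : Function.Surjective f) (h : MN A) : MN B := by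
  obtain ⟨N, hN, h1, h2⟩ := h
  have hN' : (N.map f).Normal := hN.map f hf
  refine ⟨N.map f, hN', ?_, ?_⟩
  · exact Group.nilpotent_of_surjective (f.subgroupMap N) (f.subgroupMap_surjective N)
  · refine Group.nilpotent_of_surjective
      (QuotientGroup.map N (N.map f) f (Subgroup.le_comap_map f N)) ?_
    intro x
    obtain ⟨x, rfl⟩ := QuotientGroup.mk_surjective x
    obtain ⟨a, rfl⟩ := hf x
    exact ⟨(a : A ⧸ N), rfl⟩

theorem MN_pi {H : Type u} [Group H] {ι : Type w} [Finite ι] (A : ι → Type v)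
    [∀ i, Group (A i)] (g : ∀ i, H →* A i) (hinj : ∀ h, (∀ i, g i h = 1) → h = 1)
    (hMN : ∀ i, MN (g i).range) : MN H := by
  choose N hN h1 h2 using hMN
  obtain ⟨M, hM⟩ : ∃ M : Subgroup H, M = ⨅ i, (N i).comap (g i).rangeRestrict := ⟨_, rfl⟩
  have hmem : ∀ x, x ∈ M ↔ ∀ i, (g i).rangeRestrict x ∈ N i := by
    intro x
    rw [hM, Subgroup.mem_iInf]
    rfl
  have hMn : M.Normal := by
    refine ⟨fun x hx y => ?_⟩
    rw [hmem] at hx ⊢
    intro i
    rw [map_mul, map_mul, map_inv]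
    exact (hN i).conj_mem _ (hx i) _
  refine ⟨M, hMn, ?_, ?_⟩
  · let F : M →* ∀ i, N i := MonoidHom.pi fun i =>
      ((g i).rangeRestrict.comp M.subtype).codRestrict (N i) fun x => (hmem _).1 x.2 i
    refine Subgroup.isNilpotent_of_ker_le_center F ?_
    have hF : F.ker = ⊥ := by
      rw [Subgroup.eq_bot_iff_forall]
      intro x hx
      apply Subtype.ext
      refine hinj _ fun i => ?_
      exact congrArg (fun t : N i => ((t : (g i).range) : A i)) (congrFun hx i)
    rw [hF]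
    exact bot_le
  · let F : H ⧸ M →* ∀ i, (g i).range ⧸ N i := QuotientGroup.lift M
      (MonoidHom.pi fun i => (QuotientGroup.mk' (N i)).comp (g i).rangeRestrict) (by
        intro x hx
        funext i
        exact (QuotientGroup.eq_one_iff _).2 ((hmem x).1 hx i))
    refine Subgroup.isNilpotent_of_ker_le_center F ?_
    have hF : F.ker = ⊥ := by
      rw [Subgroup.eq_bot_iff_forall]
      intro x hx
      obtain ⟨x, rfl⟩ := QuotientGroup.mk_surjective x
      refine (QuotientGroup.eq_one_iff x).2 ((hmem x).2 fun i => ?_)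
      exact (QuotientGroup.eq_one_iff _).1 (congrFun hx i)
    rw [hF]
    exact bot_le

theorem closure_map {A : Type u} {B : Type v} [Group A] [Group B] (f : A →* B) (x y : A) :
    (Subgroup.closure {x, y}).map f = Subgroup.closure {f x, f y} := by
  rw [MonoidHom.map_closure, Set.image_pair]

/-- metanilpotent two-generator subgroups: direct products -/
theorem MN_prod (G : ℕ → Type u) [∀ i, Group (G i)]
    (h : ∀ i, ∀ x y : G i, MN (Subgroup.closure {x, y})) (x y : ∀ i, G i)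
    (hf : Finite (Subgroup.closure {x, y})) : MN (Subgroup.closure {x, y}) := by
  classical
  have hex : ∀ z : {z : Subgroup.closure {x, y} // z ≠ 1}, ∃ i, (z.1 : ∀ i, G i) i ≠ 1 := by
    rintro ⟨z, hz⟩
    by_contra hcon
    push Not at hcon
    exact hz (Subtype.ext (funext hcon))
  choose c hc using hex
  refine MN_pi (fun z => G (c z))
    (fun z => (Pi.evalMonoidHom G (c z)).comp (Subgroup.closure {x, y}).subtype) ?_ ?_
  · intro z hz
    by_contra hne
    exact hc ⟨z, hne⟩ (hz ⟨z, hne⟩)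
  · intro z
    have e : ((Pi.evalMonoidHom G (c z)).comp (Subgroup.closure {x, y}).subtype).range =
        Subgroup.closure {x (c z), y (c z)} := by
      rw [MonoidHom.range_comp, Subgroup.range_subtype]
      exact closure_map (Pi.evalMonoidHom G (c z)) x y
    rw [e]
    exact h _ _ _

/-- metanilpotent two-generator subgroups: quotients -/
theorem MN_quot (G : Type u) [Group G] (N : Subgroup G) [N.Normal]
    (h : ∀ x y : G, MN (Subgroup.closure {x, y})) (x y : G ⧸ N) :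
    MN (Subgroup.closure {x, y}) := by
  obtain ⟨x, rfl⟩ := QuotientGroup.mk_surjective x
  obtain ⟨y, rfl⟩ := QuotientGroup.mk_surjective y
  have e : (Subgroup.closure {x, y}).map (QuotientGroup.mk' N) =
      Subgroup.closure {(x : G ⧸ N), (y : G ⧸ N)} := closure_map (QuotientGroup.mk' N) x y
  rw [← e]
  exact MN_of_surjective _ ((QuotientGroup.mk' N).subgroupMap_surjective _) (h x y)

/-- groups with metanilpotent two-generator subgroups of order at most `c` -/
theorem bounded_MN {n : ℕ} (hn : 1 ≤ n) (c : ℕ) :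
    ∃ l : ℕ, ∀ (G : Type u) [Group G], (∀ x : G, x ^ n = 1) →
      (∀ x y : G, Finite (Subgroup.closure {x, y}) ∧ Nat.card (Subgroup.closure {x, y}) ≤ c ∧
        MN (Subgroup.closure {x, y})) → (RS n G l).1 = ⊤ := by
  obtain ⟨K, hK1, hK2, -, hK4⟩ := exists_K.{u} c False
  obtain ⟨l, hl⟩ := bounded.{u} (by omega)
    (fun G _ => VK n K G ∧ ∀ x y : G, MN (Subgroup.closure {x, y})) (fun G _ h => h.1.1)
    (fun G _ h => ⟨VK.prod G fun i => (h i).1, fun x y =>
      MN_prod G (fun i => (h i).2) x y ((VK.prod G fun i => (h i).1).fin x y)⟩)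
    (fun G _ N hN h => ⟨VK.quot G N h.1, MN_quot G N h.2⟩)
    (fun G _ h hR g => trivial_of_rad_u hn G h.1.1 (fun x y => ⟨h.1.fin x y, h.2 x y⟩) hR g)
  refine ⟨l, fun G _ hG h2 => hl G ⟨⟨hG, fun a => ?_⟩, fun x y => (h2 x y).2.2⟩⟩
  have e : a = ![a 0, a 1] := by
    funext k
    fin_cases k <;> rfl
  rw [e]
  exact hK4 G _ _ (h2 _ _).1 (h2 _ _).2.1 fun h => h.elim

/-- two-generator subgroups of type `(2, q, 2)`: direct products -/
theorem QLv_prod {q n : ℕ} (G : ℕ → Type u) [∀ i, Group (G i)]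
    (h : ∀ i, ∀ x y : G i, QLv q n (Subgroup.closure {x, y})) (x y : ∀ i, G i) :
    QLv q n (Subgroup.closure {x, y}) := by
  intro a ha b hb w hw ha1 hb1 hw1
  funext i
  have e : (Subgroup.closure {x, y}).map (Pi.evalMonoidHom G i) =
        Subgroup.closure {x i, y i} := closure_map (Pi.evalMonoidHom G i) x y
  have hm : ∀ z ∈ Subgroup.closure {x, y}, z i ∈ Subgroup.closure {x i, y i} := by
    intro z hz
    rw [← e]
    exact ⟨z, hz, rfl⟩
  exact h i (x i) (y i) (a i) (hm a ha) (b i) (hm b hb) (w i) (hm w hw) (congrFun ha1 i)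
    (congrFun hb1 i) (congrFun hw1 i)

/-- lifting elements of prime power order -/
theorem lift_pow {q n : ℕ} (hq : q.Prime) (hn : n ≠ 0) {G : Type u} [Group G]
    (hG : ∀ x : G, x ^ n = 1) (N : Subgroup G) [N.Normal] (H : Subgroup G) {x : G} (hx : x ∈ H)
    (h : (x : G ⧸ N) ^ qp q n = 1) :
    ∃ z ∈ H, (z : G ⧸ N) = x ∧ z ^ qp q n = 1 := by
  obtain ⟨M, hcop, hM⟩ : ∃ M, Nat.Coprime (qp q n) M ∧ qp q n * M = n :=
    ⟨n / q ^ n.factorization q, Nat.Coprime.pow_left _ (Nat.coprime_ordCompl hq hn),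
      Nat.ordProj_mul_ordCompl_eq_self n q⟩
  obtain ⟨b, ⟨c, hc⟩, hb⟩ := crt'.{u} hcop
  refine ⟨x ^ b, pow_mem hx b, ?_, ?_⟩
  · rw [QuotientGroup.mk_pow]
    exact hb _ h
  · rw [← pow_mul, hc]
    have e : M * c * qp q n = n * c := by
      calc M * c * qp q n = qp q n * M * c := by ring
        _ = n * c := by rw [hM]
    rw [e, pow_mul, hG, one_pow]

/-- two-generator subgroups of type `(2, q, 2)`: quotients -/
theorem QLv_quot {q n : ℕ} (hq : q.Prime) (hn : n ≠ 0) (G : Type u) [Group G]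
    (hG : ∀ x : G, x ^ n = 1) (N : Subgroup G) [N.Normal]
    (h : ∀ x y : G, QLv q n (Subgroup.closure {x, y})) (x y : G ⧸ N) :
    QLv q n (Subgroup.closure {x, y}) := by
  obtain ⟨x, rfl⟩ := QuotientGroup.mk_surjective x
  obtain ⟨y, rfl⟩ := QuotientGroup.mk_surjective y
  have e : (Subgroup.closure {x, y}).map (QuotientGroup.mk' N) =
      Subgroup.closure {(x : G ⧸ N), (y : G ⧸ N)} := closure_map (QuotientGroup.mk' N) x y
  rw [← e]
  rintro _ ⟨a, ha, rfl⟩ _ ⟨b, hb, rfl⟩ _ ⟨w, hw, rfl⟩ ha1 hb1 hw1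
  obtain ⟨a', ha', ha2, ha3⟩ := lift_pow hq hn hG N _ ha ha1
  obtain ⟨b', hb', hb2, hb3⟩ := lift_pow hq hn hG N _ hb hb1
  obtain ⟨w', hw', hw2, hw3⟩ := lift_pow Nat.prime_two hn hG N _ hw hw1
  have h3 := h x y a' ha' b' hb' w' hw' ha3 hb3 hw3
  change (((a : G ⧸ N) * b) ^ qp q n * w) ^ qp 2 n = 1
  rw [← ha2, ← hb2, ← hw2, ← QuotientGroup.mk_mul, ← QuotientGroup.mk_pow,
    ← QuotientGroup.mk_mul, ← QuotientGroup.mk_pow, h3]
  rfl

/-- groups with two-generator subgroups of type `(2, q, 2)` and order at most `c` -/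
theorem bounded_QLv {q n : ℕ} (E : Ex2 q n) (hn : n ≠ 0) (c : ℕ) :
    ∃ l : ℕ, ∀ (G : Type u) [Group G], (∀ x : G, x ^ n = 1) →
      (∀ x y : G, Finite (Subgroup.closure {x, y}) ∧ Nat.card (Subgroup.closure {x, y}) ≤ c ∧
        QLv q n (Subgroup.closure {x, y})) → (RS n G l).1 = ⊤ := by
  obtain ⟨K, hK1, hK2, -, hK4⟩ := exists_K.{u} c False
  obtain ⟨l, hl⟩ := bounded.{u} hn
    (fun G _ => VK n K G ∧ ∀ x y : G, QLv q n (Subgroup.closure {x, y})) (fun G _ h => h.1.1)
    (fun G _ h => ⟨VK.prod G fun i => (h i).1, QLv_prod G fun i => (h i).2⟩)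
    (fun G _ N hN h => ⟨VK.quot G N h.1, QLv_quot E.hq hn G h.1.1 N h.2⟩)
    (fun G _ h hR g => trivial_ev_u E G h.1.1 (fun x y => ⟨h.1.fin x y, h.2 x y⟩) hR g)
  refine ⟨l, fun G _ hG h2 => hl G ⟨⟨hG, fun a => ?_⟩, fun x y => (h2 x y).2.2⟩⟩
  have e : a = ![a 0, a 1] := by
    funext k
    fin_cases k <;> rfl
  rw [e]
  exact hK4 G _ _ (h2 _ _).1 (h2 _ _).2.1 fun h => h.elim

theorem locfin_pow {q : ℕ} (hq : q.Prime) (hq2 : q ≠ 2) (a b : ℕ)
    (h1 : LocFin (2 ^ a)) (h2 : LocFin (q ^ b)) (s : ℕ) :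
    LocFin (qp s (2 ^ a * q ^ b)) := by
  obtain ⟨e1, e2⟩ := fact_pq Nat.prime_two hq hq2.symm a b
  by_cases hsp : s = 2
  · subst hsp
    rwa [e1]
  · by_cases hsq : s = q
    · subst hsq
      rwa [e2]
    · have h3 : qp s (2 ^ a * q ^ b) = 1 := by
        unfold qp
        have h4 : (2 ^ a * q ^ b).factorization s = 0 := by
          rw [Nat.factorization_mul (pow_ne_zero _ two_ne_zero) (pow_ne_zero _ hq.ne_zero),
            Finsupp.add_apply, Nat.prime_two.factorization_pow, hq.factorization_pow,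
            Finsupp.single_eq_of_ne hsp, Finsupp.single_eq_of_ne hsq, add_zero]
        rw [h4, pow_zero]
      rw [h3]
      exact x_LFD.2.2.1

theorem ex2 {q : ℕ} (hq : q.Prime) (hq2 : q ≠ 2) (a b : ℕ) : Ex2 q (2 ^ a * q ^ b) := by
  obtain ⟨e1, e2⟩ := fact_pq Nat.prime_two hq hq2.symm a b
  exact ⟨hq, hq2, by rw [e1, e2]⟩

end Pool.Agent.TH69.Om
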