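import Mathlib
import Pool.Agent.TH69.EvK
import Pool.Agent.TH69.PqE

set_option autoImplicit false

/-!
# Groups of exponent `2 ^ a * q`, part L: the theorem of Hall and Higman

The variant of part E of the groups of Fitting height three, for primes `p` which are not of the
form `2 ^ m + 1`.
-/

namespace Pool.Agent.TH69.Pq

open Pool.Agent.H32BU Pool.Agent.W629 Pool.Agent.TH69.Mtn Pool.Agent.TH69.HH

/-- the configuration of the theorem does not occur -/
theorem no_config' {F : Type} [Group F] [Finite F] {p q n : ℕ} (hp : p.Prime) (hq : q.Prime)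
    (hpq : p ≠ q) (hn : p * qp q n = n) (hF : ∀ x : F, x ^ n = 1) (V : Subgroup F) (hV : V.Normal)
    (hab : ∀ v ∈ V, ∀ w ∈ V, v * w = w * v) (hpow : ∀ v ∈ V, v ^ p = 1) {g : F} (hg : g ^ p = 1)
    {U : Subgroup F} (A : Arr n q g U) (hfaith : ∀ u ∈ U, (∀ v ∈ V, u * v = v * u) → u = 1)
    (hqm : q = 2 → ∀ m : ℕ, p ≠ 2 ^ m + 1) : False := by
  classical
  have : Fact p.Prime := ⟨hp⟩
  have : Fact q.Prime := ⟨hq⟩
  have hUf := A.fin
  have := Fintype.ofFinite U
  let k := AlgebraicClosure (ZMod p)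
  have hcop : Nat.Coprime p (qp q n) :=
    Nat.Coprime.pow_right _ ((Nat.coprime_primes hp hq).2 hpq)
  have hU' : ∀ x ∈ U, g⁻¹ * x * g ∈ U := inv_conj hp.pos hg A.inv
  -- the automorphism
  let σ : MulAut U :=
    { toFun := fun u => ⟨g * u * g⁻¹, A.inv u u.2⟩
      invFun := fun u => ⟨g⁻¹ * u * g, hU' u u.2⟩
      left_inv := by
        intro u
        apply Subtype.ext
        change g⁻¹ * (g * u * g⁻¹) * g = u
        group
      right_inv := by
        intro u
        apply Subtype.ext
        change g * (g⁻¹ * u * g) * g⁻¹ = u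
        group
      map_mul' := by
        intro a b
        apply Subtype.ext
        change g * (a * b) * g⁻¹ = g * a * g⁻¹ * (g * b * g⁻¹)
        group }
  have hσ : ∀ u : U, ((σ u : U) : F) = g * u * g⁻¹ := fun u => rfl
  have hσk : ∀ (i : ℕ) (u : U), (((σ ^ i) u : U) : F) = g ^ i * u * (g ^ i)⁻¹ := by
    intro i
    induction i with
    | zero => intro u; simp
    | succ i ih =>
      intro u
      rw [pow_succ', MulAut.mul_apply, hσ, ih, pow_succ']
      group
  have ord : σ ^ p = 1 := by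
    ext u
    rw [hσk, hg]
    simp
  obtain ⟨j, hj⟩ : ∃ j, Fintype.card U = q ^ j := by
    have hpg : IsPGroup q U := fun x => ⟨n.factorization q, Subtype.ext (by
      rw [Subgroup.coe_pow]
      exact A.pow x x.2)⟩
    obtain ⟨j, hj⟩ := (IsPGroup.iff_card).1 hpg
    exact ⟨j, by rw [← Nat.card_eq_fintype_card]; exact hj⟩
  let M := Additive V →+ k
  have hfd : FiniteDimensional k M := by
    let f : M →ₗ[k] (Additive V → k) :=
      { toFun := fun φ => φ
        map_add' := fun _ _ => rfl
        map_smul' := fun _ _ => rfl }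
    have : Finite (Additive V) := (inferInstance : Finite V)
    exact Module.Finite.of_injective f DFunLike.coe_injective
  let ρ0 : F →* Module.End k M := dact V k
  let ρ : U →* Module.End k M := ρ0.comp U.subtype
  -- the norm
  have nrm : ∑ i ∈ Finset.range p, (ρ0 g) ^ i = 0 := by
    refine LinearMap.ext fun φ => AddMonoidHom.ext fun v => ?_
    obtain ⟨v, rfl⟩ := Additive.ofMul.surjective v
    rw [LinearMap.sum_apply, AddMonoidHom.finsetSum_apply]
    simp only [← map_pow]
    -- partial sums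
    have key : ∀ i : ℕ, ∃ w : V, (w : F) = ((v : F) * g⁻¹) ^ i * g ^ i ∧
        ∑ j ∈ Finset.range i, (ρ0 (g ^ j) φ) (Additive.ofMul v) = φ (Additive.ofMul w) := by
      intro i
      induction i with
      | zero =>
        refine ⟨1, by simp, ?_⟩
        rw [Finset.sum_range_zero, ofMul_one, map_zero]
      | succ i ih =>
        obtain ⟨w, hw, hs⟩ := ih
        refine ⟨w * MulAut.conjNormal (g ^ i)⁻¹ v, ?_, ?_⟩
        · rw [Subgroup.coe_mul, hw, MulAut.conjNormal_apply, pow_succ, pow_succ' g i]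
          group
        · rw [Finset.sum_range_succ, hs, ofMul_mul, map_add]
          rfl
    obtain ⟨w, hw, hs⟩ := key p
    rw [hs]
    have h1 : ((v : F) * g⁻¹) ^ p = 1 := by
      have h2 : ((v : F) * g⁻¹) ^ p ∈ V := by
        have h3 : ((v : F) * g⁻¹) ^ p * g ^ p ∈ V := by rw [← hw]; exact w.2
        rwa [hg, mul_one] at h3
      have h4 : (((v : F) * g⁻¹) ^ p) ^ p = 1 := hpow _ h2
      have h5 : (((v : F) * g⁻¹) ^ p) ^ qp q n = 1 := by rw [← pow_mul, hn, hF]
      exact HH.eq_one_of_coprime hcop h4 h5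
    rw [h1, hg, mul_one] at hw
    have hw1 : w = 1 := Subtype.ext hw
    rw [hw1, ofMul_one, map_zero]
    rfl
  refine no_action' (k := k) (M := M) (U := U) hp hq hpq hj hqm ρ (ρ0 g) σ ?_ nrm ord ?_ ?_
  · intro u
    change ρ0 g * ρ0 u = ρ0 (σ u : U) * ρ0 g
    rw [← map_mul, ← map_mul, hσ]
    congr 1
    group
  · intro U' hU'1 hne u hu
    by_contra hcon
    apply hne
    have h1 := A.min (U'.map U.subtype) (Subgroup.map_subtype_le _) ?_ ?_
    · rw [eq_top_iff]
      intro x _
      have hx : (x : F) ∈ U'.map U.subtype := by rw [h1]; exact x.2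
      obtain ⟨y, hy, e⟩ := hx
      have : y = x := Subtype.ext e
      rw [← this]
      exact hy
    · rintro _ ⟨y, hy, rfl⟩
      exact ⟨σ y, hU'1 y hy, rfl⟩
    · refine ⟨u, ⟨u, hu, rfl⟩, fun h => hcon ?_⟩
      apply Subtype.ext
      rw [hσ, h]
      group
  · obtain ⟨u, hu, hc⟩ := A.nc
    refine ⟨⟨u, hu⟩, fun h => hc ?_⟩
    change ρ0 g * ρ0 u = ρ0 u * ρ0 g at h
    rw [← map_mul, ← map_mul] at h
    -- the commutator acts trivially
    have h1 : ρ0 ((u * g)⁻¹ * (g * u)) = 1 := by
      rw [map_mul, h, ← map_mul, inv_mul_cancel, map_one]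
    have hcU : (u * g)⁻¹ * (g * u) ∈ U := by
      have e : (u * g)⁻¹ * (g * u) = (g⁻¹ * u⁻¹ * g) * u := by group
      rw [e]
      exact mul_mem (hU' _ (inv_mem hu)) hu
    have h2 : (u * g)⁻¹ * (g * u) = 1 := by
      refine hfaith _ hcU fun v hv => ?_
      generalize (u * g)⁻¹ * (g * u) = c at h1 hcU
      have h3 : ∀ φ : Additive V →+ k, φ (Additive.ofMul
          ((MulAut.conjNormal c⁻¹ (⟨v, hv⟩ : V)) * (⟨v, hv⟩ : V)⁻¹)) = 0 := by
        intro φ
        have h4 := congrArg (fun Z : Module.End k M => (Z φ) (Additive.ofMul (⟨v, hv⟩ : V))) h1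
        change φ (Additive.ofMul (MulAut.conjNormal c⁻¹ (⟨v, hv⟩ : V))) =
          φ (Additive.ofMul (⟨v, hv⟩ : V)) at h4
        rw [ofMul_mul, map_add, h4, ofMul_inv, map_neg, add_neg_cancel]
      have h5 := separate V k hp hab hpow _ h3
      rw [mul_inv_eq_one] at h5
      have h6 := congrArg Subtype.val h5
      rw [MulAut.conjNormal_apply] at h6
      change c⁻¹ * v * (c⁻¹)⁻¹ = v at h6
      rw [inv_inv] at h6
      rw [mul_assoc, inv_mul_eq_iff_eq_mul] at h6
      exact h6.symm
    rw [inv_mul_eq_one] at h2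
    exact h2.symm

section

variable {n p q : ℕ} (hp : p.Prime) (hq : q.Prime) (hpq : p ≠ q) (hp1 : qp p n = p)
  (hn : qp p n * qp q n = n) (hq2 : q = 2 → ∀ m : ℕ, p ≠ 2 ^ m + 1)

include hp hq hpq hp1 hn hq2

theorem ex_aux' : ∀ k : ℕ, ∀ (F : Type) [Group F] [Finite F], Nat.card F ≤ k →
    (∀ x : F, x ^ n = 1) → (∀ e ∈ DD (⊤ : Subgroup F) 2, e ^ p = 1) →
    DD (⊤ : Subgroup F) 2 = ⊥ := by
  have hnp : p * qp q n = n := (congrArg (· * qp q n) hp1).symm.trans hn
  intro k
  induction k with
  | zero =>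
    intro F _ _ hk
    have : 0 < Nat.card F := Nat.card_pos
    omega
  | succ k ih =>
    intro F _ _ hk hF he
    by_contra hne
    have hs : Group.IsSolvable F := by
      refine solv_of_exp p q (n.factorization p) (n.factorization q) hp hq fun x => ?_
      have : p ^ n.factorization p * q ^ n.factorization q = n := hn
      rw [this]
      exact hF x
    have htor : ∀ x : F, IsOfFinOrder x := fun x => isOfFinOrder_of_finite x
    have hmin : ∀ K : Subgroup F, K.Normal → K ≠ ⊥ → DD (⊤ : Subgroup F) 2 ≤ K := by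
      intro K hK hKne
      have hcard : Nat.card (F ⧸ K) < Nat.card F := by
        have h1 := Subgroup.card_eq_card_quotient_mul_card_subgroup K
        have h2 : 1 < Nat.card K := by
          rw [Subgroup.one_lt_card_iff_ne_bot]
          exact hKne
        have h3 : 0 < Nat.card (F ⧸ K) := Nat.card_pos
        rw [h1]
        nlinarith
      have h2 := x_MAPS F (F ⧸ K) (QuotientGroup.mk' K) htor ⊤ 2
      rw [← MonoidHom.range_eq_map, MonoidHom.range_eq_top.2 (QuotientGroup.mk'_surjective K)] at h2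
      have h1 := ih (F ⧸ K) (by omega) (exp_quot hF K) (by
        intro e hee
        rw [← h2] at hee
        obtain ⟨d, hd, rfl⟩ := hee
        rw [← map_pow, he d hd, map_one])
      rw [h1, Subgroup.map_eq_bot_iff, QuotientGroup.ker_mk'] at h2
      exact h2
    obtain ⟨r, S, hr, hab, hpow, hS, hsup, hC⟩ := x_TWOA F inferInstance hs 1 hne hmin
    obtain ⟨h1, h2⟩ := x_TWOB F 1 r S inferInstance hr hne hmin hab hpow hsup hC (dd_compl hab hC)
    have hV : (DD (⊤ : Subgroup F) 2).Normal := (x_MON F).2.2.2.1 ⊤ inferInstance 2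
    obtain ⟨v, hv, hv1⟩ : ∃ v ∈ DD (⊤ : Subgroup F) 2, v ≠ 1 := by
      by_contra h
      push Not at h
      exact hne ((Subgroup.eq_bot_iff_forall _).2 h)
    have hrp : r = p := by
      by_contra hrp
      exact hv1 (W629.eq_one_of_coprime ((Nat.coprime_primes hr hp).2 hrp) (hpow v hv) (he v hv))
    subst hrp
    obtain ⟨g, hgS, hg, T, hT, A⟩ := exists_arr hp hq hpq hn hF S h1 h2
    rw [hp1] at hg
    have hTS : T ≤ S := le_trans hT ((x_MON F).2.1 S 0)
    exact no_config' hp hq hpq hnp hF _ hV hab hpow hg A (fun t ht h => hC t (hTS ht) h) hq2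

theorem ex' : Ex p n := fun F _ _ hF he => ex_aux' hp hq hpq hp1 hn hq2 _ F le_rfl hF he

theorem dd3' : ∀ k : ℕ, ∀ (F : Type) [Group F] [Finite F], Nat.card F ≤ k →
    (∀ x : F, x ^ n = 1) → DD (⊤ : Subgroup F) 3 = ⊥ := by
  have hnp : p * qp q n = n := (congrArg (· * qp q n) hp1).symm.trans hn
  intro k
  induction k with
  | zero =>
    intro F _ _ hk
    have : 0 < Nat.card F := Nat.card_pos
    omega
  | succ k ih =>
    intro F _ _ hk hF
    by_contra hne
    have hs : Group.IsSolvable F := by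
      refine solv_of_exp p q (n.factorization p) (n.factorization q) hp hq fun x => ?_
      have : p ^ n.factorization p * q ^ n.factorization q = n := hn
      rw [this]
      exact hF x
    have htor : ∀ x : F, IsOfFinOrder x := fun x => isOfFinOrder_of_finite x
    have hmin : ∀ K : Subgroup F, K.Normal → K ≠ ⊥ → DD (⊤ : Subgroup F) 3 ≤ K := by
      intro K hK hKne
      have hcard : Nat.card (F ⧸ K) < Nat.card F := by
        have h1 := Subgroup.card_eq_card_quotient_mul_card_subgroup K
        have h2 : 1 < Nat.card K := by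
          rw [Subgroup.one_lt_card_iff_ne_bot]
          exact hKne
        have h3 : 0 < Nat.card (F ⧸ K) := Nat.card_pos
        rw [h1]
        nlinarith
      have h2 := x_MAPS F (F ⧸ K) (QuotientGroup.mk' K) htor ⊤ 3
      rw [← MonoidHom.range_eq_map, MonoidHom.range_eq_top.2 (QuotientGroup.mk'_surjective K),
        ih (F ⧸ K) (by omega) (exp_quot hF K), Subgroup.map_eq_bot_iff,
        QuotientGroup.ker_mk'] at h2
      exact h2
    obtain ⟨r, S, hr, hab, hpow, hS, hsup, hC⟩ := x_TWOA F inferInstance hs 2 hne hmin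
    obtain ⟨h1, h2⟩ := x_TWOB F 2 r S inferInstance hr hne hmin hab hpow hsup hC (dd_compl hab hC)
    have hV : (DD (⊤ : Subgroup F) 3).Normal := (x_MON F).2.2.2.1 ⊤ inferInstance 3
    obtain ⟨v, hv, hv1⟩ : ∃ v ∈ DD (⊤ : Subgroup F) 3, v ≠ 1 := by
      by_contra h
      push Not at h
      exact hne ((Subgroup.eq_bot_iff_forall _).2 h)
    have hrd : r ∣ n := by
      have h3 : orderOf v = r := by
        have := Fact.mk hr
        exact orderOf_eq_prime (hpow v hv) hv1
      rw [← h3]
      exact orderOf_dvd_of_pow_eq_one (hF v)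
    rw [← hn] at hrd
    rcases (Nat.Prime.dvd_mul hr).1 hrd with h | h
    · have hrp := (Nat.prime_dvd_prime_iff_eq hr hp).1 (hr.dvd_of_dvd_pow h)
      subst hrp
      obtain ⟨g, hgS, hg, T, hT, A⟩ := exists_arr hp hq hpq hn hF (DD S 1) h1 h2
      rw [hp1] at hg
      have hTS : T ≤ S := le_trans hT (TPAIR.le_top_DD x_MON S 2)
      exact no_config' hp hq hpq hnp hF _ hV hab hpow hg A (fun t ht h => hC t (hTS ht) h) hq2
    · have hrq := (Nat.prime_dvd_prime_iff_eq hr hq).1 (hr.dvd_of_dvd_pow h)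
      subst hrq
      have h3 : ∀ b ∈ DD S 2, b ^ p = 1 := by
        intro b hb
        obtain ⟨j, hj, hbj⟩ := h2 b hb
        have h4 : (b ^ p) ^ qp r n = 1 := by rw [← pow_mul, hnp, hF]
        have h5 : (b ^ p) ^ j = 1 := by rw [← pow_mul, mul_comm, pow_mul, hbj, one_pow]
        exact W629.eq_one_of_coprime (Nat.Coprime.pow_left _ hj.symm) h4 h5
      have h4 := x_MAPI S F S.subtype S.subtype_injective ⊤ 2
      rw [← MonoidHom.range_eq_map, Subgroup.range_subtype] at h4
      have h5 := ex' hp hq hpq hp1 hn hq2 S (exp_sub hF S) (by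
        intro e he
        have h6 : (e : F) ∈ DD S 2 := by
          rw [← h4]
          exact ⟨e, he, rfl⟩
        exact Subtype.ext (h3 _ h6))
      rw [h5, Subgroup.map_bot] at h4
      exact h1 h4.symm

end

end Pool.Agent.TH69.Pq
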