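import Mathlib
import Pool.Agent.TH69.EvJ
import Pool.Agent.TH69.EvL

set_option autoImplicit false

/-!
# Groups of exponent `2 ^ a * q`, part M: finite groups have type `(2, q, 2)`
-/

namespace Pool.Agent.TH69.Ev

open Pool.Agent.H32BU Pool.Agent.W629 Pool.Agent.TH69.Mtn Pool.Agent.TH69.Pq

variable {q n : ℕ}

theorem q_of (E : Ex2 q n) {X : Type} [Group X] [Finite X] (hX : ∀ x : X, x ^ n = 1)
    (hR : Rad (qp 2 n) X = ⊥) (A : Subgroup X) (hA : A.Normal) (hN : NR A = ⊥) :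
    ∀ x ∈ A, x ^ qp q n = 1 := by
  obtain ⟨⟨P, hP⟩, -⟩ := x_SYL X A inferInstance hN 2 Nat.prime_two
  have hPn : P.Normal := by
    refine ⟨fun x hx g => ?_⟩
    rw [hP] at hx ⊢
    obtain ⟨hx1, k, hk⟩ := hx
    exact ⟨hA.conj_mem x hx1 g, k, conj_pow_one hk⟩
  have hPR : ∀ x ∈ P, x = 1 := by
    intro x hx
    have h1 : x ∈ Rad (qp 2 n) X := by
      refine ⟨pow_qp E.pos.ne' (hX x) Nat.prime_two ((hP x).1 hx).2, fun z hz => ?_⟩
      have h2 : (x * z) ^ qp 2 n ∈ P := by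
        rw [← QuotientGroup.eq_one_iff, QuotientGroup.mk_pow, QuotientGroup.mk_mul,
          (QuotientGroup.eq_one_iff x).2 hx, one_mul, ← QuotientGroup.mk_pow, hz]
        rfl
      obtain ⟨-, k, hk⟩ := (hP _).1 h2
      refine pow_qp E.pos.ne' (hX _) Nat.prime_two ⟨n.factorization 2 + k, ?_⟩
      rw [pow_add, pow_mul]
      exact hk
    rwa [hR, Subgroup.mem_bot] at h1
  intro x hx
  apply hPR
  rw [hP]
  refine ⟨pow_mem hx _, n.factorization 2, ?_⟩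
  have h1 : (x ^ qp q n) ^ qp 2 n = 1 := by rw [← pow_mul, mul_comm, E.hn, hX]
  exact h1

theorem ql_of (E : Ex2 q n) (hqp : qp q n = q) (hex : Ex q n)
    (hdd : ∀ (F : Type) [Group F] [Finite F], (∀ x : F, x ^ n = 1) → DD (⊤ : Subgroup F) 3 = ⊥)
    (F : Type) [Group F] [Finite F] (hF : ∀ x : F, x ^ n = 1) : QL q n F := by
  have hX := exp_quot hF (Rad (qp 2 n) F)
  have hR : Rad (qp 2 n) (F ⧸ Rad (qp 2 n) F) = ⊥ := rad_quot E.cop (E.exp hF)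
  have hn2 := fun m => (x_MON (F ⧸ Rad (qp 2 n) F)).2.2.2.1 ⊤ inferInstance m
  have h3 := hdd (F ⧸ Rad (qp 2 n) F) hX
  have h2 : DD (⊤ : Subgroup (F ⧸ Rad (qp 2 n) F)) 2 = ⊥ := by
    refine hex _ hX ?_
    have := q_of E hX hR (DD (⊤ : Subgroup (F ⧸ Rad (qp 2 n) F)) 2) (hn2 2) h3
    rwa [hqp] at this
  have h1 := q_of E hX hR (DD (⊤ : Subgroup (F ⧸ Rad (qp 2 n) F)) 1) (hn2 1) h2
  have hD1 := hn2 1
  have htor : ∀ x : F ⧸ Rad (qp 2 n) F, IsOfFinOrder x := fun x => isOfFinOrder_of_finite x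
  obtain ⟨D, hD⟩ : ∃ D, D = DD (⊤ : Subgroup (F ⧸ Rad (qp 2 n) F)) 1 := ⟨_, rfl⟩
  rw [← hD] at h1 hD1
  have h4 : NR (⊤ : Subgroup ((F ⧸ Rad (qp 2 n) F) ⧸ D)) = ⊥ := by
    have h5 := x_MAPS (F ⧸ Rad (qp 2 n) F) _ (QuotientGroup.mk' D) htor ⊤ 1
    rw [Subgroup.map_top_of_surjective _ (QuotientGroup.mk'_surjective D), ← hD] at h5
    have h6 : D.map (QuotientGroup.mk' D) = ⊥ := by
      rw [Subgroup.map_eq_bot_iff, QuotientGroup.ker_mk']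
    rw [h6] at h5
    exact h5.symm
  obtain ⟨⟨P, hP⟩, -⟩ := x_SYL _ (⊤ : Subgroup ((F ⧸ Rad (qp 2 n) F) ⧸ D)) inferInstance h4 q E.hq
  intro x y hx hy
  have m1 : (((x : F ⧸ Rad (qp 2 n) F) : (F ⧸ Rad (qp 2 n) F) ⧸ D)) ∈ P := by
    rw [hP]
    refine ⟨Subgroup.mem_top _, n.factorization q, ?_⟩
    rw [← QuotientGroup.mk_pow, ← QuotientGroup.mk_pow]
    have : x ^ q ^ n.factorization q = 1 := hx
    rw [this]
    rfl
  have m2 : (((y : F ⧸ Rad (qp 2 n) F) : (F ⧸ Rad (qp 2 n) F) ⧸ D)) ∈ P := by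
    rw [hP]
    refine ⟨Subgroup.mem_top _, n.factorization q, ?_⟩
    rw [← QuotientGroup.mk_pow, ← QuotientGroup.mk_pow]
    have : y ^ q ^ n.factorization q = 1 := hy
    rw [this]
    rfl
  obtain ⟨-, k, hk⟩ := (hP _).1 (mul_mem m1 m2)
  rw [← QuotientGroup.mk_mul, ← QuotientGroup.mk_mul, ← QuotientGroup.mk_pow,
    QuotientGroup.eq_one_iff] at hk
  have h5 := h1 _ hk
  rw [← QuotientGroup.eq_one_iff, QuotientGroup.mk_pow]
  refine pow_qp E.pos.ne' (hX _) E.hq ⟨k + n.factorization q, ?_⟩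
  rw [pow_add, pow_mul]
  exact h5

/-- products of `q`-elements of finite groups of exponent `2 ^ a * q` -/
theorem ql_all {q a : ℕ} (hq : q.Prime) (hq2 : q ≠ 2) (hm : ∀ m : ℕ, q ≠ 2 ^ m + 1)
    (F : Type) [Group F] [Finite F] (hF : ∀ x : F, x ^ (2 ^ a * q) = 1) : QL q (2 ^ a * q) F := by
  obtain ⟨h1, h2⟩ := fact_pq Nat.prime_two hq hq2.symm a 1
  rw [pow_one] at h1 h2
  have hn : qp q (2 ^ a * q) * qp 2 (2 ^ a * q) = 2 ^ a * q := by rw [h1, h2, mul_comm]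
  have E : Ex2 q (2 ^ a * q) := ⟨hq, hq2, by rw [h1, h2]⟩
  exact ql_of E h2 (ex' hq Nat.prime_two hq2 h2 hn fun _ => hm)
    (fun F _ _ hF => dd3' hq Nat.prime_two hq2 h2 hn (fun _ => hm) _ F le_rfl hF) F hF

theorem QLv.of_ql {G : Type} [Group G] {K : Subgroup G} (h : QL q n K) : QLs q n K := by
  intro x hx y hy w hw h1 h2 h3
  have h4 := h (⟨x, hx⟩ : K) ⟨y, hy⟩ (Subtype.ext h1) (Subtype.ext h2)
  exact congrArg Subtype.val (h4.2 ⟨w, hw⟩ (Subtype.ext h3))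

end Pool.Agent.TH69.Ev
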