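import Mathlib
import Pool.Agent.TH69.EvM

/-!
# Groups of exponent `2 ^ a * q ^ b` whose two-generator subgroups are finite

Outline.  Let `q` be an odd prime, let `G` have exponent `n = 2 ^ a * q ^ b`, let its two-generator
subgroups be finite of type `(2, q, 2)`, and let `G` have no nontrivial normal `2`-subgroup.

The centraliser lemma: if `s` is a `q`-element, `y` any element and `τ` a `2`-element which commutes
with `s` and lies in the subgroup generated by the `q`-elements of `⟨s, y⟩`, then `τ = 1`.  For if
`z` is a `2`-element which commutes with `s`, then `τ` lies in `O_2` of `⟨s z, y⟩`, so `τ z` is a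
`2`-element, and this puts `τ` into a normal `2`-subgroup of `G`.

The step: let `a`, `b` be involutions with `(a b) ^ (2 ^ (m + 2)) = 1` and
`z = (a b) ^ (2 ^ (m + 1)) ≠ 1`, such that no `q`-element `s ≠ 1` is inverted by `z` and
centralised by `b`.  Since `z` is not in a normal `2`-subgroup, it inverts a `q`-element `u ≠ 1`;
let `F` be a least subgroup of the finite group `⟨a b, b u⟩` which contains `a`, `b` and has `z`
outside `O_2(F)`.  In `F / O_2(F)` there is a `q`-element inverted by `z` and centralised by one of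
the reflections `c = b`, `c = z b`, and it lifts to a `q`-element `s` of order `q` which is inverted
by `z c`; the centraliser lemma shows that `s`, and likewise each `q`-element inverted by a
reflection and not centralised by `z` modulo `O_2(F)`, acts on `O_2(F)` without fixed points.  Let
`M` be the abelianisation of `O_2(F)`.  As the commutator subgroup of the `q`-part of `F / O_2(F)`
is central in it, the conjugates of `s` under `⟨a b⟩` act on `M` by commuting operators, and the
geometric sums of the quotients of two of them vanish.  There is an involution `a_1` which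
commutes with `s` and agrees with `c` modulo `O_2(F)`.  If `(a_1 a ^ y) ^ (2 ^ (m + 2)) = 1` for
all `y` in `O_2(F)`, then the sum of the powers of the operator of `c a` annihilates `1 - c`, and
conjugation with the powers of `s` gives `c = 1` on `M`; this is impossible.  So one gets
involutions `a_1`, `b_1 = a ^ y` with a product of larger order, and the centraliser lemma gives
again the condition on `q`-elements.  As `G` has bounded exponent, the configuration does not occur.

A `q`-element which acts nontrivially on a finite `2`-subgroup would give rise to a configuration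
(of a dihedral group of order eight).  So the `q`-elements centralise the finite `2`-subgroups
which they normalise, products of `q`-elements are `q`-elements, and `G` has a normal `q`-subgroup
with a `2`-group as quotient.

In (2) it has to be shown that finite groups of exponent `2 ^ a * q` have type `(2, q, 2)`, which is
a case of the theorem of Hall and Higman, and is proved here along with the rest.
-/

set_option autoImplicit false

namespace Pool.Agent.TH69.EvenTwoPrimes

open Pool.Agent.H32BU Pool.Agent.W629 Pool.Agent.TH69.Mtn Pool.Agent.TH69.Pq Pool.Agent.TH69.Ev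

universe u

/-- `n ∈ 𝓛`: every group satisfying `x ^ n = 1` is locally finite. -/
def InL (n : ℕ) : Prop := ∀ (G : Type u) [Group G], (∀ x : G, x ^ n = 1) →
  ∀ S : Set G, S.Finite → Finite (Subgroup.closure S)

/-- The free Burnside group `B_{m,n}`: the free group of rank `m` modulo the normal closure of all
`n`-th powers. -/
abbrev B (m n : ℕ) : Type :=
  FreeGroup (Fin m) ⧸ Subgroup.normalClosure (Set.range fun w : FreeGroup (Fin m) => w ^ n)

/-- Groups of type `(2, q, 2)`: there are normal subgroups `P ≤ N` of `K` such that `P` is a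
`2`-group, `N / P` is a `q`-group and `K / N` is a `2`-group (for finite soluble `{2, q}`-groups:
the `q`-length is at most one). -/
def TypeTwoQTwo (q : ℕ) (K : Type u) [Group K] : Prop :=
  ∃ P N : Subgroup K, P.Normal ∧ N.Normal ∧ P ≤ N ∧ (∀ x ∈ P, ∃ k : ℕ, x ^ 2 ^ k = 1) ∧
    (∀ x ∈ N, ∃ k : ℕ, x ^ q ^ k ∈ P) ∧ ∀ x : K, ∃ k : ℕ, x ^ 2 ^ k ∈ N

theorem b_finite_of_inL {n : ℕ} (h : InL.{u} n) (m : ℕ) : Finite (B m n) :=
  x_LFD.2.1 n m ((inL_iff x_LFD n).1 h)

theorem locfin_pow {q : ℕ} (hq : q.Prime) (hq2 : q ≠ 2) (a b : ℕ)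
    (h1 : LocFin (2 ^ a)) (h2 : LocFin (q ^ b)) (s : ℕ) :
    LocFin (qp s (2 ^ a * q ^ b)) := by
  obtain ⟨e1, e2⟩ := fact_pq Nat.prime_two hq hq2.symm a b
  by_cases hsp : s = 2
  · subst hsp
    rwa [e1]
  · by_cases hsq : s = q
    · subst hsq
      rwa [e2]
    · have h3 : qp s (2 ^ a * q ^ b) = 1 := by
        unfold qp
        have h4 : (2 ^ a * q ^ b).factorization s = 0 := by
          rw [Nat.factorization_mul (pow_ne_zero _ two_ne_zero) (pow_ne_zero _ hq.ne_zero),
            Finsupp.add_apply, Nat.prime_two.factorization_pow, hq.factorization_pow,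
            Finsupp.single_eq_of_ne hsp, Finsupp.single_eq_of_ne hsq, add_zero]
        rw [h4, pow_zero]
      rw [h3]
      exact x_LFD.2.2.1

theorem ex2 {q : ℕ} (hq : q.Prime) (hq2 : q ≠ 2) (a b : ℕ) : Ex2 q (2 ^ a * q ^ b) := by
  obtain ⟨e1, e2⟩ := fact_pq Nat.prime_two hq hq2.symm a b
  exact ⟨hq, hq2, by rw [e1, e2]⟩

theorem locfin_one {q : ℕ} (hq : q.Prime) (hm : ∀ m : ℕ, q ≠ 2 ^ m + 1) (a : ℕ)
    (h1 : LocFin (2 ^ a)) (h2 : LocFin q) (hf : Finite (Bu 2 (2 ^ a * q))) :
    LocFin (2 ^ a * q) := by
  have hq2 : q ≠ 2 := hm 0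
  have E := ex2 hq hq2 a 1
  rw [pow_one] at E
  intro G _ hG
  refine lf_ev E ?_ G hG fun x y => ?_
  · intro s _
    have := locfin_pow hq hq2 a 1 h1 (by rwa [pow_one]) s
    rwa [pow_one] at this
  · obtain ⟨f, hfr⟩ := bu2 hG x y
    have hfin : Finite (c2 x y) := by
      unfold c2
      rw [← hfr]
      exact Finite.of_surjective f.rangeRestrict f.rangeRestrict_surjective
    exact ⟨hfin, QLv.of_ql (ql_all hq hq2 hm (c2 x y) (exp_sub hG (c2 x y)))⟩

/-- (1) Let `q` be an odd prime and let `G` be a group of exponent dividing `2 ^ a * q ^ b` all of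
whose two-generator subgroups are finite and of type `(2, q, 2)`. If `G` is nontrivial, then `G` has
a nontrivial normal subgroup of exponent dividing `2 ^ a` or `q ^ b`. If `2 ^ a` and `q ^ b` are in
`𝓛`, then `G` is locally finite. (2) For each prime `q` which is not of the form `2 ^ m + 1` and
all `a`: `2 ^ a * q ∈ 𝓛` if and only if `2 ^ a ∈ 𝓛`, `q ∈ 𝓛` and the two-generator free Burnside
group `B_{2,n}`, `n = 2 ^ a * q`, is finite. -/
theorem result :
    (∀ q a b : ℕ, q.Prime → q ≠ 2 →
      ∀ (G : Type u) [Group G], (∀ x : G, x ^ (2 ^ a * q ^ b) = 1) →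
      (∀ x y : G, Finite (Subgroup.closure {x, y}) ∧ TypeTwoQTwo q (Subgroup.closure {x, y})) →
      (Nontrivial G → ∃ N : Subgroup G, N.Normal ∧ N ≠ ⊥ ∧
        ((∀ x ∈ N, x ^ 2 ^ a = 1) ∨ (∀ x ∈ N, x ^ q ^ b = 1))) ∧
      (InL.{u} (2 ^ a) → InL.{u} (q ^ b) →
        ∀ S : Set G, S.Finite → Finite (Subgroup.closure S))) ∧
    (∀ q a : ℕ, q.Prime → (∀ m : ℕ, q ≠ 2 ^ m + 1) →
      (InL.{u} (2 ^ a * q) ↔ InL.{u} (2 ^ a) ∧ InL.{u} q ∧ Finite (B 2 (2 ^ a * q)))) := by
  refine ⟨?_, fun q a hq hm => ?_⟩
  · intro q a b hq hq2 G _ hG h2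
    have E := ex2 hq hq2 a b
    have h4 : ∀ x y : G, Finite (Subgroup.closure {x, y}) ∧
        QLv q (2 ^ a * q ^ b) (Subgroup.closure {x, y}) := by
      intro x y
      obtain ⟨h5, P, N, hP, -, -, h6, h7, h8⟩ := h2 x y
      exact ⟨h5, qlv_of E hG _ P N hP h6 h7 h8⟩
    refine ⟨fun hnt => ?_, fun hL1 hL2 S hS => ?_⟩
    · by_contra hcon
      push Not at hcon
      obtain ⟨e1, e2⟩ := fact_pq Nat.prime_two hq hq2.symm a b
      obtain ⟨g, hg⟩ := exists_ne (1 : G)
      apply hg
      refine trivial_ev_u E G hG h4 (fun s hs => ?_) g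
      by_contra hne
      obtain ⟨⟨x, hx, hx'⟩, y, hy, hy'⟩ := hcon (Rad (qp s (2 ^ a * q ^ b)) G) inferInstance hne
      by_cases hsp : s = 2
      · subst hsp
        rw [e1] at hx
        exact hx' hx.1
      · by_cases hsq : s = q
        · subst hsq
          rw [e2] at hy
          exact hy' hy.1
        · rw [E.qp_other hs hsp hsq] at hx
          have h7 := hx.1
          rw [pow_one] at h7
          rw [h7, one_pow] at hx'
          exact hx' rfl
    · exact lf_ev_u E (fun s _ => locfin_pow hq hq2 a b ((inL_iff x_LFD _).1 hL1)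
        ((inL_iff x_LFD _).1 hL2) s) G hG h4 S hS
  · constructor
    · intro h
      refine ⟨fun G _ hG => h G fun x => ?_, fun G _ hG => h G fun x => ?_, b_finite_of_inL h 2⟩
      · rw [pow_mul, hG, one_pow]
      · rw [mul_comm, pow_mul, hG, one_pow]
    · rintro ⟨h1, h2, h3⟩
      exact (inL_iff x_LFD _).2
        (locfin_one hq hm a ((inL_iff x_LFD _).1 h1) ((inL_iff x_LFD _).1 h2) h3)

end Pool.Agent.TH69.EvenTwoPrimes
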