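import Mathlib
import Pool.Agent.TH69.HHJ
import Pool.Agent.TH69.MtnE
import Pool.Agent.W629.TwiceLF

set_option autoImplicit false

/-!
# The theorem of Hall and Higman for groups of exponent `p q`, part K: metanilpotency
-/

namespace Pool.Agent.TH69.HH

open Pool.Agent.H32BU Pool.Agent.W629 Pool.Agent.TH69.Mtn

theorem qp_pq {p q n : ℕ} (hp : p.Prime) (hq : q.Prime) (hpq : p ≠ q) (hn : n = p * q) :
    qp q n = q := by
  unfold qp
  have : n.factorization q = 1 := by
    rw [hn, Nat.factorization_mul hp.ne_zero hq.ne_zero, Finsupp.add_apply,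
      hq.factorization_self, hp.factorization]
    simp [hpq]
  rw [this, pow_one]

/-- a non-trivial residual gives a `p`-element and a `q`-element which do not commute -/
theorem exists_pair {F : Type} [Group F] {p q n : ℕ} (hp : p.Prime) (hq : q.Prime)
    (hpq : p ≠ q) (hn : n = p * q) (hF : ∀ x : F, x ^ n = 1) (S : Subgroup F)
    (hne : NR S ≠ ⊥) : ∃ g ∈ S, ∃ y ∈ S, g ^ p = 1 ∧ y ^ q = 1 ∧ g * y ≠ y * g := by
  have hcop : Nat.Coprime p q := (Nat.coprime_primes hp hq).2 hpq
  by_contra hcon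
  push Not at hcon
  apply hne
  unfold NR
  rw [Subgroup.closure_eq_bot_iff]
  rintro _ ⟨x, hx, y, hy, a, b, hab, hxa, hyb, rfl⟩
  rw [Set.mem_singleton_iff]
  -- dichotomy
  have key : ∀ (p q : ℕ), p.Prime → q.Prime → (n = p * q) → x ^ q = 1 ∨ y ^ q = 1 := by
    intro p q hp hq hn
    have hx' : orderOf x ∣ p * q := orderOf_dvd_of_pow_eq_one (by rw [← hn]; exact hF x)
    have hy' : orderOf y ∣ p * q := orderOf_dvd_of_pow_eq_one (by rw [← hn]; exact hF y)
    have hco : Nat.Coprime (orderOf x) (orderOf y) :=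
      Nat.Coprime.coprime_dvd_left (orderOf_dvd_of_pow_eq_one hxa)
        (Nat.Coprime.coprime_dvd_right (orderOf_dvd_of_pow_eq_one hyb) hab)
    by_cases h : p ∣ orderOf x
    · right
      have h1 : ¬ p ∣ orderOf y := by
        intro h2
        have h3 := Nat.dvd_gcd h h2
        rw [hco] at h3
        exact hp.one_lt.ne' (Nat.dvd_one.1 h3)
      have h2 : Nat.Coprime (orderOf y) p := ((Nat.Prime.coprime_iff_not_dvd hp).2 h1).symm
      exact orderOf_dvd_iff_pow_eq_one.1 (h2.dvd_of_dvd_mul_left hy')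
    · left
      have h2 : Nat.Coprime (orderOf x) p := ((Nat.Prime.coprime_iff_not_dvd hp).2 h).symm
      exact orderOf_dvd_iff_pow_eq_one.1 (h2.dvd_of_dvd_mul_left hx')
  have h1 := key p q hp hq hn
  have h2 := key q p hq hp (by rw [hn, mul_comm])
  rcases h1 with h1 | h1
  · rcases h2 with h2 | h2
    · have : x = 1 := eq_one_of_coprime hcop h2 h1
      rw [this]; group
    · have := hcon y hy x hx h2 h1
      rw [← this]; group
  · rcases h2 with h2 | h2
    · have := hcon x hx y hy h2 h1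
      rw [this]; group
    · have : y = 1 := eq_one_of_coprime hcop h2 h1
      rw [this]; group

theorem no_crit {F : Type} [Group F] [Finite F] {p q n : ℕ} (hp : p.Prime) (hq : q.Prime)
    (hpq : p ≠ q) (hn : n = p * q) (hF : ∀ x : F, x ^ n = 1) (V S : Subgroup F) (hV : V.Normal)
    (hab : ∀ v ∈ V, ∀ w ∈ V, v * w = w * v) (hpow : ∀ v ∈ V, v ^ p = 1)
    (hC : ∀ s ∈ S, (∀ v ∈ V, s * v = v * s) → s = 1) (hne : NR S ≠ ⊥)
    (hco : ∀ b ∈ NR S, ∃ k : ℕ, Nat.Coprime k p ∧ b ^ k = 1) : False := by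
  have hcop : Nat.Coprime p q := (Nat.coprime_primes hp hq).2 hpq
  obtain ⟨g, hg, y, hy, hgp, hyq, hc⟩ := exists_pair hp hq hpq hn hF S hne
  have hb : ∀ b ∈ NR S, b ^ q = 1 := by
    intro b hb
    obtain ⟨k, hk, h1⟩ := hco b hb
    have h2 : (b ^ q) ^ p = 1 := by rw [← pow_mul, mul_comm, ← hn, hF]
    have h3 : (b ^ q) ^ k = 1 := by rw [← pow_mul, mul_comm, pow_mul, h1, one_pow]
    exact eq_one_of_coprime hk.symm h2 h3
  have hcm : g * y * g⁻¹ * y⁻¹ ∈ NR S :=
    Subgroup.subset_closure ⟨g, hg, y, hy, p, q, hcop, hgp, hyq, rfl⟩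
  have hnc : g * (g * y * g⁻¹ * y⁻¹) ≠ (g * y * g⁻¹ * y⁻¹) * g := by
    intro h2
    apply hc
    have h3 := comm_pow (x := g) (y := y) (c := g * y * g⁻¹ * y⁻¹) rfl h2 p
    rw [hgp] at h3
    have h4 : (g * y * g⁻¹ * y⁻¹) ^ p = 1 := by
      rw [← h3]; group
    have h5 := eq_one_of_coprime hcop h4 (hb _ hcm)
    rw [mul_inv_eq_one, mul_inv_eq_iff_eq_mul] at h5
    exact h5
  have hst := (x_MON F).2.2.1 S g
    (fun a ha => S.mul_mem (S.mul_mem hg ha) (S.inv_mem hg))
    (fun a ha => S.mul_mem (S.mul_mem (S.inv_mem hg) ha) hg) 1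
  obtain ⟨U, hU, A⟩ := arr_exists (n := n) (s := q) (h := g) (NR S) inferInstance
    (by rw [qp_pq hp hq hpq hn]; exact hb) hst.1 ⟨_, hcm, hnc⟩
  have hle : NR S ≤ S := (x_MON F).2.1 S 0
  exact no_config hp hq hpq hn hF V hV hab hpow hgp A fun u hu h => hC u (hle (hU hu)) h

/-- finite groups of exponent `p q` are metanilpotent -/
theorem meta_pq {p q : ℕ} (hp : p.Prime) (hq : q.Prime) (hpq : p ≠ q) :
    ∀ k : ℕ, ∀ (F : Type) [Group F] [Finite F], Nat.card F ≤ k →
      (∀ x : F, x ^ (p * q) = 1) → DD (⊤ : Subgroup F) 2 = ⊥ := by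
  intro k
  induction k with
  | zero =>
    intro F _ _ hk
    have : 0 < Nat.card F := Nat.card_pos
    omega
  | succ k ih =>
    intro F _ _ hk hF
    by_contra hne
    have hs : Group.IsSolvable F := solv_of_exp p q 1 1 hp hq (by simpa using hF)
    have htor : ∀ x : F, IsOfFinOrder x := fun x => isOfFinOrder_of_finite x
    have hmin : ∀ K : Subgroup F, K.Normal → K ≠ ⊥ → DD (⊤ : Subgroup F) 2 ≤ K := by
      intro K hK hKne
      have hcard : Nat.card (F ⧸ K) < Nat.card F := by
        have h1 := Subgroup.card_eq_card_quotient_mul_card_subgroup K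
        have h2 : 1 < Nat.card K := by
          rw [Subgroup.one_lt_card_iff_ne_bot]
          exact hKne
        have h3 : 0 < Nat.card (F ⧸ K) := Nat.card_pos
        rw [h1]
        nlinarith
      have h1 := ih (F ⧸ K) (by omega) (exp_quot hF K)
      have h2 := x_MAPS F (F ⧸ K) (QuotientGroup.mk' K) htor ⊤ 2
      rw [← MonoidHom.range_eq_map, MonoidHom.range_eq_top.2 (QuotientGroup.mk'_surjective K), h1,
        Subgroup.map_eq_bot_iff, QuotientGroup.ker_mk'] at h2
      exact h2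
    obtain ⟨r, S, hr, hab, hpow, hS, hsup, hC⟩ := x_TWOA F inferInstance hs 1 hne hmin
    have hDS : DD S 2 = ⊥ := by
      have hcard : Nat.card S < Nat.card F := by
        rcases lt_or_eq_of_le (Subgroup.card_le_card_group S) with h | h
        · exact h
        · exact absurd (Subgroup.eq_top_of_card_eq S h) hS
      have h1 := ih S (by omega) (exp_sub hF S)
      have h2 := x_MAPI S F S.subtype S.subtype_injective ⊤ 2
      rw [← MonoidHom.range_eq_map, Subgroup.range_subtype, h1, Subgroup.map_bot] at h2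
      exact h2.symm
    obtain ⟨h1, h2⟩ := x_TWOB F 1 r S inferInstance hr hne hmin hab hpow hsup hC hDS
    have hV : (DD (⊤ : Subgroup F) 2).Normal := (x_MON F).2.2.2.1 ⊤ inferInstance 2
    obtain ⟨v, hv, hv1⟩ : ∃ v ∈ DD (⊤ : Subgroup F) 2, v ≠ 1 := by
      by_contra h
      push Not at h
      exact hne ((Subgroup.eq_bot_iff_forall _).2 h)
    have hrd : r ∣ p * q := by
      have h3 : orderOf v = r := by
        have := Fact.mk hr
        exact orderOf_eq_prime (hpow v hv) hv1
      rw [← h3]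
      exact orderOf_dvd_of_pow_eq_one (hF v)
    rcases (Nat.Prime.dvd_mul hr).1 hrd with h | h
    · have hrp : r = p := (Nat.prime_dvd_prime_iff_eq hr hp).1 h
      subst hrp
      exact no_crit hp hq hpq rfl hF _ S hV hab hpow hC h1 h2
    · have hrq : r = q := (Nat.prime_dvd_prime_iff_eq hr hq).1 h
      subst hrq
      exact no_crit hq hp hpq.symm (mul_comm _ _) hF _ S hV hab hpow hC h1 h2

end Pool.Agent.TH69.HH
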