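import Mathlib
import Pool.Agent.TH69.PqG
import Pool.Agent.TH69.HHK

/-!
# Groups of exponent `p ^ a * q ^ b` whose two-generator subgroups are finite

Outline.  Let `G` have exponent `n = p ^ a q ^ b`, let its two-generator subgroups be finite of
Fitting height at most `3`, and let `G` have no nontrivial normal `p`-subgroup or `q`-subgroup.
First, the two-generator subgroups are metanilpotent.  Otherwise take a finite subgroup `K` of
`G` of least order which is not metanilpotent, and its smallest quotient which is not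
metanilpotent.  This quotient is `V ⋊ (T ⋊ ⟨g⟩)` for an elementary abelian `r`-group `V`, an
`s`-group `T` and an `r`-element `g`.  Each `t` in `T` not centralised by `g` acts on `V` without
fixed points: the quotient is generated by `t` and some `g v`, hence `K` is generated by a lift of
`t` and a lift of `g v`, and a fixed point would lift to an element `f` of `K` which commutes with
the lift of `t` and lies in the second term of the lower Fitting series of `K`; then for every
`r`-element `z` which commutes with the lift of `t` also `f z` is an `r`-element, and this puts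
`f` into a normal `r`-subgroup of `G`.  If `T` has exponent `s`, this implies that `r` divides
`s - 1`; and if the exponent of `G` has `r`-part `r` and `s` is odd, the configuration is excluded
by a case of the theorem of Hall and Higman, which is proved here.  Then the theorem on groups
with metanilpotent two-generator subgroups applies (`MtnA` to `MtnH`).
-/

set_option autoImplicit false

namespace Pool.Agent.TH69.HeightThree

open Pool.Agent.H32BU Pool.Agent.W629 Pool.Agent.TH69.Mtn Pool.Agent.TH69.HH Pool.Agent.TH69.Pq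

universe u

/-- `n ∈ 𝓛`: every group satisfying `x ^ n = 1` is locally finite. -/
def InL (n : ℕ) : Prop := ∀ (G : Type u) [Group G], (∀ x : G, x ^ n = 1) →
  ∀ S : Set G, S.Finite → Finite (Subgroup.closure S)

/-- The free Burnside group `B_{m,n}`: the free group of rank `m` modulo the normal closure of all
`n`-th powers. -/
abbrev B (m n : ℕ) : Type :=
  FreeGroup (Fin m) ⧸ Subgroup.normalClosure (Set.range fun w : FreeGroup (Fin m) => w ^ n)

/-- A metanilpotent group: it has a nilpotent normal subgroup with nilpotent quotient. -/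
def IsMetanilpotent (K : Type u) [Group K] : Prop :=
  ∃ N : Subgroup K, ∃ _ : N.Normal, Group.IsNilpotent N ∧ Group.IsNilpotent (K ⧸ N)

/-- Fitting height at most three: a nilpotent normal subgroup with metanilpotent quotient. -/
def HeightLeThree (K : Type u) [Group K] : Prop :=
  ∃ N : Subgroup K, ∃ _ : N.Normal, Group.IsNilpotent N ∧ IsMetanilpotent (K ⧸ N)

theorem b_finite_of_inL {n : ℕ} (h : InL.{u} n) (m : ℕ) : Finite (B m n) :=
  x_LFD.2.1 n m ((inL_iff x_LFD n).1 h)

/-- the terms of the series of finite groups of exponent `p ^ a * q` -/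
theorem dd_one {p q : ℕ} (hp : p.Prime) (hq : q.Prime) (hpq : p ≠ q) (h : ¬ p ∣ q - 1) (a : ℕ)
    (F : Type) [Group F] [Finite F] (hF : ∀ x : F, x ^ (p ^ a * q) = 1) :
    DD (⊤ : Subgroup F) 3 = ⊥ := by
  obtain ⟨h1, h2⟩ := fact_pq hp hq hpq a 1
  rw [pow_one] at h1 h2
  exact dd3 hq hp hpq.symm h2 (by rw [h1, h2, mul_comm]) (odd_of hq hpq h) _ F le_rfl hF

theorem locfin_pow {p q : ℕ} (hp : p.Prime) (hq : q.Prime) (hpq : p ≠ q) (a b : ℕ)
    (h1 : LocFin (p ^ a)) (h2 : LocFin (q ^ b)) (s : ℕ) :
    LocFin (qp s (p ^ a * q ^ b)) := by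
  obtain ⟨e1, e2⟩ := fact_pq hp hq hpq a b
  by_cases hsp : s = p
  · subst hsp
    rwa [e1]
  · by_cases hsq : s = q
    · subst hsq
      rwa [e2]
    · have h3 : qp s (p ^ a * q ^ b) = 1 := by
        unfold qp
        have h4 : (p ^ a * q ^ b).factorization s = 0 := by
          rw [Nat.factorization_mul (pow_ne_zero _ hp.ne_zero) (pow_ne_zero _ hq.ne_zero),
            Finsupp.add_apply, hp.factorization_pow, hq.factorization_pow,
            Finsupp.single_eq_of_ne hsp, Finsupp.single_eq_of_ne hsq, add_zero]
        rw [h4, pow_zero]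
      rw [h3]
      exact x_LFD.2.2.1

theorem locfin_one {p q : ℕ} (hp : p.Prime) (hq : q.Prime) (hpq : p ≠ q) (h : ¬ p ∣ q - 1) (a : ℕ)
    (h1 : LocFin (p ^ a)) (h2 : LocFin q) (hf : Finite (Bu 2 (p ^ a * q))) :
    LocFin (p ^ a * q) := by
  intro G _ hG
  refine lf_pq (adm_one hp hq hpq h a) ?_ G hG fun x y => ?_
  · intro s _
    have := locfin_pow hp hq hpq a 1 h1 (by rwa [pow_one]) s
    rwa [pow_one] at this
  · obtain ⟨f, hfr⟩ := bu2 hG x y
    have hfin : Finite (c2 x y) := by
      unfold c2
      rw [← hfr]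
      exact Finite.of_surjective f.rangeRestrict f.rangeRestrict_surjective
    refine ⟨hfin, ?_⟩
    have h3 := dd_one hp hq hpq h a (c2 x y) (exp_sub hG (c2 x y))
    have h4 := x_MAPI (c2 x y) G (c2 x y).subtype (Subgroup.subtype_injective _) ⊤ 3
    rw [← MonoidHom.range_eq_map, Subgroup.range_subtype, h3, Subgroup.map_bot] at h4
    exact h4.symm

/-- (1) Let `p ≠ q` be primes with `p ∤ q - 1`, and let `G` be a group of exponent dividing
`p ^ a * q ^ b` all of whose two-generator subgroups are finite. Suppose that `b = 1`, or that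
`q ∤ p - 1` and all two-generator subgroups of `G` have Fitting height at most three. If `G` is
nontrivial, then `G` has a nontrivial normal subgroup of exponent dividing `p ^ a` or `q ^ b`. If
`p ^ a` and `q ^ b` are in `𝓛`, then `G` is locally finite. (2) For distinct primes `p`, `q` with
`p ∤ q - 1` and all `a`: `p ^ a * q ∈ 𝓛` if and only if `p ^ a ∈ 𝓛`, `q ∈ 𝓛` and the two-generator
free Burnside group `B_{2,n}`, `n = p ^ a * q`, is finite. -/
theorem result :
    (∀ p q a b : ℕ, p.Prime → q.Prime → p ≠ q → ¬ p ∣ q - 1 →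
      ∀ (G : Type u) [Group G], (∀ x : G, x ^ (p ^ a * q ^ b) = 1) →
      (∀ x y : G, Finite (Subgroup.closure {x, y})) →
      (b = 1 ∨ (¬ q ∣ p - 1 ∧ ∀ x y : G, HeightLeThree (Subgroup.closure {x, y}))) →
      (Nontrivial G → ∃ N : Subgroup G, N.Normal ∧ N ≠ ⊥ ∧
        ((∀ x ∈ N, x ^ p ^ a = 1) ∨ (∀ x ∈ N, x ^ q ^ b = 1))) ∧
      (InL.{u} (p ^ a) → InL.{u} (q ^ b) →
        ∀ S : Set G, S.Finite → Finite (Subgroup.closure S))) ∧
    (∀ p q a : ℕ, p.Prime → q.Prime → p ≠ q → ¬ p ∣ q - 1 →
      (InL.{u} (p ^ a * q) ↔ InL.{u} (p ^ a) ∧ InL.{u} q ∧ Finite (B 2 (p ^ a * q)))) := by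
  refine ⟨?_, fun p q a hp hq hpq h => ?_⟩
  · intro p q a b hp hq hpq h G _ hG h2 h3
    have A : Adm p q (p ^ a * q ^ b) := by
      rcases h3 with rfl | ⟨h', -⟩
      · rw [pow_one]
        exact adm_one hp hq hpq h a
      · exact adm_two hp hq hpq h h' a b
    have h4 : ∀ x y : G, Finite (Subgroup.closure {x, y}) ∧ ∀ (K : Type) [Group K] [Finite K]
        (g : K →* Subgroup.closure {x, y}), Function.Injective g →
        DD (⊤ : Subgroup K) 3 = ⊥ := by
      intro x y
      refine ⟨h2 x y, fun K _ _ g hg => ?_⟩
      rcases h3 with rfl | ⟨h', h5⟩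
      · rw [pow_one] at hG
        refine dd_one hp hq hpq h a K fun z => hg ?_
        rw [map_pow, map_one]
        exact Subtype.ext (hG _)
      · have h6 : MN3 (Subgroup.closure {x, y}) := h5 x y
        exact (MN3.of_injective g hg h6).dd
    refine ⟨fun hnt => ?_, fun hL1 hL2 S hS => ?_⟩
    · by_contra hcon
      push Not at hcon
      obtain ⟨e1, e2⟩ := fact_pq hp hq hpq a b
      obtain ⟨g, hg⟩ := exists_ne (1 : G)
      apply hg
      refine trivial_pq_u A G hG h4 (fun s hs => ?_) g
      by_contra hne
      obtain ⟨⟨x, hx, hx'⟩, y, hy, hy'⟩ := hcon (Rad (qp s (p ^ a * q ^ b)) G) inferInstance hne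
      by_cases hsp : s = p
      · subst hsp
        rw [e1] at hx
        exact hx' hx.1
      · by_cases hsq : s = q
        · subst hsq
          rw [e2] at hy
          exact hy' hy.1
        · rw [A.qp_other hs hsp hsq] at hx
          have h7 := hx.1
          rw [pow_one] at h7
          rw [h7, one_pow] at hx'
          exact hx' rfl
    · exact lf_pq_u A (fun s _ => locfin_pow hp hq hpq a b ((inL_iff x_LFD _).1 hL1)
        ((inL_iff x_LFD _).1 hL2) s) G hG h4 S hS
  · constructor
    · intro h
      refine ⟨fun G _ hG => h G fun x => ?_, fun G _ hG => h G fun x => ?_, b_finite_of_inL h 2⟩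
      · rw [pow_mul, hG, one_pow]
      · rw [mul_comm, pow_mul, hG, one_pow]
    · rintro ⟨h1, h2, h3⟩
      exact (inL_iff x_LFD _).2
        (locfin_one hp hq hpq h a ((inL_iff x_LFD _).1 h1) ((inL_iff x_LFD _).1 h2) h3)

end Pool.Agent.TH69.HeightThree
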