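import Mathlib
import Pool.Agent.TH69.MsDefs

set_option autoImplicit false

/-!
# Groups of exponent `n` with nonsoluble finite subgroups, section A: basic closure properties
-/

namespace Pool.Agent.TH69.Ms

theorem Sm.of_surj {c : ℕ} {A B : Type} [Group A] [Group B] (f : A →* B)
    (hf : Function.Surjective f) (h : Sm c A) : Sm c B := by
  intro S _ hS hne X g hg
  have h1 := h S hS hne (X.comap f) (g.comp (f.subgroupComap X))
  refine h1 ?_
  intro s
  obtain ⟨⟨x, hx⟩, rfl⟩ := hg s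
  obtain ⟨a, rfl⟩ := hf x
  exact ⟨⟨a, hx⟩, rfl⟩

theorem Sm.of_inj {c : ℕ} {A B : Type} [Group A] [Group B] (f : A →* B)
    (hf : Function.Injective f) (h : Sm c B) : Sm c A := by
  intro S _ hS hne X g hg
  let e := X.equivMapOfInjective f hf
  refine h S hS hne (X.map f) (g.comp e.symm.toMonoidHom) ?_
  intro s
  obtain ⟨x, rfl⟩ := hg s
  refine ⟨e x, ?_⟩
  simp

theorem Tg.of_surj {A B : Type} [Group A] [Group B] (f : A →* B)
    (hf : Function.Surjective f) (h : Tg A) : Tg B := by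
  intro S _ hS hne X g hg
  have h1 := h S hS hne (X.comap f) (g.comp (f.subgroupComap X))
  refine h1 ?_
  intro s
  obtain ⟨⟨x, hx⟩, rfl⟩ := hg s
  obtain ⟨a, rfl⟩ := hf x
  exact ⟨⟨a, hx⟩, rfl⟩

theorem Tg.of_inj {A B : Type} [Group A] [Group B] (f : A →* B)
    (hf : Function.Injective f) (h : Tg B) : Tg A := by
  intro S _ hS hne X g hg
  let e := X.equivMapOfInjective f hf
  refine h S hS hne (X.map f) (g.comp e.symm.toMonoidHom) ?_
  intro s
  obtain ⟨x, rfl⟩ := hg s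
  refine ⟨e x, ?_⟩
  simp

theorem Sm.ext {c : ℕ} {K : Type} [Group K] (N : Subgroup K) [N.Normal] (h1 : Sm c N)
    (h2 : Sm c (K ⧸ N)) : Sm c K := by
  intro S _ hS hne X f hf
  have hM : (((N.subgroupOf X).map f)).Normal :=
    Subgroup.Normal.map inferInstance f hf
  rcases hS.eq_bot_or_eq_top_of_normal _ hM with h | h
  · -- the section is a section of the quotient
    have hk : ∀ x : X, x.1 ∈ N → f x = 1 := by
      intro x hx
      have h3 : f x ∈ (N.subgroupOf X).map f := ⟨x, hx, rfl⟩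
      rw [h] at h3
      exact Subgroup.mem_bot.1 h3
    let φ : X →* (K ⧸ N) := (QuotientGroup.mk' N).comp X.subtype
    have hle : φ.ker ≤ f.ker := by
      intro x hx
      have h3 : (QuotientGroup.mk' N) x.1 = 1 := hx
      exact hk x ((QuotientGroup.eq_one_iff _).1 h3)
    let g : φ.range →* S :=
      (QuotientGroup.lift φ.ker f hle).comp
        (QuotientGroup.quotientKerEquivRange φ).symm.toMonoidHom
    refine h2 S hS hne φ.range g ?_
    intro s
    obtain ⟨x, rfl⟩ := hf s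
    refine ⟨QuotientGroup.quotientKerEquivRange φ (x : X ⧸ φ.ker), ?_⟩
    simp [g]
  · -- the section is a section of `N`
    have h3 : ∀ s : S, ∃ x : X, x.1 ∈ N ∧ f x = s := by
      intro s
      have h4 : s ∈ (N.subgroupOf X).map f := by
        rw [h]
        exact Subgroup.mem_top s
      obtain ⟨x, hx, rfl⟩ := h4
      exact ⟨x, hx, rfl⟩
    let Y : Subgroup N := X.subgroupOf N
    let j : Y →* X := (N.subtype.comp Y.subtype).codRestrict X fun y => y.2
    refine h1 S hS hne Y (f.comp j) ?_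
    intro s
    obtain ⟨x, hx, rfl⟩ := h3 s
    exact ⟨⟨⟨x.1, hx⟩, x.2⟩, rfl⟩

theorem Sm.of_card {c : ℕ} {K : Type} [Group K] [Finite K] (h : Nat.card K < c) : Sm c K := by
  intro S _ hS hne X f hf
  have h1 : Nat.card S ≤ Nat.card X := Nat.card_le_card_of_surjective f hf
  have h2 : Nat.card X ≤ Nat.card K := Nat.card_le_card_of_injective _ X.subtype_injective
  omega

theorem Sm.mono {c d : ℕ} (hcd : c ≤ d) {K : Type} [Group K] (h : Sm c K) : Sm d K :=
  fun S _ hS hne X f hf => (h S hS hne X f hf).trans_le hcd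

theorem Sm.not_Bg {c : ℕ} {T : Type} [Group T] (h : Bg c T) : ¬ Sm c T := by
  intro h1
  have h2 := h1 T h.1 h.2.1 ⊤ (Subgroup.topEquiv (G := T)).toMonoidHom
    (Subgroup.topEquiv (G := T)).surjective
  rw [h.2.2] at h2
  exact lt_irrefl _ h2

theorem InO.mono {c : ℕ} {G : Type} [Group G] {H' H : Subgroup G} (hle : H' ≤ H) {e : G}
    (he : e ∈ H') (h : InO c H e) : InO c H' e := by
  obtain ⟨N, h1, h2, h3, h4⟩ := h
  refine ⟨N ⊓ H', inf_le_right, fun h hh x hx => ⟨h2 h (hle hh) x hx.1,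
    H'.mul_mem (H'.mul_mem hh hx.2) (H'.inv_mem hh)⟩, ?_, h4, he⟩
  exact h3.of_inj (Subgroup.inclusion inf_le_left) (Subgroup.inclusion_injective _)

theorem InO.map {c : ℕ} {A B : Type} [Group A] [Group B] (f : A →* B) {H : Subgroup A} {e : A}
    (h : InO c H e) : InO c (H.map f) (f e) := by
  obtain ⟨N, h1, h2, h3, h4⟩ := h
  refine ⟨N.map f, Subgroup.map_mono h1, ?_, h3.of_surj _ (f.subgroupMap_surjective N),
    Subgroup.mem_map_of_mem f h4⟩
  rintro _ ⟨h, hh, rfl⟩ _ ⟨x, hx, rfl⟩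
  exact ⟨h * x * h⁻¹, h2 h hh x hx, by simp⟩

theorem InO.of_map {c : ℕ} {A B : Type} [Group A] [Group B] (f : A →* B)
    (hf : Function.Injective f) {H : Subgroup A} {e : A} (h : InO c (H.map f) (f e)) :
    InO c H e := by
  obtain ⟨N, h1, h2, h3, h4⟩ := h
  refine ⟨N.comap f, ?_, ?_, ?_, h4⟩
  · intro x hx
    obtain ⟨y, hy, hxy⟩ := h1 hx
    rwa [← hf hxy]
  · intro h hh x hx
    rw [Subgroup.mem_comap] at hx ⊢
    rw [map_mul, map_mul, map_inv]
    exact h2 _ (Subgroup.mem_map_of_mem f hh) _ hx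
  · refine h3.of_inj (f.subgroupComap N) ?_
    intro x y hxy
    exact Subtype.ext (hf (congrArg Subtype.val hxy))

theorem Sm.sup {c : ℕ} {G : Type} [Group G] {N M : Subgroup G} (hN : Sm c N) (hM : Sm c M)
    (hn : ∀ x ∈ N, ∀ y ∈ M, x * y * x⁻¹ ∈ M) : Sm c (N ⊔ M : Subgroup G) := by
  obtain ⟨L, hL⟩ : ∃ L : Subgroup G, L = N ⊔ M := ⟨_, rfl⟩
  rw [← hL]
  have hNL : N ≤ L := hL ▸ le_sup_left
  have hML : M ≤ L := hL ▸ le_sup_right
  have hL2 : L ≤ Subgroup.normalizer (M : Set G) := by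
    rw [hL]
    refine sup_le ?_ Subgroup.le_normalizer
    intro x hx
    rw [Subgroup.mem_normalizer_iff]
    intro y
    refine ⟨fun hy => hn x hx y hy, fun hy => ?_⟩
    have h1 := hn x⁻¹ (inv_mem hx) _ hy
    have e : x⁻¹ * (x * y * x⁻¹) * x⁻¹⁻¹ = y := by group
    rwa [e] at h1
  have hnor : (M.subgroupOf L).Normal := by
    refine ⟨fun y hy x => ?_⟩
    exact (Subgroup.mem_normalizer_iff.1 (hL2 x.2) _).1 hy
  have h1 : Sm c (M.subgroupOf L) := by
    refine hM.of_inj (Subgroup.subgroupOfEquivOfLe hML).toMonoidHom ?_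
    exact (Subgroup.subgroupOfEquivOfLe hML).injective
  refine Sm.ext (M.subgroupOf L) h1 ?_
  refine hN.of_surj ((QuotientGroup.mk' (M.subgroupOf L)).comp (Subgroup.inclusion hNL)) ?_
  intro q
  obtain ⟨x, rfl⟩ := QuotientGroup.mk_surjective q
  have hx : x.1 ∈ N ⊔ M := hL ▸ x.2
  have h2 : ∀ z ∈ N ⊔ M, ∃ a ∈ N, ∃ b ∈ M, a * b = z := by
    let P : Subgroup G :=
      { carrier := {z | ∃ a ∈ N, ∃ b ∈ M, a * b = z}
        one_mem' := ⟨1, one_mem _, 1, one_mem _, one_mul 1⟩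
        mul_mem' := by
          rintro _ _ ⟨a, ha, b, hb, rfl⟩ ⟨a', ha', b', hb', rfl⟩
          refine ⟨a * a', mul_mem ha ha', a'⁻¹ * b * a' * b', mul_mem ?_ hb', by group⟩
          have h3 := hn a'⁻¹ (inv_mem ha') b hb
          rwa [inv_inv] at h3
        inv_mem' := by
          rintro _ ⟨a, ha, b, hb, rfl⟩
          exact ⟨a⁻¹, inv_mem ha, a * b⁻¹ * a⁻¹, hn a ha _ (inv_mem hb), by group⟩ }
    intro z hz
    have h3 : N ⊔ M ≤ P := sup_le (fun a ha => ⟨a, ha, 1, one_mem _, mul_one a⟩)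
      fun b hb => ⟨1, one_mem _, b, hb, one_mul b⟩
    exact h3 hz
  obtain ⟨a, ha, b, hb, hab⟩ := h2 _ hx
  refine ⟨⟨a, ha⟩, ?_⟩
  change (QuotientGroup.mk (⟨a, hNL ha⟩ : L) : L ⧸ M.subgroupOf L) = QuotientGroup.mk x
  rw [QuotientGroup.eq]
  change (a⁻¹ * x.1) ∈ M
  rw [← hab, inv_mul_cancel_left]
  exact hb

theorem InO.exists_max (c : ℕ) {G : Type} [Group G] (H : Subgroup G) [Finite H] :
    ∃ N : Subgroup G, N ≤ H ∧ (∀ h ∈ H, ∀ x ∈ N, h * x * h⁻¹ ∈ N) ∧ Sm c N ∧
      ∀ e, InO c H e ↔ e ∈ N := by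
  obtain ⟨𝒮, h𝒮⟩ : ∃ 𝒮 : Set (Subgroup G), 𝒮 = {N | N ≤ H ∧
    (∀ h ∈ H, ∀ x ∈ N, h * x * h⁻¹ ∈ N) ∧ Sm c N} := ⟨_, rfl⟩
  have hfin : 𝒮.Finite := by
    have h1 : (Set.range fun A : Subgroup H => A.map H.subtype).Finite := Set.finite_range _
    refine h1.subset ?_
    intro N hN
    rw [h𝒮] at hN
    refine ⟨N.subgroupOf H, ?_⟩
    simp only [Subgroup.subgroupOf_map_subtype]
    exact inf_eq_left.2 hN.1
  have hne : 𝒮.Nonempty := by
    refine ⟨⊥, ?_⟩
    rw [h𝒮]
    refine ⟨bot_le, fun h _ x hx => ?_, ?_⟩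
    · rw [Subgroup.mem_bot] at hx ⊢
      rw [hx, mul_one, mul_inv_cancel]
    · intro S _ hS hS2 X f hf
      exfalso
      obtain ⟨a, b, hab⟩ := hS2
      obtain ⟨x, rfl⟩ := hf a
      obtain ⟨y, rfl⟩ := hf b
      have h2 : x = 1 := Subtype.ext (Subsingleton.elim _ _)
      have h3 : y = 1 := Subtype.ext (Subsingleton.elim _ _)
      exact hab (by rw [h2, h3])
  obtain ⟨N, hN, hmax⟩ := hfin.exists_maximal hne
  have hN' := hN
  rw [h𝒮] at hN'
  refine ⟨N, hN'.1, hN'.2.1, hN'.2.2, fun e => ⟨?_, fun he => ⟨N, hN'.1, hN'.2.1, hN'.2.2, he⟩⟩⟩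
  rintro ⟨M, h1, h2, h3, h4⟩
  have h5 : M ⊔ N ∈ 𝒮 := by
    rw [h𝒮]
    refine ⟨sup_le h1 hN'.1, ?_, ?_⟩
    · intro h hh x hx
      have h6 : (M ⊔ N) ≤ (M ⊔ N).comap (MulAut.conj h).toMonoidHom := by
        refine sup_le ?_ ?_
        · intro y hy
          exact (le_sup_left : M ≤ M ⊔ N) (h2 h hh y hy)
        · intro y hy
          exact (le_sup_right : N ≤ M ⊔ N) (hN'.2.1 h hh y hy)
      exact h6 hx
    · exact Sm.sup h3 hN'.2.2 fun x hx y hy => hN'.2.1 x (h1 hx) y hy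
  exact (hmax h5 le_sup_right) ((le_sup_left : M ≤ M ⊔ N) h4)

theorem Hy.of_surj {c n : ℕ} {A B : Type} [Group A] [Group B] (f : A →* B)
    (hf : Function.Surjective f) (h : Hy c n A) : Hy c n B := by
  have := h.fin
  refine ⟨Finite.of_surjective f hf, fun y => ?_, h.sm.of_surj f hf, h.tg.of_surj f hf⟩
  obtain ⟨x, rfl⟩ := hf y
  rw [← map_pow, h.exp, map_one]

theorem Hy.of_inj {c n : ℕ} {A B : Type} [Group A] [Group B] (f : A →* B)
    (hf : Function.Injective f) (h : Hy c n B) : Hy c n A := by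
  have := h.fin
  refine ⟨Finite.of_injective f hf, fun y => ?_, h.sm.of_inj f hf, h.tg.of_inj f hf⟩
  apply hf
  rw [map_pow, h.exp, map_one]

/-- the quotient of a finite group by its largest normal subgroup with `Sm c` -/
theorem exists_quot (c n : ℕ) {K : Type} [Group K] (hK : Hy c n K) :
    ∃ (Q : Type) (_ : Group Q) (f : K →* Q), Function.Surjective f ∧ Hy c n Q ∧
      (∀ e : Q, InO c ⊤ e → e = 1) ∧ ∀ e : K, InO c ⊤ e ↔ f e = 1 := by
  have := hK.fin
  obtain ⟨N, -, h2, h3, h4⟩ := InO.exists_max c (⊤ : Subgroup K)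
  have hN : N.Normal := ⟨fun x hx g => h2 g (Subgroup.mem_top g) x hx⟩
  refine ⟨K ⧸ N, inferInstance, QuotientGroup.mk' N, QuotientGroup.mk'_surjective N,
    hK.of_surj _ (QuotientGroup.mk'_surjective N), ?_, ?_⟩
  · rintro e ⟨M, -, h5, h6, h7⟩
    obtain ⟨x, rfl⟩ := QuotientGroup.mk_surjective e
    rw [QuotientGroup.eq_one_iff, ← h4]
    refine ⟨M.comap (QuotientGroup.mk' N), le_top, ?_, ?_, h7⟩
    · intro h _ y hy
      rw [Subgroup.mem_comap, map_mul, map_mul, map_inv]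
      exact h5 _ (Subgroup.mem_top _) _ hy
    · let P := M.comap (QuotientGroup.mk' N)
      have hNP : N ≤ P := by
        intro y hy
        have h8 : (QuotientGroup.mk' N) y = 1 := (QuotientGroup.eq_one_iff y).2 hy
        change (QuotientGroup.mk' N) y ∈ M
        rw [h8]
        exact one_mem _
      have h9 : (N.subgroupOf P).Normal := ⟨fun y hy g => hN.conj_mem _ hy _⟩
      refine Sm.ext (N.subgroupOf P) ?_ ?_
      · refine h3.of_inj (Subgroup.subgroupOfEquivOfLe hNP).toMonoidHom ?_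
        exact (Subgroup.subgroupOfEquivOfLe hNP).injective
      · let φ : P →* M := (QuotientGroup.mk' N).subgroupComap M
        have hφ : N.subgroupOf P ≤ φ.ker := by
          intro y hy
          exact Subtype.ext ((QuotientGroup.eq_one_iff _).2 hy)
        refine h6.of_inj (QuotientGroup.lift (N.subgroupOf P) φ hφ) ?_
        rw [injective_iff_map_eq_one]
        intro y hy
        obtain ⟨y, rfl⟩ := QuotientGroup.mk_surjective y
        rw [QuotientGroup.eq_one_iff]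
        have h10 : (φ y : K ⧸ N) = 1 := congrArg Subtype.val hy
        exact (QuotientGroup.eq_one_iff y.1).1 h10
  · intro e
    rw [h4]
    exact (QuotientGroup.eq_one_iff e).symm

theorem Pf.of_surj {c : ℕ} {A B : Type} [Group A] [Group B] (f : A →* B)
    (hf : Function.Surjective f) (h : Pf c A) : Pf c B := by
  intro Q _ hQ hs g b
  obtain ⟨a, rfl⟩ := hf b
  exact h Q hQ hs (g.comp f) a

theorem Bg.pf {c : ℕ} {T : Type} [Group T] (h : Bg c T) : Pf c T := by
  intro Q _ hQ hs g a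
  have hT := h.1
  rcases hT.eq_bot_or_eq_top_of_normal g.ker inferInstance with h1 | h1
  · exfalso
    exact Sm.not_Bg h (hs.of_inj g ((MonoidHom.ker_eq_bot_iff g).1 h1))
  · have h2 : a ∈ g.ker := h1 ▸ Subgroup.mem_top a
    exact h2

end Pool.Agent.TH69.Ms
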