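import Mathlib
import Pool.Agent.TH69.MsS0

set_option autoImplicit false

/-!
# Bounded series of characteristic subgroups: monotonicity and composition
-/

namespace Pool.Agent.TH69.Ms.X

open Pool.Agent.H32BU Pool.Agent.TH69.Mtn Pool.Agent.TH69.Ms

namespace MsS1

/-- an automorphism preserving the kernel induces an automorphism of the image -/
theorem induced {G W : Type} [Group G] [Group W] (g : G →* W) (hg : Function.Surjective g)
    (hM : g.ker.Characteristic) (φ : G ≃* G) : ∃ ψ : W ≃* W, ∀ x, ψ (g x) = g (φ x) := by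
  have hk : ∀ φ : G ≃* G, ∀ x, g x = 1 → g (φ x) = 1 := by
    intro φ x hx
    have h1 := Subgroup.characteristic_iff_map_le.1 hM φ
    exact h1 ⟨x, hx, rfl⟩
  have hwd : ∀ φ : G ≃* G, ∀ x y, g x = g y → g (φ x) = g (φ y) := by
    intro φ x y hxy
    have h1 : g (x * y⁻¹) = 1 := by rw [map_mul, map_inv, hxy, mul_inv_cancel]
    have h2 := hk φ _ h1
    rw [map_mul, map_inv, map_mul, map_inv, mul_inv_eq_one] at h2
    exact h2
  choose s hs using hg
  have key : ∀ φ : G ≃* G, ∀ x, g (φ (s (g x))) = g (φ x) := fun φ x => hwd φ _ _ (hs _)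
  refine ⟨MulEquiv.mk' ⟨fun w => g (φ (s w)), fun w => g (φ.symm (s w)), ?_, ?_⟩ ?_, ?_⟩
  · intro w
    show g (φ.symm (s (g (φ (s w))))) = w
    rw [key φ.symm, MulEquiv.symm_apply_apply, hs]
  · intro w
    show g (φ (s (g (φ.symm (s w))))) = w
    rw [key φ, MulEquiv.apply_symm_apply, hs]
  · intro w w'
    show g (φ (s (w * w'))) = g (φ (s w)) * g (φ (s w'))
    rw [← map_mul, ← map_mul]
    apply hwd φ
    rw [hs, map_mul, hs, hs]
  · intro x
    exact key φ x

theorem comap_char {G W : Type} [Group G] [Group W] (g : G →* W) (hg : Function.Surjective g)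
    (hM : g.ker.Characteristic) (K : Subgroup W) (hK : K.Characteristic) :
    (K.comap g).Characteristic := by
  rw [Subgroup.characteristic_iff_map_le]
  rintro φ _ ⟨x, hx, rfl⟩
  obtain ⟨ψ, hψ⟩ := induced g hg hM φ
  have h1 := Subgroup.characteristic_iff_map_le.1 hK ψ
  have h2 : ψ (g x) ∈ K := h1 ⟨g x, hx, rfl⟩
  rw [hψ] at h2
  exact h2

theorem TTq_top (n : ℕ) {G : Type} [Group G] (A : Subgroup G) : TTq n A A :=
  Or.inl ⟨2, 0, Nat.prime_two, by simp, fun x hx => by simpa using hx⟩

theorem TTq_comap {n : ℕ} {G W : Type} [Group G] [Group W] (g : G →* W)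
    (hg : Function.Surjective g) {A B : Subgroup W} (h : TTq n A B) :
    TTq n (A.comap g) (B.comap g) := by
  rcases h with ⟨p, a, hp, ha, h3⟩ | ⟨Q, _, f, hf, hfk, h3⟩
  · refine Or.inl ⟨p, a, hp, ha, fun x hx => ?_⟩
    rw [Subgroup.mem_comap, map_pow]
    exact h3 _ hx
  · refine Or.inr ⟨Q, inferInstance, f.comp g, hf.comp hg, ?_, ?_⟩
    · rw [← MonoidHom.comap_ker, hfk]
    · rw [← Subgroup.map_map, Subgroup.map_comap_eq_self_of_surjective hg]
      exact h3

theorem LSS_map {A B : Type} [Group A] [Group B] (j : A →* B) (hj : Function.Injective j)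
    {M : Subgroup A} (h : LSS M) : LSS (M.map j) := by
  classical
  obtain ⟨c, hc, h⟩ := h
  refine ⟨c, hc, fun s hs => ?_⟩
  obtain ⟨t, ht⟩ : ∃ t : Finset A, ∀ x : A, x ∈ t ↔ j x ∈ s :=
    ⟨s.preimage j hj.injOn, fun x => Finset.mem_preimage⟩
  obtain ⟨D, h1, h2, h3, h4⟩ := h t (by
    intro x hx
    obtain ⟨y, hy, hyx⟩ := hs ((ht x).1 hx)
    rw [← hj hyx]
    exact hy)
  refine ⟨(fun T : Subgroup A => T.map j) '' D, h1.image _, ?_, ?_, ?_⟩
  · rintro _ ⟨T, hT, rfl⟩
    obtain ⟨h5, h6, h7, h8⟩ := h2 T hT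
    have h9 : Bg c T := ⟨h7, h8, h6⟩
    have e := T.equivMapOfInjective j hj
    have h10 := Bg.of_equiv e h9
    exact ⟨Subgroup.map_mono h5, h10.2.2, h10.1, h10.2.1⟩
  · rintro _ ⟨A', hA, rfl⟩ _ ⟨B', hB, rfl⟩ hne _ ⟨a, ha, rfl⟩ _ ⟨b, hb, rfl⟩
    have h5 := h3 A' hA B' hB (fun h => hne (by rw [h])) a ha b hb
    rw [← map_mul, h5, map_mul]
  · intro x hx
    obtain ⟨y, -, rfl⟩ := hs hx
    have h5 : sSup D ≤ (sSup ((fun T : Subgroup A => T.map j) '' D)).comap j := by
      refine sSup_le fun T hT => ?_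
      rw [← Subgroup.map_le_iff_le_comap]
      exact le_sSup ⟨T, hT, rfl⟩
    exact h5 (h4 ((ht y).2 hx))

theorem map_char {G : Type} [Group G] (R : Subgroup G) (hR : R.Characteristic) (M : Subgroup R)
    (hM : M.Characteristic) : (M.map R.subtype).Characteristic := by
  rw [Subgroup.characteristic_iff_map_le]
  rintro φ _ ⟨_, ⟨x, hx, rfl⟩, rfl⟩
  have h1 : R.map φ.toMonoidHom = R := Subgroup.characteristic_iff_map_eq.1 hR φ
  let ψ : R ≃* R := (φ.subgroupMap R).trans (MulEquiv.subgroupCongr h1)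
  have h2 := Subgroup.characteristic_iff_map_le.1 hM ψ (Subgroup.mem_map_of_mem _ hx)
  exact ⟨ψ x, h2, rfl⟩

theorem TTq_map {n : ℕ} {G : Type} [Group G] (R : Subgroup G) {A B : Subgroup R}
    (hA : (A.map R.subtype).Normal) (h : TTq n A B) :
    TTq n (A.map R.subtype) (B.map R.subtype) := by
  rcases h with ⟨p, a, hp, ha, h3⟩ | ⟨Q, _, f, hf, hfk, h3⟩
  · refine Or.inl ⟨p, a, hp, ha, ?_⟩
    rintro _ ⟨x, hx, rfl⟩
    exact ⟨x ^ p ^ a, h3 x hx, rfl⟩
  · refine Or.inr ⟨G ⧸ A.map R.subtype, inferInstance, QuotientGroup.mk' _,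
      QuotientGroup.mk'_surjective _, QuotientGroup.ker_mk' _, ?_⟩
    have hk : ∀ x : R, f x = 1 ↔ QuotientGroup.mk' (A.map R.subtype) (x : G) = 1 := by
      intro x
      have h5 : f x = 1 ↔ x ∈ A := by rw [← hfk]; exact Iff.rfl
      have h6 : QuotientGroup.mk' (A.map R.subtype) (x : G) = 1 ↔ (x : G) ∈ A.map R.subtype :=
        QuotientGroup.eq_one_iff (x : G)
      rw [h5, h6]
      constructor
      · intro hx
        exact ⟨x, hx, rfl⟩
      · rintro ⟨y, hy, hyx⟩
        have : y = x := Subtype.ext hyx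
        rwa [← this]
    choose s hs using hf
    have hwd : ∀ x y : R, f x = f y → QuotientGroup.mk' (A.map R.subtype) (x : G) =
        QuotientGroup.mk' (A.map R.subtype) (y : G) := by
      intro x y hxy
      have h5 : f (x * y⁻¹) = 1 := by rw [map_mul, map_inv, hxy, mul_inv_cancel]
      have h6 := (hk _).1 h5
      have h7 : ((x * y⁻¹ : R) : G) = (x : G) * (y : G)⁻¹ := rfl
      rw [h7, map_mul, map_inv, mul_inv_eq_one] at h6
      exact h6
    let j : Q →* G ⧸ A.map R.subtype := MonoidHom.mk'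
      (fun q => QuotientGroup.mk' (A.map R.subtype) (s q : G)) (by
        intro q q'
        have h8 : ((s q * s q' : R) : G) = (s q : G) * (s q' : G) := rfl
        show QuotientGroup.mk' (A.map R.subtype) (s (q * q') : G) =
          QuotientGroup.mk' (A.map R.subtype) (s q : G) *
            QuotientGroup.mk' (A.map R.subtype) (s q' : G)
        rw [← map_mul, ← h8]
        apply hwd
        rw [hs, map_mul, hs, hs])
    have hj : ∀ x : R, j (f x) = QuotientGroup.mk' (A.map R.subtype) (x : G) :=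
      fun x => hwd _ _ (hs (f x))
    have hjinj : Function.Injective j := by
      rw [injective_iff_map_eq_one]
      intro q hq
      have h8 : QuotientGroup.mk' (A.map R.subtype) (s q : G) = 1 := hq
      have h9 := (hk _).2 h8
      rw [hs] at h9
      exact h9
    have h10 := LSS_map j hjinj h3
    have e : (B.map f).map j = (B.map R.subtype).map (QuotientGroup.mk' (A.map R.subtype)) := by
      rw [Subgroup.map_map, Subgroup.map_map]
      congr 1
      ext x
      exact hj x
    rw [e] at h10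
    exact h10

end MsS1

theorem CS.mono {n l l' : ℕ} (h : l ≤ l') {G : Type} [Group G] (hG : CS n l G) : CS n l' G := by
  obtain ⟨M, h0, hl, hc, hs⟩ := hG
  refine ⟨fun i => if i ≤ l then M i else ⊤, ?_, ?_, ?_, ?_⟩
  · simpa using h0
  · by_cases h1 : l' ≤ l
    · have : l' = l := le_antisymm h1 h
      subst this
      simpa using hl
    · simp [h1]
  · intro i
    by_cases h1 : i ≤ l
    · simpa [h1] using hc i
    · simp only [h1, if_false]
      infer_instance
  · intro i _
    by_cases h1 : i + 1 ≤ l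
    · have h2 : i ≤ l := by omega
      simp only [h1, h2, if_true]
      exact hs i (by omega)
    · simp only [h1, if_false]
      by_cases h2 : i ≤ l
      · have h3 : i = l := by omega
        subst h3
        simp only [le_refl, if_true, hl]
        exact ⟨trivial, MsS1.TTq_top n ⊤⟩
      · simp only [h2, if_false]
        exact ⟨le_refl _, MsS1.TTq_top n ⊤⟩

theorem CS.cons {n b : ℕ} {G W : Type} [Group G] [Group W] (M : Subgroup G)
    (hM : M.Characteristic) (hT : TT n M)
    (g : G →* W) (hg : Function.Surjective g) (hk : g.ker = M) (hW : CS n b W) :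
    CS n (b + 1) G := by
  obtain ⟨M2, h0, hl, hc, hs⟩ := hW
  subst hk
  refine ⟨fun i => Nat.casesOn i ⊥ fun j => (M2 j).comap g, rfl, ?_, ?_, ?_⟩
  · show (M2 b).comap g = ⊤
    rw [hl, Subgroup.comap_top]
  · intro i
    cases i with
    | zero => exact (inferInstance : (⊥ : Subgroup G).Characteristic)
    | succ i => exact MsS1.comap_char g hg hM _ (hc i)
  · intro i hi
    cases i with
    | zero =>
      show (⊥ : Subgroup G) ≤ (M2 0).comap g ∧ TTq n ⊥ ((M2 0).comap g)
      refine ⟨bot_le, ?_⟩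
      rw [h0, MonoidHom.comap_bot]
      rcases hT with ⟨p, a, hp, ha, h1⟩ | h1
      · exact Or.inl ⟨p, a, hp, ha, fun x hx => Subgroup.mem_bot.2 (h1 x hx)⟩
      · refine Or.inr ⟨G, inferInstance, MonoidHom.id G, Function.surjective_id, ?_, ?_⟩
        · exact (MonoidHom.ker_eq_bot_iff _).2 Function.injective_id
        · rw [Subgroup.map_id]
          exact h1
    | succ i =>
      show (M2 i).comap g ≤ (M2 (i + 1)).comap g ∧ TTq n ((M2 i).comap g) ((M2 (i + 1)).comap g)
      obtain ⟨h1, h2⟩ := hs i (by omega)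
      exact ⟨Subgroup.comap_mono h1, MsS1.TTq_comap g hg h2⟩

theorem CS.comp {n a b : ℕ} {G W : Type} [Group G] [Group W] (R : Subgroup G)
    (hR : R.Characteristic) (hRS : CS n a R)
    (g : G →* W) (hg : Function.Surjective g) (hk : g.ker = R) (hW : CS n b W) :
    CS n (a + b) G := by
  obtain ⟨M1, h10, h1l, h1c, h1s⟩ := hRS
  obtain ⟨M2, h20, h2l, h2c, h2s⟩ := hW
  subst hk
  have hmid : (M1 a).map g.ker.subtype = (M2 0).comap g := by
    rw [h1l, h20, MonoidHom.comap_bot, ← MonoidHom.range_eq_map, Subgroup.range_subtype]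
  refine ⟨fun i => if i ≤ a then (M1 i).map g.ker.subtype else (M2 (i - a)).comap g, ?_, ?_, ?_, ?_⟩
  · simp [h10]
  · by_cases hb : b = 0
    · subst hb
      simp only [Nat.add_zero, le_refl, if_true]
      rw [hmid, h2l, Subgroup.comap_top]
    · have h1 : ¬ a + b ≤ a := by omega
      simp only [h1, if_false]
      rw [Nat.add_sub_cancel_left, h2l, Subgroup.comap_top]
  · intro i
    by_cases h1 : i ≤ a
    · simp only [h1, if_true]
      exact MsS1.map_char g.ker hR _ (h1c i)
    · simp only [h1, if_false]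
      exact MsS1.comap_char g hg hR _ (h2c _)
  · intro i hi
    by_cases h1 : i + 1 ≤ a
    · have h2 : i ≤ a := by omega
      simp only [h1, h2, if_true]
      obtain ⟨h3, h4⟩ := h1s i (by omega)
      refine ⟨Subgroup.map_mono h3, MsS1.TTq_map g.ker ?_ h4⟩
      have h5 := MsS1.map_char g.ker hR _ (h1c i)
      exact Subgroup.normal_of_characteristic _
    · simp only [h1, if_false]
      have h6 : (if i ≤ a then (M1 i).map g.ker.subtype else (M2 (i - a)).comap g) =
          (M2 (i - a)).comap g := by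
        by_cases h2 : i ≤ a
        · have h3 : i = a := by omega
          subst h3
          simp only [le_refl, if_true]
          rw [hmid, Nat.sub_self]
        · simp only [h2, if_false]
      rw [h6]
      obtain ⟨h3, h4⟩ := h2s (i - a) (by omega)
      have h7 : i + 1 - a = i - a + 1 := by omega
      rw [h7]
      exact ⟨Subgroup.comap_mono h3, MsS1.TTq_comap g hg h4⟩

end Pool.Agent.TH69.Ms.X
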