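import Mathlib
import Pool.Agent.TH69.MsS0

set_option autoImplicit false

/-!
# Bounded series of characteristic subgroups: the soluble base case
-/

namespace Pool.Agent.TH69.Ms.X

open Pool.Agent.H32BU Pool.Agent.TH69.Mtn Pool.Agent.TH69.Ms

/-- statement of `CS.mono` -/
def MonoSt : Prop := ∀ (n l l' : ℕ), l ≤ l' → ∀ (G : Type) [Group G], CS n l G → CS n l' G

/-- statement of `CS.cons` -/
def ConsSt : Prop := ∀ (n b : ℕ) (G W : Type) [Group G] [Group W] (M : Subgroup G),
  M.Characteristic → TT n M → ∀ g : G →* W, Function.Surjective g → g.ker = M → CS n b W →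
    CS n (b + 1) G

/-- the soluble base case, from `CS.mono` and `CS.cons` -/
theorem base_CS' (hmono : MonoSt) (hcons : ConsSt) {n : ℕ} (hn : 1 ≤ n) (m : ℕ) :
    ∀ (G : Type) [Group G], (∀ x : G, x ^ n = 1) →
    (∀ a x z : G, Finite (c3 a x z) ∧ Group.IsSolvable (c3 a x z) ∧ DD (c3 a x z) m = ⊥) →
      CS n (m * (n + 1)) G := by
  induction m with
  | zero =>
    intro G _ _ h3
    have h0 : ∀ a : G, a = 1 := by
      intro a
      have h4 : c3 a a a = ⊥ := (h3 a a a).2.2
      have h5 : a ∈ c3 a a a := Subgroup.subset_closure (by simp)
      rw [h4] at h5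
      exact Subgroup.mem_bot.1 h5
    refine ⟨fun _ => ⊥, rfl, ?_, fun _ => inferInstance, fun i hi => ?_⟩
    · show (⊥ : Subgroup G) = ⊤
      rw [eq_comm, eq_bot_iff]
      intro x _
      rw [h0 x]
      exact Subgroup.one_mem _
    · rw [Nat.zero_mul] at hi
      exact absurd hi (Nat.not_lt_zero _)
  | succ m IH =>
    have inner : ∀ (t : ℕ) (G : Type) [Group G], (∀ x : G, x ^ n = 1) →
        (∀ a x z : G, Finite (c3 a x z) ∧ Group.IsSolvable (c3 a x z) ∧
          DD (c3 a x z) (m + 1) = ⊥) →
        (∀ a x : G, ∀ e ∈ DD (c2 a x) m, ∀ p : ℕ, p.Prime → t ≤ p → e ^ (n / qp p n) = 1) →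
        CS n (m * (n + 1) + t) G := by
      intro t
      induction t with
      | zero =>
        intro G _ hG h3 hP
        rw [Nat.add_zero]
        have htwo : ∀ a x : G, DD (c2 a x) m = ⊥ := by
          intro a x
          rw [eq_bot_iff]
          intro e he
          apply mem_of_parts ⊥ n hn e
          intro p hp
          rw [Subgroup.mem_bot]
          exact hP a x e he p hp (Nat.zero_le _)
        refine IH G hG fun a x z => ⟨(h3 a x z).1, (h3 a x z).2.1, ?_⟩
        have hf := (h3 a x z).1
        have hs := (h3 a x z).2.1
        have h7 : DD (⊤ : Subgroup (c3 a x z)) m = ⊥ := by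
          apply x_TWO (c3 a x z) hf hs m
          intro b y
          have h8 := x_MAPI (c3 a x z) G (c3 a x z).subtype (c3 a x z).subtype_injective
            (c2 b y) m
          rw [map_c2, htwo] at h8
          exact (Subgroup.map_eq_bot_iff_of_injective _ (c3 a x z).subtype_injective).1 h8
        have h11 := x_MAPI (c3 a x z) G (c3 a x z).subtype (c3 a x z).subtype_injective ⊤ m
        rw [h7, Subgroup.map_bot, ← MonoidHom.range_eq_map, Subgroup.range_subtype] at h11
        exact h11.symm
      | succ t ih =>
        intro G _ hG h3 hP
        by_cases hpt : t.Prime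
        · -- `t` is a prime number
          obtain ⟨M, hMdef⟩ : ∃ M : Subgroup G, M = Subgroup.closure (Nset (qp t n) : Set G) :=
            ⟨_, rfl⟩
          have hMc : M.Characteristic := by
            rw [hMdef]
            exact Nset_char _ _
          have hMn : M.Normal := inferInstance
          have hMT : TT n M := by
            refine Or.inl ⟨t, n.factorization t, hpt, Nat.ordProj_dvd n t, ?_⟩
            rw [hMdef]
            exact (x_NS G (qp t n)).1
          have hMs : ∀ e ∈ (Nset (qp t n) : Set G), e ∈ M := by
            intro e he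
            rw [hMdef]
            exact Subgroup.subset_closure he
          have htor : ∀ x : G, IsOfFinOrder x :=
            fun x => isOfFinOrder_iff_pow_eq_one.2 ⟨n, by omega, hG x⟩
          rw [show m * (n + 1) + (t + 1) = (m * (n + 1) + t) + 1 by ring]
          refine hcons n _ G (G ⧸ M) M hMc hMT (QuotientGroup.mk' M)
            (QuotientGroup.mk'_surjective M) (QuotientGroup.ker_mk' M) ?_
          refine ih (G ⧸ M) ?_ ?_ ?_
          · intro x
            obtain ⟨g, rfl⟩ := QuotientGroup.mk_surjective x
            rw [← QuotientGroup.mk_pow, hG g]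
            rfl
          · intro a' x' z'
            obtain ⟨a, rfl⟩ := QuotientGroup.mk_surjective a'
            obtain ⟨x, rfl⟩ := QuotientGroup.mk_surjective x'
            obtain ⟨z, rfl⟩ := QuotientGroup.mk_surjective z'
            obtain ⟨hf, hs, hd⟩ := h3 a x z
            have hmap : (c3 a x z).map (QuotientGroup.mk' M) =
                c3 (a : G ⧸ M) (x : G ⧸ M) (z : G ⧸ M) := map_c3 _ a x z
            rw [← hmap]
            have hsurj := (QuotientGroup.mk' M).subgroupMap_surjective (c3 a x z)
            have hf' : Finite ((c3 a x z).map (QuotientGroup.mk' M)) :=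
              Finite.of_surjective _ hsurj
            have hs' : Group.IsSolvable ((c3 a x z).map (QuotientGroup.mk' M)) :=
              Group.isSolvable_of_surjective hsurj
            refine ⟨hf', hs', ?_⟩
            rw [← x_MAPS G (G ⧸ M) (QuotientGroup.mk' M) htor, hd, Subgroup.map_bot]
          · intro a' x' e' he' p hp hle
            obtain ⟨a, rfl⟩ := QuotientGroup.mk_surjective a'
            obtain ⟨x, rfl⟩ := QuotientGroup.mk_surjective x'
            have hmap : (c2 a x).map (QuotientGroup.mk' M) =
                c2 (a : G ⧸ M) (x : G ⧸ M) := map_c2 _ a x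
            rw [← hmap, ← x_MAPS G (G ⧸ M) (QuotientGroup.mk' M) htor] at he'
            obtain ⟨e, he, rfl⟩ := he'
            rw [← map_pow]
            refine (QuotientGroup.eq_one_iff _).2 ?_
            rcases Nat.eq_or_lt_of_le hle with h4 | h4
            · subst h4
              apply hMs
              have hpe : (e ^ (n / qp t n)) ^ qp t n = 1 := by
                rw [← pow_mul, show n / qp t n * qp t n = n from
                  Nat.div_mul_cancel (Nat.ordProj_dvd n t), hG]
              refine ⟨hpe, ?_⟩
              intro y hy
              obtain ⟨hf, hs, hd⟩ := h3 a x y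
              have hle2 : c2 a x ≤ c3 a x y := by
                unfold c2 c3
                apply Subgroup.closure_mono
                intro w hw
                simp only [Set.mem_insert_iff, Set.mem_singleton_iff] at hw ⊢
                tauto
              have hyin : y ∈ c3 a x y := Subgroup.subset_closure (by simp)
              exact x_COPC G (c3 a x y) hf n hn (fun w _ => hG w) m hd t hp _
                (Subgroup.pow_mem _ ((x_MON G).1 _ _ hle2 m he) _) hpe y hyin hy
            · rw [hP a x e he p hp h4]
              exact M.one_mem
        · refine hmono n (m * (n + 1) + t) (m * (n + 1) + (t + 1)) (by omega) G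
            (ih G hG h3 fun a x e he p hp hle => hP a x e he p hp ?_)
          rcases Nat.eq_or_lt_of_le hle with h4 | h4
          · subst h4
            exact absurd hp hpt
          · exact h4
    intro G _ hG h3
    rw [show (m + 1) * (n + 1) = m * (n + 1) + (n + 1) by ring]
    refine inner (n + 1) G hG h3 fun a x e _ p hp hle => ?_
    have h0 : qp p n = 1 := by
      unfold qp
      rw [Nat.factorization_eq_zero_of_not_dvd
        (fun hd => absurd (Nat.le_of_dvd (by omega) hd) (by omega)), pow_zero]
    rw [h0, Nat.div_one, hG]

end Pool.Agent.TH69.Ms.X
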