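import Mathlib
import Pool.Agent.TH69.MsS0

set_option autoImplicit false

/-!
# Bounded series of characteristic subgroups: the soluble base case
-/

namespace Pool.Agent.TH69.Ms.X

open Pool.Agent.H32BU Pool.Agent.TH69.Mtn Pool.Agent.TH69.Ms

namespace MsS2

/-- an automorphism preserving the kernel induces an automorphism of the image -/
theorem induced {G W : Type} [Group G] [Group W] (g : G →* W) (hg : Function.Surjective g)
    (hM : g.ker.Characteristic) (φ : G ≃* G) : ∃ ψ : W ≃* W, ∀ x, ψ (g x) = g (φ x) := by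
  have hk : ∀ φ : G ≃* G, ∀ x, g x = 1 → g (φ x) = 1 := by
    intro φ x hx
    have h1 := Subgroup.characteristic_iff_map_le.1 hM φ
    exact h1 ⟨x, hx, rfl⟩
  have hwd : ∀ φ : G ≃* G, ∀ x y, g x = g y → g (φ x) = g (φ y) := by
    intro φ x y hxy
    have h1 : g (x * y⁻¹) = 1 := by rw [map_mul, map_inv, hxy, mul_inv_cancel]
    have h2 := hk φ _ h1
    rw [map_mul, map_inv, map_mul, map_inv, mul_inv_eq_one] at h2
    exact h2
  choose s hs using hg
  have key : ∀ φ : G ≃* G, ∀ x, g (φ (s (g x))) = g (φ x) := fun φ x => hwd φ _ _ (hs _)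
  refine ⟨MulEquiv.mk' ⟨fun w => g (φ (s w)), fun w => g (φ.symm (s w)), ?_, ?_⟩ ?_, ?_⟩
  · intro w
    show g (φ.symm (s (g (φ (s w))))) = w
    rw [key φ.symm, MulEquiv.symm_apply_apply, hs]
  · intro w
    show g (φ (s (g (φ.symm (s w))))) = w
    rw [key φ, MulEquiv.apply_symm_apply, hs]
  · intro w w'
    show g (φ (s (w * w'))) = g (φ (s w)) * g (φ (s w'))
    rw [← map_mul, ← map_mul]
    apply hwd φ
    rw [hs, map_mul, hs, hs]
  · intro x
    exact key φ x

theorem comap_char {G W : Type} [Group G] [Group W] (g : G →* W) (hg : Function.Surjective g)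
    (hM : g.ker.Characteristic) (K : Subgroup W) (hK : K.Characteristic) :
    (K.comap g).Characteristic := by
  rw [Subgroup.characteristic_iff_map_le]
  rintro φ _ ⟨x, hx, rfl⟩
  obtain ⟨ψ, hψ⟩ := induced g hg hM φ
  have h1 := Subgroup.characteristic_iff_map_le.1 hK ψ
  have h2 : ψ (g x) ∈ K := h1 ⟨g x, hx, rfl⟩
  rw [hψ] at h2
  exact h2

theorem TTq_top (n : ℕ) {G : Type} [Group G] (A : Subgroup G) : TTq n A A :=
  Or.inl ⟨2, 0, Nat.prime_two, by simp, fun x hx => by simpa using hx⟩

theorem mono' {n l l' : ℕ} (h : l ≤ l') {G : Type} [Group G] (hG : CS n l G) : CS n l' G := by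
  obtain ⟨M, h0, hl, hc, hs⟩ := hG
  refine ⟨fun i => if i ≤ l then M i else ⊤, ?_, ?_, ?_, ?_⟩
  · simpa using h0
  · by_cases h1 : l' ≤ l
    · have : l' = l := le_antisymm h1 h
      subst this
      simpa using hl
    · simp [h1]
  · intro i
    by_cases h1 : i ≤ l
    · simpa [h1] using hc i
    · simp only [h1, if_false]
      infer_instance
  · intro i _
    by_cases h1 : i + 1 ≤ l
    · have h2 : i ≤ l := by omega
      simp only [h1, h2, if_true]
      exact hs i (by omega)
    · simp only [h1, if_false]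
      by_cases h2 : i ≤ l
      · have h3 : i = l := by omega
        subst h3
        simp only [le_refl, if_true, hl]
        exact ⟨trivial, TTq_top n ⊤⟩
      · simp only [h2, if_false]
        exact ⟨le_refl _, TTq_top n ⊤⟩

theorem cons' {n b : ℕ} {G W : Type} [Group G] [Group W] (M : Subgroup G) (hM : M.Characteristic)
    (hT : TT n M) (g : G →* W) (hg : Function.Surjective g) (hk : g.ker = M) (hW : CS n b W) :
    CS n (b + 1) G := by
  obtain ⟨M2, h0, hl, hc, hs⟩ := hW
  subst hk
  refine ⟨fun i => Nat.casesOn i ⊥ fun j => (M2 j).comap g, rfl, ?_, ?_, ?_⟩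
  · show (M2 b).comap g = ⊤
    rw [hl, Subgroup.comap_top]
  · intro i
    cases i with
    | zero => exact (inferInstance : (⊥ : Subgroup G).Characteristic)
    | succ i => exact comap_char g hg hM _ (hc i)
  · intro i hi
    cases i with
    | zero =>
      show (⊥ : Subgroup G) ≤ (M2 0).comap g ∧ TTq n ⊥ ((M2 0).comap g)
      refine ⟨bot_le, ?_⟩
      rw [h0, MonoidHom.comap_bot]
      rcases hT with ⟨p, a, hp, ha, h1⟩ | h1
      · exact Or.inl ⟨p, a, hp, ha, fun x hx => Subgroup.mem_bot.2 (h1 x hx)⟩
      · refine Or.inr ⟨G, inferInstance, MonoidHom.id G, Function.surjective_id, ?_, ?_⟩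
        · exact (MonoidHom.ker_eq_bot_iff _).2 Function.injective_id
        · rw [Subgroup.map_id]
          exact h1
    | succ i =>
      show (M2 i).comap g ≤ (M2 (i + 1)).comap g ∧ TTq n ((M2 i).comap g) ((M2 (i + 1)).comap g)
      obtain ⟨h1, h2⟩ := hs i (by omega)
      refine ⟨Subgroup.comap_mono h1, ?_⟩
      rcases h2 with ⟨p, a, hp, ha, h3⟩ | ⟨Q, _, f, hf, hfk, h3⟩
      · refine Or.inl ⟨p, a, hp, ha, fun x hx => ?_⟩
        rw [Subgroup.mem_comap, map_pow]
        exact h3 _ hx
      · refine Or.inr ⟨Q, inferInstance, f.comp g, hf.comp hg, ?_, ?_⟩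
        · rw [← MonoidHom.comap_ker, hfk]
        · rw [← Subgroup.map_map, Subgroup.map_comap_eq_self_of_surjective hg]
          exact h3

/-- the images in a quotient -/
theorem quot_c3 {n : ℕ} (hn : 1 ≤ n) {m : ℕ} {G : Type} [Group G] (hG : ∀ x : G, x ^ n = 1)
    (h : ∀ a x z : G, Finite (c3 a x z) ∧ Group.IsSolvable (c3 a x z) ∧ DD (c3 a x z) m = ⊥)
    (M : Subgroup G) [M.Normal] :
    ∀ a x z : G ⧸ M, Finite (c3 a x z) ∧ Group.IsSolvable (c3 a x z) ∧ DD (c3 a x z) m = ⊥ := by
  have htor : ∀ x : G, IsOfFinOrder x := fun x => isOfFinOrder_iff_pow_eq_one.2 ⟨n, by omega, hG x⟩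
  intro a' x' z'
  obtain ⟨a, rfl⟩ := QuotientGroup.mk_surjective a'
  obtain ⟨x, rfl⟩ := QuotientGroup.mk_surjective x'
  obtain ⟨z, rfl⟩ := QuotientGroup.mk_surjective z'
  obtain ⟨hf, hs, hd⟩ := h a x z
  have hmap : (c3 a x z).map (QuotientGroup.mk' M) =
      c3 (a : G ⧸ M) (x : G ⧸ M) (z : G ⧸ M) := map_c3 _ a x z
  rw [← hmap]
  have hsurj := (QuotientGroup.mk' M).subgroupMap_surjective (c3 a x z)
  refine ⟨Finite.of_surjective _ hsurj, Group.isSolvable_of_surjective hsurj, ?_⟩
  rw [← x_MAPS G (G ⧸ M) (QuotientGroup.mk' M) htor, hd, Subgroup.map_bot]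

/-- the elements of the last term and `Nset` -/
theorem in_N {n : ℕ} (hn : 1 ≤ n) {m : ℕ} {G : Type} [Group G] (hG : ∀ x : G, x ^ n = 1)
    (h3 : ∀ a x z : G, Finite (c3 a x z) ∧ Group.IsSolvable (c3 a x z) ∧
      DD (c3 a x z) (m + 1) = ⊥) (a x e : G) (he : e ∈ DD (c2 a x) m) {p : ℕ} (hp : p.Prime) :
    e ^ (n / qp p n) ∈ (Nset (qp p n) : Set G) := by
  have hpe : (e ^ (n / qp p n)) ^ qp p n = 1 := by
    rw [← pow_mul, show n / qp p n * qp p n = n from Nat.div_mul_cancel (Nat.ordProj_dvd n p),
      hG]
  refine ⟨hpe, ?_⟩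
  intro y hy
  obtain ⟨hf, hs, hd⟩ := h3 a x y
  have hle : c2 a x ≤ c3 a x y := by
    unfold c2 c3
    apply Subgroup.closure_mono
    intro t ht
    simp only [Set.mem_insert_iff, Set.mem_singleton_iff] at ht ⊢
    tauto
  have hyin : y ∈ c3 a x y := Subgroup.subset_closure (by simp)
  exact x_COPC G (c3 a x y) hf n hn (fun t _ => hG t) m hd p hp _
    (Subgroup.pow_mem _ ((x_MON G).1 _ _ hle m he) _) hpe y hyin hy

end MsS2

/-- a bounded series in the soluble case -/
theorem base_CS {n : ℕ} (hn : 1 ≤ n) (m : ℕ) : ∀ (G : Type) [Group G], (∀ x : G, x ^ n = 1) →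
    (∀ a x z : G, Finite (c3 a x z) ∧ Group.IsSolvable (c3 a x z) ∧ DD (c3 a x z) m = ⊥) →
    CS n (m * (n + 1)) G := by
  induction m with
  | zero =>
    intro G _ hG h
    have h1 : ∀ a : G, a = 1 := by
      intro a
      have h4 : c3 a a a = ⊥ := (h a a a).2.2
      have h5 : a ∈ c3 a a a := Subgroup.subset_closure (by simp)
      rw [h4] at h5
      exact Subgroup.mem_bot.1 h5
    have h2 : (⊥ : Subgroup G) = ⊤ := by
      rw [eq_top_iff]
      intro a _
      exact Subgroup.mem_bot.2 (h1 a)
    refine ⟨fun _ => ⊥, rfl, h2, fun _ => inferInstance, ?_⟩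
    intro i hi
    omega
  | succ m ih =>
    have key : ∀ t : ℕ, ∀ (G : Type) [Group G], (∀ x : G, x ^ n = 1) →
        (∀ a x z : G, Finite (c3 a x z) ∧ Group.IsSolvable (c3 a x z) ∧
          DD (c3 a x z) (m + 1) = ⊥) →
        (∀ a x : G, ∀ e ∈ DD (c2 a x) m, ∀ p : ℕ, p.Prime → t ≤ p → e ^ (n / qp p n) = 1) →
        CS n (t + m * (n + 1)) G := by
      intro t
      induction t with
      | zero =>
        intro G _ hG h3 hE
        rw [zero_add]
        have htwo : ∀ a x : G, DD (c2 a x) m = ⊥ := by
          intro a x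
          rw [eq_bot_iff]
          intro e he
          apply mem_of_parts ⊥ n hn e
          intro p hp
          rw [Subgroup.mem_bot]
          exact hE a x e he p hp (Nat.zero_le _)
        refine ih G hG fun a x z => ⟨(h3 a x z).1, (h3 a x z).2.1, ?_⟩
        have hf := (h3 a x z).1
        have hs := (h3 a x z).2.1
        have h7 : DD (⊤ : Subgroup (c3 a x z)) m = ⊥ := by
          apply x_TWO (c3 a x z) hf hs m
          intro b y
          have h8 := x_MAPI (c3 a x z) G (c3 a x z).subtype (c3 a x z).subtype_injective (c2 b y) m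
          rw [map_c2, htwo] at h8
          exact (Subgroup.map_eq_bot_iff_of_injective _ (c3 a x z).subtype_injective).1 h8
        have h11 := x_MAPI (c3 a x z) G (c3 a x z).subtype (c3 a x z).subtype_injective ⊤ m
        rw [h7, Subgroup.map_bot, ← MonoidHom.range_eq_map, Subgroup.range_subtype] at h11
        exact h11.symm
      | succ t iht =>
        intro G _ hG h3 hE
        by_cases ht : t.Prime
        · obtain ⟨M, hMdef⟩ : ∃ M : Subgroup G, M = Subgroup.closure (Nset (qp t n) : Set G) :=
            ⟨_, rfl⟩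
          have hMc : M.Characteristic := hMdef ▸ Nset_char (qp t n) G
          have hMT : TT n M := by
            rw [hMdef]
            exact Or.inl ⟨t, n.factorization t, ht, Nat.ordProj_dvd n t, (x_NS G (qp t n)).1⟩
          haveI : M.Normal := Subgroup.normal_of_characteristic M
          have hq : CS n (t + m * (n + 1)) (G ⧸ M) := by
            refine iht (G ⧸ M) ?_ (MsS2.quot_c3 hn hG h3 M) ?_
            · intro x'
              obtain ⟨x, rfl⟩ := QuotientGroup.mk_surjective x'
              rw [← QuotientGroup.mk_pow, hG]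
              rfl
            · intro a' x' e' he' p hp htp
              obtain ⟨a, rfl⟩ := QuotientGroup.mk_surjective a'
              obtain ⟨x, rfl⟩ := QuotientGroup.mk_surjective x'
              have htor : ∀ x : G, IsOfFinOrder x :=
                fun x => isOfFinOrder_iff_pow_eq_one.2 ⟨n, by omega, hG x⟩
              have h10 : c2 (a : G ⧸ M) (x : G ⧸ M) = (c2 a x).map (QuotientGroup.mk' M) := by
                rw [map_c2]
                rfl
              rw [h10, ← x_MAPS G (G ⧸ M) (QuotientGroup.mk' M) htor] at he'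
              obtain ⟨e, he, rfl⟩ := he'
              rcases Nat.eq_or_lt_of_le htp with h12 | h12
              · subst h12
                have h13 := MsS2.in_N hn hG h3 a x e he hp
                have h14 : e ^ (n / qp t n) ∈ M := by
                  rw [hMdef]
                  exact Subgroup.subset_closure h13
                have h15 : QuotientGroup.mk' M (e ^ (n / qp t n)) = 1 :=
                  (QuotientGroup.eq_one_iff _).2 h14
                rw [map_pow] at h15
                exact h15
              · have h13 := hE a x e he p hp h12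
                rw [← map_pow, h13, map_one]
          have h16 := MsS2.cons' M hMc hMT (QuotientGroup.mk' M) (QuotientGroup.mk'_surjective M)
            (QuotientGroup.ker_mk' M) hq
          have e1 : t + m * (n + 1) + 1 = t + 1 + m * (n + 1) := by ring
          rw [← e1]
          exact h16
        · refine MsS2.mono' (by omega) (iht G hG h3 ?_)
          intro a x e he p hp htp
          refine hE a x e he p hp ?_
          rcases Nat.eq_or_lt_of_le htp with h12 | h12
          · exact absurd (h12 ▸ hp) ht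
          · exact h12
    intro G _ hG h3
    have h1 := key (n + 1) G hG h3 ?_
    · have e1 : n + 1 + m * (n + 1) = (m + 1) * (n + 1) := by ring
      rw [← e1]
      exact h1
    · intro a x e _ p hp hnp
      have h2 : n.factorization p = 0 := by
        apply Nat.factorization_eq_zero_of_not_dvd
        intro h4
        have := Nat.le_of_dvd (by omega) h4
        omega
      have h4 : qp p n = 1 := by
        unfold qp
        rw [h2, pow_zero]
      rw [h4, Nat.div_one]
      exact hG e

end Pool.Agent.TH69.Ms.X
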