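import Mathlib
import Pool.Agent.TH69.MsS0

set_option autoImplicit false

/-!
# Bounded series of characteristic subgroups: the radical of the quotient by the radical
-/

namespace Pool.Agent.TH69.Ms.X

open Pool.Agent.H32BU Pool.Agent.TH69.Mtn Pool.Agent.TH69.Ms

variable {c n N k : ℕ} {G : Type} [Group G]

theorem RR_quot (hk : 6 ≤ k) (h : HK (c + 1) n N k G) (h2 : TwoGen n) [(RSub hk h h2).Normal] :
    ∀ e ∈ RR c (G ⧸ RSub hk h h2), e = 1 := by
  intro e' he'
  obtain ⟨e, rfl⟩ := QuotientGroup.mk_surjective e'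
  rw [QuotientGroup.eq_one_iff, mem_RSub]
  intro y z
  obtain ⟨M', h1, h3, h4, h5⟩ := he' (y : G ⧸ RSub hk h h2) (z : G ⧸ RSub hk h h2)
  obtain ⟨K, hK⟩ : ∃ K : Subgroup G, K = Subgroup.closure {e, y, z} := ⟨_, rfl⟩
  have hKy : Hy c n K := hK ▸ h.hy3 hk e y z
  have hKfin := hKy.fin
  let π := QuotientGroup.mk' (RSub hk h h2)
  have hmap : K.map π = Subgroup.closure
      {(e : G ⧸ RSub hk h h2), (y : G ⧸ RSub hk h h2), (z : G ⧸ RSub hk h h2)} := by
    rw [hK]
    exact closure_triple π e y z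
  have heK : e ∈ K := hK ▸ mem_three e y z
  rw [← hK]
  refine ⟨K ⊓ M'.comap π, inf_le_left, ?_, ?_, heK, h5⟩
  · intro g hg x hx
    refine ⟨K.mul_mem (K.mul_mem hg hx.1) (K.inv_mem hg), ?_⟩
    show π (g * x * g⁻¹) ∈ M'
    rw [map_mul, map_mul, map_inv]
    exact h3 (π g) (hmap ▸ ⟨g, hg, rfl⟩) (π x) hx.2
  · obtain ⟨M0, h6, h7, h8, h9⟩ := InO.exists_max c K
    let L : Subgroup G := K ⊓ M'.comap π
    let f : L →* M' := (π.comp L.subtype).codRestrict M' fun x => x.2.2
    refine Sm.ext f.ker ?_ ?_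
    · have h10 : ∀ x : f.ker, ((x : L) : G) ∈ M0 := by
        intro x
        rw [← h9]
        refine RR.inO h2 hKy x.1.2.1 ?_
        have h11 : π x.1.1 = 1 := congrArg Subtype.val ((MonoidHom.mem_ker (f := f)).1 x.2)
        exact (QuotientGroup.eq_one_iff _).1 h11
      let j : f.ker →* M0 := (L.subtype.comp f.ker.subtype).codRestrict M0 h10
      refine h8.of_inj j ?_
      intro a b hab
      have h12 := congrArg (fun w : M0 => (w : G)) hab
      exact Subtype.ext (Subtype.ext h12)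
    · exact h4.of_inj (QuotientGroup.kerLift f) (QuotientGroup.kerLift_injective f)

end Pool.Agent.TH69.Ms.X
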