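import Mathlib
import Pool.Agent.TH69.MsS0

set_option autoImplicit false

/-!
# Bounded series of characteristic subgroups: the quotient by the layer
-/

namespace Pool.Agent.TH69.Ms.X

open Pool.Agent.H32BU Pool.Agent.TH69.Mtn Pool.Agent.TH69.Ms

variable {c n N k : ℕ} {G : Type} [Group G]

theorem HK_quot_VV (hc : 0 < c) (hk : 6 ≤ k) (h2 : TwoGen n) (h : HK (c + 1) n N k G)
    (hL : ∀ s : Finset G, s.card ≤ k → L1 c (Subgroup.closure (s : Set G)))
    (hR : ∀ e ∈ RR c G, e = 1) [(sSup (VV c G) : Subgroup G).Normal] :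
    HK c n N k (G ⧸ (sSup (VV c G) : Subgroup G)) := by
  classical
  obtain ⟨V, hV⟩ : ∃ V : Subgroup G, V = sSup (VV c G) := ⟨_, rfl⟩
  have hq := h.quot (sSup (VV c G) : Subgroup G)
  refine ⟨hq.exp, fun s hs => ⟨(hq.gen s hs).1, (hq.gen s hs).2.1, ?_⟩, hq.tg⟩
  let π := QuotientGroup.mk' (sSup (VV c G) : Subgroup G)
  obtain ⟨t, ht⟩ : ∃ t : Finset G,
      t = s.image (fun q : G ⧸ (sSup (VV c G) : Subgroup G) => (Quotient.out q : G)) := ⟨_, rfl⟩
  have hcard : t.card ≤ k := by
    rw [ht]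
    exact Finset.card_image_le.trans hs
  have et : (Subgroup.closure (t : Set G)).map π =
      Subgroup.closure (s : Set (G ⧸ (sSup (VV c G) : Subgroup G))) := by
    rw [MonoidHom.map_closure]
    congr 1
    ext q
    rw [ht]
    simp only [Finset.coe_image, Set.mem_image, Finset.mem_coe]
    constructor
    · rintro ⟨_, ⟨q', hq', rfl⟩, rfl⟩
      have h3 : π (Quotient.out q') = q' := QuotientGroup.out_eq' q'
      rwa [h3]
    · intro hq
      exact ⟨_, ⟨q, hq, rfl⟩, QuotientGroup.out_eq' q⟩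
  rw [← et]
  have hK := h.hy t hcard
  obtain ⟨K, hKdef⟩ : ∃ K : Subgroup G, K = Subgroup.closure (t : Set G) := ⟨_, rfl⟩
  rw [← hKdef] at hK ⊢
  by_contra hns
  have hKfin := hK.fin
  obtain ⟨𝒮, h𝒮⟩ : ∃ 𝒮 : Set (Subgroup G), 𝒮 = {A | A ≤ K ∧ ¬ Sm c (A.map π)} := ⟨_, rfl⟩
  have hfin : 𝒮.Finite := by
    have h1 : (Set.range fun A : Subgroup K => A.map K.subtype).Finite := Set.finite_range _
    refine h1.subset ?_
    intro A hA
    rw [h𝒮] at hA
    refine ⟨A.subgroupOf K, ?_⟩
    simp only [Subgroup.subgroupOf_map_subtype]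
    exact inf_eq_left.2 hA.1
  obtain ⟨A, hA, hmin⟩ := hfin.exists_minimal ⟨K, by rw [h𝒮]; exact ⟨le_rfl, hns⟩⟩
  rw [h𝒮] at hA
  obtain ⟨hAK, hAns⟩ := hA
  have hAmin : ∀ B : Subgroup G, B ≤ A → ¬ Sm c (B.map π) → A ≤ B := by
    intro B hB hBns
    exact hmin (by rw [h𝒮]; exact ⟨hB.trans hAK, hBns⟩) hB
  have hAfin : Finite A := Finite.of_injective _ (Subgroup.inclusion_injective hAK)
  have hAhy : Hy c n A := hK.of_inj (Subgroup.inclusion hAK) (Subgroup.inclusion_injective hAK)
  have hPsurj : Function.Surjective (π.subgroupMap A) := π.subgroupMap_surjective A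
  have hPhy : Hy c n (A.map π) := hAhy.of_surj _ hPsurj
  -- `A` is perfect
  have hpf : Pf c A := by
    intro Q _ hQfin hQ g a
    by_contra hga
    have h3 : Sm c ((g.ker.map A.subtype).map π) := by
      by_contra h5
      have h6 := hAmin _ (Subgroup.map_subtype_le g.ker) h5
      obtain ⟨y, hy, hya⟩ := h6 a.2
      have : y = a := Subtype.ext hya
      rw [← this] at hga
      exact hga hy
    apply hAns
    -- the image of the kernel
    let p : A →* A.map π := π.subgroupMap A
    have hNn : (g.ker.map p).Normal := Subgroup.Normal.map inferInstance p hPsurj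
    refine Sm.ext (g.ker.map p) ?_ ?_
    · have h10 : ∀ x : g.ker.map p, ((x : A.map π) : G ⧸ (sSup (VV c G) : Subgroup G)) ∈
          (g.ker.map A.subtype).map π := by
        rintro ⟨_, ⟨y, hy, rfl⟩⟩
        exact ⟨y.1, ⟨y, hy, rfl⟩, rfl⟩
      let j : (g.ker.map p) →* ((g.ker.map A.subtype).map π) :=
        ((A.map π).subtype.comp (g.ker.map p).subtype).codRestrict _ h10
      refine h3.of_inj j ?_
      intro a b hab
      have h12 := congrArg (fun w : (g.ker.map A.subtype).map π =>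
        (w : G ⧸ (sSup (VV c G) : Subgroup G))) hab
      exact Subtype.ext (Subtype.ext h12)
    · have h11 : Sm c (A ⧸ g.ker) :=
        hQ.of_inj (QuotientGroup.kerLift g) (QuotientGroup.kerLift_injective g)
      let q : A ⧸ g.ker →* (A.map π) ⧸ (g.ker.map p) :=
        QuotientGroup.lift g.ker ((QuotientGroup.mk' (g.ker.map p)).comp p) (by
          intro x hx
          show (QuotientGroup.mk' (g.ker.map p)) (p x) = 1
          exact (QuotientGroup.eq_one_iff _).2 ⟨x, hx, rfl⟩)
      refine h11.of_surj q ?_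
      intro w
      obtain ⟨w, rfl⟩ := QuotientGroup.mk_surjective w
      obtain ⟨x, rfl⟩ := hPsurj w
      exact ⟨(x : A ⧸ g.ker), rfl⟩
  -- a section
  have hsec := hAns
  unfold Sm at hsec
  push Not at hsec
  obtain ⟨S, hS, hS1, hS2, X, f, hf, hcard'⟩ := hsec
  have hcardS : Nat.card S < c + 1 := hPhy.sm S hS1 hS2 X f hf
  have hSbg : Bg c S := ⟨hS1, hS2, by omega⟩
  obtain ⟨s1, s2, hs12⟩ := hPhy.tg S hS1 hS2 X f hf
  obtain ⟨x1, hx1⟩ := hf s1
  obtain ⟨x2, hx2⟩ := hf s2
  obtain ⟨a1, ha1⟩ := hPsurj x1.1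
  obtain ⟨a2, ha2⟩ := hPsurj x2.1
  have hAgen0 : A = Subgroup.closure {a1.1, a2.1} := by
    have hle : Subgroup.closure {a1.1, a2.1} ≤ A := by
      rw [Subgroup.closure_le]
      rintro _ (rfl | rfl)
      · exact a1.2
      · exact a2.2
    refine le_antisymm (hAmin _ hle ?_) hle
    intro hsm
    -- the image of this subgroup is mapped onto `S`
    let Y : Subgroup (A.map π) := Subgroup.closure {x1.1, x2.1}
    have hYX : Y ≤ X := by
      rw [Subgroup.closure_le]
      rintro _ (rfl | rfl)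
      · exact x1.2
      · exact x2.2
    have hsurj : Function.Surjective (f.comp (Subgroup.inclusion hYX)) := by
      rw [← MonoidHom.range_eq_top, eq_top_iff, ← hs12, Subgroup.closure_le]
      rintro _ (rfl | rfl)
      · exact ⟨⟨x1.1, Subgroup.subset_closure (by simp)⟩, hx1⟩
      · exact ⟨⟨x2.1, Subgroup.subset_closure (by simp)⟩, hx2⟩
    have hmapY : Y.map (A.map π).subtype = (Subgroup.closure {a1.1, a2.1}).map π := by
      rw [MonoidHom.map_closure, MonoidHom.map_closure, Set.image_pair, Set.image_pair]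
      have e1 : (A.map π).subtype x1.1 = π a1.1 := by rw [← ha1]; rfl
      have e2 : (A.map π).subtype x2.1 = π a2.1 := by rw [← ha2]; rfl
      rw [e1, e2]
    rw [← hmapY] at hsm
    have h5 : Sm c Y := hsm.of_inj
      (Y.equivMapOfInjective (A.map π).subtype (A.map π).subtype_injective).toMonoidHom
      (Y.equivMapOfInjective (A.map π).subtype (A.map π).subtype_injective).injective
    exact Sm.not_Bg hSbg (h5.of_surj _ hsurj)
  have hAgen : A = Subgroup.closure {a1.1, a2.1, a1.1, a2.1} := by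
    refine hAgen0.trans ?_
    congr 1
    ext z
    simp only [Set.mem_insert_iff, Set.mem_singleton_iff]
    tauto
  obtain ⟨u1, u2, hu⟩ : ∃ u1 u2 : G, A = Subgroup.closure {u1, u2, u1, u2} := ⟨_, _, hAgen⟩
  have key : ∀ e : G, InO c A e → e = 1 := by
    rw [hu] at hpf ⊢
    exact fun e he => four_triv hc hk h hL hR hpf he
  have hLA : L1 c A := by
    rw [hu]
    exact l1_four hk hL u1 u2 u1 u2
  have hEE : EE c A = ⊤ := by
    refine pf_struct' hAhy hLA ?_ hpf
    intro e he
    exact Subtype.ext (key e.1 (inO_top e.2 he))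
  have hAV : A ≤ sSup (VV c G) := by
    have h7 : EE c A ≤ (sSup (VV c G) : Subgroup G).comap A.subtype := by
      refine sSup_le fun T hT => ?_
      rw [← Subgroup.map_le_iff_le_comap]
      refine le_sSup ⟨Bg.of_equiv (T.equivMapOfInjective _ A.subtype_injective) hT.2, ?_⟩
      exact gen_map A.subtype (hAhy.tg.self T hT.2.1 hT.2.2.1)
    rw [hEE] at h7
    intro a ha
    exact h7 (Subgroup.mem_top (⟨a, ha⟩ : A))
  have htriv : ∀ x : A.map π, x = 1 := by
    rintro ⟨_, ⟨a, ha, rfl⟩⟩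
    apply Subtype.ext
    exact (QuotientGroup.eq_one_iff a).2 (hAV ha)
  obtain ⟨u, v, huv⟩ := hS2
  obtain ⟨x, rfl⟩ := hf u
  obtain ⟨y, rfl⟩ := hf v
  apply huv
  have e1 : x = y := Subtype.ext ((htriv x.1).trans (htriv y.1).symm)
  rw [e1]

end Pool.Agent.TH69.Ms.X
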