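import Mathlib
import Pool.Agent.H32BU.Defs

set_option autoImplicit false

/-!
# Groups of exponent `n` with nonsoluble finite subgroups: definitions
-/

namespace Pool.Agent.TH69.Ns

/-- all nonabelian simple sections have order less than `c` (used for finite groups) -/
def Sm (c : ℕ) (K : Type) [Group K] : Prop :=
  ∀ (S : Type) [Group S], IsSimpleGroup S → (∃ a b : S, a * b ≠ b * a) →
    ∀ (X : Subgroup K) (f : X →* S), Function.Surjective f → Nat.card S < c

/-- nonabelian simple groups of order `c` -/
def Bg (c : ℕ) (T : Type) [Group T] : Prop :=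
  IsSimpleGroup T ∧ (∃ a b : T, a * b ≠ b * a) ∧ Nat.card T = c

/-- `e` lies in a subgroup with `Sm c` which is normal in `H` -/
def InO (c : ℕ) {G : Type} [Group G] (H : Subgroup G) (e : G) : Prop :=
  ∃ N : Subgroup G, N ≤ H ∧ (∀ h ∈ H, ∀ x ∈ N, h * x * h⁻¹ ∈ N) ∧ Sm c N ∧ e ∈ N

/-- all homomorphisms to finite groups with `Sm c` are trivial -/
def Pf (c : ℕ) (A : Type) [Group A] : Prop :=
  ∀ (Q : Type) [Group Q], Finite Q → Sm c Q → ∀ (g : A →* Q) (a : A), g a = 1

/-- components: subnormal nonabelian simple subgroups of order `c` -/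
def Cp (c : ℕ) {K : Type} [Group K] (T : Subgroup K) : Prop := T.IsSubnormal ∧ Bg c T

/-- the subgroup generated by the components -/
def EE (c : ℕ) (K : Type) [Group K] : Subgroup K := sSup {T : Subgroup K | Cp c T}

/-- elementwise commuting subgroups -/
def Cm {G : Type} [Group G] (A B : Subgroup G) : Prop := ∀ a ∈ A, ∀ b ∈ B, a * b = b * a

/-- finite simple groups of exponent dividing `n` are generated by two elements -/
def TwoGen (n : ℕ) : Prop :=
  ∀ (S : Type) [Group S], Finite S → IsSimpleGroup S → (∀ x : S, x ^ n = 1) →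
    ∃ a b : S, Subgroup.closure {a, b} = ⊤

/-- some prime dividing `c` divides `n` exactly once -/
def OneP (c n : ℕ) : Prop := ∃ p m : ℕ, p.Prime ∧ p ∣ c ∧ n = p * m ∧ Nat.Coprime p m

/-- the standing assumptions on a finite group -/
structure Hy (c n : ℕ) (K : Type) [Group K] : Prop where
  fin : Finite K
  exp : ∀ x : K, x ^ n = 1
  sm : Sm (c + 1) K

end Pool.Agent.TH69.Ns
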