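import Mathlib
import Pool.Agent.TH69.NsC
import Pool.Agent.TH69.NsD
import Pool.Agent.TH69.NsE
import Pool.Agent.TH69.NsFaux

set_option autoImplicit false

/-!
# Groups of exponent `n` with nonsoluble finite subgroups, section F: the group modulo its components
-/

namespace Pool.Agent.TH69.Ns

open NsFaux

theorem EE_normal (c : ℕ) (K : Type) [Group K] : (EE c K).Normal :=
  EE_normal_of c K fun _ hT g => hT.conj g

theorem not_kill {c n : ℕ} (hc : 0 < c) (hP : OneP c n) (h2 : TwoGen n) {K : Type} [Group K]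
    (hK : Hy c n K) (hO : ∀ e : K, InO c ⊤ e → e = 1) (X : Subgroup K) (hX : EE c K ≤ X)
    {S : Type} [Group S] (hS : Bg c S) (f : X →* S) (hf : Function.Surjective f) :
    ∃ x : X, x.1 ∈ EE c K ∧ f x ≠ 1 := by
  have := hK.fin
  refine not_kill_of hc hP hK (fun T S hT hS => hT.eq_or_cm hS) (fun T hT g => hT.conj g)
    (fun e he => cent_triv hK hO e he) (fun T hT => card_mulAut hc hT.2 ?_)
    (fun p m hp hpc hn hcop T hT x hx => norm_of_pow hp hpc hn hcop hK.exp hT hx) X hX hS f hf
  exact h2 T inferInstance hT.2.1 fun x => Subtype.ext (hK.exp x.1)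

end Pool.Agent.TH69.Ns
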