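import Mathlib
import Pool.Agent.TH69.NsDefs

set_option autoImplicit false

/-!
# The criterion of section H, with the three lemmas of sections A, B, C as hypotheses
-/

namespace Pool.Agent.TH69.Ns

namespace H0

theorem sm_of_inj {c : ℕ} {A B : Type} [Group A] [Group B] (f : A →* B)
    (hf : Function.Injective f) (h : Sm c B) : Sm c A := by
  intro S _ hS hab X g hg
  have e := Subgroup.equivMapOfInjective X f hf
  exact h S hS hab (X.map f) (g.comp e.symm.toMonoidHom)
    (hg.comp e.symm.surjective)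

theorem sm_of_surj {c : ℕ} {A B : Type} [Group A] [Group B] (f : A →* B)
    (hf : Function.Surjective f) (h : Sm c A) : Sm c B := by
  intro S _ hS hab X g hg
  exact h S hS hab (X.comap f) (g.comp (f.subgroupComap X))
    (hg.comp (f.subgroupComap_surjective_of_surjective X hf))

theorem not_sm {c : ℕ} {T : Type} [Group T] (h : Bg c T) : ¬ Sm c T := by
  intro hs
  have := hs T h.1 h.2.1 ⊤ (Subgroup.topEquiv (G := T)).toMonoidHom
    (Subgroup.topEquiv (G := T)).surjective
  rw [h.2.2] at this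
  exact lt_irrefl _ this

theorem inO_map {c : ℕ} {A B : Type} [Group A] [Group B] (f : A →* B) {H : Subgroup A} {e : A}
    (h : InO c H e) : InO c (H.map f) (f e) := by
  obtain ⟨N, h1, h2, h3, h4⟩ := h
  refine ⟨N.map f, Subgroup.map_mono h1, ?_, ?_, Subgroup.mem_map_of_mem f h4⟩
  · rintro _ ⟨a, ha, rfl⟩ _ ⟨b, hb, rfl⟩
    exact ⟨a * b * a⁻¹, h2 a ha b hb, by simp⟩
  · exact sm_of_surj (f.subgroupMap N) (f.subgroupMap_surjective N) h3

end H0

open H0 in
theorem crit_of {c n : ℕ}
    (exists_quot : ∀ {K : Type} [Group K], Hy c n K →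
      ∃ (Q : Type) (_ : Group Q) (f : K →* Q), Function.Surjective f ∧ Hy c n Q ∧
        (∀ e : Q, InO c ⊤ e → e = 1) ∧ ∀ e : K, InO c ⊤ e ↔ f e = 1)
    (le_or_cm : ∀ {K : Type} [Group K] (T S : Subgroup K), T.IsSubnormal → S.IsSubnormal →
      IsSimpleGroup T → (∃ a b : T, a * b ≠ b * a) → T ≤ S ∨ Cm T S)
    (cent_triv : ∀ {K : Type} [Group K], Hy c n K → (∀ e : K, InO c ⊤ e → e = 1) → ∀ e : K,
      (∀ T : Subgroup K, Cp c T → ∀ t ∈ T, e * t = t * e) → e = 1)
    (h2 : TwoGen n) {K : Type} [Group K] (hK : Hy c n K) (e : K)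
    (h : ∀ y z : K, InO c (Subgroup.closure {e, y, z}) e) : InO c ⊤ e := by
  obtain ⟨Q, _, f, hf, hQ, hO, hker⟩ := exists_quot hK
  rw [hker]
  refine cent_triv hQ hO (f e) ?_
  intro T hT t ht
  obtain ⟨hTn, hTs, hTab, hTc⟩ := hT
  have hfin : Finite Q := hQ.fin
  obtain ⟨a, b, hab⟩ := h2 T inferInstance hTs (fun x => Subtype.ext (by
    rw [Subgroup.coe_pow]; exact hQ.exp x))
  obtain ⟨y, hy⟩ := hf a
  obtain ⟨z, hz⟩ := hf b
  have hT' : T = Subgroup.closure {(a : Q), (b : Q)} := by
    have h3 := congrArg (Subgroup.map T.subtype) hab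
    rw [MonoidHom.map_closure, ← MonoidHom.range_eq_map, Subgroup.range_subtype] at h3
    rw [Set.image_pair] at h3
    exact h3.symm
  have hH : (Subgroup.closure {e, y, z}).map f = Subgroup.closure {f e, (a : Q), (b : Q)} := by
    rw [MonoidHom.map_closure]
    congr 1
    rw [Set.image_insert_eq, Set.image_pair, hy, hz]
  have h4 := inO_map f (h y z)
  rw [hH] at h4
  set H : Subgroup Q := Subgroup.closure {f e, (a : Q), (b : Q)} with hHd
  have hTH : T ≤ H := by
    rw [hT', hHd]
    exact Subgroup.closure_mono (Set.subset_insert _ _)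
  obtain ⟨N, hNH, hNn, hNs, hNe⟩ := h4
  have hNorm : (N.subgroupOf H).Normal := by
    constructor
    intro x hx g
    rw [Subgroup.mem_subgroupOf] at hx ⊢
    simpa using hNn g g.2 x hx
  let eT : T.subgroupOf H ≃* T := Subgroup.subgroupOfEquivOfLe hTH
  have hsimple : IsSimpleGroup (T.subgroupOf H) := by
    have : Nontrivial (T.subgroupOf H) := eT.toEquiv.nontrivial
    exact IsSimpleGroup.isSimpleGroup_of_surjective eT.symm.toMonoidHom eT.symm.surjective
  have hnab : ∃ u v : T.subgroupOf H, u * v ≠ v * u := by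
    obtain ⟨u, v, huv⟩ := hTab
    refine ⟨eT.symm u, eT.symm v, fun hc => huv ?_⟩
    rw [← map_mul, ← map_mul] at hc
    exact eT.symm.injective hc
  rcases le_or_cm (T.subgroupOf H) (N.subgroupOf H) hTn.subgroupOf hNorm.isSubnormal hsimple hnab
    with h5 | h5
  · exfalso
    have hTN : T ≤ N := by
      intro x hx
      have := h5 (show (⟨x, hTH hx⟩ : H) ∈ T.subgroupOf H from hx)
      exact this
    exact not_sm ⟨hTs, hTab, hTc⟩ (sm_of_inj (Subgroup.inclusion hTN)
      (Subgroup.inclusion_injective hTN) hNs)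
  · have h6 := h5 ⟨t, hTH ht⟩ ht ⟨f e, hNH hNe⟩ hNe
    have h7 := congrArg Subtype.val h6
    exact h7.symm

end Pool.Agent.TH69.Ns
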