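import Mathlib
import Pool.Agent.TH69.NsG
import Pool.Agent.TH69.NsH

set_option autoImplicit false

/-!
# Groups of exponent `n` with nonsoluble finite subgroups: more definitions
-/

namespace Pool.Agent.TH69.Ns

/-- `f` is the canonical homomorphism from `K` to `K` modulo its largest normal subgroup with
`Sm c` -/
structure Cq (c : ℕ) {K Q : Type} [Group K] [Group Q] (f : K →* Q) : Prop where
  surj : Function.Surjective f
  ker : ∀ e : K, InO c ⊤ e ↔ f e = 1
  triv : ∀ e : Q, InO c ⊤ e → e = 1

/-- `e` lies in the first layer `F` of `K`: the image of `e` in `K / O` is a product of elements of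
components -/
def InF (c : ℕ) {K : Type} [Group K] (e : K) : Prop :=
  ∃ (Q : Type) (_ : Group Q) (f : K →* Q), Cq c f ∧ f e ∈ EE c Q

/-- `g` acts on `T` as an inner automorphism -/
def ActsInn {K : Type} [Group K] (T : Subgroup K) (g : K) : Prop :=
  ∃ t ∈ T, ∀ s ∈ T, g * s * g⁻¹ = t * s * t⁻¹

/-- at most `j` layers -/
def Tl (c : ℕ) : ℕ → (K : Type) → Group K → Prop
  | 0, K, i => @Sm c K i
  | j + 1, K, i => ∃ (W : Type) (iW : Group W) (f : K →* W), Function.Surjective f ∧
      (∀ e : K, InF c e ↔ f e = 1) ∧ Tl c j W iW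

/-- at most `j` layers -/
abbrev TL (c j : ℕ) (K : Type) [i : Group K] : Prop := Tl c j K i

end Pool.Agent.TH69.Ns
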