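import Mathlib
import Pool.Agent.TH69.NsDefs

set_option autoImplicit false

/-!
# Local finiteness of the subgroup generated by the components
-/

namespace Pool.Agent.TH69.Ns

namespace NsI

variable {G : Type} [Group G]

theorem cm_symm {A B : Subgroup G} (h : Cm A B) : Cm B A := fun b hb a ha => (h a ha b hb).symm

theorem cm_mono {A B A' B' : Subgroup G} (h : Cm A B) (hA : A' ≤ A) (hB : B' ≤ B) : Cm A' B' :=
  fun a ha b hb => h a (hA ha) b (hB hb)

theorem cm_iff {A B : Subgroup G} : Cm A B ↔ A ≤ Subgroup.centralizer (B : Set G) := by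
  constructor
  · intro h a ha
    rw [Subgroup.mem_centralizer_iff]
    intro b hb
    exact (h a ha b hb).symm
  · intro h a ha b hb
    exact ((Subgroup.mem_centralizer_iff.1 (h ha)) b hb).symm

theorem cm_sSup {A : Subgroup G} {D : Set (Subgroup G)} (h : ∀ B ∈ D, Cm B A) :
    Cm (sSup D) A :=
  cm_iff.2 (sSup_le fun B hB => cm_iff.1 (h B hB))

theorem cm_sup {A B C : Subgroup G} (h : Cm A C) (h' : Cm B C) : Cm (A ⊔ B) C :=
  cm_iff.2 (sup_le (cm_iff.1 h) (cm_iff.1 h'))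

theorem not_cm_self {c : ℕ} {E : Subgroup G} (h : Bg c E) : ¬ Cm E E := by
  intro h'
  obtain ⟨a, b, hab⟩ := h.2.1
  exact hab (Subtype.ext (h' a.1 a.2 b.1 b.2))

theorem simple_dich {T N : Subgroup G} (hT : IsSimpleGroup T)
    (hn : ∀ g ∈ T, ∀ x ∈ N, x ∈ T → g * x * g⁻¹ ∈ N) : N ⊓ T = ⊥ ∨ T ≤ N := by
  have := hT
  have hN : (N.subgroupOf T).Normal := ⟨fun x hx g => by
    rw [Subgroup.mem_subgroupOf] at hx ⊢
    exact hn g g.2 x hx x.2⟩
  rcases hN.eq_bot_or_eq_top with h | h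
  · left
    exact (Subgroup.subgroupOf_eq_bot.1 h).eq_bot
  · right
    exact Subgroup.subgroupOf_eq_top.1 h

theorem eq_or_cm {c : ℕ} (hc : 0 < c) {E E' : Subgroup G} (hE : Bg c E) (hE' : Bg c E')
    (h1 : ∀ g ∈ E', ∀ x ∈ E, g * x * g⁻¹ ∈ E) (h2 : ∀ g ∈ E, ∀ x ∈ E', g * x * g⁻¹ ∈ E') :
    E = E' ∨ Cm E E' := by
  rcases simple_dich (T := E) (N := E') hE.1 (fun g hg x hx _ => h2 g hg x hx) with h | h
  · right
    intro a ha b hb
    have h3 : a * b * a⁻¹ * b⁻¹ ∈ E' ⊓ E := by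
      refine ⟨E'.mul_mem (h2 a ha b hb) (E'.inv_mem hb), ?_⟩
      have h4 : a * b * a⁻¹ * b⁻¹ = a * (b * a⁻¹ * b⁻¹) := by group
      rw [h4]
      exact E.mul_mem ha (h1 b hb _ (E.inv_mem ha))
    rw [h, Subgroup.mem_bot] at h3
    exact mul_inv_eq_iff_eq_mul.1 (mul_inv_eq_one.1 h3)
  · left
    have : Finite E' := Nat.finite_of_card_ne_zero (by rw [hE'.2.2]; omega)
    exact Subgroup.eq_of_le_of_card_ge h (by rw [hE.2.2, hE'.2.2])

theorem conj_cent {F : Subgroup G} {g x : G} (hg : ∀ y ∈ F, g⁻¹ * y * g ∈ F)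
    (hx : x ∈ Subgroup.centralizer (F : Set G)) :
    g * x * g⁻¹ ∈ Subgroup.centralizer (F : Set G) := by
  rw [Subgroup.mem_centralizer_iff] at hx ⊢
  intro y hy
  have h := hx _ (hg y hy)
  calc y * (g * x * g⁻¹) = g * (g⁻¹ * y * g * x) * g⁻¹ := by group
    _ = g * (x * (g⁻¹ * y * g)) * g⁻¹ := by rw [h]
    _ = g * x * g⁻¹ * y := by group

theorem at_most_one {c : ℕ} {A C F1 F2 : Subgroup G} (hC : Bg c C) (hF1 : Bg c F1)
    (hF2 : Bg c F2) (l1 : F1 ≤ A ⊔ C) (l2 : F2 ≤ A ⊔ C)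
    (n1 : ∀ g ∈ A ⊔ C, ∀ x ∈ F1, g * x * g⁻¹ ∈ F1)
    (n2 : ∀ g ∈ A ⊔ C, ∀ x ∈ F2, g * x * g⁻¹ ∈ F2)
    (h12 : Cm F1 F2) (hA1 : Cm A F1) (hA2 : Cm A F2) : False := by
  have m1 : ∀ g ∈ C, ∀ x ∈ Subgroup.centralizer (F1 : Set G),
      g * x * g⁻¹ ∈ Subgroup.centralizer (F1 : Set G) := by
    intro g hg x hx
    refine conj_cent (fun y hy => ?_) hx
    have := n1 g⁻¹ ((A ⊔ C).inv_mem (le_sup_right (a := A) hg)) y hy
    rwa [inv_inv] at this
  have m2 : ∀ g ∈ C, ∀ x ∈ Subgroup.centralizer (F2 : Set G),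
      g * x * g⁻¹ ∈ Subgroup.centralizer (F2 : Set G) := by
    intro g hg x hx
    refine conj_cent (fun y hy => ?_) hx
    have := n2 g⁻¹ ((A ⊔ C).inv_mem (le_sup_right (a := A) hg)) y hy
    rwa [inv_inv] at this
  have k1 : Subgroup.centralizer (F2 : Set G) ⊓ C = ⊥ := by
    rcases simple_dich (T := C) (N := Subgroup.centralizer (F2 : Set G)) hC.1
      (fun g hg x hx _ => m2 g hg x hx) with h | h
    · exact h
    · exfalso
      have h3 : Cm (A ⊔ C) F2 := cm_sup hA2 (cm_iff.2 h)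
      exact not_cm_self hF2 (cm_mono h3 l2 le_rfl)
  apply not_cm_self hF1
  set Z : Subgroup G := Subgroup.centralizer (F1 : Set G) ⊓ Subgroup.centralizer (F2 : Set G)
    with hZ
  have hCZ : C ≤ Subgroup.normalizer (Z : Set G) := by
    intro g hg
    rw [Subgroup.mem_normalizer_iff]
    intro x
    constructor
    · intro hx
      exact ⟨m1 g hg x hx.1, m2 g hg x hx.2⟩
    · intro hx
      have e1 : g⁻¹ * (g * x * g⁻¹) * g⁻¹⁻¹ = x := by group
      rw [← e1]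
      exact ⟨m1 g⁻¹ (C.inv_mem hg) _ hx.1, m2 g⁻¹ (C.inv_mem hg) _ hx.2⟩
  have hAZ : A ≤ Z := le_inf (cm_iff.1 hA1) (cm_iff.1 hA2)
  rw [cm_iff]
  intro f hf
  have hf' : f ∈ ((Z ⊔ C : Subgroup G) : Set G) := (sup_le_sup_right hAZ C) (l1 hf)
  rw [Subgroup.coe_mul_of_right_le_normalizer_left Z C hCZ] at hf'
  obtain ⟨z, hz, s, hs, rfl⟩ := hf'
  have hs' : s ∈ Subgroup.centralizer (F2 : Set G) ⊓ C := by
    refine ⟨?_, hs⟩
    have e1 : s = z⁻¹ * (z * s) := by group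
    rw [e1]
    exact Subgroup.mul_mem _ (Subgroup.inv_mem _ hz.2) (cm_iff.1 h12 hf)
  rw [k1, Subgroup.mem_bot] at hs'
  subst hs'
  show z * 1 ∈ _
  rw [mul_one]
  exact hz.1

/-- the key step: adding one subgroup to a commuting family -/
theorem step {c : ℕ} (hc : 0 < c) (V : Set (Subgroup G))
    (h1 : ∀ T ∈ V, Bg c T)
    (h2 : ∀ A ∈ V, ∀ C ∈ V, ∃ D : Set (Subgroup G), D.Finite ∧ D ⊆ V ∧ sSup D = A ⊔ C ∧
      ∀ E ∈ D, ∀ g ∈ A ⊔ C, ∀ x ∈ E, g * x * g⁻¹ ∈ E)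
    (h3 : ∀ A ∈ V, ∀ B ∈ V, ∀ C ∈ V, Cm A B → ∀ E ∈ V, E ≤ A ⊔ C →
      (∀ g ∈ A ⊔ C, ∀ x ∈ E, g * x * g⁻¹ ∈ E) → ¬ Cm A E → Cm B E)
    {F : Set (Subgroup G)} (hF : F.Finite) : F ⊆ V →
    (∀ A ∈ F, ∀ B ∈ F, A = B ∨ Cm A B) → ∀ C ∈ V, ∃ D : Set (Subgroup G), D.Finite ∧ D ⊆ V ∧
      (∀ A ∈ D, ∀ B ∈ D, A = B ∨ Cm A B) ∧ sSup F ≤ sSup D ∧ C ≤ sSup D ∧
      ∀ E ∈ D, E ≤ sSup F ⊔ C := by
  induction F, hF using Set.Finite.induction_on with
  | empty =>
    intro _ _ C hC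
    refine ⟨{C}, Set.finite_singleton C, Set.singleton_subset_iff.2 hC, ?_, ?_, ?_, ?_⟩
    · rintro A rfl B rfl
      exact Or.inl rfl
    · rw [sSup_empty]
      exact bot_le
    · exact le_sSup rfl
    · rintro E rfl
      exact le_sup_right
  | @insert A F hA hF ih =>
    intro hFV hcm C hC
    have hAV : A ∈ V := hFV (Set.mem_insert A F)
    have hFV' : F ⊆ V := fun X hX => hFV (Set.mem_insert_of_mem A hX)
    have hcm' : ∀ A ∈ F, ∀ B ∈ F, A = B ∨ Cm A B := fun X hX Y hY =>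
      hcm X (Set.mem_insert_of_mem A hX) Y (Set.mem_insert_of_mem A hY)
    have hAF : ∀ B ∈ F, Cm A B := by
      intro B hB
      rcases hcm A (Set.mem_insert A F) B (Set.mem_insert_of_mem A hB) with h | h
      · rw [h] at hA
        exact (hA hB).elim
      · exact h
    obtain ⟨D0, d1, d2, d3, d4⟩ := h2 A hAV C hC
    have d5 : ∀ E ∈ D0, E ≤ A ⊔ C := fun E hE => d3 ▸ le_sSup hE
    have d6 : ∀ E ∈ D0, ∀ E' ∈ D0, E = E' ∨ Cm E E' := fun E hE E' hE' =>
      eq_or_cm hc (h1 E (d2 hE)) (h1 E' (d2 hE')) (fun g hg x hx => d4 E hE g (d5 E' hE' hg) x hx)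
        (fun g hg x hx => d4 E' hE' g (d5 E hE hg) x hx)
    have d7 : ∀ E ∈ D0, ¬ Cm A E → ∀ B ∈ F, Cm B E := fun E hE hn B hB =>
      h3 A hAV B (hFV' hB) C hC (hAF B hB) E (d2 hE) (d5 E hE) (d4 E hE) hn
    rw [sSup_insert]
    by_cases hex : ∃ F1 ∈ D0, Cm A F1
    · obtain ⟨F1, f1, f2⟩ := hex
      have d8 : ∀ E ∈ D0, E ≠ F1 → ¬ Cm A E := by
        intro E hE hne hcE
        rcases d6 F1 f1 E hE with h | h
        · exact hne h.symm
        · exact at_most_one (h1 C hC) (h1 F1 (d2 f1)) (h1 E (d2 hE)) (d5 F1 f1) (d5 E hE)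
            (d4 F1 f1) (d4 E hE) h f2 hcE
      obtain ⟨D', g1, g2, g3, g4, g5, g6⟩ := ih hFV' hcm' F1 (d2 f1)
      have g7 : ∀ E ∈ D0, E ≠ F1 → ∀ E' ∈ D', Cm E' E := by
        intro E hE hne E' hE'
        refine cm_mono (cm_sup (A := sSup F) (B := F1) (cm_sSup ?_) ?_) (g6 E' hE') le_rfl
        · exact d7 E hE (d8 E hE hne)
        · rcases d6 F1 f1 E hE with h | h
          · exact (hne h.symm).elim
          · exact h
      refine ⟨(D0 \ {F1}) ∪ D', (d1.subset Set.sdiff_subset).union g1,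
        Set.union_subset (fun X hX => d2 hX.1) g2, ?_, ?_, ?_, ?_⟩
      · rintro E (hE | hE) E' (hE' | hE')
        · exact d6 E hE.1 E' hE'.1
        · exact Or.inr (cm_symm (g7 E hE.1 hE.2 E' hE'))
        · exact Or.inr (g7 E' hE'.1 hE'.2 E hE)
        · exact g3 E hE E' hE'
      all_goals
        have k1 : A ⊔ C ≤ sSup ((D0 \ {F1}) ∪ D') := by
          rw [← d3]
          refine sSup_le fun E hE => ?_
          by_cases hEF : E = F1
          · rw [hEF]
            exact g5.trans (sSup_le_sSup Set.subset_union_right)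
          · exact le_sSup (Or.inl ⟨hE, hEF⟩)
      · exact sup_le (le_sup_left.trans k1) (g4.trans (sSup_le_sSup Set.subset_union_right))
      · exact le_sup_right.trans k1
      · rintro E (hE | hE)
        · exact (d5 E hE.1).trans (sup_le (le_sup_left.trans le_sup_left) le_sup_right)
        · refine (g6 E hE).trans (sup_le (le_sup_right.trans le_sup_left) ?_)
          exact (d5 F1 f1).trans (sup_le (le_sup_left.trans le_sup_left) le_sup_right)
    · have hex' : ∀ E ∈ D0, ¬ Cm A E := fun E hE h => hex ⟨E, hE, h⟩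
      refine ⟨D0 ∪ F, d1.union hF, Set.union_subset d2 hFV', ?_, ?_, ?_, ?_⟩
      · rintro E (hE | hE) E' (hE' | hE')
        · exact d6 E hE E' hE'
        · exact Or.inr (cm_symm (d7 E hE (hex' E hE) E' hE'))
        · exact Or.inr (d7 E' hE' (hex' E' hE') E hE)
        · exact hcm' E hE E' hE'
      all_goals
        have k1 : A ⊔ C ≤ sSup (D0 ∪ F) := by
          rw [← d3]
          exact sSup_le_sSup Set.subset_union_left
      · exact sup_le (le_sup_left.trans k1) (sSup_le_sSup Set.subset_union_right)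
      · exact le_sup_right.trans k1
      · rintro E (hE | hE)
        · exact (d5 E hE).trans (sup_le (le_sup_left.trans le_sup_left) le_sup_right)
        · exact (le_sSup hE).trans (le_sup_right.trans le_sup_left)

/-- every finite subset lies in the join of a finite commuting family -/
theorem cover {c : ℕ} (hc : 0 < c) (V : Set (Subgroup G))
    (h1 : ∀ T ∈ V, Bg c T)
    (h2 : ∀ A ∈ V, ∀ C ∈ V, ∃ D : Set (Subgroup G), D.Finite ∧ D ⊆ V ∧ sSup D = A ⊔ C ∧
      ∀ E ∈ D, ∀ g ∈ A ⊔ C, ∀ x ∈ E, g * x * g⁻¹ ∈ E)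
    (h3 : ∀ A ∈ V, ∀ B ∈ V, ∀ C ∈ V, Cm A B → ∀ E ∈ V, E ≤ A ⊔ C →
      (∀ g ∈ A ⊔ C, ∀ x ∈ E, g * x * g⁻¹ ∈ E) → ¬ Cm A E → Cm B E)
    {S : Set (Subgroup G)} (hS : S.Finite) : S ⊆ V → ∃ D : Set (Subgroup G), D.Finite ∧ D ⊆ V ∧
      (∀ A ∈ D, ∀ B ∈ D, A = B ∨ Cm A B) ∧ sSup S ≤ sSup D := by
  induction S, hS using Set.Finite.induction_on with
  | empty =>
    intro _
    refine ⟨∅, Set.finite_empty, Set.empty_subset V, ?_, le_rfl⟩
    intro A hA
    exact hA.elim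
  | @insert C S hCS hS ih =>
    intro hSV
    obtain ⟨D, d1, d2, d3, d4⟩ := ih (fun X hX => hSV (Set.mem_insert_of_mem C hX))
    obtain ⟨D', g1, g2, g3, g4, g5, -⟩ := step hc V h1 h2 h3 d1 d2 d3 C (hSV (Set.mem_insert C S))
    refine ⟨D', g1, g2, g3, ?_⟩
    rw [sSup_insert]
    exact sup_le g5 (d4.trans g4)

/-- the join of a finite commuting family of finite subgroups is finite -/
theorem fin_sSup {D : Set (Subgroup G)} (hD : D.Finite) : (∀ A ∈ D, Finite A) →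
    (∀ A ∈ D, ∀ B ∈ D, A = B ∨ Cm A B) → ((sSup D : Subgroup G) : Set G).Finite := by
  induction D, hD using Set.Finite.induction_on with
  | empty =>
    intro _ _
    rw [sSup_empty, Subgroup.coe_bot]
    exact Set.finite_singleton 1
  | @insert A D hA hD ih =>
    intro hf hcm
    have i1 := ih (fun X hX => hf X (Set.mem_insert_of_mem A hX))
      (fun X hX Y hY => hcm X (Set.mem_insert_of_mem A hX) Y (Set.mem_insert_of_mem A hY))
    have hc : Cm (sSup D) A := by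
      refine cm_sSup fun B hB => ?_
      rcases hcm B (Set.mem_insert_of_mem A hB) A (Set.mem_insert A D) with h | h
      · rw [h] at hB
        exact (hA hB).elim
      · exact h
    have hn : A ≤ Subgroup.normalizer ((sSup D : Subgroup G) : Set G) := by
      intro a ha
      rw [Subgroup.mem_normalizer_iff]
      intro x
      constructor
      · intro hx
        have e1 : a * x * a⁻¹ = x := by rw [← hc x hx a ha, mul_inv_cancel_right]
        rwa [e1]
      · intro hx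
        have e1 := hc _ hx a ha
        have e2 : x = a * x * a⁻¹ := by
          have e3 : a * x * a⁻¹ * a = a * x := by group
          rw [e3] at e1
          exact mul_left_cancel e1
        rwa [← e2] at hx
    rw [sSup_insert, Subgroup.coe_mul_of_left_le_normalizer_right _ _ hn]
    have := hf A (Set.mem_insert A D)
    exact (Set.toFinite (A : Set G)).mul i1

/-- elements of the join lie in the join of a finite subset -/
theorem mem_fin (V : Set (Subgroup G)) {x : G} (hx : x ∈ sSup V) :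
    ∃ D : Set (Subgroup G), D.Finite ∧ D ⊆ V ∧ x ∈ sSup D := by
  let W : Subgroup G :=
    { carrier := {x | ∃ D : Set (Subgroup G), D.Finite ∧ D ⊆ V ∧ x ∈ sSup D}
      mul_mem' := by
        rintro a b ⟨D, d1, d2, d3⟩ ⟨D', g1, g2, g3⟩
        exact ⟨D ∪ D', d1.union g1, Set.union_subset d2 g2,
          Subgroup.mul_mem _ ((sSup_le_sSup Set.subset_union_left : sSup D ≤ sSup (D ∪ D')) d3)
            ((sSup_le_sSup Set.subset_union_right : sSup D' ≤ sSup (D ∪ D')) g3)⟩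
      one_mem' := ⟨∅, Set.finite_empty, Set.empty_subset V, Subgroup.one_mem _⟩
      inv_mem' := by
        rintro a ⟨D, d1, d2, d3⟩
        exact ⟨D, d1, d2, Subgroup.inv_mem _ d3⟩ }
  have hW : sSup V ≤ W := by
    refine sSup_le fun T hT y hy => ?_
    exact ⟨{T}, Set.finite_singleton T, Set.singleton_subset_iff.2 hT, by
      rw [sSup_singleton]; exact hy⟩
  exact hW hx

end NsI

open NsI in
theorem lf_T {G : Type} [Group G] {c : ℕ} (hc : 0 < c) (V : Set (Subgroup G))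
    (h1 : ∀ T ∈ V, Bg c T)
    (h2 : ∀ A ∈ V, ∀ C ∈ V, ∃ D : Set (Subgroup G), D.Finite ∧ D ⊆ V ∧ sSup D = A ⊔ C ∧
      ∀ E ∈ D, ∀ g ∈ A ⊔ C, ∀ x ∈ E, g * x * g⁻¹ ∈ E)
    (h3 : ∀ A ∈ V, ∀ B ∈ V, ∀ C ∈ V, Cm A B → ∀ E ∈ V, E ≤ A ⊔ C →
      (∀ g ∈ A ⊔ C, ∀ x ∈ E, g * x * g⁻¹ ∈ E) → ¬ Cm A E → Cm B E) :
    ∀ s : Finset G, (s : Set G) ⊆ (sSup V : Subgroup G) →
      Finite (Subgroup.closure (s : Set G)) := by
  classical
  have key : ∀ s : Finset G, (s : Set G) ⊆ (sSup V : Subgroup G) →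
      ∃ S : Set (Subgroup G), S.Finite ∧ S ⊆ V ∧ (s : Set G) ⊆ (sSup S : Subgroup G) := by
    intro s
    induction s using Finset.induction_on with
    | empty =>
      intro _
      exact ⟨∅, Set.finite_empty, Set.empty_subset V, by simp⟩
    | @insert a s ha ih =>
      intro hs
      rw [Finset.coe_insert, Set.insert_subset_iff] at hs
      obtain ⟨S, s1, s2, s3⟩ := ih hs.2
      obtain ⟨S', t1, t2, t3⟩ := mem_fin V hs.1
      refine ⟨S ∪ S', s1.union t1, Set.union_subset s2 t2, ?_⟩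
      rw [Finset.coe_insert, Set.insert_subset_iff]
      have u1 : sSup S ≤ sSup (S ∪ S') := sSup_le_sSup Set.subset_union_left
      have u2 : sSup S' ≤ sSup (S ∪ S') := sSup_le_sSup Set.subset_union_right
      exact ⟨u2 t3, fun x hx => u1 (s3 hx)⟩
  intro s hs
  obtain ⟨S, s1, s2, s3⟩ := key s hs
  obtain ⟨D, d1, d2, d3, d4⟩ := cover hc V h1 h2 h3 s1 s2
  have hfin := fin_sSup d1 (fun A hA =>
    Nat.finite_of_card_ne_zero (by rw [(h1 A (d2 hA)).2.2]; omega)) d3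
  have hle : Subgroup.closure (s : Set G) ≤ sSup D :=
    (Subgroup.closure_le _).2 (s3.trans d4)
  exact (hfin.subset hle).to_subtype

end Pool.Agent.TH69.Ns
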