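import Mathlib
import Pool.Agent.TH69.NsG
import Pool.Agent.TH69.NsH
import Pool.Agent.TH69.NsI

set_option autoImplicit false

/-!
# Groups of exponent `n` with nonsoluble finite subgroups, section K: infinite groups
-/

namespace Pool.Agent.TH69.Ns

/-- the standing assumptions on an infinite group -/
structure HG (c n N : ℕ) (G : Type) [Group G] : Prop where
  exp : ∀ x : G, x ^ n = 1
  six : ∀ s : Finset G, s.card ≤ 6 → Finite (Subgroup.closure (s : Set G)) ∧
    Nat.card (Subgroup.closure (s : Set G)) ≤ N ∧ Sm c (Subgroup.closure (s : Set G))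

variable {c n N : ℕ} {G : Type} [Group G]

theorem HG.hy (h : HG (c + 1) n N G) (s : Finset G) (hs : s.card ≤ 6) :
    Hy c n (Subgroup.closure (s : Set G)) :=
  ⟨(h.six s hs).1, fun x => Subtype.ext (h.exp x.1), (h.six s hs).2.2⟩

theorem HG.quot (h : HG c n N G) (M : Subgroup G) [M.Normal] : HG c n N (G ⧸ M) := by
  classical
  refine ⟨fun x => ?_, fun s hs => ?_⟩
  · obtain ⟨x, rfl⟩ := QuotientGroup.mk_surjective x
    rw [← QuotientGroup.mk_pow, h.exp]
    rfl
  · obtain ⟨t, ht⟩ : ∃ t : Finset G, t = s.image (fun q : G ⧸ M => (Quotient.out q : G)) :=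
      ⟨_, rfl⟩
    have hcard : t.card ≤ 6 := by
      rw [ht]
      exact Finset.card_image_le.trans hs
    have e : (Subgroup.closure (t : Set G)).map (QuotientGroup.mk' M) =
        Subgroup.closure (s : Set (G ⧸ M)) := by
      rw [MonoidHom.map_closure]
      congr 1
      ext q
      rw [ht]
      simp only [Finset.coe_image, Set.mem_image, Finset.mem_coe]
      constructor
      · rintro ⟨_, ⟨q', hq', rfl⟩, rfl⟩
        have h3 : (QuotientGroup.mk' M) (Quotient.out q') = q' := QuotientGroup.out_eq' q'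
        rwa [h3]
      · intro hq
        exact ⟨_, ⟨q, hq, rfl⟩, QuotientGroup.out_eq' q⟩
    obtain ⟨h1, h2, h3⟩ := h.six t hcard
    rw [← e]
    have hs := (QuotientGroup.mk' M).subgroupMap_surjective (Subgroup.closure (t : Set G))
    exact ⟨Finite.of_surjective _ hs, (Nat.card_le_card_of_surjective _ hs).trans h2,
      h3.of_surj _ hs⟩

/-- elements which lie in the radicals of the three-generator subgroups containing them -/
def RR (c : ℕ) (G : Type) [Group G] : Set G :=
  {e | ∀ y z : G, InO c (Subgroup.closure {e, y, z}) e}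

theorem inO_top {K : Subgroup G} {e : G} (he : e ∈ K)
    (h : InO c (⊤ : Subgroup K) ⟨e, he⟩) : InO c K e := by
  have h1 := h.map K.subtype
  rw [← MonoidHom.range_eq_map, Subgroup.range_subtype] at h1
  exact h1

theorem inO_to_top {K : Subgroup G} {e : G} (he : e ∈ K) (h : InO c K e) :
    InO c (⊤ : Subgroup K) ⟨e, he⟩ := by
  refine InO.of_map K.subtype K.subtype_injective ?_
  rw [← MonoidHom.range_eq_map, Subgroup.range_subtype]
  exact h

theorem closure_triple {A B : Type} [Group A] [Group B] (f : A →* B) (x y z : A) :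
    (Subgroup.closure {x, y, z}).map f = Subgroup.closure {f x, f y, f z} := by
  rw [MonoidHom.map_closure]
  congr 1
  simp [Set.image_insert_eq]

theorem RR.inO (h2 : TwoGen n) {K : Subgroup G} (hK : Hy c n K) {e : G} (he : e ∈ K)
    (h : e ∈ RR c G) : InO c K e := by
  refine inO_top he (crit h2 hK ⟨e, he⟩ fun y z => ?_)
  refine InO.of_map K.subtype K.subtype_injective ?_
  rw [closure_triple]
  exact h y.1 z.1

theorem HG.hy' (h : HG (c + 1) n N G) (s : Set G) (t : Finset G) (hst : (t : Set G) = s)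
    (ht : t.card ≤ 6) : Hy c n (Subgroup.closure s) := by
  subst hst
  exact h.hy t ht

theorem HG.hy4 (h : HG (c + 1) n N G) (w x y z : G) :
    Hy c n (Subgroup.closure {w, x, y, z}) := by
  classical
  exact h.hy' _ {w, x, y, z} (by simp) (Finset.card_le_four.trans (by norm_num))

theorem HG.hy6 (h : HG (c + 1) n N G) (u v w x y z : G) :
    Hy c n (Subgroup.closure {u, v, w, x, y, z}) := by
  classical
  exact h.hy' _ {u, v, w, x, y, z} (by simp) Finset.card_le_six

theorem mem_four (w x y z : G) {e : G} (he : e = w ∨ e = x ∨ e = y ∨ e = z) :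
    e ∈ Subgroup.closure {w, x, y, z} := by
  apply Subgroup.subset_closure
  simpa using he

theorem mem_six (u v w x y z : G) {e : G}
    (he : e = u ∨ e = v ∨ e = w ∨ e = x ∨ e = y ∨ e = z) :
    e ∈ Subgroup.closure {u, v, w, x, y, z} := by
  apply Subgroup.subset_closure
  simpa using he

theorem closure_three_le {K : Subgroup G} {e y z : G} (he : e ∈ K) (hy : y ∈ K) (hz : z ∈ K) :
    Subgroup.closure {e, y, z} ≤ K := by
  rw [Subgroup.closure_le]
  rintro w (rfl | rfl | rfl)
  · exact he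
  · exact hy
  · exact hz

theorem mem_three (e y z : G) : e ∈ Subgroup.closure {e, y, z} :=
  Subgroup.subset_closure (by simp)

/-- the normal subgroup `RR` -/
def RSub (h : HG (c + 1) n N G) (h2 : TwoGen n) : Subgroup G where
  carrier := RR c G
  one_mem' := by
    intro y z
    have h3 := (h.hy4 1 1 y z).fin
    obtain ⟨M, h4, h5, h6, h7⟩ := InO.exists_max c (Subgroup.closure {1, 1, y, z})
    refine InO.mono (closure_three_le (one_mem _) ?_ ?_) (one_mem _) ((h7 1).2 (one_mem _))
    · exact mem_four _ _ _ _ (by simp)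
    · exact mem_four _ _ _ _ (by simp)
  mul_mem' := by
    intro e f he hf y z
    have hK := h.hy4 e f y z
    have h3 := hK.fin
    obtain ⟨M, h4, h5, h6, h7⟩ := InO.exists_max c (Subgroup.closure {e, f, y, z})
    have h8 := RR.inO h2 hK (mem_four _ _ _ _ (by simp)) he
    have h9 := RR.inO h2 hK (mem_four _ _ _ _ (by simp)) hf
    have h10 := (h7 (e * f)).2 (mul_mem ((h7 e).1 h8) ((h7 f).1 h9))
    refine InO.mono (closure_three_le (mul_mem ?_ ?_) ?_ ?_) (mem_three _ _ _) h10
    all_goals exact mem_four _ _ _ _ (by simp)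
  inv_mem' := by
    intro e he y z
    obtain ⟨M, h4, h5, h6, h7⟩ := he y z
    have h8 : InO c (Subgroup.closure {e, y, z}) e⁻¹ := ⟨M, h4, h5, h6, inv_mem h7⟩
    refine InO.mono (closure_three_le (inv_mem (mem_three _ _ _)) ?_ ?_) (mem_three _ _ _) h8
    · exact Subgroup.subset_closure (by simp)
    · exact Subgroup.subset_closure (by simp)

theorem mem_RSub (h : HG (c + 1) n N G) (h2 : TwoGen n) {e : G} :
    e ∈ RSub h h2 ↔ e ∈ RR c G := Iff.rfl

theorem RSub_normal (h : HG (c + 1) n N G) (h2 : TwoGen n) : (RSub h h2).Normal := by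
  refine ⟨fun e he g y z => ?_⟩
  have h3 := (he (g⁻¹ * y * g) (g⁻¹ * z * g)).map (MulAut.conj g).toMonoidHom
  rw [closure_triple] at h3
  have e1 : (MulAut.conj g).toMonoidHom (g⁻¹ * y * g) = y := by
    change g * (g⁻¹ * y * g) * g⁻¹ = y
    group
  have e2 : (MulAut.conj g).toMonoidHom (g⁻¹ * z * g) = z := by
    change g * (g⁻¹ * z * g) * g⁻¹ = z
    group
  rw [e1, e2] at h3
  exact h3

/-- the finite subgroups of `RSub` -/
theorem HG.sub (h : HG (c + 1) n N G) (h2 : TwoGen n) : HG c n N (RSub h h2) := by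
  classical
  refine ⟨fun x => Subtype.ext (h.exp x.1), fun s hs => ?_⟩
  obtain ⟨t, ht⟩ : ∃ t : Finset G, t = s.image (fun x : RSub h h2 => (x : G)) := ⟨_, rfl⟩
  have hcard : t.card ≤ 6 := by
    rw [ht]
    exact Finset.card_image_le.trans hs
  have e : (Subgroup.closure (s : Set (RSub h h2))).map (RSub h h2).subtype =
      Subgroup.closure (t : Set G) := by
    rw [MonoidHom.map_closure, ht, Finset.coe_image]
    rfl
  obtain ⟨h3, h4, -⟩ := h.six t hcard
  have hK := h.hy t hcard
  rw [← e] at h3 h4 hK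
  let iso := (Subgroup.closure (s : Set (RSub h h2))).equivMapOfInjective (RSub h h2).subtype
    (RSub h h2).subtype_injective
  refine ⟨Finite.of_equiv _ iso.symm.toEquiv, ?_, ?_⟩
  · rw [Nat.card_congr iso.toEquiv]
    exact h4
  · obtain ⟨M, h5, h6, h7, h8⟩ := InO.exists_max c
      ((Subgroup.closure (s : Set (RSub h h2))).map (RSub h h2).subtype)
    have h9 : (Subgroup.closure (s : Set (RSub h h2))).map (RSub h h2).subtype ≤ M := by
      intro x hx
      rw [← h8]
      refine RR.inO h2 hK hx ?_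
      obtain ⟨y, -, rfl⟩ := hx
      exact y.2
    have h10 := h7.of_inj (Subgroup.inclusion h9) (Subgroup.inclusion_injective h9)
    exact h10.of_inj iso.toMonoidHom iso.injective

theorem Bg.of_equiv {A B : Type} [Group A] [Group B] (e : A ≃* B) (h : Bg c A) : Bg c B := by
  obtain ⟨h1, ⟨a, b, hab⟩, h3⟩ := h
  refine ⟨?_, ⟨e a, e b, ?_⟩, ?_⟩
  · have : Nontrivial B := by
      have := h1.toNontrivial
      exact e.symm.toEquiv.nontrivial
    exact IsSimpleGroup.isSimpleGroup_of_surjective e.toMonoidHom e.surjective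
  · intro h4
    rw [← map_mul, ← map_mul] at h4
    exact hab (e.injective h4)
  · rw [← h3]
    exact (Nat.card_congr e.toEquiv).symm

/-- the simple subgroups of order `c` -/
def VV (c : ℕ) (G : Type) [Group G] : Set (Subgroup G) := {T | Bg c T}

theorem two_gen (hc : 0 < c) (h : HG (c + 1) n N G) (h2 : TwoGen n) {A : Subgroup G}
    (hA : A ∈ VV c G) : ∃ a b : G, Subgroup.closure {a, b} = A := by
  have hfin : Finite A := Nat.finite_of_card_ne_zero (by rw [hA.2.2]; omega)
  obtain ⟨a, b, hab⟩ := h2 A hfin hA.1 fun x => Subtype.ext (h.exp x.1)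
  refine ⟨a, b, ?_⟩
  have h3 := congrArg (fun H : Subgroup A => H.map A.subtype) hab
  simp only [MonoidHom.map_closure, Set.image_pair, ← MonoidHom.range_eq_map,
    Subgroup.range_subtype] at h3
  exact h3

theorem pf_sup {A B : Subgroup G} (hA : Pf c A) (hB : Pf c B) : Pf c (A ⊔ B : Subgroup G) := by
  intro Q _ hQ hs g a
  have h1 : A ⊔ B ≤ g.ker.map (A ⊔ B).subtype := by
    refine sup_le ?_ ?_
    · intro x hx
      exact ⟨⟨x, (le_sup_left : A ≤ A ⊔ B) hx⟩,
        hA Q hQ hs (g.comp (Subgroup.inclusion le_sup_left)) ⟨x, hx⟩, rfl⟩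
    · intro x hx
      exact ⟨⟨x, (le_sup_right : B ≤ A ⊔ B) hx⟩,
        hB Q hQ hs (g.comp (Subgroup.inclusion le_sup_right)) ⟨x, hx⟩, rfl⟩
  obtain ⟨y, hy, hya⟩ := h1 a.2
  have : y = a := Subtype.ext hya
  rw [← this]
  exact hy

theorem sup_eq_four {A C : Subgroup G} {a b x y : G} (hA : Subgroup.closure {a, b} = A)
    (hC : Subgroup.closure {x, y} = C) : A ⊔ C = Subgroup.closure {a, b, x, y} := by
  rw [← hA, ← hC, ← Subgroup.closure_union]
  congr 1
  ext z
  simp only [Set.mem_union, Set.mem_insert_iff, Set.mem_singleton_iff]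
  tauto

theorem sup_eq_six {A B C : Subgroup G} {a b u v x y : G} (hA : Subgroup.closure {a, b} = A)
    (hB : Subgroup.closure {u, v} = B) (hC : Subgroup.closure {x, y} = C) :
    A ⊔ B ⊔ C = Subgroup.closure {a, b, u, v, x, y} := by
  rw [← hA, ← hB, ← hC, ← Subgroup.closure_union, ← Subgroup.closure_union]
  congr 1
  ext z
  simp only [Set.mem_union, Set.mem_insert_iff, Set.mem_singleton_iff]
  tauto

/-- perfect four-generator subgroups have trivial radical -/
theorem four_triv (hc : 0 < c) (hP : OneP c n) (h2 : TwoGen n) (h : HG (c + 1) n N G)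
    (hR : ∀ e ∈ RR c G, e = 1) {a b x y : G} (hA : Pf c (Subgroup.closure {a, b, x, y})) {e : G}
    (he : InO c (Subgroup.closure {a, b, x, y}) e) : e = 1 := by
  apply hR
  intro u v
  have hK := h.hy6 a b x y u v
  have hle : Subgroup.closure {a, b, x, y} ≤ Subgroup.closure {a, b, x, y, u, v} := by
    apply Subgroup.closure_mono
    intro z hz
    simp only [Set.mem_insert_iff, Set.mem_singleton_iff] at hz ⊢
    tauto
  have h3 := pf_inO hc hP h2 hle hK hA he
  obtain ⟨M, h4, -, -, h5⟩ := he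
  refine InO.mono (closure_three_le (hle (h4 h5)) ?_ ?_) (mem_three _ _ _) h3
  all_goals exact mem_six _ _ _ _ _ _ (by simp)

/-- two simple subgroups of order `c` generate a direct product of such groups -/
theorem two_comp (hc : 0 < c) (hP : OneP c n) (h2 : TwoGen n) (h : HG (c + 1) n N G)
    (hR : ∀ e ∈ RR c G, e = 1) : ∀ A ∈ VV c G, ∀ C ∈ VV c G, ∃ D : Set (Subgroup G), D.Finite ∧
      D ⊆ VV c G ∧ sSup D = A ⊔ C ∧ ∀ E ∈ D, ∀ g ∈ A ⊔ C, ∀ x ∈ E, g * x * g⁻¹ ∈ E := by
  intro A hA C hC
  obtain ⟨a, b, hab⟩ := two_gen hc h h2 hA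
  obtain ⟨x, y, hxy⟩ := two_gen hc h h2 hC
  have e4 := sup_eq_four hab hxy
  have hpf : Pf c (A ⊔ C : Subgroup G) := pf_sup (Bg.pf hA) (Bg.pf hC)
  obtain ⟨H, hH⟩ : ∃ H : Subgroup G, H = A ⊔ C := ⟨_, rfl⟩
  rw [← hH] at hpf e4 ⊢
  have hK : Hy c n H := by
    rw [e4]
    exact h.hy4 a b x y
  have hO' : ∀ e : G, InO c H e → e = 1 := by
    rw [e4] at hpf ⊢
    exact fun e he => four_triv hc hP h2 h hR hpf he
  have hO : ∀ e : H, InO c ⊤ e → e = 1 := fun e he => Subtype.ext (hO' e.1 (inO_top e.2 he))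
  have hE := pf_struct hc hP h2 hK hO hpf
  have hfin := hK.fin
  refine ⟨(fun T : Subgroup H => T.map H.subtype) '' {T | Cp c T}, (Set.toFinite _).image _,
    ?_, ?_, ?_⟩
  · rintro _ ⟨T, hT, rfl⟩
    exact hT.2.of_equiv (T.equivMapOfInjective H.subtype H.subtype_injective)
  · apply le_antisymm
    · refine sSup_le ?_
      rintro _ ⟨T, hT, rfl⟩
      exact Subgroup.map_subtype_le T
    · have h3 : EE c H ≤ (sSup ((fun T : Subgroup H => T.map H.subtype) '' {T | Cp c T})).comap
          H.subtype := by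
        refine sSup_le fun T hT => ?_
        rw [← Subgroup.map_le_iff_le_comap]
        exact le_sSup ⟨T, hT, rfl⟩
      intro z hz
      exact h3 (show (⟨z, hz⟩ : H) ∈ EE c H by rw [hE]; exact Subgroup.mem_top _)
  · rintro _ ⟨T, hT, rfl⟩ g hg _ ⟨z, hz, rfl⟩
    have h3 := EE_norm hT (g := ⟨g, hg⟩) (by rw [hE]; exact Subgroup.mem_top _) z hz
    exact ⟨_, h3, rfl⟩

end Pool.Agent.TH69.Ns
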