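import Mathlib
import Pool.Agent.TH69.NsDefs2

set_option autoImplicit false

/-!
# The first layer of a subgroup (section Q of helper69's project Ns; written by helper524):
the proof with section M as a hypothesis
-/

namespace Pool.Agent.TH69.Ns

namespace NsQ

open scoped commutatorElement

theorem perfect {K : Type} [Group K] (T : Subgroup K) (h1 : IsSimpleGroup T)
    (h2 : ∃ a b : T, a * b ≠ b * a) : ⁅T, T⁆ = T := by
  have h3 : commutator T = ⊥ ∨ commutator T = ⊤ :=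
    Subgroup.Normal.eq_bot_or_eq_top (inferInstance : (commutator T).Normal)
  rcases h3 with h3 | h3
  · exfalso
    obtain ⟨a, b, hab⟩ := h2
    apply hab
    have h4 : ⁅a, b⁆ ∈ commutator T :=
      Subgroup.commutator_mem_commutator (Subgroup.mem_top a) (Subgroup.mem_top b)
    rw [h3, Subgroup.mem_bot] at h4
    exact commutatorElement_eq_one_iff_mul_comm.1 h4
  · have h5 := congrArg (Subgroup.map T.subtype) h3
    rw [commutator_def, Subgroup.map_commutator, ← MonoidHom.range_eq_map,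
      Subgroup.range_subtype] at h5
    exact h5

/-- the elements of `M` whose image commutes with all members of `F` -/
def cz {A B : Type} [Group A] [Group B] (g : A →* B) (M : Subgroup A) (F : Set (Subgroup B)) :
    Subgroup A where
  carrier := {a | a ∈ M ∧ ∀ S ∈ F, ∀ s ∈ S, g a * s = s * g a}
  one_mem' := ⟨one_mem _, fun S _ s _ => by simp⟩
  mul_mem' := by
    rintro a b ⟨ha, ha'⟩ ⟨hb, hb'⟩
    refine ⟨mul_mem ha hb, fun S hS s hs => ?_⟩
    rw [map_mul, mul_assoc, hb' S hS s hs, ← mul_assoc, ha' S hS s hs, mul_assoc]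
  inv_mem' := by
    rintro a ⟨ha, ha'⟩
    refine ⟨inv_mem ha, fun S hS s hs => ?_⟩
    rw [map_inv, inv_mul_eq_iff_eq_mul, ← mul_assoc, ha' S hS s hs, mul_inv_cancel_right]

theorem mem_cz {A B : Type} [Group A] [Group B] {g : A →* B} {M : Subgroup A}
    {F : Set (Subgroup B)} {a : A} :
    a ∈ cz g M F ↔ a ∈ M ∧ ∀ S ∈ F, ∀ s ∈ S, g a * s = s * g a := Iff.rfl

theorem cz_conj {c : ℕ} {A B : Type} [Group A] [Group B] {g : A →* B} {M : Subgroup A}
    (hM : ∀ m ∈ M, g m ∈ EE c B) {F : Set (Subgroup B)} (hF : ∀ S ∈ F, Cp c S) :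
    ∀ m ∈ M, ∀ x ∈ cz g M F, m * x * m⁻¹ ∈ cz g M F := by
  rintro m hm x ⟨hx, hx'⟩
  refine ⟨mul_mem (mul_mem hm hx) (inv_mem hm), fun S hS s hs => ?_⟩
  have h1 := hx' S hS _ (EE_norm (hF S hS) (inv_mem (hM m hm)) s hs)
  rw [map_mul, map_mul, map_inv]
  calc g m * g x * (g m)⁻¹ * s = g m * (g x * ((g m)⁻¹ * s * (g m)⁻¹⁻¹)) * (g m)⁻¹ := by group
    _ = g m * (((g m)⁻¹ * s * (g m)⁻¹⁻¹) * g x) * (g m)⁻¹ := by rw [h1]
    _ = s * (g m * g x * (g m)⁻¹) := by group

theorem inter_step {A Q : Type} [Group A] [Group Q] (q : A →* Q) (M U V : Subgroup A)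
    (hU : U ≤ M) (hV : V ≤ M) (hUn : ∀ m ∈ M, ∀ x ∈ U, m * x * m⁻¹ ∈ U)
    (hVn : ∀ m ∈ M, ∀ x ∈ V, m * x * m⁻¹ ∈ V) (T : Subgroup Q) (hT : ⁅T, T⁆ = T)
    (h1 : T ≤ U.map q) (h2 : T ≤ V.map q) : T ≤ (U ⊓ V).map q := by
  calc T = ⁅T, T⁆ := hT.symm
    _ ≤ ⁅U.map q, V.map q⁆ := Subgroup.commutator_mono h1 h2
    _ = ⁅U, V⁆.map q := (Subgroup.map_commutator U V q).symm
    _ ≤ (U ⊓ V).map q := Subgroup.map_mono (by
        rw [Subgroup.commutator_le]
        intro u hu v hv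
        refine Subgroup.mem_inf.2 ⟨?_, ?_⟩
        · have h3 : ⁅u, v⁆ = u * (v * u⁻¹ * v⁻¹) := by
            rw [commutatorElement_def]
            group
          rw [h3]
          exact mul_mem hu (hUn v (hV hv) _ (inv_mem hu))
        · rw [commutatorElement_def]
          exact mul_mem (hVn u (hU hu) v hv) (inv_mem hv))

theorem le_cz {c : ℕ} {A B Q : Type} [Group A] [Group B] [Group Q] (g : A →* B) (q : A →* Q)
    (M : Subgroup A) (hM : ∀ m ∈ M, g m ∈ EE c B) (T : Subgroup Q) (hT : ⁅T, T⁆ = T)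
    (hTM : T ≤ M.map q) (h : ∀ S : Subgroup B, Cp c S → T ≤ (cz g M {S}).map q)
    (F : Finset (Subgroup B)) (hF : ∀ S ∈ F, Cp c S) :
    T ≤ (cz g M (F : Set (Subgroup B))).map q := by
  classical
  induction F using Finset.induction_on with
  | empty =>
    refine hTM.trans (Subgroup.map_mono fun m hm => ⟨hm, fun S hS => ?_⟩)
    simp at hS
  | insert S F hS ih =>
    have h1 := ih fun S' hS' => hF S' (Finset.mem_insert_of_mem hS')
    have h2 := h S (hF S (Finset.mem_insert_self _ _))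
    refine (inter_step q M (cz g M (F : Set (Subgroup B))) (cz g M {S})
      (fun x hx => (mem_cz.1 hx).1) (fun x hx => (mem_cz.1 hx).1)
      (cz_conj hM fun S' hS' => hF S' (Finset.mem_insert_of_mem hS'))
      (cz_conj hM fun S' hS' => ?_) T hT h1 h2).trans (Subgroup.map_mono ?_)
    · rw [Set.mem_singleton_iff] at hS'
      rw [hS']
      exact hF S (Finset.mem_insert_self _ _)
    · rintro x ⟨hx1, hx2⟩
      refine ⟨hx1.1, fun S' hS' => ?_⟩
      rw [Finset.coe_insert, Set.mem_insert_iff] at hS'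
      rcases hS' with rfl | hS'
      · exact hx2.2 S' rfl
      · exact hx1.2 S' hS'

/-- the action of the elements of `M` on `T` -/
theorem acts {c : ℕ} {A B Q : Type} [Group A] [Group B] [Group Q] [Finite Q] (g : A →* B)
    (q : A →* Q) (M : Subgroup A) (hM : ∀ m ∈ M, g m ∈ EE c B) {T : Subgroup Q} (hT : Bg c T)
    (hTM : T ≤ M.map q) {S : Subgroup B} (hS : Cp c S)
    (h : ∀ x ∈ cz g M {S}, ∀ t ∈ T, q x * t = t * q x) {e : A} (he : e ∈ M) :
    ActsInn T (q e) := by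
  obtain ⟨κ, hκ⟩ := exists_proj hS (g.comp M.subtype) fun a => hM a.1 a.2
  have hc : ∀ t : T, ∃ m : M, q m.1 = t.1 := by
    rintro ⟨t, ht⟩
    obtain ⟨m, hm, hmt⟩ := hTM ht
    exact ⟨⟨m, hm⟩, hmt⟩
  choose μ hμ using hc
  -- elements with the same projection differ by an element of `cz`
  have hκ2 : ∀ a b : M, κ a = κ b → (a⁻¹ * b).1 ∈ cz g M {S} := by
    intro a b hab
    refine ⟨(a⁻¹ * b).2, fun S' hS' s hs => ?_⟩
    rw [Set.mem_singleton_iff] at hS'
    rw [hS'] at hs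
    have h1 := hκ (a⁻¹ * b) s hs
    rw [map_mul κ, map_inv κ, hab, inv_mul_cancel] at h1
    have h2 : g (a⁻¹ * b).1 * s * (g (a⁻¹ * b).1)⁻¹ = s := by
      refine h1.trans ?_
      simp
    exact mul_inv_eq_iff_eq_mul.1 h2
  have hfT : Finite T := inferInstance
  have hS0 : Nat.card S = c := hS.2.2.2
  have hT0 : Nat.card T = c := hT.2.2
  have hcpos : 0 < c := hT0 ▸ Nat.card_pos
  have hfS : Finite S := Nat.finite_of_card_ne_zero (by omega)
  have hinj : Function.Injective fun t : T => κ (μ t) := by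
    intro t t' htt
    have h1 := hκ2 _ _ htt
    have h2 : q ((μ t)⁻¹ * μ t').1 = t.1⁻¹ * t'.1 := by
      rw [← hμ t, ← hμ t', ← map_inv, ← map_mul]
      rfl
    have h3 : t.1⁻¹ * t'.1 = 1 := by
      refine centre_triv hT.1 hT.2.1 (T := T) (mul_mem (inv_mem t.2) t'.2) fun s hs => ?_
      rw [← h2]
      exact h _ h1 s hs
    exact Subtype.ext (inv_mul_eq_one.1 h3)
  have hbij : Function.Bijective fun t : T => κ (μ t) :=
    (Nat.bijective_iff_injective_and_card _).2 ⟨hinj, hT0.trans hS0.symm⟩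
  obtain ⟨t, ht⟩ := hbij.2 (κ ⟨e, he⟩)
  have h1 := hκ2 _ _ ht
  have h2 : q ((μ t)⁻¹ * (⟨e, he⟩ : M)).1 = t.1⁻¹ * q e := by
    rw [← hμ t, ← map_inv, ← map_mul]
    rfl
  refine ⟨t.1, t.2, fun s hs => ?_⟩
  have h3 := h _ h1 s hs
  rw [h2] at h3
  calc q e * s * (q e)⁻¹ = t.1 * (t.1⁻¹ * q e * s) * (q e)⁻¹ := by group
    _ = t.1 * (s * (t.1⁻¹ * q e)) * (q e)⁻¹ := by rw [h3]
    _ = t.1 * s * t.1⁻¹ := by group

theorem of_inj_of {c n : ℕ}
    (hEE : ∀ (Q : Type) [Group Q], Hy c n Q → (∀ e : Q, InO c ⊤ e → e = 1) → ∀ g : Q,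
      (∀ T : Subgroup Q, Cp c T → ActsInn T g) → g ∈ EE c Q)
    {A K : Type} [Group A] [Group K] (hK : Hy c n K) (f : A →* K)
    (hf : Function.Injective f) {e : A} (h : InF c (f e)) : InF c e := by
  obtain ⟨B, _, k, hk, hke⟩ := h
  have hB : Hy c n B := hK.of_surj k hk.surj
  have hA : Hy c n A := hK.of_inj f hf
  obtain ⟨Q, _, q, hq1, hQ, hQO, hqe⟩ := exists_quot c n hA
  have hBfin := hB.fin
  have hQfin := hQ.fin
  refine ⟨Q, inferInstance, q, ⟨hq1, hqe, hQO⟩, hEE Q hQ hQO _ fun T hT => ?_⟩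
  obtain ⟨g, hg⟩ : ∃ g : A →* B, g = k.comp f := ⟨_, rfl⟩
  obtain ⟨M, hMdef⟩ : ∃ M : Subgroup A, M = (EE c B).comap g := ⟨_, rfl⟩
  have hM : ∀ m ∈ M, g m ∈ EE c B := by
    intro m hm
    rw [hMdef] at hm
    exact hm
  have heM : e ∈ M := by
    rw [hMdef, Subgroup.mem_comap, hg]
    exact hke
  have hMn : M.Normal := by
    have := EE_normal c B
    rw [hMdef]
    exact Subgroup.Normal.comap this g
  have hMq : (M.map q).Normal := Subgroup.Normal.map hMn q hq1
  rcases le_or_cm T (M.map q) hT.1 hMq.isSubnormal hT.2.1 hT.2.2.1 with hTM | hcm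
  swap
  · refine ⟨1, one_mem _, fun s hs => ?_⟩
    rw [← hcm s hs (q e) (Subgroup.mem_map_of_mem q heM)]
    group
  -- some component of `B`
  have hex : ∃ S : Subgroup B, Cp c S ∧ ¬ T ≤ (cz g M {S}).map q := by
    by_contra hcon
    push Not at hcon
    have hfin : {S : Subgroup B | Cp c S}.Finite := Set.toFinite _
    have h1 := le_cz g q M hM T (perfect T hT.2.1 hT.2.2.1) hTM hcon hfin.toFinset
      fun S hS => (hfin.mem_toFinset.1 hS)
    obtain ⟨a, b, hab⟩ := hT.2.2.1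
    apply hab
    have h2 : ∀ t : T, t = 1 := by
      rintro ⟨t, ht⟩
      obtain ⟨x, hx, rfl⟩ := h1 ht
      apply Subtype.ext
      change q x = 1
      rw [← hqe]
      have h3 : g x = 1 := by
        refine cent_triv hB hk.triv _ fun S hS s hs => ?_
        exact hx.2 S (by simpa using hS) s hs
      have h4 : InO c ⊤ (f x) := by
        rw [hk.ker]
        rw [hg] at h3
        exact h3
      have h5 : InO c ((⊤ : Subgroup A).map f) (f x) :=
        h4.mono le_top (Subgroup.mem_map_of_mem f (Subgroup.mem_top x))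
      exact InO.of_map f hf h5
    rw [h2 a, h2 b]
  obtain ⟨S, hS, hTS⟩ := hex
  -- `T` commutes with the image of `cz g M {S}`
  have hcm : ∀ x ∈ cz g M {S}, ∀ t ∈ T, q x * t = t * q x := by
    obtain ⟨P, hP⟩ : ∃ P : Subgroup Q, P = M.map q := ⟨_, rfl⟩
    have hTP : T ≤ P := hP ▸ hTM
    have hn : (((cz g M {S}).map q).subgroupOf P).Normal := by
      refine ⟨fun x hx y => ?_⟩
      obtain ⟨x', hx', hxx⟩ := Subgroup.mem_subgroupOf.1 hx
      have hy : y.1 ∈ M.map q := hP.le y.2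
      obtain ⟨y', hy', hyy⟩ := hy
      rw [Subgroup.mem_subgroupOf]
      refine ⟨y' * x' * y'⁻¹, ?_, ?_⟩
      · refine cz_conj hM (fun S' hS' => ?_) y' hy' x' hx'
        rw [Set.mem_singleton_iff] at hS'
        rw [hS']
        exact hS
      · rw [map_mul, map_mul, map_inv, hxx, hyy]
        rfl
    obtain ⟨h3, h4⟩ := NsB.transport (Subgroup.subgroupOfEquivOfLe hTP).symm hT.2.1 hT.2.2.1
    rcases le_or_cm (T.subgroupOf P) (((cz g M {S}).map q).subgroupOf P) hT.1.subgroupOf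
      hn.isSubnormal h3 h4 with h5 | h5
    · exfalso
      apply hTS
      intro t ht
      exact Subgroup.mem_subgroupOf.1 (h5 (Subgroup.mem_subgroupOf.2 (show
        ((⟨t, hTP ht⟩ : P) : Q) ∈ T from ht)))
    · intro x hx t ht
      have hxP : q x ∈ P := by
        rw [hP]
        exact Subgroup.mem_map_of_mem q hx.1
      have h6 := h5 ⟨t, hTP ht⟩ (Subgroup.mem_subgroupOf.2 ht) ⟨q x, hxP⟩
        (Subgroup.mem_subgroupOf.2 (Subgroup.mem_map_of_mem q hx))
      exact (congrArg Subtype.val h6).symm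
  exact acts g q M hM hT.2 hTM hS hcm heM

end NsQ

end Pool.Agent.TH69.Ns
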