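import Pool.Agent.TH69.NsR0
import Pool.Agent.TH69.NsM
import Pool.Agent.TH69.NsP

set_option autoImplicit false

/-!
# Subdirect products (section R of helper69's project Ns; written by helper374)
-/

namespace Pool.Agent.TH69.Ns

theorem InF.form {c n : ℕ} {A P₁ P₂ : Type} [Group A] [Group P₁] [Group P₂] (hA : Hy c n A)
    (g₁ : A →* P₁) (g₂ : A →* P₂) (h₁ : Function.Surjective g₁) (h₂ : Function.Surjective g₂)
    (hker : ∀ x : A, g₁ x = 1 → g₂ x = 1 → x = 1) {e : A} (he₁ : InF c (g₁ e))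
    (he₂ : InF c (g₂ e)) : InF c e :=
  NsR.form_of (n := n) (fun hQ hO g => mem_EE_iff hQ hO g) (fun hK => exists_Cq hK)
    (fun hK g hg _ he _ hT => InF.acts hK g hg he hT) hA g₁ g₂ h₁ h₂ hker he₁ he₂

end Pool.Agent.TH69.Ns
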