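import Pool.Agent.TH69.NsDefs2

set_option autoImplicit false

/-!
# Subdirect products (section R of helper69's project Ns; written by helper374)
The theorem `NsR.form_of` takes the lemmas of sections M and P as hypotheses.
-/

namespace Pool.Agent.TH69.Ns

namespace NsR

/-- one factor: the component `T` of `Q` commutes with the image of the kernel of `g` -/
theorem acts_of_cm {c n : ℕ}
    (hacts : ∀ {K P : Type} [Group K] [Group P], Hy c n K → ∀ g : K →* P,
      Function.Surjective g → ∀ {e : K}, InF c e → ∀ {T : Subgroup P}, Cp c T → ActsInn T (g e))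
    {A P Q : Type} [Group A] [Group P] [Group Q] (hA : Hy c n A)
    (f : A →* Q) (hf : Function.Surjective f) (g : A →* P) (hg : Function.Surjective g) {e : A}
    (he : InF c (g e)) {T : Subgroup Q} (hT : Cp c T) (hcm : Cm T (g.ker.map f)) :
    ActsInn T (f e) := by
  have hN : (g.ker.map f).Normal := Subgroup.Normal.map inferInstance f hf
  let q : Q →* Q ⧸ (g.ker.map f) := QuotientGroup.mk' (g.ker.map f)
  have hqs : Function.Surjective q := QuotientGroup.mk'_surjective _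
  have hq1 : ∀ x : Q, q x = 1 → x ∈ g.ker.map f := fun x hx => (QuotientGroup.eq_one_iff x).1 hx
  have hq2 : ∀ x : Q, x ∈ g.ker.map f → q x = 1 := fun x hx => (QuotientGroup.eq_one_iff x).2 hx
  -- `q` is injective on `T`
  have hinj : ∀ x ∈ T, ∀ y ∈ T, q x = q y → x = y := by
    intro x hx y hy hxy
    have h1 : q (x⁻¹ * y) = 1 := by rw [map_mul, map_inv, hxy, inv_mul_cancel]
    have h2 : x⁻¹ * y ∈ T := T.mul_mem (T.inv_mem hx) hy
    have h3 := centre_triv hT.2.1 hT.2.2.1 h2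
      fun t ht => (hcm t ht _ (hq1 _ h1)).symm
    exact inv_mul_eq_one.1 h3
  -- the image of `T` is a component
  have hT' : Cp c (T.map q) := by
    refine ⟨Subgroup.IsSubnormal.map hqs hT.1, ?_⟩
    let φ : T ≃* T.map q := MulEquiv.ofBijective (q.subgroupMap T) ⟨by
      intro x y hxy
      exact Subtype.ext (hinj _ x.2 _ y.2 (congrArg Subtype.val hxy)),
      q.subgroupMap_surjective T⟩
    obtain ⟨h1, h2⟩ := NsB.transport φ hT.2.1 hT.2.2.1
    refine ⟨h1, h2, ?_⟩
    rw [← hT.2.2.2]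
    exact (Nat.card_congr φ.toEquiv).symm
  -- `q ∘ f` factors through `g`
  have hle : g.ker ≤ (q.comp f).ker := by
    intro x hx
    exact hq2 _ (Subgroup.mem_map_of_mem f hx)
  let r : P →* Q ⧸ (g.ker.map f) := g.liftOfSurjective hg ⟨q.comp f, hle⟩
  have hr : ∀ x : A, r (g x) = q (f x) := fun x =>
    MonoidHom.liftOfRightInverse_comp_apply g (Function.surjInv hg)
      (Function.rightInverse_surjInv hg) ⟨q.comp f, hle⟩ x
  have hrs : Function.Surjective r := by
    intro y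
    obtain ⟨z, rfl⟩ := hqs y
    obtain ⟨x, rfl⟩ := hf z
    exact ⟨g x, hr x⟩
  obtain ⟨t', ht', hact⟩ := hacts (hA.of_surj g hg) r hrs he hT'
  obtain ⟨t, ht, rfl⟩ := ht'
  rw [hr] at hact
  have hact2 : ∀ s ∈ T, q (f e * s * (f e)⁻¹) = q (t * s * t⁻¹) := by
    intro s hs
    have h1 := hact (q s) (Subgroup.mem_map_of_mem q hs)
    rw [map_mul, map_mul, map_inv, h1, map_mul, map_mul, map_inv]
  -- `f e` normalises `T`
  have hnorm : T = T.map (MulAut.conj (f e)).toMonoidHom := by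
    rcases Cp.eq_or_cm hT (hT.conj (f e)) with h | h
    · exact h
    · exfalso
      obtain ⟨a, b, hab⟩ := hT.2.2.1
      apply hab
      apply Subtype.ext
      have h1 : t⁻¹ * a.1 * t ∈ T := T.mul_mem (T.mul_mem (T.inv_mem ht) a.2) ht
      have h2 := hact2 _ h1
      have e1 : t * (t⁻¹ * a.1 * t) * t⁻¹ = a.1 := by group
      rw [e1] at h2
      have h3 := h b.1 b.2 (f e * (t⁻¹ * a.1 * t) * (f e)⁻¹) ⟨_, h1, rfl⟩
      refine hinj _ (T.mul_mem a.2 b.2) _ (T.mul_mem b.2 a.2) ?_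
      change q (a.1 * b.1) = q (b.1 * a.1)
      rw [map_mul, map_mul, ← h2, ← map_mul, ← map_mul, h3]
  refine ⟨t, ht, fun s hs => ?_⟩
  refine hinj _ ?_ _ (T.mul_mem (T.mul_mem ht hs) (T.inv_mem ht)) (hact2 s hs)
  rw [hnorm]
  exact ⟨s, hs, rfl⟩

/-- a component of `Q` commutes with the image of one of the two kernels -/
theorem cm_or {c : ℕ} {A P₁ P₂ Q : Type} [Group A] [Group P₁] [Group P₂] [Group Q]
    (f : A →* Q) (hf : Function.Surjective f) (g₁ : A →* P₁) (g₂ : A →* P₂)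
    (hker : ∀ x : A, g₁ x = 1 → g₂ x = 1 → x = 1) {T : Subgroup Q} (hT : Cp c T) :
    Cm T (g₁.ker.map f) ∨ Cm T (g₂.ker.map f) := by
  have hN₁ : (g₁.ker.map f).Normal := Subgroup.Normal.map inferInstance f hf
  have hN₂ : (g₂.ker.map f).Normal := Subgroup.Normal.map inferInstance f hf
  rcases le_or_cm T _ hT.1 hN₁.isSubnormal hT.2.1 hT.2.2.1 with h1 | h1
  · rcases le_or_cm T _ hT.1 hN₂.isSubnormal hT.2.1 hT.2.2.1 with h2 | h2
    · exfalso
      obtain ⟨a, b, hab⟩ := hT.2.2.1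
      apply hab
      apply Subtype.ext
      obtain ⟨x, hx, hxa⟩ := h1 a.2
      obtain ⟨y, hy, hyb⟩ := h2 b.2
      have hx' : g₁ x = 1 := hx
      have hy' : g₂ y = 1 := hy
      have h3 : x * y * x⁻¹ * y⁻¹ = 1 := by
        apply hker
        · simp [hx']
        · simp [hy']
      have h4 : x * y = y * x := by
        have h5 : x * y * x⁻¹ * y⁻¹ * (y * x) = y * x := by rw [h3, one_mul]
        rw [← h5]
        group
      change a.1 * b.1 = b.1 * a.1
      rw [← hxa, ← hyb, ← map_mul, ← map_mul, h4]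
    · exact Or.inr h2
  · exact Or.inl h1

/-- the theorem with the lemmas of sections M and P as hypotheses -/
theorem form_of {c n : ℕ}
    (hmem : ∀ {Q : Type} [Group Q], Hy c n Q → (∀ e : Q, InO c ⊤ e → e = 1) → ∀ g : Q,
      (g ∈ EE c Q ↔ ∀ T : Subgroup Q, Cp c T → ActsInn T g))
    (hex : ∀ {K : Type} [Group K], Hy c n K →
      ∃ (Q : Type) (_ : Group Q) (f : K →* Q), Hy c n Q ∧ Cq c f)
    (hacts : ∀ {K P : Type} [Group K] [Group P], Hy c n K → ∀ g : K →* P,
      Function.Surjective g → ∀ {e : K}, InF c e → ∀ {T : Subgroup P}, Cp c T → ActsInn T (g e))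
    {A P₁ P₂ : Type} [Group A] [Group P₁] [Group P₂] (hA : Hy c n A)
    (g₁ : A →* P₁) (g₂ : A →* P₂) (h₁ : Function.Surjective g₁) (h₂ : Function.Surjective g₂)
    (hker : ∀ x : A, g₁ x = 1 → g₂ x = 1 → x = 1) {e : A} (he₁ : InF c (g₁ e))
    (he₂ : InF c (g₂ e)) : InF c e := by
  obtain ⟨Q, iQ, f, hQ, hf⟩ := hex hA
  refine ⟨Q, iQ, f, hf, ?_⟩
  rw [hmem hQ hf.triv]
  intro T hT
  rcases NsR.cm_or f hf.surj g₁ g₂ hker hT with h | h
  · exact NsR.acts_of_cm hacts hA f hf.surj g₁ h₁ he₁ hT h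
  · exact NsR.acts_of_cm hacts hA f hf.surj g₂ h₂ he₂ hT h

end NsR

end Pool.Agent.TH69.Ns
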