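import Mathlib
import Pool.Agent.TH69.NsDefs2
import Pool.Agent.TH69.NsP
import Pool.Agent.TH69.NsQ
import Pool.Agent.TH69.NsR

set_option autoImplicit false

/-!
# Groups of exponent `n` with nonsoluble finite subgroups: layers (section T)
-/

namespace Pool.Agent.TH69.Ns

/-- factoring through a surjective homomorphism -/
theorem factorT {K W V : Type} [Group K] [Group W] [Group V] (f : K →* W)
    (hf : Function.Surjective f) (h : K →* V) (hh : Function.Surjective h)
    (hk : ∀ x, f x = 1 → h x = 1) :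
    ∃ r : W →* V, Function.Surjective r ∧ ∀ x, r (f x) = h x := by
  have key : ∀ x, (f.liftOfSurjective hf ⟨h, fun x hx => hk x hx⟩) (f x) = h x := fun x =>
    f.liftOfRightInverse_comp_apply _ _ _ x
  refine ⟨f.liftOfSurjective hf ⟨h, fun x hx => hk x hx⟩, fun y => ?_, key⟩
  obtain ⟨x, rfl⟩ := hh y
  exact ⟨f x, key x⟩

theorem Sm.ext' {c : ℕ} {K P : Type} [Group K] [Group P] (g : K →* P) (h1 : Sm c g.ker)
    (h2 : Sm c P) : Sm c K :=
  Sm.ext g.ker h1 (Sm.of_inj (QuotientGroup.kerLift g) (QuotientGroup.kerLift_injective g) h2)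

/-- the quotient by the first layer -/
theorem exists_W {c n : ℕ} {K : Type} [Group K] (hK : Hy c n K) :
    ∃ (W : Type) (_ : Group W) (f : K →* W), Function.Surjective f ∧ Hy c n W ∧
      ∀ e : K, InF c e ↔ f e = 1 := by
  obtain ⟨Q, iQ, f, hQ, hf⟩ := exists_Cq hK
  have := EE_normal c Q
  refine ⟨Q ⧸ EE c Q, inferInstance, (QuotientGroup.mk' (EE c Q)).comp f,
    (QuotientGroup.mk'_surjective _).comp hf.surj,
    Hy.of_surj (QuotientGroup.mk' (EE c Q)) (QuotientGroup.mk'_surjective _) hQ, fun e => ?_⟩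
  rw [InF.iff hK hf]
  exact (QuotientGroup.eq_one_iff (f e)).symm

theorem TL.of_surj {c n j : ℕ} {K P : Type} [Group K] [Group P] (hK : Hy c n K) (g : K →* P)
    (hg : Function.Surjective g) (h : TL c j K) : TL c j P := by
  induction j generalizing K P with
  | zero => exact Sm.of_surj g hg h
  | succ j ih =>
    obtain ⟨W, iW, f, hf, hk, hW⟩ := h
    obtain ⟨V, iV, fP, hfP, hHy, hkP⟩ := exists_W (Hy.of_surj g hg hK)
    obtain ⟨r, hr, -⟩ := factorT f hf (fP.comp g) (hfP.comp hg)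
      (fun x hx => (hkP _).1 (InF.map hK g hg ((hk x).2 hx)))
    exact ⟨V, iV, fP, hfP, hkP, ih (Hy.of_surj f hf hK) r hr hW⟩

theorem TL.of_inj {c n j : ℕ} {A K : Type} [Group A] [Group K] (hK : Hy c n K) (f : A →* K)
    (hf : Function.Injective f) (h : TL c j K) : TL c j A := by
  induction j generalizing A K with
  | zero => exact Sm.of_inj f hf h
  | succ j ih =>
    obtain ⟨W, iW, fK, hfK, hk, hW⟩ := h
    have hA : Hy c n A := Hy.of_inj f hf hK
    obtain ⟨V, iV, fA, hfA, hHy, hkA⟩ := exists_W hA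
    have hWy : Hy c n W := Hy.of_surj fK hfK hK
    have hR : TL c j (fK.comp f).range :=
      ih hWy (fK.comp f).range.subtype (Subgroup.subtype_injective _) hW
    obtain ⟨r, hr, -⟩ := factorT (fK.comp f).rangeRestrict (fK.comp f).rangeRestrict_surjective
      fA hfA (fun x hx => (hkA x).1 (InF.of_inj hK f hf ((hk (f x)).2
        (by simpa using congrArg Subtype.val hx))))
    exact ⟨V, iV, fA, hfA, hkA,
      TL.of_surj (Hy.of_inj (fK.comp f).range.subtype (Subgroup.subtype_injective _) hWy) r hr hR⟩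

theorem TL.form {c n j : ℕ} {A P₁ P₂ : Type} [Group A] [Group P₁] [Group P₂] (hA : Hy c n A)
    (g₁ : A →* P₁) (g₂ : A →* P₂) (h₁ : Function.Surjective g₁) (h₂ : Function.Surjective g₂)
    (hker : ∀ x : A, g₁ x = 1 → g₂ x = 1 → x = 1) (ht₁ : TL c j P₁) (ht₂ : TL c j P₂) :
    TL c j A := by
  induction j generalizing A P₁ P₂ with
  | zero =>
    refine Sm.ext' g₁ (Sm.of_inj (g₂.comp g₁.ker.subtype) ?_ ht₂) ht₁
    rw [injective_iff_map_eq_one]
    rintro ⟨x, hx⟩ hx2
    exact Subtype.ext (hker x hx hx2)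
  | succ j ih =>
    obtain ⟨W₁, i₁, f₁, hf₁, hk₁, hW₁⟩ := ht₁
    obtain ⟨W₂, i₂, f₂, hf₂, hk₂, hW₂⟩ := ht₂
    obtain ⟨V, iV, fA, hfA, hHy, hkA⟩ := exists_W hA
    let φ : A →* W₁ × W₂ := (f₁.comp g₁).prod (f₂.comp g₂)
    have hφ : ∀ x, φ x = (f₁ (g₁ x), f₂ (g₂ x)) := fun x => rfl
    have hRy : Hy c n φ.range := Hy.of_surj φ.rangeRestrict φ.rangeRestrict_surjective hA
    have hR : TL c j φ.range := by
      refine ih hRy ((MonoidHom.fst W₁ W₂).comp φ.range.subtype)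
        ((MonoidHom.snd W₁ W₂).comp φ.range.subtype) ?_ ?_ ?_ hW₁ hW₂
      · intro w
        obtain ⟨p, rfl⟩ := hf₁ w
        obtain ⟨x, rfl⟩ := h₁ p
        exact ⟨⟨φ x, x, rfl⟩, rfl⟩
      · intro w
        obtain ⟨p, rfl⟩ := hf₂ w
        obtain ⟨x, rfl⟩ := h₂ p
        exact ⟨⟨φ x, x, rfl⟩, rfl⟩
      · rintro ⟨⟨u, v⟩, hu⟩ e₁ e₂
        exact Subtype.ext (Prod.ext e₁ e₂)
    obtain ⟨r, hr, -⟩ := factorT φ.rangeRestrict φ.rangeRestrict_surjective fA hfA
      (fun x hx => by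
        have hx' : φ x = 1 := by simpa using congrArg Subtype.val hx
        rw [hφ, Prod.mk_eq_one] at hx'
        exact (hkA x).1 (InF.form hA g₁ g₂ h₁ h₂ hker ((hk₁ _).2 hx'.1) ((hk₂ _).2 hx'.2)))
    exact ⟨V, iV, fA, hfA, hkA, TL.of_surj hRy r hr hR⟩

theorem TL.of_small {c n j : ℕ} {K P : Type} [Group K] [Group P] (hK : Hy c n K) (g : K →* P)
    (hg : Function.Surjective g) (hs : Sm c g.ker) (h : TL c j P) : TL c j K := by
  cases j with
  | zero => exact Sm.ext' g hs h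
  | succ j =>
    obtain ⟨W, iW, f, hf, hk, hW⟩ := h
    exact ⟨W, iW, f.comp g, hf.comp hg, fun e => ⟨fun he => (hk _).1 (InF.map hK g hg he),
      fun he => InF.of_small hK g hg hs ((hk _).2 he)⟩, hW⟩

end Pool.Agent.TH69.Ns
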