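import Mathlib
import Pool.Agent.TH69.NsDefs2
import Pool.Agent.TH69.NsD
import Pool.Agent.TH69.NsFaux

set_option autoImplicit false

/-!
# Groups of exponent `n` with nonsoluble finite subgroups, section V0: elements normalising all
components
-/

namespace Pool.Agent.TH69.Ns.NsV0x

open Pool.Agent.TH69.Ns Pool.Agent.TH69.Ns.NsFaux

theorem nk_K1 {c n : ℕ} (hc : 0 < c) {K : Type} [Group K]
    (hK : Hy c n K)
    (heq : ∀ T S : Subgroup K, Cp c T → Cp c S → T = S ∨ Cm T S)
    (hconj : ∀ T : Subgroup K, Cp c T → ∀ g : K, Cp c (T.map (MulAut.conj g).toMonoidHom))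
    (hcent : ∀ e : K, (∀ T : Subgroup K, Cp c T → ∀ t ∈ T, e * t = t * e) → e = 1)
    (haut : ∀ T : Subgroup K, Cp c T → Nat.card (MulAut T) < c * c)
    (X : Subgroup K) (hX : EE c K ≤ X) (hXK : X ≤ K1 c K)
    {S : Type} [Group S] (hS : Bg c S) (f : X →* S) (hf : Function.Surjective f) :
    ∃ x : X, x.1 ∈ EE c K ∧ f x ≠ 1 := by
  by_contra hcon
  push Not at hcon
  have := hK.fin
  obtain ⟨hSs, hSn, hSc⟩ := hS
  have : Finite S := Nat.finite_of_card_ne_zero (by rw [hSc]; exact hc.ne')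
  -- components lie in X and in the kernel
  have hTE : ∀ T : Subgroup K, Cp c T → T ≤ EE c K := fun T hT => le_sSup hT
  have hTX : ∀ T : Subgroup K, Cp c T → ∀ t ∈ T, t ∈ X := fun T hT t ht => hX (hTE T hT ht)
  have hTk : ∀ T : Subgroup K, Cp c T → ∀ (t : K) (ht : t ∈ T) (h : t ∈ X), f ⟨t, h⟩ = 1 :=
    fun T hT t ht h => hcon ⟨t, h⟩ (hTE T hT ht)
  -- components normalise components
  have hTK1 : ∀ T : Subgroup K, Cp c T → ∀ t ∈ T, t ∈ K1 c K := by
    intro T hT t ht T' hT'
    rcases heq T T' hT hT' with h | h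
    · subst h
      exact ⟨fun u hu => T.mul_mem (T.mul_mem ht hu) (T.inv_mem ht),
        fun u hu => T.mul_mem (T.mul_mem (T.inv_mem ht) hu) ht⟩
    · constructor
      · intro u hu
        rw [h t ht u hu, mul_assoc, mul_inv_cancel, mul_one]; exact hu
      · intro u hu
        rw [mul_assoc, ← h t ht u hu, ← mul_assoc, inv_mul_cancel, one_mul]; exact hu
  -- base
  have base : (AF c X ∅).map f = ⊤ := by
    have h0 : AF c X ∅ = ⊤ := by
      rw [eq_top_iff]
      intro x _
      exact ⟨hXK x.2, fun T hT => absurd hT (by simp)⟩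
    rw [h0, ← MonoidHom.range_eq_map]
    exact MonoidHom.range_eq_top.2 hf
  -- step
  have step : ∀ (F : Set (Subgroup K)) (T : Subgroup K), (∀ T' ∈ F, Cp c T') → Cp c T → T ∉ F →
      (AF c X F).map f = ⊤ → (AF c X (insert T F)).map f = ⊤ := by
    intro F T hF hT hTF ih
    have hnorm' : ((AF c X (insert T F)).map f).Normal := by
      constructor
      rintro _ ⟨b, hb, rfl⟩ s
      have hs : s ∈ (AF c X F).map f := by rw [ih]; trivial
      obtain ⟨a, ha, rfl⟩ := hs
      refine ⟨a * b * a⁻¹, ⟨K1_conj hconj hb.1 a.1, fun T' hT' t ht => ?_⟩, by simp⟩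
      have hTT : Cp c T' := by
        rcases hT' with h | h
        · rw [h]; exact hT
        · exact hF _ h
      -- a normalises T'
      have ha1 : a.1⁻¹ * t * a.1 ∈ T' := (ha.1 T' hTT).2 t ht
      have e1 := hb.2 T' hT' _ ha1
      change a.1 * b.1 * a.1⁻¹ * t = t * (a.1 * b.1 * a.1⁻¹)
      calc a.1 * b.1 * a.1⁻¹ * t = a.1 * (b.1 * (a.1⁻¹ * t * a.1)) * a.1⁻¹ := by group
        _ = a.1 * ((a.1⁻¹ * t * a.1) * b.1) * a.1⁻¹ := by rw [e1]
        _ = t * (a.1 * b.1 * a.1⁻¹) := by group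
    rcases hSs.eq_bot_or_eq_top_of_normal _ hnorm' with h | h
    · exfalso
      -- every element of `AF (insert T F)` is killed
      have hkill : ∀ b ∈ AF c X (insert T F), f b = 1 := by
        intro b hb
        have : f b ∈ (AF c X (insert T F)).map f := ⟨b, hb, rfl⟩
        rw [h] at this
        exact Subgroup.mem_bot.1 this
      -- lifts
      have hlift : ∀ s : S, ∃ a ∈ AF c X F, f a = s := by
        intro s
        have hs : s ∈ (AF c X F).map f := by rw [ih]; trivial
        obtain ⟨a, ha, rfl⟩ := hs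
        exact ⟨a, ha, rfl⟩
      choose l hl1 hl2 using hlift
      -- conjugation automorphism of T
      have hmk : ∀ g : K, g ∈ K1 c K → ∃ φ : MulAut T, ∀ t : T, ((φ t : T) : K) = g * t.1 * g⁻¹ := by
        intro g hg
        obtain ⟨h1, h2⟩ := hg T hT
        refine ⟨⟨⟨fun t => ⟨g * t.1 * g⁻¹, h1 t.1 t.2⟩, fun t => ⟨g⁻¹ * t.1 * g, h2 t.1 t.2⟩,
          fun t => ?_, fun t => ?_⟩, fun t u => ?_⟩, fun t => rfl⟩
        · apply Subtype.ext
          change g⁻¹ * (g * t.1 * g⁻¹) * g = t.1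
          group
        · apply Subtype.ext
          change g * (g⁻¹ * t.1 * g) * g⁻¹ = t.1
          group
        · apply Subtype.ext
          change g * (t.1 * u.1) * g⁻¹ = (g * t.1 * g⁻¹) * (g * u.1 * g⁻¹)
          group
      have hkt : ∀ (s : S) (t : T), (l s).1 * t.1 ∈ K1 c K := fun s t =>
        (K1 c K).mul_mem (hl1 s).1 (hTK1 T hT t.1 t.2)
      choose φ hφ using fun q : S × T => hmk ((l q.1).1 * q.2.1) (hkt q.1 q.2)
      have hinj : Function.Injective φ := by
        rintro ⟨s, t⟩ ⟨s', t'⟩ hst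
        -- the element b = (l s t)⁻¹ (l s' t') centralises T
        have hc1 : ∀ u ∈ T, ((l s).1 * t.1)⁻¹ * ((l s').1 * t'.1) * u
            = u * (((l s).1 * t.1)⁻¹ * ((l s').1 * t'.1)) := by
          intro u hu
          have e1 := hφ (s, t) ⟨u, hu⟩
          have e2 := hφ (s', t') ⟨u, hu⟩
          rw [hst] at e1
          have e3 : (l s).1 * t.1 * u * ((l s).1 * t.1)⁻¹ = (l s').1 * t'.1 * u * ((l s').1 * t'.1)⁻¹ := by
            rw [← e1, ← e2]
          set A := (l s).1 * t.1
          set B := (l s').1 * t'.1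
          have e4 : A * u * A⁻¹ * B = B * u := by rw [e3]; group
          calc A⁻¹ * B * u = A⁻¹ * (B * u) := by group
            _ = A⁻¹ * (A * u * A⁻¹ * B) := by rw [e4]
            _ = u * (A⁻¹ * B) := by group
        have htX : t.1 ∈ X := hTX T hT t.1 t.2
        have htX' : t'.1 ∈ X := hTX T hT t'.1 t'.2
        have hTAF : ∀ (u : K) (hu : u ∈ T) (hx : u ∈ X), (⟨u, hx⟩ : X) ∈ AF c X F := by
          intro u hu hx
          refine ⟨hTK1 T hT u hu, fun T' hT' v hv => ?_⟩
          rcases heq T T' hT (hF T' hT') with h | h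
          · exact absurd (h ▸ hT') hTF
          · exact h u hu v hv
        have hb : (l s * ⟨t.1, htX⟩)⁻¹ * (l s' * ⟨t'.1, htX'⟩) ∈ AF c X (insert T F) := by
          have hin : (l s * ⟨t.1, htX⟩)⁻¹ * (l s' * ⟨t'.1, htX'⟩) ∈ AF c X F :=
            (AF c X F).mul_mem ((AF c X F).inv_mem ((AF c X F).mul_mem (hl1 s) (hTAF t.1 t.2 htX)))
              ((AF c X F).mul_mem (hl1 s') (hTAF t'.1 t'.2 htX'))
          refine ⟨hin.1, ?_⟩
          intro T' hT' u hu
          rcases hT' with h | h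
          · subst h
            exact hc1 u hu
          · exact hin.2 T' h u hu
        have hk := hkill _ hb
        rw [map_mul, map_inv, map_mul, map_mul, hl2, hl2, hTk T hT t.1 t.2 htX,
          hTk T hT t'.1 t'.2 htX', mul_one, mul_one] at hk
        have hss : s' = s := (inv_mul_eq_one.1 hk).symm
        subst hss
        -- now t⁻¹ t' is central in T
        have hz : t⁻¹ * t' = 1 := by
          refine center_triv hT.2.1 hT.2.2.1 _ fun u => ?_
          apply Subtype.ext
          have := hc1 u.1 u.2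
          have e : ((l s').1 * t.1)⁻¹ * ((l s').1 * t'.1) = t.1⁻¹ * t'.1 := by group
          rw [e] at this
          exact this
        have htt : t' = t := (inv_mul_eq_one.1 hz).symm
        rw [htt]
      have : Finite T := inferInstance
      have := finite_mulAut T
      have hle := Nat.card_le_card_of_injective φ hinj
      rw [Nat.card_prod, hSc, hT.2.2.2] at hle
      exact absurd (haut T hT) (not_lt.2 hle)
    · exact h
  -- all components
  have hall : ∀ F : Set (Subgroup K), F.Finite → (∀ T ∈ F, Cp c T) → (AF c X F).map f = ⊤ := by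
    intro F hFin
    refine Set.Finite.induction_on_subset (motive := fun G _ => (∀ T ∈ G, Cp c T) →
      (AF c X G).map f = ⊤) F hFin (fun _ => base) ?_
    intro T G hTF hGF hTG ih hG
    exact step G T (fun T' h => hG T' (Set.mem_insert_of_mem _ h)) (hG T (Set.mem_insert _ _)) hTG
      (ih (fun T' h => hG T' (Set.mem_insert_of_mem _ h)))
  have hfin := hall {T | Cp c T} (Set.toFinite _) (fun T hT => hT)
  obtain ⟨a, b, hab⟩ := hSn
  have h1 : ∀ s : S, s = 1 := by
    intro s
    have hs : s ∈ (AF c X {T | Cp c T}).map f := by rw [hfin]; trivial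
    obtain ⟨x, hx, rfl⟩ := hs
    have : x.1 = 1 := hcent x.1 (fun T hT t ht => hx.2 T hT t ht)
    have hx1 : x = 1 := Subtype.ext this
    rw [hx1, map_one]
  exact hab (by rw [h1 a, h1 b])


theorem EE_le_K1 {c : ℕ} {K : Type} [Group K] : EE c K ≤ K1 c K := by
  refine sSup_le fun T hT t ht => ?_
  intro T' hT'
  rcases hT.eq_or_cm hT' with h | h
  · subst h
    exact ⟨fun u hu => T.mul_mem (T.mul_mem ht hu) (T.inv_mem ht),
      fun u hu => T.mul_mem (T.mul_mem (T.inv_mem ht) hu) ht⟩
  · constructor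
    · intro u hu
      rw [h t ht u hu, mul_assoc, mul_inv_cancel, mul_one]; exact hu
    · intro u hu
      rw [mul_assoc, ← h t ht u hu, ← mul_assoc, inv_mul_cancel, one_mul]; exact hu

theorem mem_K1 {c : ℕ} {K : Type} [Group K] [Finite K] {g : K}
    (h : ∀ T : Subgroup K, Cp c T → ∀ t ∈ T, g * t * g⁻¹ ∈ T) : g ∈ K1 c K := by
  intro T hT
  refine ⟨h T hT, fun t ht => ?_⟩
  let φ : T → T := fun t => ⟨g * t.1 * g⁻¹, h T hT t.1 t.2⟩
  have hφ : Function.Injective φ := by
    intro a b hab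
    have h1 : g * a.1 * g⁻¹ = g * b.1 * g⁻¹ := congrArg Subtype.val hab
    exact Subtype.ext (mul_left_cancel (mul_right_cancel h1))
  obtain ⟨u, hu⟩ := Finite.surjective_of_injective hφ ⟨t, ht⟩
  have h1 : g * u.1 * g⁻¹ = t := congrArg Subtype.val hu
  have h2 : g⁻¹ * t * g = u.1 := by rw [← h1]; group
  rw [h2]
  exact u.2

end Pool.Agent.TH69.Ns.NsV0x

namespace Pool.Agent.TH69.Ns

open NsFaux NsV0x

/-- in a group with trivial radical the elements which normalise all components form a normal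
subgroup which has `Sm c` modulo the components -/
theorem exists_K1 {c n : ℕ} (hc : 0 < c) (h2 : TwoGen n) {K : Type} [Group K]
    (hK : Hy c n K) (hO : ∀ e : K, InO c ⊤ e → e = 1) :
    ∃ L : Subgroup K, L.Normal ∧ EE c K ≤ L ∧
      (∀ g : K, (∀ T : Subgroup K, Cp c T → ∀ t ∈ T, g * t * g⁻¹ ∈ T) → g ∈ L) ∧
      ∀ (W : Type) [Group W] (f : K →* W), (∀ g : K, f g = 1 ↔ g ∈ EE c K) →
        Sm c (L.map f) := by
  have := hK.fin
  refine ⟨K1 c K, ⟨fun x hx g => K1_conj (fun T hT g => hT.conj g) hx g⟩, EE_le_K1,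
    fun g hg => mem_K1 hg, ?_⟩
  intro W _ f hf S _ hS hne Z F hF
  have h3 : Sm (c + 1) (K1 c K) := hK.sm.of_inj (K1 c K).subtype (K1 c K).subtype_injective
  have h4 : Sm (c + 1) ((K1 c K).map f) :=
    h3.of_surj (f.subgroupMap (K1 c K)) (f.subgroupMap_surjective (K1 c K))
  have h5 : Nat.card S < c + 1 := h4 S hS hne Z F hF
  by_contra hcon
  have hBg : Bg c S := ⟨hS, hne, by omega⟩
  let P : Subgroup W := Z.map ((K1 c K).map f).subtype
  let ι : Z ≃* P := Z.equivMapOfInjective _ ((K1 c K).map f).subtype_injective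
  let Y : Subgroup K := P.comap f
  have hYK : Y ≤ K1 c K := by
    intro y hy
    obtain ⟨⟨w, hw⟩, hwZ, hwy⟩ := hy
    obtain ⟨l, hl, hlw⟩ := hw
    have h6 : f (y * l⁻¹) = 1 := by
      rw [map_mul, map_inv, hlw]
      have h7 : w = f y := hwy
      rw [h7, mul_inv_cancel]
    have h8 : y * l⁻¹ ∈ K1 c K := EE_le_K1 ((hf _).1 h6)
    have h9 := (K1 c K).mul_mem h8 hl
    rwa [inv_mul_cancel_right] at h9
  have hEY : EE c K ≤ Y := by
    intro e he
    change f e ∈ P
    rw [(hf e).2 he]
    exact P.one_mem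
  let G : Y →* S := F.comp (ι.symm.toMonoidHom.comp (f.subgroupComap P))
  have hG : Function.Surjective G := by
    intro s
    obtain ⟨z, rfl⟩ := hF s
    obtain ⟨l, hl, hlz⟩ := z.1.2
    have h6 : f l ∈ P := ⟨z.1, z.2, hlz.symm⟩
    refine ⟨⟨l, h6⟩, ?_⟩
    have h7 : (f.subgroupComap P) ⟨l, h6⟩ = ι z := by
      apply Subtype.ext
      change f l = (ι z : W)
      rw [hlz]
      rfl
    change F (ι.symm ((f.subgroupComap P) ⟨l, h6⟩)) = F z
    rw [h7, MulEquiv.symm_apply_apply]
  obtain ⟨x, hx, hGx⟩ := nk_K1 hc hK (fun T S hT hS => hT.eq_or_cm hS)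
    (fun T hT g => hT.conj g) (fun e he => cent_triv hK hO e he)
    (fun T hT => card_mulAut hc hT.2 (by
      have : Finite T := inferInstance
      exact h2 T inferInstance hT.2.1 fun x => Subtype.ext (hK.exp x.1))) Y hEY hYK hBg G hG
  apply hGx
  have h6 : (f.subgroupComap P) x = 1 := Subtype.ext ((hf x.1).2 hx)
  change F (ι.symm ((f.subgroupComap P) x)) = 1
  rw [h6, map_one, map_one]

end Pool.Agent.TH69.Ns
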