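import Mathlib
import Pool.Agent.TH69.NsP
import Pool.Agent.TH69.NsT
import Pool.Agent.TH69.NsU
import Pool.Agent.TH69.NsV0

set_option autoImplicit false

/-!
# Groups of exponent `n` with nonsoluble finite subgroups, section V: the number of layers
-/

namespace Pool.Agent.TH69.Ns

theorem sm_of_coprime {c n p m : ℕ} (hc : 0 < c) (hp : p.Prime) (hpc : p ∣ c)
    (hcop : Nat.Coprime p m) {K : Type} [Group K] (hK : Hy c n K) (hx : ∀ x : K, x ^ m = 1) :
    Sm c K := by
  intro S _ hS hne X f hf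
  have h1 : Nat.card S < c + 1 := hK.sm S hS hne X f hf
  by_contra hcon
  have h2 : Nat.card S = c := by omega
  have hfin : Finite S := Nat.finite_of_card_ne_zero (by omega)
  have := Fact.mk hp
  obtain ⟨s, hs⟩ := exists_prime_orderOf_dvd_card' (G := S) p (by rw [h2]; exact hpc)
  obtain ⟨x, rfl⟩ := hf s
  have h3 : (f x) ^ m = 1 := by
    rw [← map_pow]
    have h4 : x ^ m = 1 := Subtype.ext (by simpa using hx x.1)
    rw [h4, map_one]
  have h4 : p ∣ m := by
    rw [← hs]
    exact orderOf_dvd_of_pow_eq_one h3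
  have h5 : p ∣ 1 := by
    have h6 := Nat.dvd_gcd (dvd_refl p) h4
    rwa [Nat.Coprime.gcd_eq_one hcop] at h6
  exact hp.one_lt.ne' (Nat.dvd_one.1 h5)

theorem TL_of_exp {c n p m : ℕ} (hc : 0 < c) (hp : p.Prime) (hpc : p ∣ c)
    (hcop : Nat.Coprime p m) (h2 : TwoGen n) (a : ℕ) :
    ∀ (K : Type) [Group K], Hy c n K → (∀ x : K, x ^ (p ^ a * m) = 1) → TL c a K := by
  induction a with
  | zero =>
    intro K _ hK hx
    exact sm_of_coprime hc hp hpc hcop hK (by simpa using hx)
  | succ a ih =>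
    intro K _ hK hx
    obtain ⟨Q, _, f, hQ, hf⟩ := exists_Cq hK
    obtain ⟨L, hLn, hEL, hnorm, hSm⟩ := exists_K1 hc h2 hQ hf.triv
    have hQf : Finite Q := hQ.fin
    have hE : (EE c Q).Normal := EE_normal c Q
    have hxQ : ∀ x : Q, x ^ (p ^ (a + 1) * m) = 1 := by
      intro x
      obtain ⟨y, rfl⟩ := hf.surj x
      rw [← map_pow, hx, map_one]
    have hL : ∀ x : Q, x ^ (p ^ a * m) ∈ L := by
      intro x
      refine hnorm _ fun T hT => ?_
      have h3 := norm_of_pow' (c := c) (n := p ^ (a + 1) * m) (a := a) hp hpc rfl hcop hxQ hT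
        (x := x ^ m) (by rw [← pow_mul, mul_comm]; exact hxQ x)
      have h4 : (x ^ m) ^ p ^ a = x ^ (p ^ a * m) := by rw [← pow_mul, mul_comm]
      rw [h4] at h3
      exact h3
    have hQL : TL c a (Q ⧸ L) := by
      refine ih (Q ⧸ L) (hQ.of_surj (QuotientGroup.mk' L) (QuotientGroup.mk'_surjective L)) ?_
      intro x
      obtain ⟨y, rfl⟩ := QuotientGroup.mk'_surjective L x
      rw [← map_pow]
      exact (QuotientGroup.eq_one_iff _).2 (hL y)
    have hW : Hy c n (Q ⧸ EE c Q) :=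
      hQ.of_surj (QuotientGroup.mk' (EE c Q)) (QuotientGroup.mk'_surjective (EE c Q))
    let g : Q ⧸ EE c Q →* Q ⧸ L := QuotientGroup.map (EE c Q) L (MonoidHom.id Q) hEL
    have hgs : Function.Surjective g := by
      intro x
      obtain ⟨y, rfl⟩ := QuotientGroup.mk'_surjective L x
      exact ⟨(y : Q ⧸ EE c Q), rfl⟩
    have hker : g.ker ≤ L.map (QuotientGroup.mk' (EE c Q)) := by
      intro w hw
      obtain ⟨y, rfl⟩ := QuotientGroup.mk'_surjective (EE c Q) w
      have h3 : ((y : Q) : Q ⧸ L) = 1 := hw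
      exact ⟨y, (QuotientGroup.eq_one_iff y).1 h3, rfl⟩
    have hks : Sm c g.ker := by
      have h3 := hSm (Q ⧸ EE c Q) (QuotientGroup.mk' (EE c Q))
        (fun y => QuotientGroup.eq_one_iff y)
      exact h3.of_inj (Subgroup.inclusion hker) (Subgroup.inclusion_injective hker)
    have hTW : TL c a (Q ⧸ EE c Q) := TL.of_small hW g hgs hks hQL
    refine ⟨Q ⧸ EE c Q, inferInstance, (QuotientGroup.mk' (EE c Q)).comp f,
      (QuotientGroup.mk'_surjective (EE c Q)).comp hf.surj, fun e => ?_, hTW⟩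
    rw [InF.iff hK hf e]
    exact (QuotientGroup.eq_one_iff (f e)).symm

end Pool.Agent.TH69.Ns
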