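import Mathlib
import Pool.Agent.TH69.NsDefs2
import Pool.Agent.TH69.NsM
import Pool.Agent.TH69.NsP
import Pool.Agent.TH69.NsT

set_option autoImplicit false

namespace Pool.Agent.TH69.Ns

/-! ### Ns-W: groups with more layers have subgroups with few generators -/

theorem w_card_lt {c : ℕ} {B S : Type} [Group B] [Group S] (h : Sm c B) (hS : IsSimpleGroup S)
    (hab : ∃ a b : S, a * b ≠ b * a) (g : B →* S) (hg : Function.Surjective g) :
    Nat.card S < c := by
  refine h S hS hab ⊤ (g.comp (Subgroup.subtype ⊤)) ?_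
  intro y
  obtain ⟨x, hx⟩ := hg y
  exact ⟨⟨x, Subgroup.mem_top x⟩, by simpa using hx⟩

/-- lifting two generators -/
theorem w_lift_two {A Q : Type} [Group A] [Group Q] (k : A →* Q) (T : Subgroup Q)
    (hT : T ≤ k.range) (a b : T) (hab : Subgroup.closure {a, b} = ⊤) :
    ∃ u v : A, k u = a ∧ k v = b ∧ ∀ B : Subgroup A, u ∈ B → v ∈ B → T ≤ B.map k := by
  obtain ⟨u, hu⟩ := hT a.2
  obtain ⟨v, hv⟩ := hT b.2
  refine ⟨u, v, hu, hv, fun B hB1 hB2 t ht => ?_⟩
  have h1 : (⟨t, ht⟩ : T) ∈ Subgroup.closure {a, b} := by rw [hab]; exact Subgroup.mem_top _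
  have h2 : Subgroup.closure {a, b} ≤ (B.map k).subgroupOf T := by
    rw [Subgroup.closure_le]
    intro x hx
    rcases hx with rfl | hx
    · exact Subgroup.mem_subgroupOf.mpr ⟨u, hB1, hu⟩
    · rw [Set.mem_singleton_iff] at hx
      subst hx
      exact Subgroup.mem_subgroupOf.mpr ⟨v, hB2, hv⟩
  exact Subgroup.mem_subgroupOf.mp (h2 h1)

theorem w_sm_sub (c : ℕ) {K : Type} [Group K] [Subsingleton K] : Sm c K := by
  intro S _ hS hab X f hf
  obtain ⟨a, b, hne⟩ := hab
  exfalso
  obtain ⟨x, rfl⟩ := hf a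
  obtain ⟨y, rfl⟩ := hf b
  apply hne
  rw [Subsingleton.elim x y]

theorem w_hy_sub (c n : ℕ) {K : Type} [Group K] [Subsingleton K] : Hy c n K :=
  ⟨inferInstance, fun _ => Subsingleton.elim _ _, w_sm_sub _⟩

theorem w_tl_sub (c : ℕ) (j : ℕ) {K : Type} [Group K] [Subsingleton K] : TL c j K := by
  induction j with
  | zero => exact w_sm_sub c
  | succ j ih =>
    refine ⟨K, inferInstance, MonoidHom.id K, fun x => ⟨x, rfl⟩, fun e => ?_, ih⟩
    constructor
    · intro _
      exact Subsingleton.elim _ _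
    · intro _
      rw [Subsingleton.elim e 1]
      exact InF.one (n := 1) (w_hy_sub c 1)

/-- the exponent and finiteness of a simple group generated inside a section -/
theorem w_two {n : ℕ} (h2 : TwoGen n) {X S : Type} [Group X] [Group S] [Finite X]
    (hexp : ∀ x : X, x ^ n = 1) (hS : IsSimpleGroup S) (f : X →* S)
    (hf : Function.Surjective f) : ∃ a b : S, Subgroup.closure {a, b} = ⊤ := by
  refine h2 S (Finite.of_surjective f hf) hS ?_
  intro y
  obtain ⟨x, rfl⟩ := hf y
  rw [← map_pow, hexp x, map_one]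

/-- a component of `Q` seen in a subgroup -/
theorem w_cp_sub {c : ℕ} {Q : Type} [Group Q] {T : Subgroup Q} (hT : Cp c T)
    (P : Subgroup Q) (hTP : T ≤ P) : Cp c (T.subgroupOf P) := by
  refine ⟨hT.1.subgroupOf, ?_⟩
  have e : T ≃* (T.subgroupOf P) := (Subgroup.subgroupOfEquivOfLe hTP).symm
  obtain ⟨h1, h2, h3⟩ := hT.2
  have h4 := NsB.transport e h1 h2
  exact ⟨h4.1, h4.2, by rw [← h3]; exact Nat.card_congr e.symm.toEquiv⟩

/-- the data for one component -/
theorem w_comp_data {c n j : ℕ} {A Q : Type} [Group A] [Group Q] (hA : Hy c n A) (k : A →* Q)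
    (hk : Function.Surjective k) (L B : Subgroup A) (hLB : L ≤ B) (hB : TL c (j + 1) B)
    (T : Subgroup Q) (hT : Cp c T) (hTB : T ≤ B.map k) :
    ∃ (V : Type) (_ : Group V) (h : L →* V), Function.Surjective h ∧ TL c j V ∧
      ∀ x : L, h x = 1 → ActsInn T (k x) := by
  obtain ⟨W, iW, f, hf, hker, hW⟩ := hB
  have hyB : Hy c n B := Hy.of_inj B.subtype (Subgroup.subtype_injective B) hA
  have hyW : Hy c n W := Hy.of_surj f hf hyB
  let h0 : L →* W := f.comp (Subgroup.inclusion hLB)
  refine ⟨h0.range, inferInstance, h0.rangeRestrict, MonoidHom.rangeRestrict_surjective h0,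
    TL.of_inj hyW h0.range.subtype (Subgroup.subtype_injective _) hW, ?_⟩
  intro x hx
  have hx1 : f (Subgroup.inclusion hLB x) = 1 := by
    have := congrArg (Subgroup.subtype _) hx
    simpa [h0] using this
  have hF : InF c (Subgroup.inclusion hLB x) := (hker _).mpr hx1
  let g : B →* (B.map k) := (k.subgroupMap B)
  have hg : Function.Surjective g := k.subgroupMap_surjective B
  have hT' : Cp c (T.subgroupOf (B.map k)) := w_cp_sub hT _ hTB
  obtain ⟨t, ht, hact⟩ := InF.acts hyB g hg hF hT'
  refine ⟨t, Subgroup.mem_subgroupOf.mp ht, fun s hs => ?_⟩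
  have h1 := hact ⟨s, hTB hs⟩ (Subgroup.mem_subgroupOf.mpr hs)
  have h2 := congrArg (Subgroup.subtype _) h1
  simpa [g] using h2

/-- finite families -/
theorem w_fam_data {c n j : ℕ} {L ι : Type} [Group L] (hL : Hy c n L) (R : ι → L → Prop)
    (hdata : ∀ i, ∃ (V : Type) (_ : Group V) (h : L →* V), Function.Surjective h ∧ TL c j V ∧
      ∀ x : L, h x = 1 → R i x) (F : Finset ι) :
    ∃ (V : Type) (_ : Group V) (h : L →* V), Function.Surjective h ∧ TL c j V ∧
      ∀ x : L, h x = 1 → ∀ i ∈ F, R i x := by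
  classical
  induction F using Finset.induction_on with
  | empty =>
    refine ⟨PUnit, inferInstance, 1, fun y => ⟨1, Subsingleton.elim _ _⟩,
      w_tl_sub c j, fun x _ i hi => absurd hi (Finset.notMem_empty i)⟩
  | insert i F hi ih =>
    obtain ⟨V1, _, q1, hq1, ht1, hr1⟩ := ih
    obtain ⟨V2, _, q2, hq2, ht2, hr2⟩ := hdata i
    let q : L →* V1 × V2 := q1.prod q2
    have hyV : Hy c n q.range := Hy.of_surj q.rangeRestrict q.rangeRestrict_surjective hL
    refine ⟨q.range, inferInstance, q.rangeRestrict, q.rangeRestrict_surjective, ?_, ?_⟩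
    · refine TL.form hyV ((MonoidHom.fst V1 V2).comp q.range.subtype)
        ((MonoidHom.snd V1 V2).comp q.range.subtype) ?_ ?_ ?_ ht1 ht2
      · intro y
        obtain ⟨x, rfl⟩ := hq1 y
        exact ⟨q.rangeRestrict x, rfl⟩
      · intro y
        obtain ⟨x, rfl⟩ := hq2 y
        exact ⟨q.rangeRestrict x, rfl⟩
      · intro x h1 h2
        apply Subtype.ext
        exact Prod.ext h1 h2
    · intro x hx i' hi'
      have h1 : q x = 1 := congrArg (Subgroup.subtype _) hx
      have h2 : q1 x = 1 := congrArg Prod.fst h1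
      have h3 : q2 x = 1 := congrArg Prod.snd h1
      rcases Finset.mem_insert.mp hi' with rfl | h
      · exact hr2 x h3
      · exact hr1 x h2 i' h

theorem TL_gen {c n : ℕ} (h2 : TwoGen n) (j : ℕ) :
    ∀ (A : Type) [Group A], Hy c n A → ¬ TL c j A →
      ∃ s : Finset A, s.card ≤ 2 * (j + 1) ∧ ¬ TL c j (Subgroup.closure (s : Set A)) := by
  classical
  induction j with
  | zero =>
    intro A _ hA hn
    have hn' : ¬ Sm c A := hn
    unfold Sm at hn'
    push Not at hn'
    obtain ⟨S, iS, hS, hab, X, f, hf, hc⟩ := hn'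
    haveI := hA.fin
    obtain ⟨a, b, hgen⟩ := w_two h2 (X := X)
      (fun x => Subtype.ext (by simpa using hA.exp (x : A))) hS f hf
    obtain ⟨x, rfl⟩ := hf a
    obtain ⟨y, rfl⟩ := hf b
    refine ⟨{(x : A), (y : A)}, (Finset.card_le_two).trans (by norm_num), ?_⟩
    intro hB
    have hB' : Sm c (Subgroup.closure ((({(x : A), (y : A)} : Finset A)) : Set A)) := hB
    set B := Subgroup.closure ((({(x : A), (y : A)} : Finset A)) : Set A) with hBdef
    have hBX : B ≤ X := by
      rw [hBdef, Subgroup.closure_le]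
      intro z hz
      simp only [Finset.coe_insert, Finset.coe_singleton, Set.mem_insert_iff,
        Set.mem_singleton_iff] at hz
      rcases hz with rfl | rfl
      · exact x.2
      · exact y.2
    have hxB : (x : A) ∈ B := Subgroup.subset_closure (by simp)
    have hyB : (y : A) ∈ B := Subgroup.subset_closure (by simp)
    let g : B →* S := f.comp (Subgroup.inclusion hBX)
    have hg : Function.Surjective g := by
      rw [← MonoidHom.range_eq_top, eq_top_iff, ← hgen, Subgroup.closure_le]
      intro z hz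
      rcases hz with rfl | hz
      · exact ⟨⟨x, hxB⟩, rfl⟩
      · rw [Set.mem_singleton_iff] at hz
        subst hz
        exact ⟨⟨y, hyB⟩, rfl⟩
    exact absurd (w_card_lt hB' hS hab g hg) (not_lt.mpr hc)
  | succ j ih =>
    intro A _ hA hn
    by_contra hcon
    push Not at hcon
    haveI := hA.fin
    obtain ⟨W, iW, π, hπ, hyW, hker⟩ := exists_W hA
    have hnW : ¬ TL c j W := fun h => hn ⟨W, iW, π, hπ, hker, h⟩
    obtain ⟨s', hs', hns'⟩ := ih W hyW hnW
    set s0 : Finset A := s'.image (Function.surjInv hπ) with hs0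
    have hs0c : s0.card ≤ 2 * (j + 1) := Finset.card_image_le.trans hs'
    have himg : π '' (s0 : Set A) = (s' : Set W) := by
      rw [hs0, Finset.coe_image, ← Set.image_comp]
      have : (π : A → W) ∘ Function.surjInv hπ = id :=
        funext fun w => Function.surjInv_eq hπ w
      rw [this, Set.image_id]
    set L : Subgroup A := Subgroup.closure (s0 : Set A) with hLdef
    have hmapL : L.map π = Subgroup.closure (s' : Set W) := by
      rw [hLdef, MonoidHom.map_closure, himg]
    obtain ⟨Q, iQ, k, hyQ, hk⟩ := exists_Cq hA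
    haveI := hyQ.fin
    have hyL : Hy c n L := Hy.of_inj L.subtype (Subgroup.subtype_injective L) hA
    -- the data
    have hdata : ∀ T : {T : Subgroup Q // Cp c T},
        ∃ (V : Type) (_ : Group V) (h : L →* V), Function.Surjective h ∧ TL c j V ∧
          ∀ x : L, h x = 1 → ActsInn T.1 (k x) := by
      intro T
      obtain ⟨a, b, hgen⟩ := h2 T.1 inferInstance T.2.2.1
        (fun x => Subtype.ext (by simpa using hyQ.exp (x : Q)))
      obtain ⟨u, v, -, -, huv⟩ := w_lift_two k T.1
        (by rw [MonoidHom.range_eq_top.mpr hk.surj]; exact le_top) a b hgen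
      set s1 : Finset A := s0 ∪ {u, v} with hs1
      have hs1c : s1.card ≤ 2 * (j + 1 + 1) := by
        calc s1.card ≤ s0.card + ({u, v} : Finset A).card := Finset.card_union_le _ _
          _ ≤ 2 * (j + 1) + 2 := Nat.add_le_add hs0c Finset.card_le_two
          _ = 2 * (j + 1 + 1) := by ring
      refine w_comp_data hA k hk.surj L (Subgroup.closure (s1 : Set A)) ?_ (hcon s1 hs1c) T.1 T.2 ?_
      · exact Subgroup.closure_mono (by rw [hs1, Finset.coe_union]; exact Set.subset_union_left)
      · exact huv _ (Subgroup.subset_closure (by simp [hs1]))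
          (Subgroup.subset_closure (by simp [hs1]))
    haveI : Finite {T : Subgroup Q // Cp c T} := inferInstance
    letI := Fintype.ofFinite {T : Subgroup Q // Cp c T}
    obtain ⟨V, iV, q, hq, htV, hr⟩ := w_fam_data hyL
      (fun (T : {T : Subgroup Q // Cp c T}) (x : L) => ActsInn T.1 (k x)) hdata Finset.univ
    have hkill : ∀ x : L, q x = 1 → π x = 1 := by
      intro x hx
      rw [← hker, InF.iff hA hk, mem_EE_iff hyQ hk.triv]
      intro T hT
      exact hr x hx ⟨T, hT⟩ (Finset.mem_univ _)
    -- the quotient of `V`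
    have hyV : Hy c n V := Hy.of_surj q hq hyL
    let ρ : L →* L.map π := π.subgroupMap L
    have hρ : Function.Surjective ρ := π.subgroupMap_surjective L
    have hle : q.ker ≤ ρ.ker := by
      intro x hx
      rw [MonoidHom.mem_ker] at hx ⊢
      exact Subtype.ext (hkill x hx)
    let σ : V →* L.map π := q.liftOfSurjective hq ⟨ρ, hle⟩
    have hσ : Function.Surjective σ := by
      intro y
      obtain ⟨x, rfl⟩ := hρ y
      exact ⟨q x, MonoidHom.liftOfRightInverse_comp_apply _ _ _ ⟨ρ, hle⟩ x⟩
    have hfin : TL c j (L.map π) := TL.of_surj hyV σ hσ htV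
    rw [hmapL] at hfin
    exact hns' hfin

end Pool.Agent.TH69.Ns
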