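import Mathlib
import Pool.Agent.TH69.NsX
import Pool.Agent.TH69.NsJ
import Pool.Agent.TH69.MtnG

set_option autoImplicit false

/-!
# Groups of exponent `n` with nonsoluble finite subgroups, section Y: groups with one layer
-/

namespace Pool.Agent.TH69.Ns.X

open Pool.Agent.H32BU Pool.Agent.TH69.Mtn Pool.Agent.TH69.Ns

variable {c n N k : ℕ} {G : Type} [Group G]

theorem star (hc : 0 < c) (hk : 6 ≤ k) (h2 : TwoGen n) (h : HK (c + 1) n N k G)
    (hL : ∀ s : Finset G, s.card ≤ k → L1 c (Subgroup.closure (s : Set G)))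
    (hR : ∀ e ∈ RR c G, e = 1) : ∀ A ∈ VV c G, ∀ B ∈ VV c G, ∀ C ∈ VV c G, Cm A B →
      ∀ E ∈ VV c G, E ≤ A ⊔ C → (∀ g ∈ A ⊔ C, ∀ x ∈ E, g * x * g⁻¹ ∈ E) → ¬ Cm A E →
        Cm B E := by
  intro A hA B hB C hC hAB E hE hEle hEn hnot b hb x hx
  obtain ⟨a1, a2, ha⟩ := two_gen hc h h2 hA
  obtain ⟨b1, b2, hb'⟩ := two_gen hc h h2 hB
  obtain ⟨c1, c2, hc'⟩ := two_gen hc h h2 hC
  obtain ⟨e1, e2, he'⟩ := two_gen hc h h2 hE
  have h6 := sup_eq_six ha hb' hc'
  have hpf : Pf c (A ⊔ B ⊔ C : Subgroup G) := pf_sup (pf_sup (Bg.pf hA) (Bg.pf hB)) (Bg.pf hC)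
  obtain ⟨K, hKdef⟩ : ∃ K : Subgroup G, K = A ⊔ B ⊔ C := ⟨_, rfl⟩
  rw [← hKdef] at hpf h6
  have hK : Hy c n K := by
    rw [h6]
    exact h.hy6 hk _ _ _ _ _ _
  have hAK : A ≤ K := hKdef ▸ le_sup_left.trans le_sup_left
  have hBK : B ≤ K := hKdef ▸ le_sup_right.trans le_sup_left
  have hCK : C ≤ K := hKdef ▸ le_sup_right
  have hEK : E ≤ K := hEle.trans (sup_le hAK hCK)
  obtain ⟨Q, _, f, hQ, hf⟩ := exists_Cq' hK
  have hQO := hf.triv
  have hLK : L1 c K := by
    rw [h6]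
    exact l1_six hk hL _ _ _ _ _ _
  have hEQ : EE c Q = ⊤ := by
    rw [eq_top_iff]
    intro q _
    obtain ⟨x, rfl⟩ := hf.surj q
    exact hLK Q f hf K hpf f x
  have hbK : b ∈ K := hBK hb
  have hxK : x ∈ K := hEK hx
  have hw : b * x * b⁻¹ * x⁻¹ ∈ K := mul_mem (mul_mem (mul_mem hbK hxK) (inv_mem hbK)) (inv_mem hxK)
  have hfw : f ⟨b * x * b⁻¹ * x⁻¹, hw⟩ = 1 := by
    refine cent_triv hQ hQO _ fun T hT t ht => ?_
    obtain ⟨κ, hκ⟩ := exists_proj hT f fun a => by rw [hEQ]; exact Subgroup.mem_top _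
    have hTfin : Finite T := Nat.finite_of_card_ne_zero (by rw [hT.2.2.2]; omega)
    -- homomorphisms of simple groups are trivial or injective
    have hdich : ∀ (S : Subgroup G) (hS : S ∈ VV c G) (hSK : S ≤ K),
        (∀ s (hs : s ∈ S), κ ⟨s, hSK hs⟩ = 1) ∨
          Function.Injective (κ.comp (Subgroup.inclusion hSK)) := by
      intro S hS hSK
      rcases hS.1.eq_bot_or_eq_top_of_normal (κ.comp (Subgroup.inclusion hSK)).ker
        inferInstance with h3 | h3
      · exact Or.inr ((MonoidHom.ker_eq_bot_iff _).1 h3)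
      · left
        intro s hs
        have h4 : (⟨s, hs⟩ : S) ∈ (κ.comp (Subgroup.inclusion hSK)).ker := by
          rw [h3]
          exact Subgroup.mem_top _
        exact h4
    have hκw : κ ⟨b * x * b⁻¹ * x⁻¹, hw⟩ = 1 := by
      have e3 : (⟨b * x * b⁻¹ * x⁻¹, hw⟩ : K) =
          ⟨b, hbK⟩ * ⟨x, hxK⟩ * ⟨b, hbK⟩⁻¹ * ⟨x, hxK⟩⁻¹ := rfl
      rw [e3, map_mul, map_mul, map_mul, map_inv, map_inv]
      rcases hdich B hB hBK with h3 | h3
      · rw [h3 b hb]
        group
      · -- `B` is mapped onto `T`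
        have hsurj : Function.Surjective (κ.comp (Subgroup.inclusion hBK)) := by
          have hBfin : Finite B := Nat.finite_of_card_ne_zero (by rw [hB.2.2]; omega)
          have := Fintype.ofFinite B
          have := Fintype.ofFinite T
          refine ((Fintype.bijective_iff_injective_and_card _).2 ⟨h3, ?_⟩).2
          rw [← Nat.card_eq_fintype_card, ← Nat.card_eq_fintype_card, hB.2.2, hT.2.2.2]
        have hA1 : ∀ a (haA : a ∈ A), κ ⟨a, hAK haA⟩ = 1 := by
          intro a haA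
          apply Subtype.ext
          refine centre_triv hT.2.1 hT.2.2.1 (κ ⟨a, hAK haA⟩).2 fun u hu => ?_
          obtain ⟨b', hb'u⟩ := hsurj ⟨u, hu⟩
          have h4 : (κ.comp (Subgroup.inclusion hBK)) b' = κ ⟨b'.1, hBK b'.2⟩ := rfl
          rw [h4] at hb'u
          have h5 : (⟨a, hAK haA⟩ : K) * ⟨b'.1, hBK b'.2⟩ = ⟨b'.1, hBK b'.2⟩ * ⟨a, hAK haA⟩ :=
            Subtype.ext (hAB a haA b'.1 b'.2)
          have h6 := congrArg κ h5
          rw [map_mul, map_mul, hb'u] at h6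
          exact congrArg Subtype.val h6
        rcases hdich E hE hEK with h4 | h4
        · rw [h4 x hx]
          group
        · exfalso
          apply hnot
          intro a haA y hy
          have hay : a * y * a⁻¹ ∈ E := hEn a ((le_sup_left : A ≤ A ⊔ C) haA) y hy
          have h5 : (κ.comp (Subgroup.inclusion hEK)) ⟨a * y * a⁻¹, hay⟩ =
              (κ.comp (Subgroup.inclusion hEK)) ⟨y, hy⟩ := by
            change κ (⟨a, hAK haA⟩ * ⟨y, hEK hy⟩ * ⟨a, hAK haA⟩⁻¹) = κ ⟨y, hEK hy⟩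
            rw [map_mul, map_mul, map_inv, hA1 a haA]
            group
          have h6 := congrArg Subtype.val (h4 h5)
          exact mul_inv_eq_iff_eq_mul.1 h6
    have h7 := hκ ⟨b * x * b⁻¹ * x⁻¹, hw⟩ t ht
    rw [hκw] at h7
    have h8 : f ⟨b * x * b⁻¹ * x⁻¹, hw⟩ * t * (f ⟨b * x * b⁻¹ * x⁻¹, hw⟩)⁻¹ = t := by
      rw [h7]
      simp
    exact mul_inv_eq_iff_eq_mul.1 h8
  have h3 : InO c K (b * x * b⁻¹ * x⁻¹) := inO_top hw ((hf.ker _).2 hfw)
  have hWK : B ⊔ E ≤ K := sup_le hBK hEK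
  have hbW : b ∈ B ⊔ E := (le_sup_left : B ≤ B ⊔ E) hb
  have hxW : x ∈ B ⊔ E := (le_sup_right : E ≤ B ⊔ E) hx
  have h4 : InO c (B ⊔ E) (b * x * b⁻¹ * x⁻¹) :=
    h3.mono hWK (mul_mem (mul_mem (mul_mem hbW hxW) (inv_mem hbW)) (inv_mem hxW))
  have h5 : b * x * b⁻¹ * x⁻¹ = 1 := by
    have hpf2 : Pf c (B ⊔ E : Subgroup G) := pf_sup (Bg.pf hB) (Bg.pf hE)
    rw [sup_eq_four hb' he'] at h4 hpf2
    exact four_triv hc hk h hL hR hpf2 h4
  have h6 := mul_inv_eq_one.1 h5
  exact mul_inv_eq_iff_eq_mul.1 h6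

/-- conjugates of simple subgroups -/
theorem VV_conj {T : Subgroup G} (hT : T ∈ VV c G) (g : G) :
    T.map (MulAut.conj g).toMonoidHom ∈ VV c G :=
  Bg.of_equiv (T.equivMapOfInjective _ (MulAut.conj g).injective) hT

theorem VV_normal (c : ℕ) (G : Type) [Group G] : (sSup (VV c G) : Subgroup G).Normal := by
  refine ⟨fun x hx g => ?_⟩
  have h1 : sSup (VV c G) ≤ (sSup (VV c G)).comap (MulAut.conj g).toMonoidHom := by
    refine sSup_le fun T hT => ?_
    rw [← Subgroup.map_le_iff_le_comap]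
    exact le_sSup (VV_conj hT g)
  exact h1 hx

theorem VV_LF (hc : 0 < c) (hk : 6 ≤ k) (h2 : TwoGen n) (h : HK (c + 1) n N k G)
    (hL : ∀ s : Finset G, s.card ≤ k → L1 c (Subgroup.closure (s : Set G)))
    (hR : ∀ e ∈ RR c G, e = 1) : LF (sSup (VV c G) : Subgroup G) := by
  classical
  intro s
  have h3 := lf_T hc (VV c G) (fun T hT => hT) (two_comp hc hk h2 h hL hR) (star hc hk h2 h hL hR)
    (s.image (fun x : (sSup (VV c G) : Subgroup G) => (x : G))) (by
      intro x hx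
      rw [Finset.coe_image] at hx
      obtain ⟨y, -, rfl⟩ := hx
      exact y.2)
  have e : (Subgroup.closure (s : Set (sSup (VV c G) : Subgroup G))).map
      (sSup (VV c G) : Subgroup G).subtype = Subgroup.closure
        ((s.image (fun x : (sSup (VV c G) : Subgroup G) => (x : G)) : Finset G) : Set G) := by
    rw [MonoidHom.map_closure, Finset.coe_image]
    rfl
  rw [← e] at h3
  exact Finite.of_equiv _ ((Subgroup.closure (s : Set (sSup (VV c G) : Subgroup G))).equivMapOfInjective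
    _ (Subgroup.subtype_injective _)).symm.toEquiv

/-- without simple subgroups of order `c` there are no sections of order `c` -/
theorem sm_all (hc : 0 < c) (hk : 6 ≤ k) (h2 : TwoGen n) (h : HK (c + 1) n N k G)
    (hL : ∀ s : Finset G, s.card ≤ k → L1 c (Subgroup.closure (s : Set G)))
    (hR : ∀ e ∈ RR c G, e = 1) (hV : ∀ T : Subgroup G, T ∉ VV c G) : HK c n N k G := by
  classical
  refine ⟨h.exp, fun s hs => ⟨(h.gen s hs).1, (h.gen s hs).2.1, ?_⟩⟩
  have hK := h.hy s hs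
  obtain ⟨K, hKdef⟩ : ∃ K : Subgroup G, K = Subgroup.closure (s : Set G) := ⟨_, rfl⟩
  rw [← hKdef] at hK ⊢
  by_contra hns
  have hKfin := hK.fin
  obtain ⟨𝒮, h𝒮⟩ : ∃ 𝒮 : Set (Subgroup G), 𝒮 = {A | A ≤ K ∧ ¬ Sm c A} := ⟨_, rfl⟩
  have hfin : 𝒮.Finite := by
    have h1 : (Set.range fun A : Subgroup K => A.map K.subtype).Finite := Set.finite_range _
    refine h1.subset ?_
    intro A hA
    rw [h𝒮] at hA
    refine ⟨A.subgroupOf K, ?_⟩
    simp only [Subgroup.subgroupOf_map_subtype]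
    exact inf_eq_left.2 hA.1
  obtain ⟨A, hA, hmin⟩ := hfin.exists_minimal ⟨K, by rw [h𝒮]; exact ⟨le_rfl, hns⟩⟩
  rw [h𝒮] at hA
  obtain ⟨hAK, hAns⟩ := hA
  have hAmin : ∀ B : Subgroup G, B ≤ A → ¬ Sm c B → A ≤ B := by
    intro B hB hBns
    exact hmin (by rw [h𝒮]; exact ⟨hB.trans hAK, hBns⟩) hB
  have hAfin : Finite A := Finite.of_injective _ (Subgroup.inclusion_injective hAK)
  have hAhy : Hy c n A := hK.of_inj (Subgroup.inclusion hAK) (Subgroup.inclusion_injective hAK)
  -- `A` is perfect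
  have hpf : Pf c A := by
    intro Q _ hQfin hQ g a
    by_contra hga
    have h3 : Sm c g.ker := by
      by_contra h4
      have h5 : ¬ Sm c (g.ker.map A.subtype) := by
        intro h6
        apply h4
        exact h6.of_inj (g.ker.equivMapOfInjective A.subtype A.subtype_injective).toMonoidHom
          (g.ker.equivMapOfInjective A.subtype A.subtype_injective).injective
      have h6 := hAmin _ (Subgroup.map_subtype_le g.ker) h5
      obtain ⟨y, hy, hya⟩ := h6 a.2
      have : y = a := Subtype.ext hya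
      rw [← this] at hga
      exact hga hy
    refine hAns (Sm.ext g.ker h3 ?_)
    exact hQ.of_inj (QuotientGroup.kerLift g) (QuotientGroup.kerLift_injective g)
  -- a section
  have hsec := hAns
  unfold Sm at hsec
  push Not at hsec
  obtain ⟨S, hS, hS1, hS2, X, f, hf, hcard⟩ := hsec
  have hcardS : Nat.card S < c + 1 := hAhy.sm S hS1 hS2 X f hf
  have hSbg : Bg c S := ⟨hS1, hS2, by omega⟩
  have hSfin : Finite S := Finite.of_surjective f hf
  have hSexp : ∀ x : S, x ^ n = 1 := by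
    intro x
    obtain ⟨y, rfl⟩ := hf x
    rw [← map_pow]
    have : y ^ n = 1 := Subtype.ext (hAhy.exp y.1)
    rw [this, map_one]
  obtain ⟨s1, s2, hs12⟩ := h2 S hSfin hS1 hSexp
  obtain ⟨x1, hx1⟩ := hf s1
  obtain ⟨x2, hx2⟩ := hf s2
  -- every subgroup of `X` which is mapped onto `S` is `A`
  have hbig : ∀ Y : Subgroup A, (hYX : Y ≤ X) →
      Function.Surjective (f.comp (Subgroup.inclusion hYX)) → ∀ a : A, a ∈ Y := by
    intro Y hYX hsurj a
    have h3 : ¬ Sm c (Y.map A.subtype) := by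
      intro h4
      have h5 : Sm c Y := h4.of_inj (Y.equivMapOfInjective A.subtype A.subtype_injective).toMonoidHom
          (Y.equivMapOfInjective A.subtype A.subtype_injective).injective
      exact Sm.not_Bg hSbg (h5.of_surj _ hsurj)
    obtain ⟨y, hy, hya⟩ := hAmin _ (Subgroup.map_subtype_le Y) h3 a.2
    have : y = a := Subtype.ext hya
    rwa [← this]
  have hgen : ∀ a : A, a ∈ Subgroup.closure {x1.1, x2.1} := by
    have hle : Subgroup.closure {x1.1, x2.1} ≤ X := by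
      rw [Subgroup.closure_le]
      rintro _ (rfl | rfl)
      · exact x1.2
      · exact x2.2
    refine hbig _ hle ?_
    rw [← MonoidHom.range_eq_top, eq_top_iff, ← hs12, Subgroup.closure_le]
    rintro _ (rfl | rfl)
    · exact ⟨⟨x1.1, Subgroup.subset_closure (by simp)⟩, hx1⟩
    · exact ⟨⟨x2.1, Subgroup.subset_closure (by simp)⟩, hx2⟩
  have hXtop : ∀ a : A, a ∈ X := hbig X le_rfl (by
    intro s
    obtain ⟨x, hx⟩ := hf s
    exact ⟨x, hx⟩)
  have hAgen : A = Subgroup.closure {x1.1.1, x2.1.1, x1.1.1, x2.1.1} := by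
    apply le_antisymm
    · intro a ha
      have h3 := hgen ⟨a, ha⟩
      have h4 : a ∈ (Subgroup.closure {x1.1, x2.1}).map A.subtype := ⟨⟨a, ha⟩, h3, rfl⟩
      rw [MonoidHom.map_closure, Set.image_pair] at h4
      refine Subgroup.closure_mono ?_ h4
      intro z hz
      simp only [Set.mem_insert_iff, Set.mem_singleton_iff] at hz ⊢
      tauto
    · rw [Subgroup.closure_le]
      rintro _ (rfl | rfl | rfl | rfl)
      · exact x1.1.2
      · exact x2.1.2
      · exact x1.1.2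
      · exact x2.1.2
  -- the kernel is trivial
  let f' : A →* S := f.comp ((MonoidHom.id A).codRestrict X hXtop)
  have hf' : Function.Surjective f' := by
    intro s
    obtain ⟨x, hx⟩ := hf s
    exact ⟨x.1, hx⟩
  have hinj : Function.Injective f' := by
    rw [injective_iff_map_eq_one]
    intro a ha
    have h3 : Sm c (f'.ker.map A.subtype) := by
      by_contra h4
      have h5 := hAmin _ (Subgroup.map_subtype_le f'.ker) h4
      obtain ⟨u, v, huv⟩ := hS2
      obtain ⟨u, rfl⟩ := hf' u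
      obtain ⟨y, hy, hya⟩ := h5 u.2
      have e3 : y = u := Subtype.ext hya
      have h6 : f' u = 1 := e3 ▸ hy
      rw [h6] at huv
      exact huv (by group)
    have h4 : InO c A a.1 := by
      refine ⟨f'.ker.map A.subtype, Subgroup.map_subtype_le _, ?_, h3, ⟨a, ha, rfl⟩⟩
      rintro g hg _ ⟨y, hy, rfl⟩
      refine ⟨⟨g, hg⟩ * y * ⟨g, hg⟩⁻¹, ?_, rfl⟩
      have hker : f'.ker.Normal := inferInstance
      exact hker.conj_mem y hy ⟨g, hg⟩
    obtain ⟨u1, u2, hu⟩ : ∃ u1 u2 : G, A = Subgroup.closure {u1, u2, u1, u2} := ⟨_, _, hAgen⟩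
    have key : ∀ e : G, InO c A e → e = 1 := by
      rw [hu] at hpf ⊢
      exact fun e he => four_triv hc hk h hL hR hpf he
    exact Subtype.ext (key a.1 h4)
  exact hV A (Bg.of_equiv (MulEquiv.ofBijective f' ⟨hinj, hf'⟩).symm hSbg)

/-- one step of the induction, for groups with trivial locally finite radical -/
theorem triv_step (hc : 0 < c) (hk : 6 ≤ k) (h2 : TwoGen n) (h : HK (c + 1) n N k G)
    (hL : ∀ s : Finset G, s.card ≤ k → L1 c (Subgroup.closure (s : Set G)))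
    (IH : ∀ (G : Type) [Group G], HK c n N k G → LF G)
    (hrad : ∀ M : Subgroup G, M.Normal → LF M → M = ⊥) (g : G) : g = 1 := by
  have hR : ∀ e ∈ RR c G, e = 1 := by
    intro e he
    have h3 := hrad (RSub hk h h2) (RSub_normal hk h h2) (IH _ (h.sub hk h2))
    have h4 : e ∈ RSub hk h h2 := he
    rw [h3] at h4
    exact Subgroup.mem_bot.1 h4
  have hV : ∀ T : Subgroup G, T ∉ VV c G := by
    intro T hT
    have h3 := hrad _ (VV_normal c G) (VV_LF hc hk h2 h hL hR)
    have h4 : T ≤ ⊥ := h3 ▸ le_sSup hT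
    obtain ⟨a, b, hab⟩ := hT.2.1
    apply hab
    have h5 : a = 1 := Subtype.ext (Subgroup.mem_bot.1 (h4 a.2))
    rw [h5, one_mul, mul_one]
  have h3 : HK c n N k G := sm_all hc hk h2 h hL hR hV
  have h4 := hrad ⊤ inferInstance (x_LFS.2.1 _ G (⊤ : Subgroup G).subtype
    (Subgroup.subtype_injective _) (IH G h3))
  have h5 : g ∈ (⊤ : Subgroup G) := Subgroup.mem_top g
  rw [h4] at h5
  exact Subgroup.mem_bot.1 h5

end Pool.Agent.TH69.Ns.X
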