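import Mathlib
import Pool.Agent.TH69.NsZ

set_option autoImplicit false

/-!
# Groups of exponent `n` with nonsoluble finite subgroups, section ZA: local finiteness for all `n`
-/

namespace Pool.Agent.TH69.Ns.X

open Pool.Agent.H32BU Pool.Agent.TH69.Mtn Pool.Agent.TH69.Ns

variable {c n N k : ℕ} {G : Type} [Group G]

/-- Burnside's theorem gives three prime divisors of `c` -/
theorem prime_of {c n v : ℕ}
    (h2 : ∃ p q : ℕ, ∀ r : ℕ, r.Prime → r ^ (v + 1) ∣ n → r = p ∨ r = q)
    {T : Type} [Group T] [Finite T] (hT : Bg c T) (hexp : ∀ x : T, x ^ n = 1) :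
    ∃ r : ℕ, r.Prime ∧ r ∣ c ∧ r ∣ n ∧ ¬ r ^ (v + 1) ∣ n := by
  obtain ⟨p, q, hpq⟩ := h2
  have hcard : Nat.card T = c := hT.2.2
  have hc0 : c ≠ 0 := by
    rw [← hcard]
    exact Nat.card_pos.ne'
  by_contra hno
  -- every prime divisor of `c` is `p` or `q`
  have key : ∀ r : ℕ, r.Prime → r ∣ c → r = p ∨ r = q := by
    intro r hr hrc
    haveI : Fact r.Prime := ⟨hr⟩
    have hrn : r ∣ n := by
      obtain ⟨x, hx⟩ := exists_prime_orderOf_dvd_card' r (by rw [hcard]; exact hrc : r ∣ Nat.card T)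
      rw [← hx]
      exact orderOf_dvd_of_pow_eq_one (hexp x)
    by_cases h2 : r ^ (v + 1) ∣ n
    · exact hpq r hr h2
    · exact absurd ⟨r, hr, hrc, hrn, h2⟩ hno
  -- so `c` is a product of powers of two primes
  have hsol : Group.IsSolvable T := by
    have hfac := Nat.factorization_prod_pow_eq_self hc0
    obtain ⟨p', q', hp', hq', hsub⟩ : ∃ p' q' : ℕ, p'.Prime ∧ q'.Prime ∧
        ∀ r ∈ c.primeFactors, r = p' ∨ r = q' := by
      refine ⟨if p.Prime then p else 2, if q.Prime then q else 2, ?_, ?_, ?_⟩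
      · split_ifs with h
        · exact h
        · exact Nat.prime_two
      · split_ifs with h
        · exact h
        · exact Nat.prime_two
      · intro r hr
        have hr1 := Nat.prime_of_mem_primeFactors hr
        rcases key r hr1 (Nat.dvd_of_mem_primeFactors hr) with rfl | rfl
        · left; rw [if_pos hr1]
        · right; rw [if_pos hr1]
    obtain ⟨i, j, hij⟩ : ∃ i j : ℕ, c = p' ^ i * q' ^ j := by
      by_cases hne : p' = q'
      · refine ⟨c.factorization p', 0, ?_⟩
        rw [pow_zero, mul_one]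
        conv_lhs => rw [← hfac]
        rw [Finsupp.prod_of_support_subset (s := {p'}) _ ?_ _ (by simp)]
        · simp
        · intro r hr
          rw [Nat.support_factorization] at hr
          rcases hsub r hr with h | h
          · simp [h]
          · simp [h, hne]
      · refine ⟨c.factorization p', c.factorization q', ?_⟩
        conv_lhs => rw [← hfac]
        rw [Finsupp.prod_of_support_subset (s := {p', q'}) _ ?_ _ (by simp)]
        · rw [Finset.prod_pair hne]
        · intro r hr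
          rw [Nat.support_factorization] at hr
          rcases hsub r hr with h | h <;> simp [h]
    exact H32BU.x_BUR T p' q' i j hp' hq' (hcard.trans hij)
  have hsim := hT.1
  obtain ⟨a, b, hab⟩ := hT.2.1
  haveI := hsim
  exact hab (IsSimpleGroup.comm_iff_isSolvable.2 hsol a b)


theorem down (hk : 6 ≤ k) (h2 : TwoGen n) (h : HK (c + 1) n N k G)
    (hR1 : ∀ e ∈ R1 c G, e = 1) (j : ℕ) (hj : 2 * (j + 1) + 2 ≤ k)
    (hT : ∀ s : Finset G, s.card ≤ k → TL c (j + 1) (Subgroup.closure (s : Set G))) :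
    ∀ s : Finset G, s.card ≤ k → TL c j (Subgroup.closure (s : Set G)) := by
  classical
  intro s hs
  by_contra hns
  obtain ⟨s', hs', hns'⟩ := TL_gen h2 j _ (h.hy s hs) hns
  obtain ⟨t, ht⟩ : ∃ t : Finset G, t = s'.image (fun x : Subgroup.closure (s : Set G) => (x : G)) :=
    ⟨_, rfl⟩
  have htc : t.card ≤ 2 * (j + 1) := by
    rw [ht]
    exact Finset.card_image_le.trans hs'
  have hle : ∀ z ∈ Subgroup.closure (s' : Set (Subgroup.closure (s : Set G))),
      (z : G) ∈ Subgroup.closure (t : Set G) := by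
    intro z hz
    have e : (Subgroup.closure (s' : Set (Subgroup.closure (s : Set G)))).map
        (Subgroup.closure (s : Set G)).subtype = Subgroup.closure (t : Set G) := by
      rw [MonoidHom.map_closure, ht, Finset.coe_image]
      rfl
    rw [← e]
    exact ⟨z, hz, rfl⟩
  have hA := h.hy t (by omega)
  obtain ⟨A, hAdef⟩ : ∃ A : Subgroup G, A = Subgroup.closure (t : Set G) := ⟨_, rfl⟩
  rw [← hAdef] at hA
  have hAns : ¬ TL c j A := by
    intro hA'
    apply hns'
    let φ : Subgroup.closure (s' : Set (Subgroup.closure (s : Set G))) →* A :=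
      ((Subgroup.closure (s : Set G)).subtype.comp (Subgroup.subtype _)).codRestrict _
        fun x => hAdef ▸ hle x.1 x.2
    have hφ : Function.Injective φ := by
      intro a b hab
      have h4 := congrArg (fun w : A => (w : G)) hab
      exact Subtype.ext (Subtype.ext h4)
    exact TL.of_inj hA φ hφ hA'
  have hAfin := hA.fin
  -- the least normal subgroup with a quotient with at most `j` layers
  obtain ⟨𝒟, h𝒟⟩ : ∃ 𝒟 : Set (Subgroup A), 𝒟 = {D | ∃ (W : Type) (_ : Group W) (f : A →* W),
    Function.Surjective f ∧ f.ker = D ∧ TL c j W} := ⟨_, rfl⟩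
  have hinf : ∀ D₁ ∈ 𝒟, ∀ D₂ ∈ 𝒟, D₁ ⊓ D₂ ∈ 𝒟 := by
    intro D₁ hD₁ D₂ hD₂
    rw [h𝒟] at hD₁ hD₂ ⊢
    obtain ⟨W₁, _, f₁, hf₁, rfl, hW₁⟩ := hD₁
    obtain ⟨W₂, _, f₂, hf₂, rfl, hW₂⟩ := hD₂
    refine ⟨A ⧸ (f₁.ker ⊓ f₂.ker), inferInstance, QuotientGroup.mk' _,
      QuotientGroup.mk'_surjective _, QuotientGroup.ker_mk' _, ?_⟩
    let g₁ : A ⧸ (f₁.ker ⊓ f₂.ker) →* W₁ := QuotientGroup.lift _ f₁ inf_le_left
    let g₂ : A ⧸ (f₁.ker ⊓ f₂.ker) →* W₂ := QuotientGroup.lift _ f₂ inf_le_right
    refine TL.form (hA.of_surj (QuotientGroup.mk' (f₁.ker ⊓ f₂.ker))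
      (QuotientGroup.mk'_surjective _)) g₁ g₂ ?_ ?_ ?_ hW₁ hW₂
    · intro w
      obtain ⟨x, rfl⟩ := hf₁ w
      exact ⟨(x : A ⧸ (f₁.ker ⊓ f₂.ker)), rfl⟩
    · intro w
      obtain ⟨x, rfl⟩ := hf₂ w
      exact ⟨(x : A ⧸ (f₁.ker ⊓ f₂.ker)), rfl⟩
    · intro x h3 h4
      obtain ⟨x, rfl⟩ := QuotientGroup.mk_surjective x
      rw [QuotientGroup.eq_one_iff]
      exact ⟨h3, h4⟩
  -- members from larger subgroups
  have hmem : ∀ y z : G, ∃ (K : Subgroup G) (hAK : A ≤ K), y ∈ K ∧ z ∈ K ∧ Hy c n K ∧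
      ∃ D ∈ 𝒟, ∀ e : A, e ∈ D → InF c (Subgroup.inclusion hAK e) := by
    intro y z
    obtain ⟨t', ht'⟩ : ∃ t' : Finset G, t' = insert y (insert z t) := ⟨_, rfl⟩
    have htc' : t'.card ≤ k := by
      rw [ht']
      have h3 := Finset.card_insert_le y (insert z t)
      have h4 := Finset.card_insert_le z t
      omega
    have hAK : A ≤ Subgroup.closure (t' : Set G) := by
      rw [hAdef]
      apply Subgroup.closure_mono
      intro x hx
      rw [ht', Finset.mem_coe]
      exact Finset.mem_insert_of_mem (Finset.mem_insert_of_mem hx)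
    have hK := h.hy t' htc'
    obtain ⟨W, _, f, hf, hfk, hW⟩ := hT t' htc'
    refine ⟨Subgroup.closure (t' : Set G), hAK, Subgroup.subset_closure ?_,
      Subgroup.subset_closure ?_, hK, (f.comp (Subgroup.inclusion hAK)).ker, ?_, ?_⟩
    · rw [ht', Finset.mem_coe]
      exact Finset.mem_insert_self _ _
    · rw [ht', Finset.mem_coe]
      exact Finset.mem_insert_of_mem (Finset.mem_insert_self _ _)
    · rw [h𝒟]
      refine ⟨(f.comp (Subgroup.inclusion hAK)).range, inferInstance,
        (f.comp (Subgroup.inclusion hAK)).rangeRestrict,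
        (f.comp (Subgroup.inclusion hAK)).rangeRestrict_surjective, MonoidHom.ker_rangeRestrict _, ?_⟩
      exact TL.of_inj (hK.of_surj f hf) (f.comp (Subgroup.inclusion hAK)).range.subtype
        (Subgroup.subtype_injective _) hW
    · intro e he
      exact (hfk _).2 he
  obtain ⟨K0, hAK0, -, -, hK0, D1, hD1, -⟩ := hmem 1 1
  obtain ⟨D₀, hD₀, hmin⟩ := (Set.toFinite 𝒟).exists_minimal ⟨D1, hD1⟩
  have hD₀le : ∀ D ∈ 𝒟, D₀ ≤ D := fun D hD =>
    (hmin (hinf D₀ hD₀ D hD) inf_le_left).trans inf_le_right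
  have hD₀ne : D₀ ≠ ⊥ := by
    intro h3
    rw [h𝒟] at hD₀
    obtain ⟨W, _, f, hf, hfk, hW⟩ := hD₀
    apply hAns
    exact TL.of_inj (hA.of_surj f hf) f ((MonoidHom.ker_eq_bot_iff f).1 (hfk.trans h3)) hW
  obtain ⟨e, he, he1⟩ : ∃ e : A, e ∈ D₀ ∧ e ≠ 1 := by
    by_contra hcon
    push Not at hcon
    exact hD₀ne ((Subgroup.eq_bot_iff_forall _).2 hcon)
  apply he1
  apply Subtype.ext
  apply hR1
  intro y z hez
  obtain ⟨K, hAK, hy, hz, hK, D, hD, hDF⟩ := hmem y z
  have h3 := hDF e (hD₀le D hD he)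
  exact inF_mono hK (closure_three_le (hAK e.2) hy hz) hez h3

theorem to_one (hk : 6 ≤ k) (h2 : TwoGen n) (h : HK (c + 1) n N k G)
    (hR1 : ∀ e ∈ R1 c G, e = 1) : ∀ j : ℕ, 2 * (j + 1) + 2 ≤ k →
    (∀ s : Finset G, s.card ≤ k → TL c (j + 1) (Subgroup.closure (s : Set G))) →
    ∀ s : Finset G, s.card ≤ k → TL c 1 (Subgroup.closure (s : Set G)) := by
  intro j
  induction j with
  | zero => exact fun _ hT => hT
  | succ j ih =>
    intro hj hT
    exact ih (by omega) (down hk h2 h hR1 (j + 1) (by omega) hT)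

/-- one step of the induction, for groups with trivial locally finite radical -/
theorem triv_all (hc : 0 < c) (hk : 6 ≤ k) (h2 : TwoGen n) (h : HK (c + 1) n N k G)
    {p a m : ℕ} (hp : p.Prime) (hpc : p ∣ c) (hn : n = p ^ (a + 1) * m) (hcop : Nat.Coprime p m)
    (ha : 2 * (a + 1) + 2 ≤ k)
    (IH : ∀ (G : Type) [Group G], HK c n N k G → LF G)
    (hrad : ∀ M : Subgroup G, M.Normal → LF M → M = ⊥) (g : G) : g = 1 := by
  have hR1 : ∀ e ∈ R1 c G, e = 1 := fun e he => R1_triv hc hk h2 h IH hrad he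
  have hT : ∀ s : Finset G, s.card ≤ k → TL c (a + 1) (Subgroup.closure (s : Set G)) := by
    intro s hs
    refine TL_of_exp hc hp hpc hcop h2 (a + 1) _ (h.hy s hs) fun x => ?_
    rw [← hn]
    exact (h.hy s hs).exp x
  have hT1 := to_one hk h2 h hR1 a ha hT
  exact triv_step hc hk h2 h (fun s hs => TL.l1 (h.hy s hs) (hT1 s hs)) IH hrad g

/-- local finiteness, by induction on the largest order of a simple section -/
theorem lf_HK {n N k v : ℕ} (hn : 1 ≤ n) (hk : 6 ≤ k) (hkv : 2 * v + 2 ≤ k)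
    (hq : ∀ p : ℕ, p.Prime → LocFin (qp p n))
    (hsq : ∃ p q : ℕ, ∀ r : ℕ, r.Prime → r ^ (v + 1) ∣ n → r = p ∨ r = q) (h2 : TwoGen n) :
    ∀ (c : ℕ) (G : Type) [Group G], HK c n N k G → LF G := by
  classical
  intro c
  induction c with
  | zero =>
    intro G _ h
    refine base hn hq G h.exp N fun a x z => ?_
    have h1 := h.gen {a, x, z} (Finset.card_le_three.trans (by omega))
    have e : (({a, x, z} : Finset G) : Set G) = {a, x, z} := by simp
    rw [e] at h1
    exact h1
  | succ c ih =>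
    intro G _ h
    by_cases hT : 0 < c ∧ ∃ (T : Type) (_ : Group T), Bg c T ∧ Finite T ∧ ∀ x : T, x ^ n = 1
    · obtain ⟨hc, T, _, hT1, hT2, hT3⟩ := hT
      obtain ⟨p, hp, hpc, hpn, hpv⟩ := prime_of hsq hT1 hT3
      obtain ⟨b, hb⟩ : ∃ b : ℕ, n.factorization p = b + 1 := by
        have h3 : 0 < n.factorization p := hp.factorization_pos_of_dvd (by omega) hpn
        exact ⟨n.factorization p - 1, by omega⟩
      have hbv : b + 1 ≤ v := by
        by_contra hcon
        apply hpv
        rw [hp.pow_dvd_iff_le_factorization (by omega)]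
        omega
      have hnm : n = p ^ (b + 1) * (n / p ^ n.factorization p) := by
        rw [← hb]
        exact (Nat.ordProj_mul_ordCompl_eq_self n p).symm
      have hcop : Nat.Coprime p (n / p ^ n.factorization p) := Nat.coprime_ordCompl hp (by omega)
      obtain ⟨M, hM, hML, hMmax⟩ := exists_radical G
      refine x_SCH G M hML ?_
      have h1 : ∀ g : G ⧸ M, g = 1 := by
        refine triv_all hc hk h2 (h.quot M) hp hpc hnm hcop (by omega) ih ?_
        intro L hL hLL
        rw [eq_bot_iff]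
        intro x hx
        obtain ⟨P, hPdef⟩ : ∃ P : Subgroup G, P = L.comap (QuotientGroup.mk' M) := ⟨_, rfl⟩
        have hPn : P.Normal := by
          rw [hPdef]
          infer_instance
        have hMP : M ≤ P := by
          rw [hPdef]
          intro y hy
          have h8 : (QuotientGroup.mk' M) y = 1 := (QuotientGroup.eq_one_iff y).2 hy
          change (QuotientGroup.mk' M) y ∈ L
          rw [h8]
          exact one_mem _
        have hPL : LF P := by
          have h9 : (M.subgroupOf P).Normal := ⟨fun y hy g => hM.conj_mem _ hy _⟩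
          refine x_SCH P (M.subgroupOf P) ?_ ?_
          · exact x_LFS.2.1 _ M (Subgroup.subgroupOfEquivOfLe hMP).toMonoidHom
              (Subgroup.subgroupOfEquivOfLe hMP).injective hML
          · have hPL'' : ∀ z ∈ P, (QuotientGroup.mk' M) z ∈ L := by
              rw [hPdef]
              exact fun z hz => hz
            have hPL' : ∀ y : P, (QuotientGroup.mk' M) y.1 ∈ L := fun y => hPL'' y.1 y.2
            let φ : P →* L := ((QuotientGroup.mk' M).comp P.subtype).codRestrict L hPL'
            have hφ : M.subgroupOf P ≤ φ.ker := by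
              intro y hy
              exact Subtype.ext ((QuotientGroup.eq_one_iff _).2 hy)
            refine x_LFS.2.1 _ L (QuotientGroup.lift (M.subgroupOf P) φ hφ) ?_ hLL
            rw [injective_iff_map_eq_one]
            intro y hy
            obtain ⟨y, rfl⟩ := QuotientGroup.mk_surjective y
            rw [QuotientGroup.eq_one_iff]
            have h10 : (φ y : G ⧸ M) = 1 := congrArg Subtype.val hy
            exact (QuotientGroup.eq_one_iff y.1).1 h10
        obtain ⟨y, rfl⟩ := QuotientGroup.mk_surjective x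
        rw [Subgroup.mem_bot, QuotientGroup.eq_one_iff]
        apply hMmax P hPn hPL
        rw [hPdef]
        exact hx
      intro S
      have : Subsingleton (G ⧸ M) := ⟨fun a b => by rw [h1 a, h1 b]⟩
      infer_instance
    · refine ih G ⟨h.exp, fun s hs => ⟨(h.gen s hs).1, (h.gen s hs).2.1, ?_⟩⟩
      intro S _ hS1 hS2 X f hf
      have h3 := (h.gen s hs).2.2 S hS1 hS2 X f hf
      by_contra hcon
      have h4 : Nat.card S = c := by omega
      have hfin := (h.gen s hs).1
      have hSfin : Finite S := Finite.of_surjective f hf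
      have hpos : 0 < Nat.card S := Nat.card_pos
      refine hT ⟨by omega, S, inferInstance, ⟨hS1, hS2, h4⟩, hSfin, fun x => ?_⟩
      obtain ⟨y, rfl⟩ := hf x
      rw [← map_pow]
      have : y ^ n = 1 := Subtype.ext (Subtype.ext (h.exp _))
      rw [this, map_one]

end Pool.Agent.TH69.Ns.X
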