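import Mathlib
import Pool.Agent.TH69.NsZB
import Pool.Agent.TH69.OkF

set_option autoImplicit false

/-!
# Groups of exponent `n` with nonsoluble finite subgroups, section ZC: all universes and `B_{k,n}`
-/

namespace Pool.Agent.TH69.Ns.X

open Pool.Agent.H32BU Pool.Agent.W629 Pool.Agent.TH69.Mtn Pool.Agent.TH69.Og Pool.Agent.TH69.Ok
open Pool.Agent.TH69.Ns

universe u

variable {c n N k : ℕ}

theorem HK.of_card {Q : Type} [Group Q] (hexp : ∀ x : Q, x ^ n = 1)
    (h : ∀ s : Finset Q, s.card ≤ k → Finite (Subgroup.closure (s : Set Q)) ∧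
      Nat.card (Subgroup.closure (s : Set Q)) ≤ N) : HK (N + 1) n N k Q := by
  refine ⟨hexp, fun s hs => ⟨(h s hs).1, (h s hs).2, ?_⟩⟩
  have := (h s hs).1
  exact Sm.of_card (Nat.lt_succ_of_le (h s hs).2)

theorem fin_transfer_k {Q : Type} {G : Type u} [Group Q] [Group G] (f : Q →* G)
    (hf : Function.Injective f)
    (h : ∀ s : Finset G, s.card ≤ k → Finite (Subgroup.closure (s : Set G)) ∧
      Nat.card (Subgroup.closure (s : Set G)) ≤ N) (s : Finset Q) (hs : s.card ≤ k) :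
    Finite (Subgroup.closure (s : Set Q)) ∧ Nat.card (Subgroup.closure (s : Set Q)) ≤ N := by
  classical
  obtain ⟨h1, h2⟩ := h (s.image f) (Finset.card_image_le.trans hs)
  have e : (Subgroup.closure (s : Set Q)).map f = Subgroup.closure ((s.image f : Finset G) : Set G) := by
    rw [MonoidHom.map_closure, Finset.coe_image]
  rw [← e] at h1 h2
  let iso := (Subgroup.closure (s : Set Q)).equivMapOfInjective f hf
  refine ⟨Finite.of_equiv _ iso.symm.toEquiv, ?_⟩
  rw [Nat.card_congr iso.toEquiv]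
  exact h2

theorem fin_of_B (hf : Finite (Bu k n)) {G : Type u} [Group G] (hG : ∀ x : G, x ^ n = 1)
    (s : Finset G) (hs : s.card ≤ k) : Finite (Subgroup.closure (s : Set G)) ∧
      Nat.card (Subgroup.closure (s : Set G)) ≤ Nat.card (Bu k n) := by
  classical
  obtain ⟨x, hx1, hx2⟩ : ∃ x : Fin k → G, (s : Set G) ⊆ Set.range x ∧
      Set.range x ⊆ insert 1 (s : Set G) := by
    refine ⟨fun i => if h : i.1 < s.card then (s.equivFin.symm ⟨i.1, h⟩ : G) else 1, ?_, ?_⟩
    · intro a ha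
      refine ⟨⟨(s.equivFin ⟨a, ha⟩).1, (s.equivFin ⟨a, ha⟩).2.trans_le hs⟩, ?_⟩
      simp
    · rintro _ ⟨i, rfl⟩
      dsimp only
      split_ifs with h
      · exact Set.mem_insert_of_mem _ (s.equivFin.symm ⟨i.1, h⟩).2
      · exact Set.mem_insert _ _
  have e : Subgroup.closure (Set.range x) = Subgroup.closure (s : Set G) := by
    apply le_antisymm
    · rw [Subgroup.closure_le]
      intro a ha
      rcases hx2 ha with rfl | ha
      · exact one_mem _
      · exact Subgroup.subset_closure ha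
    · exact Subgroup.closure_mono hx1
  have hker : Subgroup.normalClosure (Set.range fun w : FreeGroup (Fin k) => w ^ n) ≤
      (FreeGroup.lift x).ker := by
    refine Subgroup.normalClosure_le_normal ?_
    rintro _ ⟨w, rfl⟩
    rw [SetLike.mem_coe, MonoidHom.mem_ker, map_pow, hG]
  have hr : (QuotientGroup.lift _ (FreeGroup.lift x) hker).range =
      Subgroup.closure (s : Set G) := by
    rw [← e, ← FreeGroup.range_lift_eq_closure]
    ext y
    constructor
    · rintro ⟨q, rfl⟩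
      obtain ⟨w, rfl⟩ := QuotientGroup.mk_surjective q
      exact ⟨w, rfl⟩
    · rintro ⟨w, rfl⟩
      exact ⟨QuotientGroup.mk w, rfl⟩
  rw [← hr]
  have hsurj := (QuotientGroup.lift _ (FreeGroup.lift x) hker).rangeRestrict_surjective
  exact ⟨Finite.of_surjective _ hsurj, Nat.card_le_card_of_surjective _ hsurj⟩

/-- local finiteness in all universes -/
theorem lf_all_u {v : ℕ} (hn : 1 ≤ n) (hk : 6 ≤ k) (hkv : 2 * v + 2 ≤ k)
    (hq : ∀ p : ℕ, p.Prime → LocFin (qp p n))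
    (hsq : ∃ p q : ℕ, ∀ r : ℕ, r.Prime → r ^ (v + 1) ∣ n → r = p ∨ r = q) (h2 : TwoGen n)
    (G : Type u) [Group G] (hG : ∀ x : G, x ^ n = 1)
    (h : ∀ s : Finset G, s.card ≤ k → Finite (Subgroup.closure (s : Set G)) ∧
      Nat.card (Subgroup.closure (s : Set G)) ≤ N) (S : Set G) (hS : S.Finite) :
    Finite (Subgroup.closure S) :=
  finite_closure_u S hS fun Q _ f hf => lf_HK hn hk hkv hq hsq h2 (N + 1) Q
    (HK.of_card (fun x => hf (by rw [map_pow, map_one]; exact hG _)) (fin_transfer_k f hf h))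

theorem locfin_all {v : ℕ} (hn : 1 ≤ n) (hk : 6 ≤ k) (hkv : 2 * v + 2 ≤ k)
    (hq : ∀ p : ℕ, p.Prime → LocFin (qp p n))
    (hsq : ∃ p q : ℕ, ∀ r : ℕ, r.Prime → r ^ (v + 1) ∣ n → r = p ∨ r = q) (h2 : TwoGen n)
    (hf : Finite (Bu k n)) : LocFin n := fun G _ hG =>
  lf_HK hn hk hkv hq hsq h2 (Nat.card (Bu k n) + 1) G
    (HK.of_card hG (fin_of_B hf hG))

/-- numbers without large odd divisors -/
theorem small_odd {n : ℕ} (hn : 1 ≤ n) (h : ∀ m : ℕ, Odd m → m ∣ n → m < 3375) :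
    ∃ p q : ℕ, ∀ r : ℕ, r.Prime → r ^ 3 ∣ n → r = p ∨ r = q := by
  by_cases hex : ∃ q : ℕ, q.Prime ∧ q ≠ 2 ∧ q ^ 3 ∣ n
  · obtain ⟨q, hq, hq2, hqn⟩ := hex
    refine ⟨2, q, fun r hr hrn => ?_⟩
    by_contra hcon
    push Not at hcon
    obtain ⟨hr2, hrq⟩ := hcon
    have hcop : Nat.Coprime (r ^ 3) (q ^ 3) :=
      Nat.Coprime.pow _ _ ((Nat.coprime_primes hr hq).2 hrq)
    have h1 : r ^ 3 * q ^ 3 ∣ n := hcop.mul_dvd_of_dvd_of_dvd hrn hqn
    have h2 : Odd (r ^ 3 * q ^ 3) :=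
      ((hr.odd_of_ne_two hr2).pow).mul ((hq.odd_of_ne_two hq2).pow)
    have h3 := h _ h2 h1
    have hr3 : 3 ≤ r := by
      have := hr.two_le
      omega
    have hq3 : 3 ≤ q := by
      have := hq.two_le
      omega
    have h4 : (3 ≤ r ∧ 5 ≤ q) ∨ (5 ≤ r ∧ 3 ≤ q) := by
      by_cases h5 : r = 3
      · left
        refine ⟨hr3, ?_⟩
        by_contra h6
        have h7 : q = 3 ∨ q = 4 := by omega
        rcases h7 with rfl | rfl
        · exact hrq h5
        · exact absurd hq (by norm_num)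
      · right
        refine ⟨?_, hq3⟩
        by_contra h6
        have h7 : r = 4 := by omega
        subst h7
        exact absurd hr (by norm_num)
    rcases h4 with ⟨h5, h6⟩ | ⟨h5, h6⟩
    · have h7 : 3 ^ 3 * 5 ^ 3 ≤ r ^ 3 * q ^ 3 :=
        Nat.mul_le_mul (Nat.pow_le_pow_left h5 3) (Nat.pow_le_pow_left h6 3)
      omega
    · have h7 : 5 ^ 3 * 3 ^ 3 ≤ r ^ 3 * q ^ 3 :=
        Nat.mul_le_mul (Nat.pow_le_pow_left h5 3) (Nat.pow_le_pow_left h6 3)
      omega
  · refine ⟨2, 2, fun r hr hrn => ?_⟩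
    by_contra hcon
    push Not at hcon
    exact hex ⟨r, hr, hcon.1, hrn⟩

end Pool.Agent.TH69.Ns.X
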