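import Mathlib
import Pool.Agent.W629.TwiceLF

set_option autoImplicit false

/-!
# Groups of exponent `2 m`, `m` odd: structure theorem and the case of prime powers
-/

namespace Pool.Agent.TH69.Twice

open Pool.Agent.H32BU Pool.Agent.W629

universe u

/-- the structure theorem, for groups in all universes -/
theorem structure_thm {m : ℕ} (hm : Nat.Coprime m 2) (G : Type u) [Group G]
    (hG : ∀ x : G, x ^ (m * 2) = 1) (hB : Hyp m G) :
    ∃ N₁ N₂ : Subgroup G, N₁.Normal ∧ N₂.Normal ∧ N₁ ≤ N₂ ∧ (∀ x ∈ N₁, x ^ m = 1) ∧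
      (∀ x ∈ N₂, x ^ 2 ∈ N₁) ∧ (∀ x ∈ N₂, ∀ y ∈ N₂, x * y * x⁻¹ * y⁻¹ ∈ N₁) ∧
      ∀ x : G, x ^ m ∈ N₂ := by
  have hcomm : ∀ x y : G ⧸ Rad m G, x ^ 2 = 1 → y ^ 2 = 1 → x * y = y * x := by
    intro x y hx hy
    obtain ⟨x, rfl⟩ := QuotientGroup.mk_surjective x
    obtain ⟨y, rfl⟩ := QuotientGroup.mk_surjective y
    have h2 := sq_mem_rad_of_hyp hm hG hB (a := x ^ m) (b := y ^ m)
      (by rw [← pow_mul, hG]) (by rw [← pow_mul, hG])
    have h3 : ((x : G ⧸ Rad m G) * y) ^ 2 = 1 := by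
      rw [← QuotientGroup.eq_one_iff] at h2
      rw [QuotientGroup.mk_pow, QuotientGroup.mk_mul, QuotientGroup.mk_pow,
        QuotientGroup.mk_pow] at h2
      rwa [pow_odd_of_sq hm hx, pow_odd_of_sq hm hy] at h2
    exact invol_mul_comm hx hy h3
  let E : Subgroup (G ⧸ Rad m G) :=
    { carrier := {x | x ^ 2 = 1}
      one_mem' := one_pow _
      mul_mem' := by
        intro x y hx hy
        have hc : Commute x y := hcomm x y hx hy
        change (x * y) ^ 2 = 1
        rw [hc.mul_pow, hx, hy, one_mul]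
      inv_mem' := by
        intro x hx
        change x⁻¹ ^ 2 = 1
        rw [inv_pow, hx, inv_one] }
  have hE : E.Normal := ⟨fun x hx g => conj_pow_one hx⟩
  have hmem : ∀ x : G, x ∈ E.comap (QuotientGroup.mk' (Rad m G)) ↔ x ^ 2 ∈ Rad m G := by
    intro x
    change (x : G ⧸ Rad m G) ^ 2 = 1 ↔ _
    rw [← QuotientGroup.mk_pow, QuotientGroup.eq_one_iff]
  refine ⟨Rad m G, E.comap (QuotientGroup.mk' (Rad m G)), inferInstance, hE.comap _, ?_,
    fun x hx => hx.1, fun x hx => (hmem x).1 hx, ?_, fun x => (hmem _).2 ?_⟩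
  · intro x hx
    exact (hmem x).2 (pow_mem hx 2)
  · intro x hx y hy
    have hc := hcomm x y hx hy
    rw [← QuotientGroup.eq_one_iff, QuotientGroup.mk_mul, QuotientGroup.mk_mul,
      QuotientGroup.mk_mul, hc, QuotientGroup.mk_inv, QuotientGroup.mk_inv]
    group
  · rw [← pow_mul, hG]
    exact one_mem _

theorem hyp_of_injective {m : ℕ} {Q G : Type*} [Group Q] [Group G] (f : Q →* G)
    (hf : Function.Injective f)
    (h2 : ∀ x y : G, x ^ m = 1 → y ^ m = 1 → Group.IsSolvable (Subgroup.closure {x, y}))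
    (h3 : ∀ a b t : G, a ^ 2 = 1 → b ^ 2 = 1 → t ^ 2 = 1 →
      Group.IsSolvable (Subgroup.closure {a, b, t})) : Hyp m Q := by
  have key : ∀ T : Set Q, Group.IsSolvable (Subgroup.closure (f '' T)) →
      Group.IsSolvable (Subgroup.closure T) := by
    intro T hT
    have e := (Subgroup.closure T).equivMapOfInjective f hf
    rw [← MonoidHom.map_closure] at hT
    exact Group.isSolvable_of_isSolvable_injective (f := e.toMonoidHom) e.injective
  refine ⟨fun x y hx hy => key _ ?_, fun a b t ha hb ht => key _ ?_⟩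
  · rw [Set.image_pair]
    exact h2 _ _ (by rw [← map_pow, hx, map_one]) (by rw [← map_pow, hy, map_one])
  · rw [Set.image_insert_eq, Set.image_pair]
    exact h3 _ _ _ (by rw [← map_pow, ha, map_one]) (by rw [← map_pow, hb, map_one])
      (by rw [← map_pow, ht, map_one])

/-- local finiteness, for groups in all universes -/
theorem locfin_u {m : ℕ} (hm : Nat.Coprime m 2) (hL : InL.{u} m) (G : Type u) [Group G]
    (hG : ∀ x : G, x ^ (m * 2) = 1)
    (h2 : ∀ x y : G, x ^ m = 1 → y ^ m = 1 → Group.IsSolvable (Subgroup.closure {x, y}))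
    (h3 : ∀ a b t : G, a ^ 2 = 1 → b ^ 2 = 1 → t ^ 2 = 1 →
      Group.IsSolvable (Subgroup.closure {a, b, t}))
    (S : Set G) (hS : S.Finite) : Finite (Subgroup.closure S) := by
  refine finite_closure_u S hS fun Q _ f hf => ?_
  have hQ : ∀ x : Q, x ^ (m * 2) = 1 := fun x => hf (by rw [map_pow, map_one]; exact hG _)
  exact lf_twice hm ((inL_iff x_LFD _).1 hL) Q hQ (hyp_of_injective f hf h2 h3)

end Pool.Agent.TH69.Twice
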