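import Mathlib
import Pool.Agent.TH69.Twice

/-!
# Groups of exponent `2 m`, `m` odd

Proof in outline.  Let `R` be the set of the elements `e` with `e ^ m = 1` such that `(e z) ^ m = 1`
for all `z` with `z ^ m = 1`; it is the largest normal subgroup of exponent dividing `m`.  If
`a, b` are involutions and `u = (a b) ^ 2` is not in `R`, choose `y` with `y ^ m = 1 ≠ (u y) ^ m`.
The group `⟨u, y⟩` is soluble, so by the Hall-Higman lemma `1.2.3` in it there is an involution
`t ∈ ⟨u, y⟩` such that `t t ^ u` does not have order dividing `m`.  In the soluble group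
`⟨a, b, t⟩` this is impossible, as there involutions commute modulo the largest normal subgroup of
exponent dividing `m`.  So the involutions of `G / R` commute.
(The modules `Pool.Agent.W629.Rad`, `TwiceOdd`, `TwiceLF` of an earlier round are used.)
-/

set_option autoImplicit false

namespace Pool.Agent.Results.MP_544bd1_al.TwiceOdd

open Pool.Agent.H32BU Pool.Agent.W629

universe u

/-- `n ∈ 𝓛`: every group satisfying `x ^ n = 1` is locally finite. -/
def InL (n : ℕ) : Prop := ∀ (G : Type u) [Group G], (∀ x : G, x ^ n = 1) →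
  ∀ S : Set G, S.Finite → Finite (Subgroup.closure S)

/-- The free Burnside group `B_{m,n}`: the free group of rank `m` modulo the normal closure of all
`n`-th powers. -/
abbrev B (m n : ℕ) : Type :=
  FreeGroup (Fin m) ⧸ Subgroup.normalClosure (Set.range fun w : FreeGroup (Fin m) => w ^ n)

/-- The largest group of exponent dividing `n` generated by `m` elements `x_i` with `x_i ^ r = 1`:
the quotient of `B_{m,n}` by the normal closure of the `x_i ^ r`. -/
abbrev P (m n r : ℕ) : Type :=
  FreeGroup (Fin m) ⧸ Subgroup.normalClosure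
    ((Set.range fun w : FreeGroup (Fin m) => w ^ n) ∪
      Set.range fun i : Fin m => FreeGroup.of i ^ r)

theorem p_exp (m n r : ℕ) (x : P m n r) : x ^ n = 1 := by
  obtain ⟨w, rfl⟩ := QuotientGroup.mk_surjective x
  rw [← QuotientGroup.mk_pow, QuotientGroup.eq_one_iff]
  exact Subgroup.subset_normalClosure (Or.inl ⟨w, rfl⟩)

/-- `P m n r` is a quotient of `B m n` -/
theorem p_finite_of_b {m n r : ℕ} (h : Finite (B m n)) : Finite (P m n r) := by
  let f : B m n →* P m n r := QuotientGroup.map _ _ (MonoidHom.id _) (by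
    rw [Subgroup.comap_id]
    exact Subgroup.normalClosure_mono Set.subset_union_left)
  refine Finite.of_surjective f fun x => ?_
  obtain ⟨w, rfl⟩ := QuotientGroup.mk_surjective x
  exact ⟨(w : B m n), rfl⟩

theorem b_finite_of_inL {n : ℕ} (h : InL.{u} n) (m : ℕ) : Finite (B m n) :=
  x_LFD.2.1 n m ((inL_iff x_LFD n).1 h)

/-- a subgroup generated by elements `s i`, `s i ^ r = 1`, of a group of exponent dividing `n`
is finite if `P m n r` is -/
theorem closure_finite {m n r : ℕ} (hP : Finite (P m n r)) {G : Type u} [Group G]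
    (hG : ∀ x : G, x ^ n = 1) (s : Fin m → G) (hs : ∀ i, s i ^ r = 1) :
    Finite (Subgroup.closure (Set.range s)) := by
  let f0 : FreeGroup (Fin m) →* G := FreeGroup.lift s
  have hker : Subgroup.normalClosure ((Set.range fun w : FreeGroup (Fin m) => w ^ n) ∪
      Set.range fun i : Fin m => FreeGroup.of i ^ r) ≤ f0.ker := by
    apply Subgroup.normalClosure_le_normal
    rintro _ (⟨w, rfl⟩ | ⟨i, rfl⟩)
    · rw [SetLike.mem_coe, MonoidHom.mem_ker, map_pow, hG]
    · rw [SetLike.mem_coe, MonoidHom.mem_ker, map_pow, FreeGroup.lift_apply_of, hs]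
  let f : P m n r →* G := QuotientGroup.lift _ f0 (fun w hw => hker hw)
  have hr : f.range = Subgroup.closure (Set.range s) := by
    rw [← FreeGroup.range_lift_eq_closure]
    ext g
    constructor
    · rintro ⟨w, rfl⟩
      obtain ⟨w, rfl⟩ := QuotientGroup.mk_surjective w
      exact ⟨w, rfl⟩
    · rintro ⟨w, rfl⟩
      exact ⟨(w : P m n r), rfl⟩
  rw [← hr]
  exact Finite.of_surjective f.rangeRestrict f.rangeRestrict_surjective

theorem closure_pair_eq {G : Type u} [Group G] (x y : G) :
    Subgroup.closure (Set.range ![x, y]) = Subgroup.closure {x, y} := by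
  congr 1
  ext g
  simp only [Matrix.range_cons, Matrix.range_empty, Set.union_empty, Set.mem_union,
    Set.mem_singleton_iff, Set.mem_insert_iff]

theorem closure_triple_eq {G : Type u} [Group G] (x y z : G) :
    Subgroup.closure (Set.range ![x, y, z]) = Subgroup.closure {x, y, z} := by
  congr 1
  ext g
  simp only [Matrix.range_cons, Matrix.range_empty, Set.union_empty, Set.mem_union,
    Set.mem_singleton_iff, Set.mem_insert_iff]

theorem solvable_of_finite {p k : ℕ} (hp : p.Prime) {G : Type u} [Group G]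
    (hG : ∀ x : G, x ^ (2 * p ^ k) = 1) (K : Subgroup G) (hK : Finite K) : Group.IsSolvable K := by
  have hsm : Small.{0} K := inferInstance
  let e : Shrink.{0} K ≃* K := Shrink.mulEquiv
  have hfin : Finite (Shrink.{0} K) := Finite.of_equiv _ e.symm.toEquiv
  have h1 : Group.IsSolvable (Shrink.{0} K) :=
    solv_of_exp 2 p 1 k Nat.prime_two hp (fun x => by
      rw [pow_one]
      apply e.injective
      rw [map_pow, map_one]
      exact exp_sub hG K _)
  exact Group.isSolvable_of_surjective (f := e.toMonoidHom) e.surjective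

/-- (1) Let `m` be odd and let `G` be a group of exponent dividing `2 m` in which any two elements
of order dividing `m` generate a soluble subgroup and any three elements of order dividing `2`
generate a soluble subgroup. Then `G` has normal subgroups `N₁ ≤ N₂` such that `N₁` and `G / N₂`
have exponent dividing `m` and `N₂ / N₁` is elementary abelian of exponent dividing `2`; and if
`m ∈ 𝓛`, then `G` is locally finite. (2) For a power `q` of an odd prime, `2 q ∈ 𝓛` if and only if
`q ∈ 𝓛` and the two-generator free Burnside group `B_{2,2q}` is finite; and also if and only if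
`q ∈ 𝓛`, the largest group of exponent `2 q` generated by two elements of order dividing `q` is
finite and the largest group of exponent `2 q` generated by three elements of order dividing `2` is
finite. -/
theorem result :
    (∀ m : ℕ, Odd m → ∀ (G : Type u) [Group G], (∀ x : G, x ^ (2 * m) = 1) →
      (∀ x y : G, x ^ m = 1 → y ^ m = 1 → Group.IsSolvable (Subgroup.closure {x, y})) →
      (∀ a b t : G, a ^ 2 = 1 → b ^ 2 = 1 → t ^ 2 = 1 →
        Group.IsSolvable (Subgroup.closure {a, b, t})) →
      (∃ N₁ N₂ : Subgroup G, N₁.Normal ∧ N₂.Normal ∧ N₁ ≤ N₂ ∧ (∀ x ∈ N₁, x ^ m = 1) ∧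
        (∀ x ∈ N₂, x ^ 2 ∈ N₁) ∧ (∀ x ∈ N₂, ∀ y ∈ N₂, x * y * x⁻¹ * y⁻¹ ∈ N₁) ∧
        ∀ x : G, x ^ m ∈ N₂) ∧
      (InL.{u} m → ∀ S : Set G, S.Finite → Finite (Subgroup.closure S))) ∧
    (∀ p k : ℕ, p.Prime → p ≠ 2 →
      (InL.{u} (2 * p ^ k) ↔ InL.{u} (p ^ k) ∧ Finite (B 2 (2 * p ^ k))) ∧
      (InL.{u} (2 * p ^ k) ↔ InL.{u} (p ^ k) ∧ Finite (P 2 (2 * p ^ k) (p ^ k)) ∧
        Finite (P 3 (2 * p ^ k) 2))) := by
  have main : ∀ m : ℕ, Odd m → ∀ (G : Type u) [Group G], (∀ x : G, x ^ (2 * m) = 1) →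
      (∀ x y : G, x ^ m = 1 → y ^ m = 1 → Group.IsSolvable (Subgroup.closure {x, y})) →
      (∀ a b t : G, a ^ 2 = 1 → b ^ 2 = 1 → t ^ 2 = 1 →
        Group.IsSolvable (Subgroup.closure {a, b, t})) →
      (∃ N₁ N₂ : Subgroup G, N₁.Normal ∧ N₂.Normal ∧ N₁ ≤ N₂ ∧ (∀ x ∈ N₁, x ^ m = 1) ∧
        (∀ x ∈ N₂, x ^ 2 ∈ N₁) ∧ (∀ x ∈ N₂, ∀ y ∈ N₂, x * y * x⁻¹ * y⁻¹ ∈ N₁) ∧
        ∀ x : G, x ^ m ∈ N₂) ∧
      (InL.{u} m → ∀ S : Set G, S.Finite → Finite (Subgroup.closure S)) := by
    intro m hm G _ hG h2 h3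
    have hm2 : Nat.Coprime m 2 := Nat.coprime_two_right.2 hm
    have hG' : ∀ x : G, x ^ (m * 2) = 1 := fun x => by rw [mul_comm]; exact hG x
    exact ⟨Pool.Agent.TH69.Twice.structure_thm hm2 G hG' ⟨h2, h3⟩,
      fun hL S hS => Pool.Agent.TH69.Twice.locfin_u hm2 hL G hG' h2 h3 S hS⟩
  have key : ∀ p k : ℕ, p.Prime → p ≠ 2 → InL.{u} (p ^ k) → Finite (P 2 (2 * p ^ k) (p ^ k)) →
      Finite (P 3 (2 * p ^ k) 2) → InL.{u} (2 * p ^ k) := by
    intro p k hp hp2 hL hP2 hP3 G _ hG
    refine (main (p ^ k) ((hp.odd_of_ne_two hp2).pow) G hG ?_ ?_).2 hL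
    · intro x y hx hy
      refine solvable_of_finite hp hG _ ?_
      rw [← closure_pair_eq]
      exact closure_finite hP2 hG ![x, y] (by
        intro i
        fin_cases i
        · exact hx
        · exact hy)
    · intro a b t ha hb ht
      refine solvable_of_finite hp hG _ ?_
      rw [← closure_triple_eq]
      exact closure_finite hP3 hG ![a, b, t] (by
        intro i
        fin_cases i
        · exact ha
        · exact hb
        · exact ht)
  refine ⟨main, fun p k hp hp2 => ?_⟩
  have hdiv : InL.{u} (2 * p ^ k) → InL.{u} (p ^ k) := by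
    intro h G _ hG
    exact h G fun x => by rw [mul_comm, pow_mul, hG, one_pow]
  refine ⟨⟨fun h => ⟨hdiv h, b_finite_of_inL h 2⟩, fun h => ?_⟩,
    ⟨fun h => ⟨hdiv h, p_finite_of_b (b_finite_of_inL h 2), p_finite_of_b (b_finite_of_inL h 3)⟩,
      fun h => key p k hp hp2 h.1 h.2.1 h.2.2⟩⟩
  have h1 : LocFin (2 * p ^ k) := locfin_twice_pp hp hp2 ((inL_iff x_LFD _).1 h.1) h.2
  exact (inL_iff x_LFD _).2 h1

end Pool.Agent.Results.MP_544bd1_al.TwiceOdd
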